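import Pool.Agent.Lib.VK.Defs
import Pool.Agent.Lib.SW.Tauber

/-!
# VK / RDiff: prime powers of small primes, and removal of the logarithmic weight

`lam_diff`. PROOF. Λ(n) ≠ 0 and n not rough: n = p^j, p ≤ y (p^j with j ≥ 1 is rough iff p > y, `rough_mul`, `rough_prime`). On such n the terms are Λ(n) χ(n) nt t n = log p ≤ log(2R); their number in (R, R'] is
≤ y · (log(2R)/log 2) (for each p at most log(2R)/log 2 exponents). For rough n the two terms agree. So the difference is ≤ y (log 2R)^2/log 2 ≤ 2 y (log(2R))^2.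

`prime_of_lam`. PROOF. Let B bound all ‖∑_{R<n≤R''} Λ(n) χ(n) nt t n‖, R'' ≤ 2R. The proper prime powers in (R, 2R] contribute ≤ ∑_{p ≤ √(2R)} log(2R)·(log(2R)/log 2).. ≤ 4 √R (log(2R))^2 (number of p^j ≤ 2R, j ≥ 2, is ≤ √(2R) log(2R)/log 2, each with Λ ≤ log(2R)),
so ‖∑_{R<p≤R''} log p χ(p) nt t p‖ ≤ B + 4 √R (log 2R)^2 =: B'. Abel summation with the decreasing weight 1/log n (`SW.abel_bound` or by hand): ≤ 2 B'/log R ≤ 2 B' (log R ≥ 1).
-/

set_option autoImplicit false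

open Finset
open scoped ArithmeticFunction.vonMangoldt

namespace Pool.Agent.Lib.VK

open Pool.Agent.Lib.DN (nt)

private theorem rdiff_card (M N : ℕ) (S : Finset ℕ)
    (hS : ∀ n ∈ S, n ≤ N ∧ ∃ p j : ℕ, p.Prime ∧ p ≤ M ∧ n = p ^ j ∧ 0 < j) :
    (S.card : ℝ) ≤ M * (Real.log N / Real.log 2) := by
  have h1 : S ⊆ (Icc 1 M ×ˢ Icc 1 (Nat.log 2 N)).image (fun q => q.1 ^ q.2) := by
    intro n hn
    obtain ⟨hN, p, j, hp, hpM, rfl, hj⟩ := hS n hn
    rw [mem_image]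
    refine ⟨(p, j), ?_, rfl⟩
    rw [mem_product, mem_Icc, mem_Icc]
    refine ⟨⟨hp.one_lt.le, hpM⟩, hj, ?_⟩
    exact Nat.le_log_of_pow_le one_lt_two ((Nat.pow_le_pow_left hp.two_le j).trans hN)
  have h2 : S.card ≤ M * Nat.log 2 N := by
    refine (card_le_card h1).trans (card_image_le.trans ?_)
    rw [card_product, Nat.card_Icc, Nat.card_Icc]
    simp
  have h3 : ((Nat.log 2 N : ℕ) : ℝ) ≤ Real.log N / Real.log 2 := by
    have := Real.natLog_le_logb N 2
    simpa [Real.logb] using this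
  calc (S.card : ℝ) ≤ ((M * Nat.log 2 N : ℕ) : ℝ) := by exact_mod_cast h2
    _ = M * (Nat.log 2 N : ℕ) := by push_cast; ring
    _ ≤ _ := mul_le_mul_of_nonneg_left h3 (Nat.cast_nonneg _)

private theorem rdiff_sum (M R R' : ℕ) (hR : 3 ≤ R) (hR' : R' ≤ 2 * R) (f : ℕ → ℂ)
    (hf : ∀ n ∈ Ioc R R', ‖f n‖ ≤ Real.log (2 * R))
    (hz : ∀ n ∈ Ioc R R', f n ≠ 0 → ∃ p j : ℕ, p.Prime ∧ p ≤ M ∧ n = p ^ j ∧ 0 < j) :
    ‖∑ n ∈ Ioc R R', f n‖ ≤ 2 * M * (Real.log (2 * R)) ^ 2 := by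
  have hlog : 0 ≤ Real.log (2 * R) := Real.log_nonneg (by
    have : (3 : ℝ) ≤ R := by exact_mod_cast hR
    linarith)
  classical
  have h1 : ∑ n ∈ Ioc R R', f n = ∑ n ∈ (Ioc R R').filter (fun n => f n ≠ 0), f n := by
    rw [sum_filter_ne_zero]
  rw [h1]
  have h2 := rdiff_card M (2 * R) ((Ioc R R').filter (fun n => f n ≠ 0)) (by
    intro n hn
    rw [mem_filter] at hn
    exact ⟨(mem_Ioc.1 hn.1).2.trans hR', hz n hn.1 hn.2⟩)
  push_cast at h2
  refine (norm_sum_le_of_le _ (fun n hn => hf n (mem_filter.1 hn).1)).trans ?_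
  rw [sum_const, nsmul_eq_mul]
  have h3 : Real.log (2 * R) / Real.log 2 ≤ 2 * Real.log (2 * R) := by
    rw [div_le_iff₀ (Real.log_pos one_lt_two)]
    have := Real.log_two_gt_d9
    nlinarith
  calc _ ≤ ((M : ℝ) * (Real.log (2 * R) / Real.log 2)) * Real.log (2 * R) :=
        mul_le_mul_of_nonneg_right h2 hlog
    _ ≤ ((M : ℝ) * (2 * Real.log (2 * R))) * Real.log (2 * R) :=
        mul_le_mul_of_nonneg_right (mul_le_mul_of_nonneg_left h3 (Nat.cast_nonneg _)) hlog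
    _ = _ := by ring

private theorem rdiff_lam_le {q : ℕ} (χ : DirichletCharacter ℂ q) {R R' n : ℕ} (t : ℝ)
    (hR' : R' ≤ 2 * R) (hn : n ∈ Ioc R R') :
    ‖((Λ n : ℝ) : ℂ) * χ (n : ZMod q) * nt t n‖ ≤ Real.log (2 * R) := by
  rw [mem_Ioc] at hn
  rw [norm_mul, norm_mul, Pool.Agent.Lib.DN.norm_nt, mul_one, Complex.norm_real,
    Real.norm_of_nonneg ArithmeticFunction.vonMangoldt_nonneg]
  have h0 : (0 : ℝ) < n := by exact_mod_cast (by omega : 0 < n)
  have h1 : (n : ℝ) ≤ 2 * R := by exact_mod_cast hn.2.trans hR'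
  calc Λ n * ‖χ (n : ZMod q)‖ ≤ Λ n * 1 := mul_le_mul_of_nonneg_left
        (DirichletCharacter.norm_le_one χ _) ArithmeticFunction.vonMangoldt_nonneg
    _ = Λ n := mul_one _
    _ ≤ Real.log n := ArithmeticFunction.vonMangoldt_le_log
    _ ≤ Real.log (2 * R) := Real.log_le_log h0 h1

theorem lam_diff {q : ℕ} (χ : DirichletCharacter ℂ q) (y R R' : ℕ) (t : ℝ) (hR : 3 ≤ R) (hR' : R' ≤ 2 * R) :
    ‖∑ n ∈ Ioc R R', ((Λ n : ℝ) : ℂ) * χ (n : ZMod q) * nt t n - ∑ n ∈ Ioc R R', frL χ y n * nt t n‖ ≤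
      2 * y * (Real.log (2 * R)) ^ 2 := by
  classical
  rw [← sum_sub_distrib]
  have hlog : 0 ≤ Real.log (2 * R) := Real.log_nonneg (by
    have : (3 : ℝ) ≤ R := by exact_mod_cast hR
    linarith)
  have key : ∀ n, ((Λ n : ℝ) : ℂ) * χ (n : ZMod q) * nt t n - frL χ y n * nt t n =
      if Rough y n then 0 else ((Λ n : ℝ) : ℂ) * χ (n : ZMod q) * nt t n := by
    intro n
    unfold frL fr
    split_ifs <;> ring
  refine rdiff_sum y R R' hR hR' _ ?_ ?_
  · intro n hn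
    rw [key n]
    split_ifs with h
    · simpa using hlog
    · exact rdiff_lam_le χ t hR' hn
  · intro n hn h0
    rw [key n] at h0
    split_ifs at h0 with h
    · exact absurd rfl h0
    have hΛ : Λ n ≠ 0 := by
      intro h1
      apply h0
      rw [h1]
      simp
    obtain ⟨p, k, hp, hk, rfl⟩ := (isPrimePow_nat_iff n).1
      (ArithmeticFunction.vonMangoldt_ne_zero_iff.1 hΛ)
    refine ⟨p, k, hp, ?_, rfl, hk⟩
    by_contra hlt
    push Not at hlt
    refine h ⟨pow_ne_zero _ hp.ne_zero, fun r hr hd => ?_⟩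
    rwa [(Nat.prime_dvd_prime_iff_eq hr hp).1 (hr.dvd_of_dvd_pow hd)]

theorem prime_of_lam {q : ℕ} (χ : DirichletCharacter ℂ q) (R R' : ℕ) (t B : ℝ) (hR : 3 ≤ R) (hR' : R' ≤ 2 * R)
    (h : ∀ R'' : ℕ, R ≤ R'' → R'' ≤ 2 * R → ‖∑ n ∈ Ioc R R'', ((Λ n : ℝ) : ℂ) * χ (n : ZMod q) * nt t n‖ ≤ B) :
    ‖∑ p ∈ (Ioc R R').filter Nat.Prime, χ (p : ZMod q) * nt t p‖ ≤ 2 * (B + 4 * Real.sqrt R * (Real.log (2 * R)) ^ 2) := by
  have hB : 0 ≤ B := (norm_nonneg _).trans (h R le_rfl (by omega))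
  have hR3 : (3 : ℝ) ≤ R := by exact_mod_cast hR
  have hlog : 0 ≤ Real.log (2 * R) := Real.log_nonneg (by linarith)
  rcases lt_or_ge R' R with hlt | hle
  · rw [Ioc_eq_empty (by omega), filter_empty, sum_empty, norm_zero]
    positivity
  classical
  set b : ℕ → ℂ := fun n => if R < n ∧ n.Prime then
    ((Real.log n : ℝ) : ℂ) * χ (n : ZMod q) * nt t n else 0 with hb
  have h1 : ∑ p ∈ (Ioc R R').filter Nat.Prime, χ (p : ZMod q) * nt t p =
      ∑ n ∈ Ioc R R', b n * (((Real.log n)⁻¹ : ℝ) : ℂ) := by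
    rw [sum_filter]
    refine sum_congr rfl fun n hn => ?_
    rw [mem_Ioc] at hn
    simp only [hb]
    by_cases hp : n.Prime
    · rw [if_pos hp, if_pos ⟨hn.1, hp⟩]
      have h2 : (Real.log n : ℝ) ≠ 0 := (Real.log_pos (by exact_mod_cast hp.one_lt)).ne'
      have h3 : ((Real.log n : ℝ) : ℂ) ≠ 0 := by exact_mod_cast h2
      rw [Complex.ofReal_inv]
      field_simp
    · rw [if_neg hp, if_neg (fun h => hp h.2), zero_mul]
  have hS : ∀ n, R ≤ n → n ≤ R' → ‖∑ i ∈ Finset.Icc 1 n, b i‖ ≤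
      B + 4 * Real.sqrt R * (Real.log (2 * R)) ^ 2 := by
    intro n hn1 hn2
    have e1 : ∑ i ∈ Finset.Icc 1 n, b i = ∑ i ∈ Ioc R n, b i := by
      symm
      refine sum_subset ?_ ?_
      · intro i hi
        rw [mem_Ioc] at hi
        rw [mem_Icc]
        omega
      · intro i hi hi2
        rw [mem_Icc] at hi
        rw [mem_Ioc] at hi2
        simp only [hb]
        rw [if_neg]
        rintro ⟨h3, -⟩
        exact hi2 ⟨h3, hi.2⟩
    have e2 : ∑ i ∈ Ioc R n, b i = ∑ i ∈ Ioc R n, ((Λ i : ℝ) : ℂ) * χ (i : ZMod q) * nt t i -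
        ∑ i ∈ Ioc R n, (if i.Prime then 0 else ((Λ i : ℝ) : ℂ) * χ (i : ZMod q) * nt t i) := by
      rw [← sum_sub_distrib]
      refine sum_congr rfl fun i hi => ?_
      rw [mem_Ioc] at hi
      simp only [hb]
      by_cases hp : i.Prime
      · rw [if_pos ⟨hi.1, hp⟩, if_pos hp, ArithmeticFunction.vonMangoldt_apply_prime hp, sub_zero]
      · rw [if_neg (fun h => hp h.2), if_neg hp, sub_self]
    have e3 := rdiff_sum (Nat.sqrt (2 * R)) R n hR (hn2.trans hR')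
      (fun i => if i.Prime then 0 else ((Λ i : ℝ) : ℂ) * χ (i : ZMod q) * nt t i) (by
        intro i hi
        split_ifs with hp
        · simpa using hlog
        · exact rdiff_lam_le χ t (hn2.trans hR') hi) (by
        intro i hi h0
        split_ifs at h0 with hp
        · exact absurd rfl h0
        have hΛ : Λ i ≠ 0 := by
          intro h1
          apply h0
          rw [h1]
          simp
        obtain ⟨p, k, hp', hk, rfl⟩ := (isPrimePow_nat_iff i).1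
          (ArithmeticFunction.vonMangoldt_ne_zero_iff.1 hΛ)
        refine ⟨p, k, hp', ?_, rfl, hk⟩
        have hk1 : k ≠ 1 := by
          rintro rfl
          rw [pow_one] at hp
          exact hp hp'
        rw [Nat.le_sqrt']
        refine (Nat.pow_le_pow_right hp'.pos (by omega : 2 ≤ k)).trans ?_
        exact (mem_Ioc.1 hi).2.trans (hn2.trans hR'))
    have e4 : ((Nat.sqrt (2 * R) : ℕ) : ℝ) ≤ 2 * Real.sqrt R := by
      have h5 : ((Nat.sqrt (2 * R) : ℕ) : ℝ) ≤ Real.sqrt ((2 * R : ℕ) : ℝ) := Real.nat_sqrt_le_real_sqrt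
      refine h5.trans ?_
      rw [Real.sqrt_le_left (by positivity)]
      rw [mul_pow, Real.sq_sqrt (Nat.cast_nonneg _)]
      push_cast
      linarith
    rw [e1, e2]
    refine (norm_sub_le _ _).trans (add_le_add (h n hn1 (hn2.trans hR')) (e3.trans ?_))
    have : 0 ≤ (Real.log (2 * R)) ^ 2 := sq_nonneg _
    nlinarith
  rw [h1]
  have h3 := Pool.Agent.Lib.SW.abel_bound b (fun n => (Real.log n)⁻¹) R
    (B + 4 * Real.sqrt R * (Real.log (2 * R)) ^ 2) (by
      intro n hn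
      have h4 : (1 : ℝ) < n := by exact_mod_cast (by omega : 1 < n)
      refine inv_anti₀ (Real.log_pos h4) (Real.log_le_log (by linarith) ?_)
      push_cast
      linarith) (by
      intro n hn
      have h4 : (1 : ℝ) ≤ n := by exact_mod_cast (by omega : 1 ≤ n)
      exact inv_nonneg.2 (Real.log_nonneg h4)) R' hle hS
  refine h3.trans ?_
  have h5 : (Real.log ((R + 1 : ℕ) : ℝ))⁻¹ ≤ 1 := by
    refine inv_le_one_of_one_le₀ ?_
    rw [Real.le_log_iff_exp_le (by positivity)]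
    have := Real.exp_one_lt_d9
    push_cast
    linarith
  have h6 : 0 ≤ 2 * (B + 4 * Real.sqrt R * (Real.log (2 * R)) ^ 2) := by positivity
  calc _ ≤ 2 * (B + 4 * Real.sqrt R * (Real.log (2 * R)) ^ 2) * 1 :=
        mul_le_mul_of_nonneg_left h5 h6
    _ = _ := mul_one _

end Pool.Agent.Lib.VK
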