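import Pool.Agent.Lib.VK.Defs

/-!
# VK / RSm: from residue classes to characters

PROOF. If b ≤ a the sum is empty. Split the sum over n into the classes n % q = s, s < q: χ(n) = χ(s) there (n and n % q have the same image in ZMod q), |χ(s)| ≤ 1, so the norm is
≤ ∑_{s < q} a δ / q = δ a.
-/

set_option autoImplicit false

open Finset

namespace Pool.Agent.Lib.VK

open Pool.Agent.Lib.DN (nt)

theorem sm_of_prog {q : ℕ} (hq : 1 ≤ q) (χ : DirichletCharacter ℂ q) (y : ℕ) (t ε : ℝ)
    (h : ∀ a b s : ℕ, y ≤ a → b ≤ 2 * a → s < q → ‖∑ n ∈ (Ioc a b).filter (fun n => n % q = s), nt t n‖ ≤ ε * a / q) :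
    Sm χ y t ε := by
  intro a b ha hb
  have hq0 : (0 : ℝ) < q := by exact_mod_cast hq
  have hmaps : ∀ n ∈ Ioc a b, n % q ∈ range q := fun n _ => Finset.mem_range.2 (Nat.mod_lt _ hq)
  have h1 : ∑ n ∈ Ioc a b, χ (n : ZMod q) * nt t n =
      ∑ s ∈ range q, χ ((s : ℕ) : ZMod q) * ∑ n ∈ (Ioc a b).filter (fun n => n % q = s), nt t n := by
    rw [← Finset.sum_fiberwise_of_maps_to hmaps]
    refine Finset.sum_congr rfl fun s _ => ?_
    rw [Finset.mul_sum]
    refine Finset.sum_congr rfl fun n hn => ?_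
    have h2 : n % q = s := (Finset.mem_filter.1 hn).2
    rw [← h2, ZMod.natCast_mod]
  rw [h1]
  calc ‖∑ s ∈ range q, χ ((s : ℕ) : ZMod q) * ∑ n ∈ (Ioc a b).filter (fun n => n % q = s), nt t n‖
      ≤ ∑ s ∈ range q, ‖χ ((s : ℕ) : ZMod q) * ∑ n ∈ (Ioc a b).filter (fun n => n % q = s), nt t n‖ :=
        norm_sum_le _ _
    _ ≤ ∑ s ∈ range q, ε * a / q := by
        refine Finset.sum_le_sum fun s hs => ?_
        rw [norm_mul]
        have h3 := h a b s ha hb (Finset.mem_range.1 hs)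
        calc _ ≤ 1 * ‖∑ n ∈ (Ioc a b).filter (fun n => n % q = s), nt t n‖ :=
              mul_le_mul_of_nonneg_right (DirichletCharacter.norm_le_one χ _) (norm_nonneg _)
          _ ≤ ε * a / q := by rw [one_mul]; exact h3
    _ = ε * a := by
        rw [Finset.sum_const, Finset.card_range, nsmul_eq_mul]
        field_simp

end Pool.Agent.Lib.VK
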