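import Pool.Agent.Lib.SW.Tauber

/-!
# VK / RTau: the Tauberian step with the parameter M

PROOF. Adapt SW/Tauber.lean (R_bound, S_bound, tauber). b n = lc a (2k+1) n, |b n| ≤ (1 + log n)^(2k+2). Let L = 1 + log(4R).
(1) For R ≤ z ≤ 4R (real z), S(z) = ∑_{n ≤ z} b n log(z/n): `SW.R_bound` uses only s with re s = 1 + 1/log z: here 1 + 1/log z ≥ 1 + 1/(2 log(2R)) (log(4R) ≤ 2 log(2R)) and ≤ 2, so copying its proof
(or `SW.perron_bound` with σ = 1 + 1/log z, z^σ = e z): |S(z)| ≤ 12 M z.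
(2) A(z) = ∑_{n ≤ z} b n for R ≤ z ≤ 2R. With η in (0,1]: S(z(1+η)) - S(z) = log(1+η) A(z) + ∑_{z < n ≤ z(1+η)} b n log(z(1+η)/n), the last sum is ≤ (ηz + 1) L^(2k+2) η (log(1+η) ≤ η), and
log(1+η) ≥ η/2. So |A(z)| ≤ (2/η) 12 M (3z) + 2 (ηz+1) L^(2k+2). Take η = √M / L^(k+1) ≤ 1 (M ≤ (log R)^(2k+2) ≤ L^(2k+2)): |A(z)| ≤ 72 z √M L^(k+1) + 2 z √M L^(k+1) + 2 L^(2k+2) ≤ C z √M L^(k+1)
(z ≥ R ≥ c_k L^(k+1), √M ≥ 1).
(3) Abel summation on (R, R'] with the decreasing weight (log n)^(-(2k+1)) (`SW.abel_bound`, a n = b n (log n)^(-(2k+1)) for n ≥ 2): ≤ 2 · C 2R √M L^(k+1) (log R)^(-(2k+1)), and L ≤ 4 log R for R ≥ 3: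
≤ C' R √M (log R)^(-k).
-/

set_option autoImplicit false

open Finset

namespace Pool.Agent.Lib.VK

open Pool.Agent.Lib.SW (lc)

theorem rtau_R (k : ℕ) (a : ℕ → ℂ) (M T : ℝ) (hM0 : 0 ≤ M) (hT : 1 < T)
    (ha : ∀ n : ℕ, 1 ≤ n → ‖a n‖ ≤ 1 + Real.log n)
    (hL : ∀ s : ℂ, 1 + 1 / (2 * Real.log T) ≤ s.re → s.re ≤ 2 →
        ‖LSeries (lc a (2 * k + 1)) s‖ ≤ M * (|s.im| + 2) ^ (1 / 2 : ℝ))
    (x : ℝ) (hx : 3 ≤ x) (hxT : Real.log x ≤ 2 * Real.log T) :
    ‖∑ n ∈ Finset.Icc 1 ⌊x⌋₊, lc a (2 * k + 1) n * (Real.log (x / n) : ℂ)‖ ≤ 12 * M * x := by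
  have hl := Pool.Agent.Lib.SW.one_lt_log_of_three_le hx
  have hl0 : 0 < Real.log x := by linarith
  have hT' : Pool.Agent.Lib.SW.Tame a :=
    ⟨1, 1, zero_le_one, fun n hn => by simpa using ha n hn⟩
  set σ : ℝ := 1 + 1 / Real.log x with hσ
  have h1 : 0 < 1 / Real.log x := by positivity
  have h2 : 1 / Real.log x ≤ 1 := by
    rw [div_le_one hl0]; linarith
  have hσ1 : 1 < σ := by linarith
  have hσ2 : σ ≤ 2 := by linarith
  have hσ3 : 1 + 1 / (2 * Real.log T) ≤ σ := by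
    have := one_div_le_one_div_of_le hl0 hxT
    linarith
  have hre : ∀ t : ℝ, ((σ : ℂ) + t * Complex.I).re = σ := fun t => by simp
  have him : ∀ t : ℝ, ((σ : ℂ) + t * Complex.I).im = t := fun t => by simp
  have hb := Pool.Agent.Lib.SW.perron_bound (lc a (2 * k + 1)) σ hσ1
    (hT'.summable _ (by simpa using hσ1)) M
    (fun t => by
      have := hL ((σ : ℂ) + t * Complex.I) (by rw [hre]; exact hσ3) (by rw [hre]; exact hσ2)
      rwa [him] at this) x (by linarith)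
  have hxσ : x ^ σ = x * Real.exp 1 := by
    rw [hσ, Real.rpow_add (by linarith), Real.rpow_one, Real.rpow_def_of_pos (by linarith)]
    congr 2
    field_simp
  rw [hxσ] at hb
  have he := Real.exp_one_lt_d9
  have hMx : 0 ≤ M * x := mul_nonneg hM0 (by linarith)
  calc _ ≤ _ := hb
    _ = 4 * Real.exp 1 * (M * x) := by ring
    _ ≤ 12 * (M * x) := mul_le_mul_of_nonneg_right (by linarith) hMx
    _ = 12 * M * x := by ring

theorem rtau_A (k : ℕ) (C1 : ℝ) (hC1 : 0 ≤ C1)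
    (h1 : ∀ x : ℝ, 1 ≤ x → (2 + Real.log x) ^ (2 * (k + 1)) ≤ C1 * x ^ (1 : ℝ))
    (a : ℕ → ℂ) (M : ℝ) (R : ℕ) (hR : 3 ≤ R) (hM1 : 1 ≤ M)
    (hM2 : M ≤ (Real.log R) ^ (2 * k + 2))
    (ha : ∀ n : ℕ, 1 ≤ n → ‖a n‖ ≤ 1 + Real.log n)
    (hL : ∀ s : ℂ, 1 + 1 / (2 * Real.log (2 * R)) ≤ s.re → s.re ≤ 2 →
        ‖LSeries (lc a (2 * k + 1)) s‖ ≤ M * (|s.im| + 2) ^ (1 / 2 : ℝ))
    (x : ℝ) (hx : (R : ℝ) ≤ x) (hx2 : x ≤ 2 * R) :
    ‖∑ n ∈ Finset.Icc 1 ⌊x⌋₊, lc a (2 * k + 1) n‖ ≤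
      (50 + 2 * C1) * (x * Real.sqrt M * (2 + Real.log (2 * R)) ^ (k + 1)) := by
  have hR3 : (3 : ℝ) ≤ R := by exact_mod_cast hR
  have hlR : 1 < Real.log R := Pool.Agent.Lib.SW.one_lt_log_of_three_le hR3
  have hl2R : Real.log R ≤ Real.log (2 * R) := Real.log_le_log (by linarith) (by linarith)
  have hM0 : 0 ≤ M := by linarith
  set L := 2 + Real.log (2 * R) with hLdef
  set H := L ^ (k + 1) with hH
  have hL1 : 1 ≤ L := by linarith
  have hH1 : 1 ≤ H := one_le_pow₀ hL1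
  have hH0 : 0 < H := by linarith
  have hx0 : 0 < x := by linarith
  have hxH : 0 < x * H := by positivity
  set Q := Real.sqrt M with hQ
  have hQ1 : 1 ≤ Q := by rw [hQ, Real.one_le_sqrt]; exact hM1
  have hQ0 : 0 < Q := by linarith
  have hQQ : Q * Q = M := Real.mul_self_sqrt hM0
  have hLH : L ^ (2 * (k + 1)) = H * H := by rw [hH]; ring
  have hQH : Q ≤ H := by
    rw [hQ, Real.sqrt_le_left hH0.le]
    calc M ≤ (Real.log R) ^ (2 * k + 2) := hM2
      _ ≤ L ^ (2 * k + 2) := pow_le_pow_left₀ (by linarith) (by linarith) _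
      _ = H ^ 2 := by rw [hH]; ring
  set h : ℝ := Q / H with hh
  have hh0 : 0 < h := by positivity
  have hh1 : h ≤ 1 := by rw [hh, div_le_one hH0]; exact hQH
  set y : ℝ := x * Real.exp h with hy
  have hexp1 : Real.exp h ≤ 1 + 2 * h := by
    have h2 := Real.abs_exp_sub_one_sub_id_le (x := h) (by rw [abs_of_pos hh0]; exact hh1)
    have h3 := (abs_le.mp h2).2
    nlinarith
  have hexp0 : 1 ≤ Real.exp h := Real.one_le_exp hh0.le
  have hxy : x ≤ y := by rw [hy]; nlinarith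
  have hy3 : y ≤ 3 * x := by rw [hy]; nlinarith
  have hylog : Real.log y = Real.log x + h := by
    rw [hy, Real.log_mul hx0.ne' (Real.exp_pos h).ne', Real.log_exp]
  have hfl : ⌊x⌋₊ ≤ ⌊y⌋₊ := Nat.floor_mono hxy
  have hlog2 : 2 * Real.log (2 * R) = Real.log ((2 * R) ^ 2) := by
    rw [Real.log_pow]; push_cast; ring
  have hly : Real.log y ≤ 2 * Real.log (2 * R) := by
    rw [hlog2]
    apply Real.log_le_log (by linarith)
    nlinarith
  have hlx : Real.log x ≤ 2 * Real.log (2 * R) := (Real.log_le_log hx0 hxy).trans hly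
  have hRx := rtau_R k a M (2 * R) hM0 (by linarith) ha hL x (by linarith) hlx
  have hRy := rtau_R k a M (2 * R) hM0 (by linarith) ha hL y (by linarith) hly
  have hlx2 : Real.log x ≤ Real.log (2 * R) := Real.log_le_log hx0 hx2
  have hIoc : ∀ n : ℕ, Finset.Icc 1 n = Finset.Ioc 0 n := by
    intro n; ext i; simp; omega
  have hdec : ∑ n ∈ Finset.Icc 1 ⌊y⌋₊, lc a (2 * k + 1) n * (Real.log (y / n) : ℂ) =
      ∑ n ∈ Finset.Icc 1 ⌊x⌋₊, lc a (2 * k + 1) n * (Real.log (x / n) : ℂ) +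
      (h : ℂ) * ∑ n ∈ Finset.Icc 1 ⌊x⌋₊, lc a (2 * k + 1) n +
      ∑ n ∈ Finset.Ioc ⌊x⌋₊ ⌊y⌋₊, lc a (2 * k + 1) n * (Real.log (y / n) : ℂ) := by
    rw [hIoc ⌊y⌋₊, ← Finset.sum_Ioc_consecutive _ (Nat.zero_le _) hfl, ← hIoc ⌊x⌋₊]
    congr 1
    rw [Finset.mul_sum, ← Finset.sum_add_distrib]
    refine Finset.sum_congr rfl fun n hn => ?_
    have hn0 : (0 : ℝ) < n := by exact_mod_cast (Finset.mem_Icc.mp hn).1
    have : Real.log (y / n) = Real.log (x / n) + h := by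
      rw [Real.log_div (by positivity) hn0.ne', Real.log_div hx0.ne' hn0.ne', hylog]
      ring
    rw [this]
    push_cast
    ring
  have hE : ‖∑ n ∈ Finset.Ioc ⌊x⌋₊ ⌊y⌋₊, lc a (2 * k + 1) n * (Real.log (y / n) : ℂ)‖ ≤
      (2 * x * h + 1) * (L ^ (2 * (k + 1)) * h) := by
    have hb : ∀ n ∈ Finset.Ioc ⌊x⌋₊ ⌊y⌋₊,
        ‖lc a (2 * k + 1) n * (Real.log (y / n) : ℂ)‖ ≤ L ^ (2 * (k + 1)) * h := by
      intro n hn
      have hn' := Finset.mem_Ioc.mp hn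
      have hn1 : 1 ≤ n := by omega
      have hn0 : (0 : ℝ) < n := by exact_mod_cast hn1
      have hxn : x < n := Nat.lt_of_floor_lt hn'.1
      have hny : (n : ℝ) ≤ y := (Nat.le_floor_iff' (by omega)).mp hn'.2
      have hlog1 : 0 ≤ Real.log (y / n) := by
        apply Real.log_nonneg
        rw [le_div_iff₀ hn0]; linarith
      have hlog2 : Real.log (y / n) ≤ h := by
        rw [Real.log_div (by positivity) hn0.ne', hylog]
        have := Real.log_le_log hx0 hxn.le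
        linarith
      rw [norm_mul, Complex.norm_real, Real.norm_of_nonneg hlog1]
      apply mul_le_mul _ hlog2 hlog1 (by positivity)
      apply Pool.Agent.Lib.SW.norm_b_le k a ha n hn1
      have := Real.log_le_log hn0 hny
      rw [hylog] at this
      linarith
    refine (norm_sum_le _ _).trans ((Finset.sum_le_card_nsmul _ _ _ hb).trans ?_)
    rw [nsmul_eq_mul, Nat.card_Ioc, Nat.cast_sub hfl]
    apply mul_le_mul_of_nonneg_right _ (by positivity)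
    have h2 := Nat.floor_le (show 0 ≤ y by linarith)
    have h3 := Nat.lt_floor_add_one x
    have h4 : y - x ≤ 2 * x * h := by rw [hy]; nlinarith
    linarith
  have hmain : h * ‖∑ n ∈ Finset.Icc 1 ⌊x⌋₊, lc a (2 * k + 1) n‖ ≤
      48 * M * x + (2 * x * h + 1) * (L ^ (2 * (k + 1)) * h) := by
    have e : (h : ℂ) * ∑ n ∈ Finset.Icc 1 ⌊x⌋₊, lc a (2 * k + 1) n =
        ∑ n ∈ Finset.Icc 1 ⌊y⌋₊, lc a (2 * k + 1) n * (Real.log (y / n) : ℂ) -
        ∑ n ∈ Finset.Icc 1 ⌊x⌋₊, lc a (2 * k + 1) n * (Real.log (x / n) : ℂ) -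
        ∑ n ∈ Finset.Ioc ⌊x⌋₊ ⌊y⌋₊, lc a (2 * k + 1) n * (Real.log (y / n) : ℂ) := by
      rw [hdec]; ring
    have e2 : h * ‖∑ n ∈ Finset.Icc 1 ⌊x⌋₊, lc a (2 * k + 1) n‖ =
        ‖(h : ℂ) * ∑ n ∈ Finset.Icc 1 ⌊x⌋₊, lc a (2 * k + 1) n‖ := by
      rw [norm_mul, Complex.norm_real, Real.norm_of_nonneg hh0.le]
    rw [e2, e]
    refine (norm_sub_le _ _).trans ?_
    refine (add_le_add (norm_sub_le _ _) hE).trans ?_
    have h5 : 12 * M * y ≤ 12 * M * (3 * x) := mul_le_mul_of_nonneg_left hy3 (by positivity)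
    linarith
  have hg0 : 0 < H / Q := by positivity
  have hgh : H / Q * h = 1 := by rw [hh]; field_simp
  have hHh : H * h = Q := by rw [hh]; field_simp
  have hS : ‖∑ n ∈ Finset.Icc 1 ⌊x⌋₊, lc a (2 * k + 1) n‖ ≤
      H / Q * (48 * M * x + (2 * x * h + 1) * (L ^ (2 * (k + 1)) * h)) := by
    have h6 := mul_le_mul_of_nonneg_left hmain hg0.le
    have h7 : H / Q * (h * ‖∑ n ∈ Finset.Icc 1 ⌊x⌋₊, lc a (2 * k + 1) n‖) =
        ‖∑ n ∈ Finset.Icc 1 ⌊x⌋₊, lc a (2 * k + 1) n‖ := by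
      rw [← mul_assoc, hgh, one_mul]
    linarith
  have e3 : H / Q * (48 * M * x + (2 * x * h + 1) * (L ^ (2 * (k + 1)) * h)) =
      50 * (x * Q * H) + H * H := by
    have e4 : H / Q * (48 * M * x) = 48 * (x * Q * H) := by
      rw [← hQQ]; field_simp
    have e5 : H / Q * ((2 * x * h + 1) * (L ^ (2 * (k + 1)) * h)) =
        (H / Q * h) * (2 * x * (H * h) * H + H * H) := by
      rw [hLH]; ring
    rw [mul_add, e4, e5, hgh, hHh]
    ring
  rw [e3] at hS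
  have h8 : H * H ≤ 2 * C1 * (x * Q * H) := by
    have e6 := h1 (2 * R) (by linarith)
    rw [Real.rpow_one, ← hLdef, hLH] at e6
    have e7 : C1 * (2 * R) ≤ 2 * C1 * x := by nlinarith
    have e8 : x ≤ x * Q * H := by
      have : 1 ≤ Q * H := one_le_mul_of_one_le_of_one_le hQ1 hH1
      nlinarith
    have e9 : 2 * C1 * x ≤ 2 * C1 * (x * Q * H) :=
      mul_le_mul_of_nonneg_left e8 (by linarith)
    linarith
  calc _ ≤ _ := hS
    _ ≤ 50 * (x * Q * H) + 2 * C1 * (x * Q * H) := by linarith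
    _ = _ := by ring

theorem tauberM (k : ℕ) : ∃ C : ℝ, 0 < C ∧ ∀ (a : ℕ → ℂ) (R R' : ℕ) (M : ℝ), 3 ≤ R → R' ≤ 2 * R →
    (∀ n : ℕ, 1 ≤ n → ‖a n‖ ≤ 1 + Real.log n) → 1 ≤ M → M ≤ (Real.log R) ^ (2 * k + 2) →
    (∀ s : ℂ, 1 + 1 / (2 * Real.log (2 * R)) ≤ s.re → s.re ≤ 2 → ‖LSeries (lc a (2 * k + 1)) s‖ ≤ M * (|s.im| + 2) ^ (1 / 2 : ℝ)) →
      ‖∑ n ∈ Ioc R R', a n‖ ≤ C * R * Real.sqrt M / (Real.log R) ^ k := by
  obtain ⟨C1, hC1, h1⟩ := Pool.Agent.Lib.SW.two_add_log_pow_le (2 * (k + 1)) (ε := 1) one_pos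
  refine ⟨4 * (50 + 2 * C1) * 4 ^ (k + 1), by positivity, fun a R R' M hR hR' ha hM1 hM2 hL => ?_⟩
  have hR3 : (3 : ℝ) ≤ R := by exact_mod_cast hR
  have hlR : 1 < Real.log R := Pool.Agent.Lib.SW.one_lt_log_of_three_le hR3
  have hlR0 : 0 < Real.log R := by linarith
  have hl2R : Real.log R ≤ Real.log (2 * R) := Real.log_le_log (by linarith) (by linarith)
  rcases Nat.lt_or_ge R' R with hlt | hge
  · rw [Finset.Ioc_eq_empty_of_le hlt.le, sum_empty, norm_zero]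
    positivity
  set H := (2 + Real.log (2 * R)) ^ (k + 1) with hH
  have hH0 : 0 ≤ H := by
    have : 0 ≤ 2 + Real.log (2 * R) := by linarith
    positivity
  set B := (50 + 2 * C1) * (2 * R * Real.sqrt M * H) with hB
  have hB0 : 0 ≤ B := by positivity
  have e : ∑ n ∈ Ioc R R', a n = ∑ n ∈ Ioc R R',
      lc a (2 * k + 1) n * ((((Real.log n) ^ (2 * k + 1))⁻¹ : ℝ) : ℂ) := by
    refine Finset.sum_congr rfl fun n hn => ?_
    have hn' := Finset.mem_Ioc.mp hn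
    have hpos : 0 < Real.log n := Real.log_pos (by exact_mod_cast (by omega : 1 < n))
    simp only [lc]
    rw [mul_assoc, ← Complex.ofReal_mul, mul_inv_cancel₀ (by positivity)]
    simp
  have hlarge : ‖∑ n ∈ Ioc R R', a n‖ ≤ 2 * B * ((Real.log (R + 1 : ℕ)) ^ (2 * k + 1))⁻¹ := by
    rw [e]
    refine Pool.Agent.Lib.SW.abel_bound (lc a (2 * k + 1))
      (fun n => ((Real.log n) ^ (2 * k + 1))⁻¹) R B ?_ ?_ R' hge ?_
    · intro n h5
      have hpos : 0 < Real.log n := Real.log_pos (by exact_mod_cast (by omega : 1 < n))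
      apply inv_anti₀ (by positivity)
      apply pow_le_pow_left₀ hpos.le
      apply Real.log_le_log (by exact_mod_cast (by omega : 0 < n))
      push_cast
      linarith
    · intro n h5
      have : 0 ≤ Real.log n := Real.log_natCast_nonneg n
      positivity
    · intro n h5 h6
      have h7 : (R : ℝ) ≤ n := by exact_mod_cast h5
      have h8 : (n : ℝ) ≤ 2 * R := by
        have : n ≤ 2 * R := h6.trans hR'
        exact_mod_cast this
      have h9 := rtau_A k C1 hC1 h1 a M R hR hM1 hM2 ha hL n h7 h8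
      rw [Nat.floor_natCast] at h9
      refine h9.trans ?_
      rw [hB]
      apply mul_le_mul_of_nonneg_left _ (by positivity)
      apply mul_le_mul_of_nonneg_right _ hH0
      exact mul_le_mul_of_nonneg_right h8 (Real.sqrt_nonneg _)
  have hw : ((Real.log (R + 1 : ℕ)) ^ (2 * k + 1))⁻¹ ≤ ((Real.log R) ^ (2 * k + 1))⁻¹ := by
    apply inv_anti₀ (by positivity)
    apply pow_le_pow_left₀ hlR0.le
    apply Real.log_le_log (by linarith)
    push_cast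
    linarith
  have hHle : H ≤ (4 * Real.log R) ^ (k + 1) := by
    rw [hH]
    apply pow_le_pow_left₀ (by linarith)
    rw [Real.log_mul (by norm_num) (by linarith)]
    have h2 := Real.log_two_lt_d9
    linarith
  calc ‖∑ n ∈ Ioc R R', a n‖ ≤ 2 * B * ((Real.log (R + 1 : ℕ)) ^ (2 * k + 1))⁻¹ := hlarge
    _ ≤ 2 * B * ((Real.log R) ^ (2 * k + 1))⁻¹ := mul_le_mul_of_nonneg_left hw (by positivity)
    _ ≤ 2 * ((50 + 2 * C1) * (2 * R * Real.sqrt M * (4 * Real.log R) ^ (k + 1))) *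
        ((Real.log R) ^ (2 * k + 1))⁻¹ := by
        apply mul_le_mul_of_nonneg_right _ (by positivity)
        rw [hB]
        gcongr
    _ = 4 * (50 + 2 * C1) * 4 ^ (k + 1) * R * Real.sqrt M / (Real.log R) ^ k := by
        rw [mul_pow, show 2 * k + 1 = k + 1 + k by ring, pow_add (Real.log R) (k + 1) k]
        field_simp
        ring

end Pool.Agent.Lib.VK
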