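import Pool.Agent.Lib.VK.RHyp
import Pool.Agent.Lib.VK.RTau
import Pool.Agent.Lib.VK.RSm
import Pool.Agent.Lib.VK.RDiff

/-!
# VK / RFin: the bound for primes from the bound for smooth sums (hypothesis hzs = the theorem `zs` of row Zs)
-/

set_option autoImplicit false

open Finset
open scoped ArithmeticFunction.vonMangoldt

namespace Pool.Agent.Lib.VK

open Pool.Agent.Lib.DN (nt norm_nt)

theorem rfin_grow (δ c : ℝ) (hδ : 0 < δ) (hc : 0 < c) (A : ℕ) (K1 : ℝ) : ∃ x1 : ℝ, ∀ x : ℝ, x1 ≤ x → 4 ≤ x ∧ 10 ≤ Real.log x ∧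
    K1 ≤ Real.log x ∧ K1 ≤ (Real.log x) ^ δ ∧ 64 * (Real.log x) ^ (A + 4) ≤ Real.exp (c / 2 * Real.log x) := by
  have h1 : ∀ᶠ l : ℝ in Filter.atTop, 64 * l ^ (A + 4) ≤ Real.exp (c / 2 * l) := by
    have h := (isLittleO_pow_exp_pos_mul_atTop (k := A + 4) (b := c / 2) (by positivity)).bound (c := 1 / 64) (by norm_num)
    filter_upwards [h, Filter.eventually_ge_atTop (0 : ℝ)] with l hl hl0
    rw [Real.norm_of_nonneg (by positivity), Real.norm_of_nonneg (Real.exp_pos _).le] at hl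
    linarith
  have h2 : ∀ᶠ l : ℝ in Filter.atTop, K1 ≤ l ^ δ := (tendsto_rpow_atTop hδ).eventually (Filter.eventually_ge_atTop _)
  have h3 : ∀ᶠ l : ℝ in Filter.atTop, max 10 K1 ≤ l := Filter.eventually_ge_atTop _
  have h4 := Real.tendsto_log_atTop.eventually ((h1.and h2).and h3)
  obtain ⟨x1, hx1⟩ := Filter.eventually_atTop.1 (h4.and (Filter.eventually_ge_atTop (4 : ℝ)))
  refine ⟨x1, fun x hx => ?_⟩
  obtain ⟨⟨⟨h5, h6⟩, h7⟩, h8⟩ := hx1 x hx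
  exact ⟨h8, (le_max_left _ _).trans h7, (le_max_right _ _).trans h7, h6, h5⟩

theorem vkp_of (δ : ℝ) (hδ : 0 < δ) (hδ1 : δ < 1)
    (hzs : ∀ A B : ℕ, ∃ (C : ℕ) (x0 : ℝ), ∀ X : ℕ, x0 ≤ X → ∀ (t : ℝ) (a b r s : ℕ), 1 ≤ r → (r : ℝ) ≤ (Real.log X) ^ B → s < r →
      (Real.log X) ^ C ≤ |t| → |t| ≤ (X : ℝ) ^ 2 → Real.exp ((Real.log X) ^ (1 - δ)) ≤ a → b ≤ 2 * a →
        ‖∑ n ∈ (Ioc a b).filter (fun n => n % r = s), nt t n‖ ≤ a / (r * (Real.log X) ^ A))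
    (A B : ℕ) (c : ℝ) (hc : 0 < c) : ∃ (C : ℕ) (x0 : ℝ), ∀ X : ℕ, x0 ≤ X → ∀ (q : ℕ) (χ : DirichletCharacter ℂ q) (t : ℝ) (R R' : ℕ),
      1 ≤ q → (q : ℝ) ≤ (Real.log X) ^ B → (Real.log X) ^ C ≤ |t| → |t| ≤ X → (X : ℝ) ^ c ≤ R → R ≤ X → R' ≤ 2 * R →
        ‖∑ n ∈ Ioc R R', ((Λ n : ℝ) : ℂ) * χ (n : ZMod q) * nt t n‖ ≤ R / (Real.log X) ^ A ∧
        ‖∑ p ∈ (Ioc R R').filter Nat.Prime, χ (p : ZMod q) * nt t p‖ ≤ R / (Real.log X) ^ A := by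
  classical
  obtain ⟨k, hk⟩ : ∃ k : ℕ, (A : ℝ) + 4 ≤ δ * (k + 1) := by
    refine ⟨⌈((A : ℝ) + 4) / δ⌉₊, ?_⟩
    have h1 : ((A : ℝ) + 4) / δ ≤ ⌈((A : ℝ) + 4) / δ⌉₊ := Nat.le_ceil _
    rw [div_le_iff₀ hδ] at h1
    nlinarith
  obtain ⟨C0, x0, hz⟩ := hzs (2 * k + 7) B
  obtain ⟨C1, hC1, hhyp⟩ := k_hyp k
  obtain ⟨C2, hC2, htau⟩ := tauberM k
  set C3 : ℝ := C2 * (C1 * 2 ^ (k + 1)) / c ^ k with hC3
  have hC30 : 0 < C3 := by positivity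
  obtain ⟨x1, hx1⟩ := rfin_grow δ c hδ hc A (max (3 ^ (4 * k + 6)) (max (2 * C1 / c) (max (2 / c) (max C3 (2 / c)))))
  refine ⟨max (C0 + 1) (4 * k + 7), max x0 x1, ?_⟩
  intro X hX q χ t R R' hq hqB ht1 ht2 hR1 hRX hR'
  obtain ⟨hX4, hl10, hK1, hK2, hexp⟩ := hx1 X ((le_max_right _ _).trans hX)
  have hXx0 : x0 ≤ (X : ℝ) := (le_max_left _ _).trans hX
  set ℓ : ℝ := Real.log X with hℓ
  have hX0 : (0 : ℝ) < X := by linarith
  have hℓ0 : 0 < ℓ := by linarith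
  have hℓ1 : 1 ≤ ℓ := by linarith
  have hk3 : (3 : ℝ) ^ (4 * k + 6) ≤ ℓ := (le_max_left _ _).trans hK1
  have hk3' : (3 : ℝ) ^ (2 * k + 6) ≤ ℓ := (pow_le_pow_right₀ (by norm_num) (by omega)).trans hk3
  have hcC1 : 2 * C1 / c ≤ ℓ ^ δ := (le_max_left _ _).trans ((le_max_right _ _).trans hK2)
  have h2c : 2 / c ≤ ℓ ^ δ := (le_max_left _ _).trans ((le_max_right _ _).trans ((le_max_right _ _).trans hK2))
  have h2cl : 2 / c ≤ ℓ := (le_max_left _ _).trans ((le_max_right _ _).trans ((le_max_right _ _).trans hK1))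
  have hC3l : C3 ≤ ℓ := (le_max_left _ _).trans ((le_max_right _ _).trans ((le_max_right _ _).trans ((le_max_right _ _).trans hK1)))
  -- R
  have hXc : (X : ℝ) ^ c = Real.exp (c * ℓ) := by
    rw [Real.rpow_def_of_pos hX0, mul_comm]
  have hRe : Real.exp (c * ℓ) ≤ R := by rw [← hXc]; exact hR1
  have hR0 : (0 : ℝ) < R := lt_of_lt_of_le (Real.exp_pos _) hRe
  have hcl : 2 ≤ c * ℓ := by
    rw [div_le_iff₀ hc] at h2cl
    linarith
  have hR3 : 3 ≤ R := by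
    have h1 : (3 : ℝ) ≤ R := by
      have h2 := Real.add_one_le_exp (c * ℓ)
      linarith
    exact_mod_cast h1
  have hlR : c * ℓ ≤ Real.log R := by
    rw [Real.le_log_iff_exp_le hR0]
    exact hRe
  have hlR0 : 0 < Real.log R := by linarith
  have hRXr : (R : ℝ) ≤ X := by exact_mod_cast hRX
  have hl2 := Real.log_two_lt_d9
  have hl2R : Real.log (2 * R) ≤ 3 / 2 * ℓ := by
    rw [Real.log_mul (by norm_num) hR0.ne']
    have h1 : Real.log R ≤ ℓ := Real.log_le_log hR0 hRXr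
    linarith
  have hl2R0 : 0 < Real.log (2 * R) := by
    rw [Real.log_mul (by norm_num) hR0.ne']
    have := Real.log_pos one_lt_two
    linarith
  -- y
  set y : ℕ := ⌈Real.exp (ℓ ^ (1 - δ))⌉₊ with hy
  have hlp : 1 ≤ ℓ ^ (1 - δ) := Real.one_le_rpow hℓ1 (by linarith)
  have hye : Real.exp (ℓ ^ (1 - δ)) ≤ y := Nat.le_ceil _
  have hy2 : (y : ℝ) ≤ 2 * Real.exp (ℓ ^ (1 - δ)) := by
    have h1 := (Nat.ceil_lt_add_one (Real.exp_pos (ℓ ^ (1 - δ))).le).le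
    have h2 := Real.one_le_exp (by linarith : 0 ≤ ℓ ^ (1 - δ))
    linarith
  have hy3 : 3 ≤ y := by
    have h1 : (2 : ℝ) < y := by
      have h2 := Real.exp_one_gt_d9
      have h3 : Real.exp 1 ≤ Real.exp (ℓ ^ (1 - δ)) := Real.exp_le_exp.2 hlp
      linarith
    exact_mod_cast h1
  have hy0 : (0 : ℝ) < y := by
    have : (3 : ℝ) ≤ y := by exact_mod_cast hy3
    linarith
  have hly1 : 1 ≤ Real.log y := by
    rw [Real.le_log_iff_exp_le hy0]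
    exact (Real.exp_le_exp.2 hlp).trans hye
  have hly2 : Real.log y ≤ 2 * ℓ ^ (1 - δ) := by
    calc Real.log y ≤ Real.log (2 * Real.exp (ℓ ^ (1 - δ))) := Real.log_le_log hy0 hy2
      _ = Real.log 2 + ℓ ^ (1 - δ) := by rw [Real.log_mul (by norm_num) (Real.exp_pos _).ne', Real.log_exp]
      _ ≤ 2 * ℓ ^ (1 - δ) := by linarith
  -- Sm
  set ε : ℝ := 1 / ℓ ^ (2 * k + 7) with hε
  have hε0 : 0 ≤ ε := by positivity
  have hpowC : ℓ ^ (C0 + 1) ≤ |t| := (pow_le_pow_right₀ hℓ1 (le_max_left _ _)).trans ht1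
  have hpowK : ℓ ^ (4 * k + 7) ≤ |t| := (pow_le_pow_right₀ hℓ1 (le_max_right _ _)).trans ht1
  have hSm : ∀ (ψ : DirichletCharacter ℂ q) (t' : ℝ), |t| / 2 ≤ |t'| → |t'| ≤ 4 * |t| → Sm ψ y t' ε := by
    intro ψ t' h1 h2
    refine sm_of_prog hq ψ y t' ε fun a b s ha hb hs => ?_
    have h3 : ℓ ^ C0 ≤ |t'| := by
      have h4 : ℓ ^ (C0 + 1) = ℓ ^ C0 * ℓ := pow_succ _ _
      have h5 : 1 ≤ ℓ ^ C0 := one_le_pow₀ hℓ1
      nlinarith
    have h4 : |t'| ≤ (X : ℝ) ^ 2 := by nlinarith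
    have h5 : Real.exp (ℓ ^ (1 - δ)) ≤ a := hye.trans (by exact_mod_cast ha)
    refine (hz X hXx0 t' a b q s hq hqB hs h3 h4 h5 hb).trans (le_of_eq ?_)
    have hq0 : (0 : ℝ) < q := by exact_mod_cast hq
    rw [← hℓ, hε, div_mul_eq_mul_div, one_mul, div_div, mul_comm (q : ℝ)]
  have h2lR : 2 * Real.log (2 * R) ≤ 3 * ℓ := by linarith
  have hε1 : ε ≤ (1 / (2 * Real.log (2 * R))) ^ (2 * k + 6) := by
    rw [one_div_pow, hε]
    refine one_div_le_one_div_of_le (by positivity) ?_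
    calc (2 * Real.log (2 * R)) ^ (2 * k + 6) ≤ (3 * ℓ) ^ (2 * k + 6) := pow_le_pow_left₀ (by linarith) h2lR _
      _ = 3 ^ (2 * k + 6) * ℓ ^ (2 * k + 6) := mul_pow _ _ _
      _ ≤ ℓ * ℓ ^ (2 * k + 6) := mul_le_mul_of_nonneg_right hk3' (by positivity)
      _ = ℓ ^ (2 * k + 7) := by ring
  have ht3 : (2 * Real.log (2 * R)) ^ (4 * k + 6) ≤ |t| := by
    calc (2 * Real.log (2 * R)) ^ (4 * k + 6) ≤ (3 * ℓ) ^ (4 * k + 6) := pow_le_pow_left₀ (by linarith) h2lR _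
      _ = 3 ^ (4 * k + 6) * ℓ ^ (4 * k + 6) := mul_pow _ _ _
      _ ≤ ℓ * ℓ ^ (4 * k + 6) := mul_le_mul_of_nonneg_right hk3 (by positivity)
      _ = ℓ ^ (4 * k + 7) := by ring
      _ ≤ |t| := hpowK
  have hLS := hhyp q χ y R t ε hq hy3 hR3 hε0 hε1 (fun t' h1 h2 => ⟨hSm χ t' h1 h2, hSm (χ ^ 2) t' h1 h2⟩) ht3
  -- the bound
  set M : ℝ := C1 * (Real.log y) ^ (2 * k + 2) with hM
  have hM1 : 1 ≤ M := by
    have h1 : 1 ≤ (Real.log y) ^ (2 * k + 2) := one_le_pow₀ hly1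
    nlinarith
  have hC1y : C1 * Real.log y ≤ Real.log R := by
    have h1 : 2 * C1 ≤ ℓ ^ δ * c := by rwa [div_le_iff₀ hc] at hcC1
    have h2 : ℓ ^ δ * ℓ ^ (1 - δ) = ℓ := by
      rw [← Real.rpow_add hℓ0]
      simp
    calc C1 * Real.log y ≤ C1 * (2 * ℓ ^ (1 - δ)) := mul_le_mul_of_nonneg_left hly2 (by linarith)
      _ = (2 * C1) * ℓ ^ (1 - δ) := by ring
      _ ≤ (ℓ ^ δ * c) * ℓ ^ (1 - δ) := mul_le_mul_of_nonneg_right h1 (by positivity)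
      _ = c * (ℓ ^ δ * ℓ ^ (1 - δ)) := by ring
      _ = c * ℓ := by rw [h2]
      _ ≤ Real.log R := hlR
  have hM2 : M ≤ (Real.log R) ^ (2 * k + 2) := by
    calc M ≤ C1 ^ (2 * k + 2) * (Real.log y) ^ (2 * k + 2) := by
          refine mul_le_mul_of_nonneg_right ?_ (by positivity)
          calc C1 = C1 ^ 1 := (pow_one _).symm
            _ ≤ C1 ^ (2 * k + 2) := pow_le_pow_right₀ hC1 (by omega)
      _ = (C1 * Real.log y) ^ (2 * k + 2) := (mul_pow _ _ _).symm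
      _ ≤ (Real.log R) ^ (2 * k + 2) := pow_le_pow_left₀ (by positivity) hC1y _
  have hsqM : Real.sqrt M ≤ C1 * (2 * ℓ ^ (1 - δ)) ^ (k + 1) := by
    rw [Real.sqrt_le_left (by positivity)]
    calc M ≤ C1 ^ 2 * (Real.log y) ^ (2 * k + 2) := by
          refine mul_le_mul_of_nonneg_right ?_ (by positivity)
          nlinarith
      _ = (C1 * (Real.log y) ^ (k + 1)) ^ 2 := by
          rw [mul_pow, ← pow_mul]
          congr 2
          ring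
      _ ≤ (C1 * (2 * ℓ ^ (1 - δ)) ^ (k + 1)) ^ 2 := by
          refine pow_le_pow_left₀ (by positivity) ?_ 2
          refine mul_le_mul_of_nonneg_left ?_ (by linarith)
          exact pow_le_pow_left₀ (by linarith) hly2 _
  have hfr : ∀ R'' : ℕ, R'' ≤ 2 * R → ‖∑ n ∈ Ioc R R'', frL χ y n * nt t n‖ ≤ R / ℓ ^ (A + 2) := by
    intro R'' hR''
    have h1 := htau (fun n => frL χ y n * nt t n) R R'' M hR3 hR'' (fun n hn => by
      rw [norm_mul, norm_nt, mul_one]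
      have := norm_frL_le χ y n
      linarith) hM1 hM2 (fun s hs1 hs2 => hLS s hs1 hs2)
    refine h1.trans ?_
    have h2 : (c * ℓ) ^ k ≤ (Real.log R) ^ k := pow_le_pow_left₀ (by positivity) hlR _
    have h3 : (ℓ ^ (1 - δ)) ^ (k + 1) ≤ ℓ ^ k / ℓ ^ (A + 3) := by
      rw [le_div_iff₀ (by positivity), ← Real.rpow_natCast, ← Real.rpow_mul hℓ0.le, ← Real.rpow_natCast ℓ (A + 3),
        ← Real.rpow_add hℓ0, ← Real.rpow_natCast ℓ k]
      refine Real.rpow_le_rpow_of_exponent_le hℓ1 ?_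
      push_cast
      nlinarith
    calc C2 * R * Real.sqrt M / (Real.log R) ^ k ≤ C2 * R * (C1 * (2 * ℓ ^ (1 - δ)) ^ (k + 1)) / (c * ℓ) ^ k := by
          gcongr
      _ = C3 * R * ((ℓ ^ (1 - δ)) ^ (k + 1) / ℓ ^ k) := by
          rw [hC3, mul_pow, mul_pow]
          field_simp
      _ ≤ C3 * R * ((ℓ ^ k / ℓ ^ (A + 3)) / ℓ ^ k) := by gcongr
      _ = C3 * R / ℓ ^ (A + 3) := by field_simp
      _ ≤ ℓ * R / ℓ ^ (A + 3) := by gcongr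
      _ = R / ℓ ^ (A + 2) := by
          rw [show A + 3 = (A + 2) + 1 by ring, pow_succ ℓ (A + 2)]
          field_simp
  have hhalf : Real.exp (c / 2 * ℓ) * Real.exp (c / 2 * ℓ) = Real.exp (c * ℓ) := by
    rw [← Real.exp_add]
    congr 1
    ring
  have hye2 : Real.exp (ℓ ^ (1 - δ)) ≤ Real.exp (c / 2 * ℓ) := by
    rw [Real.exp_le_exp]
    have h1 : 2 ≤ ℓ ^ δ * c := by rwa [div_le_iff₀ hc] at h2c
    have h2 : ℓ ^ δ * ℓ ^ (1 - δ) = ℓ := by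
      rw [← Real.rpow_add hℓ0]
      simp
    have h3 : 2 * ℓ ^ (1 - δ) ≤ (ℓ ^ δ * c) * ℓ ^ (1 - δ) := mul_le_mul_of_nonneg_right h1 (by positivity)
    have h4 : (ℓ ^ δ * c) * ℓ ^ (1 - δ) = c * ℓ := by
      calc (ℓ ^ δ * c) * ℓ ^ (1 - δ) = c * (ℓ ^ δ * ℓ ^ (1 - δ)) := by ring
        _ = c * ℓ := by rw [h2]
    linarith
  have hdiffb : 2 * (y : ℝ) * (Real.log (2 * R)) ^ 2 ≤ R / ℓ ^ (A + 2) := by
    rw [le_div_iff₀ (by positivity)]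
    have h1 : (Real.log (2 * R)) ^ 2 ≤ (3 / 2 * ℓ) ^ 2 := pow_le_pow_left₀ hl2R0.le hl2R 2
    calc 2 * (y : ℝ) * (Real.log (2 * R)) ^ 2 * ℓ ^ (A + 2) ≤ 2 * (2 * Real.exp (c / 2 * ℓ)) * (3 / 2 * ℓ) ^ 2 * ℓ ^ (A + 2) := by
          gcongr
          linarith
      _ = 9 * ℓ ^ (A + 4) * Real.exp (c / 2 * ℓ) := by ring
      _ ≤ (64 * ℓ ^ (A + 4)) * Real.exp (c / 2 * ℓ) := by
          have : 0 ≤ ℓ ^ (A + 4) := by positivity
          nlinarith [Real.exp_pos (c / 2 * ℓ)]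
      _ ≤ Real.exp (c / 2 * ℓ) * Real.exp (c / 2 * ℓ) := mul_le_mul_of_nonneg_right hexp (Real.exp_pos _).le
      _ = Real.exp (c * ℓ) := hhalf
      _ ≤ R := hRe
  have hLam : ∀ R'' : ℕ, R'' ≤ 2 * R → ‖∑ n ∈ Ioc R R'', ((Λ n : ℝ) : ℂ) * χ (n : ZMod q) * nt t n‖ ≤ 2 * (R / ℓ ^ (A + 2)) := by
    intro R'' hR''
    have h1 := lam_diff χ y R R'' t hR3 hR''
    have h2 := hfr R'' hR''
    have h3 : ∑ n ∈ Ioc R R'', ((Λ n : ℝ) : ℂ) * χ (n : ZMod q) * nt t n =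
        (∑ n ∈ Ioc R R'', ((Λ n : ℝ) : ℂ) * χ (n : ZMod q) * nt t n - ∑ n ∈ Ioc R R'', frL χ y n * nt t n) +
          ∑ n ∈ Ioc R R'', frL χ y n * nt t n := by ring
    rw [h3]
    refine (norm_add_le _ _).trans ?_
    linarith
  have hpow2 : ℓ ^ (A + 2) = ℓ ^ A * ℓ ^ 2 := pow_add _ _ _
  have hfac : 2 * (R / ℓ ^ (A + 2)) ≤ 1 / 4 * (R / ℓ ^ A) := by
    have h1 : R / ℓ ^ (A + 2) = (R / ℓ ^ A) * (1 / ℓ ^ 2) := by
      rw [hpow2]
      field_simp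
    have h2 : 1 / ℓ ^ 2 ≤ 1 / 100 := one_div_le_one_div_of_le (by norm_num) (by nlinarith)
    have h3 : 0 ≤ R / ℓ ^ A := by positivity
    rw [h1]
    nlinarith
  refine ⟨?_, ?_⟩
  · refine (hLam R' hR').trans (hfac.trans ?_)
    have h3 : 0 ≤ R / ℓ ^ A := by positivity
    linarith
  · refine (prime_of_lam χ R R' t (2 * (R / ℓ ^ (A + 2))) hR3 hR' (fun R'' _ h => hLam R'' h)).trans ?_
    have h1 : 4 * Real.sqrt R * (Real.log (2 * R)) ^ 2 ≤ 1 / 4 * (R / ℓ ^ A) := by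
      have h2 : (Real.log (2 * R)) ^ 2 ≤ (3 / 2 * ℓ) ^ 2 := pow_le_pow_left₀ hl2R0.le hl2R 2
      have h3 : 64 * ℓ ^ (A + 4) ≤ Real.sqrt R := by
        refine hexp.trans (Real.le_sqrt_of_sq_le ?_)
        calc Real.exp (c / 2 * ℓ) ^ 2 = Real.exp (c / 2 * ℓ) * Real.exp (c / 2 * ℓ) := sq _
          _ = Real.exp (c * ℓ) := hhalf
          _ ≤ R := hRe
      have h4 : (R : ℝ) = Real.sqrt R * Real.sqrt R := (Real.mul_self_sqrt hR0.le).symm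
      have h5 : 0 ≤ Real.sqrt R := Real.sqrt_nonneg _
      have h6 : ℓ ^ (A + 2) ≤ ℓ ^ (A + 4) := pow_le_pow_right₀ hℓ1 (by omega)
      have h7 : 4 * Real.sqrt R * (Real.log (2 * R)) ^ 2 * (4 * ℓ ^ A) ≤ R := by
        calc 4 * Real.sqrt R * (Real.log (2 * R)) ^ 2 * (4 * ℓ ^ A) ≤ 4 * Real.sqrt R * (3 / 2 * ℓ) ^ 2 * (4 * ℓ ^ A) := by gcongr
          _ = Real.sqrt R * (36 * ℓ ^ (A + 2)) := by ring
          _ ≤ Real.sqrt R * Real.sqrt R := by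
              refine mul_le_mul_of_nonneg_left ?_ h5
              have : 0 ≤ ℓ ^ (A + 4) := by positivity
              linarith
          _ = R := h4.symm
      rw [← mul_div_assoc, le_div_iff₀ (by positivity)]
      linarith
    linarith

end Pool.Agent.Lib.VK
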