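import Pool.Agent.Lib.VK.Zs
import Pool.Agent.Lib.VK.RFin
import Mathlib.NumberTheory.DirichletCharacter.Basic
import Mathlib.NumberTheory.ArithmeticFunction.VonMangoldt

/-!
# VK, interface VKP: sums of `χ(p) p^(it)` over the primes of an interval
-/

set_option autoImplicit false

open Finset
open scoped ArithmeticFunction.vonMangoldt

namespace Pool.Agent.Lib.VK

open Pool.Agent.Lib.DN (nt)

theorem vkp (A B : ℕ) (c : ℝ) (hc : 0 < c) : ∃ (C : ℕ) (x0 : ℝ), ∀ X : ℕ, x0 ≤ X →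
    ∀ (q : ℕ) (χ : DirichletCharacter ℂ q) (t : ℝ) (R R' : ℕ), 1 ≤ q → (q : ℝ) ≤ (Real.log X) ^ B →
    (Real.log X) ^ C ≤ |t| → |t| ≤ X → (X : ℝ) ^ c ≤ R → R ≤ X → R ≤ R' → R' ≤ 2 * R →
    ‖∑ n ∈ Ioc R R', ((Λ n : ℝ) : ℂ) * χ (n : ZMod q) * nt t n‖ ≤ R / (Real.log X) ^ A ∧
    ‖∑ p ∈ (Ioc R R').filter Nat.Prime, χ (p : ZMod q) * nt t p‖ ≤ R / (Real.log X) ^ A := by
  obtain ⟨δ, hδ, hδ1, h⟩ := zs
  obtain ⟨C, x0, h2⟩ := vkp_of δ hδ hδ1 h A B c hc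
  exact ⟨C, x0, fun X hX q χ t R R' h1 h3 h4 h5 h6 h7 _ h9 => h2 X hX q χ t R R' h1 h3 h4 h5 h6 h7 h9⟩

end Pool.Agent.Lib.VK
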