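import Pool.Agent.Lib.VK.TDef
import Pool.Agent.Lib.G5.QIx

/-!
# VK, phase 2 (members with exactly `k` prime factors), definitions

`w = ⌊(log X)^c⌋`, `w' = ⌊(log X)^d⌋`; `EE k w w' n` (G5.QIx): `n` squarefree with exactly `k` prime factors, all `> w`, exactly one `> w'`.
Blocks `b = (i, j, g)` of G5.QIx: `p ∈ (2^i, 2^(i+1)]`, `m ∈ [2^j, 2^(j+1))`, `r ∈ (2^g, 2^(g+1)]`.
-/

set_option autoImplicit false

open Finset Filter

namespace Pool.Agent.Lib.VKT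

open Pool.Agent.Lib.G3 (pr lp)
open Pool.Agent.Lib.G5 (bS PP aS sg1 esy SI Ix bB sgK EE Rg)

/-- density of the block function `bS S a R M` near `n` -/
noncomputable def rhoS (S : Finset ℕ) (a : ℕ → ℝ) (R M n : ℕ) : ℝ :=
  ∑ p ∈ S, ∑ m ∈ Ico M (2 * M), if p * m * R < n ∧ n ≤ 2 * (p * m * R) then a m / (p * m * Real.log (2 * R : ℕ)) else 0

/-- the conditions on a block at the scale `Z` -/
structure BlkZ (Z P R M : ℕ) (S : Finset ℕ) (a : ℕ → ℝ) (c1 cP cM : ℕ) : Prop where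
  hP1 : (Real.log Z) ^ c1 / 2 ≤ P
  hP2 : (P : ℝ) ≤ 2 * (Real.log Z) ^ cP
  hM1 : 1 ≤ M
  hM2 : (M : ℝ) ≤ (Real.log Z) ^ cM
  hR1 : 8 * (P * M * R) ≤ Z
  hR2 : Z ≤ 256 * (P * M * R)
  hS : S ⊆ pr P
  ha : ∀ m, |a m| ≤ 1
  ham : ∀ m, a m ≠ 0 → ∀ p : ℕ, p.Prime → p ∣ m → (Real.log Z) ^ c1 / 2 < p
  hb : ∀ n, |bS S a R M n| ≤ 1

/-- the blocks which meet `(Y, 3Y]` -/
noncomputable def IY (Y k w w' : ℕ) : Finset (ℕ × ℕ × ℕ) :=
  (Ix (4 * Y) 3 k w w').filter fun b => Y ≤ 8 * (2 ^ b.1 * 2 ^ b.2.1 * 2 ^ b.2.2)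

/-- weighted indicator function of `EE k w w'` near `(Y, 3Y]` -/
noncomputable def Fk (Y k w w' n : ℕ) : ℝ :=
  ∑ b ∈ IY Y k w w', Real.log (2 * 2 ^ b.2.2 : ℕ) / Real.log (32 * Y : ℕ) * bB k w w' b n

/-- its density -/
noncomputable def rk (Y k w w' n : ℕ) : ℝ :=
  ∑ b ∈ IY Y k w w', Real.log (2 * 2 ^ b.2.2 : ℕ) / Real.log (32 * Y : ℕ) *
    rhoS (SI w w' b.1) (aS k w w') (2 ^ b.2.2) (2 ^ b.2.1) n

/-- the member function: `k = 1`: primes; `k ≥ 2`: `Fk` -/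
noncomputable def Gx (Y w w' k n : ℕ) : ℝ :=
  if k = 1 then (if n ≤ 32 * Y then lp n / Real.log (32 * Y : ℕ) else 0) else Fk Y k w w' n

/-- the model of the member function -/
noncomputable def Nx (Y Q w w' k n : ℕ) : ℝ :=
  if k = 1 then (if 1 ≤ n ∧ n ≤ 32 * Y then ram Q n / Real.log (32 * Y : ℕ) else 0) else rk Y k w w' n * ram Q n

open Classical in
/-- number of the primes `n` in `(Y, 2Y]` such that every `n + h_i` has exactly `κ_i` prime factors, in the sense of `EE` -/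
noncomputable def cntK {m : ℕ} (Y w w' : ℕ) (κ h : Fin m → ℕ) : ℕ :=
  ((Ioc Y (2 * Y)).filter fun n => n.Prime ∧ ∀ i, EE (κ i) w w' (n + h i)).card

/-- weighted number -/
noncomputable def wcK {m : ℕ} (Y w w' : ℕ) (κ h : Fin m → ℕ) : ℝ := ∑ n ∈ Ioc Y (2 * Y), lp n * ∏ i, Gx Y w w' (κ i) (n + h i)

/-- the product of the local densities: `sgK` for the members with `κ_i ≥ 2`, `1` for primes -/
noncomputable def dens {m : ℕ} (w w' : ℕ) (κ : Fin m → ℕ) : ℝ := ∏ i, if κ i = 1 then 1 else sgK (κ i) w w'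

end Pool.Agent.Lib.VKT
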