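import Pool.Agent.Lib.VK.WEsy
import Pool.Agent.Lib.G5.R4

/-!
# VK / WBd (phase 2, general): bounds and supports of `Fk` and of its density (copy of UBd)

PROOF. As `rk_le`, `Fk_le` (UBd.lean, landed) with `sgK2_le` and `G5.r4 k 3 c1` at `4Y` (`Rg2 (4Y) w w' c1 (1000 K)` gives `Rg2 (4Y) w w' c1 (1000 k)`, `w' ≥ 1`).
-/

set_option autoImplicit false

open Finset Filter

namespace Pool.Agent.Lib.VKT

open Pool.Agent.Lib.G5 (bS PP aS sg1 esy SI Ix bB sgK EE Rg2)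

private theorem wbd_one {ι : Type} [DecidableEq ι] (A : Finset ι) (f : ι → ℝ) (c : ℝ) (hc : 0 ≤ c) (h1 : ∀ x ∈ A, f x ≤ c)
    (h2 : ∀ x ∈ A, ∀ y ∈ A, f x ≠ 0 → f y ≠ 0 → x = y) : ∑ x ∈ A, f x ≤ c := by
  by_cases h : ∃ x ∈ A, f x ≠ 0
  · obtain ⟨x, hx, hfx⟩ := h
    rw [Finset.sum_eq_single x]
    · exact h1 x hx
    · intro y hy hyx
      by_contra hfy
      exact hyx (h2 y hy x hx hfy hfx)
    · intro h
      exact absurd hx h
  · push Not at h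
    rw [Finset.sum_eq_zero h]
    exact hc

private theorem wbd_as {k : ℕ} (w w' : ℕ) (hk : 2 ≤ k) (m : ℕ) : 0 ≤ aS k w w' m := by
  have hk' : (0 : ℝ) < (k : ℝ) - 1 := by
    have : (2 : ℝ) ≤ k := by exact_mod_cast hk
    linarith
  unfold aS
  split_ifs
  · positivity
  · exact le_rfl

private theorem wbd_lp (n : ℕ) : 0 ≤ Pool.Agent.Lib.G3.lp n := by
  unfold Pool.Agent.Lib.G3.lp
  split_ifs
  · exact Real.log_natCast_nonneg n
  · exact le_rfl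

private theorem wbd_SI {w w' i p : ℕ} (h : p ∈ SI w w' i) : p.Prime ∧ p ∈ PP w w' ∧ 2 ^ i < p ∧ p ≤ 2 ^ (i + 1) := by
  unfold SI at h
  rw [mem_filter] at h
  have h1 := h.1
  unfold PP at h1
  rw [mem_filter] at h1
  exact ⟨h1.2, h.1, h.2.1, h.2.2⟩

/-- members of `IY` -/
private theorem wbd_IY {Y k w w' : ℕ} {b : ℕ × ℕ × ℕ} (hb : b ∈ IY Y k w w') : b ∈ Ix (4 * Y) 3 k w w' ∧
    2 ^ b.2.1 ≤ w' ^ (k - 2) ∧ 2 ^ b.1 * 2 ^ b.2.1 * 2 ^ b.2.2 ≤ 4 * Y := by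
  unfold IY at hb
  rw [mem_filter] at hb
  have h := hb.1
  unfold Ix at h
  rw [mem_filter] at h
  exact ⟨hb.1, h.2.2.1, h.2.2.2.2⟩

private theorem wbd_log2 (g : ℕ) : 0 < Real.log ((2 * 2 ^ g : ℕ) : ℝ) := by
  refine Real.log_pos ?_
  have : 1 < 2 * 2 ^ g := by
    have := Nat.one_le_two_pow (n := g)
    omega
  exact_mod_cast this

/-- the size of a product of a block -/
private theorem wbd_size {Y k w w' : ℕ} {b : ℕ × ℕ × ℕ} (hb : b ∈ IY Y k w w') {p m r : ℕ} (hp : p ≤ 2 ^ (b.1 + 1))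
    (hm : m < 2 * 2 ^ b.2.1) (hr : r ≤ 2 ^ b.2.2) : 2 * (p * m * r) ≤ 32 * Y := by
  have h1 := (wbd_IY hb).2.2
  have h2 : p * m * r ≤ 2 ^ (b.1 + 1) * (2 * 2 ^ b.2.1) * 2 ^ b.2.2 := Nat.mul_le_mul (Nat.mul_le_mul hp hm.le) hr
  have h3 : 2 ^ (b.1 + 1) * (2 * 2 ^ b.2.1) * 2 ^ b.2.2 = 4 * (2 ^ b.1 * 2 ^ b.2.1 * 2 ^ b.2.2) := by
    rw [pow_succ]
    ring
  omega

private theorem wbd_i {a b x : ℕ} (h1 : 2 ^ a < x) (h2 : x ≤ 2 ^ (a + 1)) (h3 : 2 ^ b < x) (h4 : x ≤ 2 ^ (b + 1)) : a = b := by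
  have key : ∀ u v : ℕ, 2 ^ v < x → x ≤ 2 ^ (u + 1) → ¬ u < v := by
    intro u v hv hu huv
    have : 2 ^ (u + 1) ≤ 2 ^ v := Nat.pow_le_pow_right (by norm_num) huv
    omega
  have k1 := key a b h3 h2
  have k2 := key b a h1 h4
  omega

private theorem wbd_j {a b x : ℕ} (h1 : 2 ^ a ≤ x) (h2 : x < 2 * 2 ^ a) (h3 : 2 ^ b ≤ x) (h4 : x < 2 * 2 ^ b) : a = b := by
  have key : ∀ u v : ℕ, 2 ^ v ≤ x → x < 2 * 2 ^ u → ¬ u < v := by
    intro u v hv hu huv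
    have : 2 ^ (u + 1) ≤ 2 ^ v := Nat.pow_le_pow_right (by norm_num) huv
    rw [pow_succ] at this
    omega
  have k1 := key a b h3 h2
  have k2 := key b a h1 h4
  omega

private theorem wbd_g {a b c x : ℕ} (h1 : c * 2 ^ a < x) (h2 : x ≤ 2 * (c * 2 ^ a)) (h3 : c * 2 ^ b < x)
    (h4 : x ≤ 2 * (c * 2 ^ b)) : a = b := by
  have key : ∀ u v : ℕ, c * 2 ^ v < x → x ≤ 2 * (c * 2 ^ u) → ¬ u < v := by
    intro u v hv hu huv
    have h5 : 2 ^ (u + 1) ≤ 2 ^ v := Nat.pow_le_pow_right (by norm_num) huv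
    have h6 : c * 2 ^ (u + 1) ≤ c * 2 ^ v := Nat.mul_le_mul_left c h5
    have h7 : c * 2 ^ (u + 1) = 2 * (c * 2 ^ u) := by
      rw [pow_succ]
      ring
    omega
  have k1 := key a b h3 h2
  have k2 := key b a h1 h4
  omega

/-- the density of one block without the logarithm -/
private theorem wbd_rho {Y : ℕ} (S : Finset ℕ) (a : ℕ → ℝ) (g M n : ℕ) :
    Real.log (2 * 2 ^ g : ℕ) / Real.log (32 * Y : ℕ) * rhoS S a (2 ^ g) M n =
      (∑ p ∈ S, ∑ m ∈ Ico M (2 * M), if p * m * 2 ^ g < n ∧ n ≤ 2 * (p * m * 2 ^ g) then a m / (p * m) else 0) /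
        Real.log (32 * Y : ℕ) := by
  have hL := wbd_log2 g
  unfold rhoS
  rw [Finset.mul_sum, Finset.sum_div]
  refine sum_congr rfl fun p _ => ?_
  rw [Finset.mul_sum, Finset.sum_div]
  refine sum_congr rfl fun m _ => ?_
  split_ifs with h
  · have h1 : ((p : ℝ) * m * Real.log ((2 * 2 ^ g : ℕ) : ℝ)) = (p * m) * Real.log ((2 * 2 ^ g : ℕ) : ℝ) := rfl
    rw [h1, ← div_div (a m), div_mul_div_comm, mul_comm (Real.log ((2 * 2 ^ g : ℕ) : ℝ)) (a m / (p * m)),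
      mul_div_mul_right _ _ hL.ne']
  · simp

/-- one term of `rk` written over all primes and all `m` -/
private theorem wbd_block {Y k w w' N : ℕ} (hN : 2 * w' ^ (k - 2) ≤ N) (n : ℕ) {b : ℕ × ℕ × ℕ} (hb : b ∈ IY Y k w w') :
    (∑ p ∈ SI w w' b.1, ∑ m ∈ Ico (2 ^ b.2.1) (2 * 2 ^ b.2.1),
      if p * m * 2 ^ b.2.2 < n ∧ n ≤ 2 * (p * m * 2 ^ b.2.2) then aS k w w' m / (p * m) else 0) =
    ∑ p ∈ PP w w', ∑ m ∈ Icc 1 N, if (2 ^ b.1 < p ∧ p ≤ 2 ^ (b.1 + 1)) ∧ (2 ^ b.2.1 ≤ m ∧ m < 2 * 2 ^ b.2.1) ∧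
      (p * m * 2 ^ b.2.2 < n ∧ n ≤ 2 * (p * m * 2 ^ b.2.2)) then aS k w w' m / (p * m) else 0 := by
  have hj := (wbd_IY hb).2.1
  unfold SI
  rw [Finset.sum_filter]
  refine sum_congr rfl fun p _ => ?_
  by_cases h : 2 ^ b.1 < p ∧ p ≤ 2 ^ (b.1 + 1)
  · rw [if_pos h]
    have h1 : Ico (2 ^ b.2.1) (2 * 2 ^ b.2.1) = (Icc 1 N).filter fun m => 2 ^ b.2.1 ≤ m ∧ m < 2 * 2 ^ b.2.1 := by
      ext m
      rw [mem_Ico, mem_filter, mem_Icc]
      have := Nat.one_le_two_pow (n := b.2.1)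
      constructor
      · rintro ⟨h2, h3⟩
        exact ⟨⟨by omega, by omega⟩, h2, h3⟩
      · exact fun h2 => h2.2
    rw [h1, Finset.sum_filter]
    refine sum_congr rfl fun m _ => ?_
    by_cases h2 : 2 ^ b.2.1 ≤ m ∧ m < 2 * 2 ^ b.2.1
    · rw [if_pos h2]
      by_cases h3 : p * m * 2 ^ b.2.2 < n ∧ n ≤ 2 * (p * m * 2 ^ b.2.2)
      · rw [if_pos h3, if_pos ⟨h, h2, h3⟩]
      · rw [if_neg h3, if_neg (fun h4 => h3 h4.2.2)]
    · rw [if_neg h2, if_neg (fun h4 => h2 h4.2.1)]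
  · rw [if_neg h]
    refine (Finset.sum_eq_zero fun m _ => ?_).symm
    rw [if_neg (fun h4 => h h4.1)]

/-- a smaller exponent -/
private theorem wbd_Rg {Y w w' c1 K k : ℕ} (hk : 2 ≤ k) (hkK : k ≤ K) (h : Rg2 (4 * Y) w w' c1 (1000 * K)) :
    Rg2 (4 * Y) w w' c1 (1000 * k) := by
  obtain ⟨h1, h2, h3⟩ := h
  refine ⟨h1, h2, ?_⟩
  rcases Nat.eq_zero_or_pos w' with h0 | h0
  · rw [h0, zero_pow (by omega)]
    exact Nat.zero_le _
  · exact (Nat.pow_le_pow_right h0 (by omega)).trans h3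

theorem rk2_le (K c1 : ℕ) : ∃ x0 : ℝ, ∀ Y : ℕ, x0 ≤ Y → ∀ w w' : ℕ, Rg2 (4 * Y) w w' c1 (1000 * K) → ∀ k : ℕ, 2 ≤ k → k ≤ K → ∀ n : ℕ,
    0 ≤ rk Y k w w' n ∧ rk Y k w w' n ≤ 1 ∧ (rk Y k w w' n ≠ 0 → 1 ≤ n ∧ n ≤ 32 * Y) := by
  classical
  obtain ⟨x1, hx1⟩ := sgK2_le K c1
  refine ⟨max x1 2, fun Y hY w w' hR k hk hkK n => ?_⟩
  have hY2 : (2 : ℝ) ≤ Y := (le_max_right _ _).trans hY
  obtain ⟨hs0, hs1⟩ := hx1 Y ((le_max_left _ _).trans hY) w w' (1000 * K) (by omega) hR k hk hkK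
  have hlY : Real.log Y ≤ Real.log (32 * Y : ℕ) := by
    refine Real.log_le_log (by linarith) ?_
    push_cast
    linarith
  have hlY0 : 0 < Real.log Y := Real.log_pos (by linarith)
  have hl : 0 < Real.log (32 * Y : ℕ) := lt_of_lt_of_le hlY0 hlY
  have ha := wbd_as w w' hk
  set t : ℕ × ℕ × ℕ → ℕ → ℕ → ℝ := fun b p m =>
    if p * m * 2 ^ b.2.2 < n ∧ n ≤ 2 * (p * m * 2 ^ b.2.2) then aS k w w' m / (p * m) else 0 with ht
  have ht0 : ∀ b p m, 0 ≤ t b p m := by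
    intro b p m
    simp only [ht]
    split_ifs
    · exact div_nonneg (ha m) (by positivity)
    · exact le_rfl
  have e1 : rk Y k w w' n = (∑ b ∈ IY Y k w w', ∑ p ∈ SI w w' b.1, ∑ m ∈ Ico (2 ^ b.2.1) (2 * 2 ^ b.2.1), t b p m) /
      Real.log (32 * Y : ℕ) := by
    unfold rk
    rw [Finset.sum_div]
    exact sum_congr rfl fun b _ => wbd_rho _ _ _ _ _
  refine ⟨?_, ?_, ?_⟩
  · rw [e1]
    exact div_nonneg (Finset.sum_nonneg fun b _ => Finset.sum_nonneg fun p _ => Finset.sum_nonneg fun m _ => ht0 b p m) hl.le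
  · rw [e1, div_le_one hl]
    set N := 2 * w' ^ (k - 2) with hN
    have e2 : ∑ b ∈ IY Y k w w', ∑ p ∈ SI w w' b.1, ∑ m ∈ Ico (2 ^ b.2.1) (2 * 2 ^ b.2.1), t b p m =
        ∑ p ∈ PP w w', ∑ m ∈ Icc 1 N, ∑ b ∈ IY Y k w w', if (2 ^ b.1 < p ∧ p ≤ 2 ^ (b.1 + 1)) ∧
          (2 ^ b.2.1 ≤ m ∧ m < 2 * 2 ^ b.2.1) ∧ (p * m * 2 ^ b.2.2 < n ∧ n ≤ 2 * (p * m * 2 ^ b.2.2)) then
            aS k w w' m / (p * m) else 0 := by
      rw [Finset.sum_congr rfl fun b hb => wbd_block hN.symm.le n hb, Finset.sum_comm]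
      exact sum_congr rfl fun p _ => Finset.sum_comm
    have e3 : ∀ p m : ℕ, (∑ b ∈ IY Y k w w', if (2 ^ b.1 < p ∧ p ≤ 2 ^ (b.1 + 1)) ∧
          (2 ^ b.2.1 ≤ m ∧ m < 2 * 2 ^ b.2.1) ∧ (p * m * 2 ^ b.2.2 < n ∧ n ≤ 2 * (p * m * 2 ^ b.2.2)) then
            aS k w w' m / (p * m) else 0) ≤ aS k w w' m / (p * m) := by
      intro p m
      have h0 : 0 ≤ aS k w w' m / ((p : ℝ) * m) := div_nonneg (ha m) (by positivity)
      refine wbd_one _ _ _ h0 ?_ ?_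
      · intro b _
        split_ifs
        · exact le_rfl
        · exact h0
      · intro b _ b' _ hb hb'
        rw [ne_eq, ite_eq_right_iff, Classical.not_imp] at hb hb'
        obtain ⟨⟨⟨i1, i2⟩, ⟨j1, j2⟩, ⟨g1, g2⟩⟩, -⟩ := hb
        obtain ⟨⟨⟨i3, i4⟩, ⟨j3, j4⟩, ⟨g3, g4⟩⟩, -⟩ := hb'
        have hi := wbd_i i1 i2 i3 i4
        have hj := wbd_j j1 j2 j3 j4
        have hg := wbd_g g1 g2 g3 g4
        exact Prod.ext hi (Prod.ext hj hg)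
    have e4 : ∑ p ∈ PP w w', ∑ m ∈ Icc 1 N, aS k w w' m / ((p : ℝ) * m) = sgK k w w' := by
      have h1 : ∀ p ∈ PP w w', ∑ m ∈ Icc 1 N, aS k w w' m / ((p : ℝ) * m) =
          (1 : ℝ) / p * (esy (k - 2) w w' / ((k : ℝ) - 1)) := by
        intro p _
        rw [← esy_sum hk (show w' ^ (k - 2) ≤ N by omega), Finset.mul_sum]
        refine sum_congr rfl fun m _ => ?_
        rw [div_mul_div_comm, one_mul]
      rw [Finset.sum_congr rfl h1, ← Finset.sum_mul]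
      unfold sgK sg1
      rw [mul_div_assoc]
    rw [e2]
    calc _ ≤ ∑ p ∈ PP w w', ∑ m ∈ Icc 1 N, aS k w w' m / ((p : ℝ) * m) :=
          Finset.sum_le_sum fun p _ => Finset.sum_le_sum fun m _ => e3 p m
      _ = sgK k w w' := e4
      _ ≤ Real.log Y := hs1
      _ ≤ _ := hlY
  · intro hne
    rw [e1] at hne
    have hne' : ∑ b ∈ IY Y k w w', ∑ p ∈ SI w w' b.1, ∑ m ∈ Ico (2 ^ b.2.1) (2 * 2 ^ b.2.1), t b p m ≠ 0 := by
      intro h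
      rw [h, zero_div] at hne
      exact hne rfl
    obtain ⟨b, hb, h1⟩ := Finset.exists_ne_zero_of_sum_ne_zero hne'
    obtain ⟨p, hp, h2⟩ := Finset.exists_ne_zero_of_sum_ne_zero h1
    obtain ⟨m, hm, h3⟩ := Finset.exists_ne_zero_of_sum_ne_zero h2
    simp only [ht] at h3
    rw [ne_eq, ite_eq_right_iff, Classical.not_imp] at h3
    obtain ⟨⟨h4, h5⟩, -⟩ := h3
    have h6 := wbd_size hb (wbd_SI hp).2.2.2 (mem_Ico.1 hm).2 (le_refl (2 ^ b.2.2))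
    exact ⟨by omega, by omega⟩

/-- the block functions are nonnegative and have small support -/
private theorem wbd_bB {k w w' : ℕ} (hk : 2 ≤ k) (b : ℕ × ℕ × ℕ) (n : ℕ) : 0 ≤ bB k w w' b n := by
  unfold bB bS
  refine Finset.sum_nonneg fun p _ => Finset.sum_nonneg fun r _ => Finset.sum_nonneg fun m _ => ?_
  split_ifs
  · exact mul_nonneg (wbd_as w w' hk m) (div_nonneg (wbd_lp r) (Real.log_natCast_nonneg _))
  · exact le_rfl

private theorem wbd_bBs {Y k w w' n : ℕ} {b : ℕ × ℕ × ℕ} (hb : b ∈ IY Y k w w') (hne : bB k w w' b n ≠ 0) : 1 ≤ n ∧ n ≤ 32 * Y := by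
  unfold bB bS at hne
  obtain ⟨p, hp, h1⟩ := Finset.exists_ne_zero_of_sum_ne_zero hne
  obtain ⟨r, hr, h2⟩ := Finset.exists_ne_zero_of_sum_ne_zero h1
  obtain ⟨m, hm, h3⟩ := Finset.exists_ne_zero_of_sum_ne_zero h2
  rw [ne_eq, ite_eq_right_iff, Classical.not_imp] at h3
  have h4 := h3.1
  unfold Pool.Agent.Lib.G3.pr at hr
  rw [mem_filter, mem_Ioc] at hr
  have hp' := wbd_SI hp
  rw [mem_Ico] at hm
  have h5 := (wbd_IY hb).2.2
  have hm1 := Nat.one_le_two_pow (n := b.2.1)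
  constructor
  · rw [← h4]
    exact Nat.mul_pos (Nat.mul_pos hp'.1.pos (by omega)) hr.2.pos
  · rw [← h4]
    calc p * m * r ≤ 2 ^ (b.1 + 1) * (2 * 2 ^ b.2.1) * (2 * 2 ^ b.2.2) :=
          Nat.mul_le_mul (Nat.mul_le_mul hp'.2.2.2 hm.2.le) hr.1.2
      _ = 8 * (2 ^ b.1 * 2 ^ b.2.1 * 2 ^ b.2.2) := by
          rw [pow_succ]
          ring
      _ ≤ 32 * Y := by omega

theorem Fk2_le (K c1 : ℕ) : ∃ x0 : ℝ, ∀ Y : ℕ, x0 ≤ Y → ∀ w w' : ℕ, Rg2 (4 * Y) w w' c1 (1000 * K) → ∀ k : ℕ, 2 ≤ k → k ≤ K → ∀ n : ℕ,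
    0 ≤ Fk Y k w w' n ∧ Fk Y k w w' n ≤ 1 ∧ (Fk Y k w w' n ≠ 0 → 1 ≤ n ∧ n ≤ 32 * Y) := by
  classical
  choose f hf using fun k : ℕ => Pool.Agent.Lib.G5.r4 (max k 2) 3 c1 (le_max_right k 2)
  refine ⟨max (∑ k ∈ range (K + 1), |f k|) 2, fun Y hY w w' hR k hk hkK n => ?_⟩
  have hY2 : (2 : ℝ) ≤ Y := (le_max_right _ _).trans hY
  have hl : 0 < Real.log (32 * Y : ℕ) := by
    refine Real.log_pos ?_
    push_cast
    linarith
  have hkf : f k ≤ ((4 * Y : ℕ) : ℝ) := by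
    have h1 : |f k| ≤ ∑ k ∈ range (K + 1), |f k| :=
      Finset.single_le_sum (f := fun k => |f k|) (fun i _ => abs_nonneg (f i)) (mem_range.2 (by omega))
    have h2 : ∑ k ∈ range (K + 1), |f k| ≤ Y := (le_max_left _ _).trans hY
    have h3 := le_abs_self (f k)
    push_cast
    linarith
  have hq := hf k (4 * Y) hkf w w'
  rw [max_eq_left hk] at hq
  replace hq := hq (wbd_Rg hk hkK hR)
  have hc : ∀ b ∈ IY Y k w w', 0 ≤ Real.log (2 * 2 ^ b.2.2 : ℕ) / Real.log (32 * Y : ℕ) ∧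
      Real.log (2 * 2 ^ b.2.2 : ℕ) / Real.log (32 * Y : ℕ) ≤ 1 := by
    intro b hb
    refine ⟨div_nonneg (wbd_log2 _).le hl.le, ?_⟩
    rw [div_le_one hl]
    refine Real.log_le_log ?_ ?_
    · have : 0 < 2 * 2 ^ b.2.2 := by positivity
      exact_mod_cast this
    · have h1 := (wbd_IY hb).2.2
      have h2 : 2 ^ b.2.2 ≤ 2 ^ b.1 * 2 ^ b.2.1 * 2 ^ b.2.2 := Nat.le_mul_of_pos_left _ (by positivity)
      have h3 : 2 * 2 ^ b.2.2 ≤ 32 * Y := by omega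
      exact_mod_cast h3
  have hnn := fun b => wbd_bB (w := w) (w' := w') hk b n
  have hsupp : Fk Y k w w' n ≠ 0 → 1 ≤ n ∧ n ≤ 32 * Y := by
    intro hne
    unfold Fk at hne
    obtain ⟨b, hb, h1⟩ := Finset.exists_ne_zero_of_sum_ne_zero hne
    exact wbd_bBs hb (right_ne_zero_of_mul h1)
  refine ⟨?_, ?_, hsupp⟩
  · unfold Fk
    exact Finset.sum_nonneg fun b hb => mul_nonneg (hc b hb).1 (hnn b)
  · by_cases hn : 1 ≤ n
    · have h1 := ((hq n hn).1).2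
      calc Fk Y k w w' n ≤ ∑ b ∈ IY Y k w w', bB k w w' b n := by
            unfold Fk
            refine Finset.sum_le_sum fun b hb => ?_
            exact mul_le_of_le_one_left (hnn b) (hc b hb).2
        _ ≤ ∑ b ∈ Ix (4 * Y) 3 k w w', bB k w w' b n := by
            refine Finset.sum_le_sum_of_subset_of_nonneg (fun b hb => (wbd_IY hb).1) fun b _ _ => hnn b
        _ ≤ 1 := h1
    · by_cases h0 : Fk Y k w w' n = 0
      · rw [h0]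
        exact zero_le_one
      · exact absurd (hsupp h0).1 hn

end Pool.Agent.Lib.VKT
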