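import Pool.Agent.Lib.VK.UEsy
import Pool.Agent.Lib.G5.Q4
import Pool.Agent.Lib.G5.GDefs

/-!
# VK / WPl (general version): the plateau of the model

PROOF. `l = log 32Y`. Unfold `rk`: the factor `log (2·2^g)` cancels, `rk Y k w w' n = (1/l) ∑_{b ∈ IY} ∑_{p ∈ SI i} ∑_{m ∈ [2^j, 2^(j+1))} aS(m)/(pm)
1[pm 2^g < n ≤ pm 2^(g+1)]`. `platK`: let `Y < n ≤ 3Y`. Every prime `p ∈ PP w w'` is in exactly one `SI i`, every `m ≥ 1` in exactly one `[2^j, 2^(j+1))`,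
and for given `p, m` (`pm ≤ w'^(k-1) < Y`) there is exactly one `g` with `pm 2^g < n ≤ pm 2^(g+1)` (`n > pm`); its block is in `IY`: `2^(i+j+g) < n ≤ 4Y`,
`2^(i+j+g) ≥ n/8 > Y/8 ≥ 4Y/(log 4Y)^3` (`p ≤ 2·2^i`, `m < 2·2^j`, `n ≤ 2pm2^g`), `2^j ≤ m ≤ w'^(k-2)` when `aS m ≠ 0`, `i, j, g ≤ Nat.log 2 (4Y)`. So
`rk = (1/l) ∑_{p ∈ PP} 1/p ∑_m aS(m)/m = sgK/l` (`esy_sum`).
-/

set_option autoImplicit false

open Finset Filter

namespace Pool.Agent.Lib.VKT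

open Pool.Agent.Lib.G5 (bS PP aS sg1 esy SI Ix bB sgK EE Rg2)

private theorem up_large : ∃ x0 : ℝ, ∀ Y : ℝ, x0 ≤ Y → 32 ≤ (Real.log Y) ^ 3 := by
  refine ⟨Real.exp 4, fun Y h2 => ?_⟩
  have hY0 : 0 < Y := lt_of_lt_of_le (Real.exp_pos 4) h2
  have h4 : 4 ≤ Real.log Y := by
    rw [Real.le_log_iff_exp_le hY0]
    exact h2
  calc (32 : ℝ) ≤ 4 ^ 3 := by norm_num
    _ ≤ (Real.log Y) ^ 3 := pow_le_pow_left₀ (by norm_num) h4 3

private theorem up_pow {i i' p : ℕ} (h1 : 2 ^ i < p) (h2 : p ≤ 2 ^ (i + 1)) (h3 : 2 ^ i' < p)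
    (h4 : p ≤ 2 ^ (i' + 1)) : i = i' := by
  rcases lt_trichotomy i i' with h | h | h
  · have : 2 ^ (i + 1) ≤ 2 ^ i' := Nat.pow_le_pow_right (by norm_num) h
    omega
  · exact h
  · have : 2 ^ (i' + 1) ≤ 2 ^ i := Nat.pow_le_pow_right (by norm_num) h
    omega

private theorem up_pow' {j j' m : ℕ} (h1 : 2 ^ j ≤ m) (h2 : m < 2 * 2 ^ j) (h3 : 2 ^ j' ≤ m)
    (h4 : m < 2 * 2 ^ j') : j = j' := by
  rcases lt_trichotomy j j' with h | h | h
  · have : 2 ^ (j + 1) ≤ 2 ^ j' := Nat.pow_le_pow_right (by norm_num) h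
    rw [pow_succ] at this
    omega
  · exact h
  · have : 2 ^ (j' + 1) ≤ 2 ^ j := Nat.pow_le_pow_right (by norm_num) h
    rw [pow_succ] at this
    omega

private theorem up_g {g g' a n : ℕ} (h1 : a * 2 ^ g < n) (h2 : n ≤ 2 * (a * 2 ^ g))
    (h3 : a * 2 ^ g' < n) (h4 : n ≤ 2 * (a * 2 ^ g')) : g = g' := by
  rcases lt_trichotomy g g' with h | h | h
  · have h5 : 2 ^ (g + 1) ≤ 2 ^ g' := Nat.pow_le_pow_right (by norm_num) h
    have h6 : a * 2 ^ (g + 1) ≤ a * 2 ^ g' := Nat.mul_le_mul_left a h5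
    rw [pow_succ] at h6
    have h7 : a * (2 ^ g * 2) = 2 * (a * 2 ^ g) := by ring
    omega
  · exact h
  · have h5 : 2 ^ (g' + 1) ≤ 2 ^ g := Nat.pow_le_pow_right (by norm_num) h
    have h6 : a * 2 ^ (g' + 1) ≤ a * 2 ^ g := Nat.mul_le_mul_left a h5
    rw [pow_succ] at h6
    have h7 : a * (2 ^ g' * 2) = 2 * (a * 2 ^ g') := by ring
    omega

private theorem up_gex {a n : ℕ} (ha : 0 < a) (h : a < n) :
    ∃ g : ℕ, a * 2 ^ g < n ∧ n ≤ 2 * (a * 2 ^ g) := by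
  have h0 : (n - 1) / a ≠ 0 := by
    have : 0 < (n - 1) / a := Nat.div_pos (by omega) ha
    omega
  refine ⟨Nat.log 2 ((n - 1) / a), ?_, ?_⟩
  · have h1 := Nat.pow_log_le_self 2 h0
    have h2 : a * 2 ^ Nat.log 2 ((n - 1) / a) ≤ a * ((n - 1) / a) := Nat.mul_le_mul_left a h1
    have h3 : a * ((n - 1) / a) ≤ n - 1 := Nat.mul_div_le _ _
    omega
  · have h1 := Nat.lt_pow_succ_log_self (show 1 < 2 by norm_num) ((n - 1) / a)
    rw [Nat.succ_eq_add_one, pow_succ, Nat.div_lt_iff_lt_mul ha] at h1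
    have h2 : 2 ^ Nat.log 2 ((n - 1) / a) * 2 * a = 2 * (a * 2 ^ Nat.log 2 ((n - 1) / a)) := by ring
    omega

private theorem up_aS {k w w' m : ℕ} (h : aS k w w' m ≠ 0) :
    Squarefree m ∧ m.primeFactors.card = k - 2 ∧ m.primeFactors ⊆ PP w w' := by
  unfold aS at h
  split_ifs at h with h1
  · exact h1
  · exact absurd rfl h

private theorem up_PP {w w' q : ℕ} (h : q ∈ PP w w') : q.Prime ∧ w < q ∧ q ≤ w' := by
  unfold PP at h
  rw [mem_filter, mem_Ioc] at h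
  exact ⟨h.2, h.1⟩

private theorem up_mle {k w w' m : ℕ} (h : aS k w w' m ≠ 0) : 1 ≤ m ∧ m ≤ w' ^ (k - 2) := by
  obtain ⟨hm, hc, hmP⟩ := up_aS h
  refine ⟨Nat.one_le_iff_ne_zero.2 hm.ne_zero, ?_⟩
  rw [← Nat.prod_primeFactors_of_squarefree hm, ← hc]
  exact Finset.prod_le_pow_card _ _ _ fun q hq => (up_PP (hmP hq)).2.2

private theorem up_two {p : ℕ} (hp : 2 ≤ p) :
    2 ^ Nat.log 2 (p - 1) < p ∧ p ≤ 2 ^ (Nat.log 2 (p - 1) + 1) := by
  have h1 := Nat.pow_log_le_self 2 (show p - 1 ≠ 0 by omega)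
  have h2 := Nat.lt_pow_succ_log_self (show 1 < 2 by norm_num) (p - 1)
  rw [Nat.succ_eq_add_one] at h2
  omega

/-- the terms -/
private noncomputable def upF (k w w' n : ℕ) (x : (_ : ℕ × ℕ × ℕ) × (ℕ × ℕ)) : ℝ :=
  if x.2.1 * x.2.2 * 2 ^ x.1.2.2 < n ∧ n ≤ 2 * (x.2.1 * x.2.2 * 2 ^ x.1.2.2) then
    1 / (x.2.1 : ℝ) * (aS k w w' x.2.2 / x.2.2) else 0

private theorem up_unfold (Y k w w' n : ℕ) : rk Y k w w' n =
    (∑ x ∈ (IY Y k w w').sigma (fun b => SI w w' b.1 ×ˢ Ico (2 ^ b.2.1) (2 * 2 ^ b.2.1)),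
      upF k w w' n x) / Real.log (32 * Y : ℕ) := by
  rw [Finset.sum_sigma, Finset.sum_div]
  unfold rk
  refine sum_congr rfl fun b _ => ?_
  unfold rhoS
  rw [Finset.sum_product, mul_sum, Finset.sum_div]
  refine sum_congr rfl fun p _ => ?_
  rw [mul_sum, Finset.sum_div]
  refine sum_congr rfl fun m _ => ?_
  unfold upF
  simp only
  split_ifs with h
  · have hlog : Real.log (2 * 2 ^ b.2.2 : ℕ) ≠ 0 := by
      have h1 : (1 : ℝ) < (2 * 2 ^ b.2.2 : ℕ) := by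
        have : 1 ≤ 2 ^ b.2.2 := Nat.one_le_two_pow
        have h2 : 1 < 2 * 2 ^ b.2.2 := by omega
        exact_mod_cast h2
      exact (Real.log_pos h1).ne'
    field_simp
  · simp

theorem platK2 (K c1 : ℕ) : ∃ x0 : ℝ, ∀ Y : ℕ, x0 ≤ Y → ∀ w w' : ℕ, Rg2 (4 * Y) w w' c1 (1000 * K) → ∀ k : ℕ, 2 ≤ k → k ≤ K → ∀ n : ℕ,
    Y < n → n ≤ 3 * Y → rk Y k w w' n = sgK k w w' / Real.log (32 * Y : ℕ) := by
  obtain ⟨x0, hx0⟩ := up_large
  refine ⟨max x0 16, fun Y hY w w' hR k hk hkK n hn1 hn2 => ?_⟩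
  have hY16 : (16 : ℝ) ≤ Y := (le_max_right _ _).trans hY
  have hY4 : x0 ≤ ((4 * Y : ℕ) : ℝ) := by
    have h1 : x0 ≤ (Y : ℝ) := (le_max_left _ _).trans hY
    push_cast
    linarith
  have hl3 := hx0 _ hY4
  -- `p m ≤ Y`
  have hbig : w' * w' ^ (k - 2) ≤ Y := by
    have h16 : 16 ≤ Y := by exact_mod_cast hY16
    have h5 : w' * w' ^ (k - 2) = w' ^ (k - 1) := by
      rw [← pow_succ']
      congr 1
      omega
    rw [h5]
    rcases Nat.eq_zero_or_pos w' with h0 | h0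
    · rw [h0, zero_pow (by omega)]
      omega
    · have h1 : w' ^ (k - 1) * w' ^ (k - 1) ≤ 4 * Y := by
        rw [← pow_add]
        exact (Nat.pow_le_pow_right h0 (by omega)).trans hR.h3
      nlinarith
  have hsum : ∑ x ∈ (IY Y k w w').sigma (fun b => SI w w' b.1 ×ˢ Ico (2 ^ b.2.1) (2 * 2 ^ b.2.1)),
      upF k w w' n x = ∑ q ∈ PP w w' ×ˢ Icc 1 (w' ^ (k - 2)), 1 / (q.1 : ℝ) * (aS k w w' q.2 / q.2) := by
    have hne : ∀ x : (_ : ℕ × ℕ × ℕ) × (ℕ × ℕ), upF k w w' n x ≠ 0 →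
        (x.2.1 * x.2.2 * 2 ^ x.1.2.2 < n ∧ n ≤ 2 * (x.2.1 * x.2.2 * 2 ^ x.1.2.2)) ∧
        aS k w w' x.2.2 ≠ 0 ∧ upF k w w' n x = 1 / (x.2.1 : ℝ) * (aS k w w' x.2.2 / x.2.2) := by
      intro x hx
      unfold upF at hx ⊢
      split_ifs at hx ⊢ with h
      · refine ⟨h, ?_, rfl⟩
        intro h0
        apply hx
        rw [h0]
        simp
      · exact absurd rfl hx
    refine Finset.sum_bij_ne_zero (fun x _ _ => x.2) ?_ ?_ ?_ ?_
    · rintro ⟨⟨i, j, g⟩, p, m⟩ hx hF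
      obtain ⟨-, h2, -⟩ := hne _ hF
      rw [mem_sigma, mem_product] at hx
      have hp := hx.2.1
      unfold SI at hp
      rw [mem_filter] at hp
      rw [mem_product, mem_Icc]
      exact ⟨hp.1, up_mle h2⟩
    · rintro ⟨⟨i, j, g⟩, p, m⟩ hx hF ⟨⟨i', j', g'⟩, p', m'⟩ hx' hF' he
      obtain ⟨h1, -, -⟩ := hne _ hF
      obtain ⟨h1', -, -⟩ := hne _ hF'
      simp only [Prod.mk.injEq] at he
      obtain ⟨rfl, rfl⟩ := he
      rw [mem_sigma, mem_product, mem_Ico] at hx hx'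
      have hp := hx.2.1
      have hp' := hx'.2.1
      unfold SI at hp hp'
      rw [mem_filter] at hp hp'
      have e1 : i = i' := up_pow hp.2.1 hp.2.2 hp'.2.1 hp'.2.2
      have e2 : j = j' := up_pow' hx.2.2.1 hx.2.2.2 hx'.2.2.1 hx'.2.2.2
      have e3 : g = g' := up_g h1.1 h1.2 h1'.1 h1'.2
      rw [e1, e2, e3]
    · rintro ⟨p, m⟩ hq hF
      rw [mem_product, mem_Icc] at hq
      obtain ⟨hp, hm1, hm2⟩ := hq
      simp only at hp hm1 hm2 hF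
      have hpp := up_PP hp
      have haS : aS k w w' m ≠ 0 := by
        intro h0
        apply hF
        rw [h0]
        simp
      have hpm : p * m ≤ Y := (Nat.mul_le_mul hpp.2.2 hm2).trans hbig
      obtain ⟨g, g1, g2⟩ := up_gex (Nat.mul_pos hpp.1.pos hm1) (lt_of_le_of_lt hpm hn1)
      obtain ⟨i, hi⟩ : ∃ i, i = Nat.log 2 (p - 1) := ⟨_, rfl⟩
      obtain ⟨j, hj⟩ : ∃ j, j = Nat.log 2 m := ⟨_, rfl⟩
      obtain ⟨i1, i2⟩ := up_two hpp.1.two_le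
      have j1 := Nat.pow_log_le_self 2 (show m ≠ 0 by omega)
      have j2 := Nat.lt_pow_succ_log_self (show 1 < 2 by norm_num) m
      rw [Nat.succ_eq_add_one] at j2
      rw [← hi] at i1 i2
      rw [← hj] at j1 j2
      have hpSI : p ∈ SI w w' i := by
        unfold SI
        rw [mem_filter]
        exact ⟨hp, i1, i2⟩
      rw [pow_succ] at i2 j2
      have hup : 2 ^ i * 2 ^ j * 2 ^ g ≤ 4 * Y := by
        have h1 : 2 ^ i * 2 ^ j * 2 ^ g ≤ p * m * 2 ^ g :=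
          Nat.mul_le_mul (Nat.mul_le_mul i1.le j1) le_rfl
        omega
      have hlow : n ≤ 8 * (2 ^ i * 2 ^ j * 2 ^ g) := by
        calc n ≤ 2 * (p * m * 2 ^ g) := g2
          _ ≤ 2 * ((2 ^ i * 2) * (2 ^ j * 2) * 2 ^ g) :=
            Nat.mul_le_mul_left 2 (Nat.mul_le_mul (Nat.mul_le_mul i2 j2.le) le_rfl)
          _ = 8 * (2 ^ i * 2 ^ j * 2 ^ g) := by ring
      have hYe : ((4 * Y : ℕ) : ℝ) / (Real.log (4 * Y : ℕ)) ^ 3 ≤
          ((2 ^ i * 2 ^ j * 2 ^ g : ℕ) : ℝ) := by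
        have h1 : (Y : ℝ) ≤ 8 * ((2 ^ i * 2 ^ j * 2 ^ g : ℕ) : ℝ) := by
          have : Y ≤ 8 * (2 ^ i * 2 ^ j * 2 ^ g) := by omega
          exact_mod_cast this
        rw [div_le_iff₀ (by positivity)]
        have h2 : (0 : ℝ) ≤ ((2 ^ i * 2 ^ j * 2 ^ g : ℕ) : ℝ) := Nat.cast_nonneg _
        calc ((4 * Y : ℕ) : ℝ) = 4 * Y := by push_cast; ring
          _ ≤ ((2 ^ i * 2 ^ j * 2 ^ g : ℕ) : ℝ) * 32 := by linarith
          _ ≤ _ := mul_le_mul_of_nonneg_left hl3 h2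
      have hpos : ∀ a : ℕ, 1 ≤ 2 ^ a := fun a => Nat.one_le_two_pow
      have hY0 : 4 * Y ≠ 0 := by
        have : (0 : ℝ) < Y := by linarith
        have : 0 < Y := by exact_mod_cast this
        omega
      have key : ∀ t : ℕ, 2 ^ t ≤ 4 * Y → t < Nat.log 2 (4 * Y) + 1 := by
        intro t ht
        have := (Nat.le_log_iff_pow_le (by norm_num) hY0).2 ht
        omega
      have r1 : i < Nat.log 2 (4 * Y) + 1 := by
        apply key
        refine le_trans ?_ hup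
        rw [mul_assoc]
        exact Nat.le_mul_of_pos_right _ (Nat.mul_pos (hpos j) (hpos g))
      have r2 : j < Nat.log 2 (4 * Y) + 1 := by
        apply key
        refine le_trans ?_ hup
        calc 2 ^ j ≤ 2 ^ i * 2 ^ j := Nat.le_mul_of_pos_left _ (hpos i)
          _ ≤ 2 ^ i * 2 ^ j * 2 ^ g := Nat.le_mul_of_pos_right _ (hpos g)
      have r3 : g < Nat.log 2 (4 * Y) + 1 := by
        apply key
        exact le_trans (Nat.le_mul_of_pos_left _ (Nat.mul_pos (hpos i) (hpos j))) hup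
      refine ⟨⟨(i, j, g), (p, m)⟩, ?_, ?_, rfl⟩
      · rw [mem_sigma, mem_product, mem_Ico]
        refine ⟨?_, hpSI, j1, ?_⟩
        · unfold IY Ix
          rw [mem_filter, mem_filter, mem_product, mem_product, mem_range, mem_range, mem_range]
          refine ⟨⟨⟨r1, r2, r3⟩, ⟨p, hpSI⟩, j1.trans hm2, hYe, hup⟩, ?_⟩
          simp only
          omega
        · rw [mul_comm]
          exact j2
      · unfold upF
        simp only
        rw [if_pos ⟨g1, g2⟩]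
        exact hF
    · intro x _ hF
      exact (hne x hF).2.2
  rw [up_unfold, hsum, Finset.sum_product]
  congr 1
  simp only
  have h1 : ∀ p ∈ PP w w', ∑ m ∈ Icc 1 (w' ^ (k - 2)), 1 / (p : ℝ) * (aS k w w' m / m) =
      1 / (p : ℝ) * (esy (k - 2) w w' / ((k : ℝ) - 1)) := by
    intro p _
    rw [← mul_sum, esy_sum hk le_rfl]
  rw [sum_congr rfl h1, ← Finset.sum_mul]
  unfold sgK sg1
  ring

theorem platG (K c1 : ℕ) : ∃ x0 : ℝ, ∀ Y : ℕ, x0 ≤ Y → ∀ w w' : ℕ, Rg2 (4 * Y) w w' (c1 + 1) (1000 * K) → ∀ k : ℕ,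
    2 ≤ k → k ≤ K → ∀ n : ℕ, Y < n → n ≤ 3 * Y → rk Y k w w' n = sgK k w w' / Real.log (32 * Y : ℕ) :=
  platK2 K (c1 + 1)

end Pool.Agent.Lib.VKT
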