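import Pool.Agent.Lib.VK.UDef
import Pool.Agent.Lib.G5.Q2

/-!
# VK / UEsy (phase 2): sums over the middle variable, size of `sgK`

PROOF. `esy_sum`: the `m ≥ 1` with `aS k w w' m ≠ 0` are in bijection with the sets of `k-2` primes of `PP w w'` (`m ↦ m.primeFactors`, inverse
`s ↦ ∏ p ∈ s, p`; `Nat.prod_primeFactors_of_squarefree`, `Nat.primeFactors_prod`), `aS = 1/(k-1)` there, and `m ≤ w'^(k-2)`. `sgK_le`: `sg1 ≤
∑_{1 ≤ n ≤ w'} 1/n ≤ 1 + log w'`, `esy j ≤ sg1^j` (`Finset.prod_pow_le`-like: expand `(∑ 1/p)^j`, or Mathlib `Finset.sum_powersetCard_prod_le`; or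
induction with `G5.q2a`: `(j+1) esy (j+1) ≤ sg1 esy j`), so `0 ≤ sgK ≤ (1 + log w')^(k-1) ≤ log Y` since `w' ≤ (log 4Y)^d`, for large `Y`.
-/

set_option autoImplicit false

open Finset Filter

namespace Pool.Agent.Lib.VKT

open Pool.Agent.Lib.G5 (bS PP aS sg1 esy SI Ix bB sgK EE Rg)

private theorem uesy_mem {w w' p : ℕ} (h : p ∈ PP w w') : w < p ∧ p ≤ w' ∧ p.Prime := by
  unfold PP at h
  rw [mem_filter, mem_Ioc] at h
  exact ⟨h.1.1, h.1.2, h.2⟩

theorem esy_sum {k w w' N : ℕ} (hk : 2 ≤ k) (hN : w' ^ (k - 2) ≤ N) :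
    ∑ m ∈ Icc 1 N, aS k w w' m / m = esy (k - 2) w w' / ((k : ℝ) - 1) := by
  classical
  have h1 : ∑ m ∈ Icc 1 N, aS k w w' m / m =
      ∑ m ∈ (Icc 1 N).filter (fun m => Squarefree m ∧ m.primeFactors.card = k - 2 ∧ m.primeFactors ⊆ PP w w'),
        1 / ((k : ℝ) - 1) / m := by
    rw [sum_filter]
    refine sum_congr rfl fun m _ => ?_
    unfold aS
    by_cases h : Squarefree m ∧ m.primeFactors.card = k - 2 ∧ m.primeFactors ⊆ PP w w'
    · rw [if_pos h, if_pos h]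
    · rw [if_neg h, if_neg h, zero_div]
  rw [h1]
  unfold esy
  rw [sum_div]
  refine sum_bij' (fun m _ => m.primeFactors) (fun s _ => ∏ p ∈ s, p) ?_ ?_ ?_ ?_ ?_
  · intro m hm
    rw [mem_filter] at hm
    rw [mem_powersetCard]
    exact ⟨hm.2.2.2, hm.2.2.1⟩
  · intro s hs
    rw [mem_powersetCard] at hs
    have hp : ∀ p ∈ s, p.Prime := fun p hp => (uesy_mem (hs.1 hp)).2.2
    have hpf : (∏ p ∈ s, p).primeFactors = s := Nat.primeFactors_prod hp
    rw [mem_filter, mem_Icc, hpf]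
    refine ⟨⟨?_, ?_⟩, ?_, hs.2, hs.1⟩
    · exact Nat.one_le_iff_ne_zero.2 (prod_ne_zero_iff.2 fun p h => (hp p h).ne_zero)
    · calc ∏ p ∈ s, p ≤ ∏ _p ∈ s, w' := prod_le_prod' fun p h => (uesy_mem (hs.1 h)).2.1
        _ = w' ^ (k - 2) := by rw [prod_const, hs.2]
        _ ≤ N := hN
    · have := Finset.squarefree_prod_of_pairwise_isCoprime (s := s) (f := fun p : ℕ => p) ?_ ?_
      · exact this
      · intro a ha b hb hab
        exact Nat.coprime_iff_isRelPrime.1 ((Nat.coprime_primes (hp a ha) (hp b hb)).2 hab)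
      · intro p h
        exact (hp p h).prime.squarefree
  · intro m hm
    rw [mem_filter] at hm
    exact Nat.prod_primeFactors_of_squarefree hm.2.1
  · intro s hs
    rw [mem_powersetCard] at hs
    exact Nat.primeFactors_prod fun p hp => (uesy_mem (hs.1 hp)).2.2
  · intro m hm
    rw [mem_filter] at hm
    have h2 : (m : ℝ) = ∏ p ∈ m.primeFactors, (p : ℝ) := by
      have h3 := congrArg (fun x : ℕ => (x : ℝ)) (Nat.prod_primeFactors_of_squarefree hm.2.1)
      simp only [Nat.cast_prod] at h3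
      exact h3.symm
    simp only [one_div, prod_inv_distrib]
    rw [← h2]
    ring

private theorem sg1_nonneg (w w' : ℕ) : 0 ≤ sg1 w w' := sum_nonneg fun p _ => by positivity

private theorem esy_nonneg (j w w' : ℕ) : 0 ≤ esy j w w' :=
  sum_nonneg fun s _ => prod_nonneg fun p _ => by positivity

private theorem sg1_le (w w' : ℕ) : sg1 w w' ≤ 1 + Real.log w' := by
  have h1 : sg1 w w' ≤ ∑ n ∈ Icc 1 w', ((n : ℝ))⁻¹ := by
    unfold sg1
    simp only [one_div]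
    refine sum_le_sum_of_subset_of_nonneg ?_ fun _ _ _ => by positivity
    intro p hp
    have := uesy_mem hp
    rw [mem_Icc]
    exact ⟨this.2.2.one_le, this.2.1⟩
  have h2 := harmonic_le_one_add_log w'
  rw [harmonic_eq_sum_Icc] at h2
  push_cast at h2
  exact h1.trans h2

private theorem esy_le_pow {w w' : ℕ} (hw : 1 ≤ w) (j : ℕ) : esy j w w' ≤ sg1 w w' ^ j := by
  induction j with
  | zero => simp [esy]
  | succ j ih =>
    have h := (G5.q2a j w w' hw).1
    have h0 := esy_nonneg (j + 1) w w'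
    have h3 : esy (j + 1) w w' ≤ (j + 1) * esy (j + 1) w w' := by
      have : (0 : ℝ) ≤ j := Nat.cast_nonneg j
      nlinarith
    calc esy (j + 1) w w' ≤ sg1 w w' * esy j w w' := by linarith
      _ ≤ sg1 w w' * sg1 w w' ^ j := mul_le_mul_of_nonneg_left ih (sg1_nonneg w w')
      _ = sg1 w w' ^ (j + 1) := by ring

private theorem uesy_big (K d : ℕ) : ∃ x1 : ℝ, 4 ≤ x1 ∧ ∀ x : ℝ, x1 ≤ x → (1 + d * Real.log x) ^ K ≤ x / 2 := by
  have h1 := Real.isLittleO_pow_log_id_atTop (n := K)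
  have hc : (0 : ℝ) < 1 / (2 * ((d : ℝ) + 1) ^ K) := by positivity
  have h2 := h1.def hc
  obtain ⟨x1, hx1⟩ := Filter.eventually_atTop.1 h2
  refine ⟨max 4 x1, le_max_left _ _, fun x hx => ?_⟩
  have hx4 : (4 : ℝ) ≤ x := (le_max_left _ _).trans hx
  have h3 := hx1 x ((le_max_right _ _).trans hx)
  have hl : 1 ≤ Real.log x := by
    rw [Real.le_log_iff_exp_le (by linarith)]
    exact (Real.exp_one_lt_d9.le.trans (by norm_num)).trans hx4
  rw [Real.norm_of_nonneg (by positivity), id, Real.norm_of_nonneg (by linarith)] at h3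
  have hd : (0 : ℝ) ≤ d := Nat.cast_nonneg d
  calc (1 + d * Real.log x) ^ K ≤ (((d : ℝ) + 1) * Real.log x) ^ K := by
        refine pow_le_pow_left₀ (by positivity) ?_ K
        nlinarith
    _ = ((d : ℝ) + 1) ^ K * Real.log x ^ K := mul_pow _ _ _
    _ ≤ ((d : ℝ) + 1) ^ K * (1 / (2 * ((d : ℝ) + 1) ^ K) * x) := mul_le_mul_of_nonneg_left h3 (by positivity)
    _ = x / 2 := by
        field_simp

theorem sgK_le (K d c1 : ℕ) : ∃ x0 : ℝ, ∀ Y : ℕ, x0 ≤ Y → ∀ w w' : ℕ, Rg (4 * Y) w w' c1 d → ∀ k : ℕ, 2 ≤ k → k ≤ K →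
    0 ≤ sgK k w w' ∧ sgK k w w' ≤ Real.log Y := by
  obtain ⟨x1, hx14, hx1⟩ := uesy_big K d
  refine ⟨Real.exp x1, fun Y hY w w' hR k hk hkK => ?_⟩
  have hYpos : (0 : ℝ) < Y := (Real.exp_pos _).trans_le hY
  have hlY : x1 ≤ Real.log Y := (Real.le_log_iff_exp_le hYpos).2 hY
  have h4Y : ((4 * Y : ℕ) : ℝ) = 4 * (Y : ℝ) := by push_cast; ring
  have hl4 : Real.log ((4 * Y : ℕ) : ℝ) = Real.log 4 + Real.log Y := by
    rw [h4Y, Real.log_mul (by norm_num) hYpos.ne']
  have hlog4 : Real.log 4 ≤ 4 := (Real.log_le_sub_one_of_pos (by norm_num)).trans (by norm_num)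
  have hlog40 : 0 ≤ Real.log 4 := Real.log_nonneg (by norm_num)
  set L : ℝ := Real.log ((4 * Y : ℕ) : ℝ) with hL
  have hLx : x1 ≤ L := by rw [hl4]; linarith
  have hL2 : L / 2 ≤ Real.log Y := by rw [hl4]; linarith
  have hL4 : 4 ≤ L := hx14.trans hLx
  have hw : 1 ≤ w := by
    have h1 : (1 : ℝ) ≤ L ^ (c1 + 1) := one_le_pow₀ (by linarith)
    have h2 := h1.trans hR.h1
    exact_mod_cast h2
  have hw' : (1 : ℝ) ≤ w' := by exact_mod_cast hw.trans hR.h2
  have hlw : Real.log w' ≤ d * Real.log L := by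
    calc Real.log w' ≤ Real.log (L ^ d) := Real.log_le_log (by linarith) hR.h3
      _ = d * Real.log L := Real.log_pow _ _
  have hlw0 : 0 ≤ Real.log w' := Real.log_nonneg hw'
  have hs := sg1_le w w'
  have hs0 := sg1_nonneg w w'
  have he := esy_le_pow (w' := w') hw (k - 2)
  have he0 := esy_nonneg (k - 2) w w'
  have hk1 : (1 : ℝ) ≤ (k : ℝ) - 1 := by
    have : (2 : ℝ) ≤ k := by exact_mod_cast hk
    linarith
  unfold sgK
  refine ⟨div_nonneg (mul_nonneg hs0 he0) (by linarith), ?_⟩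
  calc sg1 w w' * esy (k - 2) w w' / ((k : ℝ) - 1) ≤ sg1 w w' * esy (k - 2) w w' :=
        div_le_self (mul_nonneg hs0 he0) hk1
    _ ≤ sg1 w w' * sg1 w w' ^ (k - 2) := mul_le_mul_of_nonneg_left he hs0
    _ = sg1 w w' ^ (k - 1) := by
        rw [← pow_succ']
        congr 1
        omega
    _ ≤ (1 + d * Real.log L) ^ (k - 1) := pow_le_pow_left₀ hs0 (by linarith) _
    _ ≤ (1 + d * Real.log L) ^ K := pow_le_pow_right₀ (by linarith) (by omega)
    _ ≤ L / 2 := hx1 L hLx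
    _ ≤ Real.log Y := hL2

end Pool.Agent.Lib.VKT
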