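import Pool.Agent.Lib.VK.WDef
import Pool.Agent.Lib.VK.UEsy
import Pool.Agent.Lib.Sieve.Mertens

/-!
# VK / WEsy (phase 2, general): size of `sgK` for `w'` up to a power of `Y`

PROOF. `Sieve.Mertens.mertens_product_upper`: `∏_{p ≤ z} (1-1/p)⁻¹ ≤ C log z`, so `sg1 ≤ ∑_{p ≤ w'} 1/p ≤ ∑ -log(1-1/p) ≤ log (C log w')`,
`w' ≤ w'^M ≤ 4Y`. `esy j ≤ sg1^j` (private lemma `esy_le_pow` of UEsy), so `0 ≤ sgK ≤ (1 + |log (C log 4Y)|)^K ≤ log Y` for large `Y`.
-/

set_option autoImplicit false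

open Finset Filter

namespace Pool.Agent.Lib.VKT

open Pool.Agent.Lib.G5 (bS PP aS sg1 esy SI Ix bB sgK EE Rg2)

private theorem wesy_mem {w w' p : ℕ} (h : p ∈ PP w w') : w < p ∧ p ≤ w' ∧ p.Prime := by
  unfold PP at h
  rw [mem_filter, mem_Ioc] at h
  exact ⟨h.1.1, h.1.2, h.2⟩

private theorem wesy_sg1_nonneg (w w' : ℕ) : 0 ≤ sg1 w w' := sum_nonneg fun p _ => by positivity

private theorem wesy_nonneg (j w w' : ℕ) : 0 ≤ esy j w w' :=
  sum_nonneg fun s _ => prod_nonneg fun p _ => by positivity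

private theorem wesy_le_pow {w w' : ℕ} (hw : 1 ≤ w) (j : ℕ) : esy j w w' ≤ sg1 w w' ^ j := by
  induction j with
  | zero => simp [esy]
  | succ j ih =>
    have h := (G5.q2a j w w' hw).1
    have h0 := wesy_nonneg (j + 1) w w'
    have h3 : esy (j + 1) w w' ≤ (j + 1) * esy (j + 1) w w' := by
      have : (0 : ℝ) ≤ j := Nat.cast_nonneg j
      nlinarith
    calc esy (j + 1) w w' ≤ sg1 w w' * esy j w w' := by linarith
      _ ≤ sg1 w w' * sg1 w w' ^ j := mul_le_mul_of_nonneg_left ih (wesy_sg1_nonneg w w')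
      _ = sg1 w w' ^ (j + 1) := by ring

private theorem wesy_sg1_le {C : ℝ} (hC : ∀ z : ℕ, 2 ≤ z →
    ∏ p ∈ (Finset.Icc 1 z).filter Nat.Prime, (1 - (1 : ℝ) / p)⁻¹ ≤ C * Real.log z)
    (w w' : ℕ) (hw' : 2 ≤ w') : sg1 w w' ≤ Real.log (C * Real.log w') := by
  have hfac : ∀ p : ℕ, p.Prime → (0 : ℝ) < 1 - 1 / (p : ℝ) := by
    intro p hp
    have h2 : (2 : ℝ) ≤ p := by exact_mod_cast hp.two_le
    have h1 : 1 / (p : ℝ) ≤ 1 / 2 := one_div_le_one_div_of_le (by norm_num) h2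
    linarith
  have h1 : sg1 w w' ≤ ∑ p ∈ (Finset.Icc 1 w').filter Nat.Prime, (1 : ℝ) / p := by
    unfold sg1
    refine sum_le_sum_of_subset_of_nonneg ?_ fun _ _ _ => by positivity
    intro p hp
    have := wesy_mem hp
    rw [mem_filter, mem_Icc]
    exact ⟨⟨this.2.2.one_le, this.2.1⟩, this.2.2⟩
  have h2 : ∑ p ∈ (Finset.Icc 1 w').filter Nat.Prime, (1 : ℝ) / p ≤
      ∑ p ∈ (Finset.Icc 1 w').filter Nat.Prime, Real.log (1 - (1 : ℝ) / p)⁻¹ := by
    refine sum_le_sum fun p hp => ?_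
    have hp' := (mem_filter.mp hp).2
    have h3 := Real.log_le_sub_one_of_pos (hfac p hp')
    rw [Real.log_inv]
    linarith
  have h3 : ∑ p ∈ (Finset.Icc 1 w').filter Nat.Prime, Real.log (1 - (1 : ℝ) / p)⁻¹ =
      Real.log (∏ p ∈ (Finset.Icc 1 w').filter Nat.Prime, (1 - (1 : ℝ) / p)⁻¹) := by
    rw [Real.log_prod]
    intro p hp
    exact (inv_pos.mpr (hfac p (mem_filter.mp hp).2)).ne'
  have h4 : (0 : ℝ) < ∏ p ∈ (Finset.Icc 1 w').filter Nat.Prime, (1 - (1 : ℝ) / p)⁻¹ :=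
    prod_pos fun p hp => inv_pos.mpr (hfac p (mem_filter.mp hp).2)
  calc sg1 w w' ≤ Real.log (∏ p ∈ (Finset.Icc 1 w').filter Nat.Prime, (1 - (1 : ℝ) / p)⁻¹) := by
        rw [← h3]; exact h1.trans h2
    _ ≤ Real.log (C * Real.log w') := Real.log_le_log h4 (hC w' hw')

private theorem wesy_big (K d : ℕ) : ∃ x1 : ℝ, 4 ≤ x1 ∧ ∀ x : ℝ, x1 ≤ x → (1 + d * Real.log x) ^ K ≤ x / 2 := by
  have h1 := Real.isLittleO_pow_log_id_atTop (n := K)
  have hc : (0 : ℝ) < 1 / (2 * ((d : ℝ) + 1) ^ K) := by positivity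
  have h2 := h1.def hc
  obtain ⟨x1, hx1⟩ := Filter.eventually_atTop.1 h2
  refine ⟨max 4 x1, le_max_left _ _, fun x hx => ?_⟩
  have hx4 : (4 : ℝ) ≤ x := (le_max_left _ _).trans hx
  have h3 := hx1 x ((le_max_right _ _).trans hx)
  have hl : 1 ≤ Real.log x := by
    rw [Real.le_log_iff_exp_le (by linarith)]
    exact (Real.exp_one_lt_d9.le.trans (by norm_num)).trans hx4
  rw [Real.norm_of_nonneg (by positivity), id, Real.norm_of_nonneg (by linarith)] at h3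
  have hd : (0 : ℝ) ≤ d := Nat.cast_nonneg d
  calc (1 + d * Real.log x) ^ K ≤ (((d : ℝ) + 1) * Real.log x) ^ K := by
        refine pow_le_pow_left₀ (by positivity) ?_ K
        nlinarith
    _ = ((d : ℝ) + 1) ^ K * Real.log x ^ K := mul_pow _ _ _
    _ ≤ ((d : ℝ) + 1) ^ K * (1 / (2 * ((d : ℝ) + 1) ^ K) * x) := mul_le_mul_of_nonneg_left h3 (by positivity)
    _ = x / 2 := by
        field_simp

theorem sgK2_le (K c1 : ℕ) : ∃ x0 : ℝ, ∀ Y : ℕ, x0 ≤ Y → ∀ w w' M : ℕ, 1 ≤ M → Rg2 (4 * Y) w w' c1 M → ∀ k : ℕ, 2 ≤ k → k ≤ K →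
    0 ≤ sgK k w w' ∧ sgK k w w' ≤ Real.log Y := by
  obtain ⟨C, hC0, hC⟩ := Pool.Agent.Lib.Sieve.mertens_product_upper
  obtain ⟨d, hd⟩ : ∃ d : ℕ, |Real.log C| + 1 ≤ d := exists_nat_ge _
  obtain ⟨x1, hx14, hx1⟩ := wesy_big K d
  refine ⟨Real.exp x1, fun Y hY w w' M hM hR k hk hkK => ?_⟩
  have hYpos : (0 : ℝ) < Y := (Real.exp_pos _).trans_le hY
  have hlY : x1 ≤ Real.log Y := (Real.le_log_iff_exp_le hYpos).2 hY
  have h4Y : ((4 * Y : ℕ) : ℝ) = 4 * (Y : ℝ) := by push_cast; ring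
  have hl4 : Real.log ((4 * Y : ℕ) : ℝ) = Real.log 4 + Real.log Y := by
    rw [h4Y, Real.log_mul (by norm_num) hYpos.ne']
  have hlog4 : Real.log 4 ≤ 4 := (Real.log_le_sub_one_of_pos (by norm_num)).trans (by norm_num)
  have hlog40 : 0 ≤ Real.log 4 := Real.log_nonneg (by norm_num)
  set L : ℝ := Real.log ((4 * Y : ℕ) : ℝ) with hL
  have hLx : x1 ≤ L := by rw [hl4]; linarith
  have hL2 : L / 2 ≤ Real.log Y := by rw [hl4]; linarith
  have hL4 : 4 ≤ L := hx14.trans hLx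
  have hw2 : 2 ≤ w := by
    have h1 : (2 : ℝ) ≤ L ^ (c1 + 1) := by
      calc (2 : ℝ) ≤ L := by linarith
        _ = L ^ 1 := (pow_one _).symm
        _ ≤ L ^ (c1 + 1) := pow_le_pow_right₀ (by linarith) (by omega)
    have h2 := h1.trans hR.h1
    exact_mod_cast h2
  have hw'2 : 2 ≤ w' := hw2.trans hR.h2
  have hw' : (2 : ℝ) ≤ w' := by exact_mod_cast hw'2
  have hw'4 : w' ≤ 4 * Y := by
    refine le_trans ?_ hR.h3
    exact Nat.le_self_pow (by omega) w'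
  have hlw : Real.log w' ≤ L := by
    rw [hL]
    exact Real.log_le_log (by linarith) (by exact_mod_cast hw'4)
  have hlw0 : 0 < Real.log w' := Real.log_pos (by linarith)
  have hlL : 1 ≤ Real.log L := by
    rw [Real.le_log_iff_exp_le (by linarith)]
    exact (Real.exp_one_lt_d9.le.trans (by norm_num)).trans hL4
  have hs : sg1 w w' ≤ 1 + d * Real.log L := by
    have h1 := wesy_sg1_le hC w w' hw'2
    have h2 : Real.log (C * Real.log w') ≤ Real.log (C * L) :=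
      Real.log_le_log (mul_pos hC0 hlw0) (mul_le_mul_of_nonneg_left hlw hC0.le)
    have h2' : Real.log (C * L) = Real.log C + Real.log L :=
      Real.log_mul hC0.ne' (by linarith)
    have h3 := le_abs_self (Real.log C)
    have h4 : (|Real.log C| + 1) * Real.log L ≤ d * Real.log L :=
      mul_le_mul_of_nonneg_right hd (by linarith)
    have h5 : |Real.log C| ≤ |Real.log C| * Real.log L :=
      le_mul_of_one_le_right (abs_nonneg _) hlL
    linarith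
  have hs0 := wesy_sg1_nonneg w w'
  have he := wesy_le_pow (w' := w') (by omega : 1 ≤ w) (k - 2)
  have he0 := wesy_nonneg (k - 2) w w'
  have hk1 : (1 : ℝ) ≤ (k : ℝ) - 1 := by
    have : (2 : ℝ) ≤ k := by exact_mod_cast hk
    linarith
  have hdl : 0 ≤ (d : ℝ) * Real.log L := mul_nonneg (Nat.cast_nonneg _) (by linarith)
  unfold sgK
  refine ⟨div_nonneg (mul_nonneg hs0 he0) (by linarith), ?_⟩
  calc sg1 w w' * esy (k - 2) w w' / ((k : ℝ) - 1) ≤ sg1 w w' * esy (k - 2) w w' :=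
        div_le_self (mul_nonneg hs0 he0) hk1
    _ ≤ sg1 w w' * sg1 w w' ^ (k - 2) := mul_le_mul_of_nonneg_left he hs0
    _ = sg1 w w' ^ (k - 1) := by
        rw [← pow_succ']
        congr 1
        omega
    _ ≤ (1 + d * Real.log L) ^ (k - 1) := pow_le_pow_left₀ hs0 hs _
    _ ≤ (1 + d * Real.log L) ^ K := pow_le_pow_right₀ (by linarith) (by omega)
    _ ≤ L / 2 := hx1 L hLx
    _ ≤ Real.log Y := hL2

end Pool.Agent.Lib.VKT
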