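import Pool.Agent.Lib.VK.UDef
import Pool.Agent.Lib.G5.GDefs

/-!
# VK, part P6x (the full count of the members with exactly `κ_i` prime factors): definitions

`K = ∑ (κ_i - 1)`; `nu`, `part`, `HL`, `box` are in TDef, `EE` in G5.QIx, `cntK`, `dens` in UDef.
-/

set_option autoImplicit false

open Finset Filter

namespace Pool.Agent.Lib.VKT

/-- the part of `n` made of its primes `≤ w` -/
def smo (w n : ℕ) : ℕ := (n.primeFactorsList.filter fun p => p ≤ w).prod

/-- the sum of `1/p` over the primes `p ≤ w` -/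
noncomputable def rcp (w : ℕ) : ℝ := ∑ p ∈ (Icc 1 w).filter Nat.Prime, (1 : ℝ) / p

open Classical in
/-- the number of the primes `n` in `(Y, 2Y]` such that every `n + h_i` has exactly `κ_i` prime factors, counted with multiplicity -/
noncomputable def cntO {m : ℕ} (Y : ℕ) (κ h : Fin m → ℕ) : ℕ :=
  ((Ioc Y (2 * Y)).filter fun n => n.Prime ∧ ∀ i, (n + h i).primeFactorsList.length = κ i).card

/-- products of at most `K` primes `≤ w'` which have at most `K - 1` prime factors or a prime factor `≤ w` or a square factor -/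
noncomputable def DS (K w w' : ℕ) : Finset ℕ :=
  (Icc 1 (w' ^ K)).filter fun d => (∀ p ∈ d.primeFactors, p ≤ w') ∧ d.primeFactorsList.length ≤ K ∧
    (d.primeFactorsList.length + 1 ≤ K ∨ (∃ p ∈ d.primeFactors, p ≤ w) ∨ ¬ Squarefree d)

/-- the vectors of the parts at the primes `≤ w'` of the exceptional `n` -/
noncomputable def GG {m : ℕ} (w w' : ℕ) (κ : Fin m → ℕ) : Finset (Fin m → ℕ) :=
  (Fintype.piFinset fun i => Icc 1 (w' ^ κ i)).filter fun g =>
    (∀ i, (g i).primeFactorsList.length + 1 ≤ κ i ∧ ∀ p ∈ (g i).primeFactors, p ≤ w') ∧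
      ∃ i, (g i).primeFactorsList.length + 2 ≤ κ i ∨ (∃ p ∈ (g i).primeFactors, p ≤ w) ∨ ¬ Squarefree (g i)

end Pool.Agent.Lib.VKT
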