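import Pool.Agent.Lib.VK.XDef

/-!
# VK / XSp (P6x, 120 lines): the part of `n` at the primes `≤ w'`

PROOF. `n.primeFactorsList` is the multiset of the prime factors, its product is `n` (`Nat.prod_primeFactorsList`). Let `L` be the list of the prime
factors `≤ w`, `L'` the list of the others. `smo w n = L.prod`, `n = L.prod * L'.prod` (`List.prod` of a filter and of its complement: e.g. through
`Multiset.filter_add_not` and `Multiset.prod_add`, or by induction), and `(smo w n).primeFactorsList` is a permutation of `L` (`Nat.primeFactorsList_unique`).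
`smo_spec`: immediate. `smo_exc`: if all prime factors of `n` are `≤ w'` then `n ≤ w'^k` (k factors, `List.prod_le_pow_card`), excluded; so `L'` is not empty and
`length L + 1 ≤ k`; `smo ≤ w'^(length L) ≤ w'^k` as `1 ≤ w'`. Third claim, contrapositive: if `length L = k - 1`, all primes of `L` are `> w` and `L.prod` is squarefree then
`L'` has one element `r > w' ≥ w`, prime, so `n = smo * r` is squarefree (`r` does not divide `smo`: its primes are `≤ w'`), has exactly `k` prime factors, all `> w`, and only `r` is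
`> w'`: `EE k w w' n`. `EE_len`: for squarefree `n` the list `primeFactorsList` has no duplicates, so its length is `n.primeFactors.card`
(`Nat.primeFactors = toFinset`, `List.toFinset_card_of_nodup`, `Nat.squarefree_iff_nodup_primeFactorsList`).
-/

set_option autoImplicit false

open Finset Filter

namespace Pool.Agent.Lib.VKT

open Pool.Agent.Lib.G5 (EE)

/-- a list is split by a condition -/
private theorem xsp_split (l : List ℕ) (w : ℕ) :
    (l.filter fun p => p ≤ w).prod * (l.filter fun p => !decide (p ≤ w)).prod = l.prod := by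
  induction l with
  | nil => simp
  | cons a l ih =>
    by_cases h : a ≤ w
    · rw [List.filter_cons_of_pos (by simpa using h), List.filter_cons_of_neg (by simpa using h),
        List.prod_cons, List.prod_cons, ← ih, mul_assoc]
    · rw [List.filter_cons_of_neg (by simpa using h), List.filter_cons_of_pos (by simpa using h),
        List.prod_cons, List.prod_cons, ← ih]
      ring

private theorem xsp_perm (w n : ℕ) :
    (n.primeFactorsList.filter fun p => p ≤ w).Perm (smo w n).primeFactorsList :=
  Nat.primeFactorsList_unique rfl fun p hp =>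
    Nat.prime_of_mem_primeFactorsList (List.mem_filter.1 hp).1

private theorem xsp_pos (w n : ℕ) : 1 ≤ smo w n := by
  refine Nat.one_le_iff_ne_zero.2 fun h => ?_
  have := List.prod_eq_zero_iff.1 h
  exact Nat.not_prime_zero (Nat.prime_of_mem_primeFactorsList (List.mem_filter.1 this).1)

private theorem xsp_mem {w n p : ℕ} : p ∈ (smo w n).primeFactors ↔
    p ∈ n.primeFactorsList ∧ p ≤ w := by
  rw [Nat.primeFactors, List.mem_toFinset, ← (xsp_perm w n).mem_iff, List.mem_filter]
  simp

private theorem xsp_mul {w n : ℕ} (hn : n ≠ 0) :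
    smo w n * (n.primeFactorsList.filter fun p => !decide (p ≤ w)).prod = n := by
  unfold smo
  rw [xsp_split, Nat.prod_primeFactorsList hn]

theorem smo_spec (w n : ℕ) (hn : 1 ≤ n) : smo w n ∣ n ∧ 1 ≤ smo w n ∧ (∀ p ∈ (smo w n).primeFactors, p ≤ w) ∧
    ∀ p : ℕ, p.Prime → p ≤ w → p ∣ n → p ∣ smo w n := by
  have hn0 : n ≠ 0 := by omega
  refine ⟨⟨_, (xsp_mul hn0).symm⟩, xsp_pos w n, fun p hp => (xsp_mem.1 hp).2, ?_⟩
  intro p hp hpw hpn
  have h : p ∈ (smo w n).primeFactors :=
    xsp_mem.2 ⟨(Nat.mem_primeFactorsList hn0).2 ⟨hp, hpn⟩, hpw⟩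
  exact Nat.dvd_of_mem_primeFactors h

/-- the length of the list of prime factors of a squarefree number -/
theorem xsp_card {n : ℕ} (h : Squarefree n) : n.primeFactors.card = n.primeFactorsList.length := by
  have hn : n ≠ 0 := h.ne_zero
  exact List.toFinset_card_of_nodup ((Nat.squarefree_iff_nodup_primeFactorsList hn).1 h)

/-- the general form, with three levels -/
theorem xsp_gen {k w w' z n : ℕ} (hz1 : 1 ≤ z) (hw : w ≤ w') (hz : w' ≤ z) (hn : z ^ k < n)
    (hl : n.primeFactorsList.length = k) :
    (smo z n).primeFactorsList.length + 1 ≤ k ∧ smo z n ≤ z ^ k ∧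
      (¬ EE k w w' n → (smo z n).primeFactorsList.length + 2 ≤ k ∨ (∃ p ∈ (smo z n).primeFactors, p ≤ w ∨ w' < p) ∨
        ¬ Squarefree (smo z n)) := by
  have hn0 : n ≠ 0 := by omega
  have hlen := List.length_eq_length_filter_add (l := n.primeFactorsList) (fun p => decide (p ≤ z))
  have hmul := xsp_mul (w := z) hn0
  have hsl : (smo z n).primeFactorsList.length
      = (n.primeFactorsList.filter fun p => p ≤ z).length := (xsp_perm z n).length_eq.symm
  have hle : smo z n ≤ z ^ (n.primeFactorsList.filter fun p => p ≤ z).length :=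
    List.prod_le_pow_card _ _ fun p hp => by simpa using (List.mem_filter.1 hp).2
  have hlk : (n.primeFactorsList.filter fun p => p ≤ z).length ≤ k := by omega
  have hsk : smo z n ≤ z ^ k := hle.trans (Nat.pow_le_pow_right hz1 hlk)
  set L' := n.primeFactorsList.filter fun p => !decide (p ≤ z) with hL'
  have hne : L' ≠ [] := by
    intro h
    rw [h, List.prod_nil, mul_one] at hmul
    omega
  have hpos : 1 ≤ L'.length := List.length_pos_iff.2 hne
  refine ⟨by omega, hsk, fun hE => ?_⟩
  by_contra hcon
  push Not at hcon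
  obtain ⟨h1, h2, h3⟩ := hcon
  have hone : L'.length = 1 := by omega
  obtain ⟨r, hr⟩ := List.length_eq_one_iff.1 hone
  rw [hr, List.prod_singleton] at hmul
  have hrm : r ∈ L' := by rw [hr]; exact List.mem_singleton.2 rfl
  have hrp : r.Prime := Nat.prime_of_mem_primeFactorsList (List.mem_filter.1 hrm).1
  have hrz : z < r := by
    have := (List.mem_filter.1 hrm).2
    simpa using this
  have hrs : ¬ r ∣ smo z n := by
    intro h
    have := (xsp_mem.1 (Nat.mem_primeFactors.2 ⟨hrp, h, (Nat.one_le_iff_ne_zero.1 (xsp_pos z n))⟩)).2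
    omega
  have hcop : Nat.Coprime (smo z n) r := ((Nat.Prime.coprime_iff_not_dvd hrp).2 hrs).symm
  have hsq : Squarefree n := by
    rw [← hmul]
    exact (Nat.squarefree_mul hcop).2 ⟨h3, hrp.prime.squarefree⟩
  have hmem : ∀ q : ℕ, q ∈ n.primeFactors → q ∈ (smo z n).primeFactors ∨ q = r := by
    intro q hq
    have hqp := Nat.prime_of_mem_primeFactors hq
    have hqn := Nat.dvd_of_mem_primeFactors hq
    rw [← hmul] at hqn
    rcases (Nat.Prime.dvd_mul hqp).1 hqn with h | h
    · exact Or.inl (Nat.mem_primeFactors.2 ⟨hqp, h, Nat.one_le_iff_ne_zero.1 (xsp_pos z n)⟩)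
    · exact Or.inr ((Nat.prime_dvd_prime_iff_eq hqp hrp).1 h)
  apply hE
  refine ⟨hsq, ?_, ?_, ?_⟩
  · rw [xsp_card hsq, hl]
  · intro q hq
    rcases hmem q hq with h | h
    · exact (h2 q h).1
    · omega
  · rw [Finset.card_eq_one]
    refine ⟨r, ?_⟩
    ext q
    rw [Finset.mem_filter, Finset.mem_singleton]
    constructor
    · rintro ⟨hq, hqw⟩
      rcases hmem q hq with h | h
      · have := (h2 q h).2
        omega
      · exact h
    · rintro rfl
      refine ⟨Nat.mem_primeFactors.2 ⟨hrp, ?_, hn0⟩, by omega⟩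
      rw [← hmul]
      exact dvd_mul_left _ _

theorem smo_exc {k w w' n : ℕ} (hw1 : 1 ≤ w') (hw : w ≤ w') (hn : w' ^ k < n) (hl : n.primeFactorsList.length = k) :
    (smo w' n).primeFactorsList.length + 1 ≤ k ∧ smo w' n ≤ w' ^ k ∧
      (¬ EE k w w' n → (smo w' n).primeFactorsList.length + 2 ≤ k ∨ (∃ p ∈ (smo w' n).primeFactors, p ≤ w) ∨ ¬ Squarefree (smo w' n)) := by
  obtain ⟨h1, h2, h3⟩ := xsp_gen hw1 hw le_rfl hn hl
  refine ⟨h1, h2, fun hE => ?_⟩
  rcases h3 hE with h | ⟨p, hp, h⟩ | h
  · exact Or.inl h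
  · refine Or.inr (Or.inl ⟨p, hp, ?_⟩)
    have := (xsp_mem.1 hp).2
    omega
  · exact Or.inr (Or.inr h)

theorem EE_len {k w w' n : ℕ} (h : EE k w w' n) : n.primeFactorsList.length = k := by
  rw [← xsp_card h.1]
  exact h.2.1

end Pool.Agent.Lib.VKT
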