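import Pool.Agent.Lib.VK.TMom

/-!
# VK / TMoI (P4): moments of the truncated series over the integers

PROOF. `|ram Q n| ≤ V n := ∑_{q ∈ S} |gq q n|`, `S = (Icc 1 Q).filter Squarefree`. `V^k = ∑_{q ∈ S^k} ∏_i |gq (q_i) n|`
(`Finset.sum_pow'`/`Finset.prod_univ_sum`), and `n ↦ ∏_i |gq (q_i) n|` has the period `ℓ = lcm(q_i) ≤ Q^k ≤ X`, `ℓ ∣ W = primorial Q`.
For a nonnegative function `g` of period `ℓ ≤ X`: `∑_{n ∈ Icc 1 X} g n ≤ (X/ℓ + 1) ∑_{n<ℓ} g n ≤ (2X/ℓ) ∑_{n<ℓ} g n = 2X avg Q g`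
(the average over `range W` is the average over `range ℓ` for `ℓ ∣ W`). Sum over `q`: `∑_n V^k ≤ 2X avg Q (V^k) ≤ 2X avg Q (Uq^k)`
(`ram_abs`), then `mom k`.
-/

set_option autoImplicit false

open Finset

namespace Pool.Agent.Lib.VKT

open Pool.Agent.Lib.SW (gq LQ gq_periodic)

private theorem tmoi_per (g : ℕ → ℝ) (l : ℕ) (hg : ∀ n, g (n + l) = g n) (m : ℕ) :
    ∑ n ∈ range (l * m), g n = m * ∑ n ∈ range l, g n := by
  induction m with
  | zero => simp
  | succ m ih =>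
    have h1 : ∀ m n, g (l * m + n) = g n := by
      intro m n
      induction m with
      | zero => simp
      | succ m ihm =>
        have e : l * (m + 1) + n = (l * m + n) + l := by ring
        rw [e, hg, ihm]
    rw [Nat.mul_succ, Finset.sum_range_add, ih, Finset.sum_congr rfl (fun n _ => h1 m n)]
    push_cast
    ring

private theorem tmoi_avg (g : ℕ → ℝ) (hg0 : ∀ n, 0 ≤ g n) (l X Q : ℕ) (hl : 0 < l) (hlX : l ≤ X)
    (hlW : l ∣ primorial Q) (hg : ∀ n, g (n + l) = g n) :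
    ∑ n ∈ Icc 1 X, g n ≤ 2 * X * avg Q g := by
  obtain ⟨m, hm⟩ := hlW
  have hl0 : (0 : ℝ) < l := by exact_mod_cast hl
  have hW : 0 < primorial Q := primorial_pos Q
  have hm0 : 0 < m := by
    rcases Nat.eq_zero_or_pos m with h | h
    · rw [h, mul_zero] at hm
      omega
    · exact h
  have hm0' : (0 : ℝ) < m := by exact_mod_cast hm0
  have h1 : ∑ n ∈ Icc 1 X, g n ≤ ∑ n ∈ range (l * (X / l + 1)), g n := by
    apply Finset.sum_le_sum_of_subset_of_nonneg
    · intro n hn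
      rw [mem_Icc] at hn
      rw [mem_range]
      have := Nat.lt_mul_div_succ X hl
      omega
    · intro n _ _
      exact hg0 n
  rw [tmoi_per g l hg] at h1
  have h2 : avg Q g = (∑ n ∈ range l, g n) / l := by
    unfold avg
    rw [hm, tmoi_per g l hg]
    push_cast
    field_simp
  have hs0 : 0 ≤ ∑ n ∈ range l, g n := Finset.sum_nonneg fun n _ => hg0 n
  have h3 : ((X / l + 1 : ℕ) : ℝ) ≤ 2 * X / l := by
    rw [le_div_iff₀ hl0]
    have h4 : (X / l + 1) * l ≤ 2 * X := by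
      have := Nat.div_mul_le_self X l
      nlinarith
    exact_mod_cast h4
  rw [h2]
  calc ∑ n ∈ Icc 1 X, g n ≤ ((X / l + 1 : ℕ) : ℝ) * ∑ n ∈ range l, g n := h1
    _ ≤ 2 * X / l * ∑ n ∈ range l, g n := mul_le_mul_of_nonneg_right h3 hs0
    _ = 2 * X * ((∑ n ∈ range l, g n) / l) := by ring

private theorem tmoi_dvd (Q q : ℕ) (hq : q ≤ Q) (hs : Squarefree q) : q ∣ primorial Q := by
  rw [← Nat.prod_primeFactors_of_squarefree hs]
  unfold primorial
  apply Finset.prod_dvd_prod_of_subset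
  intro p hp
  rw [mem_filter, mem_range]
  have h1 := Nat.prime_of_mem_primeFactors hp
  have h2 := Nat.le_of_mem_primeFactors hp
  exact ⟨by omega, h1⟩

theorem momI (k : ℕ) : ∃ (C : ℝ) (D : ℕ), 0 < C ∧ ∀ X Q : ℕ, 2 ≤ Q → Q ^ k ≤ X →
    ∑ n ∈ Icc 1 X, |ram Q n| ^ k ≤ C * (Real.log Q) ^ D * X := by
  classical
  obtain ⟨C, D, hC, hmom⟩ := mom k
  refine ⟨2 * C, D, by positivity, ?_⟩
  intro X Q hQ hX
  set S : Finset ℕ := (Icc 1 Q).filter Squarefree with hS
  have hV : ∀ n : ℕ, (∑ q ∈ S, |gq q n|) ^ k =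
      ∑ f ∈ Fintype.piFinset (fun _ : Fin k => S), ∏ i, |gq (f i) n| := by
    intro n
    have h := Finset.prod_univ_sum (fun _ : Fin k => S) (fun _ q => |gq q n|)
    rw [Finset.prod_const, card_univ, Fintype.card_fin] at h
    exact h
  have hX0 : (0 : ℝ) ≤ X := Nat.cast_nonneg X
  have h1 : ∑ n ∈ Icc 1 X, |ram Q n| ^ k ≤ ∑ n ∈ Icc 1 X, (∑ q ∈ S, |gq q n|) ^ k := by
    refine Finset.sum_le_sum fun n _ => ?_
    refine pow_le_pow_left₀ (abs_nonneg _) ?_ k
    unfold ram LQ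
    exact Finset.abs_sum_le_sum_abs _ _
  have h2 : ∑ n ∈ Icc 1 X, (∑ q ∈ S, |gq q n|) ^ k ≤
      2 * X * avg Q (fun n => (∑ q ∈ S, |gq q n|) ^ k) := by
    have e : avg Q (fun n => (∑ q ∈ S, |gq q n|) ^ k) =
        ∑ f ∈ Fintype.piFinset (fun _ : Fin k => S), avg Q (fun n => ∏ i, |gq (f i) n|) := by
      unfold avg
      rw [Finset.sum_congr rfl (fun n _ => hV n), Finset.sum_comm, Finset.sum_div]
    rw [e, Finset.sum_congr rfl (fun n _ => hV n), Finset.sum_comm, Finset.mul_sum]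
    refine Finset.sum_le_sum fun f hf => ?_
    rw [Fintype.mem_piFinset] at hf
    have hfi : ∀ i, 1 ≤ f i ∧ f i ≤ Q ∧ Squarefree (f i) := by
      intro i
      have := hf i
      rw [hS, mem_filter, mem_Icc] at this
      exact ⟨this.1.1, this.1.2, this.2⟩
    have hlp : (univ : Finset (Fin k)).lcm f ∣ ∏ i, f i :=
      Finset.lcm_dvd fun i _ => Finset.dvd_prod_of_mem f (mem_univ i)
    have hpp : 0 < ∏ i, f i := Finset.prod_pos fun i _ => (hfi i).1
    have hl0 : 0 < (univ : Finset (Fin k)).lcm f := Nat.pos_of_dvd_of_pos hlp hpp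
    have hlX : (univ : Finset (Fin k)).lcm f ≤ X := by
      refine (Nat.le_of_dvd hpp hlp).trans (le_trans ?_ hX)
      calc ∏ i, f i ≤ ∏ _i : Fin k, Q := Finset.prod_le_prod' fun i _ => (hfi i).2.1
        _ = Q ^ k := by rw [Finset.prod_const, card_univ, Fintype.card_fin]
    refine tmoi_avg (fun n => ∏ i, |gq (f i) n|) (fun n => Finset.prod_nonneg fun i _ => abs_nonneg _)
      ((univ : Finset (Fin k)).lcm f) X Q hl0 hlX
      (Finset.lcm_dvd fun i _ => tmoi_dvd Q (f i) (hfi i).2.1 (hfi i).2.2) ?_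
    intro n
    refine Finset.prod_congr rfl fun i _ => ?_
    obtain ⟨m, hm⟩ : f i ∣ (univ : Finset (Fin k)).lcm f := Finset.dvd_lcm (mem_univ i)
    congr 1
    rw [hm]
    push_cast
    exact gq_periodic (f i) n m
  have h3 : avg Q (fun n => (∑ q ∈ S, |gq q n|) ^ k) ≤ avg Q (fun n => Uq Q n ^ k) := by
    unfold avg
    refine div_le_div_of_nonneg_right ?_ (Nat.cast_nonneg _)
    refine Finset.sum_le_sum fun n _ => ?_
    exact pow_le_pow_left₀ (Finset.sum_nonneg fun q _ => abs_nonneg _) (ram_abs Q n) k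
  have h4 := hmom Q hQ
  calc ∑ n ∈ Icc 1 X, |ram Q n| ^ k ≤ 2 * X * avg Q (fun n => (∑ q ∈ S, |gq q n|) ^ k) := h1.trans h2
    _ ≤ 2 * X * (C * (Real.log Q) ^ D) := by
      refine mul_le_mul_of_nonneg_left (h3.trans h4) (by positivity)
    _ = 2 * C * (Real.log Q) ^ D * X := by ring

end Pool.Agent.Lib.VKT
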