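import Pool.Agent.Lib.VK.WVs
import Pool.Agent.Lib.VK.TMoI
import Pool.Agent.Lib.G3.VbA

/-!
# VK / WSp (phase 2, general): from windows of length about `P (log Z)^c6` to ALL longer windows

PROOF. `VV_split`: `H = q h + r`, `r < h`, `q ≤ H/h`. For every `y` the window `(y-H, y]` (truncated subtraction; `f 0 = 0`) is the disjoint union of the windows
`(y-(j+1)h, y-jh]`, `j < q`, and `(y-H, y-qh]` of at most `r` elements, so `‖WW f H α y‖² ≤ 2q ∑_j ‖WW f h α (y-jh)‖² + 2 ‖rest‖²`. Sum over `y < Z+H+1`: for fixed `j`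
`∑_y ‖WW f h α (y-jh)‖² ≤ VV f h α (Z+H+1) = VV f h α (Z+h+1)` (`VV_stable`, VbA; `y ↦ y-jh` is injective where `y ≥ jh`, and `WW f h α 0 = 0`, the window is empty); rest: Cauchy
`≤ h ∑_{n in the window} ‖f n‖²`, each `n` is in at most `h` windows: `≤ h² ∑ ‖f‖²`.
`varG2`: `varG (A+2) c2`, exponent `c6v`; `f = dfS`, supported in `[1, Z]` (`PMR < n ≤ 8PMR ≤ Z` for `bS` and for `rhoS`: `pmR < n ≤ 2pmR`); `|bS| ≤ 1` (hb), `|rhoS| ≤ 2`:
`∑_{p ∈ pr P} 1/p ≤ 1`, `∑_{M ≤ m < 2M} 1/m ≤ 1`, `log 2R ≥ 1/2` (`R ≥ 1` as `Z ≤ 256PMR`, `Z` large); so `∑ ‖f‖² ≤ 2Z + 8 ∑ ram² ≤ l^(D+1) Z` (`momI 2`, `Q = ⌊l^g⌋`,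
`Q² ≤ Z`). `H0 = ⌈P l^c6v⌉`, `h = H'` of varG, `h ≤ 2 H0 ≤ 4 P l^c6v`; `c6 = c6v + A + D + 10`: `H ≥ P l^c6 ≥ h l^(A+D+9)`, so
`VV f H ≤ 2 (H/h)² Z h²/l^(A+2) + 2 h² l^(D+1) Z ≤ Z H²/l^A`.
-/

set_option autoImplicit false

open Finset Filter

namespace Pool.Agent.Lib.VKT

open Pool.Agent.Lib.G3 (VV WW pr lp VV_stable VV_nonneg)
open Pool.Agent.Lib.G5 (bS)

/-- shifted sums -/
private theorem wsp_shift (g : ℕ → ℝ) (g0 : g 0 = 0) (hg : ∀ n, 0 ≤ g n) (N s : ℕ) :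
    ∑ y ∈ range N, g (y - s) ≤ ∑ y ∈ range N, g y := by
  rcases le_total s N with h | h
  · obtain ⟨M, rfl⟩ := Nat.exists_eq_add_of_le h
    rw [sum_range_add]
    have h1 : ∑ y ∈ range s, g (y - s) = 0 := by
      refine sum_eq_zero fun y hy => ?_
      rw [mem_range] at hy
      rw [show y - s = 0 by omega, g0]
    have h2 : ∑ y ∈ range M, g (s + y - s) = ∑ y ∈ range M, g y := by
      refine sum_congr rfl fun y _ => ?_
      rw [show s + y - s = y by omega]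
    rw [h1, h2, zero_add]
    refine sum_le_sum_of_subset_of_nonneg ?_ fun y _ _ => hg y
    intro y hy
    rw [mem_range] at hy ⊢
    omega
  · have h1 : ∑ y ∈ range N, g (y - s) = 0 := by
      refine sum_eq_zero fun y hy => ?_
      rw [mem_range] at hy
      rw [show y - s = 0 by omega, g0]
    rw [h1]
    exact sum_nonneg fun y _ => hg y

/-- sums over a window -/
private theorem wsp_win (g : ℕ → ℝ) (g0 : g 0 = 0) (r y : ℕ) :
    ∑ n ∈ Ioc (y - r) y, g n = ∑ i ∈ range r, g (y - i) := by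
  induction r with
  | zero => simp
  | succ r ih =>
    rw [sum_range_succ, ← ih, ← sum_Ioc_consecutive g (show y - (r + 1) ≤ y - r by omega) (show y - r ≤ y by omega),
      add_comm (∑ n ∈ Ioc (y - (r + 1)) (y - r), g n)]
    congr 1
    rcases Nat.eq_zero_or_pos (y - r) with h | h
    · rw [show y - (r + 1) = 0 by omega, h, Ioc_self, sum_empty, g0]
    · have h1 : Ioc (y - (r + 1)) (y - r) = {y - r} := by
        ext n
        rw [mem_Ioc, mem_singleton]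
        omega
      rw [h1, sum_singleton]

/-- the trivial bound -/
private theorem wsp_triv (f : ℕ → ℂ) {Z r : ℕ} (hf : ∀ n, f n ≠ 0 → 1 ≤ n ∧ n ≤ Z) (α : ℝ) (N : ℕ) :
    VV f r α N ≤ (r : ℝ) ^ 2 * ∑ n ∈ Icc 1 Z, ‖f n‖ ^ 2 := by
  have g0 : ‖f 0‖ ^ 2 = 0 := by
    by_contra h
    have h1 : f 0 ≠ 0 := by
      intro h2
      rw [h2, norm_zero] at h
      norm_num at h
    have := (hf 0 h1).1
    omega
  have h1 : ∀ y, ‖WW f r α y‖ ^ 2 ≤ r * ∑ i ∈ range r, ‖f (y - i)‖ ^ 2 := by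
    intro y
    unfold WW
    have h2 : ‖∑ n ∈ Ioc (y - r) y, f n * Pool.Agent.Lib.GT.e (n * α)‖ ≤ ∑ n ∈ Ioc (y - r) y, ‖f n‖ := by
      refine (norm_sum_le _ _).trans (sum_le_sum fun n _ => ?_)
      rw [norm_mul, Pool.Agent.Lib.G3.vb_norm_e, mul_one]
    refine (pow_le_pow_left₀ (norm_nonneg _) h2 2).trans ?_
    refine sq_sum_le_card_mul_sum_sq.trans ?_
    rw [wsp_win (fun n => ‖f n‖ ^ 2) g0 r y, Nat.card_Ioc]
    have h3 : ((y - (y - r) : ℕ) : ℝ) ≤ r := by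
      exact_mod_cast (by omega : y - (y - r) ≤ r)
    exact mul_le_mul_of_nonneg_right h3 (sum_nonneg fun i _ => by positivity)
  have h4 : ∑ y ∈ range N, ‖f y‖ ^ 2 ≤ ∑ n ∈ Icc 1 Z, ‖f n‖ ^ 2 := by
    have h5 : ∑ y ∈ range N, ‖f y‖ ^ 2 = ∑ y ∈ (range N).filter (fun y => 1 ≤ y ∧ y ≤ Z), ‖f y‖ ^ 2 := by
      symm
      refine sum_filter_of_ne fun y _ hy => ?_
      refine hf y ?_
      intro h6
      rw [h6, norm_zero] at hy
      norm_num at hy
    rw [h5]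
    refine sum_le_sum_of_subset_of_nonneg ?_ fun y _ _ => by positivity
    intro y hy
    rw [mem_filter] at hy
    rw [mem_Icc]
    exact hy.2
  calc VV f r α N ≤ ∑ y ∈ range N, r * ∑ i ∈ range r, ‖f (y - i)‖ ^ 2 := sum_le_sum fun y _ => h1 y
    _ = r * ∑ i ∈ range r, ∑ y ∈ range N, ‖f (y - i)‖ ^ 2 := by rw [← mul_sum, sum_comm]
    _ ≤ r * ∑ i ∈ range r, ∑ n ∈ Icc 1 Z, ‖f n‖ ^ 2 := by
        refine mul_le_mul_of_nonneg_left (sum_le_sum fun i _ => ?_) (Nat.cast_nonneg _)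
        exact (wsp_shift (fun n => ‖f n‖ ^ 2) g0 (fun n => by positivity) N i).trans h4
    _ = (r : ℝ) ^ 2 * ∑ n ∈ Icc 1 Z, ‖f n‖ ^ 2 := by
        rw [sum_const, card_range, nsmul_eq_mul]; ring

/-- decomposition of a window -/
private theorem wsp_dec (f : ℕ → ℂ) (h : ℕ) (α : ℝ) (q y : ℕ) :
    WW f (q * h) α y = ∑ j ∈ range q, WW f h α (y - j * h) := by
  induction q with
  | zero => simp [WW]
  | succ q ih =>
    rw [sum_range_succ, ← ih]
    unfold WW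
    rw [← sum_Ioc_consecutive _ (show y - (q + 1) * h ≤ y - q * h by
      have : q * h ≤ (q + 1) * h := Nat.mul_le_mul_right _ (by omega)
      omega) (show y - q * h ≤ y by omega), add_comm, show y - q * h - h = y - (q + 1) * h by
      rw [Nat.sub_sub]; congr 1; ring]

private theorem wsp_dec2 (f : ℕ → ℂ) (h r : ℕ) (α : ℝ) (q y : ℕ) :
    WW f (q * h + r) α y = (∑ j ∈ range q, WW f h α (y - j * h)) + WW f r α (y - q * h) := by
  rw [← wsp_dec]
  unfold WW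
  rw [← sum_Ioc_consecutive _ (show y - (q * h + r) ≤ y - q * h by omega) (show y - q * h ≤ y by omega), add_comm,
    Nat.sub_sub]

theorem VV_split (f : ℕ → ℂ) {Z h H : ℕ} (hf : ∀ n, f n ≠ 0 → 1 ≤ n ∧ n ≤ Z) (h1 : 1 ≤ h) (hH : h ≤ H) (α : ℝ) :
    VV f H α (Z + H + 1) ≤ 2 * ((H : ℝ) / h) ^ 2 * VV f h α (Z + h + 1) + 2 * (h : ℝ) ^ 2 * ∑ n ∈ Icc 1 Z, ‖f n‖ ^ 2 := by
  set q := H / h with hq
  set r := H % h with hr
  have hHq : H = q * h + r := by
    rw [hq, hr]; exact (Nat.div_add_mod' H h).symm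
  have hrh : r < h := Nat.mod_lt _ h1
  have h0' : (0 : ℝ) < h := by exact_mod_cast h1
  have hqH : (q : ℝ) ≤ (H : ℝ) / h := by
    rw [le_div_iff₀ h0']
    exact_mod_cast (by omega : q * h ≤ H)
  set N := Z + H + 1 with hN
  have hW0 : ∀ k : ℕ, ‖WW f k α 0‖ ^ 2 = 0 := by
    intro k
    unfold WW
    simp
  have h2 : ∀ y, ‖WW f H α y‖ ^ 2 ≤ 2 * (q * ∑ j ∈ range q, ‖WW f h α (y - j * h)‖ ^ 2) + 2 * ‖WW f r α (y - q * h)‖ ^ 2 := by
    intro y
    have h3 : WW f H α y = (∑ j ∈ range q, WW f h α (y - j * h)) + WW f r α (y - q * h) := by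
      conv_lhs => rw [hHq]
      exact wsp_dec2 f h r α q y
    rw [h3]
    have h4 := norm_add_le (∑ j ∈ range q, WW f h α (y - j * h)) (WW f r α (y - q * h))
    have h5 : ‖∑ j ∈ range q, WW f h α (y - j * h)‖ ^ 2 ≤ q * ∑ j ∈ range q, ‖WW f h α (y - j * h)‖ ^ 2 := by
      refine (pow_le_pow_left₀ (norm_nonneg _) (norm_sum_le _ _) 2).trans ?_
      have := sq_sum_le_card_mul_sum_sq (s := range q) (f := fun j => ‖WW f h α (y - j * h)‖)
      rwa [card_range] at this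
    have h6 := pow_le_pow_left₀ (norm_nonneg _) h4 2
    nlinarith [sq_nonneg (‖∑ j ∈ range q, WW f h α (y - j * h)‖ - ‖WW f r α (y - q * h)‖)]
  have h7 : ∀ j, ∑ y ∈ range N, ‖WW f h α (y - j * h)‖ ^ 2 ≤ VV f h α (Z + h + 1) := by
    intro j
    refine (wsp_shift (fun y => ‖WW f h α y‖ ^ 2) (hW0 h) (fun n => by positivity) N (j * h)).trans ?_
    have h8 : VV f h α N = VV f h α (Z + h + 1) := by
      refine VV_stable (fun n hn => ?_) h α (by omega)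
      by_contra h9
      have := (hf n h9).2
      omega
    exact h8.le
  have h10 : ∑ y ∈ range N, ‖WW f r α (y - q * h)‖ ^ 2 ≤ (h : ℝ) ^ 2 * ∑ n ∈ Icc 1 Z, ‖f n‖ ^ 2 := by
    refine (wsp_shift (fun y => ‖WW f r α y‖ ^ 2) (hW0 r) (fun n => by positivity) N (q * h)).trans ?_
    refine (wsp_triv f hf α N).trans ?_
    have : (r : ℝ) ≤ h := by exact_mod_cast hrh.le
    have h11 : 0 ≤ ∑ n ∈ Icc 1 Z, ‖f n‖ ^ 2 := sum_nonneg fun n _ => by positivity
    gcongr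
  have hV0 : 0 ≤ VV f h α (Z + h + 1) := VV_nonneg _ _ _ _
  calc VV f H α N ≤ ∑ y ∈ range N, (2 * (q * ∑ j ∈ range q, ‖WW f h α (y - j * h)‖ ^ 2) + 2 * ‖WW f r α (y - q * h)‖ ^ 2) :=
        sum_le_sum fun y _ => h2 y
    _ = 2 * (q * ∑ j ∈ range q, ∑ y ∈ range N, ‖WW f h α (y - j * h)‖ ^ 2) + 2 * ∑ y ∈ range N, ‖WW f r α (y - q * h)‖ ^ 2 := by
        rw [sum_add_distrib, ← mul_sum, ← mul_sum, ← mul_sum, sum_comm]
    _ ≤ 2 * (q * ∑ j ∈ range q, VV f h α (Z + h + 1)) + 2 * ((h : ℝ) ^ 2 * ∑ n ∈ Icc 1 Z, ‖f n‖ ^ 2) := by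
        gcongr with j _
        · exact h7 j
    _ = 2 * (q : ℝ) ^ 2 * VV f h α (Z + h + 1) + 2 * (h : ℝ) ^ 2 * ∑ n ∈ Icc 1 Z, ‖f n‖ ^ 2 := by
        rw [sum_const, card_range, nsmul_eq_mul]; ring
    _ ≤ _ := by gcongr

private theorem wsp_pr {P : ℕ} {S : Finset ℕ} (hS : S ⊆ pr P) {p : ℕ} (hp : p ∈ S) : P < p ∧ p ≤ 2 * P := by
  have h := hS hp
  unfold Pool.Agent.Lib.G3.pr at h
  rw [mem_filter, mem_Ioc] at h
  exact h.1

/-- the support of the block function minus its model -/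
private theorem wsp_supp {Z P R M : ℕ} {S : Finset ℕ} (a : ℕ → ℝ) (Q : ℕ) (hS : S ⊆ pr P) (_hM1 : 1 ≤ M)
    (hR1 : 8 * (P * M * R) ≤ Z) (n : ℕ) (hn : dfS S a R M Q n ≠ 0) : 1 ≤ n ∧ n ≤ Z := by
  by_contra hcon
  apply hn
  have hb0 : bS S a R M n = 0 := by
    unfold Pool.Agent.Lib.G5.bS
    refine sum_eq_zero fun p hp => sum_eq_zero fun r hr => sum_eq_zero fun m hm => ?_
    rw [if_neg]
    intro h
    apply hcon
    have hp' := wsp_pr hS hp
    have hr' := wsp_pr (Subset.refl _) hr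
    rw [mem_Ico] at hm
    constructor
    · rw [← h]
      have h1 : 0 < p := by omega
      have h2 : 0 < m := by omega
      have h3 : 0 < r := by omega
      exact Nat.mul_pos (Nat.mul_pos h1 h2) h3
    · rw [← h]
      calc p * m * r ≤ (2 * P) * (2 * M) * (2 * R) := by
            refine Nat.mul_le_mul (Nat.mul_le_mul hp'.2 (by omega)) hr'.2
        _ = 8 * (P * M * R) := by ring
        _ ≤ Z := hR1
  have hr0 : rhoS S a R M n = 0 := by
    unfold rhoS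
    refine sum_eq_zero fun p hp => sum_eq_zero fun m hm => ?_
    rw [if_neg]
    intro h
    apply hcon
    have hp' := wsp_pr hS hp
    rw [mem_Ico] at hm
    constructor
    · omega
    · calc n ≤ 2 * (p * m * R) := h.2
        _ ≤ 2 * ((2 * P) * (2 * M) * R) := by
            refine Nat.mul_le_mul_left _ (Nat.mul_le_mul_right _ (Nat.mul_le_mul hp'.2 (by omega)))
        _ = 8 * (P * M * R) := by ring
        _ ≤ Z := hR1
  unfold dfS
  rw [hb0, hr0]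
  simp

/-- the density is bounded -/
private theorem wsp_rho {P R M : ℕ} {S : Finset ℕ} (a : ℕ → ℝ) (hP : 1 ≤ P) (hS : S ⊆ pr P) (hM1 : 1 ≤ M) (hR : 1 ≤ R)
    (ha : ∀ m, |a m| ≤ 1) (n : ℕ) : |rhoS S a R M n| ≤ 2 := by
  have hP0 : (0 : ℝ) < P := by exact_mod_cast hP
  have hM0 : (0 : ℝ) < M := by exact_mod_cast hM1
  have hlog : (1 : ℝ) / 2 ≤ Real.log (2 * R : ℕ) := by
    have h1 : Real.log 2 ≤ Real.log (2 * R : ℕ) := by
      apply Real.log_le_log (by norm_num)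
      exact_mod_cast (by omega : 2 ≤ 2 * R)
    have h2 := Real.log_two_gt_d9
    linarith
  have hlog0 : 0 < Real.log (2 * R : ℕ) := by linarith
  unfold rhoS
  refine (abs_sum_le_sum_abs _ _).trans ?_
  have h3 : ∀ p ∈ S, |∑ m ∈ Ico M (2 * M), if p * m * R < n ∧ n ≤ 2 * (p * m * R) then a m / (p * m * Real.log (2 * R : ℕ)) else 0|
      ≤ 2 / P := by
    intro p hp
    have hp' := wsp_pr hS hp
    have hpP : (P : ℝ) ≤ p := by exact_mod_cast hp'.1.le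
    refine (abs_sum_le_sum_abs _ _).trans ?_
    have h4 : ∀ m ∈ Ico M (2 * M), |if p * m * R < n ∧ n ≤ 2 * (p * m * R) then a m / (p * m * Real.log (2 * R : ℕ)) else 0|
        ≤ 1 / (P * M * (1 / 2)) := by
      intro m hm
      rw [mem_Ico] at hm
      have hmM : (M : ℝ) ≤ m := by exact_mod_cast hm.1
      have h6 : (P : ℝ) * M * (1 / 2) ≤ p * m * Real.log (2 * R : ℕ) := by gcongr
      have h7 : (0 : ℝ) < P * M * (1 / 2) := by positivity
      split_ifs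
      · rw [abs_div, abs_of_pos (lt_of_lt_of_le h7 h6)]
        exact div_le_div₀ zero_le_one (ha m) h7 h6
      · rw [abs_zero]; positivity
    refine (sum_le_sum h4).trans ?_
    rw [sum_const, Nat.card_Ico, nsmul_eq_mul, show 2 * M - M = M by omega]
    apply le_of_eq
    field_simp
  refine (sum_le_sum h3).trans ?_
  rw [sum_const, nsmul_eq_mul]
  have h5 : (S.card : ℝ) ≤ P := by
    have h6 : S.card ≤ (Ioc P (2 * P)).card := by
      apply card_le_card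
      intro p hp
      rw [mem_Ioc]
      exact wsp_pr hS hp
    rw [Nat.card_Ioc, show 2 * P - P = P by omega] at h6
    exact_mod_cast h6
  calc (S.card : ℝ) * (2 / P) ≤ P * (2 / P) := by gcongr
    _ = 2 := by field_simp

theorem varG2 (A c2 : ℕ) : ∃ g : ℕ, c2 ≤ g ∧ ∃ a1 : ℕ, ∀ c1 : ℕ, a1 ≤ c1 → ∃ c6 : ℕ, c1 + 4 * g + 20 ≤ c6 ∧ ∃ x0 : ℝ,
    ∀ Z : ℕ, x0 ≤ Z → ∀ (P R M : ℕ) (S : Finset ℕ) (a : ℕ → ℝ), BlkH Z P R M S a c1 → ∀ H : ℕ, (P : ℝ) * (Real.log Z) ^ c6 ≤ H → ∀ α : ℝ,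
      VV (dfS S a R M ⌊(Real.log Z) ^ g⌋₊) H α (Z + H + 1) ≤ Z * (H : ℝ) ^ 2 / (Real.log Z) ^ A := by
  obtain ⟨g, hg, a1, hvar⟩ := varG (A + 2) (c2 + 1)
  obtain ⟨C, D, hC, hmom⟩ := momI 2
  refine ⟨g, by omega, a1, fun c1 hc1 => ?_⟩
  obtain ⟨c6v, hc6v, x0, hx0⟩ := hvar c1 hc1
  refine ⟨c6v + (A + D + 10), by omega, ?_⟩
  have e1 : ∀ᶠ x : ℝ in atTop, x0 ≤ x ∧ 2 + 8 * C ≤ Real.log x ∧ 2 ≤ Real.log x ∧ (Real.log x) ^ (2 * g) ≤ x := by
    refine (eventually_ge_atTop x0).and ((Real.tendsto_log_atTop.eventually_ge_atTop _).and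
      ((Real.tendsto_log_atTop.eventually_ge_atTop _).and ?_))
    have h1 := (isLittleO_log_rpow_atTop (show (0 : ℝ) < 1 / (2 * g + 1) by positivity)).bound (show (0 : ℝ) < 1 by norm_num)
    filter_upwards [h1, eventually_ge_atTop (Real.exp 1)] with x hx hx1
    have hxpos : 0 < x := lt_of_lt_of_le (Real.exp_pos 1) hx1
    have hx2 : 1 ≤ x := by
      have := Real.add_one_le_exp (1 : ℝ)
      linarith
    have hl0 : 0 ≤ Real.log x := Real.log_nonneg hx2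
    rw [Real.norm_of_nonneg hl0, one_mul, Real.norm_of_nonneg (Real.rpow_nonneg hxpos.le _)] at hx
    calc (Real.log x) ^ (2 * g) ≤ (x ^ ((1 : ℝ) / (2 * g + 1))) ^ (2 * g) := pow_le_pow_left₀ hl0 hx _
      _ = x ^ ((1 : ℝ) / (2 * g + 1) * (2 * g : ℕ)) := by rw [Real.rpow_mul hxpos.le, Real.rpow_natCast]
      _ ≤ x ^ (1 : ℝ) := by
          apply Real.rpow_le_rpow_of_exponent_le hx2
          push_cast
          rw [div_mul_eq_mul_div, one_mul, div_le_one (by positivity)]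
          linarith
      _ = x := Real.rpow_one x
  obtain ⟨x1, hx1⟩ := eventually_atTop.mp e1
  refine ⟨x1, fun Z hZ P R M S a hB H hH α => ?_⟩
  obtain ⟨hz0, hz1, hz2, hz3⟩ := hx1 Z hZ
  set l := Real.log Z with hl
  have hl0 : 0 < l := by linarith
  have hl1 : 1 ≤ l := by linarith
  have hZ0 : 0 < (Z : ℝ) := by
    by_contra h
    have h1 : (Z : ℝ) = 0 := le_antisymm (not_lt.mp h) (Nat.cast_nonneg _)
    rw [hl, h1, Real.log_zero] at hl0
    exact lt_irrefl _ hl0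
  have hZ1 : 1 ≤ Z := by exact_mod_cast hZ0
  have hP1 : 1 ≤ P := by
    have h1 : (0 : ℝ) < P := lt_of_lt_of_le (by positivity) hB.hP1
    exact_mod_cast h1
  have hR1 : 1 ≤ R := by
    rcases Nat.eq_zero_or_pos R with h | h
    · have := hB.hR2
      rw [h] at this
      simp at this
      omega
    · exact h
  have hP0 : (0 : ℝ) < P := by exact_mod_cast hP1
  have hPR : (1 : ℝ) ≤ P := by exact_mod_cast hP1
  -- the parameter `Q`
  set Q := ⌊l ^ g⌋₊ with hQ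
  have hg1 : 1 ≤ g := by omega
  have hlg : l ≤ l ^ g := le_self_pow₀ hl1 (by omega)
  have hQ2 : 2 ≤ Q := by
    rw [hQ]
    apply Nat.le_floor
    push_cast
    linarith
  have hQl : (Q : ℝ) ≤ l ^ g := Nat.floor_le (by positivity)
  have hQZ : Q ^ 2 ≤ Z := by
    have h1 : ((Q : ℝ)) ^ 2 ≤ Z := by
      calc (Q : ℝ) ^ 2 ≤ (l ^ g) ^ 2 := by gcongr
        _ = l ^ (2 * g) := by rw [← pow_mul, mul_comm]
        _ ≤ Z := hz3
    exact_mod_cast h1
  have hQ0 : (0 : ℝ) < Q := by exact_mod_cast (by omega : 0 < Q)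
  have hlQ : Real.log Q ≤ l := by
    rw [hl]
    apply Real.log_le_log hQ0
    have h1 : Q ≤ Q ^ 2 := by nlinarith
    exact_mod_cast h1.trans hQZ
  have hlQ0 : 0 ≤ Real.log Q := Real.log_nonneg (by exact_mod_cast (by omega : 1 ≤ Q))
  have hm := hmom Z Q hQ2 hQZ
  -- the mean square
  have hsupp := wsp_supp a Q hB.hS hB.hM1 hB.hR1
  have hsq : ∑ n ∈ Icc 1 Z, ‖dfS S a R M Q n‖ ^ 2 ≤ l ^ (D + 1) * Z := by
    have h1 : ∀ n, ‖dfS S a R M Q n‖ ^ 2 ≤ 2 + 8 * |ram Q n| ^ 2 := by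
      intro n
      have h2 := hB.hb n
      have h3 := wsp_rho a hP1 hB.hS hB.hM1 hR1 hB.ha n
      have h4 : ‖dfS S a R M Q n‖ ≤ 1 + 2 * |ram Q n| := by
        unfold dfS
        refine (norm_sub_le _ _).trans ?_
        rw [Complex.norm_real, Complex.norm_real, Real.norm_eq_abs, Real.norm_eq_abs, abs_mul]
        have := abs_nonneg (ram Q n)
        gcongr
      have h5 := pow_le_pow_left₀ (norm_nonneg _) h4 2
      nlinarith [sq_nonneg (1 - 2 * |ram Q n|)]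
    calc ∑ n ∈ Icc 1 Z, ‖dfS S a R M Q n‖ ^ 2 ≤ ∑ n ∈ Icc 1 Z, (2 + 8 * |ram Q n| ^ 2) := sum_le_sum fun n _ => h1 n
      _ = 2 * Z + 8 * ∑ n ∈ Icc 1 Z, |ram Q n| ^ 2 := by
          rw [sum_add_distrib, ← mul_sum, sum_const, Nat.card_Icc, nsmul_eq_mul, show Z + 1 - 1 = Z by omega]
          ring
      _ ≤ 2 * Z + 8 * (C * (Real.log Q) ^ D * Z) := by gcongr
      _ ≤ 2 * Z + 8 * (C * l ^ D * Z) := by gcongr
      _ = (2 + 8 * C * l ^ D) * Z := by ring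
      _ ≤ ((2 + 8 * C) * l ^ D) * Z := by
          have h6 : 1 ≤ l ^ D := one_le_pow₀ hl1
          apply mul_le_mul_of_nonneg_right _ hZ0.le
          nlinarith
      _ ≤ (l * l ^ D) * Z := by gcongr
      _ = l ^ (D + 1) * Z := by rw [pow_succ]; ring
  -- the short windows
  have hPl : 1 ≤ (P : ℝ) * l ^ c6v := by
    have h1 : 1 ≤ l ^ c6v := one_le_pow₀ hl1
    nlinarith
  have hPl0 : 0 < (P : ℝ) * l ^ c6v := by positivity
  set H0 := ⌈(P : ℝ) * l ^ c6v⌉₊ with hH0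
  have hc1' : (P : ℝ) * l ^ c6v ≤ H0 := Nat.le_ceil _
  have hc2' : (H0 : ℝ) ≤ 2 * (P * l ^ c6v) := by
    have h1 : (H0 : ℝ) < P * l ^ c6v + 1 := Nat.ceil_lt_add_one hPl0.le
    linarith
  have hc3 : (H0 : ℝ) ≤ P * l ^ (c6v + 2) := by
    refine hc2'.trans ?_
    rw [pow_add]
    have h1 : 2 ≤ l ^ 2 := by nlinarith
    nlinarith
  obtain ⟨h, hh1, hh2, hh3⟩ := hx0 Z hz0 P R M S a hB H0 hc1' hc3
  have hh4 : (h : ℝ) ≤ 4 * (P * l ^ c6v) := by
    have h1 : (h : ℝ) ≤ 2 * H0 := by exact_mod_cast hh2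
    linarith
  have hh5 : 1 ≤ h := by
    have h1 : (1 : ℝ) ≤ h := by
      have h2 : (H0 : ℝ) ≤ h := by exact_mod_cast hh1
      linarith
    exact_mod_cast h1
  have hh0 : (0 : ℝ) < h := by exact_mod_cast hh5
  have hlA : 4 ≤ l ^ (A + D + 10) := by
    calc (4 : ℝ) = 2 ^ 2 := by norm_num
      _ ≤ l ^ 2 := by gcongr
      _ ≤ l ^ (A + D + 10) := pow_le_pow_right₀ hl1 (by omega)
  have hHe : (P * l ^ c6v) * l ^ (A + D + 10) ≤ (H : ℝ) := by
    refine le_trans (le_of_eq ?_) hH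
    rw [pow_add l c6v]; ring
  have hhH : h ≤ H := by
    have h1 : (h : ℝ) ≤ H := by
      refine hh4.trans (le_trans ?_ hHe)
      rw [mul_comm 4]
      exact mul_le_mul_of_nonneg_left hlA hPl0.le
    exact_mod_cast h1
  have hV := hh3 α
  have hS := VV_split (dfS S a R M Q) hsupp hh5 hhH α
  refine hS.trans ?_
  have hH0' : (0 : ℝ) < H := lt_of_lt_of_le hh0 (by exact_mod_cast hhH)
  have hT1 : 2 * ((H : ℝ) / h) ^ 2 * VV (dfS S a R M Q) h α (Z + h + 1) ≤ Z * (H : ℝ) ^ 2 / l ^ A * (1 / 2) := by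
    calc 2 * ((H : ℝ) / h) ^ 2 * VV (dfS S a R M Q) h α (Z + h + 1)
        ≤ 2 * ((H : ℝ) / h) ^ 2 * (Z * (h : ℝ) ^ 2 / l ^ (A + 2)) := by gcongr
      _ = Z * (H : ℝ) ^ 2 / l ^ A * (2 / l ^ 2) := by
          rw [pow_add]
          field_simp
      _ ≤ Z * (H : ℝ) ^ 2 / l ^ A * (1 / 2) := by
          apply mul_le_mul_of_nonneg_left _ (by positivity)
          rw [div_le_div_iff₀ (by positivity) (by norm_num)]
          nlinarith
  have hT2 : 2 * (h : ℝ) ^ 2 * ∑ n ∈ Icc 1 Z, ‖dfS S a R M Q n‖ ^ 2 ≤ Z * (H : ℝ) ^ 2 / l ^ A * (1 / 2) := by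
    have h1 : (h : ℝ) * l ^ (A + D + 10) ≤ 4 * H := by
      calc (h : ℝ) * l ^ (A + D + 10) ≤ (4 * (P * l ^ c6v)) * l ^ (A + D + 10) := by gcongr
        _ = 4 * ((P * l ^ c6v) * l ^ (A + D + 10)) := by ring
        _ ≤ 4 * H := by gcongr
    have h2 : (h : ℝ) ≤ 4 * H / l ^ (A + D + 10) := by
      rw [le_div_iff₀ (by positivity)]; exact h1
    calc 2 * (h : ℝ) ^ 2 * ∑ n ∈ Icc 1 Z, ‖dfS S a R M Q n‖ ^ 2
        ≤ 2 * (4 * H / l ^ (A + D + 10)) ^ 2 * (l ^ (D + 1) * Z) := by gcongr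
      _ = Z * (H : ℝ) ^ 2 / l ^ A * (32 / l ^ (A + D + 19)) := by
          have h3 : (l ^ (A + D + 10)) ^ 2 = l ^ A * l ^ (D + 1) * l ^ (A + D + 19) := by
            rw [← pow_mul, ← pow_add, ← pow_add]; congr 1; ring
          rw [div_pow, h3]
          field_simp
          ring
      _ ≤ Z * (H : ℝ) ^ 2 / l ^ A * (1 / 2) := by
          apply mul_le_mul_of_nonneg_left _ (by positivity)
          rw [div_le_div_iff₀ (by positivity) (by norm_num)]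
          have h4 : (64 : ℝ) ≤ l ^ (A + D + 19) := by
            calc (64 : ℝ) = 2 ^ 6 := by norm_num
              _ ≤ l ^ 6 := by gcongr
              _ ≤ l ^ (A + D + 19) := pow_le_pow_right₀ hl1 (by omega)
          linarith
  linarith

end Pool.Agent.Lib.VKT
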