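import Pool.Agent.Lib.VK.TTail

/-!
# VK / TPos (P4): the constant of an admissible tuple is bounded below

PROOF. `M = 8 k²`, `k = m+1`. For `p ≤ M` the factor is `≥ 1/p ≥ 1/M` (`ν(p) ≤ p-1`, `(1-1/p)^k ≤ 1`); for `p > M` it is
`≥ (1-k/p)(1+k/p) = 1 - k²/p²` (`(1-x)^k (1+x)^k ≤ 1`, `(1+x)^k ≥ 1+kx`), and `∏ (1 - k²/p²) ≥ 1 - k² ∑_{n > M} 1/n² ≥ 1/2`.
So `part h z ≥ (1/M)^M / 2` for all `z`, and the limit too (`tail`).
-/

set_option autoImplicit false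

open Finset Filter Topology

namespace Pool.Agent.Lib.VKT

private theorem tpos_one_sub (s : Finset ℕ) (a : ℕ → ℝ) (h0 : ∀ p ∈ s, 0 ≤ a p) (h1 : ∀ p ∈ s, a p ≤ 1) :
    1 - ∑ p ∈ s, a p ≤ ∏ p ∈ s, (1 - a p) := by
  induction s using Finset.induction_on with
  | empty => simp
  | insert b s hb ih =>
    rw [sum_insert hb, prod_insert hb]
    have h0' : ∀ p ∈ s, 0 ≤ a p := fun p hp => h0 p (mem_insert_of_mem hp)
    have h1' : ∀ p ∈ s, a p ≤ 1 := fun p hp => h1 p (mem_insert_of_mem hp)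
    have ih' := ih h0' h1'
    have hb0 := h0 b (mem_insert_self b s)
    have hb1 := h1 b (mem_insert_self b s)
    have hs0 : 0 ≤ ∑ p ∈ s, a p := sum_nonneg h0'
    have hm : (1 - a b) * (1 - ∑ p ∈ s, a p) ≤ (1 - a b) * ∏ p ∈ s, (1 - a p) :=
      mul_le_mul_of_nonneg_left ih' (by linarith)
    nlinarith [mul_nonneg hb0 hs0]

private theorem tpos_nu_le {m : ℕ} (h : Fin m → ℕ) (p : ℕ) : nu h p ≤ m + 1 := by
  unfold nu
  refine (card_insert_le _ _).trans ?_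
  have := (card_image_le (s := (univ : Finset (Fin m))) (f := fun i => h i % p))
  simpa using this

private theorem tpos_den {p : ℕ} (hp : 2 ≤ p) (k : ℕ) : 0 < (1 - 1 / (p : ℝ)) ^ k ∧ (1 - 1 / (p : ℝ)) ^ k ≤ 1 := by
  have hp' : (2 : ℝ) ≤ p := by exact_mod_cast hp
  have h1 : 1 / (p : ℝ) ≤ 1 / 2 := one_div_le_one_div_of_le (by norm_num) hp'
  have h2 : 0 ≤ 1 / (p : ℝ) := by positivity
  exact ⟨pow_pos (by linarith) k, pow_le_one₀ (by linarith) (by linarith)⟩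

private theorem tpos_small {m p : ℕ} (h : Fin m → ℕ) (hp : p.Prime) (hn : nu h p < p) :
    1 / (p : ℝ) ≤ (1 - (nu h p : ℝ) / p) / (1 - 1 / (p : ℝ)) ^ (m + 1) := by
  obtain ⟨hd0, hd1⟩ := tpos_den hp.two_le (m + 1)
  have hp' : (0 : ℝ) < p := by exact_mod_cast hp.pos
  have hnu : (nu h p : ℝ) + 1 ≤ p := by exact_mod_cast hn
  have hnum : 1 / (p : ℝ) ≤ 1 - (nu h p : ℝ) / p := by
    rw [div_le_iff₀ hp', sub_mul, div_mul_cancel₀ _ hp'.ne']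
    linarith
  have h0 : 0 ≤ 1 - (nu h p : ℝ) / p := le_trans (by positivity) hnum
  rw [le_div_iff₀ hd0]
  calc 1 / (p : ℝ) * (1 - 1 / (p : ℝ)) ^ (m + 1) ≤ 1 / (p : ℝ) * 1 := by gcongr
    _ ≤ 1 - (nu h p : ℝ) / p := by rw [mul_one]; exact hnum

private theorem tpos_large {m p : ℕ} (h : Fin m → ℕ) (hp : p.Prime) (hn : m + 1 ≤ p) :
    1 - ((m + 1 : ℕ) : ℝ) ^ 2 / (p : ℝ) ^ 2 ≤ (1 - (nu h p : ℝ) / p) / (1 - 1 / (p : ℝ)) ^ (m + 1) := by
  obtain ⟨hd0, hd1⟩ := tpos_den hp.two_le (m + 1)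
  have hp2 : (2 : ℝ) ≤ p := by exact_mod_cast hp.two_le
  have hp' : (0 : ℝ) < p := by linarith
  have hx0 : 0 ≤ 1 / (p : ℝ) := by positivity
  have hx1 : 1 / (p : ℝ) ≤ 1 / 2 := one_div_le_one_div_of_le (by norm_num) hp2
  have hk : ((m + 1 : ℕ) : ℝ) / p ≤ 1 := by
    rw [div_le_one hp']; exact_mod_cast hn
  have hnu : (nu h p : ℝ) / p ≤ ((m + 1 : ℕ) : ℝ) / p := by
    gcongr
    exact_mod_cast tpos_nu_le h p
  have hb : 1 + ((m + 1 : ℕ) : ℝ) * (1 / (p : ℝ)) ≤ (1 + 1 / (p : ℝ)) ^ (m + 1) :=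
    one_add_mul_le_pow (by linarith) (m + 1)
  have hprod : (1 - 1 / (p : ℝ)) ^ (m + 1) * (1 + 1 / (p : ℝ)) ^ (m + 1) ≤ 1 := by
    rw [← mul_pow]
    refine pow_le_one₀ ?_ ?_
    · exact mul_nonneg (by linarith) (by linarith)
    · nlinarith [mul_nonneg hx0 hx0]
  have hq : (1 - 1 / (p : ℝ)) ^ (m + 1) * (1 + ((m + 1 : ℕ) : ℝ) / p) ≤ 1 := by
    refine le_trans ?_ hprod
    refine mul_le_mul_of_nonneg_left ?_ hd0.le
    rw [div_eq_mul_one_div]; exact hb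
  rw [le_div_iff₀ hd0]
  have he : (1 - ((m + 1 : ℕ) : ℝ) ^ 2 / (p : ℝ) ^ 2) * (1 - 1 / (p : ℝ)) ^ (m + 1) =
      (1 - ((m + 1 : ℕ) : ℝ) / p) * ((1 - 1 / (p : ℝ)) ^ (m + 1) * (1 + ((m + 1 : ℕ) : ℝ) / p)) := by
    rw [← div_pow]; ring
  rw [he]
  calc (1 - ((m + 1 : ℕ) : ℝ) / p) * ((1 - 1 / (p : ℝ)) ^ (m + 1) * (1 + ((m + 1 : ℕ) : ℝ) / p))
      ≤ (1 - ((m + 1 : ℕ) : ℝ) / p) * 1 := mul_le_mul_of_nonneg_left hq (by linarith)
    _ ≤ 1 - (nu h p : ℝ) / p := by linarith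

private theorem tpos_part {m : ℕ} (h : Fin m → ℕ) (hn : ∀ p : ℕ, p.Prime → nu h p < p) (z : ℕ) :
    (1 / ((8 * (m + 1) ^ 2 : ℕ) : ℝ)) ^ (8 * (m + 1) ^ 2) * (1 / 2) ≤ part h z := by
  set M : ℕ := 8 * (m + 1) ^ 2 with hM
  have hM1 : 1 ≤ M := by
    have : 1 ≤ (m + 1) ^ 2 := Nat.one_le_pow _ _ (by omega)
    omega
  have hM1' : (1 : ℝ) ≤ M := by exact_mod_cast hM1
  have hMk : m + 1 ≤ M := by
    have : m + 1 ≤ (m + 1) ^ 2 := by nlinarith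
    omega
  unfold part
  set f : ℕ → ℝ := fun p => (1 - (nu h p : ℝ) / p) / (1 - 1 / (p : ℝ)) ^ (m + 1) with hf
  rw [← prod_filter_mul_prod_filter_not ((Icc 1 z).filter Nat.Prime) (fun p => p ≤ M)]
  have hA : (1 / (M : ℝ)) ^ M ≤ ∏ p ∈ ((Icc 1 z).filter Nat.Prime).filter (fun p => p ≤ M), f p := by
    set S := ((Icc 1 z).filter Nat.Prime).filter (fun p => p ≤ M) with hS
    have hcard : S.card ≤ M := by
      have : S ⊆ Icc 1 M := by
        intro p hp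
        simp only [hS, mem_filter, mem_Icc] at hp ⊢
        exact ⟨hp.1.1.1, hp.2⟩
      simpa using card_le_card this
    calc (1 / (M : ℝ)) ^ M ≤ (1 / (M : ℝ)) ^ S.card :=
          pow_le_pow_of_le_one (by positivity) (by rw [div_le_one (by linarith)]; exact hM1') hcard
      _ = ∏ p ∈ S, (1 / (M : ℝ)) := by rw [prod_const]
      _ ≤ ∏ p ∈ S, f p := by
          refine prod_le_prod (fun p _ => by positivity) fun p hp => ?_
          simp only [hS, mem_filter, mem_Icc] at hp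
          have hpp := hp.1.2
          refine le_trans ?_ (tpos_small h hpp (hn p hpp))
          exact one_div_le_one_div_of_le (by exact_mod_cast hpp.pos) (by exact_mod_cast hp.2)
  have hB : (1 / 2 : ℝ) ≤ ∏ p ∈ ((Icc 1 z).filter Nat.Prime).filter (fun p => ¬ p ≤ M), f p := by
    set T := ((Icc 1 z).filter Nat.Prime).filter (fun p => ¬ p ≤ M) with hT
    have hTm : ∀ p ∈ T, p.Prime ∧ M < p ∧ p ≤ z := by
      intro p hp
      simp only [hT, mem_filter, mem_Icc, not_le] at hp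
      exact ⟨hp.1.2, hp.2, hp.1.1.2⟩
    have ha1 : ∀ p ∈ T, ((m + 1 : ℕ) : ℝ) ^ 2 / (p : ℝ) ^ 2 ≤ 1 := by
      intro p hp
      obtain ⟨hpp, hpM, _⟩ := hTm p hp
      have : ((m + 1 : ℕ) : ℝ) ≤ p := by exact_mod_cast (by omega : m + 1 ≤ p)
      rw [← div_pow]
      have hp0 : (0 : ℝ) < p := by exact_mod_cast hpp.pos
      exact pow_le_one₀ (by positivity) (by rw [div_le_one hp0]; exact this)
    have h1 := tpos_one_sub T (fun p => ((m + 1 : ℕ) : ℝ) ^ 2 / (p : ℝ) ^ 2) (fun p _ => by positivity) ha1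
    have h2 : ∏ p ∈ T, (1 - ((m + 1 : ℕ) : ℝ) ^ 2 / (p : ℝ) ^ 2) ≤ ∏ p ∈ T, f p := by
      refine prod_le_prod (fun p hp => by linarith [ha1 p hp]) fun p hp => ?_
      obtain ⟨hpp, hpM, _⟩ := hTm p hp
      exact tpos_large h hpp (by omega)
    have h3 : ∑ p ∈ T, ((m + 1 : ℕ) : ℝ) ^ 2 / (p : ℝ) ^ 2 ≤ 1 / 2 := by
      calc ∑ p ∈ T, ((m + 1 : ℕ) : ℝ) ^ 2 / (p : ℝ) ^ 2
          = ((m + 1 : ℕ) : ℝ) ^ 2 * ∑ p ∈ T, ((p : ℝ) ^ 2)⁻¹ := by
            rw [mul_sum]; rfl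
        _ ≤ ((m + 1 : ℕ) : ℝ) ^ 2 * ∑ p ∈ Ioo M (z + 1), ((p : ℝ) ^ 2)⁻¹ := by
            refine mul_le_mul_of_nonneg_left ?_ (by positivity)
            refine sum_le_sum_of_subset_of_nonneg ?_ (fun _ _ _ => by positivity)
            intro p hp
            obtain ⟨_, h1, h2⟩ := hTm p hp
            rw [mem_Ioo]; omega
        _ ≤ ((m + 1 : ℕ) : ℝ) ^ 2 * (2 / ((M : ℝ) + 1)) :=
            mul_le_mul_of_nonneg_left (sum_Ioo_inv_sq_le M (z + 1)) (by positivity)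
        _ ≤ 1 / 2 := by
            have hMr : (M : ℝ) = 8 * ((m + 1 : ℕ) : ℝ) ^ 2 := by rw [hM]; push_cast; ring
            have hpos : (0 : ℝ) < (M : ℝ) + 1 := by linarith
            rw [mul_div_assoc', div_le_iff₀ hpos, hMr]
            nlinarith [sq_nonneg ((m + 1 : ℕ) : ℝ)]
    linarith
  exact mul_le_mul hA hB (by norm_num) (le_trans (by positivity) hA)

theorem pos (m : ℕ) : ∃ s : ℝ, 0 < s ∧ ∀ h : Fin m → ℕ, Function.Injective h → (∀ i, 1 ≤ h i) →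
    (∀ p : ℕ, p.Prime → nu h p < p) → s ≤ HL h := by
  obtain ⟨C, D, hC, hT⟩ := tail m
  refine ⟨(1 / ((8 * (m + 1) ^ 2 : ℕ) : ℝ)) ^ (8 * (m + 1) ^ 2) * (1 / 2), by positivity, ?_⟩
  intro h hi h1 hn
  obtain ⟨z, hz⟩ := exists_nat_ge (C * Real.log ((2 + ∑ i, h i : ℕ) : ℝ))
  have hlim := (hT (max 2 z) (2 + ∑ i, h i) h (le_max_left _ _) (by omega) hi
    (fun i => ⟨h1 i, by
      have := single_le_sum (f := h) (fun j _ => Nat.zero_le (h j)) (mem_univ i)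
      omega⟩)
    (hz.trans (by exact_mod_cast le_max_right 2 z))).1
  exact ge_of_tendsto' hlim fun z => tpos_part h hn z

theorem zero (m : ℕ) (h : Fin m → ℕ) (hi : Function.Injective h) (h1 : ∀ i, 1 ≤ h i) {p : ℕ} (hp : p.Prime) (hn : nu h p = p) :
    HL h = 0 := by
  have hev : part h =ᶠ[atTop] fun _ => (0 : ℝ) := by
    filter_upwards [eventually_ge_atTop p] with z hz
    unfold part
    refine prod_eq_zero (i := p) ?_ ?_
    · simp only [mem_filter, mem_Icc]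
      exact ⟨⟨hp.one_lt.le, hz⟩, hp⟩
    · have hp' : (p : ℝ) ≠ 0 := by exact_mod_cast hp.ne_zero
      rw [hn, div_self hp', sub_self, zero_div]
  have ht : Tendsto (part h) atTop (𝓝 0) := (tendsto_congr' hev).2 tendsto_const_nhds
  exact ht.limUnder_eq

end Pool.Agent.Lib.VKT
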