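import Pool.Agent.Lib.VK.TDef

/-!
# VK / TBox (P4): sums over boxes, one coordinate at a time

PROOF. `box_card`: `Fintype.card_piFinset`. `box_upd`: swap the sums; the pairs `(h, x)` with `h ∈ box`, `x ∈ Ioc (b k) (b k + H k)`
are sent to `(update h k x, h k)`: an involution of the same set of pairs, hence
`∑_h ∑_x f (update h k x) = ∑_h ∑_x f h = H_k ∑_h f h` (`Finset.sum_nbij'` on the product, `Function.update_idem`,
`Function.update_eq_self`). `box_le`: divide by `H_k`, `box_card`. `box_ninj`: a non injective `h` has `h i = h k` for some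
`i ≠ k`; for fixed `i, k` apply `box_le` to the indicator function of `h i = h k` with `E = 1` (for fixed other coordinates at most one
value of `h k`), `H_k ≥ h0`; at most `m²` pairs.
-/

set_option autoImplicit false

open Finset

namespace Pool.Agent.Lib.VKT

theorem box_mem {m : ℕ} {b H : Fin m → ℕ} {h : Fin m → ℕ} : h ∈ box b H ↔ ∀ i, b i < h i ∧ h i ≤ b i + H i := by
  simp [box, Fintype.mem_piFinset]

theorem box_card {m : ℕ} (b H : Fin m → ℕ) : (box b H).card = ∏ i, H i := by
  simp [box, Fintype.card_piFinset]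

theorem box_upd {m : ℕ} (b H : Fin m → ℕ) (k : Fin m) (f : (Fin m → ℕ) → ℝ) :
    ∑ h ∈ box b H, ∑ x ∈ Ioc (b k) (b k + H k), f (Function.update h k x) = H k * ∑ h ∈ box b H, f h := by
  have hR : (H k : ℝ) * ∑ h ∈ box b H, f h = ∑ h ∈ box b H, ∑ _x ∈ Ioc (b k) (b k + H k), f h := by
    rw [Finset.mul_sum]
    refine Finset.sum_congr rfl fun h _ => ?_
    rw [Finset.sum_const, Nat.card_Ioc, nsmul_eq_mul]
    simp
  rw [hR, ← Finset.sum_product', ← Finset.sum_product']
  refine Finset.sum_nbij' (fun p => (Function.update p.1 k p.2, p.1 k)) (fun p => (Function.update p.1 k p.2, p.1 k)) ?_ ?_ ?_ ?_ ?_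
  · rintro ⟨h, x⟩ hp
    rw [Finset.mem_product] at hp ⊢
    obtain ⟨h1, h2⟩ := hp
    simp only [box_mem, Finset.mem_Ioc] at h1 h2 ⊢
    refine ⟨fun i => ?_, h1 k⟩
    by_cases hi : i = k
    · subst hi
      simpa using h2
    · rw [Function.update_of_ne hi]
      exact h1 i
  · rintro ⟨h, x⟩ hp
    rw [Finset.mem_product] at hp ⊢
    obtain ⟨h1, h2⟩ := hp
    simp only [box_mem, Finset.mem_Ioc] at h1 h2 ⊢
    refine ⟨fun i => ?_, h1 k⟩
    by_cases hi : i = k
    · subst hi
      simpa using h2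
    · rw [Function.update_of_ne hi]
      exact h1 i
  · rintro ⟨h, x⟩ _
    simp
  · rintro ⟨h, x⟩ _
    simp
  · rintro ⟨h, x⟩ _
    rfl

theorem box_le {m : ℕ} (b H : Fin m → ℕ) (k : Fin m) (hk : 1 ≤ H k) (f : (Fin m → ℕ) → ℝ) {E : ℝ}
    (hf : ∀ h ∈ box b H, ∑ x ∈ Ioc (b k) (b k + H k), f (Function.update h k x) ≤ E) :
    ∑ h ∈ box b H, f h ≤ (∏ i, (H i : ℝ)) / H k * E := by
  have hpos : (0 : ℝ) < H k := by exact_mod_cast hk
  have h1 : (H k : ℝ) * ∑ h ∈ box b H, f h ≤ (∏ i, (H i : ℝ)) * E := by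
    rw [← box_upd b H k f]
    refine (Finset.sum_le_sum hf).trans (le_of_eq ?_)
    rw [Finset.sum_const, box_card, nsmul_eq_mul]
    push_cast
    ring
  have h2 : (∏ i, (H i : ℝ)) / H k * E = ((∏ i, (H i : ℝ)) * E) / H k := by ring
  rw [h2, le_div_iff₀ hpos]
  linarith

open Classical in
theorem box_ninj {m : ℕ} (b H : Fin m → ℕ) {h0 : ℕ} (h1 : 1 ≤ h0) (hH : ∀ i, h0 ≤ H i) :
    (((box b H).filter fun h => ¬ Function.Injective h).card : ℝ) ≤ (m : ℝ) ^ 2 * (∏ i, (H i : ℝ)) / h0 := by
  have h0pos : (0 : ℝ) < h0 := by exact_mod_cast h1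
  have hprod : (0 : ℝ) ≤ ∏ i, (H i : ℝ) := Finset.prod_nonneg fun i _ => Nat.cast_nonneg _
  -- one pair
  have key : ∀ i k : Fin m, i ≠ k →
      ∑ h ∈ box b H, (if h i = h k then (1 : ℝ) else 0) ≤ (∏ i, (H i : ℝ)) / h0 := by
    intro i k hik
    have hk : 1 ≤ H k := h1.trans (hH k)
    have hkpos : (0 : ℝ) < H k := by exact_mod_cast hk
    refine (box_le b H k hk (fun h => if h i = h k then (1 : ℝ) else 0) (E := 1) ?_).trans ?_
    · intro h _
      have : ∀ x ∈ Ioc (b k) (b k + H k),
          (if Function.update h k x i = Function.update h k x k then (1 : ℝ) else 0) = if h i = x then (1 : ℝ) else 0 := by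
        intro x _
        rw [Function.update_of_ne hik, Function.update_self]
      rw [Finset.sum_congr rfl this, Finset.sum_ite_eq]
      split_ifs <;> norm_num
    · rw [mul_one]
      refine div_le_div_of_nonneg_left hprod h0pos ?_
      exact_mod_cast hH k
  have hcount : (((box b H).filter fun h => ¬ Function.Injective h).card : ℝ)
      ≤ ∑ p : Fin m × Fin m, if p.1 ≠ p.2 then ∑ h ∈ box b H, (if h p.1 = h p.2 then (1 : ℝ) else 0) else 0 := by
    have e1 : (((box b H).filter fun h => ¬ Function.Injective h).card : ℝ)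
        = ∑ h ∈ box b H, if ¬ Function.Injective h then (1 : ℝ) else 0 := by
      rw [Finset.sum_boole]
    have e2 : (∑ p : Fin m × Fin m, if p.1 ≠ p.2 then ∑ h ∈ box b H, (if h p.1 = h p.2 then (1 : ℝ) else 0) else 0)
        = ∑ h ∈ box b H, ∑ p : Fin m × Fin m, if p.1 ≠ p.2 then (if h p.1 = h p.2 then (1 : ℝ) else 0) else 0 := by
      rw [Finset.sum_comm]
      refine Finset.sum_congr rfl fun p _ => ?_
      split_ifs <;> simp
    rw [e1, e2]
    refine Finset.sum_le_sum fun h _ => ?_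
    by_cases hi : Function.Injective h
    · rw [if_neg (not_not.mpr hi)]
      refine Finset.sum_nonneg fun p _ => ?_
      split_ifs <;> norm_num
    · rw [if_pos hi]
      unfold Function.Injective at hi
      push Not at hi
      obtain ⟨i, k, hk, hne⟩ := hi
      have : (1 : ℝ) = if ((i, k) : Fin m × Fin m).1 ≠ (i, k).2 then (if h (i, k).1 = h (i, k).2 then (1 : ℝ) else 0) else 0 := by
        simp [hk, hne]
      refine this.le.trans (Finset.single_le_sum (f := fun p : Fin m × Fin m => if p.1 ≠ p.2 then (if h p.1 = h p.2 then (1 : ℝ) else 0) else 0)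
        ?_ (Finset.mem_univ (i, k)))
      intro p _
      split_ifs <;> norm_num
  refine hcount.trans ?_
  have : ∀ p ∈ (Finset.univ : Finset (Fin m × Fin m)),
      (if p.1 ≠ p.2 then ∑ h ∈ box b H, (if h p.1 = h p.2 then (1 : ℝ) else 0) else 0) ≤ (∏ i, (H i : ℝ)) / h0 := by
    intro p _
    split_ifs with hp
    · exact key p.1 p.2 hp
    · positivity
  refine (Finset.sum_le_card_nsmul _ _ _ this).trans (le_of_eq ?_)
  rw [Finset.card_univ, Fintype.card_prod, Fintype.card_fin, nsmul_eq_mul]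
  push_cast
  ring

end Pool.Agent.Lib.VKT
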