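import Pool.Agent.Lib.VK.TCm
import Pool.Agent.Lib.VK.TBox

/-!
# VK / TCh (P4): replacement of the `m` factors, one after the other

PROOF. Telescoping: with `P_k(n) = ∏_i (if i < k then M_i else F_i)(n + h_i)` one has `P_0 = ∏ F`, `P_m = ∏ M` and
`P_k - P_(k+1) = (F_k - M_k)(n+h_k) ∏_{i<k} M_i(n+h_i) ∏_{i>k} F_i(n+h_i)`. For fixed `k` and fixed `h_i`, `i ≠ k`, put
`G n = w n ∏_{i<k} M_i(n+h_i) ∏_{i>k} F_i(n+h_i)`. As `|F| ≤ 1` and at most `m + 1` numbers `x = |w n|²` or `|M_i(n+h_i)|²` occur,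
`|G n|² ≤ 1 + ∑ x^(m+1)` (`∏ x_i ≤ (max x_i)^j ≤ 1 + ∑ x_i^(m+1)` for `j ≤ m+1` numbers `x_i ≥ 0`), so
`∑_{n ∈ Icc 1 X} |G n|² ≤ X + (m+1) X S` (`M` vanishes outside `[1, X]`). `cmS` (with `B = β X H_k²`):
`∑_{x ∈ Ioc (b k) (b k + H k)} |∑_n G n (F_k-M_k)(n+x)|² ≤ 2 β X H_k · X (1 + (m+1) S)`; `box_le` with `f h = |...|²`: the sum over
the box is `≤ ∏ H_i · 2 β X² (1 + (m+1) S)`. Cauchy over `k < m`: a factor `m`, the sum over `k` another factor `m`.
-/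

set_option autoImplicit false

open Finset

namespace Pool.Agent.Lib.VKT

open Pool.Agent.Lib.G3 (VV)

/-- telescoping -/
private theorem tch_tel {m : ℕ} (f g : Fin m → ℂ) : ∏ i, f i - ∏ i, g i =
    ∑ k, (f k - g k) * ((∏ j ∈ univ.filter (fun j => j < k), g j) *
      ∏ j ∈ univ.filter (fun j => k < j), f j) := by
  have h := Finset.prod_add_ordered (univ : Finset (Fin m)) f (fun i => g i - f i)
  have e : ∀ i, f i + (g i - f i) = g i := fun i => by ring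
  simp only [e] at h
  rw [h, sub_add_cancel_left, ← Finset.sum_neg_distrib]
  refine Finset.sum_congr rfl fun k _ => ?_
  ring

/-- sums over shifts -/
private theorem tch_shift {X : ℕ} (g : ℕ → ℝ) (h0 : ∀ n, 0 ≤ g n)
    (hg : ∀ n, g n ≠ 0 → 1 ≤ n ∧ n ≤ X) (h : ℕ) :
    ∑ n ∈ Icc 1 X, g (n + h) ≤ ∑ n ∈ Icc 1 X, g n := by
  have h1 : ∑ n ∈ Icc 1 X, g (n + h) = ∑ n ∈ (Icc 1 X).image (fun n => n + h), g n := by
    rw [Finset.sum_image fun a _ b _ hab => by simpa using hab]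
  have h2 : ∑ n ∈ (Icc 1 X).image (fun n => n + h), g n =
      ∑ n ∈ ((Icc 1 X).image (fun n => n + h)).filter (fun n => g n ≠ 0), g n :=
    (Finset.sum_filter_ne_zero _).symm
  rw [h1, h2]
  refine Finset.sum_le_sum_of_subset_of_nonneg ?_ fun n _ _ => h0 n
  intro n hn
  rw [Finset.mem_filter] at hn
  rw [Finset.mem_Icc]
  exact hg n hn.2

/-- the product of at most `m + 1` nonnegative numbers -/
private theorem tch_prod {m : ℕ} (x : ℝ) (hx : 0 ≤ x) (a c : Fin m → ℝ) (ha : ∀ i, 0 ≤ a i)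
    (hc : ∀ i, 0 ≤ c i) (hc1 : ∀ i, c i ≤ 1) (s t : Finset (Fin m)) :
    x * ((∏ j ∈ s, a j) * ∏ j ∈ t, c j) ≤ 1 + x ^ (m + 1) + ∑ i, a i ^ (m + 1) := by
  set T := 1 + x ^ (m + 1) + ∑ i, a i ^ (m + 1) with hT
  have hs0 : 0 ≤ ∑ i, a i ^ (m + 1) := Finset.sum_nonneg fun i _ => pow_nonneg (ha i) _
  have hx0 : 0 ≤ x ^ (m + 1) := pow_nonneg hx _
  have hT1 : 1 ≤ T := by linarith
  have hxT : x ^ (m + 1) ≤ T := by linarith
  have haT : ∀ i, a i ^ (m + 1) ≤ T := fun i => by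
    have := Finset.single_le_sum (f := fun i => a i ^ (m + 1)) (fun i _ => pow_nonneg (ha i) _)
      (Finset.mem_univ i)
    have h2 : a i ^ (m + 1) ≤ ∑ i, a i ^ (m + 1) := this
    linarith
  have hp0 : 0 ≤ ∏ j ∈ s, a j := Finset.prod_nonneg fun j _ => ha j
  have hq0 : 0 ≤ ∏ j ∈ t, c j := Finset.prod_nonneg fun j _ => hc j
  have hq1 : ∏ j ∈ t, c j ≤ 1 := Finset.prod_le_one (fun j _ => hc j) fun j _ => hc1 j
  have h1 : x * ((∏ j ∈ s, a j) * ∏ j ∈ t, c j) ≤ x * ∏ j ∈ s, a j :=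
    mul_le_mul_of_nonneg_left (mul_le_of_le_one_right hp0 hq1) hx
  refine h1.trans ?_
  have h2 : (x * ∏ j ∈ s, a j) ^ (m + 1) ≤ T ^ (m + 1) := by
    rw [mul_pow, ← Finset.prod_pow]
    have h3 : ∏ j ∈ s, a j ^ (m + 1) ≤ T ^ m := by
      calc ∏ j ∈ s, a j ^ (m + 1) ≤ ∏ _j ∈ s, T :=
            Finset.prod_le_prod (fun j _ => pow_nonneg (ha j) _) fun j _ => haT j
        _ = T ^ s.card := by rw [Finset.prod_const]
        _ ≤ T ^ m := pow_le_pow_right₀ hT1 (by simpa using Finset.card_le_univ s)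
    calc x ^ (m + 1) * ∏ j ∈ s, a j ^ (m + 1) ≤ T * T ^ m :=
          mul_le_mul hxT h3 (Finset.prod_nonneg fun j _ => pow_nonneg (ha j) _) (by linarith)
      _ = T ^ (m + 1) := by rw [pow_succ']
  exact le_of_pow_le_pow_left₀ (by omega) (by linarith) h2

/-- the mean square of the frozen factors -/
private theorem tch_mean {m X : ℕ} (F M : Fin m → ℕ → ℂ) (w : ℕ → ℂ)
    (hM : ∀ i n, M i n ≠ 0 → 1 ≤ n ∧ n ≤ X) {S : ℝ}
    (hF1 : ∀ i n, ‖F i n‖ ≤ 1) (hMS : ∀ i, ∑ n ∈ Icc 1 X, ‖M i n‖ ^ (2 * (m + 1)) ≤ X * S)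
    (hw : ∑ n ∈ Icc 1 X, ‖w n‖ ^ (2 * (m + 1)) ≤ X * S) (k : Fin m) (h : Fin m → ℕ) :
    ∑ n ∈ Icc 1 X, ‖w n * ((∏ j ∈ univ.filter (fun j => j < k), M j (n + h j)) *
      ∏ j ∈ univ.filter (fun j => k < j), F j (n + h j))‖ ^ 2 ≤ X * (1 + (m + 1) * S) := by
  have h1 : ∀ n, ‖w n * ((∏ j ∈ univ.filter (fun j => j < k), M j (n + h j)) *
      ∏ j ∈ univ.filter (fun j => k < j), F j (n + h j))‖ ^ 2 ≤
      1 + ‖w n‖ ^ (2 * (m + 1)) + ∑ i, ‖M i (n + h i)‖ ^ (2 * (m + 1)) := by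
    intro n
    have h2 := tch_prod (‖w n‖ ^ 2) (by positivity) (fun i => ‖M i (n + h i)‖ ^ 2)
      (fun i => ‖F i (n + h i)‖ ^ 2) (fun i => by positivity) (fun i => by positivity)
      (fun i => pow_le_one₀ (norm_nonneg _) (hF1 i _)) (univ.filter (fun j => j < k))
      (univ.filter (fun j => k < j))
    simp only [← pow_mul] at h2
    refine le_trans (le_of_eq ?_) h2
    rw [norm_mul, norm_mul, norm_prod, norm_prod, mul_pow, mul_pow, ← Finset.prod_pow,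
      ← Finset.prod_pow]
  refine (Finset.sum_le_sum fun n _ => h1 n).trans ?_
  rw [Finset.sum_add_distrib, Finset.sum_add_distrib, Finset.sum_const, Nat.card_Icc,
    Nat.add_sub_cancel, nsmul_eq_mul, mul_one, Finset.sum_comm]
  have h3 : ∑ i : Fin m, ∑ n ∈ Icc 1 X, ‖M i (n + h i)‖ ^ (2 * (m + 1)) ≤ m * (X * S) := by
    calc ∑ i : Fin m, ∑ n ∈ Icc 1 X, ‖M i (n + h i)‖ ^ (2 * (m + 1)) ≤
        ∑ _i : Fin m, (X * S : ℝ) := by
          refine Finset.sum_le_sum fun i _ => ?_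
          refine le_trans ?_ (hMS i)
          refine tch_shift (fun n => ‖M i n‖ ^ (2 * (m + 1))) (fun n => by positivity) ?_ (h i)
          intro n hn
          refine hM i n fun h0 => hn ?_
          show ‖M i n‖ ^ (2 * (m + 1)) = 0
          rw [h0, norm_zero, zero_pow (by omega)]
      _ = m * (X * S) := by rw [Finset.sum_const, Finset.card_univ, Fintype.card_fin, nsmul_eq_mul]
  have h4 : (X : ℝ) * (1 + (m + 1) * S) = X + X * S + m * (X * S) := by ring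
  rw [h4]
  linarith

theorem chain {m X : ℕ} (H : Fin m → ℕ) (hH : ∀ i, 1 ≤ H i) (F M : Fin m → ℕ → ℂ) (w : ℕ → ℂ)
    (hF : ∀ i n, F i n ≠ 0 → 1 ≤ n ∧ n ≤ X) (hM : ∀ i n, M i n ≠ 0 → 1 ≤ n ∧ n ≤ X) {S β : ℝ} (hβ : 0 ≤ β)
    (hF1 : ∀ i n, ‖F i n‖ ≤ 1) (hMS : ∀ i, ∑ n ∈ Icc 1 X, ‖M i n‖ ^ (2 * (m + 1)) ≤ X * S)
    (hw : ∑ n ∈ Icc 1 X, ‖w n‖ ^ (2 * (m + 1)) ≤ X * S)
    (hB : ∀ i, ∀ α : ℝ, VV (fun n => F i n - M i n) (H i) α (X + H i + 1) ≤ β * X * (H i : ℝ) ^ 2) (b : Fin m → ℕ) :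
    ∑ h ∈ box b H, ‖∑ n ∈ Icc 1 X, w n * ∏ i, F i (n + h i) - ∑ n ∈ Icc 1 X, w n * ∏ i, M i (n + h i)‖ ^ 2 ≤
      2 * (m : ℝ) ^ 2 * β * (X : ℝ) ^ 2 * (1 + (m + 1) * S) * ∏ i, (H i : ℝ) := by
  obtain ⟨T, hT⟩ : ∃ T : Fin m → (Fin m → ℕ) → ℂ, T = fun k h => ∑ n ∈ Icc 1 X,
      (F k (n + h k) - M k (n + h k)) * (w n * ((∏ j ∈ univ.filter (fun j => j < k), M j (n + h j)) *
        ∏ j ∈ univ.filter (fun j => k < j), F j (n + h j))) := ⟨_, rfl⟩
  have hdec : ∀ h : Fin m → ℕ, ∑ n ∈ Icc 1 X, w n * ∏ i, F i (n + h i) -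
      ∑ n ∈ Icc 1 X, w n * ∏ i, M i (n + h i) = ∑ k, T k h := by
    intro h
    rw [hT, Finset.sum_comm, ← Finset.sum_sub_distrib]
    refine Finset.sum_congr rfl fun n _ => ?_
    rw [← mul_sub, tch_tel (fun i => F i (n + h i)) (fun i => M i (n + h i)), Finset.mul_sum]
    refine Finset.sum_congr rfl fun k _ => ?_
    ring
  have hcs : ∀ h : Fin m → ℕ, ‖∑ k, T k h‖ ^ 2 ≤ m * ∑ k, ‖T k h‖ ^ 2 := by
    intro h
    have h1 : ‖∑ k, T k h‖ ^ 2 ≤ (∑ k, ‖T k h‖) ^ 2 :=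
      pow_le_pow_left₀ (norm_nonneg _) (norm_sum_le _ _) 2
    have h2 := sq_sum_le_card_mul_sum_sq (s := (univ : Finset (Fin m))) (f := fun k => ‖T k h‖)
    rw [Finset.card_univ, Fintype.card_fin] at h2
    exact h1.trans h2
  have hk : ∀ k : Fin m, ∑ h ∈ box b H, ‖T k h‖ ^ 2 ≤
      2 * β * (X : ℝ) ^ 2 * (1 + (m + 1) * S) * ∏ i, (H i : ℝ) := by
    intro k
    have hHk : (0 : ℝ) < H k := by
      have : 0 < H k := hH k
      exact_mod_cast this
    have h1 := box_le b H k (hH k) (fun h => ‖T k h‖ ^ 2)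
      (E := 2 * β * (X : ℝ) * H k * (X * (1 + (m + 1) * S))) (by
        intro h _
        have h2 : ∀ x, ‖T k (Function.update h k x)‖ ^ 2 = ‖∑ n ∈ Icc 1 X,
            (fun n => F k n - M k n) (n + x) * (w n * ((∏ j ∈ univ.filter (fun j => j < k),
              M j (n + h j)) * ∏ j ∈ univ.filter (fun j => k < j), F j (n + h j)))‖ ^ 2 := by
          intro x
          rw [hT]
          show ‖∑ n ∈ Icc 1 X, _‖ ^ 2 = _
          congr 2
          refine Finset.sum_congr rfl fun n _ => ?_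
          have e1 : ∏ j ∈ univ.filter (fun j => j < k), M j (n + Function.update h k x j) =
              ∏ j ∈ univ.filter (fun j => j < k), M j (n + h j) := by
            refine Finset.prod_congr rfl fun j hj => ?_
            rw [Finset.mem_filter] at hj
            rw [Function.update_of_ne hj.2.ne]
          have e2 : ∏ j ∈ univ.filter (fun j => k < j), F j (n + Function.update h k x j) =
              ∏ j ∈ univ.filter (fun j => k < j), F j (n + h j) := by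
            refine Finset.prod_congr rfl fun j hj => ?_
            rw [Finset.mem_filter] at hj
            rw [Function.update_of_ne hj.2.ne']
          rw [e1, e2, Function.update_self]
        rw [Finset.sum_congr rfl fun x _ => h2 x]
        refine (cmS (hH k) (fun n => F k n - M k n) _ ?_ (B := β * X * (H k : ℝ) ^ 2)
          (fun α => hB k α) (b k)).trans ?_
        · intro n hn
          by_cases h3 : F k n = 0
          · refine hM k n fun h4 => hn ?_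
            show F k n - M k n = 0
            rw [h3, h4, sub_zero]
          · exact hF k n h3
        · have h3 := tch_mean F M w hM hF1 hMS hw k h
          have e3 : 2 * (β * X * (H k : ℝ) ^ 2) / H k = 2 * β * X * H k := by
            field_simp
          rw [e3]
          exact mul_le_mul_of_nonneg_left h3 (by positivity))
    refine h1.trans (le_of_eq ?_)
    field_simp
  calc ∑ h ∈ box b H, ‖∑ n ∈ Icc 1 X, w n * ∏ i, F i (n + h i) -
        ∑ n ∈ Icc 1 X, w n * ∏ i, M i (n + h i)‖ ^ 2 ≤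
      ∑ h ∈ box b H, m * ∑ k, ‖T k h‖ ^ 2 := by
        refine Finset.sum_le_sum fun h _ => ?_
        rw [hdec h]
        exact hcs h
    _ = m * ∑ k, ∑ h ∈ box b H, ‖T k h‖ ^ 2 := by
        rw [← Finset.mul_sum, Finset.sum_comm]
    _ ≤ m * ∑ _k : Fin m, 2 * β * (X : ℝ) ^ 2 * (1 + (m + 1) * S) * ∏ i, (H i : ℝ) := by
        refine mul_le_mul_of_nonneg_left ?_ (Nat.cast_nonneg m)
        exact Finset.sum_le_sum fun k _ => hk k
    _ = _ := by
        rw [Finset.sum_const, Finset.card_univ, Fintype.card_fin, nsmul_eq_mul]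
        ring

end Pool.Agent.Lib.VKT
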