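import Pool.Agent.Lib.VK.TCrt

/-!
# VK / TFul (P4): the complete series is the product over the primes `≤ Q`

PROOF. `W = primorial Q = ∏_{p ≤ Q} p`. `lamW Q n = ∏_{p ≤ Q} (if p ∣ n then 0 else p/(p-1))` (`Nat.coprime` to a product;
`W/φ(W) = ∏ p/(p-1)`, `Nat.totient` of a squarefree number, `SW.rm_totient`). So
`lamW Q n ∏_i lamW Q (n+h_i) = ∏_p f_p(n)`, `f_p(n) = (p/(p-1))^(m+1)` if `p` divides none of `n, n+h_1, ..., n+h_m` and `0` otherwise,
periodic modulo `p`; `crt_prod`: the average is `∏_p (1/p) ∑_{n<p} f_p(n) = ∏_p (1/p)(p/(p-1))^(m+1) (p - ν(p))`: the excluded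
classes are the negatives of `0, h_1, ..., h_m` modulo `p`, `nu h p` of them (`n + h ≡ 0` iff `n ≡ -h`; the map `c ↦ (p - c) % p` is
a bijection of the classes).
-/

set_option autoImplicit false

open Finset

namespace Pool.Agent.Lib.VKT

private theorem tful_prim (Q : ℕ) : primorial Q = ∏ p ∈ (Icc 1 Q).filter Nat.Prime, p := by
  unfold primorial
  refine prod_congr ?_ (fun _ _ => rfl)
  ext p
  simp only [mem_filter, mem_range, mem_Icc]
  constructor
  · rintro ⟨h1, h2⟩
    exact ⟨⟨h2.one_le, by omega⟩, h2⟩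
  · rintro ⟨h1, h2⟩
    exact ⟨by omega, h2⟩

private theorem tful_tot (s : Finset ℕ) (hs : ∀ p ∈ s, p.Prime) :
    (∏ p ∈ s, p).totient = ∏ p ∈ s, (p - 1) := by
  classical
  induction s using Finset.induction_on with
  | empty => simp
  | insert a s ha ih =>
    rw [prod_insert ha, prod_insert ha, Nat.totient_mul, ih (fun p hp => hs p (mem_insert_of_mem hp)),
      Nat.totient_prime (hs a (mem_insert_self a s))]
    refine Nat.Coprime.prod_right (fun p hp => ?_)
    refine (Nat.coprime_primes (hs a (mem_insert_self a s)) (hs p (mem_insert_of_mem hp))).2 ?_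
    rintro rfl
    exact ha hp

/-- local factor -/
private noncomputable def tg (p n : ℕ) : ℝ := if p ∣ n then 0 else (p : ℝ) / ((p : ℝ) - 1)

private theorem tful_lam (Q n : ℕ) : lamW Q n = ∏ p ∈ (Icc 1 Q).filter Nat.Prime, tg p n := by
  have hS : ∀ p ∈ (Icc 1 Q).filter Nat.Prime, p.Prime := fun p hp => (mem_filter.1 hp).2
  unfold lamW
  by_cases h : Nat.Coprime n (primorial Q)
  · rw [if_pos h]
    rw [tful_prim, Nat.coprime_prod_right_iff] at h
    rw [tful_prim, tful_tot _ hS]
    push_cast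
    rw [← prod_div_distrib]
    refine prod_congr rfl (fun p hp => ?_)
    unfold tg
    have h1 : ¬ p ∣ n := (Nat.Prime.coprime_iff_not_dvd (hS p hp)).1 ((h p hp).symm)
    rw [if_neg h1, Nat.cast_sub (hS p hp).one_le, Nat.cast_one]
  · rw [if_neg h]
    rw [tful_prim, Nat.coprime_prod_right_iff] at h
    push Not at h
    obtain ⟨p, hp, h1⟩ := h
    symm
    refine prod_eq_zero hp ?_
    unfold tg
    rw [if_pos]
    by_contra h2
    exact h1 ((Nat.Prime.coprime_iff_not_dvd (hS p hp)).2 h2).symm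

private theorem tful_mod {p n : ℕ} (hn : n < p) (c : ℕ) : c % p = (p - n) % p ↔ p ∣ n + c := by
  have h1 : (p - n) + n = p := by omega
  constructor
  · intro h
    have h2 : Nat.ModEq p c (p - n) := h
    have h3 := h2.add_right n
    rw [h1] at h3
    have h4 : Nat.ModEq p (c + n) 0 := h3.trans (by unfold Nat.ModEq; simp)
    rw [add_comm]
    exact (Nat.modEq_zero_iff_dvd).1 h4
  · intro h
    have h2 : Nat.ModEq p (c + n) 0 := by
      rw [add_comm] at h
      exact (Nat.modEq_zero_iff_dvd).2 h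
    have h3 : Nat.ModEq p (c + n) ((p - n) + n) := by
      rw [h1]
      exact h2.trans (by unfold Nat.ModEq; simp)
    exact Nat.ModEq.add_right_cancel' n h3

private theorem tful_inv {p n : ℕ} (hn : n < p) : (p - (p - n) % p) % p = n := by
  rcases Nat.eq_zero_or_pos n with rfl | h
  · simp
  · rw [Nat.mod_eq_of_lt (show p - n < p by omega)]
    have : p - (p - n) = n := by omega
    rw [this, Nat.mod_eq_of_lt hn]

private theorem tful_card {m : ℕ} (h : Fin m → ℕ) {p : ℕ} (hp : 0 < p) :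
    ((range p).filter (fun n => ¬ (¬ p ∣ n ∧ ∀ i, ¬ p ∣ n + h i))).card = nu h p := by
  classical
  unfold nu
  have key : ∀ n, n < p → ((p - n) % p ∈ (insert 0 (univ.image fun i => h i % p) : Finset ℕ) ↔
      ¬ (¬ p ∣ n ∧ ∀ i, ¬ p ∣ n + h i)) := by
    intro n hn
    rw [mem_insert, mem_image]
    have h0 := tful_mod hn 0
    rw [Nat.zero_mod, Nat.add_zero] at h0
    constructor
    · rintro (h1 | ⟨i, _, h1⟩) ⟨h2, h3⟩
      · exact h2 (h0.1 h1.symm)
      · exact h3 i ((tful_mod hn (h i)).1 h1)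
    · intro h1
      by_cases h2 : p ∣ n
      · exact Or.inl (h0.2 h2).symm
      · right
        by_contra h3
        refine h1 ⟨h2, fun i hi => h3 ⟨i, mem_univ i, (tful_mod hn (h i)).2 hi⟩⟩
  refine card_nbij' (fun n => (p - n) % p) (fun n => (p - n) % p) ?_ ?_ ?_ ?_
  · intro n hn
    rw [mem_coe, mem_filter, mem_range] at hn
    exact (key n hn.1).2 hn.2
  · intro c hc
    rw [mem_coe] at hc
    have hcp : c < p := by
      rcases mem_insert.1 hc with rfl | h1
      · exact hp
      · obtain ⟨i, _, rfl⟩ := mem_image.1 h1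
        exact Nat.mod_lt _ hp
    rw [mem_coe, mem_filter, mem_range]
    refine ⟨Nat.mod_lt _ hp, ?_⟩
    rw [← key _ (Nat.mod_lt _ hp), tful_inv hcp]
    exact hc
  · intro n hn
    rw [mem_coe, mem_filter, mem_range] at hn
    exact tful_inv hn.1
  · intro c hc
    rw [mem_coe] at hc
    have hcp : c < p := by
      rcases mem_insert.1 hc with rfl | h1
      · exact hp
      · obtain ⟨i, _, rfl⟩ := mem_image.1 h1
        exact Nat.mod_lt _ hp
    exact tful_inv hcp

private theorem tful_loc {m : ℕ} (h : Fin m → ℕ) {p : ℕ} (hp : p.Prime) :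
    (∑ n ∈ range p, tg p n * ∏ i, tg p (n + h i)) / (p : ℝ) =
      (1 - (nu h p : ℝ) / p) / (1 - 1 / (p : ℝ)) ^ (m + 1) := by
  classical
  have h1 : ∀ n ∈ range p, tg p n * ∏ i, tg p (n + h i) =
      if (¬ p ∣ n ∧ ∀ i, ¬ p ∣ n + h i) then ((p : ℝ) / ((p : ℝ) - 1)) ^ (m + 1) else 0 := by
    intro n _
    by_cases h2 : ¬ p ∣ n ∧ ∀ i, ¬ p ∣ n + h i
    · rw [if_pos h2]
      have h3 : ∀ i ∈ (univ : Finset (Fin m)), tg p (n + h i) = (p : ℝ) / ((p : ℝ) - 1) := by
        intro i _
        unfold tg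
        rw [if_neg (h2.2 i)]
      rw [prod_congr rfl h3, prod_const, card_univ, Fintype.card_fin, pow_succ']
      unfold tg
      rw [if_neg h2.1]
    · rw [if_neg h2]
      by_cases h3 : p ∣ n
      · unfold tg
        rw [if_pos h3, zero_mul]
      · have h4 : ∃ i, p ∣ n + h i := by
          by_contra h5
          push Not at h5
          exact h2 ⟨h3, h5⟩
        obtain ⟨i, hi⟩ := h4
        have h5 : ∏ i, tg p (n + h i) = 0 := by
          refine prod_eq_zero (mem_univ i) ?_
          unfold tg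
          rw [if_pos hi]
        rw [h5, mul_zero]
  have h2 := tful_card h hp.pos
  have h3 : ((range p).filter (fun n => (¬ p ∣ n ∧ ∀ i, ¬ p ∣ n + h i))).card +
      ((range p).filter (fun n => ¬ (¬ p ∣ n ∧ ∀ i, ¬ p ∣ n + h i))).card = p := by
    have := Finset.card_filter_add_card_filter_not (s := range p)
      (fun n => (¬ p ∣ n ∧ ∀ i, ¬ p ∣ n + h i))
    rwa [card_range] at this
  rw [sum_congr rfl h1, ← sum_filter, sum_const, nsmul_eq_mul]
  rw [h2] at h3
  have h4 : (((range p).filter (fun n => (¬ p ∣ n ∧ ∀ i, ¬ p ∣ n + h i))).card : ℝ) =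
      (p : ℝ) - nu h p := by
    have : ((((range p).filter (fun n => (¬ p ∣ n ∧ ∀ i, ¬ p ∣ n + h i))).card + nu h p : ℕ) : ℝ) =
      (p : ℝ) := by rw [h3]
    push_cast at this
    linarith
  rw [h4]
  have hp0 : (0 : ℝ) < p := by exact_mod_cast hp.pos
  have hp1 : (0 : ℝ) < (p : ℝ) - 1 := by
    have : (1 : ℝ) < p := by exact_mod_cast hp.one_lt
    linarith
  have e1 : (1 - 1 / (p : ℝ)) = (((p : ℝ) / ((p : ℝ) - 1)))⁻¹ := by
    field_simp
  have e2 : (1 - (nu h p : ℝ) / p) = ((p : ℝ) - nu h p) / p := by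
    field_simp
  rw [e1, e2, inv_pow, div_inv_eq_mul]
  ring

theorem sgF_eq {m : ℕ} (Q : ℕ) (h : Fin m → ℕ) : sgF Q h = part h Q := by
  have hS : ∀ p ∈ (Icc 1 Q).filter Nat.Prime, p.Prime := fun p hp => (mem_filter.1 hp).2
  unfold sgF avg part
  have h1 : ∀ n ∈ range (primorial Q), lamW Q n * ∏ i, lamW Q (n + h i) =
      ∏ p ∈ (Icc 1 Q).filter Nat.Prime, (tg p n * ∏ i, tg p (n + h i)) := by
    intro n _
    rw [prod_mul_distrib, ← tful_lam, prod_comm]
    refine (congrArg (lamW Q n * ·) (prod_congr rfl (fun i _ => ?_)))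
    exact tful_lam Q (n + h i)
  rw [sum_congr rfl h1, tful_prim, crt_prod _ hS]
  · push_cast
    rw [← prod_div_distrib]
    exact prod_congr rfl (fun p hp => tful_loc h (hS p hp))
  · intro p _ n
    have hg : ∀ n, tg p (n + p) = tg p n := by
      intro n
      unfold tg
      simp only [Nat.dvd_add_self_right]
    have e : ∀ i, n + p + h i = (n + h i) + p := fun i => by ring
    simp only [hg, e]

end Pool.Agent.Lib.VKT
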