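import Pool.Agent.Lib.VK.TDef
import Pool.Agent.Lib.SW.FourierSW

/-!
# VK / TPri (P4): the local mean square for the primes, windows of length `Y`

PROOF. `X = 32Y`, `l = log X`, `Q = ⌊l^g⌋`, `Qs = (Icc 1 Q).filter Squarefree`, `ram Q n = LQ Qs n`, `lp = GT.lam` (by `rfl`). For `K := A + 2`
`SW.fourier_lam K` gives `A1`; `c2 := A1 + 1` (so that `q ≤ l^A1 ≤ Q`, as `l^(A1+1) - 1 ≥ l^A1`), `A2 := g`: all sums
`∑_{n ≤ Z} (lp n - ram Q n) e(nα)`, `Z ≤ X`, are `≤ C X/l^K`. A window `(y - Y, y]` is a difference of two such sums (cut at `X`,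
both functions are `0` beyond `X` and at `0`: `lp 0 = 0`), so `|WW| ≤ 2 C X/(l^K l)` and `VV ≤ (X + Y + 1) (2 C · 32 Y/l^(K+1))² ≤
32 Y · Y²/l^A` for large `Y`. (`WW` sums over `Ioc (y - Y) y` with natural subtraction.)
-/

set_option autoImplicit false

open Finset

namespace Pool.Agent.Lib.VKT

open Pool.Agent.Lib.G3 (VV)

private theorem TPri_sum (X Q P R : ℕ) (Qs : Finset ℕ) (hQs : Qs = (Icc 1 Q).filter Squarefree) (α : ℝ) (y : ℕ) :
    ∑ n ∈ Ioc 0 y, ((((Fx X P R true n : ℝ) : ℂ) - ((Mx X P R Q true n : ℝ) : ℂ)) * Pool.Agent.Lib.GT.e (n * α)) =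
      ((1 / Real.log X : ℝ) : ℂ) * ∑ n ∈ Icc 1 (min y X),
        ((Pool.Agent.Lib.GT.lam n - Pool.Agent.Lib.SW.LQ Qs n : ℝ) : ℂ) * Pool.Agent.Lib.GT.e (n * α) := by
  have h1 : ∑ n ∈ Ioc 0 y, ((((Fx X P R true n : ℝ) : ℂ) - ((Mx X P R Q true n : ℝ) : ℂ)) * Pool.Agent.Lib.GT.e (n * α)) =
      ∑ n ∈ Icc 1 (min y X), ((((Fx X P R true n : ℝ) : ℂ) - ((Mx X P R Q true n : ℝ) : ℂ)) * Pool.Agent.Lib.GT.e (n * α)) := by
    symm
    apply sum_subset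
    · intro n hn
      rw [mem_Icc] at hn
      rw [mem_Ioc]
      have := le_min_iff.mp hn.2
      omega
    · intro n hn hn'
      rw [mem_Ioc] at hn
      rw [mem_Icc, le_min_iff] at hn'
      have h2 : ¬ n ≤ X := fun h => hn' ⟨by omega, hn.2, h⟩
      simp only [Fx, Mx]
      rw [if_pos trivial, if_pos trivial, if_neg h2, if_neg (fun h => h2 h.2)]
      simp
  rw [h1, mul_sum]
  refine sum_congr rfl fun n hn => ?_
  rw [mem_Icc, le_min_iff] at hn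
  simp only [Fx, Mx]
  rw [if_pos trivial, if_pos trivial, if_pos hn.2.2, if_pos ⟨hn.1, hn.2.2⟩]
  have h3 : Pool.Agent.Lib.G3.lp n = Pool.Agent.Lib.GT.lam n := rfl
  rw [h3, ram, hQs]
  push_cast
  ring

theorem priV (A : ℕ) : ∃ c2 : ℕ, ∀ g : ℕ, c2 ≤ g → ∃ x0 : ℝ, ∀ Y : ℕ, x0 ≤ Y → ∀ (P R : ℕ) (α : ℝ),
    VV (fun n => ((Fx (32 * Y) P R true n : ℝ) : ℂ) - ((Mx (32 * Y) P R ⌊(Real.log (32 * Y : ℕ)) ^ g⌋₊ true n : ℝ) : ℂ)) Y α
      (32 * Y + Y + 1) ≤ 1 / (Real.log (32 * Y : ℕ)) ^ A * (32 * Y : ℕ) * (Y : ℝ) ^ 2 := by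
  obtain ⟨A1, hA1⟩ := Pool.Agent.Lib.SW.fourier_lam (A + 2)
  refine ⟨A1 + 1, fun g hg => ?_⟩
  obtain ⟨C, hC, hS⟩ := hA1 g
  refine ⟨Real.exp (max 2 (4352 * C ^ 2)), fun Y hY P R α => ?_⟩
  have hYpos : (0 : ℝ) < Y := lt_of_lt_of_le (Real.exp_pos _) hY
  have hY1 : 1 ≤ Y := by
    rcases Nat.eq_zero_or_pos Y with h | h
    · rw [h] at hYpos
      simp at hYpos
    · exact h
  have hl : max 2 (4352 * C ^ 2) ≤ Real.log (32 * Y : ℕ) := by
    rw [Real.le_log_iff_exp_le (by push_cast; positivity)]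
    push_cast
    linarith
  set l := Real.log (32 * Y : ℕ) with hldef
  have hl2 : 2 ≤ l := (le_max_left _ _).trans hl
  have hlC : 4352 * C ^ 2 ≤ l := (le_max_right _ _).trans hl
  have hl0 : 0 < l := by linarith
  set Q := ⌊l ^ g⌋₊ with hQ
  have hX2 : 2 ≤ 32 * Y := by omega
  have hS1 := hS (32 * Y) hX2 ((Icc 1 Q).filter Squarefree)
    (by
      intro q hq
      rw [mem_filter, mem_Icc] at hq
      refine ⟨hq.2, ?_⟩
      have h1 : (q : ℝ) ≤ (Q : ℝ) := by exact_mod_cast hq.1.2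
      exact h1.trans (Nat.floor_le (by positivity)))
    (by
      intro q hq hq1
      rw [mem_filter, mem_Icc]
      refine ⟨⟨?_, ?_⟩, hq⟩
      · rcases Nat.eq_zero_or_pos q with h | h
        · rw [h] at hq
          exact absurd hq (by simp)
        · exact h
      · rw [hQ]
        apply Nat.le_floor
        refine hq1.trans ?_
        exact pow_le_pow_right₀ (by linarith) (by omega))
  -- the sums
  have hT : ∀ y : ℕ, ‖∑ n ∈ Ioc 0 y, ((((Fx (32 * Y) P R true n : ℝ) : ℂ) - ((Mx (32 * Y) P R Q true n : ℝ) : ℂ)) *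
      Pool.Agent.Lib.GT.e (n * α))‖ ≤ 1 / l * (C * (32 * Y : ℕ) / l ^ (A + 2)) := by
    intro y
    rw [TPri_sum (32 * Y) Q P R ((Icc 1 Q).filter Squarefree) rfl α y, norm_mul]
    have h1 : ‖((1 / Real.log ((32 * Y : ℕ) : ℝ) : ℝ) : ℂ)‖ = 1 / l := by
      rw [Complex.norm_real, Real.norm_of_nonneg (by positivity)]
    rw [h1]
    exact mul_le_mul_of_nonneg_left (hS1 (min y (32 * Y)) (min_le_right _ _) α) (by positivity)
  have hW : ∀ y : ℕ, ‖Pool.Agent.Lib.G3.WW (fun n => ((Fx (32 * Y) P R true n : ℝ) : ℂ) -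
      ((Mx (32 * Y) P R Q true n : ℝ) : ℂ)) Y α y‖ ≤ 2 * (1 / l * (C * (32 * Y : ℕ) / l ^ (A + 2))) := by
    intro y
    have h1 := sum_Ioc_consecutive (fun n : ℕ => ((((Fx (32 * Y) P R true n : ℝ) : ℂ) -
      ((Mx (32 * Y) P R Q true n : ℝ) : ℂ)) * Pool.Agent.Lib.GT.e (n * α))) (Nat.zero_le (y - Y)) (Nat.sub_le y Y)
    have h2 : Pool.Agent.Lib.G3.WW (fun n => ((Fx (32 * Y) P R true n : ℝ) : ℂ) -
      ((Mx (32 * Y) P R Q true n : ℝ) : ℂ)) Y α y =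
        (∑ n ∈ Ioc 0 y, ((((Fx (32 * Y) P R true n : ℝ) : ℂ) - ((Mx (32 * Y) P R Q true n : ℝ) : ℂ)) *
          Pool.Agent.Lib.GT.e (n * α))) -
        ∑ n ∈ Ioc 0 (y - Y), ((((Fx (32 * Y) P R true n : ℝ) : ℂ) - ((Mx (32 * Y) P R Q true n : ℝ) : ℂ)) *
          Pool.Agent.Lib.GT.e (n * α)) := by
      rw [Pool.Agent.Lib.G3.WW, ← h1]
      ring
    rw [h2]
    refine (norm_sub_le _ _).trans ?_
    linarith [hT y, hT (y - Y)]
  have hB0 : 0 ≤ 2 * (1 / l * (C * (32 * Y : ℕ) / l ^ (A + 2))) := by positivity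
  have hV : VV (fun n => ((Fx (32 * Y) P R true n : ℝ) : ℂ) - ((Mx (32 * Y) P R Q true n : ℝ) : ℂ)) Y α (32 * Y + Y + 1) ≤
      (32 * Y + Y + 1 : ℕ) * (2 * (1 / l * (C * (32 * Y : ℕ) / l ^ (A + 2)))) ^ 2 := by
    rw [VV]
    refine (sum_le_sum fun y _ => pow_le_pow_left₀ (norm_nonneg _) (hW y) 2).trans ?_
    rw [sum_const, card_range, nsmul_eq_mul]
  refine hV.trans ?_
  have hY1' : (1 : ℝ) ≤ Y := by exact_mod_cast hY1
  have h34 : ((32 * Y + Y + 1 : ℕ) : ℝ) ≤ 34 * Y := by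
    push_cast
    linarith
  have hp : l ≤ l ^ (A + 6) := by
    calc l = l ^ 1 := (pow_one l).symm
      _ ≤ l ^ (A + 6) := pow_le_pow_right₀ (by linarith) (by omega)
  have hk : 34 * (2 * (1 / l * (C * 32 / l ^ (A + 2)))) ^ 2 ≤ 1 / l ^ A * 32 := by
    have h1 : 34 * (2 * (1 / l * (C * 32 / l ^ (A + 2)))) ^ 2 = (139264 * C ^ 2) / (l ^ A * l ^ (A + 6)) := by
      have : l ^ A * l ^ (A + 6) = (l * l ^ (A + 2)) ^ 2 := by ring
      rw [this]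
      field_simp
      ring
    rw [h1, div_le_iff₀ (by positivity)]
    have h2 : 1 / l ^ A * 32 * (l ^ A * l ^ (A + 6)) = 32 * l ^ (A + 6) := by
      field_simp
    rw [h2]
    nlinarith
  calc ((32 * Y + Y + 1 : ℕ) : ℝ) * (2 * (1 / l * (C * (32 * Y : ℕ) / l ^ (A + 2)))) ^ 2
      ≤ (34 * Y) * (2 * (1 / l * (C * (32 * Y : ℕ) / l ^ (A + 2)))) ^ 2 :=
        mul_le_mul_of_nonneg_right h34 (by positivity)
    _ = (34 * (2 * (1 / l * (C * 32 / l ^ (A + 2)))) ^ 2) * (Y : ℝ) ^ 3 := by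
        push_cast
        ring
    _ ≤ (1 / l ^ A * 32) * (Y : ℝ) ^ 3 := mul_le_mul_of_nonneg_right hk (by positivity)
    _ = 1 / l ^ A * (32 * Y : ℕ) * (Y : ℝ) ^ 2 := by
        push_cast
        ring

end Pool.Agent.Lib.VKT
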