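import Pool.Agent.Lib.VK.TLs
import Pool.Agent.Lib.VK.TBox

/-!
# VK / TSer (P4): truncated and complete singular series agree for almost all tuples

PROOF. Telescoping as in TCh: `∏ lamW(n+h_i) - ∏ ram(n+h_i) = ∑_k (∏_{i<k} ram(n+h_i)) (lamW - ram)(n+h_k) (∏_{i>k} lamW(n+h_i))`;
for fixed `k` and fixed `h_i`, `i ≠ k`, `lsW` with `G n = lamW Q n ∏_{i<k} ram Q (n+h_i) ∏_{i>k} lamW Q (n+h_i)`;
`G n² ≤ Uq(n)² ∏_{i≠k} Uq(n+h_i)² ≤ Uq(n)^(2m) + ∑_{i≠k} Uq(n+h_i)^(2m)` (`m` factors `x_i ≥ 0`: `∏ x_i ≤ (max x_i)^m ≤ ∑ x_i^m`),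
the average is `≤ m C (log Q)^D` by `avg_shift`, `Uq_per`, `mom (2m)`. `box_le` with `E = C (log Q)^D' H_k/Q`. Cauchy over `k`: factor
`m`, and the sum over `k` another factor `m`. (`avg` is linear: unfold it.)
-/

set_option autoImplicit false

open Finset

namespace Pool.Agent.Lib.VKT

/-- the first `k` factors are replaced -/
private noncomputable def tserF {m : ℕ} (Q k : ℕ) (h : Fin m → ℕ) (n : ℕ) (i : Fin m) : ℝ :=
  if (i : ℕ) < k then ram Q (n + h i) else lamW Q (n + h i)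

private noncomputable def tserG {m : ℕ} (Q : ℕ) (k : Fin m) (h : Fin m → ℕ) (n : ℕ) : ℝ :=
  lamW Q n * ∏ i ∈ univ.erase k, tserF Q k h n i

private theorem tser_abs {m : ℕ} (Q k : ℕ) (h : Fin m → ℕ) (n : ℕ) (i : Fin m) :
    |tserF Q k h n i| ≤ Uq Q (n + h i) := by
  unfold tserF
  split_ifs
  · exact ram_le Q _
  · have h1 := lam_le Q (n + h i)
    rw [abs_of_nonneg h1.1]
    exact h1.2

private theorem tser_tele {m : ℕ} (Q : ℕ) (k : Fin m) (h : Fin m → ℕ) (n : ℕ) :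
    lamW Q n * ∏ i, tserF Q k h n i - lamW Q n * ∏ i, tserF Q (k + 1) h n i =
      tserG Q k h n * (lamW Q (n + h k) - ram Q (n + h k)) := by
  unfold tserG
  rw [← mul_prod_erase univ (fun i => tserF Q k h n i) (mem_univ k),
    ← mul_prod_erase univ (fun i => tserF Q (k + 1) h n i) (mem_univ k)]
  have e1 : ∏ i ∈ univ.erase k, tserF Q (k + 1) h n i = ∏ i ∈ univ.erase k, tserF Q k h n i := by
    refine prod_congr rfl (fun i hi => ?_)
    have hik : (i : ℕ) ≠ (k : ℕ) := fun e => (mem_erase.1 hi).1 (Fin.ext e)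
    unfold tserF
    have : (i : ℕ) < (k : ℕ) + 1 ↔ (i : ℕ) < (k : ℕ) := by omega
    simp only [this]
  have e2 : tserF Q k h n k = lamW Q (n + h k) := by
    unfold tserF
    rw [if_neg (lt_irrefl _)]
  have e3 : tserF Q (k + 1) h n k = ram Q (n + h k) := by
    unfold tserF
    rw [if_pos (Nat.lt_succ_self _)]
  rw [e1, e2, e3]
  ring

private theorem tser_avg_sub (Q : ℕ) (f g : ℕ → ℝ) :
    avg Q f - avg Q g = avg Q (fun n => f n - g n) := by
  unfold avg
  rw [← sub_div, sum_sub_distrib]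

private theorem tser_avg_mono (Q : ℕ) (f g : ℕ → ℝ) (h : ∀ n, f n ≤ g n) : avg Q f ≤ avg Q g := by
  unfold avg
  exact div_le_div_of_nonneg_right (sum_le_sum fun n _ => h n) (Nat.cast_nonneg _)

private theorem tser_avg_sum {m : ℕ} (Q : ℕ) (f : Fin m → ℕ → ℝ) :
    avg Q (fun n => ∑ i, f i n) = ∑ i, avg Q (f i) := by
  unfold avg
  rw [sum_comm, sum_div]

private theorem tser_split {m : ℕ} (Q : ℕ) (h : Fin m → ℕ) :
    sgF Q h - sgT Q h = ∑ k : Fin m, avg Q (fun n => tserG Q k h n * (lamW Q (n + h k) - ram Q (n + h k))) := by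
  have h1 := sum_range_sub' (fun k : ℕ => avg Q (fun n => lamW Q n * ∏ i, tserF Q k h n i)) m
  have e0 : avg Q (fun n => lamW Q n * ∏ i, tserF Q 0 h n i) = sgF Q h := by
    unfold sgF
    congr 1
  have em : avg Q (fun n => lamW Q n * ∏ i, tserF Q m h n i) = sgT Q h := by
    unfold sgT
    congr 1
    funext n
    congr 1
    refine prod_congr rfl (fun i _ => ?_)
    unfold tserF
    rw [if_pos i.2]
  rw [e0, em] at h1
  rw [← h1, ← Fin.sum_univ_eq_sum_range (fun k : ℕ => avg Q (fun n => lamW Q n * ∏ i, tserF Q k h n i) -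
    avg Q (fun n => lamW Q n * ∏ i, tserF Q (k + 1) h n i)) m]
  refine sum_congr rfl (fun k _ => ?_)
  rw [tser_avg_sub]
  congr 1
  funext n
  exact tser_tele Q k h n

private theorem tser_prod_le {m : ℕ} (k : Fin m) (x : Fin m → ℝ) (hx : ∀ i, 0 ≤ x i) :
    ∏ i, x i ≤ ∑ i, x i ^ m := by
  obtain ⟨j, _, hj⟩ := exists_max_image univ x ⟨k, mem_univ k⟩
  have h1 : ∏ i, x i ≤ ∏ _i : Fin m, x j := prod_le_prod (fun i _ => hx i) (fun i _ => hj i (mem_univ i))
  rw [prod_const, card_univ, Fintype.card_fin] at h1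
  exact h1.trans (single_le_sum (f := fun i => x i ^ m) (fun i _ => pow_nonneg (hx i) m) (mem_univ j))

private theorem tser_Gsq {m : ℕ} (Q : ℕ) (k : Fin m) (h : Fin m → ℕ) (n : ℕ) :
    tserG Q k h n ^ 2 ≤ ∑ i, Uq Q (n + Function.update h k 0 i) ^ (2 * m) := by
  have hU : ∀ n, 0 ≤ Uq Q n := fun n => (lam_le Q n).1.trans (lam_le Q n).2
  have h1 : |tserG Q k h n| ≤ ∏ i, Uq Q (n + Function.update h k 0 i) := by
    unfold tserG
    rw [abs_mul, abs_prod, ← mul_prod_erase univ (fun i => Uq Q (n + Function.update h k 0 i)) (mem_univ k)]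
    refine mul_le_mul ?_ ?_ (prod_nonneg fun i _ => abs_nonneg _) (hU _)
    · rw [Function.update_self, add_zero, abs_of_nonneg (lam_le Q n).1]
      exact (lam_le Q n).2
    · refine prod_le_prod (fun i _ => abs_nonneg _) (fun i hi => ?_)
      rw [Function.update_of_ne (mem_erase.1 hi).1]
      exact tser_abs Q k h n i
  have h2 : tserG Q k h n ^ 2 ≤ (∏ i, Uq Q (n + Function.update h k 0 i)) ^ 2 := by
    rw [← sq_abs]
    exact pow_le_pow_left₀ (abs_nonneg _) h1 2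
  rw [← prod_pow] at h2
  refine h2.trans ((tser_prod_le k _ (fun i => sq_nonneg _)).trans (le_of_eq ?_))
  refine sum_congr rfl (fun i _ => ?_)
  rw [← pow_mul]

theorem ser (m : ℕ) : ∃ (C : ℝ) (D : ℕ), 0 < C ∧ ∀ (Q : ℕ) (b H : Fin m → ℕ), 2 ≤ Q → (∀ i, Q ^ 3 ≤ H i) →
    ∑ h ∈ box b H, (sgT Q h - sgF Q h) ^ 2 ≤ C * (Real.log Q) ^ D * (∏ i, (H i : ℝ)) / Q := by
  obtain ⟨C1, hC1, h1⟩ := lsW
  obtain ⟨C2, D2, hC2, h2⟩ := mom (2 * m)
  refine ⟨(m : ℝ) ^ 3 * C1 * C2 + 1, 2 + D2, by positivity, fun Q b H hQ hH => ?_⟩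
  have hlog : 0 ≤ Real.log Q := Real.log_natCast_nonneg Q
  have hQ0 : (0 : ℝ) < Q := by
    have : 0 < Q := by omega
    exact_mod_cast this
  have hHpos : ∀ i, 1 ≤ H i := fun i => (Nat.one_le_pow 3 Q (by omega)).trans (hH i)
  have hprod : 0 ≤ ∏ i, (H i : ℝ) := prod_nonneg fun i _ => Nat.cast_nonneg _
  -- the average of the squares
  have hG : ∀ (k : Fin m) (h : Fin m → ℕ), avg Q (fun n => tserG Q k h n ^ 2) ≤
      m * (C2 * (Real.log Q) ^ D2) := by
    intro k h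
    refine (tser_avg_mono Q _ _ (fun n => tser_Gsq Q k h n)).trans ?_
    rw [tser_avg_sum Q (fun i n => Uq Q (n + Function.update h k 0 i) ^ (2 * m))]
    have h3 : ∀ i : Fin m, avg Q (fun n => Uq Q (n + Function.update h k 0 i) ^ (2 * m)) ≤
        C2 * (Real.log Q) ^ D2 := by
      intro i
      rw [avg_shift Q (fun n => Uq Q n ^ (2 * m)) (fun n => by rw [Uq_per])]
      exact h2 Q hQ
    refine (sum_le_sum fun i _ => h3 i).trans (le_of_eq ?_)
    rw [sum_const, card_univ, Fintype.card_fin, nsmul_eq_mul]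
  -- one coordinate
  have hk : ∀ k : Fin m, ∑ h ∈ box b H,
      (avg Q (fun n => tserG Q k h n * (lamW Q (n + h k) - ram Q (n + h k)))) ^ 2 ≤
        (∏ i, (H i : ℝ)) / H k * (C1 * (Real.log Q) ^ 2 * (H k / Q) * (m * (C2 * (Real.log Q) ^ D2))) := by
    intro k
    refine box_le b H k (hHpos k)
      (fun h => (avg Q (fun n => tserG Q k h n * (lamW Q (n + h k) - ram Q (n + h k)))) ^ 2) (fun h _ => ?_)
    have e1 : ∀ x, (avg Q (fun n => tserG Q k (Function.update h k x) n *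
        (lamW Q (n + Function.update h k x k) - ram Q (n + Function.update h k x k)))) ^ 2 =
        (avg Q (fun n => tserG Q k h n * (lamW Q (n + x) - ram Q (n + x)))) ^ 2 := by
      intro x
      congr 2
      funext n
      rw [Function.update_self]
      congr 1
      unfold tserG
      congr 1
      refine prod_congr rfl (fun i hi => ?_)
      unfold tserF
      rw [Function.update_of_ne (mem_erase.1 hi).1]
    simp only [e1]
    refine (h1 Q (H k) (b k) (tserG Q k h) hQ (hH k)).trans ?_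
    refine mul_le_mul_of_nonneg_left (hG k h) ?_
    positivity
  have hsum : ∑ h ∈ box b H, (sgT Q h - sgF Q h) ^ 2 ≤
      ∑ h ∈ box b H, (m : ℝ) * ∑ k : Fin m,
        (avg Q (fun n => tserG Q k h n * (lamW Q (n + h k) - ram Q (n + h k)))) ^ 2 := by
    refine sum_le_sum (fun h _ => ?_)
    have e2 : (sgT Q h - sgF Q h) ^ 2 = (sgF Q h - sgT Q h) ^ 2 := by ring
    rw [e2, tser_split]
    have h4 := sq_sum_le_card_mul_sum_sq (s := (univ : Finset (Fin m)))
      (f := fun k => avg Q (fun n => tserG Q k h n * (lamW Q (n + h k) - ram Q (n + h k))))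
    rw [card_univ, Fintype.card_fin] at h4
    exact h4
  refine hsum.trans ?_
  rw [← mul_sum, sum_comm]
  have h5 : ∀ k : Fin m, (∏ i, (H i : ℝ)) / H k *
      (C1 * (Real.log Q) ^ 2 * (H k / Q) * (m * (C2 * (Real.log Q) ^ D2))) =
      (m : ℝ) * C1 * C2 * (Real.log Q) ^ (2 + D2) * (∏ i, (H i : ℝ)) / Q := by
    intro k
    have hk0 : (H k : ℝ) ≠ 0 := by
      have := hHpos k
      have h6 : 0 < H k := by omega
      exact_mod_cast h6.ne'
    rw [pow_add]
    field_simp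
  have h6 : ∑ k : Fin m, ∑ h ∈ box b H,
      (avg Q (fun n => tserG Q k h n * (lamW Q (n + h k) - ram Q (n + h k)))) ^ 2 ≤
        m * ((m : ℝ) * C1 * C2 * (Real.log Q) ^ (2 + D2) * (∏ i, (H i : ℝ)) / Q) := by
    refine (sum_le_sum fun k _ => (hk k).trans (le_of_eq (h5 k))).trans (le_of_eq ?_)
    rw [sum_const, card_univ, Fintype.card_fin, nsmul_eq_mul]
  refine (mul_le_mul_of_nonneg_left h6 (Nat.cast_nonneg m)).trans ?_
  have h7 : 0 ≤ (Real.log Q) ^ (2 + D2) * (∏ i, (H i : ℝ)) / Q := by positivity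
  have h8 : (m : ℝ) * (m * ((m : ℝ) * C1 * C2 * (Real.log Q) ^ (2 + D2) * (∏ i, (H i : ℝ)) / Q)) =
      (m : ℝ) ^ 3 * C1 * C2 * ((Real.log Q) ^ (2 + D2) * (∏ i, (H i : ℝ)) / Q) := by ring
  have h9 : ((m : ℝ) ^ 3 * C1 * C2 + 1) * (Real.log Q) ^ (2 + D2) * (∏ i, (H i : ℝ)) / Q =
      (m : ℝ) ^ 3 * C1 * C2 * ((Real.log Q) ^ (2 + D2) * (∏ i, (H i : ℝ)) / Q) +
        (Real.log Q) ^ (2 + D2) * (∏ i, (H i : ℝ)) / Q := by ring
  rw [h8, h9]
  linarith

end Pool.Agent.Lib.VKT
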