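import Pool.Agent.Lib.VK.TCrt

/-!
# VK / TSwB (P4): the complete series against a periodic function of period dividing the primorial

PROOF. `W = primorial Q = ℓ W'`, squarefree, so `(ℓ, W') = 1`. `lamW Q n = (ℓ/φ(ℓ)) 1[(n,ℓ)=1] · (W'/φ(W')) 1[(n,W')=1]`
(`Nat.totient_mul`, `Nat.Coprime.mul_right`). `crt_two` with `f n = (ℓ/φ(ℓ)) 1[(n,ℓ)=1] g n` (period `ℓ`) and
`g' n = (W'/φ(W')) 1[(n,W')=1]` (period `W'`): the sum over `n < W` is `(ℓ/φ(ℓ)) ∑_{c<ℓ,(c,ℓ)=1} g c · (W'/φ(W')) φ(W')`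
(`Nat.totient_eq_card_coprime`); divide by `W = ℓ W'`.
-/

set_option autoImplicit false

open Finset

namespace Pool.Agent.Lib.VKT

theorem swB {Q ℓ : ℕ} (hℓ : ℓ ∣ primorial Q) (g : ℕ → ℝ) (hg : ∀ n, g (n + ℓ) = g n) :
    avg Q (fun n => lamW Q n * g n) = 1 / (ℓ.totient : ℝ) * ∑ c ∈ (range ℓ).filter (fun c => c.Coprime ℓ), g c := by
  obtain ⟨W', hW⟩ := hℓ
  have hW0 : 0 < primorial Q := primorial_pos Q
  have hsq : Squarefree (ℓ * W') := by
    rw [← hW]
    exact squarefree_primorial Q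
  have hcop : Nat.Coprime ℓ W' := (Nat.squarefree_mul_iff.1 hsq).1
  have hℓ0 : 0 < ℓ := Nat.pos_of_ne_zero (by rintro rfl; rw [zero_mul] at hW; omega)
  have hW'0 : 0 < W' := Nat.pos_of_ne_zero (by rintro rfl; rw [mul_zero] at hW; omega)
  have hper : ∀ m n : ℕ, (n + m).Coprime m ↔ n.Coprime m := fun m n => Nat.coprime_add_self_left
  have h1 : ∀ n, lamW Q n * g n = (primorial Q : ℝ) / ((primorial Q).totient : ℝ) *
      (((if n.Coprime ℓ then 1 else 0) * g n) * (if n.Coprime W' then 1 else 0)) := by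
    intro n
    unfold lamW
    have hiff : n.Coprime (primorial Q) ↔ (n.Coprime ℓ ∧ n.Coprime W') := by
      rw [hW, Nat.coprime_mul_iff_right]
    by_cases ha : n.Coprime ℓ
    · by_cases hb : n.Coprime W'
      · rw [if_pos (hiff.2 ⟨ha, hb⟩), if_pos ha, if_pos hb]
        ring
      · rw [if_neg (fun h => hb (hiff.1 h).2), if_neg hb]
        ring
    · rw [if_neg (fun h => ha (hiff.1 h).1), if_neg ha]
      ring
  have h2 := crt_two hcop hℓ0 hW'0 (fun n => (if n.Coprime ℓ then (1 : ℝ) else 0) * g n)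
    (fun n => if n.Coprime W' then (1 : ℝ) else 0)
    (fun n => by simp only [hper, hg]) (fun n => by simp only [hper])
  have h3 : ∑ n ∈ range W', (if n.Coprime W' then (1 : ℝ) else 0) = (W'.totient : ℝ) := by
    rw [Finset.sum_boole, Nat.totient_eq_card_coprime]
    congr 2
    ext n
    rw [Finset.mem_filter, Finset.mem_filter, Nat.coprime_comm]
  have h4 : ∑ n ∈ range ℓ, ((if n.Coprime ℓ then (1 : ℝ) else 0) * g n) =
      ∑ c ∈ (range ℓ).filter (fun c => c.Coprime ℓ), g c := by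
    rw [Finset.sum_filter]
    refine Finset.sum_congr rfl fun n _ => ?_
    rw [ite_mul, one_mul, zero_mul]
  have h5 : ((primorial Q).totient : ℝ) = (ℓ.totient : ℝ) * (W'.totient : ℝ) := by
    rw [hW, Nat.totient_mul hcop]
    push_cast
    rfl
  have h6 : (0 : ℝ) < (ℓ.totient : ℝ) := by exact_mod_cast Nat.totient_pos.2 hℓ0
  have h7 : (0 : ℝ) < (W'.totient : ℝ) := by exact_mod_cast Nat.totient_pos.2 hW'0
  have h8 : (0 : ℝ) < (primorial Q : ℝ) := by exact_mod_cast hW0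
  unfold avg
  simp only [h1]
  rw [← Finset.mul_sum]
  have h9 : ∑ n ∈ range (primorial Q), (((if n.Coprime ℓ then (1 : ℝ) else 0) * g n) *
      (if n.Coprime W' then 1 else 0)) =
      (∑ c ∈ (range ℓ).filter (fun c => c.Coprime ℓ), g c) * (W'.totient : ℝ) := by
    rw [← h4, ← h3, ← h2, ← hW]
  rw [h9, h5]
  field_simp

end Pool.Agent.Lib.VKT
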