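import Pool.Agent.Lib.VK.TSwA
import Pool.Agent.Lib.VK.TSwB

/-!
# VK / TSw (P4): the main term by Siegel-Walfisz

PROOF. `∏_i ram Q (n+h_i) = ∑_{q ∈ S^m} ∏_i gq (q_i) (n+h_i)`, `S = (Icc 1 Q).filter Squarefree` (`Finset.prod_univ_sum` over
`Fintype.piFinset`). For each `q` the function `g n = ∏_i gq (q_i) (n+h_i)` has `|g| ≤ 1` (`SW.abs_gq_le`) and period
`ℓ = lcm of the q_i` (`Finset.univ.lcm q`; `SW.gq_periodic`), `ℓ` divides the primorial of `Q` (every squarefree `q_i ≤ Q` does) and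
`ℓ ≤ ∏ q_i ≤ Q^m ≤ (log Y)^(gm+1)` (`Q ≤ 2 (log Y)^g`). By `swA` (exponent `K + gm + 2`, `G = gm + m + 1`) and `swB` both sides agree
up to `Y/(log Y)^(K+gm+m+2)` for every `q`, and there are at most `Q^m ≤ 2^m (log Y)^(gm)` tuples `q`.
-/

set_option autoImplicit false

open Finset

namespace Pool.Agent.Lib.VKT

open Pool.Agent.Lib.G3 (lp)

open Pool.Agent.Lib.SW (gq LQ gq_periodic abs_gq_le rm_prod)

private theorem tsw_dvd {Q q : ℕ} (hq : q ∈ (Icc 1 Q).filter Squarefree) : q ∣ primorial Q := by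
  rw [mem_filter, mem_Icc] at hq
  obtain ⟨⟨h1, h2⟩, h3⟩ := hq
  rw [← rm_prod q h3]
  unfold primorial
  apply Finset.prod_dvd_prod_of_subset
  intro p hp
  rw [mem_filter, mem_range]
  have hpp := Nat.prime_of_mem_primeFactors hp
  have hle := Nat.le_of_dvd (by omega) (Nat.dvd_of_mem_primeFactors hp)
  exact ⟨by omega, hpp⟩

private theorem tsw_avg_sum {ι : Type} (Q : ℕ) (T : Finset ι) (f : ι → ℕ → ℝ) :
    avg Q (fun n => ∑ q ∈ T, f q n) = ∑ q ∈ T, avg Q (f q) := by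
  unfold avg
  rw [Finset.sum_comm, Finset.sum_div]

private theorem tsw_term (m K G : ℕ) {Y Q : ℕ} (h : Fin m → ℕ) (q : Fin m → ℕ)
    (hq : ∀ i, q i ∈ (Icc 1 Q).filter Squarefree)
    (hQ : ((Q : ℝ)) ^ m ≤ (Real.log Y) ^ G)
    (hsw : ∀ ℓ : ℕ, 1 ≤ ℓ → (ℓ : ℝ) ≤ (Real.log Y) ^ G → ∀ g : ℕ → ℝ,
    (∀ n, g (n + ℓ) = g n) → (∀ n, |g n| ≤ 1) →
      |∑ n ∈ Ioc Y (2 * Y), lp n * g n - Y / (ℓ.totient : ℝ) *
        ∑ c ∈ (range ℓ).filter (fun c => c.Coprime ℓ), g c| ≤ Y / (Real.log Y) ^ K) :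
    |∑ n ∈ Ioc Y (2 * Y), lp n * ∏ i, gq (q i) ((n + h i : ℕ) : ℤ) -
      Y * avg Q (fun n => lamW Q n * ∏ i, gq (q i) ((n + h i : ℕ) : ℤ))| ≤
        Y / (Real.log Y) ^ K := by
  have hq1 : ∀ i, 1 ≤ q i := fun i => (mem_Icc.1 (mem_filter.1 (hq i)).1).1
  have hqQ : ∀ i, q i ≤ Q := fun i => (mem_Icc.1 (mem_filter.1 (hq i)).1).2
  set ℓ : ℕ := Finset.univ.lcm q with hℓdef
  have hprodpos : 0 < ∏ i, q i := Finset.prod_pos (fun i _ => hq1 i)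
  have hℓdvd : ℓ ∣ ∏ i, q i :=
    Finset.lcm_dvd (fun i _ => Finset.dvd_prod_of_mem q (mem_univ i))
  have hℓ1 : 1 ≤ ℓ := Nat.pos_of_dvd_of_pos hℓdvd hprodpos
  have hℓle : ℓ ≤ Q ^ m := by
    refine (Nat.le_of_dvd hprodpos hℓdvd).trans ?_
    calc ∏ i, q i ≤ ∏ _i : Fin m, Q := Finset.prod_le_prod' (fun i _ => hqQ i)
      _ = Q ^ m := by simp
  have hℓprim : ℓ ∣ primorial Q := Finset.lcm_dvd (fun i _ => tsw_dvd (hq i))
  have hℓlog : (ℓ : ℝ) ≤ (Real.log Y) ^ G := by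
    refine le_trans ?_ hQ
    exact_mod_cast hℓle
  have hper : ∀ n : ℕ, (∏ i, gq (q i) ((n + ℓ + h i : ℕ) : ℤ)) =
      ∏ i, gq (q i) ((n + h i : ℕ) : ℤ) := by
    intro n
    refine Finset.prod_congr rfl (fun i _ => ?_)
    obtain ⟨t, ht⟩ : q i ∣ ℓ := Finset.dvd_lcm (mem_univ i)
    have e1 : ((n + ℓ + h i : ℕ) : ℤ) = ((n + h i : ℕ) : ℤ) + (q i : ℤ) * (t : ℤ) := by
      rw [ht]
      push_cast
      ring
    rw [e1, gq_periodic]
  have habs : ∀ n : ℕ, |∏ i, gq (q i) ((n + h i : ℕ) : ℤ)| ≤ 1 := by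
    intro n
    rw [Finset.abs_prod]
    exact Finset.prod_le_one (fun _ _ => abs_nonneg _) (fun i _ => abs_gq_le _ _)
  have key := hsw ℓ hℓ1 hℓlog (fun n => ∏ i, gq (q i) ((n + h i : ℕ) : ℤ)) hper habs
  have keyB := swB hℓprim (fun n => ∏ i, gq (q i) ((n + h i : ℕ) : ℤ)) hper
  rw [keyB]
  have e2 : (Y : ℝ) * (1 / (ℓ.totient : ℝ) * ∑ c ∈ (range ℓ).filter (fun c => c.Coprime ℓ),
      ∏ i, gq (q i) ((c + h i : ℕ) : ℤ)) = Y / (ℓ.totient : ℝ) *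
      ∑ c ∈ (range ℓ).filter (fun c => c.Coprime ℓ), ∏ i, gq (q i) ((c + h i : ℕ) : ℤ) := by
    ring
  rw [e2]
  exact key

theorem swT (m K g : ℕ) : ∃ x0 : ℝ, ∀ Y : ℕ, x0 ≤ Y → ∀ Q : ℕ, 1 ≤ Q → (Q : ℝ) ≤ 2 * (Real.log Y) ^ g → ∀ h : Fin m → ℕ,
    |∑ n ∈ Ioc Y (2 * Y), lp n * ∏ i, ram Q (n + h i) - Y * sgT Q h| ≤ Y / (Real.log Y) ^ K := by
  obtain ⟨x1, hx1⟩ := swA (K + g * m + 1) (g * m + 1)
  refine ⟨max x1 (Real.exp (2 ^ m)), ?_⟩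
  intro Y hY Q hQ1 hQ h
  have hY1 : x1 ≤ Y := (le_max_left _ _).trans hY
  have hY2 : Real.exp (2 ^ m) ≤ Y := (le_max_right _ _).trans hY
  have hYpos : (0 : ℝ) < Y := (Real.exp_pos _).trans_le hY2
  have hlog : (2 : ℝ) ^ m ≤ Real.log Y := by
    rw [Real.le_log_iff_exp_le hYpos]
    exact hY2
  have hlog1 : (1 : ℝ) ≤ Real.log Y := (one_le_pow₀ (by norm_num : (1 : ℝ) ≤ 2)).trans hlog
  have hlogpos : (0 : ℝ) < Real.log Y := lt_of_lt_of_le one_pos hlog1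
  have hQm : (Q : ℝ) ^ m ≤ (2 : ℝ) ^ m * (Real.log Y) ^ (g * m) := by
    calc (Q : ℝ) ^ m ≤ (2 * (Real.log Y) ^ g) ^ m := pow_le_pow_left₀ (Nat.cast_nonneg _) hQ m
      _ = (2 : ℝ) ^ m * (Real.log Y) ^ (g * m) := by rw [mul_pow, ← pow_mul]
  have hQm2 : (Q : ℝ) ^ m ≤ (Real.log Y) ^ (g * m + 1) := by
    refine hQm.trans ?_
    rw [pow_succ, mul_comm]
    exact mul_le_mul_of_nonneg_left hlog (pow_nonneg hlogpos.le _)
  set S : Finset ℕ := (Icc 1 Q).filter Squarefree with hS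
  set T : Finset (Fin m → ℕ) := Fintype.piFinset (fun _ : Fin m => S) with hT
  have hexp : ∀ n : ℕ, ∏ i, ram Q (n + h i) =
      ∑ q ∈ T, ∏ i, gq (q i) ((n + h i : ℕ) : ℤ) := by
    intro n
    have e1 : ∀ i : Fin m, ram Q (n + h i) = ∑ q ∈ S, gq q ((n + h i : ℕ) : ℤ) := by
      intro i
      rfl
    rw [Finset.prod_congr rfl (fun i _ => e1 i), Finset.prod_univ_sum]
  have hL : ∑ n ∈ Ioc Y (2 * Y), lp n * ∏ i, ram Q (n + h i) =
      ∑ q ∈ T, ∑ n ∈ Ioc Y (2 * Y), lp n * ∏ i, gq (q i) ((n + h i : ℕ) : ℤ) := by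
    rw [Finset.sum_comm]
    refine Finset.sum_congr rfl (fun n _ => ?_)
    rw [hexp n, Finset.mul_sum]
  have hR : sgT Q h = ∑ q ∈ T,
      avg Q (fun n => lamW Q n * ∏ i, gq (q i) ((n + h i : ℕ) : ℤ)) := by
    unfold sgT
    rw [← tsw_avg_sum]
    congr 1
    funext n
    rw [hexp n, Finset.mul_sum]
  rw [hL, hR, Finset.mul_sum, ← Finset.sum_sub_distrib]
  refine (Finset.abs_sum_le_sum_abs _ _).trans ?_
  have hterm : ∀ q ∈ T, |∑ n ∈ Ioc Y (2 * Y), lp n * ∏ i, gq (q i) ((n + h i : ℕ) : ℤ) -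
      Y * avg Q (fun n => lamW Q n * ∏ i, gq (q i) ((n + h i : ℕ) : ℤ))| ≤
        Y / (Real.log Y) ^ (K + g * m + 1) := by
    intro q hq
    rw [hT, Fintype.mem_piFinset] at hq
    exact tsw_term m (K + g * m + 1) (g * m + 1) h q hq hQm2 (hx1 Y hY1)
  refine (Finset.sum_le_sum hterm).trans ?_
  rw [Finset.sum_const, nsmul_eq_mul]
  have hcard : ((#T : ℕ) : ℝ) ≤ (2 : ℝ) ^ m * (Real.log Y) ^ (g * m) := by
    refine le_trans ?_ hQm
    have h1 : #T = (#S) ^ m := by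
      rw [hT, Fintype.card_piFinset]
      simp
    have h2 : #S ≤ Q := by
      rw [hS]
      refine (Finset.card_filter_le _ _).trans ?_
      simp
    rw [h1]
    exact_mod_cast Nat.pow_le_pow_left h2 m
  have hpk : (0 : ℝ) < (Real.log Y) ^ K := pow_pos hlogpos K
  calc ((#T : ℕ) : ℝ) * (Y / (Real.log Y) ^ (K + g * m + 1))
      ≤ ((2 : ℝ) ^ m * (Real.log Y) ^ (g * m)) * (Y / (Real.log Y) ^ (K + g * m + 1)) := by
        apply mul_le_mul_of_nonneg_right hcard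
        positivity
    _ = (2 : ℝ) ^ m / Real.log Y * (Y / (Real.log Y) ^ K) := by
        rw [pow_add, pow_add, pow_one]
        have := hlogpos.ne'
        field_simp
    _ ≤ 1 * (Y / (Real.log Y) ^ K) := by
        apply mul_le_mul_of_nonneg_right _ (by positivity)
        rw [div_le_one hlogpos]
        exact hlog
    _ = Y / (Real.log Y) ^ K := one_mul _

end Pool.Agent.Lib.VKT
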