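import Pool.Agent.Lib.VK.TDef
import Pool.Agent.Lib.G3.Sing

/-!
# VK / TTail (P4): convergence of the singular series, with rate

PROOF. `f_p = (1 - ν(p)/p)/(1 - 1/p)^(m+1)`, `1 ≤ ν(p) ≤ m+1`, `ν(p) ≤ p`, so `0 ≤ f_p ≤ (1-1/p)^(-m) = (p/(p-1))^m` and
`0 ≤ part h z ≤ (∏_{p ≤ z} p/(p-1))^m ≤ (C log z)^m` (`G3.si_mer`). Let `Δ = ∏ h_i ∏_{i<j} |h_i - h_j|`, a natural number with
`1 ≤ Δ ≤ N^(m²)` (`h` injective, `1 ≤ h_i ≤ N`). If `p ∤ Δ` then `ν(p) = m+1` and for `p > m+1`: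
`f_p = (1-(m+1)/p)(1-1/p)^(-m-1) ∈ [1 - C_m/p², 1]` (Bernoulli: `(1-1/p)^(m+1) ≥ 1-(m+1)/p`; and
`(1-1/p)^(m+1) ≤ 1 - (m+1)/p + (m+1)²/p²`). If `p ∣ Δ`, `p > 2(m+1)`: `|f_p - 1| ≤ C_m/p`. The number of primes dividing `Δ` is
`≤ log Δ/log 2 ≤ 2 m² log N`. For `z < z'`: `part h z' = part h z ∏_{z<p≤z'} f_p` and
`∑_{z<p≤z'} |f_p - 1| ≤ C_m (1 + 2m² log N)/z =: s`; `s ≤ 1` when `C (1 + log N) ≤ z`, and `|∏ f_p - 1| ≤ exp s - 1 ≤ 2 s`
(`Finset.prod_le_exp_sum`-like, for a product of numbers `1 + x_p`: `|∏ (1+x_p) - 1| ≤ exp(∑|x_p|) - 1`,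
`Finset.norm_prod_one_add_sub_one_le`). So `part h` is Cauchy, hence converges, and the limit is `HL h`
(`tendsto_nhds_limUnder`); the bound passes to the limit.
-/

set_option autoImplicit false

open Finset Filter Topology

namespace Pool.Agent.Lib.VKT

private lemma ttl_nu1 {m : ℕ} (h : Fin m → ℕ) (p : ℕ) : 1 ≤ nu h p :=
  Finset.card_pos.2 (Finset.insert_nonempty _ _)

private lemma ttl_nu2 {m : ℕ} (h : Fin m → ℕ) (p : ℕ) : nu h p ≤ m + 1 := by
  refine (Finset.card_insert_le _ _).trans (Nat.succ_le_succ (Finset.card_image_le.trans ?_))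
  simp

private lemma ttl_nu3 {m : ℕ} (h : Fin m → ℕ) {p : ℕ} (hp : 0 < p) : nu h p ≤ p := by
  have h1 : insert 0 (univ.image fun i => h i % p) ⊆ range p := by
    intro x hx
    rw [Finset.mem_insert] at hx
    rcases hx with rfl | hx
    · exact Finset.mem_range.2 hp
    · obtain ⟨i, _, rfl⟩ := Finset.mem_image.1 hx
      exact Finset.mem_range.2 (Nat.mod_lt _ hp)
  have h2 := Finset.card_le_card h1
  rwa [Finset.card_range] at h2

private lemma ttl_nu4 {m : ℕ} (h : Fin m → ℕ) (p : ℕ) (hn : nu h p < m + 1) :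
    (∃ i, p ∣ h i) ∨ ∃ i j, i ≠ j ∧ h i % p = h j % p := by
  by_contra hc
  push Not at hc
  obtain ⟨h1, h2⟩ := hc
  have h3 : (0 : ℕ) ∉ univ.image fun i => h i % p := by
    intro hx
    obtain ⟨i, _, hi⟩ := Finset.mem_image.1 hx
    exact h1 i (Nat.dvd_of_mod_eq_zero hi)
  have h4 : (univ.image fun i => h i % p).card = m := by
    rw [Finset.card_image_of_injective]
    · simp
    · intro i j hij
      by_contra hne
      exact h2 i j hne hij
  have h5 : nu h p = m + 1 := by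
    unfold nu
    rw [Finset.card_insert_of_notMem h3, h4]
  omega

private lemma ttl_om {n N : ℕ} (hn : n ≠ 0) (h : n ≤ N) :
    (n.primeFactors.card : ℝ) ≤ 2 * Real.log N := by
  have h1 : 2 ^ n.primeFactors.card ≤ ∏ p ∈ n.primeFactors, p :=
    Finset.pow_card_le_prod _ _ _ fun p hp => (Nat.prime_of_mem_primeFactors hp).two_le
  have h2 : 2 ^ n.primeFactors.card ≤ N :=
    h1.trans ((Nat.le_of_dvd (Nat.pos_of_ne_zero hn) (Nat.prod_primeFactors_dvd n)).trans h)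
  have h3 : ((2 : ℝ)) ^ n.primeFactors.card ≤ N := by exact_mod_cast h2
  have h4 := Real.log_le_log (by positivity) h3
  rw [Real.log_pow] at h4
  have h5 : (1 : ℝ) / 2 ≤ Real.log 2 := by linarith [Real.log_two_gt_d9]
  have h6 : (0 : ℝ) ≤ n.primeFactors.card := Nat.cast_nonneg _
  nlinarith

private lemma ttl_cnt {m N : ℕ} (h : Fin m → ℕ) (hinj : Function.Injective h)
    (hh : ∀ i, 1 ≤ h i ∧ h i ≤ N) (S : Finset ℕ) (hS : ∀ p ∈ S, p.Prime ∧ nu h p < m + 1) :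
    (S.card : ℝ) ≤ ((m : ℝ) + m ^ 2) * (2 * Real.log N) := by
  have hsub : S ⊆ (univ.biUnion fun i => (h i).primeFactors) ∪
      ((univ : Finset (Fin m)).offDiag.biUnion
        fun x => (((h x.1 : ℤ) - h x.2).natAbs).primeFactors) := by
    intro p hp
    obtain ⟨hpp, hnu⟩ := hS p hp
    rw [Finset.mem_union]
    rcases ttl_nu4 h p hnu with ⟨i, hi⟩ | ⟨i, j, hij, he⟩
    · left
      refine Finset.mem_biUnion.2 ⟨i, Finset.mem_univ _, ?_⟩
      exact Nat.mem_primeFactors.2 ⟨hpp, hi, by have := (hh i).1; omega⟩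
    · right
      refine Finset.mem_biUnion.2 ⟨(i, j), by simpa using hij, ?_⟩
      refine Nat.mem_primeFactors.2 ⟨hpp, ?_, ?_⟩
      · have h1 : (p : ℤ) ∣ (h i : ℤ) - h j := Nat.modEq_iff_dvd.1 he.symm
        exact Int.natCast_dvd.1 h1
      · have h2 : h i ≠ h j := fun e => hij (hinj e)
        simp only [ne_eq, Int.natAbs_eq_zero]
        omega
  have h1 : (S.card : ℝ) ≤ ((univ.biUnion fun i => (h i).primeFactors).card : ℝ) +
      (((univ : Finset (Fin m)).offDiag.biUnion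
        fun x => (((h x.1 : ℤ) - h x.2).natAbs).primeFactors).card : ℝ) := by
    exact_mod_cast (Finset.card_le_card hsub).trans (Finset.card_union_le _ _)
  have hlog : 0 ≤ 2 * Real.log N := by
    have := Real.log_natCast_nonneg N
    linarith
  have h2 : ((univ.biUnion fun i => (h i).primeFactors).card : ℝ) ≤ (m : ℝ) * (2 * Real.log N) := by
    have h3 : ((univ.biUnion fun i => (h i).primeFactors).card : ℝ) ≤
        ∑ i : Fin m, ((h i).primeFactors.card : ℝ) := by exact_mod_cast Finset.card_biUnion_le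
    refine h3.trans ?_
    refine (Finset.sum_le_sum fun i _ => ttl_om (by have := (hh i).1; omega) (hh i).2).trans ?_
    rw [Finset.sum_const, Finset.card_univ, Fintype.card_fin, nsmul_eq_mul]
  have h3 : (((univ : Finset (Fin m)).offDiag.biUnion
        fun x => (((h x.1 : ℤ) - h x.2).natAbs).primeFactors).card : ℝ) ≤
      ((m : ℝ) ^ 2) * (2 * Real.log N) := by
    have h4 : (((univ : Finset (Fin m)).offDiag.biUnion
        fun x => (((h x.1 : ℤ) - h x.2).natAbs).primeFactors).card : ℝ) ≤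
        ∑ x ∈ (univ : Finset (Fin m)).offDiag,
          (((((h x.1 : ℤ) - h x.2).natAbs).primeFactors).card : ℝ) := by
      exact_mod_cast Finset.card_biUnion_le
    refine h4.trans ?_
    refine (Finset.sum_le_sum (g := fun _ => 2 * Real.log N) fun x hx => ?_).trans ?_
    · refine ttl_om ?_ ?_
      · have h5 : h x.1 ≠ h x.2 := fun e => (Finset.mem_offDiag.1 hx).2.2 (hinj e)
        simp only [ne_eq, Int.natAbs_eq_zero]
        omega
      · have h6 := hh x.1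
        have h7 := hh x.2
        omega
    · rw [Finset.sum_const, nsmul_eq_mul]
      refine mul_le_mul_of_nonneg_right ?_ hlog
      rw [Finset.offDiag_card, Finset.card_univ, Fintype.card_fin]
      have h8 : m * m - m ≤ m ^ 2 := by rw [pow_two]; omega
      exact_mod_cast h8
  linarith

/-- the factor -/
private noncomputable def ttl_f {m : ℕ} (h : Fin m → ℕ) (p : ℕ) : ℝ :=
  (1 - (nu h p : ℝ) / p) / (1 - 1 / (p : ℝ)) ^ (m + 1)

private lemma ttl_f0 {m : ℕ} (h : Fin m → ℕ) {p : ℕ} (hp : p.Prime) : 0 ≤ ttl_f h p := by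
  have hp2 : (2 : ℝ) ≤ p := by exact_mod_cast hp.two_le
  have h1 : (nu h p : ℝ) ≤ p := by exact_mod_cast ttl_nu3 h hp.pos
  have h2 : (nu h p : ℝ) / p ≤ 1 := by rw [div_le_one (by linarith)]; exact h1
  have h3 : 1 / (p : ℝ) ≤ 1 := by rw [div_le_one (by linarith)]; linarith
  exact div_nonneg (by linarith) (pow_nonneg (by linarith) _)

private lemma ttl_f1 {m : ℕ} (h : Fin m → ℕ) {p : ℕ} (hp : p.Prime) :
    ttl_f h p ≤ (1 + 1 / ((p : ℝ) - 1)) ^ m := by
  have hp2 : (2 : ℝ) ≤ p := by exact_mod_cast hp.two_le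
  have hp0 : (0 : ℝ) < p := by linarith
  have h1 : (1 : ℝ) ≤ nu h p := by exact_mod_cast ttl_nu1 h p
  have h2 : 1 / (p : ℝ) ≤ (nu h p : ℝ) / p := div_le_div_of_nonneg_right h1 hp0.le
  have h3 : 0 < 1 - 1 / (p : ℝ) := by
    have : 1 / (p : ℝ) ≤ 1 / 2 := one_div_le_one_div_of_le (by norm_num) hp2
    linarith
  have h4 : 1 + 1 / ((p : ℝ) - 1) = 1 / (1 - 1 / (p : ℝ)) := by
    have h5 : (p : ℝ) - 1 ≠ 0 := by linarith
    have h6 : (p : ℝ) ≠ 0 := hp0.ne'
    field_simp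
    ring
  rw [h4, one_div_pow, ttl_f, div_le_div_iff₀ (by positivity) (by positivity), one_mul, pow_succ, mul_comm]
  exact mul_le_mul_of_nonneg_left (by linarith) (by positivity)

private lemma ttl_pow (k : ℕ) {x : ℝ} (h0 : 0 ≤ x) (h1 : x ≤ 1) :
    (1 - x) ^ k ≤ 1 - k * x + (k : ℝ) ^ 2 * x ^ 2 := by
  induction k with
  | zero => simp
  | succ k ih =>
    have h2 : (1 - x) ^ (k + 1) ≤ (1 - k * x + (k : ℝ) ^ 2 * x ^ 2) * (1 - x) := by
      rw [pow_succ]
      exact mul_le_mul_of_nonneg_right ih (by linarith)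
    refine h2.trans ?_
    push_cast
    have h3 : (0 : ℝ) ≤ k := Nat.cast_nonneg k
    have h4 : 0 ≤ (k : ℝ) ^ 2 * x ^ 3 := by positivity
    have h5 : 0 ≤ (k : ℝ) * x ^ 2 := by positivity
    nlinarith [sq_nonneg x]

private lemma ttl_f2 {m : ℕ} (h : Fin m → ℕ) {p : ℕ} (hp : p.Prime) (hb : 2 * (m + 1) ≤ p) :
    |ttl_f h p - 1| ≤ 2 * ((m : ℝ) + 1) ^ 2 * ((p : ℝ) ^ 2)⁻¹ +
      (if nu h p < m + 1 then 2 * ((m : ℝ) + 1) * (p : ℝ)⁻¹ else 0) := by
  have hp2 : (2 : ℝ) ≤ p := by exact_mod_cast hp.two_le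
  have hp0 : (0 : ℝ) < p := by linarith
  set x : ℝ := (p : ℝ)⁻¹ with hx
  have hx0 : 0 < x := by positivity
  have hkx : ((m : ℝ) + 1) * x ≤ 1 / 2 := by
    rw [hx, ← div_eq_mul_inv, div_le_div_iff₀ hp0 (by norm_num)]
    have : ((2 * (m + 1) : ℕ) : ℝ) ≤ p := by exact_mod_cast hb
    push_cast at this
    linarith
  have hm0 : (0 : ℝ) ≤ m := Nat.cast_nonneg m
  have hx1 : x ≤ 1 / 2 := by nlinarith
  have e1 : ttl_f h p = (1 - (nu h p : ℝ) * x) / (1 - x) ^ (m + 1) := by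
    rw [ttl_f, one_div, div_eq_mul_inv (nu h p : ℝ)]
  have hup := ttl_pow (m + 1) hx0.le (by linarith)
  have hlo : 1 - ((m : ℝ) + 1) * x ≤ (1 - x) ^ (m + 1) := by
    have := one_add_mul_le_pow (a := -x) (by linarith) (m + 1)
    push_cast at this
    have e : (1 : ℝ) + -x = 1 - x := by ring
    rw [e] at this
    linarith
  push_cast at hup
  have hD : 1 / 2 ≤ (1 - x) ^ (m + 1) := by linarith
  have hD0 : 0 < (1 - x) ^ (m + 1) := by linarith
  have e2 : ttl_f h p - 1 = ((1 - (nu h p : ℝ) * x) - (1 - x) ^ (m + 1)) / (1 - x) ^ (m + 1) := by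
    rw [e1, eq_div_iff hD0.ne', sub_mul, div_mul_cancel₀ _ hD0.ne', one_mul]
  have hpx : ((p : ℝ) ^ 2)⁻¹ = x ^ 2 := by rw [hx, inv_pow]
  rw [hpx, e2, abs_div, abs_of_pos hD0, div_le_iff₀ hD0]
  have hnu2 : (nu h p : ℝ) ≤ (m : ℝ) + 1 := by exact_mod_cast ttl_nu2 h p
  have hnu1 : (1 : ℝ) ≤ nu h p := by exact_mod_cast ttl_nu1 h p
  have hmain : |(1 - (nu h p : ℝ) * x) - (1 - x) ^ (m + 1)| ≤
      ((m : ℝ) + 1) ^ 2 * x ^ 2 + ((m : ℝ) + 1 - nu h p) * x := by
    rw [abs_le]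
    constructor
    · nlinarith [mul_nonneg (sub_nonneg.2 hnu2) hx0.le]
    · nlinarith [sq_nonneg (((m : ℝ) + 1) * x)]
  refine hmain.trans ?_
  have hR : ((m : ℝ) + 1) ^ 2 * x ^ 2 + ((m : ℝ) + 1 - nu h p) * x ≤
      (2 * ((m : ℝ) + 1) ^ 2 * x ^ 2 + if nu h p < m + 1 then 2 * ((m : ℝ) + 1) * x else 0) * (1 / 2) := by
    split_ifs with hc
    · nlinarith
    · have hc' : nu h p = m + 1 := le_antisymm (ttl_nu2 h p) (not_lt.1 hc)
      rw [hc']
      push_cast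
      nlinarith
  refine hR.trans (mul_le_mul_of_nonneg_left hD ?_)
  split_ifs <;> positivity

private lemma ttl_part {m : ℕ} (h : Fin m → ℕ) (z : ℕ) :
    part h z = ∏ p ∈ (Icc 1 z).filter Nat.Prime, ttl_f h p := rfl

private lemma ttl_split {m : ℕ} (h : Fin m → ℕ) {z z' : ℕ} (hz : z ≤ z') :
    part h z' = part h z * ∏ p ∈ (Ioc z z').filter Nat.Prime, ttl_f h p := by
  rw [ttl_part, ttl_part, ← Finset.prod_union]
  · refine Finset.prod_congr ?_ fun _ _ => rfl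
    ext p
    simp only [Finset.mem_filter, Finset.mem_union, Finset.mem_Icc, Finset.mem_Ioc]
    constructor
    · rintro ⟨⟨h1, h2⟩, h3⟩
      rcases le_or_gt p z with h4 | h4
      · exact Or.inl ⟨⟨h1, h4⟩, h3⟩
      · exact Or.inr ⟨⟨h4, h2⟩, h3⟩
    · rintro (⟨⟨h1, h2⟩, h3⟩ | ⟨⟨h1, h2⟩, h3⟩)
      · exact ⟨⟨h1, h2.trans hz⟩, h3⟩
      · exact ⟨⟨h3.one_le, h2⟩, h3⟩
  · rw [Finset.disjoint_left]
    intro p h1 h2
    simp only [Finset.mem_filter, Finset.mem_Icc, Finset.mem_Ioc] at h1 h2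
    omega

private lemma ttl_sum {m N z z' : ℕ} (h : Fin m → ℕ) (hinj : Function.Injective h)
    (hh : ∀ i, 1 ≤ h i ∧ h i ≤ N) (hz1 : 1 ≤ z) (hb : 2 * (m + 1) ≤ z) (hN : 2 ≤ N) (hz : z ≤ z') :
    ∑ p ∈ (Ioc z z').filter Nat.Prime, |ttl_f h p - 1| ≤
      8 * ((m : ℝ) + 1) ^ 3 * Real.log N / z := by
  have hz0 : (0 : ℝ) < z := by exact_mod_cast hz1
  have hm0 : (0 : ℝ) ≤ m := Nat.cast_nonneg m
  have hlog : 1 / 2 ≤ Real.log N := by
    have h1 : Real.log 2 ≤ Real.log N := Real.log_le_log (by norm_num) (by exact_mod_cast hN)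
    linarith [Real.log_two_gt_d9]
  have h1 : ∑ p ∈ (Ioc z z').filter Nat.Prime, |ttl_f h p - 1| ≤
      ∑ p ∈ (Ioc z z').filter Nat.Prime, (2 * ((m : ℝ) + 1) ^ 2 * ((p : ℝ) ^ 2)⁻¹ +
      (if nu h p < m + 1 then 2 * ((m : ℝ) + 1) * (z : ℝ)⁻¹ else 0)) := by
    refine Finset.sum_le_sum fun p hp => ?_
    simp only [Finset.mem_filter, Finset.mem_Ioc] at hp
    refine (ttl_f2 h hp.2 (by omega)).trans (add_le_add le_rfl ?_)
    split_ifs
    · refine mul_le_mul_of_nonneg_left ?_ (by positivity)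
      exact inv_anti₀ hz0 (by exact_mod_cast hp.1.1.le)
    · exact le_rfl
  refine h1.trans ?_
  rw [Finset.sum_add_distrib, ← Finset.mul_sum, ← Finset.sum_filter, Finset.sum_const, nsmul_eq_mul]
  have h2 : ∑ p ∈ (Ioc z z').filter Nat.Prime, ((p : ℝ) ^ 2)⁻¹ ≤ (z : ℝ)⁻¹ := by
    refine (Finset.sum_le_sum_of_subset_of_nonneg (Finset.filter_subset _ _)
      fun _ _ _ => by positivity).trans ?_
    refine (sum_Ioc_inv_sq_le_sub (by omega) hz).trans ?_
    have : (0 : ℝ) ≤ (z' : ℝ)⁻¹ := by positivity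
    linarith
  have h3 := ttl_cnt h hinj hh (((Ioc z z').filter Nat.Prime).filter fun p => nu h p < m + 1)
    (fun p hp => by
      simp only [Finset.mem_filter] at hp
      exact ⟨hp.1.2, hp.2⟩)
  have h4 : 2 * ((m : ℝ) + 1) ^ 2 * ∑ p ∈ (Ioc z z').filter Nat.Prime, ((p : ℝ) ^ 2)⁻¹ ≤
      2 * ((m : ℝ) + 1) ^ 2 * (z : ℝ)⁻¹ := mul_le_mul_of_nonneg_left h2 (by positivity)
  have h5 : ((((Ioc z z').filter Nat.Prime).filter fun p => nu h p < m + 1).card : ℝ) *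
      (2 * ((m : ℝ) + 1) * (z : ℝ)⁻¹) ≤ (((m : ℝ) + m ^ 2) * (2 * Real.log N)) *
      (2 * ((m : ℝ) + 1) * (z : ℝ)⁻¹) := mul_le_mul_of_nonneg_right h3 (by positivity)
  have h6 : 2 * ((m : ℝ) + 1) ^ 2 * (z : ℝ)⁻¹ + (((m : ℝ) + m ^ 2) * (2 * Real.log N)) *
      (2 * ((m : ℝ) + 1) * (z : ℝ)⁻¹) ≤ 8 * ((m : ℝ) + 1) ^ 3 * Real.log N / z := by
    have e : 2 * ((m : ℝ) + 1) ^ 2 * (z : ℝ)⁻¹ + (((m : ℝ) + m ^ 2) * (2 * Real.log N)) *
      (2 * ((m : ℝ) + 1) * (z : ℝ)⁻¹) = (2 * ((m : ℝ) + 1) ^ 2 + (((m : ℝ) + m ^ 2) * (2 * Real.log N)) *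
      (2 * ((m : ℝ) + 1))) / z := by
      rw [div_eq_mul_inv]; ring
    rw [e]
    refine div_le_div_of_nonneg_right ?_ hz0.le
    have e2 : 2 * ((m : ℝ) + 1) ^ 2 + (((m : ℝ) + m ^ 2) * (2 * Real.log N)) * (2 * ((m : ℝ) + 1)) =
      ((m : ℝ) + 1) ^ 2 * (2 + 4 * m * Real.log N) := by ring
    have e3 : 8 * ((m : ℝ) + 1) ^ 3 * Real.log N = ((m : ℝ) + 1) ^ 2 * (8 * ((m : ℝ) + 1) * Real.log N) := by
      ring
    rw [e2, e3]
    refine mul_le_mul_of_nonneg_left ?_ (by positivity)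
    nlinarith [mul_nonneg hm0 (by linarith : (0 : ℝ) ≤ Real.log N)]
  linarith

private lemma ttl_prod {S : Finset ℕ} (f : ℕ → ℝ) {s : ℝ} (hs : ∑ p ∈ S, |f p - 1| ≤ s) (hs1 : s ≤ 1) :
    |∏ p ∈ S, f p - 1| ≤ 2 * s := by
  have h1 := S.norm_prod_one_add_sub_one_le (fun p => f p - 1)
  have e : ∏ p ∈ S, (1 + (f p - 1)) = ∏ p ∈ S, f p := Finset.prod_congr rfl fun _ _ => by ring
  simp only [Real.norm_eq_abs] at h1
  rw [e] at h1
  have h0 : 0 ≤ ∑ p ∈ S, |f p - 1| := Finset.sum_nonneg fun _ _ => abs_nonneg _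
  have h2 : Real.exp (∑ p ∈ S, |f p - 1|) ≤ Real.exp s := Real.exp_le_exp.2 hs
  have h3 := Real.abs_exp_sub_one_le (x := s) (by rw [abs_of_nonneg (h0.trans hs)]; exact hs1)
  rw [abs_of_nonneg (h0.trans hs)] at h3
  have h4 := (le_abs_self _).trans h3
  linarith

theorem tail (m : ℕ) : ∃ (C : ℝ) (D : ℕ), 0 < C ∧ ∀ (z N : ℕ) (h : Fin m → ℕ), 2 ≤ z → 2 ≤ N → Function.Injective h →
    (∀ i, 1 ≤ h i ∧ h i ≤ N) → C * Real.log N ≤ z →
      Tendsto (part h) atTop (𝓝 (HL h)) ∧ |part h z - HL h| ≤ C * Real.log N * (Real.log z) ^ D / z ∧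
        0 ≤ part h z ∧ part h z ≤ C * (Real.log z) ^ D := by
  obtain ⟨C0, hC0, hmer⟩ := Pool.Agent.Lib.G3.si_mer
  have hm0 : (0 : ℝ) ≤ m := Nat.cast_nonneg m
  set K : ℝ := 8 * ((m : ℝ) + 1) ^ 3 with hK
  have hK8 : 8 ≤ K := by
    rw [hK]
    have : (1 : ℝ) ≤ ((m : ℝ) + 1) ^ 3 := one_le_pow₀ (by linarith)
    linarith
  have hKm : 4 * ((m : ℝ) + 1) ≤ K := by
    rw [hK]
    have : ((m : ℝ) + 1) ≤ ((m : ℝ) + 1) ^ 3 := le_self_pow₀ (by linarith) (by norm_num)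
    linarith
  -- nonnegativity and upper bound
  have hnn : ∀ (h : Fin m → ℕ) (z : ℕ), 0 ≤ part h z := by
    intro h z
    rw [ttl_part]
    exact Finset.prod_nonneg fun p hp => ttl_f0 h (Finset.mem_filter.1 hp).2
  have hub : ∀ (h : Fin m → ℕ) (z : ℕ), 2 ≤ z → part h z ≤ C0 ^ m * (Real.log z) ^ m := by
    intro h z hz
    rw [ttl_part, ← mul_pow]
    have h1 : ∏ p ∈ (Icc 1 z).filter Nat.Prime, ttl_f h p ≤
        ∏ p ∈ (Icc 1 z).filter Nat.Prime, (1 + 1 / ((p : ℝ) - 1)) ^ m :=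
      Finset.prod_le_prod (fun p hp => ttl_f0 h (Finset.mem_filter.1 hp).2)
        fun p hp => ttl_f1 h (Finset.mem_filter.1 hp).2
    refine h1.trans ?_
    rw [Finset.prod_pow]
    refine pow_le_pow_left₀ ?_ ?_ m
    · refine Finset.prod_nonneg fun p hp => ?_
      have hp2 : (2 : ℝ) ≤ p := by exact_mod_cast (Finset.mem_filter.1 hp).2.two_le
      have : 0 ≤ 1 / ((p : ℝ) - 1) := by
        apply div_nonneg zero_le_one
        linarith
      linarith
    · refine le_trans (le_of_eq (Finset.prod_congr ?_ fun _ _ => rfl)) (hmer z hz)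
      ext p
      simp only [Finset.mem_filter, Finset.mem_Icc, Pool.Agent.Lib.G3.si_mem]
      constructor
      · rintro ⟨⟨_, h2⟩, h3⟩
        exact ⟨h2, h3⟩
      · rintro ⟨h2, h3⟩
        exact ⟨⟨h3.one_le, h2⟩, h3⟩
  -- the step
  have hstep : ∀ (z z' N : ℕ) (h : Fin m → ℕ), 2 ≤ z → z ≤ z' → 2 ≤ N → Function.Injective h →
      (∀ i, 1 ≤ h i ∧ h i ≤ N) → K * Real.log N ≤ z →
      |part h z' - part h z| ≤ 2 * K * C0 ^ m * Real.log N * (Real.log z) ^ m / z := by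
    intro z z' N h hz hzz hN hinj hh hC
    have hz0 : (0 : ℝ) < z := by
      have : (2 : ℝ) ≤ z := by exact_mod_cast hz
      linarith
    have hlog : 1 / 2 ≤ Real.log N := by
      have h1 : Real.log 2 ≤ Real.log N := Real.log_le_log (by norm_num) (by exact_mod_cast hN)
      linarith [Real.log_two_gt_d9]
    have hb : 2 * (m + 1) ≤ z := by
      have : (2 : ℝ) * ((m : ℝ) + 1) ≤ z := by nlinarith
      exact_mod_cast this
    have h1 := ttl_sum (z' := z') h hinj hh (by omega) hb hN hzz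
    have h2 : K * Real.log N / z ≤ 1 := by rw [div_le_one hz0]; exact hC
    have h3 := ttl_prod (ttl_f h) h1 h2
    rw [ttl_split h hzz]
    have e : part h z * ∏ p ∈ (Ioc z z').filter Nat.Prime, ttl_f h p - part h z =
        part h z * (∏ p ∈ (Ioc z z').filter Nat.Prime, ttl_f h p - 1) := by ring
    rw [e, abs_mul, abs_of_nonneg (hnn h z)]
    have h4 : 0 ≤ 2 * (K * Real.log N / z) := (abs_nonneg _).trans h3
    refine (mul_le_mul (hub h z hz) h3 (abs_nonneg _) ((hnn h z).trans (hub h z hz))).trans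
      (le_of_eq ?_)
    ring
  -- convergence
  have hconv : ∀ (N : ℕ) (h : Fin m → ℕ), 2 ≤ N → Function.Injective h →
      (∀ i, 1 ≤ h i ∧ h i ≤ N) → Tendsto (part h) atTop (𝓝 (HL h)) := by
    intro N h hN hinj hh
    have hcau : CauchySeq (part h) := by
      have hlim : Tendsto (fun z : ℕ => 2 * K * C0 ^ m * Real.log N * (Real.log z) ^ m / z) atTop (𝓝 0) := by
        have h1 : Tendsto (fun x : ℝ => (Real.log x) ^ m / x) atTop (𝓝 0) := by
          have := (Real.isLittleO_pow_log_id_atTop (n := m)).tendsto_div_nhds_zero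
          simpa using this
        have h2 := (h1.comp tendsto_natCast_atTop_atTop).const_mul (2 * K * C0 ^ m * Real.log N)
        rw [mul_zero] at h2
        refine h2.congr fun z => ?_
        simp only [Function.comp]
        ring
      refine Metric.cauchySeq_iff'.2 fun ε hε => ?_
      have h3 := (hlim.eventually (gt_mem_nhds hε)).and ((eventually_ge_atTop 2).and
        (eventually_ge_atTop ⌈K * Real.log N⌉₊))
      obtain ⟨z, hz1, hz2, hz3⟩ := h3.exists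
      refine ⟨z, fun z' hz' => ?_⟩
      rw [Real.dist_eq]
      exact (hstep z z' N h hz2 hz' hN hinj hh ((Nat.le_ceil _).trans (by exact_mod_cast hz3))).trans_lt hz1
    obtain ⟨L, hL⟩ := cauchySeq_tendsto_of_complete hcau
    have : HL h = L := hL.limUnder_eq
    rw [this]
    exact hL
  refine ⟨max K (max (2 * K * C0 ^ m) (C0 ^ m)), m, lt_of_lt_of_le (by linarith) (le_max_left _ _), ?_⟩
  intro z N h hz hN hinj hh hC
  have hz0 : (0 : ℝ) < z := by
    have : (2 : ℝ) ≤ z := by exact_mod_cast hz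
    linarith
  have hlog : 1 / 2 ≤ Real.log N := by
    have h1 : Real.log 2 ≤ Real.log N := Real.log_le_log (by norm_num) (by exact_mod_cast hN)
    linarith [Real.log_two_gt_d9]
  have hlz : 0 ≤ Real.log z := Real.log_natCast_nonneg z
  have hKz : K * Real.log N ≤ z :=
    (mul_le_mul_of_nonneg_right (le_max_left _ _) (by linarith)).trans hC
  have hT := hconv N h hN hinj hh
  refine ⟨hT, ?_, hnn h z, ?_⟩
  · have h1 : Tendsto (fun z' => |part h z' - part h z|) atTop (𝓝 |HL h - part h z|) :=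
      (hT.sub_const _).abs
    have h2 : |HL h - part h z| ≤ 2 * K * C0 ^ m * Real.log N * (Real.log z) ^ m / z :=
      le_of_tendsto h1 ((eventually_ge_atTop z).mono fun z' hz' => hstep z z' N h hz hz' hN hinj hh hKz)
    rw [abs_sub_comm]
    refine h2.trans ?_
    refine div_le_div_of_nonneg_right ?_ hz0.le
    refine mul_le_mul_of_nonneg_right ?_ (by positivity)
    refine mul_le_mul_of_nonneg_right ?_ (by linarith)
    exact (le_max_left _ _).trans (le_max_right _ _)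
  · refine (hub h z hz).trans (mul_le_mul_of_nonneg_right ?_ (by positivity))
    exact (le_max_right _ _).trans (le_max_right _ _)

end Pool.Agent.Lib.VKT
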