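import Pool.Agent.Lib.VK.XHl
import Pool.Agent.Lib.MP_61161c_nt.XE.Sv2

/-!
# VK / XSv (P6x, 250 lines): the sieve bound for a given vector of smooth parts

PROOF. `D = lcm g`. `sv2 (m+1)` (XE/Sv2.lean) gives `K2`; take `b = 1` and its `E'`; `E = 2 E'` (+1). `P` = the primes `p ≤ z` with `2(m+1) < p`, `p ∤ D`;
`Z p = insert 0 (image (fun i => (p - h i % p) % p) univ)`: `card (Z p) = nu h p` (the map `x ↦ (p - x) % p` is injective on `[0, p)`), `≤ m + 1`, `3 (m+1) ≤ 2p`, elements `< p`.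
If the set is empty: trivial (the right side is `≥ 0`, `HL h ≥ 0` by `pos m`). Otherwise fix `n0` in it; every `n` in it satisfies `g i ∣ n - n0` for all `i`, so `n ≡ n0 [MOD D]`, and for
`p ∈ P`: `n % p ∉ Z p` (`p ∤ n`; `p ∤ n + h i`, otherwise `p ∣ g i ∣ D`). So the number is `≤ (1 + K2/2) (Y/D) ∏_{p ∈ P} (1 - ν(p)/p) + z^E'` by sv2 with `c = n0`, `W = D`, `(u, v] = (Y, 2Y]`.
`z^E' ≤ √Y` since `z^(2E') ≤ Y`. The primes `p ≤ z`, `2(m+1) < p`, which divide `D` are at most `∑ card (g i).primeFactors ≤ m K`, and each factor `1 - ν(p)/p` is `≥ 1/2`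
(`ν(p) ≤ m+1 < p/2`), so `∏_{p ∈ P} ≤ 2^(mK) ∏_{p ≤ z, 2(m+1) < p} (1 - ν(p)/p) ≤ 2^(mK) C HL h/(log z)^(m+1)` by `hlz`.
-/

set_option autoImplicit false

open Finset Filter

namespace Pool.Agent.Lib.VKT

private theorem xsv_card {m : ℕ} (h : Fin m → ℕ) {p : ℕ} (hp : 0 < p) :
    (insert 0 (univ.image fun i => (p - h i % p) % p)).card = nu h p := by
  unfold nu
  have himg : insert 0 (univ.image fun i => (p - h i % p) % p) =
      (insert 0 (univ.image fun i => h i % p)).image (fun x => (p - x) % p) := by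
    rw [image_insert, image_image]
    congr 1
    simp
  rw [himg]
  refine card_image_of_injOn ?_
  have hlt : ∀ x ∈ (insert 0 (univ.image fun i => h i % p) : Finset ℕ), x < p := by
    intro x hx
    rw [mem_insert, mem_image] at hx
    rcases hx with rfl | ⟨i, -, rfl⟩
    · exact hp
    · exact Nat.mod_lt _ hp
  intro x hx y hy hxy
  have h1 := hlt x hx
  have h2 := hlt y hy
  have h3 : (p - x) % p = (p - y) % p := hxy
  rcases Nat.eq_zero_or_pos x with hx0 | hx0 <;> rcases Nat.eq_zero_or_pos y with hy0 | hy0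
  · omega
  · subst hx0
    rw [Nat.sub_zero, Nat.mod_self, Nat.mod_eq_of_lt (by omega)] at h3
    omega
  · subst hy0
    rw [Nat.sub_zero, Nat.mod_self, Nat.mod_eq_of_lt (by omega)] at h3
    omega
  · rw [Nat.mod_eq_of_lt (by omega), Nat.mod_eq_of_lt (by omega)] at h3
    omega

private theorem xsv_nu {m : ℕ} (h : Fin m → ℕ) (p : ℕ) : nu h p ≤ m + 1 := by
  unfold nu
  refine (card_insert_le _ _).trans ?_
  have := card_image_le (s := (univ : Finset (Fin m))) (f := fun i => h i % p)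
  rw [card_univ, Fintype.card_fin] at this
  omega

private theorem xsv_dvd {m : ℕ} (h : Fin m → ℕ) {p n : ℕ} (hp : 0 < p)
    (hn : n % p ∈ insert 0 (univ.image fun i => (p - h i % p) % p)) : p ∣ n ∨ ∃ i, p ∣ n + h i := by
  rw [mem_insert, mem_image] at hn
  rcases hn with h0 | ⟨i, -, hi⟩
  · exact Or.inl (Nat.dvd_of_mod_eq_zero h0)
  · refine Or.inr ⟨i, Nat.dvd_of_mod_eq_zero ?_⟩
    rw [Nat.add_mod, ← hi]
    have hl : h i % p < p := Nat.mod_lt _ hp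
    rcases Nat.eq_zero_or_pos (h i % p) with h0 | h0
    · rw [h0, Nat.sub_zero, Nat.mod_self, Nat.zero_add, Nat.zero_mod]
    · rw [Nat.mod_eq_of_lt (show p - h i % p < p by omega)]
      rw [Nat.sub_add_cancel hl.le, Nat.mod_self]

private theorem xsv_B {m : ℕ} (K : ℕ) (g : Fin m → ℕ) (hg : ∀ i, 1 ≤ g i ∧ (g i).primeFactors.card ≤ K) (P : Finset ℕ)
    (hP : ∀ p ∈ P, p.Prime) : (P.filter fun p => p ∣ univ.lcm g).card ≤ m * K := by
  classical
  have hsub : (P.filter fun p => p ∣ univ.lcm g) ⊆ univ.biUnion fun i => (g i).primeFactors := by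
    intro p hp
    rw [mem_filter] at hp
    have h1 : p ∣ ∏ i, g i := hp.2.trans (Finset.lcm_dvd fun i hi => Finset.dvd_prod_of_mem g hi)
    obtain ⟨i, hi, h2⟩ := ((hP p hp.1).prime.dvd_finsetProd_iff g).1 h1
    rw [mem_biUnion]
    exact ⟨i, hi, Nat.mem_primeFactors.mpr ⟨hP p hp.1, h2, by have := (hg i).1; omega⟩⟩
  calc _ ≤ _ := card_le_card hsub
    _ ≤ ∑ i : Fin m, (g i).primeFactors.card := card_biUnion_le
    _ ≤ ∑ _i : Fin m, K := sum_le_sum fun i _ => (hg i).2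
    _ = m * K := by simp

private theorem xsv_V {m : ℕ} (K : ℕ) (h g : Fin m → ℕ) (hg : ∀ i, 1 ≤ g i ∧ (g i).primeFactors.card ≤ K) (P : Finset ℕ)
    (hP : ∀ p ∈ P, p.Prime ∧ 2 * (m + 1) < p) :
    ∏ p ∈ P.filter (fun p => ¬ p ∣ univ.lcm g), (1 - (nu h p : ℝ) / p) ≤ 2 ^ (m * K) * ∏ p ∈ P, (1 - (nu h p : ℝ) / p) := by
  have hf : ∀ p ∈ P, (1 / 2 : ℝ) ≤ 1 - (nu h p : ℝ) / p := by
    intro p hp
    have h1 : (0 : ℝ) < p := by exact_mod_cast (hP p hp).1.pos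
    have h2 : (nu h p : ℝ) / p ≤ 1 / 2 := by
      rw [div_le_iff₀ h1]
      have h3 : 2 * nu h p ≤ p := by
        have := xsv_nu h p
        have := (hP p hp).2
        omega
      have h4 : (2 : ℝ) * nu h p ≤ p := by exact_mod_cast h3
      linarith
    linarith
  have h1 : (1 / 2 : ℝ) ^ (m * K) ≤ ∏ p ∈ P.filter (fun p => p ∣ univ.lcm g), (1 - (nu h p : ℝ) / p) := by
    calc (1 / 2 : ℝ) ^ (m * K) ≤ (1 / 2 : ℝ) ^ (P.filter (fun p => p ∣ univ.lcm g)).card :=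
          pow_le_pow_of_le_one (by norm_num) (by norm_num) (xsv_B K g hg P fun p hp => (hP p hp).1)
      _ = ∏ p ∈ P.filter (fun p => p ∣ univ.lcm g), (1 / 2 : ℝ) := by rw [prod_const]
      _ ≤ _ := prod_le_prod (fun _ _ => by norm_num) fun p hp => hf p (mem_filter.mp hp).1
  have h2 : (0 : ℝ) ≤ ∏ p ∈ P.filter (fun p => ¬ p ∣ univ.lcm g), (1 - (nu h p : ℝ) / p) :=
    prod_nonneg fun p hp => le_trans (by norm_num) (hf p (mem_filter.mp hp).1)
  rw [← prod_filter_mul_prod_filter_not P (fun p => p ∣ univ.lcm g)]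
  have h3 : (2 : ℝ) ^ (m * K) * (1 / 2) ^ (m * K) = 1 := by
    rw [← mul_pow]; norm_num
  calc ∏ p ∈ P.filter (fun p => ¬ p ∣ univ.lcm g), (1 - (nu h p : ℝ) / p) =
        (2 : ℝ) ^ (m * K) * ((1 / 2) ^ (m * K) * ∏ p ∈ P.filter (fun p => ¬ p ∣ univ.lcm g), (1 - (nu h p : ℝ) / p)) := by
          rw [← mul_assoc, h3, one_mul]
    _ ≤ _ := mul_le_mul_of_nonneg_left (mul_le_mul_of_nonneg_right h1 h2) (by positivity)

open Classical in
theorem svc (m K : ℕ) : ∃ (C : ℝ) (E : ℕ) (x0 : ℝ), 0 < C ∧ ∀ Y z : ℕ, x0 ≤ Y → (Real.log Y) ^ 2 ≤ z → z ^ E ≤ Y →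
    ∀ h : Fin m → ℕ, Function.Injective h → (∀ i, 1 ≤ h i ∧ h i ≤ Y) → (∀ p : ℕ, p.Prime → nu h p < p) →
      ∀ g : Fin m → ℕ, (∀ i, 1 ≤ g i ∧ (g i).primeFactors.card ≤ K) →
        (((Ioc Y (2 * Y)).filter fun n => (∀ i, g i ∣ n + h i) ∧
          ∀ p : ℕ, p.Prime → p ≤ z → ¬ p ∣ n ∧ ∀ i, p ∣ n + h i → p ∣ g i).card : ℝ) ≤
          C * (HL h * (Y / (((univ.lcm g : ℕ) : ℝ) * (Real.log z) ^ (m + 1)))) + Real.sqrt Y := by
  obtain ⟨K2, hK2, hsv⟩ := Pool.Agent.Lib.XE.sv2 (m + 1)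
  obtain ⟨E', hE'⟩ := hsv 1 le_rfl
  obtain ⟨C1, x1, hC1, hH⟩ := hlz m
  obtain ⟨s, hs, hpos⟩ := pos m
  refine ⟨(1 + K2 / 2) * (2 ^ (m * K) * C1), 2 * E' + 1, max x1 (Real.exp 2), by positivity, ?_⟩
  intro Y z hY hz hzE h hi hh hn g hg
  have hY1 : x1 ≤ Y := (le_max_left _ _).trans hY
  have hY2 : Real.exp 2 ≤ Y := (le_max_right _ _).trans hY
  have hlY : 2 ≤ Real.log Y := by
    rw [Real.le_log_iff_exp_le (lt_of_lt_of_le (Real.exp_pos 2) hY2)]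
    exact hY2
  have hz2 : 2 ≤ z := by
    have h1 : (4 : ℝ) ≤ z := le_trans (by nlinarith) hz
    have h2 : (2 : ℝ) ≤ z := by linarith
    exact_mod_cast h2
  have hHL : s ≤ HL h := hpos h hi (fun i => (hh i).1) hn
  have hHL0 : 0 ≤ HL h := hs.le.trans hHL
  have hlz0 : 0 ≤ Real.log z := Real.log_nonneg (by exact_mod_cast (by omega : 1 ≤ z))
  set D : ℕ := univ.lcm g with hD
  have hD1 : 1 ≤ D := by
    rw [Nat.one_le_iff_ne_zero, hD, Ne, Finset.lcm_eq_zero_iff]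
    rintro ⟨i, hi'⟩
    have := (hg i).1
    simp at hi'
    omega
  set S := (Ioc Y (2 * Y)).filter fun n => (∀ i, g i ∣ n + h i) ∧
          ∀ p : ℕ, p.Prime → p ≤ z → ¬ p ∣ n ∧ ∀ i, p ∣ n + h i → p ∣ g i with hS
  have hR : 0 ≤ (1 + K2 / 2) * (2 ^ (m * K) * C1) * (HL h * (Y / ((D : ℝ) * (Real.log z) ^ (m + 1)))) := by
    positivity
  rcases S.eq_empty_or_nonempty with hSe | ⟨n0, hn0⟩
  · rw [hSe, card_empty, Nat.cast_zero]
    positivity
  set P0 := (Icc 1 z).filter (fun p => p.Prime ∧ 2 * (m + 1) < p) with hP0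
  set P := P0.filter (fun p => ¬ p ∣ D) with hPd
  set Zs : ℕ → Finset ℕ := fun p => insert 0 (univ.image fun i => (p - h i % p) % p) with hZs
  have hP0' : ∀ p ∈ P0, p.Prime ∧ 2 * (m + 1) < p := fun p hp => (mem_filter.mp hp).2
  have hPz : ∀ p ∈ P, p.Prime ∧ p ≤ z := by
    intro p hp
    have h1 := mem_filter.mp (mem_filter.mp hp).1
    exact ⟨h1.2.1, (mem_Icc.mp h1.1).2⟩
  have hsub : S ⊆ (Ioc Y (2 * Y)).filter fun n => n ≡ n0 [MOD D] ∧ ∀ p ∈ P, n % p ∉ Zs p := by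
    intro n hn1
    rw [hS, mem_filter] at hn1 hn0
    rw [mem_filter]
    refine ⟨hn1.1, ?_, ?_⟩
    · rw [Nat.modEq_iff_dvd, Int.natCast_dvd, hD]
      refine Finset.lcm_dvd fun i _ => ?_
      rw [← Int.natCast_dvd]
      have h1 : ((g i : ℕ) : ℤ) ∣ ((n + h i : ℕ) : ℤ) := Int.natCast_dvd_natCast.mpr (hn1.2.1 i)
      have h2 : ((g i : ℕ) : ℤ) ∣ ((n0 + h i : ℕ) : ℤ) := Int.natCast_dvd_natCast.mpr (hn0.2.1 i)
      have h3 := dvd_sub h2 h1
      have h4 : ((n0 + h i : ℕ) : ℤ) - ((n + h i : ℕ) : ℤ) = (n0 : ℤ) - n := by push_cast; ring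
      rwa [h4] at h3
    · intro p hp hmem
      have hpp := (hPz p hp).1
      have hnd := (mem_filter.mp hp).2
      obtain ⟨h1, h2⟩ := hn1.2.2 p hpp (hPz p hp).2
      rcases xsv_dvd h hpp.pos hmem with h3 | ⟨i, h3⟩
      · exact h1 h3
      · exact hnd ((h2 i h3).trans (Finset.dvd_lcm (mem_univ i)))
  have hmain := hE' z hz2 P hPz D hD1 (fun p hp => (mem_filter.mp hp).2) n0 Zs (by
    intro p hp
    have hpp := (hPz p hp).1
    have h1 : (Zs p).card = nu h p := xsv_card h hpp.pos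
    have h2 := xsv_nu h p
    have h3 := (hP0' p (mem_filter.mp hp).1).2
    refine ⟨by omega, by omega, ?_⟩
    intro r hr
    rw [hZs] at hr
    simp only [mem_insert, mem_image, mem_univ, true_and] at hr
    rcases hr with rfl | ⟨i, rfl⟩
    · exact hpp.pos
    · exact Nat.mod_lt _ hpp.pos) Y (2 * Y) (by omega)
  have hVeq : ∏ p ∈ P, (1 - ((Zs p).card : ℝ) / p) = ∏ p ∈ P, (1 - (nu h p : ℝ) / p) := by
    refine prod_congr rfl fun p hp => ?_
    rw [show (Zs p).card = nu h p from xsv_card h (hPz p hp).1.pos]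
  rw [hVeq] at hmain
  have hYY : (((2 * Y : ℕ) : ℝ) - (Y : ℝ)) = Y := by push_cast; ring
  rw [hYY] at hmain
  have hV := (xsv_V K h g hg P0 hP0').trans (mul_le_mul_of_nonneg_left (hH Y z hY1 hz h hi hh hn) (by positivity : (0 : ℝ) ≤ 2 ^ (m * K)))
  have hcard : (S.card : ℝ) ≤ (((Ioc Y (2 * Y)).filter fun n => n ≡ n0 [MOD D] ∧ ∀ p ∈ P, n % p ∉ Zs p).card : ℝ) := by
    exact_mod_cast card_le_card hsub
  have hzs : (z : ℝ) ^ E' ≤ Real.sqrt Y := by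
    refine Real.le_sqrt_of_sq_le ?_
    rw [← pow_mul]
    have h1 : z ^ (E' * 2) ≤ Y := (Nat.pow_le_pow_right (by omega) (by omega)).trans hzE
    exact_mod_cast h1
  have hX0 : (0 : ℝ) ≤ (Y : ℝ) / D := by positivity
  have h5 := (abs_le.mp hmain).2
  have h6 : (Y : ℝ) / D * ∏ p ∈ P, (1 - (nu h p : ℝ) / p) ≤ (Y : ℝ) / D * (2 ^ (m * K) * (C1 * HL h / Real.log z ^ (m + 1))) :=
    mul_le_mul_of_nonneg_left hV hX0
  have h7 : (1 + K2 / 2) * ((Y : ℝ) / D * ∏ p ∈ P, (1 - (nu h p : ℝ) / p)) ≤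
      (1 + K2 / 2) * ((Y : ℝ) / D * (2 ^ (m * K) * (C1 * HL h / Real.log z ^ (m + 1)))) :=
    mul_le_mul_of_nonneg_left h6 (by linarith)
  have h8 : (1 + K2 / 2) * ((Y : ℝ) / D * (2 ^ (m * K) * (C1 * HL h / Real.log z ^ (m + 1)))) =
      (1 + K2 / 2) * (2 ^ (m * K) * C1) * (HL h * (Y / ((D : ℝ) * (Real.log z) ^ (m + 1)))) := by
    rw [← div_div]
    ring
  have h9 : (S.card : ℝ) ≤ (1 + K2 / 2) * ((Y : ℝ) / D * ∏ p ∈ P, (1 - (nu h p : ℝ) / p)) + (z : ℝ) ^ E' := by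
    rw [pow_one] at h5
    linarith
  linarith

end Pool.Agent.Lib.VKT
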