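import Pool.Agent.Lib.G3.ConvB
import Pool.Agent.Lib.G3.MajV
import Pool.Agent.Lib.G3.G2Defs

/-!
# VK / TCv (P4): copies of `G3.parsM`, `G3.conv`, `G3.majG` for functions with support `X < 300 n` (there: `X < 64 n`)

The only use of the constant: `log 300 + 1/2 < 2 π` and `300 ≤ exp (2 π)`.
-/

set_option autoImplicit false

open Finset MeasureTheory

namespace Pool.Agent.Lib.VKT

open Pool.Agent.Lib.G3
open Pool.Agent.Lib.MRT (cj kap)
open Pool.Agent.Lib.GT (e)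

/-- the weight of a window in the frequency `k` -/
private noncomputable def pmw (δ : ℝ) (k : ℤ) : ℂ :=
  ∫ s in (0 : ℝ)..δ, Complex.exp ((((k : ℝ) * s : ℝ) : ℂ) * Complex.I)

private theorem pmw_sq {δ : ℝ} (hδ : 0 < δ) (k : ℤ) : ‖pmw δ k‖ ^ 2 ≤ kap δ k := by
  have h1 : ‖pmw δ k‖ ≤ δ := by
    unfold pmw
    have h2 := intervalIntegral.norm_integral_le_of_norm_le_const (a := (0 : ℝ)) (b := δ) (C := 1)
      (f := fun s : ℝ => Complex.exp ((((k : ℝ) * s : ℝ) : ℂ) * Complex.I)) (fun s _ => by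
        rw [Complex.norm_exp_ofReal_mul_I])
    rwa [sub_zero, abs_of_pos hδ, one_mul] at h2
  have h3 : ‖pmw δ k‖ ^ 2 ≤ δ ^ 2 := pow_le_pow_left₀ (norm_nonneg _) h1 2
  unfold kap
  split_ifs with hk
  · exact h3
  · refine le_min h3 ?_
    have hk' : (k : ℝ) ≠ 0 := by exact_mod_cast hk
    have hc : (k : ℂ) * Complex.I ≠ 0 :=
      mul_ne_zero (by exact_mod_cast hk) Complex.I_ne_zero
    have h4 : pmw δ k = (Complex.exp ((k : ℂ) * Complex.I * (δ : ℂ)) -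
        Complex.exp ((k : ℂ) * Complex.I * ((0 : ℝ) : ℂ))) / ((k : ℂ) * Complex.I) := by
      rw [← integral_exp_mul_complex hc]
      unfold pmw
      refine intervalIntegral.integral_congr fun s _ => ?_
      congr 1
      push_cast
      ring
    have h5 : ‖pmw δ k‖ ≤ 2 / |(k : ℝ)| := by
      rw [h4, norm_div, norm_mul, Complex.norm_I, mul_one, Complex.norm_intCast]
      refine div_le_div_of_nonneg_right ?_ (abs_nonneg _)
      refine (norm_sub_le _ _).trans ?_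
      have h6 : (k : ℂ) * Complex.I * (δ : ℂ) = (((k : ℝ) * δ : ℝ) : ℂ) * Complex.I := by
        push_cast
        ring
      have h7 : (k : ℂ) * Complex.I * ((0 : ℝ) : ℂ) = ((0 : ℝ) : ℂ) * Complex.I := by
        push_cast
        ring
      rw [h6, h7, Complex.norm_exp_ofReal_mul_I, Complex.norm_exp_ofReal_mul_I]
      norm_num
    have h8 := pow_le_pow_left₀ (norm_nonneg _) h5 2
    refine h8.trans (le_of_eq ?_)
    rw [div_pow, sq_abs]
    norm_num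

private theorem pm_meas (l δ : ℝ) (z : ℂ) :
    Measurable fun θ : ℝ => (if θ < l ∧ l ≤ θ + δ then z else 0 : ℂ) := by
  refine Measurable.ite ?_ measurable_const measurable_const
  exact (measurableSet_lt measurable_id measurable_const).inter
    (measurableSet_le measurable_const (measurable_id.add_const δ))

private theorem pm_inner {c l δ : ℝ} (hδ : 0 < δ) (hcl : c < l - δ) (hlc : l ≤ c + 2 * Real.pi) (k : ℤ) (z : ℂ) :
    ∫ θ in c..(c + 2 * Real.pi), Complex.exp (((-(k : ℝ) * θ : ℝ) : ℂ) * Complex.I) *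
        (if θ < l ∧ l ≤ θ + δ then z else 0) =
      z * Complex.exp (((-(k : ℝ) * l : ℝ) : ℂ) * Complex.I) * pmw δ k := by
  have hpi := Real.pi_gt_three
  rw [intervalIntegral.integral_of_le (by linarith)]
  have h4 : (fun θ : ℝ => Complex.exp (((-(k : ℝ) * θ : ℝ) : ℂ) * Complex.I) *
      (if θ < l ∧ l ≤ θ + δ then z else 0)) = (Set.Ico (l - δ) l).indicator
      fun θ : ℝ => Complex.exp (((-(k : ℝ) * θ : ℝ) : ℂ) * Complex.I) * z := by
    ext θ
    by_cases hθ : θ ∈ Set.Ico (l - δ) l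
    · rw [Set.indicator_of_mem hθ, if_pos ⟨hθ.2, by linarith [hθ.1]⟩]
    · rw [Set.indicator_of_notMem hθ, if_neg, mul_zero]
      rintro ⟨h, h'⟩
      exact hθ ⟨by linarith, h⟩
  rw [h4, MeasureTheory.setIntegral_indicator measurableSet_Ico]
  have h5 : Set.Ioc c (c + 2 * Real.pi) ∩ Set.Ico (l - δ) l = Set.Ico (l - δ) l := by
    ext θ
    simp only [Set.mem_inter_iff, Set.mem_Ioc, Set.mem_Ico]
    constructor
    · exact fun h => h.2
    · intro h
      exact ⟨⟨by linarith [h.1], by linarith [h.2]⟩, h⟩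
  rw [h5, MeasureTheory.integral_Ico_eq_integral_Ioc, ← intervalIntegral.integral_of_le (by linarith)]
  have h6 := intervalIntegral.integral_comp_sub_left (a := (0 : ℝ)) (b := δ)
    (fun θ : ℝ => Complex.exp (((-(k : ℝ) * θ : ℝ) : ℂ) * Complex.I) * z) l
  rw [sub_zero] at h6
  rw [← h6]
  unfold pmw
  rw [← intervalIntegral.integral_const_mul]
  refine intervalIntegral.integral_congr fun s _ => ?_
  change Complex.exp (((-(k : ℝ) * (l - s) : ℝ) : ℂ) * Complex.I) * z = _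
  rw [mul_assoc z, ← Complex.exp_add, mul_comm _ z]
  congr 2
  push_cast
  ring

/-- the window integral of a character -/
private theorem pm_window (δ θ : ℝ) (j : ℤ) :
    ∫ φ in θ..(θ + δ), Complex.exp (Complex.I * (j * φ)) =
      Complex.exp ((((j : ℝ) * θ : ℝ) : ℂ) * Complex.I) * pmw δ j := by
  have h6 := intervalIntegral.integral_comp_add_left (a := (0 : ℝ)) (b := δ)
    (fun φ : ℝ => Complex.exp (Complex.I * (j * φ))) θ
  rw [add_zero] at h6
  rw [← h6]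
  unfold pmw
  rw [← intervalIntegral.integral_const_mul]
  refine intervalIntegral.integral_congr fun s _ => ?_
  change Complex.exp (Complex.I * (j * ((θ + s : ℝ) : ℂ))) = _
  rw [← Complex.exp_add]
  congr 1
  push_cast
  ring

/-- orthogonality -/
private theorem pm_orth (c : ℝ) (m : ℤ) :
    ∫ θ in c..(c + 2 * Real.pi), Complex.exp ((((m : ℝ) * θ : ℝ) : ℂ) * Complex.I) =
      if m = 0 then ((2 * Real.pi : ℝ) : ℂ) else 0 := by
  split_ifs with hm
  · subst hm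
    have h1 : ∀ θ : ℝ, Complex.exp (((((0 : ℤ) : ℝ) * θ : ℝ) : ℂ) * Complex.I) = 1 := by
      intro θ
      simp
    rw [intervalIntegral.integral_congr (g := fun _ => (1 : ℂ)) fun θ _ => h1 θ]
    simp
  · have hc : (m : ℂ) * Complex.I ≠ 0 := mul_ne_zero (by exact_mod_cast hm) Complex.I_ne_zero
    have h2 : ∫ θ in c..(c + 2 * Real.pi), Complex.exp ((((m : ℝ) * θ : ℝ) : ℂ) * Complex.I) =
        ∫ θ in c..(c + 2 * Real.pi), Complex.exp ((m : ℂ) * Complex.I * θ) := by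
      refine intervalIntegral.integral_congr fun θ _ => ?_
      change Complex.exp ((((m : ℝ) * θ : ℝ) : ℂ) * Complex.I) = Complex.exp ((m : ℂ) * Complex.I * θ)
      congr 1
      push_cast
      ring
    rw [h2, integral_exp_mul_complex hc]
    have h3 : (m : ℂ) * Complex.I * ((c + 2 * Real.pi : ℝ) : ℂ) =
        (m : ℂ) * Complex.I * (c : ℂ) + (m : ℂ) * (2 * Real.pi * Complex.I) := by
      push_cast
      ring
    rw [h3, Complex.exp_add, Complex.exp_int_mul_two_pi_mul_I, mul_one, sub_self, zero_div]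

private theorem tparsM {X : ℕ} (hX : 1 ≤ X) (f : ℕ → ℂ) (hf : ∀ n, f n ≠ 0 → X < 300 * n ∧ n ≤ X) {δ B : ℝ} (hδ : 0 < δ)
    (hδ1 : δ ≤ 1 / 2) (J : Finset ℤ)
    (hB : ∀ J' : Finset ℤ, Disjoint J' J → ∑ j ∈ J', kap δ j * ‖∑ n ∈ Icc 1 X, f n * cj j n‖ ^ 2 ≤ B) :
    ∫ θ in (Real.log X - 2 * Real.pi)..(Real.log X),
      ‖(∑ n ∈ Icc 1 X, if θ < Real.log n ∧ Real.log n ≤ θ + δ then f n else 0) -
        ((1 / (2 * Real.pi) : ℝ) : ℂ) * ∑ j ∈ J, (∑ n ∈ Icc 1 X, f n * cj j n) *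
          ∫ φ in θ..(θ + δ), Complex.exp (Complex.I * (j * φ))‖ ^ 2 ≤ B := by
  classical
  have hX0 : (0 : ℝ) < X := by exact_mod_cast hX
  have hB0 : 0 ≤ B := by simpa using hB ∅ (Finset.disjoint_empty_left _)
  have hpi := Real.pi_gt_three
  have hpi2 := Real.pi_gt_d2
  set c := Real.log X - 2 * Real.pi with hc
  have hab : c < c + 2 * Real.pi := by linarith
  have hsub : c + 2 * Real.pi - c = 2 * Real.pi := by ring
  have hcX : Real.log X = c + 2 * Real.pi := by rw [hc]; ring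
  have hlog300 : Real.log 300 ≤ 5.72 := by
    have h1 : (300 : ℝ) = 2 ^ 8 * (300 / 256) := by norm_num
    have h2 := Real.log_two_lt_d9
    have h3 := Real.log_le_sub_one_of_pos (show (0 : ℝ) < 300 / 256 by norm_num)
    rw [h1, Real.log_mul (by norm_num) (by norm_num), Real.log_pow]
    push_cast
    linarith
  have hn : ∀ n, f n ≠ 0 → c < Real.log n - δ ∧ Real.log n ≤ c + 2 * Real.pi := by
    intro n hfn
    obtain ⟨h1, h2⟩ := hf n hfn
    have hn0 : (0 : ℝ) < n := by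
      have : 0 < n := by omega
      exact_mod_cast this
    have h3 : Real.log X < Real.log 300 + Real.log n := by
      rw [← Real.log_mul (by norm_num) hn0.ne']
      exact Real.log_lt_log hX0 (by exact_mod_cast h1)
    have h4 : Real.log n ≤ Real.log X := Real.log_le_log hn0 (by exact_mod_cast h2)
    exact ⟨by linarith, by linarith⟩
  set S : ℤ → ℂ := fun j => ∑ n ∈ Icc 1 X, f n * cj j n with hS
  set Cj : ℤ → ℂ := fun j => ((1 / (2 * Real.pi) : ℝ) : ℂ) * (S j * pmw δ j) with hCj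
  set G : ℝ → ℂ := fun θ => (∑ n ∈ Icc 1 X, if θ < Real.log n ∧ Real.log n ≤ θ + δ then f n else 0) -
    ∑ j ∈ J, Cj j * Complex.exp ((((j : ℝ) * θ : ℝ) : ℂ) * Complex.I) with hG
  have hGeq : ∀ θ : ℝ, (∑ n ∈ Icc 1 X, if θ < Real.log n ∧ Real.log n ≤ θ + δ then f n else 0) -
        ((1 / (2 * Real.pi) : ℝ) : ℂ) * ∑ j ∈ J, (∑ n ∈ Icc 1 X, f n * cj j n) *
          ∫ φ in θ..(θ + δ), Complex.exp (Complex.I * (j * φ)) = G θ := by
    intro θ
    rw [hG]
    simp only [hCj, hS]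
    congr 1
    rw [mul_sum]
    refine sum_congr rfl fun j _ => ?_
    rw [pm_window]
    ring
  obtain ⟨A, hA⟩ : ∃ A : ℝ, ∀ θ, ‖G θ‖ ≤ A := by
    refine ⟨∑ n ∈ Icc 1 X, ‖f n‖ + ∑ j ∈ J, ‖Cj j‖, fun θ => ?_⟩
    refine (norm_sub_le _ _).trans (add_le_add ?_ ?_)
    · refine (norm_sum_le _ _).trans (sum_le_sum fun n _ => ?_)
      split_ifs
      · exact le_rfl
      · rw [norm_zero]
        exact norm_nonneg _
    · refine (norm_sum_le _ _).trans (sum_le_sum fun j _ => ?_)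
      rw [norm_mul, Complex.norm_exp_ofReal_mul_I, mul_one]
  have hcont2 : Continuous fun θ : ℝ => ∑ j ∈ J, Cj j * Complex.exp ((((j : ℝ) * θ : ℝ) : ℂ) * Complex.I) := by
    fun_prop
  have hmeas : Measurable G := by
    refine Measurable.sub ?_ hcont2.measurable
    exact Finset.measurable_sum _ fun n _ => pm_meas _ _ _
  have hL2 : MeasureTheory.MemLp G 2
      (MeasureTheory.volume.restrict (Set.Ioc c (c + 2 * Real.pi))) :=
    MeasureTheory.MemLp.of_bound hmeas.aestronglyMeasurable A (Filter.Eventually.of_forall hA)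
  have hpar := hasSum_sq_fourierCoeffOn hab hL2
  have hcoef : ∀ k : ℤ, fourierCoeffOn hab G k =
      if k ∈ J then 0 else (1 / (2 * Real.pi) : ℝ) • (pmw δ k * S k) := by
    intro k
    have h1 : ∀ θ : ℝ, (fourier (-k) (θ : AddCircle (c + 2 * Real.pi - c)) : ℂ) • G θ =
        (∑ n ∈ Icc 1 X, Complex.exp (((-(k : ℝ) * θ : ℝ) : ℂ) * Complex.I) *
          (if θ < Real.log n ∧ Real.log n ≤ θ + δ then f n else 0)) -
        ∑ j ∈ J, Cj j * Complex.exp (((((j - k : ℤ) : ℝ) * θ : ℝ) : ℂ) * Complex.I) := by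
      intro θ
      have hF : (fourier (-k) (θ : AddCircle (c + 2 * Real.pi - c)) : ℂ) =
          Complex.exp (((-(k : ℝ) * θ : ℝ) : ℂ) * Complex.I) := by
        rw [fourier_coe_apply, hsub]
        congr 1
        have hpi0 : (Real.pi : ℂ) ≠ 0 := by exact_mod_cast Real.pi_ne_zero
        push_cast
        field_simp
      rw [smul_eq_mul, hF]
      simp only [hG]
      rw [mul_sub, mul_sum, mul_sum]
      congr 1
      refine sum_congr rfl fun j _ => ?_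
      rw [mul_left_comm, ← Complex.exp_add]
      congr 2
      push_cast
      ring
    have hI1 : ∀ n ∈ Icc 1 X, IntervalIntegrable (fun θ : ℝ => Complex.exp (((-(k : ℝ) * θ : ℝ) : ℂ) * Complex.I) *
          (if θ < Real.log n ∧ Real.log n ≤ θ + δ then f n else 0)) MeasureTheory.volume c (c + 2 * Real.pi) := by
      intro n _
      have hm2 : Measurable fun θ : ℝ =>
          Complex.exp (((-(k : ℝ) * θ : ℝ) : ℂ) * Complex.I) *
            (if θ < Real.log n ∧ Real.log n ≤ θ + δ then f n else 0 : ℂ) := by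
        refine Measurable.mul ?_ (pm_meas _ _ _)
        exact (by fun_prop : Continuous fun θ : ℝ =>
          Complex.exp (((-(k : ℝ) * θ : ℝ) : ℂ) * Complex.I)).measurable
      refine MeasureTheory.IntegrableOn.intervalIntegrable ?_
      refine MeasureTheory.Measure.integrableOn_of_bounded (M := ‖f n‖)
        (by exact (isCompact_uIcc.measure_lt_top).ne) hm2.aestronglyMeasurable
        (Filter.Eventually.of_forall fun θ => ?_)
      rw [norm_mul, Complex.norm_exp_ofReal_mul_I, one_mul]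
      split_ifs
      · exact le_rfl
      · rw [norm_zero]
        exact norm_nonneg _
    have hI2 : ∀ j ∈ J, IntervalIntegrable (fun θ : ℝ => Cj j *
        Complex.exp (((((j - k : ℤ) : ℝ) * θ : ℝ) : ℂ) * Complex.I)) MeasureTheory.volume c (c + 2 * Real.pi) := by
      intro j _
      exact Continuous.intervalIntegrable (by fun_prop) _ _
    have hI1s : IntervalIntegrable (fun θ : ℝ => ∑ n ∈ Icc 1 X, Complex.exp (((-(k : ℝ) * θ : ℝ) : ℂ) * Complex.I) *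
          (if θ < Real.log n ∧ Real.log n ≤ θ + δ then f n else 0)) MeasureTheory.volume c (c + 2 * Real.pi) := by
      have h := IntervalIntegrable.sum (Icc 1 X) hI1
      have e : (∑ n ∈ Icc 1 X, fun θ : ℝ => Complex.exp (((-(k : ℝ) * θ : ℝ) : ℂ) * Complex.I) *
          (if θ < Real.log n ∧ Real.log n ≤ θ + δ then f n else 0)) = fun θ : ℝ => ∑ n ∈ Icc 1 X,
          Complex.exp (((-(k : ℝ) * θ : ℝ) : ℂ) * Complex.I) *
          (if θ < Real.log n ∧ Real.log n ≤ θ + δ then f n else 0) := by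
        ext θ
        rw [Finset.sum_apply]
      rwa [e] at h
    have hI2s : IntervalIntegrable (fun θ : ℝ => ∑ j ∈ J, Cj j *
        Complex.exp (((((j - k : ℤ) : ℝ) * θ : ℝ) : ℂ) * Complex.I)) MeasureTheory.volume c (c + 2 * Real.pi) :=
      Continuous.intervalIntegrable (by fun_prop) _ _
    have h2 : ∫ θ in c..(c + 2 * Real.pi),
        (fourier (-k) (θ : AddCircle (c + 2 * Real.pi - c)) : ℂ) • G θ =
        S k * pmw δ k - ∑ j ∈ J, Cj j * (if j - k = 0 then ((2 * Real.pi : ℝ) : ℂ) else 0) := by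
      rw [intervalIntegral.integral_congr fun θ _ => h1 θ, intervalIntegral.integral_sub hI1s hI2s,
        intervalIntegral.integral_finset_sum hI1, intervalIntegral.integral_finset_sum hI2]
      congr 1
      · simp only [hS]
        rw [sum_mul]
        refine sum_congr rfl fun n _ => ?_
        by_cases hfn : f n = 0
        · simp [hfn]
        · rw [pm_inner hδ (hn n hfn).1 (hn n hfn).2 k]
          rfl
      · refine sum_congr rfl fun j _ => ?_
        rw [intervalIntegral.integral_const_mul, pm_orth]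
    rw [fourierCoeffOn_eq_integral, h2, hsub]
    have hpi0 : ((2 * Real.pi : ℝ) : ℂ) ≠ 0 := by
      have : (2 * Real.pi : ℝ) ≠ 0 := by positivity
      exact_mod_cast this
    split_ifs with hk
    · rw [sum_eq_single_of_mem k hk (fun j _ hj => by rw [if_neg (sub_ne_zero.2 hj), mul_zero]),
        if_pos (sub_self k)]
      simp only [hCj]
      have h3 : ((1 / (2 * Real.pi) : ℝ) : ℂ) * (S k * pmw δ k) * ((2 * Real.pi : ℝ) : ℂ) = S k * pmw δ k := by
        have h4 : ((1 / (2 * Real.pi) : ℝ) : ℂ) * ((2 * Real.pi : ℝ) : ℂ) = 1 := by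
          rw [← Complex.ofReal_mul, one_div, inv_mul_cancel₀ (by positivity), Complex.ofReal_one]
        rw [mul_right_comm, h4, one_mul]
      rw [h3, sub_self, smul_zero]
    · have h0 : ∑ j ∈ J, Cj j * (if j - k = 0 then ((2 * Real.pi : ℝ) : ℂ) else 0) = 0 := by
        refine sum_eq_zero fun j hj => ?_
        have hne : j ≠ k := fun h => hk (by rw [← h]; exact hj)
        rw [if_neg (sub_ne_zero.2 hne), mul_zero]
      rw [h0, sub_zero, mul_comm (pmw δ k)]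
  have hle : ∀ J' : Finset ℤ, ∑ k ∈ J', ‖fourierCoeffOn hab G k‖ ^ 2 ≤
      (1 / (2 * Real.pi)) ^ 2 * B := by
    intro J'
    have h0 : ∑ k ∈ J', ‖fourierCoeffOn hab G k‖ ^ 2 = ∑ k ∈ J' \ J, ‖fourierCoeffOn hab G k‖ ^ 2 := by
      symm
      refine sum_subset sdiff_subset fun k hk hk' => ?_
      have hkJ : k ∈ J := by
        by_contra h
        exact hk' (mem_sdiff.2 ⟨hk, h⟩)
      rw [hcoef k, if_pos hkJ, norm_zero]
      norm_num
    rw [h0]
    refine le_trans ?_ (mul_le_mul_of_nonneg_left (hB (J' \ J) sdiff_disjoint) (by positivity))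
    rw [mul_sum]
    refine sum_le_sum fun k hk => ?_
    rw [hcoef k, if_neg (mem_sdiff.1 hk).2, norm_smul, norm_mul, Real.norm_of_nonneg (by positivity), mul_pow, mul_pow]
    exact mul_le_mul_of_nonneg_left (mul_le_mul_of_nonneg_right (pmw_sq hδ k) (by positivity))
      (by positivity)
  have hint := hasSum_le_of_sum_le hpar hle
  rw [hsub, smul_eq_mul] at hint
  have h3 : ∫ θ in c..(c + 2 * Real.pi), ‖G θ‖ ^ 2 ≤ B := by
    have h4 : ∫ θ in c..(c + 2 * Real.pi), ‖G θ‖ ^ 2 =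
        (2 * Real.pi) * ((2 * Real.pi)⁻¹ * ∫ θ in c..(c + 2 * Real.pi), ‖G θ‖ ^ 2) := by
      rw [← mul_assoc, mul_inv_cancel₀ (by positivity), one_mul]
    rw [h4]
    refine (mul_le_mul_of_nonneg_left hint (by positivity)).trans ?_
    have h5 : 2 * Real.pi * ((1 / (2 * Real.pi)) ^ 2 * B) = B / (2 * Real.pi) := by
      field_simp
    rw [h5]
    exact div_le_self hB0 (by linarith)
  rw [intervalIntegral.integral_congr (g := fun θ => ‖G θ‖ ^ 2) fun θ _ => by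
    change ‖_‖ ^ 2 = ‖G θ‖ ^ 2
    rw [← hGeq θ]]
  rw [hcX]
  exact h3

private noncomputable def cvD (f : ℕ → ℂ) (b : ℤ → ℂ) (J : Finset ℤ) (X : ℕ) (δ θ : ℝ) : ℂ :=
  cvF f X δ θ - ((1 / (2 * Real.pi) : ℝ) : ℂ) * ∑ j ∈ J, b j * ∫ φ in θ..(θ + δ), Complex.exp (Complex.I * (j * φ))

private theorem cvM_cont (b : ℤ → ℂ) (J : Finset ℤ) (δ : ℝ) :
    Continuous fun θ : ℝ => ∑ j ∈ J, b j * ∫ φ in θ..(θ + δ), Complex.exp (Complex.I * (j * φ)) := by
  have h : (fun θ : ℝ => ∑ j ∈ J, b j * ∫ φ in θ..(θ + δ), Complex.exp (Complex.I * (j * φ))) =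
      fun θ : ℝ => ∑ j ∈ J, b j * (Complex.exp (Complex.I * (j * θ)) *
        ∫ s in (0 : ℝ)..δ, Complex.exp (Complex.I * (j * s))) := by
    funext θ
    exact sum_congr rfl fun j _ => by rw [cv_inner]
  rw [h]
  fun_prop

private theorem cvF_meas (f : ℕ → ℂ) (X : ℕ) (δ : ℝ) : Measurable (cvF f X δ) := by
  unfold cvF
  refine Finset.measurable_sum _ fun n _ => ?_
  refine Measurable.ite ?_ measurable_const measurable_const
  have h1 : {θ : ℝ | θ < Real.log n ∧ Real.log n ≤ θ + δ} =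
      Set.Ico (Real.log n - δ) (Real.log n) := by
    ext θ
    simp only [Set.mem_ofPred_eq, Set.mem_Ico]
    constructor
    · rintro ⟨h, h'⟩
      exact ⟨by linarith, h⟩
    · rintro ⟨h, h'⟩
      exact ⟨h', by linarith⟩
  rw [h1]
  exact measurableSet_Ico

private theorem cvD_meas (f : ℕ → ℂ) (b : ℤ → ℂ) (J : Finset ℤ) (X : ℕ) (δ : ℝ) :
    Measurable (cvD f b J X δ) := by
  unfold cvD
  exact (cvF_meas f X δ).sub ((cvM_cont b J δ).measurable.const_mul _)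

private theorem cvD_bd (f : ℕ → ℂ) (b : ℤ → ℂ) (J : Finset ℤ) (X : ℕ) (δ : ℝ) :
    ∃ M : ℝ, ∀ θ, ‖cvD f b J X δ θ‖ ≤ M := by
  refine ⟨∑ n ∈ Icc 1 X, ‖f n‖ + ‖((1 / (2 * Real.pi) : ℝ) : ℂ)‖ *
    ∑ j ∈ J, ‖b j‖ * ‖∫ s in (0 : ℝ)..δ, Complex.exp (Complex.I * (j * s))‖, fun θ => ?_⟩
  unfold cvD
  refine (norm_sub_le _ _).trans (add_le_add ?_ ?_)
  · unfold cvF
    refine (norm_sum_le _ _).trans (sum_le_sum fun n _ => ?_)
    split_ifs
    · exact le_rfl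
    · rw [norm_zero]; exact norm_nonneg _
  · rw [norm_mul]
    refine mul_le_mul_of_nonneg_left ?_ (norm_nonneg _)
    refine (norm_sum_le _ _).trans (sum_le_sum fun j _ => ?_)
    rw [norm_mul, cv_inner, norm_mul, cv_exp, one_mul]

private theorem ii_of_bd {g : ℝ → ℝ} (hg : Measurable g) {M : ℝ} (hM : ∀ θ, |g θ| ≤ M) (a b : ℝ) :
    IntervalIntegrable g volume a b := by
  refine IntervalIntegrable.mono_fun (f := fun _ : ℝ => M) intervalIntegrable_const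
    hg.aestronglyMeasurable ?_
  refine Filter.Eventually.of_forall fun θ => ?_
  show ‖g θ‖ ≤ ‖M‖
  rw [Real.norm_eq_abs, Real.norm_eq_abs]
  exact (hM θ).trans (le_abs_self _)

private theorem cv_cs {g : ℝ → ℝ} {a b : ℝ} (hab : a ≤ b) (h1 : IntervalIntegrable g volume a b)
    (h2 : IntervalIntegrable (fun θ => g θ ^ 2) volume a b) :
    (∫ θ in a..b, g θ) ^ 2 ≤ (b - a) * ∫ θ in a..b, g θ ^ 2 := by
  rcases hab.eq_or_lt with h | h
  · rw [h]; simp
  set c := (∫ θ in a..b, g θ) / (b - a) with hc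
  have hba : 0 < b - a := by linarith
  have h3 : 0 ≤ ∫ θ in a..b, (g θ - c) ^ 2 :=
    intervalIntegral.integral_nonneg hab fun θ _ => sq_nonneg _
  have h4 : ∫ θ in a..b, (g θ - c) ^ 2 = (∫ θ in a..b, g θ ^ 2) - 2 * c * (∫ θ in a..b, g θ) + c ^ 2 * (b - a) := by
    have h5 : ∀ θ, (g θ - c) ^ 2 = (g θ ^ 2 - 2 * c * g θ) + c ^ 2 := by intro θ; ring
    simp only [h5]
    rw [intervalIntegral.integral_add (h2.sub (h1.const_mul _)) intervalIntegrable_const,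
      intervalIntegral.integral_sub h2 (h1.const_mul _), intervalIntegral.integral_const_mul,
      intervalIntegral.integral_const, smul_eq_mul]
    ring
  rw [h4] at h3
  have h6 : (∫ θ in a..b, g θ) = c * (b - a) := by rw [hc]; field_simp
  rw [h6] at h3 ⊢
  nlinarith

/-- one window -/
private theorem cv_win {f : ℕ → ℂ} {b : ℤ → ℂ} {J : Finset ℤ} {S Bb T δ : ℝ} {X H x : ℕ}
    (hX : 1 ≤ X) (hδ : 0 < δ) (hδ1 : δ ≤ 1) (hT : 1 ≤ T) (hBb : 0 ≤ Bb) (hf : ∀ n, ‖f n‖ ≤ S)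
    (hJ : ∀ j ∈ J, |(j : ℝ)| ≤ T) (hb : ∀ j ∈ J, ‖b j‖ ≤ Bb * X) (hx : X0 X + 1 ≤ x) (hxH : x + H ≤ X) :
    δ * ‖∑ n ∈ Ioc x (x + H), (f n - mo b J X n)‖ ≤
      (∫ θ in (Real.log x)..(Real.log ((x + H : ℕ) : ℝ)), ‖cvD f b J X δ θ‖) +
      δ * ((4 + 2 * Real.exp (2 * Real.pi) ^ 2) * (S + J.card * Bb) * (X * δ + T * H / X)) := by
  have hE : 1 ≤ Real.exp (2 * Real.pi) := Real.one_le_exp (by positivity)
  set E := Real.exp (2 * Real.pi) with hEd
  have hX0 : (0 : ℝ) < X := by exact_mod_cast hX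
  have hx1 : 1 ≤ x := by omega
  have hx0 : (0 : ℝ) < x := by exact_mod_cast hx1
  have hxE : (X : ℝ) ≤ E * x := by
    have h1 : (X : ℝ) * Real.exp (-(2 * Real.pi)) < (X0 X : ℝ) + 1 := Nat.lt_floor_add_one _
    have h2 : ((X0 X : ℝ) + 1) ≤ x := by exact_mod_cast hx
    rw [Real.exp_neg, ← hEd] at h1
    have h3 : (X : ℝ) * E⁻¹ * E = X := by field_simp
    nlinarith
  have hS : 0 ≤ S := (norm_nonneg _).trans (hf 0)
  have hxy : x ≤ x + H := by omega
  have hab : Real.log x ≤ Real.log ((x + H : ℕ) : ℝ) := Real.log_le_log hx0 (by exact_mod_cast hxy)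
  set a := Real.log (x : ℝ) with ha
  set d := Real.log ((x + H : ℕ) : ℝ) with hd
  -- the model on the window
  have hmo : ∑ n ∈ Ioc x (x + H), mo b J X n = ((1 / (2 * Real.pi) : ℝ) : ℂ) * ∑ j ∈ J, b j *
      ∑ n ∈ Ioc x (x + H), ((1 / (n : ℝ) : ℝ) : ℂ) * (starRingEnd ℂ) (cj j n) := by
    have h1 : ∀ n ∈ Ioc x (x + H), mo b J X n = ((1 / (2 * Real.pi) : ℝ) : ℂ) *
        ∑ j ∈ J, b j * (((1 / (n : ℝ) : ℝ) : ℂ) * (starRingEnd ℂ) (cj j n)) := by
      intro n hn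
      rw [mem_Ioc] at hn
      unfold mo
      rw [if_pos ⟨by omega, by omega⟩]
      have h2 : ((1 / (2 * Real.pi * n) : ℝ) : ℂ) = ((1 / (2 * Real.pi) : ℝ) : ℂ) * ((1 / (n : ℝ) : ℝ) : ℂ) := by
        push_cast
        ring
      rw [h2, mul_assoc, mul_sum]
      congr 1
      exact sum_congr rfl fun j _ => by ring
    rw [sum_congr rfl h1, ← mul_sum, sum_comm]
    congr 1
    exact sum_congr rfl fun j _ => by rw [mul_sum]
  have hint : ∫ θ in a..d, cvD f b J X δ θ = (∫ θ in a..d, cvF f X δ θ) -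
      ((1 / (2 * Real.pi) : ℝ) : ℂ) * ∑ j ∈ J, b j * ∫ θ in a..d, ∫ φ in θ..(θ + δ), Complex.exp (Complex.I * (j * φ)) := by
    unfold cvD
    rw [intervalIntegral.integral_sub (cvF_ii f X δ a d) (((cvM_cont b J δ).const_mul _).intervalIntegrable _ _),
      intervalIntegral.integral_const_mul, intervalIntegral.integral_finsetSum]
    · congr 2
      exact sum_congr rfl fun j _ => by rw [intervalIntegral.integral_const_mul]
    · intro j _
      have h := (cvM_cont b {j} δ).intervalIntegrable (μ := volume) a d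
      simpa using h
  have hdiff : (δ : ℂ) * ∑ n ∈ Ioc x (x + H), (f n - mo b J X n) - ∫ θ in a..d, cvD f b J X δ θ =
      ((δ : ℂ) * ∑ n ∈ Ioc x (x + H), f n - ∫ θ in a..d, cvF f X δ θ) -
      ((1 / (2 * Real.pi) : ℝ) : ℂ) * ∑ j ∈ J, b j *
        ((δ : ℂ) * ∑ n ∈ Ioc x (x + H), ((1 / (n : ℝ) : ℝ) : ℂ) * (starRingEnd ℂ) (cj j n) -
          ∫ θ in a..d, ∫ φ in θ..(θ + δ), Complex.exp (Complex.I * (j * φ))) := by
    rw [sum_sub_distrib, hmo, hint]
    have h1 : ∑ j ∈ J, b j *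
        ((δ : ℂ) * ∑ n ∈ Ioc x (x + H), ((1 / (n : ℝ) : ℝ) : ℂ) * (starRingEnd ℂ) (cj j n) -
          ∫ θ in a..d, ∫ φ in θ..(θ + δ), Complex.exp (Complex.I * (j * φ))) =
        (δ : ℂ) * (∑ j ∈ J, b j * ∑ n ∈ Ioc x (x + H), ((1 / (n : ℝ) : ℝ) : ℂ) * (starRingEnd ℂ) (cj j n)) -
        ∑ j ∈ J, b j * ∫ θ in a..d, ∫ φ in θ..(θ + δ), Complex.exp (Complex.I * (j * φ)) := by
      rw [mul_sum, ← sum_sub_distrib]
      exact sum_congr rfl fun j _ => by ring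
    rw [h1]
    ring
  have hF := cv_f hf (X := X) (δ := δ) hx1 hxy hxH hδ hδ1
  rw [← ha, ← hd] at hF
  have hj : ∀ j ∈ J, ‖b j * ((δ : ℂ) * ∑ n ∈ Ioc x (x + H), ((1 / (n : ℝ) : ℝ) : ℂ) * (starRingEnd ℂ) (cj j n) -
      ∫ θ in a..d, ∫ φ in θ..(θ + δ), Complex.exp (Complex.I * (j * φ)))‖ ≤
      (Bb * X) * (δ * (H * (2 * T / (x : ℝ) ^ 2)) + 2 * δ ^ 2) := by
    intro j hjJ
    rw [norm_mul]
    refine mul_le_mul (hb j hjJ) ?_ (norm_nonneg _) (by positivity)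
    have h1 := cv_sum hx1 hxy j
    rw [← ha, ← hd] at h1
    have h2 := cv_dbl hδ.le a d j
    have h3 : (δ : ℂ) * ∑ n ∈ Ioc x (x + H), ((1 / (n : ℝ) : ℝ) : ℂ) * (starRingEnd ℂ) (cj j n) -
        ∫ θ in a..d, ∫ φ in θ..(θ + δ), Complex.exp (Complex.I * (j * φ)) =
        (δ : ℂ) * (∑ n ∈ Ioc x (x + H), ((1 / (n : ℝ) : ℝ) : ℂ) * (starRingEnd ℂ) (cj j n) -
          ∫ φ in a..d, Complex.exp (Complex.I * (j * φ))) +
        ((δ : ℂ) * (∫ φ in a..d, Complex.exp (Complex.I * (j * φ))) -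
          ∫ θ in a..d, ∫ φ in θ..(θ + δ), Complex.exp (Complex.I * (j * φ))) := by ring
    rw [h3]
    refine (norm_add_le _ _).trans (add_le_add ?_ h2)
    rw [norm_mul, Complex.norm_real, Real.norm_of_nonneg hδ.le]
    refine mul_le_mul_of_nonneg_left (h1.trans ?_) hδ.le
    have h4 : ((x + H : ℕ) : ℝ) - x = H := by push_cast; ring
    rw [h4]
    refine mul_le_mul_of_nonneg_left ?_ (Nat.cast_nonneg _)
    have h5 := hJ j hjJ
    exact div_le_div_of_nonneg_right (by linarith) (by positivity)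
  have hsum : ‖((1 / (2 * Real.pi) : ℝ) : ℂ) * ∑ j ∈ J, b j *
        ((δ : ℂ) * ∑ n ∈ Ioc x (x + H), ((1 / (n : ℝ) : ℝ) : ℂ) * (starRingEnd ℂ) (cj j n) -
          ∫ θ in a..d, ∫ φ in θ..(θ + δ), Complex.exp (Complex.I * (j * φ)))‖ ≤
      J.card * ((Bb * X) * (δ * (H * (2 * T / (x : ℝ) ^ 2)) + 2 * δ ^ 2)) := by
    rw [norm_mul]
    have h1 : ‖((1 / (2 * Real.pi) : ℝ) : ℂ)‖ ≤ 1 := by
      rw [Complex.norm_real, Real.norm_of_nonneg (by positivity)]
      have := Real.pi_gt_three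
      rw [div_le_one (by positivity)]
      linarith
    have h2 := (norm_sum_le J fun j => b j *
        ((δ : ℂ) * ∑ n ∈ Ioc x (x + H), ((1 / (n : ℝ) : ℝ) : ℂ) * (starRingEnd ℂ) (cj j n) -
          ∫ θ in a..d, ∫ φ in θ..(θ + δ), Complex.exp (Complex.I * (j * φ)))).trans (sum_le_sum hj)
    rw [sum_const, nsmul_eq_mul] at h2
    calc _ ≤ 1 * _ := mul_le_mul h1 h2 (norm_nonneg _) (by norm_num)
      _ = _ := one_mul _
  have hx2 : (X : ℝ) * (H * (2 * T / (x : ℝ) ^ 2)) ≤ 2 * E ^ 2 * (T * H / X) := by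
    have h1 : (X : ℝ) ^ 2 ≤ (E * x) ^ 2 := pow_le_pow_left₀ hX0.le hxE 2
    have h2 : (X : ℝ) / (x : ℝ) ^ 2 ≤ E ^ 2 / X := by
      rw [div_le_div_iff₀ (by positivity) hX0]
      nlinarith
    have h3 : (X : ℝ) * (H * (2 * T / (x : ℝ) ^ 2)) = 2 * T * H * ((X : ℝ) / (x : ℝ) ^ 2) := by ring
    have h4 : 2 * E ^ 2 * (T * H / X) = 2 * T * H * (E ^ 2 / X) := by ring
    rw [h3, h4]
    exact mul_le_mul_of_nonneg_left h2 (by positivity)
  have htot : ‖(δ : ℂ) * ∑ n ∈ Ioc x (x + H), (f n - mo b J X n) - ∫ θ in a..d, cvD f b J X δ θ‖ ≤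
      δ * ((4 + 2 * E ^ 2) * (S + J.card * Bb) * (X * δ + T * H / X)) := by
    rw [hdiff]
    refine (norm_sub_le _ _).trans ((add_le_add hF hsum).trans ?_)
    have h1 : (J.card : ℝ) * ((Bb * X) * (δ * (H * (2 * T / (x : ℝ) ^ 2)) + 2 * δ ^ 2)) =
        δ * (J.card * Bb * ((X : ℝ) * (H * (2 * T / (x : ℝ) ^ 2)) + 2 * (X * δ))) := by ring
    rw [h1]
    have h2 : δ * S * (4 * X * δ) = δ * (4 * S * (X * δ)) := by ring
    rw [h2, ← mul_add]
    refine mul_le_mul_of_nonneg_left ?_ hδ.le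
    have hu : (0 : ℝ) ≤ X * δ := by positivity
    have hv : (0 : ℝ) ≤ T * H / X := by positivity
    have hm : (0 : ℝ) ≤ J.card * Bb := by positivity
    have h3 := mul_le_mul_of_nonneg_left hx2 hm
    have hE2 : 1 ≤ E ^ 2 := one_le_pow₀ hE
    nlinarith [mul_nonneg hS hu, mul_nonneg hS hv, mul_nonneg hm hu, mul_nonneg hm hv,
      mul_nonneg (mul_nonneg hS hu) (by linarith : (0 : ℝ) ≤ E ^ 2 - 1),
      mul_nonneg (mul_nonneg hS hv) (by linarith : (0 : ℝ) ≤ E ^ 2 - 1),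
      mul_nonneg (mul_nonneg hm hu) (by linarith : (0 : ℝ) ≤ E ^ 2 - 1)]
  have hfin : δ * ‖∑ n ∈ Ioc x (x + H), (f n - mo b J X n)‖ = ‖(δ : ℂ) * ∑ n ∈ Ioc x (x + H), (f n - mo b J X n)‖ := by
    rw [norm_mul, Complex.norm_real, Real.norm_of_nonneg hδ.le]
  rw [hfin]
  have h6 := norm_sub_norm_le ((δ : ℂ) * ∑ n ∈ Ioc x (x + H), (f n - mo b J X n)) (∫ θ in a..d, cvD f b J X δ θ)
  have h7 : ‖∫ θ in a..d, cvD f b J X δ θ‖ ≤ ∫ θ in a..d, ‖cvD f b J X δ θ‖ :=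
    intervalIntegral.norm_integral_le_integral_norm hab
  linarith

private theorem cvD_sq_ii (f : ℕ → ℂ) (b : ℤ → ℂ) (J : Finset ℤ) (X : ℕ) (δ a d : ℝ) :
    IntervalIntegrable (fun θ => ‖cvD f b J X δ θ‖ ^ 2) volume a d := by
  obtain ⟨M, hM⟩ := cvD_bd f b J X δ
  refine ii_of_bd (M := M ^ 2) ((cvD_meas f b J X δ).norm.pow_const 2) (fun θ => ?_) a d
  rw [abs_of_nonneg (by positivity)]
  exact pow_le_pow_left₀ (norm_nonneg _) (hM θ) 2

/-- the square of one window -/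
private theorem cv_win2 {f : ℕ → ℂ} {b : ℤ → ℂ} {J : Finset ℤ} {S Bb T δ : ℝ} {X H x : ℕ}
    (hX : 1 ≤ X) (hδ : 0 < δ) (hδ1 : δ ≤ 1) (hT : 1 ≤ T) (hBb : 0 ≤ Bb) (hf : ∀ n, ‖f n‖ ≤ S)
    (hJ : ∀ j ∈ J, |(j : ℝ)| ≤ T) (hb : ∀ j ∈ J, ‖b j‖ ≤ Bb * X) (hx : X0 X + 1 ≤ x) (hxH : x + H ≤ X) :
    ‖∑ n ∈ Ioc x (x + H), (f n - mo b J X n)‖ ^ 2 ≤
      2 * Real.exp (2 * Real.pi) * (H / (X * δ ^ 2)) *
        (∫ θ in (Real.log x)..(Real.log ((x + H : ℕ) : ℝ)), ‖cvD f b J X δ θ‖ ^ 2) +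
      2 * ((4 + 2 * Real.exp (2 * Real.pi) ^ 2) * (S + J.card * Bb) * (X * δ + T * H / X)) ^ 2 := by
  have h0 := cv_win hX hδ hδ1 hT hBb hf hJ hb hx hxH
  set K := (4 + 2 * Real.exp (2 * Real.pi) ^ 2) * (S + J.card * Bb) * (X * δ + T * H / X) with hK
  set E := Real.exp (2 * Real.pi) with hEd
  have hX0 : (0 : ℝ) < X := by exact_mod_cast hX
  have hx0 : (0 : ℝ) < x := by exact_mod_cast (by omega : 0 < x)
  have hxE : (X : ℝ) ≤ E * x := by
    have h1 : (X : ℝ) * Real.exp (-(2 * Real.pi)) < (X0 X : ℝ) + 1 := Nat.lt_floor_add_one _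
    have h2 : ((X0 X : ℝ) + 1) ≤ x := by exact_mod_cast hx
    have hE0 : 0 < E := Real.exp_pos _
    rw [Real.exp_neg, ← hEd] at h1
    have h3 : (X : ℝ) * E⁻¹ * E = X := by field_simp
    nlinarith
  have hxy : x ≤ x + H := by omega
  have hab : Real.log x ≤ Real.log ((x + H : ℕ) : ℝ) := Real.log_le_log hx0 (by exact_mod_cast hxy)
  obtain ⟨M, hM⟩ := cvD_bd f b J X δ
  have hi1 : IntervalIntegrable (fun θ => ‖cvD f b J X δ θ‖) volume (Real.log x) (Real.log ((x + H : ℕ) : ℝ)) :=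
    ii_of_bd (M := M) (cvD_meas f b J X δ).norm (fun θ => by rw [abs_of_nonneg (norm_nonneg _)]; exact hM θ) _ _
  have hcs := cv_cs hab hi1 (cvD_sq_ii f b J X δ _ _)
  set I1 := ∫ θ in (Real.log x)..(Real.log ((x + H : ℕ) : ℝ)), ‖cvD f b J X δ θ‖ with hI1
  set I2 := ∫ θ in (Real.log x)..(Real.log ((x + H : ℕ) : ℝ)), ‖cvD f b J X δ θ‖ ^ 2 with hI2
  have hI20 : 0 ≤ I2 := intervalIntegral.integral_nonneg hab fun θ _ => sq_nonneg _
  have hI10 : 0 ≤ I1 := intervalIntegral.integral_nonneg hab fun θ _ => norm_nonneg _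
  have hlen : Real.log ((x + H : ℕ) : ℝ) - Real.log x ≤ E * (H / X) := by
    have hxHp : (0 : ℝ) < ((x + H : ℕ) : ℝ) := by exact_mod_cast (by omega : 0 < x + H)
    have h1 : Real.log ((x + H : ℕ) : ℝ) - Real.log x = Real.log (((x + H : ℕ) : ℝ) / x) := by
      rw [Real.log_div hxHp.ne' hx0.ne']
    rw [h1]
    have h2 := Real.log_le_sub_one_of_pos (x := ((x + H : ℕ) : ℝ) / x) (div_pos hxHp hx0)
    refine h2.trans ?_
    have h3 : ((x + H : ℕ) : ℝ) / x - 1 = H / x := by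
      push_cast
      field_simp
      ring
    rw [h3, mul_div_assoc', div_le_div_iff₀ hx0 hX0]
    have hH : (0 : ℝ) ≤ H := Nat.cast_nonneg _
    nlinarith
  set W := ‖∑ n ∈ Ioc x (x + H), (f n - mo b J X n)‖ with hW
  have hW0 : 0 ≤ W := norm_nonneg _
  have h2 : (δ * W) ^ 2 ≤ 2 * I1 ^ 2 + 2 * (δ * K) ^ 2 := by
    have h3 : (δ * W) ^ 2 ≤ (I1 + δ * K) ^ 2 := pow_le_pow_left₀ (by positivity) h0 2
    nlinarith [sq_nonneg (I1 - δ * K)]
  have h4 : I1 ^ 2 ≤ E * (H / X) * I2 := hcs.trans (mul_le_mul_of_nonneg_right hlen hI20)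
  have h5 : δ ^ 2 * W ^ 2 ≤ δ ^ 2 * (2 * E * (H / (X * δ ^ 2)) * I2 + 2 * K ^ 2) := by
    have h6 : δ ^ 2 * (2 * E * (H / (X * δ ^ 2)) * I2 + 2 * K ^ 2) = 2 * (E * (H / X) * I2) + 2 * (δ * K) ^ 2 := by
      field_simp
    rw [h6]
    have h7 : (δ * W) ^ 2 = δ ^ 2 * W ^ 2 := by ring
    linarith
  exact le_of_mul_le_mul_left h5 (by positivity)

/-- the windows cover the turn `H` times -/
private theorem cv_cover {g : ℝ → ℝ} (hg : ∀ θ, 0 ≤ g θ) (hi : ∀ a b : ℝ, IntervalIntegrable g volume a b)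
    {X H : ℕ} (hX : 1 ≤ X) :
    ∑ x ∈ Icc (X0 X + 1) (X - H), (∫ θ in (Real.log x)..(Real.log ((x + H : ℕ) : ℝ)), g θ) ≤
      H * ∫ θ in (Real.log X - 2 * Real.pi)..(Real.log X), g θ := by
  have hX' : (0 : ℝ) < X := by exact_mod_cast hX
  have hpi := Real.pi_pos
  have hI0 : 0 ≤ ∫ θ in (Real.log X - 2 * Real.pi)..(Real.log X), g θ :=
    intervalIntegral.integral_nonneg (by linarith) fun θ _ => hg θ
  by_cases hne : X0 X + 1 ≤ X - H
  swap
  · rw [Icc_eq_empty hne, sum_empty]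
    positivity
  have h5 : ∀ n : ℕ, (∫ θ in (Real.log n)..(Real.log ((n + H : ℕ) : ℝ)), g θ) =
      ∑ i ∈ range H, ∫ θ in (Real.log ((n + i : ℕ) : ℝ))..(Real.log ((n + (i + 1) : ℕ) : ℝ)), g θ := by
    intro n
    have h6 := intervalIntegral.sum_integral_adjacent_intervals (n := H) (a := fun i : ℕ => Real.log ((n + i : ℕ) : ℝ))
      (f := g) (μ := volume) fun i _ => hi _ _
    rw [h6]
    rw [Nat.add_zero]
  simp only [h5]
  rw [sum_comm]
  have h7 : ∀ i ∈ range H, ∑ n ∈ Icc (X0 X + 1) (X - H),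
      (∫ θ in (Real.log ((n + i : ℕ) : ℝ))..(Real.log ((n + (i + 1) : ℕ) : ℝ)), g θ) ≤
      ∫ θ in (Real.log X - 2 * Real.pi)..(Real.log X), g θ := by
    intro i hiH
    rw [mem_range] at hiH
    have h8 : Icc (X0 X + 1) (X - H) = Ico (X0 X + 1) (X - H + 1) := by
      ext n
      simp only [mem_Icc, mem_Ico]
      omega
    rw [h8]
    have h9 : ∑ n ∈ Ico (X0 X + 1) (X - H + 1),
        (∫ θ in (Real.log ((n + i : ℕ) : ℝ))..(Real.log ((n + (i + 1) : ℕ) : ℝ)), g θ) =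
        ∫ θ in (Real.log ((X0 X + 1 + i : ℕ) : ℝ))..(Real.log ((X - H + 1 + i : ℕ) : ℝ)), g θ := by
      have h10 := intervalIntegral.sum_integral_adjacent_intervals_Ico (m := X0 X + 1) (n := X - H + 1)
        (a := fun n : ℕ => Real.log ((n + i : ℕ) : ℝ)) (f := g) (μ := volume) (by omega)
        fun n _ => hi _ _
      rw [← h10]
      refine sum_congr rfl fun n _ => ?_
      rw [show n + (i + 1) = n + 1 + i by ring]
    rw [h9]
    refine intervalIntegral.integral_mono_interval ?_ ?_ ?_ ?_ (hi _ _)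
    · have h1 : (X : ℝ) * Real.exp (-(2 * Real.pi)) < (X0 X : ℝ) + 1 := Nat.lt_floor_add_one _
      have h2 : Real.log ((X : ℝ) * Real.exp (-(2 * Real.pi))) = Real.log X - 2 * Real.pi := by
        rw [Real.log_mul hX'.ne' (Real.exp_ne_zero _), Real.log_exp]
        ring
      rw [← h2]
      apply Real.log_le_log (by positivity)
      push_cast
      have h3 : (0 : ℝ) ≤ i := Nat.cast_nonneg _
      linarith
    · apply Real.log_le_log
      · exact_mod_cast (by omega : 0 < X0 X + 1 + i)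
      · exact_mod_cast (by omega : X0 X + 1 + i ≤ X - H + 1 + i)
    · apply Real.log_le_log
      · exact_mod_cast (by omega : 0 < X - H + 1 + i)
      · exact_mod_cast (by omega : X - H + 1 + i ≤ X)
    · exact Filter.Eventually.of_forall fun θ => hg θ
  refine (sum_le_sum h7).trans ?_
  rw [sum_const, card_range, nsmul_eq_mul]

private theorem cv_triv {f : ℕ → ℂ} {b : ℤ → ℂ} {J : Finset ℤ} {S Bb : ℝ} {X H : ℕ} (hX : 1 ≤ X)
    (hBb : 0 ≤ Bb) (hf : ∀ n, ‖f n‖ ≤ S) (hb : ∀ j ∈ J, ‖b j‖ ≤ Bb * X) (y : ℕ) :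
    ‖∑ n ∈ Ioc (y - H) y, (f n - mo b J X n)‖ ^ 2 ≤ (H * (Real.exp (2 * Real.pi) * (S + J.card * Bb))) ^ 2 := by
  have hE : 1 ≤ Real.exp (2 * Real.pi) := Real.one_le_exp (by positivity)
  set E := Real.exp (2 * Real.pi) with hEd
  have hX0 : (0 : ℝ) < X := by exact_mod_cast hX
  have hS : 0 ≤ S := (norm_nonneg _).trans (hf 0)
  have hm : (0 : ℝ) ≤ J.card * Bb := by positivity
  have hmo : ∀ n, ‖mo b J X n‖ ≤ E * (J.card * Bb) := by
    intro n
    unfold mo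
    split_ifs with h
    · have hn : 1 ≤ n := by omega
      have hn0 : (0 : ℝ) < n := by exact_mod_cast hn
      have hxE : (X : ℝ) ≤ E * n := by
        have h1 : (X : ℝ) * Real.exp (-(2 * Real.pi)) < (X0 X : ℝ) + 1 := Nat.lt_floor_add_one _
        have h2 : ((X0 X : ℝ) + 1) ≤ n := by exact_mod_cast h.1
        have hE0 : 0 < E := Real.exp_pos _
        rw [Real.exp_neg, ← hEd] at h1
        have h3 : (X : ℝ) * E⁻¹ * E = X := by field_simp
        nlinarith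
      rw [norm_mul, Complex.norm_real, Real.norm_of_nonneg (by positivity)]
      have h4 : ‖∑ j ∈ J, b j * (starRingEnd ℂ) (cj j n)‖ ≤ J.card * (Bb * X) := by
        refine (norm_sum_le _ _).trans ?_
        have h5 : ∀ j ∈ J, ‖b j * (starRingEnd ℂ) (cj j n)‖ ≤ Bb * X := by
          intro j hj
          rw [norm_mul, RCLike.norm_conj]
          have h6 : ‖cj j n‖ = 1 := by
            unfold cj
            rw [Complex.norm_exp_ofReal_mul_I]
          rw [h6, mul_one]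
          exact hb j hj
        refine (sum_le_sum h5).trans ?_
        rw [sum_const, nsmul_eq_mul]
      have h7 : 1 / (2 * Real.pi * n) ≤ E / X := by
        have hpi := Real.pi_gt_three
        rw [div_le_div_iff₀ (by positivity) hX0]
        nlinarith
      calc _ ≤ (E / X) * (J.card * (Bb * X)) := mul_le_mul h7 h4 (norm_nonneg _) (by positivity)
        _ = E * (J.card * Bb) := by field_simp
    · rw [norm_zero]; positivity
  have h1 : ‖∑ n ∈ Ioc (y - H) y, (f n - mo b J X n)‖ ≤ H * (E * (S + J.card * Bb)) := by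
    refine (norm_sum_le _ _).trans ?_
    have h2 : ∀ n ∈ Ioc (y - H) y, ‖f n - mo b J X n‖ ≤ E * (S + J.card * Bb) := by
      intro n _
      refine (norm_sub_le _ _).trans ((add_le_add (hf n) (hmo n)).trans ?_)
      nlinarith
    refine (sum_le_sum h2).trans ?_
    rw [sum_const, nsmul_eq_mul, Nat.card_Ioc]
    refine mul_le_mul_of_nonneg_right ?_ (by positivity)
    exact_mod_cast (by omega : y - (y - H) ≤ H)
  exact pow_le_pow_left₀ (norm_nonneg _) h1 2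

private theorem cv_low {f : ℕ → ℂ} {b : ℤ → ℂ} {J : Finset ℤ} {X H : ℕ}
    (hf : ∀ n, f n ≠ 0 → X < 300 * n ∧ n ≤ X) {y : ℕ} (hy : y ≤ X0 X) :
    ∑ n ∈ Ioc (y - H) y, (f n - mo b J X n) = 0 := by
  refine sum_eq_zero fun n hn => ?_
  rw [mem_Ioc] at hn
  have h1 : mo b J X n = 0 := by
    unfold mo
    rw [if_neg]
    rintro ⟨h, -⟩
    omega
  have h2 : f n = 0 := by
    by_contra h
    have h3 := (hf n h).1
    have h4 : (X0 X : ℝ) ≤ (X : ℝ) * Real.exp (-(2 * Real.pi)) := Nat.floor_le (by positivity)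
    have h5 : (300 : ℝ) ≤ Real.exp (2 * Real.pi) := by
      have h6 : (2.7 : ℝ) ≤ Real.exp 1 := by have := Real.exp_one_gt_d9; linarith
      have h7 : Real.exp 6 ≤ Real.exp (2 * Real.pi) := by
        apply Real.exp_le_exp.2
        have := Real.pi_gt_three
        linarith
      have h8 : Real.exp 6 = Real.exp 1 ^ 6 := by
        rw [← Real.exp_nat_mul]; norm_num
      have h9 : (2.7 : ℝ) ^ 6 ≤ Real.exp 1 ^ 6 := pow_le_pow_left₀ (by norm_num) h6 6
      have h10 : (300 : ℝ) ≤ 2.7 ^ 6 := by norm_num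
      linarith
    have h11 : (X : ℝ) < 300 * n := by exact_mod_cast h3
    have h12 : (n : ℝ) ≤ X0 X := by exact_mod_cast (by omega : n ≤ X0 X)
    have h13 : Real.exp (-(2 * Real.pi)) * Real.exp (2 * Real.pi) = 1 := by
      rw [← Real.exp_add]; simp
    have h14 : 0 < Real.exp (-(2 * Real.pi)) := Real.exp_pos _
    have h15 : 300 * Real.exp (-(2 * Real.pi)) ≤ 1 := by nlinarith
    have h16 : (0 : ℝ) ≤ X := Nat.cast_nonneg _
    nlinarith
  rw [h1, h2, sub_zero]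

theorem tconv : ∃ C : ℝ, 0 < C ∧ ∀ (X H t : ℕ) (f : ℕ → ℂ) (J : Finset ℤ) (S Bb T B : ℝ), 1 ≤ H → 1 ≤ t →
    1000 * (t * H) ≤ X → 1 ≤ S → 1 ≤ Bb → 1 ≤ T → (∀ n, f n ≠ 0 → X < 300 * n ∧ n ≤ X) → (∀ n, ‖f n‖ ≤ S) →
    (∀ j ∈ J, |(j : ℝ)| ≤ T) → (∀ j ∈ J, ‖∑ n ∈ Icc 1 X, f n * cj j n‖ ≤ Bb * X) →
    (∀ J' : Finset ℤ, Disjoint J' J →
      ∑ j ∈ J', kap ((H : ℝ) / (t * X)) j * ‖∑ n ∈ Icc 1 X, f n * cj j n‖ ^ 2 ≤ B) →
      ∑ y ∈ range (X + H + 1), ‖∑ n ∈ Ioc (y - H) y,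
        (f n - mo (fun j => ∑ l ∈ Icc 1 X, f l * cj j l) J X n)‖ ^ 2 ≤
          C * (t ^ 2 * X * B + X * ((S + J.card * Bb) * ((H : ℝ) / t + t + T * H / X)) ^ 2 +
            (H : ℝ) ^ 3 * (S + J.card * Bb) ^ 2) := by
  have hE : 1 ≤ Real.exp (2 * Real.pi) := Real.one_le_exp (by positivity)
  set E := Real.exp (2 * Real.pi) with hEd
  refine ⟨2 * E + 2 * (4 + 2 * E ^ 2) ^ 2 + 2 * E ^ 2, by positivity, ?_⟩
  intro X H t f J S Bb T B hH ht hX hS hBb hT hf hfS hJ hb hB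
  have hX1 : 1 ≤ X := by nlinarith
  have hHX : H ≤ X := by nlinarith
  have hX0 : (0 : ℝ) < X := by exact_mod_cast hX1
  have hH0 : (0 : ℝ) < H := by exact_mod_cast hH
  have ht0 : (0 : ℝ) < t := by exact_mod_cast ht
  have hB0 : 0 ≤ B := by simpa using hB ∅ (disjoint_empty_left _)
  set δ : ℝ := (H : ℝ) / (t * X) with hδd
  have hδ : 0 < δ := by positivity
  have hδ1 : δ ≤ 1 := by
    rw [hδd, div_le_one (by positivity)]
    have h1 : (H : ℝ) ≤ X := by exact_mod_cast hHX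
    have h2 : (1 : ℝ) ≤ t := by exact_mod_cast ht
    nlinarith
  have hδ2 : δ ≤ 1 / 2 := by
    rw [hδd, div_le_iff₀ (by positivity)]
    have h1 : 1000 * ((t : ℝ) * H) ≤ X := by exact_mod_cast hX
    have h2 : (1 : ℝ) ≤ t := by exact_mod_cast ht
    have h3 : (H : ℝ) ≤ t * H := by nlinarith
    have h4 : (X : ℝ) ≤ t * X := by nlinarith
    linarith
  have hpars := tparsM hX1 f hf hδ hδ2 J hB
  set b : ℤ → ℂ := fun j => ∑ l ∈ Icc 1 X, f l * cj j l with hbd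
  have hI : ∫ θ in (Real.log X - 2 * Real.pi)..(Real.log X), ‖cvD f b J X δ θ‖ ^ 2 ≤ B := hpars
  have hXδ : (X : ℝ) * δ = H / t := by
    rw [hδd]; field_simp
  have hco : (H : ℝ) / (X * δ ^ 2) = t ^ 2 * X / H := by
    rw [hδd]; field_simp
  set Q := S + J.card * Bb with hQ
  have hQ0 : 0 ≤ Q := by positivity
  set K := (4 + 2 * E ^ 2) * Q * (X * δ + T * H / X) with hK
  set Tr := (H * (E * Q)) ^ 2 with hTr
  have hTr0 : 0 ≤ Tr := sq_nonneg _
  have hpt : ∀ y ∈ range (X + H + 1), ‖∑ n ∈ Ioc (y - H) y, (f n - mo b J X n)‖ ^ 2 ≤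
      (if y ∈ Ioc X (X + H) then Tr else 0) + (if y ∈ Ioc (X0 X) (X0 X + H) then Tr else 0) +
      (if y ∈ Ioc (X0 X + H) X then 2 * E * (t ^ 2 * X / H) *
        (∫ θ in (Real.log ((y - H : ℕ) : ℝ))..(Real.log ((y - H + H : ℕ) : ℝ)), ‖cvD f b J X δ θ‖ ^ 2) + 2 * K ^ 2 else 0) := by
    intro y hy
    rw [mem_range] at hy
    have htr := cv_triv (H := H) hX1 (by linarith) hfS hb y
    have hn1 : (0 : ℝ) ≤ if y ∈ Ioc X (X + H) then Tr else 0 := by split_ifs <;> first | exact hTr0 | exact le_rfl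
    have hn2 : (0 : ℝ) ≤ if y ∈ Ioc (X0 X) (X0 X + H) then Tr else 0 := by
      split_ifs <;> first | exact hTr0 | exact le_rfl
    have hn3 : (0 : ℝ) ≤ if y ∈ Ioc (X0 X + H) X then 2 * E * (t ^ 2 * X / H) *
        (∫ θ in (Real.log ((y - H : ℕ) : ℝ))..(Real.log ((y - H + H : ℕ) : ℝ)), ‖cvD f b J X δ θ‖ ^ 2) + 2 * K ^ 2 else 0 := by
      split_ifs with h
      · rw [mem_Ioc] at h
        have hnn : 0 ≤ ∫ θ in (Real.log ((y - H : ℕ) : ℝ))..(Real.log ((y - H + H : ℕ) : ℝ)), ‖cvD f b J X δ θ‖ ^ 2 := by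
          refine intervalIntegral.integral_nonneg ?_ fun θ _ => sq_nonneg _
          apply Real.log_le_log
          · exact_mod_cast (by omega : 0 < y - H)
          · exact_mod_cast (by omega : y - H ≤ y - H + H)
        positivity
      · exact le_rfl
    by_cases h1 : y ≤ X0 X
    · rw [cv_low hf h1]
      simp only [norm_zero]
      have : (0 : ℝ) ^ 2 = 0 := by norm_num
      rw [this]
      linarith
    by_cases h2 : y ≤ X0 X + H
    · have hm : y ∈ Ioc (X0 X) (X0 X + H) := mem_Ioc.2 ⟨by omega, h2⟩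
      have e2 : (if y ∈ Ioc (X0 X) (X0 X + H) then Tr else 0) = Tr := if_pos hm
      linarith
    by_cases h3 : y ≤ X
    · have hm : y ∈ Ioc (X0 X + H) X := mem_Ioc.2 ⟨by omega, h3⟩
      have hw := cv_win2 (f := f) (b := b) (J := J) (H := H) (x := y - H) hX1 hδ hδ1 hT (by linarith) hfS hJ hb (by omega) (by omega)
      have e1 : y - H + H = y := by omega
      rw [hco] at hw
      rw [e1] at hw
      rw [if_pos hm, e1]
      linarith
    · have hm : y ∈ Ioc X (X + H) := mem_Ioc.2 ⟨by omega, by omega⟩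
      have e2 : (if y ∈ Ioc X (X + H) then Tr else 0) = Tr := if_pos hm
      linarith
  refine (sum_le_sum hpt).trans ?_
  rw [sum_add_distrib, sum_add_distrib]
  have hs1 : ∑ y ∈ range (X + H + 1), (if y ∈ Ioc X (X + H) then Tr else 0) ≤ H * Tr := by
    rw [← sum_filter, sum_const, nsmul_eq_mul]
    refine mul_le_mul_of_nonneg_right ?_ hTr0
    have h1 : ((range (X + H + 1)).filter fun y => y ∈ Ioc X (X + H)).card ≤ (Ioc X (X + H)).card :=
      card_le_card fun y hy => (mem_filter.1 hy).2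
    rw [Nat.card_Ioc] at h1
    exact_mod_cast (by omega : _ ≤ H)
  have hs2 : ∑ y ∈ range (X + H + 1), (if y ∈ Ioc (X0 X) (X0 X + H) then Tr else 0) ≤ H * Tr := by
    rw [← sum_filter, sum_const, nsmul_eq_mul]
    refine mul_le_mul_of_nonneg_right ?_ hTr0
    have h1 : ((range (X + H + 1)).filter fun y => y ∈ Ioc (X0 X) (X0 X + H)).card ≤ (Ioc (X0 X) (X0 X + H)).card :=
      card_le_card fun y hy => (mem_filter.1 hy).2
    rw [Nat.card_Ioc] at h1
    exact_mod_cast (by omega : _ ≤ H)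
  have hs3 : ∑ y ∈ range (X + H + 1), (if y ∈ Ioc (X0 X + H) X then 2 * E * (t ^ 2 * X / H) *
        (∫ θ in (Real.log ((y - H : ℕ) : ℝ))..(Real.log ((y - H + H : ℕ) : ℝ)), ‖cvD f b J X δ θ‖ ^ 2) + 2 * K ^ 2 else 0) ≤
      2 * E * (t ^ 2 * X * B) + 2 * (X * K ^ 2) := by
    rw [← sum_filter]
    have h1 : (range (X + H + 1)).filter (fun y => y ∈ Ioc (X0 X + H) X) = (Icc (X0 X + 1) (X - H)).image (fun x => x + H) := by
      ext y
      simp only [mem_filter, mem_range, mem_Ioc, mem_image, mem_Icc]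
      constructor
      · rintro ⟨h2, h3, h4⟩
        exact ⟨y - H, ⟨by omega, by omega⟩, by omega⟩
      · rintro ⟨x, ⟨h2, h3⟩, rfl⟩
        omega
    rw [h1, sum_image (fun a _ b _ hab => by omega)]
    simp only [Nat.add_sub_cancel]
    rw [sum_add_distrib, ← mul_sum, sum_const, nsmul_eq_mul, Nat.card_Icc]
    have h2 := cv_cover (g := fun θ => ‖cvD f b J X δ θ‖ ^ 2) (H := H) (fun θ => sq_nonneg _) (cvD_sq_ii f b J X δ) hX1
    have h3 : 2 * E * (t ^ 2 * X / H) * (∑ x ∈ Icc (X0 X + 1) (X - H),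
        ∫ θ in (Real.log x)..(Real.log ((x + H : ℕ) : ℝ)), ‖cvD f b J X δ θ‖ ^ 2) ≤ 2 * E * (t ^ 2 * X / H) * (H * B) := by
      refine mul_le_mul_of_nonneg_left (h2.trans ?_) (by positivity)
      exact mul_le_mul_of_nonneg_left hI hH0.le
    have h4 : 2 * E * (t ^ 2 * X / H) * (H * B) = 2 * E * (t ^ 2 * X * B) := by
      field_simp
    have h5 : ((X - H + 1 - (X0 X + 1) : ℕ) : ℝ) ≤ X := by exact_mod_cast (by omega : X - H + 1 - (X0 X + 1) ≤ X)
    have h6 : ((X - H + 1 - (X0 X + 1) : ℕ) : ℝ) * (2 * K ^ 2) ≤ X * (2 * K ^ 2) :=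
      mul_le_mul_of_nonneg_right h5 (by positivity)
    linarith
  have hK2 : K ^ 2 ≤ (4 + 2 * E ^ 2) ^ 2 * (Q * ((H : ℝ) / t + t + T * H / X)) ^ 2 := by
    rw [← mul_pow]
    refine pow_le_pow_left₀ (by positivity) ?_ 2
    rw [hK, hXδ, mul_assoc]
    refine mul_le_mul_of_nonneg_left ?_ (by positivity)
    refine mul_le_mul_of_nonneg_left ?_ hQ0
    linarith
  have hTrE : (H : ℝ) * Tr = E ^ 2 * ((H : ℝ) ^ 3 * Q ^ 2) := by
    rw [hTr]; ring
  set U := (Q * ((H : ℝ) / t + t + T * H / X)) ^ 2 with hU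
  have hU0 : 0 ≤ U := sq_nonneg _
  have hV0 : 0 ≤ (t : ℝ) ^ 2 * X * B := by positivity
  have hW0 : 0 ≤ (H : ℝ) ^ 3 * Q ^ 2 := by positivity
  have hXU : (X : ℝ) * K ^ 2 ≤ (4 + 2 * E ^ 2) ^ 2 * (X * U) := by
    have := mul_le_mul_of_nonneg_left hK2 hX0.le
    linarith
  have hXU0 : 0 ≤ (X : ℝ) * U := by positivity
  have hE0 : 0 ≤ E := by linarith
  have c1 : 0 ≤ (4 + 2 * E ^ 2) ^ 2 := sq_nonneg _
  have c2 : 0 ≤ E ^ 2 := sq_nonneg _
  have hexp : (2 * E + 2 * (4 + 2 * E ^ 2) ^ 2 + 2 * E ^ 2) * (t ^ 2 * X * B + X * U + (H : ℝ) ^ 3 * Q ^ 2) =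
      2 * E * (t ^ 2 * X * B) + 2 * ((4 + 2 * E ^ 2) ^ 2 * (X * U)) + 2 * (E ^ 2 * ((H : ℝ) ^ 3 * Q ^ 2)) +
      (2 * E * (X * U) + 2 * E * ((H : ℝ) ^ 3 * Q ^ 2) + 2 * (4 + 2 * E ^ 2) ^ 2 * (t ^ 2 * X * B) +
        2 * (4 + 2 * E ^ 2) ^ 2 * ((H : ℝ) ^ 3 * Q ^ 2) + 2 * E ^ 2 * (t ^ 2 * X * B) + 2 * E ^ 2 * (X * U)) := by ring
  rw [hexp]
  have hrest : 0 ≤ (2 * E * (X * U) + 2 * E * ((H : ℝ) ^ 3 * Q ^ 2) + 2 * (4 + 2 * E ^ 2) ^ 2 * (t ^ 2 * X * B) +
        2 * (4 + 2 * E ^ 2) ^ 2 * ((H : ℝ) ^ 3 * Q ^ 2) + 2 * E ^ 2 * (t ^ 2 * X * B) + 2 * E ^ 2 * (X * U)) := by positivity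
  linarith

private theorem mg_char {F : ℕ → ℂ} {X : ℕ} {q b : ℕ} (hq : 1 ≤ q) (hcop : ∀ n, F n ≠ 0 → Nat.Coprime n q)
    {δ Z : ℝ} (J' : Finset ℤ) (h : ∀ χ : DirichletCharacter ℂ q, ∑ j ∈ J', kap δ j * ‖bc F X χ j‖ ^ 2 ≤ Z)
    (hZ : 0 ≤ Z) (hk : ∀ j, 0 ≤ kap δ j) :
    ∑ j ∈ J', kap δ j * ‖bq F X ((b : ℝ) / q) j‖ ^ 2 ≤ (q : ℝ) ^ 2 * Z := by
  classical
  have : NeZero q := ⟨by omega⟩
  have hcard : ((univ : Finset (DirichletCharacter ℂ q)).card : ℝ) ≤ q := by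
    have h1 : (univ : Finset (DirichletCharacter ℂ q)).card = q.totient := by
      rw [Finset.card_univ, ← Nat.card_eq_fintype_card]
      exact DirichletCharacter.card_eq_totient_of_hasEnoughRootsOfUnity ℂ q
    rw [h1]
    exact_mod_cast Nat.totient_le q
  have h1 : ∀ j ∈ J', kap δ j * ‖bq F X ((b : ℝ) / q) j‖ ^ 2 ≤
      q * ∑ χ : DirichletCharacter ℂ q, kap δ j * ‖bc F X χ j‖ ^ 2 := by
    intro j _
    have h2 := bqc hq b F X hcop j
    have h3 : ‖bq F X ((b : ℝ) / q) j‖ ^ 2 ≤ q * ∑ χ : DirichletCharacter ℂ q, ‖bc F X χ j‖ ^ 2 := by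
      refine (pow_le_pow_left₀ (norm_nonneg _) h2 2).trans ?_
      refine (sq_sum_le_card_mul_sum_sq).trans ?_
      exact mul_le_mul_of_nonneg_right hcard (sum_nonneg fun _ _ => by positivity)
    calc kap δ j * ‖bq F X ((b : ℝ) / q) j‖ ^ 2 ≤ kap δ j * (q * ∑ χ : DirichletCharacter ℂ q, ‖bc F X χ j‖ ^ 2) :=
          mul_le_mul_of_nonneg_left h3 (hk j)
      _ = q * ∑ χ : DirichletCharacter ℂ q, kap δ j * ‖bc F X χ j‖ ^ 2 := by
          rw [Finset.mul_sum, Finset.mul_sum, Finset.mul_sum]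
          refine sum_congr rfl fun χ _ => ?_
          ring
  refine (sum_le_sum h1).trans ?_
  rw [← Finset.mul_sum, Finset.sum_comm]
  calc (q : ℝ) * ∑ χ : DirichletCharacter ℂ q, ∑ j ∈ J', kap δ j * ‖bc F X χ j‖ ^ 2 ≤
        q * ∑ _χ : DirichletCharacter ℂ q, Z := mul_le_mul_of_nonneg_left (sum_le_sum fun χ _ => h χ) (by positivity)
    _ ≤ q * (q * Z) := by
        refine mul_le_mul_of_nonneg_left ?_ (by positivity)
        rw [sum_const, nsmul_eq_mul]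
        exact mul_le_mul_of_nonneg_right hcard hZ
    _ = (q : ℝ) ^ 2 * Z := by ring

private theorem mg_kap (δ : ℝ) (j : ℤ) : 0 ≤ kap δ j := by
  unfold kap
  split_ifs
  · positivity
  · exact le_min (by positivity) (by positivity)

/-- the final numerical step -/
private theorem mg_num {C L X H t D TT : ℝ} {A c2 c4 c7 K : ℕ} (hC : 0 < C) (hL : 2 ≤ L) (hLC : 16 * C ≤ L) (hK : K = 2 * c2 + A + 8)
    (hc4 : c4 = c7 + A + 10) (ht1 : L ^ c4 ≤ t) (ht2 : t ≤ 2 * L ^ c4) (hD : 0 ≤ D) (hD7 : D ≤ L ^ c7) (hH : L ^ (c7 + c4 + K + A + 23) ≤ H)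
    (hX : 0 < X) (hHX : H * L ^ (2 * c7 + A + 8) ≤ X) (hTT : 0 ≤ TT) (hT : TT ≤ 4 * L ^ (K + 10) * L ^ c4) :
    C * (t ^ 2 * X * (L ^ (2 * c2) * ((H / (t * X)) ^ 2 * X ^ 2 / L ^ K)) + X * (D * (H / t + t + TT)) ^ 2 + H ^ 3 * D ^ 2) ≤
      X * H ^ 2 / L ^ (A + 5) := by
  have hL0 : 0 < L := by linarith
  have hL1 : 1 ≤ L := by linarith
  have ht0 : 0 < t := lt_of_lt_of_le (pow_pos hL0 _) ht1
  have hH0 : 0 < H := lt_of_lt_of_le (pow_pos hL0 _) hH
  -- first term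
  have e1 : t ^ 2 * X * (L ^ (2 * c2) * ((H / (t * X)) ^ 2 * X ^ 2 / L ^ K)) = X * H ^ 2 / L ^ (A + 8) := by
    have h1 : L ^ K = L ^ (2 * c2) * L ^ (A + 8) := by rw [← pow_add, hK]; ring_nf
    rw [h1]
    field_simp
  -- second term
  have e2 : D * (H / t + t + TT) ≤ 2 * H / L ^ (A + 10) := by
    have h1 : D * (H / t) ≤ H / L ^ (A + 10) := by
      rw [← mul_div_assoc, div_le_div_iff₀ ht0 (pow_pos hL0 _)]
      calc D * H * L ^ (A + 10) ≤ L ^ c7 * H * L ^ (A + 10) := by gcongr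
        _ = H * L ^ c4 := by rw [hc4, add_assoc, pow_add L c7]; ring
        _ ≤ H * t := mul_le_mul_of_nonneg_left ht1 hH0.le
    have h2 : D * (t + TT) ≤ H / L ^ (A + 10) := by
      rw [le_div_iff₀ (pow_pos hL0 _)]
      have h3 : t + TT ≤ L ^ 3 * (L ^ (K + 10) * L ^ c4) := by
        have h4 : t ≤ 2 * (L ^ (K + 10) * L ^ c4) := by
          refine ht2.trans ?_
          have : 1 ≤ L ^ (K + 10) := one_le_pow₀ hL1
          nlinarith [pow_pos hL0 c4]
        have h5 : (6 : ℝ) ≤ L ^ 3 := by nlinarith [mul_self_nonneg (L - 2)]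
        have h6 : 0 < L ^ (K + 10) * L ^ c4 := by positivity
        nlinarith
      calc D * (t + TT) * L ^ (A + 10) ≤ L ^ c7 * (L ^ 3 * (L ^ (K + 10) * L ^ c4)) * L ^ (A + 10) := by gcongr
        _ = L ^ (c7 + c4 + K + A + 23) := by rw [← pow_add, ← pow_add, ← pow_add, ← pow_add]; congr 1; ring
        _ ≤ H := hH
    calc D * (H / t + t + TT) = D * (H / t) + D * (t + TT) := by ring
      _ ≤ H / L ^ (A + 10) + H / L ^ (A + 10) := add_le_add h1 h2
      _ = 2 * H / L ^ (A + 10) := by ring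
  have e2' : X * (D * (H / t + t + TT)) ^ 2 ≤ X * H ^ 2 / L ^ (A + 8) := by
    have h0 : 0 ≤ D * (H / t + t + TT) := by positivity
    have h1 : (D * (H / t + t + TT)) ^ 2 ≤ (2 * H / L ^ (A + 10)) ^ 2 := pow_le_pow_left₀ h0 e2 2
    have h2 : (2 * H / L ^ (A + 10)) ^ 2 ≤ H ^ 2 / L ^ (A + 8) := by
      rw [div_pow, div_le_div_iff₀ (by positivity) (by positivity)]
      have h3 : L ^ (A + 8) * 4 ≤ (L ^ (A + 10)) ^ 2 := by
        have h4 : (L ^ (A + 10)) ^ 2 = L ^ (A + 8) * (L ^ 2 * L ^ (A + 10)) := by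
          rw [← pow_mul, ← pow_add, ← pow_add]; congr 1; ring
        rw [h4]
        refine mul_le_mul_of_nonneg_left ?_ (by positivity)
        have h5 : 1 ≤ L ^ (A + 10) := one_le_pow₀ hL1
        nlinarith
      calc (2 * H) ^ 2 * L ^ (A + 8) = H ^ 2 * (L ^ (A + 8) * 4) := by ring
        _ ≤ H ^ 2 * (L ^ (A + 10)) ^ 2 := mul_le_mul_of_nonneg_left h3 (by positivity)
    calc X * (D * (H / t + t + TT)) ^ 2 ≤ X * (H ^ 2 / L ^ (A + 8)) :=
          mul_le_mul_of_nonneg_left (h1.trans h2) hX.le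
      _ = X * H ^ 2 / L ^ (A + 8) := by ring
  -- third term
  have e3 : H ^ 3 * D ^ 2 ≤ X * H ^ 2 / L ^ (A + 8) := by
    rw [le_div_iff₀ (by positivity)]
    calc H ^ 3 * D ^ 2 * L ^ (A + 8) ≤ H ^ 3 * (L ^ c7) ^ 2 * L ^ (A + 8) := by gcongr
      _ = H ^ 2 * (H * L ^ (2 * c7 + A + 8)) := by
          have : L ^ (2 * c7 + A + 8) = (L ^ c7) ^ 2 * L ^ (A + 8) := by rw [← pow_mul, ← pow_add]; congr 1; ring
          rw [this]; ring
      _ ≤ H ^ 2 * X := mul_le_mul_of_nonneg_left hHX (by positivity)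
      _ = X * H ^ 2 := by ring
  rw [e1]
  calc C * (X * H ^ 2 / L ^ (A + 8) + X * (D * (H / t + t + TT)) ^ 2 + H ^ 3 * D ^ 2) ≤
        C * (X * H ^ 2 / L ^ (A + 8) + X * H ^ 2 / L ^ (A + 8) + X * H ^ 2 / L ^ (A + 8)) := by gcongr
    _ = (3 * C) * (X * H ^ 2 / L ^ (A + 8)) := by ring
    _ ≤ L ^ 3 * (X * H ^ 2 / L ^ (A + 8)) := by
        refine mul_le_mul_of_nonneg_right ?_ (by positivity)
        nlinarith [mul_self_nonneg (L - 2), pow_pos hL0 3, pow_pos hL0 2]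
    _ = X * H ^ 2 / L ^ (A + 5) := by
        rw [show A + 8 = (A + 5) + 3 by ring, pow_add L (A + 5) 3]
        field_simp

/-- the generic major frequency bound -/
theorem tmajG : ∃ L0 : ℝ, ∀ (A g c7 c4 K cH N : ℕ) (L : ℝ) (X H T q b : ℕ) (F : ℕ → ℂ) (J : Finset ℤ), K = 2 * g + A + 8 → c4 = c7 + A + 10 → L0 ≤ L →
    L ^ (N + 2 * c7 + A + 8 + c4 + K + 30) ≤ X → (∀ n, ‖F n‖ ≤ 1) → (∀ n, F n ≠ 0 → X < 300 * n ∧ n ≤ X) → (∀ n, F n ≠ 0 → Nat.Coprime n q) →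
    1 ≤ q → (q : ℝ) ≤ L ^ g → L ^ (cH + c7 + c4 + K + A + 30) ≤ H → (H : ℝ) ≤ L ^ N → T = ⌈L ^ (K + 10) * (⌈L ^ c4⌉₊ * X / H)⌉₊ →
    (T ≤ X → (∀ j ∈ J, |j| ≤ (T : ℤ)) ∧ 1 + (J.card : ℝ) ≤ L ^ c7) →
    (∀ δ : ℝ, 0 < δ → δ ≤ 1 → L ^ (cH + K + 20) ≤ δ * X → L ^ (K + 10) / δ ≤ T → (T : ℝ) ≤ 2 * L ^ (K + 10) / δ →
      ∀ (χ : DirichletCharacter ℂ q) (J' : Finset ℤ), (∀ j ∈ J', j ∉ J) →
        ∑ j ∈ J', kap δ j * ‖bc F X χ j‖ ^ 2 ≤ δ ^ 2 * (X : ℝ) ^ 2 / L ^ K) →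
      ∑ y ∈ range (X + H + 1), ‖∑ n ∈ Ioc (y - H) y, (F n * e (-(n * ((b : ℝ) / q))) -
        mo (bq F X ((b : ℝ) / q)) J X n)‖ ^ 2 ≤ X * (H : ℝ) ^ 2 / L ^ (A + 5) := by
  obtain ⟨C, hC, hconv⟩ := tconv
  refine ⟨max 4 (16 * C), ?_⟩
  intro A g c7 c4 K cH N L X H T q b F J hK hc4 hLg hLX hF1 hFs hFc hq hqL hH1 hH2 hT hJ hmr
  have hL4 : 4 ≤ L := (le_max_left _ _).trans hLg
  have hLC : 16 * C ≤ L := (le_max_right _ _).trans hLg
  have hL0 : 0 < L := by linarith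
  have hL1 : 1 ≤ L := by linarith
  have hX100 : (100 : ℝ) ≤ X := by
    refine le_trans ?_ hLX
    calc (100 : ℝ) ≤ 4 ^ 30 := by norm_num
      _ ≤ L ^ 30 := pow_le_pow_left₀ (by norm_num) hL4 30
      _ ≤ L ^ (N + 2 * c7 + A + 8 + c4 + K + 30) := pow_le_pow_right₀ hL1 (by omega)
  have hXp : (0 : ℝ) < X := by linarith
  set t : ℕ := ⌈L ^ c4⌉₊ with ht
  have ht1 : L ^ c4 ≤ t := Nat.le_ceil _
  have hLc4 : 1 ≤ L ^ c4 := one_le_pow₀ hL1
  have ht2 : (t : ℝ) ≤ 2 * L ^ c4 := by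
    have := Nat.ceil_lt_add_one (show 0 ≤ L ^ c4 by positivity)
    linarith
  have ht0 : (0 : ℝ) < t := by linarith
  have htn : 1 ≤ t := by exact_mod_cast (show (0 : ℝ) < t from ht0)
  have hH0 : (0 : ℝ) < H := lt_of_lt_of_le (pow_pos hL0 _) hH1
  have hHn : 1 ≤ H := by exact_mod_cast (show (0 : ℝ) < H from hH0)
  -- powers
  have hpw : ∀ m : ℕ, m ≤ N + 2 * c7 + A + 8 + c4 + K + 30 → L ^ m ≤ X := fun m hm =>
    (pow_le_pow_right₀ hL1 hm).trans hLX
  have htH : 1000 * (t * H) ≤ X := by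
    have h1 : (1000 : ℝ) * (t * H) ≤ X := by
      calc (1000 : ℝ) * (t * H) ≤ L ^ 5 * ((L * L ^ c4) * L ^ N) := by
            have h2 : (1000 : ℝ) ≤ L ^ 5 := by
              calc (1000 : ℝ) ≤ 4 ^ 5 := by norm_num
                _ ≤ L ^ 5 := pow_le_pow_left₀ (by norm_num) hL4 5
            have h3 : (t : ℝ) ≤ L * L ^ c4 := by nlinarith
            gcongr
        _ = L ^ (N + c4 + 6) := by rw [← pow_succ', ← pow_add, ← pow_add]; congr 1; ring
        _ ≤ X := hpw _ (by omega)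
    exact_mod_cast h1
  set δ : ℝ := (H : ℝ) / (t * X) with hδ
  have hδ0 : 0 < δ := by positivity
  have hδ1 : δ ≤ 1 := by
    rw [hδ, div_le_one (by positivity)]
    have h1 : (H : ℝ) ≤ X := by
      have h2 : t * H ≤ X := by omega
      have h3 : H ≤ t * H := Nat.le_mul_of_pos_left _ (by omega)
      exact_mod_cast h3.trans h2
    have h2 : (1 : ℝ) ≤ t := by exact_mod_cast htn
    nlinarith
  have hδX : δ * X = H / t := by rw [hδ]; field_simp
  have hTr : (T : ℝ) = ⌈L ^ (K + 10) / δ⌉₊ := by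
    have : L ^ (K + 10) * (t * X / H) = L ^ (K + 10) / δ := by rw [hδ]; field_simp
    rw [hT, this]
  have hT1 : L ^ (K + 10) / δ ≤ T := by rw [hTr]; exact Nat.le_ceil _
  have hKδ : 1 ≤ L ^ (K + 10) / δ := by
    rw [le_div_iff₀ hδ0]
    have : 1 ≤ L ^ (K + 10) := one_le_pow₀ hL1
    linarith
  have hT2 : (T : ℝ) ≤ 2 * L ^ (K + 10) / δ := by
    rw [hTr]
    have := Nat.ceil_lt_add_one (show 0 ≤ L ^ (K + 10) / δ by positivity)
    have h2 : 2 * L ^ (K + 10) / δ = 2 * (L ^ (K + 10) / δ) := by ring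
    linarith
  have hTT : (T : ℝ) * H / X ≤ 4 * L ^ (K + 10) * L ^ c4 := by
    have h1 : (T : ℝ) * H / X ≤ (2 * L ^ (K + 10) / δ) * H / X := by gcongr
    have h2 : (2 * L ^ (K + 10) / δ) * H / X = 2 * L ^ (K + 10) * t := by rw [hδ]; field_simp
    rw [h2] at h1
    refine h1.trans ?_
    have h3 : 0 ≤ 2 * L ^ (K + 10) := by positivity
    nlinarith [mul_le_mul_of_nonneg_left ht2 h3]
  have hT1' : (1 : ℝ) ≤ T := hKδ.trans hT1
  have hHt : L ^ (cH + K + 20) ≤ δ * X := by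
    rw [hδX, le_div_iff₀ ht0]
    calc L ^ (cH + K + 20) * t ≤ L ^ (cH + K + 20) * (2 * L ^ c4) := by gcongr
      _ ≤ L ^ (cH + K + 20) * (L * L ^ c4) := by gcongr; linarith
      _ = L ^ (cH + K + 21 + c4) := by rw [← pow_succ', ← pow_add]; congr 1; ring
      _ ≤ L ^ (cH + c7 + c4 + K + A + 30) := pow_le_pow_right₀ hL1 (by omega)
      _ ≤ H := hH1
  have hTX : (T : ℝ) ≤ X := by
    refine hT2.trans ?_
    rw [div_le_iff₀ hδ0, mul_comm (X : ℝ) δ]
    refine le_trans ?_ hHt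
    calc 2 * L ^ (K + 10) ≤ L * L ^ (K + 10) := by gcongr; linarith
      _ = L ^ (K + 11) := by rw [← pow_succ']
      _ ≤ L ^ (cH + K + 20) := pow_le_pow_right₀ hL1 (by omega)
  have hTXn : T ≤ X := by exact_mod_cast hTX
  obtain ⟨hJT, hJc⟩ := hJ hTXn
  set f : ℕ → ℂ := fun n => F n * e (-(n * ((b : ℝ) / q))) with hf
  have hbq : (fun j => ∑ l ∈ Icc 1 X, f l * cj j l) = bq F X ((b : ℝ) / q) := rfl
  have hne : ∀ x : ℝ, ‖e x‖ = 1 := by
    intro x
    unfold Pool.Agent.Lib.GT.e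
    rw [show (2 * Real.pi * x * Complex.I : ℂ) = ((2 * Real.pi * x : ℝ) : ℂ) * Complex.I by push_cast; ring]
    exact Complex.norm_exp_ofReal_mul_I _
  have hfn : ∀ n, ‖f n‖ ≤ 1 := by
    intro n
    rw [hf]
    simp only
    rw [norm_mul, hne, mul_one]
    exact hF1 n
  have hfs : ∀ n, f n ≠ 0 → X < 300 * n ∧ n ≤ X := by
    intro n hn
    exact hFs n fun h => hn (by rw [hf]; simp only; rw [h, zero_mul])
  have hcv := hconv X H t f J 1 1 T ((q : ℝ) ^ 2 * (δ ^ 2 * (X : ℝ) ^ 2 / L ^ K)) hHn htn htH le_rfl le_rfl hT1' hfs hfn ?_ ?_ ?_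
  · rw [hbq] at hcv
    refine hcv.trans ?_
    have hq2 : (q : ℝ) ^ 2 ≤ L ^ (2 * g) := by
      rw [mul_comm 2 g, pow_mul]
      exact pow_le_pow_left₀ (by positivity) hqL 2
    have hHl : L ^ (c7 + c4 + K + A + 23) ≤ (H : ℝ) :=
      le_trans (pow_le_pow_right₀ hL1 (by omega)) hH1
    have hnum := mg_num (A := A) (c2 := g) (c4 := c4) (c7 := c7) (K := K) (D := 1 + J.card) (TT := T * H / X) (t := t) (H := H) (X := X)
      hC (by linarith) hLC hK hc4 ht1 ht2 (by positivity) hJc hHl hXp ?_ (by positivity) hTT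
    · refine le_trans ?_ hnum
      rw [← hδ, mul_one]
      gcongr
    · calc (H : ℝ) * L ^ (2 * c7 + A + 8) ≤ L ^ N * L ^ (2 * c7 + A + 8) := by gcongr
        _ = L ^ (N + (2 * c7 + A + 8)) := by rw [← pow_add]
        _ ≤ X := hpw _ (by omega)
  · intro j hj
    exact_mod_cast hJT j hj
  · intro j _
    rw [one_mul]
    exact bq_le hF1 X _ j
  · intro J' hJ'
    refine mg_char hq hFc J' (fun χ => ?_) (by positivity) (mg_kap _)
    exact hmr δ hδ0 hδ1 hHt hT1 hT2 χ J' fun j hj hjJ => (Finset.disjoint_left.1 hJ' hj) hjJ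

end Pool.Agent.Lib.VKT
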