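import Pool.Agent.Lib.VK.TDef
import Pool.Agent.Lib.VK.TCv
import Pool.Agent.Lib.G3.Conv
import Pool.Agent.Lib.G3.Bqc
import Pool.Agent.Lib.G3.B2f
import Pool.Agent.Lib.G3.Minor
import Pool.Agent.Lib.G3.Gsum
import Pool.Agent.Lib.G3.Dshift
import Pool.Agent.Lib.G3.AwayMo
import Pool.Agent.Lib.G3.VbA
import Pool.Agent.Lib.G3.VbN
import Pool.Agent.Lib.G3.VbBG

/-!
# VK / BCore (general block board): the local mean square of a function minus its model is small at every frequency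

General form of `coreS` (SCore.lean): `P` up to `X^(1/100)`, windows `H` between `P (log X)^c6` and `P (log X)^(c6+2)`, `H'` depends on `P`.
`tmajG` is used with exponents `N`, `cH` which depend on `X` (`H1 ≤ L^N ≤ H1 L`, `P ≤ L^cH ≤ P L`).
-/

set_option autoImplicit false

open Finset

namespace Pool.Agent.Lib.VKT

open Pool.Agent.Lib.G3
open Pool.Agent.Lib.MRT (cj kap)
open Pool.Agent.Lib.GT (e)
open Pool.Agent.Lib.SW (nd gmin)

/-- an integer power of `L` just above `x` -/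
private theorem bcore_pow {L x : ℝ} (hL : 1 < L) (hx : 1 ≤ x) : ∃ N : ℕ, x ≤ L ^ N ∧ L ^ N ≤ x * L := by
  obtain ⟨N, h1, h2⟩ := exists_nat_pow_near hx hL
  refine ⟨N + 1, h2.le, ?_⟩
  rw [pow_succ]
  exact mul_le_mul_of_nonneg_right h1 (by linarith)

/-- everything after the choice of the exponents, general form -/
theorem coreH {C1 : ℝ} (hC1 : 0 < C1) (A g c5 K c7 c4 u c3 s τ w c6 : ℕ) (hgA : A + 10 ≤ g) (hK : K = 2 * g + A + 8)
    (hc4 : c4 = c7 + A + 10) (hu : u = 2 * g + c7 + A + 10) (hc3 : c3 = u + 5 * g + 2 * c7 + A + 20) (hs : s = 2 * g + c7 + 6)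
    (hτ : τ = c3 + s + A + 10) (hw : w = (c7 + c4 + K + A + 31) + u + 6 * g + 2 * c7 + A + c5 + c4 + K + 60) (hc6 : c6 = τ + w + 1) :
    ∃ x0 : ℝ, ∀ X : ℕ, x0 ≤ X → ∀ P : ℕ, (Real.log X) ^ (A + 10) ≤ P → P ^ 100 ≤ X → ∀ H : ℕ, (P : ℝ) * (Real.log X) ^ c6 ≤ H →
      (H : ℝ) ≤ P * (Real.log X) ^ (c6 + 2) → ∃ H' : ℕ, H ≤ H' ∧ H' ≤ 2 * H ∧
      ∀ (F : ℕ → ℂ) (J : Finset ℤ), (∀ n, ‖F n‖ ≤ 1) →
      (∀ n, F n ≠ 0 → X < 300 * n ∧ n ≤ X) → (∀ n, F n ≠ 0 → ∀ q : ℕ, 1 ≤ q → (q : ℝ) ≤ (Real.log X) ^ g → Nat.Coprime n q) →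
      (∀ (q H' : ℕ) (a0 : ℤ) (α : ℝ), 1 ≤ H' → 1 ≤ q → IsCoprime a0 (q : ℤ) → |α - a0 / q| ≤ 1 / (q : ℝ) ^ 2 →
        VV F H' α (X + H' + 1) ≤ C1 * X * H' * ((H' : ℝ) / P + 1 + ((H' : ℝ) / q + P + q + P / q) * Real.log (2 * q * P))) →
      (∀ j ∈ J, |(j : ℝ)| ≤ (Real.log X) ^ c5) → 1 + (J.card : ℝ) ≤ (Real.log X) ^ c7 →
      (∀ (q T : ℕ) (δ : ℝ), 1 ≤ q → (q : ℝ) ≤ (Real.log X) ^ g → 0 < δ → δ ≤ 1 → (P : ℝ) * (Real.log X) ^ (K + 20) ≤ δ * X →
        (Real.log X) ^ (K + 10) / δ ≤ T → (T : ℝ) ≤ 2 * (Real.log X) ^ (K + 10) / δ →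
        ∀ (χ : DirichletCharacter ℂ q) (J' : Finset ℤ), (∀ j ∈ J', j ∉ J) →
          ∑ j ∈ J', kap δ j * ‖bc F X χ j‖ ^ 2 ≤ δ ^ 2 * (X : ℝ) ^ 2 / (Real.log X) ^ K) →
      ∀ α : ℝ, VV (fun n => F n - MG F X ⌊(Real.log X) ^ g⌋₊ (fun _ => J) n) H' α (X + H' + 1) ≤ X * (H' : ℝ) ^ 2 / (Real.log X) ^ A := by
  obtain ⟨Lm, hmaj⟩ := tmajG
  obtain ⟨C1', hC1', hmin⟩ := vb_minorG
  obtain ⟨C2, hC2, hrat⟩ := vb_ratG
  obtain ⟨xg, hxg100, hgr⟩ := grow (max (max 16 Lm) (max (16 * (2 * C1 + C1')) (16 * C2))) (20 * c6 + 200)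
  refine ⟨xg, fun X hXg P hPr1 hP2 H hH1 hH2 => ?_⟩
  obtain ⟨hLg, hLX⟩ := hgr X hXg
  obtain ⟨L, hLd⟩ : ∃ L, L = Real.log X := ⟨_, rfl⟩
  rw [← hLd] at hLg hLX hPr1 hH1 hH2 ⊢
  have hL16 : 16 ≤ L := ((le_max_left _ _).trans (le_max_left _ _)).trans hLg
  have hLm : Lm ≤ L := ((le_max_right _ _).trans (le_max_left _ _)).trans hLg
  have hLC1 : 16 * (2 * C1 + C1') ≤ L := ((le_max_left _ _).trans (le_max_right _ _)).trans hLg
  have hLC2 : 16 * C2 ≤ L := ((le_max_right _ _).trans (le_max_right _ _)).trans hLg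
  have hL0 : 0 < L := by linarith
  have hL1 : 1 ≤ L := by linarith
  have hX100 : (100 : ℝ) ≤ X := hxg100.trans hXg
  have hX0 : (0 : ℝ) < X := by linarith
  have hXn : 1 ≤ X := by exact_mod_cast (by linarith : (1 : ℝ) ≤ X)
  have hPn : 1 ≤ P := by
    have h1 : (1 : ℝ) ≤ P := (one_le_pow₀ hL1).trans hPr1
    exact_mod_cast h1
  have hPr : (1 : ℝ) ≤ P := by exact_mod_cast hPn
  have hPr0 : (0 : ℝ) < P := by linarith
  -- `P^4 L^m ≤ X`
  have hpw4 : ∀ m : ℕ, m ≤ 10 * c6 + 100 → (P : ℝ) ^ 4 * L ^ m ≤ X := by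
    intro m hm
    have h1 : ((P : ℝ) ^ 4) ^ 2 ≤ X := by
      rw [← pow_mul]
      have h2 : (P : ℝ) ^ 100 ≤ X := by exact_mod_cast hP2
      exact (pow_le_pow_right₀ hPr (by norm_num)).trans h2
    have h2 : (L ^ m) ^ 2 ≤ X := by
      rw [← pow_mul]
      exact (pow_le_pow_right₀ hL1 (by omega)).trans hLX
    have h3 : ((P : ℝ) ^ 4 * L ^ m) ^ 2 ≤ (X : ℝ) ^ 2 := by
      rw [mul_pow, sq (X : ℝ)]
      exact mul_le_mul h1 h2 (by positivity) hX0.le
    exact le_of_sq_le_sq h3 hX0.le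
  have hP4 : ∀ k : ℕ, k ≤ 4 → (P : ℝ) ^ k ≤ (P : ℝ) ^ 4 := fun k hk => pow_le_pow_right₀ hPr hk
  have hpw : ∀ m : ℕ, m ≤ 10 * c6 + 100 → L ^ m ≤ X := fun m hm =>
    (le_mul_of_one_le_left (by positivity) (one_le_pow₀ hPr)).trans (hpw4 m hm)
  have hpw1 : ∀ m : ℕ, m ≤ 10 * c6 + 100 → (P : ℝ) * L ^ m ≤ X := fun m hm =>
    (mul_le_mul_of_nonneg_right (by simpa using hP4 1 (by norm_num)) (by positivity)).trans (hpw4 m hm)
  have hpw2 : ∀ m : ℕ, m ≤ 10 * c6 + 100 → (P : ℝ) ^ 2 * L ^ m ≤ X := fun m hm =>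
    (mul_le_mul_of_nonneg_right (hP4 2 (by norm_num)) (by positivity)).trans (hpw4 m hm)
  have hmono : ∀ {m n : ℕ}, m ≤ n → L ^ m ≤ L ^ n := fun h => pow_le_pow_right₀ hL1 h
  -- the windows
  set t : ℕ := ⌈L ^ τ⌉₊ with ht
  have ht1 : L ^ τ ≤ t := Nat.le_ceil _
  have hLτ : 1 ≤ L ^ τ := one_le_pow₀ hL1
  have ht2 : (t : ℝ) ≤ 2 * L ^ τ := by
    have := Nat.ceil_lt_add_one (show 0 ≤ L ^ τ by positivity)
    linarith
  have htr0 : (0 : ℝ) < t := by linarith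
  have htn : 1 ≤ t := by exact_mod_cast htr0
  set H1 : ℕ := H / t + 1 with hH1d
  obtain ⟨hHa, hHb⟩ := vb_H htn hH1d
  set H' : ℕ := t * H1 with hH'
  have hH1' : L ^ c6 ≤ (H : ℝ) := (le_mul_of_one_le_left (by positivity) hPr).trans hH1
  have htH : t ≤ H := by
    have h1 : (t : ℝ) ≤ H := by
      refine le_trans ?_ hH1'
      calc (t : ℝ) ≤ L * L ^ τ := by nlinarith
        _ = L ^ (τ + 1) := by rw [pow_succ']
        _ ≤ L ^ c6 := hmono (by omega)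
    exact_mod_cast h1
  have hHc : H' ≤ 2 * H := by omega
  have hH'P : P * L ^ c6 ≤ (H' : ℝ) := hH1.trans (by exact_mod_cast hHa)
  have hH'r1 : L ^ c6 ≤ (H' : ℝ) := hH1'.trans (by exact_mod_cast hHa)
  have hH'r2 : (H' : ℝ) ≤ P * L ^ (c6 + 3) := by
    have h1 : (H' : ℝ) ≤ 2 * H := by exact_mod_cast hHc
    calc (H' : ℝ) ≤ 2 * H := h1
      _ ≤ L * (P * L ^ (c6 + 2)) := by
          refine mul_le_mul (by linarith) hH2 (Nat.cast_nonneg _) hL0.le
      _ = P * L ^ (c6 + 3) := by rw [pow_succ L (c6 + 2)]; ring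
  have hH'eq : (H' : ℝ) = t * H1 := by rw [hH']; push_cast; ring
  have hH1wP : P * L ^ w ≤ (H1 : ℝ) := by
    have h1 : P * L ^ c6 ≤ t * (H1 : ℝ) := by rw [← hH'eq]; exact hH'P
    have h2 : t * (H1 : ℝ) ≤ (2 * L ^ τ) * H1 := by gcongr
    have h3 : P * L ^ c6 = L ^ τ * (L * (P * L ^ w)) := by
      have : L ^ c6 = L ^ τ * (L * L ^ w) := by
        rw [← pow_succ', ← pow_add]
        congr 1
      rw [this]; ring
    rw [h3] at h1
    have h4 : L ^ τ * (L * (P * L ^ w)) ≤ L ^ τ * (2 * H1) := by linarith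
    have h5 := le_of_mul_le_mul_left h4 (by positivity)
    have h6 : 2 * (P * L ^ w) ≤ L * (P * L ^ w) := mul_le_mul_of_nonneg_right (by linarith) (by positivity)
    linarith
  have hH1w : L ^ w ≤ (H1 : ℝ) := (le_mul_of_one_le_left (by positivity) hPr).trans hH1wP
  have hH1H' : (H1 : ℝ) ≤ H' := by
    rw [hH'eq]
    have h1 : (1 : ℝ) ≤ t := by linarith
    nlinarith [(Nat.cast_nonneg H1 : (0 : ℝ) ≤ H1)]
  have hH1r0 : (0 : ℝ) < H1 := lt_of_lt_of_le (by positivity) hH1w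
  have hH'r0 : (0 : ℝ) < H' := by linarith
  have hH1n : 1 ≤ H1 := by exact_mod_cast hH1r0
  have hH'n : 1 ≤ H' := by exact_mod_cast hH'r0
  have h1000 : (1000 : ℝ) ≤ L ^ 3 := by
    calc (1000 : ℝ) ≤ 16 ^ 3 := by norm_num
      _ ≤ L ^ 3 := pow_le_pow_left₀ (by norm_num) hL16 3
  have hHX : 1000 * (H' : ℝ) ≤ X := by
    calc 1000 * (H' : ℝ) ≤ L ^ 3 * (P * L ^ (c6 + 3)) := by gcongr
      _ = P * L ^ (c6 + 6) := by ring
      _ ≤ X := hpw1 _ (by omega)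
  have hHXn : 1000 * H' ≤ X := by exact_mod_cast hHX
  have hH1Xn : 1000 * H1 ≤ X := by
    have h1 : H1 ≤ H' := by exact_mod_cast hH1H'
    omega
  -- T
  set T : ℕ := ⌈L ^ (K + 10) * (⌈L ^ c4⌉₊ * X / H1)⌉₊ with hT
  have hTle : (T : ℝ) ≤ X / L ^ (c5 + 6) := by
    have h1 := Nat.ceil_lt_add_one (show 0 ≤ L ^ (K + 10) * (⌈L ^ c4⌉₊ * X / H1) by positivity)
    have h2 : ((⌈L ^ c4⌉₊ : ℕ) : ℝ) ≤ L * L ^ c4 := by
      have h3 := Nat.ceil_lt_add_one (show 0 ≤ L ^ c4 by positivity)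
      have h4 : 1 ≤ L ^ c4 := one_le_pow₀ hL1
      nlinarith
    have h3 : L ^ (K + 10) * (⌈L ^ c4⌉₊ * X / H1) ≤ X / L ^ (c5 + 7) := by
      rw [← mul_div_assoc, div_le_div_iff₀ hH1r0 (by positivity)]
      calc L ^ (K + 10) * (⌈L ^ c4⌉₊ * X) * L ^ (c5 + 7) ≤ L ^ (K + 10) * ((L * L ^ c4) * X) * L ^ (c5 + 7) := by gcongr
        _ = X * L ^ (K + c4 + c5 + 18) := by
            have : L ^ (K + c4 + c5 + 18) = L ^ (K + 10) * (L * L ^ c4) * L ^ (c5 + 7) := by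
              rw [← pow_succ', ← pow_add, ← pow_add]; congr 1; ring
            rw [this]; ring
        _ ≤ X * L ^ w := mul_le_mul_of_nonneg_left (hmono (by omega)) hX0.le
        _ ≤ X * H1 := by gcongr
    have h4 : (1 : ℝ) ≤ X / L ^ (c5 + 7) := by
      rw [le_div_iff₀ (by positivity), one_mul]
      exact hpw _ (by omega)
    have h5 : X / L ^ (c5 + 6) = L * (X / L ^ (c5 + 7)) := by
      rw [pow_succ L (c5 + 6)]
      field_simp
    rw [h5]
    nlinarith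
  have hTc5 : L ^ c5 ≤ (T : ℝ) := by
    have h1 : L ^ c5 ≤ (X : ℝ) / H1 := by
      rw [le_div_iff₀ hH1r0]
      calc L ^ c5 * (H1 : ℝ) ≤ L ^ c5 * (P * L ^ (c6 + 3)) := by gcongr; exact hH1H'.trans hH'r2
        _ = P * L ^ (c5 + (c6 + 3)) := by rw [pow_add]; ring
        _ ≤ X := hpw1 _ (by omega)
    have h2 : (1 : ℝ) ≤ ((⌈L ^ c4⌉₊ : ℕ) : ℝ) := (one_le_pow₀ hL1).trans (Nat.le_ceil _)
    have h3 : (X : ℝ) / H1 ≤ L ^ (K + 10) * (⌈L ^ c4⌉₊ * X / H1) := by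
      have h4 : (1 : ℝ) ≤ L ^ (K + 10) := one_le_pow₀ hL1
      have h5 : (X : ℝ) / H1 ≤ ⌈L ^ c4⌉₊ * X / H1 := by
        rw [mul_div_assoc]
        exact le_mul_of_one_le_left (by positivity) h2
      exact h5.trans (le_mul_of_one_le_left (by positivity) h4)
    exact (h1.trans h3).trans (Nat.le_ceil _)
  have hT1000 : 1000 * T ≤ X := by
    have h1 : 1000 * (T : ℝ) ≤ X := by
      have h2 : X / L ^ (c5 + 6) ≤ X / L ^ 3 := div_le_div_of_nonneg_left hX0.le (by positivity) (hmono (by omega))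
      have h3 : X / L ^ 3 ≤ X / 1000 := div_le_div_of_nonneg_left hX0.le (by norm_num) h1000
      linarith
    exact_mod_cast h1
  have hTX : T ≤ X := by omega
  refine ⟨H', hHa, hHc, fun F J hF1 hFs hFc hFm hJc5 hJc7 hmrall α => ?_⟩
  -- Q, D
  set Q : ℕ := ⌊L ^ g⌋₊ with hQ
  have hQr : (Q : ℝ) ≤ L ^ g := Nat.floor_le (by positivity)
  have hQ1 : 1 ≤ Q := Nat.le_floor (by exact_mod_cast one_le_pow₀ hL1)
  have hQr1 : (1 : ℝ) ≤ Q := by exact_mod_cast hQ1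
  set D : ℝ := L ^ c7 with hD
  have hJT : ∀ j ∈ J, |j| ≤ (T : ℤ) := by
    intro j hj
    have h1 : |(j : ℝ)| ≤ T := (hJc5 j hj).trans hTc5
    exact_mod_cast h1
  have hJJ : ∀ q : ℕ, 1 ≤ q → q ≤ Q → (∀ j ∈ (fun _ : ℕ => J) q, |j| ≤ (T : ℤ)) ∧ (((fun _ : ℕ => J) q).card : ℝ) ≤ D :=
    fun q _ _ => ⟨hJT, by simp only; linarith⟩
  -- Dirichlet
  set n : ℕ := ⌊(H' : ℝ) / L ^ c3⌋₊ with hn
  have hn1 : (n : ℝ) ≤ H' / L ^ c3 := Nat.floor_le (by positivity)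
  have hn2 : (H' : ℝ) / L ^ c3 < n + 1 := Nat.lt_floor_add_one _
  have hHc3 : 2 * L ^ g + 1 ≤ (H' : ℝ) / L ^ c3 := by
    rw [le_div_iff₀ (by positivity)]
    calc (2 * L ^ g + 1) * L ^ c3 ≤ (L * L ^ g) * L ^ c3 := by
          have : 1 ≤ L ^ g := one_le_pow₀ hL1
          have h2 : 2 * L ^ g + 1 ≤ L * L ^ g := by nlinarith
          gcongr
      _ = L ^ (g + c3 + 1) := by rw [← pow_succ', ← pow_add]; congr 1; ring
      _ ≤ L ^ c6 := hmono (by omega)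
      _ ≤ H' := hH'r1
  have hQn : 2 * Q ≤ n := by
    refine Nat.le_floor ?_
    push_cast
    linarith
  have hnpos : 0 < n := by omega
  obtain ⟨r, hr1, hr2⟩ := Real.exists_rat_abs_sub_le_and_den_le (-α) hnpos
  set q : ℕ := r.den with hq
  set a0 : ℤ := r.num with ha0
  have hq1 : 1 ≤ q := r.pos
  have hqr : (0 : ℝ) < q := by exact_mod_cast hq1
  have hco : IsCoprime a0 (q : ℤ) := by
    rw [Int.isCoprime_iff_gcd_eq_one]
    exact r.reduced
  have hrr : (r : ℝ) = (a0 : ℝ) / q := by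
    rw [Rat.cast_def]
  rw [hrr] at hr1
  have hth : |-α - a0 / q| * H' ≤ L ^ c3 := by
    have h1 : 1 / (((n : ℝ) + 1) * q) ≤ 1 / (n + 1) := by
      refine one_div_le_one_div_of_le (by positivity) ?_
      have : (1 : ℝ) ≤ q := by exact_mod_cast hq1
      nlinarith [(Nat.cast_nonneg n : (0 : ℝ) ≤ n)]
    have h2 : 1 / ((n : ℝ) + 1) * H' ≤ L ^ c3 := by
      rw [one_div_mul_eq_div, div_le_iff₀ (by positivity)]
      rw [div_lt_iff₀ (by positivity)] at hn2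
      linarith
    calc |-α - a0 / q| * H' ≤ (1 / (n + 1)) * H' := by
          refine mul_le_mul_of_nonneg_right (hr1.trans h1) hH'r0.le
      _ ≤ L ^ c3 := h2
  have hXH : (H' : ℝ) * L ^ (4 * g + 2 * c7 + A + 8) ≤ X := by
    calc (H' : ℝ) * L ^ (4 * g + 2 * c7 + A + 8) ≤ (P * L ^ (c6 + 3)) * L ^ (4 * g + 2 * c7 + A + 8) := by gcongr
      _ = P * L ^ ((c6 + 3) + (4 * g + 2 * c7 + A + 8)) := by rw [pow_add L (c6 + 3)]; ring
      _ ≤ X := hpw1 _ (by omega)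
  by_cases hqQ : q ≤ Q
  · -- major
    set b : ℕ := (a0 % q).toNat with hb
    have hb0 : 0 ≤ a0 % (q : ℤ) := Int.emod_nonneg _ (by omega)
    have hb1 : a0 % (q : ℤ) < q := Int.emod_lt_of_pos _ (by omega)
    have hbz : (b : ℤ) = a0 % q := Int.toNat_of_nonneg hb0
    have hbeq : a0 = b + q * (a0 / q) := by rw [hbz]; exact (Int.emod_add_mul_ediv a0 q).symm
    set m : ℤ := a0 / q with hm'
    have hbcl : b ∈ cl q := by
      unfold cl
      rw [mem_filter, mem_range]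
      refine ⟨by omega, ?_⟩
      rw [← Nat.isCoprime_iff_coprime]
      rw [hbeq] at hco
      exact (IsCoprime.add_mul_left_left_iff).1 hco
    have hix : (q, b) ∈ ix Q := mem_ix.2 ⟨hq1, hqQ, hbcl⟩
    set θ : ℝ := α + a0 / q with hθ
    have hαeq : α = (-((b : ℝ) / q) + θ) + ((-m : ℤ) : ℝ) := by
      rw [hθ]
      have : (a0 : ℝ) = b + q * m := by exact_mod_cast hbeq
      rw [this]
      push_cast
      field_simp
      ring
    have hθa : |θ| * (t * H1) ≤ L ^ c3 := by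
      rw [← hH'eq]
      refine le_trans (le_of_eq ?_) hth
      congr 1
      rw [hθ, ← abs_neg]
      congr 1
      ring
    set G : ℕ → ℂ := fun n => F n - MG F X Q (fun _ => J) n with hG
    have hGn : ∀ n, ‖G n‖ ≤ 1 + 400 * (Q : ℝ) ^ 2 * D := by
      intro n
      refine (norm_sub_le _ _).trans ?_
      refine add_le_add (hF1 n) ?_
      exact MG_leG hF1 hXn (by positivity) (fun q hq hqQ => (hJJ q hq hqQ).2) n
    have hGs : ∀ n, X < n → G n = 0 := by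
      intro n hn
      have h1 : F n = 0 := by
        by_contra h
        have := (hFs n h).2
        omega
      have h2 : MG F X Q (fun _ => J) n = 0 := by
        unfold MG mo
        refine sum_eq_zero fun q _ => sum_eq_zero fun b _ => ?_
        rw [if_neg (by omega), mul_zero]
      rw [hG]
      simp only
      rw [h1, h2, sub_zero]
    rw [hαeq, VV_add_int]
    have hds := dshift G hGn t H1 (-((b : ℝ) / q)) θ (X + H' + 1)
    refine hds.trans ?_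
    have hst : VV G H1 (-((b : ℝ) / q)) (X + H' + 1) = VV G H1 (-((b : ℝ) / q)) (X + H1 + 1) := by
      refine VV_stable hGs H1 _ ?_
      have : H1 ≤ H' := by exact_mod_cast hH1H'
      omega
    rw [hst]
    have hH1u : (H1 : ℝ) ≤ P * L ^ (c6 + 3) := hH1H'.trans hH'r2
    obtain ⟨N, hN1, hN2⟩ := bcore_pow (L := L) (x := H1) (by linarith) (by exact_mod_cast hH1n)
    obtain ⟨cH, hcH1, hcH2⟩ := bcore_pow (L := L) (x := P) (by linarith) hPr
    have hNX : L ^ (N + 2 * c7 + A + 8 + c4 + K + 30) ≤ X := by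
      calc L ^ (N + 2 * c7 + A + 8 + c4 + K + 30) = L ^ N * L ^ (2 * c7 + A + 8 + c4 + K + 30) := by
            rw [← pow_add]; congr 1; ring
        _ ≤ ((P * L ^ (c6 + 3)) * L) * L ^ (2 * c7 + A + 8 + c4 + K + 30) := by
            refine mul_le_mul_of_nonneg_right (hN2.trans ?_) (by positivity)
            exact mul_le_mul_of_nonneg_right hH1u hL0.le
        _ = P * L ^ (c6 + 4 + (2 * c7 + A + 8 + c4 + K + 30)) := by rw [pow_add L (c6 + 4)]; ring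
        _ ≤ X := hpw1 _ (by omega)
    have hcHH : L ^ (cH + c7 + c4 + K + A + 30) ≤ (H1 : ℝ) := by
      calc L ^ (cH + c7 + c4 + K + A + 30) = L ^ cH * L ^ (c7 + c4 + K + A + 30) := by rw [← pow_add]; congr 1; ring
        _ ≤ (P * L) * L ^ (c7 + c4 + K + A + 30) := mul_le_mul_of_nonneg_right hcH2 (by positivity)
        _ = P * L ^ (c7 + c4 + K + A + 31) := by rw [pow_succ L (c7 + c4 + K + A + 30)]; ring
        _ ≤ P * L ^ w := mul_le_mul_of_nonneg_left (hmono (by omega)) hPr0.le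
        _ ≤ H1 := hH1wP
    have hqg : (q : ℝ) ≤ L ^ g := le_trans (by exact_mod_cast hqQ) hQr
    have hmv := hmaj A g c7 c4 K cH N L X H1 T q b F J hK hc4 hLm hNX hF1 hFs (fun n hn => hFc n hn q hq1 hqg) hq1 hqg
      hcHH hN1 hT (fun _ => ⟨hJT, hJc7⟩) (fun δ h1 h2 h3 h4 h5 => hmrall q T δ hq1 hqg h1 h2 (le_trans (by
        rw [show cH + K + 20 = cH + (K + 20) by ring, pow_add L cH]
        exact mul_le_mul_of_nonneg_right hcH1 (by positivity)) h3) h4 h5)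
    set ρ : ℝ := L ^ u / H1 with hρ
    have hρ0 : 0 < ρ := by positivity
    have hr4 : 4 * ρ * (Q : ℝ) ^ 2 ≤ 1 := by
      have h1 : (Q : ℝ) ^ 2 ≤ L ^ (2 * g) := by
        rw [mul_comm 2 g, pow_mul]
        exact pow_le_pow_left₀ (Nat.cast_nonneg _) hQr 2
      rw [hρ]
      have h2 : 4 * (L ^ u / H1) * (Q : ℝ) ^ 2 ≤ L * (L ^ u / H1) * L ^ (2 * g) := by gcongr; linarith
      refine h2.trans ?_
      have h3 : L * (L ^ u / H1) * L ^ (2 * g) = L ^ (u + 2 * g + 1) / H1 := by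
        rw [pow_succ, pow_add]
        ring
      rw [h3, div_le_one hH1r0]
      exact (hmono (by omega)).trans hH1w
    have hHρ : 1000 * (H1 : ℝ) ≤ ρ * X := by
      rw [hρ, div_mul_eq_mul_div, le_div_iff₀ hH1r0]
      calc 1000 * (H1 : ℝ) * H1 ≤ L ^ 3 * (P * L ^ (c6 + 3)) * (P * L ^ (c6 + 3)) := by gcongr
        _ = (P : ℝ) ^ 2 * L ^ (2 * c6 + 9) := by ring
        _ ≤ X := hpw2 _ (by omega)
        _ = 1 * X := (one_mul _).symm
        _ ≤ L ^ u * X := by gcongr; exact one_le_pow₀ hL1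
    have hvr := hrat F X Q T (fun _ => J) H1 (q, b) ρ D _ hF1 hXn hH1n hH1Xn hρ0 hr4 hT1000 hHρ hJJ
      (by positivity) hQ1 hix hmv
    have hfin := vb_num1 (C := C2) (L := L) (X := X) (H := H1) (t := t) (Q := Q) (D := D) (θ := θ) (S := 1 + 400 * (Q : ℝ) ^ 2 * D)
      (VV1 := VV G H1 (-((b : ℝ) / q)) (X + H1 + 1)) (Y := X + H' + 1) (A := A) (g := g) (c7 := c7) (u := u) (c3 := c3) (s := s) (τ := τ)
      hC2 (by linarith) hLC2 hu hs hτ hH1r0 ((hmono (by omega)).trans hH1w) ?_ ht1 (Nat.cast_nonneg _) hQr (by positivity) le_rfl hvr rfl hθa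
      (by positivity) ?_
    · rw [hH'eq]
      refine le_trans (le_of_eq ?_) hfin
      push_cast
      ring
    · exact le_trans (mul_le_mul_of_nonneg_right hH1H' (by positivity)) hXH
    · linarith
  · -- minor
    rw [not_le] at hqQ
    have hqg : L ^ g ≤ (q : ℝ) := by
      have h1 : L ^ g < (Q : ℝ) + 1 := Nat.lt_floor_add_one _
      have h2 : (Q : ℝ) + 1 ≤ q := by exact_mod_cast hqQ
      linarith
    have hqn' : (q : ℝ) ≤ H' / L ^ c3 := le_trans (by exact_mod_cast hr2) hn1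
    set ρ : ℝ := L ^ u / H' with hρ
    have hρ0 : 0 < ρ := by positivity
    set γ0 : ℝ := L ^ c3 / (2 * L ^ g * H') with hγ0
    have hργ : 4 * ρ ≤ γ0 := by
      rw [hρ, hγ0, ← mul_div_assoc, div_le_div_iff₀ hH'r0 (by positivity)]
      calc 4 * L ^ u * (2 * L ^ g * H') = 8 * (L ^ u * L ^ g) * H' := by ring
        _ ≤ L * (L ^ u * L ^ g) * H' := by gcongr; linarith
        _ = L ^ (u + g + 1) * H' := by rw [pow_succ, pow_add]; ring
        _ ≤ L ^ c3 * H' := by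
            refine mul_le_mul_of_nonneg_right (hmono (by omega)) hH'r0.le
    have hHρ : 1000 * (H' : ℝ) ≤ ρ * X := by
      rw [hρ, div_mul_eq_mul_div, le_div_iff₀ hH'r0]
      calc 1000 * (H' : ℝ) * H' ≤ L ^ 3 * (P * L ^ (c6 + 3)) * (P * L ^ (c6 + 3)) := by gcongr
        _ = (P : ℝ) ^ 2 * L ^ (2 * c6 + 9) := by ring
        _ ≤ X := hpw2 _ (by omega)
        _ = 1 * X := (one_mul _).symm
        _ ≤ L ^ u * X := by gcongr; exact one_le_pow₀ hL1
    have hQnγ : 2 * Q * n * γ0 ≤ 1 := by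
      rw [hγ0, ← mul_div_assoc, div_le_one (by positivity)]
      rw [le_div_iff₀ (by positivity)] at hn1
      calc 2 * (Q : ℝ) * n * L ^ c3 = (2 * Q) * (n * L ^ c3) := by ring
        _ ≤ (2 * L ^ g) * H' := by gcongr
        _ = 2 * L ^ g * H' := by ring
    have hq1r : (1 : ℝ) ≤ q := by exact_mod_cast hq1
    have hFz := hFm q H' (-a0) α hH'n hq1 hco.neg_left (by
      have h3 : |α - ((-a0 : ℤ) : ℝ) / q| = |-α - a0 / q| := by
        rw [← abs_neg]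
        congr 1
        push_cast
        ring
      rw [h3]
      refine hr1.trans ?_
      rw [sq]
      have hn1' : (q : ℝ) ≤ n := by exact_mod_cast hr2
      exact one_div_le_one_div_of_le (mul_pos hqr hqr) (by nlinarith))
    have hmi := hmin F X Q T (fun _ => J) H' q n a0 γ0 ρ D α _ hF1 hXn hH'n hHXn hρ0 hργ hT1000 hHρ hJJ
      (by positivity) hq1 hco hqQ hr2 hQn hr1 hQnγ hFz
    refine hmi.trans ?_
    have hlog0 : 0 ≤ Real.log (2 * q * P) := Real.log_nonneg (by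
      have h1 : (1 : ℝ) ≤ q := by exact_mod_cast hq1
      have h2 : (1 : ℝ) ≤ P := by exact_mod_cast hPn
      nlinarith)
    have hPc1 : (P : ℝ) * L ^ (A + 11) ≤ H' := by
      calc (P : ℝ) * L ^ (A + 11) ≤ P * L ^ c6 := mul_le_mul_of_nonneg_left (hmono (by omega)) hPr0.le
        _ ≤ H' := hH'P
    have hqH : (q : ℝ) * L ^ (A + 11) ≤ H' := by
      calc (q : ℝ) * L ^ (A + 11) ≤ (H' / L ^ c3) * L ^ (A + 11) := by gcongr
        _ ≤ (H' / L ^ c3) * L ^ c3 := by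
            refine mul_le_mul_of_nonneg_left (hmono (by omega)) (by positivity)
        _ = H' := by field_simp
    have hlogL : Real.log (2 * q * P) ≤ L := by
      rw [hLd]
      refine Real.log_le_log (by positivity) ?_
      calc 2 * (q : ℝ) * P ≤ L * (H' / L ^ c3) * P := by gcongr; linarith
        _ ≤ L * H' * P := by
            gcongr
            exact div_le_self hH'r0.le (one_le_pow₀ hL1)
        _ ≤ L * (P * L ^ (c6 + 3)) * P := by gcongr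
        _ = (P : ℝ) ^ 2 * L ^ (c6 + 4) := by ring
        _ ≤ X := hpw2 _ (by omega)
    have hnum := vb_num2 (C := 2 * C1 + C1') (L := L) (X := X) (H := H') (Q := Q) (D := D) (P := P) (q := q) (PMR := X) (Lg := Real.log (2 * q * P))
      (A := A) (g := g) (c7 := c7) (u := u) (c3 := c3) (by positivity) (by linarith) hLC1 (by omega) hu hc3 hH'r0 hXH
      ((hmono (by omega)).trans hH'r1) (Nat.cast_nonneg _) hQr (by positivity) le_rfl hPr1 hPc1 ((hmono (by omega)).trans hqg) hqH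
      (by positivity) le_rfl hlog0 hlogL
    refine le_trans ?_ hnum
    have z1 : 0 ≤ (X : ℝ) * H' * ((H' : ℝ) / P + 1 + ((H' : ℝ) / q + P + q + P / q) * Real.log (2 * q * P)) := by positivity
    have z2 : 0 ≤ (Q : ℝ) ^ 4 * D ^ 2 * X * ((H' : ℝ) ^ 2 * (ρ / γ0) + 1 / ρ ^ 2 + (H' : ℝ) ^ 3 / X) := by positivity
    rw [hρ, hγ0] at z2
    rw [hρ, hγ0]
    nlinarith [mul_nonneg hC1.le z1, mul_nonneg hC1'.le z1, mul_nonneg hC1.le z2, mul_nonneg hC1'.le z2]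

end Pool.Agent.Lib.VKT
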