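import Pool.Agent.Lib.VK.Vc

/-!
# Row Tr (about 60 lines): from Z^k to the finite group (Z/M)^k

rd M v reduces a vector of integers mod M. For all large M an equation between the finitely many sums that occur in
cnt (or mom) holds in Z^k iff it holds mod M: take M larger than all coordinates of
|phi d + sum g(x_i) - phi d' - sum g(y_i)| (finitely many values: `Finset.sup` of `Int.natAbs`); an integer u with
|u| < M and u = 0 in ZMod M is 0 (`ZMod.intCast_zmod_eq_zero_iff_dvd` / `ZMod.intCast_eq_intCast_iff_dvd_sub`,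
`Int.eq_zero_of_abs_lt_dvd`). General form tr_eq: for a finite set Z of vectors there is M0 such that for M >= M0
the only elements of Z reducing to 0 mod M are 0; the rest follows by congruence of filters.
-/

set_option autoImplicit false

open Finset

namespace Pool.Agent.Lib.VK

/-- reduction mod M -/
def rd (k M : ℕ) (v : Fin k → ℤ) : Fin k → ZMod M := fun j => ((v j : ℤ) : ZMod M)

theorem rd_add (k M : ℕ) (u v : Fin k → ℤ) : rd k M (u + v) = rd k M u + rd k M v := by
  funext j; simp [rd]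

theorem rd_sum {ι : Type} (k M : ℕ) (S : Finset ι) (u : ι → Fin k → ℤ) :
    rd k M (∑ i ∈ S, u i) = ∑ i ∈ S, rd k M (u i) := by
  funext j; simp [rd, Finset.sum_apply]

theorem rd_sub (k M : ℕ) (u v : Fin k → ℤ) : rd k M (u - v) = rd k M u - rd k M v := by
  funext j; simp [rd]

theorem tr_eq (k : ℕ) (Z : Finset (Fin k → ℤ)) :
    ∃ M0 : ℕ, ∀ M : ℕ, M0 ≤ M → ∀ z ∈ Z, rd k M z = 0 → z = 0 := by
  refine ⟨(Z.sup fun z => univ.sup fun j => (z j).natAbs) + 1, fun M hM z hz h => ?_⟩
  funext j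
  have h1 : ((z j : ℤ) : ZMod M) = 0 := congrFun h j
  have h2 : (M : ℤ) ∣ z j := (ZMod.intCast_zmod_eq_zero_iff_dvd _ _).1 h1
  have h3 : (z j).natAbs ≤ (Z.sup fun z => univ.sup fun j => (z j).natAbs) :=
    (Finset.le_sup (f := fun j => (z j).natAbs) (Finset.mem_univ j)).trans
      (Finset.le_sup (f := fun z : Fin k → ℤ => univ.sup fun j => (z j).natAbs) hz)
  refine Int.eq_zero_of_abs_lt_dvd h2 ?_
  rw [Int.abs_eq_natAbs]
  exact_mod_cast lt_of_lt_of_le (Nat.lt_succ_of_le h3) hM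

theorem tr_cnt {ι α : Type} (k : ℕ) (D : Finset ι) (φ : ι → (Fin k → ℤ)) (A : Finset α)
    (g : α → (Fin k → ℤ)) (s : ℕ) :
    ∃ M0 : ℕ, ∀ M : ℕ, M0 ≤ M →
      cnt D φ A g s = cnt D (fun d => rd k M (φ d)) A (fun x => rd k M (g x)) s := by
  classical
  obtain ⟨M0, h0⟩ := tr_eq k (((D ×ˢ D) ×ˢ ((Fintype.piFinset fun _ : Fin s => A) ×ˢ
    (Fintype.piFinset fun _ : Fin s => A))).image
      (fun z => (φ z.1.1 + ∑ i, g (z.2.1 i)) - (φ z.1.2 + ∑ i, g (z.2.2 i))))
  refine ⟨M0, fun M hM => ?_⟩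
  unfold cnt
  refine congrArg Finset.card (Finset.filter_congr fun z hz => ?_)
  constructor
  · intro h
    have h1 := congrArg (rd k M) h
    simpa only [rd_add, rd_sum] using h1
  · intro h
    have h1 := h0 M hM _ (Finset.mem_image_of_mem _ hz) (by
      rw [rd_sub, rd_add, rd_add, rd_sum, rd_sum, h, sub_self])
    exact sub_eq_zero.1 h1

theorem tr_mom {α : Type} (k : ℕ) (A : Finset α) (g : α → (Fin k → ℤ)) (s : ℕ) :
    ∃ M0 : ℕ, ∀ M : ℕ, M0 ≤ M → mom A g s = mom A (fun x => rd k M (g x)) s := by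
  classical
  obtain ⟨M0, h0⟩ := tr_eq k (((Fintype.piFinset fun _ : Fin s => A) ×ˢ
    (Fintype.piFinset fun _ : Fin s => A)).image
      (fun z => (∑ i, g (z.1 i)) - (∑ i, g (z.2 i))))
  refine ⟨M0, fun M hM => ?_⟩
  unfold mom
  refine congrArg Finset.card (Finset.filter_congr fun z hz => ?_)
  constructor
  · intro h
    have h1 := congrArg (rd k M) h
    simpa only [rd_sum] using h1
  · intro h
    have h1 := h0 M hM _ (Finset.mem_image_of_mem _ hz) (by
      rw [rd_sub, rd_sum, rd_sum, h, sub_self])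
    exact sub_eq_zero.1 h1

end Pool.Agent.Lib.VK
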