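import Pool.Agent.Lib.VK.Fo
import Pool.Agent.Lib.VK.Tr

/-!
# Row H2 (about 30 lines): the homogeneous system has the most solutions

Choose M >= 1 as in tr_mom. A solution of sum g(x_i) = sum g(y_i) + c in Z^k is a solution mod M, so the left side is at most
the number of solutions in (Z/M)^k, which by fo_c is at most mom A (rd o g) s = mom A g s.
-/

set_option autoImplicit false

open Finset

namespace Pool.Agent.Lib.VK

theorem h2 (k : ℕ) {α : Type} (A : Finset α) (g : α → (Fin k → ℤ)) (s : ℕ) (c : Fin k → ℤ) :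
    (((Fintype.piFinset fun _ : Fin s => A) ×ˢ (Fintype.piFinset fun _ : Fin s => A)).filter
      (fun z => ∑ i, g (z.1 i) = ∑ i, g (z.2 i) + c)).card ≤ mom A g s := by
  obtain ⟨M0, hM0⟩ := tr_mom k A g s
  have h1 : 1 ≤ M0 + 1 := by omega
  haveI : NeZero (M0 + 1) := ⟨by omega⟩
  rw [hM0 (M0 + 1) (by omega)]
  refine le_trans (Finset.card_le_card ?_) (fo_c (G := Fin k → ZMod (M0 + 1)) A (fun x => rd k (M0 + 1) (g x)) s (rd k (M0 + 1) c))
  intro z hz
  rw [Finset.mem_filter] at hz ⊢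
  refine ⟨hz.1, ?_⟩
  have h := congrArg (rd k (M0 + 1)) hz.2
  rw [rd_add, rd_sum, rd_sum] at h
  exact h

end Pool.Agent.Lib.VK
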