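import Pool.Agent.Lib.VK.Vc

/-!
# Row Tl (about 60 lines): translation invariance

tl: expand (x - a)^(j+1) by the binomial theorem (`sub_pow` or `add_pow` with -a): the terms of degree l >= 1 in x are linear
in the power sums (which agree by hypothesis), the constant terms are k + s times (-a)^(j+1) on both sides.
tl_c: the inhomogeneous form with shift 1: if sum pw(u_i) = sum pw(v_i) + c then sum pw(u_i + 1) = sum pw(v_i + 1) + c' with
c'_j = sum_(l=1..j+1) binom(j+1, l) c_(l-1), which depends on c only (write T k c for it).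
Nice way: the function f on Fin s -> Z, u -> sum_i q(u_i), for a polynomial q of degree <= k without constant term is a
fixed linear combination of the coordinates of sum pw(u_i).
-/

set_option autoImplicit false

open Finset

namespace Pool.Agent.Lib.VK

theorem tl_aux {ι κ : Type} [Fintype ι] [Fintype κ] (b : ℤ) (m : ℕ) (x y : ι → ℤ) (u v : κ → ℤ)
    (hS : ∀ l ≤ m, ∑ i, x i ^ l + ∑ i, u i ^ l = ∑ i, y i ^ l + ∑ i, v i ^ l) :
    ∑ i, (x i + b) ^ m + ∑ i, (u i + b) ^ m = ∑ i, (y i + b) ^ m + ∑ i, (v i + b) ^ m := by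
  have key : ∀ (α : Type) [Fintype α] (w : α → ℤ), ∑ i, (w i + b) ^ m =
      ∑ l ∈ range (m + 1), (∑ i, w i ^ l) * (b ^ (m - l) * (m.choose l : ℤ)) := by
    intro α _ w
    simp only [add_pow]
    rw [Finset.sum_comm]
    refine Finset.sum_congr rfl fun l _ => ?_
    rw [Finset.sum_mul]
    exact Finset.sum_congr rfl fun i _ => by ring
  rw [key, key, key, key, ← Finset.sum_add_distrib, ← Finset.sum_add_distrib]
  refine Finset.sum_congr rfl fun l hl => ?_
  rw [← add_mul, ← add_mul, hS l (Nat.lt_succ_iff.1 (Finset.mem_range.1 hl))]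

theorem tl (k s : ℕ) (a : ℤ) (x y : Fin k → ℤ) (u v : Fin s → ℤ)
    (h : sp k x + ∑ i, pw k (u i) = sp k y + ∑ i, pw k (v i)) :
    (∑ i, pw k (x i - a)) + ∑ i, pw k (u i - a) = (∑ i, pw k (y i - a)) + ∑ i, pw k (v i - a) := by
  funext j
  simp only [Pi.add_apply, Finset.sum_apply, pw, sub_eq_add_neg]
  refine tl_aux (-a) _ x y u v fun l hl => ?_
  cases l with
  | zero => simp
  | succ l =>
    have hlk : l < k := lt_of_lt_of_le (Nat.lt_of_succ_le hl) j.2
    have h1 := congrFun h ⟨l, hlk⟩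
    simpa only [sp, Pi.add_apply, Finset.sum_apply, pw] using h1

theorem tl_c (k s : ℕ) (c : Fin k → ℤ) : ∃ c' : Fin k → ℤ, ∀ u v : Fin s → ℤ,
    ∑ i, pw k (u i) = ∑ i, pw k (v i) + c → ∑ i, pw k (u i + 1) = ∑ i, pw k (v i + 1) + c' := by
  by_cases hex : ∃ u v : Fin s → ℤ, ∑ i, pw k (u i) = ∑ i, pw k (v i) + c
  · obtain ⟨u0, v0, h0⟩ := hex
    refine ⟨∑ i, pw k (u0 i + 1) - ∑ i, pw k (v0 i + 1), fun u v h => ?_⟩
    funext j
    have key := tl_aux 1 ((j : ℕ) + 1) u v v0 u0 (fun l hl => by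
      cases l with
      | zero => simp
      | succ l =>
        have hlk : l < k := lt_of_lt_of_le (Nat.lt_of_succ_le hl) j.2
        have h1 := congrFun h ⟨l, hlk⟩
        have h2 := congrFun h0 ⟨l, hlk⟩
        simp only [Pi.add_apply, Finset.sum_apply, pw] at h1 h2
        linarith)
    simp only [Pi.add_apply, Pi.sub_apply, Finset.sum_apply, pw]
    linarith
  · exact ⟨0, fun u v h => absurd ⟨u, v, h⟩ hex⟩

end Pool.Agent.Lib.VK
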