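import Pool.Agent.Lib.VK.L2
import Pool.Agent.Lib.VK.H2
import Pool.Agent.Lib.VK.Tl

/-!
# Row Cl (about 120 lines): one residue class

Write D = Dp k p P, A_a = the integers in [1,P] that are a mod p (0 <= a < p). Group the solutions (x, y, u, v) by (x, y).
(1) If (x, y) occurs, then by tl, for all j: sum_i (x_i-a)^j - sum_i (y_i-a)^j = sum_i (v_i-a)^j - sum_i (u_i-a)^j is divisible
by p^j (u_i - a and v_i - a are divisible by p). For fixed y in D (at most P^k choices: Dp is a subset of [1,P]^k) l2 with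
H_j = sum_i (y_i - a)^(j+1) gives at most k! p^(k(k-1)/2) such x. So at most P^k k! p^(k(k-1)/2) pairs (x, y).
(2) For a fixed pair (x, y) the number of (u, v) is at most J s k (P/p + 1): if it is not 0, write u_i = a + p u'_i,
v_i = a + p v'_i with u'_i = (u_i - a)/p = u_i / p in [0, P/p]. By tl (shift a) and dividing the coordinate j by p^(j+1):
sum pw(u'_i) = sum pw(v'_i) + c with c independent of (u, v) (c_j = (sum (y_i-a)^(j+1) - sum (x_i-a)^(j+1)) / p^(j+1)).
Shift by 1 (tl_c): U = u'+1, V = v'+1 in [1, P/p+1] satisfy sum pw(U_i) = sum pw(V_i) + c'; (u,v) -> (U,V) is injective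
(`Finset.card_le_card_of_injOn`), so h2 gives the bound mom (Icc 1 (P/p+1)) (pw k) s = J s k (P/p+1).
Hint: `Finset.card_le_mul_card_image_of_maps_to`, or cnt = sum over pairs (`Finset.card_filter_product`, card of a product as a sum).
-/

set_option autoImplicit false

open Finset

namespace Pool.Agent.Lib.VK

theorem cl_D (k p P : ℕ) : (Dp k p P).card ≤ P ^ k := by
  unfold Dp
  refine (Finset.card_filter_le _ _).trans ?_
  rw [Fintype.card_piFinset]
  simp

theorem cl_pow (k p : ℕ) (x : ℤ) (j : Fin k) : pw k ((p : ℤ) * x) j = (p : ℤ) ^ ((j : ℕ) + 1) * pw k x j := by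
  simp only [pw]; ring

theorem cl_fib (k s p P : ℕ) (hp : p.Prime) (a : ℤ) (x y : Fin k → ℤ)
    (hxy : ∀ j : Fin k, ((p : ℤ) ^ ((j : ℕ) + 1)) ∣ (∑ i, (x i - a) ^ ((j : ℕ) + 1)) - ∑ i, (y i - a) ^ ((j : ℕ) + 1)) :
    (((Fintype.piFinset fun _ : Fin s => (Icc (1 : ℤ) P).filter (fun x => x % (p : ℤ) = a)) ×ˢ
      (Fintype.piFinset fun _ : Fin s => (Icc (1 : ℤ) P).filter (fun x => x % (p : ℤ) = a))).filter
      (fun w => sp k x + ∑ i, pw k (w.1 i) = sp k y + ∑ i, pw k (w.2 i))).card ≤ J s k (P / p + 1) := by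
  have hp0 : (0 : ℤ) < p := by exact_mod_cast hp.pos
  choose c0 hc0 using hxy
  obtain ⟨c', hc'⟩ := tl_c k s (fun j => - c0 j)
  refine le_trans (Finset.card_le_card_of_injOn
    (fun w : (Fin s → ℤ) × (Fin s → ℤ) => (fun i => w.1 i / (p : ℤ) + 1, fun i => w.2 i / (p : ℤ) + 1)) ?_ ?_)
    (h2 k (Icc (1 : ℤ) ((P / p + 1 : ℕ) : ℤ)) (pw k) s c')
  · intro w hw
    simp only [Finset.coe_filter, Finset.mem_product, Fintype.mem_piFinset, Finset.mem_filter, Finset.mem_Icc,
      Set.mem_setOf_eq] at hw ⊢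
    obtain ⟨⟨hu, hv⟩, he⟩ := hw
    have hrange : ∀ z : ℤ, ((1 ≤ z ∧ z ≤ P) ∧ z % (p : ℤ) = a) →
        1 ≤ z / (p : ℤ) + 1 ∧ z / (p : ℤ) + 1 ≤ ((P / p + 1 : ℕ) : ℤ) := by
      intro z hz
      constructor
      · have := Int.ediv_nonneg (by linarith [hz.1.1] : (0:ℤ) ≤ z) hp0.le
        linarith
      · have := Int.ediv_le_ediv hp0 hz.1.2
        push_cast
        linarith
    refine ⟨⟨fun i => hrange _ (hu i), fun i => hrange _ (hv i)⟩, ?_⟩
    apply hc'
    have ht := tl k s a x y w.1 w.2 he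
    have hdiv : ∀ z : ℤ, z % (p : ℤ) = a → z - a = (p : ℤ) * (z / p) := by
      intro z hz
      have := Int.emod_add_mul_ediv z p
      rw [hz] at this
      linarith
    funext j
    have htj := congrFun ht j
    simp only [Pi.add_apply, Finset.sum_apply] at htj ⊢
    have e1 : ∑ i, pw k (w.1 i - a) j = (p : ℤ) ^ ((j : ℕ) + 1) * ∑ i, pw k (w.1 i / (p : ℤ)) j := by
      rw [Finset.mul_sum]
      refine Finset.sum_congr rfl fun i _ => ?_
      rw [hdiv _ (hu i).2, cl_pow]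
    have e2 : ∑ i, pw k (w.2 i - a) j = (p : ℤ) ^ ((j : ℕ) + 1) * ∑ i, pw k (w.2 i / (p : ℤ)) j := by
      rw [Finset.mul_sum]
      refine Finset.sum_congr rfl fun i _ => ?_
      rw [hdiv _ (hv i).2, cl_pow]
    rw [e1, e2] at htj
    have h0 := hc0 j
    have e3 : ∑ i, pw k (x i - a) j = ∑ i, (x i - a) ^ ((j : ℕ) + 1) := rfl
    have e4 : ∑ i, pw k (y i - a) j = ∑ i, (y i - a) ^ ((j : ℕ) + 1) := rfl
    rw [e3, e4] at htj
    have hpj : ((p : ℤ) ^ ((j : ℕ) + 1)) ≠ 0 := pow_ne_zero _ hp0.ne'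
    apply mul_left_cancel₀ hpj
    rw [mul_add]
    linarith
  · intro w hw w' hw' hww
    simp only [Finset.coe_filter, Finset.mem_product, Fintype.mem_piFinset, Finset.mem_filter, Finset.mem_Icc,
      Set.mem_setOf_eq] at hw hw'
    simp only [Prod.mk.injEq] at hww
    have key : ∀ z z' : ℤ, z % (p : ℤ) = a → z' % (p : ℤ) = a → z / (p : ℤ) + 1 = z' / (p : ℤ) + 1 → z = z' := by
      intro z z' hz hz' h
      have h1 := Int.emod_add_mul_ediv z p
      have h2 := Int.emod_add_mul_ediv z' p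
      have h3 : z / (p : ℤ) = z' / (p : ℤ) := by linarith
      rw [hz] at h1
      rw [hz', ← h3] at h2
      linarith
    refine Prod.ext ?_ ?_
    · funext i
      exact key _ _ (hw.1.1 i).2 (hw'.1.1 i).2 (congrFun hww.1 i)
    · funext i
      exact key _ _ (hw.1.2 i).2 (hw'.1.2 i).2 (congrFun hww.2 i)

theorem cl (k s p P : ℕ) (hp : p.Prime) (hk : k < p) (hP : P ≤ p ^ k) (a : ℤ) (ha : 0 ≤ a) (hap : a < p) :
    cnt (Dp k p P) (sp k) ((Icc (1 : ℤ) P).filter (fun x => x % (p : ℤ) = a)) (pw k) s ≤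
      P ^ k * (k.factorial * p ^ (k * (k - 1) / 2)) * J s k (P / p + 1) := by
  classical
  set T : Finset ((Fin k → ℤ) × (Fin k → ℤ)) := (Dp k p P ×ˢ Dp k p P).filter (fun z => ∀ j : Fin k,
    ((p : ℤ) ^ ((j : ℕ) + 1)) ∣ (∑ i, (z.1 i - a) ^ ((j : ℕ) + 1)) - ∑ i, (z.2 i - a) ^ ((j : ℕ) + 1)) with hT
  have hTc : T.card ≤ P ^ k * (k.factorial * p ^ (k * (k - 1) / 2)) := by
    have h1 : T.card ≤ (k.factorial * p ^ (k * (k - 1) / 2)) * (Dp k p P).card := by
      apply Finset.card_le_mul_card_image_of_maps_to (f := fun z : (Fin k → ℤ) × (Fin k → ℤ) => z.2)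
      · intro z hz
        rw [hT, Finset.mem_filter, Finset.mem_product] at hz
        exact hz.1.2
      · intro y hy
        refine le_trans (Finset.card_le_card_of_injOn (fun z : (Fin k → ℤ) × (Fin k → ℤ) => z.1) ?_ ?_)
          (l2 p k P hp hk hP a (fun j => ∑ i, (y i - a) ^ ((j : ℕ) + 1)))
        · intro z hz
          simp only [hT, Finset.coe_filter, Finset.mem_filter, Finset.mem_product, Set.mem_setOf_eq] at hz ⊢
          obtain ⟨⟨⟨h1, h2⟩, h3⟩, h4⟩ := hz
          subst h4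
          exact ⟨h1, h3⟩
        · intro z hz z' hz' h
          simp only [Finset.coe_filter, Set.mem_setOf_eq] at hz hz'
          exact Prod.ext h (hz.2.trans hz'.2.symm)
    calc T.card ≤ (k.factorial * p ^ (k * (k - 1) / 2)) * (Dp k p P).card := h1
      _ ≤ (k.factorial * p ^ (k * (k - 1) / 2)) * P ^ k := Nat.mul_le_mul_left _ (cl_D k p P)
      _ = _ := by ring
  have hmain : cnt (Dp k p P) (sp k) ((Icc (1 : ℤ) P).filter (fun x => x % (p : ℤ) = a)) (pw k) s ≤
      J s k (P / p + 1) * T.card := by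
    unfold cnt
    apply Finset.card_le_mul_card_image_of_maps_to
      (f := fun z : ((Fin k → ℤ) × (Fin k → ℤ)) × ((Fin s → ℤ) × (Fin s → ℤ)) => z.1)
    · intro z hz
      simp only [Finset.mem_filter, Finset.mem_product, Fintype.mem_piFinset] at hz
      obtain ⟨⟨⟨hx, hy⟩, hu, hv⟩, he⟩ := hz
      rw [hT, Finset.mem_filter, Finset.mem_product]
      refine ⟨⟨hx, hy⟩, fun j => ?_⟩
      have ht := congrFun (tl k s a z.1.1 z.1.2 z.2.1 z.2.2 he) j
      simp only [Pi.add_apply, Finset.sum_apply] at ht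
      have e3 : ∑ i, pw k (z.1.1 i - a) j = ∑ i, (z.1.1 i - a) ^ ((j : ℕ) + 1) := rfl
      have e4 : ∑ i, pw k (z.1.2 i - a) j = ∑ i, (z.1.2 i - a) ^ ((j : ℕ) + 1) := rfl
      rw [e3, e4] at ht
      have hd : ∀ w : ℤ, w % (p : ℤ) = a → ((p : ℤ) ^ ((j : ℕ) + 1)) ∣ pw k (w - a) j := by
        intro w hw
        have : (p : ℤ) ∣ w - a := by
          rw [← hw]; exact Int.dvd_self_sub_emod
        exact pow_dvd_pow_of_dvd this _
      have h1 : ((p : ℤ) ^ ((j : ℕ) + 1)) ∣ ∑ i, pw k (z.2.1 i - a) j :=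
        Finset.dvd_sum fun i _ => hd _ (hu i).2
      have h2 : ((p : ℤ) ^ ((j : ℕ) + 1)) ∣ ∑ i, pw k (z.2.2 i - a) j :=
        Finset.dvd_sum fun i _ => hd _ (hv i).2
      have h3 : (∑ i, (z.1.1 i - a) ^ ((j : ℕ) + 1)) - ∑ i, (z.1.2 i - a) ^ ((j : ℕ) + 1) =
          (∑ i, pw k (z.2.2 i - a) j) - ∑ i, pw k (z.2.1 i - a) j := by linarith
      rw [h3]
      exact dvd_sub h2 h1
    · intro b hb
      rw [hT, Finset.mem_filter, Finset.mem_product] at hb
      refine le_trans (Finset.card_le_card_of_injOn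
        (fun z : ((Fin k → ℤ) × (Fin k → ℤ)) × ((Fin s → ℤ) × (Fin s → ℤ)) => z.2) ?_ ?_)
        (cl_fib k s p P hp a b.1 b.2 hb.2)
      · intro z hz
        simp only [Finset.coe_filter, Finset.mem_filter, Finset.mem_product, Set.mem_setOf_eq] at hz ⊢
        obtain ⟨⟨⟨h1, h2⟩, h3⟩, h4⟩ := hz
        subst h4
        exact ⟨h2, h3⟩
      · intro z hz z' hz' h
        simp only [Finset.coe_filter, Set.mem_setOf_eq] at hz hz'
        exact Prod.ext (hz.2.trans hz'.2.symm) h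
  calc _ ≤ J s k (P / p + 1) * T.card := hmain
    _ ≤ J s k (P / p + 1) * (P ^ k * (k.factorial * p ^ (k * (k - 1) / 2))) := Nat.mul_le_mul_left _ hTc
    _ = _ := by ring

end Pool.Agent.Lib.VK
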