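import Pool.Agent.Lib.DN.Defs
import Pool.Agent.Lib.SW.Defs

/-!
# VK: definitions (rough numbers and their Dirichlet series)
-/

set_option autoImplicit false

open Finset
open scoped ArithmeticFunction.vonMangoldt

namespace Pool.Agent.Lib.VK

open Pool.Agent.Lib.DN (nt)

/-- `n` is positive and has no prime factor `≤ y` -/
def Rough (y n : ℕ) : Prop := n ≠ 0 ∧ ∀ p : ℕ, p.Prime → p ∣ n → y < p

/-- `χ(n)` on the numbers without prime factors `≤ y`, zero elsewhere -/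
noncomputable def fr {q : ℕ} (χ : DirichletCharacter ℂ q) (y n : ℕ) : ℂ :=
  open Classical in if Rough y n then χ (n : ZMod q) else 0

/-- `Λ(n) fr(n)` -/
noncomputable def frL {q : ℕ} (χ : DirichletCharacter ℂ q) (y n : ℕ) : ℂ := fr χ y n * ((Λ n : ℝ) : ℂ)

/-- the smooth sums of `χ(n) n^(it)` are small from `y` on -/
def Sm {q : ℕ} (χ : DirichletCharacter ℂ q) (y : ℕ) (t ε : ℝ) : Prop :=
  ∀ a b : ℕ, y ≤ a → b ≤ 2 * a → ‖∑ n ∈ Ioc a b, χ (n : ZMod q) * nt t n‖ ≤ ε * a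

theorem rough_one (y : ℕ) : Rough y 1 :=
  ⟨one_ne_zero, fun p hp h => absurd (Nat.dvd_one.1 h) hp.one_lt.ne'⟩

theorem rough_mul {y m n : ℕ} : Rough y (m * n) ↔ Rough y m ∧ Rough y n := by
  constructor
  · rintro ⟨h0, h⟩
    have hm : m ≠ 0 := fun e => h0 (by rw [e, zero_mul])
    have hn : n ≠ 0 := fun e => h0 (by rw [e, mul_zero])
    exact ⟨⟨hm, fun p hp hd => h p hp (hd.mul_right n)⟩, ⟨hn, fun p hp hd => h p hp (hd.mul_left m)⟩⟩
  · rintro ⟨⟨hm, h1⟩, hn, h2⟩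
    refine ⟨mul_ne_zero hm hn, fun p hp hd => ?_⟩
    rcases hp.dvd_mul.1 hd with h | h
    · exact h1 p hp h
    · exact h2 p hp h

theorem rough_prime {y p : ℕ} (hp : p.Prime) : Rough y p ↔ y < p := by
  constructor
  · rintro ⟨_, h⟩
    exact h p hp dvd_rfl
  · intro h
    refine ⟨hp.ne_zero, fun r hr hd => ?_⟩
    rwa [(Nat.prime_dvd_prime_iff_eq hr hp).1 hd]

theorem rough_lt {y n : ℕ} (h : Rough y n) (hn : n ≠ 1) : y < n := by
  obtain ⟨p, hp, hd⟩ := Nat.exists_prime_and_dvd hn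
  exact lt_of_lt_of_le (h.2 p hp hd) (Nat.le_of_dvd (Nat.pos_of_ne_zero h.1) hd)

theorem fr_one {q : ℕ} (χ : DirichletCharacter ℂ q) (y : ℕ) : fr χ y 1 = 1 := by
  unfold fr
  rw [if_pos (rough_one y)]
  simp

theorem fr_zero {q : ℕ} (χ : DirichletCharacter ℂ q) (y : ℕ) : fr χ y 0 = 0 := by
  unfold fr
  rw [if_neg (fun h => h.1 rfl)]

theorem fr_mul {q : ℕ} (χ : DirichletCharacter ℂ q) (y m n : ℕ) : fr χ y (m * n) = fr χ y m * fr χ y n := by
  unfold fr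
  by_cases hm : Rough y m
  · by_cases hn : Rough y n
    · rw [if_pos (rough_mul.2 ⟨hm, hn⟩), if_pos hm, if_pos hn, Nat.cast_mul, map_mul]
    · rw [if_neg (fun h => hn (rough_mul.1 h).2), if_neg hn, mul_zero]
  · rw [if_neg (fun h => hm (rough_mul.1 h).1), if_neg hm, zero_mul]

theorem norm_fr_le {q : ℕ} (χ : DirichletCharacter ℂ q) (y n : ℕ) : ‖fr χ y n‖ ≤ 1 := by
  unfold fr
  split_ifs
  · exact DirichletCharacter.norm_le_one χ _
  · simp

theorem norm_frL_le {q : ℕ} (χ : DirichletCharacter ℂ q) (y n : ℕ) : ‖frL χ y n‖ ≤ Real.log n := by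
  unfold frL
  rw [norm_mul, Complex.norm_real, Real.norm_of_nonneg ArithmeticFunction.vonMangoldt_nonneg]
  calc ‖fr χ y n‖ * Λ n ≤ 1 * Λ n := mul_le_mul_of_nonneg_right (norm_fr_le χ y n) ArithmeticFunction.vonMangoldt_nonneg
    _ = Λ n := one_mul _
    _ ≤ Real.log n := ArithmeticFunction.vonMangoldt_le_log

end Pool.Agent.Lib.VK
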