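import Pool.Agent.Lib.VK.Vc

/-!
# Row Fo (about 90 lines): the counts as moments of exponential sums over a finite group

For a character psi of the finite group G put F(psi) = sum_(d in D) psi(phi d), f(psi) = sum_(x in A) psi(g x).
|F|^2 |f|^(2s) = F conj(F) f^s conj(f)^s. Expand: f^s = sum over x in A^s of psi(sum g(x_i))
(`Finset.prod_univ_sum` / `Finset.sum_pow'` for `Fintype.piFinset`), conj psi(u) = psi(-u). So |F|^2 |f|^(2s) is the sum over
(d, d', x, y) of psi(phi d + sum g(x_i) - phi d' - sum g(y_i)), and summing over all psi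
(`AddChar.sum_apply_eq_ite` or `AddChar.sum_eq_ite`, number of characters = card G) leaves card G for each solution.
fo_mom is the case D = {one point}, phi = 0 (or repeat the proof).
fo_c: the same with a constant c: the sum over psi of |f|^(2s) psi(c) (up to conjugation) is card G times the number of
solutions of sum g(x_i) = sum g(y_i) + c, so by the triangle inequality this number is at most mom A g s.
fo_co: (coincidences) the number of (x, y) in A^n x A^n with equal sums and x_i = x_j, times card G, is at most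
sum over psi of |F2| |f|^(2n-2), F2(psi) = sum_(x in A) psi(2 g x): the sum over x in A^n with x_i = x_j of prod_l psi(g x_l)
is sum_(w in A) prod_l (sum_(x_l in A) h_l(x_l)) with h_i(x) = h_j(x) = psi(g x) if x = w and 0 otherwise, h_l = psi o g for
the other l (`Finset.prod_univ_sum`), which is F2 f^(n-2).
-/

set_option autoImplicit false

open Finset

namespace Pool.Agent.Lib.VK

open scoped ComplexConjugate

private theorem fo_map_sum {G β : Type} [AddCommGroup G] (ψ : AddChar G ℂ) (S : Finset β)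
    (f : β → G) : ψ (∑ i ∈ S, f i) = ∏ i ∈ S, ψ (f i) := by
  classical
  induction S using Finset.induction_on with
  | empty => rw [sum_empty, prod_empty, AddChar.map_zero_eq_one]
  | insert a s ha ih => rw [sum_insert ha, prod_insert ha, AddChar.map_add_eq_mul, ih]

/-- the general count -/
private theorem fo_gen {G τ τ' : Type} [AddCommGroup G] [Fintype G] [DecidableEq G]
    (T : Finset τ) (T' : Finset τ') (h : τ → G) (h' : τ' → G) :
    ((Fintype.card G : ℕ) : ℂ) * (((T ×ˢ T').filter (fun z => h z.1 = h' z.2)).card : ℂ) =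
      ∑ ψ : AddChar G ℂ, (∑ t ∈ T, ψ (h t)) * conj (∑ t' ∈ T', ψ (h' t')) := by
  have h1 : ∀ ψ : AddChar G ℂ, (∑ t ∈ T, ψ (h t)) * conj (∑ t' ∈ T', ψ (h' t')) =
      ∑ z ∈ T ×ˢ T', ψ (h z.1 - h' z.2) := by
    intro ψ
    rw [map_sum, sum_mul_sum, ← sum_product']
    refine sum_congr rfl fun z _ => ?_
    rw [← AddChar.map_neg_eq_conj, ← AddChar.map_add_eq_mul, sub_eq_add_neg]
  simp only [h1]
  rw [sum_comm]
  simp only [AddChar.sum_apply_eq_ite, sub_eq_zero]
  rw [← sum_filter, sum_const, nsmul_eq_mul, mul_comm]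

/-- the sum over the tuples -/
private theorem fo_tup {G α : Type} [AddCommGroup G] [Finite G] (ψ : AddChar G ℂ) (A : Finset α)
    (g : α → G) (s : ℕ) :
    ∑ x ∈ Fintype.piFinset (fun _ : Fin s => A), ψ (∑ i, g (x i)) = (∑ x ∈ A, ψ (g x)) ^ s := by
  classical
  have h1 : (∑ x ∈ A, ψ (g x)) ^ s = ∏ _i : Fin s, ∑ x ∈ A, ψ (g x) := by
    rw [prod_const, card_univ, Fintype.card_fin]
  rw [h1, prod_univ_sum]
  refine sum_congr rfl fun x _ => ?_
  rw [fo_map_sum]

private theorem fo_gen' {G τ : Type} [AddCommGroup G] [Fintype G] [DecidableEq G]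
    (T : Finset τ) (h : τ → G) :
    (Fintype.card G : ℝ) * (((T ×ˢ T).filter (fun z => h z.1 = h z.2)).card : ℝ) =
      ∑ ψ : AddChar G ℂ, ‖∑ t ∈ T, ψ (h t)‖ ^ 2 := by
  have h1 := fo_gen T T h h
  have h2 : ∀ ψ : AddChar G ℂ, (∑ t ∈ T, ψ (h t)) * conj (∑ t ∈ T, ψ (h t)) =
      ((‖∑ t ∈ T, ψ (h t)‖ ^ 2 : ℝ) : ℂ) := by
    intro ψ
    rw [Complex.mul_conj, Complex.normSq_eq_norm_sq]
  simp only [h2] at h1
  exact_mod_cast h1

theorem fo {G ι α : Type} [AddCommGroup G] [Fintype G] [DecidableEq G] (D : Finset ι) (φ : ι → G)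
    (A : Finset α) (g : α → G) (s : ℕ) :
    (Fintype.card G : ℝ) * cnt D φ A g s =
      ∑ ψ : AddChar G ℂ, ‖∑ d ∈ D, ψ (φ d)‖ ^ 2 * ‖∑ x ∈ A, ψ (g x)‖ ^ (2 * s) := by
  classical
  have h1 := fo_gen' (D ×ˢ Fintype.piFinset (fun _ : Fin s => A))
    (fun t : ι × (Fin s → α) => φ t.1 + ∑ i, g (t.2 i))
  have h2 : ∀ ψ : AddChar G ℂ, ∑ t ∈ D ×ˢ Fintype.piFinset (fun _ : Fin s => A),
      ψ (φ t.1 + ∑ i, g (t.2 i)) = (∑ d ∈ D, ψ (φ d)) * (∑ x ∈ A, ψ (g x)) ^ s := by
    intro ψ
    rw [← fo_tup, sum_mul_sum, ← sum_product']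
    refine sum_congr rfl fun t _ => ?_
    rw [AddChar.map_add_eq_mul]
  simp only [h2, norm_mul, norm_pow, mul_pow, ← pow_mul] at h1
  rw [mul_comm 2 s, ← h1]
  congr 2
  unfold cnt
  refine card_bij' (fun z _ => ((z.1.1, z.2.1), (z.1.2, z.2.2)))
    (fun z _ => ((z.1.1, z.2.1), (z.1.2, z.2.2))) ?_ ?_ ?_ ?_
  · rintro ⟨⟨a, b⟩, ⟨c, d⟩⟩ hz
    simp only [mem_filter, mem_product] at hz ⊢
    tauto
  · rintro ⟨⟨a, b⟩, ⟨c, d⟩⟩ hz
    simp only [mem_filter, mem_product] at hz ⊢
    tauto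
  · rintro ⟨⟨a, b⟩, ⟨c, d⟩⟩ _
    rfl
  · rintro ⟨⟨a, b⟩, ⟨c, d⟩⟩ _
    rfl

theorem fo_mom {G α : Type} [AddCommGroup G] [Fintype G] [DecidableEq G]
    (A : Finset α) (g : α → G) (s : ℕ) :
    (Fintype.card G : ℝ) * mom A g s = ∑ ψ : AddChar G ℂ, ‖∑ x ∈ A, ψ (g x)‖ ^ (2 * s) := by
  classical
  have h1 := fo_gen' (Fintype.piFinset (fun _ : Fin s => A)) (fun x => ∑ i, g (x i))
  simp only [fo_tup, norm_pow, ← pow_mul] at h1
  rw [mul_comm 2 s, ← h1]
  rfl

theorem fo_c {G α : Type} [AddCommGroup G] [Fintype G] [DecidableEq G]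
    (A : Finset α) (g : α → G) (s : ℕ) (c : G) :
    (((Fintype.piFinset fun _ : Fin s => A) ×ˢ (Fintype.piFinset fun _ : Fin s => A)).filter
      (fun z => ∑ i, g (z.1 i) = ∑ i, g (z.2 i) + c)).card ≤ mom A g s := by
  classical
  have h1 := fo_gen (Fintype.piFinset (fun _ : Fin s => A)) (Fintype.piFinset (fun _ : Fin s => A))
    (fun x => ∑ i, g (x i)) (fun y => ∑ i, g (y i) + c)
  have h3 := fo_mom A g s
  have h4 : (Fintype.card G : ℝ) * ((((Fintype.piFinset fun _ : Fin s => A) ×ˢ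
      (Fintype.piFinset fun _ : Fin s => A)).filter
      (fun z => ∑ i, g (z.1 i) = ∑ i, g (z.2 i) + c)).card : ℝ) ≤
      (Fintype.card G : ℝ) * mom A g s := by
    rw [h3]
    have h5 : (Fintype.card G : ℝ) * ((((Fintype.piFinset fun _ : Fin s => A) ×ˢ
      (Fintype.piFinset fun _ : Fin s => A)).filter
      (fun z => ∑ i, g (z.1 i) = ∑ i, g (z.2 i) + c)).card : ℝ) =
      ‖((Fintype.card G : ℕ) : ℂ) * ((((Fintype.piFinset fun _ : Fin s => A) ×ˢ
      (Fintype.piFinset fun _ : Fin s => A)).filter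
      (fun z => ∑ i, g (z.1 i) = ∑ i, g (z.2 i) + c)).card : ℂ)‖ := by
      rw [norm_mul, Complex.norm_natCast, Complex.norm_natCast]
    rw [h5, h1]
    refine (norm_sum_le _ _).trans (le_of_eq (sum_congr rfl fun ψ _ => ?_))
    simp only [AddChar.map_add_eq_mul, ← sum_mul, fo_tup]
    rw [norm_mul, Complex.norm_conj, norm_mul, AddChar.norm_apply, mul_one, norm_pow, ← pow_add]
    congr 1
    omega
  have h6 : (0 : ℝ) < Fintype.card G := by exact_mod_cast Fintype.card_pos
  exact_mod_cast le_of_mul_le_mul_left h4 h6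

/-- the sum over the tuples with a coincidence -/
private theorem fo_pair {α : Type} [DecidableEq α] (A : Finset α) (u : α → ℂ) (n : ℕ)
    (i j : Fin n) (hij : i ≠ j) :
    ∑ x ∈ (Fintype.piFinset (fun _ : Fin n => A)).filter (fun x => x i = x j), ∏ l, u (x l) =
      (∑ w ∈ A, u w * u w) * (∑ x ∈ A, u x) ^ (n - 2) := by
  classical
  rw [← sum_fiberwise_of_maps_to (t := A) (g := fun x : Fin n → α => x i)
    (fun x hx => Fintype.mem_piFinset.mp (mem_filter.mp hx).1 i), sum_mul]
  refine sum_congr rfl fun w hw => ?_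
  have h1 : ((Fintype.piFinset (fun _ : Fin n => A)).filter (fun x => x i = x j)).filter
      (fun x => x i = w) = Fintype.piFinset (fun l : Fin n => if l = i ∨ l = j then {w} else A) := by
    ext x
    simp only [mem_filter, Fintype.mem_piFinset]
    constructor
    · rintro ⟨⟨h1, h2⟩, h3⟩ l
      split_ifs with h
      · rw [mem_singleton]
        rcases h with rfl | rfl
        · exact h3
        · rw [← h2, h3]
      · exact h1 l
    · intro h
      have hi := h i
      have hj := h j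
      rw [if_pos (Or.inl rfl), mem_singleton] at hi
      rw [if_pos (Or.inr rfl), mem_singleton] at hj
      refine ⟨⟨fun l => ?_, by rw [hi, hj]⟩, hi⟩
      have hl := h l
      split_ifs at hl with h'
      · rw [mem_singleton] at hl
        rw [hl]
        exact hw
      · exact hl
  rw [h1, ← prod_univ_sum]
  have h2 : ∀ l : Fin n, ∑ a ∈ (if l = i ∨ l = j then {w} else A), u a =
      if l = i ∨ l = j then u w else ∑ x ∈ A, u x := by
    intro l
    split_ifs
    · rw [sum_singleton]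
    · rfl
  simp only [h2]
  rw [prod_ite, prod_const, prod_const]
  have h3 : (univ.filter (fun l : Fin n => l = i ∨ l = j)).card = 2 := by
    have : univ.filter (fun l : Fin n => l = i ∨ l = j) = {i, j} := by
      ext l
      simp
    rw [this, card_pair hij]
  have h4 : (univ.filter (fun l : Fin n => ¬ (l = i ∨ l = j))).card = n - 2 := by
    have h5 := card_filter_add_card_filter_not (s := (univ : Finset (Fin n)))
      (fun l : Fin n => l = i ∨ l = j)
    rw [card_univ, Fintype.card_fin, h3] at h5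
    omega
  rw [h3, h4]
  ring

theorem fo_co {G α : Type} [AddCommGroup G] [Fintype G] [DecidableEq G] [DecidableEq α]
    (A : Finset α) (g : α → G) (n : ℕ) (i j : Fin n) (hij : i ≠ j) :
    (Fintype.card G : ℝ) * (((Fintype.piFinset fun _ : Fin n => A) ×ˢ (Fintype.piFinset fun _ : Fin n => A)).filter
      (fun z => ∑ l, g (z.1 l) = ∑ l, g (z.2 l) ∧ z.1 i = z.1 j)).card ≤
      ∑ ψ : AddChar G ℂ, ‖∑ x ∈ A, ψ (g x + g x)‖ * ‖∑ x ∈ A, ψ (g x)‖ ^ (2 * n - 2) := by
  classical
  have hn : 2 ≤ n := by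
    have h1 := i.isLt
    have h2 := j.isLt
    have h3 : (i : ℕ) ≠ j := fun h => hij (Fin.ext h)
    omega
  have h1 := fo_gen ((Fintype.piFinset (fun _ : Fin n => A)).filter (fun x => x i = x j))
    (Fintype.piFinset (fun _ : Fin n => A)) (fun x => ∑ l, g (x l)) (fun x => ∑ l, g (x l))
  have h2 : (((Fintype.piFinset fun _ : Fin n => A) ×ˢ (Fintype.piFinset fun _ : Fin n => A)).filter
      (fun z => ∑ l, g (z.1 l) = ∑ l, g (z.2 l) ∧ z.1 i = z.1 j)).card =
      ((((Fintype.piFinset (fun _ : Fin n => A)).filter (fun x => x i = x j)) ×ˢ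
        (Fintype.piFinset (fun _ : Fin n => A))).filter
        (fun z => ∑ l, g (z.1 l) = ∑ l, g (z.2 l))).card := by
    congr 1
    ext z
    simp only [mem_filter, mem_product]
    tauto
  rw [h2]
  have h5 : (Fintype.card G : ℝ) * (((((Fintype.piFinset (fun _ : Fin n => A)).filter
      (fun x => x i = x j)) ×ˢ (Fintype.piFinset (fun _ : Fin n => A))).filter
        (fun z => ∑ l, g (z.1 l) = ∑ l, g (z.2 l))).card : ℝ) =
      ‖((Fintype.card G : ℕ) : ℂ) * (((((Fintype.piFinset (fun _ : Fin n => A)).filter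
      (fun x => x i = x j)) ×ˢ (Fintype.piFinset (fun _ : Fin n => A))).filter
        (fun z => ∑ l, g (z.1 l) = ∑ l, g (z.2 l))).card : ℂ)‖ := by
    rw [norm_mul, Complex.norm_natCast, Complex.norm_natCast]
  rw [h5, h1]
  refine (norm_sum_le _ _).trans (le_of_eq (sum_congr rfl fun ψ _ => ?_))
  have h6 : ∑ x ∈ (Fintype.piFinset (fun _ : Fin n => A)).filter (fun x => x i = x j),
      ψ (∑ l, g (x l)) = (∑ x ∈ A, ψ (g x + g x)) * (∑ x ∈ A, ψ (g x)) ^ (n - 2) := by
    have h7 := fo_pair A (fun x => ψ (g x)) n i j hij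
    simp only [AddChar.map_add_eq_mul, fo_map_sum]
    exact h7
  rw [norm_mul, Complex.norm_conj, h6, fo_tup, norm_mul, norm_pow, norm_pow, mul_assoc, ← pow_add]
  congr 2
  omega

end Pool.Agent.Lib.VK
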