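import Pool.Agent.Lib.VK.Fo
import Pool.Agent.Lib.VK.Tr

/-!
# Row H1 (about 60 lines): splitting into classes

Take M >= 1 as in tr_cnt for all the counts that occur (finitely many) and G = (Z/M)^k. For every character
f = sum_(a in I) f_a, f_a = the sum over the x in A with c x = a, so
|f|^(2s) <= |I|^(2s-1) sum_a |f_a|^(2s) (`inner_le_nnorm_mul_nnorm` is not needed: `Finset.pow_arith_mean...`,
e.g. `inv_mul_..`; Mathlib: `Real.pow_sum_div_card_le_sum_pow` or `Finset.inner...`: (sum f)^(n+1) <= card^n sum f^(n+1)).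
Multiply by |F|^2, sum over psi, use fo on both sides, divide by card G.
-/

set_option autoImplicit false

open Finset

namespace Pool.Agent.Lib.VK

/-- the power mean inequality in the form used here -/
private theorem h1_pow {β : Type} (I : Finset β) (u : β → ℝ) (hu : ∀ a ∈ I, 0 ≤ u a) (n : ℕ) :
    (∑ a ∈ I, u a) ^ (n + 1) ≤ (I.card : ℝ) ^ n * ∑ a ∈ I, u a ^ (n + 1) := by
  rcases I.eq_empty_or_nonempty with h | h
  · rw [h]
    simp
  · have hc : (0 : ℝ) < (I.card : ℝ) ^ n := pow_pos (by exact_mod_cast card_pos.2 h) _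
    have h1 := pow_sum_div_card_le_sum_pow hu n
    rw [div_le_iff₀ hc] at h1
    rw [mul_comm]
    exact h1

theorem h1 (k : ℕ) {ι α β : Type} [DecidableEq β] (D : Finset ι) (φ : ι → (Fin k → ℤ)) (A : Finset α)
    (g : α → (Fin k → ℤ)) (c : α → β) (I : Finset β) (hc : ∀ x ∈ A, c x ∈ I) (s : ℕ) (hs : 1 ≤ s) :
    cnt D φ A g s ≤ I.card ^ (2 * s - 1) * ∑ a ∈ I, cnt D φ (A.filter (fun x => c x = a)) g s := by
  obtain ⟨M1, hM1⟩ := tr_cnt k D φ A g s
  have hex : ∀ a : β, ∃ M0 : ℕ, ∀ M : ℕ, M0 ≤ M →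
      cnt D φ (A.filter (fun x => c x = a)) g s =
        cnt D (fun d => rd k M (φ d)) (A.filter (fun x => c x = a)) (fun x => rd k M (g x)) s :=
    fun a => tr_cnt k D φ (A.filter (fun x => c x = a)) g s
  choose M2 hM2 using hex
  obtain ⟨M, hM⟩ : ∃ M : ℕ, M = M1 + ∑ a ∈ I, M2 a + 1 := ⟨_, rfl⟩
  have hMpos : 0 < M := by omega
  have : NeZero M := ⟨hMpos.ne'⟩
  have hM1' : M1 ≤ M := by omega
  have hM2' : ∀ a ∈ I, M2 a ≤ M := by
    intro a ha
    have h2 : M2 a ≤ ∑ a ∈ I, M2 a := single_le_sum (f := M2) (fun _ _ => Nat.zero_le _) ha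
    omega
  rw [hM1 M hM1', sum_congr rfl (fun a ha => hM2 a M (hM2' a ha))]
  have hG : (0 : ℝ) < (Fintype.card (Fin k → ZMod M) : ℝ) := by
    exact_mod_cast Fintype.card_pos
  obtain ⟨n, hn⟩ : ∃ n, 2 * s = n + 1 := ⟨2 * s - 1, by omega⟩
  have hn' : 2 * s - 1 = n := by omega
  have key : (Fintype.card (Fin k → ZMod M) : ℝ) *
      cnt D (fun d => rd k M (φ d)) A (fun x => rd k M (g x)) s ≤
      (Fintype.card (Fin k → ZMod M) : ℝ) * ((I.card : ℝ) ^ (2 * s - 1) *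
        ∑ a ∈ I, (cnt D (fun d => rd k M (φ d)) (A.filter (fun x => c x = a))
          (fun x => rd k M (g x)) s : ℝ)) := by
    rw [fo]
    have hR : (Fintype.card (Fin k → ZMod M) : ℝ) * ((I.card : ℝ) ^ (2 * s - 1) *
        ∑ a ∈ I, (cnt D (fun d => rd k M (φ d)) (A.filter (fun x => c x = a))
          (fun x => rd k M (g x)) s : ℝ)) = ∑ ψ : AddChar (Fin k → ZMod M) ℂ,
          (I.card : ℝ) ^ (2 * s - 1) * (‖∑ d ∈ D, ψ (rd k M (φ d))‖ ^ 2 *
            ∑ a ∈ I, ‖∑ x ∈ A.filter (fun x => c x = a), ψ (rd k M (g x))‖ ^ (2 * s)) := by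
      rw [← mul_sum]
      have h3 : ∑ ψ : AddChar (Fin k → ZMod M) ℂ, (‖∑ d ∈ D, ψ (rd k M (φ d))‖ ^ 2 *
            ∑ a ∈ I, ‖∑ x ∈ A.filter (fun x => c x = a), ψ (rd k M (g x))‖ ^ (2 * s)) =
          ∑ a ∈ I, (Fintype.card (Fin k → ZMod M) : ℝ) * cnt D (fun d => rd k M (φ d))
            (A.filter (fun x => c x = a)) (fun x => rd k M (g x)) s := by
        rw [sum_congr rfl (fun ψ _ => mul_sum _ _ _), sum_comm]
        refine sum_congr rfl (fun a _ => ?_)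
        rw [fo]
      rw [h3, ← mul_sum]
      ring
    rw [hR]
    refine sum_le_sum (fun ψ _ => ?_)
    have h4 : ∑ x ∈ A, ψ (rd k M (g x)) =
        ∑ a ∈ I, ∑ x ∈ A.filter (fun x => c x = a), ψ (rd k M (g x)) :=
      (sum_fiberwise_of_maps_to hc _).symm
    have h5 : ‖∑ x ∈ A, ψ (rd k M (g x))‖ ^ (2 * s) ≤ (I.card : ℝ) ^ (2 * s - 1) *
        ∑ a ∈ I, ‖∑ x ∈ A.filter (fun x => c x = a), ψ (rd k M (g x))‖ ^ (2 * s) := by
      rw [h4, hn', hn]
      refine (pow_le_pow_left₀ (norm_nonneg _) (norm_sum_le _ _) _).trans ?_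
      exact h1_pow I _ (fun a _ => norm_nonneg _) n
    calc ‖∑ d ∈ D, ψ (rd k M (φ d))‖ ^ 2 * ‖∑ x ∈ A, ψ (rd k M (g x))‖ ^ (2 * s) ≤
        ‖∑ d ∈ D, ψ (rd k M (φ d))‖ ^ 2 * ((I.card : ℝ) ^ (2 * s - 1) *
        ∑ a ∈ I, ‖∑ x ∈ A.filter (fun x => c x = a), ψ (rd k M (g x))‖ ^ (2 * s)) :=
          mul_le_mul_of_nonneg_left h5 (by positivity)
      _ = _ := by ring
  have h6 := le_of_mul_le_mul_left key hG
  exact_mod_cast h6

end Pool.Agent.Lib.VK
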