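import Pool.Agent.Lib.VK.Fo
import Pool.Agent.Lib.VK.Tr

/-!
# Row H3 (about 90 lines): solutions with a coincidence x_i = x_j

Write J = mom A g n. Choose M >= 1 good for mom A g n (tr_mom) and for the doubled function (mom A (x -> g x + g x) n, which
equals mom A g n because 2u = 2v iff u = v in Z^k), and such that every solution in Z^k is one mod M (trivial direction).
By fo_co the number R of solutions with z.1 i = z.1 j is at most (1/|G|) sum_psi |F2| |f|^(2n-2), F2 = sum psi(2 g x)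
(the count over Z^k is at most the count mod M). For each psi: if |f|^2 >= m |F2| then |F2| |f|^(2n-2) <= |f|^(2n)/m;
otherwise |F2| |f|^(2n-2) = |F2| (|f|^2)^(n-1) <= |F2| (m |F2|)^(n-1) = m^(n-1) |F2|^n. So always
|F2| |f|^(2n-2) <= |f|^(2n)/m + m^(n-1) |F2|^n. Sum over psi: (1/|G|) sum |f|^(2n) = J by fo_mom, and by Cauchy-Schwarz
(1/|G|) sum |F2|^n <= sqrt((1/|G|) sum |F2|^(2n)) = sqrt(J) (`Finset.sum_mul_sq_le_sq_mul_sq` or
`sq_sum_le_card_mul_sum_sq`, number of characters = card G: `AddChar.card_eq`).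
-/

set_option autoImplicit false

open Finset

namespace Pool.Agent.Lib.VK

private theorem h3_pt (a b : ℝ) (ha : 0 ≤ a) (hb : 0 ≤ b) (n m : ℕ) (hn : 1 ≤ n) (hm : 1 ≤ m) :
    a * b ^ (2 * n - 2) ≤ b ^ (2 * n) / m + (m : ℝ) ^ (n - 1) * a ^ n := by
  obtain ⟨n, rfl⟩ : ∃ l, n = l + 1 := ⟨n - 1, by omega⟩
  have e1 : 2 * (n + 1) - 2 = 2 * n := by omega
  have e2 : n + 1 - 1 = n := by omega
  rw [e1, e2, pow_mul, pow_mul]
  have hm0 : (0 : ℝ) < m := by exact_mod_cast hm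
  set c := b ^ 2 with hc
  have hc0 : 0 ≤ c := by positivity
  rcases le_total ((m : ℝ) * a) c with h | h
  · have h1 : a ≤ c / m := by
      rw [le_div_iff₀ hm0]
      linarith
    calc a * c ^ n ≤ c / m * c ^ n := mul_le_mul_of_nonneg_right h1 (by positivity)
      _ = c ^ (n + 1) / m := by ring
      _ ≤ _ := by
        have : 0 ≤ (m : ℝ) ^ n * a ^ (n + 1) := by positivity
        linarith
  · have h1 : c ^ n ≤ ((m : ℝ) * a) ^ n := pow_le_pow_left₀ hc0 h n
    calc a * c ^ n ≤ a * ((m : ℝ) * a) ^ n := mul_le_mul_of_nonneg_left h1 ha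
      _ = (m : ℝ) ^ n * a ^ (n + 1) := by
        rw [mul_pow]
        ring
      _ ≤ _ := by
        have : 0 ≤ c ^ (n + 1) / m := by positivity
        linarith

theorem h3 (k : ℕ) {α : Type} [DecidableEq α] (A : Finset α) (g : α → (Fin k → ℤ)) (n : ℕ)
    (i j : Fin n) (hij : i ≠ j) (m : ℕ) (hm : 1 ≤ m) :
    ((((Fintype.piFinset fun _ : Fin n => A) ×ˢ (Fintype.piFinset fun _ : Fin n => A)).filter
      (fun z => ∑ l, g (z.1 l) = ∑ l, g (z.2 l) ∧ z.1 i = z.1 j)).card : ℝ) ≤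
      (mom A g n : ℝ) / m + (m : ℝ) ^ (n - 1) * Real.sqrt (mom A g n) := by
  classical
  have hn : 1 ≤ n := by have := i.2; omega
  obtain ⟨M0, hM0⟩ := tr_mom k A g n
  obtain ⟨M1, hM1⟩ := tr_mom k A (fun x => g x + g x) n
  set M := M0 + M1 + 1 with hM
  haveI : NeZero M := ⟨by omega⟩
  have e0 := hM0 M (by omega)
  have e1 := hM1 M (by omega)
  have e2 : mom A (fun x => g x + g x) n = mom A g n := by
    unfold mom
    congr 1
    apply Finset.filter_congr
    intro z _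
    rw [Finset.sum_add_distrib, Finset.sum_add_distrib]
    constructor
    · intro h
      funext l
      have := congrFun h l
      simp only [Pi.add_apply] at this
      omega
    · intro h
      rw [h]
  have e3 : mom A (fun x => rd k M (g x) + rd k M (g x)) n = mom A g n := by
    rw [← e2, e1]
    congr 1
    funext x
    rw [rd_add]
  -- the number of solutions
  have hR : (((Fintype.piFinset fun _ : Fin n => A) ×ˢ (Fintype.piFinset fun _ : Fin n => A)).filter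
      (fun z => ∑ l, g (z.1 l) = ∑ l, g (z.2 l) ∧ z.1 i = z.1 j)).card ≤
      (((Fintype.piFinset fun _ : Fin n => A) ×ˢ (Fintype.piFinset fun _ : Fin n => A)).filter
      (fun z => ∑ l, rd k M (g (z.1 l)) = ∑ l, rd k M (g (z.2 l)) ∧ z.1 i = z.1 j)).card := by
    apply Finset.card_le_card
    intro z hz
    rw [Finset.mem_filter] at hz ⊢
    refine ⟨hz.1, ?_, hz.2.2⟩
    rw [← rd_sum, ← rd_sum, hz.2.1]
  have hco := fo_co A (fun x => rd k M (g x)) n i j hij
  have hmom := fo_mom A (fun x => rd k M (g x)) n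
  have hmom2 := fo_mom A (fun x => rd k M (g x) + rd k M (g x)) n
  rw [← e0] at hmom
  rw [e3] at hmom2
  have hG : (0 : ℝ) < Fintype.card (Fin k → ZMod M) := by exact_mod_cast Fintype.card_pos
  set c : ℝ := (Fintype.card (Fin k → ZMod M) : ℝ) with hc
  set Jn : ℝ := (mom A g n : ℝ) with hJn
  have hJ0 : 0 ≤ Jn := Nat.cast_nonneg _
  have hsum : ∑ ψ : AddChar (Fin k → ZMod M) ℂ, ‖∑ x ∈ A, ψ (rd k M (g x) + rd k M (g x))‖ ^ n ≤
      c * Real.sqrt Jn := by
    have h1 := sq_sum_le_card_mul_sum_sq (s := (Finset.univ : Finset (AddChar (Fin k → ZMod M) ℂ)))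
      (f := fun ψ => ‖∑ x ∈ A, ψ (rd k M (g x) + rd k M (g x))‖ ^ n)
    have h2 : ∑ ψ : AddChar (Fin k → ZMod M) ℂ,
        (‖∑ x ∈ A, ψ (rd k M (g x) + rd k M (g x))‖ ^ n) ^ 2 = c * Jn := by
      rw [hmom2]
      refine Finset.sum_congr rfl fun ψ _ => ?_
      rw [← pow_mul, mul_comm n 2]
    rw [h2, Finset.card_univ, AddChar.card_eq] at h1
    have h3 : (∑ ψ : AddChar (Fin k → ZMod M) ℂ,
        ‖∑ x ∈ A, ψ (rd k M (g x) + rd k M (g x))‖ ^ n) ^ 2 ≤ (c * Real.sqrt Jn) ^ 2 := by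
      rw [mul_pow, Real.sq_sqrt hJ0]
      refine h1.trans (le_of_eq ?_)
      rw [← hc]
      ring
    exact (sq_le_sq₀ (Finset.sum_nonneg fun ψ _ => by positivity) (by positivity)).1 h3
  have hmain : c * ((((Fintype.piFinset fun _ : Fin n => A) ×ˢ
      (Fintype.piFinset fun _ : Fin n => A)).filter
      (fun z => ∑ l, g (z.1 l) = ∑ l, g (z.2 l) ∧ z.1 i = z.1 j)).card : ℝ) ≤
      c * (Jn / m + (m : ℝ) ^ (n - 1) * Real.sqrt Jn) := by
    calc c * ((((Fintype.piFinset fun _ : Fin n => A) ×ˢ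
          (Fintype.piFinset fun _ : Fin n => A)).filter
          (fun z => ∑ l, g (z.1 l) = ∑ l, g (z.2 l) ∧ z.1 i = z.1 j)).card : ℝ)
        ≤ c * ((((Fintype.piFinset fun _ : Fin n => A) ×ˢ
          (Fintype.piFinset fun _ : Fin n => A)).filter
          (fun z => ∑ l, rd k M (g (z.1 l)) = ∑ l, rd k M (g (z.2 l)) ∧ z.1 i = z.1 j)).card : ℝ) :=
          mul_le_mul_of_nonneg_left (by exact_mod_cast hR) hG.le
      _ ≤ ∑ ψ : AddChar (Fin k → ZMod M) ℂ, ‖∑ x ∈ A, ψ (rd k M (g x) + rd k M (g x))‖ *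
          ‖∑ x ∈ A, ψ (rd k M (g x))‖ ^ (2 * n - 2) := hco
      _ ≤ ∑ ψ : AddChar (Fin k → ZMod M) ℂ, (‖∑ x ∈ A, ψ (rd k M (g x))‖ ^ (2 * n) / m +
          (m : ℝ) ^ (n - 1) * ‖∑ x ∈ A, ψ (rd k M (g x) + rd k M (g x))‖ ^ n) :=
          Finset.sum_le_sum fun ψ _ => h3_pt _ _ (norm_nonneg _) (norm_nonneg _) n m hn hm
      _ = (∑ ψ : AddChar (Fin k → ZMod M) ℂ, ‖∑ x ∈ A, ψ (rd k M (g x))‖ ^ (2 * n)) / m +
          (m : ℝ) ^ (n - 1) * ∑ ψ : AddChar (Fin k → ZMod M) ℂ,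
            ‖∑ x ∈ A, ψ (rd k M (g x) + rd k M (g x))‖ ^ n := by
          rw [Finset.sum_add_distrib, Finset.sum_div, Finset.mul_sum]
      _ ≤ (c * Jn) / m + (m : ℝ) ^ (n - 1) * (c * Real.sqrt Jn) := by
          rw [← hmom]
          exact add_le_add le_rfl (mul_le_mul_of_nonneg_left hsum (by positivity))
      _ = _ := by ring
  exact le_of_mul_le_mul_left hmain hG

end Pool.Agent.Lib.VK
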