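import Pool.Agent.Lib.VK.SDef
import Pool.Agent.Lib.G3.BmF

/-!
# VK / SBs (block board): facts on the block function (copy of G3/BmF.lean with `S ⊆ pr P`, `Ico M 2M`, real `a`)

PROOF. `bs_supp`: `P < p ≤ 2P`, `M ≤ m < 2M`, `R < r ≤ 2R` (a nonzero sum has a nonzero summand, which has `a m ≠ 0`). `bs_rough`: a
prime `l` dividing `p m r` is `p > P`, divides `m`, or is `r > R`. `bs_sum_mul`: swap the sums; the indicator `p m r = n` picks
`n = p m r ∈ Icc 1 X` (push the casts through with `Complex.ofReal_sum`, `push_cast`, `split_ifs`). `bs_bc`: `bs_sum_mul` with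
`g n = χ n * cj j n`, multiplicativity, product of sums; `RL`, `bc` are in G2Defs. `bs_bil`: `c p = 1` for `p ∈ S`,
`b k = ∑_r ∑_m [m r = k] a m (lp r/log 2R)`; `m < 2M ≤ R < r`, so `r` is the only prime factor of `k` larger than `R` and the
representation `k = m r` is unique: `|b| ≤ 1` (weights in `[0, 1]`: `bbw` of B2f.lean).
-/

set_option autoImplicit false

open Finset

namespace Pool.Agent.Lib.VKT

open Pool.Agent.Lib.MRT (cj)
open Pool.Agent.Lib.G3 (pr lp bc RL)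

private theorem bs_w {R r : ℕ} (hr : r ∈ pr R) : 0 ≤ G3.lp r / Real.log (2 * R : ℕ) ∧ G3.lp r / Real.log (2 * R : ℕ) ≤ 1 := by
  obtain ⟨⟨h1, h2⟩, h3⟩ := G3.bf_mem_pr.1 hr
  have e1 : G3.lp r = Real.log r := by rw [G3.lp, if_pos h3]
  have hr1 : (1 : ℝ) ≤ r := by exact_mod_cast h3.one_lt.le
  have hr2 : (r : ℝ) ≤ (2 * R : ℕ) := by exact_mod_cast h2
  have hl0 : 0 ≤ Real.log r := Real.log_nonneg hr1
  have hl1 : Real.log r ≤ Real.log (2 * R : ℕ) := Real.log_le_log (by linarith) hr2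
  rw [e1]
  exact ⟨div_nonneg hl0 (hl0.trans hl1), div_le_one_of_le₀ hl1 (hl0.trans hl1)⟩

/-- the block function as a complex sum -/
private theorem bs_eq (S : Finset ℕ) (a : ℕ → ℝ) (R M n : ℕ) :
    bC S a R M n = ∑ p ∈ S, ∑ r ∈ pr R, ∑ m ∈ Ico M (2 * M),
      if p * m * r = n then ((a m * (lp r / Real.log (2 * R : ℕ)) : ℝ) : ℂ) else 0 := by
  unfold bC G5.bS
  rw [Complex.ofReal_sum]
  refine sum_congr rfl fun p _ => ?_
  rw [Complex.ofReal_sum]
  refine sum_congr rfl fun r _ => ?_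
  rw [Complex.ofReal_sum]
  refine sum_congr rfl fun m _ => ?_
  split_ifs
  · rfl
  · rw [Complex.ofReal_zero]

/-- a triple of a number where the block function is not zero -/
private theorem bs_ex {S : Finset ℕ} {a : ℕ → ℝ} {R M n : ℕ} (hn : bC S a R M n ≠ 0) :
    ∃ p ∈ S, ∃ r ∈ pr R, ∃ m ∈ Ico M (2 * M), a m ≠ 0 ∧ p * m * r = n := by
  by_contra hex
  push Not at hex
  apply hn
  rw [bs_eq]
  refine sum_eq_zero fun p hp => sum_eq_zero fun r hr => sum_eq_zero fun m hm => ?_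
  by_cases h : p * m * r = n
  · by_cases ham : a m = 0
    · rw [ham, zero_mul, Complex.ofReal_zero, ite_self]
    · exact absurd h (hex p hp r hr m hm ham)
  · exact if_neg h

private theorem bs_size {S : Finset ℕ} {P R M p m r : ℕ} (hS : S ⊆ pr P) (hM : 1 ≤ M) (hp : p ∈ S) (hr : r ∈ pr R)
    (hm : m ∈ Ico M (2 * M)) : P * M * R < p * m * r ∧ p * m * r ≤ 8 * (P * M * R) := by
  obtain ⟨⟨h1, h2⟩, -⟩ := G3.bf_mem_pr.1 (hS hp)
  obtain ⟨⟨h3, h4⟩, -⟩ := G3.bf_mem_pr.1 hr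
  obtain ⟨h5, h6⟩ := mem_Ico.1 hm
  constructor
  · have h7 : P * M < p * m := by
      calc P * M < p * M := Nat.mul_lt_mul_of_pos_right h1 (by omega)
        _ ≤ p * m := Nat.mul_le_mul_left _ h5
    exact Nat.mul_lt_mul'' h7 h3
  · calc p * m * r ≤ (2 * P) * (2 * M) * (2 * R) := Nat.mul_le_mul (Nat.mul_le_mul h2 h6.le) h4
      _ = 8 * (P * M * R) := by ring

theorem bs_supp {S : Finset ℕ} {a : ℕ → ℝ} {P R M n : ℕ} (hS : S ⊆ pr P) (hM : 1 ≤ M) (hn : bC S a R M n ≠ 0) :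
    P * M * R < n ∧ n ≤ 8 * (P * M * R) := by
  obtain ⟨p, hp, r, hr, m, hm, -, hk⟩ := bs_ex hn
  rw [← hk]
  exact bs_size hS hM hp hr hm

theorem bs_rough {S : Finset ℕ} {a : ℕ → ℝ} {P R M n : ℕ} {y : ℝ} (hS : S ⊆ pr P) (hP : y ≤ P) (hR : y ≤ R)
    (ha : ∀ m, a m ≠ 0 → ∀ p : ℕ, p.Prime → p ∣ m → y < p) (hn : bC S a R M n ≠ 0) : ∀ p : ℕ, p.Prime → p ∣ n → y < p := by
  obtain ⟨p, hp, r, hr, m, hm, ham, hk⟩ := bs_ex hn
  intro l hl hln
  obtain ⟨⟨h3, -⟩, h5⟩ := G3.bf_mem_pr.1 (hS hp)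
  obtain ⟨⟨h6, -⟩, h8⟩ := G3.bf_mem_pr.1 hr
  rw [← hk] at hln
  rcases (hl.dvd_mul).1 hln with h9 | h9
  · rcases (hl.dvd_mul).1 h9 with h10 | h10
    · rw [(Nat.prime_dvd_prime_iff_eq hl h5).1 h10]
      exact hP.trans_lt (by exact_mod_cast h3)
    · exact ha m ham l hl h10
  · rw [(Nat.prime_dvd_prime_iff_eq hl h8).1 h9]
    exact hR.trans_lt (by exact_mod_cast h6)

theorem bs_sum_mul {S : Finset ℕ} {a : ℕ → ℝ} {P R M X : ℕ} (hS : S ⊆ pr P) (hM : 1 ≤ M) (hX : 8 * (P * M * R) ≤ X) (g : ℕ → ℂ) :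
    ∑ n ∈ Icc 1 X, bC S a R M n * g n =
      ∑ p ∈ S, ∑ r ∈ pr R, ∑ m ∈ Ico M (2 * M), ((a m * (lp r / Real.log (2 * R : ℕ)) : ℝ) : ℂ) * g (p * m * r) := by
  have h1 : ∀ n, bC S a R M n * g n = ∑ p ∈ S, ∑ r ∈ pr R, ∑ m ∈ Ico M (2 * M),
      if p * m * r = n then ((a m * (lp r / Real.log (2 * R : ℕ)) : ℝ) : ℂ) * g n else 0 := by
    intro n
    rw [bs_eq, sum_mul]
    refine sum_congr rfl fun p _ => ?_
    rw [sum_mul]
    refine sum_congr rfl fun r _ => ?_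
    rw [sum_mul]
    refine sum_congr rfl fun m _ => ?_
    rw [ite_mul, zero_mul]
  simp only [h1]
  rw [sum_comm]
  refine sum_congr rfl fun p hp => ?_
  rw [sum_comm]
  refine sum_congr rfl fun r hr => ?_
  rw [sum_comm]
  refine sum_congr rfl fun m hm => ?_
  obtain ⟨h2, h3⟩ := bs_size hS hM hp hr hm
  rw [sum_ite_eq, if_pos]
  exact mem_Icc.2 ⟨by omega, h3.trans hX⟩

theorem bs_bc {S : Finset ℕ} {a : ℕ → ℝ} {P R M X : ℕ} (hS : S ⊆ pr P) (hM : 1 ≤ M) (hX : 8 * (P * M * R) ≤ X) {q : ℕ}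
    (χ : DirichletCharacter ℂ q) (j : ℤ) :
    bc (bC S a R M) X χ j = (∑ p ∈ S, χ (p : ZMod q) * cj j p) * (∑ m ∈ Ico M (2 * M), ((a m : ℝ) : ℂ) * χ (m : ZMod q) * cj j m) *
      (RL χ R j / ((Real.log (2 * R : ℕ) : ℝ) : ℂ)) := by
  have h1 : bc (bC S a R M) X χ j =
      ∑ n ∈ Icc 1 X, bC S a R M n * (χ (n : ZMod q) * cj j n) := by
    rw [bc]
    refine sum_congr rfl fun n _ => ?_
    rw [mul_assoc]
  rw [h1, bs_sum_mul hS hM hX, RL, mul_assoc, sum_mul]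
  refine sum_congr rfl fun p hp => ?_
  rw [mul_comm (∑ m ∈ Ico M (2 * M), ((a m : ℝ) : ℂ) * χ (m : ZMod q) * cj j m), sum_div, sum_mul, mul_sum]
  refine sum_congr rfl fun r hr => ?_
  rw [mul_sum, mul_sum]
  refine sum_congr rfl fun m hm => ?_
  have hp0 : p ≠ 0 := (G3.bf_mem_pr.1 (hS hp)).2.ne_zero
  have hr0 : r ≠ 0 := (G3.bf_mem_pr.1 hr).2.ne_zero
  have hm0 : m ≠ 0 := by have := (mem_Ico.1 hm).1; omega
  rw [Pool.Agent.Lib.MRT.cj_mul j (mul_ne_zero hp0 hm0) hr0, Pool.Agent.Lib.MRT.cj_mul j hp0 hm0, Complex.ofReal_mul,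
    Complex.ofReal_div]
  push_cast
  rw [map_mul, map_mul]
  ring

/-- the sum in `b` in the bilinear form -/
private noncomputable def bsb (a : ℕ → ℝ) (R M k : ℕ) : ℂ :=
  ∑ r ∈ pr R, ∑ m ∈ Ico M (2 * M), if m * r = k then ((a m * (lp r / Real.log (2 * R : ℕ)) : ℝ) : ℂ) else 0

private theorem bs_uniq {R M m m' r r' : ℕ} (hMR : 2 * M ≤ R) (hm' : m' ∈ Ico M (2 * M)) (hr : r ∈ pr R) (hr' : r' ∈ pr R)
    (h : m * r = m' * r') : r = r' := by
  obtain ⟨⟨h1, -⟩, h3⟩ := G3.bf_mem_pr.1 hr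
  obtain ⟨-, h3'⟩ := G3.bf_mem_pr.1 hr'
  obtain ⟨h5, h6⟩ := mem_Ico.1 hm'
  have h4 : r ∣ m' * r' := h ▸ Dvd.intro_left m rfl
  rcases (h3.dvd_mul).1 h4 with h7 | h7
  · have := Nat.le_of_dvd (by omega) h7
    omega
  · exact (Nat.prime_dvd_prime_iff_eq h3 h3').1 h7

private theorem bsb_le {a : ℕ → ℝ} {R M : ℕ} (ha : ∀ m, |a m| ≤ 1) (hMR : 2 * M ≤ R) (hM : 1 ≤ M) (k : ℕ) : ‖bsb a R M k‖ ≤ 1 := by
  by_cases hex : ∃ r ∈ pr R, ∃ m ∈ Ico M (2 * M), m * r = k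
  · obtain ⟨r, hr, m, hm, hk⟩ := hex
    have hr0 : 0 < r := (G3.bf_mem_pr.1 hr).2.pos
    rw [bsb, sum_eq_single r, sum_eq_single m]
    · rw [if_pos hk, Complex.norm_real, Real.norm_eq_abs, abs_mul, abs_of_nonneg (bs_w hr).1]
      exact mul_le_one₀ (ha m) (bs_w hr).1 (bs_w hr).2
    · intro m' _ hne
      refine if_neg fun h => hne ?_
      exact Nat.eq_of_mul_eq_mul_right hr0 (h.trans hk.symm)
    · intro h; exact absurd hm h
    · intro r' hr' hne
      refine sum_eq_zero fun m' _ => if_neg fun h => hne ?_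
      exact bs_uniq hMR hm hr' hr (h.trans hk.symm)
    · intro h; exact absurd hr h
  · push Not at hex
    have h0 : bsb a R M k = 0 := by
      rw [bsb]
      exact sum_eq_zero fun r hr => sum_eq_zero fun m hm => if_neg (hex r hr m hm)
    rw [h0, norm_zero]
    exact zero_le_one

theorem bs_bil {S : Finset ℕ} {a : ℕ → ℝ} {P R M : ℕ} (hS : S ⊆ pr P) (ha : ∀ m, |a m| ≤ 1) (hMR : 2 * M ≤ R) (hM : 1 ≤ M) :
    ∃ c b : ℕ → ℂ, (∀ n, ‖c n‖ ≤ 1) ∧ (∀ n, ‖b n‖ ≤ 1) ∧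
      ∀ n, bC S a R M n = ∑ p ∈ Ioc P (2 * P), ∑ m ∈ Icc 1 (4 * (M * R)), if p * m = n then c p * b m else 0 := by
  classical
  refine ⟨fun p => if p ∈ S then 1 else 0, bsb a R M, fun n => ?_, bsb_le ha hMR hM, fun n => ?_⟩
  · simp only
    split_ifs
    · rw [norm_one]
    · rw [norm_zero]; exact zero_le_one
  · have hfil : S = (Ioc P (2 * P)).filter fun p => p ∈ S := by
      ext p
      rw [mem_filter]
      refine ⟨fun h => ⟨?_, h⟩, fun h => h.2⟩
      have h1 := hS h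
      rw [pr, mem_filter] at h1
      exact h1.1
    rw [bs_eq]
    conv_lhs => rw [hfil]
    rw [sum_filter]
    refine sum_congr rfl fun p hp => ?_
    by_cases hpp : p ∈ S
    · rw [if_pos hpp]
      have hp0 : 0 < p := (G3.bf_mem_pr.1 (hS hpp)).2.pos
      simp only [if_pos hpp, one_mul]
      have h1 : ∀ k, (if p * k = n then bsb a R M k else 0) =
          ∑ r ∈ pr R, ∑ m ∈ Ico M (2 * M),
            if m * r = k then (if p * m * r = n then ((a m * (lp r / Real.log (2 * R : ℕ)) : ℝ) : ℂ) else 0) else 0 := by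
        intro k
        rw [bsb]
        by_cases hk : p * k = n
        · rw [if_pos hk]
          refine sum_congr rfl fun r _ => sum_congr rfl fun m _ => ?_
          by_cases hmr : m * r = k
          · rw [if_pos hmr, if_pos hmr, if_pos]
            rw [mul_assoc, hmr, hk]
          · rw [if_neg hmr, if_neg hmr]
        · rw [if_neg hk]
          symm
          refine sum_eq_zero fun r _ => sum_eq_zero fun m _ => ?_
          by_cases hmr : m * r = k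
          · rw [if_pos hmr, if_neg]
            rw [mul_assoc, hmr]
            exact hk
          · rw [if_neg hmr]
      simp only [h1]
      symm
      rw [sum_comm]
      refine sum_congr rfl fun r hr => ?_
      rw [sum_comm]
      refine sum_congr rfl fun m hm => ?_
      rw [sum_ite_eq, if_pos]
      obtain ⟨⟨h3, h4⟩, -⟩ := G3.bf_mem_pr.1 hr
      obtain ⟨h5, h6⟩ := mem_Ico.1 hm
      rw [mem_Icc]
      constructor
      · exact Nat.mul_pos (by omega) (by omega)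
      · calc m * r ≤ (2 * M) * (2 * R) := Nat.mul_le_mul h6.le h4
          _ = 4 * (M * R) := by ring
    · rw [if_neg hpp]
      symm
      refine sum_eq_zero fun m _ => ?_
      simp only [if_neg hpp, zero_mul, ite_self]

end Pool.Agent.Lib.VKT
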