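import Pool.Agent.Lib.VK.UDef

/-!
# VK / SDef (block board): the block function with complex values

`bS S a R M n` (G5.QDefs) and the conditions `BlkZ Z P R M S a c1 cP cM` (VK.UDef) are on main.
-/

set_option autoImplicit false

open Finset

namespace Pool.Agent.Lib.VKT

open Pool.Agent.Lib.G5 (bS)

/-- the block function with complex values -/
noncomputable def bC (S : Finset ℕ) (a : ℕ → ℝ) (R M n : ℕ) : ℂ := ((bS S a R M n : ℝ) : ℂ)

end Pool.Agent.Lib.VKT
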