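import Pool.Agent.Lib.VK.WDef
import Pool.Agent.Lib.VK.SDef

/-!
# VK / HDef (H board: general block theorem): conditions
-/

set_option autoImplicit false

open Finset

namespace Pool.Agent.Lib.VKT

open Pool.Agent.Lib.G3 (pr)
open Pool.Agent.Lib.G5 (bS)

/-- general conditions on a block at the scale `Z` (weaker than `BlkH`) -/
structure BlkJ (Z P R M : ℕ) (S : Finset ℕ) (a : ℕ → ℝ) (c1 : ℕ) : Prop where
  hP1 : (Real.log Z) ^ c1 / 2 ≤ P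
  hP2 : P ^ 390 ≤ Z
  hM1 : 1 ≤ M
  hM2 : (P * M) ^ 190 ≤ Z
  hR1 : 8 * (P * M * R) ≤ Z
  hR2 : Z ≤ 256 * (P * M * R)
  hS : S ⊆ pr P
  ha : ∀ m, |a m| ≤ 1
  ham : ∀ m, a m ≠ 0 → ∀ p : ℕ, p.Prime → p ∣ m → (Real.log Z) ^ c1 / 2 < p
  hb : ∀ n, |bS S a R M n| ≤ 1

end Pool.Agent.Lib.VKT
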