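import Pool.Agent.Lib.VK.HDef

/-!
# VK / HPar (H board): sizes (adapt VK/SPar.lean)

PROOF. `(P M)^190 ≤ Z` gives `P M ≤ Z^(1/190)`, so `R ≥ Z/(256 P M) ≥ Z^(1-1/190)/256 ≥ 3 Z^(99/100)` for large `Z`; `2 P M ≤ R`, `(log Z)^c1 ≤ 2 P`, `P^100 ≤ P^390 ≤ Z` (`P ≥ 1`).
-/

set_option autoImplicit false

open Finset

namespace Pool.Agent.Lib.VKT

theorem parJ (c1 : ℕ) : ∃ x0 : ℝ, 100 ≤ x0 ∧ ∀ (Z P R M : ℕ) (S : Finset ℕ) (a : ℕ → ℝ), x0 ≤ Z → BlkJ Z P R M S a c1 →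
    1 ≤ P ∧ 2 * (P * M) ≤ R ∧ 2 * P ≤ R ∧ 2 * M ≤ R ∧ (Z : ℝ) ^ (99 / 100 : ℝ) ≤ R ∧ R ≤ Z ∧ (Real.log Z) ^ c1 ≤ R ∧ P ^ 100 ≤ Z := by
  have h1 : ∀ᶠ x : ℝ in Filter.atTop, (768 : ℝ) ≤ x ^ (9 / 1900 : ℝ) :=
    (tendsto_rpow_atTop (by norm_num : (0 : ℝ) < 9 / 1900)).eventually_ge_atTop 768
  obtain ⟨x1, hx1⟩ := Filter.eventually_atTop.1 h1
  refine ⟨max 100 x1, le_max_left _ _, ?_⟩
  intro Z P R M S a hX hp
  have hX100 : (100 : ℝ) ≤ Z := le_trans (le_max_left _ _) hX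
  have hXx1 : x1 ≤ (Z : ℝ) := le_trans (le_max_right _ _) hX
  have hX0 : (0 : ℝ) < Z := by linarith
  have hX1 : (1 : ℝ) ≤ Z := by linarith
  have hlog1 : (1 : ℝ) ≤ Real.log Z := by
    rw [Real.le_log_iff_exp_le hX0]
    have h4 := Real.exp_one_lt_d9
    linarith
  have hLc : 1 ≤ (Real.log Z) ^ c1 := one_le_pow₀ hlog1
  have hM1 : 1 ≤ M := hp.hM1
  have hPpos : (0 : ℝ) < P := by
    have := hp.hP1
    linarith
  have hPN : 1 ≤ P := by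
    have : 0 < P := by exact_mod_cast hPpos
    exact this
  have h2P : (Real.log Z) ^ c1 ≤ 2 * P := by
    have := hp.hP1
    linarith
  obtain ⟨y, hy⟩ : ∃ y : ℝ, y = (Z : ℝ) ^ (99 / 100 : ℝ) := ⟨_, rfl⟩
  obtain ⟨w, hw⟩ : ∃ w : ℝ, w = (Z : ℝ) ^ (1 / 190 : ℝ) := ⟨_, rfl⟩
  obtain ⟨v, hv⟩ : ∃ v : ℝ, v = (Z : ℝ) ^ (9 / 1900 : ℝ) := ⟨_, rfl⟩
  have hyz : y * v * w = Z := by
    rw [hy, hw, hv, ← Real.rpow_add hX0, ← Real.rpow_add hX0]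
    norm_num
  have hwy : w ≤ y := by
    rw [hy, hw]
    exact Real.rpow_le_rpow_of_exponent_le hX1 (by norm_num)
  have hy0 : 0 < y := by
    rw [hy]
    positivity
  have hw0 : 0 < w := by
    rw [hw]
    positivity
  have hv1 : 768 ≤ v := by
    rw [hv]
    exact hx1 Z hXx1
  have hPMw : (P : ℝ) * M ≤ w := by
    have h3 : ((P : ℝ) * M) ^ (190 : ℕ) ≤ Z := by exact_mod_cast hp.hM2
    have h4 : (0 : ℝ) ≤ (P : ℝ) * M := by positivity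
    have h5 : (P : ℝ) * M = (((P : ℝ) * M) ^ (190 : ℕ)) ^ (1 / 190 : ℝ) := by
      rw [← Real.rpow_natCast, ← Real.rpow_mul h4]
      norm_num
    rw [h5, hw]
    exact Real.rpow_le_rpow (by positivity) h3 (by norm_num)
  have hR0 : (0 : ℝ) ≤ R := Nat.cast_nonneg R
  have hltR : (Z : ℝ) ≤ 256 * (P * M * R) := by exact_mod_cast hp.hR2
  have h5 : (P : ℝ) * M * R ≤ w * R := mul_le_mul_of_nonneg_right hPMw hR0
  have h6 : y * v ≤ 256 * R := by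
    have h7 : (y * v) * w ≤ (256 * R) * w := by
      rw [hyz]
      calc (Z : ℝ) ≤ 256 * (P * M * R) := hltR
        _ ≤ 256 * (w * R) := by linarith
        _ = (256 * R) * w := by ring
    exact le_of_mul_le_mul_right h7 hw0
  have h7 : y * 768 ≤ y * v := mul_le_mul_of_nonneg_left hv1 hy0.le
  have hRy : 3 * y ≤ R := by linarith
  have hPMR : 2 * (P * M) ≤ R := by
    have h8 : (2 : ℝ) * (P * M) ≤ R := by linarith
    exact_mod_cast h8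
  have hPM1 : P ≤ P * M := Nat.le_mul_of_pos_right _ (by omega)
  have hPM2 : M ≤ P * M := Nat.le_mul_of_pos_left _ (by omega)
  have h2PR : 2 * P ≤ R := by omega
  have h2PR' : (2 : ℝ) * P ≤ R := by exact_mod_cast h2PR
  refine ⟨hPN, hPMR, h2PR, by omega, ?_, ?_, by linarith, ?_⟩
  · rw [← hy]
    linarith
  · have h8 := hp.hR1
    have h9 : R ≤ P * M * R := Nat.le_mul_of_pos_left _ (Nat.mul_pos (by omega) (by omega))
    omega
  · exact le_trans (Nat.pow_le_pow_right hPN (by norm_num)) hp.hP2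

end Pool.Agent.Lib.VKT
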