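import Pool.Agent.Lib.VK.HBq
import Pool.Agent.Lib.VK.HBj
import Pool.Agent.Lib.VK.HPar
import Pool.Agent.Lib.VK.TMod

/-!
# VK / HMod (H board): the model with frequencies is close to density times Ramanujan series (adapt VK/SMod.lean with `bqJ`, `bjJ`, `parJ`)

Adaptation (helper73) of `VK/SMod.lean` (helper32): the only change is `BlkJ` for `BlkZ`.
-/

set_option autoImplicit false

open Finset

namespace Pool.Agent.Lib.VKT

open Pool.Agent.Lib.G3 (MG mo bq pr cl X0 vb_norm_e ll_exp)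
open Pool.Agent.Lib.MRT (cj norm_cj)
open Pool.Agent.Lib.GT (e)
open Pool.Agent.Lib.SW (gq LQ gq_eq_exp abs_gq_le)

private theorem hmod_mo_le (c : ℤ → ℂ) (J : Finset ℤ) (X n : ℕ) (hX : 1 ≤ X) {M : ℝ} (hM : 0 ≤ M)
    (hc : ∀ j ∈ J, ‖c j‖ ≤ M) : ‖mo c J X n‖ ≤ 100 * (J.card * M) / X := by
  have hX0 : (0 : ℝ) < X := by exact_mod_cast hX
  unfold mo
  split_ifs with h
  · have h1 : (X : ℝ) * Real.exp (-(2 * Real.pi)) < n := by
      have := h.1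
      unfold X0 at this
      exact Nat.lt_of_floor_lt this
    have h2 : (X : ℝ) ≤ 536 * n := by
      have h3 : (X : ℝ) * Real.exp (-(2 * Real.pi)) * Real.exp (2 * Real.pi) = X := by
        rw [mul_assoc, ← Real.exp_add]
        simp
      have h4 : (X : ℝ) * Real.exp (-(2 * Real.pi)) * Real.exp (2 * Real.pi) ≤ n * 536 :=
        mul_le_mul h1.le ll_exp (Real.exp_pos _).le (by positivity)
      linarith
    have hn : (0 : ℝ) < n := by
      have : (0 : ℝ) < 536 * n := lt_of_lt_of_le hX0 h2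
      linarith
    have h5 : ‖∑ j ∈ J, c j * (starRingEnd ℂ) (cj j n)‖ ≤ J.card * M := by
      refine (norm_sum_le _ _).trans ?_
      rw [← nsmul_eq_mul]
      refine Finset.sum_le_card_nsmul _ _ _ fun j hj => ?_
      rw [norm_mul, RCLike.norm_conj, norm_cj, mul_one]
      exact hc j hj
    have h6 : 1 / (2 * Real.pi * n) ≤ 100 / X := by
      rw [div_le_div_iff₀ (by positivity) hX0]
      have := Real.pi_gt_three
      nlinarith
    rw [norm_mul, Complex.norm_real, Real.norm_eq_abs, abs_of_nonneg (by positivity)]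
    calc 1 / (2 * Real.pi * n) * ‖∑ j ∈ J, c j * (starRingEnd ℂ) (cj j n)‖
        ≤ 100 / X * (J.card * M) := mul_le_mul h6 h5 (norm_nonneg _) (by positivity)
      _ = 100 * (J.card * M) / X := by ring
  · rw [norm_zero]
    positivity

private theorem hmod_mo_sub (a b : ℤ → ℂ) (J : Finset ℤ) (X n : ℕ) :
    mo (fun j => a j - b j) J X n = mo a J X n - mo b J X n := by
  unfold mo
  split_ifs
  · rw [← mul_sub, ← sum_sub_distrib]
    congr 1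
    refine sum_congr rfl fun j _ => ?_
    ring
  · simp

private theorem hmod_mo_smul (w : ℂ) (a : ℤ → ℂ) (J : Finset ℤ) (X n : ℕ) :
    mo (fun j => w * a j) J X n = w * mo a J X n := by
  unfold mo
  split_ifs
  · have h1 : ∑ j ∈ J, w * a j * (starRingEnd ℂ) (cj j n) = w * ∑ j ∈ J, a j * (starRingEnd ℂ) (cj j n) := by
      rw [mul_sum]
      refine sum_congr rfl fun j _ => ?_
      ring
    rw [h1]
    ring
  · simp

private theorem hmod_mo_sum {ι : Type} (s : Finset ι) (w : ι → ℂ) (f : ι → ℤ → ℂ) (J : Finset ℤ) (X n : ℕ) :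
    mo (fun j => ∑ p ∈ s, w p * f p j) J X n = ∑ p ∈ s, w p * mo (f p) J X n := by
  unfold mo
  split_ifs
  · have h1 : ∑ j ∈ J, (∑ p ∈ s, w p * f p j) * (starRingEnd ℂ) (cj j n) =
        ∑ p ∈ s, w p * ∑ j ∈ J, f p j * (starRingEnd ℂ) (cj j n) := by
      simp_rw [sum_mul, mul_sum]
      rw [sum_comm]
      refine sum_congr rfl fun p _ => sum_congr rfl fun j _ => ?_
      ring
    rw [h1, mul_sum]
    refine sum_congr rfl fun p _ => ?_
    ring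
  · simp

private theorem hmod_ram (Q n : ℕ) :
    ∑ q ∈ Icc 1 Q, ∑ b ∈ cl q, e (n * ((b : ℝ) / q)) * (((ArithmeticFunction.moebius q : ℤ) : ℂ) / (q.totient : ℂ)) =
      ((ram Q n : ℝ) : ℂ) := by
  unfold ram LQ
  rw [Complex.ofReal_sum, sum_filter]
  refine sum_congr rfl fun q hq => ?_
  split_ifs with h
  · rw [gq_eq_exp q h, mul_sum]
    unfold cl
    refine sum_congr rfl fun b _ => ?_
    rw [mul_comm]
    congr 2
    push_cast
    ring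
  · rw [ArithmeticFunction.moebius_eq_zero_of_not_squarefree h]
    simp

private theorem hmod_ram_le (Q n : ℕ) : |ram Q n| ≤ Q := by
  unfold ram LQ
  refine (abs_sum_le_sum_abs _ _).trans ?_
  refine (sum_le_card_nsmul _ _ 1 fun q _ => abs_gq_le q n).trans ?_
  rw [nsmul_eq_mul, mul_one]
  have : ((Icc 1 Q).filter Squarefree).card ≤ (Icc 1 Q).card := card_filter_le _ _
  rw [Nat.card_Icc] at this
  exact_mod_cast (by omega : ((Icc 1 Q).filter Squarefree).card ≤ Q)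

/-- the model at the point `n` -/
private theorem hmod_point (F : ℕ → ℂ) (X Q : ℕ) (J : Finset ℤ) (n : ℕ) (A : ℤ → ℂ) (hX : 1 ≤ X) {δ : ℝ} (hδ : 0 ≤ δ)
    (h : ∀ q ∈ Icc 1 Q, ∀ b ∈ cl q, ∀ j ∈ J, ‖bq F X ((b : ℝ) / q) j -
      ((ArithmeticFunction.moebius q : ℤ) : ℂ) / (q.totient : ℂ) * A j‖ ≤ δ) :
    ‖MG F X Q (fun _ => J) n - ((ram Q n : ℝ) : ℂ) * mo A J X n‖ ≤ (Q : ℝ) ^ 2 * (100 * (J.card * δ) / X) := by
  have hX0 : (0 : ℝ) < X := by exact_mod_cast hX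
  have h1 : MG F X Q (fun _ => J) n - ((ram Q n : ℝ) : ℂ) * mo A J X n =
      ∑ q ∈ Icc 1 Q, ∑ b ∈ cl q, e (n * ((b : ℝ) / q)) * mo (fun j => bq F X ((b : ℝ) / q) j -
        ((ArithmeticFunction.moebius q : ℤ) : ℂ) / (q.totient : ℂ) * A j) J X n := by
    rw [← hmod_ram, sum_mul]
    unfold MG
    rw [← sum_sub_distrib]
    refine sum_congr rfl fun q _ => ?_
    rw [sum_mul, ← sum_sub_distrib]
    refine sum_congr rfl fun b _ => ?_
    rw [hmod_mo_sub, hmod_mo_smul]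
    have h2 : mo (fun j => bq F X ((b : ℝ) / q) j) J X n = mo (bq F X ((b : ℝ) / q)) J X n := rfl
    rw [h2]
    ring
  rw [h1]
  have h3 : ∀ q ∈ Icc 1 Q, ‖∑ b ∈ cl q, e (n * ((b : ℝ) / q)) * mo (fun j => bq F X ((b : ℝ) / q) j -
        ((ArithmeticFunction.moebius q : ℤ) : ℂ) / (q.totient : ℂ) * A j) J X n‖ ≤ Q * (100 * (J.card * δ) / X) := by
    intro q hq
    have h4 : ∀ b ∈ cl q, ‖e (n * ((b : ℝ) / q)) * mo (fun j => bq F X ((b : ℝ) / q) j -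
        ((ArithmeticFunction.moebius q : ℤ) : ℂ) / (q.totient : ℂ) * A j) J X n‖ ≤ 100 * (J.card * δ) / X := by
      intro b hb
      rw [norm_mul, vb_norm_e, one_mul]
      exact hmod_mo_le _ J X n hX hδ (h q hq b hb)
    refine (norm_sum_le_of_le _ h4).trans ?_
    rw [sum_const, nsmul_eq_mul]
    refine mul_le_mul_of_nonneg_right ?_ (by positivity)
    have h5 : (cl q).card ≤ q := by
      unfold cl
      refine (card_filter_le _ _).trans ?_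
      rw [card_range]
    have h6 : q ≤ Q := (mem_Icc.1 hq).2
    exact_mod_cast h5.trans h6
  refine (norm_sum_le_of_le _ h3).trans ?_
  rw [sum_const, nsmul_eq_mul, Nat.card_Icc]
  refine le_of_eq ?_
  have h7 : ((Q + 1 - 1 : ℕ) : ℝ) = Q := by
    rw [Nat.add_sub_cancel]
  rw [h7]
  ring

/-- the weights of the pairs -/
private theorem hmod_w (S : Finset ℕ) (a : ℕ → ℝ) (P R M : ℕ) (hS : S ⊆ pr P) (ha : ∀ m, |a m| ≤ 1) (hP : 1 ≤ P) (hM : 1 ≤ M)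
    (hR : 2 ≤ R) : ∑ x ∈ S ×ˢ Ico M (2 * M), |a x.2 / (x.1 * x.2 * Real.log (2 * R : ℕ))| ≤ 1 := by
  have hP0 : (0 : ℝ) < P := by exact_mod_cast hP
  have hM0 : (0 : ℝ) < M := by exact_mod_cast hM
  have hl : 1 ≤ Real.log (2 * R : ℕ) := by
    rw [Real.le_log_iff_exp_le (by exact_mod_cast (by omega : 0 < 2 * R))]
    have h1 := Real.exp_one_lt_d9
    have h2 : (4 : ℝ) ≤ ((2 * R : ℕ) : ℝ) := by exact_mod_cast (by omega : 4 ≤ 2 * R)
    linarith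
  have h1 : ∀ x ∈ S ×ˢ Ico M (2 * M), |a x.2 / (x.1 * x.2 * Real.log (2 * R : ℕ))| ≤ 1 / (P * M) := by
    intro x hx
    rw [mem_product, mem_Ico] at hx
    have hp := hS hx.1
    unfold pr at hp
    rw [mem_filter, mem_Ioc] at hp
    have h2 : (P : ℝ) ≤ x.1 := by exact_mod_cast hp.1.1.le
    have h3 : (M : ℝ) ≤ x.2 := by exact_mod_cast hx.2.1
    have h4 : (P : ℝ) * M ≤ x.1 * x.2 * Real.log (2 * R : ℕ) := by
      calc (P : ℝ) * M = P * M * 1 := (mul_one _).symm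
        _ ≤ x.1 * x.2 * Real.log (2 * R : ℕ) :=
          mul_le_mul (mul_le_mul h2 h3 hM0.le (by positivity)) hl zero_le_one (by positivity)
    have h5 : 0 < (x.1 : ℝ) * x.2 * Real.log (2 * R : ℕ) := lt_of_lt_of_le (by positivity) h4
    rw [abs_div, abs_of_pos h5]
    exact div_le_div₀ zero_le_one (ha _) (by positivity) h4
  refine (sum_le_card_nsmul _ _ _ h1).trans ?_
  rw [nsmul_eq_mul, card_product, Nat.card_Ico]
  have h3 : S.card ≤ P := by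
    refine (card_le_card hS).trans ?_
    unfold pr
    refine (card_filter_le _ _).trans ?_
    rw [Nat.card_Ioc]
    omega
  have h4 : S.card * (2 * M - M) ≤ P * M := Nat.mul_le_mul h3 (by omega)
  have h5 : ((S.card * (2 * M - M) : ℕ) : ℝ) ≤ P * M := by exact_mod_cast h4
  rw [mul_one_div, div_le_one (by positivity)]
  exact h5

private theorem hmod_rho (S : Finset ℕ) (a : ℕ → ℝ) (R M n : ℕ) :
    ((rhoS S a R M n : ℝ) : ℂ) = ∑ x ∈ S ×ˢ Ico M (2 * M), ((a x.2 / (x.1 * x.2 * Real.log (2 * R : ℕ)) : ℝ) : ℂ) *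
      (if ((x.1 * x.2 * R : ℕ) : ℝ) < n ∧ (n : ℝ) ≤ 2 * ((x.1 * x.2 * R : ℕ) : ℝ) then (1 : ℂ) else 0) := by
  unfold rhoS
  rw [sum_product, Complex.ofReal_sum]
  refine sum_congr rfl fun p _ => ?_
  rw [Complex.ofReal_sum]
  refine sum_congr rfl fun m _ => ?_
  have h1 : (((p * m * R : ℕ) : ℝ) < n ∧ (n : ℝ) ≤ 2 * ((p * m * R : ℕ) : ℝ)) ↔ (p * m * R < n ∧ n ≤ 2 * (p * m * R)) := by
    constructor
    · rintro ⟨a, b⟩
      exact ⟨by exact_mod_cast a, by exact_mod_cast b⟩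
    · rintro ⟨a, b⟩
      exact ⟨by exact_mod_cast a, by exact_mod_cast b⟩
  by_cases h2 : p * m * R < n ∧ n ≤ 2 * (p * m * R)
  · rw [if_pos h2, if_pos (h1.2 h2), mul_one]
  · rw [if_neg h2, if_neg (fun h => h2 (h1.1 h))]
    simp

/-- the mean square of the smooth part -/
private theorem hmod_smooth (S : Finset ℕ) (a : ℕ → ℝ) (X T P R M : ℕ) (C : ℝ) (hC : 0 < C) (hS : S ⊆ pr P) (ha : ∀ m, |a m| ≤ 1)
    (hP : 1 ≤ P) (hM : 1 ≤ M) (hR : 2 ≤ R) (hR1 : 8 * (P * M * R) ≤ X) (hR2 : X ≤ 256 * (P * M * R))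
    (h : ∀ a : ℝ, (X : ℝ) / 300 ≤ a → 2 * a ≤ X →
      ∑ n ∈ Icc 1 X, ‖(if a < n ∧ (n : ℝ) ≤ 2 * a then (1 : ℂ) else 0) - mo (fun j => Ia a j) (Icc (-(T : ℤ)) T) X n‖ ^ 2 ≤
      C * (X / T + (T : ℝ) ^ 2)) :
    ∑ n ∈ Icc 1 X, ‖((rhoS S a R M n : ℝ) : ℂ) -
      mo (fun j => ∑ x ∈ S ×ˢ Ico M (2 * M), ((a x.2 / (x.1 * x.2 * Real.log (2 * R : ℕ)) : ℝ) : ℂ) *
        Ia ((x.1 * x.2 * R : ℕ) : ℝ) j) (Icc (-(T : ℤ)) T) X n‖ ^ 2 ≤ C * (X / T + (T : ℝ) ^ 2) := by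
  set w : ℕ × ℕ → ℝ := fun x => a x.2 / (x.1 * x.2 * Real.log (2 * R : ℕ)) with hw
  set B : ℝ := C * (X / T + (T : ℝ) ^ 2) with hB
  have hB0 : 0 ≤ B := by positivity
  have hws : ∑ x ∈ S ×ˢ Ico M (2 * M), |w x| ≤ 1 := hmod_w S a P R M hS ha hP hM hR
  set D : ℕ × ℕ → ℕ → ℂ := fun x n => (if ((x.1 * x.2 * R : ℕ) : ℝ) < n ∧ (n : ℝ) ≤ 2 * ((x.1 * x.2 * R : ℕ) : ℝ) then (1 : ℂ) else 0) -
      mo (fun j => Ia ((x.1 * x.2 * R : ℕ) : ℝ) j) (Icc (-(T : ℤ)) T) X n with hD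
  have h1 : ∀ n, ((rhoS S a R M n : ℝ) : ℂ) -
      mo (fun j => ∑ x ∈ S ×ˢ Ico M (2 * M), ((a x.2 / (x.1 * x.2 * Real.log (2 * R : ℕ)) : ℝ) : ℂ) *
        Ia ((x.1 * x.2 * R : ℕ) : ℝ) j) (Icc (-(T : ℤ)) T) X n = ∑ x ∈ S ×ˢ Ico M (2 * M), ((w x : ℝ) : ℂ) * D x n := by
    intro n
    rw [hmod_rho, hmod_mo_sum (S ×ˢ Ico M (2 * M)) (fun x => ((a x.2 / (x.1 * x.2 * Real.log (2 * R : ℕ)) : ℝ) : ℂ))
      (fun x j => Ia ((x.1 * x.2 * R : ℕ) : ℝ) j), ← sum_sub_distrib]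
    refine sum_congr rfl fun x _ => ?_
    rw [hD]
    simp only
    rw [mul_sub]
  have h2 : ∀ n ∈ Icc 1 X, ‖((rhoS S a R M n : ℝ) : ℂ) -
      mo (fun j => ∑ x ∈ S ×ˢ Ico M (2 * M), ((a x.2 / (x.1 * x.2 * Real.log (2 * R : ℕ)) : ℝ) : ℂ) *
        Ia ((x.1 * x.2 * R : ℕ) : ℝ) j) (Icc (-(T : ℤ)) T) X n‖ ^ 2 ≤ ∑ x ∈ S ×ˢ Ico M (2 * M), |w x| * ‖D x n‖ ^ 2 := by
    intro n _
    rw [h1 n]
    have h3 : ‖∑ x ∈ S ×ˢ Ico M (2 * M), ((w x : ℝ) : ℂ) * D x n‖ ≤ ∑ x ∈ S ×ˢ Ico M (2 * M), |w x| * ‖D x n‖ := by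
      refine (norm_sum_le _ _).trans (le_of_eq (sum_congr rfl fun x _ => ?_))
      rw [norm_mul, Complex.norm_real, Real.norm_eq_abs]
    have h4 : (∑ x ∈ S ×ˢ Ico M (2 * M), |w x| * ‖D x n‖) ^ 2 ≤
        (∑ x ∈ S ×ˢ Ico M (2 * M), |w x|) * ∑ x ∈ S ×ˢ Ico M (2 * M), |w x| * ‖D x n‖ ^ 2 := by
      apply Finset.sum_sq_le_sum_mul_sum_of_sq_le_mul
      · intro x _
        exact abs_nonneg _
      · intro x _
        exact mul_nonneg (abs_nonneg _) (by positivity)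
      · intro x _
        exact le_of_eq (by ring)
    have h5 : 0 ≤ ∑ x ∈ S ×ˢ Ico M (2 * M), |w x| * ‖D x n‖ ^ 2 := sum_nonneg fun x _ => mul_nonneg (abs_nonneg _) (by positivity)
    calc ‖∑ x ∈ S ×ˢ Ico M (2 * M), ((w x : ℝ) : ℂ) * D x n‖ ^ 2 ≤ (∑ x ∈ S ×ˢ Ico M (2 * M), |w x| * ‖D x n‖) ^ 2 :=
          pow_le_pow_left₀ (norm_nonneg _) h3 2
      _ ≤ (∑ x ∈ S ×ˢ Ico M (2 * M), |w x|) * ∑ x ∈ S ×ˢ Ico M (2 * M), |w x| * ‖D x n‖ ^ 2 := h4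
      _ ≤ 1 * ∑ x ∈ S ×ˢ Ico M (2 * M), |w x| * ‖D x n‖ ^ 2 := mul_le_mul_of_nonneg_right hws h5
      _ = _ := one_mul _
  refine (sum_le_sum h2).trans ?_
  rw [sum_comm]
  have h6 : ∀ x ∈ S ×ˢ Ico M (2 * M), ∑ n ∈ Icc 1 X, |w x| * ‖D x n‖ ^ 2 ≤ |w x| * B := by
    intro x hx
    rw [← mul_sum]
    refine mul_le_mul_of_nonneg_left ?_ (abs_nonneg _)
    rw [mem_product, mem_Ico] at hx
    have hp := hS hx.1
    unfold pr at hp
    rw [mem_filter, mem_Ioc] at hp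
    refine h ((x.1 * x.2 * R : ℕ) : ℝ) ?_ ?_
    · rw [div_le_iff₀ (by norm_num)]
      have h7 : X ≤ x.1 * x.2 * R * 300 := by
        have h8 : P * M * R ≤ x.1 * x.2 * R := Nat.mul_le_mul_right _ (Nat.mul_le_mul hp.1.1.le hx.2.1)
        omega
      exact_mod_cast h7
    · have h7 : 2 * (x.1 * x.2 * R) ≤ X := by
        have h8 : x.1 * x.2 * R ≤ 2 * P * (2 * M) * R := Nat.mul_le_mul_right _ (Nat.mul_le_mul hp.1.2 hx.2.2.le)
        have h9 : 2 * P * (2 * M) * R = 4 * (P * M * R) := by ring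
        omega
      exact_mod_cast h7
  refine (sum_le_sum h6).trans ?_
  rw [← sum_mul]
  calc (∑ x ∈ S ×ˢ Ico M (2 * M), |w x|) * B ≤ 1 * B := mul_le_mul_of_nonneg_right hws hB0
    _ = B := one_mul _

/-- the numerical part -/
private theorem hmod_num (K g c5 : ℕ) (C : ℝ) (hC : 0 < C) (hc : K + 2 * g + 5 ≤ c5) :
    ∃ x0 : ℝ, ∀ X : ℕ, x0 ≤ X → ∀ Q T : ℕ, (Q : ℝ) ≤ (Real.log X) ^ g → (Real.log X) ^ c5 / 2 ≤ T →
      (T : ℝ) ≤ (Real.log X) ^ c5 →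
      2 * X * ((Q : ℝ) ^ 2 * (100 * (((2 * T + 1 : ℕ) : ℝ) * (2 * (X / (Real.log X) ^ (K + 2 * g + c5 + 1)))) / X)) ^ 2 +
        2 * (Q : ℝ) ^ 2 * (C * (X / T + (T : ℝ) ^ 2)) ≤ X / (Real.log X) ^ K := by
  have h1 : ∀ᶠ x : ℝ in Filter.atTop, (Real.log x) ^ (2 * g + 2 * c5 + K) ≤ 1 / (8 * C) * x := by
    have h2 := (Real.isLittleO_pow_log_id_atTop (n := 2 * g + 2 * c5 + K)).def (c := 1 / (8 * C)) (by positivity)
    filter_upwards [h2, Filter.eventually_ge_atTop (1 : ℝ)] with x hx hx1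
    rw [Real.norm_eq_abs, Real.norm_eq_abs] at hx
    refine (le_abs_self _).trans (hx.trans ?_)
    rw [id, abs_of_nonneg (by linarith)]
  obtain ⟨x1, hx1⟩ := Filter.eventually_atTop.1 h1
  refine ⟨max x1 (Real.exp (2000 + 16 * C)), ?_⟩
  intro X hX Q T hQ hT1 hT2
  have hXx1 : x1 ≤ X := (le_max_left _ _).trans hX
  have hXe : Real.exp (2000 + 16 * C) ≤ X := (le_max_right _ _).trans hX
  have hXpos : (0 : ℝ) < X := (Real.exp_pos _).trans_le hXe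
  set l := Real.log X with hl
  have hl0 : 2000 + 16 * C ≤ l := by
    rw [hl, Real.le_log_iff_exp_le hXpos]
    exact hXe
  have hl1 : 1 ≤ l := by linarith
  have hlpos : 0 < l := by linarith
  have hlog := hx1 X hXx1
  rw [← hl] at hlog
  have hQ0 : (0 : ℝ) ≤ Q := by positivity
  have hTpos : (0 : ℝ) < T := by
    have : 0 < l ^ c5 / 2 := by positivity
    linarith
  have hQ2 : (Q : ℝ) ^ 2 ≤ l ^ (2 * g) := by
    have := pow_le_pow_left₀ hQ0 hQ 2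
    rwa [← pow_mul, mul_comm g 2] at this
  -- the first summand
  have hA : (Q : ℝ) ^ 2 * (100 * (((2 * T + 1 : ℕ) : ℝ) * (2 * (X / l ^ (K + 2 * g + c5 + 1)))) / X) ≤
      600 / l ^ (K + 1) := by
    have e1 : (Q : ℝ) ^ 2 * (100 * (((2 * T + 1 : ℕ) : ℝ) * (2 * (X / l ^ (K + 2 * g + c5 + 1)))) / X) =
        200 * (Q : ℝ) ^ 2 * ((2 * T + 1 : ℕ) : ℝ) / l ^ (K + 2 * g + c5 + 1) := by
      field_simp
      ring
    have e2 : ((2 * T + 1 : ℕ) : ℝ) ≤ 3 * l ^ c5 := by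
      push_cast
      have : 1 ≤ l ^ c5 := one_le_pow₀ hl1
      linarith
    have e3 : 200 * (Q : ℝ) ^ 2 * ((2 * T + 1 : ℕ) : ℝ) ≤ 200 * l ^ (2 * g) * (3 * l ^ c5) :=
      mul_le_mul (by linarith) e2 (by positivity) (by positivity)
    have e4 : 600 / l ^ (K + 1) = 200 * l ^ (2 * g) * (3 * l ^ c5) / l ^ (K + 2 * g + c5 + 1) := by
      rw [div_eq_div_iff (by positivity) (by positivity)]
      have : l ^ (K + 2 * g + c5 + 1) = l ^ (2 * g) * l ^ c5 * l ^ (K + 1) := by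
        rw [← pow_add, ← pow_add]
        congr 1
        omega
      rw [this]
      ring
    rw [e1, e4]
    exact div_le_div_of_nonneg_right e3 (by positivity)
  have hA0 : 0 ≤ (Q : ℝ) ^ 2 * (100 * (((2 * T + 1 : ℕ) : ℝ) * (2 * (X / l ^ (K + 2 * g + c5 + 1)))) / X) := by
    positivity
  have hS1 : 2 * X * ((Q : ℝ) ^ 2 * (100 * (((2 * T + 1 : ℕ) : ℝ) * (2 * (X / l ^ (K + 2 * g + c5 + 1)))) / X)) ^ 2 ≤
      X / l ^ K / 4 := by
    have e1 := pow_le_pow_left₀ hA0 hA 2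
    have e2 : (600 / l ^ (K + 1)) ^ 2 ≤ 1 / 8 / l ^ K := by
      rw [div_pow, div_le_div_iff₀ (by positivity) (by positivity)]
      have e3 : (l ^ (K + 1)) ^ 2 = l ^ K * (l ^ K * l ^ 2) := by
        rw [← pow_mul, ← pow_add, ← pow_add]
        congr 1
        omega
      rw [e3]
      have e4 : 1 ≤ l ^ K := one_le_pow₀ hl1
      have e5 : (2000 : ℝ) ^ 2 ≤ l ^ 2 := pow_le_pow_left₀ (by norm_num) (by linarith) 2
      have e6 : 0 < l ^ K := by positivity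
      have e7 : (2000 : ℝ) ^ 2 ≤ l ^ K * l ^ 2 := by nlinarith
      nlinarith
    have e8 : 2 * X * ((Q : ℝ) ^ 2 * (100 * (((2 * T + 1 : ℕ) : ℝ) * (2 * (X / l ^ (K + 2 * g + c5 + 1)))) / X)) ^ 2 ≤
        2 * X * (1 / 8 / l ^ K) := mul_le_mul_of_nonneg_left (e1.trans e2) (by positivity)
    refine e8.trans (le_of_eq ?_)
    field_simp
    ring
  -- the second summand
  have hS2 : 2 * (Q : ℝ) ^ 2 * (C * (X / T)) ≤ X / l ^ K / 4 := by
    have e1 : (X : ℝ) / T ≤ 2 * X / l ^ c5 := by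
      rw [div_le_div_iff₀ hTpos (by positivity)]
      nlinarith
    have e2 : 2 * (Q : ℝ) ^ 2 * (C * (X / T)) ≤ 2 * l ^ (2 * g) * (C * (2 * X / l ^ c5)) :=
      mul_le_mul (by linarith) (mul_le_mul_of_nonneg_left e1 hC.le) (by positivity) (by positivity)
    refine e2.trans ?_
    have e3 : 2 * l ^ (2 * g) * (C * (2 * X / l ^ c5)) = 4 * C * X * l ^ (2 * g) / l ^ c5 := by ring
    rw [e3, div_div, div_le_div_iff₀ (by positivity) (by positivity)]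
    have e4 : l ^ (K + 2 * g + 5) ≤ l ^ c5 := pow_le_pow_right₀ hl1 hc
    have e5 : l ^ (K + 2 * g + 5) = l ^ K * l ^ (2 * g) * (l * l ^ 4) := by
      rw [← pow_succ', ← pow_add, ← pow_add]
    have e6 : 1 ≤ l ^ 4 := one_le_pow₀ hl1
    have e7 : 16 * C ≤ l * l ^ 4 := by nlinarith
    have e8 : l ^ K * l ^ (2 * g) * (16 * C) ≤ l ^ c5 := by
      refine le_trans ?_ e4
      rw [e5]
      exact mul_le_mul_of_nonneg_left e7 (by positivity)
    have e9 : 4 * C * X * l ^ (2 * g) * (l ^ K * 4) = X * (l ^ K * l ^ (2 * g) * (16 * C)) := by ring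
    rw [e9]
    exact mul_le_mul_of_nonneg_left e8 hXpos.le
  have hS3 : 2 * (Q : ℝ) ^ 2 * (C * (T : ℝ) ^ 2) ≤ X / l ^ K / 4 := by
    have e1 : (T : ℝ) ^ 2 ≤ l ^ (2 * c5) := by
      have := pow_le_pow_left₀ hTpos.le hT2 2
      rwa [← pow_mul, mul_comm c5 2] at this
    have e2 : 2 * (Q : ℝ) ^ 2 * (C * (T : ℝ) ^ 2) ≤ 2 * l ^ (2 * g) * (C * l ^ (2 * c5)) :=
      mul_le_mul (by linarith) (mul_le_mul_of_nonneg_left e1 hC.le) (by positivity) (by positivity)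
    refine e2.trans ?_
    rw [div_div, le_div_iff₀ (by positivity)]
    have e3 : 2 * l ^ (2 * g) * (C * l ^ (2 * c5)) * (l ^ K * 4) = 8 * C * l ^ (2 * g + 2 * c5 + K) := by
      rw [pow_add, pow_add]
      ring
    rw [e3]
    have e4 : 8 * C * l ^ (2 * g + 2 * c5 + K) ≤ 8 * C * (1 / (8 * C) * X) :=
      mul_le_mul_of_nonneg_left hlog (by positivity)
    refine e4.trans (le_of_eq ?_)
    field_simp
  have hpos : 0 ≤ X / l ^ K := by positivity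
  have e10 : 2 * (Q : ℝ) ^ 2 * (C * (X / T + (T : ℝ) ^ 2)) =
      2 * (Q : ℝ) ^ 2 * (C * (X / T)) + 2 * (Q : ℝ) ^ 2 * (C * (T : ℝ) ^ 2) := by ring
  rw [e10]
  linarith

theorem modJ (K g : ℕ) : ∃ a5 : ℕ, ∀ c5 : ℕ, a5 ≤ c5 → ∀ c1 : ℕ, g < c1 → ∃ x0 : ℝ, ∀ Z : ℕ, x0 ≤ Z →
    ∀ (P R M : ℕ) (S : Finset ℕ) (a : ℕ → ℝ), BlkJ Z P R M S a c1 →
      ∑ n ∈ Icc 1 Z, ‖MG (bC S a R M) Z ⌊(Real.log Z) ^ g⌋₊ (fun _ => Js Z c5) n -
        ((rhoS S a R M n * ram ⌊(Real.log Z) ^ g⌋₊ n : ℝ) : ℂ)‖ ^ 2 ≤ Z / (Real.log Z) ^ K := by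
  obtain ⟨C, hC, hcir⟩ := cirI
  refine ⟨K + 2 * g + 5, fun c5 hc5 c1 hc1 => ?_⟩
  obtain ⟨x1, hx1⟩ := bqJ (K + 2 * g + c5 + 1) g c5 c1 hc1
  obtain ⟨x2, hx2⟩ := bjJ (K + 2 * g + c5 + 1) c5 c1
  obtain ⟨x3, hx3⟩ := hmod_num K g c5 C hC hc5
  obtain ⟨x4, -, hx4⟩ := parJ c1
  refine ⟨max (max x1 x2) (max (max x3 x4) (Real.exp 10)), ?_⟩
  intro X hX P R M S a hpar
  have hX1 : x1 ≤ X := ((le_max_left _ _).trans (le_max_left _ _)).trans hX
  have hX2 : x2 ≤ X := ((le_max_right _ _).trans (le_max_left _ _)).trans hX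
  have hX3 : x3 ≤ X := (((le_max_left _ _).trans (le_max_left _ _)).trans (le_max_right _ _)).trans hX
  have hX4 : x4 ≤ X := (((le_max_right _ _).trans (le_max_left _ _)).trans (le_max_right _ _)).trans hX
  have hXe : Real.exp 10 ≤ X := ((le_max_right _ _).trans (le_max_right _ _)).trans hX
  have hXpos : (0 : ℝ) < X := (Real.exp_pos _).trans_le hXe
  have hl10 : 10 ≤ Real.log X := by
    rw [Real.le_log_iff_exp_le hXpos]
    exact hXe
  have hX10 : 10000 ≤ X := by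
    have h1 : (10000 : ℝ) ≤ Real.exp 10 := by
      have h2 : (2.7 : ℝ) ≤ Real.exp 1 := by
        have := Real.exp_one_gt_d9
        linarith
      have h3 : Real.exp 10 = Real.exp 1 ^ 10 := by
        rw [← Real.exp_nat_mul]
        norm_num
      rw [h3]
      calc (10000 : ℝ) ≤ 2.7 ^ 10 := by norm_num
        _ ≤ Real.exp 1 ^ 10 := pow_le_pow_left₀ (by norm_num) h2 10
    exact_mod_cast h1.trans hXe
  have hXn : 1 ≤ X := by omega
  set l := Real.log X with hl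
  have hl1 : 1 ≤ l := by linarith
  set Q := ⌊l ^ g⌋₊ with hQ
  set T := ⌊l ^ c5⌋₊ with hT
  have hQ1 : (Q : ℝ) ≤ l ^ g := Nat.floor_le (by positivity)
  have hT1 : (T : ℝ) ≤ l ^ c5 := Nat.floor_le (by positivity)
  have hTn : 1 ≤ T := by
    rw [hT]
    apply Nat.le_floor
    rw [Nat.cast_one]
    exact one_le_pow₀ hl1
  have hT2 : l ^ c5 / 2 ≤ T := by
    have h1 : l ^ c5 < T + 1 := Nat.lt_floor_add_one _
    have h2 : (1 : ℝ) ≤ T := by exact_mod_cast hTn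
    linarith
  obtain ⟨hP1, hPMR, -, -, -, -, -, -⟩ := hx4 X P R M S a hX4 hpar
  have hM1 : 1 ≤ M := hpar.hM1
  have hR2 : 2 ≤ R := by
    have h1 : 1 * 1 ≤ P * M := Nat.mul_le_mul hP1 hM1
    omega
  -- the coefficients
  set A : ℤ → ℂ := fun j => ∑ x ∈ S ×ˢ Ico M (2 * M), ((a x.2 / (x.1 * x.2 * Real.log (2 * R : ℕ)) : ℝ) : ℂ) *
    Ia ((x.1 * x.2 * R : ℕ) : ℝ) j with hA
  set J : Finset ℤ := Icc (-(T : ℤ)) T with hJ
  have hJs : Js X c5 = J := rfl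
  have hJc : J.card = 2 * T + 1 := by
    rw [hJ, Int.card_Icc]
    omega
  set δ : ℝ := 2 * (X / l ^ (K + 2 * g + c5 + 1)) with hδ
  have hδ0 : 0 ≤ δ := by positivity
  have hcoef : ∀ q ∈ Icc 1 Q, ∀ b ∈ cl q, ∀ j ∈ J, ‖bq (bC S a R M) X ((b : ℝ) / q) j -
      ((ArithmeticFunction.moebius q : ℤ) : ℂ) / (q.totient : ℂ) * A j‖ ≤ δ := by
    intro q hq b hb j hj
    have hq1 : 1 ≤ q := (mem_Icc.1 hq).1
    have hq2 : (q : ℝ) ≤ l ^ g := by
      have : (q : ℝ) ≤ Q := by exact_mod_cast (mem_Icc.1 hq).2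
      linarith
    have hb2 : Nat.Coprime q b := by
      unfold cl at hb
      rw [mem_filter] at hb
      exact hb.2.symm
    have hj2 : |(j : ℝ)| ≤ l ^ c5 := by
      have h1 := mem_Icc.1 hj
      have h2 : |(j : ℝ)| ≤ T := by
        rw [abs_le]
        constructor
        · exact_mod_cast h1.1
        · exact_mod_cast h1.2
      linarith
    have h3 := hx1 X hX1 P R M S a hpar q b hq1 hq2 hb2 j hj2
    have h4 := hx2 X hX2 P R M S a hpar j hj2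
    rw [← hl] at h3 h4
    rw [← sum_product' S (Ico M (2 * M)) (fun p m => ((a m / (p * m * Real.log (2 * R : ℕ)) : ℝ) : ℂ) *
      Ia ((p * m * R : ℕ) : ℝ) j)] at h4
    have h5 : ‖((ArithmeticFunction.moebius q : ℤ) : ℂ) / (q.totient : ℂ)‖ ≤ 1 := by
      rw [norm_div]
      have h6 : ‖((ArithmeticFunction.moebius q : ℤ) : ℂ)‖ ≤ 1 := by
        rw [Complex.norm_intCast]
        exact_mod_cast ArithmeticFunction.abs_moebius_le_one
      have h7 : (1 : ℝ) ≤ ‖(q.totient : ℂ)‖ := by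
        rw [Complex.norm_natCast]
        exact_mod_cast Nat.totient_pos.2 hq1
      rw [div_le_one (by linarith)]
      linarith
    have h8 : bq (bC S a R M) X ((b : ℝ) / q) j - ((ArithmeticFunction.moebius q : ℤ) : ℂ) / (q.totient : ℂ) * A j =
        (bq (bC S a R M) X ((b : ℝ) / q) j - ((ArithmeticFunction.moebius q : ℤ) : ℂ) / (q.totient : ℂ) * bq (bC S a R M) X 0 j) +
        ((ArithmeticFunction.moebius q : ℤ) : ℂ) / (q.totient : ℂ) * (bq (bC S a R M) X 0 j - A j) := by ring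
    rw [h8]
    refine (norm_add_le _ _).trans ?_
    rw [norm_mul]
    have h9 : ‖((ArithmeticFunction.moebius q : ℤ) : ℂ) / (q.totient : ℂ)‖ * ‖bq (bC S a R M) X 0 j - A j‖ ≤
        1 * (X / l ^ (K + 2 * g + c5 + 1)) := mul_le_mul h5 h4 (norm_nonneg _) zero_le_one
    rw [hδ]
    linarith
  -- at every point
  set s : ℝ := (Q : ℝ) ^ 2 * (100 * (J.card * δ) / X) with hs
  have hs0 : 0 ≤ s := by positivity
  have hpt : ∀ n ∈ Icc 1 X, ‖MG (bC S a R M) X Q (fun _ => Js X c5) n - ((rhoS S a R M n * ram Q n : ℝ) : ℂ)‖ ^ 2 ≤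
      2 * s ^ 2 + 2 * (Q : ℝ) ^ 2 * ‖((rhoS S a R M n : ℝ) : ℂ) - mo A J X n‖ ^ 2 := by
    intro n _
    rw [hJs]
    have h1 := hmod_point (bC S a R M) X Q J n A hXn hδ0 hcoef
    have h2 : MG (bC S a R M) X Q (fun _ => J) n - ((rhoS S a R M n * ram Q n : ℝ) : ℂ) =
        (MG (bC S a R M) X Q (fun _ => J) n - ((ram Q n : ℝ) : ℂ) * mo A J X n) -
        ((ram Q n : ℝ) : ℂ) * (((rhoS S a R M n : ℝ) : ℂ) - mo A J X n) := by
      push_cast
      ring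
    have h3 : ‖((ram Q n : ℝ) : ℂ) * (((rhoS S a R M n : ℝ) : ℂ) - mo A J X n)‖ ≤
        Q * ‖((rhoS S a R M n : ℝ) : ℂ) - mo A J X n‖ := by
      rw [norm_mul, Complex.norm_real, Real.norm_eq_abs]
      exact mul_le_mul_of_nonneg_right (hmod_ram_le Q n) (norm_nonneg _)
    have h4 : ‖MG (bC S a R M) X Q (fun _ => J) n - ((rhoS S a R M n * ram Q n : ℝ) : ℂ)‖ ≤
        s + Q * ‖((rhoS S a R M n : ℝ) : ℂ) - mo A J X n‖ := by
      rw [h2]
      exact (norm_sub_le _ _).trans (add_le_add h1 h3)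
    have h5 := pow_le_pow_left₀ (norm_nonneg _) h4 2
    refine h5.trans ?_
    have h6 := sq_nonneg (s - Q * ‖((rhoS S a R M n : ℝ) : ℂ) - mo A J X n‖)
    nlinarith
  have hsm := hmod_smooth S a X T P R M C hC hpar.hS hpar.ha hP1 hM1 hR2 hpar.hR1 hpar.hR2 (fun z ha1 ha2 => hcir X T z hX10 hTn ha1 ha2)
  refine (sum_le_sum hpt).trans ?_
  rw [sum_add_distrib, sum_const, Nat.card_Icc, ← mul_sum, nsmul_eq_mul]
  have h7 : ((X + 1 - 1 : ℕ) : ℝ) = X := by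
    rw [Nat.add_sub_cancel]
  rw [h7]
  have h8 := hx3 X hX3 Q T hQ1 hT2 hT1
  rw [← hl] at h8
  have h9 : 2 * (Q : ℝ) ^ 2 * ∑ n ∈ Icc 1 X, ‖((rhoS S a R M n : ℝ) : ℂ) - mo A J X n‖ ^ 2 ≤
      2 * (Q : ℝ) ^ 2 * (C * (X / T + (T : ℝ) ^ 2)) := mul_le_mul_of_nonneg_left hsm (by positivity)
  have h10 : (X : ℝ) * (2 * s ^ 2) = 2 * X * ((Q : ℝ) ^ 2 * (100 * (((2 * T + 1 : ℕ) : ℝ) *
      (2 * (X / l ^ (K + 2 * g + c5 + 1)))) / X)) ^ 2 := by
    rw [hs, hJc, hδ]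
    ring
  rw [h10]
  linarith

end Pool.Agent.Lib.VKT
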