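import Pool.Agent.Lib.VK.HPar
import Pool.Agent.Lib.VK.SBs
import Pool.Agent.Lib.VK.HCu
import Pool.Agent.Lib.VK.Vkp
import Pool.Agent.Lib.G3.Mr2

/-!
# VK / HMr (H board): the frequencies outside the model carry little mass (adapt VK/SMr.lean)

PROOF. As mrS; the only place where the size of `P`, `M` enters: `T ≤ 2 l^(K+10)/δ ≤ 2 Z/(P l^10) ≤ 512 M R/l^10 ≤ M R` from `P l^(K+20) ≤ δ Z`, `Z ≤ 256 P M R`; mean value of the polynomial with the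
coefficients of `m r` (bounded by 1, length `4 M R`): `≤ C (T + M R) M R l`; `l^400 ≤ l^c1/2 ≤ P`, `P^390 ≤ Z` for `cuJ`; `P^(1/250) ≥ C l^(K+3)`.
-/

set_option autoImplicit false

open Finset
open scoped ArithmeticFunction.vonMangoldt

namespace Pool.Agent.Lib.VKT

open Pool.Agent.Lib.MRT (cj kap)
open Pool.Agent.Lib.G3 (bc)

section hmr

open Pool.Agent.Lib.G3 (pr RL LK Qt zz largeR)

private theorem hmr_kap_le (δ : ℝ) (j : ℤ) : kap δ j ≤ δ ^ 2 := by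
  unfold kap
  split_ifs
  · exact le_rfl
  · exact min_le_left _ _

private theorem hmr_block {F : ℕ → ℂ} (hF : ∀ n, ‖F n‖ ≤ 1) {R : ℝ} (hR : 1 ≤ R) {X : ℕ} (hX : 1 ≤ X) (δ : ℝ)
    (J : Finset ℤ) (hJ : ∀ j ∈ J, R < |(j : ℝ)|) (hJ2 : ∀ j ∈ J, |(j : ℝ)| ≤ 2 * R) :
    ∑ j ∈ J, kap δ j * ‖∑ n ∈ Icc 1 X, F n * cj j n‖ ^ 2 ≤
      (1 + Real.log X) * (1600 * ((X : ℝ) / R) + 800 * ((X : ℝ) / R) ^ 2) := by
  have hR0 : 0 < R := by linarith
  have hxr : (1 : ℝ) ≤ X := by exact_mod_cast hX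
  have hlog : 0 ≤ Real.log X := Real.log_nonneg hxr
  have h1 := MRT.mvj (T := 2 * R) (by linarith) J hJ2 (N0 := 1) (N1 := X) le_rfl hX F
  rw [Nat.cast_one, div_one] at h1
  have h0 : ∑ n ∈ Icc 1 X, ‖F n‖ ^ 2 ≤ X := by
    calc ∑ n ∈ Icc 1 X, ‖F n‖ ^ 2 ≤ ∑ n ∈ Icc 1 X, (1 : ℝ) := by
          refine sum_le_sum fun n _ => ?_
          exact pow_le_one₀ (norm_nonneg _) (hF n)
      _ = X := by simp
  have h2 : ∑ j ∈ J, kap δ j * ‖∑ n ∈ Icc 1 X, F n * cj j n‖ ^ 2 ≤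
      ∑ j ∈ J, 4 / R ^ 2 * ‖∑ n ∈ Icc 1 X, F n * cj j n‖ ^ 2 := by
    refine sum_le_sum fun j hj => ?_
    refine mul_le_mul_of_nonneg_right ?_ (by positivity)
    have h3 := hJ j hj
    have hj0 : j ≠ 0 := by
      rintro rfl
      simp at h3
      linarith
    unfold kap
    rw [if_neg hj0]
    refine (min_le_right _ _).trans ?_
    have h4 : R ^ 2 ≤ (j : ℝ) ^ 2 := by
      rw [← sq_abs (j : ℝ)]
      exact pow_le_pow_left₀ hR0.le h3.le 2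
    exact div_le_div_of_nonneg_left (by norm_num) (by positivity) h4
  refine h2.trans ?_
  rw [← mul_sum]
  have h5 : 200 * (1 + Real.log X) * (2 * R + X) * ∑ n ∈ Icc 1 X, ‖F n‖ ^ 2 ≤
      200 * (1 + Real.log X) * (2 * R + X) * X := by
    refine mul_le_mul_of_nonneg_left h0 ?_
    positivity
  calc 4 / R ^ 2 * ∑ j ∈ J, ‖∑ n ∈ Icc 1 X, F n * cj j n‖ ^ 2
      ≤ 4 / R ^ 2 * (200 * (1 + Real.log X) * (2 * R + X) * X) :=
        mul_le_mul_of_nonneg_left (h1.trans h5) (by positivity)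
    _ = _ := by field_simp; ring

private theorem hmr_ind {F : ℕ → ℂ} (hF : ∀ n, ‖F n‖ ≤ 1) {T : ℝ} (hT : 1 ≤ T) {X : ℕ} (hX : 1 ≤ X) (δ : ℝ) (K : ℕ) :
    ∀ J : Finset ℤ, (∀ j ∈ J, T < |(j : ℝ)|) → (∀ j ∈ J, |(j : ℝ)| ≤ T * 2 ^ K) →
    ∑ j ∈ J, kap δ j * ‖∑ n ∈ Icc 1 X, F n * cj j n‖ ^ 2 ≤
      (1 + Real.log X) * (3200 * ((X : ℝ) / T) + 1600 * ((X : ℝ) / T) ^ 2) * (1 - (1 / 2) ^ K) := by
  have hT0 : 0 < T := by linarith
  have hxr : (1 : ℝ) ≤ X := by exact_mod_cast hX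
  have hlog : 0 ≤ Real.log X := Real.log_nonneg hxr
  induction K with
  | zero =>
    intro J hJ hJ2
    have h1 : J = ∅ := by
      apply Finset.eq_empty_of_forall_notMem
      intro j hj
      have h2 := hJ j hj
      have h3 := hJ2 j hj
      rw [pow_zero, mul_one] at h3
      linarith
    rw [h1]
    simp
  | succ K ih =>
    intro J hJ hJ2
    classical
    have h1 := sum_filter_add_sum_filter_not J (fun j : ℤ => |(j : ℝ)| ≤ T * 2 ^ K)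
      (fun j => kap δ j * ‖∑ n ∈ Icc 1 X, F n * cj j n‖ ^ 2)
    rw [← h1]
    have h2 := ih (J.filter (fun j : ℤ => |(j : ℝ)| ≤ T * 2 ^ K))
      (fun j hj => hJ j (mem_filter.mp hj).1) (fun j hj => (mem_filter.mp hj).2)
    have hp : (1 : ℝ) ≤ 2 ^ K := one_le_pow₀ (by norm_num)
    have h3 := hmr_block hF (R := T * 2 ^ K) (by nlinarith) hX δ
      (J.filter (fun j : ℤ => ¬ |(j : ℝ)| ≤ T * 2 ^ K))
      (fun j hj => not_le.mp (mem_filter.mp hj).2)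
      (fun j hj => by
        have := hJ2 j (mem_filter.mp hj).1
        rw [pow_succ] at this
        linarith)
    have h4 : (X : ℝ) / (T * 2 ^ K) = (X : ℝ) / T * (1 / 2) ^ K := by
      rw [div_mul_eq_div_div, one_div, inv_pow, div_eq_mul_inv ((X : ℝ) / T)]
    rw [h4] at h3
    have hA : 0 ≤ (X : ℝ) / T := by positivity
    have hB : (0 : ℝ) ≤ (1 / 2) ^ K := by positivity
    have hB1 : ((1 : ℝ) / 2) ^ K ≤ 1 := pow_le_one₀ (by norm_num) (by norm_num)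
    have h5 : ((X : ℝ) / T * (1 / 2) ^ K) ^ 2 ≤ ((X : ℝ) / T) ^ 2 * (1 / 2) ^ K := by
      rw [mul_pow]
      refine mul_le_mul_of_nonneg_left ?_ (by positivity)
      rw [sq]
      calc ((1 : ℝ) / 2) ^ K * (1 / 2) ^ K ≤ (1 / 2) ^ K * 1 := mul_le_mul_of_nonneg_left hB1 hB
        _ = _ := mul_one _
    have h6 : (1 + Real.log X) * (1600 * ((X : ℝ) / T * (1 / 2) ^ K) + 800 * ((X : ℝ) / T * (1 / 2) ^ K) ^ 2) ≤
        (1 + Real.log X) * (1600 * ((X : ℝ) / T * (1 / 2) ^ K) + 800 * (((X : ℝ) / T) ^ 2 * (1 / 2) ^ K)) := by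
      refine mul_le_mul_of_nonneg_left ?_ (by linarith)
      linarith
    have h7 : ((1 : ℝ) / 2) ^ (K + 1) = (1 / 2) ^ K * (1 / 2) := pow_succ _ _
    rw [h7]
    have h8 : (1 + Real.log X) * (3200 * ((X : ℝ) / T) + 1600 * ((X : ℝ) / T) ^ 2) * (1 - (1 / 2) ^ K * (1 / 2)) =
        (1 + Real.log X) * (3200 * ((X : ℝ) / T) + 1600 * ((X : ℝ) / T) ^ 2) * (1 - (1 / 2) ^ K) +
        (1 + Real.log X) * (1600 * ((X : ℝ) / T * (1 / 2) ^ K) + 800 * (((X : ℝ) / T) ^ 2 * (1 / 2) ^ K)) := by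
      ring
    rw [h8]
    exact add_le_add h2 (h3.trans h6)

private theorem hmr_tail {F : ℕ → ℂ} (hF : ∀ n, ‖F n‖ ≤ 1) {T : ℝ} (hT : 1 ≤ T) {X : ℕ} (hX : 1 ≤ X) (hTX : T ≤ X) (δ : ℝ)
    (J : Finset ℤ) (hJ : ∀ j ∈ J, T < |(j : ℝ)|) :
    ∑ j ∈ J, kap δ j * ‖∑ n ∈ Icc 1 X, F n * cj j n‖ ^ 2 ≤ 4800 * (1 + Real.log X) * ((X : ℝ) / T) ^ 2 := by
  obtain ⟨K, hK⟩ : ∃ K : ℕ, ∀ j ∈ J, |(j : ℝ)| ≤ T * 2 ^ K := by
    refine ⟨J.sup (fun j => j.natAbs), fun j hj => ?_⟩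
    have h1 : j.natAbs ≤ J.sup (fun j => j.natAbs) := le_sup (f := fun j : ℤ => j.natAbs) hj
    have h2 : j.natAbs ≤ 2 ^ (J.sup (fun j => j.natAbs)) := h1.trans (Nat.lt_two_pow_self).le
    have h3 : |(j : ℝ)| = (j.natAbs : ℝ) := by
      rw [Nat.cast_natAbs, Int.cast_abs]
    rw [h3]
    have h4 : (j.natAbs : ℝ) ≤ 2 ^ (J.sup (fun j => j.natAbs)) := by exact_mod_cast h2
    refine h4.trans ?_
    have h5 : (0 : ℝ) < 2 ^ (J.sup (fun j => j.natAbs)) := by positivity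
    nlinarith
  have h := hmr_ind hF hT hX δ K J hJ hK
  refine h.trans ?_
  have hT0 : 0 < T := by linarith
  have hxr : (1 : ℝ) ≤ X := by exact_mod_cast hX
  have hlog : 0 ≤ Real.log X := Real.log_nonneg hxr
  have hA : 1 ≤ (X : ℝ) / T := by rw [le_div_iff₀ hT0]; linarith
  have hB : (0 : ℝ) ≤ (1 / 2) ^ K := by positivity
  have e1 : (1 + Real.log X) * (3200 * ((X : ℝ) / T) + 1600 * ((X : ℝ) / T) ^ 2) * (1 - (1 / 2) ^ K) ≤
      (1 + Real.log X) * (3200 * ((X : ℝ) / T) + 1600 * ((X : ℝ) / T) ^ 2) * 1 :=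
    mul_le_mul_of_nonneg_left (by linarith) (by positivity)
  have e2 : (X : ℝ) / T ≤ ((X : ℝ) / T) ^ 2 := by nlinarith
  have e3 : (1 + Real.log X) * ((X : ℝ) / T) ≤ (1 + Real.log X) * ((X : ℝ) / T) ^ 2 :=
    mul_le_mul_of_nonneg_left e2 (by linarith)
  nlinarith

/-- the coefficients of the variable `m r` -/
private noncomputable def hmrb {q : ℕ} (a : ℕ → ℝ) (χ : DirichletCharacter ℂ q) (R M k : ℕ) : ℂ :=
  ∑ r ∈ pr R, ∑ m ∈ Ico M (2 * M), if m * r = k then ((a m * (G3.lp r / Real.log (2 * R : ℕ)) : ℝ) : ℂ) * χ (k : ZMod q) else 0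

private theorem hmr_w {R r : ℕ} (hr : r ∈ pr R) : 0 ≤ G3.lp r / Real.log (2 * R : ℕ) ∧ G3.lp r / Real.log (2 * R : ℕ) ≤ 1 := by
  obtain ⟨⟨h1, h2⟩, h3⟩ := G3.bf_mem_pr.1 hr
  have e1 : G3.lp r = Real.log r := by rw [G3.lp, if_pos h3]
  have hr1 : (1 : ℝ) ≤ r := by exact_mod_cast h3.one_lt.le
  have hr2 : (r : ℝ) ≤ (2 * R : ℕ) := by exact_mod_cast h2
  have hl0 : 0 ≤ Real.log r := Real.log_nonneg hr1
  have hl1 : Real.log r ≤ Real.log (2 * R : ℕ) := Real.log_le_log (by linarith) hr2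
  rw [e1]
  exact ⟨div_nonneg hl0 (hl0.trans hl1), div_le_one_of_le₀ hl1 (hl0.trans hl1)⟩

private theorem hmr_uniq {R M m m' r r' : ℕ} (hMR : 2 * M ≤ R) (hm' : m' ∈ Ico M (2 * M)) (hr : r ∈ pr R) (hr' : r' ∈ pr R)
    (h : m * r = m' * r') (hM : 1 ≤ M) : r = r' := by
  obtain ⟨⟨h1, -⟩, h3⟩ := G3.bf_mem_pr.1 hr
  obtain ⟨-, h3'⟩ := G3.bf_mem_pr.1 hr'
  obtain ⟨h5, h6⟩ := mem_Ico.1 hm'
  have h4 : r ∣ m' * r' := h ▸ Dvd.intro_left m rfl
  rcases (h3.dvd_mul).1 h4 with h7 | h7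
  · have := Nat.le_of_dvd (by omega) h7
    omega
  · exact (Nat.prime_dvd_prime_iff_eq h3 h3').1 h7

private theorem hmrb_le {q : ℕ} {a : ℕ → ℝ} (χ : DirichletCharacter ℂ q) {R M : ℕ} (ha : ∀ m, |a m| ≤ 1) (hMR : 2 * M ≤ R) (hM : 1 ≤ M)
    (k : ℕ) : ‖hmrb a χ R M k‖ ≤ 1 := by
  by_cases hex : ∃ r ∈ pr R, ∃ m ∈ Ico M (2 * M), m * r = k
  · obtain ⟨r, hr, m, hm, hk⟩ := hex
    have hr0 : 0 < r := (G3.bf_mem_pr.1 hr).2.pos
    rw [hmrb, sum_eq_single r, sum_eq_single m]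
    · rw [if_pos hk, norm_mul, Complex.norm_real, Real.norm_eq_abs, abs_mul, abs_of_nonneg (hmr_w hr).1]
      exact mul_le_one₀ (mul_le_one₀ (ha m) (hmr_w hr).1 (hmr_w hr).2) (norm_nonneg _) (DirichletCharacter.norm_le_one χ _)
    · intro m' _ hne
      refine if_neg fun h => hne ?_
      exact Nat.eq_of_mul_eq_mul_right hr0 (h.trans hk.symm)
    · intro h; exact absurd hm h
    · intro r' hr' hne
      refine sum_eq_zero fun m' _ => if_neg fun h => hne ?_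
      exact hmr_uniq hMR hm hr' hr (h.trans hk.symm) hM
    · intro h; exact absurd hr h
  · push Not at hex
    have h0 : hmrb a χ R M k = 0 := by
      rw [hmrb]
      exact sum_eq_zero fun r hr => sum_eq_zero fun m hm => if_neg (hex r hr m hm)
    rw [h0, norm_zero]
    exact zero_le_one

private theorem hmr_fac {q : ℕ} (a : ℕ → ℝ) (χ : DirichletCharacter ℂ q) {R M : ℕ} (hM : 1 ≤ M) (j : ℤ) :
    (∑ m ∈ Ico M (2 * M), ((a m : ℝ) : ℂ) * χ (m : ZMod q) * cj j m) * (RL χ R j / ((Real.log (2 * R : ℕ) : ℝ) : ℂ)) =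
      ∑ n ∈ Icc 1 (4 * (M * R)), hmrb a χ R M n * cj j n := by
  have h1 : ∀ n, hmrb a χ R M n * cj j n = ∑ r ∈ pr R, ∑ m ∈ Ico M (2 * M),
      if m * r = n then ((a m * (G3.lp r / Real.log (2 * R : ℕ)) : ℝ) : ℂ) * χ (n : ZMod q) * cj j n else 0 := by
    intro n
    rw [hmrb, sum_mul]
    refine sum_congr rfl fun r _ => ?_
    rw [sum_mul]
    refine sum_congr rfl fun m _ => ?_
    rw [ite_mul, zero_mul]
  simp only [h1]
  rw [sum_comm, RL, sum_div, mul_sum]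
  refine sum_congr rfl fun r hr => ?_
  rw [sum_comm, sum_mul]
  refine sum_congr rfl fun m hm => ?_
  obtain ⟨⟨h3, h4⟩, h4p⟩ := G3.bf_mem_pr.1 hr
  obtain ⟨h5, h6⟩ := mem_Ico.1 hm
  rw [sum_ite_eq, if_pos]
  · have hr0 : r ≠ 0 := h4p.ne_zero
    have hm0 : m ≠ 0 := by omega
    rw [Pool.Agent.Lib.MRT.cj_mul j hm0 hr0, Complex.ofReal_mul, Complex.ofReal_div]
    push_cast
    rw [map_mul]
    ring
  · rw [mem_Icc]
    constructor
    · exact Nat.mul_pos (by omega) (by omega)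
    · calc m * r ≤ (2 * M) * (2 * R) := Nat.mul_le_mul h6.le h4
        _ = 4 * (M * R) := by ring

private theorem hmr_Am {q : ℕ} (χ : DirichletCharacter ℂ q) {a : ℕ → ℝ} (ha : ∀ m, |a m| ≤ 1) (M : ℕ) (j : ℤ) :
    ‖∑ m ∈ Ico M (2 * M), ((a m : ℝ) : ℂ) * χ (m : ZMod q) * cj j m‖ ≤ M := by
  refine (norm_sum_le _ _).trans ?_
  calc ∑ m ∈ Ico M (2 * M), ‖((a m : ℝ) : ℂ) * χ (m : ZMod q) * cj j m‖ ≤ ∑ m ∈ Ico M (2 * M), (1 : ℝ) := by
        refine sum_le_sum fun m _ => ?_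
        rw [norm_mul, MRT.norm_cj, mul_one, norm_mul, Complex.norm_real, Real.norm_eq_abs]
        exact mul_le_one₀ (ha m) (norm_nonneg _) (DirichletCharacter.norm_le_one χ _)
    _ = (Ico M (2 * M)).card := by simp
    _ ≤ M := by
        rw [Nat.card_Ico]
        have h2 : 2 * M - M ≤ M := by omega
        exact_mod_cast h2

private theorem hmr_SS {q : ℕ} (χ : DirichletCharacter ℂ q) {P : ℕ} {S : Finset ℕ} (hS : S ⊆ pr P) (j : ℤ) :
    ‖∑ p ∈ S, χ (p : ZMod q) * cj j p‖ ≤ P := by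
  refine (norm_sum_le _ _).trans ?_
  calc ∑ r ∈ S, ‖χ (r : ZMod q) * cj j r‖ ≤ ∑ r ∈ S, (1 : ℝ) := by
        refine sum_le_sum fun r _ => ?_
        rw [norm_mul, MRT.norm_cj, mul_one]
        exact DirichletCharacter.norm_le_one χ _
    _ = S.card := by simp
    _ ≤ P := by
        have h0 : S.card ≤ (pr P).card := card_le_card hS
        have h1 : (pr P).card ≤ (Ioc P (2 * P)).card := card_filter_le _ _
        rw [Nat.card_Ioc] at h1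
        have h2 : S.card ≤ P := by omega
        exact_mod_cast h2

private theorem hmr_nt (j : ℤ) (n : ℕ) : Pool.Agent.Lib.DN.nt (-(j : ℝ)) n = cj j n := by
  unfold Pool.Agent.Lib.DN.nt cj
  congr 1
  push_cast
  ring

private theorem hmr_quiet {X q B : ℕ} {j : ℤ}
    (h : ∀ (χ : DirichletCharacter ℂ q) (R R' : ℕ), (X : ℝ) ^ (1 / 4 : ℝ) ≤ R → R ≤ X → R ≤ R' → R' ≤ 2 * R →
      ‖∑ n ∈ Ioc R R', ((Λ n : ℝ) : ℂ) * χ (n : ZMod q) * Pool.Agent.Lib.DN.nt (-(j : ℝ)) n‖ ≤ R / (Real.log X) ^ B) :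
    Qt X q B j := by
  intro χ K K' h1 h2 h3 h4
  have h5 : (X : ℝ) ^ (1 / 4 : ℝ) ≤ K := (Nat.le_ceil _).trans (by exact_mod_cast h1)
  have h6 := h χ K K' h5 h2 h3 h4
  unfold LK
  simp only [hmr_nt] at h6
  exact h6

theorem mrJ (K c2 : ℕ) : ∃ c5 c0 : ℕ, ∀ c1 : ℕ, c0 ≤ c1 → ∃ x0 : ℝ, ∀ Z : ℕ, x0 ≤ Z → ∀ (P R M T : ℕ) (δ : ℝ)
    (S : Finset ℕ) (a : ℕ → ℝ), BlkJ Z P R M S a c1 → 0 < δ → δ ≤ 1 → P * (Real.log Z) ^ (K + 20) ≤ δ * Z →
    (Real.log Z) ^ (K + 10) / δ ≤ T → (T : ℝ) ≤ 2 * (Real.log Z) ^ (K + 10) / δ →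
    ∀ (q : ℕ) (χ : DirichletCharacter ℂ q) (J' : Finset ℤ), 1 ≤ q → (q : ℝ) ≤ (Real.log Z) ^ c2 →
      (∀ j ∈ J', (Real.log Z) ^ c5 ≤ |(j : ℝ)|) →
        ∑ j ∈ J', kap δ j * ‖bc (bC S a R M) Z χ j‖ ^ 2 ≤ δ ^ 2 * (Z : ℝ) ^ 2 / (Real.log Z) ^ K := by
  classical
  obtain ⟨B, c5, x2, hlr⟩ := largeR (K + 2) c2
  obtain ⟨C, x5, hvk⟩ := VK.vkp B c2 (1 / 4) (by norm_num)
  obtain ⟨x1, hcnt⟩ := cuJ
  refine ⟨max c5 C, max 401 (250 * (K + 3) + 2), fun c1 hc1 => ?_⟩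
  have hc1a : 401 ≤ c1 := (le_max_left _ _).trans hc1
  have hc1b : 250 * (K + 3) + 2 ≤ c1 := (le_max_right _ _).trans hc1
  obtain ⟨x3, hx3, hpar⟩ := parJ c1
  refine ⟨max (max (max x1 x2) (max x3 (Real.exp 49))) x5, ?_⟩
  intro X hX0 P R M T δ S a hP hδ hδ1 hδX hT1 hT2 q χ J' hq hqc hJ'
  have hX : max (max x1 x2) (max x3 (Real.exp 49)) ≤ X := (le_max_left _ _).trans hX0
  have hX5 : x5 ≤ X := (le_max_right _ _).trans hX0
  have hX1 : x1 ≤ X := (le_max_left _ _).trans ((le_max_left _ _).trans hX)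
  have hX2 : x2 ≤ X := (le_max_right _ _).trans ((le_max_left _ _).trans hX)
  have hX3 : x3 ≤ X := (le_max_left _ _).trans ((le_max_right _ _).trans hX)
  have hX4 : Real.exp 49 ≤ X := (le_max_right _ _).trans ((le_max_right _ _).trans hX)
  have hXpos : (0 : ℝ) < X := lt_of_lt_of_le (Real.exp_pos _) hX4
  have hlr' := hlr X hX2 q R χ
  have hvk' := hvk X hX5 q
  obtain ⟨l, hl⟩ : ∃ l : ℝ, l = Real.log X := ⟨_, rfl⟩
  have hl49 : 49 ≤ l := by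
    rw [hl, Real.le_log_iff_exp_le hXpos]
    exact hX4
  have hl0 : 0 < l := by linarith
  have hl1 : 1 ≤ l := by linarith
  obtain ⟨hP0, hPM2, hp3, hp3m, hp4, hp5, -, -⟩ := hpar X P R M S a hX3 hP
  have hp1 := hP.hP1
  have hp9 := hP.hR1
  have hM1n := hP.hM1
  have hM1 : (1 : ℝ) ≤ M := by exact_mod_cast hM1n
  have hMpos : (0 : ℝ) < M := by linarith
  have hquiet : ∀ j : ℤ, l ^ C ≤ |(j : ℝ)| → |(j : ℝ)| ≤ X → Qt X q B j := by
    intro j hj1 hj2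
    refine hmr_quiet fun χ' K' K'' h1 h2 h3 h4 => ?_
    refine (hvk' χ' (-(j : ℝ)) K' K'' hq hqc ?_ ?_ h1 h2 h3 h4).1
    · rw [abs_neg, ← hl]; exact hj1
    · rw [abs_neg]; exact hj2
  rw [← hl] at hδX hT1 hT2 hJ' hp1 hqc hlr' ⊢
  have hXnat : 1 ≤ X := by
    have : (0 : ℝ) < X := hXpos
    exact_mod_cast this
  have hX1r : (1 : ℝ) ≤ X := by exact_mod_cast hXnat
  -- sizes of P
  have hPl : l ^ (250 * (K + 3)) ≤ P := by
    have h1 : l ^ (250 * (K + 3) + 1) * l ≤ l ^ c1 := by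
      rw [← pow_succ]
      exact pow_le_pow_right₀ hl1 hc1b
    have h2 : l ^ (250 * (K + 3)) ≤ l ^ (250 * (K + 3) + 1) := pow_le_pow_right₀ hl1 (Nat.le_succ _)
    have h3 : 0 ≤ l ^ (250 * (K + 3) + 1) := by positivity
    have h4 : l ^ (250 * (K + 3) + 1) * 2 ≤ l ^ (250 * (K + 3) + 1) * l := mul_le_mul_of_nonneg_left (by linarith) h3
    linarith
  have hPpos : (0 : ℝ) < P := lt_of_lt_of_le (by positivity) hPl
  have hPP : (1 : ℝ) ≤ P := by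
    have h1 : 0 < P := by exact_mod_cast hPpos
    exact_mod_cast h1
  -- T
  have hTX : (T : ℝ) * P ≤ X := by
    have h1 : (T : ℝ) * δ ≤ 2 * l ^ (K + 10) := by rwa [le_div_iff₀ hδ] at hT2
    have h2 : (T : ℝ) * δ * (P * l ^ (K + 20)) ≤ 2 * l ^ (K + 10) * (δ * X) :=
      mul_le_mul h1 hδX (by positivity) (by positivity)
    have h3 : (T : ℝ) * (P * l ^ (K + 20)) ≤ 2 * l ^ (K + 10) * X := by
      have h4 : δ * ((T : ℝ) * (P * l ^ (K + 20))) ≤ δ * (2 * l ^ (K + 10) * X) := by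
        calc δ * ((T : ℝ) * (P * l ^ (K + 20))) = (T : ℝ) * δ * (P * l ^ (K + 20)) := by ring
          _ ≤ 2 * l ^ (K + 10) * (δ * X) := h2
          _ = _ := by ring
      exact le_of_mul_le_mul_left h4 hδ
    have h5 : l ^ (K + 20) = l ^ 10 * l ^ (K + 10) := by
      rw [← pow_add]
      congr 1
      ring
    rw [h5] at h3
    have h6 : (T : ℝ) * P * l ^ 10 ≤ 2 * X := by
      have h7 : l ^ (K + 10) * ((T : ℝ) * P * l ^ 10) ≤ l ^ (K + 10) * (2 * X) := by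
        calc l ^ (K + 10) * ((T : ℝ) * P * l ^ 10) = (T : ℝ) * (P * (l ^ 10 * l ^ (K + 10))) := by ring
          _ ≤ 2 * l ^ (K + 10) * X := h3
          _ = _ := by ring
      exact le_of_mul_le_mul_left h7 (by positivity)
    have h8 : (2 : ℝ) ≤ l ^ 10 := by
      calc (2 : ℝ) ≤ l := by linarith
        _ = l ^ 1 := (pow_one l).symm
        _ ≤ l ^ 10 := pow_le_pow_right₀ hl1 (by norm_num)
    have h10 : (T : ℝ) * P * 2 ≤ (T : ℝ) * P * l ^ 10 := mul_le_mul_of_nonneg_left h8 (by positivity)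
    linarith
  have hTX1 : (T : ℝ) ≤ X := by
    have : (T : ℝ) * 1 ≤ T * P := mul_le_mul_of_nonneg_left hPP (Nat.cast_nonneg _)
    linarith
  have hTXn : T ≤ X := by exact_mod_cast hTX1
  have hT10 : 1 ≤ (T : ℝ) := by
    refine le_trans ?_ hT1
    rw [le_div_iff₀ hδ, one_mul]
    exact hδ1.trans (one_le_pow₀ hl1)
  have hD : 0 < δ ^ 2 * (X : ℝ) ^ 2 / l ^ K := by positivity
  have hRpos : 0 < R := by
    have h1 : (0 : ℝ) < R := lt_of_lt_of_le (by positivity) hp4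
    exact_mod_cast h1
  have hPR : 8 * ((P : ℝ) * M * R) ≤ X := by exact_mod_cast hp9
  -- the factorisation
  obtain ⟨Ss, hSs⟩ : ∃ Ss : ℤ → ℂ, ∀ j, Ss j = ∑ p ∈ S, χ (p : ZMod q) * cj j p := ⟨_, fun _ => rfl⟩
  obtain ⟨Am, hAm⟩ : ∃ Am : ℤ → ℂ, ∀ j, Am j = ∑ m ∈ Ico M (2 * M), ((a m : ℝ) : ℂ) * χ (m : ZMod q) * cj j m := ⟨_, fun _ => rfl⟩
  have hSle : ∀ j, ‖Ss j‖ ≤ P := fun j => by
    rw [hSs]
    exact hmr_SS χ hP.hS j
  have hAmle : ∀ j, ‖Am j‖ ≤ M := fun j => by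
    rw [hAm]
    exact hmr_Am χ hP.ha M j
  have hfac0 : ∀ j : ℤ, bc (bC S a R M) X χ j = Ss j * (Am j * (RL χ R j / ((Real.log (2 * R : ℕ) : ℝ) : ℂ))) := by
    intro j
    rw [bs_bc hP.hS hM1n hp9 χ j, hSs, hAm, mul_assoc]
  have hfac1 : ∀ j : ℤ, Am j * (RL χ R j / ((Real.log (2 * R : ℕ) : ℝ) : ℂ)) = ∑ n ∈ Icc 1 (4 * (M * R)), hmrb a χ R M n * cj j n := by
    intro j
    rw [hAm]
    exact hmr_fac a χ hM1n j
  -- the three sets
  set J1 := J'.filter (fun j : ℤ => (T : ℝ) < |(j : ℝ)|) with hJ1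
  set J0 := J'.filter (fun j : ℤ => ¬ (T : ℝ) < |(j : ℝ)|) with hJ0
  set Ja := J0.filter (fun j : ℤ => ‖Ss j‖ ≤ (P : ℝ) ^ (1 - 1 / 500 : ℝ)) with hJa
  set Jb := J0.filter (fun j : ℤ => ¬ ‖Ss j‖ ≤ (P : ℝ) ^ (1 - 1 / 500 : ℝ)) with hJb
  have hsplit : ∑ j ∈ J', kap δ j * ‖bc (bC S a R M) X χ j‖ ^ 2 =
      ∑ j ∈ J1, kap δ j * ‖bc (bC S a R M) X χ j‖ ^ 2 +
        (∑ j ∈ Ja, kap δ j * ‖bc (bC S a R M) X χ j‖ ^ 2 + ∑ j ∈ Jb, kap δ j * ‖bc (bC S a R M) X χ j‖ ^ 2) := by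
    rw [hJa, hJb, sum_filter_add_sum_filter_not, hJ1, hJ0, sum_filter_add_sum_filter_not]
  -- part one
  have hpart1 : ∑ j ∈ J1, kap δ j * ‖bc (bC S a R M) X χ j‖ ^ 2 ≤ 1 / 3 * (δ ^ 2 * (X : ℝ) ^ 2 / l ^ K) := by
    have h1 := hmr_tail (F := fun n => bC S a R M n * χ (n : ZMod q)) (fun n => by
      rw [norm_mul]
      refine mul_le_one₀ ?_ (norm_nonneg _) (DirichletCharacter.norm_le_one χ _)
      unfold bC
      rw [Complex.norm_real, Real.norm_eq_abs]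
      exact hP.hb n) hT10 hXnat hTX1 δ J1
      (fun j hj => (mem_filter.mp hj).2)
    rw [← hl] at h1
    refine le_trans h1 ?_
    have h2 : (X : ℝ) / T ≤ δ * X / l ^ (K + 10) := by
      rw [div_le_div_iff₀ (by linarith) (by positivity)]
      rw [div_le_iff₀ hδ] at hT1
      calc (X : ℝ) * l ^ (K + 10) ≤ X * ((T : ℝ) * δ) := mul_le_mul_of_nonneg_left hT1 hXpos.le
        _ = _ := by ring
    have h3 : ((X : ℝ) / T) ^ 2 ≤ (δ * X / l ^ (K + 10)) ^ 2 := pow_le_pow_left₀ (by positivity) h2 2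
    have h4 : 4800 * (1 + l) * ((X : ℝ) / T) ^ 2 ≤ 9600 * l * (δ * X / l ^ (K + 10)) ^ 2 := by
      refine mul_le_mul (by linarith) h3 (by positivity) (by positivity)
    refine h4.trans ?_
    have h5 : (9600 * l * (δ * X / l ^ (K + 10)) ^ 2 : ℝ) = (δ ^ 2 * (X : ℝ) ^ 2 / l ^ K) * (9600 / l ^ (K + 19)) := by
      have e1 : (l ^ (K + 10)) ^ 2 = l ^ K * l ^ (K + 19) * l := by
        rw [← pow_mul, ← pow_add, ← pow_succ]
        congr 1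
        ring
      rw [div_pow, mul_pow, e1]
      field_simp
    rw [h5, mul_comm]
    refine mul_le_mul_of_nonneg_right ?_ hD.le
    rw [div_le_div_iff₀ (by positivity) (by norm_num), one_mul]
    have h6 : (49 : ℝ) ^ 3 ≤ l ^ (K + 19) := by
      calc (49 : ℝ) ^ 3 ≤ l ^ 3 := pow_le_pow_left₀ (by norm_num) hl49 3
        _ ≤ l ^ (K + 19) := pow_le_pow_right₀ hl1 (by omega)
    norm_num at h6 ⊢
    linarith
  -- part two
  have hpart2 : ∑ j ∈ Ja, kap δ j * ‖bc (bC S a R M) X χ j‖ ^ 2 ≤ 1 / 3 * (δ ^ 2 * (X : ℝ) ^ 2 / l ^ K) := by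
    have h1 : ∑ j ∈ Ja, kap δ j * ‖bc (bC S a R M) X χ j‖ ^ 2 ≤
        ∑ j ∈ Ja, δ ^ 2 * ((P : ℝ) ^ (1 - 1 / 500 : ℝ)) ^ 2 *
          ‖∑ n ∈ Icc 1 (4 * (M * R)), hmrb a χ R M n * cj j n‖ ^ 2 := by
      refine sum_le_sum fun j hj => ?_
      rw [hfac0, hfac1, norm_mul, mul_pow, mul_assoc (δ ^ 2)]
      refine mul_le_mul (hmr_kap_le δ j) ?_ (by positivity) (by positivity)
      refine mul_le_mul_of_nonneg_right ?_ (by positivity)
      exact pow_le_pow_left₀ (norm_nonneg _) (mem_filter.mp hj).2 2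
    refine h1.trans ?_
    rw [← mul_sum]
    have hN : 1 ≤ 4 * (M * R) := by
      have : 0 < M * R := Nat.mul_pos (by omega) hRpos
      omega
    have h2 := MRT.mvj hT10 Ja (fun j hj => not_lt.mp (mem_filter.mp (mem_filter.mp hj).1).2) (N0 := 1)
      (N1 := 4 * (M * R)) le_rfl hN (fun n => hmrb a χ R M n)
    rw [Nat.cast_one, div_one] at h2
    have h3 : ∑ n ∈ Icc 1 (4 * (M * R)), ‖hmrb a χ R M n‖ ^ 2 ≤ ((4 * (M * R) : ℕ) : ℝ) := by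
      calc ∑ n ∈ Icc 1 (4 * (M * R)), ‖hmrb a χ R M n‖ ^ 2 ≤ ∑ n ∈ Icc 1 (4 * (M * R)), (1 : ℝ) := by
            refine sum_le_sum fun n _ => ?_
            exact pow_le_one₀ (norm_nonneg _) (hmrb_le χ hP.ha hp3m hM1n n)
        _ = _ := by simp
    obtain ⟨N, hNe⟩ : ∃ N : ℝ, N = ((4 * (M * R) : ℕ) : ℝ) := ⟨_, rfl⟩
    rw [← hNe] at h2 h3
    have hN1 : 1 ≤ N := by rw [hNe]; exact_mod_cast hN
    have hNP : N * P ≤ X := by
      have e0 : (0 : ℝ) ≤ (P : ℝ) * M * R := by positivity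
      have e1 : N * P = 4 * ((P : ℝ) * M * R) := by
        rw [hNe]
        push_cast
        ring
      linarith
    have hNX : N ≤ X := by
      have e0 : N * 1 ≤ N * P := mul_le_mul_of_nonneg_left hPP (by linarith)
      linarith
    have hlogN : Real.log N ≤ l := by
      rw [hl]
      exact Real.log_le_log (by linarith) hNX
    have hlogN0 : 0 ≤ Real.log N := Real.log_nonneg hN1
    have h4 : ∑ j ∈ Ja, ‖∑ n ∈ Icc 1 (4 * (M * R)), hmrb a χ R M n * cj j n‖ ^ 2 ≤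
        800 * l * ((X : ℝ) ^ 2 / (P : ℝ) ^ 2) := by
      refine h2.trans ?_
      have h5 : 200 * (1 + Real.log N) ≤ 400 * l := by linarith
      have h6 : (T : ℝ) + N ≤ 2 * (X / P) := by
        have e1 : (T : ℝ) ≤ X / P := by rw [le_div_iff₀ hPpos]; exact hTX
        have e2 : N ≤ X / P := by rw [le_div_iff₀ hPpos]; exact hNP
        linarith
      have h7 : ∑ n ∈ Icc 1 (4 * (M * R)), ‖hmrb a χ R M n‖ ^ 2 ≤ X / P := by
        refine h3.trans ?_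
        rw [le_div_iff₀ hPpos]
        exact hNP
      calc 200 * (1 + Real.log N) * ((T : ℝ) + N) * ∑ n ∈ Icc 1 (4 * (M * R)), ‖hmrb a χ R M n‖ ^ 2
          ≤ (400 * l) * (2 * (X / P)) * (X / P) := by
            refine mul_le_mul (mul_le_mul h5 h6 (by linarith) (by positivity)) h7 (by positivity) (by positivity)
        _ = _ := by
            field_simp
            ring
    have h8 : δ ^ 2 * ((P : ℝ) ^ (1 - 1 / 500 : ℝ)) ^ 2 *
        ∑ j ∈ Ja, ‖∑ n ∈ Icc 1 (4 * (M * R)), hmrb a χ R M n * cj j n‖ ^ 2 ≤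
        δ ^ 2 * ((P : ℝ) ^ (1 - 1 / 500 : ℝ)) ^ 2 * (800 * l * ((X : ℝ) ^ 2 / (P : ℝ) ^ 2)) :=
      mul_le_mul_of_nonneg_left h4 (by positivity)
    refine h8.trans ?_
    -- P^(1/250)
    have h9 : l ^ (K + 3) ≤ (P : ℝ) ^ (1 / 250 : ℝ) := by
      have e1 : (l ^ (K + 3) : ℝ) = ((l ^ (250 * (K + 3)) : ℝ)) ^ (1 / 250 : ℝ) := by
        rw [mul_comm 250, pow_mul, ← Real.rpow_natCast (l ^ (K + 3)) 250, ← Real.rpow_mul (by positivity)]
        norm_num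
      rw [e1]
      exact Real.rpow_le_rpow (by positivity) hPl (by norm_num)
    have h10 : ((P : ℝ) ^ (1 - 1 / 500 : ℝ)) ^ 2 * (P : ℝ) ^ (1 / 250 : ℝ) = (P : ℝ) ^ 2 := by
      rw [← Real.rpow_natCast ((P : ℝ) ^ (1 - 1 / 500 : ℝ)) 2, ← Real.rpow_mul hPpos.le, ← Real.rpow_add hPpos,
        ← Real.rpow_natCast (P : ℝ) 2]
      norm_num
    have hQ : 0 < (P : ℝ) ^ (1 / 250 : ℝ) := Real.rpow_pos_of_pos hPpos _
    have h11 : δ ^ 2 * ((P : ℝ) ^ (1 - 1 / 500 : ℝ)) ^ 2 * (800 * l * ((X : ℝ) ^ 2 / (P : ℝ) ^ 2)) =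
        δ ^ 2 * (X : ℝ) ^ 2 * (800 * l / (P : ℝ) ^ (1 / 250 : ℝ)) := by
      have e2 : ((P : ℝ) ^ (1 - 1 / 500 : ℝ)) ^ 2 = (P : ℝ) ^ 2 / (P : ℝ) ^ (1 / 250 : ℝ) := by
        rw [eq_div_iff hQ.ne', h10]
      rw [e2]
      field_simp
    rw [h11]
    have h12 : 800 * l / (P : ℝ) ^ (1 / 250 : ℝ) ≤ 1 / 3 / l ^ K := by
      rw [div_le_div_iff₀ hQ (by positivity)]
      have e3 : l ^ (K + 3) = l ^ K * l * l ^ 2 := by
        rw [← pow_succ, ← pow_add]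
      have e4 : (2400 : ℝ) ≤ l ^ 2 := by
        have : (49 : ℝ) ^ 2 ≤ l ^ 2 := pow_le_pow_left₀ (by norm_num) hl49 2
        norm_num at this
        linarith
      have e5 : 0 ≤ l ^ K * l := by positivity
      have e6 : l ^ K * l * 2400 ≤ l ^ K * l * l ^ 2 := mul_le_mul_of_nonneg_left e4 e5
      rw [← e3] at e6
      calc 800 * l * l ^ K = 1 / 3 * (l ^ K * l * 2400) := by ring
        _ ≤ 1 / 3 * (P : ℝ) ^ (1 / 250 : ℝ) := mul_le_mul_of_nonneg_left (e6.trans h9) (by norm_num)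
    calc δ ^ 2 * (X : ℝ) ^ 2 * (800 * l / (P : ℝ) ^ (1 / 250 : ℝ)) ≤ δ ^ 2 * (X : ℝ) ^ 2 * (1 / 3 / l ^ K) :=
          mul_le_mul_of_nonneg_left h12 (by positivity)
      _ = _ := by ring
  -- part three
  have hpart3 : ∑ j ∈ Jb, kap δ j * ‖bc (bC S a R M) X χ j‖ ^ 2 ≤ 1 / 3 * (δ ^ 2 * (X : ℝ) ^ 2 / l ^ K) := by
    have hJbT : ∀ j ∈ Jb, |(j : ℝ)| ≤ T := fun j hj => not_lt.mp (mem_filter.mp (mem_filter.mp hj).1).2
    have hcard : (Jb.card : ℝ) ≤ (X : ℝ) ^ (1 / 100 : ℝ) := by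
      refine hcnt X hX1 P S ?_ hP.hP2 hP.hS T q χ hTXn Jb ?_
      · rw [← hl]
        have e1 : l ^ 400 * l ≤ l ^ c1 := by
          rw [← pow_succ]
          exact pow_le_pow_right₀ hl1 hc1a
        have e2 : 0 < l ^ 400 := by positivity
        have e3 : l ^ 400 * 2 ≤ l ^ 400 * l := mul_le_mul_of_nonneg_left (by linarith) e2.le
        linarith
      · intro j hj
        refine ⟨hJbT j hj, ?_⟩
        have e4 := not_le.mp (mem_filter.mp hj).2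
        rwa [hSs] at e4
    have h1 := hlr' Jb hq hqc hp4 hp5 hcard (fun j hj => by
      have hjT := hJbT j hj
      have h := hJ' j (mem_filter.mp (mem_filter.mp hj).1).1
      have e1 : l ^ c5 ≤ |(j : ℝ)| := (pow_le_pow_right₀ hl1 (le_max_left c5 C)).trans h
      have e2 : l ^ C ≤ |(j : ℝ)| := (pow_le_pow_right₀ hl1 (le_max_right c5 C)).trans h
      exact ⟨e1, hjT.trans hTX1, hquiet j e2 (hjT.trans hTX1)⟩)
    have hL1 : 1 ≤ Real.log (2 * R : ℕ) := by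
      have e1 : (Real.exp 1) ≤ ((2 * R : ℕ) : ℝ) := by
        have e2 : (2 : ℝ) ≤ R := by
          have e3 : (2 : ℝ) * P ≤ R := by exact_mod_cast hp3
          linarith
        have e4 := Real.exp_one_lt_d9
        push_cast
        linarith
      rw [Real.le_log_iff_exp_le (by
        have := Real.exp_pos 1
        linarith)]
      exact e1
    have h2 : ∑ j ∈ Jb, kap δ j * ‖bc (bC S a R M) X χ j‖ ^ 2 ≤
        ∑ j ∈ Jb, δ ^ 2 * ((P : ℝ) * M) ^ 2 * ‖RL χ R j‖ ^ 2 := by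
      refine sum_le_sum fun j hj => ?_
      rw [hfac0, norm_mul, mul_pow, mul_assoc (δ ^ 2)]
      refine mul_le_mul (hmr_kap_le δ j) ?_ (by positivity) (by positivity)
      have e2 : ‖RL χ R j / ((Real.log (2 * R : ℕ) : ℝ) : ℂ)‖ ≤ ‖RL χ R j‖ := by
        rw [norm_div, Complex.norm_real, Real.norm_eq_abs, abs_of_nonneg (by linarith)]
        exact div_le_self (norm_nonneg _) hL1
      have e3 : ‖Ss j‖ * ‖Am j * (RL χ R j / ((Real.log (2 * R : ℕ) : ℝ) : ℂ))‖ ≤ ((P : ℝ) * M) * ‖RL χ R j‖ := by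
        rw [norm_mul, mul_assoc]
        exact mul_le_mul (hSle j) (mul_le_mul (hAmle j) e2 (norm_nonneg _) hMpos.le) (by positivity) hPpos.le
      rw [← mul_pow, ← mul_pow]
      exact pow_le_pow_left₀ (by positivity) e3 2
    refine h2.trans ?_
    rw [← mul_sum]
    have h3 : δ ^ 2 * ((P : ℝ) * M) ^ 2 * ∑ j ∈ Jb, ‖RL χ R j‖ ^ 2 ≤ δ ^ 2 * ((P : ℝ) * M) ^ 2 * ((R : ℝ) ^ 2 / l ^ (K + 2)) :=
      mul_le_mul_of_nonneg_left h1 (by positivity)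
    refine h3.trans ?_
    have h4 : ((P : ℝ) * M * R) ^ 2 ≤ (X : ℝ) ^ 2 := by
      refine pow_le_pow_left₀ (by positivity) ?_ 2
      have : (0 : ℝ) ≤ (P : ℝ) * M * R := by positivity
      linarith
    have h5 : δ ^ 2 * ((P : ℝ) * M) ^ 2 * ((R : ℝ) ^ 2 / l ^ (K + 2)) =
        (1 / l ^ 2) * (δ ^ 2 * ((P : ℝ) * M * R) ^ 2 / l ^ K) := by
      rw [pow_add]
      field_simp
    rw [h5]
    have h6 : 1 / l ^ 2 ≤ 1 / 3 := by
      rw [div_le_div_iff₀ (by positivity) (by norm_num), one_mul, one_mul]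
      have : (49 : ℝ) ^ 2 ≤ l ^ 2 := pow_le_pow_left₀ (by norm_num) hl49 2
      norm_num at this
      linarith
    refine mul_le_mul h6 ?_ (by positivity) (by norm_num)
    exact div_le_div_of_nonneg_right (mul_le_mul_of_nonneg_left h4 (by positivity)) (by positivity)
  rw [hsplit]
  linarith


end hmr

end Pool.Agent.Lib.VKT
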