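import Pool.Agent.Lib.VK.BCore
import Pool.Agent.Lib.VK.HMr
import Pool.Agent.Lib.VK.SCore

/-!
# VK / HVb (H board): local mean square of the block function minus its model (adapt VK/SVb.lean over helper6's `coreH`, VK/BCore.lean)

PROOF. As vbS, with `coreH` (P^100 ≤ Z by parJ, windows between `P l^c6` and `P l^(c6+2)`), `mrJ`, `minGS`, `jsS`, `outS` of SCore.lean. `c1 ≥ max c0 (g + A + 20)`; `c6 := τ + w + 1` as in coreH, increase `c7` or `w`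
if needed for `c1 + 4g + 20 ≤ c6`: replace `c5` by `c5 + c1`-large `c7` (`c7 = c5 + c1 + 4 g + 22`: a larger `c7` is a weaker hypothesis).
-/

set_option autoImplicit false

open Finset

namespace Pool.Agent.Lib.VKT

open Pool.Agent.Lib.G3 (VV MG)

private theorem hvb_cop {n q : ℕ} {y : ℝ} (h : ∀ p : ℕ, p.Prime → p ∣ n → y < p) (hq : 1 ≤ q) (hqy : (q : ℝ) ≤ y) :
    Nat.Coprime n q := by
  refine Nat.Coprime.symm (Nat.coprime_of_dvd fun p hp hpq hpn => ?_)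
  have h4 := h p hp hpn
  have h5 : (p : ℝ) ≤ q := by exact_mod_cast Nat.le_of_dvd (by omega) hpq
  linarith

theorem vbJ (A c2 : ℕ) : ∃ g : ℕ, c2 ≤ g ∧ ∃ a5 : ℕ, ∀ c5 : ℕ, a5 ≤ c5 → ∃ a1 : ℕ, ∀ c1 : ℕ, a1 ≤ c1 → ∃ c6 : ℕ,
    c1 + 4 * g + 20 ≤ c6 ∧ ∃ x0 : ℝ, ∀ Z : ℕ, x0 ≤ Z → ∀ (P R M : ℕ) (S : Finset ℕ) (a : ℕ → ℝ), BlkJ Z P R M S a c1 →
      ∀ H : ℕ, (P : ℝ) * (Real.log Z) ^ c6 ≤ H → (H : ℝ) ≤ P * (Real.log Z) ^ (c6 + 2) → ∃ H' : ℕ, H ≤ H' ∧ H' ≤ 2 * H ∧ ∀ α : ℝ,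
        VV (fun n => bC S a R M n - MG (bC S a R M) Z ⌊(Real.log Z) ^ g⌋₊ (fun _ => Js Z c5) n) H' α (Z + H' + 1) ≤
          Z * (H' : ℝ) ^ 2 / (Real.log Z) ^ A := by
  obtain ⟨g, hgd⟩ : ∃ g, g = c2 + A + 10 := ⟨_, rfl⟩
  obtain ⟨K, hK⟩ : ∃ K, K = 2 * g + A + 8 := ⟨_, rfl⟩
  obtain ⟨c5m, c0, hmr⟩ := mrJ K g
  obtain ⟨C1, hC1, hmin⟩ := minGS
  refine ⟨g, by omega, c5m, fun c5 hc5 => ⟨max c0 (g + A + 20), fun c1 hc1 => ?_⟩⟩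
  have hc1a : c0 ≤ c1 := (le_max_left _ _).trans hc1
  have hc1b : g + A + 20 ≤ c1 := (le_max_right _ _).trans hc1
  obtain ⟨c7, hc7⟩ : ∃ c7, c7 = c5 + c1 + 4 * g + 22 := ⟨_, rfl⟩
  obtain ⟨c4, hc4⟩ : ∃ c4, c4 = c7 + A + 10 := ⟨_, rfl⟩
  obtain ⟨u, hu⟩ : ∃ u, u = 2 * g + c7 + A + 10 := ⟨_, rfl⟩
  obtain ⟨c3, hc3⟩ : ∃ c3, c3 = u + 5 * g + 2 * c7 + A + 20 := ⟨_, rfl⟩
  obtain ⟨s, hs⟩ : ∃ s, s = 2 * g + c7 + 6 := ⟨_, rfl⟩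
  obtain ⟨τ, hτ⟩ : ∃ τ, τ = c3 + s + A + 10 := ⟨_, rfl⟩
  obtain ⟨w, hw⟩ : ∃ w, w = (c7 + c4 + K + A + 31) + u + 6 * g + 2 * c7 + A + c5 + c4 + K + 60 := ⟨_, rfl⟩
  obtain ⟨c6, hc6⟩ : ∃ c6, c6 = τ + w + 1 := ⟨_, rfl⟩
  obtain ⟨x1, hcore⟩ := coreH hC1 A g c5 K c7 c4 u c3 s τ w c6 (by omega) hK hc4 hu hc3 hs hτ hw hc6
  obtain ⟨x2, hmrX⟩ := hmr c1 hc1a
  obtain ⟨x4, -, hpar⟩ := parJ c1
  obtain ⟨x5, hx5, hgr⟩ := G3.grow 2 0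
  refine ⟨c6, by omega, max (max x1 x2) (max x4 x5), fun Z hZ P R M S a hB H hH1 hH2 => ?_⟩
  simp only [max_le_iff] at hZ
  obtain ⟨⟨hX1, hX2⟩, hX4, hX5⟩ := hZ
  obtain ⟨hPn, -, -, hMR, -, -, hLR, hP100⟩ := hpar Z P R M S a hX4 hB
  have hl2 := (hgr Z hX5).1
  have hl1 : 1 ≤ Real.log Z := by linarith
  have hl0 : 0 < Real.log Z := by linarith
  have hpc : 0 < (Real.log Z) ^ c1 := by positivity
  have hyP := hB.hP1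
  have hyR : (Real.log Z) ^ c1 / 2 ≤ R := by linarith
  have hqy : ∀ q : ℕ, (q : ℝ) ≤ (Real.log Z) ^ g → (q : ℝ) ≤ (Real.log Z) ^ c1 / 2 := by
    intro q hq
    refine hq.trans ?_
    rw [le_div_iff₀ (by norm_num)]
    calc (Real.log Z) ^ g * 2 ≤ (Real.log Z) ^ g * Real.log Z := by gcongr
      _ = (Real.log Z) ^ (g + 1) := (pow_succ _ _).symm
      _ ≤ (Real.log Z) ^ c1 := pow_le_pow_right₀ hl1 (by omega)
  obtain ⟨hJ1, hJ2⟩ := jsS Z c5 hl2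
  have hJ3 : 1 + ((Js Z c5).card : ℝ) ≤ (Real.log Z) ^ c7 := hJ2.trans (pow_le_pow_right₀ hl1 (by omega))
  have hAP : (Real.log Z) ^ (A + 10) ≤ P := by
    refine le_trans ?_ hyP
    rw [le_div_iff₀ (by norm_num)]
    calc (Real.log Z) ^ (A + 10) * 2 ≤ (Real.log Z) ^ (A + 10) * Real.log Z := by gcongr
      _ = (Real.log Z) ^ (A + 11) := (pow_succ _ _).symm
      _ ≤ (Real.log Z) ^ c1 := pow_le_pow_right₀ hl1 (by omega)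
  obtain ⟨H', hHa, hHb, hmain⟩ := hcore Z hX1 P hAP hP100 H hH1 hH2
  refine ⟨H', hHa, hHb, fun α => ?_⟩
  refine hmain (bC S a R M) (Js Z c5) ?_ ?_ ?_ ?_ hJ1 hJ3 ?_ α
  · intro n
    rw [bC, Complex.norm_real, Real.norm_eq_abs]
    exact hB.hb n
  · intro n hn
    obtain ⟨h1, h2⟩ := bs_supp hB.hS hB.hM1 hn
    have h3 := hB.hR1
    have h4 := hB.hR2
    constructor
    · omega
    · omega
  · intro n hn q hq hqL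
    exact hvb_cop (bs_rough hB.hS hyP hyR hB.ham hn) hq (hqy q hqL)
  · intro q H'' a0 α' hH'' hq hco hα
    refine hmin P (4 * (M * R)) H'' q Z (bC S a R M) a0 α' _ (bs_bil hB.hS hB.ha hMR hB.hM1) ?_ hPn hH'' hq hco hα
    have h1 : P * (4 * (M * R)) = 4 * (P * M * R) := by ring
    have h3 := hB.hR1
    omega
  · intro q T δ hq hqL hδ hδ1 hδX hT1 hT2 χ J' hJ'
    exact hmrX Z hX2 P R M T δ S a hB hδ hδ1 hδX hT1 hT2 q χ J' hq hqL fun j hj => outS hl1 hc5 (hJ' j hj)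

end Pool.Agent.Lib.VKT
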