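import Pool.Agent.Lib.VK.Hd

/-!
# VK P2, Ha: the `2s`-th power of an exponential sum

`‖w‖^(2s) = w^s * conj(w)^s` (`Complex.mul_conj`, `Complex.normSq_eq_norm_sq`), `w^s = ∏ over Fin s` and
`Finset.prod_univ_sum : ∏ i, ∑ j ∈ t i, f i j = ∑ p ∈ Fintype.piFinset t, ∏ i, f i (p i)`; `conj (ei x) = ei (-x)`;
the product of the `ei` is the `ei` of the sum (`ei_add`, or `Complex.exp_sum`); `Finset.sum_product`,
`Finset.sum_mul_sum`.
-/

set_option autoImplicit false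

namespace Pool.Agent.Lib.VK

open Finset

private theorem ha_conj (x : ℝ) : (starRingEnd ℂ) (ei x) = ei (-x) := by
  unfold ei
  rw [← Complex.exp_conj]
  congr 1
  rw [map_mul, Complex.conj_I, Complex.conj_ofReal]
  push_cast
  ring

private theorem ha_sum {ι : Type} (t : Finset ι) (f : ι → ℝ) : ei (∑ i ∈ t, f i) = ∏ i ∈ t, ei (f i) := by
  classical
  induction t using Finset.induction_on with
  | empty => simp [ei_zero]
  | insert a t ha ih => rw [sum_insert ha, prod_insert ha, ei_add, ih]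

private theorem ha_pow (M s : ℕ) (φ : ℤ → ℝ) :
    (∑ x ∈ Icc (1 : ℤ) M, ei (φ x)) ^ s =
      ∑ p ∈ Fintype.piFinset (fun _ : Fin s => Icc (1 : ℤ) M), ei (∑ i, φ (p i)) := by
  have h1 : (∑ x ∈ Icc (1 : ℤ) M, ei (φ x)) ^ s = ∏ _i : Fin s, ∑ x ∈ Icc (1 : ℤ) M, ei (φ x) := by
    rw [prod_const, card_univ, Fintype.card_fin]
  rw [h1, Finset.prod_univ_sum]
  refine sum_congr rfl fun p _ => ?_
  rw [ha_sum]

theorem pow_ei (M s : ℕ) (φ : ℤ → ℝ) :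
    ((‖∑ x ∈ Icc (1 : ℤ) M, ei (φ x)‖ ^ (2 * s) : ℝ) : ℂ) =
      ∑ z ∈ pr2 s M, ei (∑ i, φ (z.1 i) - ∑ i, φ (z.2 i)) := by
  have h1 : ((‖∑ x ∈ Icc (1 : ℤ) M, ei (φ x)‖ ^ (2 * s) : ℝ) : ℂ) =
      (∑ x ∈ Icc (1 : ℤ) M, ei (φ x)) ^ s * ((starRingEnd ℂ) (∑ x ∈ Icc (1 : ℤ) M, ei (φ x))) ^ s := by
    rw [← mul_pow, Complex.mul_conj, Complex.normSq_eq_norm_sq, pow_mul]
    push_cast
    rfl
  have h2 : (starRingEnd ℂ) (∑ x ∈ Icc (1 : ℤ) M, ei (φ x)) = ∑ x ∈ Icc (1 : ℤ) M, ei (-φ x) := by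
    rw [map_sum]
    exact sum_congr rfl fun x _ => ha_conj _
  rw [h1, h2, ha_pow, ha_pow, sum_mul_sum]
  unfold pr2
  rw [sum_product]
  refine sum_congr rfl fun p _ => sum_congr rfl fun p' _ => ?_
  rw [← ei_add]
  congr 1
  rw [sum_neg_distrib]
  ring

end Pool.Agent.Lib.VK
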