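import Pool.Agent.Lib.VK.Hd

/-!
# VK P2, Hb: grouping by the difference

`dif_mem`: `1 ≤ z i ≤ M`, so `0 ≤ z i ^ (j+1) ≤ M ^ (j+1)` and the difference of two sums of `s` such numbers has absolute
value at most `s M ^ (j+1)`.
`sum_dif`: `Finset.sum_fiberwise_of_maps_to` (all differences lie in the box), every fibre has `rep` elements
(`Finset.sum_const` after `Finset.sum_congr`).  `sum_rep`: the same for `Finset.card_eq_sum_card_fiberwise`, and
`(pr2 s M).card = (M ^ s)^2`.
-/

set_option autoImplicit false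

namespace Pool.Agent.Lib.VK

open Finset

private theorem hb_sum (s k M : ℕ) (x : Fin s → ℤ) (hx : ∀ i, 1 ≤ x i ∧ x i ≤ M) (j : Fin k) :
    0 ≤ (∑ i, pw k (x i)) j ∧ (∑ i, pw k (x i)) j ≤ ((s * M ^ ((j : ℕ) + 1) : ℕ) : ℤ) := by
  rw [Finset.sum_apply]
  constructor
  · refine Finset.sum_nonneg (fun i _ => ?_)
    have h := (hx i).1
    exact pow_nonneg (by omega) _
  · calc ∑ i, pw k (x i) j ≤ ∑ _i : Fin s, (M : ℤ) ^ ((j : ℕ) + 1) := by
          refine sum_le_sum (fun i _ => ?_)
          have h := (hx i).1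
          exact pow_le_pow_left₀ (by omega) (hx i).2 _
      _ = _ := by
          rw [sum_const, card_univ, Fintype.card_fin, nsmul_eq_mul]
          push_cast
          ring

theorem dif_mem (s k M : ℕ) : ∀ z ∈ pr2 s M, dif k z ∈ bx s k M := by
  intro z hz
  unfold pr2 at hz
  rw [mem_product, Fintype.mem_piFinset, Fintype.mem_piFinset] at hz
  unfold bx
  rw [Fintype.mem_piFinset]
  intro j
  have h1 := hb_sum s k M z.1 (fun i => mem_Icc.1 (hz.1 i)) j
  have h2 := hb_sum s k M z.2 (fun i => mem_Icc.1 (hz.2 i)) j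
  have h3 : dif k z j = (∑ i, pw k (z.1 i)) j - (∑ i, pw k (z.2 i)) j := rfl
  rw [mem_Icc, h3]
  omega

theorem sum_dif (s k M : ℕ) (g : (Fin k → ℤ) → ℂ) :
    ∑ z ∈ pr2 s M, g (dif k z) = ∑ v ∈ bx s k M, (rep s k M v : ℂ) * g v := by
  rw [← Finset.sum_fiberwise_of_maps_to (dif_mem s k M)]
  refine sum_congr rfl (fun v _ => ?_)
  have h : ∀ z ∈ (pr2 s M).filter (fun z => dif k z = v), g (dif k z) = g v := by
    intro z hz
    rw [(mem_filter.1 hz).2]
  rw [sum_congr rfl h, sum_const, nsmul_eq_mul]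
  rfl

theorem sum_rep (s k M : ℕ) : ∑ v ∈ bx s k M, rep s k M v = M ^ (2 * s) := by
  have h := Finset.card_eq_sum_card_fiberwise (f := dif k) (s := pr2 s M) (t := bx s k M)
    (fun z hz => dif_mem s k M z hz)
  have h2 : (pr2 s M).card = M ^ (2 * s) := by
    unfold pr2
    rw [card_product, Fintype.card_piFinset, prod_const, card_univ, Fintype.card_fin,
      Int.card_Icc]
    have e : ((M : ℤ) + 1 - 1).toNat = M := by omega
    rw [e, two_mul, pow_add]
  rw [← h2, h]
  rfl

end Pool.Agent.Lib.VK
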