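import Pool.Agent.Lib.VK.Hd
import Pool.Agent.Lib.VK.Hb
import Pool.Agent.Lib.VK.H2

/-!
# VK P2, Hc: `rep v ≤ J`

Shortest: `dif k z = v` iff `∑ pw (z.1 i) = ∑ pw (z.2 i) + v`; this is `h2` of VK/H2.lean (P1).  Direct proof:

Let `P = Fintype.piFinset (fun _ : Fin s => Icc 1 M)`, `σ y = ∑ i, pw k (y i)` and `ρ w` = the number of `y ∈ P` with
`σ y = w`.  Then `rep v = #{(y, y') : σ y = σ y' + v} = ∑ w ∈ S, ρ (w + v) ρ w`, `S` = the image of `σ` on `P`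
(for fixed `y'` count the `y`), which is at most `∑ w ∈ S, (ρ (w + v)^2 + ρ w^2) / 2 ≤ ∑ w ∈ S, ρ w ^ 2`
(the numbers `w + v` are different and `ρ = 0` outside `S`) `= #{(y, y') : σ y = σ y'} = J s k M`.
(Work with `2 * rep v ≤ 2 * J`, or by `Finset.sum_mul_sq_le_sq_mul_sq`.)

`sum_rep_sq`: `∑ rep v ^ 2 ≤ J * ∑ rep v` and `sum_rep`.
-/

set_option autoImplicit false

namespace Pool.Agent.Lib.VK

open Finset

theorem rep_le (s k M : ℕ) (v : Fin k → ℤ) : rep s k M v ≤ J s k M := by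
  refine le_trans (Finset.card_le_card ?_) (h2 k (Icc (1 : ℤ) M) (pw k) s v)
  intro z hz
  rw [Finset.mem_filter] at hz ⊢
  exact ⟨hz.1, sub_eq_iff_eq_add'.1 hz.2⟩

theorem sum_rep_sq (s k M : ℕ) :
    ∑ v ∈ bx s k M, rep s k M v ^ 2 ≤ M ^ (2 * s) * J s k M := by
  rw [← sum_rep s k M, Finset.sum_mul]
  refine Finset.sum_le_sum fun v _ => ?_
  rw [sq]
  exact Nat.mul_le_mul_left _ (rep_le s k M v)

end Pool.Agent.Lib.VK
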