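import Pool.Agent.Lib.VK.Vc
import Pool.Agent.Lib.DN.Defs

/-!
# VK, part P2: definitions

The sums `∑ x y ≤ M, e^(i (α_1 x y + .. + α_k x^k y^k))` and the quantities of the two Hoelder steps.
-/

set_option autoImplicit false

namespace Pool.Agent.Lib.VK

open Finset

/-- `e^(i x)` -/
noncomputable def ei (x : ℝ) : ℂ := Complex.exp (Complex.I * x)

/-- pairs of `s`-tuples of integers in `[1, M]` -/
noncomputable def pr2 (s M : ℕ) : Finset ((Fin s → ℤ) × (Fin s → ℤ)) :=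
  (Fintype.piFinset fun _ : Fin s => Icc (1 : ℤ) M) ×ˢ (Fintype.piFinset fun _ : Fin s => Icc (1 : ℤ) M)

/-- the difference of the vectors of power sums -/
def dif (k : ℕ) {s : ℕ} (z : (Fin s → ℤ) × (Fin s → ℤ)) : Fin k → ℤ :=
  ∑ i, pw k (z.1 i) - ∑ i, pw k (z.2 i)

/-- number of representations of `v` as a difference -/
noncomputable def rep (s k M : ℕ) (v : Fin k → ℤ) : ℕ := ((pr2 s M).filter (fun z => dif k z = v)).card

/-- a box which contains all differences -/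
noncomputable def bx (s k M : ℕ) : Finset (Fin k → ℤ) :=
  Fintype.piFinset fun j : Fin k =>
    Icc (-((s * M ^ ((j : ℕ) + 1) : ℕ) : ℤ)) ((s * M ^ ((j : ℕ) + 1) : ℕ) : ℤ)

/-- the sum over `x` -/
noncomputable def UU (k M : ℕ) (α : Fin k → ℝ) (v : Fin k → ℤ) : ℂ :=
  ∑ x ∈ Icc (1 : ℤ) M, ei (∑ j, α j * (v j : ℝ) * (x : ℝ) ^ ((j : ℕ) + 1))

/-- the double sum -/
noncomputable def TT (k M : ℕ) (α : Fin k → ℝ) : ℂ :=
  ∑ x ∈ Icc (1 : ℤ) M, ∑ y ∈ Icc (1 : ℤ) M,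
    ei (∑ j, α j * (y : ℝ) ^ ((j : ℕ) + 1) * (x : ℝ) ^ ((j : ℕ) + 1))

/-- the sum over `|m| ≤ L` of the absolute values of the sums over `|l| ≤ L` of `e^(i β m l)` -/
noncomputable def WW (β : ℝ) (L : ℕ) : ℝ :=
  ∑ m ∈ Icc (-(L : ℤ)) L, ‖∑ l ∈ Icc (-(L : ℤ)) L, ei (β * m * l)‖

theorem norm_ei (x : ℝ) : ‖ei x‖ = 1 := by
  unfold ei
  rw [mul_comm, Complex.norm_exp_ofReal_mul_I]

theorem ei_add (x y : ℝ) : ei (x + y) = ei x * ei y := by
  unfold ei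
  rw [← Complex.exp_add]
  congr 1
  push_cast
  ring

theorem ei_zero : ei 0 = 1 := by
  unfold ei
  simp

end Pool.Agent.Lib.VK
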