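import Pool.Agent.Lib.VK.Hd
import Pool.Agent.Lib.VK.Ha
import Pool.Agent.Lib.VK.Hb

/-!
# VK P2, Hf: the first Hoelder step

`‖TT‖ ≤ ∑ x, ‖V x‖`, `V x = ∑ y, ei (∑ j, α j y^(j+1) x^(j+1))`, so `‖TT‖^(2s) ≤ M^(2s-1) ∑ x, ‖V x‖^(2s)` (power mean:
`inner_le_nnorm_mul_nnorm` / `Finset.inner_mul_le_norm_mul_norm` is not needed, use
`Finset.pow_sum_div_card_le_sum_pow` or `Real.pow_arith_mean_le_arith_mean_pow`; the name in Mathlib: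
`inner_le...`, search `pow_arith_mean`).  By `pow_ei` with `φ y = ∑ j, α j y^(j+1) x^(j+1)` and `sum_dif`:
`‖V x‖^(2s) = ∑ z ∈ pr2, ei (∑ j, α j (dif k z) j x^(j+1)) = ∑ v ∈ bx, rep v * ei (∑ j, α j v j x^(j+1))`.
Sum over `x`, interchange: the real number `∑ x, ‖V x‖^(2s)` is `∑ v, rep v * UU v`, so it is at most
`∑ v, rep v * ‖UU v‖`.
-/

set_option autoImplicit false

namespace Pool.Agent.Lib.VK

open Finset

theorem hoelder_one (s k M : ℕ) (α : Fin k → ℝ) (hs : 1 ≤ s) :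
    ‖TT k M α‖ ^ (2 * s) ≤
      (M : ℝ) ^ (2 * s - 1) * ∑ v ∈ bx s k M, (rep s k M v : ℝ) * ‖UU k M α v‖ := by
  have hnn : (0 : ℝ) ≤ ∑ v ∈ bx s k M, (rep s k M v : ℝ) * ‖UU k M α v‖ :=
    sum_nonneg fun v _ => mul_nonneg (Nat.cast_nonneg _) (norm_nonneg _)
  set V : ℤ → ℂ := fun x => ∑ y ∈ Icc (1 : ℤ) M,
    ei (∑ j, α j * (y : ℝ) ^ ((j : ℕ) + 1) * (x : ℝ) ^ ((j : ℕ) + 1)) with hV
  have hTT : ‖TT k M α‖ ≤ ∑ x ∈ Icc (1 : ℤ) M, ‖V x‖ := norm_sum_le _ _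
  have hcard : (Icc (1 : ℤ) M).card = M := by
    rw [Int.card_Icc]
    omega
  rcases Nat.eq_zero_or_pos M with hM | hM
  · subst hM
    have h0 : TT k 0 α = 0 := by
      unfold TT
      rw [Finset.sum_eq_zero]
      intro x hx
      simp at hx
    rw [h0, norm_zero, zero_pow (by omega)]
    exact mul_nonneg (pow_nonneg (Nat.cast_nonneg _) _) hnn
  have hM' : (0 : ℝ) < M := by exact_mod_cast hM
  have hpm : (∑ x ∈ Icc (1 : ℤ) M, ‖V x‖) ^ (2 * s) ≤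
      (M : ℝ) ^ (2 * s - 1) * ∑ x ∈ Icc (1 : ℤ) M, ‖V x‖ ^ (2 * s) := by
    have h1 := pow_sum_div_card_le_sum_pow (s := Icc (1 : ℤ) M) (f := fun x => ‖V x‖)
      (fun x _ => norm_nonneg _) (2 * s - 1)
    rw [hcard, show 2 * s - 1 + 1 = 2 * s by omega, div_le_iff₀ (pow_pos hM' _)] at h1
    linarith
  have hVx : ∀ x : ℤ, ((‖V x‖ ^ (2 * s) : ℝ) : ℂ) = ∑ v ∈ bx s k M, (rep s k M v : ℂ) *
      ei (∑ j, α j * (v j : ℝ) * (x : ℝ) ^ ((j : ℕ) + 1)) := by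
    intro x
    have h1 := pow_ei M s (fun y : ℤ => ∑ j, α j * (y : ℝ) ^ ((j : ℕ) + 1) *
      (x : ℝ) ^ ((j : ℕ) + 1))
    rw [← sum_dif s k M (fun v => ei (∑ j, α j * (v j : ℝ) * (x : ℝ) ^ ((j : ℕ) + 1)))]
    refine h1.trans (sum_congr rfl fun z _ => ?_)
    congr 1
    rw [sum_comm, sum_comm (s := univ) (t := univ)
      (f := fun (i : Fin s) (j : Fin k) => α j * ((z.2 i : ℤ) : ℝ) ^ ((j : ℕ) + 1) *
        (x : ℝ) ^ ((j : ℕ) + 1)), ← sum_sub_distrib]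
    refine sum_congr rfl fun j _ => ?_
    have h2 : ((dif k z j : ℤ) : ℝ) = ∑ i, ((z.1 i : ℤ) : ℝ) ^ ((j : ℕ) + 1) -
        ∑ i, ((z.2 i : ℤ) : ℝ) ^ ((j : ℕ) + 1) := by
      simp only [dif, Pi.sub_apply, Finset.sum_apply, pw]
      push_cast
      rfl
    rw [h2, ← sum_mul, ← sum_mul, ← mul_sum, ← mul_sum]
    ring
  have hsum : ∑ x ∈ Icc (1 : ℤ) M, ‖V x‖ ^ (2 * s) ≤
      ∑ v ∈ bx s k M, (rep s k M v : ℝ) * ‖UU k M α v‖ := by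
    have h1 : ((∑ x ∈ Icc (1 : ℤ) M, ‖V x‖ ^ (2 * s) : ℝ) : ℂ) =
        ∑ v ∈ bx s k M, (rep s k M v : ℂ) * UU k M α v := by
      rw [Complex.ofReal_sum, sum_congr rfl fun x _ => hVx x, sum_comm]
      refine sum_congr rfl fun v _ => ?_
      rw [← mul_sum]
      rfl
    have h2 : (∑ x ∈ Icc (1 : ℤ) M, ‖V x‖ ^ (2 * s) : ℝ) =
        ‖((∑ x ∈ Icc (1 : ℤ) M, ‖V x‖ ^ (2 * s) : ℝ) : ℂ)‖ := by
      rw [Complex.norm_real, Real.norm_of_nonneg]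
      exact sum_nonneg fun x _ => pow_nonneg (norm_nonneg _) _
    rw [h2, h1]
    refine (norm_sum_le _ _).trans (sum_le_sum fun v _ => ?_)
    rw [norm_mul, Complex.norm_natCast]
  calc ‖TT k M α‖ ^ (2 * s) ≤ (∑ x ∈ Icc (1 : ℤ) M, ‖V x‖) ^ (2 * s) :=
        pow_le_pow_left₀ (norm_nonneg _) hTT _
    _ ≤ (M : ℝ) ^ (2 * s - 1) * ∑ x ∈ Icc (1 : ℤ) M, ‖V x‖ ^ (2 * s) := hpm
    _ ≤ _ := mul_le_mul_of_nonneg_left hsum (pow_nonneg hM'.le _)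

end Pool.Agent.Lib.VK
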