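import Mathlib

/-!
# VK P2, Hg: the second Hoelder inequality

`(∑ r u)^s ≤ (∑ r)^(s-1) ∑ r u^s` (weighted power mean, `Real.pow_arith_mean_le_arith_mean_pow` with the weights
`r / ∑ r`; if `∑ r = 0` then all `r i = 0` and both sides vanish, `s ≥ 1`), and
`(∑ r u^s)^2 ≤ (∑ r^2) (∑ u^(2s))` (`Finset.sum_mul_sq_le_sq_mul_sq`).
-/

set_option autoImplicit false

namespace Pool.Agent.Lib.VK

open Finset

theorem hoelder_two {ι : Type*} (A : Finset ι) (r u : ι → ℝ) (hr : ∀ i ∈ A, 0 ≤ r i)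
    (hu : ∀ i ∈ A, 0 ≤ u i) (s : ℕ) (hs : 1 ≤ s) :
    (∑ i ∈ A, r i * u i) ^ (2 * s) ≤
      (∑ i ∈ A, r i) ^ (2 * s - 2) * (∑ i ∈ A, r i ^ 2) * ∑ i ∈ A, u i ^ (2 * s) := by
  obtain ⟨t, rfl⟩ : ∃ t, s = t + 1 := ⟨s - 1, by omega⟩
  have hW0 : 0 ≤ ∑ i ∈ A, r i := Finset.sum_nonneg hr
  have hru : 0 ≤ ∑ i ∈ A, r i * u i := Finset.sum_nonneg fun i hi => mul_nonneg (hr i hi) (hu i hi)
  have hrus : 0 ≤ ∑ i ∈ A, r i * u i ^ (t + 1) :=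
    Finset.sum_nonneg fun i hi => mul_nonneg (hr i hi) (pow_nonneg (hu i hi) _)
  have h1 : (∑ i ∈ A, r i * u i) ^ (t + 1) ≤
      (∑ i ∈ A, r i) ^ t * ∑ i ∈ A, r i * u i ^ (t + 1) := by
    rcases hW0.eq_or_lt with h0 | h0
    · have hz : ∀ i ∈ A, r i = 0 := (Finset.sum_eq_zero_iff_of_nonneg hr).1 h0.symm
      have : ∑ i ∈ A, r i * u i = 0 := Finset.sum_eq_zero fun i hi => by rw [hz i hi, zero_mul]
      rw [this, zero_pow (by omega)]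
      positivity
    · have h2 := Real.pow_arith_mean_le_arith_mean_pow A (fun i => r i / ∑ i ∈ A, r i) u
        (fun i hi => div_nonneg (hr i hi) h0.le)
        (by rw [← Finset.sum_div]; exact div_self h0.ne') hu (t + 1)
      have e1 : ∑ i ∈ A, (r i / ∑ i ∈ A, r i) * u i = (∑ i ∈ A, r i * u i) / ∑ i ∈ A, r i := by
        rw [Finset.sum_div]
        exact Finset.sum_congr rfl fun i _ => by ring
      have e2 : ∑ i ∈ A, (r i / ∑ i ∈ A, r i) * u i ^ (t + 1) =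
          (∑ i ∈ A, r i * u i ^ (t + 1)) / ∑ i ∈ A, r i := by
        rw [Finset.sum_div]
        exact Finset.sum_congr rfl fun i _ => by ring
      rw [e1, e2, div_pow, div_le_div_iff₀ (pow_pos h0 _) h0] at h2
      have h3 : (∑ i ∈ A, r i * u i) ^ (t + 1) * (∑ i ∈ A, r i) ≤
          ((∑ i ∈ A, r i) ^ t * ∑ i ∈ A, r i * u i ^ (t + 1)) * (∑ i ∈ A, r i) := by
        calc _ ≤ (∑ i ∈ A, r i * u i ^ (t + 1)) * (∑ i ∈ A, r i) ^ (t + 1) := h2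
          _ = _ := by ring
      exact le_of_mul_le_mul_right h3 h0
  have h4 : (∑ i ∈ A, r i * u i ^ (t + 1)) ^ 2 ≤
      (∑ i ∈ A, r i ^ 2) * ∑ i ∈ A, (u i ^ (t + 1)) ^ 2 :=
    Finset.sum_mul_sq_le_sq_mul_sq A r fun i => u i ^ (t + 1)
  have e3 : ∑ i ∈ A, (u i ^ (t + 1)) ^ 2 = ∑ i ∈ A, u i ^ (2 * (t + 1)) :=
    Finset.sum_congr rfl fun i _ => by rw [← pow_mul, mul_comm (t + 1) 2]
  rw [e3] at h4
  have e4 : 2 * (t + 1) - 2 = t * 2 := by omega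
  rw [e4]
  calc (∑ i ∈ A, r i * u i) ^ (2 * (t + 1)) = ((∑ i ∈ A, r i * u i) ^ (t + 1)) ^ 2 := by
        rw [← pow_mul, mul_comm (t + 1) 2]
    _ ≤ ((∑ i ∈ A, r i) ^ t * ∑ i ∈ A, r i * u i ^ (t + 1)) ^ 2 :=
        pow_le_pow_left₀ (pow_nonneg hru _) h1 2
    _ = (∑ i ∈ A, r i) ^ (t * 2) * (∑ i ∈ A, r i * u i ^ (t + 1)) ^ 2 := by
        rw [mul_pow, ← pow_mul]
    _ ≤ (∑ i ∈ A, r i) ^ (t * 2) * ((∑ i ∈ A, r i ^ 2) * ∑ i ∈ A, u i ^ (2 * (t + 1))) :=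
        mul_le_mul_of_nonneg_left h4 (pow_nonneg hW0 _)
    _ = _ := by ring

end Pool.Agent.Lib.VK
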