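import Pool.Agent.Lib.VK.Hd
import Pool.Agent.Lib.VK.Ha
import Pool.Agent.Lib.VK.Hb
import Pool.Agent.Lib.VK.Hc

/-!
# VK P2, Hh: the mean value of `UU` over the box

By `pow_ei` with `φ x = ∑ j, α j v j x^(j+1)` and `sum_dif`:
`‖UU v‖^(2s) = ∑ w ∈ bx, rep w * ei (∑ j, α j v j w j)`.  Sum over `v ∈ bx`, interchange, and
`∑ v ∈ bx, ei (∑ j, α j v j w j) = ∏ j, ∑ l ∈ Icc (-L j) (L j), ei (α j * w j * l)` (`Finset.prod_univ_sum`, `L j = s M^(j+1)`).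
Its norm is `∏ j, ‖..‖`; use `rep w ≤ J` (`rep_le`) and once more `Finset.prod_univ_sum`:
`∑ w ∈ bx, ∏ j, ‖∑ l, ei (α j * w j * l)‖ = ∏ j, WW (α j) (L j)`.
-/

set_option autoImplicit false

namespace Pool.Agent.Lib.VK

open Finset

private theorem hh_ei_sum {ι : Type} [Fintype ι] (f : ι → ℝ) : ei (∑ j, f j) = ∏ j, ei (f j) := by
  unfold ei
  rw [← Complex.exp_sum]
  congr 1
  push_cast
  rw [Finset.mul_sum]

private theorem hh_pow (s k M : ℕ) (α : Fin k → ℝ) (v : Fin k → ℤ) :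
    ((‖UU k M α v‖ ^ (2 * s) : ℝ) : ℂ) = ∑ w ∈ bx s k M, (rep s k M w : ℂ) *
      ei (∑ j, α j * (w j : ℝ) * (v j : ℝ)) := by
  unfold UU
  rw [pow_ei M s (fun x => ∑ j, α j * (v j : ℝ) * (x : ℝ) ^ ((j : ℕ) + 1)),
    ← sum_dif s k M (fun w => ei (∑ j, α j * (w j : ℝ) * (v j : ℝ)))]
  refine Finset.sum_congr rfl fun z _ => ?_
  congr 1
  have e : ∀ y : Fin s → ℤ, ∑ i, ∑ j, α j * (v j : ℝ) * ((y i : ℤ) : ℝ) ^ ((j : ℕ) + 1) =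
      ∑ j, α j * (v j : ℝ) * ∑ i, ((y i : ℤ) : ℝ) ^ ((j : ℕ) + 1) := by
    intro y
    rw [Finset.sum_comm]
    refine Finset.sum_congr rfl fun j _ => ?_
    rw [Finset.mul_sum]
  rw [e, e, ← Finset.sum_sub_distrib]
  refine Finset.sum_congr rfl fun j _ => ?_
  have e2 : ((dif k z j : ℤ) : ℝ) = ∑ i, ((z.1 i : ℤ) : ℝ) ^ ((j : ℕ) + 1) -
      ∑ i, ((z.2 i : ℤ) : ℝ) ^ ((j : ℕ) + 1) := by
    unfold dif
    rw [Pi.sub_apply, Finset.sum_apply, Finset.sum_apply]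
    simp only [pw]
    push_cast
    rfl
  rw [e2]
  ring

theorem sum_UU (s k M : ℕ) (α : Fin k → ℝ) :
    ∑ v ∈ bx s k M, ‖UU k M α v‖ ^ (2 * s) ≤
      (J s k M : ℝ) * ∏ j : Fin k, WW (α j) (s * M ^ ((j : ℕ) + 1)) := by
  have hbox : ∀ w : Fin k → ℤ, ∑ v ∈ bx s k M, ei (∑ j, α j * (w j : ℝ) * (v j : ℝ)) =
      ∏ j : Fin k, ∑ l ∈ Icc (-((s * M ^ ((j : ℕ) + 1) : ℕ) : ℤ)) ((s * M ^ ((j : ℕ) + 1) : ℕ) : ℤ),
        ei (α j * (w j : ℝ) * (l : ℝ)) := by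
    intro w
    rw [Finset.prod_univ_sum]
    unfold bx
    refine Finset.sum_congr rfl fun v _ => ?_
    rw [hh_ei_sum]
  have h1 : ((∑ v ∈ bx s k M, ‖UU k M α v‖ ^ (2 * s) : ℝ) : ℂ) =
      ∑ w ∈ bx s k M, (rep s k M w : ℂ) *
        ∏ j : Fin k, ∑ l ∈ Icc (-((s * M ^ ((j : ℕ) + 1) : ℕ) : ℤ))
          ((s * M ^ ((j : ℕ) + 1) : ℕ) : ℤ), ei (α j * (w j : ℝ) * (l : ℝ)) := by
    rw [Complex.ofReal_sum, Finset.sum_congr rfl (fun v _ => hh_pow s k M α v), Finset.sum_comm]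
    refine Finset.sum_congr rfl fun w _ => ?_
    rw [← Finset.mul_sum, hbox]
  have h2 : ∑ v ∈ bx s k M, ‖UU k M α v‖ ^ (2 * s) =
      ‖((∑ v ∈ bx s k M, ‖UU k M α v‖ ^ (2 * s) : ℝ) : ℂ)‖ := by
    rw [Complex.norm_real, Real.norm_of_nonneg (Finset.sum_nonneg fun v _ => by positivity)]
  have h3 : ∏ j : Fin k, WW (α j) (s * M ^ ((j : ℕ) + 1)) =
      ∑ w ∈ bx s k M, ∏ j : Fin k, ‖∑ l ∈ Icc (-((s * M ^ ((j : ℕ) + 1) : ℕ) : ℤ))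
          ((s * M ^ ((j : ℕ) + 1) : ℕ) : ℤ), ei (α j * (w j : ℝ) * (l : ℝ))‖ := by
    unfold WW bx
    rw [Finset.prod_univ_sum]
  rw [h2, h1, h3, Finset.mul_sum]
  refine (norm_sum_le _ _).trans (Finset.sum_le_sum fun w _ => ?_)
  rw [norm_mul, norm_prod, Complex.norm_natCast]
  refine mul_le_mul_of_nonneg_right ?_ (Finset.prod_nonneg fun j _ => norm_nonneg _)
  exact_mod_cast rep_le s k M w

end Pool.Agent.Lib.VK
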