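import Pool.Agent.Lib.VK.Hd
import Pool.Agent.Lib.VK.Hb
import Pool.Agent.Lib.VK.Hc
import Pool.Agent.Lib.VK.Hf
import Pool.Agent.Lib.VK.Hg
import Pool.Agent.Lib.VK.Hh

/-!
# VK P2, Hi: the two Hoelder steps together

`‖TT‖^(4 s^2) = (‖TT‖^(2s))^(2s) ≤ M^((2s-1) 2s) (∑ rep ‖UU‖)^(2s)` (`hoelder_one`)
`≤ M^((2s-1) 2s) (∑ rep)^(2s-2) (∑ rep^2) (∑ ‖UU‖^(2s))` (`hoelder_two`)
`≤ M^((2s-1) 2s) M^(2s (2s-2)) (M^(2s) J) (J ∏ WW)` (`sum_rep`, `sum_rep_sq`, `sum_UU`), and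
`(2s-1) 2s + 2s (2s-2) + 2s = 8 s^2 - 4 s`.
-/

set_option autoImplicit false

namespace Pool.Agent.Lib.VK

open Finset

theorem TT_pow (s k M : ℕ) (α : Fin k → ℝ) (hs : 1 ≤ s) :
    ‖TT k M α‖ ^ (4 * s ^ 2) ≤ (M : ℝ) ^ (8 * s ^ 2 - 4 * s) * (J s k M : ℝ) ^ 2 *
      ∏ j : Fin k, WW (α j) (s * M ^ ((j : ℕ) + 1)) := by
  obtain ⟨t, rfl⟩ : ∃ t, s = t + 1 := ⟨s - 1, by omega⟩
  have h1 := hoelder_one (t + 1) k M α hs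
  have h2 := hoelder_two (bx (t + 1) k M) (fun v => (rep (t + 1) k M v : ℝ))
    (fun v => ‖UU k M α v‖) (fun _ _ => Nat.cast_nonneg _) (fun _ _ => norm_nonneg _) (t + 1) hs
  have h3 : ∑ v ∈ bx (t + 1) k M, (rep (t + 1) k M v : ℝ) = (M : ℝ) ^ (2 * (t + 1)) := by
    exact_mod_cast sum_rep (t + 1) k M
  have h4 : ∑ v ∈ bx (t + 1) k M, (rep (t + 1) k M v : ℝ) ^ 2 ≤
      (M : ℝ) ^ (2 * (t + 1)) * (J (t + 1) k M : ℝ) := by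
    exact_mod_cast sum_rep_sq (t + 1) k M
  have h5 := sum_UU (t + 1) k M α
  have hM : (0 : ℝ) ≤ (M : ℝ) := Nat.cast_nonneg _
  have hJ : (0 : ℝ) ≤ (J (t + 1) k M : ℝ) := Nat.cast_nonneg _
  have hW : (0 : ℝ) ≤ ∏ j : Fin k, WW (α j) ((t + 1) * M ^ ((j : ℕ) + 1)) :=
    Finset.prod_nonneg fun j _ => Finset.sum_nonneg fun _ _ => norm_nonneg _
  have hS0 : (0 : ℝ) ≤ ∑ v ∈ bx (t + 1) k M, (rep (t + 1) k M v : ℝ) * ‖UU k M α v‖ :=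
    Finset.sum_nonneg fun v _ => mul_nonneg (Nat.cast_nonneg _) (norm_nonneg _)
  have hU0 : (0 : ℝ) ≤ ∑ v ∈ bx (t + 1) k M, ‖UU k M α v‖ ^ (2 * (t + 1)) :=
    Finset.sum_nonneg fun v _ => pow_nonneg (norm_nonneg _) _
  have hR0 : (0 : ℝ) ≤ ∑ v ∈ bx (t + 1) k M, (rep (t + 1) k M v : ℝ) ^ 2 :=
    Finset.sum_nonneg fun v _ => pow_nonneg (Nat.cast_nonneg _) _
  have e1 : 2 * (t + 1) - 1 = 2 * t + 1 := by omega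
  have e2 : 2 * (t + 1) - 2 = 2 * t := by omega
  have e3 : 8 * (t + 1) ^ 2 - 4 * (t + 1) =
      (2 * t + 1) * (2 * (t + 1)) + 2 * (t + 1) * (2 * t) + 2 * (t + 1) := by
    have : 8 * (t + 1) ^ 2 =
        ((2 * t + 1) * (2 * (t + 1)) + 2 * (t + 1) * (2 * t) + 2 * (t + 1)) + 4 * (t + 1) := by
      ring
    omega
  have e4 : 4 * (t + 1) ^ 2 = 2 * (t + 1) * (2 * (t + 1)) := by ring
  rw [e1] at h1
  rw [e2] at h2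
  rw [e3, e4, pow_mul ‖TT k M α‖]
  have h6 : (∑ v ∈ bx (t + 1) k M, (rep (t + 1) k M v : ℝ) * ‖UU k M α v‖) ^ (2 * (t + 1)) ≤
      ((M : ℝ) ^ (2 * (t + 1))) ^ (2 * t) * ((M : ℝ) ^ (2 * (t + 1)) * (J (t + 1) k M : ℝ)) *
        ((J (t + 1) k M : ℝ) * ∏ j : Fin k, WW (α j) ((t + 1) * M ^ ((j : ℕ) + 1))) := by
    refine h2.trans ?_
    rw [h3]
    exact mul_le_mul (mul_le_mul_of_nonneg_left h4 (by positivity)) h5 hU0 (by positivity)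
  calc (‖TT k M α‖ ^ (2 * (t + 1))) ^ (2 * (t + 1)) ≤
        ((M : ℝ) ^ (2 * t + 1) *
          ∑ v ∈ bx (t + 1) k M, (rep (t + 1) k M v : ℝ) * ‖UU k M α v‖) ^ (2 * (t + 1)) :=
        pow_le_pow_left₀ (pow_nonneg (norm_nonneg _) _) h1 _
    _ = ((M : ℝ) ^ (2 * t + 1)) ^ (2 * (t + 1)) *
          (∑ v ∈ bx (t + 1) k M, (rep (t + 1) k M v : ℝ) * ‖UU k M α v‖) ^ (2 * (t + 1)) :=
        mul_pow _ _ _
    _ ≤ ((M : ℝ) ^ (2 * t + 1)) ^ (2 * (t + 1)) *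
          (((M : ℝ) ^ (2 * (t + 1))) ^ (2 * t) * ((M : ℝ) ^ (2 * (t + 1)) * (J (t + 1) k M : ℝ)) *
            ((J (t + 1) k M : ℝ) * ∏ j : Fin k, WW (α j) ((t + 1) * M ^ ((j : ℕ) + 1)))) :=
        mul_le_mul_of_nonneg_left h6 (by positivity)
    _ = _ := by
        rw [pow_add (M : ℝ) ((2 * t + 1) * (2 * (t + 1)) + 2 * (t + 1) * (2 * t)) (2 * (t + 1)),
          pow_add (M : ℝ) ((2 * t + 1) * (2 * (t + 1))) (2 * (t + 1) * (2 * t)),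
          pow_mul (M : ℝ) (2 * t + 1) (2 * (t + 1)), pow_mul (M : ℝ) (2 * (t + 1)) (2 * t)]
        generalize ((M : ℝ) ^ (2 * t + 1)) ^ (2 * (t + 1)) = a
        generalize ((M : ℝ) ^ (2 * (t + 1))) ^ (2 * t) = b
        generalize (M : ℝ) ^ (2 * (t + 1)) = c
        ring

end Pool.Agent.Lib.VK
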