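import Pool.Agent.Lib.VK.Hd

/-!
# VK P2, Hk: geometric sums

`WW_triv`: every inner sum has `2L+1` terms of norm 1 and there are `2L+1` of them.
`geom_ei`: `∑ l ∈ Icc (-L) L, ei (θ l) * (ei θ - 1) = ei (θ (L+1)) - ei (-θ L)` (telescoping, induction on `L`, or shift to
`range (2L+1)` and `geom_sum_mul`), so the norm is at most `2 / ‖ei θ - 1‖`, and `‖ei θ - 1‖ = 2 |sin (θ/2)| ≥ 2 |θ| / π` for
`|θ| ≤ π` (`Real.mul_le_sin : 0 ≤ x → x ≤ π/2 → 2/π * x ≤ sin x`; `Complex.norm_exp_I_mul_ofReal_sub_one`).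
-/

set_option autoImplicit false

namespace Pool.Agent.Lib.VK

open Finset

theorem WW_nonneg (β : ℝ) (L : ℕ) : 0 ≤ WW β L := by
  unfold WW
  exact sum_nonneg fun _ _ => norm_nonneg _

private theorem hk_card (L : ℕ) : (((Icc (-(L : ℤ)) L).card : ℕ) : ℝ) = 2 * L + 1 := by
  rw [Int.card_Icc]
  have : ((L : ℤ) + 1 - -(L : ℤ)).toNat = 2 * L + 1 := by omega
  rw [this]
  push_cast
  ring

theorem WW_triv (β : ℝ) (L : ℕ) : WW β L ≤ (2 * (L : ℝ) + 1) ^ 2 := by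
  unfold WW
  have h1 : ∀ m ∈ Icc (-(L : ℤ)) L, ‖∑ l ∈ Icc (-(L : ℤ)) L, ei (β * m * l)‖ ≤ 2 * (L : ℝ) + 1 := by
    intro m _
    calc ‖∑ l ∈ Icc (-(L : ℤ)) L, ei (β * m * l)‖ ≤ ∑ l ∈ Icc (-(L : ℤ)) L, ‖ei (β * m * l)‖ :=
          norm_sum_le _ _
      _ = ∑ _l ∈ Icc (-(L : ℤ)) L, (1 : ℝ) := sum_congr rfl fun l _ => norm_ei _
      _ = 2 * (L : ℝ) + 1 := by rw [sum_const, nsmul_eq_mul, mul_one, hk_card]
  calc ∑ m ∈ Icc (-(L : ℤ)) L, ‖∑ l ∈ Icc (-(L : ℤ)) L, ei (β * m * l)‖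
      ≤ ∑ _m ∈ Icc (-(L : ℤ)) L, (2 * (L : ℝ) + 1) := sum_le_sum h1
    _ = (2 * (L : ℝ) + 1) ^ 2 := by rw [sum_const, nsmul_eq_mul, hk_card]; ring

theorem geom_ei (θ : ℝ) (L : ℕ) (h0 : θ ≠ 0) (h1 : |θ| ≤ Real.pi) :
    ‖∑ l ∈ Icc (-(L : ℤ)) L, ei (θ * l)‖ ≤ Real.pi / |θ| := by
  set S : ℂ := ∑ l ∈ Icc (-(L : ℤ)) L, ei (θ * l) with hS
  have hS2 : S = ∑ j ∈ range (2 * L + 1), ei (θ * (-(L : ℝ) + j)) := by
    rw [hS, Int.Icc_eq_finset_map, sum_map]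
    have : ((L : ℤ) + 1 - -(L : ℤ)).toNat = 2 * L + 1 := by omega
    rw [this]
    refine sum_congr rfl fun j _ => ?_
    congr 1
    simp
  have htel : S * (ei θ - 1) = ei (θ * (-(L : ℝ) + (2 * L + 1 : ℕ))) - ei (θ * (-(L : ℝ) + (0 : ℕ))) := by
    rw [hS2, sum_mul, ← sum_range_sub (fun j : ℕ => ei (θ * (-(L : ℝ) + j))) (2 * L + 1)]
    refine sum_congr rfl fun j _ => ?_
    have h2 : θ * (-(L : ℝ) + ((j + 1 : ℕ) : ℝ)) = θ * (-(L : ℝ) + j) + θ := by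
      push_cast
      ring
    rw [h2, ei_add]
    ring
  have hnorm : ‖S‖ * ‖ei θ - 1‖ ≤ 2 := by
    rw [← norm_mul, htel]
    refine le_trans (norm_sub_le _ _) ?_
    rw [norm_ei, norm_ei]
    norm_num
  have hlow : 2 * |θ| / Real.pi ≤ ‖ei θ - 1‖ := by
    unfold ei
    rw [Complex.norm_exp_I_mul_ofReal_sub_one]
    have h3 : |θ / 2| ≤ Real.pi / 2 := by
      rw [abs_div, abs_two]
      linarith
    have h4 := Real.mul_abs_le_abs_sin h3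
    rw [norm_mul, Real.norm_eq_abs, Real.norm_eq_abs, abs_two]
    have h5 : 2 * |θ| / Real.pi = 2 * (2 / Real.pi * |θ / 2|) := by
      rw [abs_div, abs_two]
      ring
    rw [h5]
    linarith
  have hpos : 0 < |θ| := abs_pos.mpr h0
  have hpi := Real.pi_pos
  rw [le_div_iff₀ hpos]
  have h6 : ‖S‖ * (2 * |θ| / Real.pi) ≤ 2 :=
    le_trans (mul_le_mul_of_nonneg_left hlow (norm_nonneg _)) hnorm
  have h7 : ‖S‖ * (2 * |θ| / Real.pi) = 2 * (‖S‖ * |θ|) / Real.pi := by ring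
  rw [h7, div_le_iff₀ hpi] at h6
  linarith

end Pool.Agent.Lib.VK
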