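import Pool.Agent.Lib.VK.Hd
import Pool.Agent.Lib.VK.Hk

/-!
# VK P2, Hl: no wraparound

The term `m = 0` is `2L+1`; the terms `m` and `-m`, `1 ≤ m ≤ L`, are at most `π / (|β| m)` (`geom_ei` with
`θ = β m`, `|θ| ≤ |β| L ≤ π`), and `∑ m ∈ Icc 1 L, 1/m ≤ 1 + log L` (`harmonic_le_one_add_log`).
-/

set_option autoImplicit false

namespace Pool.Agent.Lib.VK

open Finset

private theorem hl_split (L : ℕ) (f : ℤ → ℝ) :
    ∑ m ∈ Icc (-(L : ℤ)) L, f m = f 0 + ∑ i ∈ range L, (f ((i : ℤ) + 1) + f (-((i : ℤ) + 1))) := by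
  induction L with
  | zero => simp
  | succ L ih =>
    have h1 : Icc (-((L + 1 : ℕ) : ℤ)) ((L + 1 : ℕ) : ℤ) =
        insert ((L : ℤ) + 1) (insert (-((L : ℤ) + 1)) (Icc (-(L : ℤ)) L)) := by
      ext x
      simp only [mem_Icc, mem_insert]
      push_cast
      omega
    rw [h1, sum_insert, sum_insert, ih, sum_range_succ]
    · ring
    · simp only [mem_Icc]
      omega
    · simp only [mem_insert, mem_Icc]
      omega

theorem WW_le (β : ℝ) (L : ℕ) (h0 : β ≠ 0) (hL : 1 ≤ L) (h1 : |β| * L ≤ Real.pi) :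
    WW β L ≤ (2 * (L : ℝ) + 1) + 2 * Real.pi / |β| * (1 + Real.log L) := by
  have hβ : 0 < |β| := abs_pos.2 h0
  unfold WW
  rw [hl_split L (fun m => ‖∑ l ∈ Icc (-(L : ℤ)) L, ei (β * m * l)‖)]
  have hzero : ‖∑ l ∈ Icc (-(L : ℤ)) L, ei (β * ((0 : ℤ) : ℝ) * l)‖ ≤ 2 * (L : ℝ) + 1 := by
    refine (norm_sum_le _ _).trans ?_
    simp only [norm_ei, sum_const, nsmul_eq_mul, mul_one, Int.card_Icc]
    have : ((L : ℤ) + 1 - -(L : ℤ)).toNat = 2 * L + 1 := by omega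
    rw [this]
    push_cast
    exact le_rfl
  have hterm : ∀ i ∈ range L, ∀ ε : ℝ, |ε| = 1 →
      ‖∑ l ∈ Icc (-(L : ℤ)) L, ei (β * (ε * ((i : ℝ) + 1)) * l)‖ ≤
        Real.pi / |β| * (((i : ℝ) + 1)⁻¹) := by
    intro i hi ε hε
    have hi' : (0 : ℝ) < (i : ℝ) + 1 := by positivity
    have habs : |β * (ε * ((i : ℝ) + 1))| = |β| * ((i : ℝ) + 1) := by
      rw [abs_mul, abs_mul, hε, one_mul, abs_of_pos hi']
    have hle : (i : ℝ) + 1 ≤ L := by
      have := mem_range.1 hi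
      exact_mod_cast this
    have h2 := geom_ei (β * (ε * ((i : ℝ) + 1))) L (by
        intro h
        rw [h, abs_zero] at habs
        have : 0 < |β| * ((i : ℝ) + 1) := mul_pos hβ hi'
        linarith) (by
        rw [habs]
        exact (mul_le_mul_of_nonneg_left hle hβ.le).trans h1)
    refine h2.trans (le_of_eq ?_)
    rw [habs]
    field_simp
  have hharm : ∑ i ∈ range L, ((i : ℝ) + 1)⁻¹ ≤ 1 + Real.log L := by
    have := harmonic_le_one_add_log L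
    rw [harmonic] at this
    push_cast at this
    exact this
  have hsum : ∑ i ∈ range L, (‖∑ l ∈ Icc (-(L : ℤ)) L, ei (β * (((i : ℤ) + 1 : ℤ) : ℝ) * l)‖ +
      ‖∑ l ∈ Icc (-(L : ℤ)) L, ei (β * ((-((i : ℤ) + 1) : ℤ) : ℝ) * l)‖) ≤
      ∑ i ∈ range L, 2 * Real.pi / |β| * (((i : ℝ) + 1)⁻¹) := by
    refine sum_le_sum fun i hi => ?_
    have h3 := hterm i hi 1 (by simp)
    have h4 := hterm i hi (-1) (by simp)
    have e1 : (((i : ℤ) + 1 : ℤ) : ℝ) = 1 * ((i : ℝ) + 1) := by push_cast; ring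
    have e2 : ((-((i : ℤ) + 1) : ℤ) : ℝ) = -1 * ((i : ℝ) + 1) := by push_cast; ring
    rw [e1, e2]
    refine (add_le_add h3 h4).trans (le_of_eq ?_)
    ring
  rw [← mul_sum] at hsum
  refine add_le_add hzero (hsum.trans ?_)
  exact mul_le_mul_of_nonneg_left hharm (by positivity)

end Pool.Agent.Lib.VK
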