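import Pool.Agent.Lib.VK.Hd
import Pool.Agent.Lib.VK.Hl

/-!
# VK P2, Hm: the saving for one degree `j` between `3k/4` and `7(k-1)/8`

`s = 7 k^2`, `L = s M^j`, `|β| = t / (j ν^j)`; `k ≥ 40` and `M ≥ exp (k^4)` (so `M` is larger than `48^k`, `k^10`, ...).
`|β| L = t s M^j / (j ν^j) ≤ s 4^k M^(2k + j - 4j) ≤ s 4^k M^(-k/4) ≤ 1` since `ν ≥ M^4`, `t ≤ 4^k M^(2k)`, `4j ≥ 3k`.
So `WW ≤ 3 L + 2π/|β| (1 + log L)` by `WW_le`.
(i) `3 L ≤ 4.5 L^2 M^(-k/8)` since `L ≥ M^(3k/4)`.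
(ii) `2π/|β| (1 + log L) ≤ 4.5 L^2 M^(-k/8)`: `1/(|β| L^2) = j ν^j / (t s^2 M^(2j)) ≤ (j/s^2) 48^k M^(4j - 2j - 2(k-1))
≤ (j/s^2) 48^k M^(-(k-1)/4)` since `ν ≤ 48 M^4`, `t ≥ M^(2(k-1))`, `8j ≤ 7(k-1)`; `1 + log L ≤ 2 k log M`, `log M ≤ M`,
`48^k ≤ M` and `(k-1)/4 - k/8 ≥ 4`.
-/

set_option autoImplicit false

namespace Pool.Agent.Lib.VK

open Finset

/-- `48^k ≤ x`, `4^k 7 k^2 ≤ x` and `log (7 k^2) ≤ log x` for `x ≥ exp (k^4)` -/
private theorem hm_num (k : ℕ) (x : ℝ) (hk : 40 ≤ k) (hx : Real.exp ((k : ℝ) ^ 4) ≤ x) :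
    (48 : ℝ) ^ k ≤ x ∧ (4 : ℝ) ^ k * (7 * (k : ℝ) ^ 2) ≤ x ∧ 7 * (k : ℝ) ^ 2 ≤ x := by
  have hkr : (40 : ℝ) ≤ (k : ℝ) := by exact_mod_cast hk
  have e1 : (2 : ℝ) ≤ Real.exp 1 := by
    have := Real.add_one_le_exp (1 : ℝ)
    linarith
  have e4 : (4 : ℝ) ≤ Real.exp 2 := by
    have h : Real.exp 2 = Real.exp 1 * Real.exp 1 := by rw [← Real.exp_add]; norm_num
    rw [h]; nlinarith
  have e64 : (48 : ℝ) ≤ Real.exp 6 := by
    have h : Real.exp 6 = Real.exp 2 * Real.exp 2 * Real.exp 2 := by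
      rw [← Real.exp_add, ← Real.exp_add]; norm_num
    rw [h]
    have h2 : (16 : ℝ) ≤ Real.exp 2 * Real.exp 2 := by nlinarith
    nlinarith
  have hk4 : 40 * 40 * 40 * (k : ℝ) ≤ (k : ℝ) ^ 4 := by
    have h1 : (k : ℝ) ^ 4 = (k * k * k) * (k : ℝ) := by ring
    rw [h1]
    have h2 : (40 : ℝ) * 40 ≤ (k : ℝ) * k := by nlinarith
    have h3 : (40 : ℝ) * 40 * 40 ≤ (k : ℝ) * k * k := by nlinarith
    exact mul_le_mul_of_nonneg_right h3 (by linarith)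
  have a1 : (48 : ℝ) ^ k ≤ Real.exp (6 * k) := by
    rw [mul_comm, Real.exp_nat_mul]
    exact pow_le_pow_left₀ (by norm_num) e64 k
  have a2 : (4 : ℝ) ^ k ≤ Real.exp (2 * k) := by
    rw [mul_comm, Real.exp_nat_mul]
    exact pow_le_pow_left₀ (by norm_num) e4 k
  have a3 : 7 * (k : ℝ) ^ 2 ≤ Real.exp (4 * k) := by
    have h1 : (k : ℝ) + 1 ≤ Real.exp k := Real.add_one_le_exp _
    have h2 : Real.exp (4 * k) = Real.exp k * Real.exp k * (Real.exp k * Real.exp k) := by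
      rw [← Real.exp_add, ← Real.exp_add]; ring_nf
    rw [h2]
    have h3 : (k : ℝ) * k ≤ Real.exp k * Real.exp k :=
      mul_le_mul (by linarith) (by linarith) (by linarith) (by positivity)
    have h4 : (7 : ℝ) ≤ Real.exp k * Real.exp k := by nlinarith
    have h5 : (k : ℝ) ^ 2 * 7 ≤ Real.exp k * Real.exp k * (Real.exp k * Real.exp k) := by
      rw [pow_two]
      exact mul_le_mul h3 h4 (by norm_num) (by positivity)
    linarith
  refine ⟨a1.trans (le_trans (Real.exp_le_exp.2 (by linarith)) hx), ?_,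
    a3.trans (le_trans (Real.exp_le_exp.2 (by linarith)) hx)⟩
  calc (4 : ℝ) ^ k * (7 * (k : ℝ) ^ 2) ≤ Real.exp (2 * k) * Real.exp (4 * k) :=
        mul_le_mul a2 a3 (by positivity) (by positivity)
    _ = Real.exp (6 * k) := by rw [← Real.exp_add]; ring_nf
    _ ≤ Real.exp ((k : ℝ) ^ 4) := Real.exp_le_exp.2 (by linarith)
    _ ≤ x := hx

theorem WW_mid (k M j : ℕ) (t ν β : ℝ) (hk : 40 ≤ k) (hM : Real.exp ((k : ℝ) ^ 4) ≤ M)
    (ht1 : (M : ℝ) ^ (2 * (k - 1)) ≤ t) (ht2 : t ≤ 4 ^ k * (M : ℝ) ^ (2 * k))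
    (hν1 : (M : ℝ) ^ 4 ≤ ν) (hν2 : ν ≤ 48 * (M : ℝ) ^ 4) (hj1 : 3 * k ≤ 4 * j)
    (hj2 : 8 * j ≤ 7 * (k - 1)) (hβ : |β| = t / (j * ν ^ j)) :
    WW β (7 * k ^ 2 * M ^ j) ≤
      (9 * (7 * (k : ℝ) ^ 2) ^ 2) * (M : ℝ) ^ (2 * j) * (M : ℝ) ^ (-((k : ℝ) / 8)) := by
  obtain ⟨n48, n4, n7⟩ := hm_num k (M : ℝ) hk hM
  have hkr : (40 : ℝ) ≤ (k : ℝ) := by exact_mod_cast hk
  have hjk : j ≤ k - 1 := by omega
  have hj30 : 30 ≤ j := by omega
  have hjr : (30 : ℝ) ≤ (j : ℝ) := by exact_mod_cast hj30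
  have hjkr : (j : ℝ) ≤ (k : ℝ) - 1 := by
    have h : j + 1 ≤ k := by omega
    have h' : ((j + 1 : ℕ) : ℝ) ≤ k := by exact_mod_cast h
    push_cast at h'
    linarith
  obtain ⟨x, hx⟩ : ∃ x : ℝ, x = (M : ℝ) := ⟨_, rfl⟩
  rw [← hx] at hM ht1 ht2 hν1 hν2 n48 n4 n7 ⊢
  have hexp : (k : ℝ) ^ 4 + 1 ≤ Real.exp ((k : ℝ) ^ 4) := Real.add_one_le_exp _
  have hk40 : (40 : ℝ) ≤ (k : ℝ) ^ 4 := by
    have : (k : ℝ) ^ 1 ≤ (k : ℝ) ^ 4 := pow_le_pow_right₀ (by linarith) (by norm_num)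
    rw [pow_one] at this
    linarith
  have hx1 : (1 : ℝ) ≤ x := by linarith
  have hx0 : (0 : ℝ) < x := by linarith
  have hlx : (k : ℝ) ^ 4 ≤ Real.log x := by
    rw [Real.le_log_iff_exp_le hx0]
    exact hM
  have hlx1 : (1 : ℝ) ≤ Real.log x := by linarith
  have hlxx : Real.log x ≤ x := by
    have := Real.log_le_sub_one_of_pos hx0
    linarith
  have hν0 : 0 < ν := lt_of_lt_of_le (pow_pos hx0 4) hν1
  have ht0 : 0 < t := lt_of_lt_of_le (pow_pos hx0 _) ht1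
  have hνj : 0 < ν ^ j := pow_pos hν0 j
  have hj0 : (0 : ℝ) < (j : ℝ) := by linarith
  have hβ0 : 0 < |β| := by
    rw [hβ]
    positivity
  have hβ1 : β ≠ 0 := abs_pos.1 hβ0
  have hcast : ((7 * k ^ 2 * M ^ j : ℕ) : ℝ) = 7 * (k : ℝ) ^ 2 * x ^ j := by
    rw [hx]
    push_cast
    ring
  obtain ⟨s, hs⟩ : ∃ s : ℝ, s = 7 * (k : ℝ) ^ 2 := ⟨_, rfl⟩
  rw [← hs] at hcast n4 n7 ⊢
  have hs1 : (1 : ℝ) ≤ s := by
    rw [hs]
    nlinarith
  have hxj : (1 : ℝ) ≤ x ^ j := one_le_pow₀ hx1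
  have hL1r : (1 : ℝ) ≤ s * x ^ j := by nlinarith
  have hL1 : 1 ≤ 7 * k ^ 2 * M ^ j := by
    have : ((1 : ℕ) : ℝ) ≤ ((7 * k ^ 2 * M ^ j : ℕ) : ℝ) := by
      rw [hcast]
      simpa using hL1r
    exact_mod_cast this
  -- no wraparound
  have hwrap : |β| * ((7 * k ^ 2 * M ^ j : ℕ) : ℝ) ≤ Real.pi := by
    rw [hcast, hβ]
    have h1 : t / (j * ν ^ j) * (s * x ^ j) ≤ 1 := by
      rw [div_mul_eq_mul_div, div_le_one (by positivity)]
      have h2 : t * (s * x ^ j) ≤ (4 ^ k * x ^ (2 * k)) * (s * x ^ j) :=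
        mul_le_mul_of_nonneg_right ht2 (by positivity)
      have h3 : (x ^ 4) ^ j ≤ ν ^ j := pow_le_pow_left₀ (by positivity) hν1 j
      have h4 : (4 ^ k * x ^ (2 * k)) * (s * x ^ j) = (4 ^ k * s) * x ^ (2 * k + j) := by
        rw [pow_add]; ring
      have h5 : (4 ^ k * s) * x ^ (2 * k + j) ≤ x * x ^ (2 * k + j) :=
        mul_le_mul_of_nonneg_right n4 (by positivity)
      have h6 : x * x ^ (2 * k + j) = x ^ (2 * k + j + 1) := by rw [pow_succ]; ring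
      have h7 : x ^ (2 * k + j + 1) ≤ x ^ (4 * j) := pow_le_pow_right₀ hx1 (by omega)
      have h8 : x ^ (4 * j) = (x ^ 4) ^ j := by rw [pow_mul]
      have h9 : (x ^ 4) ^ j ≤ j * ν ^ j := by nlinarith
      linarith
    linarith [Real.pi_gt_three]
  refine (WW_le β _ hβ1 hL1 hwrap).trans ?_
  rw [hcast]
  -- the factor M^(-k/8)
  obtain ⟨E, hE⟩ : ∃ E : ℝ, E = x ^ (-((k : ℝ) / 8)) := ⟨_, rfl⟩
  rw [← hE]
  have hE0 : 0 < E := by rw [hE]; exact Real.rpow_pos_of_pos hx0 _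
  have F1 : 1 ≤ x ^ j * E := by
    rw [hE, ← Real.rpow_natCast x j, ← Real.rpow_add hx0]
    refine Real.one_le_rpow hx1 ?_
    have h : ((3 * k : ℕ) : ℝ) ≤ ((4 * j : ℕ) : ℝ) := by exact_mod_cast hj1
    push_cast at h
    linarith
  have F2 : x ^ 4 * x ^ (2 * j) ≤ x ^ (2 * (k - 1)) * E := by
    rw [hE, ← pow_add, ← Real.rpow_natCast x (4 + 2 * j), ← Real.rpow_natCast x (2 * (k - 1)),
      ← Real.rpow_add hx0]
    refine Real.rpow_le_rpow_of_exponent_le hx1 ?_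
    have h : ((8 * j : ℕ) : ℝ) ≤ ((7 * (k - 1) : ℕ) : ℝ) := by exact_mod_cast hj2
    have h' : ((k - 1 : ℕ) : ℝ) = (k : ℝ) - 1 := by
      rw [Nat.cast_sub (by omega)]
      simp
    push_cast at h ⊢
    rw [h'] at h ⊢
    linarith
  -- first part
  have P1 : 2 * (s * x ^ j) + 1 ≤ 4.5 * (s ^ 2 * x ^ (2 * j) * E) := by
    have h1 : 2 * (s * x ^ j) + 1 ≤ 3 * (s * x ^ j) := by linarith
    have h2 : s ^ 2 * x ^ (2 * j) * E = (s * x ^ j) * (s * (x ^ j * E)) := by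
      rw [two_mul, pow_add]; ring
    rw [h2]
    have h3 : 1 ≤ s * (x ^ j * E) := by nlinarith
    have h4 : s * x ^ j ≤ (s * x ^ j) * (s * (x ^ j * E)) := by nlinarith
    linarith
  -- the logarithm
  have hlog : 1 + Real.log (s * x ^ j) ≤ 2 * k * x := by
    have h1 : Real.log (s * x ^ j) = Real.log s + j * Real.log x := by
      rw [Real.log_mul (by linarith) (by positivity), Real.log_pow]
    have h2 : Real.log s ≤ Real.log x := Real.log_le_log (by linarith) n7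
    have h3 : (j : ℝ) * Real.log x ≤ (k - 1) * Real.log x :=
      mul_le_mul_of_nonneg_right hjkr (by linarith)
    have h4 : 1 + Real.log (s * x ^ j) ≤ 2 * k * Real.log x := by
      rw [h1]
      nlinarith
    have h5 : 2 * (k : ℝ) * Real.log x ≤ 2 * k * x :=
      mul_le_mul_of_nonneg_left hlxx (by linarith)
    linarith
  have hlog0 : 0 ≤ 1 + Real.log (s * x ^ j) := by
    have := Real.log_nonneg hL1r
    linarith
  -- second part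
  have P2 : 2 * Real.pi / |β| * (1 + Real.log (s * x ^ j)) ≤ 4.5 * (s ^ 2 * x ^ (2 * j) * E) := by
    have hinv : 2 * Real.pi / |β| = 2 * Real.pi * (j * ν ^ j) / t := by
      rw [hβ]
      field_simp
    rw [hinv, div_mul_eq_mul_div, div_le_iff₀ ht0]
    have h1 : ν ^ j ≤ x * (x ^ 4) ^ j := by
      have a : ν ^ j ≤ (48 * x ^ 4) ^ j := pow_le_pow_left₀ hν0.le hν2 j
      rw [mul_pow] at a
      have b : (48 : ℝ) ^ j ≤ 48 ^ k := pow_le_pow_right₀ (by norm_num) (by omega)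
      have c : (48 : ℝ) ^ j * (x ^ 4) ^ j ≤ x * (x ^ 4) ^ j :=
        mul_le_mul_of_nonneg_right (b.trans n48) (by positivity)
      exact a.trans c
    have hpi : 2 * Real.pi ≤ 7 := by linarith [Real.pi_lt_d2]
    have h2 : 2 * Real.pi * (j * ν ^ j) * (1 + Real.log (s * x ^ j)) ≤
        7 * (k * (x * (x ^ 4) ^ j)) * (2 * k * x) := by
      refine mul_le_mul (mul_le_mul hpi (mul_le_mul (by linarith) h1 hνj.le (by linarith))
        (by positivity) (by norm_num)) hlog hlog0 (by positivity)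
    have h3 : 7 * (k * (x * (x ^ 4) ^ j)) * (2 * k * x) =
        (14 * (k : ℝ) ^ 2) * (x ^ 2 * x ^ (4 * j)) := by
      rw [← pow_mul]; ring
    have h4 : 14 * (k : ℝ) ^ 2 ≤ 4.5 * s ^ 2 := by
      have : 14 * (k : ℝ) ^ 2 = 2 * s := by rw [hs]; ring
      rw [this]
      nlinarith
    have h5 : x ^ 2 * x ^ (4 * j) ≤ x ^ (2 * j) * (x ^ (2 * (k - 1)) * E) := by
      have a : x ^ 2 ≤ x ^ 4 := pow_le_pow_right₀ hx1 (by norm_num)
      have b : x ^ (4 * j) = x ^ (2 * j) * x ^ (2 * j) := by rw [← pow_add]; ring_nf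
      rw [b]
      calc x ^ 2 * (x ^ (2 * j) * x ^ (2 * j)) ≤ x ^ 4 * (x ^ (2 * j) * x ^ (2 * j)) :=
            mul_le_mul_of_nonneg_right a (by positivity)
        _ = x ^ (2 * j) * (x ^ 4 * x ^ (2 * j)) := by ring
        _ ≤ x ^ (2 * j) * (x ^ (2 * (k - 1)) * E) :=
            mul_le_mul_of_nonneg_left F2 (by positivity)
    calc 2 * Real.pi * (j * ν ^ j) * (1 + Real.log (s * x ^ j)) ≤
          (14 * (k : ℝ) ^ 2) * (x ^ 2 * x ^ (4 * j)) := by rw [← h3]; exact h2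
      _ ≤ (4.5 * s ^ 2) * (x ^ (2 * j) * (x ^ (2 * (k - 1)) * E)) :=
          mul_le_mul h4 h5 (by positivity) (by positivity)
      _ = 4.5 * (s ^ 2 * x ^ (2 * j) * E) * x ^ (2 * (k - 1)) := by ring
      _ ≤ 4.5 * (s ^ 2 * x ^ (2 * j) * E) * t :=
          mul_le_mul_of_nonneg_left ht1 (by positivity)
  have hfin : (9 * s ^ 2) * x ^ (2 * j) * E = 4.5 * (s ^ 2 * x ^ (2 * j) * E) +
      4.5 * (s ^ 2 * x ^ (2 * j) * E) := by ring
  rw [hfin]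
  exact add_le_add P1 P2

end Pool.Agent.Lib.VK
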