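import Pool.Agent.Lib.VK.Hd
import Pool.Agent.Lib.VK.Hk
import Pool.Agent.Lib.VK.Hm

/-!
# VK P2, Hn: the product of the `WW`

`s = 7 k^2`, `L = s M^j`, `j` = index + 1.  `WW ≤ (2L+1)^2 ≤ 9 s^2 M^(2j)` for all `j` (`WW_triv`), and for
`3k ≤ 4j`, `8j ≤ 7(k-1)` the bound of `WW_mid` with the additional factor `M^(-k/8)`.  The number of these `j` is at least
`7(k-1)/8 - 3k/4 - 1 = k/8 - 15/8 ≥ k/16` (`k ≥ 40`), so the product of the additional factors is at most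
`(M^(-k/8))^(k/16)`.  The product of `M^(2j)`, `1 ≤ j ≤ k`, is `M^(k(k+1))`.
-/

set_option autoImplicit false

namespace Pool.Agent.Lib.VK

open Finset

private theorem hn_sum (k : ℕ) : ∑ j : Fin k, 2 * ((j : ℕ) + 1) = k * (k + 1) := by
  rw [Fin.sum_univ_eq_sum_range (fun j => 2 * (j + 1)) k]
  induction k with
  | zero => simp
  | succ n ih => rw [Finset.sum_range_succ, ih]; ring

theorem prod_WW (k M : ℕ) (t ν : ℝ) (α : Fin k → ℝ) (hk : 40 ≤ k)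
    (hM : Real.exp ((k : ℝ) ^ 4) ≤ M)
    (ht1 : (M : ℝ) ^ (2 * (k - 1)) ≤ t) (ht2 : t ≤ 4 ^ k * (M : ℝ) ^ (2 * k))
    (hν1 : (M : ℝ) ^ 4 ≤ ν) (hν2 : ν ≤ 48 * (M : ℝ) ^ 4)
    (hα : ∀ j : Fin k, |α j| = t / (((j : ℕ) + 1 : ℕ) * ν ^ ((j : ℕ) + 1))) :
    ∏ j : Fin k, WW (α j) (7 * k ^ 2 * M ^ ((j : ℕ) + 1)) ≤
      (9 * (7 * (k : ℝ) ^ 2) ^ 2) ^ k * (M : ℝ) ^ (k * (k + 1)) *
        (M : ℝ) ^ (-((k : ℝ) ^ 2 / 128)) := by
  classical
  have hM1 : (1 : ℝ) ≤ M := le_trans (Real.one_le_exp (by positivity)) hM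
  have hM0 : (0 : ℝ) < M := by linarith
  set c : ℝ := 9 * (7 * (k : ℝ) ^ 2) ^ 2 with hc
  set δ : ℝ := (M : ℝ) ^ (-((k : ℝ) / 8)) with hδ
  have hδ0 : 0 < δ := Real.rpow_pos_of_pos hM0 _
  set S : Finset (Fin k) :=
    univ.filter (fun j => 3 * k ≤ 4 * ((j : ℕ) + 1) ∧ 8 * ((j : ℕ) + 1) ≤ 7 * (k - 1)) with hS
  have h1 : ∀ j : Fin k, WW (α j) (7 * k ^ 2 * M ^ ((j : ℕ) + 1)) ≤
      c * (M : ℝ) ^ (2 * ((j : ℕ) + 1)) * (if j ∈ S then δ else 1) := by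
    intro j
    split_ifs with hj
    · rw [hS, mem_filter] at hj
      exact WW_mid k M ((j : ℕ) + 1) t ν (α j) hk hM ht1 ht2 hν1 hν2 hj.2.1 hj.2.2 (hα j)
    · refine (WW_triv _ _).trans ?_
      have e1 : (1 : ℝ) ≤ ((7 * k ^ 2 * M ^ ((j : ℕ) + 1) : ℕ) : ℝ) := by
        have hMn : 1 ≤ M := by exact_mod_cast hM1
        have : 1 ≤ 7 * k ^ 2 * M ^ ((j : ℕ) + 1) := by
          have h2 : 1 ≤ M ^ ((j : ℕ) + 1) := Nat.one_le_pow _ _ hMn
          have h3 : 1 ≤ k ^ 2 := Nat.one_le_pow _ _ (by omega)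
          nlinarith
        exact_mod_cast this
      have e2 : (2 * ((7 * k ^ 2 * M ^ ((j : ℕ) + 1) : ℕ) : ℝ) + 1) ^ 2 ≤
          (3 * ((7 * k ^ 2 * M ^ ((j : ℕ) + 1) : ℕ) : ℝ)) ^ 2 := by
        apply pow_le_pow_left₀ (by positivity)
        linarith
      refine e2.trans (le_of_eq ?_)
      rw [hc]
      push_cast
      ring
  have hcard : k ≤ 16 * S.card := by
    have h2 : (Finset.Icc ((3 * k + 3) / 4) (7 * (k - 1) / 8)) ⊆ S.image (fun j : Fin k => (j : ℕ) + 1) := by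
      intro m hm
      rw [Finset.mem_Icc] at hm
      rw [Finset.mem_image]
      refine ⟨⟨m - 1, by omega⟩, ?_, ?_⟩
      · rw [hS, mem_filter]
        refine ⟨mem_univ _, ?_, ?_⟩
        · show 3 * k ≤ 4 * (m - 1 + 1)
          omega
        · show 8 * (m - 1 + 1) ≤ 7 * (k - 1)
          omega
      · show m - 1 + 1 = m
        omega
    have h3 := (Finset.card_le_card h2).trans Finset.card_image_le
    rw [Nat.card_Icc] at h3
    omega
  calc ∏ j : Fin k, WW (α j) (7 * k ^ 2 * M ^ ((j : ℕ) + 1))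
      ≤ ∏ j : Fin k, (c * (M : ℝ) ^ (2 * ((j : ℕ) + 1)) * (if j ∈ S then δ else 1)) :=
        Finset.prod_le_prod (fun j _ => WW_nonneg _ _) (fun j _ => h1 j)
    _ = c ^ k * (M : ℝ) ^ (k * (k + 1)) * δ ^ S.card := by
        rw [Finset.prod_mul_distrib, Finset.prod_mul_distrib, Finset.prod_const, Finset.card_univ,
          Fintype.card_fin, Finset.prod_pow_eq_pow_sum, hn_sum, Finset.prod_ite_mem,
          Finset.univ_inter, Finset.prod_const]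
    _ ≤ c ^ k * (M : ℝ) ^ (k * (k + 1)) * (M : ℝ) ^ (-((k : ℝ) ^ 2 / 128)) := by
        apply mul_le_mul_of_nonneg_left _ (by positivity)
        rw [hδ, ← Real.rpow_natCast, ← Real.rpow_mul hM0.le]
        apply Real.rpow_le_rpow_of_exponent_le hM1
        have h4 : (k : ℝ) ≤ 16 * S.card := by exact_mod_cast hcard
        have hk0 : (0 : ℝ) ≤ k := Nat.cast_nonneg _
        nlinarith

end Pool.Agent.Lib.VK
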