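import Pool.Agent.Lib.VK.Hd
import Pool.Agent.Lib.VK.Hi
import Pool.Agent.Lib.VK.Hn

/-!
# VK P2, Ho: the bound for the double sum

`s = 7 k^2`, `4 s^2 = 196 k^4`, `4 s = 28 k^2`.  By `TT_pow`, the hypothesis `hJ` (the mean value theorem `vmv` of P1) and
`prod_WW`: `‖TT‖^(196 k^4) ≤ M^(8 s^2 - 4s) exp(160 k^6) M^(28 k^2 - k(k+1) + k^2/500) (9 s^2)^k M^(k(k+1)) M^(-k^2/128)
= (M^2)^(196 k^4) exp(160 k^6) (9 s^2)^k M^(k^2/500 - k^2/128)`, and `1/128 - 1/500 ≥ 1/200`,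
`exp(160 k^6) (441 k^4)^k ≤ exp(196 k^6)`.  So `‖TT‖^(196 k^4) ≤ (M^2 exp(k^2) M^(-1/(39200 k^2)))^(196 k^4)`; take roots
(`pow_le_pow_left_iff`, `le_of_pow_le_pow_left`).
-/

set_option autoImplicit false

namespace Pool.Agent.Lib.VK

open Finset

private theorem ho_exp (K : ℝ) (k : ℕ) (hK : K = k) (hk : 40 ≤ K) :
    Real.exp (160 * K ^ 6) * (9 * (7 * K ^ 2) ^ 2) ^ k ≤ Real.exp (196 * K ^ 6) := by
  have h1 : 9 * (7 * K ^ 2) ^ 2 ≤ Real.exp (441 * K ^ 4) := by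
    have h2 := Real.add_one_le_exp (441 * K ^ 4)
    have h3 : 9 * (7 * K ^ 2) ^ 2 = 441 * K ^ 4 := by ring
    linarith
  have h4 : (9 * (7 * K ^ 2) ^ 2) ^ k ≤ Real.exp (441 * K ^ 5) := by
    calc (9 * (7 * K ^ 2) ^ 2) ^ k ≤ Real.exp (441 * K ^ 4) ^ k :=
          pow_le_pow_left₀ (by positivity) h1 k
      _ = Real.exp (441 * K ^ 5) := by
          rw [← Real.exp_nat_mul]
          congr 1
          rw [← hK]
          ring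
  have h5 : (441 : ℝ) * K ^ 5 ≤ 36 * K ^ 6 := by
    have h6 : 0 ≤ K ^ 5 := by positivity
    have h7 : K ^ 6 = K * K ^ 5 := by ring
    rw [h7]
    nlinarith [mul_le_mul_of_nonneg_right hk h6]
  calc Real.exp (160 * K ^ 6) * (9 * (7 * K ^ 2) ^ 2) ^ k
      ≤ Real.exp (160 * K ^ 6) * Real.exp (441 * K ^ 5) :=
        mul_le_mul_of_nonneg_left h4 (Real.exp_pos _).le
    _ = Real.exp (160 * K ^ 6 + 441 * K ^ 5) := by rw [← Real.exp_add]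
    _ ≤ Real.exp (196 * K ^ 6) := by
        rw [Real.exp_le_exp]
        linarith

theorem TT_le (k M : ℕ) (t ν : ℝ) (α : Fin k → ℝ) (hk : 40 ≤ k)
    (hM : Real.exp ((k : ℝ) ^ 4) ≤ M)
    (hJ : (J (7 * k ^ 2) k M : ℝ) ≤ Real.exp (80 * (k : ℝ) ^ 6) *
      (M : ℝ) ^ ((14 * (k : ℝ) ^ 2) - k * (k + 1) / 2 + (k : ℝ) ^ 2 / 1000))
    (ht1 : (M : ℝ) ^ (2 * (k - 1)) ≤ t) (ht2 : t ≤ 4 ^ k * (M : ℝ) ^ (2 * k))
    (hν1 : (M : ℝ) ^ 4 ≤ ν) (hν2 : ν ≤ 48 * (M : ℝ) ^ 4)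
    (hα : ∀ j : Fin k, |α j| = t / (((j : ℕ) + 1 : ℕ) * ν ^ ((j : ℕ) + 1))) :
    ‖TT k M α‖ ≤ (M : ℝ) ^ 2 * Real.exp ((k : ℝ) ^ 2) *
      (M : ℝ) ^ (-(1 / (39200 * (k : ℝ) ^ 2))) := by
  have hK : (40 : ℝ) ≤ (k : ℝ) := by exact_mod_cast hk
  have hk2 : 1 ≤ k ^ 2 := Nat.one_le_pow _ _ (by omega)
  have h1 := TT_pow (7 * k ^ 2) k M α (by omega)
  have h2 := prod_WW k M t ν α hk hM ht1 ht2 hν1 hν2 hα
  have hx1 : (1 : ℝ) ≤ (M : ℝ) := by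
    refine le_trans ?_ hM
    exact Real.one_le_exp (by positivity)
  set x : ℝ := (M : ℝ) with hx
  set K : ℝ := (k : ℝ) with hKd
  have hx0 : 0 < x := by linarith
  have hK0 : 0 < K := by linarith
  have hJ0 : (0 : ℝ) ≤ (J (7 * k ^ 2) k M : ℝ) := Nat.cast_nonneg _
  have hJ2 : (J (7 * k ^ 2) k M : ℝ) ^ 2 ≤
      Real.exp (160 * K ^ 6) * x ^ (28 * K ^ 2 - K * (K + 1) + K ^ 2 / 500) := by
    refine (pow_le_pow_left₀ hJ0 hJ 2).trans (le_of_eq ?_)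
    rw [mul_pow, ← Real.exp_nat_mul, ← Real.rpow_mul_natCast hx0.le]
    congr 2
    · push_cast
      ring
    · push_cast
      ring
  have hprod0 : 0 ≤ ∏ j : Fin k, WW (α j) (7 * k ^ 2 * M ^ ((j : ℕ) + 1)) :=
    Finset.prod_nonneg fun j _ => Finset.sum_nonneg fun m _ => norm_nonneg _
  have e1 : x ^ (8 * (7 * k ^ 2) ^ 2 - 4 * (7 * k ^ 2)) = x ^ (392 * K ^ 4 - 28 * K ^ 2) := by
    rw [← Real.rpow_natCast]
    congr 1
    rw [Nat.cast_sub]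
    · push_cast
      rw [← hKd]
      ring
    · nlinarith
  have e2 : x ^ (k * (k + 1)) = x ^ (K * (K + 1)) := by
    rw [← Real.rpow_natCast]
    congr 1
    push_cast
    rw [← hKd]
  have h3 : ‖TT k M α‖ ^ (4 * (7 * k ^ 2) ^ 2) ≤ x ^ (392 * K ^ 4 - 28 * K ^ 2) *
      (Real.exp (160 * K ^ 6) * x ^ (28 * K ^ 2 - K * (K + 1) + K ^ 2 / 500)) *
      ((9 * (7 * K ^ 2) ^ 2) ^ k * x ^ (K * (K + 1)) * x ^ (-(K ^ 2 / 128))) := by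
    rw [e1] at h1
    rw [e2] at h2
    refine h1.trans ?_
    refine mul_le_mul (mul_le_mul_of_nonneg_left hJ2 (by positivity)) h2 hprod0 (by positivity)
  have h4 : x ^ (392 * K ^ 4 - 28 * K ^ 2) *
      (Real.exp (160 * K ^ 6) * x ^ (28 * K ^ 2 - K * (K + 1) + K ^ 2 / 500)) *
      ((9 * (7 * K ^ 2) ^ 2) ^ k * x ^ (K * (K + 1)) * x ^ (-(K ^ 2 / 128))) =
      (Real.exp (160 * K ^ 6) * (9 * (7 * K ^ 2) ^ 2) ^ k) *
        x ^ (392 * K ^ 4 + (K ^ 2 / 500 - K ^ 2 / 128)) := by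
    have e3 : x ^ (392 * K ^ 4 + (K ^ 2 / 500 - K ^ 2 / 128)) =
        x ^ (392 * K ^ 4 - 28 * K ^ 2) * x ^ (28 * K ^ 2 - K * (K + 1) + K ^ 2 / 500) *
          x ^ (K * (K + 1)) * x ^ (-(K ^ 2 / 128)) := by
      rw [← Real.rpow_add hx0, ← Real.rpow_add hx0, ← Real.rpow_add hx0]
      congr 1
      ring
    rw [e3]
    ring
  have h5 : x ^ (392 * K ^ 4 + (K ^ 2 / 500 - K ^ 2 / 128)) ≤ x ^ (392 * K ^ 4 - K ^ 2 / 200) := by
    apply Real.rpow_le_rpow_of_exponent_le hx1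
    nlinarith [sq_nonneg K]
  have h6 : ‖TT k M α‖ ^ (4 * (7 * k ^ 2) ^ 2) ≤
      (x ^ 2 * Real.exp (K ^ 2) * x ^ (-(1 / (39200 * K ^ 2)))) ^ (4 * (7 * k ^ 2) ^ 2) := by
    rw [h4] at h3
    refine h3.trans ?_
    refine (mul_le_mul (ho_exp K k rfl hK) h5 (by positivity) (Real.exp_pos _).le).trans
      (le_of_eq ?_)
    have c0 : ((4 * (7 * k ^ 2) ^ 2 : ℕ) : ℝ) = 196 * K ^ 4 := by
      push_cast
      rw [← hKd]
      ring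
    rw [mul_pow, mul_pow, ← Real.exp_nat_mul, c0, ← Real.rpow_natCast (x ^ 2), c0,
      ← Real.rpow_natCast (x ^ (-(1 / (39200 * K ^ 2)))), c0, ← Real.rpow_mul hx0.le,
      ← Real.rpow_natCast x 2, ← Real.rpow_mul hx0.le]
    have c1 : 196 * K ^ 4 * K ^ 2 = 196 * K ^ 6 := by ring
    have c2 : ((2 : ℕ) : ℝ) * (196 * K ^ 4) = 392 * K ^ 4 := by
      push_cast
      ring
    have c3 : -(1 / (39200 * K ^ 2)) * (196 * K ^ 4) = -(K ^ 2 / 200) := by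
      field_simp
      ring
    rw [c1, c2, c3, sub_eq_add_neg, Real.rpow_add hx0]
    ring
  exact (pow_le_pow_iff_left₀ (norm_nonneg _) (by positivity) (by positivity)).mp h6

end Pool.Agent.Lib.VK
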