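import Pool.Agent.Lib.VK.Hd

/-!
# VK P2, Hp: Taylor

`log (ν + u) = log ν + log (1 + u/ν)`; `Real.abs_log_sub_add_sum_range_le` with `x = -u/ν`, `n = k`:
`|∑ i<k, x^(i+1)/(i+1) + log (1 - x)| ≤ |x|^(k+1)/(1 - |x|) ≤ 2 (u/ν)^(k+1)` since `u/ν ≤ 1/2`.
`‖ei a - ei b‖ ≤ |a - b|` (`ei a = ei b * ei (a - b)`, `Complex.norm_exp_I_mul_ofReal_sub_one_le` or
`Real.norm_exp_I_mul_ofReal_sub_one_le`).
-/

set_option autoImplicit false

namespace Pool.Agent.Lib.VK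

open Finset

theorem ei_sub_le (a b : ℝ) : ‖ei a - ei b‖ ≤ |a - b| := by
  have h1 : ei a - ei b = ei b * (ei (a - b) - 1) := by
    rw [mul_sub, ← ei_add, mul_one]
    congr 2
    ring
  rw [h1, norm_mul, norm_ei, one_mul]
  exact Real.norm_exp_I_mul_ofReal_sub_one_le

theorem taylor_ei (k : ℕ) (t ν u : ℝ) (ht : 0 ≤ t) (hν : 0 < ν) (hu : 0 ≤ u) (huν : 2 * u ≤ ν) :
    ‖ei (t * Real.log (ν + u)) - ei (t * Real.log ν) *
      ei (∑ j : Fin k, ((-1) ^ (j : ℕ) * t / (((j : ℕ) + 1 : ℕ) * ν ^ ((j : ℕ) + 1))) *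
        u ^ ((j : ℕ) + 1))‖ ≤ 2 * t * (u / ν) ^ (k + 1) := by
  set y := u / ν with hy
  have hy0 : 0 ≤ y := div_nonneg hu hν.le
  have hy1 : y ≤ 1 / 2 := by
    rw [hy, div_le_iff₀ hν]
    linarith
  have h1 : Real.log (ν + u) = Real.log ν + Real.log (1 + y) := by
    rw [← Real.log_mul hν.ne' (by positivity)]
    congr 1
    rw [hy]
    field_simp
  have h2 : ∑ j : Fin k, ((-1) ^ (j : ℕ) * t / (((j : ℕ) + 1 : ℕ) * ν ^ ((j : ℕ) + 1))) *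
        u ^ ((j : ℕ) + 1) = -t * ∑ i ∈ range k, (-y) ^ (i + 1) / (i + 1) := by
    rw [Fin.sum_univ_eq_sum_range (fun j : ℕ => ((-1) ^ j * t / ((j + 1 : ℕ) * ν ^ (j + 1))) *
        u ^ (j + 1)) k, mul_sum]
    refine sum_congr rfl fun i _ => ?_
    rw [hy, neg_pow (u / ν), div_pow, pow_succ (-1 : ℝ) i]
    have h3 : ((i + 1 : ℕ) : ℝ) ≠ 0 := by positivity
    have h4 : ν ^ (i + 1) ≠ 0 := by positivity
    push_cast at h3 ⊢
    field_simp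
  rw [h1, mul_add, ei_add, ← mul_sub, norm_mul, norm_ei, one_mul]
  refine (ei_sub_le _ _).trans ?_
  rw [h2]
  have h3 := Real.abs_log_sub_add_sum_range_le (x := -y) (by rw [abs_neg, abs_of_nonneg hy0]; linarith) k
  have h4 : t * Real.log (1 + y) - -t * ∑ i ∈ range k, (-y) ^ (i + 1) / ((i : ℝ) + 1) =
      t * ((∑ i ∈ range k, (-y) ^ (i + 1) / ((i : ℝ) + 1)) + Real.log (1 - -y)) := by
    rw [sub_neg_eq_add]
    ring
  rw [h4, abs_mul, abs_of_nonneg ht]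
  rw [abs_neg, abs_of_nonneg hy0] at h3
  have h5 : y ^ (k + 1) / (1 - y) ≤ 2 * y ^ (k + 1) := by
    rw [div_le_iff₀ (by linarith)]
    have h6 : 0 ≤ y ^ (k + 1) := by positivity
    nlinarith
  calc t * |(∑ i ∈ range k, (-y) ^ (i + 1) / ((i : ℝ) + 1)) + Real.log (1 - -y)|
      ≤ t * (2 * y ^ (k + 1)) := mul_le_mul_of_nonneg_left (h3.trans h5) ht
    _ = 2 * t * y ^ (k + 1) := by ring

end Pool.Agent.Lib.VK
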