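import Pool.Agent.Lib.VK.Hd

/-!
# VK P2, Hq: the shift `n ↦ n + x y`

For `h = x y ≤ M^2` one has `‖∑ n ∈ Ioc k0 k1, f n - ∑ n ∈ Ioc k0 k1, f (n + h)‖ ≤ 2 h ≤ 2 M^2` (the second sum is the sum
over `Ioc (k0 + h) (k1 + h)`; induction on `h` or the symmetric difference).  Sum over the `M^2` pairs `(x, y)`, triangle
inequality, interchange the sums.
-/

set_option autoImplicit false

namespace Pool.Agent.Lib.VK

open Finset

theorem hq_tel (g : ℕ → ℂ) (a b : ℕ) (hab : a ≤ b) :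
    ∑ n ∈ Ioc a b, (g n - g (n + 1)) = g (a + 1) - g (b + 1) := by
  induction b, hab using Nat.le_induction with
  | base => simp
  | succ b hab ih =>
    rw [sum_Ioc_succ_top (by omega), ih]
    ring

theorem hq_one (f : ℕ → ℂ) (hf : ∀ n, ‖f n‖ ≤ 1) (k0 k1 h : ℕ) :
    ‖∑ n ∈ Ioc k0 k1, f n - ∑ n ∈ Ioc k0 k1, f (n + h)‖ ≤ 2 * h := by
  induction h with
  | zero => simp
  | succ h ih =>
    have h1 : ‖∑ n ∈ Ioc k0 k1, f (n + h) - ∑ n ∈ Ioc k0 k1, f (n + (h + 1))‖ ≤ 2 := by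
      rcases le_total k0 k1 with hk | hk
      · rw [← sum_sub_distrib]
        have h2 := hq_tel (fun n => f (n + h)) k0 k1 hk
        have h3 : ∑ n ∈ Ioc k0 k1, (f (n + h) - f (n + (h + 1))) =
            ∑ n ∈ Ioc k0 k1, ((fun n => f (n + h)) n - (fun n => f (n + h)) (n + 1)) := by
          refine sum_congr rfl fun n _ => ?_
          simp only
          congr 2
          ring
        rw [h3, h2]
        refine (norm_sub_le _ _).trans ?_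
        have h4 := hf (k0 + 1 + h)
        have h5 := hf (k1 + 1 + h)
        linarith
      · rw [Ioc_eq_empty (by omega)]
        simp
    have h2 : ∑ n ∈ Ioc k0 k1, f n - ∑ n ∈ Ioc k0 k1, f (n + (h + 1)) =
        (∑ n ∈ Ioc k0 k1, f n - ∑ n ∈ Ioc k0 k1, f (n + h)) +
        (∑ n ∈ Ioc k0 k1, f (n + h) - ∑ n ∈ Ioc k0 k1, f (n + (h + 1))) := by ring
    rw [h2]
    refine (norm_add_le _ _).trans ?_
    push_cast
    linarith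

theorem shift_xy (f : ℕ → ℂ) (hf : ∀ n, ‖f n‖ ≤ 1) (k0 k1 M : ℕ) :
    (M : ℝ) ^ 2 * ‖∑ n ∈ Ioc k0 k1, f n‖ ≤
      ∑ n ∈ Ioc k0 k1, ‖∑ x ∈ Icc 1 M, ∑ y ∈ Icc 1 M, f (n + x * y)‖ + 2 * (M : ℝ) ^ 4 := by
  have h1 : ((M : ℂ) ^ 2) * ∑ n ∈ Ioc k0 k1, f n =
      ∑ n ∈ Ioc k0 k1, ∑ x ∈ Icc 1 M, ∑ y ∈ Icc 1 M, f (n + x * y) +
      ∑ x ∈ Icc 1 M, ∑ y ∈ Icc 1 M,
        (∑ n ∈ Ioc k0 k1, f n - ∑ n ∈ Ioc k0 k1, f (n + x * y)) := by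
    have h2 : ∑ n ∈ Ioc k0 k1, ∑ x ∈ Icc 1 M, ∑ y ∈ Icc 1 M, f (n + x * y) =
        ∑ x ∈ Icc 1 M, ∑ y ∈ Icc 1 M, ∑ n ∈ Ioc k0 k1, f (n + x * y) := by
      rw [sum_comm]
      exact sum_congr rfl fun x _ => sum_comm
    rw [h2, ← sum_add_distrib]
    have h3 : ∀ x ∈ Icc 1 M, (∑ y ∈ Icc 1 M, ∑ n ∈ Ioc k0 k1, f (n + x * y) +
        ∑ y ∈ Icc 1 M, (∑ n ∈ Ioc k0 k1, f n - ∑ n ∈ Ioc k0 k1, f (n + x * y))) =
        (M : ℂ) * ∑ n ∈ Ioc k0 k1, f n := by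
      intro x _
      rw [← sum_add_distrib]
      simp
    rw [sum_congr rfl h3]
    simp
    ring
  have h2 : (M : ℝ) ^ 2 * ‖∑ n ∈ Ioc k0 k1, f n‖ = ‖((M : ℂ) ^ 2) * ∑ n ∈ Ioc k0 k1, f n‖ := by
    rw [norm_mul, norm_pow]
    simp
  rw [h2, h1]
  refine (norm_add_le _ _).trans (add_le_add (norm_sum_le _ _) ?_)
  refine (norm_sum_le _ _).trans ?_
  have h3 : ∀ x ∈ Icc 1 M, ‖∑ y ∈ Icc 1 M,
      (∑ n ∈ Ioc k0 k1, f n - ∑ n ∈ Ioc k0 k1, f (n + x * y))‖ ≤ (M : ℝ) * (2 * (M : ℝ) ^ 2) := by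
    intro x hx
    refine (norm_sum_le _ _).trans ?_
    have h4 : ∀ y ∈ Icc 1 M, ‖∑ n ∈ Ioc k0 k1, f n - ∑ n ∈ Ioc k0 k1, f (n + x * y)‖ ≤
        2 * (M : ℝ) ^ 2 := by
      intro y hy
      refine (hq_one f hf k0 k1 (x * y)).trans ?_
      rw [mem_Icc] at hx hy
      have h5 : x * y ≤ M * M := Nat.mul_le_mul hx.2 hy.2
      have h6 : ((x * y : ℕ) : ℝ) ≤ (M : ℝ) * M := by exact_mod_cast h5
      rw [sq]
      linarith
    refine (sum_le_sum h4).trans ?_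
    rw [sum_const, Nat.card_Icc, nsmul_eq_mul]
    simp
  refine (sum_le_sum h3).trans ?_
  rw [sum_const, Nat.card_Icc, nsmul_eq_mul]
  simp only [Nat.add_sub_cancel]
  apply le_of_eq
  ring

theorem sum_int_nat (M : ℕ) (g : ℤ → ℂ) : ∑ x ∈ Icc (1 : ℤ) M, g x = ∑ x ∈ Icc 1 M, g (x : ℤ) := by
  have h1 : Icc (1 : ℤ) M = (Icc 1 M).image (fun x : ℕ => (x : ℤ)) := by
    ext z
    simp only [mem_Icc, mem_image]
    constructor
    · rintro ⟨h1, h2⟩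
      exact ⟨z.toNat, by omega, by omega⟩
    · rintro ⟨x, hx, rfl⟩
      omega
  rw [h1, sum_image]
  intro x _ y _ hxy
  exact Int.natCast_inj.1 hxy

end Pool.Agent.Lib.VK
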