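import Pool.Agent.Lib.VK.Hd
import Pool.Agent.Lib.VK.Ho
import Pool.Agent.Lib.VK.Hp
import Pool.Agent.Lib.VK.Hq

/-!
# VK P2, Hr: one block

`f n = ei (t log (n + c))`, `k0 < n ≤ k1 ≤ 2 k0 + 2`, `ν = n + c`: `M^4 ≤ k0 ≤ ν ≤ 2 k0 + 3 ≤ 48 M^4`.  From
`k0^(k-1) ≤ t^2 ≤ k0^k`: `M^(2(k-1)) ≤ t` and `t ≤ 4^k M^(2k)`.  For `x, y ≤ M`, `u = x y ≤ M^2`, `2u ≤ ν`: `taylor_ei`, error
`≤ 2 t (u/ν)^(k+1) ≤ 2 * 4^k M^(2k) M^(-2(k+1)) = 2 * 4^k M^(-2)`.  So (`TT` with `α j = (-1)^j t/((j+1) ν^(j+1))`, and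
`(xy)^(j+1) = y^(j+1) x^(j+1)`) `‖∑ x y, f (n + xy)‖ ≤ ‖TT‖ + 2 * 4^k ≤ M^2 exp(k^2) M^(-1/(39200 k^2)) + 2 * 4^k`.  With
`shift_xy`: `‖∑ f‖ ≤ (k0 + 2) (exp(k^2) M^(-1/(39200k^2)) + 2 * 4^k / M^2) + 2 M^2`, `k0 + 2 ≤ 2 k0`,
`4 * 4^k ≤ M` (`M ≥ exp (k^4)`), `2 M^2 ≤ 2 k0 / M^2 ≤ k0/M`.
-/

set_option autoImplicit false

namespace Pool.Agent.Lib.VK

open Finset

private theorem hr_four (k : ℕ) (hk : 40 ≤ k) : 4 * (4 : ℝ) ^ k + 2 ≤ Real.exp ((k : ℝ) ^ 4) := by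
  have hk' : (40 : ℝ) ≤ k := by exact_mod_cast hk
  have he : (4 : ℝ) ≤ Real.exp 2 := by
    have h1 := Real.add_one_le_exp (1 : ℝ)
    have h2 : Real.exp 2 = Real.exp 1 * Real.exp 1 := by
      rw [← Real.exp_add]
      norm_num
    rw [h2]
    nlinarith
  have h4 : (4 : ℝ) ^ k ≤ Real.exp (2 * k) := by
    rw [mul_comm, Real.exp_nat_mul]
    exact pow_le_pow_left₀ (by norm_num) he k
  have h5 : (1 : ℝ) ≤ (4 : ℝ) ^ k := one_le_pow₀ (by norm_num)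
  have h6 : (8 : ℝ) ≤ Real.exp 4 := by
    have h2 : Real.exp 4 = Real.exp 2 * Real.exp 2 := by
      rw [← Real.exp_add]
      norm_num
    rw [h2]
    nlinarith
  have hk4 : 4 + 2 * (k : ℝ) ≤ (k : ℝ) ^ 4 := by
    have h7 : (k : ℝ) ^ 4 = (k : ℝ) * (k : ℝ) ^ 3 := by ring
    have h8 : (3 : ℝ) ≤ (k : ℝ) ^ 3 := by
      calc (3 : ℝ) ≤ 40 ^ 3 := by norm_num
        _ ≤ (k : ℝ) ^ 3 := pow_le_pow_left₀ (by norm_num) hk' 3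
    rw [h7]
    nlinarith
  calc 4 * (4 : ℝ) ^ k + 2 ≤ 8 * (4 : ℝ) ^ k := by linarith
    _ ≤ Real.exp 4 * Real.exp (2 * k) := mul_le_mul h6 h4 (by positivity) (Real.exp_pos _).le
    _ = Real.exp (4 + 2 * k) := (Real.exp_add _ _).symm
    _ ≤ _ := Real.exp_le_exp.2 hk4

private theorem hr_point (k M : ℕ) (t ν : ℝ) (g : ℕ → ℕ → ℂ) (hM0 : 1 ≤ M) (hM1 : 2 ≤ M) (ht : 0 ≤ t)
    (ht2 : t ≤ 4 ^ k * (M : ℝ) ^ (2 * k)) (hν1 : (M : ℝ) ^ 4 ≤ ν)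
    (hg : ∀ x ∈ Icc 1 M, ∀ y ∈ Icc 1 M, g x y = ei (t * Real.log (ν + (x : ℝ) * y))) :
    ‖∑ x ∈ Icc 1 M, ∑ y ∈ Icc 1 M, g x y‖ ≤
      ‖TT k M (fun j => (-1) ^ (j : ℕ) * t / (((j : ℕ) + 1 : ℕ) * ν ^ ((j : ℕ) + 1)))‖ +
        2 * 4 ^ k := by
  have hMr : (1 : ℝ) ≤ M := by exact_mod_cast hM0
  have hMr2 : (2 : ℝ) ≤ M := by exact_mod_cast hM1
  have hM2 : (0 : ℝ) < (M : ℝ) ^ 2 := by positivity
  have hν0 : 0 < ν := lt_of_lt_of_le (by positivity) hν1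
  set α : Fin k → ℝ := fun j => (-1) ^ (j : ℕ) * t / (((j : ℕ) + 1 : ℕ) * ν ^ ((j : ℕ) + 1)) with hα
  have hT : TT k M α = ∑ x ∈ Icc 1 M, ∑ y ∈ Icc 1 M,
      ei (∑ j : Fin k, α j * ((x : ℝ) * y) ^ ((j : ℕ) + 1)) := by
    unfold TT
    rw [sum_int_nat]
    refine Finset.sum_congr rfl (fun x _ => ?_)
    rw [sum_int_nat]
    refine Finset.sum_congr rfl (fun y _ => ?_)
    congr 1
    refine Finset.sum_congr rfl (fun j _ => ?_)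
    push_cast
    rw [mul_pow]
    ring
  have hpt : ∀ x ∈ Icc 1 M, ∀ y ∈ Icc 1 M,
      ‖g x y - ei (t * Real.log ν) * ei (∑ j : Fin k, α j * ((x : ℝ) * y) ^ ((j : ℕ) + 1))‖ ≤
        2 * 4 ^ k / (M : ℝ) ^ 2 := by
    intro x hx y hy
    rw [hg x hx y hy]
    rw [mem_Icc] at hx hy
    have hx1 : (x : ℝ) ≤ M := by exact_mod_cast hx.2
    have hy1 : (y : ℝ) ≤ M := by exact_mod_cast hy.2
    have hu0 : (0 : ℝ) ≤ (x : ℝ) * y := by positivity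
    have hu1 : (x : ℝ) * y ≤ (M : ℝ) ^ 2 := by
      rw [sq]
      exact mul_le_mul hx1 hy1 (by positivity) (by positivity)
    have hu2 : 2 * ((x : ℝ) * y) ≤ ν := by
      have h4 : (M : ℝ) ^ 4 = (M : ℝ) ^ 2 * (M : ℝ) ^ 2 := by ring
      have h5 : (2 : ℝ) ≤ (M : ℝ) ^ 2 := by nlinarith
      nlinarith
    refine (taylor_ei k t ν _ ht hν0 hu0 hu2).trans ?_
    have hq : (x : ℝ) * y / ν ≤ 1 / (M : ℝ) ^ 2 := by
      rw [div_le_div_iff₀ hν0 hM2, one_mul]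
      calc (x : ℝ) * y * (M : ℝ) ^ 2 ≤ (M : ℝ) ^ 2 * (M : ℝ) ^ 2 :=
            mul_le_mul_of_nonneg_right hu1 hM2.le
        _ = (M : ℝ) ^ 4 := by ring
        _ ≤ ν := hν1
    have hq0 : 0 ≤ (x : ℝ) * y / ν := div_nonneg hu0 hν0.le
    calc 2 * t * ((x : ℝ) * y / ν) ^ (k + 1)
        ≤ 2 * (4 ^ k * (M : ℝ) ^ (2 * k)) * (1 / (M : ℝ) ^ 2) ^ (k + 1) := by
          apply mul_le_mul _ (pow_le_pow_left₀ hq0 hq _) (by positivity) (by positivity)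
          linarith
      _ = 2 * 4 ^ k / (M : ℝ) ^ 2 := by
          rw [one_div, inv_pow, ← pow_mul, show 2 * (k + 1) = 2 * k + 2 by ring, pow_add]
          field_simp
  have hsum : ∑ x ∈ Icc 1 M, ∑ y ∈ Icc 1 M, g x y = ei (t * Real.log ν) * TT k M α +
      ∑ x ∈ Icc 1 M, ∑ y ∈ Icc 1 M, (g x y - ei (t * Real.log ν) *
        ei (∑ j : Fin k, α j * ((x : ℝ) * y) ^ ((j : ℕ) + 1))) := by
    rw [hT, Finset.mul_sum, ← Finset.sum_add_distrib]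
    refine Finset.sum_congr rfl (fun x _ => ?_)
    rw [Finset.mul_sum, ← Finset.sum_add_distrib]
    refine Finset.sum_congr rfl (fun y _ => ?_)
    ring
  rw [hsum]
  refine (norm_add_le _ _).trans ?_
  rw [norm_mul, norm_ei, one_mul]
  have herr : ‖∑ x ∈ Icc 1 M, ∑ y ∈ Icc 1 M, (g x y - ei (t * Real.log ν) *
        ei (∑ j : Fin k, α j * ((x : ℝ) * y) ^ ((j : ℕ) + 1)))‖ ≤ 2 * 4 ^ k := by
    calc _ ≤ ∑ x ∈ Icc 1 M, ∑ y ∈ Icc 1 M, 2 * 4 ^ k / (M : ℝ) ^ 2 :=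
          norm_sum_le_of_le _ (fun x hx => norm_sum_le_of_le _ (fun y hy => hpt x hx y hy))
      _ = 2 * 4 ^ k := by
          simp only [sum_const, Nat.card_Icc, nsmul_eq_mul]
          rw [Nat.add_sub_cancel]
          field_simp
  linarith

theorem block (k M k0 k1 : ℕ) (t c : ℝ) (hk : 40 ≤ k) (hM : Real.exp ((k : ℝ) ^ 4) ≤ M)
    (hJ : (J (7 * k ^ 2) k M : ℝ) ≤ Real.exp (80 * (k : ℝ) ^ 6) *
      (M : ℝ) ^ ((14 * (k : ℝ) ^ 2) - k * (k + 1) / 2 + (k : ℝ) ^ 2 / 1000))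
    (h1 : M ^ 4 ≤ k0) (h2 : k0 ≤ 16 * M ^ 4) (h3 : k1 ≤ 2 * k0 + 2) (hc0 : 0 ≤ c) (hc1 : c ≤ 1)
    (ht : 0 ≤ t) (ht1 : (k0 : ℝ) ^ (k - 1) ≤ t ^ 2) (ht2 : t ^ 2 ≤ (k0 : ℝ) ^ k) :
    ‖∑ n ∈ Ioc k0 k1, ei (t * Real.log (n + c))‖ ≤
      4 * k0 * (Real.exp ((k : ℝ) ^ 2) * (M : ℝ) ^ (-(1 / (39200 * (k : ℝ) ^ 2))) + 1 / M) := by
  have hfour : 4 * (4 : ℝ) ^ k + 2 ≤ M := (hr_four k hk).trans hM
  have h4k : (1 : ℝ) ≤ (4 : ℝ) ^ k := one_le_pow₀ (by norm_num)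
  have hMr2 : (2 : ℝ) ≤ M := by linarith
  have hM2 : 2 ≤ M := by exact_mod_cast hMr2
  have hM1 : 1 ≤ M := by omega
  have h1r : (M : ℝ) ^ 4 ≤ k0 := by exact_mod_cast h1
  have h2r : (k0 : ℝ) ≤ 16 * (M : ℝ) ^ 4 := by exact_mod_cast h2
  have hM4 : (16 : ℝ) ≤ (M : ℝ) ^ 4 := by
    calc (16 : ℝ) = 2 ^ 4 := by norm_num
      _ ≤ (M : ℝ) ^ 4 := pow_le_pow_left₀ (by norm_num) hMr2 4
  have ht1' : (M : ℝ) ^ (2 * (k - 1)) ≤ t := by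
    have h5 : ((M : ℝ) ^ (2 * (k - 1))) ^ 2 ≤ t ^ 2 := by
      calc ((M : ℝ) ^ (2 * (k - 1))) ^ 2 = ((M : ℝ) ^ 4) ^ (k - 1) := by
            rw [← pow_mul, ← pow_mul]
            congr 1
            ring
        _ ≤ (k0 : ℝ) ^ (k - 1) := pow_le_pow_left₀ (by positivity) h1r _
        _ ≤ t ^ 2 := ht1
    exact (pow_le_pow_iff_left₀ (by positivity) ht two_ne_zero).1 h5
  have ht2' : t ≤ 4 ^ k * (M : ℝ) ^ (2 * k) := by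
    have h5 : t ^ 2 ≤ (4 ^ k * (M : ℝ) ^ (2 * k)) ^ 2 := by
      calc t ^ 2 ≤ (k0 : ℝ) ^ k := ht2
        _ ≤ (16 * (M : ℝ) ^ 4) ^ k := pow_le_pow_left₀ (by positivity) h2r _
        _ = (4 ^ k * (M : ℝ) ^ (2 * k)) ^ 2 := by
            rw [mul_pow, mul_pow, ← pow_mul, ← pow_mul, ← pow_mul,
              show (16 : ℝ) = 4 ^ 2 by norm_num, ← pow_mul]
            congr 2
            · ring
            · ring
    exact (pow_le_pow_iff_left₀ ht (by positivity) two_ne_zero).1 h5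
  set E : ℝ := Real.exp ((k : ℝ) ^ 2) * (M : ℝ) ^ (-(1 / (39200 * (k : ℝ) ^ 2))) with hE
  have hE0 : 0 ≤ E := by positivity
  have hpt : ∀ n ∈ Ioc k0 k1, ‖∑ x ∈ Icc 1 M, ∑ y ∈ Icc 1 M,
      ei (t * Real.log (((n + x * y : ℕ) : ℝ) + c))‖ ≤ (M : ℝ) ^ 2 * E + 2 * 4 ^ k := by
    intro n hn
    rw [mem_Ioc] at hn
    have hn1 : (k0 : ℝ) ≤ n := by exact_mod_cast hn.1.le
    have hn2 : (n : ℝ) ≤ 2 * k0 + 2 := by exact_mod_cast hn.2.trans h3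
    have hν1 : (M : ℝ) ^ 4 ≤ (n : ℝ) + c := by linarith
    have hν2 : (n : ℝ) + c ≤ 48 * (M : ℝ) ^ 4 := by linarith
    have hν0 : (0 : ℝ) < (n : ℝ) + c := by linarith
    have hp := hr_point k M t ((n : ℝ) + c)
      (fun x y => ei (t * Real.log (((n + x * y : ℕ) : ℝ) + c))) hM1 hM2 ht ht2' hν1
      (fun x _ y _ => by
        congr 3
        push_cast
        ring)
    have hT := TT_le k M t ((n : ℝ) + c)
      (fun j => (-1) ^ (j : ℕ) * t / (((j : ℕ) + 1 : ℕ) * ((n : ℝ) + c) ^ ((j : ℕ) + 1))) hk hM hJ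
      ht1' ht2' hν1 hν2 (fun j => by
        rw [abs_div, abs_mul, abs_pow, abs_neg, abs_one, one_pow, one_mul, abs_of_nonneg ht,
          abs_of_nonneg (by positivity)])
    rw [mul_assoc] at hT
    linarith
  have hsh := shift_xy (fun n => ei (t * Real.log ((n : ℝ) + c))) (fun n => (norm_ei _).le) k0 k1 M
  have hcard : ∑ n ∈ Ioc k0 k1, ‖∑ x ∈ Icc 1 M, ∑ y ∈ Icc 1 M,
      ei (t * Real.log (((n + x * y : ℕ) : ℝ) + c))‖ ≤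
        (2 * k0) * ((M : ℝ) ^ 2 * E + 2 * 4 ^ k) := by
    calc _ ≤ ∑ n ∈ Ioc k0 k1, ((M : ℝ) ^ 2 * E + 2 * 4 ^ k) := Finset.sum_le_sum hpt
      _ = ((k1 - k0 : ℕ) : ℝ) * ((M : ℝ) ^ 2 * E + 2 * 4 ^ k) := by
          rw [sum_const, Nat.card_Ioc, nsmul_eq_mul]
      _ ≤ _ := by
          apply mul_le_mul_of_nonneg_right _ (by positivity)
          have h6 : k1 - k0 ≤ k0 + 2 := by omega
          have h7 : ((k1 - k0 : ℕ) : ℝ) ≤ k0 + 2 := by exact_mod_cast h6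
          linarith
  have hMsq : (0 : ℝ) < (M : ℝ) ^ 2 := by positivity
  have hfin : (M : ℝ) ^ 2 * ‖∑ n ∈ Ioc k0 k1, ei (t * Real.log ((n : ℝ) + c))‖ ≤
      (M : ℝ) ^ 2 * (4 * k0 * (E + 1 / M)) := by
    have h8 : (M : ℝ) ^ 2 * (4 * k0 * (E + 1 / M)) =
        4 * k0 * ((M : ℝ) ^ 2 * E) + 4 * k0 * M := by
      field_simp
    rw [h8]
    have hk0 : (0 : ℝ) ≤ k0 := by positivity
    have h9 : 0 ≤ (k0 : ℝ) * ((M : ℝ) ^ 2 * E) := by positivity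
    have h10 : (k0 : ℝ) * (4 * 4 ^ k + 2) ≤ k0 * M := mul_le_mul_of_nonneg_left hfour hk0
    have h11 := hsh.trans (add_le_add_left hcard _)
    nlinarith
  exact le_of_mul_le_mul_left hfin hMsq

end Pool.Agent.Lib.VK
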