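import Mathlib

/-!
# VK P2, Hs: choice of the parameters

`Y = log X`.  `M = Nat.sqrt (Nat.sqrt k0)`: `M^4 ≤ k0 < (M+1)^4 ≤ 16 M^4`.  `k` = the least natural number with
`t^2 ≤ k0^k` (`Nat.find`; `k0 ≥ 2`); then `k ≥ 1` and `k0^(k-1) ≤ t^2`; since `k0^39 ≤ t^2`, `k ≥ 39`; if `k = 39` then
`t^2 = k0^39` and one may take `k = 40` (`k0^39 ≤ t^2 ≤ k0^40`): so choose `k` = the least number `≥ 40` with `t^2 ≤ k0^k`.
`k ≤ 5 Y^(1/10)`: `k0^(k-1) ≤ t^2 ≤ X^4` and `log k0 ≥ Y^(9/10)`, so `(k-1) Y^(9/10) ≤ 4 Y`.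
`log M ≥ (1/4) log k0 - log 2 ≥ Y^(9/10)/5`.  So `k^4 ≤ 625 Y^(4/10) ≤ log M`, and
`exp(k^2) M^(-1/(39200 k^2)) ≤ exp(25 Y^(1/5) - Y^(9/10) / (5 * 39200 * 25 * Y^(1/5)))`, which is at most `Y^(-A)/16` for large
`Y` (`Y^(7/10)` against `Y^(1/5)` and `log Y`); `1/M ≤ Y^(-A)/16`.
-/

set_option autoImplicit false

namespace Pool.Agent.Lib.VK

open Finset

private theorem hs_ev (A : ℕ) : ∃ u0 : ℝ, 100 ≤ u0 ∧ ∀ u : ℝ, u0 ≤ u → 8 * u ^ (10 * A) ≤ Real.exp u := by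
  have h := (Real.tendsto_exp_div_pow_atTop (10 * A)).eventually_ge_atTop 8
  obtain ⟨u1, hu1⟩ := Filter.eventually_atTop.1 h
  refine ⟨max u1 100, le_max_right _ _, fun u hu => ?_⟩
  have h1 := hu1 u (le_trans (le_max_left _ _) hu)
  have h2 : (100 : ℝ) ≤ u := le_trans (le_max_right _ _) hu
  have h3 : (0 : ℝ) < u ^ (10 * A) := by positivity
  rwa [le_div_iff₀ h3] at h1

/-- the choice in terms of `u = Y^(1/10)` -/
private theorem hs_main (A : ℕ) (u : ℝ) (hu : 100 ≤ u) (hev : 8 * u ^ (10 * A) ≤ Real.exp u)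
    (X : ℝ) (_hX : 0 < X) (hlog : Real.log X = u ^ 10) (k0 : ℕ) (t : ℝ)
    (hk0 : Real.exp (u ^ 9) ≤ k0) (ht : 0 ≤ t) (h39 : (k0 : ℝ) ^ 39 ≤ t ^ 2) (htX : t ≤ X ^ 2) :
    ∃ k M : ℕ, 40 ≤ k ∧ 1 ≤ M ∧ Real.exp ((k : ℝ) ^ 4) ≤ M ∧ M ^ 4 ≤ k0 ∧ k0 ≤ 16 * M ^ 4 ∧
      (k0 : ℝ) ^ (k - 1) ≤ t ^ 2 ∧ t ^ 2 ≤ (k0 : ℝ) ^ k ∧
      4 * (Real.exp ((k : ℝ) ^ 2) * (M : ℝ) ^ (-(1 / (39200 * (k : ℝ) ^ 2))) + 1 / M) ≤
        1 / (u ^ 10) ^ A := by
  have hu0 : (0 : ℝ) < u := by linarith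
  have hu9 : (1 : ℝ) ≤ u ^ 9 := one_le_pow₀ (by linarith)
  have hk0two : (2 : ℝ) ≤ k0 := by
    have := Real.add_one_le_exp (u ^ 9)
    linarith
  have hk0pos : (0 : ℝ) < k0 := by linarith
  have hlk0 : u ^ 9 ≤ Real.log k0 := by
    rw [Real.le_log_iff_exp_le hk0pos]
    exact hk0
  -- the choice of `k`
  have hex : ∃ k : ℕ, 40 ≤ k ∧ t ^ 2 ≤ (k0 : ℝ) ^ k := by
    obtain ⟨n, hn⟩ := pow_unbounded_of_one_lt (t ^ 2) (show (1 : ℝ) < k0 by linarith)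
    refine ⟨max n 40, le_max_right _ _, hn.le.trans ?_⟩
    exact pow_le_pow_right₀ (by linarith) (le_max_left _ _)
  classical
  obtain ⟨hk40, hkt⟩ := Nat.find_spec hex
  set k := Nat.find hex with hkdef
  have hkm : (k0 : ℝ) ^ (k - 1) ≤ t ^ 2 := by
    rcases Nat.lt_or_ge 40 k with h | h
    · have h1 := Nat.find_min hex (m := k - 1) (by omega)
      rw [not_and] at h1
      have h2 := h1 (by omega)
      exact (not_le.1 h2).le
    · have : k = 40 := le_antisymm h hk40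
      rw [this]
      exact h39
  have hk5 : (k : ℝ) ≤ 5 * u := by
    have hT : (0 : ℝ) < (k0 : ℝ) ^ (k - 1) := by positivity
    have h1 : Real.log ((k0 : ℝ) ^ (k - 1)) ≤ Real.log (X ^ 4) := by
      apply Real.log_le_log hT
      calc (k0 : ℝ) ^ (k - 1) ≤ t ^ 2 := hkm
        _ ≤ (X ^ 2) ^ 2 := pow_le_pow_left₀ ht htX 2
        _ = X ^ 4 := by ring
    rw [Real.log_pow, Real.log_pow, hlog] at h1
    have hc : ((k - 1 : ℕ) : ℝ) = (k : ℝ) - 1 := by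
      rw [Nat.cast_sub (by omega)]
      simp
    rw [hc] at h1
    have hk1 : (0 : ℝ) ≤ (k : ℝ) - 1 := by
      have : (40 : ℝ) ≤ k := by exact_mod_cast hk40
      linarith
    have h2 : ((k : ℝ) - 1) * u ^ 9 ≤ 4 * u ^ 10 := by
      calc ((k : ℝ) - 1) * u ^ 9 ≤ ((k : ℝ) - 1) * Real.log k0 := mul_le_mul_of_nonneg_left hlk0 hk1
        _ ≤ 4 * u ^ 10 := by exact_mod_cast h1
    have h3 : ((k : ℝ) - 1) ≤ 4 * u := by
      have h4 : ((k : ℝ) - 1) * u ^ 9 ≤ (4 * u) * u ^ 9 := by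
        calc ((k : ℝ) - 1) * u ^ 9 ≤ 4 * u ^ 10 := h2
          _ = (4 * u) * u ^ 9 := by ring
      exact le_of_mul_le_mul_right h4 (by positivity)
    linarith
  have hk40R : (40 : ℝ) ≤ k := by exact_mod_cast hk40
  -- the choice of `M`
  set M := Nat.sqrt (Nat.sqrt k0) with hM
  have hMle : M ^ 4 ≤ k0 := by
    have h1 : M ^ 2 ≤ Nat.sqrt k0 := Nat.sqrt_le' _
    have h2 : (Nat.sqrt k0) ^ 2 ≤ k0 := Nat.sqrt_le' _
    calc M ^ 4 = (M ^ 2) ^ 2 := by ring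
      _ ≤ (Nat.sqrt k0) ^ 2 := Nat.pow_le_pow_left h1 2
      _ ≤ k0 := h2
  have hk0N : 2 ≤ k0 := by exact_mod_cast hk0two
  have hM1 : 1 ≤ M := by
    have h1 : 1 ≤ Nat.sqrt k0 := by
      rw [Nat.le_sqrt']
      omega
    rw [hM, Nat.le_sqrt']
    omega
  have hMge : k0 ≤ 16 * M ^ 4 := by
    have h1 : Nat.sqrt k0 < (M + 1) ^ 2 := Nat.lt_succ_sqrt' _
    have h2 : k0 < (Nat.sqrt k0 + 1) ^ 2 := Nat.lt_succ_sqrt' _
    calc k0 ≤ (Nat.sqrt k0 + 1) ^ 2 := h2.le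
      _ ≤ ((M + 1) ^ 2) ^ 2 := Nat.pow_le_pow_left h1 2
      _ ≤ ((2 * M) ^ 2) ^ 2 := Nat.pow_le_pow_left (Nat.pow_le_pow_left (by omega) 2) 2
      _ = 16 * M ^ 4 := by ring
  have hMpos : (0 : ℝ) < M := by exact_mod_cast hM1
  have hlM : u ^ 9 / 5 ≤ Real.log M := by
    have h1 : Real.log k0 ≤ Real.log (16 * (M : ℝ) ^ 4) := by
      apply Real.log_le_log hk0pos
      exact_mod_cast hMge
    rw [Real.log_mul (by norm_num) (by positivity), Real.log_pow] at h1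
    have h2 : Real.log 16 ≤ 15 := by
      have := Real.log_le_sub_one_of_pos (show (0 : ℝ) < 16 by norm_num)
      linarith
    have h3 : (300 : ℝ) ≤ u ^ 9 := by
      have : (100 : ℝ) ^ 9 ≤ u ^ 9 := pow_le_pow_left₀ (by norm_num) hu 9
      norm_num at this
      linarith
    push_cast at h1
    linarith
  have hk4 : (k : ℝ) ^ 4 ≤ Real.log M := by
    have h1 : (k : ℝ) ^ 4 ≤ (5 * u) ^ 4 := pow_le_pow_left₀ (by positivity) hk5 4
    have h2 : (3125 : ℝ) ≤ u ^ 5 := by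
      have : (100 : ℝ) ^ 5 ≤ u ^ 5 := pow_le_pow_left₀ (by norm_num) hu 5
      norm_num at this
      linarith
    have h3 : (3125 : ℝ) * u ^ 4 ≤ u ^ 9 := by
      calc (3125 : ℝ) * u ^ 4 ≤ u ^ 5 * u ^ 4 := mul_le_mul_of_nonneg_right h2 (by positivity)
        _ = u ^ 9 := by ring
    calc (k : ℝ) ^ 4 ≤ (5 * u) ^ 4 := h1
      _ = 625 * u ^ 4 := by ring
      _ ≤ u ^ 9 / 5 := by linarith
      _ ≤ Real.log M := hlM
  have hupow : (u ^ 10) ^ A = u ^ (10 * A) := (pow_mul u 10 A).symm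
  have hup : (0 : ℝ) < u ^ (10 * A) := by positivity
  have hexpu : Real.exp (-u) ≤ 1 / (8 * u ^ (10 * A)) := by
    rw [Real.exp_neg, ← one_div]
    exact one_div_le_one_div_of_le (by positivity) hev
  refine ⟨k, M, hk40, hM1, ?_, hMle, hMge, hkm, hkt, ?_⟩
  · rw [← Real.le_log_iff_exp_le hMpos]
    exact hk4
  · have hA1 : Real.exp ((k : ℝ) ^ 2) * (M : ℝ) ^ (-(1 / (39200 * (k : ℝ) ^ 2))) ≤ Real.exp (-u) := by
      rw [Real.rpow_def_of_pos hMpos, ← Real.exp_add]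
      apply Real.exp_le_exp.2
      have hk2 : (k : ℝ) ^ 2 ≤ 25 * u ^ 2 := by
        calc (k : ℝ) ^ 2 ≤ (5 * u) ^ 2 := pow_le_pow_left₀ (by positivity) hk5 2
          _ = 25 * u ^ 2 := by ring
      have hk2pos : (0 : ℝ) < (k : ℝ) ^ 2 := by positivity
      have h1 : u ^ 7 / 4900000 ≤ Real.log M * (1 / (39200 * (k : ℝ) ^ 2)) := by
        rw [mul_one_div, le_div_iff₀ (by positivity)]
        calc u ^ 7 / 4900000 * (39200 * (k : ℝ) ^ 2)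
            ≤ u ^ 7 / 4900000 * (39200 * (25 * u ^ 2)) := by
              apply mul_le_mul_of_nonneg_left _ (by positivity)
              linarith
          _ = u ^ 9 / 5 := by ring
          _ ≤ Real.log M := hlM
      have h2 : (127400000 : ℝ) ≤ u ^ 5 := by
        have : (100 : ℝ) ^ 5 ≤ u ^ 5 := pow_le_pow_left₀ (by norm_num) hu 5
        norm_num at this
        linarith
      have h3 : (127400000 : ℝ) * u ^ 2 ≤ u ^ 7 := by
        calc (127400000 : ℝ) * u ^ 2 ≤ u ^ 5 * u ^ 2 := mul_le_mul_of_nonneg_right h2 (by positivity)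
          _ = u ^ 7 := by ring
      have h4 : u ≤ u ^ 2 := by nlinarith
      have h5 : Real.log M * (-(1 / (39200 * (k : ℝ) ^ 2))) =
          -(Real.log M * (1 / (39200 * (k : ℝ) ^ 2))) := by ring
      rw [h5]
      linarith
    have hA2 : 1 / (M : ℝ) ≤ Real.exp (-u) := by
      have h1 : Real.exp u ≤ M := by
        rw [← Real.le_log_iff_exp_le hMpos]
        have h2 : (5 : ℝ) ≤ u ^ 8 := by
          have : (100 : ℝ) ^ 8 ≤ u ^ 8 := pow_le_pow_left₀ (by norm_num) hu 8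
          norm_num at this
          linarith
        have h3 : 5 * u ≤ u ^ 9 := by
          calc 5 * u ≤ u ^ 8 * u := mul_le_mul_of_nonneg_right h2 hu0.le
            _ = u ^ 9 := by ring
        linarith
      rw [Real.exp_neg, ← one_div]
      exact one_div_le_one_div_of_le (Real.exp_pos _) h1
    rw [hupow]
    have h8 : 1 / (8 * u ^ (10 * A)) = (1 / 8) * (1 / u ^ (10 * A)) := by
      rw [one_div_mul_one_div]
    rw [h8] at hexpu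
    linarith

theorem params (A : ℕ) : ∃ x0 : ℝ, ∀ X : ℝ, x0 ≤ X → ∀ (k0 : ℕ) (t : ℝ),
    Real.exp ((Real.log X) ^ (9 / 10 : ℝ)) ≤ k0 → 0 ≤ t → (k0 : ℝ) ^ 39 ≤ t ^ 2 → t ≤ X ^ 2 →
    ∃ k M : ℕ, 40 ≤ k ∧ 1 ≤ M ∧ Real.exp ((k : ℝ) ^ 4) ≤ M ∧ M ^ 4 ≤ k0 ∧ k0 ≤ 16 * M ^ 4 ∧
      (k0 : ℝ) ^ (k - 1) ≤ t ^ 2 ∧ t ^ 2 ≤ (k0 : ℝ) ^ k ∧
      4 * (Real.exp ((k : ℝ) ^ 2) * (M : ℝ) ^ (-(1 / (39200 * (k : ℝ) ^ 2))) + 1 / M) ≤
        1 / (Real.log X) ^ A := by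
  obtain ⟨u0, hu0, hev⟩ := hs_ev A
  refine ⟨Real.exp (u0 ^ 10), fun X hX k0 t hk0 ht h39 htX => ?_⟩
  have hXpos : 0 < X := lt_of_lt_of_le (Real.exp_pos _) hX
  have hY : u0 ^ 10 ≤ Real.log X := by
    rw [Real.le_log_iff_exp_le hXpos]
    exact hX
  have hu0pos : (0 : ℝ) < u0 := by linarith
  have hYpos : 0 < Real.log X := lt_of_lt_of_le (by positivity) hY
  set u := (Real.log X) ^ (1 / 10 : ℝ) with hu
  have hupos : 0 < u := Real.rpow_pos_of_pos hYpos _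
  have hu10 : u ^ 10 = Real.log X := by
    rw [hu, ← Real.rpow_natCast, ← Real.rpow_mul hYpos.le]
    norm_num
  have hu9 : u ^ 9 = (Real.log X) ^ (9 / 10 : ℝ) := by
    rw [hu, ← Real.rpow_natCast, ← Real.rpow_mul hYpos.le]
    norm_num
  have hle : u0 ≤ u := by
    rw [← hu10] at hY
    exact le_of_pow_le_pow_left₀ (by norm_num) hupos.le hY
  rw [← hu9] at hk0
  have := hs_main A u (by linarith) (hev u hle) X hXpos hu10.symm k0 t hk0 ht h39 htX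
  rw [hu10] at this
  exact this

end Pool.Agent.Lib.VK
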