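import Pool.Agent.Lib.VK.Hd
import Pool.Agent.Lib.VK.Hr
import Pool.Agent.Lib.VK.Hs
import Pool.Agent.Lib.MP_092512_nt.VC.V3

/-!
# VK P2, Ht: all ranges

For `t < 0` take the conjugate (`‖∑ ei (-θ)‖ = ‖∑ ei θ‖`), so `t > 0` (`C ≥ 1`).  `Y = log X`, `C = 2A + 4`.
(1) `k0^39 ≤ t^2`: `params` and `block` (the hypothesis `hJ` for the `k, M` of `params`).
(2) `t^2 < k0^39`, `k0 ≤ X^(1/10)`: `VDC.vc (2A) (1/20)` with `x = k0^20 ≤ X^2`: `x^(1/20) = k0`, `t ≤ k0^20 = x`,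
`(log x)^(2A+3) ≤ (2Y)^(2A+3) ≤ Y^C ≤ t`; the bound is `k0 / (log x)^(2A)` and `log x = 20 log k0 ≥ Y^(9/10)`,
`(Y^(9/10))^(2A) ≥ Y^A`.
(3) `k0 > X^(1/10)`: `vc (2A) (1/20)` with `x = X^2`: `x^(1/20) = X^(1/10) ≤ k0`, `t ≤ X^2`, `(2Y)^(2A+3) ≤ Y^C`, the bound is
`k0 / (2Y)^(2A)`.
-/

set_option autoImplicit false

namespace Pool.Agent.Lib.VK

open Finset

private theorem ht_conj (θ : ℝ) : (starRingEnd ℂ) (ei θ) = ei (-θ) := by
  unfold ei
  rw [← Complex.exp_conj]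
  congr 1
  simp

private theorem ht_norm (t c : ℝ) (k0 k1 : ℕ) :
    ‖∑ k ∈ Ioc k0 k1, Complex.exp (Complex.I * (t * Real.log (k + c)))‖ =
      ‖∑ n ∈ Ioc k0 k1, ei (|t| * Real.log (n + c))‖ := by
  have h0 : ∑ k ∈ Ioc k0 k1, Complex.exp (Complex.I * (t * Real.log (k + c))) =
      ∑ n ∈ Ioc k0 k1, ei (t * Real.log (n + c)) := by
    refine Finset.sum_congr rfl fun n _ => ?_
    unfold ei
    congr 2
    push_cast
    rfl
  rw [h0]
  rcases le_total 0 t with h | h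
  · rw [abs_of_nonneg h]
  · rw [abs_of_nonpos h]
    have h1 : ∑ n ∈ Ioc k0 k1, ei (-t * Real.log (n + c)) =
        (starRingEnd ℂ) (∑ n ∈ Ioc k0 k1, ei (t * Real.log (n + c))) := by
      rw [map_sum]
      refine Finset.sum_congr rfl fun n _ => ?_
      rw [ht_conj, neg_mul]
    rw [h1, RCLike.norm_conj]

theorem vkc (hJ : ∀ k M : ℕ, 2 ≤ k → 1 ≤ M → (J (7 * k ^ 2) k M : ℝ) ≤ Real.exp (80 * (k : ℝ) ^ 6) *
      (M : ℝ) ^ ((14 * (k : ℝ) ^ 2) - k * (k + 1) / 2 + (k : ℝ) ^ 2 / 1000)) (A : ℕ) :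
    ∃ (C : ℕ) (x0 : ℝ), ∀ X : ℝ, x0 ≤ X → ∀ t : ℝ, (Real.log X) ^ C ≤ |t| → |t| ≤ X ^ 2 →
    ∀ k0 k1 : ℕ, Real.exp ((Real.log X) ^ (9 / 10 : ℝ)) ≤ k0 → k1 ≤ 2 * k0 + 2 →
    ∀ c : ℝ, 0 ≤ c → c ≤ 1 →
    ‖∑ k ∈ Ioc k0 k1, Complex.exp (Complex.I * (t * Real.log (k + c)))‖
      ≤ k0 / (Real.log X) ^ A := by
  obtain ⟨xP, hP⟩ := params A
  obtain ⟨xV, hxV1, hV⟩ := VDC.vc (2 * A) (1 / 20) (by norm_num)
  set u0 : ℝ := xV + 2 ^ (2 * A + 3) with hu0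
  have hpow2 : (1 : ℝ) ≤ 2 ^ (2 * A + 3) := one_le_pow₀ (by norm_num)
  have hu0V : xV ≤ u0 := by rw [hu0]; linarith
  have hu02 : (2 : ℝ) ^ (2 * A + 3) ≤ u0 := by rw [hu0]; linarith
  have hu01 : 1 ≤ u0 := hxV1.trans hu0V
  refine ⟨2 * A + 4, max xP (Real.exp (u0 ^ 10)), fun X hX t ht1 ht2 k0 k1 hk0 hk1 c hc0 hc1 => ?_⟩
  have hXP : xP ≤ X := (le_max_left _ _).trans hX
  have hXe : Real.exp (u0 ^ 10) ≤ X := (le_max_right _ _).trans hX
  have hXpos : 0 < X := lt_of_lt_of_le (Real.exp_pos _) hXe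
  have hY : u0 ^ 10 ≤ Real.log X := by
    rw [Real.le_log_iff_exp_le hXpos]
    exact hXe
  set Y := Real.log X with hYdef
  have hYpos : 0 < Y := lt_of_lt_of_le (by positivity) hY
  set u := Y ^ (1 / 10 : ℝ) with hu
  have hupos : 0 < u := Real.rpow_pos_of_pos hYpos _
  have hu10 : u ^ 10 = Y := by
    rw [hu, ← Real.rpow_natCast, ← Real.rpow_mul hYpos.le]
    norm_num
  have hu9 : u ^ 9 = Y ^ (9 / 10 : ℝ) := by
    rw [hu, ← Real.rpow_natCast, ← Real.rpow_mul hYpos.le]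
    norm_num
  have hle : u0 ≤ u := by
    rw [← hu10] at hY
    exact le_of_pow_le_pow_left₀ (by norm_num) hupos.le hY
  have hu1 : 1 ≤ u := hu01.trans hle
  have huY : u ≤ Y := by
    rw [← hu10]
    exact le_self_pow₀ hu1 (by norm_num)
  have hY1 : 1 ≤ Y := hu1.trans huY
  have hY2 : (2 : ℝ) ^ (2 * A + 3) ≤ Y := (hu02.trans hle).trans huY
  have hX1 : 1 ≤ X := by
    have := Real.add_one_le_exp (u0 ^ 10)
    have h2 : (0 : ℝ) ≤ u0 ^ 10 := by positivity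
    linarith
  have hk0w : u ^ 9 + 1 ≤ (k0 : ℝ) := by
    have := Real.add_one_le_exp (Y ^ (9 / 10 : ℝ))
    rw [hu9]
    linarith
  have hu9u : u ≤ u ^ 9 := le_self_pow₀ hu1 (by norm_num)
  have hk01 : (1 : ℝ) ≤ k0 := by linarith
  have hk0pos : (0 : ℝ) < k0 := by linarith
  -- the power condition
  have hpc : (2 * Y) ^ (2 * A + 3) ≤ |t| := by
    calc (2 * Y) ^ (2 * A + 3) = 2 ^ (2 * A + 3) * Y ^ (2 * A + 3) := mul_pow _ _ _
      _ ≤ Y * Y ^ (2 * A + 3) := mul_le_mul_of_nonneg_right hY2 (by positivity)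
      _ = Y ^ (2 * A + 4) := by ring
      _ ≤ |t| := ht1
  by_cases hc39 : (k0 : ℝ) ^ 39 ≤ |t| ^ 2
  · -- range (1)
    obtain ⟨k, M, hk40, hM1, hMe, hMk, hkM, hkt, htk, hfin⟩ :=
      hP X hXP k0 |t| hk0 (abs_nonneg _) hc39 ht2
    have hb := block k M k0 k1 |t| c hk40 hMe (hJ k M (by omega) hM1) hMk hkM hk1 hc0 hc1
      (abs_nonneg _) hkt htk
    rw [ht_norm]
    refine hb.trans ?_
    calc 4 * (k0 : ℝ) * (Real.exp ((k : ℝ) ^ 2) * (M : ℝ) ^ (-(1 / (39200 * (k : ℝ) ^ 2))) + 1 / M)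
        = k0 * (4 * (Real.exp ((k : ℝ) ^ 2) * (M : ℝ) ^ (-(1 / (39200 * (k : ℝ) ^ 2))) + 1 / M)) := by ring
      _ ≤ k0 * (1 / Y ^ A) := mul_le_mul_of_nonneg_left hfin hk0pos.le
      _ = k0 / Y ^ A := by ring
  · have hc39' := (not_le.1 hc39).le
    by_cases hkX : (k0 : ℝ) ≤ X ^ (1 / 10 : ℝ)
    · -- range (2)
      have hx : xV ≤ (k0 : ℝ) ^ 20 := by
        have : (k0 : ℝ) ≤ (k0 : ℝ) ^ 20 := le_self_pow₀ hk01 (by norm_num)
        linarith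
      have hlx : Real.log ((k0 : ℝ) ^ 20) = 20 * Real.log k0 := by
        rw [Real.log_pow]
        norm_num
      have hlk : Real.log k0 ≤ Y / 10 := by
        have := Real.log_le_log hk0pos hkX
        rw [Real.log_rpow hXpos] at this
        linarith
      have hlk2 : u ^ 9 ≤ Real.log k0 := by
        rw [Real.le_log_iff_exp_le hk0pos, hu9]
        exact hk0
      have hlk0 : 0 ≤ Real.log k0 := le_trans (by positivity) hlk2
      have hA1 : (Real.log ((k0 : ℝ) ^ 20)) ^ (2 * A + 3) ≤ |t| := by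
        refine le_trans (pow_le_pow_left₀ ?_ ?_ _) hpc
        · rw [hlx]; linarith
        · rw [hlx]; linarith
      have hA2 : |t| ≤ 2 * (k0 : ℝ) ^ 20 := by
        have h1 : |t| ^ 2 ≤ ((k0 : ℝ) ^ 20) ^ 2 := by
          calc |t| ^ 2 ≤ (k0 : ℝ) ^ 39 := hc39'
            _ ≤ (k0 : ℝ) ^ 40 := pow_le_pow_right₀ hk01 (by norm_num)
            _ = ((k0 : ℝ) ^ 20) ^ 2 := by ring
        have h2 : |t| ≤ (k0 : ℝ) ^ 20 := le_of_pow_le_pow_left₀ (by norm_num) (by positivity) h1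
        have h3 : (0 : ℝ) ≤ (k0 : ℝ) ^ 20 := by positivity
        linarith
      have hA3 : ((k0 : ℝ) ^ 20) ^ (1 / 20 : ℝ) ≤ k0 := by
        rw [← Real.rpow_natCast, ← Real.rpow_mul hk0pos.le]
        norm_num
      refine (hV ((k0 : ℝ) ^ 20) hx t hA1 hA2 k0 k1 hA3 hk1 c hc0 hc1).trans ?_
      apply div_le_div_of_nonneg_left hk0pos.le (by positivity)
      calc Y ^ A = u ^ (10 * A) := by rw [← hu10, ← pow_mul]
        _ ≤ u ^ (18 * A) := pow_le_pow_right₀ hu1 (by omega)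
        _ = (u ^ 9) ^ (2 * A) := by rw [← pow_mul]; congr 1; ring
        _ ≤ (Real.log ((k0 : ℝ) ^ 20)) ^ (2 * A) := by
          apply pow_le_pow_left₀ (by positivity)
          rw [hlx]
          linarith
    · -- range (3)
      have hkX' := (not_le.1 hkX).le
      have hX2 : X ≤ X ^ 2 := le_self_pow₀ hX1 (by norm_num)
      have hx : xV ≤ X ^ 2 := by
        have h1 := Real.add_one_le_exp (u0 ^ 10)
        have h2 : u0 ≤ u0 ^ 10 := le_self_pow₀ hu01 (by norm_num)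
        linarith
      have hlx : Real.log (X ^ 2) = 2 * Y := by
        rw [Real.log_pow, hYdef]
        norm_num
      have hA1 : (Real.log (X ^ 2)) ^ (2 * A + 3) ≤ |t| := by rw [hlx]; exact hpc
      have hA2 : |t| ≤ 2 * X ^ 2 := by
        have : (0 : ℝ) ≤ X ^ 2 := by positivity
        linarith
      have hA3 : (X ^ 2) ^ (1 / 20 : ℝ) ≤ k0 := by
        refine le_trans (le_of_eq ?_) hkX'
        rw [← Real.rpow_natCast, ← Real.rpow_mul hXpos.le]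
        norm_num
      refine (hV (X ^ 2) hx t hA1 hA2 k0 k1 hA3 hk1 c hc0 hc1).trans ?_
      apply div_le_div_of_nonneg_left hk0pos.le (by positivity)
      rw [hlx]
      calc Y ^ A ≤ Y ^ (2 * A) := pow_le_pow_right₀ hY1 (by omega)
        _ ≤ (2 * Y) ^ (2 * A) := pow_le_pow_left₀ (by linarith) (by linarith) _

end Pool.Agent.Lib.VK
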