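import Pool.Agent.Lib.VK.Hd
import Pool.Agent.Lib.DN.ProgL

/-!
# VK P2, Hu: progressions

Copy of the proof of `DN.prog_large` (DN/ProgL.lean) with `vkc` in place of `VDC.vc`: `δ = 1/20`, `C` of `hvk A`.  By
`prog_eq` and `nt_prog` the sum is, up to a factor of absolute value 1, the sum over `Ioc k0 k1` with `c = s/r`,
`k0 = (a-s)/r`, `k1 = (b-s)/r ≤ 2 k0 + 2`.  `k0 ≥ a/r - 2 ≥ exp(Y^(19/20)) / Y^B - 2 ≥ exp(Y^(9/10))` for large `Y = log X`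
(so `s < r ≤ a`).  `r k0 ≤ a` gives the bound.  If `b < a` the sum is empty.
-/

set_option autoImplicit false

namespace Pool.Agent.Lib.VK

open Finset

open Pool.Agent.Lib.DN (nt)

private theorem hu_ev (B : ℕ) : ∃ Y0 : ℝ, ∀ Y : ℝ, Y0 ≤ Y → 1 ≤ Y ∧
    Y ^ B * (Real.exp (Y ^ (9 / 10 : ℝ)) + 2) ≤ Real.exp (Y ^ (19 / 20 : ℝ)) := by
  have h1 : ∀ᶠ Y : ℝ in Filter.atTop,
      ‖Real.log Y‖ ≤ (1 / (3 * ((B : ℝ) + 1))) * ‖Y ^ (19 / 20 : ℝ)‖ :=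
    (isLittleO_log_rpow_atTop (by norm_num)).def (by positivity)
  have h2 : ∀ᶠ Y : ℝ in Filter.atTop, 3 ≤ Y ^ (1 / 20 : ℝ) :=
    (tendsto_rpow_atTop (by norm_num)).eventually_ge_atTop 3
  have h3 : ∀ᶠ Y : ℝ in Filter.atTop, 3 * Real.log 3 ≤ Y ^ (19 / 20 : ℝ) :=
    (tendsto_rpow_atTop (by norm_num)).eventually_ge_atTop _
  obtain ⟨Y0, hY0⟩ := Filter.eventually_atTop.1 (h1.and (h2.and (h3.and (Filter.eventually_ge_atTop 1))))
  refine ⟨Y0, fun Y hY => ?_⟩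
  obtain ⟨a1, a2, a3, a4⟩ := hY0 Y hY
  refine ⟨a4, ?_⟩
  have hYpos : 0 < Y := by linarith
  have hP : 0 < Y ^ (19 / 20 : ℝ) := Real.rpow_pos_of_pos hYpos _
  have hQ : 0 < Y ^ (9 / 10 : ℝ) := Real.rpow_pos_of_pos hYpos _
  have hlog : 0 ≤ Real.log Y := Real.log_nonneg a4
  rw [Real.norm_of_nonneg hlog, Real.norm_of_nonneg hP.le] at a1
  have b1 : (B : ℝ) * Real.log Y ≤ Y ^ (19 / 20 : ℝ) / 3 := by
    have hB : (0 : ℝ) ≤ B := Nat.cast_nonneg B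
    calc (B : ℝ) * Real.log Y ≤ (B + 1) * Real.log Y :=
          mul_le_mul_of_nonneg_right (by linarith) hlog
      _ ≤ (B + 1) * ((1 / (3 * ((B : ℝ) + 1))) * Y ^ (19 / 20 : ℝ)) :=
          mul_le_mul_of_nonneg_left a1 (by positivity)
      _ = Y ^ (19 / 20 : ℝ) / 3 := by
          field_simp
  have b2 : Y ^ (9 / 10 : ℝ) ≤ Y ^ (19 / 20 : ℝ) / 3 := by
    have e : Y ^ (19 / 20 : ℝ) = Y ^ (1 / 20 : ℝ) * Y ^ (9 / 10 : ℝ) := by
      rw [← Real.rpow_add hYpos]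
      norm_num
    rw [e, le_div_iff₀ (by norm_num)]
    nlinarith
  have b3 : Real.log 3 ≤ Y ^ (19 / 20 : ℝ) / 3 := by linarith
  have e1 : Y ^ B = Real.exp (B * Real.log Y) := by
    rw [Real.exp_nat_mul, Real.exp_log hYpos]
  have e2 : Real.exp (Y ^ (9 / 10 : ℝ)) + 2 ≤ 3 * Real.exp (Y ^ (9 / 10 : ℝ)) := by
    have := Real.one_le_exp hQ.le
    linarith
  calc Y ^ B * (Real.exp (Y ^ (9 / 10 : ℝ)) + 2)
      ≤ Y ^ B * (3 * Real.exp (Y ^ (9 / 10 : ℝ))) :=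
        mul_le_mul_of_nonneg_left e2 (by positivity)
    _ = Real.exp (B * Real.log Y) * (Real.exp (Real.log 3) * Real.exp (Y ^ (9 / 10 : ℝ))) := by
        rw [e1, Real.exp_log (by norm_num : (0 : ℝ) < 3)]
    _ = Real.exp (B * Real.log Y + (Real.log 3 + Y ^ (9 / 10 : ℝ))) := by
        rw [Real.exp_add, Real.exp_add]
    _ ≤ Real.exp (Y ^ (19 / 20 : ℝ)) := by
        apply Real.exp_le_exp.2
        linarith

theorem zs_of (hvk : ∀ A : ℕ, ∃ (C : ℕ) (x0 : ℝ), ∀ X : ℝ, x0 ≤ X → ∀ t : ℝ,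
    (Real.log X) ^ C ≤ |t| → |t| ≤ X ^ 2 →
    ∀ k0 k1 : ℕ, Real.exp ((Real.log X) ^ (9 / 10 : ℝ)) ≤ k0 → k1 ≤ 2 * k0 + 2 →
    ∀ c : ℝ, 0 ≤ c → c ≤ 1 →
    ‖∑ k ∈ Ioc k0 k1, Complex.exp (Complex.I * (t * Real.log (k + c)))‖
      ≤ k0 / (Real.log X) ^ A) :
    ∃ δ : ℝ, 0 < δ ∧ δ < 1 ∧ ∀ A B : ℕ, ∃ (C : ℕ) (x0 : ℝ), ∀ X : ℕ, x0 ≤ X →
    ∀ (t : ℝ) (a b r s : ℕ),
    1 ≤ r → (r : ℝ) ≤ (Real.log X) ^ B → s < r → (Real.log X) ^ C ≤ |t| → |t| ≤ (X : ℝ) ^ 2 →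
    Real.exp ((Real.log X) ^ (1 - δ)) ≤ a → b ≤ 2 * a →
    ‖∑ n ∈ (Ioc a b).filter (fun n => n % r = s), nt t n‖ ≤ a / (r * (Real.log X) ^ A) := by
  refine ⟨1 / 20, by norm_num, by norm_num, ?_⟩
  intro A B
  obtain ⟨C, x0, hx0⟩ := hvk A
  obtain ⟨Y0, hY0⟩ := hu_ev B
  refine ⟨C, max x0 (Real.exp Y0), ?_⟩
  intro X hX t a b r s hr hrB hs ht1 ht2 ha hb
  have hxx : x0 ≤ (X : ℝ) := (le_max_left _ _).trans hX
  have hxe : Real.exp Y0 ≤ (X : ℝ) := (le_max_right _ _).trans hX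
  have hXpos : (0 : ℝ) < X := lt_of_lt_of_le (Real.exp_pos _) hxe
  have hY : Y0 ≤ Real.log X := by
    rw [← Real.log_exp Y0]
    exact Real.log_le_log (Real.exp_pos _) hxe
  obtain ⟨hY1, hnum⟩ := hY0 _ hY
  set Y := Real.log (X : ℝ) with hYdef
  have hYpos : 0 < Y := by linarith
  have hr' : (0 : ℝ) < r := by exact_mod_cast hr
  have e120 : (1 - 1 / 20 : ℝ) = 19 / 20 := by norm_num
  rw [e120] at ha
  by_cases hab : a ≤ b
  swap
  · rw [Ioc_eq_empty (by omega)]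
    simp only [filter_empty, sum_empty, norm_zero]
    positivity
  have hE : 0 < Real.exp (Y ^ (9 / 10 : ℝ)) := Real.exp_pos _
  have hra0 : (r : ℝ) * (Real.exp (Y ^ (9 / 10 : ℝ)) + 2) ≤ a :=
    (mul_le_mul_of_nonneg_right hrB (by positivity)).trans (hnum.trans ha)
  have hra : r ≤ a := by
    have h2 : (r : ℝ) ≤ a := by nlinarith
    exact_mod_cast h2
  have hsa : s ≤ a := by omega
  rw [Pool.Agent.Lib.DN.prog_eq t a b r s hr hs hsa hab]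
  set k0 := (a - s) / r with hk0
  set k1 := (b - s) / r with hk1
  have hm0 : r * k0 ≤ a - s := Nat.mul_div_le _ _
  have hm1 : a - s < r * (k0 + 1) := by
    have := Nat.lt_mul_div_succ (a - s) hr
    exact this
  have hm2 : r * k1 ≤ b - s := Nat.mul_div_le _ _
  have hk01 : k1 ≤ 2 * k0 + 2 := by
    by_contra hcon
    push Not at hcon
    have h1 : r * (2 * k0 + 3) ≤ r * k1 := Nat.mul_le_mul_left _ (by omega)
    have h2 : r * (2 * k0 + 3) = 2 * (r * (k0 + 1)) + r := by ring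
    omega
  have hk0x : Real.exp (Y ^ (9 / 10 : ℝ)) ≤ k0 := by
    have h1 : (a : ℝ) - s < r * (k0 + 1) := by
      have h2 : a < s + r * (k0 + 1) := by omega
      have h3 : (a : ℝ) < s + r * (k0 + 1) := by exact_mod_cast h2
      linarith
    have h2 : (s : ℝ) ≤ r := by exact_mod_cast hs.le
    have h4 : (r : ℝ) * Real.exp (Y ^ (9 / 10 : ℝ)) ≤ r * k0 := by
      nlinarith
    exact le_of_mul_le_mul_left h4 hr'
  have hmain := hx0 (X : ℝ) hxx t ht1 ht2 k0 k1 hk0x hk01 ((s : ℝ) / r) (by positivity)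
    (by rw [div_le_one hr']; exact_mod_cast hs.le)
  have heq : ∑ k ∈ Ioc k0 k1, nt t (s + r * k) = Complex.exp (Complex.I * (t * Real.log r)) *
      ∑ k ∈ Ioc k0 k1, Complex.exp (Complex.I * (t * Real.log (k + (s : ℝ) / r))) := by
    rw [Finset.mul_sum]
    apply Finset.sum_congr rfl
    intro k hk
    rw [mem_Ioc] at hk
    exact Pool.Agent.Lib.DN.nt_prog t r s k hr (by omega)
  rw [heq, norm_mul]
  have hn1 : ‖Complex.exp (Complex.I * (t * Real.log r))‖ = 1 := by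
    rw [mul_comm, ← Complex.ofReal_mul, Complex.norm_exp_ofReal_mul_I]
  rw [hn1, one_mul]
  refine hmain.trans ?_
  rw [div_le_div_iff₀ (by positivity) (by positivity)]
  have h5 : (r : ℝ) * k0 ≤ a := by
    have h6 : r * k0 ≤ a := by omega
    exact_mod_cast h6
  have hl : 0 < Y ^ A := by positivity
  nlinarith

end Pool.Agent.Lib.VK
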