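import Pool.Agent.Lib.VK.H2

/-!
# Row J2 (about 50 lines): J_(2s) <= P^(2s) J_s

Write Fin (2s) as Fin (s + s) (2 * s = s + s). For fixed last halves x'' , y'' of x, y (P^(2s) choices) the first halves satisfy
sum pw(x'_i) = sum pw(y'_i) + c with c = sum pw(y''_i) - sum pw(x''_i); by h2 at most mom = J s k P solutions.
(`Fin.sum_univ_add`, `Fin.append`, grouping by the pair of last halves: `Finset.card_le_mul_card_image_of_maps_to`.)
-/

set_option autoImplicit false

open Finset

namespace Pool.Agent.Lib.VK

theorem j2 (s k P : ℕ) : J (s + s) k P ≤ P ^ (2 * s) * J s k P := by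
  classical
  unfold J
  generalize hA : Finset.Icc (1 : ℤ) P = A
  have hcard : A.card = P := by simp [← hA]
  have h := Finset.card_le_mul_card_image_of_maps_to
    (s := ((Fintype.piFinset fun _ : Fin (s + s) => A) ×ˢ
      (Fintype.piFinset fun _ : Fin (s + s) => A)).filter
        (fun z => ∑ i, pw k (z.1 i) = ∑ i, pw k (z.2 i)))
    (t := (Fintype.piFinset fun _ : Fin s => A) ×ˢ (Fintype.piFinset fun _ : Fin s => A))
    (f := fun z => ((fun i : Fin s => z.1 (Fin.natAdd s i)),
      (fun i : Fin s => z.2 (Fin.natAdd s i))))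
    (fun z hz => by
      rw [Finset.mem_filter, Finset.mem_product, Fintype.mem_piFinset, Fintype.mem_piFinset] at hz
      rw [Finset.mem_product, Fintype.mem_piFinset, Fintype.mem_piFinset]
      exact ⟨fun i => hz.1.1 _, fun i => hz.1.2 _⟩) (mom A (pw k) s)
    (fun b _ => by
      refine le_trans (Finset.card_le_card_of_injOn
        (fun z => ((fun i : Fin s => z.1 (Fin.castAdd s i)),
          (fun i : Fin s => z.2 (Fin.castAdd s i)))) ?_ ?_)
        (h2 k A (pw k) s (∑ i, pw k (b.2 i) - ∑ i, pw k (b.1 i)))
      · intro z hz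
        have hz' := Finset.mem_filter.1 (Finset.mem_coe.1 hz)
        obtain ⟨hz1, hzb⟩ := hz'
        rw [Finset.mem_filter, Finset.mem_product, Fintype.mem_piFinset,
          Fintype.mem_piFinset] at hz1
        obtain ⟨⟨hx, hy⟩, he⟩ := hz1
        rw [Finset.mem_coe, Finset.mem_filter, Finset.mem_product, Fintype.mem_piFinset,
          Fintype.mem_piFinset]
        refine ⟨⟨fun i => hx _, fun i => hy _⟩, ?_⟩
        rw [Fin.sum_univ_add, Fin.sum_univ_add] at he
        rw [← hzb]
        show ∑ i : Fin s, pw k (z.1 (Fin.castAdd s i)) =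
          ∑ i : Fin s, pw k (z.2 (Fin.castAdd s i)) +
            (∑ i : Fin s, pw k (z.2 (Fin.natAdd s i)) - ∑ i : Fin s, pw k (z.1 (Fin.natAdd s i)))
        rw [← add_sub_assoc, ← he, add_sub_cancel_right]
      · intro z hz w hw hzw
        have hz' := (Finset.mem_filter.1 (Finset.mem_coe.1 hz)).2
        have hw' := (Finset.mem_filter.1 (Finset.mem_coe.1 hw)).2
        have h0 := hz'.trans hw'.symm
        have h01 := congrArg Prod.fst h0
        have h02 := congrArg Prod.snd h0
        have h11 := congrArg Prod.fst hzw
        have h12 := congrArg Prod.snd hzw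
        refine Prod.ext ?_ ?_
        · funext i
          refine Fin.addCases (fun j => ?_) (fun j => ?_) i
          · exact congrFun h11 j
          · exact congrFun h01 j
        · funext i
          refine Fin.addCases (fun j => ?_) (fun j => ?_) i
          · exact congrFun h12 j
          · exact congrFun h02 j)
  have h1 : ((Fintype.piFinset fun _ : Fin s => A) ×ˢ
      (Fintype.piFinset fun _ : Fin s => A)).card = P ^ (2 * s) := by
    rw [Finset.card_product, Fintype.card_piFinset_const, hcard, ← pow_add]
    congr 1
    simp [two_mul]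
  rw [h1] at h
  rw [mul_comm]
  exact h

end Pool.Agent.Lib.VK
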