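import Mathlib

/-!
# Row Nw (about 60 lines): equal power sums give equal polynomials

Newton's identities: `MvPolynomial.mul_esymm_eq_sum` (j * esymm j = (-1)^(j+1) sum over antidiagonal j, a.1 < j, of
(-1)^a.1 esymm a.1 * psum a.2), evaluated at x and at y (`MvPolynomial.aeval`). By strong induction on j <= k the elementary
symmetric functions of x and y agree (j is a unit). Then prod_i (T - x_i) is a polynomial in T with coefficients
(-1)^j esymm j (`Multiset.prod_X_sub_C_eq_sum_esymm` / `MvPolynomial.prod_C_add_X_eq_sum_esymm` /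
`Finset.prod_X_add_C_eq_sum_esymm`), evaluated at T.
-/

set_option autoImplicit false

open Finset

namespace Pool.Agent.Lib.VK

theorem nw {R : Type} [CommRing R] (k : ℕ) (hu : ∀ j : ℕ, 1 ≤ j → j ≤ k → IsUnit ((j : ℕ) : R))
    (x y : Fin k → R) (h : ∀ j : ℕ, 1 ≤ j → j ≤ k → ∑ i, x i ^ j = ∑ i, y i ^ j) (T : R) :
    ∏ i, (T - x i) = ∏ i, (T - y i) := by
  -- the elementary symmetric functions agree
  have he : ∀ j : ℕ, j ≤ k → MvPolynomial.aeval x (MvPolynomial.esymm (Fin k) R j) =
      MvPolynomial.aeval y (MvPolynomial.esymm (Fin k) R j) := by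
    intro j
    induction j using Nat.strong_induction_on with
    | _ j ih =>
      intro hj
      rcases Nat.eq_zero_or_pos j with rfl | hpos
      · simp
      · have key : ∀ z : Fin k → R, (j : R) * MvPolynomial.aeval z (MvPolynomial.esymm (Fin k) R j) =
            (-1) ^ (j + 1) * ∑ a ∈ antidiagonal j with a.1 < j, (-1) ^ a.1 *
              MvPolynomial.aeval z (MvPolynomial.esymm (Fin k) R a.1) * ∑ i, z i ^ a.2 := by
          intro z
          have h1 := congrArg (MvPolynomial.aeval z) (MvPolynomial.mul_esymm_eq_sum (Fin k) R j)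
          simp only [map_mul, map_natCast, map_pow, map_neg, map_one, map_sum, MvPolynomial.psum,
            MvPolynomial.aeval_X] at h1
          exact h1
        apply (hu j hpos hj).mul_left_cancel
        rw [key x, key y]
        congr 1
        refine Finset.sum_congr rfl fun a ha => ?_
        obtain ⟨ha1, ha2⟩ := Finset.mem_filter.1 ha
        have ha3 := Finset.HasAntidiagonal.mem_antidiagonal.1 ha1
        rw [ih a.1 ha2 (by omega), h a.2 (by omega) (by omega)]
  have hp : ∀ z : Fin k → R, ∏ i, (T - z i) =
      ∑ j ∈ Finset.range (k + 1), (-1) ^ j *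
        (MvPolynomial.aeval z (MvPolynomial.esymm (Fin k) R j) * T ^ (k - j)) := by
    intro z
    have h1 := Multiset.prod_X_sub_X_eq_sum_esymm ((univ : Finset (Fin k)).val.map z)
    have h2 := congrArg (Polynomial.eval T) h1
    simp only [Multiset.map_map, Polynomial.eval_finsetSum, Multiset.card_map, Finset.card_val,
      Finset.card_univ, Fintype.card_fin, Polynomial.eval_mul, Polynomial.eval_pow,
      Polynomial.eval_neg, Polynomial.eval_one, Polynomial.eval_C, Polynomial.eval_X] at h2
    have h3 : Polynomial.eval T (Multiset.map ((fun t => Polynomial.X - Polynomial.C t) ∘ z)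
        (univ : Finset (Fin k)).val).prod = ∏ i, (T - z i) := by
      rw [← Finset.prod_eq_multiset_prod, Polynomial.eval_prod]
      simp
    rw [h3] at h2
    rw [h2]
    refine Finset.sum_congr rfl fun j _ => ?_
    rw [MvPolynomial.aeval_esymm_eq_multiset_esymm]
  rw [hp x, hp y]
  refine Finset.sum_congr rfl fun j hj => ?_
  rw [he j (by have := Finset.mem_range.1 hj; omega)]

end Pool.Agent.Lib.VK
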