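import Pool.Agent.Lib.VK.Vc
import Pool.Agent.Lib.VK.Nw

/-!
# Row L1 (about 100 lines): Linnik's lemma, complete congruences

Let y be one solution (if there is none the set is empty) and x any other. In R = ZMod (p^k) the power sums of
x_i - a and y_i - a of degrees 1, .., k agree, 1, .., k are units of R (k < p: `ZMod.isUnit_iff_coprime` or
`ZMod.unitOfCoprime`), so by nw prod_i (T - (x_i - a)) = prod_i (T - (y_i - a)) for all T in R; T = x_l - a gives
prod_i (x_l - y_i) = 0 mod p^k for every l. Since the y_i are distinct mod p at most one factor is divisible by p,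
so p^k divides x_l - y_i for one i (the other factors are coprime to p: `IsCoprime`, `Int.Prime...`,
`IsCoprime.dvd_of_dvd_mul_right`), and |x_l - y_i| < P <= p^k forces x_l = y_i. So there is tau : Fin k -> Fin k with
x = y o tau, and tau is injective because x is. Hence the set of solutions is contained in the image of
Equiv.Perm (Fin k) under tau -> y o tau, card <= k! (`Finset.card_le_card`, `Finset.card_image_le`, `Fintype.card_perm`).
-/

set_option autoImplicit false

open Finset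

namespace Pool.Agent.Lib.VK

private theorem l1_dvd {p k : ℕ} (hp : p.Prime) (hk1 : 1 ≤ k) (z : Fin k → ℤ)
    (hz : ∀ i j, i ≠ j → ¬ ((p : ℤ) ∣ z i ∧ (p : ℤ) ∣ z j)) (h : ((p : ℤ) ^ k) ∣ ∏ i, z i) :
    ∃ i, ((p : ℤ) ^ k) ∣ z i := by
  have hp' : Prime (p : ℤ) := Nat.prime_iff_prime_int.1 hp
  have h1 : (p : ℤ) ∣ ∏ i, z i := (dvd_pow_self _ (by omega)).trans h
  obtain ⟨i, -, hi⟩ := hp'.exists_mem_finset_dvd h1
  refine ⟨i, ?_⟩
  rw [← Finset.mul_prod_erase _ _ (Finset.mem_univ i)] at h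
  refine IsCoprime.dvd_of_dvd_mul_right (IsCoprime.pow_left ?_) h
  refine IsCoprime.prod_right fun j hj => ?_
  rw [Int.isCoprime_iff_gcd_eq_one, Int.gcd_eq_natAbs, Int.natAbs_natCast]
  rw [← Nat.coprime_iff_gcd_eq_one, Nat.Prime.coprime_iff_not_dvd hp]
  intro hd
  exact hz i j (Finset.ne_of_mem_erase hj).symm ⟨hi, Int.natCast_dvd.2 hd⟩

theorem l1 (p k P : ℕ) (hp : p.Prime) (hk : k < p) (hP : P ≤ p ^ k) (a : ℤ) (H : Fin k → ℤ) :
    ((Dp k p P).filter (fun x => ∀ j : Fin k,
      ((p : ℤ) ^ k) ∣ (∑ i, (x i - a) ^ ((j : ℕ) + 1)) - H j)).card ≤ k.factorial := by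
  classical
  set S := (Dp k p P).filter (fun x => ∀ j : Fin k,
      ((p : ℤ) ^ k) ∣ (∑ i, (x i - a) ^ ((j : ℕ) + 1)) - H j) with hS
  rcases S.eq_empty_or_nonempty with h0 | ⟨y, hy⟩
  · rw [h0, Finset.card_empty]
    exact Nat.zero_le _
  have hmem : ∀ x ∈ S, ((∀ i, 1 ≤ x i ∧ x i ≤ P) ∧
      ∀ i j, i ≠ j → ¬ ((p : ℤ) ∣ x i - x j)) ∧ ∀ j : Fin k,
      ((p : ℤ) ^ k) ∣ (∑ i, (x i - a) ^ ((j : ℕ) + 1)) - H j := by
    intro x hx
    rw [hS, Finset.mem_filter] at hx
    have h1 := hx.1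
    unfold Dp at h1
    rw [Finset.mem_filter, Fintype.mem_piFinset] at h1
    exact ⟨⟨fun i => Finset.mem_Icc.1 (h1.1 i), h1.2⟩, hx.2⟩
  have hyy := hmem y hy
  have hunit : ∀ j : ℕ, 1 ≤ j → j ≤ k → IsUnit ((j : ℕ) : ZMod (p ^ k)) := by
    intro j hj1 hj2
    rw [ZMod.isUnit_iff_coprime]
    apply Nat.Coprime.pow_right
    rw [Nat.coprime_comm, Nat.Prime.coprime_iff_not_dvd hp]
    intro hd
    have := Nat.le_of_dvd (by omega) hd
    omega
  have key : ∀ x ∈ S, ∀ l : Fin k, ∃ i : Fin k, x l = y i := by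
    intro x hx l
    have hxx := hmem x hx
    have hk1 : 1 ≤ k := by have := l.2; omega
    have hps : ∀ j : ℕ, 1 ≤ j → j ≤ k →
        ∑ i, ((x i - a : ℤ) : ZMod (p ^ k)) ^ j = ∑ i, ((y i - a : ℤ) : ZMod (p ^ k)) ^ j := by
      intro j hj1 hj2
      have h1 := hxx.2 ⟨j - 1, by omega⟩
      have h2 := hyy.2 ⟨j - 1, by omega⟩
      have h3 := dvd_sub h1 h2
      have ej : ((⟨j - 1, by omega⟩ : Fin k) : ℕ) + 1 = j := by
        change j - 1 + 1 = j
        omega
      rw [ej] at h3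
      have h4 : ((p ^ k : ℕ) : ℤ) ∣ (∑ i, (x i - a) ^ j) - ∑ i, (y i - a) ^ j := by
        have e : (∑ i, (x i - a) ^ j) - ∑ i, (y i - a) ^ j =
            (∑ i, (x i - a) ^ j) - H ⟨j - 1, by omega⟩ -
              ((∑ i, (y i - a) ^ j) - H ⟨j - 1, by omega⟩) := by ring
        rw [e]
        push_cast
        exact h3
      have h5 := (ZMod.intCast_zmod_eq_zero_iff_dvd _ (p ^ k)).2 h4
      push_cast at h5
      rw [sub_eq_zero] at h5
      push_cast
      exact h5
    have h6 := nw k hunit (fun i => ((x i - a : ℤ) : ZMod (p ^ k)))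
      (fun i => ((y i - a : ℤ) : ZMod (p ^ k))) hps ((x l - a : ℤ) : ZMod (p ^ k))
    have h7 : ∏ i, (((x l - a : ℤ) : ZMod (p ^ k)) - ((x i - a : ℤ) : ZMod (p ^ k))) = 0 :=
      Finset.prod_eq_zero (Finset.mem_univ l) (sub_self _)
    have h8 : ((∏ i, (x l - y i) : ℤ) : ZMod (p ^ k)) = 0 := by
      rw [← h7, h6]
      push_cast
      refine Finset.prod_congr rfl fun i _ => ?_
      ring
    have h9 : ((p ^ k : ℕ) : ℤ) ∣ ∏ i, (x l - y i) := (ZMod.intCast_zmod_eq_zero_iff_dvd _ _).1 h8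
    push_cast at h9
    obtain ⟨i, hi⟩ := l1_dvd hp hk1 (fun i => x l - y i) (by
      rintro i j hij ⟨h10, h11⟩
      apply hyy.1.2 i j hij
      have h12 := dvd_sub h11 h10
      have e : x l - y j - (x l - y i) = y i - y j := by ring
      rwa [e] at h12) h9
    refine ⟨i, ?_⟩
    have h10 : x l - y i = 0 := by
      apply Int.eq_zero_of_abs_lt_dvd hi
      have h11 := hxx.1.1 l
      have h12 := hyy.1.1 i
      have h13 : (P : ℤ) ≤ (p : ℤ) ^ k := by exact_mod_cast hP
      rw [abs_lt]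
      constructor <;> linarith
    linarith
  have hsub : S ⊆ (Finset.univ : Finset (Equiv.Perm (Fin k))).image
      (fun σ : Equiv.Perm (Fin k) => (fun i => y (σ i))) := by
    intro x hx
    have hxx := hmem x hx
    choose τ hτ using key x hx
    have hinj : Function.Injective τ := by
      intro i j hij
      by_contra hne
      apply hxx.1.2 i j hne
      rw [hτ i, hτ j, hij, sub_self]
      exact dvd_zero _
    refine Finset.mem_image.2 ⟨Equiv.ofBijective τ (Finite.injective_iff_bijective.1 hinj),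
      Finset.mem_univ _, ?_⟩
    funext i
    exact (hτ i).symm
  refine (Finset.card_le_card hsub).trans (Finset.card_image_le.trans (le_of_eq ?_))
  rw [Finset.card_univ, Fintype.card_perm, Fintype.card_fin]

end Pool.Agent.Lib.VK
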