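import Pool.Agent.Lib.VK.L1

/-!
# Row L2 (about 80 lines): Linnik's lemma

Map x to the vector H' = (residue in [0, p^k) of sum_i (x_i - a)^(j+1))_j. Its values lie in the set of the H' with
0 <= H'_j < p^k, H'_j = H_j mod p^(j+1), which has prod_j p^(k-j-1) = p^(k(k-1)/2) elements (j = 0, .., k-1;
`Finset.card_piFinset` / `Fintype.card_piFinset`; number of integers in [0,p^k) in a class mod p^(j+1) is p^(k-j-1);
`Finset.sum_range_id_mul_two` for the exponent), and every fibre has at most k! elements by l1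
(`Finset.card_le_mul_card_image_of_maps_to` or `Finset.card_eq_sum_card_fiberwise`).
-/

set_option autoImplicit false

open Finset

namespace Pool.Agent.Lib.VK

private theorem l2_class (p k j : ℕ) (hp : 0 < p) (hj : j < k) (v : ℤ) :
    ((Finset.Ico (0 : ℤ) ((p : ℤ) ^ k)).filter (fun h => ((p : ℤ) ^ (j + 1)) ∣ h - v)).card =
      p ^ (k - 1 - j) := by
  have hr : (0 : ℤ) < (p : ℤ) ^ (j + 1) := by positivity
  have h1 := Int.Ico_filter_modEq_card 0 ((p : ℤ) ^ k) hr v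
  have h2 : (Finset.Ico (0 : ℤ) ((p : ℤ) ^ k)).filter (fun h => ((p : ℤ) ^ (j + 1)) ∣ h - v) =
      (Finset.Ico (0 : ℤ) ((p : ℤ) ^ k)).filter (fun h => h ≡ v [ZMOD (p : ℤ) ^ (j + 1)]) := by
    ext h
    simp only [mem_filter, and_congr_right_iff]
    intro _
    rw [Int.modEq_comm, Int.modEq_iff_dvd]
  rw [h2]
  have h3 : (((((p : ℤ) ^ k : ℤ) : ℚ) - (v : ℚ)) / (((p : ℤ) ^ (j + 1) : ℤ) : ℚ)) =
      (((0 : ℤ) : ℚ) - (v : ℚ)) / (((p : ℤ) ^ (j + 1) : ℤ) : ℚ) + (((p : ℤ) ^ (k - 1 - j) : ℤ) : ℚ) := by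
    have hk : k = (k - 1 - j) + (j + 1) := by omega
    have hr' : (((p : ℤ) ^ (j + 1) : ℤ) : ℚ) ≠ 0 := by exact_mod_cast hr.ne'
    rw [← sub_eq_iff_eq_add', ← sub_div, div_eq_iff hr']
    have : (((p : ℤ) ^ k : ℤ) : ℚ) = (((p : ℤ) ^ (k - 1 - j) : ℤ) : ℚ) * (((p : ℤ) ^ (j + 1) : ℤ) : ℚ) := by
      rw [← Int.cast_mul, ← pow_add, ← hk]
    rw [← this]
    ring
  have h4 : (((Finset.Ico (0 : ℤ) ((p : ℤ) ^ k)).filter
      (fun h => h ≡ v [ZMOD (p : ℤ) ^ (j + 1)])).card : ℤ) = ((p ^ (k - 1 - j) : ℕ) : ℤ) := by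
    rw [h1, h3, Int.ceil_add_intCast]
    push_cast
    rw [add_sub_cancel_left]
    exact max_eq_left (by positivity)
  exact_mod_cast h4

theorem l2 (p k P : ℕ) (hp : p.Prime) (hk : k < p) (hP : P ≤ p ^ k) (a : ℤ) (H : Fin k → ℤ) :
    ((Dp k p P).filter (fun x => ∀ j : Fin k,
      ((p : ℤ) ^ ((j : ℕ) + 1)) ∣ (∑ i, (x i - a) ^ ((j : ℕ) + 1)) - H j)).card ≤
      k.factorial * p ^ (k * (k - 1) / 2) := by
  classical
  have hp0 : (0 : ℤ) < (p : ℤ) ^ k := by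
    have := hp.pos
    positivity
  set T : Finset (Fin k → ℤ) := Fintype.piFinset (fun j : Fin k =>
    (Finset.Ico (0 : ℤ) ((p : ℤ) ^ k)).filter (fun h => ((p : ℤ) ^ ((j : ℕ) + 1)) ∣ h - H j)) with hT
  have hTc : T.card = p ^ (k * (k - 1) / 2) := by
    rw [hT, Fintype.card_piFinset]
    have : ∀ j : Fin k, ((Finset.Ico (0 : ℤ) ((p : ℤ) ^ k)).filter
        (fun h => ((p : ℤ) ^ ((j : ℕ) + 1)) ∣ h - H j)).card = p ^ (k - 1 - (j : ℕ)) :=
      fun j => l2_class p k j hp.pos j.2 (H j)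
    rw [Finset.prod_congr rfl (fun j _ => this j), Finset.prod_pow_eq_pow_sum,
      Fin.sum_univ_eq_sum_range (fun j => k - 1 - j) k, Finset.sum_range_reflect (fun j => j) k,
      Finset.sum_range_id]
  rw [← hTc]
  refine Finset.card_le_mul_card_image_of_maps_to
    (f := fun x : Fin k → ℤ => fun j : Fin k => (∑ i, (x i - a) ^ ((j : ℕ) + 1)) % (p : ℤ) ^ k)
    ?_ _ ?_
  · intro x hx
    rw [mem_filter] at hx
    rw [hT, Fintype.mem_piFinset]
    intro j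
    rw [mem_filter, Finset.mem_Ico]
    refine ⟨⟨Int.emod_nonneg _ hp0.ne', Int.emod_lt_of_pos _ hp0⟩, ?_⟩
    have h1 := hx.2 j
    have h2 : (p : ℤ) ^ ((j : ℕ) + 1) ∣ (p : ℤ) ^ k := pow_dvd_pow _ j.2
    have h3 : (∑ i, (x i - a) ^ ((j : ℕ) + 1)) % (p : ℤ) ^ k - H j =
        ((∑ i, (x i - a) ^ ((j : ℕ) + 1)) - H j) -
          (p : ℤ) ^ k * ((∑ i, (x i - a) ^ ((j : ℕ) + 1)) / (p : ℤ) ^ k) := by
      rw [Int.emod_def]; ring
    rw [h3]
    exact dvd_sub h1 (Dvd.dvd.mul_right h2 _)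
  · intro h hh
    refine le_trans (Finset.card_le_card ?_) (l1 p k P hp hk hP a h)
    intro x hx
    rw [mem_filter, mem_filter] at hx
    rw [mem_filter]
    refine ⟨hx.1.1, fun j => ?_⟩
    have h1 : (∑ i, (x i - a) ^ ((j : ℕ) + 1)) % (p : ℤ) ^ k = h j := congrFun hx.2 j
    rw [← h1]
    exact Int.dvd_self_sub_emod

end Pool.Agent.Lib.VK
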