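import Pool.Agent.Lib.VK.H1
import Pool.Agent.Lib.VK.Cl

/-!
# Row Ls (about 40 lines): all residue classes

s >= 1: h1 with c x = x % p, I = Ico 0 p (card p): cnt <= p^(2s-1) sum_(a in I) cnt(A_a) <= p^(2s-1) p (cl).
s = 0: the two counts (with A and with A_0) are equal, because Fintype.piFinset over Fin 0 does not see A; use cl with a = 0.
-/

set_option autoImplicit false

open Finset

namespace Pool.Agent.Lib.VK

theorem ls (k s p P : ℕ) (hp : p.Prime) (hk : k < p) (hP : P ≤ p ^ k) :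
    cnt (Dp k p P) (sp k) (Icc (1 : ℤ) P) (pw k) s ≤
      p ^ (2 * s) * (P ^ k * (k.factorial * p ^ (k * (k - 1) / 2)) * J s k (P / p + 1)) := by
  have hp0 : (0 : ℤ) < p := by exact_mod_cast hp.pos
  rcases Nat.eq_zero_or_pos s with rfl | hs
  · have h0 := cl k 0 p P hp hk hP 0 le_rfl hp0
    have h1 : cnt (Dp k p P) (sp k) (Icc (1 : ℤ) P) (pw k) 0 =
        cnt (Dp k p P) (sp k) ((Icc (1 : ℤ) P).filter (fun x => x % (p : ℤ) = 0)) (pw k) 0 := by
      unfold cnt
      have h2 : ∀ A : Finset ℤ, (Fintype.piFinset fun _ : Fin 0 => A) = Finset.univ := by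
        intro A
        ext f
        simp
      rw [h2, h2]
    rw [h1]
    simpa using h0
  · have h1 := h1 k (Dp k p P) (sp k) (Icc (1 : ℤ) P) (pw k) (fun x => x % (p : ℤ)) (Ico (0 : ℤ) p)
      (fun x _ => Finset.mem_Ico.2 ⟨Int.emod_nonneg _ hp0.ne', Int.emod_lt_of_pos _ hp0⟩) s hs
    refine h1.trans ?_
    have hcard : (Ico (0 : ℤ) p).card = p := by simp
    rw [hcard]
    calc p ^ (2 * s - 1) * ∑ a ∈ Ico (0 : ℤ) p, cnt (Dp k p P) (sp k) ((Icc (1 : ℤ) P).filter (fun x => x % (p : ℤ) = a)) (pw k) s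
        ≤ p ^ (2 * s - 1) * ∑ a ∈ Ico (0 : ℤ) p, (P ^ k * (k.factorial * p ^ (k * (k - 1) / 2)) * J s k (P / p + 1)) := by
          refine Nat.mul_le_mul_left _ (Finset.sum_le_sum fun a ha => ?_)
          rw [Finset.mem_Ico] at ha
          exact cl k s p P hp hk hP a ha.1 ha.2
      _ = p ^ (2 * s - 1) * (p * (P ^ k * (k.factorial * p ^ (k * (k - 1) / 2)) * J s k (P / p + 1))) := by
          rw [Finset.sum_const, hcard, smul_eq_mul]
      _ = p ^ (2 * s) * (P ^ k * (k.factorial * p ^ (k * (k - 1) / 2)) * J s k (P / p + 1)) := by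
          rw [← mul_assoc, ← pow_succ]
          congr 2
          omega

end Pool.Agent.Lib.VK
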