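import Pool.Agent.Lib.VK.St

/-!
# Row Nu (about 150 lines): the induction with explicit constants

K = k(k+1)/2, e(r) = 2rk - K + K (1-1/k)^r, r <= 7k. Claim: J_(rk)(P) <= exp(10 (r+1) k^5) P^e(r).
Facts: e(0) = 0; (1-1/k)^r >= 1 - r/k (Bernoulli: `one_add_mul_le_pow`), so e(r) >= 2rk - r(k+1)/2 >= 0;
e(r+1) = e(r) + 2k - (K/k)(1-1/k)^r.
r = 0: J_0 = 1 (mom with s = 0: one pair of empty tuples).
Step r -> r+1, s = rk. If P < 2^(8k^3): J <= P^(2(r+1)k) (trivial count) = P^e(r+1) P^(K - K(1-1/k)^(r+1)) <= P^e(r+1) P^K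
<= P^e(r+1) 2^(8k^3 k^2), and 8 k^5 log 2 <= 10 (r+2) k^5. If P >= 2^(8k^3): st gives p; P/p + 1 <= 2P/p (real), so
J_s(P/p+1) <= exp(10(r+1)k^5) (2P/p)^e(r) <= exp(10(r+1)k^5) 2^(2rk) (P/p)^e(r) (e(r) <= 2rk as K(1-1/k)^r <= K). Total
J_(s+k)(P) <= 2 k^3 k! 2^(2rk) exp(10(r+1)k^5) P^(k+e(r)) p^(2rk + k(k-1)/2 - e(r)), the exponent of p is
k^2 - K(1-1/k)^r, between 0 and k^2; p <= 2^(k^3+1) P^(1/k) gives
p^(..) <= 2^((k^3+1)k^2) P^(k - (K/k)(1-1/k)^r), and k + e(r) + k - (K/k)(1-1/k)^r = e(r+1). Constants: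
log(2 k^3 k! 2^(2rk) 2^((k^3+1)k^2)) <= log 2 + 3 log k + k log k + 14 k^2 log 2 + (k^5 + k^2) log 2 <= 10 k^5 for k >= 2.
-/

set_option autoImplicit false

open Finset

namespace Pool.Agent.Lib.VK

private theorem nu_two_pow (m : ℕ) : (2 : ℝ) ^ m ≤ Real.exp m := by
  have h : (2 : ℝ) ≤ Real.exp 1 := by
    have := Real.add_one_le_exp (1 : ℝ)
    linarith
  calc (2 : ℝ) ^ m ≤ (Real.exp 1) ^ m := pow_le_pow_left₀ (by norm_num) h m
    _ = Real.exp m := by rw [← Real.exp_nat_mul, mul_one]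

private theorem nu_triv (s k P : ℕ) : J s k P ≤ P ^ (2 * s) := by
  unfold J mom
  refine (Finset.card_filter_le _ _).trans ?_
  rw [Finset.card_product, Fintype.card_piFinset, Finset.prod_const, Finset.card_univ,
    Fintype.card_fin, Int.card_Icc, ← pow_add, ← two_mul]
  have : ((P : ℤ) + 1 - 1).toNat = P := by simp
  rw [this]

private theorem nu_const (k r : ℕ) (hk : 2 ≤ k) (hr : r + 1 ≤ 7 * k) :
    2 * (k : ℝ) ^ 3 * (k.factorial : ℝ) * 2 ^ (2 * r * k) * 2 ^ ((k ^ 3 + 1) * k ^ 2) ≤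
      Real.exp (10 * k ^ 5) := by
  have h1 : k ^ 3 ≤ 2 ^ (3 * k) := by
    calc k ^ 3 ≤ (2 ^ k) ^ 3 := Nat.pow_le_pow_left (Nat.lt_two_pow_self).le 3
      _ = 2 ^ (3 * k) := by rw [← pow_mul, mul_comm]
  have h2 : k.factorial ≤ 2 ^ (k * k) := by
    calc k.factorial ≤ k ^ k := Nat.factorial_le_pow k
      _ ≤ (2 ^ k) ^ k := Nat.pow_le_pow_left (Nat.lt_two_pow_self).le k
      _ = 2 ^ (k * k) := by rw [← pow_mul]
  have h3 : 2 ^ (2 * r * k) ≤ 2 ^ (14 * k ^ 2) := by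
    refine Nat.pow_le_pow_right (by norm_num) ?_
    nlinarith
  have h4 : 2 * k ^ 3 * k.factorial * 2 ^ (2 * r * k) * 2 ^ ((k ^ 3 + 1) * k ^ 2) ≤
      2 ^ (4 * k ^ 5) := by
    calc 2 * k ^ 3 * k.factorial * 2 ^ (2 * r * k) * 2 ^ ((k ^ 3 + 1) * k ^ 2)
        ≤ 2 * 2 ^ (3 * k) * 2 ^ (k * k) * 2 ^ (14 * k ^ 2) * 2 ^ ((k ^ 3 + 1) * k ^ 2) := by
          gcongr
      _ = 2 ^ (1 + 3 * k + k * k + 14 * k ^ 2 + (k ^ 3 + 1) * k ^ 2) := by
          rw [pow_add, pow_add, pow_add, pow_add, pow_one]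
      _ ≤ 2 ^ (4 * k ^ 5) := by
          refine Nat.pow_le_pow_right (by norm_num) ?_
          have e2 : 4 ≤ k ^ 2 := by nlinarith
          have e3 : 8 ≤ k ^ 3 := by nlinarith
          have e4 : 8 * k ^ 2 ≤ k ^ 5 := by
            calc 8 * k ^ 2 ≤ k ^ 3 * k ^ 2 := Nat.mul_le_mul_right _ e3
              _ = k ^ 5 := by ring
          have e5 : (k ^ 3 + 1) * k ^ 2 = k ^ 5 + k ^ 2 := by ring
          have e6 : 3 * k ≤ 2 * k ^ 2 := by nlinarith
          nlinarith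
  have h5 : (2 : ℝ) * (k : ℝ) ^ 3 * (k.factorial : ℝ) * 2 ^ (2 * r * k) *
      2 ^ ((k ^ 3 + 1) * k ^ 2) ≤ 2 ^ (4 * k ^ 5) := by exact_mod_cast h4
  refine h5.trans ((nu_two_pow _).trans ?_)
  refine Real.exp_le_exp.mpr ?_
  push_cast
  have : (0 : ℝ) ≤ (k : ℝ) ^ 5 := by positivity
  linarith

theorem nu (k : ℕ) (hk : 2 ≤ k) : ∀ r : ℕ, r ≤ 7 * k → ∀ P : ℕ, 1 ≤ P →
    (J (r * k) k P : ℝ) ≤ Real.exp (10 * (r + 1) * k ^ 5) *
      (P : ℝ) ^ (2 * r * k - k * (k + 1) / 2 + k * (k + 1) / 2 * (1 - 1 / (k : ℝ)) ^ r : ℝ) := by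
  have hk2 : (2 : ℝ) ≤ k := by exact_mod_cast hk
  have hk0 : (0 : ℝ) < k := by linarith
  have hik : 0 < 1 / (k : ℝ) := by positivity
  have hik1 : 1 / (k : ℝ) ≤ 1 := by
    rw [div_le_one hk0]; linarith
  set q : ℝ := 1 - 1 / (k : ℝ) with hq
  have hq0 : 0 ≤ q := by rw [hq]; linarith
  have hq1 : q ≤ 1 := by rw [hq]; linarith
  have hqp0 : ∀ r : ℕ, 0 ≤ q ^ r := fun r => pow_nonneg hq0 r
  have hqp1 : ∀ r : ℕ, q ^ r ≤ 1 := fun r => pow_le_one₀ hq0 hq1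
  have hK0 : (0 : ℝ) ≤ k * (k + 1) / 2 := by positivity
  have hKk : (k : ℝ) * (k + 1) / 2 ≤ (k : ℝ) ^ 2 := by nlinarith
  have hbern : ∀ r : ℕ, 1 - r / (k : ℝ) ≤ q ^ r := by
    intro r
    have h := one_add_mul_le_pow (a := -(1 / (k : ℝ))) (by linarith) r
    rw [hq]
    calc 1 - r / (k : ℝ) = 1 + r * -(1 / (k : ℝ)) := by ring
      _ ≤ (1 + -(1 / (k : ℝ))) ^ r := h
      _ = (1 - 1 / (k : ℝ)) ^ r := by rw [← sub_eq_add_neg]
  have he0 : ∀ r : ℕ, 0 ≤ 2 * (r : ℝ) * k - k * (k + 1) / 2 + k * (k + 1) / 2 * q ^ r := by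
    intro r
    have h := hbern r
    have hr0 : (0 : ℝ) ≤ r := Nat.cast_nonneg r
    have h1 : (k : ℝ) * (k + 1) / 2 * (1 - r / (k : ℝ)) ≤ k * (k + 1) / 2 * q ^ r :=
      mul_le_mul_of_nonneg_left h hK0
    have h2 : (k : ℝ) * (k + 1) / 2 * (1 - r / (k : ℝ)) = k * (k + 1) / 2 - r * (k + 1) / 2 := by
      field_simp
    rw [h2] at h1
    have h3 : (r : ℝ) * (k + 1) / 2 ≤ 2 * r * k := by nlinarith
    linarith
  intro r
  induction r with
  | zero =>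
    intro _ P hP
    have h1 : J (0 * k) k P ≤ 1 := by
      have h2 := nu_triv (0 * k) k P
      rw [zero_mul, mul_zero, pow_zero] at h2
      rw [zero_mul]
      exact h2
    have h2 : (J (0 * k) k P : ℝ) ≤ 1 := by exact_mod_cast h1
    refine h2.trans ?_
    have h3 : (2 * ((0 : ℕ) : ℝ) * k - k * (k + 1) / 2 + k * (k + 1) / 2 * q ^ 0 : ℝ) = 0 := by
      rw [pow_zero]; push_cast; ring
    rw [h3, Real.rpow_zero, mul_one]
    exact Real.one_le_exp (by positivity)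
  | succ r ih =>
    intro hr P hP
    have hP1 : (1 : ℝ) ≤ P := by exact_mod_cast hP
    have hP0 : (0 : ℝ) < P := by linarith
    have hr0 : (0 : ℝ) ≤ r := Nat.cast_nonneg r
    have hk5 : (0 : ℝ) ≤ (k : ℝ) ^ 5 := by positivity
    by_cases hlt : P < 2 ^ (8 * k ^ 3)
    · -- trivial count
      have h1 : (J ((r + 1) * k) k P : ℝ) ≤ (P : ℝ) ^ (2 * ((r + 1) * k)) := by
        exact_mod_cast nu_triv ((r + 1) * k) k P
      have h2 : (P : ℝ) ^ (2 * ((r + 1) * k)) =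
          (P : ℝ) ^ (2 * ((r + 1 : ℕ) : ℝ) * k - k * (k + 1) / 2 + k * (k + 1) / 2 * q ^ (r + 1) : ℝ)
            * (P : ℝ) ^ (k * (k + 1) / 2 - k * (k + 1) / 2 * q ^ (r + 1) : ℝ) := by
        rw [← Real.rpow_add hP0, ← Real.rpow_natCast]
        congr 1
        push_cast
        ring
      have h3 : (P : ℝ) ^ (k * (k + 1) / 2 - k * (k + 1) / 2 * q ^ (r + 1) : ℝ) ≤
          Real.exp (10 * ((r + 1 : ℕ) + 1) * k ^ 5) := by
        calc (P : ℝ) ^ (k * (k + 1) / 2 - k * (k + 1) / 2 * q ^ (r + 1) : ℝ)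
            ≤ (P : ℝ) ^ ((k ^ 2 : ℕ) : ℝ) := by
              refine Real.rpow_le_rpow_of_exponent_le hP1 ?_
              have := mul_nonneg hK0 (hqp0 (r + 1))
              push_cast
              linarith
          _ = (P : ℝ) ^ (k ^ 2) := by rw [Real.rpow_natCast]
          _ ≤ ((2 : ℝ) ^ (8 * k ^ 3)) ^ (k ^ 2) := by
              refine pow_le_pow_left₀ hP0.le ?_ _
              exact_mod_cast hlt.le
          _ = 2 ^ (8 * k ^ 5) := by rw [← pow_mul]; congr 1; ring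
          _ ≤ Real.exp ((8 * k ^ 5 : ℕ) : ℝ) := nu_two_pow _
          _ ≤ Real.exp (10 * ((r + 1 : ℕ) + 1) * k ^ 5) := by
              refine Real.exp_le_exp.mpr ?_
              push_cast
              nlinarith
      rw [h2] at h1
      refine h1.trans ?_
      rw [mul_comm]
      exact mul_le_mul_of_nonneg_right h3 (Real.rpow_nonneg hP0.le _)
    · rw [not_lt] at hlt
      obtain ⟨p, hp1, hpP, -, hpk, hst⟩ := st k (r * k) P hk hlt
      have hp1' : (1 : ℝ) ≤ p := by exact_mod_cast hp1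
      have hp0 : (0 : ℝ) < p := by linarith
      have hIH := ih (by omega) (P / p + 1) (Nat.le_add_left 1 _)
      set e : ℝ := 2 * (r : ℝ) * k - k * (k + 1) / 2 + k * (k + 1) / 2 * q ^ r with he
      have hee : 0 ≤ e := he0 r
      have hele : e ≤ ((2 * r * k : ℕ) : ℝ) := by
        have h1 := mul_le_mul_of_nonneg_left (hqp1 r) hK0
        rw [he]
        push_cast
        linarith
      -- the bound for the smaller mean value
      have hPp : ((P / p + 1 : ℕ) : ℝ) ≤ 2 * (P / p) := by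
        have h1 : ((P / p : ℕ) : ℝ) ≤ (P : ℝ) / p := Nat.cast_div_le
        have h2 : (1 : ℝ) ≤ (P : ℝ) / p := by
          rw [one_le_div hp0]; exact_mod_cast hpP
        push_cast
        linarith
      have hPp2 : (((P / p + 1 : ℕ) : ℝ)) ^ e ≤ 2 ^ (2 * r * k) * ((P : ℝ) ^ e * (p : ℝ) ^ (-e)) := by
        calc (((P / p + 1 : ℕ) : ℝ)) ^ e ≤ (2 * ((P : ℝ) / p)) ^ e :=
              Real.rpow_le_rpow (Nat.cast_nonneg _) hPp hee
          _ = 2 ^ e * ((P : ℝ) ^ e * (p : ℝ) ^ (-e)) := by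
              rw [Real.mul_rpow (by norm_num) (by positivity), Real.div_rpow hP0.le hp0.le,
                Real.rpow_neg hp0.le, div_eq_mul_inv]
          _ ≤ 2 ^ (2 * r * k) * ((P : ℝ) ^ e * (p : ℝ) ^ (-e)) := by
              refine mul_le_mul_of_nonneg_right ?_ (by positivity)
              calc (2 : ℝ) ^ e ≤ (2 : ℝ) ^ ((2 * r * k : ℕ) : ℝ) :=
                    Real.rpow_le_rpow_of_exponent_le (by norm_num) hele
                _ = 2 ^ (2 * r * k) := by rw [Real.rpow_natCast]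
      have hJ : (J (r * k) k (P / p + 1) : ℝ) ≤ Real.exp (10 * (r + 1) * k ^ 5) *
          (2 ^ (2 * r * k) * ((P : ℝ) ^ e * (p : ℝ) ^ (-e))) :=
        hIH.trans (mul_le_mul_of_nonneg_left hPp2 (Real.exp_pos _).le)
      have hst' : (J ((r + 1) * k) k P : ℝ) ≤ 2 * (k : ℝ) ^ 3 *
          ((p : ℝ) ^ (2 * (r * k)) * ((P : ℝ) ^ k * (k.factorial * (p : ℝ) ^ (k * (k - 1) / 2)) *
            J (r * k) k (P / p + 1))) := by
        have h1 : (r + 1) * k = k + r * k := by ring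
        rw [h1]
        exact_mod_cast hst
      -- the exponent of `p`
      set E : ℝ := (k : ℝ) ^ 2 - k * (k + 1) / 2 * q ^ r with hE
      have hE0 : 0 ≤ E := by
        have h1 := mul_le_mul_of_nonneg_left (hqp1 r) hK0
        rw [hE]
        linarith
      have hE1 : E ≤ ((k ^ 2 : ℕ) : ℝ) := by
        have h1 := mul_nonneg hK0 (hqp0 r)
        rw [hE]
        push_cast
        linarith
      have hkk : ((k * (k - 1) / 2 : ℕ) : ℝ) = (k : ℝ) * (k - 1) / 2 := by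
        have h1 : 2 ∣ k * (k - 1) := (Nat.even_mul_pred_self k).two_dvd
        rw [Nat.cast_div h1 (by norm_num), Nat.cast_mul, Nat.cast_sub (by omega)]
        norm_num
      have hpE : (p : ℝ) ^ (2 * (r * k)) * (p : ℝ) ^ (k * (k - 1) / 2) * (p : ℝ) ^ (-e) =
          (p : ℝ) ^ E := by
        rw [← pow_add, ← Real.rpow_natCast, ← Real.rpow_add hp0]
        congr 1
        rw [Nat.cast_add, hkk, hE, he]
        push_cast
        ring
      have hpE2 : (p : ℝ) ^ E ≤ 2 ^ ((k ^ 3 + 1) * k ^ 2) * (P : ℝ) ^ (1 / (k : ℝ) * E) := by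
        calc (p : ℝ) ^ E ≤ (2 ^ (k ^ 3 + 1) * (P : ℝ) ^ (1 / (k : ℝ))) ^ E :=
              Real.rpow_le_rpow hp0.le hpk hE0
          _ = (2 ^ (k ^ 3 + 1)) ^ E * (P : ℝ) ^ (1 / (k : ℝ) * E) := by
              rw [Real.mul_rpow (by positivity) (by positivity), ← Real.rpow_mul hP0.le]
          _ ≤ 2 ^ ((k ^ 3 + 1) * k ^ 2) * (P : ℝ) ^ (1 / (k : ℝ) * E) := by
              refine mul_le_mul_of_nonneg_right ?_ (by positivity)
              calc ((2 : ℝ) ^ (k ^ 3 + 1)) ^ E ≤ ((2 : ℝ) ^ (k ^ 3 + 1)) ^ ((k ^ 2 : ℕ) : ℝ) :=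
                    Real.rpow_le_rpow_of_exponent_le (one_le_pow₀ (by norm_num)) hE1
                _ = 2 ^ ((k ^ 3 + 1) * k ^ 2) := by rw [Real.rpow_natCast, ← pow_mul]
      have hPe : (P : ℝ) ^ k * (P : ℝ) ^ e * (P : ℝ) ^ (1 / (k : ℝ) * E) =
          (P : ℝ) ^ (2 * ((r + 1 : ℕ) : ℝ) * k - k * (k + 1) / 2 +
            k * (k + 1) / 2 * q ^ (r + 1) : ℝ) := by
        rw [← Real.rpow_natCast, ← Real.rpow_add hP0, ← Real.rpow_add hP0]
        congr 1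
        have h1 : 1 / (k : ℝ) * E = k - 1 / (k : ℝ) * (k * (k + 1) / 2 * q ^ r) := by
          rw [hE]
          field_simp
        rw [h1, he, pow_succ, hq]
        push_cast
        ring
      have hexp : Real.exp (10 * k ^ 5) * Real.exp (10 * (r + 1) * k ^ 5) =
          Real.exp (10 * ((r + 1 : ℕ) + 1) * k ^ 5) := by
        rw [← Real.exp_add]
        congr 1
        push_cast
        ring
      calc (J ((r + 1) * k) k P : ℝ)
          ≤ 2 * (k : ℝ) ^ 3 *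
          ((p : ℝ) ^ (2 * (r * k)) * ((P : ℝ) ^ k * (k.factorial * (p : ℝ) ^ (k * (k - 1) / 2)) *
            J (r * k) k (P / p + 1))) := hst'
        _ ≤ 2 * (k : ℝ) ^ 3 *
          ((p : ℝ) ^ (2 * (r * k)) * ((P : ℝ) ^ k * (k.factorial * (p : ℝ) ^ (k * (k - 1) / 2)) *
            (Real.exp (10 * (r + 1) * k ^ 5) *
          (2 ^ (2 * r * k) * ((P : ℝ) ^ e * (p : ℝ) ^ (-e)))))) := by
            refine mul_le_mul_of_nonneg_left ?_ (by positivity)
            refine mul_le_mul_of_nonneg_left ?_ (by positivity)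
            exact mul_le_mul_of_nonneg_left hJ (by positivity)
        _ = 2 * (k : ℝ) ^ 3 * (k.factorial : ℝ) * 2 ^ (2 * r * k) * Real.exp (10 * (r + 1) * k ^ 5) *
            ((P : ℝ) ^ k * (P : ℝ) ^ e) *
            ((p : ℝ) ^ (2 * (r * k)) * (p : ℝ) ^ (k * (k - 1) / 2) * (p : ℝ) ^ (-e)) := by ring
        _ ≤ 2 * (k : ℝ) ^ 3 * (k.factorial : ℝ) * 2 ^ (2 * r * k) * Real.exp (10 * (r + 1) * k ^ 5) *
            ((P : ℝ) ^ k * (P : ℝ) ^ e) *
            (2 ^ ((k ^ 3 + 1) * k ^ 2) * (P : ℝ) ^ (1 / (k : ℝ) * E)) := by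
            rw [hpE]
            exact mul_le_mul_of_nonneg_left hpE2 (by positivity)
        _ = (2 * (k : ℝ) ^ 3 * (k.factorial : ℝ) * 2 ^ (2 * r * k) * 2 ^ ((k ^ 3 + 1) * k ^ 2)) *
            Real.exp (10 * (r + 1) * k ^ 5) *
            ((P : ℝ) ^ k * (P : ℝ) ^ e * (P : ℝ) ^ (1 / (k : ℝ) * E)) := by ring
        _ ≤ Real.exp (10 * k ^ 5) * Real.exp (10 * (r + 1) * k ^ 5) *
            ((P : ℝ) ^ k * (P : ℝ) ^ e * (P : ℝ) ^ (1 / (k : ℝ) * E)) := by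
            refine mul_le_mul_of_nonneg_right ?_ (by positivity)
            exact mul_le_mul_of_nonneg_right (nu_const k r hk hr) (Real.exp_pos _).le
        _ = _ := by rw [hPe, hexp]

end Pool.Agent.Lib.VK
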