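import Pool.Agent.Lib.VK.Vc

/-!
# Row Pr (about 90 lines): primes from Bertrand's postulate; separation

prs: induction on n with `Nat.exists_prime_lt_and_le_two_mul` (Bertrand): the prime number i + 1 lies in (2^i Q, 2^(i+1) Q].
sep: let Dl = prod_(i<j) (x_i - x_j) (y_i - y_j) (product over the pairs i < j). It is not 0 (x, y injective) and
|Dl| <= P^(k(k-1)) (k(k-1)/2 pairs, two factors each, |x_i - x_j| <= P). If every p in S divided Dl then
prod_(p in S) p would divide Dl (`Finset.prod_primes_dvd`), so prod <= |Dl| <= P^(k(k-1)) < prod. So some p in S does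
not divide Dl, and then it divides no x_i - x_j and no y_i - y_j (i <> j).
-/

set_option autoImplicit false

open Finset

namespace Pool.Agent.Lib.VK

theorem prs (Q n : ℕ) (hQ : 1 ≤ Q) : ∃ S : Finset ℕ, S.card = n ∧
    ∀ p ∈ S, p.Prime ∧ Q < p ∧ p ≤ 2 ^ n * Q := by
  induction n with
  | zero => exact ⟨∅, rfl, fun p hp => absurd hp (notMem_empty p)⟩
  | succ n ih =>
    obtain ⟨S, hcard, hS⟩ := ih
    have h1 : 1 ≤ 2 ^ n := Nat.one_le_two_pow
    have hQn : Q ≤ 2 ^ n * Q := Nat.le_mul_of_pos_left _ h1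
    obtain ⟨p, hp, hlt, hle⟩ := Nat.exists_prime_lt_and_le_two_mul (2 ^ n * Q) (by omega)
    have hnot : p ∉ S := fun h => absurd (hS p h).2.2 (by omega)
    have hpow : 2 ^ (n + 1) * Q = 2 * (2 ^ n * Q) := by ring
    refine ⟨insert p S, by rw [card_insert_of_notMem hnot, hcard], fun r hr => ?_⟩
    rcases mem_insert.mp hr with rfl | hr
    · exact ⟨hp, by omega, by omega⟩
    · obtain ⟨h2, h3, h4⟩ := hS r hr
      exact ⟨h2, h3, by omega⟩

theorem sep (k P : ℕ) (S : Finset ℕ) (hS : ∀ p ∈ S, p.Prime) (hprod : P ^ (k * (k - 1)) < ∏ p ∈ S, p)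
    (x y : Fin k → ℤ) (hx : ∀ i, x i ∈ Icc (1 : ℤ) P) (hy : ∀ i, y i ∈ Icc (1 : ℤ) P)
    (hxi : Function.Injective x) (hyi : Function.Injective y) :
    ∃ p ∈ S, x ∈ Dp k p P ∧ y ∈ Dp k p P := by
  let z : Fin k × Fin k → ℤ := fun q => if q.1 < q.2 then x q.1 - x q.2 else y q.1 - y q.2
  let T : Finset (Fin k × Fin k) := (univ : Finset (Fin k)).offDiag
  have hne : ∀ q ∈ T, (z q).natAbs ≠ 0 := by
    intro q hq
    have hq' : q.1 ≠ q.2 := (mem_offDiag.mp hq).2.2
    rw [Int.natAbs_ne_zero]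
    simp only [z]
    split_ifs
    · exact sub_ne_zero.mpr (fun h => hq' (hxi h))
    · exact sub_ne_zero.mpr (fun h => hq' (hyi h))
  have hle : ∀ q ∈ T, (z q).natAbs ≤ P := by
    intro q _
    have h1 := mem_Icc.mp (hx q.1)
    have h2 := mem_Icc.mp (hx q.2)
    have h3 := mem_Icc.mp (hy q.1)
    have h4 := mem_Icc.mp (hy q.2)
    simp only [z]
    split_ifs <;> omega
  have hN : ∏ q ∈ T, (z q).natAbs ≤ P ^ (k * (k - 1)) := by
    calc ∏ q ∈ T, (z q).natAbs ≤ ∏ _q ∈ T, P := prod_le_prod (fun _ _ => Nat.zero_le _) hle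
      _ = P ^ (k * (k - 1)) := by
        rw [prod_const, offDiag_card, card_univ, Fintype.card_fin, Nat.mul_sub, mul_one]
  have hex : ∃ p ∈ S, ¬ p ∣ ∏ q ∈ T, (z q).natAbs := by
    by_contra hcon
    push Not at hcon
    have h1 : ∏ p ∈ S, p ∣ ∏ q ∈ T, (z q).natAbs :=
      prod_primes_dvd _ (fun p hp => (hS p hp).prime) hcon
    have h2 := Nat.le_of_dvd (Nat.pos_of_ne_zero (prod_ne_zero_iff.mpr hne)) h1
    omega
  obtain ⟨p, hp, hnd⟩ := hex
  have hz : ∀ q ∈ T, ¬ (p : ℤ) ∣ z q := by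
    intro q hq h
    exact hnd ((Int.natCast_dvd.mp h).trans (dvd_prod_of_mem _ hq))
  refine ⟨p, hp, ?_, ?_⟩
  · refine mem_filter.mpr ⟨Fintype.mem_piFinset.mpr hx, fun i j hij h => ?_⟩
    rcases lt_or_gt_of_ne hij with h1 | h1
    · have h2 := hz (i, j) (mem_offDiag.mpr ⟨mem_univ _, mem_univ _, hij⟩)
      simp only [z, if_pos h1] at h2
      exact h2 h
    · have h2 := hz (j, i) (mem_offDiag.mpr ⟨mem_univ _, mem_univ _, hij.symm⟩)
      simp only [z, if_pos h1] at h2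
      rw [← dvd_neg, neg_sub] at h2
      exact h2 h
  · refine mem_filter.mpr ⟨Fintype.mem_piFinset.mpr hy, fun i j hij h => ?_⟩
    rcases lt_or_gt_of_ne hij with h1 | h1
    · have h2 := hz (j, i) (mem_offDiag.mpr ⟨mem_univ _, mem_univ _, hij.symm⟩)
      simp only [z, if_neg (not_lt_of_gt h1)] at h2
      rw [← dvd_neg, neg_sub] at h2
      exact h2 h
    · have h2 := hz (i, j) (mem_offDiag.mpr ⟨mem_univ _, mem_univ _, hij⟩)
      simp only [z, if_neg (not_lt_of_gt h1)] at h2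
      exact h2 h

end Pool.Agent.Lib.VK
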