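import Pool.Agent.Lib.VK.Defs

/-!
# VK / R341: the inequality 3-4-1 for the rough Euler product

PROOF. For 1 < σ the function n ↦ fr χ y n · n^(-s) is completely multiplicative with values of norm ≤ n^(-σ), 0 at 0 and 1 at 1 (`fr_mul`, `fr_one`, `fr_zero`,
Complex.natCast_mul_natCast_cpow), and absolutely summable, so `EulerProduct.exp_tsum_primes_log_eq_tsum` (Mathlib, f : ℕ →*₀ ℂ) gives LSeries (fr χ y) s = exp(∑'_p -log(1 - f p)), where
f p = 0 for p ≤ y and f p = χ(p) p^(-s) for p > y (`rough_prime`). Norms: ‖exp w‖ = exp(re w) and re of a summable tsum is the tsum of re (`Complex.re_tsum`; summability of -log(1 - f p):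
`EulerProduct`-file, `Summable.clog_one_sub` or norm ≤ 2 ‖f p‖). So the product of the claim is exp(∑'_p T p), T p = re(-3 log(1 - a) - 4 log(1 - a z) - log(1 - a z^2)) with
a = p^(-σ) in [0, 1/2], z = χ(p) p^(it), |z| = 1 if χ(p) ≠ 0, and T p = 0 if p ≤ y or χ(p) = 0 (then all three values are 0; (χ^2)(p) = χ(p)^2, the principal character is 1 at units).
T p ≥ 0: re(-log(1 - w)) = ∑_{n≥1} re(w^n)/n (`Complex.hasSum_taylorSeries_neg_log`), so T p = ∑ a^n (3 + 4 re z^n + re z^(2n))/n, and with re z^n = cos θ: re z^(2n) = 2 cos^2 θ - 1,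
3 + 4 cos θ + 2 cos^2 θ - 1 = 2 (1 + cos θ)^2 ≥ 0. (This is the proof of Mathlib.NumberTheory.LSeries.Nonvanishing, private lemmas re_log_comb_nonneg', re_log_comb_nonneg: copy them.)
-/

set_option autoImplicit false

open Finset

namespace Pool.Agent.Lib.VK

open Complex in
/-- the function `n ↦ fr χ y n * n ^ (-s)` as a homomorphism -/
noncomputable def r341_hom {q : ℕ} (χ : DirichletCharacter ℂ q) (y : ℕ) (s : ℂ) : ℕ →*₀ ℂ where
  toFun n := fr χ y n * (n : ℂ) ^ (-s)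
  map_zero' := by simp [fr_zero]
  map_one' := by simp [fr_one]
  map_mul' m n := by
    rw [fr_mul, Nat.cast_mul, Complex.natCast_mul_natCast_cpow]
    ring

theorem r341_hom_apply {q : ℕ} (χ : DirichletCharacter ℂ q) (y : ℕ) (s : ℂ) (n : ℕ) :
    r341_hom χ y s n = fr χ y n * (n : ℂ) ^ (-s) := rfl

theorem r341_summable {q : ℕ} (χ : DirichletCharacter ℂ q) (y : ℕ) (s : ℂ) (hs : 1 < s.re) :
    Summable (fun n : ℕ => ‖r341_hom χ y s n‖) := by
  refine Summable.of_nonneg_of_le (fun n => norm_nonneg _) (fun n => ?_)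
    (Real.summable_nat_rpow.2 (show -s.re < -1 by linarith))
  rw [r341_hom_apply, norm_mul]
  rcases Nat.eq_zero_or_pos n with rfl | hn
  · rw [fr_zero]
    simp only [norm_zero, zero_mul]
    positivity
  · rw [Complex.norm_natCast_cpow_of_pos hn, Complex.neg_re]
    calc ‖fr χ y n‖ * (n : ℝ) ^ (-s.re) ≤ 1 * (n : ℝ) ^ (-s.re) :=
          mul_le_mul_of_nonneg_right (norm_fr_le χ y n) (by positivity)
      _ = _ := one_mul _

theorem r341_LSeries {q : ℕ} (χ : DirichletCharacter ℂ q) (y : ℕ) (s : ℂ) (hs : 1 < s.re) :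
    LSeries (fr χ y) s =
      Complex.exp (∑' p : Nat.Primes, -Complex.log (1 - fr χ y p * ((p : ℕ) : ℂ) ^ (-s))) := by
  have h := EulerProduct.exp_tsum_primes_log_eq_tsum (r341_summable χ y s hs)
  have e : LSeries (fr χ y) s = ∑' n : ℕ, r341_hom χ y s n := by
    unfold LSeries
    refine tsum_congr fun n => ?_
    rcases Nat.eq_zero_or_pos n with rfl | hn
    · rw [LSeries.term_zero, r341_hom_apply, fr_zero, zero_mul]
    · rw [LSeries.term_of_ne_zero hn.ne', r341_hom_apply, Complex.cpow_neg, div_eq_mul_inv]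
  rw [e, ← h]
  rfl

theorem r341_summable_log {q : ℕ} (χ : DirichletCharacter ℂ q) (y : ℕ) (s : ℂ)
    (hs : 1 < s.re) :
    Summable (fun p : Nat.Primes => -Complex.log (1 - fr χ y p * ((p : ℕ) : ℂ) ^ (-s))) :=
  ((r341_summable χ y s hs).of_norm.clog_one_sub.neg.subtype Nat.Prime)

open Complex in
theorem r341_comb' {a : ℝ} (ha₀ : 0 ≤ a) (ha₁ : a < 1) {z : ℂ} (hz : ‖z‖ = 1) :
      0 ≤ 3 * (-log (1 - a)).re + 4 * (-log (1 - a * z)).re + (-log (1 - a * z ^ 2)).re := by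
  have hac₀ : ‖(a : ℂ)‖ < 1 := by
    simp only [Complex.norm_of_nonneg ha₀, ha₁]
  have hac₁ : ‖a * z‖ < 1 := by rwa [norm_mul, hz, mul_one]
  have hac₂ : ‖a * z ^ 2‖ < 1 := by rwa [norm_mul, norm_pow, hz, one_pow, mul_one]
  rw [← ((hasSum_re <| hasSum_taylorSeries_neg_log hac₀).mul_left 3).add
    ((hasSum_re <| hasSum_taylorSeries_neg_log hac₁).mul_left 4) |>.add
    (hasSum_re <| hasSum_taylorSeries_neg_log hac₂) |>.tsum_eq]
  refine tsum_nonneg fun n ↦ ?_
  simp only [← ofReal_pow, div_natCast_re, ofReal_re, mul_pow, mul_re, ofReal_im, zero_mul,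
    sub_zero]
  rcases n.eq_zero_or_pos with rfl | hn
  · simp
  · simp only [← mul_div_assoc, ← add_div]
    refine div_nonneg ?_ n.cast_nonneg
    rw [← pow_mul, pow_mul', sq, mul_re, ← sq, ← sq, ← sq_norm_sub_sq_re, norm_pow, hz]
    have e : 3 * a ^ n + 4 * (a ^ n * (z ^ n).re) +
        a ^ n * ((z ^ n).re ^ 2 - ((1 : ℝ) ^ n ^ 2 - (z ^ n).re ^ 2)) =
        2 * a ^ n * ((z ^ n).re + 1) ^ 2 := by
      rw [one_pow]
      ring
    have h0 : 0 ≤ 2 * a ^ n * ((z ^ n).re + 1) ^ 2 := by positivity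
    convert! h0 using 1
    ring

theorem r341_comb {q : ℕ} (hq : 1 ≤ q) (χ : DirichletCharacter ℂ q) (y : ℕ) (σ t : ℝ)
    (hσ : 1 < σ) (n : ℕ) (hn : 2 ≤ n) :
    0 ≤ 3 * (-Complex.log (1 - fr (1 : DirichletCharacter ℂ q) y n *
          (n : ℂ) ^ (-((σ : ℂ) - (0 : ℝ) * Complex.I)))).re +
      4 * (-Complex.log (1 - fr χ y n * (n : ℂ) ^ (-((σ : ℂ) - t * Complex.I)))).re +
      (-Complex.log (1 - fr (χ ^ 2) y n *
          (n : ℂ) ^ (-((σ : ℂ) - (2 * t : ℝ) * Complex.I)))).re := by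
  have hz0 : ∀ ψ : DirichletCharacter ℂ q, ∀ s : ℂ, (¬ Rough y n ∨ ψ (n : ZMod q) = 0) →
      (-Complex.log (1 - fr ψ y n * (n : ℂ) ^ (-s))).re = 0 := by
    intro ψ s h
    have : fr ψ y n = 0 := by
      unfold fr
      by_cases hr : Rough y n
      · rw [if_pos hr]
        exact h.resolve_left (fun h' => h' hr)
      · rw [if_neg hr]
    rw [this, zero_mul, sub_zero, Complex.log_one, neg_zero, Complex.zero_re]
  by_cases hr : Rough y n
  · by_cases hu : IsUnit (n : ZMod q)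
    · have hfr : ∀ ψ : DirichletCharacter ℂ q, fr ψ y n = ψ (n : ZMod q) := by
        intro ψ
        unfold fr
        rw [if_pos hr]
      have hn0 : (n : ℂ) ≠ 0 := by
        exact_mod_cast (by omega : n ≠ 0)
      have hna : (n : ℝ) ^ (-σ) < 1 := by
        rw [Real.rpow_neg (Nat.cast_nonneg n), inv_lt_one_iff₀]
        exact .inr <| Real.one_lt_rpow (mod_cast one_lt_two.trans_le hn) <|
          zero_lt_one.trans hσ
      have hz : ‖χ (n : ZMod q) * (n : ℂ) ^ ((t : ℂ) * Complex.I)‖ = 1 := by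
        rw [norm_mul, ← hu.unit_spec, DirichletCharacter.unit_norm_eq_one χ hu.unit,
          Complex.norm_natCast_cpow_of_pos (by omega)]
        simp
      have h := r341_comb' (a := (n : ℝ) ^ (-σ)) (by positivity) hna hz
      have ea : (((n : ℝ) ^ (-σ) : ℝ) : ℂ) = (n : ℂ) ^ (-(σ : ℂ)) := by
        rw [Complex.ofReal_cpow (Nat.cast_nonneg n)]
        push_cast
        rfl
      rw [ea] at h
      have e0 : fr (1 : DirichletCharacter ℂ q) y n *
          (n : ℂ) ^ (-((σ : ℂ) - (0 : ℝ) * Complex.I)) = (n : ℂ) ^ (-(σ : ℂ)) := by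
        rw [hfr, MulChar.one_apply hu, one_mul, Complex.ofReal_zero, zero_mul, sub_zero]
      have e1 : fr χ y n * (n : ℂ) ^ (-((σ : ℂ) - t * Complex.I)) =
          (n : ℂ) ^ (-(σ : ℂ)) * (χ (n : ZMod q) * (n : ℂ) ^ ((t : ℂ) * Complex.I)) := by
        rw [hfr, show -((σ : ℂ) - t * Complex.I) = -(σ : ℂ) + t * Complex.I by ring,
          Complex.cpow_add _ _ hn0]
        ring
      have e2 : fr (χ ^ 2) y n * (n : ℂ) ^ (-((σ : ℂ) - (2 * t : ℝ) * Complex.I)) =
          (n : ℂ) ^ (-(σ : ℂ)) *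
            (χ (n : ZMod q) * (n : ℂ) ^ ((t : ℂ) * Complex.I)) ^ 2 := by
        rw [hfr, MulChar.pow_apply' χ two_ne_zero,
          show -((σ : ℂ) - (2 * t : ℝ) * Complex.I) =
            -(σ : ℂ) + (2 : ℕ) * ((t : ℂ) * Complex.I) by push_cast; ring,
          Complex.cpow_add _ _ hn0, Complex.cpow_nat_mul, mul_pow]
        ring
      rw [e0, e1, e2]
      exact h
    · rw [hz0 _ _ (.inr (MulChar.map_nonunit _ hu)), hz0 _ _ (.inr (MulChar.map_nonunit _ hu)),
        hz0 _ _ (.inr (MulChar.map_nonunit _ hu))]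
      simp
  · rw [hz0 _ _ (.inl hr), hz0 _ _ (.inl hr), hz0 _ _ (.inl hr)]
    simp

theorem k_341 {q : ℕ} (hq : 1 ≤ q) (χ : DirichletCharacter ℂ q) (y : ℕ) (σ t : ℝ) (hσ : 1 < σ) :
    1 ≤ ‖LSeries (fr (1 : DirichletCharacter ℂ q) y) ((σ : ℂ) - (0 : ℝ) * Complex.I)‖ ^ 3 *
      ‖LSeries (fr χ y) ((σ : ℂ) - t * Complex.I)‖ ^ 4 *
      ‖LSeries (fr (χ ^ 2) y) ((σ : ℂ) - (2 * t : ℝ) * Complex.I)‖ := by
  have hre : ∀ u : ℝ, 1 < ((σ : ℂ) - u * Complex.I).re := by
    intro u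
    simpa using hσ
  have H₀ := r341_summable_log (1 : DirichletCharacter ℂ q) y _ (hre 0)
  have H₁ := r341_summable_log χ y _ (hre t)
  have H₂ := r341_summable_log (χ ^ 2) y _ (hre (2 * t))
  have hsum₀ := (Complex.hasSum_re H₀.hasSum).summable.mul_left 3
  have hsum₁ := (Complex.hasSum_re H₁.hasSum).summable.mul_left 4
  have hsum₂ := (Complex.hasSum_re H₂.hasSum).summable
  rw [r341_LSeries _ y _ (hre 0), r341_LSeries _ y _ (hre t), r341_LSeries _ y _ (hre (2 * t)),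
    Complex.norm_exp, Complex.norm_exp, Complex.norm_exp, ← Real.exp_nat_mul, ← Real.exp_nat_mul,
    ← Real.exp_add, ← Real.exp_add, Real.one_le_exp_iff, Complex.re_tsum H₀, Complex.re_tsum H₁,
    Complex.re_tsum H₂]
  simp only [Nat.cast_ofNat]
  rw [← tsum_mul_left, ← tsum_mul_left, ← hsum₀.tsum_add hsum₁,
    ← (hsum₀.add hsum₁).tsum_add hsum₂]
  refine tsum_nonneg fun p => ?_
  exact r341_comb hq χ y σ t hσ p p.prop.two_le

end Pool.Agent.Lib.VK
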