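import Pool.Agent.Lib.VK.Defs

/-!
# VK / RAbel: partial summation on a dyadic block with the weight (log n)^k n^(-σ)

PROOF. Abel summation: with A(n) = ∑_{N < m ≤ n} b m, |A(n)| ≤ B for n ≤ 2N, ∑_{N<n≤N'} b n w n = A(N') w(N') - ∑_{N<n<N'} A(n) (w(n+1) - w(n)), so the norm is
≤ B (|w(N')| + ∑ |w(n+1) - w(n)|). w(x) = (log x)^k x^(-σ) has |w'(x)| ≤ (k (log x)^(k-1) + σ (log x)^k) x^(-σ-1) ≤ (k + 2)(log 2N)^k N^(-σ-1) on [N, 2N]
(1 ≤ log x for x ≥ 3; N ≥ 3, σ ≤ 2), at most N steps: total ≤ B (log 2N)^k N^(-σ) (1 + k + 2).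
-/

set_option autoImplicit false

open Finset

namespace Pool.Agent.Lib.VK

/-- Abel summation. -/
private theorem rabel_sum (b w : ℕ → ℂ) (N : ℕ) : ∀ N' : ℕ, N ≤ N' →
    ∑ n ∈ Ioc N N', b n * w n = (∑ m ∈ Ioc N N', b m) * w N' -
      ∑ n ∈ Ico N N', (∑ m ∈ Ioc N n, b m) * (w (n + 1) - w n) := by
  intro N' h
  induction N', h using Nat.le_induction with
  | base => simp
  | succ n hn ih =>
    rw [Finset.sum_Ioc_succ_top (by omega), Finset.sum_Ioc_succ_top (by omega),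
      Finset.sum_Ico_succ_top hn, ih]
    ring

/-- The weight. -/
private noncomputable def rabelW (k : ℕ) (σ x : ℝ) : ℝ := (Real.log x) ^ k * x ^ (-σ)

private theorem rabel_deriv (k : ℕ) (σ x : ℝ) (hx : 0 < x) :
    HasDerivAt (rabelW k σ)
      ((k * (Real.log x) ^ (k - 1) * x⁻¹) * x ^ (-σ) + (Real.log x) ^ k * (-σ * x ^ (-σ - 1))) x := by
  have h1 := (Real.hasDerivAt_log hx.ne').pow k
  have h2 := Real.hasDerivAt_rpow_const (x := x) (p := -σ) (Or.inl hx.ne')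
  exact h1.mul h2

private theorem rabel_dbound (k : ℕ) (σ x : ℝ) (N : ℕ) (hN : 3 ≤ N) (hσ : 1 ≤ σ) (hσ2 : σ ≤ 2)
    (hx : (N : ℝ) ≤ x) (hx2 : x ≤ 2 * N) :
    ‖(k * (Real.log x) ^ (k - 1) * x⁻¹) * x ^ (-σ) + (Real.log x) ^ k * (-σ * x ^ (-σ - 1))‖ ≤
      (k + 2) * (Real.log (2 * N)) ^ k * (N : ℝ) ^ (-σ - 1) := by
  have hN3 : (3 : ℝ) ≤ N := by exact_mod_cast hN
  have hx0 : 0 < x := by linarith
  have hl1 : 1 ≤ Real.log x := by
    rw [Real.le_log_iff_exp_le hx0]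
    exact (Real.exp_one_lt_d9.le.trans (by norm_num)).trans (hN3.trans hx)
  have hl2 : Real.log x ≤ Real.log (2 * N) := Real.log_le_log hx0 hx2
  have hl0 : 0 ≤ Real.log x := by linarith
  have e1 : x⁻¹ * x ^ (-σ) = x ^ (-σ - 1) := by
    rw [Real.rpow_sub_one hx0.ne']
    ring
  have e2 : (k * (Real.log x) ^ (k - 1) * x⁻¹) * x ^ (-σ) + (Real.log x) ^ k * (-σ * x ^ (-σ - 1)) =
      (k * (Real.log x) ^ (k - 1) - σ * (Real.log x) ^ k) * x ^ (-σ - 1) := by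
    rw [← e1]
    ring
  have hp : 0 ≤ x ^ (-σ - 1) := Real.rpow_nonneg hx0.le _
  have hp2 : x ^ (-σ - 1) ≤ (N : ℝ) ^ (-σ - 1) :=
    Real.rpow_le_rpow_of_nonpos (by linarith) hx (by linarith)
  have hk : (Real.log x) ^ (k - 1) ≤ (Real.log x) ^ k := pow_le_pow_right₀ hl1 (by omega)
  have hk2 : (Real.log x) ^ k ≤ (Real.log (2 * N)) ^ k := pow_le_pow_left₀ hl0 hl2 k
  have hk0 : 0 ≤ (Real.log x) ^ (k - 1) := by positivity
  have hk3 : 0 ≤ (Real.log x) ^ k := by positivity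
  rw [e2, norm_mul, Real.norm_of_nonneg hp]
  have e3 : ‖(k : ℝ) * (Real.log x) ^ (k - 1) - σ * (Real.log x) ^ k‖ ≤
      (k + 2) * (Real.log (2 * N)) ^ k := by
    have f1 : (k : ℝ) * (Real.log x) ^ (k - 1) ≤ k * (Real.log (2 * N)) ^ k :=
      mul_le_mul_of_nonneg_left (hk.trans hk2) (Nat.cast_nonneg k)
    have f2 : σ * (Real.log x) ^ k ≤ 2 * (Real.log (2 * N)) ^ k :=
      mul_le_mul hσ2 hk2 hk3 (by norm_num)
    have f3 : 0 ≤ (k : ℝ) * (Real.log x) ^ (k - 1) := by positivity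
    have f4 : 0 ≤ σ * (Real.log x) ^ k := by positivity
    rw [Real.norm_eq_abs, abs_le]
    constructor <;> nlinarith
  exact mul_le_mul e3 hp2 hp (mul_nonneg (by positivity) (pow_nonneg (hl0.trans hl2) k))

private theorem rabel_step (k : ℕ) (σ : ℝ) (N n : ℕ) (hN : 3 ≤ N) (hσ : 1 ≤ σ) (hσ2 : σ ≤ 2)
    (hn : N ≤ n) (hn2 : n + 1 ≤ 2 * N) :
    |rabelW k σ ((n + 1 : ℕ) : ℝ) - rabelW k σ (n : ℝ)| ≤
      (k + 2) * (Real.log (2 * N)) ^ k * (N : ℝ) ^ (-σ - 1) := by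
  have hN3 : (3 : ℝ) ≤ N := by exact_mod_cast hN
  have hd : ∀ x ∈ Set.Icc (N : ℝ) (2 * N), HasDerivWithinAt (rabelW k σ)
      ((k * (Real.log x) ^ (k - 1) * x⁻¹) * x ^ (-σ) + (Real.log x) ^ k * (-σ * x ^ (-σ - 1)))
      (Set.Icc (N : ℝ) (2 * N)) x := fun x hx =>
    (rabel_deriv k σ x (by linarith [hx.1])).hasDerivWithinAt
  have h1 : (N : ℝ) ≤ n := by exact_mod_cast hn
  have h2 : ((n + 1 : ℕ) : ℝ) ≤ 2 * N := by exact_mod_cast hn2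
  have h3 : ((n + 1 : ℕ) : ℝ) = (n : ℝ) + 1 := by push_cast; ring
  have hmv := (convex_Icc (N : ℝ) (2 * N)).norm_image_sub_le_of_norm_hasDerivWithin_le hd
    (fun x hx => rabel_dbound k σ x N hN hσ hσ2 hx.1 hx.2)
    (Set.mem_Icc.2 ⟨h1, by linarith⟩) (Set.mem_Icc.2 ⟨by linarith, h2⟩)
  rw [Real.norm_eq_abs] at hmv
  refine hmv.trans (le_of_eq ?_)
  have h4 : ‖((n + 1 : ℕ) : ℝ) - n‖ = 1 := by
    rw [h3]
    simp
  rw [h4, mul_one]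

theorem abel_block (k : ℕ) (b : ℕ → ℂ) (N N' : ℕ) (σ B : ℝ) (hN : 3 ≤ N) (hN' : N' ≤ 2 * N) (hσ : 1 ≤ σ) (hσ2 : σ ≤ 2)
    (hB : ∀ n : ℕ, N ≤ n → n ≤ 2 * N → ‖∑ m ∈ Ioc N n, b m‖ ≤ B) :
    ‖∑ n ∈ Ioc N N', b n * (((Real.log n) ^ k * (n : ℝ) ^ (-σ) : ℝ) : ℂ)‖ ≤
      (k + 3) * (Real.log (2 * N)) ^ k * (N : ℝ) ^ (-σ) * B := by
  have hN3 : (3 : ℝ) ≤ N := by exact_mod_cast hN
  have hB0 : 0 ≤ B := by
    have := hB N le_rfl (by omega)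
    exact (norm_nonneg _).trans this
  have hlN : 0 ≤ Real.log (2 * N) := Real.log_nonneg (by linarith)
  have hpN : 0 ≤ (N : ℝ) ^ (-σ) := by positivity
  rcases lt_or_ge N' N with hlt | hge
  · rw [Finset.Ioc_eq_empty (by omega), Finset.sum_empty, norm_zero]
    positivity
  have hsum := rabel_sum b (fun n => ((rabelW k σ n : ℝ) : ℂ)) N N' hge
  have e0 : ∑ n ∈ Ioc N N', b n * (((Real.log n) ^ k * (n : ℝ) ^ (-σ) : ℝ) : ℂ) =
      ∑ n ∈ Ioc N N', b n * ((rabelW k σ n : ℝ) : ℂ) := rfl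
  rw [e0, hsum]
  have hNN' : (N : ℝ) ≤ N' := by exact_mod_cast hge
  have hN'2 : (N' : ℝ) ≤ 2 * N := by exact_mod_cast hN'
  have w1 : ‖((rabelW k σ N' : ℝ) : ℂ)‖ ≤ (Real.log (2 * N)) ^ k * (N : ℝ) ^ (-σ) := by
    rw [Complex.norm_real]
    unfold rabelW
    have l0 : 0 ≤ Real.log N' := Real.log_nonneg (by linarith)
    rw [Real.norm_of_nonneg (mul_nonneg (pow_nonneg l0 k) (Real.rpow_nonneg (by linarith) _))]
    refine mul_le_mul (pow_le_pow_left₀ l0 (Real.log_le_log (by linarith) hN'2) k)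
      (Real.rpow_le_rpow_of_nonpos (by linarith) hNN' (by linarith))
      (Real.rpow_nonneg (by linarith) _) (pow_nonneg hlN k)
  have w2 : ‖∑ n ∈ Ico N N', (∑ m ∈ Ioc N n, b m) *
      (((rabelW k σ ((n + 1 : ℕ) : ℝ) : ℝ) : ℂ) - ((rabelW k σ n : ℝ) : ℂ))‖ ≤
      (k + 2) * (Real.log (2 * N)) ^ k * (N : ℝ) ^ (-σ) * B := by
    refine (norm_sum_le _ _).trans ?_
    have hterm : ∀ n ∈ Ico N N', ‖(∑ m ∈ Ioc N n, b m) *
        (((rabelW k σ ((n + 1 : ℕ) : ℝ) : ℝ) : ℂ) - ((rabelW k σ n : ℝ) : ℂ))‖ ≤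
        B * ((k + 2) * (Real.log (2 * N)) ^ k * (N : ℝ) ^ (-σ - 1)) := by
      intro n hn
      rw [mem_Ico] at hn
      rw [norm_mul, ← Complex.ofReal_sub, Complex.norm_real, Real.norm_eq_abs]
      exact mul_le_mul (hB n hn.1 (by omega)) (rabel_step k σ N n hN hσ hσ2 hn.1 (by omega))
        (abs_nonneg _) hB0
    refine (sum_le_sum hterm).trans ?_
    rw [sum_const, Nat.card_Ico, nsmul_eq_mul]
    have hc : ((N' - N : ℕ) : ℝ) ≤ N := by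
      have : N' - N ≤ N := by omega
      exact_mod_cast this
    have hp : (N : ℝ) * (N : ℝ) ^ (-σ - 1) = (N : ℝ) ^ (-σ) := by
      rw [Real.rpow_sub_one (by linarith)]
      field_simp
    have hq : 0 ≤ B * ((k + 2) * (Real.log (2 * N)) ^ k * (N : ℝ) ^ (-σ - 1)) := by positivity
    calc ((N' - N : ℕ) : ℝ) * (B * ((k + 2) * (Real.log (2 * N)) ^ k * (N : ℝ) ^ (-σ - 1)))
        ≤ N * (B * ((k + 2) * (Real.log (2 * N)) ^ k * (N : ℝ) ^ (-σ - 1))) :=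
          mul_le_mul_of_nonneg_right hc hq
      _ = (k + 2) * (Real.log (2 * N)) ^ k * ((N : ℝ) * (N : ℝ) ^ (-σ - 1)) * B := by ring
      _ = _ := by rw [hp]
  refine (norm_sub_le _ _).trans ?_
  have w3 : ‖(∑ m ∈ Ioc N N', b m) * ((rabelW k σ N' : ℝ) : ℂ)‖ ≤
      B * ((Real.log (2 * N)) ^ k * (N : ℝ) ^ (-σ)) := by
    rw [norm_mul]
    exact mul_le_mul (hB N' hge hN') w1 (norm_nonneg _) hB0
  calc _ ≤ B * ((Real.log (2 * N)) ^ k * (N : ℝ) ^ (-σ)) +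
        (k + 2) * (Real.log (2 * N)) ^ k * (N : ℝ) ^ (-σ) * B := add_le_add w3 w2
    _ = _ := by ring

end Pool.Agent.Lib.VK
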