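import Pool.Agent.Lib.VK.Defs
import Pool.Agent.Lib.SW.Leibniz

/-!
# VK / RRec: the recursion for the derivatives of L'/L

PROOF. As `SW.rec_L` (SW/Leibniz.lean), with the completely multiplicative fr χ y in place of the character: (fr ⍟ frL)(n) = ∑_{d e = n} fr(d) fr(e) Λ(e) = fr(n) ∑_{e ∣ n} Λ(e) = fr(n) log n
(`fr_mul`, `ArithmeticFunction.vonMangoldt_sum`; see `SW.convolution_ch_chL`), so lc (fr ⍟ frL) K agrees with lc fr (K+1) (at 0 both series have term 0), and `SW.leibniz` applies: fr and frL are Tame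
(`SW.tame_of_norm_le_one`, `SW.tame_of_norm_le_log`, `norm_fr_le`, `norm_frL_le`).
-/

set_option autoImplicit false

open Finset

namespace Pool.Agent.Lib.VK

open Pool.Agent.Lib.SW (lc)

private theorem rrec_conv {q : ℕ} (χ : DirichletCharacter ℂ q) (y n : ℕ) :
    LSeries.convolution (fr χ y) (frL χ y) n = fr χ y n * (Real.log n : ℂ) := by
  rw [LSeries.convolution_def]
  have h1 : ∀ p ∈ n.divisorsAntidiagonal,
      fr χ y p.1 * frL χ y p.2 = fr χ y n * ((ArithmeticFunction.vonMangoldt p.2 : ℝ) : ℂ) := by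
    intro p hp
    rw [← (Nat.mem_divisorsAntidiagonal.mp hp).1, fr_mul]
    simp only [frL]
    ring
  beta_reduce
  rw [Finset.sum_congr rfl h1, ← Finset.mul_sum]
  congr 1
  have h2 := ArithmeticFunction.vonMangoldt_sum (n := n)
  rw [Nat.sum_divisorsAntidiagonal' (fun _ j => ((ArithmeticFunction.vonMangoldt j : ℝ) : ℂ)),
    ← h2]
  push_cast
  rfl

theorem k_rec {q : ℕ} (χ : DirichletCharacter ℂ q) (y K : ℕ) {s : ℂ} (hs : 1 < s.re) :
    LSeries (lc (fr χ y) (K + 1)) s = ∑ i ∈ range (K + 1),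
      (K.choose i : ℂ) * (LSeries (lc (fr χ y) (K - i)) s * LSeries (lc (frL χ y) i) s) := by
  rw [← SW.leibniz (SW.tame_of_norm_le_one (norm_fr_le χ y))
    (SW.tame_of_norm_le_log (fun n _ => norm_frL_le χ y n)) K hs]
  refine LSeries_congr (fun {n} _ => ?_) s
  simp only [lc]
  rw [rrec_conv]
  push_cast
  ring

end Pool.Agent.Lib.VK
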