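import Pool.Agent.Lib.VK.RLow
import Pool.Agent.Lib.VK.RRec

/-!
# VK / RBd: all derivatives of L'/L over the rough numbers are ≤ C (log y)^(K+1)

PROOF. Strong induction on K. Write L_j = LSeries (lc (fr χ y) j) s, D_i = LSeries (lc (frL χ y) i) s, s = σ - it. `k_rec`: L_0 D_K = L_{K+1} - ∑_{i<K} C(K,i) L_{K-i} D_i
(lc f 0 = f by `SW.lc_zero`, so L_0 = LSeries (fr χ y) s). |L_j| ≤ C_j (log y)^j for j ≤ K+1 by `k_deriv j` (ε ≤ (σ-1)^(K+5) ≤ (σ-1)^(j+3) as σ - 1 ≤ 1 and j + 3 ≤ K + 4),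
|D_i| ≤ C (log y)^(i+1) by induction (ε ≤ (σ-1)^(K+5) ≤ (σ-1)^(i+5)), |L_0| ≥ c by `k_low` (ε ≤ (σ-1)^4). So |D_K| ≤ (1/c) (C (log y)^(K+1) + ∑ C(K,i) C (log y)^(K-i) C (log y)^(i+1)) ≤ C' (log y)^(K+1).
(Compare SW/BoundsD.lean, `boundsD_step`.)
-/

set_option autoImplicit false

open Finset

namespace Pool.Agent.Lib.VK

open Pool.Agent.Lib.SW (lc)

/-- one step of the recursion, with the power of `T` kept -/
private theorem rbd_step (K : ℕ) (a D : ℕ → ℂ) (r : ℂ) {T B c : ℝ} (hT : 1 ≤ T)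
    (hB : 0 ≤ B) (hc : 0 < c)
    (h : r = ∑ i ∈ Finset.range (K + 1), (K.choose i : ℂ) * (a (K - i) * D i))
    (hr : ‖r‖ ≤ B * T ^ (K + 1)) (ha : ∀ j, j ≤ K → ‖a j‖ ≤ B * T ^ j)
    (hD : ∀ i, i < K → ‖D i‖ ≤ B * T ^ (i + 1)) (h0 : c ≤ ‖a 0‖) :
    ‖D K‖ ≤ ((B + 2 ^ K * B ^ 2) / c) * T ^ (K + 1) := by
  have hT0 : 0 < T := by linarith
  rw [Finset.sum_range_succ, Nat.choose_self, Nat.cast_one, one_mul, Nat.sub_self] at h
  have h1 : a 0 * D K = r - ∑ i ∈ Finset.range K, (K.choose i : ℂ) * (a (K - i) * D i) := by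
    rw [h]
    ring
  have h2 : ‖∑ i ∈ Finset.range K, (K.choose i : ℂ) * (a (K - i) * D i)‖ ≤
      2 ^ K * (B ^ 2 * T ^ (K + 1)) := by
    have h3 : ∀ i ∈ Finset.range K, ‖(K.choose i : ℂ) * (a (K - i) * D i)‖ ≤
        (K.choose i : ℝ) * (B ^ 2 * T ^ (K + 1)) := by
      intro i hi
      rw [norm_mul, norm_mul, Complex.norm_natCast]
      have hi' := Finset.mem_range.1 hi
      have b1 := ha (K - i) (Nat.sub_le _ _)
      have b2 := hD i hi'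
      have b3 : B ^ 2 * T ^ (K + 1) = (B * T ^ (K - i)) * (B * T ^ (i + 1)) := by
        have e : K + 1 = (K - i) + (i + 1) := by omega
        rw [e, pow_add]
        ring
      rw [b3]
      exact mul_le_mul_of_nonneg_left
        (mul_le_mul b1 b2 (norm_nonneg _) (mul_nonneg hB (pow_nonneg hT0.le _))) (Nat.cast_nonneg _)
    have h4 : (∑ i ∈ Finset.range K, (K.choose i : ℝ)) ≤ 2 ^ K := by
      have h5 := Nat.sum_range_choose K
      have h6 : (∑ i ∈ Finset.range (K + 1), (K.choose i : ℝ)) = 2 ^ K := by exact_mod_cast h5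
      rw [Finset.sum_range_succ] at h6
      have h7 : (0 : ℝ) ≤ (K.choose K : ℝ) := Nat.cast_nonneg _
      linarith
    calc ‖∑ i ∈ Finset.range K, (K.choose i : ℂ) * (a (K - i) * D i)‖
        ≤ ∑ i ∈ Finset.range K, ‖(K.choose i : ℂ) * (a (K - i) * D i)‖ := norm_sum_le _ _
      _ ≤ ∑ i ∈ Finset.range K, (K.choose i : ℝ) * (B ^ 2 * T ^ (K + 1)) :=
          Finset.sum_le_sum h3
      _ = (∑ i ∈ Finset.range K, (K.choose i : ℝ)) * (B ^ 2 * T ^ (K + 1)) := by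
          rw [Finset.sum_mul]
      _ ≤ 2 ^ K * (B ^ 2 * T ^ (K + 1)) :=
          mul_le_mul_of_nonneg_right h4 (by positivity)
  have h8 : ‖a 0‖ * ‖D K‖ ≤ (B + 2 ^ K * B ^ 2) * T ^ (K + 1) := by
    rw [← norm_mul, h1]
    have h9 := norm_sub_le r (∑ i ∈ Finset.range K, (K.choose i : ℂ) * (a (K - i) * D i))
    have h12 : (B + 2 ^ K * B ^ 2) * T ^ (K + 1) =
        B * T ^ (K + 1) + 2 ^ K * (B ^ 2 * T ^ (K + 1)) := by ring
    rw [h12]
    linarith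
  have h13 : c * ‖D K‖ ≤ (B + 2 ^ K * B ^ 2) * T ^ (K + 1) :=
    (mul_le_mul_of_nonneg_right h0 (norm_nonneg _)).trans h8
  rw [div_mul_eq_mul_div, le_div_iff₀ hc, mul_comm]
  exact h13

theorem k_bound (K : ℕ) : ∃ C : ℝ, 0 < C ∧ ∀ (q : ℕ) (χ : DirichletCharacter ℂ q) (y : ℕ) (σ t ε : ℝ), 1 ≤ q → 3 ≤ y → 1 < σ → σ ≤ 2 → 0 ≤ ε →
    ε ≤ (σ - 1) ^ (K + 5) → Sm χ y t ε → Sm (χ ^ 2) y (2 * t) ε →
      ‖LSeries (lc (frL χ y) K) ((σ : ℂ) - t * Complex.I)‖ ≤ C * (Real.log y) ^ (K + 1) := by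
  induction K using Nat.strong_induction_on with
  | _ K ih =>
    obtain ⟨c, hc, hlow⟩ := k_low
    choose CA hCA hA using k_deriv
    have ih' : ∀ i : ℕ, ∃ C : ℝ, 0 < C ∧ (i < K → ∀ (q : ℕ) (χ : DirichletCharacter ℂ q) (y : ℕ)
        (σ t ε : ℝ), 1 ≤ q → 3 ≤ y → 1 < σ → σ ≤ 2 → 0 ≤ ε →
        ε ≤ (σ - 1) ^ (i + 5) → Sm χ y t ε → Sm (χ ^ 2) y (2 * t) ε →
        ‖LSeries (lc (frL χ y) i) ((σ : ℂ) - t * Complex.I)‖ ≤ C * (Real.log y) ^ (i + 1)) := by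
      intro i
      rcases lt_or_ge i K with hi | hi
      · obtain ⟨C, hC, h⟩ := ih i hi
        exact ⟨C, hC, fun _ => h⟩
      · exact ⟨1, one_pos, fun h => absurd h (not_lt.2 hi)⟩
    choose CD hCD hD using ih'
    obtain ⟨B, hBdef⟩ : ∃ B : ℝ, B = ∑ j ∈ range (K + 2), (CA j + CD j) := ⟨_, rfl⟩
    have hpos : ∀ j ∈ range (K + 2), 0 ≤ CA j + CD j := fun j _ =>
      add_nonneg (hCA j).le (hCD j).le
    have hBj : ∀ j, j < K + 2 → CA j + CD j ≤ B := by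
      intro j hj
      rw [hBdef]
      exact single_le_sum (f := fun j => CA j + CD j) hpos (mem_range.2 hj)
    have hB0 : 0 ≤ B := by rw [hBdef]; exact sum_nonneg hpos
    have hBpos : 0 < B := lt_of_lt_of_le (add_pos (hCA 0) (hCD 0)) (hBj 0 (by omega))
    refine ⟨(B + 2 ^ K * B ^ 2) / c, by positivity, ?_⟩
    intro q χ y σ t ε hq hy h1 h2 hε0 hε hS hS2
    have hy3 : (3 : ℝ) ≤ (y : ℝ) := by exact_mod_cast hy
    have hT : 1 ≤ Real.log y := by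
      rw [Real.le_log_iff_exp_le (by linarith)]
      exact Real.exp_one_lt_three.le.trans hy3
    have hσ0 : 0 ≤ σ - 1 := by linarith
    have hσ1 : σ - 1 ≤ 1 := by linarith
    have hεj : ∀ j, j ≤ K + 5 → ε ≤ (σ - 1) ^ j := fun j hj =>
      hε.trans (pow_le_pow_of_le_one hσ0 hσ1 hj)
    have hs : 1 < ((σ : ℂ) - t * Complex.I).re := by simpa using h1
    have hT0 : 0 ≤ Real.log y := by linarith
    refine rbd_step K (fun j => LSeries (lc (fr χ y) j) ((σ : ℂ) - t * Complex.I))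
      (fun j => LSeries (lc (frL χ y) j) ((σ : ℂ) - t * Complex.I))
      (LSeries (lc (fr χ y) (K + 1)) ((σ : ℂ) - t * Complex.I)) hT hB0 hc
      (k_rec χ y K hs) ?_ ?_ ?_ ?_
    · refine (hA (K + 1) q χ y σ t ε hy h1 h2 hε0 (hεj _ (by omega)) hS).trans ?_
      exact mul_le_mul_of_nonneg_right
        (by linarith [hBj (K + 1) (by omega), hCD (K + 1)]) (pow_nonneg hT0 _)
    · intro j hj
      refine (hA j q χ y σ t ε hy h1 h2 hε0 (hεj _ (by omega)) hS).trans ?_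
      exact mul_le_mul_of_nonneg_right
        (by linarith [hBj j (by omega), hCD j]) (pow_nonneg hT0 _)
    · intro i hi
      refine (hD i hi q χ y σ t ε hq hy h1 h2 hε0 (hεj _ (by omega)) hS hS2).trans ?_
      exact mul_le_mul_of_nonneg_right
        (by linarith [hBj i (by omega), hCA i]) (pow_nonneg hT0 _)
    · have h := hlow q χ y σ t ε hq hy h1 h2 hε0 (hεj 4 (by omega)) hS hS2
      rw [Pool.Agent.Lib.SW.lc_zero]
      exact h

end Pool.Agent.Lib.VK
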