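import Pool.Agent.Lib.VK.Defs
import Pool.Agent.Lib.MP_7b7e48_nt.GT.RoughCount

/-!
# VK / RCnt: the number of y-rough integers up to N is ≤ C N / log y

This is the interval `(0, N]` of `Pool.Agent.Lib.GT.rough_count` (upper bound for rough numbers in intervals, from
the fundamental lemma and Mertens' bound).
-/

set_option autoImplicit false

open Finset

namespace Pool.Agent.Lib.VK

open Classical in
theorem rough_count : ∃ C : ℝ, 0 < C ∧ ∀ y N : ℕ, 2 ≤ y → y ≤ N →
    (((Icc 1 N).filter fun n => Rough y n).card : ℝ) ≤ C * N / Real.log y := by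
  obtain ⟨C, hC, h⟩ := Pool.Agent.Lib.GT.rough_count
  refine ⟨C, hC, fun y N hy hN => le_trans ?_ (h y hy 0 N hN)⟩
  have h1 : (Icc 1 N).filter (fun n => Rough y n) ⊆
      (Ioc 0 (0 + N)).filter (Pool.Agent.Lib.GT.Rough y) := by
    intro n hn
    rw [mem_filter, mem_Icc] at hn
    rw [mem_filter, mem_Ioc]
    exact ⟨⟨by omega, by omega⟩, hn.2.2⟩
  exact_mod_cast card_le_card h1

end Pool.Agent.Lib.VK
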