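import Pool.Agent.Lib.VK.RCnt

/-!
# VK / RSmall: the rough integers up to y^48 in the Dirichlet series

PROOF. Rough n with 1 < n have n > y (`rough_lt`). Dyadic blocks (y 2^i, y 2^(i+1)], 0 ≤ i ≤ I, I ≤ 48 log y/log 2 + 1: each has ≤ C y 2^(i+1)/log y rough n (`rough_count`),
hence ∑ 1/n ≤ 2 C/log y per block, in all ≤ 2C (48 log y/log 2 + 2)/log y ≤ C' (log y ≥ log 3 ≥ 1). The term n = 1 gives 1.
-/

set_option autoImplicit false

open Finset

namespace Pool.Agent.Lib.VK

open Classical in
theorem rough_recip : ∃ C : ℝ, 0 < C ∧ ∀ y : ℕ, 3 ≤ y → ∑ n ∈ (Icc 1 (y ^ 48)).filter (fun n => Rough y n), (1 : ℝ) / n ≤ C := by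
  obtain ⟨C, hC, h⟩ := rough_count
  refine ⟨1 + 48 * C, by positivity, fun y hy => ?_⟩
  have hy3 : (3 : ℝ) ≤ y := by exact_mod_cast hy
  have hlog : 1 ≤ Real.log y := by
    rw [Real.le_log_iff_exp_le (by linarith)]
    have := Real.exp_one_lt_d9
    linarith
  have hlog0 : 0 < Real.log y := by linarith
  have key : ∀ X : ℕ, y ≤ X →
      ∑ n ∈ Icc 1 X, (if Rough y n then (1 : ℝ) / n else 0) ≤
        1 + (∑ n ∈ Icc 1 X, (if Rough y n then (1 : ℝ) else 0)) / X +
          C / Real.log y * (Real.log X - Real.log y) := by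
    intro X hX
    induction X, hX using Nat.le_induction with
    | base =>
      have h1 : ∑ n ∈ Icc 1 y, (if Rough y n then (1 : ℝ) / n else 0) ≤ 1 := by
        have h2 : ∑ n ∈ Icc 1 y, (if Rough y n then (1 : ℝ) / n else 0) =
            ∑ n ∈ Icc 1 y, (if n = 1 then (1 : ℝ) else 0) := by
          refine Finset.sum_congr rfl fun n hn => ?_
          obtain ⟨hn1, hn2⟩ := Finset.mem_Icc.1 hn
          by_cases h3 : n = 1
          · subst h3; simp [rough_one]
          · rw [if_neg h3, if_neg]
            intro h4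
            have := rough_lt h4 h3
            omega
        rw [h2, Finset.sum_ite_eq']
        split_ifs <;> norm_num
      have h2 : 0 ≤ (∑ n ∈ Icc 1 y, (if Rough y n then (1 : ℝ) else 0)) / y := by
        apply div_nonneg
        · apply Finset.sum_nonneg
          intro n _
          split_ifs <;> norm_num
        · positivity
      have h3 : C / Real.log y * (Real.log y - Real.log y) = 0 := by ring
      linarith
    | succ X hX ih =>
      rw [Finset.sum_Icc_succ_top (by omega), Finset.sum_Icc_succ_top (by omega)]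
      have hX0 : (0 : ℝ) < X := by
        have : (3 : ℝ) ≤ X := by exact_mod_cast (hy.trans hX)
        linarith
      have hS : ∑ n ∈ Icc 1 X, (if Rough y n then (1 : ℝ) else 0) ≤ C * X / Real.log y := by
        have h1 := h y X (by omega) hX
        rw [Finset.card_filter] at h1
        push_cast at h1
        exact h1
      set S := ∑ n ∈ Icc 1 X, (if Rough y n then (1 : ℝ) else 0) with hSdef
      have hl : 1 / ((X : ℝ) + 1) ≤ Real.log ((X : ℝ) + 1) - Real.log X := by
        rw [← Real.log_div (by positivity) (by positivity)]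
        have h1 := Real.one_sub_inv_le_log_of_pos (show (0 : ℝ) < ((X : ℝ) + 1) / X by positivity)
        have h2 : 1 - (((X : ℝ) + 1) / X)⁻¹ = 1 / ((X : ℝ) + 1) := by field_simp; ring
        linarith
      have hcl : C / Real.log y * (1 / ((X : ℝ) + 1)) ≤
          C / Real.log y * (Real.log ((X : ℝ) + 1) - Real.log X) :=
        mul_le_mul_of_nonneg_left hl (by positivity)
      have hS2 : S / X ≤ C / Real.log y := by
        rw [div_le_iff₀ hX0]
        calc S ≤ C * X / Real.log y := hS
          _ = C / Real.log y * X := by ring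
      have hS3 : S / X * (1 / ((X : ℝ) + 1)) ≤ C / Real.log y * (1 / ((X : ℝ) + 1)) :=
        mul_le_mul_of_nonneg_right hS2 (by positivity)
      have hS4 : S / X = S / ((X : ℝ) + 1) + S / X * (1 / ((X : ℝ) + 1)) := by
        field_simp
      have e1 : (if Rough y (X + 1) then (1 : ℝ) / ((X + 1 : ℕ) : ℝ) else 0) =
          (if Rough y (X + 1) then (1 : ℝ) else 0) / ((X : ℝ) + 1) := by
        split_ifs <;> simp
      rw [e1]
      push_cast
      rw [add_div]
      linarith
  have hX : y ≤ y ^ 48 := Nat.le_self_pow (by norm_num) y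
  have h1 := key (y ^ 48) hX
  rw [Finset.sum_filter]
  have hS : (∑ n ∈ Icc 1 (y ^ 48), (if Rough y n then (1 : ℝ) else 0)) / ((y ^ 48 : ℕ) : ℝ) ≤ C := by
    have h2 := h y (y ^ 48) (by omega) hX
    rw [Finset.card_filter] at h2
    push_cast at h2
    push_cast
    rw [div_le_iff₀ (by positivity)]
    refine h2.trans ?_
    rw [div_le_iff₀ hlog0]
    have : 0 ≤ C * (y : ℝ) ^ 48 := by positivity
    nlinarith
  have h3 : Real.log ((y ^ 48 : ℕ) : ℝ) - Real.log y = 47 * Real.log y := by
    push_cast
    rw [Real.log_pow]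
    push_cast
    ring
  rw [h3] at h1
  have h4 : C / Real.log y * (47 * Real.log y) = 47 * C := by field_simp
  rw [h4] at h1
  linarith

end Pool.Agent.Lib.VK
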