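import Pool.Agent.Lib.VK.RTail
import Pool.Agent.Lib.VK.RSmall
import Pool.Agent.Lib.SW.Leibniz

/-!
# VK / RDer: all derivatives of the Dirichlet series of the rough numbers are ≤ C (log y)^k

PROOF. s = σ - it, n^(-s) = n^(-σ) n^(it) = n^(-σ) nt t n for n ≥ 1 (`nt`, Complex.cpow); LSeries.term at 0 is 0. The series converges absolutely (`SW.Tame.summable`,
|fr| ≤ 1), so LSeries = lim over I of the sums over 1 ≤ n ≤ y^48 2^I (tendsto along I ↦ y^48 2^I, `le_of_tendsto`). The part n ≤ y^48: terms are supported on rough n,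
|term| ≤ (log n)^k n^(-σ) ≤ (48 log y)^k / n, sum ≤ C 48^k (log y)^k by `rough_recip`. The rest: `k_tail`.
-/

set_option autoImplicit false

open Finset

namespace Pool.Agent.Lib.VK

open Pool.Agent.Lib.DN (nt)
open Pool.Agent.Lib.SW (lc)

theorem RDer_term {q : ℕ} (χ : DirichletCharacter ℂ q) (y k n : ℕ) (σ t : ℝ) (hn : n ≠ 0) :
    LSeries.term (lc (fr χ y) k) ((σ : ℂ) - t * Complex.I) n =
      fr χ y n * nt t n * (((Real.log n) ^ k * (n : ℝ) ^ (-σ) : ℝ) : ℂ) := by
  have hn0 : (0 : ℝ) < n := by exact_mod_cast Nat.pos_of_ne_zero hn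
  have hnC : (n : ℂ) ≠ 0 := by exact_mod_cast hn
  rw [LSeries.term_of_ne_zero hn, div_eq_mul_inv, ← Complex.cpow_neg]
  have h1 : (n : ℂ) ^ (-((σ : ℂ) - t * Complex.I)) = nt t n * (((n : ℝ) ^ (-σ) : ℝ) : ℂ) := by
    rw [Complex.cpow_def_of_ne_zero hnC, Real.rpow_def_of_pos hn0, Complex.ofReal_exp, nt,
      ← Complex.exp_add]
    congr 1
    have h2 : Complex.log (n : ℂ) = ((Real.log n : ℝ) : ℂ) := by
      rw [← Complex.ofReal_natCast, Complex.ofReal_log hn0.le]
    rw [h2]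
    push_cast
    ring
  rw [h1]
  unfold Pool.Agent.Lib.SW.lc
  push_cast
  ring

theorem k_deriv (k : ℕ) : ∃ C : ℝ, 0 < C ∧ ∀ (q : ℕ) (χ : DirichletCharacter ℂ q) (y : ℕ) (σ t ε : ℝ), 3 ≤ y → 1 < σ → σ ≤ 2 → 0 ≤ ε →
    ε ≤ (σ - 1) ^ (k + 3) → Sm χ y t ε →
      ‖LSeries (lc (fr χ y) k) ((σ : ℂ) - t * Complex.I)‖ ≤ C * (Real.log y) ^ k := by
  classical
  obtain ⟨C1, hC1, h1⟩ := rough_recip
  obtain ⟨C2, hC2, h2⟩ := k_tail k
  refine ⟨48 ^ k * C1 + C2, by positivity, ?_⟩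
  intro q χ y σ t ε hy hσ hσ2 hε hεσ hSm
  set s : ℂ := (σ : ℂ) - t * Complex.I with hs
  have hsre : 1 < s.re := by simp [hs, hσ]
  have hy3 : (3 : ℝ) ≤ y := by exact_mod_cast hy
  have hL0 : 0 ≤ Real.log y := Real.log_nonneg (by linarith)
  have hsum : Summable (LSeries.term (lc (fr χ y) k) s) :=
    (Pool.Agent.Lib.SW.tame_of_norm_le_one (fun n => norm_fr_le χ y n)).summable k hsre
  have hlim := hsum.hasSum.tendsto_sum_nat
  have htend : Filter.Tendsto (fun I : ℕ => y ^ 48 * 2 ^ I + 1) Filter.atTop Filter.atTop := by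
    refine Filter.tendsto_atTop_mono (fun I => ?_) Filter.tendsto_id
    have h3 : I < 2 ^ I := Nat.lt_two_pow_self
    have h4 : 1 * 2 ^ I ≤ y ^ 48 * 2 ^ I := Nat.mul_le_mul_right _ (Nat.one_le_pow _ _ (by omega))
    simp only [id]
    omega
  have hlim2 := (hlim.comp htend).norm
  refine le_of_tendsto hlim2 (Filter.Eventually.of_forall fun I => ?_)
  simp only [Function.comp]
  -- split the sum
  have hsplit : ∑ n ∈ range (y ^ 48 * 2 ^ I + 1), LSeries.term (lc (fr χ y) k) s n =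
      ∑ n ∈ Icc 1 (y ^ 48), LSeries.term (lc (fr χ y) k) s n +
      ∑ n ∈ Ioc (y ^ 48) (y ^ 48 * 2 ^ I), LSeries.term (lc (fr χ y) k) s n := by
    have hdisj : Disjoint (Icc 1 (y ^ 48)) (Ioc (y ^ 48) (y ^ 48 * 2 ^ I)) := by
      refine Finset.disjoint_left.2 fun n a b => ?_
      have := (Finset.mem_Icc.1 a).2
      have := (Finset.mem_Ioc.1 b).1
      omega
    rw [← Finset.sum_union hdisj]
    have hle : y ^ 48 ≤ y ^ 48 * 2 ^ I := Nat.le_mul_of_pos_right _ (by positivity)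
    have hset : range (y ^ 48 * 2 ^ I + 1) =
        insert 0 (Icc 1 (y ^ 48) ∪ Ioc (y ^ 48) (y ^ 48 * 2 ^ I)) := by
      ext n
      simp only [Finset.mem_range, Finset.mem_insert, Finset.mem_union, Finset.mem_Icc, Finset.mem_Ioc]
      omega
    rw [hset, Finset.sum_insert, LSeries.term_zero, zero_add]
    simp
  rw [hsplit]
  refine (norm_add_le _ _).trans ?_
  rw [add_mul]
  apply add_le_add
  · -- small part
    refine (norm_sum_le _ _).trans ?_
    have h3 : ∀ n ∈ Icc 1 (y ^ 48), ‖LSeries.term (lc (fr χ y) k) s n‖ ≤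
        (if Rough y n then (1 : ℝ) / n else 0) * (48 * Real.log y) ^ k := by
      intro n hn
      obtain ⟨hn1, hn2⟩ := Finset.mem_Icc.1 hn
      have hn0 : n ≠ 0 := by omega
      have hn1' : (1 : ℝ) ≤ n := by exact_mod_cast hn1
      rw [hs, RDer_term χ y k n σ t hn0]
      by_cases hr : Rough y n
      · rw [if_pos hr, norm_mul, norm_mul, Pool.Agent.Lib.DN.norm_nt, mul_one, Complex.norm_real]
        have h4 : (0 : ℝ) ≤ Real.log n := Real.log_nonneg hn1'
        have h5 : Real.log n ≤ 48 * Real.log y := by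
          have h6 : (n : ℝ) ≤ (y : ℝ) ^ 48 := by exact_mod_cast hn2
          have h7 := Real.log_le_log (by linarith) h6
          rw [Real.log_pow] at h7
          push_cast at h7
          exact h7
        have h6 : (n : ℝ) ^ (-σ) ≤ 1 / n := by
          rw [one_div, ← Real.rpow_neg_one]
          exact Real.rpow_le_rpow_of_exponent_le hn1' (by linarith)
        rw [Real.norm_of_nonneg (by positivity)]
        calc ‖fr χ y n‖ * (Real.log n ^ k * (n : ℝ) ^ (-σ))
            ≤ 1 * (Real.log n ^ k * (n : ℝ) ^ (-σ)) :=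
              mul_le_mul_of_nonneg_right (norm_fr_le χ y n) (by positivity)
          _ = Real.log n ^ k * (n : ℝ) ^ (-σ) := one_mul _
          _ ≤ (48 * Real.log y) ^ k * (1 / n) :=
              mul_le_mul (pow_le_pow_left₀ h4 h5 k) h6 (by positivity) (by positivity)
          _ = _ := mul_comm _ _
      · rw [if_neg hr]
        have : fr χ y n = 0 := by unfold fr; rw [if_neg hr]
        rw [this]
        simp
    refine (Finset.sum_le_sum h3).trans ?_
    rw [← Finset.sum_mul, ← Finset.sum_filter, mul_pow]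
    calc (∑ n ∈ (Icc 1 (y ^ 48)).filter (fun n => Rough y n), (1 : ℝ) / n) * (48 ^ k * Real.log y ^ k)
        ≤ C1 * (48 ^ k * Real.log y ^ k) := mul_le_mul_of_nonneg_right (h1 y hy) (by positivity)
      _ = _ := by ring
  · have h3 : ∑ n ∈ Ioc (y ^ 48) (y ^ 48 * 2 ^ I), LSeries.term (lc (fr χ y) k) s n =
        ∑ n ∈ Ioc (y ^ 48) (y ^ 48 * 2 ^ I), fr χ y n * nt t n *
          (((Real.log n) ^ k * (n : ℝ) ^ (-σ) : ℝ) : ℂ) := by
      refine Finset.sum_congr rfl fun n hn => ?_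
      have := (Finset.mem_Ioc.1 hn).1
      exact RDer_term χ y k n σ t (by omega)
    rw [h3]
    exact h2 q χ y I σ t ε hy hσ hσ2 hε hεσ hSm

end Pool.Agent.Lib.VK
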