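import Pool.Agent.Lib.VK.RCnt

/-!
# VK / RTriv: trivial bounds for the Dirichlet series

`k_one`. PROOF. |LSeries| ≤ 1 + ∑_{n > y rough} n^(-σ) (|fr| ≤ 1, |n^(it)| = 1, rough n ≠ 1 are > y); dyadic blocks (y 2^i, y 2^(i+1)], `rough_count`:
≤ ∑_i C y 2^(i+1)/log y · (y 2^i)^(-σ) ≤ 2C/log y · ∑_i 2^(-i(σ-1)) ≤ C'/((σ-1) log y)  (1 - 2^(-(σ-1)) ≥ (σ-1)/2 for 0 < σ-1 ≤ 1).
(In Lean: norm_tsum_le_tsum_norm, then bound all partial sums Icc 1 (y 2^J), or compare term by term with a summable series.)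

`k_triv`. PROOF. |a n| ≤ log n. (log n)^(K+1) ≤ C ((σ-1)/2)^(-(K+1)) n^((σ-1)/2) (u^m ≤ m! e^u with u = ((σ-1)/2) log n), so the series is
≤ C (σ-1)^(-(K+1)) ∑ n^(-1-(σ-1)/2) ≤ C (σ-1)^(-(K+1)) (1 + 2/(σ-1)) ≤ C' (σ-1)^(-(K+2)).
-/

set_option autoImplicit false

open Finset

namespace Pool.Agent.Lib.VK

open Pool.Agent.Lib.SW (lc)

/-- summation over dyadic blocks -/
private theorem rtriv_dy (r : ℕ → ℝ) (hr : ∀ n, 0 ≤ r n) (Y : ℕ) (hY : 1 ≤ Y) (A B w : ℝ)
    (hw : 0 < w) (hw1 : w ≤ 1) (hB : 0 ≤ B)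
    (h0 : ∑ n ∈ Finset.range (Y + 1), r n ≤ A)
    (hb : ∀ i : ℕ, ∑ n ∈ Ioc (Y * 2 ^ i) (Y * 2 ^ (i + 1)), r n ≤ B * ((1 / 2 : ℝ) ^ w) ^ i) :
    Summable r ∧ ∑' n, r n ≤ A + 2 * B / w := by
  set x : ℝ := (1 / 2 : ℝ) ^ w with hx
  have hx0 : 0 < x := by positivity
  have hx1 : x ≤ 1 - w / 2 := by
    have h := rpow_one_add_le_one_add_mul_self (s := -1 / 2) (by norm_num) hw.le hw1
    have e : (1 + (-1 / 2 : ℝ)) = 1 / 2 := by norm_num
    rw [e] at h
    linarith
  have hS : ∀ J : ℕ, ∑ n ∈ Finset.range (Y * 2 ^ J + 1), r n ≤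
      A + 2 * B / w * (1 - x ^ J) := by
    intro J
    induction J with
    | zero => simpa using h0
    | succ J ih =>
      have h1 : 2 ^ J ≤ 2 ^ (J + 1) := Nat.pow_le_pow_right (by norm_num) (by omega)
      have h2 := Nat.mul_le_mul_left Y h1
      have hle : Y * 2 ^ J + 1 ≤ Y * 2 ^ (J + 1) + 1 := by omega
      have e : Ico (Y * 2 ^ J + 1) (Y * 2 ^ (J + 1) + 1) = Ioc (Y * 2 ^ J) (Y * 2 ^ (J + 1)) := by
        ext n
        simp only [mem_Ico, mem_Ioc]
        omega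
      rw [range_eq_Ico, ← sum_Ico_consecutive _ (Nat.zero_le _) hle, ← range_eq_Ico, e]
      have h3 := hb J
      have h4 : B * x ^ J ≤ 2 * B / w * (x ^ J - x ^ (J + 1)) := by
        have h5 : x ^ J - x ^ (J + 1) = x ^ J * (1 - x) := by ring
        rw [h5]
        have h6 : w / 2 ≤ 1 - x := by linarith
        calc B * x ^ J = 2 * B / w * (x ^ J * (w / 2)) := by field_simp
          _ ≤ 2 * B / w * (x ^ J * (1 - x)) := by
            apply mul_le_mul_of_nonneg_left _ (by positivity)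
            exact mul_le_mul_of_nonneg_left h6 (by positivity)
      calc _ ≤ A + 2 * B / w * (1 - x ^ J) + B * x ^ J := add_le_add ih h3
        _ ≤ A + 2 * B / w * (1 - x ^ J) + 2 * B / w * (x ^ J - x ^ (J + 1)) := by linarith
        _ = _ := by ring
  have hall : ∀ m : ℕ, ∑ n ∈ Finset.range m, r n ≤ A + 2 * B / w := by
    intro m
    have h1 : m ≤ Y * 2 ^ m + 1 := by
      have h2 : m < 2 ^ m := Nat.lt_two_pow_self
      have h3 : 1 * 2 ^ m ≤ Y * 2 ^ m := Nat.mul_le_mul_right _ hY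
      omega
    calc ∑ n ∈ Finset.range m, r n ≤ ∑ n ∈ Finset.range (Y * 2 ^ m + 1), r n :=
          sum_le_sum_of_subset_of_nonneg (range_subset_range.mpr h1) (fun n _ _ => hr n)
      _ ≤ A + 2 * B / w * (1 - x ^ m) := hS m
      _ ≤ A + 2 * B / w := by
          have h2 : 0 ≤ 2 * B / w * x ^ m := by positivity
          linarith
  exact ⟨summable_of_sum_range_le hr hall, Real.tsum_le_of_sum_range_le hr hall⟩

private theorem rtriv_norm (f : ℕ → ℂ) (s : ℂ) (r : ℕ → ℝ) (hs : Summable r)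
    (hr : ∀ n, 0 ≤ r n) (h : ∀ n : ℕ, n ≠ 0 → ‖f n‖ / (n : ℝ) ^ s.re ≤ r n) :
    ‖LSeries f s‖ ≤ ∑' n, r n := by
  refine tsum_of_norm_bounded hs.hasSum fun n => ?_
  rw [LSeries.norm_term_eq]
  split_ifs with hn
  · exact hr n
  · exact h n hn

theorem k_one : ∃ C : ℝ, 0 < C ∧ ∀ (q : ℕ) (χ : DirichletCharacter ℂ q) (y : ℕ) (σ t : ℝ), 3 ≤ y → 1 < σ → σ ≤ 2 →
    ‖LSeries (fr χ y) ((σ : ℂ) - t * Complex.I)‖ ≤ C * (1 + 1 / ((σ - 1) * Real.log y)) := by
  classical
  obtain ⟨C, hC, hcnt⟩ := rough_count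
  refine ⟨1 + 4 * C, by positivity, fun q χ y σ t hy hσ hσ2 => ?_⟩
  have hy0 : (0 : ℝ) < y := by exact_mod_cast (by omega : 0 < y)
  have hy1 : (1 : ℝ) ≤ y := by exact_mod_cast (by omega : 1 ≤ y)
  have hlog : 0 < Real.log y := Real.log_pos (by exact_mod_cast (by omega : 1 < y))
  have hσ0 : 0 < σ - 1 := by linarith
  let r : ℕ → ℝ := fun n => if Rough y n then (n : ℝ) ^ (-σ) else 0
  have hr : ∀ n, 0 ≤ r n := by
    intro n
    simp only [r]
    split_ifs
    · positivity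
    · exact le_rfl
  have h0 : ∑ n ∈ Finset.range (y + 1), r n ≤ 1 := by
    rw [sum_eq_single 1]
    · simp only [r]
      rw [if_pos (rough_one y)]
      simp
    · intro n hn hn1
      simp only [r]
      rw [if_neg]
      intro h
      have := rough_lt h hn1
      rw [mem_range] at hn
      omega
    · intro h
      exact absurd (mem_range.mpr (by omega)) h
  have hb : ∀ i : ℕ, ∑ n ∈ Ioc (y * 2 ^ i) (y * 2 ^ (i + 1)), r n ≤
      (2 * C / Real.log y) * ((1 / 2 : ℝ) ^ (σ - 1)) ^ i := by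
    intro i
    have ha1 : 1 ≤ y * 2 ^ i := Nat.one_le_iff_ne_zero.mpr (by positivity)
    have ha0 : (0 : ℝ) < (y * 2 ^ i : ℕ) := by exact_mod_cast ha1
    have h1 : ∑ n ∈ Ioc (y * 2 ^ i) (y * 2 ^ (i + 1)), r n ≤
        (((Icc 1 (y * 2 ^ (i + 1))).filter fun n => Rough y n).card : ℝ) *
          ((y * 2 ^ i : ℕ) : ℝ) ^ (-σ) := by
      simp only [r]
      rw [← sum_filter]
      calc ∑ n ∈ (Ioc (y * 2 ^ i) (y * 2 ^ (i + 1))).filter (fun n => Rough y n), (n : ℝ) ^ (-σ)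
          ≤ ∑ n ∈ (Ioc (y * 2 ^ i) (y * 2 ^ (i + 1))).filter (fun n => Rough y n),
            ((y * 2 ^ i : ℕ) : ℝ) ^ (-σ) := by
            refine sum_le_sum fun n hn => ?_
            have hn' := (mem_Ioc.mp (mem_filter.mp hn).1).1
            apply Real.rpow_le_rpow_of_nonpos ha0 _ (by linarith)
            exact_mod_cast hn'.le
        _ ≤ ∑ n ∈ (Icc 1 (y * 2 ^ (i + 1))).filter (fun n => Rough y n),
            ((y * 2 ^ i : ℕ) : ℝ) ^ (-σ) := by
            apply sum_le_sum_of_subset_of_nonneg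
            · apply filter_subset_filter
              intro n hn
              rw [mem_Ioc] at hn
              rw [mem_Icc]
              omega
            · intro n _ _
              positivity
        _ = _ := by rw [sum_const, nsmul_eq_mul]
    have h2 := hcnt y (y * 2 ^ (i + 1)) (by omega) (Nat.le_mul_of_pos_right _ (by positivity))
    have h3 : ((y * 2 ^ (i + 1) : ℕ) : ℝ) = 2 * ((y * 2 ^ i : ℕ) : ℝ) := by
      push_cast
      ring
    have h4 : ((y * 2 ^ i : ℕ) : ℝ) * ((y * 2 ^ i : ℕ) : ℝ) ^ (-σ) ≤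
        ((1 / 2 : ℝ) ^ (σ - 1)) ^ i := by
      have e1 : ((y * 2 ^ i : ℕ) : ℝ) * ((y * 2 ^ i : ℕ) : ℝ) ^ (-σ) =
          ((y * 2 ^ i : ℕ) : ℝ) ^ (1 - σ) := by
        rw [sub_eq_add_neg, Real.rpow_add ha0, Real.rpow_one]
      rw [e1]
      push_cast
      rw [Real.mul_rpow hy0.le (by positivity)]
      have e2 : (y : ℝ) ^ (1 - σ) ≤ 1 := Real.rpow_le_one_of_one_le_of_nonpos hy1 (by linarith)
      have e3 : ((2 : ℝ) ^ i) ^ (1 - σ) = ((1 / 2 : ℝ) ^ (σ - 1)) ^ i := by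
        rw [← Real.rpow_natCast 2 i, ← Real.rpow_mul (by norm_num), one_div,
          Real.inv_rpow (by norm_num), ← Real.rpow_neg (by norm_num),
          ← Real.rpow_natCast, ← Real.rpow_mul (by norm_num)]
        congr 1
        ring
      rw [e3]
      calc (y : ℝ) ^ (1 - σ) * ((1 / 2 : ℝ) ^ (σ - 1)) ^ i ≤ 1 * ((1 / 2 : ℝ) ^ (σ - 1)) ^ i :=
            mul_le_mul_of_nonneg_right e2 (by positivity)
        _ = _ := one_mul _
    calc _ ≤ _ := h1
      _ ≤ (C * ((y * 2 ^ (i + 1) : ℕ) : ℝ) / Real.log y) * ((y * 2 ^ i : ℕ) : ℝ) ^ (-σ) :=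
          mul_le_mul_of_nonneg_right h2 (by positivity)
      _ = (2 * C / Real.log y) * (((y * 2 ^ i : ℕ) : ℝ) * ((y * 2 ^ i : ℕ) : ℝ) ^ (-σ)) := by
          rw [h3]
          ring
      _ ≤ _ := mul_le_mul_of_nonneg_left h4 (by positivity)
  obtain ⟨hsum, hle⟩ := rtriv_dy r hr y (by omega) 1 (2 * C / Real.log y) (σ - 1) hσ0
    (by linarith) (by positivity) h0 hb
  have hre : ((σ : ℂ) - t * Complex.I).re = σ := by simp
  refine (rtriv_norm (fr χ y) _ r hsum hr ?_).trans (hle.trans ?_)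
  · intro n hn
    rw [hre]
    have hn0 : (0 : ℝ) < n := by exact_mod_cast Nat.pos_of_ne_zero hn
    simp only [r]
    split_ifs with h
    · rw [Real.rpow_neg hn0.le, div_eq_mul_inv]
      calc ‖fr χ y n‖ * ((n : ℝ) ^ σ)⁻¹ ≤ 1 * ((n : ℝ) ^ σ)⁻¹ :=
            mul_le_mul_of_nonneg_right (norm_fr_le χ y n) (by positivity)
        _ = _ := one_mul _
    · have e : fr χ y n = 0 := by
        unfold fr
        rw [if_neg h]
      rw [e, norm_zero, zero_div]
  · have e : 1 + 2 * (2 * C / Real.log y) / (σ - 1) =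
        1 + 4 * C * (1 / ((σ - 1) * Real.log y)) := by
      field_simp
      ring
    rw [e]
    have h5 : 0 ≤ 1 / ((σ - 1) * Real.log y) := by positivity
    nlinarith

theorem k_triv (K : ℕ) : ∃ C : ℝ, 0 < C ∧ ∀ (a : ℕ → ℂ) (s : ℂ), (∀ n : ℕ, 1 ≤ n → ‖a n‖ ≤ Real.log n) → 1 < s.re → s.re ≤ 2 →
    ‖LSeries (lc a K) s‖ ≤ C / (s.re - 1) ^ (K + 2) := by
  classical
  refine ⟨3 * ((K + 1).factorial * 2 ^ (K + 2)), by positivity, fun a s ha hs hs2 => ?_⟩
  set u : ℝ := (s.re - 1) / 2 with hu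
  have hu0 : 0 < u := by rw [hu]; linarith
  have hu1 : u ≤ 1 / 2 := by rw [hu]; linarith
  have hsre : s.re = 1 + u + u := by rw [hu]; ring
  set D : ℝ := (K + 1).factorial / u ^ (K + 1) with hD
  have hD0 : 0 < D := by positivity
  let r : ℕ → ℝ := fun n => if n = 0 then 0 else D * (n : ℝ) ^ (-(1 + u))
  have hr : ∀ n, 0 ≤ r n := by
    intro n
    simp only [r]
    split_ifs
    · exact le_rfl
    · positivity
  have h0 : ∑ n ∈ Finset.range (1 + 1), r n ≤ D := by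
    rw [sum_range_succ, sum_range_succ, sum_range_zero]
    simp [r]
  have hb : ∀ i : ℕ, ∑ n ∈ Ioc (1 * 2 ^ i) (1 * 2 ^ (i + 1)), r n ≤
      D * ((1 / 2 : ℝ) ^ u) ^ i := by
    intro i
    rw [one_mul, one_mul]
    have ha0 : (0 : ℝ) < (2 : ℝ) ^ i := by positivity
    calc ∑ n ∈ Ioc (2 ^ i) (2 ^ (i + 1)), r n
        ≤ ∑ n ∈ Ioc (2 ^ i) (2 ^ (i + 1)), D * ((2 : ℝ) ^ i) ^ (-(1 + u)) := by
          refine sum_le_sum fun n hn => ?_
          have hn' := (mem_Ioc.mp hn).1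
          have hn0 : n ≠ 0 := by
            have : 0 < 2 ^ i := by positivity
            omega
          simp only [r]
          rw [if_neg hn0]
          apply mul_le_mul_of_nonneg_left _ hD0.le
          apply Real.rpow_le_rpow_of_nonpos ha0 _ (by linarith)
          exact_mod_cast hn'.le
      _ = D * ((2 : ℝ) ^ i * ((2 : ℝ) ^ i) ^ (-(1 + u))) := by
          have e : 2 ^ (i + 1) - 2 ^ i = 2 ^ i := by
            rw [pow_succ]
            omega
          rw [sum_const, Nat.card_Ioc, e, nsmul_eq_mul]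
          push_cast
          ring
      _ = D * ((1 / 2 : ℝ) ^ u) ^ i := by
          congr 1
          have e1 : (2 : ℝ) ^ i * ((2 : ℝ) ^ i) ^ (-(1 + u)) = ((2 : ℝ) ^ i) ^ (-u) := by
            have e2 : -u = 1 + -(1 + u) := by ring
            rw [e2, Real.rpow_add ha0, Real.rpow_one]
          rw [e1, ← Real.rpow_natCast 2 i, ← Real.rpow_mul (by norm_num), one_div,
            Real.inv_rpow (by norm_num), ← Real.rpow_neg (by norm_num),
            ← Real.rpow_natCast, ← Real.rpow_mul (by norm_num)]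
          congr 1
          ring
  obtain ⟨hsum, hle⟩ := rtriv_dy r hr 1 le_rfl D D u hu0 (by linarith) hD0.le h0 hb
  refine (rtriv_norm (lc a K) s r hsum hr ?_).trans (hle.trans ?_)
  · intro n hn
    have hn1 : 1 ≤ n := Nat.one_le_iff_ne_zero.mpr hn
    have hn0 : (0 : ℝ) < n := by exact_mod_cast hn1
    have hl : 0 ≤ Real.log n := Real.log_natCast_nonneg n
    simp only [r]
    rw [if_neg hn, Pool.Agent.Lib.SW.norm_lc]
    have h1 : ‖a n‖ * Real.log n ^ K ≤ Real.log n ^ (K + 1) := by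
      rw [pow_succ']
      exact mul_le_mul_of_nonneg_right (ha n hn1) (by positivity)
    have h2 : Real.log n ^ (K + 1) ≤ D * (n : ℝ) ^ u := by
      have h3 := Real.pow_div_factorial_le_exp (u * Real.log n) (by positivity) (K + 1)
      have h4 : Real.exp (u * Real.log n) = (n : ℝ) ^ u := by
        rw [Real.rpow_def_of_pos hn0, mul_comm]
      rw [h4, div_le_iff₀ (by positivity), mul_pow] at h3
      rw [hD, div_mul_eq_mul_div, le_div_iff₀ (by positivity)]
      linarith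
    rw [div_le_iff₀ (by positivity)]
    calc ‖a n‖ * Real.log n ^ K ≤ D * (n : ℝ) ^ u := h1.trans h2
      _ = D * (n : ℝ) ^ (-(1 + u)) * (n : ℝ) ^ s.re := by
          rw [mul_assoc, ← Real.rpow_add hn0, hsre]
          congr 2
          ring
  · have h5 : 1 ≤ 1 / u := by
      rw [le_div_iff₀ hu0]
      linarith
    calc D + 2 * D / u ≤ 3 * (D / u) := by
          have : D * 1 ≤ D * (1 / u) := mul_le_mul_of_nonneg_left h5 hD0.le
          have e : 2 * D / u = 2 * (D / u) := by ring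
          have e2 : D * (1 / u) = D / u := by ring
          rw [e]
          linarith
      _ = 3 * ((K + 1).factorial * 2 ^ (K + 2)) / (s.re - 1) ^ (K + 2) := by
          have e3 : s.re - 1 = 2 * u := by rw [hu]; ring
          rw [hD, e3, mul_pow, pow_succ u (K + 1)]
          field_simp

end Pool.Agent.Lib.VK
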