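import Pool.Agent.Lib.VK.RBd
import Pool.Agent.Lib.VK.RTriv

/-!
# VK / RHyp: the hypothesis of the Tauberian row

PROOF. Write s = σ + iu. For n ≥ 1: n^(-s) nt t n = n^(-σ) nt (t - u) n, so LSeries (lc (fun n => frL χ y n * nt t n) (2k+1)) s = LSeries (lc (frL χ y) (2k+1)) (σ - (t-u) i) (termwise).
If |u| ≤ |t|/2: t' = t - u has |t|/2 ≤ |t'| ≤ 3|t|/2 and |2t'| is in [|t|/2, 4|t|], so `k_bound (2k+1)` applies (ε ≤ (1/(2 log 2R))^(2k+6) ≤ (σ-1)^(2k+6)): ≤ C (log y)^(2k+2) ≤ C (log y)^(2k+2) (|u|+2)^(1/2).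
If |u| > |t|/2: `k_triv (2k+1)` for a n = frL χ y n * nt t n (‖a n‖ ≤ log n): ≤ C (σ-1)^(-(2k+3)) ≤ C (2 log 2R)^(2k+3) ≤ C |t|^(1/2) ≤ 2 C (|u|+2)^(1/2), as (2 log 2R)^(4k+6) ≤ |t|; and log y ≥ log 3 ≥ 1.
-/

set_option autoImplicit false

open Finset

namespace Pool.Agent.Lib.VK

open Pool.Agent.Lib.DN (nt)
open Pool.Agent.Lib.SW (lc)

private theorem le_of_sq_le_sq_rhyp {a b : ℝ} (h : a ^ 2 ≤ b ^ 2) (hb : 0 ≤ b) : a ≤ b := by
  by_contra hc
  push Not at hc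
  nlinarith

private theorem rhyp_pow (t : ℝ) (s : ℂ) {n : ℕ} (hn : 0 < n) :
    nt t n * (n : ℂ) ^ ((s.re : ℂ) - (t - s.im : ℝ) * Complex.I) = (n : ℂ) ^ s := by
  have h0 : (n : ℂ) ≠ 0 := by exact_mod_cast hn.ne'
  unfold nt
  rw [Complex.cpow_def_of_ne_zero h0, Complex.cpow_def_of_ne_zero h0, ← Complex.exp_add,
    ← Complex.natCast_log]
  congr 1
  conv_rhs => rw [← Complex.re_add_im s]
  push_cast
  ring

theorem k_hyp (k : ℕ) : ∃ C : ℝ, 1 ≤ C ∧ ∀ (q : ℕ) (χ : DirichletCharacter ℂ q) (y R : ℕ) (t ε : ℝ), 1 ≤ q → 3 ≤ y → 3 ≤ R → 0 ≤ ε →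
    ε ≤ (1 / (2 * Real.log (2 * R))) ^ (2 * k + 6) →
    (∀ t' : ℝ, |t| / 2 ≤ |t'| → |t'| ≤ 4 * |t| → Sm χ y t' ε ∧ Sm (χ ^ 2) y t' ε) →
    (2 * Real.log (2 * R)) ^ (4 * k + 6) ≤ |t| →
    ∀ s : ℂ, 1 + 1 / (2 * Real.log (2 * R)) ≤ s.re → s.re ≤ 2 →
      ‖LSeries (lc (fun n => frL χ y n * nt t n) (2 * k + 1)) s‖ ≤ C * (Real.log y) ^ (2 * k + 2) * (|s.im| + 2) ^ (1 / 2 : ℝ) := by
  obtain ⟨C1, hC1, h1⟩ := k_bound (2 * k + 1)
  obtain ⟨C2, hC2, h2⟩ := k_triv (2 * k + 1)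
  refine ⟨C1 + 2 * C2 + 1, by linarith, ?_⟩
  intro q χ y R t ε hq hy hR hε0 hε hSm ht s hs1 hs2
  have hR0 : (3 : ℝ) ≤ R := by exact_mod_cast hR
  have hlogR : 0 < Real.log (2 * R) := Real.log_pos (by linarith)
  set δ : ℝ := 1 / (2 * Real.log (2 * R)) with hδ
  have hδ0 : 0 < δ := by positivity
  have hσ : 1 < s.re := by linarith
  have hylog : 1 ≤ Real.log y := by
    rw [Real.le_log_iff_exp_le (by positivity)]
    have h3 : (3 : ℝ) ≤ y := by exact_mod_cast hy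
    have := Real.exp_one_lt_d9
    linarith
  have hypow : 1 ≤ (Real.log y) ^ (2 * k + 2) := one_le_pow₀ hylog
  have hu1 : 1 ≤ (|s.im| + 2) ^ (1 / 2 : ℝ) :=
    Real.one_le_rpow (by have := abs_nonneg s.im; linarith) (by norm_num)
  have hAB : 1 ≤ (Real.log y) ^ (2 * k + 2) * (|s.im| + 2) ^ (1 / 2 : ℝ) := by
    calc (1 : ℝ) = 1 * 1 := by norm_num
      _ ≤ _ := mul_le_mul hypow hu1 zero_le_one (by positivity)
  rcases le_or_gt |s.im| (|t| / 2) with hu | hu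
  · -- the main case
    have e1 : LSeries (lc (fun n => frL χ y n * nt t n) (2 * k + 1)) s =
        LSeries (lc (frL χ y) (2 * k + 1)) ((s.re : ℂ) - (t - s.im : ℝ) * Complex.I) := by
      unfold LSeries
      refine tsum_congr fun n => ?_
      rcases Nat.eq_zero_or_pos n with hn | hn
      · rw [hn, LSeries.term_zero, LSeries.term_zero]
      · rw [LSeries.term_of_ne_zero hn.ne', LSeries.term_of_ne_zero hn.ne']
        have e2 := rhyp_pow t s hn
        have hn1 : (n : ℂ) ^ s ≠ 0 := by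
          rw [Complex.cpow_def_of_ne_zero (by exact_mod_cast hn.ne')]
          exact Complex.exp_ne_zero _
        have hn2 : (n : ℂ) ^ ((s.re : ℂ) - (t - s.im : ℝ) * Complex.I) ≠ 0 := by
          rw [Complex.cpow_def_of_ne_zero (by exact_mod_cast hn.ne')]
          exact Complex.exp_ne_zero _
        rw [div_eq_div_iff hn1 hn2, ← e2]
        unfold lc
        ring
    have hb := abs_sub_abs_le_abs_sub t s.im
    have hb2 : |t - s.im| ≤ |t| + |s.im| := abs_sub t s.im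
    have ht0 := abs_nonneg t
    have k1 := h1 q χ y s.re (t - s.im) ε hq hy hσ hs2 hε0
      (hε.trans (pow_le_pow_left₀ hδ0.le (by linarith) _))
      (hSm (t - s.im) (by linarith) (by linarith)).1
      (hSm (2 * (t - s.im)) (by rw [abs_mul, abs_two]; linarith)
        (by rw [abs_mul, abs_two]; linarith)).2
    rw [e1]
    refine k1.trans ?_
    calc C1 * Real.log y ^ (2 * k + 1 + 1) ≤
        C1 * (Real.log y ^ (2 * k + 2) * (|s.im| + 2) ^ (1 / 2 : ℝ)) := by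
          refine mul_le_mul_of_nonneg_left ?_ hC1.le
          exact le_mul_of_one_le_right (by positivity) hu1
      _ ≤ (C1 + 2 * C2 + 1) * (Real.log y ^ (2 * k + 2) * (|s.im| + 2) ^ (1 / 2 : ℝ)) := by
          refine mul_le_mul_of_nonneg_right (by linarith) (by positivity)
      _ = _ := by ring
  · -- the trivial case
    have k2 := h2 (fun n => frL χ y n * nt t n) s (fun n _ => by
      rw [norm_mul, Pool.Agent.Lib.DN.norm_nt, mul_one]
      exact norm_frL_le χ y n) hσ hs2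
    refine k2.trans ?_
    have hd : δ ≤ s.re - 1 := by linarith
    have k3 : C2 / (s.re - 1) ^ (2 * k + 1 + 2) ≤ C2 * (2 * Real.log (2 * R)) ^ (2 * k + 3) := by
      have k4 : δ ^ (2 * k + 3) ≤ (s.re - 1) ^ (2 * k + 1 + 2) :=
        pow_le_pow_left₀ hδ0.le hd _
      have k5 : C2 / (s.re - 1) ^ (2 * k + 1 + 2) ≤ C2 / δ ^ (2 * k + 3) :=
        div_le_div_of_nonneg_left hC2.le (by positivity) k4
      refine k5.trans (le_of_eq ?_)
      rw [hδ, one_div, inv_pow, div_inv_eq_mul]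
    have k6 : (2 * Real.log (2 * R)) ^ (2 * k + 3) ≤ 2 * (|s.im| + 2) ^ (1 / 2 : ℝ) := by
      have hL0 : 0 ≤ 2 * Real.log (2 * R) := by positivity
      have k7 : ((2 * Real.log (2 * R)) ^ (2 * k + 3)) ^ 2 ≤
          (2 * (|s.im| + 2) ^ (1 / 2 : ℝ)) ^ 2 := by
        have k8 : (2 * (|s.im| + 2) ^ (1 / 2 : ℝ)) ^ 2 = 4 * (|s.im| + 2) := by
          rw [mul_pow, ← Real.sqrt_eq_rpow, Real.sq_sqrt (by positivity)]
          norm_num
        rw [k8, ← pow_mul, show (2 * k + 3) * 2 = 4 * k + 6 by ring]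
        refine ht.trans ?_
        have := abs_nonneg s.im
        linarith
      exact le_of_sq_le_sq_rhyp k7 (by positivity)
    calc C2 / (s.re - 1) ^ (2 * k + 1 + 2) ≤ C2 * (2 * (|s.im| + 2) ^ (1 / 2 : ℝ)) :=
          k3.trans (mul_le_mul_of_nonneg_left k6 hC2.le)
      _ = 2 * C2 * (1 * (|s.im| + 2) ^ (1 / 2 : ℝ)) := by ring
      _ ≤ 2 * C2 * (Real.log y ^ (2 * k + 2) * (|s.im| + 2) ^ (1 / 2 : ℝ)) := by
          refine mul_le_mul_of_nonneg_left ?_ (by positivity)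
          exact mul_le_mul_of_nonneg_right hypow (by positivity)
      _ ≤ (C1 + 2 * C2 + 1) * (Real.log y ^ (2 * k + 2) * (|s.im| + 2) ^ (1 / 2 : ℝ)) := by
          refine mul_le_mul_of_nonneg_right (by linarith) (by positivity)
      _ = _ := by ring

end Pool.Agent.Lib.VK
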