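import Pool.Agent.Lib.VK.RDer
import Pool.Agent.Lib.VK.RTriv
import Pool.Agent.Lib.VK.R341

/-!
# VK / RLow: the rough Dirichlet series is bounded below by a positive constant

PROOF. Let G(x) = ‖LSeries (fr χ y) (x - it)‖ for x in [σ, 2]. Constants: C1 of `k_deriv 1`, C0 of `k_deriv 0`, Ct of `k_one` (all wlog ≥ 1). For x in [σ,2]: ε ≤ (σ-1)^4 ≤ (x-1)^4 ≤ (x-1)^3, so
(a) the derivative of x ↦ LSeries (fr χ y)(x - it) is - LSeries (lc (fr χ y) 1)(x - it) (`LSeries_hasDerivAt`, logMul; lc f 1 = f · log), norm ≤ C1 log y, so by the mean value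
inequality |G(x) - G(x')| ≤ C1 log y |x - x'| on [σ, 2];
(b) `k_341` at x with `k_one` for the first factor (t = 0), `k_deriv 0` for χ^2, 2t (Sm hypothesis): 1 ≤ (Ct (1 + 1/((x-1) log y)))^3 G(x)^4 C0.
Let κ in (0,1]. If (x - 1) log y ≥ κ then 1 ≤ A κ^(-3) G^4 with A = 8 Ct^3 C0; choose κ = 1/(16 C1^4 A); c = C1 κ.
-/

set_option autoImplicit false

open Finset

namespace Pool.Agent.Lib.VK

open Pool.Agent.Lib.SW (lc)

private theorem rlow_abs {q : ℕ} (χ : DirichletCharacter ℂ q) (y : ℕ) {s : ℂ} (hs : 1 < s.re) :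
    LSeries.abscissaOfAbsConv (fr χ y) < s.re := by
  refine lt_of_le_of_lt (LSeries.abscissaOfAbsConv_le_of_le_const ⟨1, fun n _ => norm_fr_le χ y n⟩) ?_
  exact_mod_cast hs

private theorem rlow_logMul (f : ℕ → ℂ) : LSeries.logMul f = lc f 1 := by
  funext n
  unfold LSeries.logMul lc
  rw [pow_one, Complex.natCast_log, mul_comm]

private theorem rlow_lc0 (f : ℕ → ℂ) : lc f 0 = f := by
  funext n
  unfold lc
  simp

private theorem rlow_deriv {q : ℕ} (χ : DirichletCharacter ℂ q) (y : ℕ) (t x : ℝ) (hx : 1 < x) :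
    HasDerivAt (fun x : ℝ => LSeries (fr χ y) ((x : ℂ) - t * Complex.I))
      (-LSeries (lc (fr χ y) 1) ((x : ℂ) - t * Complex.I)) x := by
  have h0 : 1 < ((x : ℂ) - t * Complex.I).re := by simpa using hx
  have h1 := LSeries_hasDerivAt (rlow_abs χ y h0)
  rw [rlow_logMul] at h1
  have h2 : HasDerivAt (fun z : ℂ => LSeries (fr χ y) (z - t * Complex.I))
      (-LSeries (lc (fr χ y) 1) ((x : ℂ) - t * Complex.I)) (x : ℂ) :=
    HasDerivAt.comp_sub_const (x : ℂ) ((t : ℂ) * Complex.I) h1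
  exact h2.comp_ofReal

theorem k_low : ∃ c : ℝ, 0 < c ∧ ∀ (q : ℕ) (χ : DirichletCharacter ℂ q) (y : ℕ) (σ t ε : ℝ), 1 ≤ q → 3 ≤ y → 1 < σ → σ ≤ 2 → 0 ≤ ε →
    ε ≤ (σ - 1) ^ 4 → Sm χ y t ε → Sm (χ ^ 2) y (2 * t) ε →
      c ≤ ‖LSeries (fr χ y) ((σ : ℂ) - t * Complex.I)‖ := by
  obtain ⟨D1, hD1, h1⟩ := k_deriv 1
  obtain ⟨D0, hD0, h0⟩ := k_deriv 0
  obtain ⟨Dt, hDt, ht⟩ := k_one
  obtain ⟨C1, hC1, hDC1⟩ : ∃ C1 : ℝ, 1 ≤ C1 ∧ D1 ≤ C1 := ⟨max 1 D1, le_max_left _ _, le_max_right _ _⟩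
  obtain ⟨C0, hC0, hDC0⟩ : ∃ C0 : ℝ, 1 ≤ C0 ∧ D0 ≤ C0 := ⟨max 1 D0, le_max_left _ _, le_max_right _ _⟩
  obtain ⟨Ct, hCt, hDCt⟩ : ∃ Ct : ℝ, 1 ≤ Ct ∧ Dt ≤ Ct := ⟨max 1 Dt, le_max_left _ _, le_max_right _ _⟩
  have hC1p : 0 < C1 := by linarith
  have hC0p : 0 < C0 := by linarith
  have hCtp : 0 < Ct := by linarith
  set A : ℝ := 8 * Ct ^ 3 * C0 with hA
  have hA0 : 0 < A := by positivity
  have hA1 : 1 ≤ A := by
    have e1 : 1 ≤ Ct ^ 3 := one_le_pow₀ hCt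
    have e2 : 1 ≤ Ct ^ 3 * C0 := one_le_mul_of_one_le_of_one_le e1 hC0
    rw [hA]
    nlinarith
  set κ : ℝ := 1 / (16 * C1 ^ 4 * A) with hκ
  have hκ0 : 0 < κ := by positivity
  have hκ1 : κ ≤ 1 := by
    rw [hκ, div_le_one (by positivity)]
    have e1 : 1 ≤ C1 ^ 4 := one_le_pow₀ hC1
    have e2 : 1 ≤ C1 ^ 4 * A := one_le_mul_of_one_le_of_one_le e1 hA1
    nlinarith
  have hκA : (2 * C1 * κ) ^ 4 * A = κ ^ 3 := by
    have e : 16 * C1 ^ 4 * A * κ = 1 := by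
      rw [hκ]
      field_simp
    calc (2 * C1 * κ) ^ 4 * A = (16 * C1 ^ 4 * A * κ) * κ ^ 3 := by ring
      _ = κ ^ 3 := by rw [e, one_mul]
  refine ⟨C1 * κ, by positivity, fun q χ y σ t ε hq hy hσ hσ2 hε hεσ hs1 hs2 => ?_⟩
  have hy3 : (3 : ℝ) ≤ y := by exact_mod_cast hy
  have hlog : 1 ≤ Real.log y := by
    rw [Real.le_log_iff_exp_le (by linarith)]
    exact (Real.exp_one_lt_d9.le.trans (by norm_num)).trans hy3
  have hε4 : ∀ x : ℝ, σ ≤ x → ε ≤ (x - 1) ^ 4 := fun x hx =>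
    hεσ.trans (pow_le_pow_left₀ (by linarith) (by linarith) 4)
  have hε3 : ∀ x : ℝ, σ ≤ x → x ≤ 2 → ε ≤ (x - 1) ^ 3 := fun x hx hx2 =>
    (hε4 x hx).trans (pow_le_pow_of_le_one (by linarith) (by linarith) (by norm_num))
  -- (b)
  have hb : ∀ x : ℝ, σ ≤ x → x ≤ 2 → κ ≤ (x - 1) * Real.log y →
      2 * C1 * κ ≤ ‖LSeries (fr χ y) ((x : ℂ) - t * Complex.I)‖ := by
    intro x hx hx2 hxk
    have hx1 : 1 < x := by linarith
    have g1 := k_341 hq χ y x t hx1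
    have g2 := ht q (1 : DirichletCharacter ℂ q) y x 0 hy hx1 hx2
    have g3 := h0 q (χ ^ 2) y x (2 * t) ε hy hx1 hx2 hε (hε3 x hx hx2) hs2
    rw [rlow_lc0, pow_zero, mul_one] at g3
    set G : ℝ := ‖LSeries (fr χ y) ((x : ℂ) - t * Complex.I)‖ with hG
    have hG0 : 0 ≤ G := norm_nonneg _
    have g4 : ‖LSeries (fr (1 : DirichletCharacter ℂ q) y) ((x : ℂ) - (0 : ℝ) * Complex.I)‖ ≤
        2 * Ct / κ := by
      refine g2.trans ?_
      have e1 : 1 / ((x - 1) * Real.log y) ≤ 1 / κ := one_div_le_one_div_of_le hκ0 hxk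
      have e2 : 1 ≤ 1 / κ := by rw [le_div_iff₀ hκ0]; linarith
      have e3 : 1 + 1 / ((x - 1) * Real.log y) ≤ 2 / κ := by
        have : 2 / κ = 1 / κ + 1 / κ := by ring
        linarith
      have e4 : 0 ≤ 1 + 1 / ((x - 1) * Real.log y) := by
        have : 0 < (x - 1) * Real.log y := lt_of_lt_of_le hκ0 hxk
        positivity
      calc Dt * (1 + 1 / ((x - 1) * Real.log y)) ≤ Ct * (2 / κ) :=
            mul_le_mul hDCt e3 e4 hCtp.le
        _ = 2 * Ct / κ := by ring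
    have g5 : 1 ≤ (2 * Ct / κ) ^ 3 * G ^ 4 * C0 := by
      refine g1.trans ?_
      refine mul_le_mul (mul_le_mul_of_nonneg_right (pow_le_pow_left₀ (norm_nonneg _) g4 3)
        (by positivity)) (g3.trans hDC0) (norm_nonneg _) (by positivity)
    have g6 : κ ^ 3 ≤ A * G ^ 4 := by
      have e : (2 * Ct / κ) ^ 3 * G ^ 4 * C0 = A * G ^ 4 / κ ^ 3 := by
        rw [hA]
        field_simp
        ring
      rw [e, le_div_iff₀ (by positivity), one_mul] at g5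
      exact g5
    rw [← hκA, mul_comm A] at g6
    have g7 : (2 * C1 * κ) ^ 4 ≤ G ^ 4 := le_of_mul_le_mul_right g6 hA0
    exact le_of_pow_le_pow_left₀ (by norm_num) hG0 g7
  by_cases hcase : κ ≤ (σ - 1) * Real.log y
  · have := hb σ le_rfl hσ2 hcase
    nlinarith [mul_pos hC1p hκ0]
  · push Not at hcase
    have hl0 : 0 < Real.log y := by linarith
    set x' : ℝ := 1 + κ / Real.log y with hx'
    have e0 : κ / Real.log y ≤ 1 := by rw [div_le_one hl0]; linarith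
    have e1 : (x' - 1) * Real.log y = κ := by
      rw [hx']
      field_simp
      ring
    have e2 : σ ≤ x' := by
      have : σ - 1 ≤ κ / Real.log y := by rw [le_div_iff₀ hl0]; exact hcase.le
      rw [hx']
      linarith
    have e3 : x' ≤ 2 := by rw [hx']; linarith
    have g := hb x' e2 e3 e1.ge
    have hd : ∀ x ∈ Set.Icc σ 2, HasDerivWithinAt
        (fun x : ℝ => LSeries (fr χ y) ((x : ℂ) - t * Complex.I))
        (-LSeries (lc (fr χ y) 1) ((x : ℂ) - t * Complex.I)) (Set.Icc σ 2) x := fun x hx =>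
      (rlow_deriv χ y t x (lt_of_lt_of_le hσ hx.1)).hasDerivWithinAt
    have hbd : ∀ x ∈ Set.Icc σ 2, ‖-LSeries (lc (fr χ y) 1) ((x : ℂ) - t * Complex.I)‖ ≤
        C1 * Real.log y := by
      intro x hx
      rw [norm_neg]
      have g1 := h1 q χ y x t ε hy (lt_of_lt_of_le hσ hx.1) hx.2 hε (hε4 x hx.1) hs1
      rw [pow_one] at g1
      exact g1.trans (mul_le_mul_of_nonneg_right hDC1 hl0.le)
    have hmv := (convex_Icc σ 2).norm_image_sub_le_of_norm_hasDerivWithin_le hd hbd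
      (Set.mem_Icc.2 ⟨le_rfl, hσ2⟩) (Set.mem_Icc.2 ⟨e2, e3⟩)
    have hn : ‖x' - σ‖ ≤ κ / Real.log y := by
      rw [Real.norm_of_nonneg (by linarith), hx']
      linarith
    have hmv2 : ‖LSeries (fr χ y) ((x' : ℂ) - t * Complex.I)‖ -
        ‖LSeries (fr χ y) ((σ : ℂ) - t * Complex.I)‖ ≤ C1 * κ := by
      refine (norm_sub_norm_le _ _).trans (hmv.trans ?_)
      calc C1 * Real.log y * ‖x' - σ‖ ≤ C1 * Real.log y * (κ / Real.log y) :=
            mul_le_mul_of_nonneg_left hn (by positivity)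
        _ = C1 * κ := by field_simp
    linarith

end Pool.Agent.Lib.VK
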