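import Pool.Agent.Lib.VK.Defs
import Pool.Agent.Lib.MP_7b7e48_nt.TC.FLM
import Pool.Agent.Lib.Sieve.Smooth
import Pool.Agent.Lib.MP_7b7e48_nt.GT.FundLemma

/-!
# VK / RSum: sums of χ(n) n^(it) over y-rough integers, from smooth sums (fundamental lemma)

PROOF. If N' ≤ N the sum is empty. P = primes ≤ y, b = ⌊log N / (48 log y)⌋ ≥ 1, so y^(12 b) ≤ N^(1/4). `TC.flm 1` with this b and z = y:
weights up, lo on the subsets of P, supported on d with D = ∏_{r ∈ d} r ≤ y^(12b) ≤ N^(1/4), |up| ≤ 1, |lo| ≤ NJ y + 1. For n ≥ 1 and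
B(n) = {r ∈ P : r ∣ n}: n is rough iff B(n) = ∅; lo-sum ≤ 1_rough(n) ≤ up-sum, where up-sum(n) = ∑_{d ⊆ B(n)} up d = ∑_{d ⊆ P, ∏ d ∣ n} up d. So
|∑ 1_rough(n) χ(n) n^(it) - ∑ upsum(n) χ(n) n^(it)| ≤ ∑_{N<n≤N'} (upsum - losum)(n) = ∑_d (up d - lo d) (⌊N'/D⌋ - ⌊N/D⌋)
≤ (N'-N) ∑_d (up d - lo d)/D + ∑_d (|up d| + |lo d|) ≤ N · 2 K (1/2)^b ∏_{p≤y}(1-1/p) + 2 N^(1/4) (NJ y + 2) (both g-sums are ∏(1-1/r) + O(K 2^(-b) ∏), g r = 1/r).
-/

set_option autoImplicit false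

open Finset

namespace Pool.Agent.Lib.VK

open Pool.Agent.Lib.DN (nt norm_nt nt_mul)

/-- sum of the weights over the subsets of the primes of `P` dividing `n` -/
noncomputable def rsW (P : Finset ℕ) (w : Finset ℕ → ℝ) (n : ℕ) : ℝ := ∑ d ∈ (P.filter (fun r => r ∣ n)).powerset, w d

theorem rsW_eq {P : Finset ℕ} (hP : ∀ r ∈ P, r.Prime) (w : Finset ℕ → ℝ) (n : ℕ) :
    rsW P w n = ∑ d ∈ P.powerset, if (∏ r ∈ d, r) ∣ n then w d else 0 := by
  unfold rsW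
  rw [← sum_filter]
  refine sum_congr ?_ fun _ _ => rfl
  ext d
  rw [mem_powerset, mem_filter, mem_powerset]
  constructor
  · intro h
    have h1 : d ⊆ P := h.trans (filter_subset _ _)
    refine ⟨h1, ?_⟩
    exact Finset.prod_primes_dvd n (fun r hr => (hP r (h1 hr)).prime) (fun r hr => (mem_filter.1 (h hr)).2)
  · rintro ⟨h1, h2⟩ r hr
    exact mem_filter.2 ⟨h1 hr, (Finset.dvd_prod_of_mem _ hr).trans h2⟩

theorem rs_inj {P : Finset ℕ} (hP : ∀ r ∈ P, r.Prime) : Set.InjOn (fun d : Finset ℕ => ∏ r ∈ d, r) (P.powerset : Set (Finset ℕ)) := by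
  intro d hd d' hd' h
  rw [mem_coe, mem_powerset] at hd hd'
  have h1 := Nat.primeFactors_prod (fun r hr => hP r (hd hr))
  have h2 := Nat.primeFactors_prod (fun r hr => hP r (hd' hr))
  simp only at h
  rw [← h1, ← h2, h]

/-- a sum over the support of the weights against a function of the product -/
theorem rs_supp {P : Finset ℕ} (hP : ∀ r ∈ P, r.Prime) (w : Finset ℕ → ℝ) (Z : ℕ) (W : ℝ) (hW0 : 0 ≤ W) (hW : ∀ d ∈ P.powerset, |w d| ≤ W)
    (hZ : ∀ d ∈ P.powerset, w d ≠ 0 → ∏ r ∈ d, r ≤ Z) (f : ℕ → ℝ) (hf : ∀ n, 0 ≤ f n) :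
    ∑ d ∈ P.powerset, |w d| * f (∏ r ∈ d, r) ≤ W * ∑ D ∈ Icc 1 Z, f D := by
  classical
  have h1 : ∑ d ∈ P.powerset, |w d| * f (∏ r ∈ d, r) = ∑ d ∈ P.powerset.filter (fun d => w d ≠ 0), |w d| * f (∏ r ∈ d, r) := by
    rw [sum_filter]
    refine sum_congr rfl fun d _ => ?_
    by_cases h : w d = 0
    · rw [if_neg (not_not.2 h), h, abs_zero, zero_mul]
    · rw [if_pos h]
  rw [h1]
  calc ∑ d ∈ P.powerset.filter (fun d => w d ≠ 0), |w d| * f (∏ r ∈ d, r) ≤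
      ∑ d ∈ P.powerset.filter (fun d => w d ≠ 0), W * f (∏ r ∈ d, r) := by
        refine sum_le_sum fun d hd => mul_le_mul_of_nonneg_right (hW d (mem_filter.1 hd).1) (hf _)
    _ = W * ∑ D ∈ (P.powerset.filter (fun d => w d ≠ 0)).image (fun d => ∏ r ∈ d, r), f D := by
        rw [← mul_sum, sum_image]
        exact (rs_inj hP).mono (by
          intro d hd
          rw [mem_coe] at hd ⊢
          exact (mem_filter.1 hd).1)
    _ ≤ W * ∑ D ∈ Icc 1 Z, f D := by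
        refine mul_le_mul_of_nonneg_left ?_ hW0
        refine sum_le_sum_of_subset_of_nonneg ?_ fun _ _ _ => hf _
        intro D hD
        obtain ⟨d, hd, rfl⟩ := mem_image.1 hD
        rw [mem_filter] at hd
        rw [mem_Icc]
        refine ⟨?_, hZ d hd.1 hd.2⟩
        exact Finset.prod_pos fun r hr => (hP r (mem_powerset.1 hd.1 hr)).pos

theorem rs_cnt (N N' D : ℕ) (hD : 1 ≤ D) (h : N ≤ N') :
    |(((Ioc N N').filter (fun n => D ∣ n)).card : ℝ) - ((N' : ℝ) - N) * (1 / D)| ≤ 1 := by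
  have h1 : ((Ioc N N').filter (fun n => D ∣ n)).card = N' / D - N / D := by
    have e1 := Nat.Ioc_filter_dvd_card_eq_div N' D
    have e2 := Nat.Ioc_filter_dvd_card_eq_div N D
    have e3 : Ioc 0 N' = Ioc 0 N ∪ Ioc N N' := (Ioc_union_Ioc_eq_Ioc (Nat.zero_le _) h).symm
    have e4 : Disjoint ((Ioc 0 N).filter (fun n => D ∣ n)) ((Ioc N N').filter (fun n => D ∣ n)) := by
      rw [disjoint_left]
      intro n h1 h2
      rw [mem_filter, mem_Ioc] at h1 h2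
      omega
    rw [e3, filter_union, card_union_of_disjoint e4, e2] at e1
    omega
  have h2 : N / D ≤ N' / D := Nat.div_le_div_right h
  rw [h1, Nat.cast_sub h2]
  have hD0 : (0 : ℝ) < D := by exact_mod_cast hD
  have f1 : ((N / D : ℕ) : ℝ) ≤ (N : ℝ) / D := Nat.cast_div_le
  have f2 : ((N' / D : ℕ) : ℝ) ≤ (N' : ℝ) / D := Nat.cast_div_le
  have f3 : (N : ℝ) / D < ((N / D : ℕ) : ℝ) + 1 := by
    have := Nat.lt_floor_add_one ((N : ℝ) / D)
    rwa [Nat.floor_div_eq_div] at this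
  have f4 : (N' : ℝ) / D < ((N' / D : ℕ) : ℝ) + 1 := by
    have := Nat.lt_floor_add_one ((N' : ℝ) / D)
    rwa [Nat.floor_div_eq_div] at this
  have e : ((N' : ℝ) - N) * (1 / D) = (N' : ℝ) / D - (N : ℝ) / D := by ring
  rw [e, abs_le]
  constructor <;> linarith

/-- the sum of the sieve weights over an interval -/
theorem rs_main {P : Finset ℕ} (hP : ∀ r ∈ P, r.Prime) (w : Finset ℕ → ℝ) (Z : ℕ) (W : ℝ) (hW0 : 0 ≤ W) (hW : ∀ d ∈ P.powerset, |w d| ≤ W)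
    (hZ : ∀ d ∈ P.powerset, w d ≠ 0 → ∏ r ∈ d, r ≤ Z) (N N' : ℕ) (h : N ≤ N') :
    |∑ n ∈ Ioc N N', rsW P w n - ((N' : ℝ) - N) * ∑ d ∈ P.powerset, w d * ∏ r ∈ d, (1 : ℝ) / r| ≤ W * Z := by
  classical
  have e1 : ∑ n ∈ Ioc N N', rsW P w n = ∑ d ∈ P.powerset, w d * (((Ioc N N').filter (fun n => (∏ r ∈ d, r) ∣ n)).card : ℝ) := by
    rw [sum_congr rfl (fun n _ => rsW_eq hP w n), sum_comm]
    refine sum_congr rfl fun d _ => ?_
    rw [← sum_filter, sum_const, nsmul_eq_mul, mul_comm]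
  have e2 : ∑ n ∈ Ioc N N', rsW P w n - ((N' : ℝ) - N) * ∑ d ∈ P.powerset, w d * ∏ r ∈ d, (1 : ℝ) / r =
      ∑ d ∈ P.powerset, w d * ((((Ioc N N').filter (fun n => (∏ r ∈ d, r) ∣ n)).card : ℝ) - ((N' : ℝ) - N) * (1 / ((∏ r ∈ d, r : ℕ) : ℝ))) := by
    rw [e1, mul_sum, ← sum_sub_distrib]
    refine sum_congr rfl fun d _ => ?_
    have : ∏ r ∈ d, (1 : ℝ) / r = 1 / ((∏ r ∈ d, r : ℕ) : ℝ) := by
      rw [prod_div_distrib, prod_const_one, Nat.cast_prod]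
    rw [this]
    ring
  rw [e2]
  refine (abs_sum_le_sum_abs _ _).trans ?_
  have e3 : ∀ d ∈ P.powerset, |w d * ((((Ioc N N').filter (fun n => (∏ r ∈ d, r) ∣ n)).card : ℝ) - ((N' : ℝ) - N) * (1 / ((∏ r ∈ d, r : ℕ) : ℝ)))| ≤
      |w d| * (fun _ : ℕ => (1 : ℝ)) (∏ r ∈ d, r) := by
    intro d hd
    rw [abs_mul]
    refine mul_le_mul_of_nonneg_left (rs_cnt N N' _ ?_ h) (abs_nonneg _)
    exact Finset.prod_pos fun r hr => (hP r (mem_powerset.1 hd hr)).pos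
  refine (sum_le_sum e3).trans ((rs_supp hP w Z W hW0 hW hZ _ (fun _ => zero_le_one)).trans (le_of_eq ?_))
  simp

theorem rs_dvd_sum {q : ℕ} (χ : DirichletCharacter ℂ q) (t : ℝ) (N N' D : ℕ) (hD : 1 ≤ D) :
    ∑ n ∈ (Ioc N N').filter (fun n => D ∣ n), χ (n : ZMod q) * nt t n =
      χ (D : ZMod q) * nt t D * ∑ m ∈ Ioc (N / D) (N' / D), χ (m : ZMod q) * nt t m := by
  rw [mul_sum]
  symm
  refine sum_bij (fun m _ => D * m) ?_ ?_ ?_ ?_
  · intro m hm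
    rw [mem_Ioc] at hm
    rw [mem_filter, mem_Ioc]
    refine ⟨⟨?_, ?_⟩, dvd_mul_right D m⟩
    · rw [mul_comm]
      exact (Nat.div_lt_iff_lt_mul hD).1 hm.1
    · rw [mul_comm]
      exact (Nat.le_div_iff_mul_le hD).1 hm.2
  · intro m _ m' _ h
    exact Nat.eq_of_mul_eq_mul_left hD h
  · intro n hn
    rw [mem_filter, mem_Ioc] at hn
    obtain ⟨⟨h1, h2⟩, m, rfl⟩ := hn
    refine ⟨m, ?_, rfl⟩
    rw [mem_Ioc]
    constructor
    · rw [Nat.div_lt_iff_lt_mul hD, mul_comm]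
      exact h1
    · rw [Nat.le_div_iff_mul_le hD, mul_comm]
      exact h2
  · intro m hm
    rw [mem_Ioc] at hm
    have hm0 : m ≠ 0 := (lt_of_le_of_lt (Nat.zero_le _) hm.1).ne'
    rw [Nat.cast_mul, map_mul, nt_mul t (by omega) hm0]
    ring

theorem rs_one {q : ℕ} (χ : DirichletCharacter ℂ q) {y : ℕ} {t ε : ℝ} (hε : 0 ≤ ε) (hS : Sm χ y t ε) (N N' D : ℕ) (hD : 1 ≤ D) (hN' : N' ≤ 2 * N)
    (hy : y ≤ N / D) :
    ‖∑ n ∈ (Ioc N N').filter (fun n => D ∣ n), χ (n : ZMod q) * nt t n‖ ≤ ε * N * (1 / D) + 1 := by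
  rw [rs_dvd_sum χ t N N' D hD, norm_mul]
  have hD0 : (0 : ℝ) < D := by exact_mod_cast hD
  have h1 : ‖χ (D : ZMod q) * nt t D‖ ≤ 1 := by
    rw [norm_mul, norm_nt, mul_one]
    exact DirichletCharacter.norm_le_one χ _
  have hF : ∀ m : ℕ, ‖χ (m : ZMod q) * nt t m‖ ≤ 1 := fun m => by
    rw [norm_mul, norm_nt, mul_one]
    exact DirichletCharacter.norm_le_one χ _
  have h2 : N' / D ≤ 2 * (N / D) + 1 := by
    have h3 : N < D * (N / D + 1) := Nat.lt_mul_div_succ N hD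
    have h4 : N' / D < 2 * (N / D) + 2 := by
      rw [Nat.div_lt_iff_lt_mul hD]
      have : (2 * (N / D) + 2) * D = 2 * (D * (N / D + 1)) := by ring
      omega
    omega
  have h3 : ε * ((N / D : ℕ) : ℝ) ≤ ε * N * (1 / D) := by
    have : ((N / D : ℕ) : ℝ) ≤ (N : ℝ) / D := Nat.cast_div_le
    calc ε * ((N / D : ℕ) : ℝ) ≤ ε * ((N : ℝ) / D) := mul_le_mul_of_nonneg_left this hε
      _ = ε * N * (1 / D) := by ring
  have h4 : ‖∑ m ∈ Ioc (N / D) (N' / D), χ (m : ZMod q) * nt t m‖ ≤ ε * N * (1 / D) + 1 := by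
    rcases Nat.lt_or_ge (2 * (N / D)) (N' / D) with h5 | h5
    · have h6 : N' / D = 2 * (N / D) + 1 := by omega
      rw [h6, sum_Ioc_succ_top (by omega)]
      refine (norm_add_le _ _).trans ?_
      have h7 := hS (N / D) (2 * (N / D)) hy le_rfl
      have h8 := hF (2 * (N / D) + 1)
      linarith
    · have h7 := hS (N / D) (N' / D) hy h5
      linarith
  calc _ ≤ 1 * ‖∑ m ∈ Ioc (N / D) (N' / D), χ (m : ZMod q) * nt t m‖ := mul_le_mul_of_nonneg_right h1 (norm_nonneg _)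
    _ = ‖∑ m ∈ Ioc (N / D) (N' / D), χ (m : ZMod q) * nt t m‖ := one_mul _
    _ ≤ _ := h4

theorem rs_harm (Z : ℕ) (hZ : 1 ≤ Z) : ∑ D ∈ Icc 1 Z, (1 : ℝ) / D ≤ 1 + Real.log Z := by
  have h := harmonic_le_one_add_log Z
  rw [harmonic_eq_sum_Icc] at h
  push_cast at h
  simpa [one_div] using h

/-- the twisted sum of the sieve weights -/
theorem rs_tw {q : ℕ} (χ : DirichletCharacter ℂ q) {y : ℕ} {t ε : ℝ} (hε : 0 ≤ ε) (hS : Sm χ y t ε) {P : Finset ℕ} (hP : ∀ r ∈ P, r.Prime)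
    (w : Finset ℕ → ℝ) (Z : ℕ) (hZ1 : 1 ≤ Z) (W : ℝ) (hW0 : 0 ≤ W) (hW : ∀ d ∈ P.powerset, |w d| ≤ W)
    (hZ : ∀ d ∈ P.powerset, w d ≠ 0 → ∏ r ∈ d, r ≤ Z) (N N' : ℕ) (hN' : N' ≤ 2 * N) (hy : y * Z ≤ N) :
    ‖∑ n ∈ Ioc N N', ((rsW P w n : ℝ) : ℂ) * (χ (n : ZMod q) * nt t n)‖ ≤ W * (ε * N * (1 + Real.log Z) + Z) := by
  classical
  have e1 : ∑ n ∈ Ioc N N', ((rsW P w n : ℝ) : ℂ) * (χ (n : ZMod q) * nt t n) =
      ∑ d ∈ P.powerset, ((w d : ℝ) : ℂ) * ∑ n ∈ (Ioc N N').filter (fun n => (∏ r ∈ d, r) ∣ n), χ (n : ZMod q) * nt t n := by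
    have e2 : ∀ n ∈ Ioc N N', ((rsW P w n : ℝ) : ℂ) * (χ (n : ZMod q) * nt t n) =
        ∑ d ∈ P.powerset, if (∏ r ∈ d, r) ∣ n then ((w d : ℝ) : ℂ) * (χ (n : ZMod q) * nt t n) else 0 := by
      intro n _
      rw [rsW_eq hP w n]
      push_cast
      rw [sum_mul]
      refine sum_congr rfl fun d _ => ?_
      split_ifs
      · rfl
      · simp
    rw [sum_congr rfl e2, sum_comm]
    refine sum_congr rfl fun d _ => ?_
    rw [← sum_filter, mul_sum]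
  rw [e1]
  refine (norm_sum_le _ _).trans ?_
  have e3 : ∀ d ∈ P.powerset, ‖((w d : ℝ) : ℂ) * ∑ n ∈ (Ioc N N').filter (fun n => (∏ r ∈ d, r) ∣ n), χ (n : ZMod q) * nt t n‖ ≤
      |w d| * (fun D : ℕ => ε * N * (1 / (D : ℝ)) + 1) (∏ r ∈ d, r) := by
    intro d hd
    rw [norm_mul, Complex.norm_real, Real.norm_eq_abs]
    by_cases h0 : w d = 0
    · rw [h0, abs_zero, zero_mul, zero_mul]
    refine mul_le_mul_of_nonneg_left ?_ (abs_nonneg _)
    have hD : 1 ≤ ∏ r ∈ d, r := Finset.prod_pos fun r hr => (hP r (mem_powerset.1 hd hr)).pos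
    refine rs_one χ hε hS N N' _ hD hN' ?_
    rw [Nat.le_div_iff_mul_le hD]
    exact (Nat.mul_le_mul_left _ (hZ d hd h0)).trans hy
  refine (sum_le_sum e3).trans ?_
  refine (rs_supp hP w Z W hW0 hW hZ (fun D : ℕ => ε * N * (1 / (D : ℝ)) + 1) (fun n => by positivity)).trans ?_
  refine mul_le_mul_of_nonneg_left ?_ hW0
  rw [sum_add_distrib, ← mul_sum]
  have h1 := rs_harm Z hZ1
  have h2 : 0 ≤ ε * N := by positivity
  have h3 := mul_le_mul_of_nonneg_left h1 h2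
  have h4 : ∑ D ∈ Icc 1 Z, (1 : ℝ) = Z := by simp
  rw [h4]
  linarith

theorem rough_sum : ∃ C c : ℝ, 0 < C ∧ 0 < c ∧ ∀ (q : ℕ) (χ : DirichletCharacter ℂ q) (y N N' : ℕ) (t ε : ℝ), 2 ≤ y → y ^ 48 ≤ N →
    N' ≤ 2 * N → 0 ≤ ε → Sm χ y t ε →
      ‖∑ n ∈ Ioc N N', fr χ y n * nt t n‖ ≤
        C * N * (Real.exp (-c * (Real.log N / Real.log y)) / Real.log y + ε * Real.log N) := by
  classical
  obtain ⟨K, hK1, hflm⟩ := TC.flm 1 zero_le_one
  refine ⟨4 * K + 3, Real.log 2 / 48, by linarith, by positivity, ?_⟩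
  intro q χ y N N' t ε hy hN hN' hε hS
  have hlog2 : 0 < Real.log 2 := Real.log_pos (by norm_num)
  have hy2 : (2 : ℝ) ≤ y := by exact_mod_cast hy
  have hy0 : (0 : ℝ) < y := by linarith
  set ly : ℝ := Real.log y with hly
  have hly2 : Real.log 2 ≤ ly := Real.log_le_log (by norm_num) hy2
  have hly0 : 0 < ly := by linarith
  have hN1 : 1 ≤ N := le_trans (Nat.one_le_pow _ _ (by omega)) hN
  have hNr : (1 : ℝ) ≤ N := by exact_mod_cast hN1
  have hN0 : (0 : ℝ) < N := by linarith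
  set lN : ℝ := Real.log N with hlN
  have h48 : 48 * ly ≤ lN := by
    have h1 : ((y : ℝ)) ^ 48 ≤ N := by exact_mod_cast hN
    have h2 := Real.log_le_log (by positivity) h1
    rw [Real.log_pow] at h2
    exact_mod_cast h2
  have hl2 := Real.log_two_gt_d9
  have hlN33 : 33 ≤ lN := by linarith
  have hlN0 : 0 < lN := by linarith
  have hRHS : 0 ≤ (4 * K + 3) * (N : ℝ) * (Real.exp (-(Real.log 2 / 48) * (lN / ly)) / ly + ε * lN) := by positivity
  rcases Nat.lt_or_ge N N' with hNN | hNN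
  swap
  · rw [Ioc_eq_empty (by omega), sum_empty, norm_zero]
    exact hRHS
  -- the level
  set b : ℕ := ⌊lN / (48 * ly)⌋₊ with hb
  have hb1 : 1 ≤ b := by
    rw [hb, Nat.one_le_floor_iff, le_div_iff₀ (by positivity), one_mul]
    exact h48
  have hb2 : (b : ℝ) ≤ lN / (48 * ly) := Nat.floor_le (by positivity)
  have hb3 : lN / (48 * ly) < b + 1 := Nat.lt_floor_add_one _
  set Z : ℕ := y ^ (12 * b) with hZ
  have hZ1 : 1 ≤ Z := Nat.one_le_pow _ _ (by omega)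
  have hZr : (1 : ℝ) ≤ Z := by exact_mod_cast hZ1
  have hlZ : Real.log Z ≤ lN / 4 := by
    rw [hZ]
    push_cast
    rw [Real.log_pow]
    push_cast
    calc 12 * (b : ℝ) * ly ≤ 12 * (lN / (48 * ly)) * ly := by gcongr
      _ = lN / 4 := by
          field_simp
          ring
  have hZ4 : Z ^ 4 ≤ N := by
    have h1 : ((Z : ℝ)) ^ 4 ≤ N := by
      rw [← Real.log_le_log_iff (by positivity) hN0, Real.log_pow]
      push_cast
      linarith
    exact_mod_cast h1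
  have hyZ : y ^ 2 ≤ Z := Nat.pow_le_pow_right (by omega) (by omega)
  have hyZ1 : y ≤ Z := le_trans (by nlinarith) hyZ
  have hyZN : y * Z ≤ N := by
    calc y * Z ≤ Z * Z := Nat.mul_le_mul_right _ hyZ1
      _ = Z ^ 2 := by ring
      _ ≤ Z ^ 4 := Nat.pow_le_pow_right hZ1 (by norm_num)
      _ ≤ N := hZ4
  -- the primes
  set P : Finset ℕ := (Icc 1 y).filter Nat.Prime with hPdef
  have hP : ∀ r ∈ P, r.Prime ∧ r ≤ y := by
    intro r hr
    rw [hPdef, mem_filter, mem_Icc] at hr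
    exact ⟨hr.2, hr.1.2⟩
  have hP' : ∀ r ∈ P, r.Prime := fun r hr => (hP r hr).1
  obtain ⟨up, lo, h1, h2, h3, h4⟩ := hflm b hb1 y hy P hP
  have hg := h4 (fun r => 1 / r) (fun r hr => by
    have hr2 : (2 : ℝ) ≤ r := by exact_mod_cast (hP' r hr).two_le
    refine ⟨by positivity, le_rfl, ?_⟩
    rw [div_le_div_iff₀ (by linarith) (by norm_num)]
    linarith)
  set V : ℝ := ∏ r ∈ P, (1 - 1 / (r : ℝ)) with hV
  have hV0 : 0 < V := by
    refine prod_pos fun r hr => ?_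
    have hr2 : (2 : ℝ) ≤ r := by exact_mod_cast (hP' r hr).two_le
    rw [sub_pos, div_lt_one (by linarith)]
    linarith
  have hV1 : V ≤ 1 / ly := by
    have h5 := Sieve.log_le_prod y
    rw [prod_inv_distrib] at h5
    have h6 : ly ≤ Real.log ((y : ℝ) + 1) := Real.log_le_log hy0 (by linarith)
    have h7 : ly ≤ V⁻¹ := h6.trans h5
    rw [le_div_iff₀ hly0]
    calc V * ly ≤ V * V⁻¹ := mul_le_mul_of_nonneg_left h7 hV0.le
      _ = 1 := mul_inv_cancel₀ hV0.ne'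
  have hsup : ∀ d ∈ P.powerset, up d ≠ 0 → ∏ r ∈ d, r ≤ Z := by
    intro d hd h0
    have := h2 d (mem_powerset.1 hd) (Or.inl h0)
    have e : (y : ℝ) ^ (12 * b) = ((Z : ℕ) : ℝ) := by
      rw [hZ]
      push_cast
      rfl
    rw [e] at this
    exact_mod_cast this
  have hslo : ∀ d ∈ P.powerset, lo d ≠ 0 → ∏ r ∈ d, r ≤ Z := by
    intro d hd h0
    have := h2 d (mem_powerset.1 hd) (Or.inr h0)
    have e : (y : ℝ) ^ (12 * b) = ((Z : ℕ) : ℝ) := by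
      rw [hZ]
      push_cast
      rfl
    rw [e] at this
    exact_mod_cast this
  have hNJ : ((GT.NJ y : ℝ) + 1) ≤ (y : ℝ) ^ 2 := GT.NJ_le y hy
  -- indicator
  have hind : ∀ n : ℕ, 1 ≤ n → rsW P lo n ≤ (if Rough y n then (1 : ℝ) else 0) ∧ (if Rough y n then (1 : ℝ) else 0) ≤ rsW P up n := by
    intro n hn
    have h5 := h3 (P.filter (fun r => r ∣ n)) (filter_subset _ _)
    have h6 : P.filter (fun r => r ∣ n) = ∅ ↔ Rough y n := by
      rw [filter_eq_empty_iff]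
      constructor
      · intro h
        refine ⟨by omega, fun p hp hd => ?_⟩
        by_contra hlt
        exact h (by rw [hPdef, mem_filter, mem_Icc]; exact ⟨⟨hp.one_lt.le, by omega⟩, hp⟩) hd
      · rintro ⟨_, h⟩ r hr hd
        have := h r (hP' r hr) hd
        have := (hP r hr).2
        omega
    simp only [h6] at h5
    exact h5
  set F : ℕ → ℂ := fun n => χ (n : ZMod q) * nt t n with hF
  have hF1 : ∀ n, ‖F n‖ ≤ 1 := fun n => by
    rw [hF]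
    simp only
    rw [norm_mul, norm_nt, mul_one]
    exact DirichletCharacter.norm_le_one χ _
  have e1 : ∑ n ∈ Ioc N N', fr χ y n * nt t n = ∑ n ∈ Ioc N N', ((rsW P up n : ℝ) : ℂ) * F n -
      ∑ n ∈ Ioc N N', (((rsW P up n - (if Rough y n then (1 : ℝ) else 0) : ℝ)) : ℂ) * F n := by
    rw [← sum_sub_distrib]
    refine sum_congr rfl fun n _ => ?_
    unfold fr
    rw [hF]
    simp only
    split_ifs
    · push_cast
      ring
    · push_cast
      ring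
  have e2 : ‖∑ n ∈ Ioc N N', (((rsW P up n - (if Rough y n then (1 : ℝ) else 0) : ℝ)) : ℂ) * F n‖ ≤
      ∑ n ∈ Ioc N N', rsW P up n - ∑ n ∈ Ioc N N', rsW P lo n := by
    rw [← sum_sub_distrib]
    refine (norm_sum_le _ _).trans (sum_le_sum fun n hn => ?_)
    rw [mem_Ioc] at hn
    have h5 := hind n (by omega)
    rw [norm_mul, Complex.norm_real, Real.norm_eq_abs, abs_of_nonneg (by linarith)]
    calc _ ≤ (rsW P up n - (if Rough y n then (1 : ℝ) else 0)) * 1 := mul_le_mul_of_nonneg_left (hF1 n) (by linarith)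
      _ ≤ _ := by linarith
  have e3 := rs_tw χ hε hS hP' up Z hZ1 1 zero_le_one (fun d _ => (h1 d).1) hsup N N' hN' hyZN
  have e4 := rs_main hP' up Z 1 zero_le_one (fun d _ => (h1 d).1) hsup N N' hNN.le
  have e5 := rs_main hP' lo Z ((y : ℝ) ^ 2) (by positivity) (fun d _ => ((h1 d).2).trans hNJ) hslo N N' hNN.le
  rw [e1]
  refine (norm_sub_le _ _).trans ?_
  rw [abs_le] at e4 e5
  obtain ⟨hg1, hg2⟩ := hg
  rw [abs_le] at hg1 hg2
  set Su : ℝ := ∑ d ∈ P.powerset, up d * ∏ r ∈ d, (1 : ℝ) / r with hSu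
  set Sl : ℝ := ∑ d ∈ P.powerset, lo d * ∏ r ∈ d, (1 : ℝ) / r with hSl
  have hM0 : (0 : ℝ) ≤ (N' : ℝ) - N := by
    have : (N : ℝ) ≤ N' := by exact_mod_cast hNN.le
    linarith
  have hM1 : (N' : ℝ) - N ≤ N := by
    have : (N' : ℝ) ≤ 2 * N := by exact_mod_cast hN'
    linarith
  have e6 : Su - Sl ≤ 2 * (K * (1 / 2) ^ b * V) := by linarith [hg1.2, hg2.1]
  have hKV : 0 ≤ K * (1 / 2 : ℝ) ^ b * V := by positivity
  have e7 : ((N' : ℝ) - N) * (Su - Sl) ≤ N * (2 * (K * (1 / 2) ^ b * V)) := by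
    calc ((N' : ℝ) - N) * (Su - Sl) ≤ ((N' : ℝ) - N) * (2 * (K * (1 / 2) ^ b * V)) := mul_le_mul_of_nonneg_left e6 hM0
      _ ≤ N * (2 * (K * (1 / 2) ^ b * V)) := mul_le_mul_of_nonneg_right hM1 (by linarith)
  have e8 : ∑ n ∈ Ioc N N', rsW P up n - ∑ n ∈ Ioc N N', rsW P lo n ≤ N * (2 * (K * (1 / 2) ^ b * V)) + Z + (y : ℝ) ^ 2 * Z := by
    have e9 : ((N' : ℝ) - N) * (Su - Sl) = ((N' : ℝ) - N) * Su - ((N' : ℝ) - N) * Sl := by ring
    linarith [e4.2, e5.1]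
  -- numerics
  have hhalf : (1 / 2 : ℝ) ^ b ≤ 2 * Real.exp (-(Real.log 2 / 48) * (lN / ly)) := by
    have e9 : (1 / 2 : ℝ) ^ b = Real.exp (-(b * Real.log 2)) := by
      rw [Real.exp_neg, mul_comm, Real.exp_mul, Real.exp_log (by norm_num), Real.rpow_natCast, one_div, inv_pow]
    have e10 : (2 : ℝ) * Real.exp (-(Real.log 2 / 48) * (lN / ly)) = Real.exp (Real.log 2 + -(Real.log 2 / 48) * (lN / ly)) := by
      rw [Real.exp_add, Real.exp_log (by norm_num)]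
    rw [e9, e10, Real.exp_le_exp]
    have e11 : lN / (48 * ly) = 1 / 48 * (lN / ly) := by
      field_simp
    rw [e11] at hb3
    nlinarith
  have hexp : Real.exp (-(lN / 48)) ≤ Real.exp (-(Real.log 2 / 48) * (lN / ly)) := by
    rw [Real.exp_le_exp]
    have e9 : lN / ly ≤ lN / Real.log 2 := div_le_div_of_nonneg_left hlN0.le hlog2 hly2
    have e10 : Real.log 2 / 48 * (lN / Real.log 2) = lN / 48 := by
      field_simp
    have e11 : Real.log 2 / 48 * (lN / ly) ≤ Real.log 2 / 48 * (lN / Real.log 2) := mul_le_mul_of_nonneg_left e9 (by positivity)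
    linarith
  have hZ2 : (Z : ℝ) ^ 2 ≤ Real.exp (lN / 2) := by
    rw [← Real.log_le_iff_le_exp (by positivity), Real.log_pow]
    push_cast
    linarith
  have hsq : Real.exp (lN / 2) ≤ N * (Real.exp (-(lN / 48)) / ly) := by
    have e9 : (N : ℝ) = Real.exp lN := (Real.exp_log hN0).symm
    rw [e9, ← mul_div_assoc, ← Real.exp_add, le_div_iff₀ hly0]
    have e10 : lN + -(lN / 48) = lN / 2 + 23 / 48 * lN := by ring
    rw [e10, Real.exp_add]
    refine mul_le_mul_of_nonneg_left ?_ (Real.exp_pos _).le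
    have e11 := Real.add_one_le_exp (23 / 48 * lN)
    linarith
  have hsmall : (Z : ℝ) + (Z + (y : ℝ) ^ 2 * Z) ≤ 3 * (N * (Real.exp (-(Real.log 2 / 48) * (lN / ly)) / ly)) := by
    have e9 : (y : ℝ) ^ 2 ≤ Z := by exact_mod_cast hyZ
    have e10 : (Z : ℝ) ≤ (Z : ℝ) ^ 2 := by nlinarith
    have e11 : (y : ℝ) ^ 2 * Z ≤ (Z : ℝ) ^ 2 := by nlinarith
    have e12 : N * (Real.exp (-(lN / 48)) / ly) ≤ N * (Real.exp (-(Real.log 2 / 48) * (lN / ly)) / ly) := by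
      refine mul_le_mul_of_nonneg_left ?_ hN0.le
      exact div_le_div_of_nonneg_right hexp hly0.le
    linarith
  have hmain : N * (2 * (K * (1 / 2) ^ b * V)) ≤ 4 * K * (N * (Real.exp (-(Real.log 2 / 48) * (lN / ly)) / ly)) := by
    have e9 : (1 / 2 : ℝ) ^ b * V ≤ (2 * Real.exp (-(Real.log 2 / 48) * (lN / ly))) * (1 / ly) :=
      mul_le_mul hhalf hV1 hV0.le (by positivity)
    have e10 : 0 ≤ 2 * (N : ℝ) * K := by positivity
    calc N * (2 * (K * (1 / 2) ^ b * V)) = 2 * (N : ℝ) * K * ((1 / 2 : ℝ) ^ b * V) := by ring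
      _ ≤ 2 * (N : ℝ) * K * ((2 * Real.exp (-(Real.log 2 / 48) * (lN / ly))) * (1 / ly)) := mul_le_mul_of_nonneg_left e9 e10
      _ = _ := by ring
  have heps : ε * N * (1 + Real.log Z) ≤ (4 * K + 3) * (N * (ε * lN)) := by
    have e9 : 1 + Real.log Z ≤ lN := by linarith
    have e10 : 0 ≤ ε * N := by positivity
    have e11 : 0 ≤ N * (ε * lN) := by positivity
    calc ε * N * (1 + Real.log Z) ≤ ε * N * lN := mul_le_mul_of_nonneg_left e9 e10
      _ = 1 * (N * (ε * lN)) := by ring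
      _ ≤ (4 * K + 3) * (N * (ε * lN)) := mul_le_mul_of_nonneg_right (by linarith) e11
  calc _ ≤ 1 * (ε * N * (1 + Real.log Z) + Z) + (N * (2 * (K * (1 / 2) ^ b * V)) + Z + (y : ℝ) ^ 2 * Z) :=
        add_le_add e3 (e2.trans e8)
    _ ≤ (4 * K + 3) * (N * (ε * lN)) + 3 * (N * (Real.exp (-(Real.log 2 / 48) * (lN / ly)) / ly)) +
        4 * K * (N * (Real.exp (-(Real.log 2 / 48) * (lN / ly)) / ly)) := by linarith
    _ = _ := by ring

end Pool.Agent.Lib.VK
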