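import Pool.Agent.Lib.VK.RSum
import Pool.Agent.Lib.VK.RAbel

/-!
# VK / RTail: the part n > y^48 of the k-th derivative of the Dirichlet series of the rough numbers

PROOF. N_i = y^48 2^i, i < I (the statement is for finite sums up to y^48 2^I, uniformly in I). On the block (N_i, 2N_i] apply `abel_block` with
b n = fr χ y n · nt t n and B = C N_i (exp(-c log N_i/log y)/log y + ε log N_i) (`rough_sum`; its bound is for all N' ≤ 2N): block ≤ C_k (log 2N_i)^k N_i^(1-σ) (...).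
(i) First part: N_i^(1-σ) ≤ 1; u_i = log N_i/log y = 48 + i log 2/log y; (log 2N_i)^k ≤ (log y)^k (u_i + 1)^k (log 2 ≤ log y), so it is
≤ C (log y)^(k-1) ∑_i (u_i+1)^k exp(-c u_i) ≤ C_k (log y)^(k-1) ∑_i exp(-c u_i/2) ≤ C_k (log y)^(k-1) / (1 - exp(-c log 2/(2 log y))) ≤ C_k' (log y)^k
(1 - e^(-v) ≥ v/2 for 0 ≤ v ≤ 1; wlog c ≤ 1). For k = 0 read (log y)^(k-1) as 1/log y.
(ii) Second part: ε ∑_i (log 2N_i)^(k+1) N_i^(1-σ): (log 2N)^(k+1) ≤ (2 log N)^(k+1) ≤ C_k (σ-1)^(-(k+1)) N^((σ-1)/2), so it is ≤ C_k ε (σ-1)^(-(k+1)) ∑_i N_i^(-(σ-1)/2)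
≤ C_k ε (σ-1)^(-(k+1)) / (1 - 2^(-(σ-1)/2)) ≤ C_k' ε (σ-1)^(-(k+2)) ≤ C_k' (as ε ≤ (σ-1)^(k+3)) ≤ C_k' (log y)^k.
-/

set_option autoImplicit false

open Finset

namespace Pool.Agent.Lib.VK

open Pool.Agent.Lib.DN (nt)

theorem RTail_geo (v : ℝ) (hv : 0 < v) (I : ℕ) :
    ∑ i ∈ range I, Real.exp (-v * i) ≤ 1 + 1 / v := by
  have h1 : ∀ i : ℕ, Real.exp (-v * i) = Real.exp (-v) ^ i := by
    intro i; rw [← Real.exp_nat_mul]; congr 1; ring
  simp_rw [h1]
  set r := Real.exp (-v) with hr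
  have hr0 : 0 < r := Real.exp_pos _
  have hr1 : r * (1 + v) ≤ 1 := by
    have h2 : r * Real.exp v = 1 := by rw [hr, ← Real.exp_add]; simp
    have h3 := Real.add_one_le_exp v
    nlinarith
  have h4 : (∑ i ∈ range I, r ^ i) * (1 - r) = 1 - r ^ I := by
    have := geom_sum_mul_neg r I
    simpa using this
  have h5 : 0 < 1 - r := by nlinarith
  have h6 : 0 ≤ r ^ I := by positivity
  have h7 : ∑ i ∈ range I, r ^ i ≤ 1 / (1 - r) := by
    rw [le_div_iff₀ h5]; linarith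
  refine h7.trans ?_
  rw [div_le_iff₀ h5]
  have h8 : (1 + 1 / v) * (1 - r) = (1 + v) * (1 - r) / v := by field_simp; ring
  rw [h8, le_div_iff₀ hv]
  nlinarith

theorem RTail_pow (n : ℕ) (x a : ℝ) (hx : 0 ≤ x) (ha : 0 < a) :
    x ^ n ≤ (n.factorial : ℝ) * (1 / a) ^ n * Real.exp (a * x) := by
  have h1 := Real.pow_div_factorial_le_exp (a * x) (by positivity) n
  have h2 : (0 : ℝ) < n.factorial := by exact_mod_cast n.factorial_pos
  rw [div_le_iff₀ h2] at h1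
  have h3 : x ^ n = (1 / a) ^ n * (a * x) ^ n := by
    rw [← mul_pow]; congr 1; field_simp
  rw [h3]
  calc (1 / a) ^ n * (a * x) ^ n ≤ (1 / a) ^ n * (Real.exp (a * x) * n.factorial) :=
        mul_le_mul_of_nonneg_left h1 (by positivity)
    _ = _ := by ring

theorem RTail_one (k : ℕ) (C0 c : ℝ) (hC0 : 0 < C0) (hc : 0 < c) (L ℓ ℓ2 δ ε : ℝ) (i : ℕ)
    (hL : 1 ≤ L) (hℓ : 48 * L + i * Real.log 2 = ℓ) (hℓ2 : ℓ2 = ℓ + Real.log 2)
    (hδ : 0 < δ) (hε : 0 ≤ ε) :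
    (k + 3) * ℓ2 ^ k * Real.exp (-δ * ℓ) * (C0 * (Real.exp (-c * (ℓ / L)) / L + ε * ℓ)) ≤
      (k + 3) * C0 * ((k.factorial : ℝ) * (1 / (c / 2)) ^ k * Real.exp (c / 2)) * (L ^ k / L) *
        Real.exp (-(c / 2 * (Real.log 2 / L)) * i) +
      (k + 3) * C0 * (2 ^ (k + 1) * (((k + 1).factorial : ℝ) * (1 / (δ / 2)) ^ (k + 1))) * ε *
        Real.exp (-(δ / 2 * Real.log 2) * i) := by
  have hl2 : 0 < Real.log 2 := Real.log_pos (by norm_num)
  have hl21 : Real.log 2 ≤ 1 := by have := Real.log_two_lt_d9; linarith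
  have hi : (0 : ℝ) ≤ i := by positivity
  have hil : 0 ≤ (i : ℝ) * Real.log 2 := by positivity
  have hℓpos : 48 ≤ ℓ := by linarith
  have hL0 : 0 < L := by linarith
  set u := ℓ / L with hu
  have hu0 : 0 ≤ u := by positivity
  have huL : u * L = ℓ := by rw [hu]; field_simp
  have hui : Real.log 2 / L * i ≤ u := by
    rw [hu, div_mul_eq_mul_div]
    apply div_le_div_of_nonneg_right _ hL0.le
    linarith
  have h1 : ℓ2 ≤ L * (u + 1) := by
    rw [hℓ2, mul_add, mul_comm L u, huL]; linarith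
  have hℓ20 : 0 ≤ ℓ2 := by linarith
  have h2 : ℓ2 ≤ 2 * ℓ := by linarith
  -- first part
  have p1 : ℓ2 ^ k * Real.exp (-δ * ℓ) * (Real.exp (-c * u) / L) ≤
      ((k.factorial : ℝ) * (1 / (c / 2)) ^ k * Real.exp (c / 2)) * (L ^ k / L) *
        Real.exp (-(c / 2 * (Real.log 2 / L)) * i) := by
    have a1 : ℓ2 ^ k ≤ L ^ k * (u + 1) ^ k := by
      rw [← mul_pow]; exact pow_le_pow_left₀ hℓ20 h1 k
    have a2 : (u + 1) ^ k ≤ (k.factorial : ℝ) * (1 / (c / 2)) ^ k * Real.exp (c / 2 * (u + 1)) :=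
      RTail_pow k (u + 1) (c / 2) (by linarith) (by linarith)
    have a3 : Real.exp (-δ * ℓ) ≤ 1 := by
      rw [Real.exp_le_one_iff]; nlinarith
    have a4 : Real.exp (-c * u) * Real.exp (c / 2 * (u + 1)) ≤
        Real.exp (c / 2) * Real.exp (-(c / 2 * (Real.log 2 / L)) * i) := by
      rw [← Real.exp_add, ← Real.exp_add]
      apply Real.exp_le_exp.2
      nlinarith
    calc ℓ2 ^ k * Real.exp (-δ * ℓ) * (Real.exp (-c * u) / L)
        ≤ ℓ2 ^ k * 1 * (Real.exp (-c * u) / L) := by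
          apply mul_le_mul_of_nonneg_right _ (by positivity)
          exact mul_le_mul_of_nonneg_left a3 (by positivity)
      _ ≤ (L ^ k * ((k.factorial : ℝ) * (1 / (c / 2)) ^ k * Real.exp (c / 2 * (u + 1)))) * 1 *
            (Real.exp (-c * u) / L) := by
          apply mul_le_mul_of_nonneg_right _ (by positivity)
          apply mul_le_mul_of_nonneg_right _ (by norm_num)
          exact a1.trans (mul_le_mul_of_nonneg_left a2 (by positivity))
      _ = ((k.factorial : ℝ) * (1 / (c / 2)) ^ k) * (L ^ k / L) *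
            (Real.exp (-c * u) * Real.exp (c / 2 * (u + 1))) := by ring
      _ ≤ ((k.factorial : ℝ) * (1 / (c / 2)) ^ k) * (L ^ k / L) *
            (Real.exp (c / 2) * Real.exp (-(c / 2 * (Real.log 2 / L)) * i)) :=
          mul_le_mul_of_nonneg_left a4 (by positivity)
      _ = _ := by ring
  -- second part
  have p2 : ℓ2 ^ k * Real.exp (-δ * ℓ) * ℓ ≤
      (2 ^ (k + 1) * (((k + 1).factorial : ℝ) * (1 / (δ / 2)) ^ (k + 1))) *
        Real.exp (-(δ / 2 * Real.log 2) * i) := by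
    have b1 : ℓ2 ^ k * ℓ ≤ 2 ^ (k + 1) * ℓ ^ (k + 1) := by
      calc ℓ2 ^ k * ℓ ≤ (2 * ℓ) ^ k * (2 * ℓ) := by
            apply mul_le_mul (pow_le_pow_left₀ hℓ20 h2 k) (by linarith) (by linarith) (by positivity)
        _ = _ := by rw [← pow_succ, mul_pow]
    have b2 := RTail_pow (k + 1) ℓ (δ / 2) (by linarith) (by linarith)
    have b3 : Real.exp (-δ * ℓ) * Real.exp (δ / 2 * ℓ) ≤ Real.exp (-(δ / 2 * Real.log 2) * i) := by
      rw [← Real.exp_add]
      apply Real.exp_le_exp.2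
      nlinarith
    calc ℓ2 ^ k * Real.exp (-δ * ℓ) * ℓ = (ℓ2 ^ k * ℓ) * Real.exp (-δ * ℓ) := by ring
      _ ≤ (2 ^ (k + 1) * (((k + 1).factorial : ℝ) * (1 / (δ / 2)) ^ (k + 1) *
            Real.exp (δ / 2 * ℓ))) * Real.exp (-δ * ℓ) := by
          apply mul_le_mul_of_nonneg_right _ (by positivity)
          exact b1.trans (mul_le_mul_of_nonneg_left b2 (by positivity))
      _ = (2 ^ (k + 1) * (((k + 1).factorial : ℝ) * (1 / (δ / 2)) ^ (k + 1))) *
            (Real.exp (-δ * ℓ) * Real.exp (δ / 2 * ℓ)) := by ring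
      _ ≤ _ := mul_le_mul_of_nonneg_left b3 (by positivity)
  have hk : (0 : ℝ) ≤ (k + 3) * C0 := by positivity
  have q1 := mul_le_mul_of_nonneg_left p1 hk
  have q2 := mul_le_mul_of_nonneg_left p2 (mul_nonneg hk hε)
  calc (k + 3) * ℓ2 ^ k * Real.exp (-δ * ℓ) * (C0 * (Real.exp (-c * u) / L + ε * ℓ))
      = (k + 3) * C0 * (ℓ2 ^ k * Real.exp (-δ * ℓ) * (Real.exp (-c * u) / L)) +
        (k + 3) * C0 * ε * (ℓ2 ^ k * Real.exp (-δ * ℓ) * ℓ) := by ring
    _ ≤ _ := add_le_add q1 q2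
    _ = _ := by ring

theorem k_tail (k : ℕ) : ∃ C : ℝ, 0 < C ∧ ∀ (q : ℕ) (χ : DirichletCharacter ℂ q) (y I : ℕ) (σ t ε : ℝ), 3 ≤ y → 1 < σ → σ ≤ 2 → 0 ≤ ε →
    ε ≤ (σ - 1) ^ (k + 3) → Sm χ y t ε →
      ‖∑ n ∈ Ioc (y ^ 48) (y ^ 48 * 2 ^ I), fr χ y n * nt t n * (((Real.log n) ^ k * (n : ℝ) ^ (-σ) : ℝ) : ℂ)‖ ≤ C * (Real.log y) ^ k := by
  obtain ⟨C0, c, hC0, hc, hrs⟩ := rough_sum
  have hl2 : 0 < Real.log 2 := Real.log_pos (by norm_num)
  have hl2' : 1 / 2 ≤ Real.log 2 := by have := Real.log_two_gt_d9; linarith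
  set A1 : ℝ := (k + 3) * C0 * ((k.factorial : ℝ) * (1 / (c / 2)) ^ k * Real.exp (c / 2)) with hA1
  set A2 : ℝ := (k + 3) * C0 * (2 ^ (k + 1) * (((k + 1).factorial : ℝ) * 2 ^ (k + 1))) with hA2
  have hA1p : 0 < A1 := by positivity
  have hA2p : 0 < A2 := by positivity
  refine ⟨A1 * (1 + 1 / (c / 2 * Real.log 2)) + A2 * 5, by positivity, ?_⟩
  intro q χ y I σ t ε hy hσ hσ2 hε hεσ hSm
  set L := Real.log y with hLdef
  set δ := σ - 1 with hδdef
  have hδ : 0 < δ := by linarith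
  have hδ1 : δ ≤ 1 := by linarith
  have hy3 : (3 : ℝ) ≤ y := by exact_mod_cast hy
  have hL : 1 ≤ L := by
    rw [hLdef, Real.le_log_iff_exp_le (by linarith)]
    have := Real.exp_one_lt_d9
    linarith
  have hL0 : 0 < L := by linarith
  -- one block
  have hblk : ∀ i : ℕ, ‖∑ n ∈ Ioc (y ^ 48 * 2 ^ i) (y ^ 48 * 2 ^ (i + 1)),
      fr χ y n * nt t n * (((Real.log n) ^ k * (n : ℝ) ^ (-σ) : ℝ) : ℂ)‖ ≤
      A1 * (L ^ k / L) * Real.exp (-(c / 2 * (Real.log 2 / L)) * i) +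
      A2 * (ε / δ ^ (k + 1)) * Real.exp (-(δ / 2 * Real.log 2) * i) := by
    intro i
    set N := y ^ 48 * 2 ^ i with hN
    have hNy : y ^ 48 ≤ N := Nat.le_mul_of_pos_right _ (by positivity)
    have hyy : y ≤ y ^ 48 := Nat.le_self_pow (by norm_num) y
    have hN3 : 3 ≤ N := hy.trans (hyy.trans hNy)
    have hN0 : (0 : ℝ) < N := by
      have : (3 : ℝ) ≤ N := by exact_mod_cast hN3
      linarith
    have hNN : y ^ 48 * 2 ^ (i + 1) = 2 * N := by rw [hN, pow_succ]; ring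
    rw [hNN]
    have hb := abel_block k (fun n => fr χ y n * nt t n) N (2 * N) σ
      (C0 * N * (Real.exp (-c * (Real.log N / Real.log y)) / Real.log y + ε * Real.log N))
      hN3 le_rfl hσ.le hσ2 (fun n hn1 hn2 => hrs q χ y N n t ε (by omega) hNy hn2 hε hSm)
    refine hb.trans ?_
    set ℓ := Real.log N with hℓ
    have hℓ' : 48 * L + i * Real.log 2 = ℓ := by
      rw [hℓ, hN]
      push_cast
      rw [Real.log_mul (by positivity) (by positivity), Real.log_pow, Real.log_pow]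
      push_cast
      ring
    have hlog2N : Real.log (2 * (N : ℝ)) = ℓ + Real.log 2 := by
      rw [Real.log_mul (by norm_num) hN0.ne', add_comm]
    have hNσ : (N : ℝ) ^ (-σ) * N = Real.exp (-δ * ℓ) := by
      rw [Real.rpow_def_of_pos hN0]
      nth_rw 2 [← Real.exp_log hN0]
      rw [← Real.exp_add]
      congr 1
      rw [← hℓ, hδdef]; ring
    have h1 := RTail_one k C0 c hC0 hc L ℓ (Real.log (2 * (N : ℝ))) δ ε i hL hℓ' hlog2N hδ hε
    have h2 : (1 / (δ / 2)) ^ (k + 1) = 2 ^ (k + 1) * (1 / δ ^ (k + 1)) := by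
      rw [div_pow, one_pow, div_pow]; field_simp
    rw [h2] at h1
    calc (k + 3) * Real.log (2 * (N : ℝ)) ^ k * (N : ℝ) ^ (-σ) *
          (C0 * N * (Real.exp (-c * (ℓ / L)) / L + ε * ℓ))
        = (k + 3) * Real.log (2 * (N : ℝ)) ^ k * ((N : ℝ) ^ (-σ) * N) *
          (C0 * (Real.exp (-c * (ℓ / L)) / L + ε * ℓ)) := by ring
      _ = (k + 3) * Real.log (2 * (N : ℝ)) ^ k * Real.exp (-δ * ℓ) *
          (C0 * (Real.exp (-c * (ℓ / L)) / L + ε * ℓ)) := by rw [hNσ]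
      _ ≤ _ := h1
      _ = _ := by rw [hA1, hA2]; ring
  -- all blocks
  have hall : ‖∑ n ∈ Ioc (y ^ 48) (y ^ 48 * 2 ^ I),
      fr χ y n * nt t n * (((Real.log n) ^ k * (n : ℝ) ^ (-σ) : ℝ) : ℂ)‖ ≤
      ∑ i ∈ range I, (A1 * (L ^ k / L) * Real.exp (-(c / 2 * (Real.log 2 / L)) * i) +
      A2 * (ε / δ ^ (k + 1)) * Real.exp (-(δ / 2 * Real.log 2) * i)) := by
    induction I with
    | zero => simp
    | succ I ih =>
      rw [Finset.sum_range_succ]
      have h1 : Ioc (y ^ 48) (y ^ 48 * 2 ^ (I + 1)) =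
          Ioc (y ^ 48) (y ^ 48 * 2 ^ I) ∪ Ioc (y ^ 48 * 2 ^ I) (y ^ 48 * 2 ^ (I + 1)) := by
        rw [Finset.Ioc_union_Ioc_eq_Ioc]
        · exact Nat.le_mul_of_pos_right _ (by positivity)
        · exact Nat.mul_le_mul_left _ (Nat.pow_le_pow_right (by norm_num) (by omega))
      rw [h1, Finset.sum_union (Finset.disjoint_left.2 fun n h2 h3 => by
        have := (Finset.mem_Ioc.1 h2).2
        have := (Finset.mem_Ioc.1 h3).1
        omega)]
      exact (norm_add_le _ _).trans (add_le_add ih (hblk I))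
  refine hall.trans ?_
  rw [Finset.sum_add_distrib, ← Finset.mul_sum, ← Finset.mul_sum, add_mul]
  apply add_le_add
  · have h1 := RTail_geo (c / 2 * (Real.log 2 / L)) (by positivity) I
    have h2 : (L ^ k / L) * (1 + 1 / (c / 2 * (Real.log 2 / L))) ≤
        (1 + 1 / (c / 2 * Real.log 2)) * L ^ k := by
      have h3 : 1 / (c / 2 * (Real.log 2 / L)) = L * (1 / (c / 2 * Real.log 2)) := by
        field_simp
      have h4 : (L ^ k / L) * (1 + L * (1 / (c / 2 * Real.log 2))) =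
          L ^ k * (1 / L + 1 / (c / 2 * Real.log 2)) := by
        field_simp
      rw [h3, h4, mul_comm]
      apply mul_le_mul_of_nonneg_right _ (by positivity)
      have : 1 / L ≤ 1 := by rw [div_le_one hL0]; exact hL
      linarith
    calc A1 * (L ^ k / L) * ∑ i ∈ range I, Real.exp (-(c / 2 * (Real.log 2 / L)) * i)
        ≤ A1 * (L ^ k / L) * (1 + 1 / (c / 2 * (Real.log 2 / L))) :=
          mul_le_mul_of_nonneg_left h1 (by positivity)
      _ = A1 * ((L ^ k / L) * (1 + 1 / (c / 2 * (Real.log 2 / L)))) := by ring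
      _ ≤ A1 * ((1 + 1 / (c / 2 * Real.log 2)) * L ^ k) :=
          mul_le_mul_of_nonneg_left h2 hA1p.le
      _ = _ := by ring
  · have h1 := RTail_geo (δ / 2 * Real.log 2) (by positivity) I
    have h2 : 1 + 1 / (δ / 2 * Real.log 2) ≤ 5 / δ := by
      have h3 : 1 / (δ / 2 * Real.log 2) ≤ 4 / δ := by
        rw [div_le_div_iff₀ (by positivity) hδ]
        nlinarith
      have h4 : 1 ≤ 1 / δ := by rw [le_div_iff₀ hδ]; linarith
      calc 1 + 1 / (δ / 2 * Real.log 2) ≤ 1 / δ + 4 / δ := add_le_add h4 h3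
        _ = 5 / δ := by ring
    have h5 : ε / δ ^ (k + 1) * (5 / δ) ≤ 5 := by
      have h6 : ε / δ ^ (k + 1) * (5 / δ) = 5 * (ε / δ ^ (k + 2)) := by
        rw [pow_succ δ (k + 1)]; field_simp
      rw [h6]
      have h7 : ε / δ ^ (k + 2) ≤ 1 := by
        rw [div_le_one (by positivity)]
        calc ε ≤ δ ^ (k + 3) := hεσ
          _ ≤ δ ^ (k + 2) := pow_le_pow_of_le_one hδ.le hδ1 (by omega)
      linarith
    have h8 : 1 ≤ L ^ k := one_le_pow₀ hL
    calc A2 * (ε / δ ^ (k + 1)) * ∑ i ∈ range I, Real.exp (-(δ / 2 * Real.log 2) * i)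
        ≤ A2 * (ε / δ ^ (k + 1)) * (5 / δ) :=
          mul_le_mul_of_nonneg_left (h1.trans h2) (by positivity)
      _ = A2 * (ε / δ ^ (k + 1) * (5 / δ)) := by ring
      _ ≤ A2 * 5 := mul_le_mul_of_nonneg_left h5 hA2p.le
      _ ≤ A2 * 5 * L ^ k := le_mul_of_one_le_right (by positivity) h8

end Pool.Agent.Lib.VK
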