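import Pool.Agent.Lib.VK.H3
import Pool.Agent.Lib.VK.Pr

/-!
# Row Re (about 150 lines; may be divided): well-conditioned solutions are at least half of all

n = k + s, A = [1,P], Jn = J (k+s) k P = mom A (pw k) n. Split the solutions z = (x, y) in A^n x A^n:
(R2) those with x_i = x_j or y_i = y_j for some i < j < k (first k coordinates: Fin.castAdd s i): by h3 with m = 4 k^2 each
pair (i, j) and each side gives at most Jn/(4k^2) + (4k^2)^(n-1) sqrt(Jn) (for the y side exchange x and y), there are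
k(k-1)/2 pairs and two sides, so R2 <= k^2 (...) <= Jn/4 + k^2 (4k^2)^(n-1) sqrt(Jn), and k^2 (4k^2)^(n-1) sqrt(Jn) <= Jn/4
because Jn >= P^n (diagonal solutions x = y) >= (16 k^4)^n, so sqrt(Jn) >= (4k^2)^n = 4 k^2 (4k^2)^(n-1). So R2 <= Jn/2.
(R1) those with x o Fin.castAdd s and y o Fin.castAdd s injective: by sep some p in S has both in Dp k p P; the map
z -> ((x o castAdd, y o castAdd), (x o natAdd, y o natAdd)) is injective into the set counted by
cnt (Dp k p P) (sp k) A (pw k) s (`Fin.sum_univ_add`), so R1 <= sum_(p in S) cnt ... Hence Jn <= R1 + Jn/2.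
-/

set_option autoImplicit false

open Finset

namespace Pool.Agent.Lib.VK

theorem diag (s k P : ℕ) : P ^ s ≤ J s k P := by
  classical
  unfold J mom
  have h : ((Fintype.piFinset fun _ : Fin s => Icc (1 : ℤ) P).image (fun x => (x, x))).card = P ^ s := by
    rw [Finset.card_image_of_injective _ (fun a b h => (Prod.mk.inj h).1), Fintype.card_piFinset]
    simp
  rw [← h]
  apply Finset.card_le_card
  intro z hz
  rw [Finset.mem_image] at hz
  obtain ⟨x, hx, rfl⟩ := hz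
  rw [Finset.mem_filter, Finset.mem_product]
  exact ⟨⟨hx, hx⟩, rfl⟩

theorem re_pairs (k : ℕ) : 2 * ((univ : Finset (Fin k × Fin k)).filter (fun z => z.1 < z.2)).card ≤ k ^ 2 := by
  classical
  have h1 : ((univ : Finset (Fin k × Fin k)).filter (fun z => z.1 < z.2)).card ≤
      ((univ : Finset (Fin k × Fin k)).filter (fun z => z.2 < z.1)).card := by
    apply Finset.card_le_card_of_injOn Prod.swap
    · intro z hz
      simp only [Finset.coe_filter, Finset.mem_univ, true_and, Set.mem_setOf_eq] at hz ⊢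
      exact hz
    · exact Prod.swap_injective.injOn
  have h2 : Disjoint ((univ : Finset (Fin k × Fin k)).filter (fun z => z.1 < z.2))
      ((univ : Finset (Fin k × Fin k)).filter (fun z => z.2 < z.1)) := by
    rw [Finset.disjoint_left]
    intro z hz hz'
    rw [Finset.mem_filter] at hz hz'
    exact lt_asymm hz.2 hz'.2
  have h3 := Finset.card_le_univ (((univ : Finset (Fin k × Fin k)).filter (fun z => z.1 < z.2)) ∪
      ((univ : Finset (Fin k × Fin k)).filter (fun z => z.2 < z.1)))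
  rw [Finset.card_union_of_disjoint h2, Fintype.card_prod, Fintype.card_fin] at h3
  nlinarith

theorem re_co (k s P : ℕ) (hk : 2 ≤ k) (i j : Fin (k + s)) (hij : i ≠ j) :
    ((((Fintype.piFinset fun _ : Fin (k + s) => Icc (1 : ℤ) P) ×ˢ
      (Fintype.piFinset fun _ : Fin (k + s) => Icc (1 : ℤ) P)).filter
      (fun z => ∑ l, pw k (z.1 l) = ∑ l, pw k (z.2 l) ∧ (z.1 i = z.1 j ∨ z.2 i = z.2 j))).card : ℝ) ≤
      2 * ((J (k + s) k P : ℝ) / (4 * k ^ 2 : ℕ) + ((4 * k ^ 2 : ℕ) : ℝ) ^ (k + s - 1) * Real.sqrt (J (k + s) k P)) := by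
  classical
  have hm : 1 ≤ 4 * k ^ 2 := by nlinarith
  have h := h3 k (Icc (1 : ℤ) P) (pw k) (k + s) i j hij (4 * k ^ 2) hm
  set B := (mom (Icc (1 : ℤ) P) (pw k) (k + s) : ℝ) / (4 * k ^ 2 : ℕ) +
    ((4 * k ^ 2 : ℕ) : ℝ) ^ (k + s - 1) * Real.sqrt (mom (Icc (1 : ℤ) P) (pw k) (k + s)) with hB
  set X1 := (((Fintype.piFinset fun _ : Fin (k + s) => Icc (1 : ℤ) P) ×ˢ
      (Fintype.piFinset fun _ : Fin (k + s) => Icc (1 : ℤ) P)).filter
      (fun z => ∑ l, pw k (z.1 l) = ∑ l, pw k (z.2 l) ∧ z.1 i = z.1 j)) with hX1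
  set X2 := (((Fintype.piFinset fun _ : Fin (k + s) => Icc (1 : ℤ) P) ×ˢ
      (Fintype.piFinset fun _ : Fin (k + s) => Icc (1 : ℤ) P)).filter
      (fun z => ∑ l, pw k (z.1 l) = ∑ l, pw k (z.2 l) ∧ z.2 i = z.2 j)) with hX2
  have h21 : X2.card ≤ X1.card := by
    apply Finset.card_le_card_of_injOn Prod.swap
    · intro z hz
      simp only [hX1, hX2, Finset.coe_filter, Finset.mem_product, Set.mem_setOf_eq, Prod.fst_swap, Prod.snd_swap] at hz ⊢
      exact ⟨⟨hz.1.2, hz.1.1⟩, hz.2.1.symm, hz.2.2⟩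
    · exact Prod.swap_injective.injOn
  have hsub : (((Fintype.piFinset fun _ : Fin (k + s) => Icc (1 : ℤ) P) ×ˢ
      (Fintype.piFinset fun _ : Fin (k + s) => Icc (1 : ℤ) P)).filter
      (fun z => ∑ l, pw k (z.1 l) = ∑ l, pw k (z.2 l) ∧ (z.1 i = z.1 j ∨ z.2 i = z.2 j))) ⊆ X1 ∪ X2 := by
    intro z hz
    rw [Finset.mem_filter] at hz
    rw [Finset.mem_union, hX1, hX2, Finset.mem_filter, Finset.mem_filter]
    rcases hz.2.2 with h' | h'
    · exact Or.inl ⟨hz.1, hz.2.1, h'⟩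
    · exact Or.inr ⟨hz.1, hz.2.1, h'⟩
  have h4 : (((Fintype.piFinset fun _ : Fin (k + s) => Icc (1 : ℤ) P) ×ˢ
      (Fintype.piFinset fun _ : Fin (k + s) => Icc (1 : ℤ) P)).filter
      (fun z => ∑ l, pw k (z.1 l) = ∑ l, pw k (z.2 l) ∧ (z.1 i = z.1 j ∨ z.2 i = z.2 j))).card ≤ X1.card + X1.card := by
    refine (Finset.card_le_card hsub).trans ((Finset.card_union_le _ _).trans ?_)
    omega
  have h5 : ((((Fintype.piFinset fun _ : Fin (k + s) => Icc (1 : ℤ) P) ×ˢ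
      (Fintype.piFinset fun _ : Fin (k + s) => Icc (1 : ℤ) P)).filter
      (fun z => ∑ l, pw k (z.1 l) = ∑ l, pw k (z.2 l) ∧ (z.1 i = z.1 j ∨ z.2 i = z.2 j))).card : ℝ) ≤
      (X1.card : ℝ) + X1.card := by exact_mod_cast h4
  have h6 : (X1.card : ℝ) ≤ B := h
  have h7 : (J (k + s) k P : ℝ) / (4 * k ^ 2 : ℕ) + ((4 * k ^ 2 : ℕ) : ℝ) ^ (k + s - 1) * Real.sqrt (J (k + s) k P) = B := rfl
  rw [h7]
  linarith

theorem re_r1 (k s P : ℕ) (S : Finset ℕ) (hS : ∀ p ∈ S, p.Prime)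
    (hprod : P ^ (k * (k - 1)) < ∏ p ∈ S, p) :
    (((Fintype.piFinset fun _ : Fin (k + s) => Icc (1 : ℤ) P) ×ˢ
      (Fintype.piFinset fun _ : Fin (k + s) => Icc (1 : ℤ) P)).filter
      (fun z => ∑ l, pw k (z.1 l) = ∑ l, pw k (z.2 l) ∧
        (Function.Injective (fun i : Fin k => z.1 (Fin.castAdd s i)) ∧
          Function.Injective (fun i : Fin k => z.2 (Fin.castAdd s i))))).card ≤
      ∑ p ∈ S, cnt (Dp k p P) (sp k) (Icc (1 : ℤ) P) (pw k) s := by
  classical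
  set R := (((Fintype.piFinset fun _ : Fin (k + s) => Icc (1 : ℤ) P) ×ˢ
      (Fintype.piFinset fun _ : Fin (k + s) => Icc (1 : ℤ) P)).filter
      (fun z => ∑ l, pw k (z.1 l) = ∑ l, pw k (z.2 l) ∧
        (Function.Injective (fun i : Fin k => z.1 (Fin.castAdd s i)) ∧
          Function.Injective (fun i : Fin k => z.2 (Fin.castAdd s i))))) with hR
  have hsub : R ⊆ S.biUnion (fun p => R.filter (fun z => (fun i : Fin k => z.1 (Fin.castAdd s i)) ∈ Dp k p P ∧
      (fun i : Fin k => z.2 (Fin.castAdd s i)) ∈ Dp k p P)) := by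
    intro z hz
    have hz' := hz
    rw [hR, Finset.mem_filter, Finset.mem_product, Fintype.mem_piFinset, Fintype.mem_piFinset] at hz'
    obtain ⟨p, hpS, h1, h2⟩ := sep k P S hS hprod (fun i : Fin k => z.1 (Fin.castAdd s i))
      (fun i : Fin k => z.2 (Fin.castAdd s i)) (fun i => hz'.1.1 _) (fun i => hz'.1.2 _) hz'.2.2.1 hz'.2.2.2
    rw [Finset.mem_biUnion]
    exact ⟨p, hpS, by rw [Finset.mem_filter]; exact ⟨hz, h1, h2⟩⟩
  refine (Finset.card_le_card hsub).trans (Finset.card_biUnion_le.trans (Finset.sum_le_sum fun p _ => ?_))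
  unfold cnt
  apply Finset.card_le_card_of_injOn (fun z : (Fin (k + s) → ℤ) × (Fin (k + s) → ℤ) =>
    ((fun i : Fin k => z.1 (Fin.castAdd s i), fun i : Fin k => z.2 (Fin.castAdd s i)),
      (fun i : Fin s => z.1 (Fin.natAdd k i), fun i : Fin s => z.2 (Fin.natAdd k i))))
  · intro z hz
    simp only [hR, Finset.coe_filter, Finset.mem_filter, Finset.mem_product, Fintype.mem_piFinset, Set.mem_setOf_eq] at hz ⊢
    obtain ⟨⟨⟨h1, h2⟩, h3, -⟩, h4, h5⟩ := hz
    refine ⟨⟨⟨h4, h5⟩, fun i => h1 _, fun i => h2 _⟩, ?_⟩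
    rw [Fin.sum_univ_add, Fin.sum_univ_add] at h3
    exact h3
  · intro z hz z' hz' h
    simp only [Prod.mk.injEq] at h
    obtain ⟨⟨h1, h2⟩, h3, h4⟩ := h
    refine Prod.ext ?_ ?_
    · funext l
      refine Fin.addCases (fun i => ?_) (fun i => ?_) l
      · exact congrFun h1 i
      · exact congrFun h3 i
    · funext l
      refine Fin.addCases (fun i => ?_) (fun i => ?_) l
      · exact congrFun h2 i
      · exact congrFun h4 i

theorem re (k s P : ℕ) (hk : 2 ≤ k) (hP : 16 * k ^ 4 ≤ P) (S : Finset ℕ) (hS : ∀ p ∈ S, p.Prime)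
    (hprod : P ^ (k * (k - 1)) < ∏ p ∈ S, p) :
    J (k + s) k P ≤ 2 * ∑ p ∈ S, cnt (Dp k p P) (sp k) (Icc (1 : ℤ) P) (pw k) s := by
  classical
  set Jn := J (k + s) k P with hJn
  set B := (Jn : ℝ) / (4 * k ^ 2 : ℕ) + ((4 * k ^ 2 : ℕ) : ℝ) ^ (k + s - 1) * Real.sqrt Jn with hB
  set R := (((Fintype.piFinset fun _ : Fin (k + s) => Icc (1 : ℤ) P) ×ˢ
      (Fintype.piFinset fun _ : Fin (k + s) => Icc (1 : ℤ) P)).filter
      (fun z => ∑ l, pw k (z.1 l) = ∑ l, pw k (z.2 l) ∧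
        (Function.Injective (fun i : Fin k => z.1 (Fin.castAdd s i)) ∧
          Function.Injective (fun i : Fin k => z.2 (Fin.castAdd s i))))) with hR
  set Y : Fin k × Fin k → Finset ((Fin (k + s) → ℤ) × (Fin (k + s) → ℤ)) := fun q =>
    (((Fintype.piFinset fun _ : Fin (k + s) => Icc (1 : ℤ) P) ×ˢ
      (Fintype.piFinset fun _ : Fin (k + s) => Icc (1 : ℤ) P)).filter
      (fun z => ∑ l, pw k (z.1 l) = ∑ l, pw k (z.2 l) ∧
        (z.1 (Fin.castAdd s q.1) = z.1 (Fin.castAdd s q.2) ∨ z.2 (Fin.castAdd s q.1) = z.2 (Fin.castAdd s q.2)))) with hY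
  set T := ((univ : Finset (Fin k × Fin k)).filter (fun z => z.1 < z.2)) with hT
  have hcov : ((((Fintype.piFinset fun _ : Fin (k + s) => Icc (1 : ℤ) P) ×ˢ
      (Fintype.piFinset fun _ : Fin (k + s) => Icc (1 : ℤ) P)).filter
      (fun z => ∑ l, pw k (z.1 l) = ∑ l, pw k (z.2 l)))) ⊆ R ∪ T.biUnion Y := by
    intro z hz
    rw [Finset.mem_filter] at hz
    rw [Finset.mem_union]
    by_cases h : (Function.Injective (fun i : Fin k => z.1 (Fin.castAdd s i)) ∧
          Function.Injective (fun i : Fin k => z.2 (Fin.castAdd s i)))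
    · left
      rw [hR, Finset.mem_filter]
      exact ⟨hz.1, hz.2, h⟩
    · right
      rw [Finset.mem_biUnion]
      have hex : ∃ i j : Fin k, i ≠ j ∧ (z.1 (Fin.castAdd s i) = z.1 (Fin.castAdd s j) ∨
          z.2 (Fin.castAdd s i) = z.2 (Fin.castAdd s j)) := by
        rw [not_and_or] at h
        rcases h with h | h
        · simp only [Function.Injective, not_forall] at h
          obtain ⟨i, j, h1, h2⟩ := h
          exact ⟨i, j, h2, Or.inl h1⟩
        · simp only [Function.Injective, not_forall] at h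
          obtain ⟨i, j, h1, h2⟩ := h
          exact ⟨i, j, h2, Or.inr h1⟩
      obtain ⟨i, j, hij, hor⟩ := hex
      rcases lt_or_gt_of_ne hij with hlt | hlt
      · refine ⟨(i, j), by simp [hT, hlt], ?_⟩
        simp only [hY, Finset.mem_filter]
        exact ⟨hz.1, hz.2, hor⟩
      · refine ⟨(j, i), by simp [hT, hlt], ?_⟩
        simp only [hY, Finset.mem_filter]
        exact ⟨hz.1, hz.2, hor.imp Eq.symm Eq.symm⟩
  have h1 : Jn ≤ R.card + ∑ q ∈ T, (Y q).card :=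
    (Finset.card_le_card hcov).trans ((Finset.card_union_le _ _).trans
      (Nat.add_le_add_left Finset.card_biUnion_le _))
  have h2 : (Jn : ℝ) ≤ R.card + ∑ q ∈ T, ((Y q).card : ℝ) := by exact_mod_cast h1
  have h3 : ∀ q ∈ T, ((Y q).card : ℝ) ≤ 2 * B := by
    intro q hq
    rw [hT, Finset.mem_filter] at hq
    have hne : Fin.castAdd s q.1 ≠ Fin.castAdd s q.2 := by
      intro h
      exact hq.2.ne (Fin.castAdd_injective k s h)
    exact re_co k s P hk (Fin.castAdd s q.1) (Fin.castAdd s q.2) hne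
  have h4 : ∑ q ∈ T, ((Y q).card : ℝ) ≤ T.card * (2 * B) := by
    refine (Finset.sum_le_sum h3).trans ?_
    rw [Finset.sum_const, nsmul_eq_mul]
  have hB0 : 0 ≤ B := by positivity
  have h5 : (2 * T.card : ℝ) ≤ (k : ℝ) ^ 2 := by exact_mod_cast re_pairs k
  have h6 : (T.card : ℝ) * (2 * B) ≤ (k : ℝ) ^ 2 * B := by nlinarith
  have hkR : (0 : ℝ) < k := by
    have : (2 : ℝ) ≤ k := by exact_mod_cast hk
    linarith
  have h7 : (k : ℝ) ^ 2 * ((Jn : ℝ) / (4 * k ^ 2 : ℕ)) = Jn / 4 := by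
    push_cast
    field_simp
  have hn : k + s - 1 + 1 = k + s := by omega
  have h8 : (k : ℝ) ^ 2 * (((4 * k ^ 2 : ℕ) : ℝ) ^ (k + s - 1) * Real.sqrt Jn) =
      ((4 * k ^ 2 : ℕ) : ℝ) ^ (k + s) * Real.sqrt Jn / 4 := by
    rw [← hn, pow_succ]
    simp only [Nat.add_sub_cancel]
    push_cast
    ring
  have h9 : (((4 * k ^ 2 : ℕ) : ℝ) ^ (k + s)) ≤ Real.sqrt Jn := by
    apply Real.le_sqrt_of_sq_le
    have ha : (16 * k ^ 4) ^ (k + s) ≤ Jn := (Nat.pow_le_pow_left hP _).trans (diag (k + s) k P)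
    have hb : ((((4 * k ^ 2 : ℕ) : ℝ) ^ (k + s))) ^ 2 = (((16 * k ^ 4) ^ (k + s) : ℕ) : ℝ) := by
      have hc : ∀ (x : ℝ) (n : ℕ), (x ^ n) ^ 2 = (x ^ 2) ^ n := by
        intro x n
        rw [← pow_mul, ← pow_mul, mul_comm n 2]
      rw [hc]
      push_cast
      congr 1
      ring
    rw [hb]
    exact_mod_cast ha
  have h10 : ((4 * k ^ 2 : ℕ) : ℝ) ^ (k + s) * Real.sqrt Jn ≤ Jn := by
    have hs : Real.sqrt Jn * Real.sqrt Jn = Jn := Real.mul_self_sqrt (Nat.cast_nonneg _)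
    calc _ ≤ Real.sqrt Jn * Real.sqrt Jn := mul_le_mul_of_nonneg_right h9 (Real.sqrt_nonneg _)
      _ = Jn := hs
  have h11 : (k : ℝ) ^ 2 * B ≤ Jn / 2 := by
    rw [hB, mul_add, h7, h8]
    linarith
  have h12 : (Jn : ℝ) ≤ 2 * R.card := by linarith
  have h13 : Jn ≤ 2 * R.card := by exact_mod_cast h12
  exact h13.trans (Nat.mul_le_mul_left 2 (re_r1 k s P S hS hprod))

end Pool.Agent.Lib.VK
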