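import Pool.Agent.Lib.VK.SPar
import Pool.Agent.Lib.VK.SBs
import Pool.Agent.Lib.VK.TBj

/-!
# VK / SBj (block board): the coefficients at `0` and small frequencies are those of the density

PROOF. Copy of `bjW` (VK/TBj.lean, landed; copy the private lemmas) with the additional sum over `m`: `bs_sum_mul` with
`g n = e(0) cj j n`, `bq (bC) Z 0 j = ∑_{p ∈ S} ∑_m a m cj j (p m) ∑_{r ∈ pr R} (lp r/log 2R) cj j r`; the inner sum is
`Ia R j/log 2R` up to `R (|j|+2)/(log R)^k` (`tbj_prime`), and `cj j (p m) Ia R j = Ia (p m R) j/(p m)` (`tbj_scale` at `p m`). At most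
`P · M` pairs, `P M R ≤ Z`, `R ≥ Z^(99/100)` (`parS`).
-/

set_option autoImplicit false

open Finset

namespace Pool.Agent.Lib.VKT

open Pool.Agent.Lib.G3 (bq pr)
open Pool.Agent.Lib.MRT (norm_cj cj_mul)
open Pool.Agent.Lib.G3 (abel_Ioc cj_diff lp)
open Pool.Agent.Lib.MRT (cj)
open Pool.Agent.Lib.GT (e lam)

private theorem sbj_abel (f : ℕ → ℂ) (j : ℤ) (R : ℕ) (hR : 3 ≤ R) {E : ℝ} (hE : 0 ≤ E) (hf : ∀ m ∈ Ioc R (2 * R), ‖∑ n ∈ Ioc R m, f n‖ ≤ E) :
    ‖∑ n ∈ Ioc R (2 * R), f n * cj j n‖ ≤ E * (|(j : ℝ)| + 2) := by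
  have hR0 : (0 : ℝ) < R := by positivity
  rw [abel_Ioc f (cj j) R (2 * R) (by omega)]
  refine (norm_add_le _ _).trans ?_
  have h1 : ‖(∑ n ∈ Ioc R (2 * R), f n) * cj j (2 * R + 1)‖ ≤ E := by
    rw [norm_mul, norm_cj, mul_one]
    exact hf (2 * R) (by rw [mem_Ioc]; omega)
  have h2 : ‖∑ m ∈ Ioc R (2 * R), (∑ n ∈ Ioc R m, f n) * (cj j m - cj j (m + 1))‖ ≤ E * |(j : ℝ)| := by
    refine (norm_sum_le _ _).trans ?_
    have h3 : ∀ m ∈ Ioc R (2 * R), ‖(∑ n ∈ Ioc R m, f n) * (cj j m - cj j (m + 1))‖ ≤ E * (|(j : ℝ)| / R) := by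
      intro m hm
      rw [norm_mul]
      refine mul_le_mul (hf m hm) ?_ (norm_nonneg _) hE
      rw [mem_Ioc] at hm
      refine (cj_diff j m (by omega)).trans ?_
      have h4 : (R : ℝ) ≤ m := by exact_mod_cast hm.1.le
      exact div_le_div_of_nonneg_left (by positivity) hR0 h4
    refine (sum_le_sum h3).trans ?_
    rw [sum_const, Nat.card_Ioc, nsmul_eq_mul]
    have h5 : 2 * R - R = R := by omega
    rw [h5]
    have h6 : (R : ℝ) * (E * (|(j : ℝ)| / R)) = E * |(j : ℝ)| := by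
      field_simp
    rw [h6]
  have h7 : E * (|(j : ℝ)| + 2) = E + E * |(j : ℝ)| + E := by ring
  rw [h7]
  linarith

/-- the prime number theorem on segments -/
private theorem sbj_pnt (k : ℕ) : ∃ C : ℝ, 0 < C ∧ ∀ R m : ℕ, 3 ≤ R → R ≤ m → m ≤ 2 * R →
    ‖∑ n ∈ Ioc R m, (((lp n : ℝ) : ℂ) - 1)‖ ≤ C * R / (Real.log R) ^ k := by
  obtain ⟨C, hC, h⟩ := Pool.Agent.Lib.SW.theta_ap k 1 one_pos
  refine ⟨4 * C, by positivity, ?_⟩
  intro R m hR hRm hm
  have hR3 : (3 : ℝ) ≤ R := by exact_mod_cast hR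
  have hR0 : (0 : ℝ) < R := by linarith
  have hlR : 0 < Real.log R := Real.log_pos (by linarith)
  have key : ∀ x : ℕ, R ≤ x → x ≤ 2 * R → |∑ n ∈ Icc 1 x, lp n - x| ≤ 2 * C * R / (Real.log R) ^ k := by
    intro x hx hx2
    have hx3 : (R : ℝ) ≤ x := by exact_mod_cast hx
    have hx4 : (x : ℝ) ≤ 2 * R := by exact_mod_cast hx2
    have h1 := h 1 0 le_rfl (by simp) (x : ℝ) (by linarith)
    rw [Nat.floor_natCast] at h1
    have e1 : ∑ n ∈ (Icc 1 x).filter (fun n => n.Prime ∧ n ≡ 0 [MOD 1]), Real.log n = ∑ n ∈ Icc 1 x, lp n := by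
      rw [sum_filter]
      refine sum_congr rfl fun n _ => ?_
      unfold Pool.Agent.Lib.G3.lp
      by_cases hp : n.Prime
      · rw [if_pos ⟨hp, Nat.modEq_one⟩, if_pos hp]
      · rw [if_neg (fun h => hp h.1), if_neg hp]
    rw [e1, Nat.totient_one, Nat.cast_one, div_one, Real.one_rpow, mul_one] at h1
    refine h1.trans ?_
    have hlx : Real.log R ≤ Real.log x := Real.log_le_log hR0 hx3
    apply div_le_div₀ (by positivity) _ (by positivity) (pow_le_pow_left₀ hlR.le hlx k)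
    nlinarith
  have seg : ∑ n ∈ Ioc R m, (lp n - 1) = (∑ n ∈ Icc 1 m, lp n - m) - (∑ n ∈ Icc 1 R, lp n - R) := by
    have h1 : Icc 1 m = Icc 1 R ∪ Ioc R m := by
      ext n
      simp only [mem_union, mem_Icc, mem_Ioc]
      omega
    have h2 : Disjoint (Icc 1 R) (Ioc R m) := by
      rw [disjoint_left]
      intro n hn hn2
      rw [mem_Icc] at hn
      rw [mem_Ioc] at hn2
      omega
    rw [h1, sum_union h2, sum_sub_distrib, sum_const, Nat.card_Ioc, nsmul_eq_mul, mul_one, Nat.cast_sub hRm]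
    ring
  have e1 : ∑ n ∈ Ioc R m, (((lp n : ℝ) : ℂ) - 1) = ((∑ n ∈ Ioc R m, (lp n - 1) : ℝ) : ℂ) := by
    push_cast
    rfl
  rw [e1, Complex.norm_real, Real.norm_eq_abs, seg]
  have a1 := key m hRm hm
  have a2 := key R le_rfl (by omega)
  have e2 : 4 * C * R / (Real.log R) ^ k = 2 * C * R / (Real.log R) ^ k + 2 * C * R / (Real.log R) ^ k := by ring
  rw [e2]
  exact (abs_sub _ _).trans (add_le_add a1 a2)

private noncomputable def gJ (j : ℤ) (u : ℝ) : ℂ := Complex.exp (((-(j : ℝ) * Real.log u : ℝ) : ℂ) * Complex.I)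

private theorem sbj_cont (j : ℤ) {a b : ℝ} (ha : 0 < a) : ContinuousOn (gJ j) (Set.Icc a b) := by
  unfold gJ
  refine Complex.continuous_exp.comp_continuousOn ?_
  refine ContinuousOn.mul ?_ continuousOn_const
  refine Complex.continuous_ofReal.comp_continuousOn ?_
  refine ContinuousOn.mul continuousOn_const ?_
  exact ContinuousOn.log continuousOn_id fun x hx => (lt_of_lt_of_le ha hx.1).ne'

private theorem sbj_int (j : ℤ) {a b : ℝ} (ha : 0 < a) (hab : a ≤ b) : IntervalIntegrable (gJ j) MeasureTheory.volume a b := by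
  apply ContinuousOn.intervalIntegrable
  rw [Set.uIcc_of_le hab]
  exact sbj_cont j ha

/-- one term against the integral -/
private theorem sbj_term (j : ℤ) (n : ℕ) (hn : 2 ≤ n) :
    ‖(∫ u in ((n - 1 : ℕ) : ℝ)..(n : ℝ), gJ j u) - cj j n‖ ≤ |(j : ℝ)| / ((n - 1 : ℕ) : ℝ) := by
  have hn1 : (1 : ℝ) ≤ ((n - 1 : ℕ) : ℝ) := by
    have : 1 ≤ n - 1 := by omega
    exact_mod_cast this
  have hn0 : (n : ℝ) = ((n - 1 : ℕ) : ℝ) + 1 := by
    have : n = (n - 1) + 1 := by omega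
    exact_mod_cast this
  set a : ℝ := ((n - 1 : ℕ) : ℝ) with ha
  have e1 : cj j n = ∫ _u in a..(n : ℝ), cj j n := by
    rw [intervalIntegral.integral_const, hn0]
    simp
  have e2 : (∫ u in a..(n : ℝ), gJ j u) - cj j n = ∫ u in a..(n : ℝ), (gJ j u - cj j n) := by
    rw [intervalIntegral.integral_sub (sbj_int j (by linarith) (by linarith)) intervalIntegrable_const, ← e1]
  rw [e2]
  have h1 : ∀ u ∈ Set.uIoc a (n : ℝ), ‖gJ j u - cj j n‖ ≤ |(j : ℝ)| / a := by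
    intro u hu
    rw [Set.uIoc_of_le (by linarith)] at hu
    have hu0 : 0 < u := by linarith [hu.1]
    have hnpos : (0 : ℝ) < n := by linarith
    have h2 : gJ j u = cj j n * Complex.exp (Complex.I * ((-(j : ℝ) * (Real.log u - Real.log n) : ℝ) : ℂ)) := by
      unfold gJ cj
      rw [← Complex.exp_add]
      congr 1
      push_cast
      ring
    have h3 : gJ j u - cj j n = cj j n * (Complex.exp (Complex.I * ((-(j : ℝ) * (Real.log u - Real.log n) : ℝ) : ℂ)) - 1) := by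
      rw [h2]
      ring
    rw [h3, norm_mul, norm_cj, one_mul]
    refine Real.norm_exp_I_mul_ofReal_sub_one_le.trans ?_
    rw [Real.norm_eq_abs, abs_mul, abs_neg, div_eq_mul_inv]
    refine mul_le_mul_of_nonneg_left ?_ (abs_nonneg _)
    have h4 : Real.log u ≤ Real.log n := Real.log_le_log hu0 hu.2
    rw [abs_of_nonpos (by linarith), neg_sub, ← Real.log_div hnpos.ne' hu0.ne']
    have h5 := Real.log_le_sub_one_of_pos (x := (n : ℝ) / u) (by positivity)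
    refine h5.trans ?_
    have h6 : (n : ℝ) / u - 1 = (n - u) / u := by
      field_simp
    rw [h6, ← one_div]
    apply div_le_div₀ (by norm_num) (by linarith [hu.1]) (by linarith) hu.1.le
  have h2 := intervalIntegral.norm_integral_le_of_norm_le_const h1
  refine h2.trans (le_of_eq ?_)
  rw [hn0]
  simp

private theorem sbj_sum_int (j : ℤ) (R : ℕ) (hR : 1 ≤ R) (m : ℕ) (hm : R ≤ m) :
    ∑ n ∈ Ioc R m, (∫ u in ((n - 1 : ℕ) : ℝ)..(n : ℝ), gJ j u) = ∫ u in (R : ℝ)..(m : ℝ), gJ j u := by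
  have hR1 : (1 : ℝ) ≤ R := by exact_mod_cast hR
  induction m, hm using Nat.le_induction with
  | base => simp
  | succ m hm ih =>
    have hm1 : (R : ℝ) ≤ m := by exact_mod_cast hm
    rw [sum_Ioc_succ_top (by omega), ih, Nat.add_sub_cancel]
    apply intervalIntegral.integral_add_adjacent_intervals
    · exact sbj_int j (by linarith) hm1
    · exact sbj_int j (by linarith) (by push_cast; linarith)

private theorem sbj_Ia (j : ℤ) (R : ℕ) (hR : 1 ≤ R) :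
    ‖∑ n ∈ Ioc R (2 * R), cj j n - Ia (R : ℝ) j‖ ≤ |(j : ℝ)| := by
  have hR0 : (0 : ℝ) < R := by exact_mod_cast hR
  have e1 : Ia (R : ℝ) j = ∑ n ∈ Ioc R (2 * R), (∫ u in ((n - 1 : ℕ) : ℝ)..(n : ℝ), gJ j u) := by
    rw [sbj_sum_int j R hR (2 * R) (by omega)]
    unfold Ia gJ
    push_cast
    rfl
  rw [e1, ← sum_sub_distrib]
  refine (norm_sum_le _ _).trans ?_
  have h1 : ∀ n ∈ Ioc R (2 * R), ‖cj j n - (∫ u in ((n - 1 : ℕ) : ℝ)..(n : ℝ), gJ j u)‖ ≤ |(j : ℝ)| / R := by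
    intro n hn
    rw [mem_Ioc] at hn
    rw [norm_sub_rev]
    refine (sbj_term j n (by omega)).trans ?_
    apply div_le_div_of_nonneg_left (abs_nonneg _) hR0
    have : R ≤ n - 1 := by omega
    exact_mod_cast this
  refine (sum_le_sum h1).trans (le_of_eq ?_)
  rw [sum_const, Nat.card_Ioc, nsmul_eq_mul]
  have h5 : 2 * R - R = R := by omega
  rw [h5]
  field_simp

private theorem sbj_scale (j : ℤ) (p R : ℕ) (hp : 1 ≤ p) (hR : 1 ≤ R) :
    ((1 / (p : ℝ) : ℝ) : ℂ) * Ia ((p * R : ℕ) : ℝ) j = cj j p * Ia (R : ℝ) j := by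
  have hp0 : (0 : ℝ) < p := by exact_mod_cast hp
  have hR0 : (0 : ℝ) < R := by exact_mod_cast hR
  have h1 := intervalIntegral.integral_comp_mul_left (a := (R : ℝ)) (b := 2 * (R : ℝ)) (gJ j) hp0.ne'
  have h2 : ∫ u in (R : ℝ)..(2 * R), gJ j (p * u) = ∫ u in (R : ℝ)..(2 * R), cj j p * gJ j u := by
    apply intervalIntegral.integral_congr
    intro u hu
    rw [Set.uIcc_of_le (by linarith)] at hu
    have hu0 : 0 < u := by linarith [hu.1]
    show gJ j (p * u) = cj j p * gJ j u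
    unfold gJ cj
    rw [← Complex.exp_add, Real.log_mul hp0.ne' hu0.ne']
    congr 1
    push_cast
    ring
  rw [h2, intervalIntegral.integral_const_mul] at h1
  have e1 : Ia (R : ℝ) j = ∫ u in (R : ℝ)..(2 * R), gJ j u := rfl
  have e2 : Ia ((p * R : ℕ) : ℝ) j = ∫ u in (p : ℝ) * R..(p : ℝ) * (2 * R), gJ j u := by
    unfold Ia gJ
    have : (2 : ℝ) * ((p * R : ℕ) : ℝ) = (p : ℝ) * (2 * R) := by push_cast; ring
    rw [this]
    push_cast
    rfl
  rw [e1, e2, h1, Complex.real_smul, one_div, Complex.ofReal_inv, Complex.ofReal_natCast]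

/-- primes of `(R, 2R]` against the integral -/
private theorem sbj_prime (k : ℕ) : ∃ C : ℝ, 0 < C ∧ ∀ (R : ℕ) (j : ℤ), 3 ≤ R →
    ‖∑ r ∈ pr R, ((lp r : ℝ) : ℂ) * cj j r - Ia (R : ℝ) j‖ ≤ C * R * (|(j : ℝ)| + 2) / (Real.log R) ^ k + |(j : ℝ)| := by
  obtain ⟨C, hC, h⟩ := sbj_pnt k
  refine ⟨C, hC, ?_⟩
  intro R j hR
  have hR3 : (3 : ℝ) ≤ R := by exact_mod_cast hR
  have hlR : 0 < Real.log R := Real.log_pos (by linarith)
  have h1 := sbj_abel (fun n => ((lp n : ℝ) : ℂ) - 1) j R hR (E := C * R / (Real.log R) ^ k) (by positivity)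
    (fun m hm => by
      rw [mem_Ioc] at hm
      exact h R m hR (by omega) (by omega))
  have h2 : ∑ n ∈ Ioc R (2 * R), (((lp n : ℝ) : ℂ) - 1) * cj j n =
      ∑ r ∈ pr R, ((lp r : ℝ) : ℂ) * cj j r - ∑ n ∈ Ioc R (2 * R), cj j n := by
    unfold pr
    rw [sum_filter, ← sum_sub_distrib]
    refine sum_congr rfl fun n _ => ?_
    unfold Pool.Agent.Lib.G3.lp
    by_cases hp : n.Prime
    · rw [if_pos hp, if_pos hp]
      ring
    · rw [if_neg hp, if_neg hp]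
      simp
  have h3 := sbj_Ia j R (by omega)
  have e1 : ∑ r ∈ pr R, ((lp r : ℝ) : ℂ) * cj j r - Ia (R : ℝ) j =
      (∑ n ∈ Ioc R (2 * R), (((lp n : ℝ) : ℂ) - 1) * cj j n) + (∑ n ∈ Ioc R (2 * R), cj j n - Ia (R : ℝ) j) := by
    rw [h2]
    ring
  rw [e1]
  refine (norm_add_le _ _).trans (add_le_add ?_ h3)
  refine h1.trans (le_of_eq ?_)
  ring

theorem bjS (K c5 c1 cP cM : ℕ) : ∃ x0 : ℝ, ∀ Z : ℕ, x0 ≤ Z → ∀ (P R M : ℕ) (S : Finset ℕ) (a : ℕ → ℝ), BlkZ Z P R M S a c1 cP cM →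
    ∀ j : ℤ, |(j : ℝ)| ≤ (Real.log Z) ^ c5 →
      ‖bq (bC S a R M) Z 0 j - ∑ p ∈ S, ∑ m ∈ Ico M (2 * M), ((a m / (p * m * Real.log (2 * R : ℕ)) : ℝ) : ℂ) *
        Ia ((p * m * R : ℕ) : ℝ) j‖ ≤ Z / (Real.log Z) ^ K := by
  obtain ⟨C, hC, h⟩ := sbj_prime (K + c5 + 1)
  obtain ⟨z0, -, hz0⟩ := parS c1 cP cM
  set k := K + c5 + 1 with hk
  set N := K + (cP + cM) + c5 with hN
  set L1 : ℝ := 4 * (N + 1).factorial with hL1
  refine ⟨max (max z0 (2 ^ 20)) (Real.exp (max (max 1 L1) (3 * C * 4 ^ k))), ?_⟩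
  intro X hX P R M S a hpar j hj
  obtain ⟨hP1, -, -, -, hR99, -, -⟩ := hz0 X P R M S a (((le_max_left _ _).trans (le_max_left _ _)).trans hX) hpar
  have hX1 : (2 : ℝ) ^ 20 ≤ X := ((le_max_right _ _).trans (le_max_left _ _)).trans hX
  have hX2 : Real.exp (max (max 1 L1) (3 * C * 4 ^ k)) ≤ X := (le_max_right _ _).trans hX
  have hXpos : (0 : ℝ) < X := by linarith [show (0 : ℝ) < 2 ^ 20 by norm_num]
  set l := Real.log X with hl
  have hl0 : max (max 1 L1) (3 * C * 4 ^ k) ≤ l := by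
    rw [hl, Real.le_log_iff_exp_le hXpos]
    exact hX2
  have hl1 : 1 ≤ l := ((le_max_left _ _).trans (le_max_left _ _)).trans hl0
  have hlL1 : L1 ≤ l := ((le_max_right _ _).trans (le_max_left _ _)).trans hl0
  have hl2 : 3 * C * 4 ^ k ≤ l := (le_max_right _ _).trans hl0
  have hlpos : 0 < l := by linarith
  -- sizes
  have hM1 : 1 ≤ M := hpar.hM1
  have hR1 : (X : ℝ) ^ (1 / 4 : ℝ) ≤ R :=
    (Real.rpow_le_rpow_of_exponent_le (by linarith [show (1 : ℝ) ≤ 2 ^ 20 by norm_num]) (by norm_num)).trans hR99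
  have hR2 : (32 : ℝ) ≤ R := by
    have e3 : ((2 : ℝ) ^ 20) ^ (1 / 4 : ℝ) ≤ (X : ℝ) ^ (1 / 4 : ℝ) := Real.rpow_le_rpow (by positivity) hX1 (by norm_num)
    have e4 : ((2 : ℝ) ^ 20) ^ (1 / 4 : ℝ) = 32 := by
      rw [← Real.rpow_natCast, ← Real.rpow_mul (by norm_num)]
      norm_num
    linarith
  have hR3 : 3 ≤ R := by
    have : (3 : ℝ) ≤ R := by linarith
    exact_mod_cast this
  have hR0 : (0 : ℝ) < R := by linarith
  have hlR : l / 4 ≤ Real.log R := by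
    have e1 := Real.log_le_log (by positivity) hR1
    rw [Real.log_rpow hXpos] at e1
    linarith
  have hlogR : 0 < Real.log R := by linarith
  set lg : ℝ := Real.log (2 * R : ℕ) with hlg
  have hlg1 : 1 ≤ lg := by
    rw [hlg, Real.le_log_iff_exp_le (by positivity)]
    have h2 := Real.exp_one_lt_d9
    push_cast
    linarith
  have hSp : ∀ p ∈ S, p.Prime := by
    intro p hp
    have h1 := hpar.hS hp
    unfold Pool.Agent.Lib.G3.pr at h1
    rw [mem_filter] at h1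
    exact h1.2
  have hMm : ∀ m ∈ Ico M (2 * M), 1 ≤ m := by
    intro m hm
    rw [mem_Ico] at hm
    omega
  have f2 : bq (bC S a R M) X 0 j = ∑ p ∈ S, ∑ m ∈ Ico M (2 * M), (((a m : ℝ) : ℂ) * cj j (p * m) * ((1 / lg : ℝ) : ℂ)) *
      ∑ r ∈ pr R, ((lp r : ℝ) : ℂ) * cj j r := by
    unfold bq
    have e1 := bs_sum_mul hpar.hS hM1 hpar.hR1 (a := a) (fun n => cj j n)
    have e2 : ∑ n ∈ Icc 1 X, bC S a R M n * e (-(n * 0)) * cj j n = ∑ n ∈ Icc 1 X, bC S a R M n * cj j n := by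
      refine sum_congr rfl fun n _ => ?_
      have e0 : e (-((n : ℝ) * 0)) = 1 := by
        unfold e
        simp
      rw [e0, mul_one]
    rw [e2, e1]
    refine sum_congr rfl fun p hp => ?_
    rw [sum_comm]
    refine sum_congr rfl fun m hm => ?_
    rw [mul_sum]
    refine sum_congr rfl fun r hr => ?_
    have hr1 : r ≠ 0 := by
      unfold pr at hr
      rw [mem_filter] at hr
      exact hr.2.ne_zero
    have hpm : p * m ≠ 0 := Nat.mul_ne_zero (hSp p hp).ne_zero (by have := hMm m hm; omega)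
    rw [cj_mul j hpm hr1, ← hlg, div_eq_mul_one_div (lp r) lg]
    push_cast
    ring
  have f3 : bq (bC S a R M) X 0 j - ∑ p ∈ S, ∑ m ∈ Ico M (2 * M), ((a m / (p * m * lg) : ℝ) : ℂ) * Ia ((p * m * R : ℕ) : ℝ) j =
      ∑ p ∈ S, ∑ m ∈ Ico M (2 * M), (((a m : ℝ) : ℂ) * cj j (p * m) * ((1 / lg : ℝ) : ℂ)) *
        (∑ r ∈ pr R, ((lp r : ℝ) : ℂ) * cj j r - Ia (R : ℝ) j) := by
    rw [f2, ← sum_sub_distrib]
    refine sum_congr rfl fun p hp => ?_
    rw [← sum_sub_distrib]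
    refine sum_congr rfl fun m hm => ?_
    have hpm : 1 ≤ p * m := Nat.mul_pos (hSp p hp).pos (hMm m hm)
    have e1 := sbj_scale j (p * m) R hpm (by omega)
    have e2 : ((a m / (p * m * lg) : ℝ) : ℂ) = ((a m : ℝ) : ℂ) * ((1 / ((p * m : ℕ) : ℝ) : ℝ) : ℂ) * ((1 / lg : ℝ) : ℂ) := by
      rw [← Complex.ofReal_mul, ← Complex.ofReal_mul]
      congr 1
      push_cast
      rw [div_eq_mul_inv, mul_inv, one_div, one_div]
      ring
    rw [e2, mul_sub]
    congr 1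
    calc ((a m : ℝ) : ℂ) * ((1 / ((p * m : ℕ) : ℝ) : ℝ) : ℂ) * ((1 / lg : ℝ) : ℂ) * Ia ((p * m * R : ℕ) : ℝ) j
        = ((a m : ℝ) : ℂ) * (((1 / ((p * m : ℕ) : ℝ) : ℝ) : ℂ) * Ia ((p * m * R : ℕ) : ℝ) j) * ((1 / lg : ℝ) : ℂ) := by ring
      _ = ((a m : ℝ) : ℂ) * cj j (p * m) * ((1 / lg : ℝ) : ℂ) * Ia (R : ℝ) j := by rw [e1]; ring
  rw [f3]
  have f4 : ∀ p ∈ S, ∀ m ∈ Ico M (2 * M), ‖(((a m : ℝ) : ℂ) * cj j (p * m) * ((1 / lg : ℝ) : ℂ)) *
      (∑ r ∈ pr R, ((lp r : ℝ) : ℂ) * cj j r - Ia (R : ℝ) j)‖ ≤ C * R * (|(j : ℝ)| + 2) / (Real.log R) ^ k + |(j : ℝ)| := by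
    intro p _ m _
    have e4 := h R j hR3
    rw [norm_mul]
    have e5 : ‖((a m : ℝ) : ℂ) * cj j (p * m) * ((1 / lg : ℝ) : ℂ)‖ ≤ 1 := by
      rw [norm_mul, norm_mul, norm_cj, mul_one, Complex.norm_real, Complex.norm_real, Real.norm_eq_abs, Real.norm_eq_abs,
        abs_of_nonneg (show (0 : ℝ) ≤ 1 / lg by positivity)]
      have e6 : 1 / lg ≤ 1 := by
        rw [div_le_one (by linarith)]
        exact hlg1
      exact mul_le_one₀ (hpar.ha m) (by positivity) e6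
    calc ‖((a m : ℝ) : ℂ) * cj j (p * m) * ((1 / lg : ℝ) : ℂ)‖ * _ ≤ 1 * (C * R * (|(j : ℝ)| + 2) / (Real.log R) ^ k + |(j : ℝ)|) :=
          mul_le_mul e5 e4 (norm_nonneg _) zero_le_one
      _ = _ := one_mul _
  have hBnn : 0 ≤ C * R * (|(j : ℝ)| + 2) / (Real.log R) ^ k + |(j : ℝ)| := by positivity
  have f5 : ‖∑ p ∈ S, ∑ m ∈ Ico M (2 * M), (((a m : ℝ) : ℂ) * cj j (p * m) * ((1 / lg : ℝ) : ℂ)) *
      (∑ r ∈ pr R, ((lp r : ℝ) : ℂ) * cj j r - Ia (R : ℝ) j)‖ ≤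
      ((P : ℝ) * M) * (C * R * (|(j : ℝ)| + 2) / (Real.log R) ^ k + |(j : ℝ)|) := by
    have f6 : ∀ p ∈ S, ‖∑ m ∈ Ico M (2 * M), (((a m : ℝ) : ℂ) * cj j (p * m) * ((1 / lg : ℝ) : ℂ)) *
      (∑ r ∈ pr R, ((lp r : ℝ) : ℂ) * cj j r - Ia (R : ℝ) j)‖ ≤ (M : ℝ) * (C * R * (|(j : ℝ)| + 2) / (Real.log R) ^ k + |(j : ℝ)|) := by
      intro p hp
      refine (norm_sum_le _ _).trans ((sum_le_sum (f4 p hp)).trans (le_of_eq ?_))
      rw [sum_const, Nat.card_Ico, nsmul_eq_mul]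
      have : 2 * M - M = M := by omega
      rw [this]
    refine (norm_sum_le _ _).trans ((sum_le_sum f6).trans ?_)
    rw [sum_const, nsmul_eq_mul, mul_assoc (P : ℝ) (M : ℝ)]
    refine mul_le_mul_of_nonneg_right ?_ (mul_nonneg (Nat.cast_nonneg _) hBnn)
    have g2 : S.card ≤ P := by
      refine (card_le_card hpar.hS).trans ?_
      unfold Pool.Agent.Lib.G3.pr
      refine (card_filter_le _ _).trans ?_
      rw [Nat.card_Ioc]
      omega
    exact_mod_cast g2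
  refine f5.trans ?_
  have g1 : (l / 4) ^ k ≤ (Real.log R) ^ k := pow_le_pow_left₀ (by linarith) hlR k
  have g2 : (P : ℝ) * M * R ≤ X / 2 := by
    have h1 : 8 * (P * M * R) ≤ X := hpar.hR1
    have h2 : (8 : ℝ) * (P * M * R) ≤ X := by exact_mod_cast h1
    have h3 : (0 : ℝ) ≤ P * M * R := by positivity
    linarith
  have g4 : |(j : ℝ)| + 2 ≤ 3 * l ^ c5 := by
    have := one_le_pow₀ hl1 (n := c5)
    linarith
  have t1 : (P : ℝ) * M * (C * R * (|(j : ℝ)| + 2) / (Real.log R) ^ k) ≤ X / l ^ K / 2 := by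
    calc (P : ℝ) * M * (C * R * (|(j : ℝ)| + 2) / (Real.log R) ^ k)
        = (P : ℝ) * M * R * (C * (|(j : ℝ)| + 2)) / (Real.log R) ^ k := by ring
      _ ≤ X / 2 * (C * (3 * l ^ c5)) / (l / 4) ^ k := by
          apply div_le_div₀ (by positivity) _ (by positivity) g1
          gcongr
      _ = X * ((3 * C * 4 ^ k) * l ^ c5) / l ^ k / 2 := by
          rw [div_pow]
          field_simp
      _ ≤ X * (l * l ^ c5) / l ^ k / 2 := by gcongr
      _ = X / l ^ K / 2 := by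
          have e1 : l ^ k = l ^ K * (l * l ^ c5) := by
            rw [hk]
            ring
          rw [e1]
          have e2 : l * l ^ c5 ≠ 0 := by positivity
          have e3 : l ^ K ≠ 0 := by positivity
          field_simp
  have t2 : (P : ℝ) * M * |(j : ℝ)| ≤ X / l ^ K / 2 := by
    have e1 : l ^ (N + 1) / (N + 1).factorial ≤ X := by
      have := Real.pow_div_factorial_le_exp l hlpos.le (N + 1)
      rwa [hl, Real.exp_log hXpos, ← hl] at this
    have e2 : 4 * l ^ N ≤ X := by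
      refine le_trans ?_ e1
      rw [le_div_iff₀ (by positivity), pow_succ]
      have : 4 * l ^ N * ((N + 1).factorial : ℝ) = l ^ N * L1 := by rw [hL1]; ring
      rw [this]
      exact mul_le_mul_of_nonneg_left hlL1 (by positivity)
    have e3 : (P : ℝ) * M * |(j : ℝ)| ≤ 2 * l ^ cP * l ^ cM * l ^ c5 :=
      mul_le_mul (mul_le_mul hpar.hP2 hpar.hM2 (by positivity) (by positivity)) hj (abs_nonneg _) (by positivity)
    refine e3.trans ?_
    rw [div_div, le_div_iff₀ (by positivity)]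
    calc 2 * l ^ cP * l ^ cM * l ^ c5 * (l ^ K * 2) = 4 * l ^ N := by rw [hN]; ring
      _ ≤ X := e2
  have e9 : (P : ℝ) * M * (C * R * (|(j : ℝ)| + 2) / (Real.log R) ^ k + |(j : ℝ)|) =
      (P : ℝ) * M * (C * R * (|(j : ℝ)| + 2) / (Real.log R) ^ k) + (P : ℝ) * M * |(j : ℝ)| := by ring
  rw [e9]
  linarith

end Pool.Agent.Lib.VKT
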