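import Pool.Agent.Lib.VK.SPar
import Pool.Agent.Lib.VK.SBs
import Pool.Agent.Lib.G3.BqsM

/-!
# VK / SBq (block board): the coefficients at `b/q` and small frequencies

As G3/BqsM.lean (and the general version of helper28), with `p` in `S`, real weights `a m` and the primes of `(R, 2R]`.
`bs_sum_mul` with `g n = e(-n b/q) cj j n`, the sum over `r` by Siegel-Walfisz at the class `p m b`, coprime to `q`:
`p > P` and all primes of the `m` with `a m` not zero are `> (log Z)^c1 / 2 >= q`.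
-/

set_option autoImplicit false

open Finset

namespace Pool.Agent.Lib.VKT

open Pool.Agent.Lib.MRT (cj norm_cj cj_mul)
open Pool.Agent.Lib.GT (e lam)
open Pool.Agent.Lib.G3 (bq pr lp theta_e abel_Ioc cj_diff)

/-- partial summation against `n^(-ij)` -/
private theorem bqs_abel (f : ℕ → ℂ) (j : ℤ) (R R' : ℕ) (hR : 3 ≤ R) (hR1 : R ≤ R') (hR2 : R' ≤ 2 * R) {E : ℝ} (hE : 0 ≤ E)
    (hf : ∀ m ∈ Icc R R', ‖∑ n ∈ Ioc R m, f n‖ ≤ E) :
    ‖∑ n ∈ Ioc R R', f n * cj j n‖ ≤ E * (|(j : ℝ)| + 2) := by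
  have hR0 : (0 : ℝ) < R := by positivity
  rw [abel_Ioc f (cj j) R R' hR1]
  refine (norm_add_le _ _).trans ?_
  have h1 : ‖(∑ n ∈ Ioc R R', f n) * cj j (R' + 1)‖ ≤ E := by
    rw [norm_mul, norm_cj, mul_one]
    exact hf R' (by rw [mem_Icc]; omega)
  have h2 : ‖∑ m ∈ Ioc R R', (∑ n ∈ Ioc R m, f n) * (cj j m - cj j (m + 1))‖ ≤ E * |(j : ℝ)| := by
    refine (norm_sum_le _ _).trans ?_
    have h3 : ∀ m ∈ Ioc R R', ‖(∑ n ∈ Ioc R m, f n) * (cj j m - cj j (m + 1))‖ ≤ E * (|(j : ℝ)| / R) := by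
      intro m hm
      rw [norm_mul]
      refine mul_le_mul (hf m (mem_Icc.2 ⟨(mem_Ioc.1 hm).1.le, (mem_Ioc.1 hm).2⟩)) ?_ (norm_nonneg _) hE
      rw [mem_Ioc] at hm
      refine (cj_diff j m (by omega)).trans ?_
      have h4 : (R : ℝ) ≤ m := by exact_mod_cast hm.1.le
      exact div_le_div_of_nonneg_left (by positivity) hR0 h4
    refine (sum_le_sum h3).trans ?_
    rw [sum_const, Nat.card_Ioc, nsmul_eq_mul]
    have h5 : ((R' - R : ℕ) : ℝ) ≤ R := by exact_mod_cast (by omega : R' - R ≤ R)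
    calc ((R' - R : ℕ) : ℝ) * (E * (|(j : ℝ)| / R)) ≤ (R : ℝ) * (E * (|(j : ℝ)| / R)) :=
          mul_le_mul_of_nonneg_right h5 (by positivity)
      _ = E * |(j : ℝ)| := by field_simp
  have h7 : E * (|(j : ℝ)| + 2) = E + E * |(j : ℝ)| + E := by ring
  rw [h7]
  linarith

/-- the primes `r` of `(R, R']`, twisted, with the weight `log r` -/
private theorem bqs_pr_e (k : ℕ) : ∃ C : ℝ, 0 < C ∧ ∀ (q R R' : ℕ) (a j : ℤ), 1 ≤ q → IsCoprime a (q : ℤ) → 3 ≤ R → R ≤ R' → R' ≤ 2 * R →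
    ‖∑ r ∈ (Ioc R R').filter Nat.Prime, ((lp r : ℝ) : ℂ) * (e (r * ((a : ℝ) / q)) * cj j r) -
      ((ArithmeticFunction.moebius q : ℤ) : ℂ) / (q.totient : ℂ) * ∑ r ∈ (Ioc R R').filter Nat.Prime, ((lp r : ℝ) : ℂ) * cj j r‖ ≤
      C * (q : ℝ) ^ 2 * R * (|(j : ℝ)| + 2) / (Real.log R) ^ k := by
  obtain ⟨C, hC, h⟩ := theta_e k
  refine ⟨C, hC, ?_⟩
  intro q R R' a j hq ha hR hR1 hR2
  set w : ℂ := ((ArithmeticFunction.moebius q : ℤ) : ℂ) / (q.totient : ℂ) with hw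
  have hR3 : (3 : ℝ) ≤ R := by exact_mod_cast hR
  have hlR : 0 < Real.log R := Real.log_pos (by linarith)
  have h1 := bqs_abel (fun n => ((lam n : ℝ) : ℂ) * (e (n * ((a : ℝ) / q)) - w)) j R R' hR hR1 hR2
    (E := C * (q : ℝ) ^ 2 * R / (Real.log R) ^ k) (by positivity) (fun m hm => by
      rw [mem_Icc] at hm
      exact h q R m a hq ha hR hm.1 (by omega))
  have h2 : ∑ n ∈ Ioc R R', ((lam n : ℝ) : ℂ) * (e (n * ((a : ℝ) / q)) - w) * cj j n =
      ∑ r ∈ (Ioc R R').filter Nat.Prime, ((lp r : ℝ) : ℂ) * (e (r * ((a : ℝ) / q)) * cj j r) -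
        w * ∑ r ∈ (Ioc R R').filter Nat.Prime, ((lp r : ℝ) : ℂ) * cj j r := by
    rw [mul_sum, ← sum_sub_distrib]
    rw [sum_filter]
    refine sum_congr rfl fun n hn => ?_
    unfold lam Pool.Agent.Lib.G3.lp
    by_cases hp : n.Prime
    · rw [if_pos hp, if_pos hp]
      ring
    · rw [if_neg hp, if_neg hp]
      simp
  rw [h2] at h1
  refine h1.trans (le_of_eq ?_)
  ring

theorem bqS (K c2 c5 c1 cP cM : ℕ) (hc : c2 < c1) : ∃ x0 : ℝ, ∀ Z : ℕ, x0 ≤ Z → ∀ (P R M : ℕ) (S : Finset ℕ) (a : ℕ → ℝ),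
    BlkZ Z P R M S a c1 cP cM → ∀ q b : ℕ, 1 ≤ q → (q : ℝ) ≤ (Real.log Z) ^ c2 → Nat.Coprime q b →
      ∀ j : ℤ, |(j : ℝ)| ≤ (Real.log Z) ^ c5 →
        ‖bq (bC S a R M) Z ((b : ℝ) / q) j - ((ArithmeticFunction.moebius q : ℤ) : ℂ) / (q.totient : ℂ) * bq (bC S a R M) Z 0 j‖ ≤
          Z / (Real.log Z) ^ K := by
  obtain ⟨C, hC, h⟩ := bqs_pr_e (K + 2 * c2 + c5 + 1)
  obtain ⟨x1, hx1, hpar⟩ := parS c1 cP cM
  set k := K + 2 * c2 + c5 + 1 with hk
  refine ⟨max x1 (max (2 ^ 20) (Real.exp (max 2 (3 * C * 4 ^ k)))), ?_⟩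
  intro Z hZ P R M S a hB q b hq hqZ hqb j hj
  have hZ0 : x1 ≤ Z := (le_max_left _ _).trans hZ
  have hZ1 : (2 : ℝ) ^ 20 ≤ Z := ((le_max_left _ _).trans (le_max_right _ _)).trans hZ
  have hZ2 : Real.exp (max 2 (3 * C * 4 ^ k)) ≤ Z := ((le_max_right _ _).trans (le_max_right _ _)).trans hZ
  have hZpos : (0 : ℝ) < Z := by linarith [show (0 : ℝ) < 2 ^ 20 by norm_num]
  set l := Real.log Z with hl
  have hl0 : max 2 (3 * C * 4 ^ k) ≤ l := by
    rw [hl, Real.le_log_iff_exp_le hZpos]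
    exact hZ2
  have hl22 : 2 ≤ l := (le_max_left _ _).trans hl0
  have hl1 : 1 ≤ l := by linarith
  have hl2 : 3 * C * 4 ^ k ≤ l := (le_max_right _ _).trans hl0
  have hlpos : 0 < l := by linarith
  obtain ⟨hP1, hPMR1, -, -, hRZ, hRZ2, -⟩ := hpar Z P R M S a hZ0 hB
  have hM1 : 1 ≤ M := hB.hM1
  -- sizes
  have hqc : l ^ c2 ≤ l ^ c1 / 2 := by
    have e1 : l ^ c1 = l ^ c2 * l ^ (c1 - c2) := by rw [← pow_add]; congr 1; omega
    have e2 : l ≤ l ^ (c1 - c2) := le_self_pow₀ hl1 (by omega)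
    have e3 : l ^ c2 * 2 ≤ l ^ c2 * l ^ (c1 - c2) := mul_le_mul_of_nonneg_left (by linarith) (by positivity)
    rw [e1]
    linarith
  have hqP : q ≤ P := by
    have e1 : (q : ℝ) ≤ P := hqZ.trans (hqc.trans hB.hP1)
    exact_mod_cast e1
  have hR1 : (Z : ℝ) ^ (1 / 4 : ℝ) ≤ R := by
    refine le_trans ?_ hRZ
    exact Real.rpow_le_rpow_of_exponent_le (by linarith [show (1 : ℝ) ≤ 2 ^ 20 by norm_num]) (by norm_num)
  have hR2 : (32 : ℝ) ≤ R := by
    have e3 : ((2 : ℝ) ^ 20) ^ (1 / 4 : ℝ) ≤ (Z : ℝ) ^ (1 / 4 : ℝ) := Real.rpow_le_rpow (by positivity) hZ1 (by norm_num)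
    have e4 : ((2 : ℝ) ^ 20) ^ (1 / 4 : ℝ) = 32 := by
      rw [← Real.rpow_natCast, ← Real.rpow_mul (by norm_num)]
      norm_num
    linarith
  have hR3 : 3 ≤ R := by
    have : (3 : ℝ) ≤ R := by linarith
    exact_mod_cast this
  have hR0 : (0 : ℝ) < R := by linarith
  have hlR : l / 4 ≤ Real.log R := by
    have e1 := Real.log_le_log (by positivity) hR1
    rw [Real.log_rpow hZpos] at e1
    linarith
  have hPMR : P * M * R ≤ Z := by
    have e2 := hB.hR1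
    omega
  set lg : ℝ := Real.log (2 * R : ℕ) with hlg
  have hlg1 : 1 ≤ lg := by
    rw [hlg, Real.le_log_iff_exp_le (by positivity)]
    have h2 := Real.exp_one_lt_d9
    push_cast
    linarith
  have hmem : ∀ p ∈ S, P < p ∧ p ≤ 2 * P ∧ p.Prime := by
    intro p hp
    have h1 := hB.hS hp
    unfold pr at h1
    rw [mem_filter, mem_Ioc] at h1
    exact ⟨h1.1.1, h1.1.2, h1.2⟩
  -- the two sums
  have f1 : bq (bC S a R M) Z ((b : ℝ) / q) j = ∑ p ∈ S, ∑ m ∈ Ico M (2 * M),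
      (((a m : ℝ) : ℂ) * cj j p * cj j m * ((1 / lg : ℝ) : ℂ)) *
        ∑ r ∈ pr R, ((lp r : ℝ) : ℂ) * (e (r * (((-(p * m * b : ℕ) : ℤ) : ℝ) / q)) * cj j r) := by
    unfold bq
    have e1 := bs_sum_mul (a := a) (S := S) (P := P) (R := R) (M := M) (X := Z) hB.hS hM1 hB.hR1
      (fun n => e (-(n * ((b : ℝ) / q))) * cj j n)
    have e2 : ∑ n ∈ Icc 1 Z, bC S a R M n * e (-(n * ((b : ℝ) / q))) * cj j n =
        ∑ n ∈ Icc 1 Z, bC S a R M n * (e (-(n * ((b : ℝ) / q))) * cj j n) := by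
      refine sum_congr rfl fun n _ => ?_
      ring
    rw [e2, e1]
    refine sum_congr rfl fun p hp => ?_
    rw [sum_comm]
    refine sum_congr rfl fun m hm => ?_
    rw [mul_sum]
    refine sum_congr rfl fun r hr => ?_
    unfold pr at hr
    rw [mem_filter, mem_Ioc] at hr
    rw [mem_Ico] at hm
    have hp0 : p ≠ 0 := (hmem p hp).2.2.ne_zero
    have hr0 : r ≠ 0 := hr.2.ne_zero
    have hm0 : m ≠ 0 := by omega
    rw [cj_mul j (Nat.mul_ne_zero hp0 hm0) hr0, cj_mul j hp0 hm0]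
    have e3 : e (-(((p * m * r : ℕ) : ℝ) * ((b : ℝ) / q))) = e (r * (((-(p * m * b : ℕ) : ℤ) : ℝ) / q)) := by
      congr 1
      push_cast
      ring
    rw [e3, ← hlg, div_eq_mul_one_div (lp r) lg, Complex.ofReal_mul, Complex.ofReal_mul]
    ring
  have f2 : bq (bC S a R M) Z 0 j = ∑ p ∈ S, ∑ m ∈ Ico M (2 * M),
      (((a m : ℝ) : ℂ) * cj j p * cj j m * ((1 / lg : ℝ) : ℂ)) * ∑ r ∈ pr R, ((lp r : ℝ) : ℂ) * cj j r := by
    unfold bq
    have e1 := bs_sum_mul (a := a) (S := S) (P := P) (R := R) (M := M) (X := Z) hB.hS hM1 hB.hR1 (fun n => cj j n)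
    have e2 : ∑ n ∈ Icc 1 Z, bC S a R M n * e (-(n * 0)) * cj j n = ∑ n ∈ Icc 1 Z, bC S a R M n * cj j n := by
      refine sum_congr rfl fun n _ => ?_
      have e0 : e (-((n : ℝ) * 0)) = 1 := by
        unfold e
        simp
      rw [e0, mul_one]
    rw [e2, e1]
    refine sum_congr rfl fun p hp => ?_
    rw [sum_comm]
    refine sum_congr rfl fun m hm => ?_
    rw [mul_sum]
    refine sum_congr rfl fun r hr => ?_
    unfold pr at hr
    rw [mem_filter, mem_Ioc] at hr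
    rw [mem_Ico] at hm
    have hp0 : p ≠ 0 := (hmem p hp).2.2.ne_zero
    have hr0 : r ≠ 0 := hr.2.ne_zero
    have hm0 : m ≠ 0 := by omega
    rw [cj_mul j (Nat.mul_ne_zero hp0 hm0) hr0, cj_mul j hp0 hm0, ← hlg, div_eq_mul_one_div (lp r) lg, Complex.ofReal_mul,
      Complex.ofReal_mul]
    ring
  set w : ℂ := ((ArithmeticFunction.moebius q : ℤ) : ℂ) / (q.totient : ℂ) with hw
  have f3 : bq (bC S a R M) Z ((b : ℝ) / q) j - w * bq (bC S a R M) Z 0 j = ∑ p ∈ S, ∑ m ∈ Ico M (2 * M),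
      (((a m : ℝ) : ℂ) * cj j p * cj j m * ((1 / lg : ℝ) : ℂ)) *
        (∑ r ∈ pr R, ((lp r : ℝ) : ℂ) * (e (r * (((-(p * m * b : ℕ) : ℤ) : ℝ) / q)) * cj j r) -
        w * ∑ r ∈ pr R, ((lp r : ℝ) : ℂ) * cj j r) := by
    rw [f1, f2, mul_sum, ← sum_sub_distrib]
    refine sum_congr rfl fun p _ => ?_
    rw [mul_sum, ← sum_sub_distrib]
    refine sum_congr rfl fun m _ => ?_
    ring
  have f4 : ∀ p ∈ S, ∀ m ∈ Ico M (2 * M),
      ‖(((a m : ℝ) : ℂ) * cj j p * cj j m * ((1 / lg : ℝ) : ℂ)) *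
        (∑ r ∈ pr R, ((lp r : ℝ) : ℂ) * (e (r * (((-(p * m * b : ℕ) : ℤ) : ℝ) / q)) * cj j r) -
        w * ∑ r ∈ pr R, ((lp r : ℝ) : ℂ) * cj j r)‖ ≤
        C * (q : ℝ) ^ 2 * R * (|(j : ℝ)| + 2) / (Real.log R) ^ k := by
    intro p hp m hm
    by_cases hm0 : a m = 0
    · rw [hm0, Complex.ofReal_zero, zero_mul, zero_mul, zero_mul, zero_mul, norm_zero]
      have : 0 < Real.log R := by linarith
      positivity
    · obtain ⟨g1, -, g3⟩ := hmem p hp
      have e1 : Nat.Coprime p q := by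
        rw [Nat.Prime.coprime_iff_not_dvd g3]
        intro h1
        have := Nat.le_of_dvd (by omega) h1
        omega
      have e2 : Nat.Coprime m q := by
        by_contra h1
        obtain ⟨l', hl', hlm, hlq⟩ := Nat.Prime.not_coprime_iff_dvd.1 h1
        have h2 := hB.ham m hm0 l' hl' hlm
        have h3 := Nat.le_of_dvd (by omega) hlq
        have h4 : (l' : ℝ) ≤ q := by exact_mod_cast h3
        linarith
      have e3 : IsCoprime (-(p * m * b : ℕ) : ℤ) (q : ℤ) := by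
        apply IsCoprime.neg_left
        rw [Nat.isCoprime_iff_coprime]
        exact (Nat.Coprime.mul_left e1 e2).mul_left hqb.symm
      have e4 := h q R (2 * R) (-(p * m * b : ℕ) : ℤ) j hq e3 hR3 (by omega) le_rfl
      rw [norm_mul]
      have e5 : ‖((a m : ℝ) : ℂ) * cj j p * cj j m * ((1 / lg : ℝ) : ℂ)‖ ≤ 1 := by
        rw [norm_mul, norm_mul, norm_mul, norm_cj, norm_cj, mul_one, mul_one, Complex.norm_real, Complex.norm_real,
          Real.norm_eq_abs, Real.norm_eq_abs, abs_of_nonneg (a := 1 / lg) (by positivity)]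
        have e6 : 1 / lg ≤ 1 := by
          rw [div_le_one (by linarith)]
          exact hlg1
        calc |a m| * (1 / lg) ≤ 1 * 1 := mul_le_mul (hB.ha m) e6 (by positivity) (by norm_num)
          _ = 1 := by norm_num
      calc ‖((a m : ℝ) : ℂ) * cj j p * cj j m * ((1 / lg : ℝ) : ℂ)‖ * _ ≤
            1 * (C * (q : ℝ) ^ 2 * R * (|(j : ℝ)| + 2) / (Real.log R) ^ k) :=
            mul_le_mul e5 e4 (norm_nonneg _) zero_le_one
        _ = _ := one_mul _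
  have f5 : ‖bq (bC S a R M) Z ((b : ℝ) / q) j - w * bq (bC S a R M) Z 0 j‖ ≤
      (P : ℝ) * (M * (C * (q : ℝ) ^ 2 * R * (|(j : ℝ)| + 2) / (Real.log R) ^ k)) := by
    rw [f3]
    have hlogR : 0 < Real.log R := by linarith
    have g0 : 0 ≤ C * (q : ℝ) ^ 2 * R * (|(j : ℝ)| + 2) / (Real.log R) ^ k := by positivity
    refine (norm_sum_le _ _).trans ?_
    have g1 : ∀ p ∈ S, ‖∑ m ∈ Ico M (2 * M),
      (((a m : ℝ) : ℂ) * cj j p * cj j m * ((1 / lg : ℝ) : ℂ)) *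
        (∑ r ∈ pr R, ((lp r : ℝ) : ℂ) * (e (r * (((-(p * m * b : ℕ) : ℤ) : ℝ) / q)) * cj j r) -
        w * ∑ r ∈ pr R, ((lp r : ℝ) : ℂ) * cj j r)‖ ≤
        M * (C * (q : ℝ) ^ 2 * R * (|(j : ℝ)| + 2) / (Real.log R) ^ k) := by
      intro p hp
      refine (norm_sum_le _ _).trans ((sum_le_sum (f4 p hp)).trans ?_)
      rw [sum_const, Nat.card_Ico, nsmul_eq_mul]
      have : 2 * M - M = M := by omega
      rw [this]
    refine (sum_le_sum g1).trans ?_
    rw [sum_const, nsmul_eq_mul]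
    refine mul_le_mul_of_nonneg_right ?_ (by positivity)
    have g2 : S.card ≤ P := by
      refine (card_le_card hB.hS).trans ?_
      unfold pr
      refine (card_filter_le _ _).trans ?_
      rw [Nat.card_Ioc]
      omega
    exact_mod_cast g2
  refine f5.trans ?_
  have g1 : (l / 4) ^ k ≤ (Real.log R) ^ k := pow_le_pow_left₀ (by linarith) hlR k
  have g2 : (P : ℝ) * (M * R) ≤ Z := by
    have : P * (M * R) ≤ Z := by
      have e1 : P * M * R = P * (M * R) := by ring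
      omega
    exact_mod_cast this
  have g3 : (q : ℝ) ^ 2 ≤ l ^ (2 * c2) := by
    rw [mul_comm, pow_mul]
    exact pow_le_pow_left₀ (by positivity) hqZ 2
  have g4 : |(j : ℝ)| + 2 ≤ 3 * l ^ c5 := by
    have := one_le_pow₀ hl1 (n := c5)
    linarith
  calc (P : ℝ) * (M * (C * (q : ℝ) ^ 2 * R * (|(j : ℝ)| + 2) / (Real.log R) ^ k))
      = (P : ℝ) * (M * R) * (C * (q : ℝ) ^ 2 * (|(j : ℝ)| + 2)) / (Real.log R) ^ k := by ring
    _ ≤ Z * (C * l ^ (2 * c2) * (3 * l ^ c5)) / (l / 4) ^ k := by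
        apply div_le_div₀ (by positivity) _ (by positivity) g1
        gcongr
    _ = Z * ((3 * C * 4 ^ k) * l ^ (2 * c2 + c5)) / l ^ k := by
        have e1 : l ^ (2 * c2 + c5) = l ^ (2 * c2) * l ^ c5 := pow_add _ _ _
        rw [div_pow, e1]
        field_simp
    _ ≤ Z * (l * l ^ (2 * c2 + c5)) / l ^ k := by gcongr
    _ = Z / l ^ K := by
        have e1 : l ^ k = l ^ K * (l * l ^ (2 * c2 + c5)) := by
          rw [hk]
          ring
        rw [e1]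
        have e2 : l * l ^ (2 * c2 + c5) ≠ 0 := by positivity
        have e3 : l ^ K ≠ 0 := by positivity
        field_simp

end Pool.Agent.Lib.VKT
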