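import Pool.Agent.Lib.VK.SDef
import Pool.Agent.Lib.G3.Cnt5

/-!
# VK / SCu (block board): few `j` with `|∑_{p ∈ S} χ(p) p^(-ij)| > P^(1-1/500)`

PROOF. Copy of `G3.cnt5` (G3/Cnt5.lean) with `S ⊆ pr P` in the place of `pi5 P P'` (`MRT.cntj` is for any set of primes of the
interval; the proof of cnt5 uses only `pi5 P P' ⊆ pr P`).
-/

set_option autoImplicit false

open Finset

namespace Pool.Agent.Lib.VKT

open Pool.Agent.Lib.MRT (cj)
open Pool.Agent.Lib.G3 (pr)

private theorem cuS_card {P : ℕ} (hP : (23 : ℝ) ≤ Real.log P) : ((pr P).card : ℝ) ≤ P / 8 := by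
  have hP0 : (0 : ℝ) < P := by
    rcases Nat.eq_zero_or_pos P with h | h
    · subst h
      norm_num at hP
    · exact_mod_cast h
  have h1 : ((pr P).card : ℝ) * Real.log P ≤ ∑ p ∈ pr P, Real.log p := by
    rw [← nsmul_eq_mul]
    refine Finset.card_nsmul_le_sum _ _ _ fun p hp => ?_
    simp only [pr, mem_filter, mem_Ioc] at hp
    exact Real.log_le_log hP0 (by exact_mod_cast hp.1.1.le)
  have h2 : ∑ p ∈ pr P, Real.log p ≤ Chebyshev.theta (2 * P) := by
    unfold Chebyshev.theta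
    refine Finset.sum_le_sum_of_subset_of_nonneg ?_ ?_
    · intro p hp
      simp only [pr, mem_filter, mem_Ioc] at hp ⊢
      refine ⟨⟨by omega, ?_⟩, hp.2⟩
      apply Nat.le_floor
      exact_mod_cast hp.1.2
    · intro p hp _
      exact Real.log_natCast_nonneg p
  have h3 := Chebyshev.theta_le_log4_mul_x (x := 2 * (P : ℝ)) (by positivity)
  have h4 : Real.log 4 ≤ 1.3864 := by
    have : Real.log 4 = 2 * Real.log 2 := by
      rw [show (4 : ℝ) = 2 ^ 2 by norm_num, Real.log_pow]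
      norm_num
    rw [this]
    have := Real.log_two_lt_d9
    linarith
  have h5 : ((pr P).card : ℝ) * 23 ≤ ((pr P).card : ℝ) * Real.log P := by gcongr
  have h6 : Real.log 4 * (2 * (P : ℝ)) ≤ 1.3864 * (2 * P) := by gcongr
  linarith

theorem cuS (cP : ℕ) : ∃ x0 : ℝ, ∀ X : ℕ, x0 ≤ X → ∀ (P : ℕ) (S : Finset ℕ), (Real.log X) ^ 400 ≤ P →
    (P : ℝ) ≤ (Real.log X) ^ cP → S ⊆ pr P → ∀ (T q : ℕ) (χ : DirichletCharacter ℂ q), T ≤ X →
    ∀ U : Finset ℤ, (∀ j ∈ U, |(j : ℝ)| ≤ T ∧ (P : ℝ) ^ (1 - 1 / 500 : ℝ) < ‖∑ p ∈ S, χ (p : ZMod q) * cj j p‖) →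
      (U.card : ℝ) ≤ (X : ℝ) ^ (1 / 100 : ℝ) := by
  classical
  obtain ⟨c1, hc⟩ : ∃ c1 : ℕ, c1 = cP + 400 := ⟨_, rfl⟩
  have hc1 : (400 : ℝ) ≤ c1 := by
    rw [hc]
    push_cast
    have : (0 : ℝ) ≤ cP := Nat.cast_nonneg _
    linarith
  have hev := Real.isLittleO_log_id_atTop.def (c := 1 / (1000 * (c1 + 1))) (by positivity)
  obtain ⟨L0, hL0⟩ := (hev.and (Filter.eventually_ge_atTop (10 ^ 6 : ℝ))).exists_forall_of_atTop
  refine ⟨Real.exp (max L0 (Real.exp 4)), fun X hX P S hPlo hPhi hS T q χ hT U hU => ?_⟩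
  have hX0 : (0 : ℝ) < X := lt_of_lt_of_le (Real.exp_pos _) hX
  set L := Real.log X with hL
  have hLm : max L0 (Real.exp 4) ≤ L := by
    rw [hL, Real.le_log_iff_exp_le hX0]
    exact hX
  have hLL0 : L0 ≤ L := (le_max_left _ _).trans hLm
  have hLe : Real.exp 4 ≤ L := (le_max_right _ _).trans hLm
  obtain ⟨h1, h2⟩ := hL0 L hLL0
  have hLpos : 0 < L := lt_of_lt_of_le (Real.exp_pos _) hLe
  set LL := Real.log L with hLLd
  have hLL4 : 4 ≤ LL := by
    rw [hLLd, Real.le_log_iff_exp_le hLpos]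
    exact hLe
  have h1' : LL ≤ 1 / (1000 * (c1 + 1)) * L := by
    have := h1
    simp only [id, Real.norm_eq_abs] at this
    rw [abs_of_pos hLpos, abs_of_nonneg (by linarith)] at this
    exact this
  have h1'' : (c1 : ℝ) * LL ≤ L / 1000 := by
    have h3 : (c1 : ℝ) * LL ≤ (c1 + 1) * LL := by nlinarith
    have h4 : ((c1 : ℝ) + 1) * LL ≤ (c1 + 1) * (1 / (1000 * (c1 + 1)) * L) := by gcongr
    have h5 : ((c1 : ℝ) + 1) * (1 / (1000 * (c1 + 1)) * L) = L / 1000 := by
      field_simp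
    linarith
  have hLL2 : LL ≤ L / 400000 := by nlinarith
  have hL1 : 1 ≤ L := by linarith
  have hLp1 : (1 : ℝ) ≤ L ^ 400 := one_le_pow₀ hL1
  have hPle : (P : ℝ) ≤ L ^ c1 := by
    refine hPhi.trans ?_
    rw [hc]
    exact pow_le_pow_right₀ hL1 (by omega)
  have hPge : L ^ 400 ≤ P := hPlo
  have hP0 : (0 : ℝ) < P := by linarith [hPge, hLp1]
  have hP1 : 1 ≤ P := by exact_mod_cast hP0
  have hlog2 : Real.log 2 < 0.7 := by
    have := Real.log_two_lt_d9
    linarith
  have hlog20 : 0 < Real.log 2 := Real.log_pos (by norm_num)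
  -- Z = 2P
  set Z : ℝ := 2 * P with hZ
  have hZ0 : 0 < Z := by positivity
  have hlogPge : 400 * LL ≤ Real.log P := by
    have h4 := Real.log_le_log (by positivity) hPge
    rw [Real.log_pow] at h4
    exact_mod_cast h4
  have hlogZ : 400 * LL ≤ Real.log Z := by
    have h3 : (P : ℝ) ≤ Z := by linarith
    have h4 := Real.log_le_log hP0 h3
    linarith
  have hlogZ' : Real.log Z ≤ Real.log 2 + c1 * LL := by
    rw [hZ, Real.log_mul (by norm_num) hP0.ne']
    have h4 := Real.log_le_log hP0 hPle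
    rw [Real.log_pow] at h4
    linarith
  have hlogP : Real.log P = Real.log Z - Real.log 2 := by
    rw [hZ, Real.log_mul (by norm_num) hP0.ne']
    ring
  have hP23 : (23 : ℝ) ≤ Real.log P := by
    linarith
  have hP7 : 7 ≤ P := by
    have h3 : Real.exp 23 ≤ P := by
      rwa [Real.le_log_iff_exp_le hP0] at hP23
    have h4 : (23 : ℝ) + 1 ≤ Real.exp 23 := Real.add_one_le_exp _
    have : (7 : ℝ) ≤ P := by linarith
    exact_mod_cast this
  have hcard0 := cuS_card hP23
  have hmem : ∀ p ∈ S, (P < p ∧ p ≤ 2 * P) ∧ p.Prime := by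
    intro p hp
    have h := hS hp
    simp only [pr, mem_filter, mem_Ioc] at h
    exact h
  have hcard : (S.card : ℝ) ≤ P / 8 := by
    have : (S.card : ℝ) ≤ (pr P).card := by exact_mod_cast card_le_card hS
    linarith
  have hlogZpos : 0 < Real.log Z := by nlinarith
  set l := ⌈L / Real.log Z⌉₊ with hl
  have hl1 : L / Real.log Z ≤ l := Nat.le_ceil _
  have hl2 : (l : ℝ) < L / Real.log Z + 1 := Nat.ceil_lt_add_one (by positivity)
  have hl1' : L ≤ l * Real.log Z := by
    rwa [div_le_iff₀ hlogZpos] at hl1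
  have hl2' : (l : ℝ) * Real.log Z ≤ L + Real.log Z := by
    have : (l : ℝ) * Real.log Z ≤ (L / Real.log Z + 1) * Real.log Z := by gcongr
    rw [add_mul, div_mul_cancel₀ _ hlogZpos.ne', one_mul] at this
    exact this
  have hlL : (l : ℝ) ≤ L := by
    have h3 : L / Real.log Z ≤ L / 1600 := by
      gcongr
      nlinarith
    linarith
  have hXZ : (X : ℝ) ≤ Z ^ l := by
    have : L ≤ Real.log (Z ^ l) := by
      rw [Real.log_pow]
      exact hl1'
    rw [hL, Real.log_le_log_iff hX0 (by positivity)] at this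
    exact this
  have hX1 : (1 : ℝ) ≤ X := by
    have : Real.exp 0 ≤ X := by
      refine le_trans ?_ hX
      apply Real.exp_le_exp.mpr
      exact le_trans (Real.exp_pos 4).le (le_max_right _ _)
    simpa using this
  have hmain := Pool.Agent.Lib.MRT.cntj (P := S) (Z := Z) (W := P) (by
      intro p hp
      obtain ⟨⟨h1, h2⟩, h3⟩ := hmem p hp
      refine ⟨h3, by omega, ?_⟩
      rw [hZ]
      exact_mod_cast h2) (by
      intro p hp
      have := (hmem p hp).1.1
      omega) hP1 (le_refl _) (by rw [hZ]; linarith) (by rw [hZ]; linarith) (by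
      calc ∑ p ∈ S, (1 : ℝ) / p ≤ ∑ p ∈ S, (1 : ℝ) / P := by
            refine Finset.sum_le_sum fun p hp => ?_
            have : (P : ℝ) ≤ p := by exact_mod_cast (hmem p hp).1.1.le
            gcongr
        _ = S.card / P := by rw [Finset.sum_const, nsmul_eq_mul]; ring
        _ ≤ (P / 8) / P := by gcongr
        _ = 1 / 8 := by field_simp) (a := fun n => χ (n : ZMod q)) (fun n => DirichletCharacter.norm_le_one χ _)
      (T := X) hX1 (l := l) hXZ (τ := (P : ℝ) ^ (1 - 1 / 500 : ℝ)) (by positivity) U (by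
      intro j hj
      refine (hU j hj).1.trans ?_
      exact_mod_cast hT) (fun j hj => (hU j hj).2.le)
  -- solve
  have hτ : 0 < (P : ℝ) ^ (1 - 1 / 500 : ℝ) := by positivity
  have hτl : 0 < ((P : ℝ) ^ (1 - 1 / 500 : ℝ)) ^ (2 * l) := by positivity
  have hU2 : (U.card : ℝ) ≤ 800 * (2 + l) * (l : ℝ) ^ l * Z ^ (2 * l) / ((P : ℝ) ^ (1 - 1 / 500 : ℝ)) ^ (2 * l) := by
    rw [le_div_iff₀ hτl]
    exact hmain
  rcases Nat.eq_zero_or_pos U.card with hU0 | hU0
  · rw [hU0]
    push_cast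
    positivity
  have hUpos : (0 : ℝ) < U.card := by exact_mod_cast hU0
  have hlpos : (0 : ℝ) < l := by
    have : 0 < L / Real.log Z := by positivity
    linarith
  rw [← Real.log_le_log_iff hUpos (by positivity), Real.log_rpow hX0]
  refine (Real.log_le_log hUpos hU2).trans ?_
  rw [Real.log_div (by positivity) hτl.ne', Real.log_mul (by positivity) (by positivity),
    Real.log_mul (by positivity) (by positivity), Real.log_mul (by norm_num) (by positivity),
    Real.log_pow, Real.log_pow, Real.log_pow, Real.log_rpow hP0, hlogP]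
  push_cast
  have e1 : Real.log 800 ≤ 10 := by
    rw [Real.log_le_iff_le_exp (by norm_num)]
    have h5 : (2.7 : ℝ) ^ 10 ≤ Real.exp 1 ^ 10 := by
      gcongr
      have := Real.exp_one_gt_d9
      linarith
    rw [← Real.exp_nat_mul] at h5
    norm_num at h5 ⊢
    linarith
  have e2 : Real.log (2 + l) ≤ 1 + LL := by
    have h5 : (2 : ℝ) + l ≤ 2 * L := by linarith
    have h6 := Real.log_le_log (by positivity) h5
    rw [Real.log_mul (by norm_num) hLpos.ne'] at h6
    linarith
  have e3 : (l : ℝ) * Real.log l ≤ L / 400 + LL := by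
    have h5 : Real.log l ≤ LL := Real.log_le_log hlpos hlL
    have h6 : (l : ℝ) * Real.log l ≤ l * LL := by gcongr
    have h7 : (l : ℝ) * LL ≤ (L / Real.log Z + 1) * LL := by gcongr
    have h8 : L / Real.log Z * LL ≤ L / 400 := by
      rw [div_mul_eq_mul_div, div_le_div_iff₀ hlogZpos (by norm_num)]
      have : 400 * LL ≤ Real.log Z := by nlinarith
      nlinarith
    linarith
  have e4 : (l : ℝ) * Real.log 2 ≤ L / 1600 := by
    have h3 : L / Real.log Z ≤ L / 1600 := by
      gcongr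
      nlinarith
    have h4 : (l : ℝ) ≤ L / 1600 + 1 := by linarith
    nlinarith
  have e5 : (2 * (l : ℝ)) * Real.log Z - 2 * l * ((1 - 1 / 500) * (Real.log Z - Real.log 2)) =
      (l * Real.log Z) / 250 + 2 * (1 - 1 / 500) * (l * Real.log 2) := by ring
  rw [show (Real.log 800 + Real.log (2 + (l : ℝ)) + l * Real.log l + 2 * l * Real.log Z -
    2 * l * ((1 - 1 / 500) * (Real.log Z - Real.log 2))) = Real.log 800 + Real.log (2 + (l : ℝ)) + l * Real.log l +
    ((2 * (l : ℝ)) * Real.log Z - 2 * l * ((1 - 1 / 500) * (Real.log Z - Real.log 2))) by ring, e5]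
  nlinarith


end Pool.Agent.Lib.VKT
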