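import Pool.Agent.Lib.VK.SDef

/-!
# VK / SPar (block board): sizes of the parameters of a block

PROOF. As `tmr_par` (VK/TMr.lean) or `G3.parm` (G3/ParM4.lean): `P M ≤ 2 (log Z)^(cP + cM) ≤ Z^(1/100)/1000` for large `Z`, so
`R ≥ Z/(256 P M) ≥ 3 Z^(99/100)`; `2 P M ≤ R`, `(log Z)^c1 ≤ 2 P`. `(log Z)^c1/2 > 0`, so `1 ≤ P`. `log Z ≥ 1`.
-/

set_option autoImplicit false

open Finset

namespace Pool.Agent.Lib.VKT

theorem parS (c1 cP cM : ℕ) : ∃ x0 : ℝ, 100 ≤ x0 ∧ ∀ (Z P R M : ℕ) (S : Finset ℕ) (a : ℕ → ℝ), x0 ≤ Z → BlkZ Z P R M S a c1 cP cM →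
    1 ≤ P ∧ 2 * (P * M) ≤ R ∧ 2 * P ≤ R ∧ 2 * M ≤ R ∧ (Z : ℝ) ^ (99 / 100 : ℝ) ≤ R ∧ R ≤ Z ∧ (Real.log Z) ^ c1 ≤ R := by
  have h1 : ∀ᶠ x : ℝ in Filter.atTop, ‖(Real.log x) ^ ((cP + cM + c1 : ℕ) : ℝ)‖ ≤ 1 / 2000 * ‖x ^ (1 / 100 : ℝ)‖ :=
    (isLittleO_log_rpow_rpow_atTop ((cP + cM + c1 : ℕ) : ℝ) (by norm_num : (0 : ℝ) < 1 / 100)).def (by norm_num)
  obtain ⟨x1, hx1⟩ := Filter.eventually_atTop.1 h1
  refine ⟨max 100 x1, le_max_left _ _, ?_⟩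
  intro Z P R M S a hX hp
  have hX100 : (100 : ℝ) ≤ Z := le_trans (le_max_left _ _) hX
  have hXx1 : x1 ≤ (Z : ℝ) := le_trans (le_max_right _ _) hX
  have hX0 : (0 : ℝ) < Z := by linarith
  have hX1 : (1 : ℝ) ≤ Z := by linarith
  have hlog1 : (1 : ℝ) ≤ Real.log Z := by
    rw [Real.le_log_iff_exp_le hX0]
    have h4 := Real.exp_one_lt_d9
    linarith
  have hlog0 : (0 : ℝ) ≤ Real.log Z := by linarith
  have hM1 : 1 ≤ M := hp.hM1
  have hM1R : (1 : ℝ) ≤ M := by exact_mod_cast hM1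
  have hP1 := hp.hP1
  have hP2 := hp.hP2
  have hM2 := hp.hM2
  have hL1 : 1 ≤ (Real.log Z) ^ cP := one_le_pow₀ hlog1
  have hL1' : 1 ≤ (Real.log Z) ^ cM := one_le_pow₀ hlog1
  have hLc : 1 ≤ (Real.log Z) ^ c1 := one_le_pow₀ hlog1
  obtain ⟨L, hL⟩ : ∃ L : ℝ, L = (Real.log Z) ^ cP := ⟨_, rfl⟩
  obtain ⟨L', hL'⟩ : ∃ L' : ℝ, L' = (Real.log Z) ^ cM := ⟨_, rfl⟩
  obtain ⟨K, hK⟩ : ∃ K : ℝ, K = (Real.log Z) ^ c1 := ⟨_, rfl⟩
  obtain ⟨y, hy⟩ : ∃ y : ℝ, y = (Z : ℝ) ^ (99 / 100 : ℝ) := ⟨_, rfl⟩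
  obtain ⟨z, hz⟩ : ∃ z : ℝ, z = (Z : ℝ) ^ (1 / 100 : ℝ) := ⟨_, rfl⟩
  have hyz : y * z = Z := by
    rw [hy, hz, ← Real.rpow_add hX0]
    norm_num
  have hzy : z ≤ y := by
    rw [hy, hz]
    exact Real.rpow_le_rpow_of_exponent_le hX1 (by norm_num)
  have hy0 : 0 < y := by
    rw [hy]
    positivity
  have hWz : 2000 * (L * L' * K) ≤ z := by
    have h3 := hx1 Z hXx1
    rw [Real.rpow_natCast, Real.norm_of_nonneg (pow_nonneg hlog0 _), Real.norm_of_nonneg (by positivity), pow_add,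
      pow_add, ← hL, ← hL', ← hK, ← hz] at h3
    linarith
  rw [← hL] at hP2 hL1
  rw [← hL'] at hM2 hL1'
  rw [← hK] at hP1 hLc
  rw [← hy, ← hK]
  have hLL : 1 ≤ L * L' := one_le_mul_of_one_le_of_one_le hL1 hL1'
  have hW1 : L * L' ≤ L * L' * K := le_mul_of_one_le_right (by linarith) hLc
  have hW2 : K ≤ L * L' * K := le_mul_of_one_le_left (by linarith) hLL
  have hPpos : (0 : ℝ) < P := by linarith
  have hPN : 1 ≤ P := by
    have : 0 < P := by exact_mod_cast hPpos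
    exact this
  have hPMle : (P : ℝ) * M ≤ 2 * L * L' := mul_le_mul hP2 hM2 (by linarith) (by linarith)
  have hR0 : (0 : ℝ) ≤ R := Nat.cast_nonneg R
  have hltR : (Z : ℝ) ≤ 256 * (P * M * R) := by exact_mod_cast hp.hR2
  have h5 : (P : ℝ) * M * R ≤ 2 * L * L' * R := mul_le_mul_of_nonneg_right hPMle hR0
  have h6 : (L * L') * (2000 * y) ≤ (L * L') * (512 * (R : ℝ)) := by
    have h7 : 2000 * (L * L') * y ≤ z * y := mul_le_mul_of_nonneg_right (by linarith) hy0.le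
    have h8 : z * y = Z := by rw [mul_comm]; exact hyz
    have h9 : (L * L') * (2000 * y) = 2000 * (L * L') * y := by ring
    have h10 : (L * L') * (512 * (R : ℝ)) = 256 * (2 * L * L' * R) := by ring
    rw [h9, h10]
    linarith
  have hRy : 2000 * y ≤ 512 * (R : ℝ) := le_of_mul_le_mul_left h6 (by linarith)
  have hPMR : 2 * (P * M) ≤ R := by
    have h7 : (2 : ℝ) * (P * M) ≤ R := by
      have h8 : 4 * (L * L') ≤ z := by linarith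
      have h9 : (P : ℝ) * M ≤ 2 * (L * L') := by
        rw [← mul_assoc]
        exact hPMle
      linarith
    exact_mod_cast h7
  have hPM1 : P ≤ P * M := Nat.le_mul_of_pos_right _ (by omega)
  have hPM2 : M ≤ P * M := Nat.le_mul_of_pos_left _ (by omega)
  refine ⟨hPN, hPMR, by omega, by omega, by linarith, ?_, by linarith⟩
  have h8 := hp.hR1
  have h9 : R ≤ P * M * R := Nat.le_mul_of_pos_left _ (Nat.mul_pos (by omega) (by omega))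
  omega

end Pool.Agent.Lib.VKT
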