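import Pool.Agent.Lib.VK.Re
import Pool.Agent.Lib.VK.Ls

/-!
# Row St (about 90 lines): one step of the recursion

Q = ceil(P^(1/k)) (so Q^k >= P, Q <= 2 P^(1/k)), S = the k^3 primes of prs Q (k^3). Check: P >= 2^(8k^3) >= 16 k^4;
every p in S is > Q >= P^(1/k) >= 2^(8k^2) > k, so P <= p^k; prod_(p in S) p > Q^(k^3) >= P^(k^2) >= P^(k(k-1))
(`Finset.prod_lt_prod` or pow_card_le_prod; S is not empty); p <= 2^(k^3) Q <= 2^(k^3+1) P^(1/k) and this is <= P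
because P^(1-1/k) >= P^(1/2) >= 2^(4k^3). Then re and ls; take for p the member of S for which the bound of ls is largest
(`Finset.exists_max_image`), sum over S <= k^3 times it.
-/

set_option autoImplicit false

open Finset

namespace Pool.Agent.Lib.VK

theorem st (k s P : ℕ) (hk : 2 ≤ k) (hP : 2 ^ (8 * k ^ 3) ≤ P) :
    ∃ p : ℕ, 1 ≤ p ∧ p ≤ P ∧ (P : ℝ) ^ (1 / (k : ℝ)) ≤ p ∧ (p : ℝ) ≤ 2 ^ (k ^ 3 + 1) * (P : ℝ) ^ (1 / (k : ℝ)) ∧
      J (k + s) k P ≤ 2 * k ^ 3 *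
        (p ^ (2 * s) * (P ^ k * (k.factorial * p ^ (k * (k - 1) / 2)) * J s k (P / p + 1))) := by
  classical
  have hk0 : (0 : ℝ) < k := by
    have : 0 < k := by omega
    exact_mod_cast this
  have hP1 : 1 ≤ P := Nat.one_le_two_pow.trans hP
  set t : ℝ := (P : ℝ) ^ (1 / (k : ℝ)) with ht
  have ht0 : 0 ≤ t := by positivity
  have htk : t ^ k = P := by
    rw [ht, ← Real.rpow_natCast, ← Real.rpow_mul (by positivity), one_div,
      inv_mul_cancel₀ hk0.ne', Real.rpow_one]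
  have ht2 : (2 : ℝ) ^ (8 * k ^ 2) ≤ t := by
    by_contra h
    push Not at h
    have h1 : t ^ k < ((2 : ℝ) ^ (8 * k ^ 2)) ^ k := pow_lt_pow_left₀ h ht0 (by omega)
    rw [← pow_mul, htk] at h1
    have h2 : 8 * k ^ 2 * k = 8 * k ^ 3 := by ring
    rw [h2] at h1
    have h3 : ((2 : ℝ)) ^ (8 * k ^ 3) ≤ P := by exact_mod_cast hP
    linarith
  have ht1 : 1 ≤ t := le_trans (one_le_pow₀ (by norm_num)) ht2
  set Q : ℕ := ⌈t⌉₊ with hQ
  have hQt : t ≤ Q := Nat.le_ceil _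
  have hQ2 : (Q : ℝ) ≤ 2 * t := by
    have := Nat.ceil_lt_add_one ht0
    linarith
  have hQ1 : 1 ≤ Q := by
    have : (1 : ℝ) ≤ Q := ht1.trans hQt
    exact_mod_cast this
  have hQk : P ≤ Q ^ k := by
    have : (P : ℝ) ≤ (Q : ℝ) ^ k := by
      rw [← htk]
      exact pow_le_pow_left₀ ht0 hQt k
    exact_mod_cast this
  obtain ⟨S, hcard, hS⟩ := prs Q (k ^ 3) hQ1
  have hSne : S.Nonempty := by
    rw [← Finset.card_pos, hcard]
    positivity
  have h16 : 16 * k ^ 4 ≤ P := by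
    refine le_trans ?_ hP
    have h1 : k ≤ 2 ^ k := Nat.lt_two_pow_self.le
    calc 16 * k ^ 4 ≤ 2 ^ 4 * (2 ^ k) ^ 4 := Nat.mul_le_mul (by norm_num) (Nat.pow_le_pow_left h1 4)
      _ = 2 ^ (4 + k * 4) := by rw [← pow_mul, ← pow_add]
      _ ≤ 2 ^ (8 * k ^ 3) := by
        apply Nat.pow_le_pow_right (by norm_num)
        have h2 : 4 * k ≤ k ^ 3 := by nlinarith [sq_nonneg (k : ℤ)]
        nlinarith
  have hprod : P ^ (k * (k - 1)) < ∏ p ∈ S, p := by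
    have h1 : (Q + 1) ^ S.card ≤ ∏ p ∈ S, p :=
      Finset.pow_card_le_prod _ _ _ fun p hp => (hS p hp).2.1
    rw [hcard] at h1
    refine lt_of_lt_of_le ?_ h1
    calc P ^ (k * (k - 1)) ≤ P ^ (k * k) :=
          Nat.pow_le_pow_right hP1 (Nat.mul_le_mul_left _ (Nat.sub_le _ _))
      _ ≤ (Q ^ k) ^ (k * k) := Nat.pow_le_pow_left hQk _
      _ = Q ^ (k ^ 3) := by rw [← pow_mul]; congr 1; ring
      _ < (Q + 1) ^ (k ^ 3) := Nat.pow_lt_pow_left (Nat.lt_succ_self Q) (by positivity)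
  have hkp : ∀ p ∈ S, k < p := by
    intro p hp
    have h1 : (k : ℝ) < Q := by
      have h2 : (k : ℝ) < 2 ^ k := by exact_mod_cast (Nat.lt_two_pow_self : k < 2 ^ k)
      have h3 : (2 : ℝ) ^ k ≤ 2 ^ (8 * k ^ 2) := by
        apply pow_le_pow_right₀ (by norm_num)
        nlinarith
      linarith
    have h4 : k < Q := by exact_mod_cast h1
    exact h4.trans (hS p hp).2.1
  have hPp : ∀ p ∈ S, P ≤ p ^ k := fun p hp =>
    hQk.trans (Nat.pow_le_pow_left (hS p hp).2.1.le k)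
  have hre := re k s P hk h16 S (fun p hp => (hS p hp).1) hprod
  set B : ℕ → ℕ := fun p =>
    p ^ (2 * s) * (P ^ k * (k.factorial * p ^ (k * (k - 1) / 2)) * J s k (P / p + 1)) with hB
  obtain ⟨p, hpS, hmax⟩ := Finset.exists_max_image S B hSne
  have hp3 : (p : ℝ) ≤ 2 ^ (k ^ 3 + 1) * t := by
    have h1 : (p : ℝ) ≤ 2 ^ (k ^ 3) * (Q : ℝ) := by exact_mod_cast (hS p hpS).2.2
    calc (p : ℝ) ≤ 2 ^ (k ^ 3) * (Q : ℝ) := h1
      _ ≤ 2 ^ (k ^ 3) * (2 * t) := mul_le_mul_of_nonneg_left hQ2 (by positivity)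
      _ = 2 ^ (k ^ 3 + 1) * t := by ring
  refine ⟨p, (hS p hpS).1.one_lt.le, ?_, hQt.trans (by exact_mod_cast (hS p hpS).2.1.le), hp3, ?_⟩
  · have h1 : (p : ℝ) ≤ P := by
      refine hp3.trans ?_
      rw [← htk]
      obtain ⟨l, rfl⟩ : ∃ l, k = l + 2 := ⟨k - 2, by omega⟩
      have h2 : (2 : ℝ) ^ ((l + 2) ^ 3 + 1) ≤ t ^ (l + 1) := by
        calc (2 : ℝ) ^ ((l + 2) ^ 3 + 1) ≤ (2 : ℝ) ^ (8 * (l + 2) ^ 2 * (l + 1)) := by
              apply pow_le_pow_right₀ (by norm_num)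
              have e : 8 * (l + 2) ^ 2 * (l + 1) = (l + 2) ^ 3 + 1 + (7 * l ^ 3 + 34 * l ^ 2 +
                52 * l + 23) := by ring
              omega
          _ = ((2 : ℝ) ^ (8 * (l + 2) ^ 2)) ^ (l + 1) := by rw [← pow_mul]
          _ ≤ t ^ (l + 1) := pow_le_pow_left₀ (by positivity) ht2 _
      calc (2 : ℝ) ^ ((l + 2) ^ 3 + 1) * t ≤ t ^ (l + 1) * t := mul_le_mul_of_nonneg_right h2 ht0
        _ = t ^ (l + 2) := by ring
    exact_mod_cast h1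
  · calc J (k + s) k P ≤ 2 * ∑ p ∈ S, cnt (Dp k p P) (sp k) (Icc (1 : ℤ) P) (pw k) s := hre
      _ ≤ 2 * ∑ p ∈ S, B p := by
          refine Nat.mul_le_mul_left _ (Finset.sum_le_sum fun q hq => ?_)
          exact ls k s q P (hS q hq).1 (hkp q hq) (hPp q hq)
      _ ≤ 2 * (S.card * B p) := by
          refine Nat.mul_le_mul_left _ ?_
          have := Finset.sum_le_card_nsmul S B (B p) hmax
          simpa using this
      _ = 2 * k ^ 3 * B p := by rw [hcard]; ring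

end Pool.Agent.Lib.VK
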