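import Pool.Agent.Lib.VK.TDef
import Pool.Agent.Lib.G3.Ab

/-!
# VK / TPl (P4): the plateau of the model, parameters

`X = 32 Y`, `P = ⌊(log X)^c1⌋`, `R = Y / (2P)`.

PROOF. `plat`: for `2PR < n ≤ 8PR` and a prime `p ∈ (P, 2P]` exactly one `i < 3` has `p 2^i R < n ≤ 2 p 2^i R` (`pR ≤ 2PR < n`,
`n ≤ 8PR < 8pR`), and the factors `log(2 2^i R)` cancel (`R ≥ 1`, so the logarithm is not `0`): the sum is `(1/log X) ∑ 1/p`.
`par_ok`: `2PR ≤ Y`, `2PR > Y - 2P`; `16 P 4R ≤ 32 Y = X`; `300 P R ≥ 150 Y - 300 P ≥ 32 Y`; `8PR ≥ 4Y - 8P ≥ 2Y + N` for `N ≤ Y`,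
as `16 P ≤ Y` (`P ≤ (log X)^c1`). `dP_low`: `∑ 1/p ≥ card (pr P)/(2P)` and `card (pr P) ≥ P/(2 log P)` (G3: `pr_card` in Ab.lean).
`Mr_le`, `Fr_le`: every `rho P R n ≤ ∑ 1/p/log 2R ≤ 1` and `log(2 2^i R) ≤ log X`; at most one term in `Fr` is nonzero (`2P < R`: the
prime `p` is determined by `n`, `r = n/p`, the dyadic intervals are disjoint), `log r ≤ log X`. Supports: `n ≤ 2P·8R = 16 P R ≤ X`,
`n ≥ 1`.
-/

set_option autoImplicit false

open Finset

namespace Pool.Agent.Lib.VKT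

open Pool.Agent.Lib.G3 (pr)

private theorem pl_mem {P p : ℕ} : p ∈ pr P ↔ (P < p ∧ p ≤ 2 * P) ∧ p.Prime := by
  simp only [pr, mem_filter, mem_Ioc]

private theorem pl_log {R : ℕ} (hR : 1 ≤ R) (i : ℕ) : 0 < Real.log (2 * (2 ^ i * R) : ℕ) := by
  apply Real.log_pos
  have h1 : 1 ≤ 2 ^ i * R := Nat.one_le_iff_ne_zero.2 (by positivity)
  have h2 : 1 < 2 * (2 ^ i * R) := by omega
  exact_mod_cast h2

theorem plat {X P R Q n : ℕ} (hR : 1 ≤ R) (h1 : 2 * (P * R) < n) (h2 : n ≤ 8 * (P * R)) :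
    Mr X P R Q n = dP P / Real.log X * ram Q n := by
  unfold Mr
  congr 1
  have h3 : ∀ i ∈ range 3, Real.log (2 * (2 ^ i * R) : ℕ) / Real.log X * rho P (2 ^ i * R) n =
      (∑ p ∈ pr P, if p * (2 ^ i * R) < n ∧ n ≤ 2 * (p * (2 ^ i * R)) then 1 / (p : ℝ) else 0) / Real.log X := by
    intro i _
    unfold rho
    have h4 := (pl_log hR i).ne'
    field_simp
  rw [sum_congr rfl h3, ← sum_div, sum_comm]
  congr 1
  unfold dP
  refine sum_congr rfl fun p hp => ?_
  obtain ⟨⟨hp1, hp2⟩, hp3⟩ := pl_mem.1 hp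
  have h5 : p * R ≤ 2 * (P * R) := by nlinarith
  have h6 : P * R ≤ p * R := Nat.mul_le_mul_right _ hp1.le
  rw [sum_range_succ, sum_range_succ, sum_range_succ, sum_range_zero]
  have e0 : p * (2 ^ 0 * R) = p * R := by ring
  have e1 : p * (2 ^ 1 * R) = 2 * (p * R) := by ring
  have e2 : p * (2 ^ 2 * R) = 4 * (p * R) := by ring
  rw [e0, e1, e2]
  generalize p * R = a at *
  generalize P * R = b at *
  by_cases c1 : n ≤ 2 * a
  · rw [if_pos ⟨by omega, c1⟩, if_neg (by omega), if_neg (by omega)]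
    ring
  · by_cases c2 : n ≤ 4 * a
    · rw [if_neg (by omega), if_pos ⟨by omega, by omega⟩, if_neg (by omega)]
      ring
    · rw [if_neg (by omega), if_neg (by omega), if_pos ⟨by omega, by omega⟩]
      ring

private theorem pl_dP_le (P : ℕ) : dP P ≤ 1 := by
  unfold dP
  rcases Nat.eq_zero_or_pos P with h | h
  · subst h
    have : pr 0 = ∅ := by
      unfold pr
      simp
    rw [this, sum_empty]
    norm_num
  · have hP : (0 : ℝ) < P := by exact_mod_cast h
    have h1 : ∀ p ∈ pr P, 1 / (p : ℝ) ≤ 1 / (P : ℝ) := by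
      intro p hp
      have h2 := (pl_mem.1 hp).1.1
      exact one_div_le_one_div_of_le hP (by exact_mod_cast h2.le)
    refine (sum_le_card_nsmul _ _ _ h1).trans ?_
    have h3 : (pr P).card ≤ P := by
      refine (card_filter_le _ _).trans ?_
      rw [Nat.card_Ioc]
      omega
    rw [nsmul_eq_mul, mul_one_div, div_le_one hP]
    exact_mod_cast h3

private theorem pl_dP_card {P : ℕ} (hP : 1 ≤ P) : ((pr P).card : ℝ) / (2 * P) ≤ dP P := by
  have hP0 : (0 : ℝ) < P := by exact_mod_cast hP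
  unfold dP
  have h1 : ∀ p ∈ pr P, 1 / (2 * (P : ℝ)) ≤ 1 / (p : ℝ) := by
    intro p hp
    obtain ⟨⟨h2, h3⟩, h4⟩ := pl_mem.1 hp
    have h5 : (0 : ℝ) < p := by exact_mod_cast h4.pos
    exact one_div_le_one_div_of_le h5 (by exact_mod_cast h3)
  have h2 := card_nsmul_le_sum _ _ _ h1
  rw [nsmul_eq_mul] at h2
  refine le_trans (le_of_eq ?_) h2
  ring

private theorem pl_grow (c1 : ℕ) : ∃ x0 : ℝ, 100 ≤ x0 ∧ ∀ Y : ℕ, x0 ≤ Y →
    (Real.log (32 * Y : ℕ)) ^ c1 ≤ Real.sqrt Y / 100 ∧ Real.log (32 * Y : ℕ) ≤ (Real.log Y) ^ 2 ∧ 100 ≤ Real.log (Real.log Y) := by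
  have h := (isLittleO_log_rpow_rpow_atTop (s := 1 / 2) (c1 : ℝ) (by norm_num)).bound
    (c := 1 / 1000) (by norm_num)
  obtain ⟨x1, hx1⟩ := Filter.eventually_atTop.1 h
  have h2 : Filter.Tendsto (fun x : ℝ => Real.log (Real.log x)) Filter.atTop Filter.atTop :=
    Real.tendsto_log_atTop.comp Real.tendsto_log_atTop
  obtain ⟨x2, hx2⟩ := Filter.eventually_atTop.1 (h2.eventually_ge_atTop 100)
  obtain ⟨x3, hx3⟩ := Filter.eventually_atTop.1 (Real.tendsto_log_atTop.eventually_ge_atTop 10)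
  refine ⟨max (max x1 x2) (max x3 100), (le_max_right _ _).trans (le_max_right _ _), fun Y hY => ?_⟩
  have hY1 : x1 ≤ Y := ((le_max_left _ _).trans (le_max_left _ _)).trans hY
  have hY2 : x2 ≤ Y := ((le_max_right _ _).trans (le_max_left _ _)).trans hY
  have hY3 : x3 ≤ Y := ((le_max_left _ _).trans (le_max_right _ _)).trans hY
  have hY4 : (100 : ℝ) ≤ Y := ((le_max_right _ _).trans (le_max_right _ _)).trans hY
  have hY0 : (0 : ℝ) < Y := by linarith
  have hlY := hx3 Y hY3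
  have h32 : Real.log (32 * Y : ℕ) = Real.log 32 + Real.log Y := by
    push_cast
    rw [Real.log_mul (by norm_num) hY0.ne']
  have hl32 : Real.log 32 ≤ 4 := by
    have h1 : (32 : ℝ) = 2 ^ 5 := by norm_num
    rw [h1, Real.log_pow]
    have := Real.log_two_lt_d9
    push_cast
    linarith
  have hx32 : x1 ≤ ((32 * Y : ℕ) : ℝ) := by
    push_cast
    linarith
  refine ⟨?_, ?_, hx2 Y hY2⟩
  · have h5 := hx1 ((32 * Y : ℕ) : ℝ) hx32
    have hl : 0 ≤ Real.log (32 * Y : ℕ) := by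
      rw [h32]
      have : 0 ≤ Real.log 32 := Real.log_nonneg (by norm_num)
      linarith
    rw [Real.rpow_natCast, Real.norm_of_nonneg (by positivity), Real.norm_of_nonneg (by positivity),
      ← Real.sqrt_eq_rpow] at h5
    have h6 : Real.sqrt ((32 * Y : ℕ) : ℝ) ≤ 6 * Real.sqrt Y := by
      push_cast
      rw [Real.sqrt_mul (by norm_num)]
      have h7 : Real.sqrt 32 ≤ 6 := by
        rw [Real.sqrt_le_left (by norm_num)]
        norm_num
      gcongr
    have h8 : 0 ≤ Real.sqrt Y := Real.sqrt_nonneg _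
    linarith
  · rw [h32]
    nlinarith

theorem par_ok (c1 : ℕ) : ∃ x0 : ℝ, ∀ Y P R : ℕ, x0 ≤ Y → P = ⌊(Real.log (32 * Y : ℕ)) ^ c1⌋₊ → R = Y / (2 * P) →
    (∀ i < 3, ParW (32 * Y) P (2 ^ i * R) c1) ∧ 1 ≤ P ∧ 16 * P < R ∧ 2 * (P * R) ≤ Y ∧ 3 * Y ≤ 8 * (P * R) ∧
      1 / (8 * (c1 + 1) * Real.log (Real.log Y)) ≤ dP P ∧ dP P ≤ 1 := by
  obtain ⟨x1, hx1, hg⟩ := pl_grow c1
  obtain ⟨xc, hc⟩ := Pool.Agent.Lib.G3.pr_card
  obtain ⟨x2, -, hg2⟩ := pl_grow (c1 + 1)
  refine ⟨max (max x1 x2) (Real.exp (max 10 (max xc 1 + 1))), fun Y P R hY hP hR => ?_⟩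
  have hY1 : x1 ≤ Y := ((le_max_left _ _).trans (le_max_left _ _)).trans hY
  have hY2 : x2 ≤ Y := ((le_max_right _ _).trans (le_max_left _ _)).trans hY
  have hY3 : Real.exp (max 10 (max xc 1 + 1)) ≤ Y := (le_max_right _ _).trans hY
  obtain ⟨g1, g2, g3⟩ := hg Y hY1
  have hY100 : (100 : ℝ) ≤ Y := hx1.trans hY1
  have hY0 : (0 : ℝ) < Y := by linarith
  set l := Real.log (32 * Y : ℕ) with hl
  have hlY : max 10 (max xc 1 + 1) ≤ Real.log Y := by
    rw [Real.le_log_iff_exp_le hY0]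
    exact hY3
  have hlYl : Real.log Y ≤ l := by
    rw [hl]
    apply Real.log_le_log hY0
    push_cast
    linarith
  have hl10 : 10 ≤ l := ((le_max_left _ _).trans hlY).trans hlYl
  have hlc : max xc 1 + 1 ≤ l := ((le_max_right _ _).trans hlY).trans hlYl
  have hl1 : 1 ≤ l := by linarith
  have hpw : 1 ≤ l ^ c1 := one_le_pow₀ hl1
  have hP1 : 1 ≤ P := by
    rw [hP]
    exact Nat.le_floor (by simpa using hpw)
  have hPl : (P : ℝ) ≤ l ^ c1 := by
    rw [hP]
    exact Nat.floor_le (by positivity)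
  have hs0 : 0 ≤ Real.sqrt Y := Real.sqrt_nonneg _
  have hsq : Real.sqrt Y ^ 2 = Y := Real.sq_sqrt hY0.le
  have hs10 : 10 ≤ Real.sqrt Y := by
    rw [show (10 : ℝ) = Real.sqrt 100 by
      rw [show (100 : ℝ) = 10 ^ 2 by norm_num, Real.sqrt_sq (by norm_num)]]
    exact Real.sqrt_le_sqrt hY100
  have hPs : (P : ℝ) ≤ Real.sqrt Y / 100 := hPl.trans g1
  -- integer inequalities
  have hPP : 10000 * (P * P) ≤ Y := by
    have h1 : (10000 : ℝ) * (P * P) ≤ Y := by
      have hP0 : (0 : ℝ) ≤ P := Nat.cast_nonneg _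
      nlinarith
    exact_mod_cast h1
  have hmod := Nat.div_add_mod Y (2 * P)
  have hmod2 := Nat.mod_lt Y (show 0 < 2 * P by omega)
  have e1 : 2 * P * R = 2 * (P * R) := by ring
  rw [← hR, e1] at hmod
  have hPPle : P ≤ P * P := Nat.le_mul_self P
  have h2 : 2 * (P * R) ≤ Y := by omega
  have h3 : Y < 2 * (P * R) + 2 * P := by omega
  have hRP : 16 * P < R := by
    by_contra h
    push Not at h
    have h4 : P * R ≤ P * (16 * P) := Nat.mul_le_mul_left _ h
    have h5 : P * (16 * P) = 16 * (P * P) := by ring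
    rw [h5] at h4
    omega
  refine ⟨?_, hP1, hRP, h2, by omega, ?_, pl_dP_le P⟩
  · intro i hi
    have h6 : 2 ^ i ≤ 4 := by
      have : i ≤ 2 := by omega
      calc 2 ^ i ≤ 2 ^ 2 := Nat.pow_le_pow_right (by norm_num) this
        _ = 4 := by norm_num
    have h7 : 1 ≤ 2 ^ i := Nat.one_le_two_pow
    have e2 : P * (2 ^ i * R) = 2 ^ i * (P * R) := by ring
    refine ⟨hP, ?_, ?_, ?_⟩
    · rw [e2]
      have h8 : 2 ^ i * (P * R) ≤ 4 * (P * R) := Nat.mul_le_mul_right _ h6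
      omega
    · rw [e2]
      have h8 : 1 * (P * R) ≤ 2 ^ i * (P * R) := Nat.mul_le_mul_right _ h7
      omega
    · have h9 : P * (R + 1) ≤ (P + 1) * (2 ^ i * R + 1) := by
        refine Nat.mul_le_mul (Nat.le_succ P) ?_
        have : 1 * R ≤ 2 ^ i * R := Nat.mul_le_mul_right _ h7
        omega
      have h10 : P * (R + 1) = P * R + P := by ring
      omega
  · -- lower bound for dP
    have hll : 0 < Real.log (Real.log Y) := by linarith
    have hlogY1 : 1 ≤ Real.log Y := by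
      have := (le_max_left _ _).trans hlY
      linarith
    rcases Nat.eq_zero_or_pos c1 with h0 | h0
    · subst h0
      have hPe : P = 1 := by
        rw [hP]
        simp
      have h9 : dP P = 1 / 2 := by
        rw [hPe]
        unfold dP
        have : pr 1 = {2} := by
          unfold pr
          decide
        rw [this, sum_singleton]
        norm_num
      rw [h9]
      have h10 : 2 ≤ 8 * (((0 : ℕ) : ℝ) + 1) * Real.log (Real.log Y) := by
        push_cast
        linarith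
      exact one_div_le_one_div_of_le (by norm_num) h10
    · have hPc : xc ≤ P := by
        have h9 : l ≤ l ^ c1 := by
          calc l = l ^ 1 := (pow_one l).symm
            _ ≤ l ^ c1 := pow_le_pow_right₀ hl1 h0
        have h10 : l ^ c1 < (P : ℝ) + 1 := by
          rw [hP]
          exact Nat.lt_floor_add_one _
        have h11 : xc ≤ max xc 1 := le_max_left _ _
        linarith
      have hP3 : 3 ≤ P := by
        have h9 : l ≤ l ^ c1 := by
          calc l = l ^ 1 := (pow_one l).symm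
            _ ≤ l ^ c1 := pow_le_pow_right₀ hl1 h0
        rw [hP]
        apply Nat.le_floor
        push_cast
        linarith
      have hP3r : (3 : ℝ) ≤ P := by exact_mod_cast hP3
      have hlP : 0 < Real.log P := Real.log_pos (by linarith)
      have h12 := hc P hPc
      have h13 := pl_dP_card hP1
      have h14 : Real.log P ≤ 2 * c1 * Real.log (Real.log Y) := by
        calc Real.log P ≤ Real.log (l ^ c1) := Real.log_le_log (by linarith) hPl
          _ = c1 * Real.log l := by rw [Real.log_pow]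
          _ ≤ c1 * Real.log ((Real.log Y) ^ 2) := by
              have : Real.log l ≤ Real.log ((Real.log Y) ^ 2) := Real.log_le_log (by linarith) g2
              gcongr
          _ = 2 * c1 * Real.log (Real.log Y) := by
              rw [Real.log_pow]
              push_cast
              ring
      refine le_trans ?_ h13
      have hP0 : (0 : ℝ) < P := by linarith
      calc 1 / (8 * ((c1 : ℝ) + 1) * Real.log (Real.log Y)) ≤ 1 / (4 * Real.log P) := by
            apply one_div_le_one_div_of_le (by positivity)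
            nlinarith
        _ = (P : ℝ) / (2 * Real.log P) / (2 * P) := by
            field_simp
            ring
        _ ≤ ((pr P).card : ℝ) / (2 * P) := by gcongr

/-- one summand of `Fr` -/
private theorem pl_term {X P R : ℕ} (hPR : 16 * P < R) {n i p r j p' r' : ℕ} (hi : i ∈ range 3) (hj : j ∈ range 3)
    (hp : p ∈ pr P) (hp' : p' ∈ pr P) (hr : r ∈ pr (2 ^ i * R)) (hr' : r' ∈ pr (2 ^ j * R)) (h : p * r = n) (h' : p' * r' = n) :
    i = j ∧ p = p' ∧ r = r' := by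
  obtain ⟨⟨hp1, hp2⟩, hp3⟩ := pl_mem.1 hp
  obtain ⟨⟨hq1, hq2⟩, hq3⟩ := pl_mem.1 hp'
  obtain ⟨⟨hr1, hr2⟩, hr3⟩ := pl_mem.1 hr
  obtain ⟨⟨hs1, hs2⟩, hs3⟩ := pl_mem.1 hr'
  have h2i : 1 ≤ 2 ^ i := Nat.one_le_two_pow
  have h2j : 1 ≤ 2 ^ j := Nat.one_le_two_pow
  have hRr : R ≤ 2 ^ i * R := Nat.le_mul_of_pos_left _ (by positivity)
  have hRs : R ≤ 2 ^ j * R := Nat.le_mul_of_pos_left _ (by positivity)
  have h1 : p = p' := by
    have h2 : p ∣ p' * r' := by
      rw [h', ← h]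
      exact dvd_mul_right _ _
    rcases (Nat.Prime.dvd_mul hp3).1 h2 with h3 | h3
    · exact (Nat.prime_dvd_prime_iff_eq hp3 hq3).1 h3
    · have := (Nat.prime_dvd_prime_iff_eq hp3 hs3).1 h3
      omega
  subst h1
  have h4 : r = r' := by
    have : p * r = p * r' := by rw [h, h']
    exact Nat.eq_of_mul_eq_mul_left hp3.pos this
  subst h4
  refine ⟨?_, rfl, rfl⟩
  rw [mem_range] at hi hj
  by_contra hne
  rcases lt_or_gt_of_ne hne with h5 | h5
  · have h6 : 2 * 2 ^ i ≤ 2 ^ j := by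
      rw [← pow_succ']
      exact Nat.pow_le_pow_right (by norm_num) (by omega)
    have h7 : 2 * 2 ^ i * R ≤ 2 ^ j * R := Nat.mul_le_mul_right _ h6
    have e : 2 * 2 ^ i * R = 2 * (2 ^ i * R) := by ring
    omega
  · have h6 : 2 * 2 ^ j ≤ 2 ^ i := by
      rw [← pow_succ']
      exact Nat.pow_le_pow_right (by norm_num) (by omega)
    have h7 : 2 * 2 ^ j * R ≤ 2 ^ i * R := Nat.mul_le_mul_right _ h6
    have e : 2 * 2 ^ j * R = 2 * (2 ^ j * R) := by ring
    omega

theorem Fr_le {X P R : ℕ} (hPR : 16 * P < R) (hX : 64 * (P * R) ≤ X) (n : ℕ) :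
    0 ≤ Fr X P R n ∧ Fr X P R n ≤ 1 ∧ (Fr X P R n ≠ 0 → 1 ≤ n ∧ n ≤ X) := by
  have hlX : 0 ≤ Real.log X := Real.log_natCast_nonneg X
  have hnn : 0 ≤ Fr X P R n := by
    unfold Fr
    refine sum_nonneg fun i _ => sum_nonneg fun p _ => sum_nonneg fun r _ => ?_
    split_ifs
    · exact div_nonneg (Real.log_natCast_nonneg r) hlX
    · exact le_rfl
  by_cases hex : ∃ i ∈ range 3, ∃ p ∈ pr P, ∃ r ∈ pr (2 ^ i * R), p * r = n
  · obtain ⟨i, hi, p, hp, r, hr, h⟩ := hex
    have hval : Fr X P R n = Real.log r / Real.log X := by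
      unfold Fr
      rw [sum_eq_single_of_mem i hi, sum_eq_single_of_mem p hp, sum_eq_single_of_mem r hr, if_pos h]
      · intro r' hr' hne
        rw [if_neg]
        intro h'
        exact hne (pl_term (X := X) hPR hi hi hp hp hr hr' h h').2.2.symm
      · intro p' hp' hne
        refine sum_eq_zero fun r' hr' => ?_
        rw [if_neg]
        intro h'
        exact hne (pl_term (X := X) hPR hi hi hp hp' hr hr' h h').2.1.symm
      · intro j hj hne
        refine sum_eq_zero fun p' hp' => sum_eq_zero fun r' hr' => ?_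
        rw [if_neg]
        intro h'
        exact hne (pl_term (X := X) hPR hi hj hp hp' hr hr' h h').1.symm
    obtain ⟨⟨hp1, hp2⟩, hp3⟩ := pl_mem.1 hp
    obtain ⟨⟨hr1, hr2⟩, hr3⟩ := pl_mem.1 hr
    have h2i : 2 ^ i ≤ 4 := by
      rw [mem_range] at hi
      calc 2 ^ i ≤ 2 ^ 2 := Nat.pow_le_pow_right (by norm_num) (by omega)
        _ = 4 := by norm_num
    have h8 : 2 ^ i * R ≤ 4 * R := Nat.mul_le_mul_right _ h2i
    have h9 : r ≤ 8 * R := by omega
    have h10 : p * r ≤ (2 * P) * (8 * R) := Nat.mul_le_mul hp2 h9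
    have e : (2 * P) * (8 * R) = 16 * (P * R) := by ring
    rw [e, h] at h10
    have h11 : n ≤ X := by omega
    have h12 : 1 ≤ n := by
      rw [← h]
      exact Nat.mul_pos hp3.pos hr3.pos
    have h13 : r ≤ X := by
      have : r ≤ p * r := Nat.le_mul_of_pos_left _ hp3.pos
      omega
    refine ⟨hnn, ?_, fun _ => ⟨h12, h11⟩⟩
    rw [hval]
    apply div_le_one_of_le₀ _ hlX
    exact Real.log_le_log (by exact_mod_cast hr3.pos) (by exact_mod_cast h13)
  · have hz : Fr X P R n = 0 := by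
      unfold Fr
      refine sum_eq_zero fun i hi => sum_eq_zero fun p hp => sum_eq_zero fun r hr => ?_
      rw [if_neg]
      intro h
      exact hex ⟨i, hi, p, hp, r, hr, h⟩
    rw [hz]
    exact ⟨le_rfl, zero_le_one, fun h => absurd rfl h⟩

private theorem pl_rho {P R : ℕ} (n : ℕ) (hR : 2 ≤ R) : 0 ≤ rho P R n ∧ rho P R n ≤ 1 := by
  have hl : 1 ≤ Real.log (2 * R : ℕ) := by
    rw [Real.le_log_iff_exp_le (by positivity)]
    have h1 : (4 : ℝ) ≤ ((2 * R : ℕ) : ℝ) := by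
      have : 4 ≤ 2 * R := by omega
      exact_mod_cast this
    have h2 := Real.exp_one_lt_d9
    linarith
  have h0 : 0 ≤ ∑ p ∈ pr P, (if p * R < n ∧ n ≤ 2 * (p * R) then 1 / (p : ℝ) else 0) := by
    refine sum_nonneg fun p _ => ?_
    split_ifs <;> positivity
  have h1 : ∑ p ∈ pr P, (if p * R < n ∧ n ≤ 2 * (p * R) then 1 / (p : ℝ) else 0) ≤ 1 := by
    refine le_trans (sum_le_sum fun p _ => ?_) (pl_dP_le P)
    split_ifs
    · exact le_rfl
    · positivity
  unfold rho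
  refine ⟨div_nonneg h0 (by linarith), ?_⟩
  exact div_le_one_of_le₀ (h1.trans hl) (by linarith)

theorem Mr_le {X P R Q : ℕ} (hPR : 16 * P < R) (hP : 1 ≤ P) (hX : 64 * (P * R) ≤ X) (n : ℕ) :
    |Mr X P R Q n| ≤ 3 * |ram Q n| ∧ (Mr X P R Q n ≠ 0 → 1 ≤ n ∧ n ≤ X) := by
  have hlX : 0 ≤ Real.log X := Real.log_natCast_nonneg X
  have hR2 : 2 ≤ R := by omega
  have hPRR : R ≤ P * R := Nat.le_mul_of_pos_left _ hP
  constructor
  · unfold Mr
    rw [abs_mul]
    refine mul_le_mul_of_nonneg_right ?_ (abs_nonneg _)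
    have h1 : ∀ i ∈ range 3, 0 ≤ Real.log (2 * (2 ^ i * R) : ℕ) / Real.log X * rho P (2 ^ i * R) n ∧
        Real.log (2 * (2 ^ i * R) : ℕ) / Real.log X * rho P (2 ^ i * R) n ≤ 1 := by
      intro i hi
      have h2i : 2 ^ i ≤ 4 := by
        rw [mem_range] at hi
        calc 2 ^ i ≤ 2 ^ 2 := Nat.pow_le_pow_right (by norm_num) (by omega)
          _ = 4 := by norm_num
      have h2 : R ≤ 2 ^ i * R := Nat.le_mul_of_pos_left _ (by positivity)
      have h3 : 2 ^ i * R ≤ 4 * R := Nat.mul_le_mul_right _ h2i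
      obtain ⟨h4, h5⟩ := pl_rho (P := P) n (hR2.trans h2)
      have h6 : Real.log (2 * (2 ^ i * R) : ℕ) / Real.log X ≤ 1 := by
        apply div_le_one_of_le₀ _ hlX
        apply Real.log_le_log
        · have : 0 < 2 * (2 ^ i * R) := by omega
          exact_mod_cast this
        · have : 2 * (2 ^ i * R) ≤ X := by omega
          exact_mod_cast this
      have h7 : 0 ≤ Real.log (2 * (2 ^ i * R) : ℕ) / Real.log X := div_nonneg (Real.log_natCast_nonneg _) hlX
      exact ⟨mul_nonneg h7 h4, mul_le_one₀ h6 h4 h5⟩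
    rw [abs_of_nonneg (sum_nonneg fun i hi => (h1 i hi).1)]
    refine (sum_le_card_nsmul _ _ 1 fun i hi => (h1 i hi).2).trans ?_
    rw [card_range]
    norm_num
  · intro hne
    unfold Mr at hne
    have h1 : ∃ i ∈ range 3, Real.log (2 * (2 ^ i * R) : ℕ) / Real.log X * rho P (2 ^ i * R) n ≠ 0 := by
      by_contra h
      push Not at h
      rw [sum_eq_zero h, zero_mul] at hne
      exact hne rfl
    obtain ⟨i, hi, h2⟩ := h1
    have h3 : rho P (2 ^ i * R) n ≠ 0 := right_ne_zero_of_mul h2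
    unfold rho at h3
    have h4 : ∃ p ∈ pr P, (if p * (2 ^ i * R) < n ∧ n ≤ 2 * (p * (2 ^ i * R)) then 1 / (p : ℝ) else 0) ≠ 0 := by
      by_contra h
      push Not at h
      rw [sum_eq_zero h, zero_div] at h3
      exact h3 rfl
    obtain ⟨p, hp, h5⟩ := h4
    obtain ⟨⟨hp1, hp2⟩, hp3⟩ := pl_mem.1 hp
    have h6 : p * (2 ^ i * R) < n ∧ n ≤ 2 * (p * (2 ^ i * R)) := by
      by_contra h
      rw [if_neg h] at h5
      exact h5 rfl
    have h2i : 2 ^ i ≤ 4 := by
      rw [mem_range] at hi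
      calc 2 ^ i ≤ 2 ^ 2 := Nat.pow_le_pow_right (by norm_num) (by omega)
        _ = 4 := by norm_num
    have h7 : p * (2 ^ i * R) ≤ (2 * P) * (4 * R) := Nat.mul_le_mul hp2 (Nat.mul_le_mul_right _ h2i)
    have e : (2 * P) * (4 * R) = 8 * (P * R) := by ring
    rw [e] at h7
    omega

end Pool.Agent.Lib.VKT
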