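import Pool.Agent.Lib.VK.TVar
import Pool.Agent.Lib.VK.TPri
import Pool.Agent.Lib.VK.TCh
import Pool.Agent.Lib.VK.TSer
import Pool.Agent.Lib.VK.TFul
import Pool.Agent.Lib.VK.TTail
import Pool.Agent.Lib.VK.TSw
import Pool.Agent.Lib.VK.TPl
import Pool.Agent.Lib.VK.TMoI

/-!
# VK / TAsm (P4): the weighted asymptotic formula for almost all tuples of a small box

`τ i = true`: the member `n + h_i` is prime and `h_i` runs over `[1, Y]`; `τ i = false`: it is in `E2`, `h_i` in `(b_i, b_i + H']`.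

PROOF. `X = 32Y`, `l = log X` (`log Y ≤ l ≤ 2 log Y`), `A' = 4A + 10m + 40`, `c2` the maximum of `8A + 40` and of the exponent of
`priV A'`; `varW A' c2` gives `g ≥ c2`, `a1`, and for `c1` the exponent `c6 ≥ c1 + 4g + 20`; `Q = ⌊l^g⌋`. Sides `K_i = Y` or `H'`.
(0) `par_ok`, `plat`: for `n ∈ (Y, 2Y]` and all `h` of the box `Mx (n+h_i) = ram Q (n+h_i)/l` resp. `(dP/l) ram Q (n+h_i)`
(`2PR ≤ Y < n+h_i ≤ 3Y ≤ 8PR`), so `∑ lp n ∏ Mx(n+h_i) = (dP^nE/l^m) ∑ lp n ∏ ram Q (n+h_i)`.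
(1) `chain` with `F_i = Fx (τ i)`, `M_i = Mx (τ i)`, `w n = lp n` on `(Y, 2Y]` and `0` elsewhere, `β = 1/l^A'` (`priV`, `varW`),
`S = l^(2m+3)` (`momI (2(m+1))`, `Mr_le`: `∑ |M|^(2m+2) ≤ 9^(m+1) C (log Q)^D X ≤ l X`; `|w| ≤ l`):
`∑_{h ∈ box} |wcnt - ∑ lp n ∏ Mx(n+h_i)|² ≤ X² ∏K_i l^(2m+5)/l^A'`.
(2) `swT m (A+4) g`: `|∑ lp n ∏ ram - Y sgT Q h| ≤ Y/l^(A+3)` for all `h`. (3) `ser`, `sgF_eq`: `∑_h (sgT Q h - part h Q)² ≤
C (log Q)^D ∏K_i/Q ≤ ∏K_i/l^(g-1)` (`H' ≥ l^c6 ≥ Q^3`, `Y ≥ Q^3`). (4) `tail` with `z = Q`, `N = 2Y` for injective `h` (`h_i ≥ 1` as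
`h_i > b_i`): `|part h Q - HL h| ≤ l^2/Q^(1/2)`. (5) non injective `h`: at most `m² ∏K_i/H' ≤ ∏K_i/l^(A+5)` (`box_ninj`, `h0 = H'`).
Markov: in (1) and (3) all but `∏K_i/l^(A+5)` of the `h` have error `≤ Y/l^(A+5)` (`A' - 2m - 5 - 2(A+5) - 10 ≥ A+5`, same for
`g-1`), and `dP^nE/l^m ≤ 1`.
-/

set_option autoImplicit false

open Finset

namespace Pool.Agent.Lib.VKT

open Pool.Agent.Lib.G3 (lp VV)

/-- Markov -/
private theorem tasm_markov {α : Type} (s : Finset α) (f : α → ℝ) {B t : ℝ} (ht : 0 < t)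
    (hB : ∑ h ∈ s, (f h) ^ 2 ≤ B) : ((s.filter fun h => t < |f h|).card : ℝ) ≤ B / t ^ 2 := by
  rw [le_div_iff₀ (by positivity)]
  refine le_trans ?_ hB
  calc ((s.filter fun h => t < |f h|).card : ℝ) * t ^ 2 = ∑ _h ∈ s.filter fun h => t < |f h|, t ^ 2 := by
        rw [sum_const, nsmul_eq_mul]
    _ ≤ ∑ h ∈ s.filter fun h => t < |f h|, (f h) ^ 2 := by
        refine sum_le_sum fun h hh => ?_
        rw [← sq_abs (f h)]
        exact pow_le_pow_left₀ ht.le (mem_filter.1 hh).2.le 2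
    _ ≤ ∑ h ∈ s, (f h) ^ 2 := sum_le_sum_of_subset_of_nonneg (filter_subset _ _) fun _ _ _ => sq_nonneg _

/-- the model sum -/
private noncomputable def tasm_w {m : ℕ} (X P R Q Y : ℕ) (τ : Fin m → Bool) (h : Fin m → ℕ) : ℝ :=
  ∑ n ∈ Ioc Y (2 * Y), lp n * ∏ i, Mx X P R Q (τ i) (n + h i)

/-- (0) the plateau -/
private theorem tasm_plat {m : ℕ} (τ : Fin m → Bool) {P R Q Y : ℕ} (hR : 1 ≤ R) (h1 : 2 * (P * R) ≤ Y)
    (h2 : 3 * Y ≤ 8 * (P * R)) (h : Fin m → ℕ) (hh : ∀ i, h i ≤ Y) :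
    tasm_w (32 * Y) P R Q Y τ h = dP P ^ nE τ / (Real.log (32 * Y : ℕ)) ^ m *
      ∑ n ∈ Ioc Y (2 * Y), lp n * ∏ i, ram Q (n + h i) := by
  unfold tasm_w
  rw [mul_sum]
  refine sum_congr rfl fun n hn => ?_
  rw [mem_Ioc] at hn
  have key : ∀ i, Mx (32 * Y) P R Q (τ i) (n + h i) =
      ((if τ i = false then dP P else 1) / Real.log (32 * Y : ℕ)) * ram Q (n + h i) := by
    intro i
    have h3 := hh i
    unfold Mx
    by_cases hτ : τ i = true
    · rw [if_pos hτ, if_pos (by omega), if_neg (by simp [hτ])]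
      ring
    · rw [if_neg hτ, if_pos (by simpa using hτ)]
      exact plat hR (by omega) (by omega)
  simp_rw [key]
  rw [prod_mul_distrib, prod_div_distrib, prod_const, card_univ, Fintype.card_fin, prod_ite, prod_const, prod_const_one,
    mul_one]
  unfold nE
  ring

/-- (1) the chain -/
private theorem tasm_chain {m : ℕ} (τ : Fin m → Bool) {P R Q Y H' : ℕ} {β S C1 : ℝ} {D1 : ℕ} (hβ : 0 ≤ β)
    (hl : 1 ≤ Real.log (32 * Y : ℕ)) (hY : 1 ≤ Y) (hP : 1 ≤ P) (hPR : 16 * P < R) (hX : 2 * (P * R) ≤ Y) (hH' : 1 ≤ H')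
    (hmom : ∑ n ∈ Icc 1 (32 * Y), |ram Q n| ^ (2 * (m + 1)) ≤ C1 * (Real.log Q) ^ D1 * (32 * Y : ℕ))
    (hS1 : (9 : ℝ) ^ (m + 1) * (C1 * (Real.log Q) ^ D1) ≤ S) (hS2 : (Real.log (32 * Y : ℕ)) ^ (2 * (m + 1)) ≤ S)
    (hpri : ∀ α : ℝ, VV (fun n => ((Fx (32 * Y) P R true n : ℝ) : ℂ) - ((Mx (32 * Y) P R Q true n : ℝ) : ℂ)) Y α
      (32 * Y + Y + 1) ≤ β * (32 * Y : ℕ) * (Y : ℝ) ^ 2)
    (hfr : ∀ α : ℝ, VV (fun n => ((Fr (32 * Y) P R n : ℝ) : ℂ) - ((Mr (32 * Y) P R Q n : ℝ) : ℂ)) H' α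
      (32 * Y + H' + 1) ≤ β * (32 * Y : ℕ) * (H' : ℝ) ^ 2) (b : Fin m → ℕ) :
    ∑ h ∈ box b (fun i => if τ i = true then Y else H'), (wcnt (32 * Y) P R Y τ h - tasm_w (32 * Y) P R Q Y τ h) ^ 2 ≤
      2 * (m : ℝ) ^ 2 * β * ((32 * Y : ℕ) : ℝ) ^ 2 * (1 + (m + 1) * S) *
        ∏ i, ((if τ i = true then Y else H' : ℕ) : ℝ) := by
  have h64 : 64 * (P * R) ≤ 32 * Y := by omega
  have hlX : ∀ n : ℕ, 1 ≤ n → n ≤ 32 * Y → 0 ≤ lp n ∧ lp n ≤ Real.log (32 * Y : ℕ) := by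
    intro n h1 h2
    unfold Pool.Agent.Lib.G3.lp
    have h3 : (1 : ℝ) ≤ n := by exact_mod_cast h1
    have h4 : (n : ℝ) ≤ ((32 * Y : ℕ) : ℝ) := by exact_mod_cast h2
    split_ifs
    · exact ⟨Real.log_nonneg h3, Real.log_le_log (by linarith) h4⟩
    · exact ⟨le_rfl, by linarith⟩
  have hF : ∀ (t : Bool) (n : ℕ), Fx (32 * Y) P R t n ≠ 0 → 1 ≤ n ∧ n ≤ 32 * Y := by
    intro t n hn
    unfold Fx at hn
    by_cases ht : t = true
    · rw [if_pos ht] at hn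
      by_cases h1 : n ≤ 32 * Y
      · rw [if_pos h1] at hn
        refine ⟨?_, h1⟩
        by_contra h2
        have h3 : n = 0 := by omega
        apply hn
        rw [h3]
        simp [Pool.Agent.Lib.G3.lp]
      · rw [if_neg h1] at hn
        exact absurd rfl hn
    · rw [if_neg ht] at hn
      exact (Fr_le hPR h64 n).2.2 hn
  have hF1 : ∀ (t : Bool) (n : ℕ), ‖((Fx (32 * Y) P R t n : ℝ) : ℂ)‖ ≤ 1 := by
    intro t n
    rw [Complex.norm_real, Real.norm_eq_abs]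
    by_cases h0 : Fx (32 * Y) P R t n = 0
    · rw [h0]; simp
    obtain ⟨h1, h2⟩ := hF t n h0
    unfold Fx
    by_cases ht : t = true
    · rw [if_pos ht, if_pos h2]
      obtain ⟨h3, h4⟩ := hlX n h1 h2
      rw [abs_of_nonneg (by positivity), div_le_one (by linarith)]
      exact h4
    · rw [if_neg ht]
      obtain ⟨h3, h4, -⟩ := Fr_le hPR h64 n
      rw [abs_of_nonneg h3]
      exact h4
  have hM : ∀ (t : Bool) (n : ℕ), Mx (32 * Y) P R Q t n ≠ 0 → 1 ≤ n ∧ n ≤ 32 * Y := by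
    intro t n hn
    unfold Mx at hn
    by_cases ht : t = true
    · rw [if_pos ht] at hn
      by_contra h1
      rw [if_neg h1] at hn
      exact hn rfl
    · rw [if_neg ht] at hn
      exact (Mr_le hPR hP h64 n).2 hn
  have hM1 : ∀ (t : Bool) (n : ℕ), ‖((Mx (32 * Y) P R Q t n : ℝ) : ℂ)‖ ≤ 3 * |ram Q n| := by
    intro t n
    rw [Complex.norm_real, Real.norm_eq_abs]
    have h0 := abs_nonneg (ram Q n)
    unfold Mx
    by_cases ht : t = true
    · rw [if_pos ht]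
      split_ifs
      · rw [abs_div, abs_of_pos (show (0 : ℝ) < Real.log (32 * Y : ℕ) by linarith)]
        have h1 : |ram Q n| / Real.log (32 * Y : ℕ) ≤ |ram Q n| := div_le_self h0 hl
        linarith
      · rw [abs_zero]; linarith
    · rw [if_neg ht]
      exact (Mr_le hPR hP h64 n).1
  have hw1 : ∀ n : ℕ, ‖(if n ∈ Ioc Y (2 * Y) then ((lp n : ℝ) : ℂ) else 0)‖ ≤ Real.log (32 * Y : ℕ) := by
    intro n
    by_cases hn : n ∈ Ioc Y (2 * Y)
    · rw [if_pos hn, Complex.norm_real, Real.norm_eq_abs]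
      rw [mem_Ioc] at hn
      obtain ⟨h3, h4⟩ := hlX n (by omega) (by omega)
      rw [abs_of_nonneg h3]
      exact h4
    · rw [if_neg hn, norm_zero]; linarith
  have h1 := chain (m := m) (X := 32 * Y) (fun i => if τ i = true then Y else H')
    (fun i => by by_cases h : τ i = true <;> simp [h, hY, hH'])
    (fun i n => ((Fx (32 * Y) P R (τ i) n : ℝ) : ℂ)) (fun i n => ((Mx (32 * Y) P R Q (τ i) n : ℝ) : ℂ))
    (fun n => if n ∈ Ioc Y (2 * Y) then ((lp n : ℝ) : ℂ) else 0)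
    (fun i n h => hF _ n (fun h' => h (by rw [h']; simp))) (fun i n h => hM _ n (fun h' => h (by rw [h']; simp)))
    (S := S) (β := β) hβ (fun i n => hF1 _ n) ?_ ?_ ?_ b
  · refine le_trans (le_of_eq ?_) (h1.trans (le_of_eq ?_))
    · refine sum_congr rfl fun h _ => ?_
      have e1 : ∀ G : Bool → ℕ → ℝ, ∑ n ∈ Icc 1 (32 * Y), (if n ∈ Ioc Y (2 * Y) then ((lp n : ℝ) : ℂ) else 0) *
          ∏ i, ((G (τ i) (n + h i) : ℝ) : ℂ) = ((∑ n ∈ Ioc Y (2 * Y), lp n * ∏ i, G (τ i) (n + h i) : ℝ) : ℂ) := by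
        intro G
        push_cast
        have e2 : ∀ n, (if n ∈ Ioc Y (2 * Y) then ((lp n : ℝ) : ℂ) else 0) * ∏ i, ((G (τ i) (n + h i) : ℝ) : ℂ) =
            if n ∈ Ioc Y (2 * Y) then ((lp n : ℝ) : ℂ) * ∏ i, ((G (τ i) (n + h i) : ℝ) : ℂ) else 0 := by
          intro n
          split_ifs <;> simp
        simp_rw [e2]
        rw [← sum_filter]
        refine sum_congr ?_ fun _ _ => rfl
        ext n
        simp only [mem_filter, mem_Icc, mem_Ioc]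
        omega
      rw [e1 (fun t n => Fx (32 * Y) P R t n), e1 (fun t n => Mx (32 * Y) P R Q t n), ← Complex.ofReal_sub,
        Complex.norm_real, Real.norm_eq_abs, sq_abs]
      rfl
    · rfl
  · intro i
    calc ∑ n ∈ Icc 1 (32 * Y), ‖((Mx (32 * Y) P R Q (τ i) n : ℝ) : ℂ)‖ ^ (2 * (m + 1))
        ≤ ∑ n ∈ Icc 1 (32 * Y), (9 : ℝ) ^ (m + 1) * |ram Q n| ^ (2 * (m + 1)) := by
          refine sum_le_sum fun n _ => ?_
          refine (pow_le_pow_left₀ (norm_nonneg _) (hM1 (τ i) n) _).trans (le_of_eq ?_)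
          rw [mul_pow, pow_mul]
          norm_num
      _ = (9 : ℝ) ^ (m + 1) * ∑ n ∈ Icc 1 (32 * Y), |ram Q n| ^ (2 * (m + 1)) := by rw [mul_sum]
      _ ≤ (9 : ℝ) ^ (m + 1) * (C1 * (Real.log Q) ^ D1 * (32 * Y : ℕ)) := mul_le_mul_of_nonneg_left hmom (by positivity)
      _ = ((9 : ℝ) ^ (m + 1) * (C1 * (Real.log Q) ^ D1)) * (32 * Y : ℕ) := by ring
      _ ≤ S * (32 * Y : ℕ) := mul_le_mul_of_nonneg_right hS1 (Nat.cast_nonneg _)
      _ = _ := mul_comm _ _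
  · calc ∑ n ∈ Icc 1 (32 * Y), ‖(if n ∈ Ioc Y (2 * Y) then ((lp n : ℝ) : ℂ) else 0)‖ ^ (2 * (m + 1))
        ≤ ∑ n ∈ Icc 1 (32 * Y), S := by
          refine sum_le_sum fun n _ => ?_
          exact (pow_le_pow_left₀ (norm_nonneg _) (hw1 n) _).trans hS2
      _ = _ := by rw [sum_const, nsmul_eq_mul, Nat.card_Icc]; simp
  · intro i α
    by_cases hτ : τ i = true
    · simp only [hτ, if_true]
      exact hpri α
    · have hτ' : τ i = false := by simpa using hτ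
      simp only [hτ', Bool.false_eq_true, if_false]
      exact hfr α

/-- the last step for one tuple -/
private theorem tasm_one {c W w s0 Y L t g f H : ℝ} (hc0 : 0 ≤ c) (hc1 : c ≤ 1) (hY : 0 ≤ Y) (ht : 0 ≤ t)
    (h1 : |W - w| ≤ Y * t) (hw : w = c * s0) (h2 : |s0 - Y * g| ≤ Y * t) (h3 : |g - f| ≤ t) (h4 : |f - H| ≤ t)
    (hL : 4 * t = L) : |W - c * Y * H| ≤ Y * L := by
  subst hL
  have e : W - c * Y * H = (W - w) + c * ((s0 - Y * g) + Y * (g - f) + Y * (f - H)) := by rw [hw]; ring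
  have h5 : |(s0 - Y * g) + Y * (g - f) + Y * (f - H)| ≤ 3 * (Y * t) := by
    refine (abs_add_le _ _).trans ?_
    have h6 : |Y * (f - H)| ≤ Y * t := by
      rw [abs_mul, abs_of_nonneg hY]; exact mul_le_mul_of_nonneg_left h4 hY
    have h7 : |Y * (g - f)| ≤ Y * t := by
      rw [abs_mul, abs_of_nonneg hY]; exact mul_le_mul_of_nonneg_left h3 hY
    have h8 := abs_add_le (s0 - Y * g) (Y * (g - f))
    linarith
  rw [e]
  refine (abs_add_le _ _).trans ?_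
  rw [abs_mul, abs_of_nonneg hc0]
  have h6 : c * |(s0 - Y * g) + Y * (g - f) + Y * (f - H)| ≤ 1 * (3 * (Y * t)) :=
    mul_le_mul hc1 h5 (abs_nonneg _) zero_le_one
  linarith

/-- `log 32 Y` and `log Y` -/
private theorem tasm_log {Y g : ℕ} (hY : 1 ≤ Y) (hL : 8 * (g : ℝ) + 4 ≤ Real.log Y) :
    Real.log Y ≤ Real.log (32 * Y : ℕ) ∧ (Real.log (32 * Y : ℕ)) ^ g ≤ 2 * (Real.log Y) ^ g := by
  have hY0 : (0 : ℝ) < Y := by exact_mod_cast hY
  have hg : (0 : ℝ) ≤ g := Nat.cast_nonneg _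
  have hL0 : 0 < Real.log Y := by linarith
  have e1 : Real.log (32 * Y : ℕ) = 5 * Real.log 2 + Real.log Y := by
    push_cast
    rw [Real.log_mul (by norm_num) hY0.ne', show (32 : ℝ) = 2 ^ (5 : ℕ) by norm_num, Real.log_pow]
    norm_num
  have h2 := Real.log_two_lt_d9
  have h2' := Real.log_two_gt_d9
  refine ⟨by rw [e1]; linarith, ?_⟩
  have h3 : Real.log (32 * Y : ℕ) ≤ Real.log Y * (1 + 4 / Real.log Y) := by
    have : Real.log Y * (1 + 4 / Real.log Y) = Real.log Y + 4 := by field_simp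
    rw [this, e1]
    linarith
  have h4 : (1 + 4 / Real.log Y) ^ g ≤ 2 := by
    have h5 : 1 + 4 / Real.log Y ≤ Real.exp (4 / Real.log Y) := by
      have := Real.add_one_le_exp (4 / Real.log Y)
      linarith
    have h6 : (0 : ℝ) ≤ 1 + 4 / Real.log Y := by positivity
    refine (pow_le_pow_left₀ h6 h5 g).trans ?_
    rw [← Real.exp_nat_mul]
    have h7 : (g : ℝ) * (4 / Real.log Y) ≤ Real.log 2 := by
      rw [mul_div_assoc', div_le_iff₀ hL0]
      nlinarith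
    calc Real.exp ((g : ℝ) * (4 / Real.log Y)) ≤ Real.exp (Real.log 2) := Real.exp_le_exp.2 h7
      _ = 2 := Real.exp_log two_pos
  have h0 : 0 ≤ Real.log (32 * Y : ℕ) := by rw [e1]; linarith
  calc (Real.log (32 * Y : ℕ)) ^ g ≤ (Real.log Y * (1 + 4 / Real.log Y)) ^ g := pow_le_pow_left₀ h0 h3 g
    _ = (Real.log Y) ^ g * (1 + 4 / Real.log Y) ^ g := mul_pow _ _ _
    _ ≤ (Real.log Y) ^ g * 2 := mul_le_mul_of_nonneg_left h4 (by positivity)
    _ = _ := mul_comm _ _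

/-- large `Y` -/
private theorem tasm_ev (K : ℝ) (k : ℕ) : ∃ x0 : ℝ, ∀ Y : ℕ, x0 ≤ Y → 32 ≤ Y ∧ K ≤ Real.log Y ∧
    (Real.log (32 * Y : ℕ)) ^ k ≤ Y := by
  have t1 : Filter.Tendsto (fun Y : ℕ => ((32 * Y : ℕ) : ℝ)) Filter.atTop Filter.atTop :=
    tendsto_natCast_atTop_atTop.comp (Filter.tendsto_id.const_mul_atTop' (by norm_num : 0 < 32))
  have h1 : ∀ᶠ x : ℝ in Filter.atTop, ‖Real.log x ^ k‖ ≤ 1 / 32 * ‖id x‖ :=
    (Real.isLittleO_pow_log_id_atTop (n := k)).bound (by norm_num)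
  have h2 : ∀ᶠ Y : ℕ in Filter.atTop, (Real.log (32 * Y : ℕ)) ^ k ≤ Y := by
    filter_upwards [t1.eventually h1] with Y hY
    refine (le_abs_self _).trans ?_
    rw [Real.norm_eq_abs] at hY
    refine hY.trans (le_of_eq ?_)
    rw [id, Real.norm_of_nonneg (Nat.cast_nonneg _)]
    push_cast
    ring
  have h3 : ∀ᶠ Y : ℕ in Filter.atTop, K ≤ Real.log Y :=
    (Real.tendsto_log_atTop.comp tendsto_natCast_atTop_atTop).eventually_ge_atTop K
  obtain ⟨N, hN⟩ := Filter.eventually_atTop.1 ((h2.and h3).and (Filter.eventually_ge_atTop 32))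
  refine ⟨N, fun Y hY => ?_⟩
  obtain ⟨⟨a1, a2⟩, a3⟩ := hN Y (by exact_mod_cast hY)
  exact ⟨a3, a2, a1⟩

open Classical in
theorem asmT {m : ℕ} (τ : Fin m → Bool) (A : ℕ) : ∃ a1 : ℕ, ∀ c1 : ℕ, a1 ≤ c1 → ∃ (c6 : ℕ) (x0 : ℝ), ∀ Y P R : ℕ, x0 ≤ Y →
    P = ⌊(Real.log (32 * Y : ℕ)) ^ c1⌋₊ → R = Y / (2 * P) → ∀ H : ℕ,
    (Real.log (32 * Y : ℕ)) ^ c6 ≤ H → (H : ℝ) ≤ (Real.log (32 * Y : ℕ)) ^ (c6 + 2) → ∃ H' : ℕ, H ≤ H' ∧ H' ≤ 2 * H ∧
      ∀ b : Fin m → ℕ, (∀ i, (τ i = true → b i = 0) ∧ (τ i = false → b i + H' ≤ Y)) →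
        (((box b fun i => if τ i = true then Y else H').filter fun h => ¬ (Function.Injective h ∧
          |wcnt (32 * Y) P R Y τ h - dP P ^ nE τ / (Real.log (32 * Y : ℕ)) ^ m * Y * HL h| ≤ Y / (Real.log Y) ^ A)).card : ℝ) ≤
          (∏ i, ((if τ i = true then Y else H' : ℕ) : ℝ)) / (Real.log Y) ^ A := by
  obtain ⟨C1, D1, hC1, hmom⟩ := momI (2 * (m + 1))
  obtain ⟨C2, D2, hC2, hser⟩ := ser m
  obtain ⟨C3, D3, hC3, htail⟩ := tail m
  obtain ⟨c2, hpri0⟩ := priV (3 * A + 2 * (m + 1) + D1 + 2)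
  obtain ⟨g, hg, a1, hvar0⟩ := varW (3 * A + 2 * (m + 1) + D1 + 2) (c2 + (3 * A + D2 + D3 + 4))
  obtain ⟨xp, hpri⟩ := hpri0 g (by omega)
  refine ⟨a1, fun c1 hc1 => ?_⟩
  obtain ⟨c6, hc6, xv, hvar⟩ := hvar0 c1 hc1
  obtain ⟨xw, hpar⟩ := par_ok c1
  obtain ⟨xs, hsw⟩ := swT m (A + 1) g
  set K0 : ℝ := 98304 * (m : ℝ) ^ 2 * ((m : ℝ) + 2) * (9 : ℝ) ^ (m + 1) * (C1 + 1) with hK0
  have hK00 : 0 ≤ K0 := by positivity
  obtain ⟨xe, hev⟩ := tasm_ev (8 * (g : ℝ) + 4 + K0 + 96 * C2 + 3 * (m : ℝ) ^ 2 + 8 * C3)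
    (c6 + 3 + 3 * g + 2 * g * (m + 1))
  refine ⟨c6, max xe (max xp (max xv (max xw xs))), fun Y P R hY hP hR H hH1 hH2 => ?_⟩
  simp only [max_le_iff] at hY
  obtain ⟨hYe, hYp, hYv, hYw, hYs⟩ := hY
  obtain ⟨hY32, hK, hpow⟩ := hev Y hYe
  obtain ⟨hpar1, hP1, hPR, hPRY, hPRY', -, hdP⟩ := hpar Y P R hYw hP hR
  have hg0 : (0 : ℝ) ≤ g := Nat.cast_nonneg _
  have hm0 : (0 : ℝ) ≤ (m : ℝ) ^ 2 := sq_nonneg _
  obtain ⟨hLl, hlg⟩ := tasm_log (Y := Y) (g := g) (by omega) (by nlinarith)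
  have hX : ((32 * Y : ℕ) : ℝ) = 32 * Y := by push_cast; ring
  have hY0 : (32 : ℝ) ≤ Y := by exact_mod_cast hY32
  have hvx : xv ≤ ((32 * Y : ℕ) : ℝ) := by rw [hX]; linarith
  obtain ⟨H', hHH', hH'2, hfr⟩ := hvar (32 * Y) hvx H hH1 hH2
  have hQ1 := Nat.floor_le (show (0 : ℝ) ≤ (Real.log (32 * Y : ℕ)) ^ g by
    have : (0 : ℝ) ≤ Real.log (32 * Y : ℕ) := by nlinarith
    positivity)
  have hQ2 := Nat.lt_floor_add_one ((Real.log (32 * Y : ℕ)) ^ g)
  have hpriY := hpri Y hYp P R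
  have hfrY := hfr P R hpar1
  set l : ℝ := Real.log (32 * Y : ℕ) with hl
  set L : ℝ := Real.log Y with hL
  set Q : ℕ := ⌊l ^ g⌋₊ with hQ
  have hL4 : 4 ≤ L := by nlinarith
  have hLK : K0 ≤ L := by nlinarith
  have hLC2 : 96 * C2 ≤ L := by nlinarith
  have hLm : 3 * (m : ℝ) ^ 2 ≤ L := by nlinarith
  have hLC3 : 8 * C3 ≤ L := by nlinarith
  have hl4 : 4 ≤ l := by linarith
  have hl1 : 1 ≤ l := by linarith
  have hl0 : 0 < l := by linarith
  have hL0 : 0 < L := by linarith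
  have hLp : 0 < L ^ A := by positivity
  have mono : ∀ {a b : ℕ}, a ≤ b → l ^ a ≤ l ^ b := fun h => pow_le_pow_right₀ hl1 h
  have hll : ∀ a : ℕ, L ^ a ≤ l ^ a := fun a => pow_le_pow_left₀ hL0.le hLl a
  -- size of `Q`
  have hgg : 3 * A + D2 + D3 + 4 ≤ g := by omega
  have hlg4 : 4 ≤ l ^ g := by
    calc (4 : ℝ) ≤ l := hl4
      _ = l ^ 1 := (pow_one _).symm
      _ ≤ l ^ g := mono (by omega)
  have hQh : l ^ g ≤ 2 * (Q : ℝ) := by linarith
  have hQ2' : 2 ≤ Q := by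
    have : (2 : ℝ) ≤ Q := by linarith
    exact_mod_cast this
  have hQ0 : (0 : ℝ) < Q := by
    have : (2 : ℝ) ≤ Q := by exact_mod_cast hQ2'
    linarith
  have hQY : ∀ k : ℕ, k * g ≤ c6 + 3 + 3 * g + 2 * g * (m + 1) → Q ^ k ≤ Y := by
    intro k hk
    have : (Q : ℝ) ^ k ≤ Y := by
      calc (Q : ℝ) ^ k ≤ (l ^ g) ^ k := pow_le_pow_left₀ hQ0.le hQ1 k
        _ = l ^ (k * g) := by rw [← pow_mul, mul_comm]
        _ ≤ l ^ (c6 + 3 + 3 * g + 2 * g * (m + 1)) := mono hk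
        _ ≤ Y := hpow
    exact_mod_cast this
  have hlogQ0 : 0 ≤ Real.log Q := Real.log_nonneg (by
    have : (2 : ℝ) ≤ Q := by exact_mod_cast hQ2'
    linarith)
  have hlogQ : Real.log Q ≤ l := by
    refine Real.log_le_log hQ0 ?_
    have h1 := hQY 1 (by rw [one_mul]; omega)
    rw [pow_one] at h1
    exact_mod_cast h1.trans (by omega : Y ≤ 32 * Y)
  -- size of `H'`
  have hH'0 : l ^ c6 ≤ H' := hH1.trans (by exact_mod_cast hHH')
  have hH'1 : 1 ≤ H' := by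
    have : (1 : ℝ) ≤ H' := (one_le_pow₀ hl1).trans hH'0
    exact_mod_cast this
  have hH'Y : H' ≤ Y := by
    have h1 : (H' : ℝ) ≤ 2 * H := by exact_mod_cast hH'2
    have h2 : 2 * l ^ (c6 + 2) ≤ l ^ (c6 + 3) := by
      rw [pow_succ l (c6 + 2)]
      have : 0 < l ^ (c6 + 2) := by positivity
      nlinarith
    have : (H' : ℝ) ≤ Y := by
      calc (H' : ℝ) ≤ 2 * l ^ (c6 + 2) := by linarith
        _ ≤ l ^ (c6 + 3) := h2
        _ ≤ l ^ (c6 + 3 + 3 * g + 2 * g * (m + 1)) := mono (by omega)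
        _ ≤ Y := hpow
    exact_mod_cast this
  have hQH : Q ^ 3 ≤ H' := by
    have : (Q : ℝ) ^ 3 ≤ H' := by
      calc (Q : ℝ) ^ 3 ≤ (l ^ g) ^ 3 := pow_le_pow_left₀ hQ0.le hQ1 3
        _ = l ^ (g * 3) := by rw [← pow_mul]
        _ ≤ l ^ c6 := mono (by omega)
        _ ≤ H' := hH'0
    exact_mod_cast this
  refine ⟨H', hHH', hH'2, fun b hb => ?_⟩
  set Kf : Fin m → ℕ := fun i => if τ i = true then Y else H' with hKf
  set PK : ℝ := ∏ i, ((if τ i = true then Y else H' : ℕ) : ℝ) with hPK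
  have hPK0 : 0 ≤ PK := prod_nonneg fun _ _ => Nat.cast_nonneg _
  have hbox : ∀ h ∈ box b Kf, ∀ i, 1 ≤ h i ∧ h i ≤ Y := by
    intro h hh i
    have h1 := box_mem.1 hh i
    obtain ⟨h2, h3⟩ := hb i
    by_cases hτ : τ i = true
    · have h4 := h2 hτ
      simp only [hKf, hτ, if_true] at h1
      omega
    · have hτ' : τ i = false := by simpa using hτ
      have h4 := h3 hτ'
      simp only [hKf, hτ', Bool.false_eq_true, if_false] at h1
      omega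
  -- (5) non injective tuples
  have hNI : (((box b Kf).filter fun h => ¬ Function.Injective h).card : ℝ) ≤ PK / (3 * L ^ A) := by
    have h1 := box_ninj b Kf hH'1 (fun i => by
      simp only [hKf]
      split_ifs
      · exact hH'Y
      · exact le_rfl)
    refine h1.trans ?_
    have hH'p : (0 : ℝ) < H' := by exact_mod_cast hH'1
    rw [div_le_div_iff₀ hH'p (by positivity)]
    have h2 : 3 * (m : ℝ) ^ 2 * L ^ A ≤ H' := by
      calc 3 * (m : ℝ) ^ 2 * L ^ A ≤ l * l ^ A := by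
            refine mul_le_mul (by linarith) (hll A) hLp.le hl0.le
        _ = l ^ (A + 1) := by rw [pow_succ]; ring
        _ ≤ l ^ c6 := mono (by omega)
        _ ≤ H' := hH'0
    have h3 : (m : ℝ) ^ 2 * PK * (3 * L ^ A) = PK * (3 * (m : ℝ) ^ 2 * L ^ A) := by ring
    show (m : ℝ) ^ 2 * (∏ i, (Kf i : ℝ)) * (3 * L ^ A) ≤ PK * H'
    have h4 : (∏ i, (Kf i : ℝ)) = PK := rfl
    rw [h4, h3]
    exact mul_le_mul_of_nonneg_left h2 hPK0
  -- (1) the chain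
  set S : ℝ := (9 : ℝ) ^ (m + 1) * (C1 + 1) * l ^ (2 * (m + 1) + D1) with hS
  have h9 : (1 : ℝ) ≤ (9 : ℝ) ^ (m + 1) := one_le_pow₀ (by norm_num)
  have hS2 : l ^ (2 * (m + 1)) ≤ S := by
    have h1 : l ^ (2 * (m + 1)) ≤ l ^ (2 * (m + 1) + D1) := mono (by omega)
    have h2 : 1 ≤ (9 : ℝ) ^ (m + 1) * (C1 + 1) := by nlinarith
    have h3 : 0 < l ^ (2 * (m + 1) + D1) := by positivity
    rw [hS]
    nlinarith
  have hS1 : (9 : ℝ) ^ (m + 1) * (C1 * (Real.log Q) ^ D1) ≤ S := by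
    have h1 : (Real.log Q) ^ D1 ≤ l ^ (2 * (m + 1) + D1) :=
      (pow_le_pow_left₀ hlogQ0 hlogQ D1).trans (mono (by omega))
    have h2 : 0 ≤ (Real.log Q) ^ D1 := by positivity
    rw [hS, mul_assoc]
    refine mul_le_mul_of_nonneg_left ?_ (by positivity)
    exact mul_le_mul (by linarith) h1 h2 (by linarith)
  have hch := tasm_chain τ (P := P) (R := R) (Q := Q) (Y := Y) (H' := H')
    (β := 1 / l ^ (3 * A + 2 * (m + 1) + D1 + 2)) (S := S) (C1 := C1) (D1 := D1) (by positivity) hl1 (by omega) hP1 hPR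
    hPRY hH'1 (hmom (32 * Y) Q hQ2' ((hQY _ (by nlinarith)).trans (by omega))) hS1 hS2 hpriY
    (fun α => (hfrY α).trans (le_of_eq (by ring))) b
  have hB1 := tasm_markov (box b Kf) (fun h => wcnt (32 * Y) P R Y τ h - tasm_w (32 * Y) P R Q Y τ h)
    (t := Y * (1 / (4 * L ^ A))) (by positivity) hch
  have hB1' : (((box b Kf).filter fun h => Y * (1 / (4 * L ^ A)) <
      |wcnt (32 * Y) P R Y τ h - tasm_w (32 * Y) P R Q Y τ h|).card : ℝ) ≤ PK / (3 * L ^ A) := by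
    refine hB1.trans ?_
    have hS0 : 1 ≤ S := (one_le_pow₀ hl1).trans hS2
    have e1 : 2 * (m : ℝ) ^ 2 * (1 / l ^ (3 * A + 2 * (m + 1) + D1 + 2)) * ((32 * Y : ℕ) : ℝ) ^ 2 *
        (1 + (m + 1) * S) * PK / (Y * (1 / (4 * L ^ A))) ^ 2 =
        PK * (32768 * (m : ℝ) ^ 2 * (1 + (m + 1) * S) * L ^ (2 * A) / l ^ (3 * A + 2 * (m + 1) + D1 + 2)) := by
      rw [hX, pow_mul' L 2 A]
      have hY00 : (Y : ℝ) ≠ 0 := by linarith
      field_simp
      ring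
    have e2 : 98304 * (m : ℝ) ^ 2 * (1 + (m + 1) * S) * L ^ (3 * A) ≤ l ^ (3 * A + 2 * (m + 1) + D1 + 2) := by
      have h1 : 1 + ((m : ℝ) + 1) * S ≤ ((m : ℝ) + 2) * S := by nlinarith
      have hm00 : (0 : ℝ) ≤ m := Nat.cast_nonneg _
      calc 98304 * (m : ℝ) ^ 2 * (1 + (m + 1) * S) * L ^ (3 * A)
          ≤ 98304 * (m : ℝ) ^ 2 * (((m : ℝ) + 2) * S) * l ^ (3 * A) := by
            refine mul_le_mul (mul_le_mul_of_nonneg_left h1 (by positivity)) (hll _) (by positivity) (by positivity)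
        _ = K0 * l ^ (3 * A + 2 * (m + 1) + D1) := by
            rw [hS, hK0]
            ring
        _ ≤ l ^ 2 * l ^ (3 * A + 2 * (m + 1) + D1) := by
            refine mul_le_mul_of_nonneg_right ?_ (by positivity)
            nlinarith
        _ = _ := by ring
    rw [show (∏ i, ((if τ i = true then Y else H' : ℕ) : ℝ)) = PK from rfl] at *
    rw [e1, div_eq_mul_inv PK]
    refine mul_le_mul_of_nonneg_left ?_ hPK0
    rw [div_le_iff₀ (by positivity), ← div_eq_inv_mul, le_div_iff₀ (by positivity)]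
    have e3 : 32768 * (m : ℝ) ^ 2 * (1 + (m + 1) * S) * L ^ (2 * A) * (3 * L ^ A) =
        98304 * (m : ℝ) ^ 2 * (1 + (m + 1) * S) * L ^ (3 * A) := by ring
    rw [e3]
    exact e2
  -- (3) the series
  have hQK : ∀ i, Q ^ 3 ≤ Kf i := by
    intro i
    simp only [hKf]
    split_ifs
    · exact hQY 3 (by nlinarith)
    · exact hQH
  have hB2 := tasm_markov (box b Kf) (fun h => sgT Q h - sgF Q h) (t := 1 / (4 * L ^ A)) (by positivity)
    (hser Q b Kf hQ2' hQK)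
  have hB2' : (((box b Kf).filter fun h => 1 / (4 * L ^ A) < |sgT Q h - sgF Q h|).card : ℝ) ≤ PK / (3 * L ^ A) := by
    refine hB2.trans ?_
    have e1 : C2 * (Real.log Q) ^ D2 * (∏ i, (Kf i : ℝ)) / Q / (1 / (4 * L ^ A)) ^ 2 =
        PK * (16 * C2 * (Real.log Q) ^ D2 * L ^ (2 * A) / Q) := by
      rw [pow_mul' L 2 A, show (∏ i, (Kf i : ℝ)) = PK from rfl]
      field_simp
      ring
    rw [e1, div_eq_mul_inv PK]
    refine mul_le_mul_of_nonneg_left ?_ hPK0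
    rw [div_le_iff₀ hQ0, ← div_eq_inv_mul, le_div_iff₀ (by positivity)]
    have h1 : (Real.log Q) ^ D2 ≤ l ^ D2 := pow_le_pow_left₀ hlogQ0 hlogQ D2
    have h2 : 2 * (16 * C2 * (Real.log Q) ^ D2 * L ^ (2 * A) * (3 * L ^ A)) ≤ l ^ g := by
      calc 2 * (16 * C2 * (Real.log Q) ^ D2 * L ^ (2 * A) * (3 * L ^ A))
          = 96 * C2 * (Real.log Q) ^ D2 * L ^ (3 * A) := by ring
        _ ≤ l * l ^ D2 * l ^ (3 * A) := by
            refine mul_le_mul (mul_le_mul (by linarith) h1 (by positivity) hl0.le) (hll _) (by positivity) (by positivity)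
        _ = l ^ (3 * A + D2 + 1) := by ring
        _ ≤ l ^ g := mono (by omega)
    linarith
  -- all together
  have hsub : ((box b Kf).filter fun h => ¬ (Function.Injective h ∧
      |wcnt (32 * Y) P R Y τ h - dP P ^ nE τ / l ^ m * Y * HL h| ≤ Y / L ^ A)) ⊆
      ((box b Kf).filter fun h => ¬ Function.Injective h) ∪
        (((box b Kf).filter fun h => Y * (1 / (4 * L ^ A)) <
          |wcnt (32 * Y) P R Y τ h - tasm_w (32 * Y) P R Q Y τ h|) ∪
        ((box b Kf).filter fun h => 1 / (4 * L ^ A) < |sgT Q h - sgF Q h|)) := by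
    intro h hh
    obtain ⟨hhb, hh2⟩ := mem_filter.1 hh
    by_contra hn
    rw [mem_union, mem_union, mem_filter, mem_filter, mem_filter, not_or, not_or] at hn
    obtain ⟨n1, n2, n3⟩ := hn
    have n1' : Function.Injective h := by
      by_contra h'
      exact n1 ⟨hhb, h'⟩
    have n2' : |wcnt (32 * Y) P R Y τ h - tasm_w (32 * Y) P R Q Y τ h| ≤ Y * (1 / (4 * L ^ A)) := by
      by_contra h'
      exact n2 ⟨hhb, not_le.1 h'⟩
    have n3' : |sgT Q h - sgF Q h| ≤ 1 / (4 * L ^ A) := by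
      by_contra h'
      exact n3 ⟨hhb, not_le.1 h'⟩
    refine hh2 ⟨n1', ?_⟩
    have hbx := hbox h hhb
    have hdP0 : 0 ≤ dP P := sum_nonneg fun _ _ => by positivity
    have hc0 : 0 ≤ dP P ^ nE τ / l ^ m := by positivity
    have hc1 : dP P ^ nE τ / l ^ m ≤ 1 := by
      rw [div_le_one (by positivity)]
      exact (pow_le_one₀ hdP0 hdP).trans (one_le_pow₀ hl1)
    have hsw1 := hsw Y hYs Q (by omega) (hQ1.trans hlg) h
    have hsw2 : (Y : ℝ) / L ^ (A + 1) ≤ Y * (1 / (4 * L ^ A)) := by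
      rw [pow_succ, mul_one_div, div_le_div_iff₀ (by positivity) (by positivity)]
      have : 0 ≤ (Y : ℝ) * L ^ A := by positivity
      nlinarith
    have hlog2 : Real.log (2 * Y : ℕ) ≤ l := by
      refine Real.log_le_log (by exact_mod_cast (by omega : 0 < 2 * Y)) ?_
      exact_mod_cast (by omega : 2 * Y ≤ 32 * Y)
    have hlog20 : 0 ≤ Real.log (2 * Y : ℕ) := Real.log_nonneg (by exact_mod_cast (by omega : 1 ≤ 2 * Y))
    have hCz : C3 * Real.log (2 * Y : ℕ) ≤ Q := by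
      have h1 : l * l ≤ l ^ g := by
        rw [← pow_two]
        exact mono (by omega)
      nlinarith
    obtain ⟨-, ht2, -, -⟩ := htail Q (2 * Y) h hQ2' (by omega) n1' (fun i => ⟨(hbx i).1, (hbx i).2.trans (by omega)⟩) hCz
    have ht3 : |sgF Q h - HL h| ≤ 1 / (4 * L ^ A) := by
      rw [sgF_eq]
      refine ht2.trans ?_
      rw [div_le_div_iff₀ hQ0 (by positivity), one_mul]
      have h1 : (Real.log Q) ^ D3 ≤ l ^ D3 := pow_le_pow_left₀ hlogQ0 hlogQ D3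
      have h2 : 2 * (C3 * Real.log (2 * Y : ℕ) * (Real.log Q) ^ D3 * (4 * L ^ A)) ≤ l ^ g := by
        calc 2 * (C3 * Real.log (2 * Y : ℕ) * (Real.log Q) ^ D3 * (4 * L ^ A))
            = 8 * C3 * (Real.log (2 * Y : ℕ)) * (Real.log Q) ^ D3 * L ^ A := by ring
          _ ≤ l * l * l ^ D3 * l ^ A := by
              refine mul_le_mul (mul_le_mul (mul_le_mul (by linarith) hlog2 hlog20 hl0.le) h1 (by positivity)
                (by positivity)) (hll _) (by positivity) (by positivity)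
          _ = l ^ (A + D3 + 2) := by ring
          _ ≤ l ^ g := mono (by omega)
      linarith
    have key := tasm_one (c := dP P ^ nE τ / l ^ m) (Y := Y) (t := 1 / (4 * L ^ A)) (L := 1 / L ^ A) hc0 hc1 (by positivity)
      (by positivity) n2' (tasm_plat τ (by omega) hPRY hPRY' h fun i => (hbx i).2) (hsw1.trans hsw2) n3' ht3
      (by field_simp)
    refine key.trans (le_of_eq ?_)
    rw [mul_one_div]
  have hcard := card_le_card hsub
  have hc1 := card_union_le ((box b Kf).filter fun h => ¬ Function.Injective h)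
    (((box b Kf).filter fun h => Y * (1 / (4 * L ^ A)) <
          |wcnt (32 * Y) P R Y τ h - tasm_w (32 * Y) P R Q Y τ h|) ∪
        ((box b Kf).filter fun h => 1 / (4 * L ^ A) < |sgT Q h - sgF Q h|))
  have hc2 := card_union_le (((box b Kf).filter fun h => Y * (1 / (4 * L ^ A)) <
          |wcnt (32 * Y) P R Y τ h - tasm_w (32 * Y) P R Q Y τ h|))
        ((box b Kf).filter fun h => 1 / (4 * L ^ A) < |sgT Q h - sgF Q h|)
  have hfin : ((((box b Kf).filter fun h => ¬ (Function.Injective h ∧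
      |wcnt (32 * Y) P R Y τ h - dP P ^ nE τ / l ^ m * Y * HL h| ≤ Y / L ^ A)).card : ℕ) : ℝ) ≤
      (((box b Kf).filter fun h => ¬ Function.Injective h).card : ℝ) +
      ((((box b Kf).filter fun h => Y * (1 / (4 * L ^ A)) <
          |wcnt (32 * Y) P R Y τ h - tasm_w (32 * Y) P R Q Y τ h|).card : ℝ) +
      (((box b Kf).filter fun h => 1 / (4 * L ^ A) < |sgT Q h - sgF Q h|).card : ℝ)) := by
    exact_mod_cast hcard.trans (hc1.trans (Nat.add_le_add_left hc2 _))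
  refine hfin.trans ?_
  have hlast : PK / L ^ A = PK / (3 * L ^ A) + (PK / (3 * L ^ A) + PK / (3 * L ^ A)) := by
    field_simp
    ring
  rw [hlast]
  exact add_le_add hNI (add_le_add hB1' hB2')

end Pool.Agent.Lib.VKT
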