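import Pool.Agent.Lib.VK.TPar

/-!
# VK / TCir (P4): from the circle to the integers

PROOF. Let `D(u) = 1[a < u ≤ 2a] - (1/2πu) ∑_{|j| ≤ T} Ia a j u^(ij)` for real `u > 0`. With `u = e^θ`, `du = e^θ dθ`:
`∫_{X e^(-2π)}^X |D(u)|² du = ∫ |g - S_T g|² e^(-θ) dθ ≤ (e^(2π)/X) 3a²/T ≤ 536 X/T` (parI, `a ≤ X/2`, `e^(2π) ≤ 536`, `G3.ll_exp`).
The smooth part `S(u) = (1/2πu) ∑ Ia a j u^(ij)` has `|S(u)| ≤ (2T+1) 6a/(2πu) ≤ 1000 T` and `|S'(u)| ≤ (1/2πu²) ∑ |Ia a j| (1+|j|) ≤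
(2T+1) 6 a/(2π u²) ≤ C T/X` for `u ≥ X/600` (`Ia_le`). For an integer `n` with `X0 X + 2 ≤ n ≤ X` such that neither `a` nor `2a` lies
in `[n-1, n]`: `|D(n)|² ≤ 2 |D(u)|² + 2 (C T/X)²` for `u ∈ [n-1, n]`; integrate over `u` and sum over `n`: `≤ 2 ∫ |D|² + 2 C² T²/X`. The
remaining at most 5 integers contribute at most `(1 + 1000 T)²` each. For `n ≤ X0 X` both terms are `0` (`a ≥ X/300 > X0 X`,
`mo = 0`). No change of variables in Lean is needed if one keeps `θ`: `D(n)` is compared with the integrand at `θ ∈ [log(n-1), log n]`,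
an interval of length `≥ 1/n ≥ 1/X`: `|D(n)|² ≤ 2 e^(-2θ) |g(θ) - S_T g(θ)|² + 2 (C T/X)²`, integrate over `θ` and divide by the length.
-/

set_option autoImplicit false

open Finset

namespace Pool.Agent.Lib.VKT

open Pool.Agent.Lib.G3 (mo)

/-! ### Elementary bounds -/

private theorem tcir_exp : Real.exp (2 * Real.pi) ≤ 536 := by
  have h1 := Real.pi_lt_d6
  have h2 : Real.exp (2 * Real.pi) ≤ Real.exp (6.283186) := Real.exp_le_exp.mpr (by linarith)
  have h3 : Real.exp (6.283186 : ℝ) = Real.exp 1 ^ 6 * Real.exp (0.283186) := by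
    rw [← Real.exp_nat_mul, ← Real.exp_add]
    norm_num
  have h4 := Real.exp_one_lt_d9
  have h5 : Real.exp (0.283186 : ℝ) ≤ 1.3274 := by
    have h6 := Real.exp_bound' (x := (0.283186 : ℝ)) (by norm_num) (by norm_num) (n := 6) (by norm_num)
    refine h6.trans ?_
    norm_num [Finset.sum_range_succ, Nat.factorial]
  have h7 : Real.exp 1 ^ 6 ≤ 2.7182818286 ^ 6 := pow_le_pow_left₀ (Real.exp_pos _).le h4.le _
  calc Real.exp (2 * Real.pi) ≤ Real.exp 1 ^ 6 * Real.exp (0.283186) := by rw [← h3]; exact h2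
    _ ≤ 2.7182818286 ^ 6 * 1.3274 := by gcongr
    _ ≤ 536 := by norm_num

private theorem tcir_lo : (1 : ℝ) / 536 ≤ Real.exp (-(2 * Real.pi)) := by
  rw [Real.exp_neg, one_div]
  exact inv_anti₀ (Real.exp_pos _) tcir_exp

private theorem tcir_hi : Real.exp (-(2 * Real.pi)) < 1 / 300 := by
  have h1 := Real.pi_gt_three
  have h2 : Real.exp 6 < Real.exp (2 * Real.pi) := Real.exp_lt_exp.mpr (by linarith)
  have h3 : Real.exp (6 : ℝ) = Real.exp 1 ^ 6 := by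
    rw [← Real.exp_nat_mul]
    norm_num
  have h4 := Real.exp_one_gt_d9
  have h5 : (2.7182818283 : ℝ) ^ 6 ≤ Real.exp 1 ^ 6 := pow_le_pow_left₀ (by norm_num) h4.le _
  have h6 : (300 : ℝ) < Real.exp (2 * Real.pi) := by
    have : (300 : ℝ) < 2.7182818283 ^ 6 := by norm_num
    linarith
  rw [Real.exp_neg, one_div]
  exact inv_strictAnti₀ (by norm_num) h6

/-- the partial sum -/
private noncomputable def tcirS (a : ℝ) (T : ℕ) (θ : ℝ) : ℂ :=
  ((1 / (2 * Real.pi) : ℝ) : ℂ) * ∑ j ∈ Icc (-(T : ℤ)) T, Ia a j *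
          Complex.exp ((((j : ℝ) * θ : ℝ) : ℂ) * Complex.I)

/-- the function -/
private noncomputable def tcirg (a θ : ℝ) : ℂ :=
  if Real.log a < θ ∧ θ ≤ Real.log (2 * a) then ((Real.exp θ : ℝ) : ℂ) else 0

private theorem tcir_sum {a : ℝ} (ha : 0 < a) {T : ℕ} (hT : 1 ≤ T) :
    (1 / (2 * Real.pi)) * ∑ j ∈ Icc (-(T : ℤ)) T, ‖Ia a j‖ * (1 + |(j : ℝ)|) ≤ 3 * a * T := by
  have h1 : ∑ j ∈ Icc (-(T : ℤ)) T, ‖Ia a j‖ * (1 + |(j : ℝ)|) ≤ ∑ _j ∈ Icc (-(T : ℤ)) T, 6 * a := by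
    refine sum_le_sum fun j _ => ?_
    have h2 := Ia_le ha j
    have h3 : (0 : ℝ) < 1 + |(j : ℝ)| := by positivity
    calc ‖Ia a j‖ * (1 + |(j : ℝ)|) ≤ (3 * a / (1 + |(j : ℝ)|) * 2) * (1 + |(j : ℝ)|) :=
          mul_le_mul_of_nonneg_right h2 h3.le
      _ = 6 * a := by field_simp; ring
  rw [sum_const, Int.card_Icc, nsmul_eq_mul] at h1
  have h4 : (((T : ℤ) + 1 - -(T : ℤ)).toNat : ℝ) = 2 * T + 1 := by
    have : ((T : ℤ) + 1 - -(T : ℤ)).toNat = 2 * T + 1 := by omega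
    rw [this]; push_cast; ring
  rw [h4] at h1
  have h5 : (1 : ℝ) ≤ T := by exact_mod_cast hT
  have h6 := Real.pi_gt_three
  have h7 : (2 * (T : ℝ) + 1) * (6 * a) ≤ 18 * a * T := by nlinarith
  have h8 : 1 / (2 * Real.pi) ≤ 1 / 6 := one_div_le_one_div_of_le (by norm_num) (by linarith)
  have h9 : 0 ≤ ∑ j ∈ Icc (-(T : ℤ)) T, ‖Ia a j‖ * (1 + |(j : ℝ)|) := sum_nonneg fun j _ => by positivity
  calc (1 / (2 * Real.pi)) * ∑ j ∈ Icc (-(T : ℤ)) T, ‖Ia a j‖ * (1 + |(j : ℝ)|)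
      ≤ (1 / 6) * ∑ j ∈ Icc (-(T : ℤ)) T, ‖Ia a j‖ * (1 + |(j : ℝ)|) := mul_le_mul_of_nonneg_right h8 h9
    _ ≤ (1 / 6) * (18 * a * T) := by
        refine mul_le_mul_of_nonneg_left (h1.trans h7) (by norm_num)
    _ = 3 * a * T := by ring

private theorem tcir_norm_e (x : ℝ) : ‖Complex.exp ((x : ℂ) * Complex.I)‖ = 1 :=
  Complex.norm_exp_ofReal_mul_I x

private theorem tcirS_le {a : ℝ} (ha : 0 < a) {T : ℕ} (hT : 1 ≤ T) (θ : ℝ) : ‖tcirS a T θ‖ ≤ 3 * a * T := by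
  refine le_trans ?_ (tcir_sum ha hT)
  have hpi : 0 ≤ 1 / (2 * Real.pi) := by positivity
  unfold tcirS
  rw [norm_mul, Complex.norm_real, Real.norm_of_nonneg hpi]
  refine mul_le_mul_of_nonneg_left ((norm_sum_le _ _).trans (sum_le_sum fun j _ => ?_)) hpi
  rw [norm_mul, tcir_norm_e]
  refine mul_le_mul_of_nonneg_left ?_ (norm_nonneg _)
  have := abs_nonneg (j : ℝ)
  linarith

private theorem tcir_e_sub (x y : ℝ) :
    ‖Complex.exp ((x : ℂ) * Complex.I) - Complex.exp ((y : ℂ) * Complex.I)‖ ≤ |x - y| := by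
  have h1 : Complex.exp ((x : ℂ) * Complex.I) - Complex.exp ((y : ℂ) * Complex.I) =
      Complex.exp ((y : ℂ) * Complex.I) * (Complex.exp (Complex.I * ((x - y : ℝ) : ℂ)) - 1) := by
    rw [mul_sub, ← Complex.exp_add, mul_one]
    congr 2
    push_cast
    ring
  rw [h1, norm_mul, tcir_norm_e, one_mul]
  exact Real.norm_exp_I_mul_ofReal_sub_one_le

private theorem tcir_term (j : ℤ) {θ u : ℝ} (h : θ ≤ u) :
    ‖((Real.exp (-u) : ℝ) : ℂ) * Complex.exp ((((j : ℝ) * u : ℝ) : ℂ) * Complex.I) -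
      ((Real.exp (-θ) : ℝ) : ℂ) * Complex.exp ((((j : ℝ) * θ : ℝ) : ℂ) * Complex.I)‖ ≤
      Real.exp (-θ) * (u - θ) * (1 + |(j : ℝ)|) := by
  have h1 : ((Real.exp (-u) : ℝ) : ℂ) * Complex.exp ((((j : ℝ) * u : ℝ) : ℂ) * Complex.I) -
      ((Real.exp (-θ) : ℝ) : ℂ) * Complex.exp ((((j : ℝ) * θ : ℝ) : ℂ) * Complex.I) =
      ((Real.exp (-u) - Real.exp (-θ) : ℝ) : ℂ) * Complex.exp ((((j : ℝ) * u : ℝ) : ℂ) * Complex.I) +
      ((Real.exp (-θ) : ℝ) : ℂ) * (Complex.exp ((((j : ℝ) * u : ℝ) : ℂ) * Complex.I) -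
        Complex.exp ((((j : ℝ) * θ : ℝ) : ℂ) * Complex.I)) := by
    push_cast
    ring
  have h2 : Real.exp (-θ) - Real.exp (-u) ≤ Real.exp (-θ) * (u - θ) := by
    have e1 : Real.exp (-u) = Real.exp (-θ) * Real.exp (-(u - θ)) := by
      rw [← Real.exp_add]; congr 1; ring
    have e2 := Real.add_one_le_exp (-(u - θ))
    rw [e1]
    nlinarith [Real.exp_pos (-θ)]
  have h3 : Real.exp (-u) ≤ Real.exp (-θ) := Real.exp_le_exp.mpr (by linarith)
  have h4 := tcir_e_sub ((j : ℝ) * u) ((j : ℝ) * θ)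
  have h5 : |(j : ℝ) * u - (j : ℝ) * θ| = |(j : ℝ)| * (u - θ) := by
    rw [← mul_sub, abs_mul, abs_of_nonneg (sub_nonneg.2 h)]
  rw [h5] at h4
  rw [h1]
  refine (norm_add_le _ _).trans ?_
  rw [norm_mul, norm_mul, tcir_norm_e, Complex.norm_real, Complex.norm_real, mul_one,
    Real.norm_of_nonneg (Real.exp_pos _).le, Real.norm_eq_abs, abs_sub_comm, abs_of_nonneg (sub_nonneg.2 h3)]
  have h6 : Real.exp (-θ) * ‖Complex.exp ((((j : ℝ) * u : ℝ) : ℂ) * Complex.I) -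
      Complex.exp ((((j : ℝ) * θ : ℝ) : ℂ) * Complex.I)‖ ≤ Real.exp (-θ) * (|(j : ℝ)| * (u - θ)) :=
    mul_le_mul_of_nonneg_left h4 (Real.exp_pos _).le
  calc _ ≤ Real.exp (-θ) * (u - θ) + Real.exp (-θ) * (|(j : ℝ)| * (u - θ)) := add_le_add h2 h6
    _ = _ := by ring

private theorem tcir_lip {a : ℝ} (ha : 0 < a) {T : ℕ} (hT : 1 ≤ T) {θ u : ℝ} (h : θ ≤ u) :
    ‖((Real.exp (-u) : ℝ) : ℂ) * tcirS a T u - ((Real.exp (-θ) : ℝ) : ℂ) * tcirS a T θ‖ ≤
      Real.exp (-θ) * (u - θ) * (3 * a * T) := by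
  have hpi : 0 ≤ 1 / (2 * Real.pi) := by positivity
  have h1 : ((Real.exp (-u) : ℝ) : ℂ) * tcirS a T u - ((Real.exp (-θ) : ℝ) : ℂ) * tcirS a T θ =
      ((1 / (2 * Real.pi) : ℝ) : ℂ) * ∑ j ∈ Icc (-(T : ℤ)) T, Ia a j *
        (((Real.exp (-u) : ℝ) : ℂ) * Complex.exp ((((j : ℝ) * u : ℝ) : ℂ) * Complex.I) -
      ((Real.exp (-θ) : ℝ) : ℂ) * Complex.exp ((((j : ℝ) * θ : ℝ) : ℂ) * Complex.I)) := by
    unfold tcirS
    simp only [mul_sub, sum_sub_distrib]
    congr 1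
    · rw [mul_left_comm]
      congr 1
      rw [mul_sum]
      exact sum_congr rfl fun j _ => by ring
    · rw [mul_left_comm]
      congr 1
      rw [mul_sum]
      exact sum_congr rfl fun j _ => by ring
  have h0 : 0 ≤ Real.exp (-θ) * (u - θ) := mul_nonneg (Real.exp_pos _).le (sub_nonneg.2 h)
  rw [h1, norm_mul, Complex.norm_real, Real.norm_of_nonneg hpi]
  calc (1 / (2 * Real.pi)) * ‖∑ j ∈ Icc (-(T : ℤ)) T, Ia a j *
        (((Real.exp (-u) : ℝ) : ℂ) * Complex.exp ((((j : ℝ) * u : ℝ) : ℂ) * Complex.I) -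
      ((Real.exp (-θ) : ℝ) : ℂ) * Complex.exp ((((j : ℝ) * θ : ℝ) : ℂ) * Complex.I))‖
      ≤ (1 / (2 * Real.pi)) * ∑ j ∈ Icc (-(T : ℤ)) T, (Real.exp (-θ) * (u - θ)) * (‖Ia a j‖ * (1 + |(j : ℝ)|)) := by
        refine mul_le_mul_of_nonneg_left ((norm_sum_le _ _).trans (sum_le_sum fun j _ => ?_)) hpi
        rw [norm_mul]
        calc _ ≤ ‖Ia a j‖ * (Real.exp (-θ) * (u - θ) * (1 + |(j : ℝ)|)) :=
              mul_le_mul_of_nonneg_left (tcir_term j h) (norm_nonneg _)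
          _ = _ := by ring
    _ = (Real.exp (-θ) * (u - θ)) * ((1 / (2 * Real.pi)) * ∑ j ∈ Icc (-(T : ℤ)) T, ‖Ia a j‖ * (1 + |(j : ℝ)|)) := by
        rw [← mul_sum]; ring
    _ ≤ (Real.exp (-θ) * (u - θ)) * (3 * a * T) := mul_le_mul_of_nonneg_left (tcir_sum ha hT) h0

/-- the terms of the sum -/
private noncomputable def tcirD (a : ℝ) (T X n : ℕ) : ℂ :=
  (if a < n ∧ (n : ℝ) ≤ 2 * a then (1 : ℂ) else 0) - mo (fun j => Ia a j) (Icc (-(T : ℤ)) T) X n

private theorem tcir_mo {a : ℝ} {T X n : ℕ} (h1 : G3.X0 X < n) (h2 : n ≤ X) :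
    mo (fun j => Ia a j) (Icc (-(T : ℤ)) T) X n = ((Real.exp (-Real.log n) : ℝ) : ℂ) * tcirS a T (Real.log n) := by
  have hn : (0 : ℝ) < n := by exact_mod_cast (by omega : 0 < n)
  unfold mo tcirS
  rw [if_pos ⟨h1, h2⟩, Real.exp_neg, Real.exp_log hn, ← mul_assoc]
  congr 1
  · rw [← Complex.ofReal_mul]
    congr 1
    field_simp
  · refine sum_congr rfl fun j _ => ?_
    congr 1
    unfold MRT.cj
    rw [← Complex.exp_conj]
    congr 1
    simp only [map_mul, Complex.conj_ofReal, Complex.conj_I]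
    push_cast
    ring

private theorem tcir_bad {a : ℝ} (ha : 0 < a) {T X n : ℕ} (hT : 1 ≤ T) (ha2 : 2 * a ≤ X) (h1 : G3.X0 X < n) (h2 : n ≤ X) :
    ‖tcirD a T X n‖ ^ 2 ≤ 10 ^ 6 * (T : ℝ) ^ 2 := by
  have hn : (0 : ℝ) < n := by exact_mod_cast (by omega : 0 < n)
  have hT1 : (1 : ℝ) ≤ T := by exact_mod_cast hT
  have hX : (0 : ℝ) < X := by linarith
  have hn2 : (X : ℝ) / 536 ≤ n := by
    have e1 : (X : ℝ) * Real.exp (-(2 * Real.pi)) < (G3.X0 X : ℝ) + 1 := Nat.lt_floor_add_one _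
    have e2 : ((G3.X0 X : ℝ)) + 1 ≤ n := by exact_mod_cast h1
    have e3 : (X : ℝ) * (1 / 536) ≤ X * Real.exp (-(2 * Real.pi)) := mul_le_mul_of_nonneg_left tcir_lo hX.le
    linarith
  have h3 : ‖tcirD a T X n‖ ≤ 1 + 804 * T := by
    unfold tcirD
    rw [tcir_mo h1 h2]
    refine (norm_sub_le _ _).trans (add_le_add ?_ ?_)
    · split_ifs <;> simp
    · rw [norm_mul, Complex.norm_real, Real.norm_of_nonneg (Real.exp_pos _).le, Real.exp_neg, Real.exp_log hn]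
      have e1 := tcirS_le ha hT (Real.log n)
      have e2 : (n : ℝ)⁻¹ ≤ 536 / X := by
        rw [inv_eq_one_div, div_le_div_iff₀ hn hX]
        rw [div_le_iff₀ (by norm_num)] at hn2
        linarith
      calc (n : ℝ)⁻¹ * ‖tcirS a T (Real.log n)‖ ≤ (536 / X) * (3 * a * T) :=
            mul_le_mul e2 e1 (norm_nonneg _) (by positivity)
        _ ≤ (536 / X) * (3 * (X / 2) * T) := by
            have : a ≤ (X : ℝ) / 2 := by linarith
            gcongr
        _ = 804 * T := by field_simp; norm_num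
  have h4 : ‖tcirD a T X n‖ ≤ 1000 * T := by linarith
  calc ‖tcirD a T X n‖ ^ 2 ≤ (1000 * (T : ℝ)) ^ 2 := pow_le_pow_left₀ (norm_nonneg _) h4 2
    _ = 10 ^ 6 * (T : ℝ) ^ 2 := by ring

private theorem tcir_pt {a : ℝ} (ha : 0 < a) {T X k : ℕ} (hT : 1 ≤ T) (ha2 : 2 * a ≤ X) (h1 : G3.X0 X < k) (h2 : k + 1 ≤ X)
    (g1 : a < k ∨ (k : ℝ) + 1 < a) (g2 : 2 * a < k ∨ (k : ℝ) + 1 < 2 * a) {θ : ℝ} (t1 : Real.log k ≤ θ)
    (t2 : θ ≤ Real.log (k + 1 : ℕ)) :
    ‖tcirD a T X (k + 1)‖ ^ 2 ≤ 2 * (536 / X) ^ 2 * ‖tcirg a θ - tcirS a T θ‖ ^ 2 + 2 * (10 ^ 6 * T / X) ^ 2 := by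
  have hk : (0 : ℝ) < k := by exact_mod_cast (by omega : 0 < k)
  have hk1 : (0 : ℝ) < (k + 1 : ℕ) := by positivity
  have hT1 : (1 : ℝ) ≤ T := by exact_mod_cast hT
  have hX : (0 : ℝ) < X := by linarith
  have hn2 : (X : ℝ) / 536 ≤ k := by
    have e1 : (X : ℝ) * Real.exp (-(2 * Real.pi)) < (G3.X0 X : ℝ) + 1 := Nat.lt_floor_add_one _
    have e2 : ((G3.X0 X : ℝ)) + 1 ≤ k := by exact_mod_cast h1
    have e3 : (X : ℝ) * (1 / 536) ≤ X * Real.exp (-(2 * Real.pi)) := mul_le_mul_of_nonneg_left tcir_lo hX.le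
    linarith
  have e0 : Real.exp (-θ) ≤ 1 / k := by
    rw [Real.exp_neg, ← one_div]
    refine one_div_le_one_div_of_le hk ?_
    rw [← Real.exp_log hk]
    exact Real.exp_le_exp.mpr t1
  have e1 : 1 / (k : ℝ) ≤ 536 / X := by
    rw [div_le_div_iff₀ hk hX]
    rw [div_le_iff₀ (by norm_num)] at hn2
    linarith
  have e2 : Real.log (k + 1 : ℕ) - θ ≤ 1 / k := by
    have e3 : Real.log (k + 1 : ℕ) - Real.log k ≤ 1 / k := by
      rw [← Real.log_div hk1.ne' hk.ne']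
      have e4 := Real.log_le_sub_one_of_pos (show (0 : ℝ) < ((k + 1 : ℕ) : ℝ) / k by positivity)
      refine e4.trans (le_of_eq ?_)
      push_cast
      field_simp
      ring
    linarith
  have hg : (if a < (k + 1 : ℕ) ∧ ((k + 1 : ℕ) : ℝ) ≤ 2 * a then (1 : ℂ) else 0) =
      ((Real.exp (-θ) : ℝ) : ℂ) * tcirg a θ := by
    have c1 : (a < (k + 1 : ℕ)) ↔ Real.log a < θ := by
      rcases g1 with g | g
      · refine ⟨fun _ => lt_of_lt_of_le (Real.log_lt_log ha g) t1, fun _ => ?_⟩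
        push_cast
        linarith
      · refine ⟨fun h => ?_, fun h => ?_⟩
        · push_cast at h
          linarith
        · have : Real.log (k + 1 : ℕ) < Real.log a := Real.log_lt_log hk1 (by push_cast; exact g)
          linarith
    have c2 : (((k + 1 : ℕ) : ℝ) ≤ 2 * a) ↔ θ ≤ Real.log (2 * a) := by
      rcases g2 with g | g
      · refine ⟨fun h => ?_, fun h => ?_⟩
        · push_cast at h
          linarith
        · have : Real.log (2 * a) < Real.log k := Real.log_lt_log (by positivity) g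
          linarith
      · refine ⟨fun _ => t2.trans (Real.log_le_log hk1 (by push_cast; exact g.le)), fun _ => ?_⟩
        push_cast
        exact g.le
    unfold tcirg
    simp only [c1, c2]
    split_ifs with h
    · rw [← Complex.ofReal_mul, ← Real.exp_add, neg_add_cancel, Real.exp_zero, Complex.ofReal_one]
    · rw [mul_zero]
  have hD : tcirD a T X (k + 1) = ((Real.exp (-θ) : ℝ) : ℂ) * (tcirg a θ - tcirS a T θ) -
      (((Real.exp (-Real.log (k + 1 : ℕ)) : ℝ) : ℂ) * tcirS a T (Real.log (k + 1 : ℕ)) -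
        ((Real.exp (-θ) : ℝ) : ℂ) * tcirS a T θ) := by
    unfold tcirD
    rw [tcir_mo (by omega) h2, hg]
    ring
  have h5 : ‖tcirD a T X (k + 1)‖ ≤ (536 / X) * ‖tcirg a θ - tcirS a T θ‖ + 10 ^ 6 * T / X := by
    rw [hD]
    refine (norm_sub_le _ _).trans (add_le_add ?_ ?_)
    · rw [norm_mul, Complex.norm_real, Real.norm_of_nonneg (Real.exp_pos _).le]
      exact mul_le_mul_of_nonneg_right (e0.trans e1) (norm_nonneg _)
    · refine (tcir_lip ha hT t2).trans ?_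
      have s1 : 0 ≤ Real.log (k + 1 : ℕ) - θ := by linarith
      have s0 : 0 ≤ 536 / (X : ℝ) := by positivity
      calc Real.exp (-θ) * (Real.log (k + 1 : ℕ) - θ) * (3 * a * T)
          ≤ (536 / X) * (536 / X) * (3 * (X / 2) * T) := by
            have s2 : a ≤ (X : ℝ) / 2 := by linarith
            have s3 : Real.exp (-θ) * (Real.log (k + 1 : ℕ) - θ) ≤ (536 / X) * (536 / X) :=
              mul_le_mul (e0.trans e1) (e2.trans e1) s1 s0
            refine mul_le_mul s3 ?_ (by positivity) (by positivity)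
            gcongr
        _ = 430944 * T / X := by field_simp; norm_num
        _ ≤ 10 ^ 6 * T / X := by gcongr; norm_num
  have h6 : ‖tcirD a T X (k + 1)‖ ^ 2 ≤ ((536 / X) * ‖tcirg a θ - tcirS a T θ‖ + 10 ^ 6 * T / X) ^ 2 :=
    pow_le_pow_left₀ (norm_nonneg _) h5 2
  refine h6.trans ?_
  nlinarith [sq_nonneg ((536 / X) * ‖tcirg a θ - tcirS a T θ‖ - 10 ^ 6 * T / X)]

private theorem tcir_int {a : ℝ} (ha : 0 < a) {T : ℕ} (hT : 1 ≤ T) (u v : ℝ) :
    IntervalIntegrable (fun θ => ‖tcirg a θ - tcirS a T θ‖ ^ 2) MeasureTheory.volume u v := by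
  rw [intervalIntegrable_iff]
  have hm : Measurable (fun θ => ‖tcirg a θ - tcirS a T θ‖ ^ 2) := by
    have m1 : Measurable (fun θ => tcirg a θ) := by
      unfold tcirg
      refine Measurable.ite ?_ (by fun_prop) measurable_const
      exact (measurableSet_lt measurable_const measurable_id).inter
        (measurableSet_le measurable_id measurable_const)
    have m2 : Measurable (fun θ => tcirS a T θ) := by
      unfold tcirS
      fun_prop
    exact ((m1.sub m2).norm).pow_const 2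
  refine MeasureTheory.Measure.integrableOn_of_bounded (M := (2 * a + 3 * a * T) ^ 2) ?_ hm.aestronglyMeasurable ?_
  · rw [Set.uIoc]
    exact measure_Ioc_lt_top.ne
  · refine MeasureTheory.ae_of_all _ fun θ => ?_
    rw [Real.norm_of_nonneg (by positivity)]
    refine pow_le_pow_left₀ (norm_nonneg _) ((norm_sub_le _ _).trans (add_le_add ?_ (tcirS_le ha hT θ))) 2
    unfold tcirg
    split_ifs with h
    · rw [Complex.norm_real, Real.norm_of_nonneg (Real.exp_pos _).le, ← Real.exp_log (show 0 < 2 * a by positivity)]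
      exact Real.exp_le_exp.mpr h.2
    · rw [norm_zero]
      positivity

private theorem tcir_good {a : ℝ} (ha : 0 < a) {T X k : ℕ} (hT : 1 ≤ T) (ha2 : 2 * a ≤ X) (h1 : G3.X0 X < k) (h2 : k + 1 ≤ X)
    (g1 : a < k ∨ (k : ℝ) + 1 < a) (g2 : 2 * a < k ∨ (k : ℝ) + 1 < 2 * a) :
    ‖tcirD a T X (k + 1)‖ ^ 2 ≤ 2 * 536 ^ 2 / X *
      (∫ θ in (Real.log k)..(Real.log (k + 1 : ℕ)), ‖tcirg a θ - tcirS a T θ‖ ^ 2) + 2 * (10 ^ 6 * T / X) ^ 2 := by
  have hk : (0 : ℝ) < k := by exact_mod_cast (by omega : 0 < k)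
  have hk1 : (0 : ℝ) < (k + 1 : ℕ) := by positivity
  have hX : (0 : ℝ) < X := by linarith
  have hlog : Real.log k ≤ Real.log (k + 1 : ℕ) := Real.log_le_log hk (by push_cast; linarith)
  have hint : 0 ≤ ∫ θ in (Real.log k)..(Real.log (k + 1 : ℕ)), ‖tcirg a θ - tcirS a T θ‖ ^ 2 :=
    intervalIntegral.integral_nonneg hlog fun θ _ => by positivity
  set I := ∫ θ in (Real.log k)..(Real.log (k + 1 : ℕ)), ‖tcirg a θ - tcirS a T θ‖ ^ 2 with hI
  set B := 2 * (10 ^ 6 * (T : ℝ) / X) ^ 2 with hB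
  set D := ‖tcirD a T X (k + 1)‖ ^ 2 with hD
  have h3 : ∫ _θ in (Real.log k)..(Real.log (k + 1 : ℕ)), (D - B) ≤
      ∫ θ in (Real.log k)..(Real.log (k + 1 : ℕ)), 2 * (536 / X) ^ 2 * ‖tcirg a θ - tcirS a T θ‖ ^ 2 := by
    refine intervalIntegral.integral_mono_on hlog (by simp) ((tcir_int ha hT _ _).const_mul _) fun θ hθ => ?_
    have := tcir_pt ha hT ha2 h1 h2 g1 g2 hθ.1 hθ.2
    linarith
  rw [intervalIntegral.integral_const, intervalIntegral.integral_const_mul, ← hI, smul_eq_mul] at h3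
  rcases le_or_gt D B with hc | hc
  · have : 0 ≤ 2 * 536 ^ 2 / (X : ℝ) * I := by positivity
    linarith
  · have h4 : 1 / (X : ℝ) ≤ Real.log (k + 1 : ℕ) - Real.log k := by
      have e1 : 1 / (X : ℝ) ≤ 1 / (k + 1 : ℕ) := one_div_le_one_div_of_le hk1 (by exact_mod_cast h2)
      have e2 : Real.log k - Real.log (k + 1 : ℕ) ≤ -(1 / (k + 1 : ℕ)) := by
        rw [← Real.log_div hk.ne' hk1.ne']
        have e4 := Real.log_le_sub_one_of_pos (show (0 : ℝ) < (k : ℝ) / ((k + 1 : ℕ) : ℝ) by positivity)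
        refine e4.trans (le_of_eq ?_)
        push_cast
        field_simp
        ring
      linarith
    have h5 : 1 / (X : ℝ) * (D - B) ≤ 2 * (536 / X) ^ 2 * I :=
      (mul_le_mul_of_nonneg_right h4 (by linarith)).trans h3
    have h6 : D - B ≤ 2 * 536 ^ 2 / X * I := by
      have e1 : D - B = X * (1 / (X : ℝ) * (D - B)) := by field_simp
      rw [e1]
      calc (X : ℝ) * (1 / (X : ℝ) * (D - B)) ≤ X * (2 * (536 / X) ^ 2 * I) := mul_le_mul_of_nonneg_left h5 hX.le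
        _ = 2 * 536 ^ 2 / X * I := by field_simp
    linarith

/-- the exceptional integers -/
private noncomputable def tcirB (a : ℝ) (X : ℕ) : Finset ℕ :=
  {G3.X0 X + 1, ⌊a⌋₊, ⌊a⌋₊ + 1, ⌊2 * a⌋₊, ⌊2 * a⌋₊ + 1}

private theorem tcirB_card (a : ℝ) (X : ℕ) : (tcirB a X).card ≤ 5 := Finset.card_le_five

private theorem tcir_notmem {a : ℝ} (ha : 0 < a) {k : ℕ} (h1 : k + 1 ≠ ⌊a⌋₊) (h2 : k + 1 ≠ ⌊a⌋₊ + 1) :
    a < k ∨ (k : ℝ) + 1 < a := by
  rcases lt_or_ge a k with h | h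
  · exact Or.inl h
  · right
    have h3 : k ≤ ⌊a⌋₊ := Nat.le_floor h
    have h4 : k + 2 ≤ ⌊a⌋₊ := by omega
    have h5 : ((k + 2 : ℕ) : ℝ) ≤ a := (Nat.le_floor_iff ha.le).1 h4
    push_cast at h5
    linarith

theorem cirI : ∃ C : ℝ, 0 < C ∧ ∀ (X T : ℕ) (a : ℝ), 10000 ≤ X → 1 ≤ T → (X : ℝ) / 300 ≤ a → 2 * a ≤ X →
    ∑ n ∈ Icc 1 X, ‖(if a < n ∧ (n : ℝ) ≤ 2 * a then (1 : ℂ) else 0) - mo (fun j => Ia a j) (Icc (-(T : ℤ)) T) X n‖ ^ 2 ≤
      C * (X / T + (T : ℝ) ^ 2) := by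
  refine ⟨10 ^ 13, by norm_num, fun X T a hX hT ha1 ha2 => ?_⟩
  have hX1 : (10000 : ℝ) ≤ X := by exact_mod_cast hX
  have hX0 : (0 : ℝ) < X := by linarith
  have ha : 0 < a := lt_of_lt_of_le (by positivity) ha1
  have hT1 : (1 : ℝ) ≤ T := by exact_mod_cast hT
  have hT0 : (0 : ℝ) < T := by linarith
  show ∑ n ∈ Icc 1 X, ‖tcirD a T X n‖ ^ 2 ≤ 10 ^ 13 * (X / T + (T : ℝ) ^ 2)
  set N0 := G3.X0 X + 1 with hN0
  have hlt : (X : ℝ) * Real.exp (-(2 * Real.pi)) < (G3.X0 X : ℝ) + 1 := Nat.lt_floor_add_one _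
  have hle : (G3.X0 X : ℝ) ≤ (X : ℝ) * Real.exp (-(2 * Real.pi)) := Nat.floor_le (by positivity)
  have hlt2 : (X : ℝ) * Real.exp (-(2 * Real.pi)) < X * (1 / 300) := mul_lt_mul_of_pos_left tcir_hi hX0
  have hN0X : N0 ≤ X := by
    have : (G3.X0 X : ℝ) < X := by linarith
    have : G3.X0 X < X := by exact_mod_cast this
    omega
  -- the pointwise bound
  have hpt : ∀ k ∈ Ico 0 X, ‖tcirD a T X (k + 1)‖ ^ 2 ≤
      (if N0 ≤ k then 2 * 536 ^ 2 / X *
      (∫ θ in (Real.log k)..(Real.log (k + 1 : ℕ)), ‖tcirg a θ - tcirS a T θ‖ ^ 2) + 2 * (10 ^ 6 * T / X) ^ 2 else 0) +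
      (if k + 1 ∈ tcirB a X then 10 ^ 6 * (T : ℝ) ^ 2 else 0) := by
    intro k hk
    have hkX : k + 1 ≤ X := by have := (mem_Ico.1 hk).2; omega
    have hnn : 0 ≤ (if N0 ≤ k then 2 * 536 ^ 2 / X *
      (∫ θ in (Real.log k)..(Real.log (k + 1 : ℕ)), ‖tcirg a θ - tcirS a T θ‖ ^ 2) + 2 * (10 ^ 6 * (T : ℝ) / X) ^ 2 else 0) := by
      split_ifs with h
      · have hk0 : (0 : ℝ) < k := by exact_mod_cast (by omega : 0 < k)
        have hlog : Real.log k ≤ Real.log (k + 1 : ℕ) := Real.log_le_log hk0 (by push_cast; linarith)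
        have : 0 ≤ ∫ θ in (Real.log k)..(Real.log (k + 1 : ℕ)), ‖tcirg a θ - tcirS a T θ‖ ^ 2 :=
          intervalIntegral.integral_nonneg hlog fun θ _ => by positivity
        positivity
      · exact le_rfl
    by_cases hb : k + 1 ∈ tcirB a X
    · rw [if_pos hb]
      rcases Nat.lt_or_ge (G3.X0 X) (k + 1) with h | h
      · have := tcir_bad ha hT ha2 h hkX
        linarith
      · -- both terms vanish
        have z : tcirD a T X (k + 1) = 0 := by
          have z1 : mo (fun j => Ia a j) (Icc (-(T : ℤ)) T) X (k + 1) = 0 := by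
            unfold mo
            rw [if_neg (by omega)]
          unfold tcirD
          rw [z1, if_neg, sub_zero]
          intro hh
          have e1 : ((k + 1 : ℕ) : ℝ) ≤ G3.X0 X := by exact_mod_cast h
          have := hh.1
          linarith
        rw [z, norm_zero]
        have : 0 ≤ 10 ^ 6 * (T : ℝ) ^ 2 := by positivity
        have e0 : ((0 : ℝ)) ^ 2 = 0 := by norm_num
        rw [e0]
        linarith
    · rw [if_neg hb, add_zero]
      unfold tcirB at hb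
      simp only [mem_insert, mem_singleton, not_or] at hb
      obtain ⟨b1, b2, b3, b4, b5⟩ := hb
      rcases Nat.lt_or_ge k N0 with h | h
      · have z : tcirD a T X (k + 1) = 0 := by
          have z1 : mo (fun j => Ia a j) (Icc (-(T : ℤ)) T) X (k + 1) = 0 := by
            unfold mo
            rw [if_neg (by omega)]
          unfold tcirD
          rw [z1, if_neg, sub_zero]
          intro hh
          have e2 : k + 1 ≤ G3.X0 X := by omega
          have e1 : ((k + 1 : ℕ) : ℝ) ≤ G3.X0 X := by exact_mod_cast e2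
          have := hh.1
          linarith
        rw [z, norm_zero]
        have e0 : ((0 : ℝ)) ^ 2 = 0 := by norm_num
        rw [e0]
        exact hnn
      · rw [if_pos h]
        exact tcir_good ha hT ha2 (by omega) hkX (tcir_notmem ha b2 b3) (tcir_notmem (by positivity) b4 b5)
  have hsum : ∑ n ∈ Icc 1 X, ‖tcirD a T X n‖ ^ 2 = ∑ k ∈ Ico 0 X, ‖tcirD a T X (k + 1)‖ ^ 2 := by
    rw [Finset.sum_Ico_add' (fun n => ‖tcirD a T X n‖ ^ 2) 0 X 1]
    refine sum_congr ?_ fun _ _ => rfl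
    ext n
    simp only [mem_Icc, mem_Ico]
    omega
  rw [hsum]
  refine (sum_le_sum hpt).trans ?_
  rw [sum_add_distrib]
  -- the exceptional integers
  have hbad : ∑ k ∈ Ico 0 X, (if k + 1 ∈ tcirB a X then 10 ^ 6 * (T : ℝ) ^ 2 else 0) ≤ 5 * (10 ^ 6 * (T : ℝ) ^ 2) := by
    rw [← sum_filter, sum_const, nsmul_eq_mul]
    refine mul_le_mul_of_nonneg_right ?_ (by positivity)
    have : ((Ico 0 X).filter fun k => k + 1 ∈ tcirB a X).card ≤ (tcirB a X).card :=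
      card_le_card_of_injOn (fun k => k + 1) (fun k hk => by
        have hk2 := mem_coe.1 hk
        exact (mem_filter.1 hk2).2) (fun x _ y _ hxy => by simpa using hxy)
    exact_mod_cast this.trans (tcirB_card a X)
  -- the good ones
  have hgood : ∑ k ∈ Ico 0 X, (if N0 ≤ k then 2 * 536 ^ 2 / X *
      (∫ θ in (Real.log k)..(Real.log (k + 1 : ℕ)), ‖tcirg a θ - tcirS a T θ‖ ^ 2) + 2 * (10 ^ 6 * (T : ℝ) / X) ^ 2 else 0) ≤
      2 * 536 ^ 2 / X * (3 * a ^ 2 / T) + X * (2 * (10 ^ 6 * (T : ℝ) / X) ^ 2) := by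
    rw [← sum_filter]
    have e1 : (Ico 0 X).filter (fun k => N0 ≤ k) = Ico N0 X := by
      ext k
      simp only [mem_filter, mem_Ico]
      omega
    rw [e1, sum_add_distrib, ← mul_sum, sum_const, nsmul_eq_mul]
    have e2 : ∑ k ∈ Ico N0 X, (∫ θ in (Real.log k)..(Real.log (k + 1 : ℕ)), ‖tcirg a θ - tcirS a T θ‖ ^ 2) =
        ∫ θ in (Real.log N0)..(Real.log X), ‖tcirg a θ - tcirS a T θ‖ ^ 2 :=
      intervalIntegral.sum_integral_adjacent_intervals_Ico (a := fun k : ℕ => Real.log k) hN0X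
        (fun k _ => tcir_int ha hT _ _)
    have hN00 : (0 : ℝ) < N0 := by rw [hN0]; positivity
    have e3 : Real.log X - 2 * Real.pi ≤ Real.log N0 := by
      have : Real.log X - 2 * Real.pi = Real.log (X * Real.exp (-(2 * Real.pi))) := by
        rw [Real.log_mul hX0.ne' (Real.exp_pos _).ne', Real.log_exp]
        ring
      rw [this]
      refine Real.log_le_log (by positivity) ?_
      rw [hN0]
      push_cast
      exact hlt.le
    have e4 : ∫ θ in (Real.log N0)..(Real.log X), ‖tcirg a θ - tcirS a T θ‖ ^ 2 ≤ 3 * a ^ 2 / T := by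
      have e5 := parI hX0 (by linarith) ha2 hT (X := (X : ℝ)) (a := a) (T := T)
      have e6 : ∫ θ in (Real.log X - 2 * Real.pi)..(Real.log X), ‖tcirg a θ - tcirS a T θ‖ ^ 2 ≤ 3 * a ^ 2 / T := e5
      refine le_trans ?_ e6
      have e7 := intervalIntegral.integral_add_adjacent_intervals (tcir_int ha hT (Real.log X - 2 * Real.pi) (Real.log N0))
        (tcir_int ha hT (Real.log N0) (Real.log X))
      have e8 : 0 ≤ ∫ θ in (Real.log X - 2 * Real.pi)..(Real.log N0), ‖tcirg a θ - tcirS a T θ‖ ^ 2 :=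
        intervalIntegral.integral_nonneg e3 fun θ _ => by positivity
      linarith
    rw [e2]
    refine add_le_add (mul_le_mul_of_nonneg_left e4 (by positivity)) (mul_le_mul_of_nonneg_right ?_ (by positivity))
    rw [Nat.card_Ico]
    exact_mod_cast Nat.sub_le _ _
  refine (add_le_add hgood hbad).trans ?_
  have f1 : 2 * 536 ^ 2 / (X : ℝ) * (3 * a ^ 2 / T) ≤ 10 ^ 6 * (X / T) := by
    have e1 : a ^ 2 ≤ (X / 2 : ℝ) ^ 2 := pow_le_pow_left₀ ha.le (by linarith) 2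
    calc 2 * 536 ^ 2 / (X : ℝ) * (3 * a ^ 2 / T) ≤ 2 * 536 ^ 2 / (X : ℝ) * (3 * (X / 2 : ℝ) ^ 2 / T) := by gcongr
      _ = 430944 * ((X : ℝ) / T) := by field_simp; norm_num
      _ ≤ 10 ^ 6 * ((X : ℝ) / T) := by
          refine mul_le_mul_of_nonneg_right (by norm_num) (by positivity)
  have f2 : (X : ℝ) * (2 * (10 ^ 6 * (T : ℝ) / X) ^ 2) ≤ 2 * 10 ^ 12 * (T : ℝ) ^ 2 := by
    have e1 : (X : ℝ) * (2 * (10 ^ 6 * (T : ℝ) / X) ^ 2) = 2 * 10 ^ 12 * (T : ℝ) ^ 2 * (1 / X) := by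
      field_simp
    rw [e1]
    have e2 : 1 / (X : ℝ) ≤ 1 := by
      rw [div_le_one hX0]
      linarith
    calc 2 * 10 ^ 12 * (T : ℝ) ^ 2 * (1 / X) ≤ 2 * 10 ^ 12 * (T : ℝ) ^ 2 * 1 :=
          mul_le_mul_of_nonneg_left e2 (by positivity)
      _ = _ := by ring
  have f3 : 0 ≤ (X : ℝ) / T := by positivity
  have f4 : 0 ≤ (T : ℝ) ^ 2 := by positivity
  nlinarith

end Pool.Agent.Lib.VKT
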