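import Pool.Agent.Lib.VK.TDef
import Pool.Agent.Lib.G3.FourV

/-!
# VK / TCm (P4): the finite Fourier inequality in shift form

PROOF. `G3.fourV H X Y Z` with `Y := X + b`, `Z := X + H + 1`, `D := B/H` and `G' l := if 1 ≤ X - l then G (X - l) else 0` (natural
subtraction; `G' l = 0` for `l ≥ X`). For `N = X + h`, `b < h ≤ b + H`: `∑_{n < N+1} F n G'(N - n)`: the index is `X - (X + h - n)`,
which is `≥ 1` exactly when `n ≥ h + 1`, then it is `n - h`; so the sum is `∑_{n' ≥ 1} F (n' + h) G n'` over `n' ≤ X - h`, and the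
terms with `n' > X - h` vanish since `F` is supported in `[1, X]`. `∑_{l < Y + H} |G' l|² ≤ ∑_{n ∈ Icc 1 X} |G n|²`.
-/

set_option autoImplicit false

open Finset

namespace Pool.Agent.Lib.VKT

open Pool.Agent.Lib.G3 (VV)

/-- the reflected coefficients -/
private noncomputable def TCm_G (X : ℕ) (G : ℕ → ℂ) (l : ℕ) : ℂ := if l < X then G (X - l) else 0

private theorem TCm_sum (X h : ℕ) (F G : ℕ → ℂ) :
    ∑ n ∈ Icc 1 X, F (n + h) * G n = ∑ n ∈ range (X + h + 1), F n * TCm_G X G (X + h - n) := by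
  have h1 : ∑ n ∈ range (X + h + 1), F n * TCm_G X G (X + h - n) =
      ∑ n ∈ (range (X + h + 1)).filter (fun n => h < n), F n * G (n - h) := by
    rw [sum_filter]
    refine sum_congr rfl fun n hn => ?_
    rw [mem_range] at hn
    unfold TCm_G
    by_cases hc : h < n
    · rw [if_pos (show X + h - n < X by omega), if_pos hc, show X - (X + h - n) = n - h by omega]
    · rw [if_neg (show ¬ X + h - n < X by omega), if_neg hc, mul_zero]
  rw [h1]
  refine sum_nbij' (fun n => n + h) (fun n => n - h) ?_ ?_ ?_ ?_ ?_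
  · intro n hn
    rw [mem_Icc] at hn
    rw [mem_filter, mem_range]
    omega
  · intro n hn
    rw [mem_filter, mem_range] at hn
    rw [mem_Icc]
    omega
  · intro n _
    show n + h - h = n
    omega
  · intro n hn
    rw [mem_filter, mem_range] at hn
    show n - h + h = n
    omega
  · intro n _
    show _ = F (n + h) * G (n + h - h)
    rw [Nat.add_sub_cancel]

private theorem TCm_sq (X M : ℕ) (G : ℕ → ℂ) :
    ∑ m ∈ range M, ‖TCm_G X G m‖ ^ 2 ≤ ∑ n ∈ Icc 1 X, ‖G n‖ ^ 2 := by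
  have h1 : ∑ m ∈ range M, ‖TCm_G X G m‖ ^ 2 = ∑ m ∈ (range M).filter (fun m => m < X), ‖G (X - m)‖ ^ 2 := by
    rw [sum_filter]
    refine sum_congr rfl fun m _ => ?_
    unfold TCm_G
    by_cases hc : m < X
    · rw [if_pos hc, if_pos hc]
    · rw [if_neg hc, if_neg hc, norm_zero]
      norm_num
  have h2 : ∑ m ∈ range X, ‖G (X - m)‖ ^ 2 = ∑ n ∈ Icc 1 X, ‖G n‖ ^ 2 := by
    refine sum_nbij' (fun n => X - n) (fun n => X - n) ?_ ?_ ?_ ?_ ?_
    · intro n hn
      rw [mem_range] at hn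
      rw [mem_Icc]
      omega
    · intro n hn
      rw [mem_Icc] at hn
      rw [mem_range]
      omega
    · intro n hn
      rw [mem_range] at hn
      show X - (X - n) = n
      omega
    · intro n hn
      rw [mem_Icc] at hn
      show X - (X - n) = n
      omega
    · intro n _
      rfl
  rw [h1, ← h2]
  refine sum_le_sum_of_subset_of_nonneg ?_ fun _ _ _ => by positivity
  intro m hm
  rw [mem_filter] at hm
  exact mem_range.2 hm.2

theorem cmS {X H : ℕ} (hH : 1 ≤ H) (F G : ℕ → ℂ) (hF : ∀ n, F n ≠ 0 → 1 ≤ n ∧ n ≤ X) {B : ℝ}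
    (hB : ∀ α : ℝ, VV F H α (X + H + 1) ≤ B) (b : ℕ) :
    ∑ h ∈ Ioc b (b + H), ‖∑ n ∈ Icc 1 X, F (n + h) * G n‖ ^ 2 ≤ 2 * B / H * ∑ n ∈ Icc 1 X, ‖G n‖ ^ 2 := by
  have hH0 : (H : ℝ) ≠ 0 := by
    have : H ≠ 0 := by omega
    exact_mod_cast this
  have key := G3.fourV H X (X + b) (X + H + 1) (by omega) (by omega) F (TCm_G X G) hF (B / H)
    (fun al => by
      rw [div_mul_cancel₀ _ hH0]
      exact hB al)
  have e1 : ∑ h ∈ Ioc b (b + H), ‖∑ n ∈ Icc 1 X, F (n + h) * G n‖ ^ 2 =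
      ∑ N ∈ Ioc (X + b) (X + b + H), ‖∑ n ∈ range (N + 1), F n * TCm_G X G (N - n)‖ ^ 2 := by
    refine sum_nbij' (fun h => X + h) (fun N => N - X) ?_ ?_ ?_ ?_ ?_
    · intro h hh
      rw [mem_Ioc] at hh ⊢
      omega
    · intro N hN
      rw [mem_Ioc] at hN ⊢
      omega
    · intro h _
      show X + h - X = h
      omega
    · intro N hN
      rw [mem_Ioc] at hN
      show X + (N - X) = N
      omega
    · intro h _
      show _ = ‖∑ n ∈ range (X + h + 1), F n * TCm_G X G (X + h - n)‖ ^ 2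
      rw [TCm_sum]
  rw [e1]
  refine key.trans ?_
  rw [show (2 * (B / H) : ℝ) = 2 * B / H by ring]
  have hB0 : 0 ≤ B := le_trans (sum_nonneg fun _ _ => by positivity) (hB 0)
  exact mul_le_mul_of_nonneg_left (TCm_sq X (X + b + H) G) (by positivity)

end Pool.Agent.Lib.VKT
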