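import Pool.Agent.Lib.VK.TDef

/-!
# VK / TCrt (P4): sums over a period of products of periodic functions

PROOF. `crt_two`: the map `n ↦ (n % a, n % b)` is a bijection `range (a b) → range a × range b` for coprime `a, b`
(`Nat.chineseRemainder`, or injectivity from `Nat.modEq_and_modEq_iff_modEq_mul` and cardinality), and `f n = f (n % a)` by
periodicity (`Function.Periodic.map_mod_nat`). `crt_prod`: induction on `s` (`Finset.induction_on`), `∏_{p ∈ s} f p n` is periodic
modulo `∏ s`, coprime to the new prime. `avg_shift`: `lamW Q`, `ram Q`, `gq p` are periodic modulo `primorial Q`; the sum of a periodic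
function over any period is the same (`Function.Periodic`, `Nat.filter_multiset_Ico_card_eq_of_periodic` is not needed: shift by one
and induction, or `Finset.sum_nbij` with `n ↦ (n + h) % W`).
-/

set_option autoImplicit false

open Finset

namespace Pool.Agent.Lib.VKT

open Pool.Agent.Lib.SW (gq LQ)

theorem crt_two {a b : ℕ} (h : Nat.Coprime a b) (ha : 0 < a) (hb : 0 < b) (f g : ℕ → ℝ) (hf : ∀ n, f (n + a) = f n)
    (hg : ∀ n, g (n + b) = g n) :
    ∑ n ∈ range (a * b), f n * g n = (∑ n ∈ range a, f n) * ∑ n ∈ range b, g n := by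
  have hfp : Function.Periodic f a := hf
  have hgp : Function.Periodic g b := hg
  rw [Finset.sum_mul_sum, ← Finset.sum_product']
  refine Finset.sum_bij (fun n _ => (n % a, n % b)) ?_ ?_ ?_ ?_
  · intro n _
    rw [mem_product, mem_range, mem_range]
    exact ⟨Nat.mod_lt _ ha, Nat.mod_lt _ hb⟩
  · intro n hn m hm hnm
    rw [mem_range] at hn hm
    rw [Prod.mk.injEq] at hnm
    have h1 : n ≡ m [MOD a * b] := (Nat.modEq_and_modEq_iff_modEq_mul h).1 ⟨hnm.1, hnm.2⟩
    exact Nat.ModEq.eq_of_lt_of_lt h1 hn hm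
  · rintro ⟨i, j⟩ hij
    rw [mem_product, mem_range, mem_range] at hij
    have h1 := (Nat.chineseRemainder h i j).2
    refine ⟨Nat.chineseRemainder h i j, mem_range.2 (Nat.chineseRemainder_lt_mul h i j ha.ne' hb.ne'), ?_⟩
    rw [Prod.mk.injEq]
    refine ⟨?_, ?_⟩
    · have := h1.1
      rw [Nat.ModEq, Nat.mod_eq_of_lt hij.1] at this
      exact this
    · have := h1.2
      rw [Nat.ModEq, Nat.mod_eq_of_lt hij.2] at this
      exact this
  · intro n _
    rw [hfp.map_mod_nat, hgp.map_mod_nat]

theorem crt_prod (s : Finset ℕ) (hs : ∀ p ∈ s, p.Prime) (f : ℕ → ℕ → ℝ) (hf : ∀ p ∈ s, ∀ n, f p (n + p) = f p n) :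
    ∑ n ∈ range (∏ p ∈ s, p), ∏ p ∈ s, f p n = ∏ p ∈ s, ∑ n ∈ range p, f p n := by
  induction s using Finset.induction_on with
  | empty => simp
  | insert p s hp ih =>
    have hs' : ∀ q ∈ s, q.Prime := fun q hq => hs q (mem_insert_of_mem hq)
    have hf' : ∀ q ∈ s, ∀ n, f q (n + q) = f q n := fun q hq => hf q (mem_insert_of_mem hq)
    have hpp : p.Prime := hs p (mem_insert_self _ _)
    have hco : Nat.Coprime p (∏ q ∈ s, q) := by
      refine Nat.Coprime.prod_right fun q hq => ?_
      exact (Nat.coprime_primes hpp (hs' q hq)).2 (fun e => hp (e ▸ hq))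
    have hpos : 0 < ∏ q ∈ s, q := Finset.prod_pos fun q hq => (hs' q hq).pos
    have hper : ∀ n, (∏ q ∈ s, f q (n + ∏ q ∈ s, q)) = ∏ q ∈ s, f q n := by
      intro n
      refine Finset.prod_congr rfl fun q hq => ?_
      obtain ⟨c, hc⟩ := Finset.dvd_prod_of_mem (fun q : ℕ => q) hq
      have h1 : Function.Periodic (f q) q := hf' q hq
      have h2 := h1.nat_mul c
      have h3 : (∏ q ∈ s, q) = c * q := by
        rw [mul_comm]
        exact hc
      rw [h3]
      exact h2 n
    rw [Finset.prod_insert hp, Finset.prod_insert hp, ← ih hs' hf']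
    rw [← crt_two hco hpp.pos hpos (f p) (fun n => ∏ q ∈ s, f q n) (hf p (mem_insert_self _ _)) hper]
    refine Finset.sum_congr rfl fun n _ => ?_
    rw [Finset.prod_insert hp]

theorem avg_shift (Q : ℕ) (g : ℕ → ℝ) (hg : ∀ n, g (n + primorial Q) = g n) (h : ℕ) : avg Q (fun n => g (n + h)) = avg Q g := by
  have key : ∀ h : ℕ, ∑ n ∈ range (primorial Q), g (n + h) = ∑ n ∈ range (primorial Q), g n := by
    intro h
    induction h with
    | zero => rfl
    | succ h ih =>
      rw [← ih]
      have h1 := Finset.sum_range_succ (fun n => g (n + h)) (primorial Q)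
      have h2 := Finset.sum_range_succ' (fun n => g (n + h)) (primorial Q)
      have h3 : g (primorial Q + h) = g (0 + h) := by
        rw [add_comm, hg, zero_add]
      have h4 : ∀ n, g (n + (h + 1)) = g (n + 1 + h) := by
        intro n
        congr 1
        omega
      simp only [h4]
      simp only [h3] at h1
      linarith
  unfold avg
  rw [key h]

theorem gq_per (Q : ℕ) {q : ℕ} (hq : q ∣ primorial Q) (n : ℕ) : gq q ((n + primorial Q : ℕ) : ℤ) = gq q (n : ℤ) := by
  obtain ⟨m, hm⟩ := hq
  have h1 : ((n + primorial Q : ℕ) : ℤ) = (n : ℤ) + (q : ℤ) * (m : ℤ) := by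
    rw [hm]
    push_cast
    ring
  rw [h1]
  exact Pool.Agent.Lib.SW.gq_periodic q n m

private theorem tcrt_dvd (Q q : ℕ) (h1 : q ≤ Q) (h2 : Squarefree q) : q ∣ primorial Q := by
  have e : ∏ p ∈ q.primeFactors, p = q := Nat.prod_primeFactors_of_squarefree h2
  rw [← e, primorial]
  refine Finset.prod_dvd_prod_of_subset _ _ _ ?_
  intro p hp
  have hpp := Nat.prime_of_mem_primeFactors hp
  have hle := Nat.le_of_dvd (Nat.pos_of_ne_zero h2.ne_zero) (Nat.dvd_of_mem_primeFactors hp)
  rw [mem_filter, mem_range]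
  exact ⟨by omega, hpp⟩

theorem ram_per (Q n : ℕ) : ram Q (n + primorial Q) = ram Q n := by
  unfold ram LQ
  refine Finset.sum_congr rfl fun q hq => ?_
  rw [mem_filter, mem_Icc] at hq
  exact gq_per Q (tcrt_dvd Q q hq.1.2 hq.2) n

theorem lamW_per (Q n : ℕ) : lamW Q (n + primorial Q) = lamW Q n := by
  unfold lamW
  have h : Nat.Coprime (n + primorial Q) (primorial Q) ↔ Nat.Coprime n (primorial Q) :=
    Nat.coprime_add_self_left
  exact if_congr h rfl rfl

theorem Uq_per (Q n : ℕ) : Uq Q (n + primorial Q) = Uq Q n := by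
  unfold Uq
  refine Finset.prod_congr rfl fun p hp => ?_
  rw [mem_filter, mem_Icc] at hp
  have hd : p ∣ primorial Q := tcrt_dvd Q p hp.1.2 hp.2.prime.squarefree
  rw [gq_per Q hd n]

end Pool.Agent.Lib.VKT
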