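import Pool.Agent.Lib.G3.G2Defs
import Pool.Agent.Lib.SW.RamModel
import Mathlib.NumberTheory.Primorial

/-!
# VK, part P4 (one prime and products of two primes), definitions

`X` bounds everything, `P = ⌊(log X)^c1⌋`, `R` is about `X / (64 P)`; `b2 P R` (G3.G2Defs): the products `p r`, `p` a prime of
`(P, 2P]`, `r` a prime of `(R, 2R]`, with the weight `log r / log 2R`.
-/

set_option autoImplicit false

open Finset Filter

namespace Pool.Agent.Lib.VKT

open Pool.Agent.Lib.MRT (cj kap)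
open Pool.Agent.Lib.GT (e)
open Pool.Agent.Lib.G3 (pr lp b2)
open Pool.Agent.Lib.SW (gq LQ)

/-- parameters (`Par2` with a free `R`) -/
structure ParW (X P R c1 : ℕ) : Prop where
  hP : P = ⌊(Real.log X) ^ c1⌋₊
  hR1 : 16 * (P * R) ≤ X
  hR2 : X ≤ 300 * (P * R)
  hR3 : X < 64 * ((P + 1) * (R + 1))

/-- the small frequencies -/
noncomputable def Js (X c5 : ℕ) : Finset ℤ := Icc (-(⌊(Real.log X) ^ c5⌋₊ : ℤ)) ⌊(Real.log X) ^ c5⌋₊

/-- density of `b2 P R` near `n` -/
noncomputable def rho (P R n : ℕ) : ℝ :=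
  (∑ p ∈ pr P, if p * R < n ∧ n ≤ 2 * (p * R) then 1 / (p : ℝ) else 0) / Real.log (2 * R : ℕ)

/-- the truncated Ramanujan series `∑_{q ≤ Q} (μ(q)/φ(q)) c_q(n)` -/
noncomputable def ram (Q n : ℕ) : ℝ := LQ ((Icc 1 Q).filter Squarefree) n

/-- `∫_a^(2a) u^(-ij) du` -/
noncomputable def Ia (a : ℝ) (j : ℤ) : ℂ :=
  ∫ u in a..(2 * a), Complex.exp (((-(j : ℝ) * Real.log u : ℝ) : ℂ) * Complex.I)

/-- the products `p r`, `p` a prime of `(P, 2P]`, `r` a prime of `(R, 8R]`, with the weight `log r / log X` -/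
noncomputable def Fr (X P R n : ℕ) : ℝ :=
  ∑ i ∈ range 3, ∑ p ∈ pr P, ∑ r ∈ pr (2 ^ i * R), if p * r = n then Real.log r / Real.log X else 0

/-- the model of `Fr` -/
noncomputable def Mr (X P R Q n : ℕ) : ℝ :=
  (∑ i ∈ range 3, Real.log (2 * (2 ^ i * R) : ℕ) / Real.log X * rho P (2 ^ i * R) n) * ram Q n

/-- `∑ 1/p` over the primes of `(P, 2P]` -/
noncomputable def dP (P : ℕ) : ℝ := ∑ p ∈ pr P, 1 / (p : ℝ)

/-- `W/φ(W)` on the integers coprime to `W`, the product of the primes `≤ Q` -/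
noncomputable def lamW (Q n : ℕ) : ℝ := if Nat.Coprime n (primorial Q) then (primorial Q : ℝ) / ((primorial Q).totient : ℝ) else 0

/-- average over one period -/
noncomputable def avg (Q : ℕ) (g : ℕ → ℝ) : ℝ := (∑ n ∈ range (primorial Q), g n) / primorial Q

/-- majorant of `|ram Q n|` and of `lamW Q n` -/
noncomputable def Uq (Q n : ℕ) : ℝ := ∏ p ∈ (Icc 1 Q).filter Nat.Prime, (1 + |gq p n|)

/-- truncated singular series of the tuple `0, h_1, ..., h_m` -/
noncomputable def sgT {m : ℕ} (Q : ℕ) (h : Fin m → ℕ) : ℝ := avg Q fun n => lamW Q n * ∏ i, ram Q (n + h i)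

/-- complete series of the primes `≤ Q` -/
noncomputable def sgF {m : ℕ} (Q : ℕ) (h : Fin m → ℕ) : ℝ := avg Q fun n => lamW Q n * ∏ i, lamW Q (n + h i)

/-- the number of classes modulo `p` met by `0, h_1, ..., h_m` -/
def nu {m : ℕ} (h : Fin m → ℕ) (p : ℕ) : ℕ := (insert 0 (univ.image fun i => h i % p)).card

/-- partial products of the Hardy-Littlewood constant of `0, h_1, ..., h_m` -/
noncomputable def part {m : ℕ} (h : Fin m → ℕ) (z : ℕ) : ℝ :=
  ∏ p ∈ (Icc 1 z).filter Nat.Prime, (1 - (nu h p : ℝ) / p) / (1 - 1 / (p : ℝ)) ^ (m + 1)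

/-- the Hardy-Littlewood constant (limit of `part h`) -/
noncomputable def HL {m : ℕ} (h : Fin m → ℕ) : ℝ := limUnder atTop (part h)

/-- the box `b_i < h_i ≤ b_i + H_i` -/
def box {m : ℕ} (b H : Fin m → ℕ) : Finset (Fin m → ℕ) := Fintype.piFinset fun i => Ioc (b i) (b i + H i)

/-- the `i`-th member is a prime (`t = true`) or in `E2` (`t = false`): weighted indicator function -/
noncomputable def Fx (X P R : ℕ) (t : Bool) (n : ℕ) : ℝ :=
  if t = true then (if n ≤ X then lp n / Real.log X else 0) else Fr X P R n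

/-- its model -/
noncomputable def Mx (X P R Q : ℕ) (t : Bool) (n : ℕ) : ℝ :=
  if t = true then (if 1 ≤ n ∧ n ≤ X then ram Q n / Real.log X else 0) else Mr X P R Q n

/-- number of members in `E2` -/
def nE {m : ℕ} (τ : Fin m → Bool) : ℕ := (univ.filter fun i => τ i = false).card

/-- `n = p r` with primes `P < p ≤ 2P` and `r` -/
def E2 (P n : ℕ) : Prop := ∃ p r : ℕ, p.Prime ∧ r.Prime ∧ P < p ∧ p ≤ 2 * P ∧ n = p * r

open Classical in
/-- number of the primes `n` in `(Y, 2Y]` such that every `n + h_i` is prime (`τ i = true`) or in `E2 P` (`τ i = false`) -/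
noncomputable def cnt {m : ℕ} (P Y : ℕ) (τ : Fin m → Bool) (h : Fin m → ℕ) : ℕ :=
  ((Ioc Y (2 * Y)).filter fun n => n.Prime ∧ ∀ i, (τ i = true → (n + h i).Prime) ∧ (τ i = false → E2 P (n + h i))).card

/-- weighted number -/
noncomputable def wcnt {m : ℕ} (X P R Y : ℕ) (τ : Fin m → Bool) (h : Fin m → ℕ) : ℝ :=
  ∑ n ∈ Ioc Y (2 * Y), lp n * ∏ i, Fx X P R (τ i) (n + h i)

end Pool.Agent.Lib.VKT
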