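import Pool.Agent.Lib.VK.TPl

/-!
# VK / TUnw (P4): weights removed

PROOF. Let `X = 32Y`, `l = log X`. For `n ∈ (Y, 2Y]` and `h_i ≤ Y`: `2PR ≤ Y < n + h_i ≤ 3Y ≤ 8PR` (`par_ok`). If `n + h_i = p r` with
primes `P < p ≤ 2P` and `r` then `r = (n+h_i)/p ∈ (R, 8R]` lies in exactly one `pr (2^i R)`, and the representation is unique
(`16P < R < r`): `Fr = log r/log X`; otherwise `Fr = 0`. `log r ≥ log R ≥ log(Y/(4P)) ≥ l - log 128 - c1 log l`, `log r ≤ l`, so
`Fr ∈ [1 - C loglog/l, 1]`. If `τ i = true`: `Fx = log(n+h_i)/log X ∈ [1 - log 32/l, 1]` for primes `n + h_i`, else `0`. The product over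
`i` is in `[1 - 1/(2 sqrt(log Y)), 1]`. `lp n = log n ∈ (log Y, log 2Y]` for primes `n`. Sum over the `cnt` many `n`.
-/

set_option autoImplicit false

open Finset

namespace Pool.Agent.Lib.VKT

open Pool.Agent.Lib.G3 (pr lp)

private theorem tunw_uniq {P R p r p' r' i : ℕ} (hPR : 16 * P < R) (hp : p.Prime) (hr : r.Prime)
    (hp2 : p ≤ 2 * P) (hp' : p' ∈ pr P) (hr' : r' ∈ pr (2 ^ i * R)) :
    p' * r' = p * r ↔ p' = p ∧ r' = r := by
  constructor
  · intro h
    simp only [pr, mem_filter, mem_Ioc] at hp' hr'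
    have h1 : R ≤ 2 ^ i * R := Nat.le_mul_of_pos_left _ (by positivity)
    have h2 : r' ∣ p * r := ⟨p', by rw [← h, Nat.mul_comm]⟩
    rcases (Nat.Prime.dvd_mul hr'.2).mp h2 with h3 | h3
    · have := Nat.le_of_dvd hp.pos h3
      omega
    · have h4 : r' = r := (Nat.prime_dvd_prime_iff_eq hr'.2 hr).mp h3
      subst h4
      exact ⟨Nat.eq_of_mul_eq_mul_right hr.pos h, rfl⟩
  · rintro ⟨rfl, rfl⟩; rfl

private theorem tunw_Fr {X P R n p r : ℕ} (hPR : 16 * P < R) (h1 : 2 * (P * R) < n)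
    (h2 : n ≤ 8 * (P * R)) (hp : p.Prime) (hr : r.Prime) (hp1 : P < p) (hp2 : p ≤ 2 * P)
    (hn : n = p * r) : Fr X P R n = Real.log r / Real.log X ∧ R < r := by
  have hRr : R < r := by
    by_contra hc
    have hc' : r ≤ R := by omega
    have : p * r ≤ (2 * P) * R := Nat.mul_le_mul hp2 hc'
    have e : (2 * P) * R = 2 * (P * R) := by ring
    omega
  have hr8 : r ≤ 8 * R := by
    by_contra hc
    have hc' : 8 * R + 1 ≤ r := by omega
    have : P * (8 * R + 1) ≤ p * r := Nat.mul_le_mul hp1.le hc'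
    have h3 : (P + 1) * (8 * R) ≤ p * r := Nat.mul_le_mul hp1 (by omega)
    have e : (P + 1) * (8 * R) = 8 * (P * R) + 8 * R := by ring
    omega
  refine ⟨?_, hRr⟩
  have hinner : ∀ i, (∑ p' ∈ pr P, ∑ r' ∈ pr (2 ^ i * R),
      (if p' * r' = n then Real.log r' / Real.log X else 0)) =
      if r ∈ pr (2 ^ i * R) then Real.log r / Real.log X else 0 := by
    intro i
    have e1 : ∀ p' ∈ pr P, (∑ r' ∈ pr (2 ^ i * R),
        (if p' * r' = n then Real.log r' / Real.log X else 0)) =
        if p' = p then (if r ∈ pr (2 ^ i * R) then Real.log r / Real.log X else 0) else 0 := by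
      intro p' hp'
      have e2 : ∀ r' ∈ pr (2 ^ i * R), (if p' * r' = n then Real.log r' / Real.log X else 0) =
          if p' = p then (if r' = r then Real.log r / Real.log X else 0) else 0 := by
        intro r' hr'
        have hu := tunw_uniq hPR hp hr hp2 hp' hr'
        rw [hn]
        by_cases ha : p' = p
        · by_cases hb : r' = r
          · rw [if_pos (hu.mpr ⟨ha, hb⟩), if_pos ha, if_pos hb, hb]
          · rw [if_neg (fun h => hb (hu.mp h).2), if_pos ha, if_neg hb]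
        · rw [if_neg (fun h => ha (hu.mp h).1), if_neg ha]
      rw [Finset.sum_congr rfl e2]
      by_cases ha : p' = p
      · simp only [if_pos ha]
        rw [Finset.sum_ite_eq']
      · simp only [if_neg ha, Finset.sum_const_zero]
    rw [Finset.sum_congr rfl e1, Finset.sum_ite_eq']
    have hpm : p ∈ pr P := by
      simp only [pr, mem_filter, mem_Ioc]
      exact ⟨⟨hp1, hp2⟩, hp⟩
    rw [if_pos hpm]
  unfold Fr
  rw [Finset.sum_congr rfl (fun i _ => hinner i)]
  simp only [Finset.sum_range_succ, Finset.sum_range_zero, zero_add, pr, mem_filter, mem_Ioc]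
  have t0 : (2 : ℕ) ^ 0 * R = R := by ring
  have t1 : (2 : ℕ) ^ 1 * R = 2 * R := by ring
  have t2 : (2 : ℕ) ^ 2 * R = 4 * R := by ring
  rw [t0, t1, t2]
  by_cases c1 : r ≤ 2 * R
  · rw [if_pos ⟨⟨hRr, c1⟩, hr⟩, if_neg (by rintro ⟨⟨ha, _⟩, _⟩; omega),
      if_neg (by rintro ⟨⟨ha, _⟩, _⟩; omega)]
    ring
  · by_cases c2 : r ≤ 4 * R
    · rw [if_neg (by rintro ⟨⟨_, ha⟩, _⟩; omega), if_pos ⟨⟨by omega, by omega⟩, hr⟩,
        if_neg (by rintro ⟨⟨ha, _⟩, _⟩; omega)]
      ring
    · rw [if_neg (by rintro ⟨⟨_, ha⟩, _⟩; omega), if_neg (by rintro ⟨⟨_, ha⟩, _⟩; omega),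
        if_pos ⟨⟨by omega, by omega⟩, hr⟩]
      ring

private theorem tunw_Fr_zero {X P R n : ℕ} (h : ¬ E2 P n) : Fr X P R n = 0 := by
  unfold Fr
  refine Finset.sum_eq_zero fun i _ => Finset.sum_eq_zero fun p hp => Finset.sum_eq_zero fun r hr => ?_
  rw [if_neg]
  intro he
  apply h
  simp only [pr, mem_filter, mem_Ioc] at hp hr
  exact ⟨p, r, hp.2, hr.2, hp.1.1, hp.1.2, he.symm⟩

private theorem tunw_asy (m c1 : ℕ) : ∃ L0 : ℝ, 1296 ≤ L0 ∧ ∀ L : ℝ, L0 ≤ L →
    ((m : ℝ) + 1) * (6 + c1 * (1 + Real.log L)) ≤ Real.sqrt L := by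
  refine ⟨(((m : ℝ) + 1) * (6 + 5 * c1)) ^ 4, ?_, ?_⟩
  · have h1 : (6 : ℝ) ≤ ((m : ℝ) + 1) * (6 + 5 * c1) := by
      have hm : (0 : ℝ) ≤ m := Nat.cast_nonneg m
      have hc : (0 : ℝ) ≤ c1 := Nat.cast_nonneg c1
      nlinarith [mul_nonneg hm hc]
    calc (1296 : ℝ) = 6 ^ 4 := by norm_num
      _ ≤ _ := pow_le_pow_left₀ (by norm_num) h1 4
  · intro L hL
    have hm : (0 : ℝ) ≤ m := Nat.cast_nonneg m
    have hc : (0 : ℝ) ≤ c1 := Nat.cast_nonneg c1
    set K : ℝ := ((m : ℝ) + 1) * (6 + 5 * c1) with hK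
    have hK6 : (6 : ℝ) ≤ K := by rw [hK]; nlinarith [mul_nonneg hm hc]
    have hL1 : (0 : ℝ) < L := lt_of_lt_of_le (by positivity) hL
    set s : ℝ := Real.sqrt (Real.sqrt L) with hs
    have hs0 : 0 ≤ s := Real.sqrt_nonneg _
    have hs2 : s ^ 2 = Real.sqrt L := Real.sq_sqrt (Real.sqrt_nonneg _)
    have hs4 : s ^ 4 = L := by
      have : s ^ 4 = (s ^ 2) ^ 2 := by ring
      rw [this, hs2, Real.sq_sqrt hL1.le]
    have hKs : K ≤ s := by
      have h4 : K ^ 4 ≤ s ^ 4 := by rw [hs4]; exact hL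
      exact le_of_pow_le_pow_left₀ (by norm_num) hs0 h4
    have hs1 : 1 ≤ s := by linarith
    have hlog : Real.log L ≤ 4 * s := by
      rw [← hs4, Real.log_pow]
      have := Real.log_le_sub_one_of_pos (show (0 : ℝ) < s by linarith)
      push_cast
      linarith
    rw [← hs2]
    have h5 : (6 : ℝ) + c1 * (1 + Real.log L) ≤ (6 + 5 * c1) * s := by
      have : (c1 : ℝ) * (1 + Real.log L) ≤ c1 * (5 * s) :=
        mul_le_mul_of_nonneg_left (by linarith) hc
      nlinarith
    calc ((m : ℝ) + 1) * (6 + c1 * (1 + Real.log L)) ≤ ((m : ℝ) + 1) * ((6 + 5 * c1) * s) :=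
          mul_le_mul_of_nonneg_left h5 (by linarith)
      _ = K * s := by rw [hK]; ring
      _ ≤ s * s := mul_le_mul_of_nonneg_right hKs hs0
      _ = s ^ 2 := by ring

theorem unw {m : ℕ} (τ : Fin m → Bool) (c1 : ℕ) : ∃ x0 : ℝ, ∀ Y P R : ℕ, x0 ≤ Y → P = ⌊(Real.log (32 * Y : ℕ)) ^ c1⌋₊ →
    R = Y / (2 * P) → ∀ h : Fin m → ℕ, (∀ i, h i ≤ Y) →
      (1 - 1 / Real.sqrt (Real.log Y)) * Real.log Y * cnt P Y τ h ≤ wcnt (32 * Y) P R Y τ h ∧
        wcnt (32 * Y) P R Y τ h ≤ (1 + 1 / Real.sqrt (Real.log Y)) * Real.log Y * cnt P Y τ h := by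
  classical
  obtain ⟨x1, hx1⟩ := par_ok c1
  obtain ⟨L0, hL0, hasy⟩ := tunw_asy m c1
  refine ⟨max x1 (Real.exp L0), ?_⟩
  intro Y P R hY hP hR h hh
  obtain ⟨-, hP1, hPR, hPR2, hPR8, -, -⟩ := hx1 Y P R (le_trans (le_max_left _ _) hY) hP hR
  have hYexp : Real.exp L0 ≤ (Y : ℝ) := le_trans (le_max_right _ _) hY
  have hYpos : (0 : ℝ) < Y := lt_of_lt_of_le (Real.exp_pos _) hYexp
  have hYnat : 0 < Y := by exact_mod_cast hYpos
  set L : ℝ := Real.log Y with hLdef
  have hLL0 : L0 ≤ L := by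
    rw [hLdef, Real.le_log_iff_exp_le hYpos]; exact hYexp
  have hL : (1296 : ℝ) ≤ L := le_trans hL0 hLL0
  have hLpos : (0 : ℝ) < L := by linarith
  have hsq := hasy L hLL0
  have hsqpos : 0 < Real.sqrt L := Real.sqrt_pos.mpr hLpos
  have hsqsq : Real.sqrt L * Real.sqrt L = L := Real.mul_self_sqrt hLpos.le
  have hsq1 : 1 ≤ Real.sqrt L := by
    rw [Real.le_sqrt' (by norm_num)]; linarith
  have hlogL : 0 ≤ Real.log L := Real.log_nonneg (by linarith)
  have hc : (0 : ℝ) ≤ c1 := Nat.cast_nonneg c1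
  have hm : (0 : ℝ) ≤ m := Nat.cast_nonneg m
  -- log X
  have hlog32 : Real.log 32 ≤ 5 := by
    have : Real.log 32 = 5 * Real.log 2 := by
      rw [show (32 : ℝ) = 2 ^ 5 by norm_num, Real.log_pow]; norm_num
    rw [this]
    have := Real.log_two_lt_d9
    linarith
  have hX : Real.log ((32 * Y : ℕ) : ℝ) = Real.log 32 + L := by
    rw [Nat.cast_mul, Real.log_mul (by norm_num) hYpos.ne']
    norm_num
    rfl
  have hlog32' : 0 ≤ Real.log 32 := Real.log_nonneg (by norm_num)
  have hXpos : 0 < Real.log ((32 * Y : ℕ) : ℝ) := by rw [hX]; linarith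
  have hX5 : Real.log ((32 * Y : ℕ) : ℝ) ≤ L + 5 := by rw [hX]; linarith
  have hXL : L ≤ Real.log ((32 * Y : ℕ) : ℝ) := by rw [hX]; linarith
  -- the defect
  set D : ℝ := (6 + c1 * (1 + Real.log L)) / L with hD
  have hDL : D * L = 6 + c1 * (1 + Real.log L) := by
    rw [hD]; field_simp
  have hD0 : 0 ≤ D := by
    rw [hD]; positivity
  have hDm : ((m : ℝ) + 1) * D ≤ 1 / Real.sqrt L := by
    rw [le_div_iff₀ hsqpos, hD]
    rw [show ((m : ℝ) + 1) * ((6 + c1 * (1 + Real.log L)) / L) * Real.sqrt L =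
      (((m : ℝ) + 1) * (6 + c1 * (1 + Real.log L))) * Real.sqrt L / L by ring]
    rw [div_le_one hLpos]
    calc _ ≤ Real.sqrt L * Real.sqrt L := mul_le_mul_of_nonneg_right hsq hsqpos.le
      _ = L := hsqsq
  have hinv1 : 1 / Real.sqrt L ≤ 1 := by
    rw [div_le_one hsqpos]; exact hsq1
  have hD1 : D ≤ 1 := by
    have : D ≤ ((m : ℝ) + 1) * D := by nlinarith
    linarith
  -- log P
  have hlogP : Real.log P ≤ c1 * (1 + Real.log L) := by
    have h1 : (P : ℝ) ≤ (Real.log ((32 * Y : ℕ) : ℝ)) ^ c1 := by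
      rw [hP]; exact Nat.floor_le (by positivity)
    have hPpos : (0 : ℝ) < P := by exact_mod_cast hP1
    have h2 := Real.log_le_log hPpos h1
    rw [Real.log_pow] at h2
    refine h2.trans (mul_le_mul_of_nonneg_left ?_ hc)
    have h3 : Real.log ((32 * Y : ℕ) : ℝ) ≤ 2 * L := by linarith
    have h4 := Real.log_le_log hXpos h3
    rw [Real.log_mul (by norm_num) hLpos.ne'] at h4
    have := Real.log_two_lt_d9
    linarith
  -- log R
  have hRpos : 0 < R := by omega
  have hlogR : L - 1 - c1 * (1 + Real.log L) ≤ Real.log R := by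
    have h1 : (3 : ℝ) * Y ≤ 8 * (P * R) := by exact_mod_cast hPR8
    have hPpos : (0 : ℝ) < P := by exact_mod_cast hP1
    have hRp : (0 : ℝ) < R := by exact_mod_cast hRpos
    have h2 := Real.log_le_log (by positivity) h1
    rw [Real.log_mul (by norm_num) hYpos.ne', Real.log_mul (by norm_num) (by positivity),
      Real.log_mul hPpos.ne' hRp.ne'] at h2
    have h3 : Real.log 8 - Real.log 3 ≤ 1 := by
      rw [← Real.log_div (by norm_num) (by norm_num)]
      rw [Real.log_le_iff_le_exp (by norm_num)]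
      have := Real.exp_one_gt_d9
      linarith
    linarith
  -- the value at good and bad places
  have hval : ∀ n ∈ Ioc Y (2 * Y), ∀ i, 
      (((τ i = true → (n + h i).Prime) ∧ (τ i = false → E2 P (n + h i))) →
        1 - D ≤ Fx (32 * Y) P R (τ i) (n + h i) ∧ Fx (32 * Y) P R (τ i) (n + h i) ≤ 1) ∧
      (¬ ((τ i = true → (n + h i).Prime) ∧ (τ i = false → E2 P (n + h i))) →
        Fx (32 * Y) P R (τ i) (n + h i) = 0) := by
    intro n hn i
    rw [mem_Ioc] at hn
    have hhi := hh i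
    have hn1 : Y < n + h i := by omega
    have hn3 : n + h i ≤ 3 * Y := by omega
    have hnX : n + h i ≤ 32 * Y := by omega
    have hnpos : (0 : ℝ) < ((n + h i : ℕ) : ℝ) := by
      have : 0 < n + h i := by omega
      exact_mod_cast this
    have hlogn : Real.log ((n + h i : ℕ) : ℝ) ≤ Real.log ((32 * Y : ℕ) : ℝ) :=
      Real.log_le_log hnpos (by exact_mod_cast hnX)
    rcases hτ : τ i with _ | _
    · -- E2
      constructor
      · rintro ⟨-, hE⟩
        obtain ⟨p, r, hp, hr, hp1, hp2, hpr⟩ := hE rfl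
        have h2 : 2 * (P * R) < n + h i := by omega
        have h8 : n + h i ≤ 8 * (P * R) := by omega
        obtain ⟨hF, hRr⟩ := tunw_Fr (X := 32 * Y) hPR h2 h8 hp hr hp1 hp2 hpr
        have hFx : Fx (32 * Y) P R false (n + h i) = Real.log r / Real.log ((32 * Y : ℕ) : ℝ) := by
          unfold Fx
          rw [if_neg (by simp), hF]
        rw [hFx]
        have hrpos : (0 : ℝ) < r := by exact_mod_cast hr.pos
        constructor
        · rw [le_div_iff₀ hXpos]
          have hRp : (0 : ℝ) < R := by exact_mod_cast hRpos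
          have h3 : Real.log R ≤ Real.log r := Real.log_le_log hRp (by exact_mod_cast hRr.le)
          have h4 : (1 - D) * Real.log ((32 * Y : ℕ) : ℝ) ≤ (1 - D) * (L + 5) :=
            mul_le_mul_of_nonneg_left hX5 (by linarith)
          have h5 : (1 - D) * (L + 5) = L + 5 - D * L - 5 * D := by ring
          rw [hDL] at h5
          linarith
        · rw [div_le_one hXpos]
          refine le_trans (Real.log_le_log hrpos ?_) hlogn
          have : r ≤ n + h i := by
            rw [hpr]; exact Nat.le_mul_of_pos_left _ hp.pos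
          exact_mod_cast this
      · intro hbad
        have hE : ¬ E2 P (n + h i) := fun hE => hbad ⟨fun h0 => by simp at h0, fun _ => hE⟩
        unfold Fx
        rw [if_neg (by simp)]
        exact tunw_Fr_zero hE
    · -- prime
      constructor
      · rintro ⟨hp, -⟩
        have hpn := hp rfl
        have hFx : Fx (32 * Y) P R true (n + h i) =
            Real.log ((n + h i : ℕ) : ℝ) / Real.log ((32 * Y : ℕ) : ℝ) := by
          unfold Fx Pool.Agent.Lib.G3.lp
          rw [if_pos rfl, if_pos hnX, if_pos hpn]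
        rw [hFx]
        constructor
        · rw [le_div_iff₀ hXpos]
          have h3 : L ≤ Real.log ((n + h i : ℕ) : ℝ) :=
            Real.log_le_log hYpos (by exact_mod_cast hn1.le)
          have h4 : (1 - D) * Real.log ((32 * Y : ℕ) : ℝ) ≤ (1 - D) * (L + 5) :=
            mul_le_mul_of_nonneg_left hX5 (by linarith)
          have h5 : (1 - D) * (L + 5) = L + 5 - D * L - 5 * D := by ring
          rw [hDL] at h5
          have h6 : 0 ≤ (c1 : ℝ) * (1 + Real.log L) := by positivity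
          linarith
        · rw [div_le_one hXpos]
          exact hlogn
      · intro hbad
        have hE : ¬ (n + h i).Prime := fun hE => hbad ⟨fun _ => hE, fun h0 => by simp at h0⟩
        unfold Fx Pool.Agent.Lib.G3.lp
        rw [if_pos rfl, if_pos hnX, if_neg hE]
        simp
  -- the sum
  set G : Finset ℕ := (Ioc Y (2 * Y)).filter fun n => n.Prime ∧
    ∀ i, (τ i = true → (n + h i).Prime) ∧ (τ i = false → E2 P (n + h i)) with hG
  have hcnt : cnt P Y τ h = G.card := by
    unfold cnt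
    rw [hG]
  have hw : wcnt (32 * Y) P R Y τ h =
      ∑ n ∈ G, lp n * ∏ i, Fx (32 * Y) P R (τ i) (n + h i) := by
    unfold wcnt
    rw [hG, Finset.sum_filter]
    refine Finset.sum_congr rfl fun n hn => ?_
    by_cases hg : n.Prime ∧
      ∀ i, (τ i = true → (n + h i).Prime) ∧ (τ i = false → E2 P (n + h i))
    · rw [if_pos hg]
    · rw [if_neg hg]
      by_cases hp : n.Prime
      · have : ∃ i, ¬ ((τ i = true → (n + h i).Prime) ∧ (τ i = false → E2 P (n + h i))) := by
          by_contra hcon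
          push Not at hcon
          exact hg ⟨hp, fun i => by
            have := hcon i
            exact this⟩
        obtain ⟨i, hi⟩ := this
        rw [Finset.prod_eq_zero (mem_univ i) ((hval n hn i).2 hi), mul_zero]
      · unfold Pool.Agent.Lib.G3.lp
        rw [if_neg hp, zero_mul]
  have hterm : ∀ n ∈ G, (1 - 1 / Real.sqrt L) * L ≤ lp n * ∏ i, Fx (32 * Y) P R (τ i) (n + h i) ∧
      lp n * ∏ i, Fx (32 * Y) P R (τ i) (n + h i) ≤ (1 + 1 / Real.sqrt L) * L := by
    intro n hn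
    rw [hG, mem_filter] at hn
    obtain ⟨hnI, hnp, hni⟩ := hn
    have hnI' := mem_Ioc.mp hnI
    have hlpn : lp n = Real.log n := by unfold Pool.Agent.Lib.G3.lp; rw [if_pos hnp]
    have hnpos : (0 : ℝ) < n := by exact_mod_cast hnp.pos
    have hl1 : L ≤ Real.log n := Real.log_le_log hYpos (by exact_mod_cast hnI'.1.le)
    have hl2 : Real.log n ≤ Real.log 2 + L := by
      have : (n : ℝ) ≤ 2 * Y := by exact_mod_cast hnI'.2
      have h3 := Real.log_le_log hnpos this
      rwa [Real.log_mul (by norm_num) hYpos.ne'] at h3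
    have hprod1 : ∏ i, Fx (32 * Y) P R (τ i) (n + h i) ≤ 1 := by
      refine Finset.prod_le_one (fun i _ => ?_) (fun i _ => ((hval n hnI i).1 (hni i)).2)
      have := ((hval n hnI i).1 (hni i)).1
      linarith
    have hprod2 : 1 - 1 / Real.sqrt L ≤ ∏ i, Fx (32 * Y) P R (τ i) (n + h i) := by
      have h3 : ∏ _i : Fin m, (1 - D) ≤ ∏ i, Fx (32 * Y) P R (τ i) (n + h i) :=
        Finset.prod_le_prod (fun i _ => by linarith) (fun i _ => ((hval n hnI i).1 (hni i)).1)
      rw [Finset.prod_const, Finset.card_univ, Fintype.card_fin] at h3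
      have h4 : 1 + (m : ℝ) * (-D) ≤ (1 + (-D)) ^ m :=
        one_add_mul_le_pow (by linarith) m
      have h5 : (m : ℝ) * D ≤ 1 / Real.sqrt L := by nlinarith
      have e : (1 + (-D)) ^ m = (1 - D) ^ m := by ring_nf
      rw [e] at h4
      linarith
    have hprod0 : 0 ≤ ∏ i, Fx (32 * Y) P R (τ i) (n + h i) := by
      refine le_trans ?_ hprod2
      linarith
    rw [hlpn]
    constructor
    · rw [mul_comm]
      exact mul_le_mul hl1 hprod2 (by linarith) (by linarith)
    · have h6 : Real.log n * ∏ i, Fx (32 * Y) P R (τ i) (n + h i) ≤ (Real.log 2 + L) * 1 :=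
        mul_le_mul hl2 hprod1 hprod0 (by linarith [Real.log_nonneg (show (1 : ℝ) ≤ 2 by norm_num)])
      have h7 : 1 / Real.sqrt L * L = Real.sqrt L := by
        rw [one_div, inv_mul_eq_div, div_eq_iff hsqpos.ne']
        exact hsqsq.symm
      have h8 := Real.log_two_lt_d9
      have e : (1 + 1 / Real.sqrt L) * L = L + Real.sqrt L := by rw [add_mul, h7, one_mul]
      rw [e]
      linarith
  rw [hw, hcnt]
  constructor
  · have := Finset.card_nsmul_le_sum G _ _ (fun n hn => (hterm n hn).1)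
    rw [nsmul_eq_mul] at this
    rw [mul_comm]
    exact this
  · have := Finset.sum_le_card_nsmul G _ _ (fun n hn => (hterm n hn).2)
    rw [nsmul_eq_mul] at this
    rw [mul_comm ((1 + 1 / Real.sqrt L) * L)]
    exact this

end Pool.Agent.Lib.VKT
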