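import Pool.Agent.Lib.VK.TAsm
import Pool.Agent.Lib.VK.TUnw

/-!
# VK / TFin (P4): the theorem for all windows of length at least a power of the logarithm

PROOF. `asmT` with `A + m + 10`, giving `a1` and for `c1` the exponent `c6`; `C := c6 + 3`. Given `Y, H`: `H0 = ⌈(log 32Y)^c6⌉`, `H'`
from `asmT`, `H' ≤ 2 H0 ≤ H` for large `Y`. For `τ i = false` cover `(b_i, b_i + H]` by `K = ⌈H/H'⌉ ≤ 2H/H'` intervals of length `H'` (the
last one sticks out; all ends are `≤ 3 sqrt Y ≤ Y`): `K^(nE)` boxes (`Fintype.piFinset` of the shifts), the exceptions number at most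
`K^nE ∏K_i/(log Y)^(A+m+10) ≤ 2^m ∏(Y or H)/(log Y)^(A+m+10)`. For a good `h`: `θ = 1/sqrt(log Y)`; by `unw` `cnt` is
`(1 + O(θ)) wcnt/log Y`, and `wcnt (log Y)^m/(dP^nE Y) = (log Y/log 32Y)^m HL h + O((log Y)^(m-A-m-10)/dP^nE)`,
`dP ≥ 1/(8 (c1+1) loglog Y)` (`par_ok`), `|(log Y/log 32Y)^m - 1| ≤ 4m/log Y`, `0 ≤ HL h ≤ 2 C' (2 loglog Y)^D` (`tail` with
`z = ⌊(log Y)^2⌋`, `N = 2Y`): total error `≤ (θ + ...) (loglog Y)^(D+m+1) → 0`. `asmT` and `unw` are used with `R := Y/(2P)`.
-/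

set_option autoImplicit false

open Finset

namespace Pool.Agent.Lib.VKT

open Filter Topology in
private theorem tfin_log (K : ℝ) (k : ℕ) {ε : ℝ} (hε : 0 < ε) :
    ∃ q0 : ℝ, ∀ q : ℝ, q0 ≤ q → K * Real.log q ^ k / Real.sqrt q ≤ ε := by
  have h1 : (fun x : ℝ => Real.log x ^ k) =o[atTop] id := Real.isLittleO_pow_log_id_atTop
  have h2 := (h1.comp_tendsto Real.tendsto_sqrt_atTop).tendsto_div_nhds_zero
  have h3 : Tendsto (fun q : ℝ => K * 2 ^ k * (Real.log (Real.sqrt q) ^ k / Real.sqrt q)) atTop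
      (𝓝 (K * 2 ^ k * 0)) := h2.const_mul _
  rw [mul_zero] at h3
  have h4 : ∀ᶠ q : ℝ in atTop, K * 2 ^ k * (Real.log (Real.sqrt q) ^ k / Real.sqrt q) < ε :=
    h3.eventually (gt_mem_nhds hε)
  obtain ⟨q0, hq0⟩ := eventually_atTop.1 (h4.and (eventually_ge_atTop 0))
  refine ⟨q0, fun q hq => ?_⟩
  obtain ⟨h5, h6⟩ := hq0 q hq
  rw [Real.log_sqrt h6, div_pow] at h5
  have e : K * Real.log q ^ k / Real.sqrt q = K * 2 ^ k * (Real.log q ^ k / 2 ^ k / Real.sqrt q) := by
    have : (2 : ℝ) ^ k ≠ 0 := by positivity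
    field_simp
  rw [e]
  exact h5.le

private theorem tfin_cover {m : ℕ} (τ : Fin m → Bool) {b : Fin m → ℕ} {Y H H' K : ℕ} (hH' : 1 ≤ H')
    (hK : H ≤ K * H') (hb : ∀ i, τ i = true → b i = 0) (bad : (Fin m → ℕ) → Prop) [DecidablePred bad] {B : ℝ}
    (h : ∀ k : Fin m → ℕ, (∀ i, τ i = false → k i < K) →
      (((box (fun i => if τ i = true then 0 else b i + k i * H')
        (fun i => if τ i = true then Y else H')).filter bad).card : ℝ) ≤ B) :
    (((box b fun i => if τ i = true then Y else H).filter bad).card : ℝ) ≤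
      (∏ i, ((if τ i = true then 1 else K : ℕ) : ℝ)) * B := by
  set I : Finset (Fin m → ℕ) := Fintype.piFinset (fun i => range (if τ i = true then 1 else K)) with hI
  have hsub : ((box b fun i => if τ i = true then Y else H).filter bad) ⊆
      I.biUnion (fun k => (box (fun i => if τ i = true then 0 else b i + k i * H')
        (fun i => if τ i = true then Y else H')).filter bad) := by
    intro x hx
    rw [mem_filter, box, Fintype.mem_piFinset] at hx
    obtain ⟨hx, hbad⟩ := hx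
    rw [mem_biUnion]
    refine ⟨fun i => if τ i = true then 0 else (x i - b i - 1) / H', ?_, ?_⟩
    · rw [hI, Fintype.mem_piFinset]
      intro i
      rw [mem_range]
      have hxi := mem_Ioc.1 (hx i)
      by_cases ht : τ i = true
      · simp [ht]
      · simp only [ht] at hxi ⊢
        simp only [Bool.false_eq_true, if_false] at hxi ⊢
        rw [Nat.div_lt_iff_lt_mul (by omega)]
        omega
    · rw [mem_filter, box, Fintype.mem_piFinset]
      refine ⟨fun i => ?_, hbad⟩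
      have hxi := mem_Ioc.1 (hx i)
      rw [mem_Ioc]
      by_cases ht : τ i = true
      · have := hb i ht
        simp only [ht, if_true] at hxi ⊢
        omega
      · simp only [ht] at hxi ⊢
        simp only [Bool.false_eq_true, if_false] at hxi ⊢
        have h1 := Nat.div_mul_le_self (x i - b i - 1) H'
        have h2 := Nat.lt_div_mul_add (a := x i - b i - 1) (b := H') (by omega)
        omega
  calc (((box b fun i => if τ i = true then Y else H).filter bad).card : ℝ)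
      ≤ ((I.biUnion (fun k => (box (fun i => if τ i = true then 0 else b i + k i * H')
        (fun i => if τ i = true then Y else H')).filter bad)).card : ℝ) := by
        exact_mod_cast card_le_card hsub
    _ ≤ ∑ k ∈ I, (((box (fun i => if τ i = true then 0 else b i + k i * H')
        (fun i => if τ i = true then Y else H')).filter bad).card : ℝ) := by
        exact_mod_cast card_biUnion_le
    _ ≤ ∑ _k ∈ I, B := by
        refine sum_le_sum fun k hk => h k fun i hi => ?_
        rw [hI, Fintype.mem_piFinset] at hk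
        have := mem_range.1 (hk i)
        simpa [hi] using this
    _ = (∏ i, ((if τ i = true then 1 else K : ℕ) : ℝ)) * B := by
        rw [sum_const, nsmul_eq_mul, hI, Fintype.card_piFinset]
        simp only [card_range]
        push_cast
        rfl

private theorem tfin_real {q l d a w c Yr B E : ℝ} {m n A : ℕ} (hq : 4 ≤ q) (hql : q ≤ l)
    (hl : l ≤ q + 4) (hd : 0 < d) (hc : 0 ≤ c) (hY : 0 < Yr)
    (h1 : (1 - 1 / Real.sqrt q) * q * c ≤ w) (h2 : w ≤ (1 + 1 / Real.sqrt q) * q * c)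
    (h3 : |w - d ^ n / l ^ m * Yr * a| ≤ Yr / q ^ (A + m + 10)) (h4 : |a| ≤ B)
    (h5 : 1 / d ^ n ≤ E) :
    |c * q ^ (m + 1) / (d ^ n * Yr) - a| ≤ (4 * m + 3) * (B + E) / Real.sqrt q := by
  have hq0 : 0 < q := by linarith
  have hl0 : 0 < l := by linarith
  have hs2 : 2 ≤ Real.sqrt q := by
    rw [show (2 : ℝ) = Real.sqrt 4 from by
      rw [show (4 : ℝ) = 2 ^ 2 by norm_num, Real.sqrt_sq (by norm_num)]]
    exact Real.sqrt_le_sqrt hq
  have hss : Real.sqrt q * Real.sqrt q = q := Real.mul_self_sqrt hq0.le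
  obtain ⟨θ, hθ⟩ : ∃ θ : ℝ, θ = 1 / Real.sqrt q := ⟨_, rfl⟩
  have hθ0 : 0 < θ := by rw [hθ]; positivity
  have hθ2 : θ ≤ 1 / 2 := by
    rw [hθ]
    exact one_div_le_one_div_of_le (by norm_num) hs2
  have hθq : 1 / q = θ ^ 2 := by
    rw [hθ, div_pow, one_pow, sq, hss]
  have hB0 : 0 ≤ B := le_trans (abs_nonneg _) h4
  have hE0 : 0 ≤ E := le_trans (by positivity) h5
  obtain ⟨F, hF⟩ : ∃ F : ℝ, F = q ^ m / (d ^ n * Yr) := ⟨_, rfl⟩
  have hF0 : 0 < F := by rw [hF]; positivity
  have eC : c * q ^ (m + 1) / (d ^ n * Yr) = q * c * F := by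
    rw [hF, pow_succ]
    ring
  obtain ⟨W, hW⟩ : ∃ W : ℝ, W = w * F := ⟨_, rfl⟩
  obtain ⟨C0, hC0⟩ : ∃ C0 : ℝ, C0 = q * c * F := ⟨_, rfl⟩
  have hC00 : 0 ≤ C0 := by rw [hC0]; positivity
  rw [eC, ← hC0]
  rw [← hθ] at h1 h2
  have h1' : (1 - θ) * C0 ≤ W := by
    rw [hC0, hW]
    calc (1 - θ) * (q * c * F) = ((1 - θ) * q * c) * F := by ring
      _ ≤ w * F := mul_le_mul_of_nonneg_right h1 hF0.le
  have h2' : W ≤ (1 + θ) * C0 := by
    rw [hC0, hW]
    calc w * F ≤ ((1 + θ) * q * c) * F := mul_le_mul_of_nonneg_right h2 hF0.le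
      _ = (1 + θ) * (q * c * F) := by ring
  -- `W = (q / l) ^ m * a + e`
  obtain ⟨x, hx⟩ : ∃ x : ℝ, x = q / l := ⟨_, rfl⟩
  have hx0 : 0 < x := by rw [hx]; positivity
  have hx1 : x ≤ 1 := by rw [hx]; exact (div_le_one hl0).2 hql
  have e1 : d ^ n / l ^ m * Yr * a * F = x ^ m * a := by
    rw [hF, hx, div_pow]
    have : d ^ n ≠ 0 := by positivity
    have : l ^ m ≠ 0 := by positivity
    field_simp
  have h3' : |W - x ^ m * a| ≤ E * θ := by
    have e2 : W - x ^ m * a = (w - d ^ n / l ^ m * Yr * a) * F := by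
      rw [hW, ← e1]
      ring
    rw [e2, abs_mul, abs_of_pos hF0]
    calc |w - d ^ n / l ^ m * Yr * a| * F ≤ Yr / q ^ (A + m + 10) * F :=
          mul_le_mul_of_nonneg_right h3 hF0.le
      _ = 1 / d ^ n * (1 / q ^ (A + 10)) := by
          rw [hF, show A + m + 10 = (A + 10) + m by ring, pow_add]
          field_simp
      _ ≤ E * (1 / q) := by
          refine mul_le_mul h5 ?_ (by positivity) hE0
          refine one_div_le_one_div_of_le hq0 ?_
          calc q = q ^ 1 := (pow_one q).symm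
            _ ≤ q ^ (A + 10) := pow_le_pow_right₀ (by linarith) (by omega)
      _ ≤ E * θ := by
          refine mul_le_mul_of_nonneg_left ?_ hE0
          rw [hθq]
          nlinarith
  have hxm : 0 ≤ x ^ m := by positivity
  have hxm1 : x ^ m ≤ 1 := pow_le_one₀ hx0.le hx1
  have hxm2 : 1 - x ^ m ≤ 4 * m * θ := by
    have hb := one_add_mul_le_pow (a := x - 1) (by linarith) m
    have e3 : (1 : ℝ) + (x - 1) = x := by ring
    rw [e3] at hb
    have h6 : 1 - x ≤ 4 * (1 / q) := by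
      rw [hx]
      have : 1 - q / l = (l - q) / l := by field_simp
      rw [this, ← mul_div_assoc, mul_one]
      exact div_le_div₀ (by norm_num) (by linarith) hq0 hql
    have h7 : (1 : ℝ) / q ≤ θ := by
      rw [hθq]
      nlinarith
    have h8 : (m : ℝ) * (1 - x) ≤ m * (4 * θ) :=
      mul_le_mul_of_nonneg_left (by linarith) (Nat.cast_nonneg _)
    nlinarith
  have hWa : |W - a| ≤ 4 * m * θ * B + E * θ := by
    have e4 : W - a = (W - x ^ m * a) - (1 - x ^ m) * a := by ring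
    rw [e4]
    refine (abs_sub _ _).trans ?_
    rw [abs_mul, abs_of_nonneg (by linarith : 0 ≤ 1 - x ^ m)]
    have h8 : (1 - x ^ m) * |a| ≤ 4 * m * θ * B :=
      mul_le_mul hxm2 h4 (abs_nonneg _) (by positivity)
    linarith
  have hWle : W ≤ B + E := by
    have h9 : x ^ m * a ≤ B := by
      calc x ^ m * a ≤ x ^ m * |a| := mul_le_mul_of_nonneg_left (le_abs_self a) hxm
        _ ≤ 1 * |a| := mul_le_mul_of_nonneg_right hxm1 (abs_nonneg _)
        _ ≤ B := by rw [one_mul]; exact h4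
    have h10 := (abs_le.1 h3').2
    have h11 : E * θ ≤ E := by nlinarith
    linarith
  have hCW : |C0 - W| ≤ 2 * θ * (B + E) := by
    have h12 : |C0 - W| ≤ θ * C0 := by
      rw [abs_le]
      constructor <;> linarith
    have h13 : C0 ≤ 2 * W := by nlinarith
    have h14 : θ * C0 ≤ θ * (2 * (B + E)) := mul_le_mul_of_nonneg_left (by linarith) hθ0.le
    linarith
  have hfin : |C0 - a| ≤ (4 * m + 3) * (B + E) * θ := by
    have e5 : C0 - a = (C0 - W) + (W - a) := by ring
    rw [e5]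
    refine (abs_add_le _ _).trans ?_
    have hm : (0 : ℝ) ≤ m := Nat.cast_nonneg _
    have h15 : 0 ≤ (m : ℝ) * θ * E := by positivity
    have h16 : 0 ≤ B * θ := by positivity
    nlinarith
  calc |C0 - a| ≤ (4 * m + 3) * (B + E) * θ := hfin
    _ = (4 * m + 3) * (B + E) / Real.sqrt q := by rw [hθ]; ring

open Classical in
theorem tuples {m : ℕ} (τ : Fin m → Bool) (A : ℕ) : ∃ a1 : ℕ, ∀ c1 : ℕ, a1 ≤ c1 → ∃ C : ℕ, ∀ ε : ℝ, 0 < ε → ∃ x0 : ℝ,
    ∀ Y P : ℕ, x0 ≤ Y → P = ⌊(Real.log (32 * Y : ℕ)) ^ c1⌋₊ → ∀ H : ℕ, (Real.log Y) ^ C ≤ H → (H : ℝ) ≤ Real.sqrt Y →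
      ∀ b : Fin m → ℕ, (∀ i, (τ i = true → b i = 0) ∧ (τ i = false → (b i : ℝ) ≤ Real.sqrt Y)) →
        (((box b fun i => if τ i = true then Y else H).filter fun h => ¬ (Function.Injective h ∧
          |(cnt P Y τ h : ℝ) * (Real.log Y) ^ (m + 1) / (dP P ^ nE τ * Y) - HL h| ≤ ε)).card : ℝ) ≤
            (∏ i, ((if τ i = true then Y else H : ℕ) : ℝ)) / (Real.log Y) ^ A := by
  obtain ⟨a1, hasm⟩ := asmT τ (A + m + 10)
  refine ⟨max a1 1, fun c1 hc1 => ?_⟩
  have hc11 : 1 ≤ c1 := le_trans (le_max_right _ _) hc1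
  obtain ⟨c6, x1, h1⟩ := hasm c1 (le_trans (le_max_left _ _) hc1)
  refine ⟨c6 + 3, fun ε hε => ?_⟩
  obtain ⟨C', D, hC', htail⟩ := tail m
  obtain ⟨x2, hunw⟩ := unw τ c1
  obtain ⟨x3, hpar⟩ := par_ok c1
  obtain ⟨q0, hq0⟩ := tfin_log ((4 * m + 3) * ((C' + 1) * 2 ^ D + (8 * ((c1 : ℝ) + 1)) ^ nE τ)) (D + nE τ) hε
  -- a large real
  obtain ⟨qs, hqs⟩ : ∃ qs : ℝ, qs = |q0| + 4 * C' + 2 ^ (c6 + 2) + 10 := ⟨_, rfl⟩
  refine ⟨max (max (max x1 x2) x3) (max (Real.exp qs) 9), ?_⟩
  intro Y P hYx hP H hCH hHY b hb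
  have hx1 : x1 ≤ Y := le_trans (by simp) hYx
  have hx2 : x2 ≤ Y := le_trans (by simp) hYx
  have hx3 : x3 ≤ Y := le_trans (by simp) hYx
  have hxe : Real.exp qs ≤ Y := le_trans (by simp) hYx
  have hx9 : (9 : ℝ) ≤ Y := le_trans (by simp) hYx
  have hY0 : (0 : ℝ) < Y := by linarith
  have hYn : 0 < Y := by exact_mod_cast hY0
  obtain ⟨q, hq⟩ : ∃ q : ℝ, q = Real.log Y := ⟨_, rfl⟩
  obtain ⟨l, hl⟩ : ∃ l : ℝ, l = Real.log (32 * Y : ℕ) := ⟨_, rfl⟩
  have hqq : qs ≤ q := by
    rw [hq]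
    exact (Real.le_log_iff_exp_le hY0).2 hxe
  have hpos2 : (0 : ℝ) < 2 ^ (c6 + 2) := by positivity
  have habs := abs_nonneg q0
  have hq10 : 10 ≤ q := by nlinarith
  have hqC : 4 * C' ≤ q := by nlinarith
  have hqc6 : (2 : ℝ) ^ (c6 + 2) ≤ q := by nlinarith
  have hqq0 : q0 ≤ q := by nlinarith [le_abs_self q0]
  have hlq : l = Real.log 32 + q := by
    rw [hl, hq]
    push_cast
    rw [Real.log_mul (by norm_num) hY0.ne']
  have hlog32 : Real.log 32 ≤ 4 := by
    have : Real.log 32 = 5 * Real.log 2 := by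
      rw [show (32 : ℝ) = 2 ^ 5 by norm_num, Real.log_pow]
      norm_num
    rw [this]
    have := Real.log_two_lt_d9
    linarith
  have hlog320 : 0 ≤ Real.log 32 := Real.log_nonneg (by norm_num)
  have hql : q ≤ l := by linarith
  have hl4 : l ≤ q + 4 := by linarith
  have hl2 : l ≤ 2 * q := by linarith
  -- `sqrt Y`
  have hs0 : 0 ≤ Real.sqrt Y := Real.sqrt_nonneg _
  have hss : Real.sqrt Y * Real.sqrt Y = Y := Real.mul_self_sqrt hY0.le
  have hs3 : 3 ≤ Real.sqrt Y := by
    rw [show (3 : ℝ) = Real.sqrt 9 from by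
      rw [show (9 : ℝ) = 3 ^ 2 by norm_num, Real.sqrt_sq (by norm_num)]]
    exact Real.sqrt_le_sqrt hx9
  have h3s : 3 * Real.sqrt Y ≤ Y := by nlinarith
  -- `H0`, `H'`
  obtain ⟨H0, hH0⟩ : ∃ H0 : ℕ, H0 = ⌈l ^ c6⌉₊ := ⟨_, rfl⟩
  have hl0 : 0 < l := by linarith
  have hlc : 1 ≤ l ^ c6 := one_le_pow₀ (by linarith)
  have hH0a : l ^ c6 ≤ H0 := by rw [hH0]; exact Nat.le_ceil _
  have hH0b : (H0 : ℝ) ≤ l ^ c6 + 1 := by
    rw [hH0]
    exact (Nat.ceil_lt_add_one (by positivity)).le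
  have hH0c : (H0 : ℝ) ≤ l ^ (c6 + 2) := by
    rw [pow_add]
    have : 2 ≤ l ^ 2 := by nlinarith
    nlinarith
  rw [hl] at hH0a hH0c
  obtain ⟨H', hH'1, hH'2, hbox⟩ := h1 Y P (Y / (2 * P)) hx1 hP rfl H0 hH0a hH0c
  rw [← hl] at hH0a hH0c
  have hH0pos : 1 ≤ H0 := by
    have : (1 : ℝ) ≤ H0 := le_trans hlc hH0a
    exact_mod_cast this
  have hH'pos : 1 ≤ H' := le_trans hH0pos hH'1
  have hH'H : H' ≤ H := by
    have h2 : (H' : ℝ) ≤ H := by
      calc (H' : ℝ) ≤ 2 * H0 := by exact_mod_cast hH'2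
        _ ≤ 2 * (l ^ c6 + 1) := by linarith
        _ ≤ 4 * l ^ c6 := by linarith
        _ ≤ 4 * (2 * q) ^ c6 := by
            have := pow_le_pow_left₀ hl0.le hl2 c6
            linarith
        _ = 2 ^ (c6 + 2) * q ^ c6 := by rw [mul_pow, pow_add]; ring
        _ ≤ q * q ^ c6 := mul_le_mul_of_nonneg_right hqc6 (by positivity)
        _ = q ^ (c6 + 1) := by rw [pow_succ]; ring
        _ ≤ q ^ (c6 + 3) := pow_le_pow_right₀ (by linarith) (by omega)
        _ ≤ H := by rw [hq]; exact hCH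
    exact_mod_cast h2
  obtain ⟨K, hK⟩ : ∃ K : ℕ, K = H / H' + 1 := ⟨_, rfl⟩
  have hKH : H ≤ K * H' := by
    have := Nat.lt_div_mul_add (a := H) (b := H') (by omega)
    rw [hK, add_mul, one_mul]
    exact this.le
  have hKH2 : K * H' ≤ 2 * H := by
    have := Nat.div_mul_le_self H H'
    rw [hK, add_mul, one_mul]
    omega
  have hend : ∀ i, τ i = false → b i + K * H' ≤ Y := by
    intro i hi
    have h2 : ((b i + K * H' : ℕ) : ℝ) ≤ Y := by
      have h3 : ((K * H' : ℕ) : ℝ) ≤ ((2 * H : ℕ) : ℝ) := by exact_mod_cast hKH2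
      push_cast at h3 ⊢
      have := (hb i).2 hi
      linarith
    exact_mod_cast h2
  have hcov := tfin_cover τ (b := b) (Y := Y) (H := H) (H' := H') (K := K) hH'pos hKH
    (fun i hi => (hb i).1 hi) (fun h => ¬ (Function.Injective h ∧
          |(cnt P Y τ h : ℝ) * (Real.log Y) ^ (m + 1) / (dP P ^ nE τ * Y) - HL h| ≤ ε))
    (B := (∏ i, ((if τ i = true then Y else H' : ℕ) : ℝ)) / (Real.log Y) ^ (A + m + 10)) ?_
  · -- the count
    refine hcov.trans ?_
    rw [← mul_div_assoc, ← Finset.prod_mul_distrib]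
    have h2 : ∏ i, (((if τ i = true then 1 else K : ℕ) : ℝ) * ((if τ i = true then Y else H' : ℕ) : ℝ)) ≤
        2 ^ m * ∏ i, ((if τ i = true then Y else H : ℕ) : ℝ) := by
      calc ∏ i, (((if τ i = true then 1 else K : ℕ) : ℝ) * ((if τ i = true then Y else H' : ℕ) : ℝ))
          ≤ ∏ i, (2 * ((if τ i = true then Y else H : ℕ) : ℝ)) := by
            refine prod_le_prod (fun i _ => by positivity) fun i _ => ?_
            by_cases ht : τ i = true
            · simp only [ht, if_true]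
              push_cast
              linarith
            · simp only [ht, Bool.false_eq_true, if_false]
              exact_mod_cast hKH2
        _ = 2 ^ m * ∏ i, ((if τ i = true then Y else H : ℕ) : ℝ) := by
            rw [prod_mul_distrib, prod_const, card_univ, Fintype.card_fin]
    rw [← hq]
    have hP0 : (0 : ℝ) ≤ ∏ i, ((if τ i = true then Y else H : ℕ) : ℝ) := prod_nonneg fun i _ => Nat.cast_nonneg _
    have hq2 : (2 : ℝ) ^ m ≤ q ^ (m + 10) := by
      calc (2 : ℝ) ^ m ≤ q ^ m := pow_le_pow_left₀ (by norm_num) (by linarith) m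
        _ ≤ q ^ (m + 10) := pow_le_pow_right₀ (by linarith) (by omega)
    rw [div_le_div_iff₀ (by positivity) (by positivity)]
    calc (∏ i, (((if τ i = true then 1 else K : ℕ) : ℝ) * ((if τ i = true then Y else H' : ℕ) : ℝ))) * q ^ A
        ≤ (2 ^ m * ∏ i, ((if τ i = true then Y else H : ℕ) : ℝ)) * q ^ A :=
          mul_le_mul_of_nonneg_right h2 (by positivity)
      _ = (∏ i, ((if τ i = true then Y else H : ℕ) : ℝ)) * (q ^ A * 2 ^ m) := by ring
      _ ≤ (∏ i, ((if τ i = true then Y else H : ℕ) : ℝ)) * (q ^ A * q ^ (m + 10)) :=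
          mul_le_mul_of_nonneg_left (mul_le_mul_of_nonneg_left hq2 (by positivity)) hP0
      _ = (∏ i, ((if τ i = true then Y else H : ℕ) : ℝ)) * q ^ (A + m + 10) := by
          rw [← pow_add, add_assoc]
  · -- good tuples
    intro k hk
    have hkH : ∀ i, τ i = false → b i + k i * H' + H' ≤ Y := by
      intro i hi
      have h2 := hend i hi
      have h3 : (k i + 1) * H' ≤ K * H' := Nat.mul_le_mul_right _ (hk i hi)
      rw [add_mul, one_mul] at h3
      omega
    refine le_trans ?_ (hbox (fun i => if τ i = true then 0 else b i + k i * H') (fun i => ⟨fun hi => by simp [hi],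
      fun hi => by simpa [hi] using hkH i hi⟩))
    have hsub : ((box (fun i => if τ i = true then 0 else b i + k i * H')
        (fun i => if τ i = true then Y else H')).filter fun h => ¬ (Function.Injective h ∧
          |(cnt P Y τ h : ℝ) * (Real.log Y) ^ (m + 1) / (dP P ^ nE τ * Y) - HL h| ≤ ε)) ⊆
        ((box (fun i => if τ i = true then 0 else b i + k i * H')
        (fun i => if τ i = true then Y else H')).filter fun h => ¬ (Function.Injective h ∧
          |wcnt (32 * Y) P (Y / (2 * P)) Y τ h - dP P ^ nE τ / (Real.log (32 * Y : ℕ)) ^ m * Y * HL h| ≤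
            Y / (Real.log Y) ^ (A + m + 10))) := by
      intro h hh
      rw [mem_filter] at hh ⊢
      refine ⟨hh.1, fun hgood => hh.2 ⟨hgood.1, ?_⟩⟩
      have hmem : ∀ i, 1 ≤ h i ∧ h i ≤ Y := by
        intro i
        have h2 := (Fintype.mem_piFinset.1 hh.1) i
        rw [mem_Ioc] at h2
        by_cases ht : τ i = true
        · simp only [ht, if_true] at h2
          omega
        · have h3 := hkH i (by simpa using ht)
          simp only [ht, Bool.false_eq_true, if_false] at h2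
          omega
      obtain ⟨_, _, _, _, _, hdP, _⟩ := hpar Y P (Y / (2 * P)) hx3 hP rfl
      obtain ⟨hu1, hu2⟩ := hunw Y P (Y / (2 * P)) hx2 hP rfl h (fun i => (hmem i).2)
      -- the tail
      have hlogq1 : 1 ≤ Real.log q := by
        rw [Real.le_log_iff_exp_le (by linarith)]
        have := Real.exp_one_lt_d9
        linarith
      obtain ⟨z, hz⟩ : ∃ z : ℕ, z = ⌊q ^ 2⌋₊ := ⟨_, rfl⟩
      have hz1 : q ^ 2 - 1 ≤ z := by
        rw [hz]
        exact (Nat.sub_one_lt_floor (q ^ 2)).le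
      have hz2 : (z : ℝ) ≤ q ^ 2 := by
        rw [hz]
        exact Nat.floor_le (by positivity)
      have hz3 : (2 : ℝ) ≤ z := by nlinarith
      have hz4 : 2 ≤ z := by exact_mod_cast hz3
      have hlogN : Real.log ((2 * Y : ℕ) : ℝ) ≤ 2 * q := by
        push_cast
        rw [Real.log_mul (by norm_num) hY0.ne', ← hq]
        have := Real.log_two_lt_d9
        linarith
      have hCz : C' * Real.log ((2 * Y : ℕ) : ℝ) ≤ z := by
        calc C' * Real.log ((2 * Y : ℕ) : ℝ) ≤ C' * (2 * q) := mul_le_mul_of_nonneg_left hlogN hC'.le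
          _ ≤ q ^ 2 / 2 := by nlinarith
          _ ≤ z := by nlinarith
      obtain ⟨_, ht2, ht3, ht4⟩ := htail z (2 * Y) h hz4 (by omega) hgood.1
        (fun i => ⟨(hmem i).1, by have := (hmem i).2; omega⟩) hCz
      have hz0 : (0 : ℝ) < z := by linarith
      have hlogz0 : 0 ≤ Real.log z := Real.log_nonneg (by linarith)
      have hlogz : Real.log z ≤ 2 * Real.log q := by
        calc Real.log z ≤ Real.log (q ^ 2) := Real.log_le_log hz0 hz2
          _ = 2 * Real.log q := by rw [Real.log_pow]; norm_num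
      have hlogzD : Real.log z ^ D ≤ (2 * Real.log q) ^ D := pow_le_pow_left₀ hlogz0 hlogz D
      have hHL : |HL h| ≤ (C' + 1) * (2 * Real.log q) ^ D := by
        have h5 : C' * Real.log ((2 * Y : ℕ) : ℝ) * (Real.log z) ^ D / z ≤ (Real.log z) ^ D := by
          rw [div_le_iff₀ hz0, mul_comm ((Real.log z) ^ D)]
          exact mul_le_mul_of_nonneg_right hCz (by positivity)
        have h6 : |HL h| ≤ |part h z| + |part h z - HL h| := by
          have := abs_sub (part h z) (part h z - HL h)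
          rw [sub_sub_cancel] at this
          exact this
        rw [abs_of_nonneg ht3] at h6
        have h7 : C' * Real.log z ^ D ≤ C' * (2 * Real.log q) ^ D := mul_le_mul_of_nonneg_left hlogzD hC'.le
        linarith
      -- the density
      have hlq0 : 0 < Real.log q := by linarith
      have hcc : (0 : ℝ) < 8 * (c1 + 1) * Real.log q := by positivity
      have hdP' : 1 / (8 * (c1 + 1) * Real.log q) ≤ dP P := by rw [hq]; exact hdP
      have hdP0 : 0 < dP P := lt_of_lt_of_le (by positivity) hdP'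
      have hE : 1 / dP P ^ nE τ ≤ (8 * (c1 + 1) * Real.log q) ^ nE τ := by
        have h5 : 1 / dP P ≤ 8 * (c1 + 1) * Real.log q := by
          rw [div_le_iff₀ hdP0]
          rw [div_le_iff₀ hcc] at hdP'
          linarith
        calc 1 / dP P ^ nE τ = (1 / dP P) ^ nE τ := by rw [div_pow, one_pow]
          _ ≤ (8 * (c1 + 1) * Real.log q) ^ nE τ := pow_le_pow_left₀ (by positivity) h5 _
      have hmain := tfin_real (A := A) (m := m) (n := nE τ) (c := cnt P Y τ h) (Yr := Y) (l := l) (q := q)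
        (d := dP P) (a := HL h) (w := wcnt (32 * Y) P (Y / (2 * P)) Y τ h) (by linarith) hql hl4 hdP0
        (Nat.cast_nonneg _) hY0 (by rw [hq]; exact hu1) (by rw [hq]; exact hu2)
        (by rw [hq, hl]; exact hgood.2) hHL hE
      rw [← hq]
      refine hmain.trans (le_trans ?_ (hq0 q hqq0))
      refine div_le_div_of_nonneg_right ?_ (Real.sqrt_nonneg _)
      have h8 : (C' + 1) * (2 * Real.log q) ^ D ≤ (C' + 1) * 2 ^ D * Real.log q ^ (D + nE τ) := by
        rw [mul_pow, ← mul_assoc]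
        exact mul_le_mul_of_nonneg_left (pow_le_pow_right₀ hlogq1 (by omega)) (by positivity)
      have h9 : (8 * ((c1 : ℝ) + 1) * Real.log q) ^ nE τ ≤
          (8 * ((c1 : ℝ) + 1)) ^ nE τ * Real.log q ^ (D + nE τ) := by
        rw [mul_pow]
        exact mul_le_mul_of_nonneg_left (pow_le_pow_right₀ hlogq1 (by omega)) (by positivity)
      have hm3 : (0 : ℝ) ≤ 4 * m + 3 := by positivity
      calc (4 * (m : ℝ) + 3) * ((C' + 1) * (2 * Real.log q) ^ D + (8 * ((c1 : ℝ) + 1) * Real.log q) ^ nE τ)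
          ≤ (4 * m + 3) * ((C' + 1) * 2 ^ D * Real.log q ^ (D + nE τ) +
            (8 * ((c1 : ℝ) + 1)) ^ nE τ * Real.log q ^ (D + nE τ)) :=
            mul_le_mul_of_nonneg_left (add_le_add h8 h9) hm3
        _ = (4 * m + 3) * ((C' + 1) * 2 ^ D + (8 * ((c1 : ℝ) + 1)) ^ nE τ) * Real.log q ^ (D + nE τ) := by ring
    exact_mod_cast card_le_card hsub

end Pool.Agent.Lib.VKT
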