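import Pool.Agent.Lib.VK.TMom
import Pool.Agent.Lib.BV.Farey
import Pool.Agent.Lib.G3.VbA

/-!
# VK / TLa (P4): one dyadic block of denominators, large sieve

PROOF. `W = primorial Q`, `Bl = W.divisors.filter (Q1 < q ≤ 2 Q1)`. `gq q n = (μ(q)/φ(q)) ∑_{a ∈ range q, (a,q)=1} e(a n/q)`
(`SW.gq_eq_exp`, `q` squarefree). For `h = b + h'`, `h' ∈ Icc 1 H`:
`A(h) = avg (G n ∑_{q ∈ Bl} gq q (n+h)) = ∑_{(q,a)} β_(q,a) e(h' a/q)`, `β_(q,a) = (μ(q)/φ(q)) e(b a/q) (1/W) ∑_{n < W} G n e(n a/q)`.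
The points `a/q` are `1/(4 Q1²)`-spaced modulo 1 (reduced fractions with denominators `≤ 2 Q1`: proof of `farey_sieve` in BV/Farey,
or `G3.sep_cl`), so `BV.quad_form`: `∑_{h'} |A|² ≤ 6 (H + 4 Q1²) ∑ |β|²`. `|β|² ≤ φ(q)^(-2) |(1/W) ∑ G e(na/q)|²`;
`q/φ(q) = ∏_{p | q} p/(p-1) ≤ ∏_{p ≤ Q} p/(p-1) ≤ C log Q` (`G3.si_mer`), so `φ(q)^(-2) ≤ C² (log Q)²/Q1²`; and
`∑_{(q,a), q | W} |∑_{n < W} G n e(n a/q)|² ≤ 12 W ∑_{n<W} G n²` (`BV.large_sieve_add` with `N = W`, `δ = 1/W`: the fractions `a/q`,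
`q | W`, are multiples of `1/W`, distinct modulo 1; replace `n ∈ range W` by `n + 1 ∈ Icc 1 W`, the factor `e(-a/q)` is unimodular).
Hence `∑_{h'} |A|² ≤ 72 C² (log Q)² (H/Q1² + 4) avg(G²)`.
-/

set_option autoImplicit false

open Finset

namespace Pool.Agent.Lib.VKT

open Pool.Agent.Lib.SW (gq LQ)

open Pool.Agent.Lib.GT (e norm_e e_add)

private noncomputable def tla_g (q : ℕ) : ℂ := ((ArithmeticFunction.moebius q : ℤ) : ℂ) / (q.totient : ℂ)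

private theorem tla_phi {Q q : ℕ} (hq : q ∣ primorial Q) (hq0 : 0 < q) {K : ℝ}
    (hK : ∏ p ∈ Pool.Agent.Lib.G3.siP Q, (1 + 1 / ((p : ℝ) - 1)) ≤ K) : (q : ℝ) ≤ K * (q.totient : ℝ) := by
  have h1 : (q : ℝ) = (∏ p ∈ q.primeFactors, (1 + 1 / ((p : ℝ) - 1))) * (q.totient : ℝ) := by
    have h2 : (q.totient : ℝ) = (q : ℝ) * ∏ p ∈ q.primeFactors, (1 - (p : ℝ)⁻¹) := by
      have := Nat.totient_eq_mul_prod_factors q
      have h3 : ((q.totient : ℚ) : ℝ) = (((q : ℚ) * ∏ p ∈ q.primeFactors, (1 - (p : ℚ)⁻¹) : ℚ) : ℝ) := by rw [this]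
      push_cast at h3
      exact h3
    rw [h2, mul_left_comm, ← prod_mul_distrib, prod_eq_one, mul_one]
    intro p hp
    have hpp := Nat.prime_of_mem_primeFactors hp
    have hp2 : (2 : ℝ) ≤ p := by exact_mod_cast hpp.two_le
    have hp0 : (p : ℝ) ≠ 0 := by linarith
    have hp1 : (p : ℝ) - 1 ≠ 0 := by linarith
    field_simp
    ring
  have h4 : ∏ p ∈ q.primeFactors, (1 + 1 / ((p : ℝ) - 1)) ≤ ∏ p ∈ Pool.Agent.Lib.G3.siP Q, (1 + 1 / ((p : ℝ) - 1)) := by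
    have hsub : q.primeFactors ⊆ Pool.Agent.Lib.G3.siP Q := by
      intro p hp
      have hpp := Nat.prime_of_mem_primeFactors hp
      rw [Pool.Agent.Lib.G3.si_mem]
      have hd : p ∣ primorial Q := (Nat.dvd_of_mem_primeFactors hp).trans hq
      exact ⟨(hpp.dvd_primorial_iff).1 hd, hpp⟩
    have hge : ∀ p ∈ Pool.Agent.Lib.G3.siP Q, (1 : ℝ) ≤ 1 + 1 / ((p : ℝ) - 1) := by
      intro p hp
      have hpp := (Pool.Agent.Lib.G3.si_mem.1 hp).2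
      have hp2 : (2 : ℝ) ≤ p := by exact_mod_cast hpp.two_le
      have : 0 ≤ 1 / ((p : ℝ) - 1) := by apply div_nonneg zero_le_one; linarith
      linarith
    rw [← prod_sdiff hsub]
    have h6 : (1 : ℝ) ≤ ∏ p ∈ Pool.Agent.Lib.G3.siP Q \ q.primeFactors, (1 + 1 / ((p : ℝ) - 1)) := by
      calc (1 : ℝ) = ∏ _p ∈ Pool.Agent.Lib.G3.siP Q \ q.primeFactors, (1 : ℝ) := prod_const_one.symm
        _ ≤ _ := prod_le_prod (fun _ _ => zero_le_one) fun p hp => hge p (mem_sdiff.1 hp).1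
    have h7 : 0 ≤ ∏ p ∈ q.primeFactors, (1 + 1 / ((p : ℝ) - 1)) :=
      prod_nonneg fun p hp => zero_le_one.trans (hge p (hsub hp))
    exact le_mul_of_one_le_left h7 h6
  have h5 : (0 : ℝ) ≤ (q.totient : ℝ) := Nat.cast_nonneg _
  calc (q : ℝ) = (∏ p ∈ q.primeFactors, (1 + 1 / ((p : ℝ) - 1))) * (q.totient : ℝ) := h1
    _ ≤ K * (q.totient : ℝ) := mul_le_mul_of_nonneg_right (h4.trans hK) h5

private theorem tla_gnorm {Q q Q1 : ℕ} (hq : q ∣ primorial Q) (hq0 : 0 < q) (hQ1 : 0 < Q1) (hqQ : Q1 < q) {K : ℝ}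
    (hK : ∏ p ∈ Pool.Agent.Lib.G3.siP Q, (1 + 1 / ((p : ℝ) - 1)) ≤ K) : ‖tla_g q‖ ≤ K / Q1 := by
  have h1 := tla_phi hq hq0 hK
  have h2 : (0 : ℝ) < (q.totient : ℝ) := by exact_mod_cast Nat.totient_pos.2 hq0
  have h3 : (0 : ℝ) < (Q1 : ℝ) := by exact_mod_cast hQ1
  have h4 : (Q1 : ℝ) ≤ (q : ℝ) := by exact_mod_cast hqQ.le
  have h5 : ‖tla_g q‖ ≤ 1 / (q.totient : ℝ) := by
    unfold tla_g
    rw [norm_div, Complex.norm_intCast, Complex.norm_natCast]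
    apply div_le_div_of_nonneg_right _ h2.le
    exact_mod_cast ArithmeticFunction.abs_moebius_le_one
  refine h5.trans ?_
  rw [div_le_div_iff₀ h2 h3]
  linarith

private theorem tla_sep {Q1 : ℕ} {q q' b b' : ℕ} (hq : 1 ≤ q) (hq' : 1 ≤ q') (hq1 : q ≤ 2 * Q1) (hq1' : q' ≤ 2 * Q1)
    (hb : b ∈ Pool.Agent.Lib.G3.cl q) (hb' : b' ∈ Pool.Agent.Lib.G3.cl q') (hne : (q, b) ≠ (q', b')) (k : ℤ) :
    1 / (4 * (Q1 : ℝ) ^ 2) ≤ |(b : ℝ) / q - (b' : ℝ) / q' - k| := by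
  have h1 := Pool.Agent.Lib.G3.sep_cl hq' hq hb' hb (fun h => hne h.symm) k
  have h2 : (b : ℝ) / q - (b' : ℝ) / q' - k = -((b' : ℝ) / q') + (b : ℝ) / q - k := by ring
  rw [h2]
  refine le_trans ?_ h1
  have h3 : (0 : ℝ) < q := by exact_mod_cast hq
  have h3' : (0 : ℝ) < q' := by exact_mod_cast hq'
  have h4 : (q : ℝ) ≤ 2 * Q1 := by exact_mod_cast hq1
  have h4' : (q' : ℝ) ≤ 2 * Q1 := by exact_mod_cast hq1'
  apply one_div_le_one_div_of_le (by positivity)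
  nlinarith

private theorem tla_sepW {W : ℕ} (hW : 0 < W) {q q' b b' : ℕ} (hq : 1 ≤ q) (hq' : 1 ≤ q') (hq1 : q ∣ W) (hq1' : q' ∣ W)
    (hb : b ∈ Pool.Agent.Lib.G3.cl q) (hb' : b' ∈ Pool.Agent.Lib.G3.cl q') (hne : (q, b) ≠ (q', b')) (k : ℤ) :
    1 / (W : ℝ) ≤ |(b : ℝ) / q - (b' : ℝ) / q' - k| := by
  have h1 := Pool.Agent.Lib.G3.sep_cl hq' hq hb' hb (fun h => hne h.symm) k
  have h2 : (b : ℝ) / q - (b' : ℝ) / q' - k = -((b' : ℝ) / q') + (b : ℝ) / q - k := by ring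
  have h3 : (0 : ℝ) < q := by exact_mod_cast hq
  have h3' : (0 : ℝ) < q' := by exact_mod_cast hq'
  have hpos : 0 < |(b : ℝ) / q - (b' : ℝ) / q' - k| := by
    rw [h2]
    exact lt_of_lt_of_le (by positivity) h1
  obtain ⟨m, hm⟩ := hq1
  obtain ⟨m', hm'⟩ := hq1'
  have hWr : (0 : ℝ) < (W : ℝ) := by exact_mod_cast hW
  have hm1 : (W : ℝ) = q * m := by exact_mod_cast hm
  have hm1' : (W : ℝ) = q' * m' := by exact_mod_cast hm'
  have h5 : ((b : ℝ) / q - (b' : ℝ) / q' - k) * W = (((b : ℤ) * m - b' * m' - k * W : ℤ) : ℝ) := by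
    have e1 : (b : ℝ) / q * W = b * m := by rw [hm1]; field_simp
    have e2 : (b' : ℝ) / q' * W = b' * m' := by rw [hm1']; field_simp
    push_cast
    rw [sub_mul, sub_mul, e1, e2]
  have h6 : ((b : ℤ) * m - b' * m' - k * W : ℤ) ≠ 0 := by
    intro h0
    rw [h0] at h5
    have h7 : (b : ℝ) / q - (b' : ℝ) / q' - k = 0 := by
      rcases mul_eq_zero.1 (h5.trans (by norm_num)) with h | h
      · exact h
      · exact absurd h hWr.ne'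
    rw [h7] at hpos
    simp at hpos
  have h8 : (1 : ℝ) ≤ |(b : ℝ) / q - (b' : ℝ) / q' - k| * W := by
    rw [← abs_of_pos hWr, ← abs_mul, h5]
    have := Int.one_le_abs h6
    exact_mod_cast this
  rw [div_le_iff₀ hWr]
  exact h8

private theorem tla_exp {W : ℕ} (G : ℕ → ℝ) (h : ℕ) (S : Finset ℕ) (hS : ∀ q ∈ S, Squarefree q) :
    (((∑ n ∈ range W, G n * ∑ q ∈ S, gq q ((n + h : ℕ) : ℤ)) / (W : ℝ) : ℝ) : ℂ) =
      ∑ i ∈ S.sigma (fun q => Pool.Agent.Lib.G3.cl q),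
        (tla_g i.1 * ((∑ n ∈ range W, (G n : ℂ) * e (n * ((i.2 : ℝ) / i.1))) / (W : ℂ))) * e (h * ((i.2 : ℝ) / i.1)) := by
  rw [sum_sigma]
  have h1 : ∀ n, ((∑ q ∈ S, gq q ((n + h : ℕ) : ℤ) : ℝ) : ℂ) = ∑ q ∈ S, ∑ b ∈ Pool.Agent.Lib.G3.cl q,
      tla_g q * (e (n * ((b : ℝ) / q)) * e (h * ((b : ℝ) / q))) := by
    intro n
    rw [Complex.ofReal_sum]
    refine sum_congr rfl fun q hq => ?_
    rw [Pool.Agent.Lib.SW.gq_eq_exp q (hS q hq), mul_sum]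
    refine sum_congr rfl fun b _ => ?_
    rw [← e_add]
    unfold tla_g
    congr 2
    push_cast
    ring
  push_cast
  have h2 : ∑ n ∈ range W, (G n : ℂ) * ∑ q ∈ S, ((gq q ((n : ℤ) + (h : ℤ)) : ℝ) : ℂ) =
      ∑ q ∈ S, ∑ b ∈ Pool.Agent.Lib.G3.cl q, ∑ n ∈ range W,
        (G n : ℂ) * (tla_g q * (e (n * ((b : ℝ) / q)) * e (h * ((b : ℝ) / q)))) := by
    have h3 : ∀ n ∈ range W, (G n : ℂ) * ∑ q ∈ S, ((gq q ((n : ℤ) + (h : ℤ)) : ℝ) : ℂ) =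
        ∑ q ∈ S, ∑ b ∈ Pool.Agent.Lib.G3.cl q,
          (G n : ℂ) * (tla_g q * (e (n * ((b : ℝ) / q)) * e (h * ((b : ℝ) / q)))) := by
      intro n _
      have h4 := h1 n
      push_cast at h4
      rw [h4, mul_sum]
      refine sum_congr rfl fun q _ => ?_
      rw [mul_sum]
    rw [sum_congr rfl h3, sum_comm]
    refine sum_congr rfl fun q _ => ?_
    rw [sum_comm]
  rw [h2, sum_div]
  refine sum_congr rfl fun q _ => ?_
  rw [sum_div]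
  refine sum_congr rfl fun b _ => ?_
  rw [sum_div, sum_div, mul_sum, sum_mul]
  refine sum_congr rfl fun n _ => ?_
  ring

theorem lsB : ∃ C : ℝ, 0 < C ∧ ∀ (Q Q1 H b : ℕ) (G : ℕ → ℝ), 2 ≤ Q → Q ≤ Q1 →
    ∑ h ∈ Ioc b (b + H), (avg Q fun n => G n *
      ∑ q ∈ (primorial Q).divisors.filter (fun q => Q1 < q ∧ q ≤ 2 * Q1), gq q ((n + h : ℕ) : ℤ)) ^ 2 ≤
        C * (Real.log Q) ^ 2 * ((H : ℝ) / (Q1 : ℝ) ^ 2 + 1) * avg Q (fun n => G n ^ 2) := by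
  obtain ⟨C, hC, hmer⟩ := Pool.Agent.Lib.G3.si_mer
  refine ⟨288 * C ^ 2, by positivity, ?_⟩
  intro Q Q1 H b0 G hQ hQQ
  have hQ1 : 0 < Q1 := by omega
  have hQ1r : (0 : ℝ) < (Q1 : ℝ) := by exact_mod_cast hQ1
  set W := primorial Q with hWdef
  have hW : 0 < W := primorial_pos Q
  have hWr : (0 : ℝ) < (W : ℝ) := by exact_mod_cast hW
  set S := W.divisors.filter (fun q => Q1 < q ∧ q ≤ 2 * Q1) with hSdef
  have hSm : ∀ q ∈ S, q ∣ W ∧ Q1 < q ∧ q ≤ 2 * Q1 := by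
    intro q hq
    rw [hSdef, mem_filter, Nat.mem_divisors] at hq
    exact ⟨hq.1.1, hq.2.1, hq.2.2⟩
  have hsqW : Squarefree W := squarefree_primorial Q
  have hsq : ∀ q ∈ S, Squarefree q := fun q hq => hsqW.squarefree_of_dvd (hSm q hq).1
  set I := S.sigma (fun q => Pool.Agent.Lib.G3.cl q) with hI
  set x : ((_ : ℕ) × ℕ) → ℝ := fun i => (i.2 : ℝ) / i.1 with hx
  set T : ((_ : ℕ) × ℕ) → ℂ := fun i => ∑ n ∈ range W, (G n : ℂ) * e (n * x i) with hT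
  set β : ((_ : ℕ) × ℕ) → ℂ := fun i => (tla_g i.1 * (T i / (W : ℂ))) * e (b0 * x i) with hβ
  have hImem : ∀ i ∈ I, i.1 ∈ S ∧ i.2 ∈ Pool.Agent.Lib.G3.cl i.1 := by
    intro i hi
    rw [hI, mem_sigma] at hi
    exact hi
  have hne' : ∀ i ∈ I, ∀ j ∈ I, i ≠ j → (i.1, i.2) ≠ (j.1, j.2) := by
    intro i _ j _ hij h
    rw [Prod.mk.injEq] at h
    exact hij (Sigma.ext h.1 (heq_of_eq h.2))
  -- the sum over h
  have step1 : ∑ h ∈ Ioc b0 (b0 + H), (avg Q fun n => G n * ∑ q ∈ S, gq q ((n + h : ℕ) : ℤ)) ^ 2 =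
      ∑ h ∈ Icc 1 H, ‖∑ i ∈ I, β i * e (h * x i)‖ ^ 2 := by
    have h1 : Ioc b0 (b0 + H) = (Icc 1 H).image (fun h => b0 + h) := by
      ext y
      rw [mem_Ioc, mem_image]
      constructor
      · intro hy
        exact ⟨y - b0, by rw [mem_Icc]; omega, by omega⟩
      · rintro ⟨z, hz, rfl⟩
        rw [mem_Icc] at hz
        omega
    rw [h1, sum_image (by intro a _ b _ hab; simpa using hab)]
    refine sum_congr rfl fun h _ => ?_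
    have h2 : ((avg Q fun n => G n * ∑ q ∈ S, gq q ((n + (b0 + h) : ℕ) : ℤ) : ℝ) : ℂ) =
        ∑ i ∈ I, β i * e (h * x i) := by
      unfold avg
      rw [← hWdef, tla_exp G (b0 + h) S hsq]
      refine sum_congr rfl fun i _ => ?_
      rw [hβ, hT, hx]
      simp only
      rw [mul_assoc (tla_g i.1 * _), ← e_add]
      congr 2
      push_cast
      ring
    rw [← h2, Complex.norm_real, Real.norm_eq_abs, sq_abs]
  have step2 : ∑ h ∈ Icc 1 H, ‖∑ i ∈ I, β i * e (h * x i)‖ ^ 2 ≤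
      6 * (H + 1 / (1 / (4 * (Q1 : ℝ) ^ 2))) * ∑ i ∈ I, ‖β i‖ ^ 2 := by
    apply Pool.Agent.Lib.BV.quad_form I x _ (by positivity)
    intro i hi j hj hij k
    obtain ⟨hi1, hi2⟩ := hImem i hi
    obtain ⟨hj1, hj2⟩ := hImem j hj
    have a1 := hSm _ hi1
    have a2 := hSm _ hj1
    exact tla_sep (by omega) (by omega) a1.2.2 a2.2.2 hi2 hj2 (hne' i hi j hj hij) k
  have step3 : ∑ i ∈ I, ‖T i‖ ^ 2 ≤ 12 * W * ∑ n ∈ range W, G n ^ 2 := by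
    have h1 := Pool.Agent.Lib.BV.large_sieve_add I x (1 / (W : ℝ)) (by positivity) (by
      intro i hi j hj hij k
      obtain ⟨hi1, hi2⟩ := hImem i hi
      obtain ⟨hj1, hj2⟩ := hImem j hj
      have a1 := hSm _ hi1
      have a2 := hSm _ hj1
      exact tla_sepW hW (by omega) (by omega) a1.1 a2.1 hi2 hj2 (hne' i hi j hj hij) k) W
      (fun n => (G (n - 1) : ℂ))
    have h2 : ∀ (F : ℕ → ℂ), ∑ n ∈ Icc 1 W, F n = ∑ n ∈ range W, F (n + 1) := by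
      intro F
      rw [range_eq_Ico, sum_Ico_add' F 0 W 1]
      rfl
    have h2' : ∀ (F : ℕ → ℝ), ∑ n ∈ Icc 1 W, F n = ∑ n ∈ range W, F (n + 1) := by
      intro F
      rw [range_eq_Ico, sum_Ico_add' F 0 W 1]
      rfl
    have h3 : ∀ i ∈ I, ‖∑ n ∈ Icc 1 W, (G (n - 1) : ℂ) * e (n * x i)‖ ^ 2 = ‖T i‖ ^ 2 := by
      intro i _
      rw [h2]
      have h4 : ∑ n ∈ range W, (G (n + 1 - 1) : ℂ) * e ((n + 1 : ℕ) * x i) = e (x i) * T i := by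
        rw [hT]
        simp only
        rw [mul_sum]
        refine sum_congr rfl fun n _ => ?_
        rw [Nat.add_sub_cancel, show ((n + 1 : ℕ) : ℝ) * x i = x i + n * x i by push_cast; ring, e_add]
        ring
      rw [h4, norm_mul, norm_e, one_mul]
    rw [sum_congr rfl h3] at h1
    refine h1.trans (le_of_eq ?_)
    rw [h2', one_div_one_div]
    have h5 : ∀ n ∈ range W, ‖(G (n + 1 - 1) : ℂ)‖ ^ 2 = G n ^ 2 := by
      intro n _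
      rw [Nat.add_sub_cancel, Complex.norm_real, Real.norm_eq_abs, sq_abs]
    rw [sum_congr rfl h5]
    ring
  have step4 : ∑ i ∈ I, ‖β i‖ ^ 2 ≤ (C * Real.log Q / Q1) ^ 2 / (W : ℝ) ^ 2 * ∑ i ∈ I, ‖T i‖ ^ 2 := by
    rw [mul_sum]
    refine sum_le_sum fun i hi => ?_
    obtain ⟨hi1, hi2⟩ := hImem i hi
    have a1 := hSm _ hi1
    have h1 : ‖tla_g i.1‖ ≤ C * Real.log Q / Q1 :=
      tla_gnorm a1.1 (by omega) hQ1 a1.2.1 (hmer Q hQ)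
    have h2 : ‖β i‖ = ‖tla_g i.1‖ * (‖T i‖ / W) := by
      rw [hβ]
      simp only
      rw [norm_mul, norm_mul, norm_e, mul_one, norm_div, Complex.norm_natCast]
    rw [h2, mul_pow, div_pow]
    have h3 : ‖tla_g i.1‖ ^ 2 ≤ (C * Real.log Q / Q1) ^ 2 := pow_le_pow_left₀ (norm_nonneg _) h1 2
    calc ‖tla_g i.1‖ ^ 2 * (‖T i‖ ^ 2 / (W : ℝ) ^ 2) ≤ (C * Real.log Q / Q1) ^ 2 * (‖T i‖ ^ 2 / (W : ℝ) ^ 2) :=
          mul_le_mul_of_nonneg_right h3 (by positivity)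
      _ = (C * Real.log Q / Q1) ^ 2 / (W : ℝ) ^ 2 * ‖T i‖ ^ 2 := by ring
  have hG0 : 0 ≤ ∑ n ∈ range W, G n ^ 2 := sum_nonneg fun _ _ => sq_nonneg _
  rw [step1]
  refine step2.trans ?_
  have hA : 0 ≤ 6 * ((H : ℝ) + 1 / (1 / (4 * (Q1 : ℝ) ^ 2))) := by positivity
  refine (mul_le_mul_of_nonneg_left (step4.trans (mul_le_mul_of_nonneg_left step3 (by positivity))) hA).trans ?_
  have hav : avg Q (fun n => G n ^ 2) = (∑ n ∈ range W, G n ^ 2) / W := rfl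
  rw [hav, one_div_one_div]
  have e1 : 6 * ((H : ℝ) + 4 * (Q1 : ℝ) ^ 2) * ((C * Real.log Q / Q1) ^ 2 / (W : ℝ) ^ 2 *
      (12 * W * ∑ n ∈ range W, G n ^ 2)) =
      (72 * C ^ 2 * (Real.log Q) ^ 2 * ((∑ n ∈ range W, G n ^ 2) / W)) * ((H : ℝ) / (Q1 : ℝ) ^ 2 + 4) := by
    field_simp
    ring
  rw [e1]
  have h9 : 0 ≤ 72 * C ^ 2 * (Real.log Q) ^ 2 * ((∑ n ∈ range W, G n ^ 2) / W) := by positivity
  have h10 : (H : ℝ) / (Q1 : ℝ) ^ 2 + 4 ≤ 4 * ((H : ℝ) / (Q1 : ℝ) ^ 2 + 1) := by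
    have : 0 ≤ (H : ℝ) / (Q1 : ℝ) ^ 2 := by positivity
    linarith
  refine (mul_le_mul_of_nonneg_left h10 h9).trans (le_of_eq ?_)
  ring

end Pool.Agent.Lib.VKT
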