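import Pool.Agent.Lib.VK.TLa

/-!
# VK / TLs (P4): the terms `q > Q` of the complete series

PROOF. `W = primorial Q`. `lamW Q n - ram Q n = ∑_{q | W, q > Q} gq q n` (`lam_gq`; the squarefree `q ≤ Q` are exactly the divisors
`≤ Q` of `W`). Blocks `Q1 = 2^k Q`, `k < 3Q` (`W ≤ 4^Q`, `primorial_le_four_pow`, so `2^(3Q) Q > W`): every divisor `q > Q` of `W` is in
exactly one block. Cauchy over the `3Q` blocks and `lsB`:
`∑_h |∑_k A_k(h)|² ≤ 3Q ∑_k C (log Q)² (H/(4^k Q²) + 1) avg(G²) ≤ 3Q C (log Q)² (2H/Q² + 3Q) avg(G²) ≤ C' (log Q)² (H/Q) avg(G²)`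
since `Q³ ≤ H`.
-/

set_option autoImplicit false

open Finset

namespace Pool.Agent.Lib.VKT

open Pool.Agent.Lib.SW (gq LQ)

/-- the truncated series, by divisors of the primorial -/
private theorem tls_ram (Q n : ℕ) :
    ram Q n = ∑ q ∈ (primorial Q).divisors.filter (fun q => q ≤ Q), gq q (n : ℤ) := by
  have h : (Icc 1 Q).filter Squarefree = (primorial Q).divisors.filter (fun q => q ≤ Q) := by
    ext q
    simp only [Finset.mem_filter, Finset.mem_Icc, Nat.mem_divisors]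
    constructor
    · rintro ⟨⟨h1, h2⟩, h3⟩
      refine ⟨⟨?_, (primorial_pos Q).ne'⟩, h2⟩
      rw [← Nat.prod_primeFactors_of_squarefree h3]
      refine Finset.prod_primes_dvd _ (fun p hp => (Nat.prime_of_mem_primeFactors hp).prime) ?_
      intro p hp
      have hp1 := Nat.prime_of_mem_primeFactors hp
      have hp2 := Nat.le_of_mem_primeFactors hp
      exact hp1.dvd_primorial_iff.2 (hp2.trans h2)
    · rintro ⟨⟨h1, _⟩, h2⟩
      exact ⟨⟨Nat.pos_of_dvd_of_pos h1 (primorial_pos Q), h2⟩,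
        (squarefree_primorial Q).squarefree_of_dvd h1⟩
  unfold ram LQ
  rw [h]

/-- dyadic decomposition -/
private theorem tls_dyad (S : Finset ℕ) (Q : ℕ) (f : ℕ → ℝ) (K : ℕ) :
    ∑ q ∈ S.filter (fun q => Q < q), f q =
      ∑ k ∈ range K, ∑ q ∈ S.filter (fun q => 2 ^ k * Q < q ∧ q ≤ 2 * (2 ^ k * Q)), f q +
        ∑ q ∈ S.filter (fun q => 2 ^ K * Q < q), f q := by
  induction K with
  | zero => simp
  | succ K ih =>
    rw [ih, Finset.sum_range_succ, add_assoc]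
    congr 1
    have h : S.filter (fun q => 2 ^ K * Q < q) =
        S.filter (fun q => 2 ^ K * Q < q ∧ q ≤ 2 * (2 ^ K * Q)) ∪
          S.filter (fun q => 2 ^ (K + 1) * Q < q) := by
      ext q
      simp only [Finset.mem_filter, Finset.mem_union]
      have e : 2 ^ (K + 1) * Q = 2 * (2 ^ K * Q) := by ring
      rw [e]
      constructor
      · rintro ⟨h1, h2⟩
        by_cases h3 : q ≤ 2 * (2 ^ K * Q)
        · exact Or.inl ⟨h1, h2, h3⟩
        · exact Or.inr ⟨h1, by omega⟩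
      · rintro (⟨h1, h2, _⟩ | ⟨h1, h2⟩)
        · exact ⟨h1, h2⟩
        · exact ⟨h1, by omega⟩
    rw [h, Finset.sum_union]
    rw [Finset.disjoint_left]
    intro q h1 h2
    simp only [Finset.mem_filter] at h1 h2
    have e : 2 ^ (K + 1) * Q = 2 * (2 ^ K * Q) := by ring
    omega

private theorem tls_diff (Q n : ℕ) (hQ : 2 ≤ Q) :
    lamW Q n - ram Q n = ∑ k ∈ range (3 * Q), ∑ q ∈ (primorial Q).divisors.filter
      (fun q => 2 ^ k * Q < q ∧ q ≤ 2 * (2 ^ k * Q)), gq q (n : ℤ) := by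
  rw [lam_gq, tls_ram]
  have h1 := Finset.sum_filter_add_sum_filter_not (primorial Q).divisors (fun q => q ≤ Q)
    (fun q => gq q (n : ℤ))
  have h2 : (primorial Q).divisors.filter (fun q => ¬ q ≤ Q) =
      (primorial Q).divisors.filter (fun q => Q < q) := by
    refine Finset.filter_congr fun q _ => ?_
    exact not_le
  rw [h2, tls_dyad _ Q (fun q => gq q (n : ℤ)) (3 * Q)] at h1
  have h3 : (primorial Q).divisors.filter (fun q => 2 ^ (3 * Q) * Q < q) = ∅ := by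
    rw [Finset.filter_eq_empty_iff]
    intro q hq h4
    have h5 := Nat.divisor_le hq
    have h6 := primorial_le_four_pow Q
    have h7 : 4 ^ Q ≤ 2 ^ (3 * Q) * Q := by
      have : (4 : ℕ) ^ Q = 2 ^ (2 * Q) := by rw [pow_mul]; norm_num
      rw [this]
      calc 2 ^ (2 * Q) ≤ 2 ^ (3 * Q) := Nat.pow_le_pow_right (by norm_num) (by omega)
        _ = 2 ^ (3 * Q) * 1 := (mul_one _).symm
        _ ≤ 2 ^ (3 * Q) * Q := Nat.mul_le_mul_left _ (by omega)
    omega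
  rw [h3, Finset.sum_empty, add_zero] at h1
  rw [← h1]
  ring

private theorem tls_geom (Q K : ℕ) (H : ℝ) (hH : 0 ≤ H) (hQ : 2 ≤ Q) :
    ∑ k ∈ range K, (H / ((2 ^ k * Q : ℕ) : ℝ) ^ 2 + 1) ≤ 2 * H / (Q : ℝ) ^ 2 + K := by
  have hQ0 : (0 : ℝ) < Q := by
    have : 0 < Q := by omega
    exact_mod_cast this
  rw [Finset.sum_add_distrib, Finset.sum_const, Finset.card_range, nsmul_eq_mul, mul_one]
  refine add_le_add ?_ le_rfl
  have h1 : ∀ k ∈ range K, H / ((2 ^ k * Q : ℕ) : ℝ) ^ 2 = H / (Q : ℝ) ^ 2 * (1 / 4 : ℝ) ^ k := by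
    intro k _
    have e : (4 : ℝ) ^ k = (2 ^ k) ^ 2 := by
      rw [← pow_mul, mul_comm, pow_mul]
      norm_num
    push_cast
    rw [one_div, inv_pow, e]
    field_simp
  rw [Finset.sum_congr rfl h1, ← Finset.mul_sum]
  have h2 : ∑ k ∈ range K, (1 / 4 : ℝ) ^ k ≤ 2 := by
    rw [geom_sum_eq (by norm_num)]
    have : (0 : ℝ) ≤ (1 / 4 : ℝ) ^ K := by positivity
    rw [div_le_iff_of_neg (by norm_num)]
    linarith
  calc H / (Q : ℝ) ^ 2 * ∑ k ∈ range K, (1 / 4 : ℝ) ^ k ≤ H / (Q : ℝ) ^ 2 * 2 :=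
        mul_le_mul_of_nonneg_left h2 (by positivity)
    _ = 2 * H / (Q : ℝ) ^ 2 := by ring

theorem lsW : ∃ C : ℝ, 0 < C ∧ ∀ (Q H b : ℕ) (G : ℕ → ℝ), 2 ≤ Q → Q ^ 3 ≤ H →
    ∑ h ∈ Ioc b (b + H), (avg Q fun n => G n * (lamW Q (n + h) - ram Q (n + h))) ^ 2 ≤
      C * (Real.log Q) ^ 2 * (H / Q) * avg Q (fun n => G n ^ 2) := by
  obtain ⟨C, hC, hB⟩ := lsB
  refine ⟨45 * C, by positivity, ?_⟩
  intro Q H b G hQ hH
  have hQ0 : (0 : ℝ) < Q := by
    have : 0 < Q := by omega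
    exact_mod_cast this
  have hW : (0 : ℝ) < primorial Q := by exact_mod_cast primorial_pos Q
  have hav : 0 ≤ avg Q (fun n => G n ^ 2) := by
    unfold avg
    exact div_nonneg (Finset.sum_nonneg fun _ _ => sq_nonneg _) hW.le
  have h1 : ∀ h, (avg Q fun n => G n * (lamW Q (n + h) - ram Q (n + h))) =
      ∑ k ∈ range (3 * Q), avg Q fun n => G n * ∑ q ∈ (primorial Q).divisors.filter
        (fun q => 2 ^ k * Q < q ∧ q ≤ 2 * (2 ^ k * Q)), gq q ((n + h : ℕ) : ℤ) := by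
    intro h
    unfold avg
    rw [← Finset.sum_div, Finset.sum_comm]
    congr 1
    refine Finset.sum_congr rfl fun n _ => ?_
    show G n * (lamW Q (n + h) - ram Q (n + h)) = _
    rw [tls_diff Q (n + h) hQ, Finset.mul_sum]
  have h2 : ∀ h, (avg Q fun n => G n * (lamW Q (n + h) - ram Q (n + h))) ^ 2 ≤
      3 * Q * ∑ k ∈ range (3 * Q), (avg Q fun n => G n * ∑ q ∈ (primorial Q).divisors.filter
        (fun q => 2 ^ k * Q < q ∧ q ≤ 2 * (2 ^ k * Q)), gq q ((n + h : ℕ) : ℤ)) ^ 2 := by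
    intro h
    rw [h1 h]
    have := sq_sum_le_card_mul_sum_sq (s := range (3 * Q)) (f := fun k => avg Q fun n =>
      G n * ∑ q ∈ (primorial Q).divisors.filter
        (fun q => 2 ^ k * Q < q ∧ q ≤ 2 * (2 ^ k * Q)), gq q ((n + h : ℕ) : ℤ))
    rw [Finset.card_range] at this
    push_cast at this ⊢
    exact this
  refine (Finset.sum_le_sum fun h _ => h2 h).trans ?_
  rw [← Finset.mul_sum, Finset.sum_comm]
  have h3 : ∑ k ∈ range (3 * Q), ∑ h ∈ Ioc b (b + H), (avg Q fun n => G n *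
      ∑ q ∈ (primorial Q).divisors.filter
        (fun q => 2 ^ k * Q < q ∧ q ≤ 2 * (2 ^ k * Q)), gq q ((n + h : ℕ) : ℤ)) ^ 2 ≤
      ∑ k ∈ range (3 * Q), C * (Real.log Q) ^ 2 * avg Q (fun n => G n ^ 2) *
        ((H : ℝ) / ((2 ^ k * Q : ℕ) : ℝ) ^ 2 + 1) := by
    refine Finset.sum_le_sum fun k _ => ?_
    refine (hB Q (2 ^ k * Q) H b G hQ ?_).trans (le_of_eq (by ring))
    exact Nat.le_mul_of_pos_left _ (by positivity)
  rw [← Finset.mul_sum] at h3
  have h4 := tls_geom Q (3 * Q) H (Nat.cast_nonneg H) hQ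
  have h5 : (Q : ℝ) ^ 3 ≤ H := by exact_mod_cast hH
  have h6 : (Q : ℝ) ^ 2 ≤ H / Q := by
    rw [le_div_iff₀ hQ0]
    have e : (Q : ℝ) ^ 2 * (Q : ℝ) = (Q : ℝ) ^ 3 := by ring
    rw [e]
    exact h5
  have hK : 0 ≤ C * (Real.log Q) ^ 2 * avg Q (fun n => G n ^ 2) := by positivity
  calc 3 * (Q : ℝ) * ∑ k ∈ range (3 * Q), ∑ h ∈ Ioc b (b + H), (avg Q fun n => G n *
      ∑ q ∈ (primorial Q).divisors.filter
        (fun q => 2 ^ k * Q < q ∧ q ≤ 2 * (2 ^ k * Q)), gq q ((n + h : ℕ) : ℤ)) ^ 2 ≤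
      3 * (Q : ℝ) * (C * (Real.log Q) ^ 2 * avg Q (fun n => G n ^ 2) *
        (2 * H / (Q : ℝ) ^ 2 + ((3 * Q : ℕ) : ℝ))) := by
        refine mul_le_mul_of_nonneg_left (h3.trans ?_) (by positivity)
        exact mul_le_mul_of_nonneg_left h4 hK
    _ = C * (Real.log Q) ^ 2 * avg Q (fun n => G n ^ 2) * (6 * (H / Q) + 9 * (Q : ℝ) ^ 2) := by
        push_cast
        field_simp
        ring
    _ ≤ C * (Real.log Q) ^ 2 * avg Q (fun n => G n ^ 2) * (45 * (H / Q)) := by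
        refine mul_le_mul_of_nonneg_left ?_ hK
        have : 0 ≤ (H : ℝ) / Q := by positivity
        linarith
    _ = _ := by ring

end Pool.Agent.Lib.VKT
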