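import Pool.Agent.Lib.VK.TCrt
import Pool.Agent.Lib.G3.Sing

/-!
# VK / TMom (P4): majorants and moments of the truncated series

PROOF. `lam_gq`: `lamW Q n = ∑_{q | primorial Q} gq q n` (`SW.sum_gq_divisors`, the primorial is squarefree). `ram_le`:
`|ram Q n| ≤ ∑_{q ≤ Q squarefree} |gq q n| ≤ ∑_{q | primorial Q} |gq q n| = ∏_{p ≤ Q} (1 + |gq p n|)` (a squarefree `q ≤ Q` divides the
primorial; `gq q n = ∏_{p | q} gq p n`; expansion of the product over subsets, `Finset.prod_one_add` and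
`Nat.Squarefree` divisors as subsets of prime factors, or `ArithmeticFunction.IsMultiplicative.prodPrimeFactors_one_add_of_squarefree`
as in RamModel). `lam_le`: `lamW Q n` is `0` or `∏_{p ≤ Q} p/(p-1)` and every factor `1 + |gq p n|` is `2` or `p/(p-1)`, both
`≥ p/(p-1)`. `mom`: `Uq^k = ∏_p (1 + |gq p n|)^k`, by `crt_prod` the average is `∏_{p ≤ Q} (1/p)(2^k + (p-1)(p/(p-1))^k) ≤
∏_{p ≤ Q} (1 + c_k/(p-1))` with `c_k = 4^k` (`(p/(p-1))^k ≤ 1 + k 2^k/(p-1)`), and `∏ (1 + c/(p-1)) ≤ ∏ (1 + 1/(p-1))^c ≤ (C log Q)^c`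
(Bernoulli, `G3.si_mer`; `G3.siP Q` is the set of primes `≤ Q`).
-/

set_option autoImplicit false

open Finset

namespace Pool.Agent.Lib.VKT

open Pool.Agent.Lib.SW (gq LQ)

open Pool.Agent.Lib.G3 (siP si_mem si_sub si_sqf si_mer)

private theorem tmom_prod (Q : ℕ) : ∏ p ∈ siP Q, p = primorial Q := by
  unfold primorial
  refine Finset.prod_congr ?_ fun _ _ => rfl
  ext p
  rw [si_mem, mem_filter, mem_range, Nat.lt_succ_iff]

private theorem tmom_sqf (Q : ℕ) : Squarefree (primorial Q) := by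
  rw [← tmom_prod]
  exact si_sqf fun p hp => (si_mem.1 hp).2

private theorem tmom_pf (Q : ℕ) : (primorial Q).primeFactors = siP Q := by
  rw [← tmom_prod]
  exact Nat.primeFactors_prod fun p hp => (si_mem.1 hp).2

private theorem tmom_U (Q n : ℕ) : Uq Q n = ∏ p ∈ siP Q, (1 + |gq p n|) := rfl

private theorem tmom_gp {p : ℕ} (hp : p.Prime) (n : ℤ) :
    gq p n = if (p : ℤ) ∣ n then (-1 : ℝ) else 1 / ((p : ℝ) - 1) := by
  unfold gq
  rw [hp.primeFactors, Finset.prod_singleton]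

private theorem tmom_abs (q : ℕ) (n : ℤ) : |gq q n| = ∏ p ∈ q.primeFactors, |gq p n| := by
  have h : gq q n = ∏ p ∈ q.primeFactors, gq p n :=
    Finset.prod_congr rfl fun p hp => (tmom_gp (Nat.prime_of_mem_primeFactors hp) n).symm
  rw [h, Finset.abs_prod]

/-- sets of squarefree moduli with small prime factors -/
private theorem tmom_le (Q n : ℕ) (A : Finset ℕ) (hA : ∀ q ∈ A, Squarefree q ∧ q.primeFactors ⊆ siP Q) :
    ∑ q ∈ A, |gq q n| ≤ Uq Q n := by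
  classical
  rw [tmom_U, Finset.prod_one_add]
  have h1 : ∑ q ∈ A, |gq q n| = ∑ s ∈ A.image Nat.primeFactors, ∏ p ∈ s, |gq p n| := by
    rw [Finset.sum_image]
    · exact Finset.sum_congr rfl fun q _ => tmom_abs q n
    · intro q hq q' hq' h
      rw [← Nat.prod_primeFactors_of_squarefree (hA q hq).1, ← Nat.prod_primeFactors_of_squarefree (hA q' hq').1]
      exact Finset.prod_congr h fun _ _ => rfl
  rw [h1]
  refine Finset.sum_le_sum_of_subset_of_nonneg ?_ fun s _ _ => Finset.prod_nonneg fun p _ => abs_nonneg _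
  intro s hs
  obtain ⟨q, hq, rfl⟩ := mem_image.1 hs
  exact mem_powerset.2 (hA q hq).2

theorem lam_gq (Q n : ℕ) : lamW Q n = ∑ q ∈ (primorial Q).divisors, gq q n := by
  rw [Pool.Agent.Lib.SW.sum_gq_divisors (primorial Q) (tmom_sqf Q)]
  unfold lamW
  by_cases h : Nat.Coprime n (primorial Q)
  · rw [if_pos h, if_pos (Nat.isCoprime_iff_coprime.2 h)]
  · rw [if_neg h, if_neg fun h' => h (Nat.isCoprime_iff_coprime.1 h')]

theorem ram_abs (Q n : ℕ) : ∑ q ∈ (Icc 1 Q).filter Squarefree, |gq q n| ≤ Uq Q n := by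
  refine tmom_le Q n _ fun q hq => ?_
  rw [mem_filter, mem_Icc] at hq
  refine ⟨hq.2, fun p hp => si_mem.2 ⟨(Nat.le_of_mem_primeFactors hp).trans hq.1.2, Nat.prime_of_mem_primeFactors hp⟩⟩

theorem ram_le (Q n : ℕ) : |ram Q n| ≤ Uq Q n := by
  unfold ram LQ
  exact (Finset.abs_sum_le_sum_abs _ _).trans (ram_abs Q n)

theorem lam_le (Q n : ℕ) : 0 ≤ lamW Q n ∧ lamW Q n ≤ Uq Q n := by
  constructor
  · unfold lamW
    split_ifs
    · positivity
    · exact le_rfl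
  · rw [lam_gq]
    refine (Finset.sum_le_sum fun q _ => le_abs_self _).trans ?_
    refine tmom_le Q n _ fun q hq => ?_
    have hd := Nat.dvd_of_mem_divisors hq
    refine ⟨(tmom_sqf Q).squarefree_of_dvd hd, ?_⟩
    rw [← tmom_pf]
    exact Nat.primeFactors_mono hd (tmom_sqf Q).ne_zero

private theorem tmom_phi (Q : ℕ) :
    (primorial Q : ℝ) / ((primorial Q).totient : ℝ) = ∏ p ∈ siP Q, (1 + 1 / ((p : ℝ) - 1)) := by
  rw [Pool.Agent.Lib.SW.rm_totient _ (tmom_sqf Q), tmom_pf, ← tmom_prod, Nat.cast_prod, ← Finset.prod_div_distrib]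
  refine Finset.prod_congr rfl fun p hp => ?_
  have h1 := si_sub (si_mem.1 hp).2
  have h2 : (p : ℝ) - 1 ≠ 0 := by linarith
  field_simp
  ring

theorem lam_log : ∃ C : ℝ, 0 < C ∧ ∀ Q n : ℕ, 2 ≤ Q → lamW Q n ≤ C * Real.log Q := by
  obtain ⟨C, hC, h⟩ := si_mer
  refine ⟨C, hC, fun Q n hQ => ?_⟩
  unfold lamW
  split_ifs
  · rw [tmom_phi]
    exact h Q hQ
  · have : 0 ≤ Real.log Q := Real.log_nonneg (by exact_mod_cast (by omega : 1 ≤ Q))
    positivity

private theorem tmom_pow {u : ℝ} (h0 : 0 ≤ u) (h1 : u ≤ 1) (k : ℕ) : (1 + u) ^ k ≤ 1 + (2 ^ k - 1) * u := by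
  induction k with
  | zero => norm_num
  | succ k ih =>
    have h2 : (1 : ℝ) ≤ 2 ^ k := one_le_pow₀ (by norm_num)
    have h3 : (2 ^ k - 1) * u * u ≤ (2 ^ k - 1) * u * 1 :=
      mul_le_mul_of_nonneg_left h1 (mul_nonneg (by linarith) h0)
    calc (1 + u) ^ (k + 1) = (1 + u) ^ k * (1 + u) := pow_succ _ _
      _ ≤ (1 + (2 ^ k - 1) * u) * (1 + u) := mul_le_mul_of_nonneg_right ih (by linarith)
      _ = 1 + u + (2 ^ k - 1) * u + (2 ^ k - 1) * u * u := by ring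
      _ ≤ 1 + u + (2 ^ k - 1) * u + (2 ^ k - 1) * u * 1 := by linarith
      _ = 1 + (2 ^ (k + 1) - 1) * u := by
        rw [pow_succ]
        ring

private theorem tmom_loc {p : ℕ} (hp : p.Prime) (k : ℕ) :
    (∑ n ∈ range p, (1 + |gq p (n : ℤ)|) ^ k) / (p : ℝ) ≤ (1 + 1 / ((p : ℝ) - 1)) ^ (2 ^ (k + 1)) := by
  have h1 := si_sub hp
  have hp0 : (0 : ℝ) < p := by linarith
  set u : ℝ := 1 / ((p : ℝ) - 1) with hu
  have hu0 : 0 < u := by positivity
  have hu1 : u ≤ 1 := by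
    rw [hu, div_le_one (by linarith)]
    exact h1
  have hup : ((p : ℝ) - 1) * u = 1 := by
    rw [hu]
    field_simp
  have hs : ∑ n ∈ range p, (1 + |gq p (n : ℤ)|) ^ k = 2 ^ k + ((p : ℝ) - 1) * (1 + u) ^ k := by
    obtain ⟨m, rfl⟩ : ∃ m, p = m + 1 := ⟨p - 1, by have := hp.pos; omega⟩
    rw [Finset.sum_range_succ', add_comm]
    congr 1
    · rw [tmom_gp hp, if_pos (by simp)]
      norm_num
    · rw [Finset.sum_congr rfl (g := fun _ => (1 + u) ^ k), Finset.sum_const, card_range, nsmul_eq_mul]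
      · push_cast
        ring
      · intro n hn
        rw [tmom_gp hp, if_neg, ← hu, abs_of_pos hu0]
        intro hd
        have h2 : (m + 1) ∣ (n + 1) := by exact_mod_cast hd
        have h3 := Nat.le_of_dvd (by omega) h2
        have h4 := mem_range.1 hn
        omega
  have hb := one_add_mul_le_pow (a := u) (by linarith) (2 ^ (k + 1))
  refine le_trans ?_ hb
  rw [div_le_iff₀ hp0, hs]
  have h5 := mul_le_mul_of_nonneg_left (tmom_pow hu0.le hu1 k) (by linarith : (0 : ℝ) ≤ (p : ℝ) - 1)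
  have h6 : ((p : ℝ) - 1) * (1 + (2 ^ k - 1) * u) = (p - 1) + (2 ^ k - 1) := by
    calc ((p : ℝ) - 1) * (1 + (2 ^ k - 1) * u) = (p - 1) + (2 ^ k - 1) * (((p : ℝ) - 1) * u) := by ring
      _ = _ := by rw [hup, mul_one]
  have h7 : (1 : ℝ) ≤ 2 ^ k := one_le_pow₀ (by norm_num)
  have h8 : (2 : ℝ) ^ (k + 1) ≤ ((2 ^ (k + 1) : ℕ) : ℝ) * u * p := by
    have h9 : 1 ≤ u * p := by
      have : u * p = ((p : ℝ) - 1) * u + u := by ring
      rw [this, hup]
      linarith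
    push_cast
    rw [mul_assoc]
    exact le_mul_of_one_le_right (by positivity) h9
  have h10 : (1 + ((2 ^ (k + 1) : ℕ) : ℝ) * u) * p = p + ((2 ^ (k + 1) : ℕ) : ℝ) * u * p := by ring
  rw [h10]
  have h11 : (2 : ℝ) ^ (k + 1) = 2 ^ k + 2 ^ k := by
    rw [pow_succ]
    ring
  linarith

theorem mom (k : ℕ) : ∃ (C : ℝ) (D : ℕ), 0 < C ∧ ∀ Q : ℕ, 2 ≤ Q → avg Q (fun n => Uq Q n ^ k) ≤ C * (Real.log Q) ^ D := by
  obtain ⟨C, hC, h⟩ := si_mer
  refine ⟨C ^ 2 ^ (k + 1), 2 ^ (k + 1), by positivity, fun Q hQ => ?_⟩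
  have hpr : ∀ p ∈ siP Q, p.Prime := fun p hp => (si_mem.1 hp).2
  have h1 : avg Q (fun n => Uq Q n ^ k) = ∏ p ∈ siP Q, ((∑ n ∈ range p, (1 + |gq p (n : ℤ)|) ^ k) / (p : ℝ)) := by
    have h2 := crt_prod (siP Q) hpr (fun p n => (1 + |gq p (n : ℤ)|) ^ k) (by
      intro p _ n
      have h3 := Pool.Agent.Lib.SW.gq_periodic p (n : ℤ) 1
      rw [mul_one] at h3
      push_cast
      rw [h3])
    rw [tmom_prod] at h2
    unfold avg
    rw [Finset.prod_div_distrib, ← h2, ← Nat.cast_prod, tmom_prod]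
    congr 1
    refine Finset.sum_congr rfl fun n _ => ?_
    beta_reduce
    rw [tmom_U, Finset.prod_pow]
  rw [h1, ← mul_pow]
  calc ∏ p ∈ siP Q, ((∑ n ∈ range p, (1 + |gq p (n : ℤ)|) ^ k) / (p : ℝ))
      ≤ ∏ p ∈ siP Q, (1 + 1 / ((p : ℝ) - 1)) ^ (2 ^ (k + 1)) := by
        refine Finset.prod_le_prod (fun p _ => ?_) fun p hp => tmom_loc (hpr p hp) k
        positivity
    _ = (∏ p ∈ siP Q, (1 + 1 / ((p : ℝ) - 1))) ^ (2 ^ (k + 1)) := by rw [Finset.prod_pow]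
    _ ≤ (C * Real.log Q) ^ (2 ^ (k + 1)) := by
        refine pow_le_pow_left₀ (Finset.prod_nonneg fun p hp => ?_) (h Q hQ) _
        have := si_sub (hpr p hp)
        positivity

end Pool.Agent.Lib.VKT
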