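import Pool.Agent.Lib.VK.TDef

/-!
# VK / TPar (P4): partial Fourier sums of an interval on the circle of `log n`

PROOF. As `G3.parsM` (ParsM.lean), with the windows replaced by the one function `g θ = exp θ` on `log a < θ ≤ log 2a`, `0` elsewhere.
Its Fourier coefficients on the circle of length `2π` are `(1/2π) Ia a k`: `∫ e^θ e^(-ikθ) dθ` over `(log a, log 2a]` is `Ia a k` by
the substitution `u = e^θ` (or compute both: `((2a)^(1-ik) - a^(1-ik))/(1-ik)`, in any case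
`|Ia a k| ≤ 3a/|k|` for `k ≠ 0`, from `∫ e^((1-ik)θ) dθ = [e^((1-ik)θ)/(1-ik)]`). The coefficients of `g - S_T g` are those of `g`
for `|k| > T` and `0` for `|k| ≤ T`; `hasSum_sq_fourierCoeffOn` and `∑_{|k| > T} 1/k² ≤ 2/T` (finite sets, `hasSum_le_of_sum_le`)
give `∫ |g - S_T g|² ≤ 2π (1/2π)² 9 a² 2/T ≤ 3 a²/T`.
-/

set_option autoImplicit false

open Finset

namespace Pool.Agent.Lib.VKT

private theorem tpar_c_ne (k : ℤ) : (1 - (k : ℂ) * Complex.I) ≠ 0 := by
  intro h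
  have h1 := congrArg Complex.re h
  simp at h1

private theorem tpar_Ia {a : ℝ} (ha : 0 < a) (k : ℤ) : Ia a k =
    (Complex.exp ((1 - (k : ℂ) * Complex.I) * (Real.log (2 * a) : ℂ)) -
      Complex.exp ((1 - (k : ℂ) * Complex.I) * (Real.log a : ℂ))) / (1 - (k : ℂ) * Complex.I) := by
  have hc := tpar_c_ne k
  have hderiv : ∀ u ∈ Set.uIcc a (2 * a), HasDerivAt
      (fun u : ℝ => Complex.exp ((1 - (k : ℂ) * Complex.I) * (Real.log u : ℂ)) / (1 - (k : ℂ) * Complex.I))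
      (Complex.exp (((-(k : ℝ) * Real.log u : ℝ) : ℂ) * Complex.I)) u := by
    intro u hu
    rw [Set.uIcc_of_le (by linarith)] at hu
    have hu0 : 0 < u := lt_of_lt_of_le ha hu.1
    have h1 : HasDerivAt (fun u : ℝ => (Real.log u : ℂ)) ((u⁻¹ : ℝ) : ℂ) u :=
      (Real.hasDerivAt_log hu0.ne').ofReal_comp
    have h2 := ((h1.const_mul (1 - (k : ℂ) * Complex.I)).cexp).div_const (1 - (k : ℂ) * Complex.I)
    refine h2.congr_deriv ?_
    have h3 : Complex.exp ((1 - (k : ℂ) * Complex.I) * (Real.log u : ℂ)) =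
        (u : ℂ) * Complex.exp (((-(k : ℝ) * Real.log u : ℝ) : ℂ) * Complex.I) := by
      have h4 : (u : ℂ) = Complex.exp (Real.log u : ℂ) := by
        rw [← Complex.ofReal_exp, Real.exp_log hu0]
      conv_rhs => rw [h4]
      rw [← Complex.exp_add]
      congr 1
      push_cast
      ring
    rw [h3]
    have hu1 : (u : ℂ) ≠ 0 := by exact_mod_cast hu0.ne'
    push_cast
    field_simp
  have hint : IntervalIntegrable (fun u : ℝ => Complex.exp (((-(k : ℝ) * Real.log u : ℝ) : ℂ) * Complex.I))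
      MeasureTheory.volume a (2 * a) := by
    refine ContinuousOn.intervalIntegrable ?_
    intro u hu
    rw [Set.uIcc_of_le (by linarith)] at hu
    have hu0 : 0 < u := lt_of_lt_of_le ha hu.1
    refine ContinuousAt.continuousWithinAt ?_
    have h1 : ContinuousAt (fun u : ℝ => -(k : ℝ) * Real.log u) u :=
      continuousAt_const.mul (Real.continuousAt_log hu0.ne')
    exact (Complex.continuous_exp.continuousAt).comp
      ((Complex.continuous_ofReal.continuousAt.comp h1).mul continuousAt_const)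
  unfold Ia
  rw [intervalIntegral.integral_eq_sub_of_hasDerivAt hderiv hint, sub_div]

private theorem tpar_norm {a : ℝ} (ha : 0 < a) (k : ℤ) :
    ‖Ia a k‖ ≤ 3 * a / ‖(1 - (k : ℂ) * Complex.I)‖ := by
  rw [tpar_Ia ha k, norm_div]
  refine div_le_div_of_nonneg_right ?_ (norm_nonneg _)
  refine (norm_sub_le _ _).trans ?_
  have h1 : ∀ x : ℝ, 0 < x → ‖Complex.exp ((1 - (k : ℂ) * Complex.I) * (Real.log x : ℂ))‖ = x := by
    intro x hx
    rw [Complex.norm_exp]
    have h2 : ((1 - (k : ℂ) * Complex.I) * (Real.log x : ℂ)).re = Real.log x := by simp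
    rw [h2, Real.exp_log hx]
  rw [h1 _ (by linarith), h1 _ ha]
  linarith

private theorem tpar_ge_k (k : ℤ) : |(k : ℝ)| ≤ ‖(1 - (k : ℂ) * Complex.I)‖ := by
  have h1 := Complex.abs_im_le_norm (1 - (k : ℂ) * Complex.I)
  have h2 : (1 - (k : ℂ) * Complex.I).im = -(k : ℝ) := by simp
  rw [h2, abs_neg] at h1
  exact h1

private theorem tpar_ge_one (k : ℤ) : 1 ≤ ‖(1 - (k : ℂ) * Complex.I)‖ := by
  have h1 := Complex.abs_re_le_norm (1 - (k : ℂ) * Complex.I)
  have h2 : (1 - (k : ℂ) * Complex.I).re = 1 := by simp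
  rw [h2, abs_one] at h1
  exact h1

private theorem tpar_sq {a : ℝ} (ha : 0 < a) (k : ℤ) (hk : k ≠ 0) :
    ‖Ia a k‖ ^ 2 ≤ 9 * a ^ 2 * ((k.natAbs : ℝ) ^ 2)⁻¹ := by
  have hk' : 0 < |(k : ℝ)| := abs_pos.2 (by exact_mod_cast hk)
  have h1 : ‖Ia a k‖ ≤ 3 * a / |(k : ℝ)| :=
    (tpar_norm ha k).trans (div_le_div_of_nonneg_left (by linarith) hk' (tpar_ge_k k))
  have h2 := pow_le_pow_left₀ (norm_nonneg _) h1 2
  refine h2.trans (le_of_eq ?_)
  have h3 : (k.natAbs : ℝ) = |(k : ℝ)| := by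
    rw [Nat.cast_natAbs, Int.cast_abs]
  rw [h3, div_pow, mul_pow]
  ring

private theorem tpar_tail {T : ℕ} (hT : 1 ≤ T) (S : Finset ℤ) (hS : ∀ k ∈ S, (T : ℤ) < |k|) :
    ∑ k ∈ S, ((k.natAbs : ℝ) ^ 2)⁻¹ ≤ 2 / T := by
  classical
  set M : ℕ := max T (S.sup Int.natAbs) with hM
  have hsub : S ⊆ (Ioc T M).image (fun n : ℕ => (n : ℤ)) ∪ (Ioc T M).image (fun n : ℕ => -(n : ℤ)) := by
    intro k hk
    have h1 := hS k hk
    rw [Int.abs_eq_natAbs] at h1
    have h2 : k.natAbs ≤ M := (Finset.le_sup hk).trans (le_max_right _ _)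
    have h3 : T < k.natAbs := by omega
    rcases le_total 0 k with h | h
    · refine mem_union_left _ (mem_image.2 ⟨k.natAbs, mem_Ioc.2 ⟨h3, h2⟩, by omega⟩)
    · refine mem_union_right _ (mem_image.2 ⟨k.natAbs, mem_Ioc.2 ⟨h3, h2⟩, by omega⟩)
  have h1 := sum_le_sum_of_subset_of_nonneg (f := fun k : ℤ => ((k.natAbs : ℝ) ^ 2)⁻¹) hsub
    (fun _ _ _ => by positivity)
  refine h1.trans ?_
  have h2 := sum_union_inter (s₁ := (Ioc T M).image (fun n : ℕ => (n : ℤ)))
    (s₂ := (Ioc T M).image (fun n : ℕ => -(n : ℤ))) (f := fun k : ℤ => ((k.natAbs : ℝ) ^ 2)⁻¹)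
  have h3 : 0 ≤ ∑ k ∈ (Ioc T M).image (fun n : ℕ => (n : ℤ)) ∩ (Ioc T M).image (fun n : ℕ => -(n : ℤ)),
      ((k.natAbs : ℝ) ^ 2)⁻¹ := sum_nonneg fun _ _ => by positivity
  have h4 : ∑ k ∈ (Ioc T M).image (fun n : ℕ => (n : ℤ)), ((k.natAbs : ℝ) ^ 2)⁻¹ =
      ∑ n ∈ Ioc T M, ((n : ℝ) ^ 2)⁻¹ := by
    rw [sum_image (fun x _ y _ h => by exact_mod_cast h)]
    refine sum_congr rfl fun n _ => ?_
    rw [Int.natAbs_natCast]
  have h5 : ∑ k ∈ (Ioc T M).image (fun n : ℕ => -(n : ℤ)), ((k.natAbs : ℝ) ^ 2)⁻¹ =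
      ∑ n ∈ Ioc T M, ((n : ℝ) ^ 2)⁻¹ := by
    rw [sum_image (fun x _ y _ h => by
      have h' : -(x : ℤ) = -(y : ℤ) := h
      omega)]
    refine sum_congr rfl fun n _ => ?_
    rw [Int.natAbs_neg, Int.natAbs_natCast]
  have h6 : ∑ n ∈ Ioc T M, ((n : ℝ) ^ 2)⁻¹ ≤ (T : ℝ)⁻¹ - (M : ℝ)⁻¹ :=
    sum_Ioc_inv_sq_le_sub (by omega) (le_max_left _ _)
  have h7 : (0 : ℝ) ≤ (M : ℝ)⁻¹ := by positivity
  rw [h4, h5] at h2
  have h8 : (2 : ℝ) / T = (T : ℝ)⁻¹ + (T : ℝ)⁻¹ := by ring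
  rw [h8]
  linarith

private theorem tpar_meas (a : ℝ) :
    Measurable fun θ : ℝ => (if Real.log a < θ ∧ θ ≤ Real.log (2 * a) then ((Real.exp θ : ℝ) : ℂ) else 0 : ℂ) := by
  refine Measurable.ite ?_ (Complex.measurable_ofReal.comp Real.measurable_exp) measurable_const
  exact (measurableSet_lt measurable_const measurable_id).inter
    (measurableSet_le measurable_id measurable_const)

private theorem tpar_bdd (a : ℝ) (ha : 0 < a) (θ : ℝ) :
    ‖(if Real.log a < θ ∧ θ ≤ Real.log (2 * a) then ((Real.exp θ : ℝ) : ℂ) else 0 : ℂ)‖ ≤ 2 * a := by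
  split_ifs with h
  · rw [Complex.norm_real, Real.norm_of_nonneg (Real.exp_pos _).le]
    calc Real.exp θ ≤ Real.exp (Real.log (2 * a)) := Real.exp_le_exp.2 h.2
      _ = 2 * a := Real.exp_log (by linarith)
  · rw [norm_zero]
    linarith

private theorem tpar_inner {a c : ℝ} (ha : 0 < a) (h1 : c ≤ Real.log a)
    (h2 : Real.log (2 * a) ≤ c + 2 * Real.pi) (k : ℤ) :
    ∫ θ in c..(c + 2 * Real.pi), Complex.exp (((-(k : ℝ) * θ : ℝ) : ℂ) * Complex.I) *
        (if Real.log a < θ ∧ θ ≤ Real.log (2 * a) then ((Real.exp θ : ℝ) : ℂ) else 0) = Ia a k := by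
  have hpi := Real.pi_gt_three
  have hla : Real.log a ≤ Real.log (2 * a) := Real.log_le_log ha (by linarith)
  rw [intervalIntegral.integral_of_le (by linarith)]
  have h4 : (fun θ : ℝ => Complex.exp (((-(k : ℝ) * θ : ℝ) : ℂ) * Complex.I) *
      (if Real.log a < θ ∧ θ ≤ Real.log (2 * a) then ((Real.exp θ : ℝ) : ℂ) else 0)) =
      (Set.Ioc (Real.log a) (Real.log (2 * a))).indicator
      fun θ : ℝ => Complex.exp ((1 - (k : ℂ) * Complex.I) * θ) := by
    ext θ
    by_cases hθ : θ ∈ Set.Ioc (Real.log a) (Real.log (2 * a))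
    · rw [Set.indicator_of_mem hθ, if_pos ⟨hθ.1, hθ.2⟩, Complex.ofReal_exp, ← Complex.exp_add]
      congr 1
      push_cast
      ring
    · rw [Set.indicator_of_notMem hθ, if_neg, mul_zero]
      rintro ⟨h, h'⟩
      exact hθ ⟨h, h'⟩
  rw [h4, MeasureTheory.setIntegral_indicator measurableSet_Ioc]
  have h5 : Set.Ioc c (c + 2 * Real.pi) ∩ Set.Ioc (Real.log a) (Real.log (2 * a)) =
      Set.Ioc (Real.log a) (Real.log (2 * a)) := by
    ext θ
    simp only [Set.mem_inter_iff, Set.mem_Ioc]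
    constructor
    · exact fun h => h.2
    · intro h
      exact ⟨⟨by linarith [h.1], by linarith [h.2]⟩, h⟩
  rw [h5, ← intervalIntegral.integral_of_le hla, integral_exp_mul_complex (tpar_c_ne k), tpar_Ia ha k]

/-- orthogonality -/
private theorem tpar_orth (c : ℝ) (m : ℤ) :
    ∫ θ in c..(c + 2 * Real.pi), Complex.exp ((((m : ℝ) * θ : ℝ) : ℂ) * Complex.I) =
      if m = 0 then ((2 * Real.pi : ℝ) : ℂ) else 0 := by
  split_ifs with hm
  · subst hm
    have h1 : ∀ θ : ℝ, Complex.exp (((((0 : ℤ) : ℝ) * θ : ℝ) : ℂ) * Complex.I) = 1 := by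
      intro θ
      simp
    rw [intervalIntegral.integral_congr (g := fun _ => (1 : ℂ)) fun θ _ => h1 θ]
    simp
  · have hc : (m : ℂ) * Complex.I ≠ 0 := mul_ne_zero (by exact_mod_cast hm) Complex.I_ne_zero
    have h2 : ∫ θ in c..(c + 2 * Real.pi), Complex.exp ((((m : ℝ) * θ : ℝ) : ℂ) * Complex.I) =
        ∫ θ in c..(c + 2 * Real.pi), Complex.exp ((m : ℂ) * Complex.I * θ) := by
      refine intervalIntegral.integral_congr fun θ _ => ?_
      change Complex.exp ((((m : ℝ) * θ : ℝ) : ℂ) * Complex.I) = Complex.exp ((m : ℂ) * Complex.I * θ)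
      congr 1
      push_cast
      ring
    rw [h2, integral_exp_mul_complex hc]
    have h3 : (m : ℂ) * Complex.I * ((c + 2 * Real.pi : ℝ) : ℂ) =
        (m : ℂ) * Complex.I * (c : ℂ) + (m : ℂ) * (2 * Real.pi * Complex.I) := by
      push_cast
      ring
    rw [h3, Complex.exp_add, Complex.exp_int_mul_two_pi_mul_I, mul_one, sub_self, zero_div]

theorem parI {X a : ℝ} (hX : 0 < X) (ha : X * Real.exp (-(2 * Real.pi)) ≤ a) (ha2 : 2 * a ≤ X) {T : ℕ} (hT : 1 ≤ T) :
    ∫ θ in (Real.log X - 2 * Real.pi)..(Real.log X),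
      ‖(if Real.log a < θ ∧ θ ≤ Real.log (2 * a) then ((Real.exp θ : ℝ) : ℂ) else 0) -
        ((1 / (2 * Real.pi) : ℝ) : ℂ) * ∑ j ∈ Icc (-(T : ℤ)) T, Ia a j *
          Complex.exp ((((j : ℝ) * θ : ℝ) : ℂ) * Complex.I)‖ ^ 2 ≤ 3 * a ^ 2 / T := by
  classical
  have ha0 : 0 < a := lt_of_lt_of_le (mul_pos hX (Real.exp_pos _)) ha
  have hT0 : (0 : ℝ) < T := by exact_mod_cast hT
  have hpi := Real.pi_gt_three
  set c := Real.log X - 2 * Real.pi with hc
  have hab : c < c + 2 * Real.pi := by linarith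
  have hsub : c + 2 * Real.pi - c = 2 * Real.pi := by ring
  have hcX : Real.log X = c + 2 * Real.pi := by rw [hc]; ring
  have hca : c ≤ Real.log a := by
    have h1 := Real.log_le_log (mul_pos hX (Real.exp_pos _)) ha
    rw [Real.log_mul hX.ne' (Real.exp_pos _).ne', Real.log_exp] at h1
    linarith
  have hc2a : Real.log (2 * a) ≤ c + 2 * Real.pi := by
    rw [← hcX]
    exact Real.log_le_log (by linarith) ha2
  set J : Finset ℤ := Icc (-(T : ℤ)) T with hJ
  set g : ℝ → ℂ := fun θ => if Real.log a < θ ∧ θ ≤ Real.log (2 * a) then ((Real.exp θ : ℝ) : ℂ) else 0 with hg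
  have hgm : Measurable g := tpar_meas a
  have hgb : ∀ θ, ‖g θ‖ ≤ 2 * a := tpar_bdd a ha0
  set Cj : ℤ → ℂ := fun j => ((1 / (2 * Real.pi) : ℝ) : ℂ) * Ia a j with hCj
  set G : ℝ → ℂ := fun θ => g θ - ∑ j ∈ J, Cj j * Complex.exp ((((j : ℝ) * θ : ℝ) : ℂ) * Complex.I) with hG
  have hGeq : ∀ θ : ℝ, g θ - ((1 / (2 * Real.pi) : ℝ) : ℂ) * ∑ j ∈ J, Ia a j *
          Complex.exp ((((j : ℝ) * θ : ℝ) : ℂ) * Complex.I) = G θ := by
    intro θ
    rw [hG]
    simp only [hCj]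
    congr 1
    rw [mul_sum]
    refine sum_congr rfl fun j _ => ?_
    ring
  obtain ⟨A, hA⟩ : ∃ A : ℝ, ∀ θ, ‖G θ‖ ≤ A := by
    refine ⟨2 * a + ∑ j ∈ J, ‖Cj j‖, fun θ => ?_⟩
    refine (norm_sub_le _ _).trans (add_le_add (hgb θ) ?_)
    refine (norm_sum_le _ _).trans (sum_le_sum fun j _ => ?_)
    rw [norm_mul, Complex.norm_exp_ofReal_mul_I, mul_one]
  have hcont2 : Continuous fun θ : ℝ => ∑ j ∈ J, Cj j * Complex.exp ((((j : ℝ) * θ : ℝ) : ℂ) * Complex.I) := by
    fun_prop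
  have hmeas : Measurable G := hgm.sub hcont2.measurable
  have hL2 : MeasureTheory.MemLp G 2
      (MeasureTheory.volume.restrict (Set.Ioc c (c + 2 * Real.pi))) :=
    MeasureTheory.MemLp.of_bound hmeas.aestronglyMeasurable A (Filter.Eventually.of_forall hA)
  have hpar := hasSum_sq_fourierCoeffOn hab hL2
  have hcoef : ∀ k : ℤ, fourierCoeffOn hab G k =
      if k ∈ J then 0 else (1 / (2 * Real.pi) : ℝ) • Ia a k := by
    intro k
    have h1 : ∀ θ : ℝ, (fourier (-k) (θ : AddCircle (c + 2 * Real.pi - c)) : ℂ) • G θ =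
        Complex.exp (((-(k : ℝ) * θ : ℝ) : ℂ) * Complex.I) * g θ -
        ∑ j ∈ J, Cj j * Complex.exp (((((j - k : ℤ) : ℝ) * θ : ℝ) : ℂ) * Complex.I) := by
      intro θ
      have hF : (fourier (-k) (θ : AddCircle (c + 2 * Real.pi - c)) : ℂ) =
          Complex.exp (((-(k : ℝ) * θ : ℝ) : ℂ) * Complex.I) := by
        rw [fourier_coe_apply, hsub]
        congr 1
        have hpi0 : (Real.pi : ℂ) ≠ 0 := by exact_mod_cast Real.pi_ne_zero
        push_cast
        field_simp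
      rw [smul_eq_mul, hF]
      simp only [hG]
      rw [mul_sub, mul_sum]
      congr 1
      refine sum_congr rfl fun j _ => ?_
      rw [mul_left_comm, ← Complex.exp_add]
      congr 2
      push_cast
      ring
    have hI1 : IntervalIntegrable (fun θ : ℝ => Complex.exp (((-(k : ℝ) * θ : ℝ) : ℂ) * Complex.I) * g θ)
        MeasureTheory.volume c (c + 2 * Real.pi) := by
      have hm2 : Measurable fun θ : ℝ =>
          Complex.exp (((-(k : ℝ) * θ : ℝ) : ℂ) * Complex.I) * g θ := by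
        refine Measurable.mul ?_ hgm
        exact (by fun_prop : Continuous fun θ : ℝ =>
          Complex.exp (((-(k : ℝ) * θ : ℝ) : ℂ) * Complex.I)).measurable
      refine MeasureTheory.IntegrableOn.intervalIntegrable ?_
      refine MeasureTheory.Measure.integrableOn_of_bounded (M := 2 * a)
        (by exact (isCompact_uIcc.measure_lt_top).ne) hm2.aestronglyMeasurable
        (Filter.Eventually.of_forall fun θ => ?_)
      rw [norm_mul, Complex.norm_exp_ofReal_mul_I, one_mul]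
      exact hgb θ
    have hI2 : ∀ j ∈ J, IntervalIntegrable (fun θ : ℝ => Cj j *
        Complex.exp (((((j - k : ℤ) : ℝ) * θ : ℝ) : ℂ) * Complex.I)) MeasureTheory.volume c (c + 2 * Real.pi) := by
      intro j _
      exact Continuous.intervalIntegrable (by fun_prop) _ _
    have hI2s : IntervalIntegrable (fun θ : ℝ => ∑ j ∈ J, Cj j *
        Complex.exp (((((j - k : ℤ) : ℝ) * θ : ℝ) : ℂ) * Complex.I)) MeasureTheory.volume c (c + 2 * Real.pi) :=
      Continuous.intervalIntegrable (by fun_prop) _ _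
    have h2 : ∫ θ in c..(c + 2 * Real.pi),
        (fourier (-k) (θ : AddCircle (c + 2 * Real.pi - c)) : ℂ) • G θ =
        Ia a k - ∑ j ∈ J, Cj j * (if j - k = 0 then ((2 * Real.pi : ℝ) : ℂ) else 0) := by
      rw [intervalIntegral.integral_congr fun θ _ => h1 θ, intervalIntegral.integral_sub hI1 hI2s,
        intervalIntegral.integral_finset_sum hI2, tpar_inner ha0 hca hc2a k]
      congr 1
      refine sum_congr rfl fun j _ => ?_
      rw [intervalIntegral.integral_const_mul, tpar_orth]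
    rw [fourierCoeffOn_eq_integral, h2, hsub]
    split_ifs with hk
    · rw [sum_eq_single_of_mem k hk (fun j _ hj => by rw [if_neg (sub_ne_zero.2 hj), mul_zero]),
        if_pos (sub_self k)]
      simp only [hCj]
      have h3 : ((1 / (2 * Real.pi) : ℝ) : ℂ) * Ia a k * ((2 * Real.pi : ℝ) : ℂ) = Ia a k := by
        have h4 : ((1 / (2 * Real.pi) : ℝ) : ℂ) * ((2 * Real.pi : ℝ) : ℂ) = 1 := by
          rw [← Complex.ofReal_mul, one_div, inv_mul_cancel₀ (by positivity), Complex.ofReal_one]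
        rw [mul_right_comm, h4, one_mul]
      rw [h3, sub_self, smul_zero]
    · have h0 : ∑ j ∈ J, Cj j * (if j - k = 0 then ((2 * Real.pi : ℝ) : ℂ) else 0) = 0 := by
        refine sum_eq_zero fun j hj => ?_
        have hne : j ≠ k := fun h => hk (by rw [← h]; exact hj)
        rw [if_neg (sub_ne_zero.2 hne), mul_zero]
      rw [h0, sub_zero]
  have hle : ∀ J' : Finset ℤ, ∑ k ∈ J', ‖fourierCoeffOn hab G k‖ ^ 2 ≤
      (1 / (2 * Real.pi)) ^ 2 * (9 * a ^ 2 * (2 / T)) := by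
    intro J'
    have h0 : ∑ k ∈ J', ‖fourierCoeffOn hab G k‖ ^ 2 = ∑ k ∈ J' \ J, ‖fourierCoeffOn hab G k‖ ^ 2 := by
      symm
      refine sum_subset sdiff_subset fun k hk hk' => ?_
      have hkJ : k ∈ J := by
        by_contra h
        exact hk' (mem_sdiff.2 ⟨hk, h⟩)
      rw [hcoef k, if_pos hkJ, norm_zero]
      norm_num
    rw [h0]
    have hbig : ∀ k ∈ J' \ J, (T : ℤ) < |k| := by
      intro k hk
      have h1 := (mem_sdiff.1 hk).2
      rw [hJ, mem_Icc] at h1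
      by_contra h2
      push Not at h2
      exact h1 ⟨(abs_le.1 h2).1, (abs_le.1 h2).2⟩
    have h1 : ∀ k ∈ J' \ J, ‖fourierCoeffOn hab G k‖ ^ 2 ≤
        (1 / (2 * Real.pi)) ^ 2 * (9 * a ^ 2) * ((k.natAbs : ℝ) ^ 2)⁻¹ := by
      intro k hk
      have hk0 : k ≠ 0 := by
        rintro rfl
        have := hbig 0 hk
        rw [abs_zero] at this
        omega
      rw [hcoef k, if_neg (mem_sdiff.1 hk).2, norm_smul, Real.norm_of_nonneg (by positivity), mul_pow,
        mul_assoc]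
      exact mul_le_mul_of_nonneg_left (tpar_sq ha0 k hk0) (by positivity)
    refine (sum_le_sum h1).trans ?_
    rw [← mul_sum, mul_assoc ((1 / (2 * Real.pi)) ^ 2)]
    refine mul_le_mul_of_nonneg_left ?_ (by positivity)
    exact mul_le_mul_of_nonneg_left (tpar_tail hT _ hbig) (by positivity)
  have hint := hasSum_le_of_sum_le hpar hle
  rw [hsub, smul_eq_mul] at hint
  have h3 : ∫ θ in c..(c + 2 * Real.pi), ‖G θ‖ ^ 2 ≤ 3 * a ^ 2 / T := by
    have h4 : ∫ θ in c..(c + 2 * Real.pi), ‖G θ‖ ^ 2 =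
        (2 * Real.pi) * ((2 * Real.pi)⁻¹ * ∫ θ in c..(c + 2 * Real.pi), ‖G θ‖ ^ 2) := by
      rw [← mul_assoc, mul_inv_cancel₀ (by positivity), one_mul]
    rw [h4]
    refine (mul_le_mul_of_nonneg_left hint (by positivity)).trans ?_
    have h5 : 2 * Real.pi * ((1 / (2 * Real.pi)) ^ 2 * (9 * a ^ 2 * (2 / T))) = 9 * a ^ 2 / (Real.pi * T) := by
      field_simp
    rw [h5, div_le_div_iff₀ (by positivity) hT0]
    have h6 : 0 ≤ a ^ 2 * T := by positivity
    nlinarith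
  rw [intervalIntegral.integral_congr (g := fun θ => ‖G θ‖ ^ 2) fun θ _ => by
    change ‖_‖ ^ 2 = ‖G θ‖ ^ 2
    rw [← hGeq θ]]
  rw [hcX]
  exact h3

theorem Ia_le {a : ℝ} (ha : 0 < a) (j : ℤ) : ‖Ia a j‖ ≤ 3 * a / (1 + |(j : ℝ)|) * 2 := by
  refine (tpar_norm ha j).trans ?_
  have h1 := tpar_ge_k j
  have h2 := tpar_ge_one j
  have h3 : 0 < 1 + |(j : ℝ)| := by positivity
  rw [div_mul_eq_mul_div, div_le_div_iff₀ (by linarith) h3]
  nlinarith

end Pool.Agent.Lib.VKT
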