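import Pool.Agent.Lib.VK.TDef
import Pool.Agent.Lib.SW.SWFinal

/-!
# VK / TSwA (P4): primes of `(Y, 2Y]` against a periodic function of small period

PROOF. Split by classes `c` modulo `ℓ`: `∑_{Y<n≤2Y} lp n g n = ∑_{c<ℓ} g c ∑_{Y<n≤2Y, n ≡ c} lp n`. For `(c,ℓ) = 1`:
`SW.theta_ap` (exponent `k = K + 2G + 2`, `ε = 1`) at `x = 2Y` and `x = Y`: the inner sum is `Y/φ(ℓ) + O(3 C ℓ Y/(log Y)^k)`. For
`(c,ℓ) > 1` a prime `n ≡ c` divides `ℓ < Y`, impossible for `n > Y`: inner sum `0`. `|g| ≤ 1`, at most `ℓ ≤ (log Y)^G` classes.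
-/

set_option autoImplicit false

open Finset

namespace Pool.Agent.Lib.VKT

open Pool.Agent.Lib.G3 (lp)

theorem swA (K G : ℕ) : ∃ x0 : ℝ, ∀ Y : ℕ, x0 ≤ Y → ∀ ℓ : ℕ, 1 ≤ ℓ → (ℓ : ℝ) ≤ (Real.log Y) ^ G → ∀ g : ℕ → ℝ,
    (∀ n, g (n + ℓ) = g n) → (∀ n, |g n| ≤ 1) →
      |∑ n ∈ Ioc Y (2 * Y), lp n * g n - Y / (ℓ.totient : ℝ) * ∑ c ∈ (range ℓ).filter (fun c => c.Coprime ℓ), g c| ≤
        Y / (Real.log Y) ^ K := by
  obtain ⟨C, hC, hθ⟩ := SW.theta_ap (K + 2 * G + 2) 1 one_pos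
  have ev1 : ∀ᶠ x : ℝ in Filter.atTop, (Real.log x) ^ G ≤ x := by
    have h := (Real.isLittleO_pow_log_id_atTop (n := G)).bound one_pos
    filter_upwards [h, Filter.eventually_ge_atTop (0 : ℝ)] with x hx hx0
    rw [Real.norm_eq_abs, Real.norm_eq_abs, one_mul] at hx
    exact (le_abs_self _).trans (hx.trans (by rw [id, abs_of_nonneg hx0]))
  have ev2 : ∀ᶠ x : ℝ in Filter.atTop, 3 * C + 1 ≤ Real.log x :=
    Real.tendsto_log_atTop.eventually_ge_atTop _
  obtain ⟨x0, hx0⟩ := Filter.eventually_atTop.1 (ev1.and (ev2.and (Filter.eventually_ge_atTop (2 : ℝ))))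
  refine ⟨x0, ?_⟩
  intro Y hY ℓ hℓ1 hℓ g hg hg1
  obtain ⟨h1, h2, h3⟩ := hx0 (Y : ℝ) hY
  have hY2 : 2 ≤ Y := by exact_mod_cast h3
  have hYpos : (0 : ℝ) < Y := by linarith
  have hL1 : 1 ≤ Real.log Y := by linarith
  have hL0 : 0 < Real.log Y := by linarith
  have hℓY : ℓ ≤ Y := by
    have : (ℓ : ℝ) ≤ Y := hℓ.trans h1
    exact_mod_cast this
  have hper : Function.Periodic g ℓ := hg
  set S : ℕ → ℝ := fun c => ∑ n ∈ (Ioc Y (2 * Y)).filter (fun n => n % ℓ = c), lp n with hS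
  have e1 : ∑ n ∈ Ioc Y (2 * Y), lp n * g n = ∑ c ∈ range ℓ, g c * S c := by
    rw [← Finset.sum_fiberwise_of_maps_to (s := Ioc Y (2 * Y)) (t := range ℓ) (g := fun n => n % ℓ)
      (fun n _ => Finset.mem_range.2 (Nat.mod_lt _ hℓ1)) (fun n => lp n * g n)]
    refine Finset.sum_congr rfl fun c _ => ?_
    rw [hS, Finset.mul_sum]
    refine Finset.sum_congr rfl fun n hn => ?_
    rw [Finset.mem_filter] at hn
    rw [← hn.2, hper.map_mod_nat n, mul_comm]
  have e2 : ∀ c ∈ range ℓ, ¬ c.Coprime ℓ → S c = 0 := by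
    intro c _ hc
    refine Finset.sum_eq_zero fun n hn => ?_
    rw [Finset.mem_filter, Finset.mem_Ioc] at hn
    unfold G3.lp
    rw [if_neg]
    intro hp
    rcases (Nat.coprime_or_dvd_of_prime hp ℓ) with hcop | hdvd
    · apply hc
      rw [← hn.2]
      unfold Nat.Coprime at hcop ⊢
      rw [← Nat.gcd_rec, Nat.gcd_comm]
      exact hcop
    · have := Nat.le_of_dvd hℓ1 hdvd
      omega
  have e3 : ∀ c ∈ range ℓ, c.Coprime ℓ →
      |S c - Y / (ℓ.totient : ℝ)| ≤ 3 * C * ℓ * Y / (Real.log Y) ^ (K + 2 * G + 2) := by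
    intro c hcr hc
    have hcl : c < ℓ := Finset.mem_range.1 hcr
    have b1 := hθ ℓ c hℓ1 hc (Y : ℝ) h3
    have b2 := hθ ℓ c hℓ1 hc ((2 * Y : ℕ) : ℝ) (by push_cast; linarith)
    rw [Nat.floor_natCast, Real.rpow_one] at b1 b2
    have e4 : ∑ n ∈ (Finset.Icc 1 (2 * Y)).filter (fun n => n.Prime ∧ n ≡ c [MOD ℓ]), Real.log n =
        ∑ n ∈ (Finset.Icc 1 Y).filter (fun n => n.Prime ∧ n ≡ c [MOD ℓ]), Real.log n + S c := by
      have e5 : S c = ∑ n ∈ Ioc Y (2 * Y), if (n.Prime ∧ n ≡ c [MOD ℓ]) then Real.log n else 0 := by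
        rw [hS]
        beta_reduce
        rw [Finset.sum_filter]
        refine Finset.sum_congr rfl fun n _ => ?_
        have hiff : n ≡ c [MOD ℓ] ↔ n % ℓ = c := by
          unfold Nat.ModEq
          rw [Nat.mod_eq_of_lt hcl]
        unfold G3.lp
        by_cases hp : n.Prime
        · by_cases hm : n % ℓ = c
          · rw [if_pos hm, if_pos hp, if_pos ⟨hp, hiff.2 hm⟩]
          · rw [if_neg hm, if_neg (fun h => hm (hiff.1 h.2))]
        · rw [if_neg (fun h : n.Prime ∧ n ≡ c [MOD ℓ] => hp h.1), if_neg hp, ite_self]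
      have e6 : Finset.Icc 1 (2 * Y) = Ioc 0 (2 * Y) := by
        ext n
        simp only [Finset.mem_Icc, Finset.mem_Ioc]
        omega
      have e7 : Finset.Icc 1 Y = Ioc 0 Y := by
        ext n
        simp only [Finset.mem_Icc, Finset.mem_Ioc]
        omega
      rw [e5, Finset.sum_filter, Finset.sum_filter, e6, e7]
      exact (Finset.sum_Ioc_consecutive _ (Nat.zero_le _) (by omega)).symm
    rw [e4] at b2
    have hlog2 : Real.log Y ≤ Real.log ((2 * Y : ℕ) : ℝ) := by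
      apply Real.log_le_log hYpos
      push_cast
      linarith
    have hq : C * (ℓ : ℝ) * ((2 * Y : ℕ) : ℝ) / (Real.log ((2 * Y : ℕ) : ℝ)) ^ (K + 2 * G + 2) ≤
        C * (ℓ : ℝ) * (2 * Y) / (Real.log Y) ^ (K + 2 * G + 2) := by
      push_cast
      have hlog3 : Real.log Y ≤ Real.log (2 * Y : ℝ) := by
        have := hlog2
        push_cast at this
        exact this
      exact div_le_div_of_nonneg_left (by positivity) (by positivity)
        (pow_le_pow_left₀ hL0.le hlog3 _)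
    have b3 := b2.trans hq
    have e8 : S c - Y / (ℓ.totient : ℝ) =
        ((∑ n ∈ (Finset.Icc 1 Y).filter (fun n => n.Prime ∧ n ≡ c [MOD ℓ]), Real.log n + S c) -
          ((2 * Y : ℕ) : ℝ) / (ℓ.totient : ℝ)) -
        (∑ n ∈ (Finset.Icc 1 Y).filter (fun n => n.Prime ∧ n ≡ c [MOD ℓ]), Real.log n -
          Y / (ℓ.totient : ℝ)) := by
      push_cast
      ring
    rw [e8]
    refine (abs_sub _ _).trans ((add_le_add b3 b1).trans (le_of_eq ?_))
    ring
  have e9 : ∑ n ∈ Ioc Y (2 * Y), lp n * g n -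
      Y / (ℓ.totient : ℝ) * ∑ c ∈ (range ℓ).filter (fun c => c.Coprime ℓ), g c =
      ∑ c ∈ (range ℓ).filter (fun c => c.Coprime ℓ), g c * (S c - Y / (ℓ.totient : ℝ)) := by
    rw [e1, Finset.mul_sum, ← Finset.sum_filter_add_sum_filter_not (range ℓ) (fun c => c.Coprime ℓ)]
    have : ∑ c ∈ (range ℓ).filter (fun c => ¬ c.Coprime ℓ), g c * S c = 0 := by
      refine Finset.sum_eq_zero fun c hc => ?_
      rw [Finset.mem_filter] at hc
      rw [e2 c hc.1 hc.2, mul_zero]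
    rw [this, add_zero, ← Finset.sum_sub_distrib]
    exact Finset.sum_congr rfl fun c _ => by ring
  rw [e9]
  have hB : 0 ≤ 3 * C * ℓ * Y / (Real.log Y) ^ (K + 2 * G + 2) := by positivity
  calc |∑ c ∈ (range ℓ).filter (fun c => c.Coprime ℓ), g c * (S c - Y / (ℓ.totient : ℝ))| ≤
        ∑ c ∈ (range ℓ).filter (fun c => c.Coprime ℓ), |g c * (S c - Y / (ℓ.totient : ℝ))| :=
        Finset.abs_sum_le_sum_abs _ _
    _ ≤ ∑ c ∈ (range ℓ).filter (fun c => c.Coprime ℓ),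
          3 * C * ℓ * Y / (Real.log Y) ^ (K + 2 * G + 2) := by
        refine Finset.sum_le_sum fun c hc => ?_
        rw [Finset.mem_filter] at hc
        rw [abs_mul]
        calc |g c| * |S c - Y / (ℓ.totient : ℝ)| ≤
              1 * (3 * C * ℓ * Y / (Real.log Y) ^ (K + 2 * G + 2)) :=
              mul_le_mul (hg1 c) (e3 c hc.1 hc.2) (abs_nonneg _) zero_le_one
          _ = _ := one_mul _
    _ = ((range ℓ).filter (fun c => c.Coprime ℓ)).card *
          (3 * C * ℓ * Y / (Real.log Y) ^ (K + 2 * G + 2)) := by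
        rw [Finset.sum_const, nsmul_eq_mul]
    _ ≤ ℓ * (3 * C * ℓ * Y / (Real.log Y) ^ (K + 2 * G + 2)) := by
        refine mul_le_mul_of_nonneg_right ?_ hB
        have := Finset.card_filter_le (range ℓ) (fun c => c.Coprime ℓ)
        rw [Finset.card_range] at this
        exact_mod_cast this
    _ = 3 * C * (ℓ * ℓ) * Y / (Real.log Y) ^ (K + 2 * G + 2) := by ring
    _ ≤ 3 * C * ((Real.log Y) ^ G * (Real.log Y) ^ G) * Y / (Real.log Y) ^ (K + 2 * G + 2) := by
        have : (ℓ : ℝ) * ℓ ≤ (Real.log Y) ^ G * (Real.log Y) ^ G :=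
          mul_le_mul hℓ hℓ (by positivity) (by positivity)
        gcongr
    _ = 3 * C / (Real.log Y) ^ 2 * (Y / (Real.log Y) ^ K) := by
        rw [pow_add, pow_add, pow_mul']
        field_simp
    _ ≤ 1 * (Y / (Real.log Y) ^ K) := by
        refine mul_le_mul_of_nonneg_right ?_ (by positivity)
        rw [div_le_one (by positivity)]
        nlinarith
    _ = _ := one_mul _

end Pool.Agent.Lib.VKT
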