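import Pool.Agent.Lib.VK.TVb
import Pool.Agent.Lib.VK.TMod

/-!
# VK / TVar (P4): the local mean square of `Fr` minus its model is small at every frequency

PROOF. `Fr X P R n = ∑_{i<3} a_i b2 P (2^i R) n`, `a_i = log(2 2^i R)/log X ∈ [0, 1]` (as complex numbers; unfold `b2`: `lp r = log r`
for primes), `Mr X P R Q n = ∑_{i<3} a_i rho P (2^i R) n ram Q n`. For one `i`: `VV(b2 - rho ram) ≤ 2 VV(b2 - MG) + 2 VV(MG - rho ram)`
(`G3.VV_add_le`), the first by `vbW`, the second `≤ H'² ∑_n |MG - rho ram|²` (Cauchy in the window, every `n` lies in `H'` windows;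
both functions vanish for `n > X` and at `n = 0`: `mo` and `rho` are supported in `X0 X < n ≤ X`, `4 P 2^i R ≤ X`) by `modW` with
`K = A + 5`. Sum over `i`: factor 3 (`G3.VV_sum_le`). `A` is raised by 5 to absorb constants. Choose `g` from `vbW (A+5) c2`, `c5` the
maximum of the two `a5`, `c1` at least `a1` and `g + 1`.
-/

set_option autoImplicit false

open Finset

namespace Pool.Agent.Lib.VKT

open Pool.Agent.Lib.G3 (VV WW b2 MG pr lp mo)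
open Pool.Agent.Lib.GT (e)

private theorem tvar_scale (a : ℝ) (ha0 : 0 ≤ a) (ha1 : a ≤ 1) (f : ℕ → ℂ) (H : ℕ) (α : ℝ) (Y : ℕ) :
    VV (fun n => (a : ℂ) * f n) H α Y ≤ VV f H α Y := by
  unfold Pool.Agent.Lib.G3.VV
  refine sum_le_sum fun y _ => ?_
  have h1 : WW (fun n => (a : ℂ) * f n) H α y = (a : ℂ) * WW f H α y := by
    unfold Pool.Agent.Lib.G3.WW
    rw [mul_sum]
    exact sum_congr rfl fun n _ => by ring
  rw [h1, norm_mul, Complex.norm_real, Real.norm_of_nonneg ha0, mul_pow]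
  have h2 : a ^ 2 ≤ 1 := pow_le_one₀ ha0 ha1
  nlinarith [sq_nonneg ‖WW f H α y‖]

/-- Cauchy in the window -/
private theorem tvar_cauchy (G : ℕ → ℂ) (X H : ℕ) (α : ℝ) (Y : ℕ) (hG : ∀ n, ¬ (1 ≤ n ∧ n ≤ X) → G n = 0) :
    VV G H α Y ≤ (H : ℝ) ^ 2 * ∑ n ∈ Icc 1 X, ‖G n‖ ^ 2 := by
  unfold Pool.Agent.Lib.G3.VV
  have h1 : ∀ y ∈ range Y, ‖WW G H α y‖ ^ 2 ≤ (H : ℝ) * ∑ n ∈ Icc 1 X, if n ≤ y ∧ y < n + H then ‖G n‖ ^ 2 else 0 := by
    intro y _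
    have h2 : ‖WW G H α y‖ ≤ ∑ n ∈ Ioc (y - H) y, ‖G n‖ := by
      unfold Pool.Agent.Lib.G3.WW
      refine (norm_sum_le _ _).trans (sum_le_sum fun n _ => ?_)
      rw [norm_mul, Pool.Agent.Lib.G3.vb_norm_e, mul_one]
    have h3 : (∑ n ∈ Ioc (y - H) y, ‖G n‖) ^ 2 ≤ ((Ioc (y - H) y).card : ℝ) * ∑ n ∈ Ioc (y - H) y, ‖G n‖ ^ 2 :=
      sq_sum_le_card_mul_sum_sq
    have h4 : ((Ioc (y - H) y).card : ℝ) ≤ H := by
      rw [Nat.card_Ioc]
      exact_mod_cast (by omega : y - (y - H) ≤ H)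
    have h5 : ∑ n ∈ Ioc (y - H) y, ‖G n‖ ^ 2 ≤ ∑ n ∈ Icc 1 X, if n ≤ y ∧ y < n + H then ‖G n‖ ^ 2 else 0 := by
      rw [← sum_filter]
      have h6 : ∑ n ∈ Ioc (y - H) y, ‖G n‖ ^ 2 = ∑ n ∈ (Ioc (y - H) y).filter (fun n => 1 ≤ n ∧ n ≤ X), ‖G n‖ ^ 2 := by
        rw [sum_filter]
        refine sum_congr rfl fun n _ => ?_
        split_ifs with h
        · rfl
        · rw [hG n h, norm_zero]; norm_num
      rw [h6]
      refine sum_le_sum_of_subset_of_nonneg (fun n hn => ?_) fun _ _ _ => by positivity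
      rw [mem_filter, mem_Ioc] at hn
      rw [mem_filter, mem_Icc]
      refine ⟨⟨hn.2.1, hn.2.2⟩, hn.1.2, ?_⟩
      omega
    calc ‖WW G H α y‖ ^ 2 ≤ (∑ n ∈ Ioc (y - H) y, ‖G n‖) ^ 2 := pow_le_pow_left₀ (norm_nonneg _) h2 2
      _ ≤ ((Ioc (y - H) y).card : ℝ) * ∑ n ∈ Ioc (y - H) y, ‖G n‖ ^ 2 := h3
      _ ≤ (H : ℝ) * ∑ n ∈ Ioc (y - H) y, ‖G n‖ ^ 2 :=
          mul_le_mul_of_nonneg_right h4 (sum_nonneg fun _ _ => by positivity)
      _ ≤ _ := mul_le_mul_of_nonneg_left h5 (Nat.cast_nonneg _)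
  refine (sum_le_sum h1).trans ?_
  rw [← mul_sum, sum_comm, sq, mul_assoc]
  refine mul_le_mul_of_nonneg_left ?_ (Nat.cast_nonneg _)
  rw [mul_sum]
  refine sum_le_sum fun n _ => ?_
  rw [← sum_filter, sum_const, nsmul_eq_mul]
  refine mul_le_mul_of_nonneg_right ?_ (by positivity)
  have h7 : (range Y).filter (fun y => n ≤ y ∧ y < n + H) ⊆ Ico n (n + H) := by
    intro y hy
    rw [mem_filter] at hy
    exact mem_Ico.2 hy.2
  have h8 := card_le_card h7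
  rw [Nat.card_Ico] at h8
  exact_mod_cast (by omega : ((range Y).filter (fun y => n ≤ y ∧ y < n + H)).card ≤ H)

private theorem tvar_MG_zero (F : ℕ → ℂ) (X Q : ℕ) (J : ℕ → Finset ℤ) (n : ℕ) (h : ¬ (1 ≤ n ∧ n ≤ X)) : MG F X Q J n = 0 := by
  unfold Pool.Agent.Lib.G3.MG
  refine sum_eq_zero fun q _ => sum_eq_zero fun a _ => ?_
  unfold Pool.Agent.Lib.G3.mo
  rw [if_neg, mul_zero]
  rintro ⟨h1, h2⟩
  exact h ⟨by omega, h2⟩

private theorem tvar_rho_zero {X P R : ℕ} (hR : 4 * (P * R) ≤ X) (n : ℕ) (h : ¬ (1 ≤ n ∧ n ≤ X)) : rho P R n = 0 := by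
  unfold rho
  rw [sum_eq_zero, zero_div]
  intro p hp
  rw [if_neg]
  rintro ⟨h1, h2⟩
  unfold Pool.Agent.Lib.G3.pr at hp
  rw [mem_filter, mem_Ioc] at hp
  refine h ⟨by omega, ?_⟩
  have h3 : p * R ≤ 2 * P * R := Nat.mul_le_mul_right _ hp.1.2
  nlinarith

private theorem tvar_Fr (X P R : ℕ) (hR : 1 ≤ R) (n : ℕ) :
    ((Fr X P R n : ℝ) : ℂ) =
      ∑ i ∈ range 3, ((Real.log (2 * (2 ^ i * R) : ℕ) / Real.log X : ℝ) : ℂ) * b2 P (2 ^ i * R) n := by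
  unfold Fr Pool.Agent.Lib.G3.b2
  rw [Complex.ofReal_sum]
  refine sum_congr rfl fun i _ => ?_
  rw [Complex.ofReal_sum, mul_sum]
  refine sum_congr rfl fun p _ => ?_
  rw [Complex.ofReal_sum, mul_sum]
  refine sum_congr rfl fun r hr => ?_
  split_ifs with h
  · unfold Pool.Agent.Lib.G3.pr at hr
    rw [mem_filter] at hr
    have h1 : lp r = Real.log r := by
      unfold Pool.Agent.Lib.G3.lp
      rw [if_pos hr.2]
    have h2 : (1 : ℝ) < ((2 * (2 ^ i * R) : ℕ) : ℝ) := by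
      have : 1 ≤ 2 ^ i * R := Nat.one_le_iff_ne_zero.2 (by positivity)
      exact_mod_cast (by omega : 1 < 2 * (2 ^ i * R))
    have h3 : Real.log ((2 * (2 ^ i * R) : ℕ) : ℝ) ≠ 0 := (Real.log_pos h2).ne'
    rw [h1, ← Complex.ofReal_mul]
    congr 1
    field_simp
  · rw [mul_zero, Complex.ofReal_zero]

theorem varW (A c2 : ℕ) : ∃ g : ℕ, c2 ≤ g ∧ ∃ a1 : ℕ, ∀ c1 : ℕ, a1 ≤ c1 → ∃ c6 : ℕ, c1 + 4 * g + 20 ≤ c6 ∧ ∃ x0 : ℝ,
    ∀ X : ℕ, x0 ≤ X → ∀ H : ℕ, (Real.log X) ^ c6 ≤ H → (H : ℝ) ≤ (Real.log X) ^ (c6 + 2) → ∃ H' : ℕ, H ≤ H' ∧ H' ≤ 2 * H ∧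
      ∀ P R : ℕ, (∀ i < 3, ParW X P (2 ^ i * R) c1) → ∀ α : ℝ,
        VV (fun n => ((Fr X P R n : ℝ) : ℂ) - ((Mr X P R ⌊(Real.log X) ^ g⌋₊ n : ℝ) : ℂ)) H' α (X + H' + 1) ≤
          X * (H' : ℝ) ^ 2 / (Real.log X) ^ A := by
  obtain ⟨g, hg, a5, hv⟩ := vbW (A + 5) c2
  obtain ⟨a5', hm⟩ := modW (A + 5) g
  obtain ⟨a1, hv2⟩ := hv (max a5 a5') (le_max_left _ _)
  refine ⟨g, hg, max a1 (g + 1), fun c1 hc1 => ?_⟩
  obtain ⟨c6, hc6, x0, hx⟩ := hv2 c1 ((le_max_left _ _).trans hc1)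
  obtain ⟨x0', hx'⟩ := hm (max a5 a5') (le_max_right _ _) c1 (by have := (le_max_right _ _).trans hc1; omega)
  refine ⟨c6, hc6, max (max x0 x0') (Real.exp 3), fun X hX H hH1 hH2 => ?_⟩
  have hX1 : x0 ≤ X := (le_max_left _ _).trans ((le_max_left _ _).trans hX)
  have hX2 : x0' ≤ X := (le_max_right _ _).trans ((le_max_left _ _).trans hX)
  have hX3 : Real.exp 3 ≤ X := (le_max_right _ _).trans hX
  obtain ⟨H', hHa, hHb, hV⟩ := hx X hX1 H hH1 hH2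
  refine ⟨H', hHa, hHb, fun P R hP α => ?_⟩
  have hX0 : (0 : ℝ) < X := (Real.exp_pos 3).trans_le hX3
  have hX1' : 1 ≤ X := by exact_mod_cast hX0
  have hlog : 3 ≤ Real.log X := by
    rw [← Real.log_exp 3]
    exact Real.log_le_log (Real.exp_pos 3) hX3
  have hl0 : 0 < Real.log X := by linarith
  have hR1 : 1 ≤ R := by
    have h := (hP 0 (by norm_num)).hR2
    rcases Nat.eq_zero_or_pos R with h0 | h0
    · rw [h0] at h
      simp at h
      omega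
    · exact h0
  set Q := ⌊(Real.log X) ^ g⌋₊ with hQ
  set a : ℕ → ℝ := fun i => Real.log (2 * (2 ^ i * R) : ℕ) / Real.log X with ha
  set K : ℕ → ℕ → ℂ := fun i n => b2 P (2 ^ i * R) n - ((rho P (2 ^ i * R) n * ram Q n : ℝ) : ℂ) with hK
  have hP1 : 1 ≤ P := by
    have h := (hP 0 (by norm_num)).hR2
    rcases Nat.eq_zero_or_pos P with h0 | h0
    · rw [h0] at h
      simp at h
      omega
    · exact h0
  have hR8 : ∀ i < 3, 16 * (2 ^ i * R) ≤ X := fun i hi => by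
    refine le_trans ?_ (hP i hi).hR1
    exact Nat.mul_le_mul_left _ (Nat.le_mul_of_pos_left _ hP1)
  have ha01 : ∀ i < 3, 0 ≤ a i ∧ a i ≤ 1 := by
    intro i hi
    have h1 : (1 : ℝ) ≤ ((2 * (2 ^ i * R) : ℕ) : ℝ) := by
      have : 1 ≤ 2 ^ i * R := Nat.one_le_iff_ne_zero.2 (by positivity)
      exact_mod_cast (by omega : 1 ≤ 2 * (2 ^ i * R))
    have h2 : ((2 * (2 ^ i * R) : ℕ) : ℝ) ≤ X := by
      have := hR8 i hi
      exact_mod_cast (by omega : 2 * (2 ^ i * R) ≤ X)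
    refine ⟨div_nonneg (Real.log_nonneg h1) hl0.le, ?_⟩
    rw [ha]
    simp only
    rw [div_le_one hl0]
    exact Real.log_le_log (by linarith) h2
  have hsplit : (fun n => ((Fr X P R n : ℝ) : ℂ) - ((Mr X P R Q n : ℝ) : ℂ)) = fun n => ∑ i ∈ range 3, (a i : ℂ) * K i n := by
    funext n
    rw [tvar_Fr X P R hR1 n]
    unfold Mr
    rw [sum_mul, Complex.ofReal_sum, ← sum_sub_distrib]
    refine sum_congr rfl fun i _ => ?_
    rw [hK, ha]
    simp only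
    push_cast
    ring
  rw [hsplit]
  refine (Pool.Agent.Lib.G3.VV_sum_le _ _ _ _ _).trans ?_
  have hone : ∀ i ∈ range 3, VV (fun n => (a i : ℂ) * K i n) H' α (X + H' + 1) ≤ 4 * (X * (H' : ℝ) ^ 2 / (Real.log X) ^ (A + 5)) := by
    intro i hi
    rw [mem_range] at hi
    refine (tvar_scale (a i) (ha01 i hi).1 (ha01 i hi).2 _ _ _ _).trans ?_
    set Gm : ℕ → ℂ := MG (b2 P (2 ^ i * R)) X Q (fun _ => Js X (max a5 a5')) with hGm
    have e1 : K i = fun n => (b2 P (2 ^ i * R) n - Gm n) + (Gm n - ((rho P (2 ^ i * R) n * ram Q n : ℝ) : ℂ)) := by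
      funext n
      rw [hK]
      simp only
      ring
    rw [e1]
    refine (Pool.Agent.Lib.G3.VV_add_le _ _ _ _ _).trans ?_
    have e2 := hV P (2 ^ i * R) (hP i hi) α
    have e3 : VV (fun n => Gm n - ((rho P (2 ^ i * R) n * ram Q n : ℝ) : ℂ)) H' α (X + H' + 1) ≤
        (H' : ℝ) ^ 2 * (X / (Real.log X) ^ (A + 5)) := by
      refine (tvar_cauchy _ X H' α _ fun n hn => ?_).trans ?_
      · rw [hGm, tvar_MG_zero _ _ _ _ _ hn, tvar_rho_zero (X := X) _ n hn]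
        · simp
        · have := (hP i hi).hR1
          omega
      · exact mul_le_mul_of_nonneg_left (hx' X hX2 P (2 ^ i * R) (hP i hi)) (by positivity)
    have e4 : (H' : ℝ) ^ 2 * (X / (Real.log X) ^ (A + 5)) = X * (H' : ℝ) ^ 2 / (Real.log X) ^ (A + 5) := by ring
    rw [e4] at e3
    linarith
  have htot := sum_le_sum hone
  rw [sum_const, card_range, nsmul_eq_mul] at htot
  rw [card_range]
  have hfin : (3 : ℕ) * (((3 : ℕ) : ℝ) * (4 * (X * (H' : ℝ) ^ 2 / (Real.log X) ^ (A + 5)))) ≤ X * (H' : ℝ) ^ 2 / (Real.log X) ^ A := by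
    have h5 : (36 : ℝ) ≤ (Real.log X) ^ 5 := by
      have : (3 : ℝ) ^ 5 ≤ (Real.log X) ^ 5 := pow_le_pow_left₀ (by norm_num) hlog 5
      norm_num at this
      linarith
    rw [pow_add]
    have h6 : 0 < (Real.log X) ^ A := by positivity
    have h7 : 0 < (Real.log X) ^ 5 := by positivity
    rw [show ((3 : ℕ) : ℝ) * (((3 : ℕ) : ℝ) * (4 * (X * (H' : ℝ) ^ 2 / ((Real.log X) ^ A * (Real.log X) ^ 5)))) =
      (X * (H' : ℝ) ^ 2 / (Real.log X) ^ A) * (36 / (Real.log X) ^ 5) by push_cast; field_simp; ring]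
    refine mul_le_of_le_one_right (by positivity) ?_
    rw [div_le_one h7]
    exact h5
  refine le_trans ?_ hfin
  exact mul_le_mul_of_nonneg_left htot (by norm_num)

end Pool.Agent.Lib.VKT
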