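import Pool.Agent.Lib.VK.UPl
import Pool.Agent.Lib.VK.UBd

/-!
# VK / UUnw (phase 2): weights removed

PROOF. `l = log 32Y`. Pointwise, for `Y < n ≤ 3Y` and `2 ≤ k`: (a) `EE k w w' n` gives `1 - 1/(log Y)^(3/4) ≤ Fk n ≤ 1`: by `G5.q4 k 3 c1 d` at `4Y`
`∑_{b ∈ Ix (4Y) 3} bB b n ≥ 1 - 2/log 4Y` (`8·4Y/(log 4Y)^3 ≤ Y < n ≤ 4Y`); the blocks not in `IY` have `8·2^(i+j+g) < Y < n` and vanish at `n`; in the others
`2·2^g ≥ n/(4 p m) ≥ Y/(4 w'^(k-1))` when `bB b n ≠ 0` (or `2^g ≥ Y/(8 · 2^i 2^j) ≥ Y/(8 w' w'^(k-2))`), so `log(2·2^g)/l ≥ 1 - C loglog Y/log Y`.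
(b) `Fk n ≠ 0` gives `EE k w w' n` or `p² ∣ n` for some `p ∈ PP w w'` (q4b; all terms are `≥ 0`). (c) `k = 1`: for `n > Y ≥ w'`: `EE 1 w w' n` iff
`n` is prime (squarefree with one prime factor), and then `Gx = log n/l ∈ [1 - log 32/l, 1]`; otherwise `0`.
Upper bound for `wcK`: `∏ Gx ≤ 1[all EE] + ∑_i 1[∃ p ∈ PP, p² ∣ n + h_i]`; the number of `n ∈ (Y, 2Y]` with `p² ∣ n + h_i` for some
`p > w` is `≤ ∑_{p > w, p ≤ w'} (Y/p² + 1) ≤ 2Y/w + w' ≤ Y/(log Y)^c1`, `lp ≤ log 2Y`. Lower bound: all terms are `≥ 0`, for `n` counted in `cntK` the product is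
`≥ 1 - 1/(2 sqrt(log Y))`. `lp n ∈ (log Y, log 2Y]`.
-/

set_option autoImplicit false

open Finset Filter

namespace Pool.Agent.Lib.VKT

open Pool.Agent.Lib.G5 (bS PP aS sg1 esy SI Ix bB sgK EE Rg)
open Pool.Agent.Lib.G3 (pr lp)

private theorem uunw_asy (m c1 : ℕ) : ∃ L0 : ℝ, 1296 ≤ L0 ∧ ∀ L : ℝ, L0 ≤ L →
    ((m : ℝ) + 1) * (9 + c1 * (1 + Real.log L)) ≤ Real.sqrt L := by
  refine ⟨(((m : ℝ) + 1) * (9 + 5 * c1)) ^ 4, ?_, ?_⟩
  · have h1 : (6 : ℝ) ≤ ((m : ℝ) + 1) * (9 + 5 * c1) := by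
      have hm : (0 : ℝ) ≤ m := Nat.cast_nonneg m
      have hc : (0 : ℝ) ≤ c1 := Nat.cast_nonneg c1
      nlinarith [mul_nonneg hm hc]
    calc (1296 : ℝ) = 6 ^ 4 := by norm_num
      _ ≤ _ := pow_le_pow_left₀ (by norm_num) h1 4
  · intro L hL
    have hm : (0 : ℝ) ≤ m := Nat.cast_nonneg m
    have hc : (0 : ℝ) ≤ c1 := Nat.cast_nonneg c1
    set K : ℝ := ((m : ℝ) + 1) * (9 + 5 * c1) with hK
    have hK6 : (9 : ℝ) ≤ K := by rw [hK]; nlinarith [mul_nonneg hm hc]
    have hL1 : (0 : ℝ) < L := lt_of_lt_of_le (by positivity) hL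
    set s : ℝ := Real.sqrt (Real.sqrt L) with hs
    have hs0 : 0 ≤ s := Real.sqrt_nonneg _
    have hs2 : s ^ 2 = Real.sqrt L := Real.sq_sqrt (Real.sqrt_nonneg _)
    have hs4 : s ^ 4 = L := by
      have : s ^ 4 = (s ^ 2) ^ 2 := by ring
      rw [this, hs2, Real.sq_sqrt hL1.le]
    have hKs : K ≤ s := by
      have h4 : K ^ 4 ≤ s ^ 4 := by rw [hs4]; exact hL
      exact le_of_pow_le_pow_left₀ (by norm_num) hs0 h4
    have hs1 : 1 ≤ s := by linarith
    have hlog : Real.log L ≤ 4 * s := by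
      rw [← hs4, Real.log_pow]
      have := Real.log_le_sub_one_of_pos (show (0 : ℝ) < s by linarith)
      push_cast
      linarith
    rw [← hs2]
    have h5 : (9 : ℝ) + c1 * (1 + Real.log L) ≤ (9 + 5 * c1) * s := by
      have : (c1 : ℝ) * (1 + Real.log L) ≤ c1 * (5 * s) :=
        mul_le_mul_of_nonneg_left (by linarith) hc
      nlinarith
    calc ((m : ℝ) + 1) * (9 + c1 * (1 + Real.log L)) ≤ ((m : ℝ) + 1) * ((9 + 5 * c1) * s) :=
          mul_le_mul_of_nonneg_left h5 (by linarith)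
      _ = K * s := by rw [hK]; ring
      _ ≤ s * s := mul_le_mul_of_nonneg_right hKs hs0
      _ = s ^ 2 := by ring

private theorem uunw_EE1 {w w' n : ℕ} (h1 : w ≤ w') (h2 : w' < n) : EE 1 w w' n ↔ n.Prime := by
  constructor
  · rintro ⟨hs, hc, -, -⟩
    obtain ⟨p, hp⟩ := Finset.card_eq_one.1 hc
    have hn := Nat.prod_primeFactors_of_squarefree hs
    rw [hp, Finset.prod_singleton] at hn
    have h3 : p ∈ n.primeFactors := by rw [hp]; exact mem_singleton_self p
    rw [← hn]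
    exact Nat.prime_of_mem_primeFactors h3
  · intro hp
    have hpf := hp.primeFactors
    refine ⟨hp.squarefree, ?_, ?_, ?_⟩
    · rw [hpf, card_singleton]
    · intro q hq
      rw [hpf, mem_singleton] at hq
      omega
    · rw [hpf, filter_singleton, if_pos h2, card_singleton]

private theorem uunw_sq (Y w w' a : ℕ) (hw : 1 ≤ w) :
    ((((Ioc Y (2 * Y)).filter fun n => ∃ p ∈ PP w w', p ^ 2 ∣ n + a).card : ℕ) : ℝ) ≤ (Y : ℝ) / w + w' := by
  classical
  have hPP : ∀ p ∈ PP w w', w < p ∧ p ≤ w' := by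
    intro p hp
    unfold PP at hp
    rw [mem_filter, mem_Ioc] at hp
    exact hp.1
  have h1 : ((Ioc Y (2 * Y)).filter fun n => ∃ p ∈ PP w w', p ^ 2 ∣ n + a) ⊆
      (PP w w').biUnion fun p => (Ioc Y (2 * Y)).filter fun n => p ^ 2 ∣ n + a := by
    intro n hn
    rw [mem_filter] at hn
    obtain ⟨hn, p, hp, hd⟩ := hn
    rw [mem_biUnion]
    exact ⟨p, hp, mem_filter.2 ⟨hn, hd⟩⟩
  have h2 : ∀ p ∈ PP w w', ((((Ioc Y (2 * Y)).filter fun n => p ^ 2 ∣ n + a).card : ℕ) : ℝ) ≤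
      (Y : ℝ) * ((p : ℝ) ^ 2)⁻¹ + 1 := by
    intro p hp
    have hp0 : 0 < p := by have := hPP p hp; omega
    have hq0 : 0 < p ^ 2 := by positivity
    have hle : ((Ioc Y (2 * Y)).filter fun n => p ^ 2 ∣ n + a).card ≤
        (Ioc ((Y + a) / p ^ 2) ((2 * Y + a) / p ^ 2)).card := by
      refine card_le_card_of_injOn (fun n => (n + a) / p ^ 2) ?_ ?_
      · intro n hn
        rw [coe_filter, Set.mem_setOf_eq, mem_Ioc] at hn
        rw [coe_Ioc, Set.mem_Ioc]
        obtain ⟨⟨ha, hb⟩, t, ht⟩ := hn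
        simp only
        constructor
        · rw [ht, Nat.mul_div_cancel_left _ hq0, Nat.div_lt_iff_lt_mul hq0, mul_comm, ← ht]
          omega
        · exact Nat.div_le_div_right (by omega)
      · intro n hn n' hn' heq
        rw [coe_filter, Set.mem_setOf_eq] at hn hn'
        obtain ⟨-, t, ht⟩ := hn
        obtain ⟨-, t', ht'⟩ := hn'
        simp only at heq
        rw [ht, ht', Nat.mul_div_cancel_left _ hq0, Nat.mul_div_cancel_left _ hq0] at heq
        rw [heq, ← ht'] at ht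
        omega
    rw [Nat.card_Ioc] at hle
    have h3 : ((((2 * Y + a) / p ^ 2 - (Y + a) / p ^ 2 : ℕ)) : ℝ) ≤ (Y : ℝ) * ((p : ℝ) ^ 2)⁻¹ + 1 := by
      have hmono : (Y + a) / p ^ 2 ≤ (2 * Y + a) / p ^ 2 := Nat.div_le_div_right (by omega)
      rw [Nat.cast_sub hmono]
      have e1 : ((((2 * Y + a) / p ^ 2 : ℕ)) : ℝ) ≤ (2 * Y + a : ℝ) / (p : ℝ) ^ 2 := by
        have := @Nat.cast_div_le ℝ _ _ _ (2 * Y + a) (p ^ 2)
        push_cast at this
        exact this
      have e2 : ((Y : ℝ) + a) / (p : ℝ) ^ 2 ≤ (((Y + a) / p ^ 2 : ℕ) : ℝ) + 1 := by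
        have hp2 : (0 : ℝ) < (p : ℝ) ^ 2 := by positivity
        rw [div_le_iff₀ hp2]
        have h4 : Y + a < ((Y + a) / p ^ 2 + 1) * p ^ 2 := by
          have := Nat.div_add_mod (Y + a) (p ^ 2)
          have h6 := Nat.mod_lt (Y + a) hq0
          nlinarith
        have h5 : ((Y + a : ℕ) : ℝ) ≤ ((((Y + a) / p ^ 2 + 1) * p ^ 2 : ℕ) : ℝ) := by exact_mod_cast h4.le
        push_cast at h5
        exact_mod_cast h5
      have e3 : (2 * Y + a : ℝ) / (p : ℝ) ^ 2 = (Y : ℝ) * ((p : ℝ) ^ 2)⁻¹ + ((Y : ℝ) + a) / (p : ℝ) ^ 2 := by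
        rw [← div_eq_mul_inv, ← add_div]
        ring_nf
      linarith
    calc _ ≤ ((((2 * Y + a) / p ^ 2 - (Y + a) / p ^ 2 : ℕ)) : ℝ) := by exact_mod_cast hle
      _ ≤ _ := h3
  by_cases hww : w ≤ w'
  · calc ((((Ioc Y (2 * Y)).filter fun n => ∃ p ∈ PP w w', p ^ 2 ∣ n + a).card : ℕ) : ℝ)
        ≤ ∑ p ∈ PP w w', ((((Ioc Y (2 * Y)).filter fun n => p ^ 2 ∣ n + a).card : ℕ) : ℝ) := by
          have := (card_le_card h1).trans card_biUnion_le
          exact_mod_cast this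
      _ ≤ ∑ p ∈ PP w w', ((Y : ℝ) * ((p : ℝ) ^ 2)⁻¹ + 1) := Finset.sum_le_sum h2
      _ ≤ ∑ p ∈ Ioc w w', ((Y : ℝ) * ((p : ℝ) ^ 2)⁻¹ + 1) := by
          refine Finset.sum_le_sum_of_subset_of_nonneg ?_ fun p _ _ => by positivity
          unfold PP
          exact filter_subset _ _
      _ = (Y : ℝ) * (∑ p ∈ Ioc w w', ((p : ℝ) ^ 2)⁻¹) + ((w' - w : ℕ) : ℝ) := by
          rw [Finset.sum_add_distrib, Finset.mul_sum, Finset.sum_const, Nat.card_Ioc, nsmul_eq_mul, mul_one]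
      _ ≤ (Y : ℝ) / w + w' := by
          have h3 : ∑ p ∈ Ioc w w', ((p : ℝ) ^ 2)⁻¹ ≤ (w : ℝ)⁻¹ - (w' : ℝ)⁻¹ :=
            sum_Ioc_inv_sq_le_sub (by omega) hww
          have h4 : (0 : ℝ) ≤ (w' : ℝ)⁻¹ := by positivity
          have h5 : (Y : ℝ) * (∑ p ∈ Ioc w w', ((p : ℝ) ^ 2)⁻¹) ≤ Y * (w : ℝ)⁻¹ :=
            mul_le_mul_of_nonneg_left (by linarith) (Nat.cast_nonneg _)
          have h6 : ((w' - w : ℕ) : ℝ) ≤ w' := by exact_mod_cast Nat.sub_le _ _
          rw [div_eq_mul_inv]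
          linarith
  · have h3 : ((Ioc Y (2 * Y)).filter fun n => ∃ p ∈ PP w w', p ^ 2 ∣ n + a) = ∅ := by
      refine Finset.filter_eq_empty_iff.2 fun n _ hx => ?_
      obtain ⟨p, hp, -⟩ := hx
      have := hPP p hp
      omega
    rw [h3, card_empty, Nat.cast_zero]
    positivity

private theorem uunw_bB {k w w' : ℕ} (hk : 2 ≤ k) (b : ℕ × ℕ × ℕ) (n : ℕ) : 0 ≤ bB k w w' b n := by
  have hk' : (0 : ℝ) < (k : ℝ) - 1 := by
    have : (2 : ℝ) ≤ k := by exact_mod_cast hk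
    linarith
  unfold bB bS
  refine Finset.sum_nonneg fun p _ => Finset.sum_nonneg fun r _ => Finset.sum_nonneg fun m _ => ?_
  split_ifs
  · refine mul_nonneg ?_ (div_nonneg ?_ (Real.log_natCast_nonneg _))
    · unfold aS
      split_ifs
      · positivity
      · exact le_rfl
    · unfold Pool.Agent.Lib.G3.lp
      split_ifs
      · exact Real.log_natCast_nonneg _
      · exact le_rfl
  · exact le_rfl

private theorem uunw_bB0 {k w w' : ℕ} (b : ℕ × ℕ × ℕ) {n : ℕ}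
    (h : 8 * (2 ^ b.1 * 2 ^ b.2.1 * 2 ^ b.2.2) < n) : bB k w w' b n = 0 := by
  unfold bB bS
  refine Finset.sum_eq_zero fun p hp => Finset.sum_eq_zero fun r hr => Finset.sum_eq_zero fun m hm => ?_
  rw [if_neg]
  intro he
  unfold SI at hp
  rw [mem_filter] at hp
  unfold Pool.Agent.Lib.G3.pr at hr
  rw [mem_filter, mem_Ioc] at hr
  rw [mem_Ico] at hm
  have h1 : p * m * r ≤ 2 ^ (b.1 + 1) * (2 * 2 ^ b.2.1) * (2 * 2 ^ b.2.2) :=
    Nat.mul_le_mul (Nat.mul_le_mul hp.2.2 hm.2.le) hr.1.2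
  have h2 : 2 ^ (b.1 + 1) * (2 * 2 ^ b.2.1) * (2 * 2 ^ b.2.2) = 8 * (2 ^ b.1 * 2 ^ b.2.1 * 2 ^ b.2.2) := by
    rw [pow_succ]
    ring
  omega

private theorem uunw_log {Y k w w' : ℕ} {b : ℕ × ℕ × ℕ} (hk : 2 ≤ k) (hb : b ∈ IY Y k w w') (hY : 1 ≤ Y) :
    Real.log Y ≤ 2 + k * Real.log w' + Real.log ((2 * 2 ^ b.2.2 : ℕ) : ℝ) := by
  unfold IY at hb
  rw [mem_filter] at hb
  obtain ⟨hb, hb8⟩ := hb
  unfold Ix at hb
  rw [mem_filter] at hb
  obtain ⟨-, ⟨p, hp⟩, hj, -, -⟩ := hb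
  unfold SI PP at hp
  rw [mem_filter, mem_filter, mem_Ioc] at hp
  have hi : 2 ^ b.1 ≤ w' := by omega
  have hw0 : 1 ≤ w' := le_trans Nat.one_le_two_pow hi
  have h1 : Y ≤ 4 * w' ^ (k - 1) * (2 * 2 ^ b.2.2) := by
    have h2 : 2 ^ b.1 * 2 ^ b.2.1 ≤ w' * w' ^ (k - 2) := Nat.mul_le_mul hi hj
    have h3 : w' * w' ^ (k - 2) = w' ^ (k - 1) := by
      rw [mul_comm, ← pow_succ]
      congr 1
      omega
    rw [h3] at h2
    calc Y ≤ 8 * (2 ^ b.1 * 2 ^ b.2.1 * 2 ^ b.2.2) := hb8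
      _ ≤ 8 * (w' ^ (k - 1) * 2 ^ b.2.2) := Nat.mul_le_mul_left 8 (Nat.mul_le_mul_right _ h2)
      _ = 4 * w' ^ (k - 1) * (2 * 2 ^ b.2.2) := by ring
  have hYp : (0 : ℝ) < Y := by exact_mod_cast hY
  have hw0' : (0 : ℝ) < w' := by exact_mod_cast hw0
  have h4 : (Y : ℝ) ≤ ((4 * w' ^ (k - 1) * (2 * 2 ^ b.2.2) : ℕ) : ℝ) := by exact_mod_cast h1
  have h5 := Real.log_le_log hYp h4
  have hg : (0 : ℝ) < ((2 * 2 ^ b.2.2 : ℕ) : ℝ) := by
    have : 0 < 2 * 2 ^ b.2.2 := by positivity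
    exact_mod_cast this
  have h6 : Real.log ((4 * w' ^ (k - 1) * (2 * 2 ^ b.2.2) : ℕ) : ℝ) =
      Real.log 4 + ((k - 1 : ℕ) : ℝ) * Real.log w' + Real.log ((2 * 2 ^ b.2.2 : ℕ) : ℝ) := by
    rw [Nat.cast_mul, Nat.cast_mul, Nat.cast_pow, Real.log_mul (by positivity) hg.ne', Real.log_mul (by norm_num) (by positivity),
      Real.log_pow]
    norm_num
  have h7 : Real.log 4 ≤ 2 := by
    have : Real.log 4 = 2 * Real.log 2 := by
      rw [show (4 : ℝ) = 2 ^ 2 by norm_num, Real.log_pow]; norm_num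
    rw [this]
    have := Real.log_two_lt_d9
    linarith
  have h8 : ((k - 1 : ℕ) : ℝ) * Real.log w' ≤ k * Real.log w' := by
    refine mul_le_mul_of_nonneg_right ?_ (Real.log_natCast_nonneg _)
    exact_mod_cast Nat.sub_le k 1
  linarith

/-- the pointwise bounds -/
private theorem uunw_pt (k c1 d : ℕ) (hk : 1 ≤ k) : ∃ x0 : ℝ, ∀ Y w w' : ℕ, x0 ≤ Y → Rg (4 * Y) w w' c1 d → ∀ n : ℕ,
    Y < n → n ≤ 3 * Y → (0 ≤ Gx Y w w' k n ∧ Gx Y w w' k n ≤ 1) ∧
      (EE k w w' n → 1 - (9 + ((k * d : ℕ) : ℝ) * (1 + Real.log (Real.log Y))) / Real.log Y ≤ Gx Y w w' k n) ∧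
      (¬ EE k w w' n → Gx Y w w' k n ≠ 0 → ∃ p ∈ PP w w', p ^ 2 ∣ n) := by
  classical
  obtain ⟨x1, hx1⟩ := Fk_le k c1 d
  obtain ⟨x2, hx2⟩ := Pool.Agent.Lib.G5.q4 (max k 2) 3 c1 d (le_max_right k 2)
  have hpl : ∀ᶠ x : ℝ in atTop, ‖Real.log x ^ d‖ ≤ (1 / 4) * ‖x‖ :=
    (Real.isLittleO_pow_log_id_atTop (n := d)).def (by norm_num)
  obtain ⟨x3, hx3⟩ := eventually_atTop.1 hpl
  refine ⟨max (max x1 |x2|) (max (max x3 1) (Real.exp 1296)), fun Y w w' hY hR n hn1 hn3 => ?_⟩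
  have hY1 : x1 ≤ Y := (le_max_left _ _).trans ((le_max_left _ _).trans hY)
  have hY2 : |x2| ≤ Y := (le_max_right _ _).trans ((le_max_left _ _).trans hY)
  have hY3 : x3 ≤ Y := (le_max_left _ _).trans ((le_max_left _ _).trans ((le_max_right _ _).trans hY))
  have hY4 : Real.exp 1296 ≤ Y := (le_max_right _ _).trans ((le_max_right _ _).trans hY)
  have hYpos : (0 : ℝ) < Y := lt_of_lt_of_le (Real.exp_pos _) hY4
  have hYnat : 1 ≤ Y := by exact_mod_cast hYpos
  set L : ℝ := Real.log Y with hLdef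
  have hL : (1296 : ℝ) ≤ L := by
    rw [hLdef, Real.le_log_iff_exp_le hYpos]; exact hY4
  have hLpos : (0 : ℝ) < L := by linarith
  have hlogL : 0 ≤ Real.log L := Real.log_nonneg (by linarith)
  have hlog32 : Real.log 32 ≤ 5 := by
    have : Real.log 32 = 5 * Real.log 2 := by
      rw [show (32 : ℝ) = 2 ^ 5 by norm_num, Real.log_pow]; norm_num
    rw [this]
    have := Real.log_two_lt_d9
    linarith
  have hX : Real.log ((32 * Y : ℕ) : ℝ) = Real.log 32 + L := by
    rw [Nat.cast_mul, Real.log_mul (by norm_num) hYpos.ne']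
    norm_num
    rfl
  have hlog32' : 0 ≤ Real.log 32 := Real.log_nonneg (by norm_num)
  have hXpos : 0 < Real.log ((32 * Y : ℕ) : ℝ) := by rw [hX]; linarith
  have hX5 : Real.log ((32 * Y : ℕ) : ℝ) ≤ L + 5 := by rw [hX]; linarith
  have hlog4 : Real.log 4 ≤ 2 := by
    have : Real.log 4 = 2 * Real.log 2 := by
      rw [show (4 : ℝ) = 2 ^ 2 by norm_num, Real.log_pow]; norm_num
    rw [this]
    have := Real.log_two_lt_d9
    linarith
  have hlog4' : 0 ≤ Real.log 4 := Real.log_nonneg (by norm_num)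
  have h4Y : Real.log ((4 * Y : ℕ) : ℝ) = Real.log 4 + L := by
    rw [Nat.cast_mul, Real.log_mul (by norm_num) hYpos.ne']
    norm_num
    rfl
  have h4Ypos : 0 < Real.log ((4 * Y : ℕ) : ℝ) := by rw [h4Y]; linarith
  have h4YL : L ≤ Real.log ((4 * Y : ℕ) : ℝ) := by rw [h4Y]; linarith
  have h4Y2 : Real.log ((4 * Y : ℕ) : ℝ) ≤ 2 * L := by rw [h4Y]; linarith
  have hnX : n ≤ 32 * Y := by omega
  have hnpos : (0 : ℝ) < (n : ℝ) := by
    have : 0 < n := by omega
    exact_mod_cast this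
  -- the defect
  set D : ℝ := (9 + ((k * d : ℕ) : ℝ) * (1 + Real.log L)) / L with hD
  have hkd : (0 : ℝ) ≤ ((k * d : ℕ) : ℝ) * (1 + Real.log L) := by positivity
  have hDL : D * L = 9 + ((k * d : ℕ) : ℝ) * (1 + Real.log L) := by
    rw [hD]; field_simp
  have hD0 : 0 ≤ D := by rw [hD]; positivity
  by_cases hk1 : k = 1
  · subst hk1
    have hw'Y : w' ≤ Y := by
      have h1 := hx3 ((4 * Y : ℕ) : ℝ) (hY3.trans (by push_cast; linarith))
      rw [Real.norm_of_nonneg (by positivity), Real.norm_of_nonneg (by positivity)] at h1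
      have h2 := hR.h3.trans h1
      push_cast at h2
      have h3 : (w' : ℝ) ≤ Y := by linarith
      exact_mod_cast h3
    have hE : EE 1 w w' n ↔ n.Prime := uunw_EE1 hR.h2 (by omega)
    have hG : Gx Y w w' 1 n = lp n / Real.log ((32 * Y : ℕ) : ℝ) := by
      unfold Gx
      rw [if_pos rfl, if_pos hnX]
    have hlogn : Real.log (n : ℝ) ≤ Real.log ((32 * Y : ℕ) : ℝ) :=
      Real.log_le_log hnpos (by exact_mod_cast hnX)
    rw [hG]
    by_cases hp : n.Prime
    · have hlp : lp n = Real.log n := by unfold Pool.Agent.Lib.G3.lp; rw [if_pos hp]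
      rw [hlp]
      have h3 : L ≤ Real.log (n : ℝ) := Real.log_le_log hYpos (by exact_mod_cast hn1.le)
      refine ⟨⟨div_nonneg (by linarith) hXpos.le, ?_⟩, fun _ => ?_, fun h => absurd (hE.2 hp) h⟩
      · rw [div_le_one hXpos]; exact hlogn
      · rw [le_div_iff₀ hXpos]
        by_cases hD1 : D ≤ 1
        · have h4 : (1 - D) * Real.log ((32 * Y : ℕ) : ℝ) ≤ (1 - D) * (L + 5) :=
            mul_le_mul_of_nonneg_left hX5 (by linarith)
          have h5 : (1 - D) * (L + 5) = L + 5 - D * L - 5 * D := by ring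
          rw [hDL] at h5
          linarith
        · have h4 : (1 - D) * Real.log ((32 * Y : ℕ) : ℝ) ≤ 0 :=
            mul_nonpos_of_nonpos_of_nonneg (by linarith) hXpos.le
          linarith
    · have hlp : lp n = 0 := by unfold Pool.Agent.Lib.G3.lp; rw [if_neg hp]
      rw [hlp, zero_div]
      exact ⟨⟨le_rfl, zero_le_one⟩, fun h => absurd (hE.1 h) hp, fun _ h => absurd rfl h⟩
  · have hk2 : 2 ≤ k := by omega
    have hG : Gx Y w w' k n = Fk Y k w w' n := by
      unfold Gx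
      rw [if_neg hk1]
    rw [hG]
    obtain ⟨hF0, hF1, -⟩ := hx1 Y hY1 w w' hR k hk2 le_rfl n
    have hx2' : x2 ≤ ((4 * Y : ℕ) : ℝ) := by
      have := le_abs_self x2
      push_cast
      linarith
    have hq := hx2 (4 * Y) hx2' w w' hR n (by omega)
    rw [max_eq_left hk2] at hq
    obtain ⟨-, hqb, hqc⟩ := hq
    have hsum : ∑ b ∈ Ix (4 * Y) 3 k w w', bB k w w' b n = ∑ b ∈ IY Y k w w', bB k w w' b n := by
      unfold IY
      rw [Finset.sum_filter]
      refine sum_congr rfl fun b _ => ?_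
      by_cases hb : Y ≤ 8 * (2 ^ b.1 * 2 ^ b.2.1 * 2 ^ b.2.2)
      · rw [if_pos hb]
      · rw [if_neg hb]
        exact uunw_bB0 b (by omega)
    have hnn := fun b => uunw_bB (w := w) (w' := w') hk2 b n
    refine ⟨⟨hF0, hF1⟩, fun hE => ?_, fun hE hne => ?_⟩
    · have h1 : 1 - 2 / Real.log ((4 * Y : ℕ) : ℝ) ≤ ∑ b ∈ IY Y k w w', bB k w w' b n := by
        rw [← hsum]
        refine hqc hE ?_ (by omega)
        rw [div_le_iff₀ (by positivity)]
        have h2 : (32 : ℝ) ≤ (Real.log ((4 * Y : ℕ) : ℝ)) ^ 3 := by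
          calc (32 : ℝ) ≤ 1296 ^ 3 := by norm_num
            _ ≤ _ := pow_le_pow_left₀ (by norm_num) (by linarith) 3
        have h3 : (Y : ℝ) ≤ n := by exact_mod_cast hn1.le
        calc 8 * ((4 * Y : ℕ) : ℝ) = Y * 32 := by push_cast; ring
          _ ≤ n * (Real.log ((4 * Y : ℕ) : ℝ)) ^ 3 := mul_le_mul h3 h2 (by norm_num) (Nat.cast_nonneg _)
      set D' : ℝ := (7 + ((k * d : ℕ) : ℝ) * (1 + Real.log L)) / L with hD'
      have hD'L : D' * L = 7 + ((k * d : ℕ) : ℝ) * (1 + Real.log L) := by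
        rw [hD']; field_simp
      have hD'0 : 0 ≤ D' := by rw [hD']; positivity
      have hDD : D = D' + 2 / L := by rw [hD, hD', ← add_div]; ring_nf
      have hcoef : ∀ b ∈ IY Y k w w', 1 - D' ≤ Real.log ((2 * 2 ^ b.2.2 : ℕ) : ℝ) / Real.log ((32 * Y : ℕ) : ℝ) := by
        intro b hb
        have h2 := uunw_log hk2 hb hYnat
        have hg0 : 0 ≤ Real.log ((2 * 2 ^ b.2.2 : ℕ) : ℝ) := Real.log_natCast_nonneg _
        have hlw : Real.log (w' : ℝ) ≤ d * (1 + Real.log L) := by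
          by_cases hw0 : w' = 0
          · rw [hw0]
            simp only [Nat.cast_zero, Real.log_zero]
            positivity
          · have hw0' : (0 : ℝ) < w' := by
              have : 0 < w' := Nat.pos_of_ne_zero hw0
              exact_mod_cast this
            have h3 := Real.log_le_log hw0' hR.h3
            rw [Real.log_pow] at h3
            refine h3.trans (mul_le_mul_of_nonneg_left ?_ (Nat.cast_nonneg _))
            have h4 := Real.log_le_log h4Ypos h4Y2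
            rw [Real.log_mul (by norm_num) hLpos.ne'] at h4
            have := Real.log_two_lt_d9
            linarith
        have h5 : (k : ℝ) * Real.log w' ≤ ((k * d : ℕ) : ℝ) * (1 + Real.log L) := by
          calc (k : ℝ) * Real.log w' ≤ k * (d * (1 + Real.log L)) :=
                mul_le_mul_of_nonneg_left hlw (Nat.cast_nonneg _)
            _ = _ := by push_cast; ring
        rw [le_div_iff₀ hXpos]
        by_cases hD1 : D' ≤ 1
        · have h6 : (1 - D') * Real.log ((32 * Y : ℕ) : ℝ) ≤ (1 - D') * (L + 5) :=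
            mul_le_mul_of_nonneg_left hX5 (by linarith)
          have h7 : (1 - D') * (L + 5) = L + 5 - D' * L - 5 * D' := by ring
          rw [hD'L] at h7
          linarith
        · have h6 : (1 - D') * Real.log ((32 * Y : ℕ) : ℝ) ≤ 0 :=
            mul_nonpos_of_nonpos_of_nonneg (by linarith) hXpos.le
          linarith
      have h8 : (1 - D') * ∑ b ∈ IY Y k w w', bB k w w' b n ≤ Fk Y k w w' n := by
        unfold Fk
        rw [Finset.mul_sum]
        exact Finset.sum_le_sum fun b hb => mul_le_mul_of_nonneg_right (hcoef b hb) (hnn b)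
      have h9 : 2 / Real.log ((4 * Y : ℕ) : ℝ) ≤ 2 / L := by
        rw [div_le_div_iff_of_pos_left (by norm_num) h4Ypos hLpos]
        exact h4YL
      have h10 : 0 ≤ 2 / L := by positivity
      rw [hDD]
      by_cases hD1 : D' ≤ 1
      · have h11 : (1 - D') * (1 - 2 / L) ≤ (1 - D') * ∑ b ∈ IY Y k w w', bB k w w' b n :=
          mul_le_mul_of_nonneg_left (by linarith) (by linarith)
        have h12 : 0 ≤ D' * (2 / L) := mul_nonneg hD'0 h10
        have h13 : (1 - D') * (1 - 2 / L) = 1 - (D' + 2 / L) + D' * (2 / L) := by ring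
        linarith
      · linarith
    · have h1 : ∑ b ∈ Ix (4 * Y) 3 k w w', bB k w w' b n ≠ 0 := by
        rw [hsum]
        intro h0
        apply hne
        unfold Fk
        refine Finset.sum_eq_zero fun b hb => ?_
        rw [(Finset.sum_eq_zero_iff_of_nonneg fun b _ => hnn b).1 h0 b hb, mul_zero]
      rcases hqb h1 with h | h
      · exact absurd h hE
      · exact h

theorem unwK {m : ℕ} (κ : Fin m → ℕ) (hκ : ∀ i, 1 ≤ κ i) (c1 d : ℕ) (hc1 : 3 ≤ c1) : ∃ x0 : ℝ, ∀ Y w w' : ℕ, x0 ≤ Y →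
    Rg (4 * Y) w w' (c1 + 1) d → ∀ h : Fin m → ℕ, (∀ i, h i ≤ Y) →
      (1 - 1 / Real.sqrt (Real.log Y)) * Real.log Y * cntK Y w w' κ h ≤ wcK Y w w' κ h ∧
        wcK Y w w' κ h ≤ (1 + 1 / Real.sqrt (Real.log Y)) * Real.log Y * cntK Y w w' κ h + Y / (Real.log Y) ^ (c1 - 2) := by
  classical
  choose x hx using fun i => uunw_pt (κ i) (c1 + 1) d (hκ i)
  set K : ℕ := ∑ i, κ i with hK
  obtain ⟨L0, hL0, hasy⟩ := uunw_asy m (K * d)
  have hpl : ∀ᶠ x : ℝ in atTop, ‖Real.log x ^ (d + 1 + (c1 - 2))‖ ≤ (1 / ((4 * m + 1) * 2 ^ d)) * ‖x‖ :=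
    (Real.isLittleO_pow_log_id_atTop (n := d + 1 + (c1 - 2))).def (by positivity)
  obtain ⟨x3, hx3⟩ := eventually_atTop.1 hpl
  refine ⟨max (max (∑ i, |x i|) x3) (max (Real.exp L0) (Real.exp (4 * m + 1))), ?_⟩
  intro Y w w' hY hR h hh
  have hYx : ∀ i, x i ≤ Y := fun i => (le_abs_self _).trans
    ((Finset.single_le_sum (f := fun i => |x i|) (fun i _ => abs_nonneg _) (mem_univ i)).trans
      ((le_max_left _ _).trans ((le_max_left _ _).trans hY)))
  have hY3 : x3 ≤ Y := (le_max_right _ _).trans ((le_max_left _ _).trans hY)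
  have hYexp : Real.exp L0 ≤ (Y : ℝ) := (le_max_left _ _).trans ((le_max_right _ _).trans hY)
  have hYexp2 : Real.exp (4 * m + 1) ≤ (Y : ℝ) := (le_max_right _ _).trans ((le_max_right _ _).trans hY)
  have hYpos : (0 : ℝ) < Y := lt_of_lt_of_le (Real.exp_pos _) hYexp
  have hYnat : 0 < Y := by exact_mod_cast hYpos
  set L : ℝ := Real.log Y with hLdef
  have hLL0 : L0 ≤ L := by
    rw [hLdef, Real.le_log_iff_exp_le hYpos]; exact hYexp
  have hLm : (4 * m + 1 : ℝ) ≤ L := by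
    rw [hLdef, Real.le_log_iff_exp_le hYpos]; exact hYexp2
  have hL : (1296 : ℝ) ≤ L := le_trans hL0 hLL0
  have hLpos : (0 : ℝ) < L := by linarith
  have hsq := hasy L hLL0
  have hsqpos : 0 < Real.sqrt L := Real.sqrt_pos.mpr hLpos
  have hsqsq : Real.sqrt L * Real.sqrt L = L := Real.mul_self_sqrt hLpos.le
  have hsq1 : 1 ≤ Real.sqrt L := by
    rw [Real.le_sqrt' (by norm_num)]; linarith
  have hlogL : 0 ≤ Real.log L := Real.log_nonneg (by linarith)
  have hm : (0 : ℝ) ≤ m := Nat.cast_nonneg m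
  have hlog2 := Real.log_two_lt_d9
  have hlog2' : 0 ≤ Real.log 2 := Real.log_nonneg (by norm_num)
  -- the defect
  set D : ℝ := (9 + ((K * d : ℕ) : ℝ) * (1 + Real.log L)) / L with hD
  have hD0 : 0 ≤ D := by
    rw [hD]; positivity
  have hDm : ((m : ℝ) + 1) * D ≤ 1 / Real.sqrt L := by
    rw [le_div_iff₀ hsqpos, hD]
    rw [show ((m : ℝ) + 1) * ((9 + ((K * d : ℕ) : ℝ) * (1 + Real.log L)) / L) * Real.sqrt L =
      (((m : ℝ) + 1) * (9 + ((K * d : ℕ) : ℝ) * (1 + Real.log L))) * Real.sqrt L / L by ring]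
    rw [div_le_one hLpos]
    calc _ ≤ Real.sqrt L * Real.sqrt L := mul_le_mul_of_nonneg_right hsq hsqpos.le
      _ = L := hsqsq
  have hinv1 : 1 / Real.sqrt L ≤ 1 := by
    rw [div_le_one hsqpos]; exact hsq1
  have hD1 : D ≤ 1 := by
    have : D ≤ ((m : ℝ) + 1) * D := by nlinarith
    linarith
  -- the pointwise bounds
  have hval : ∀ n ∈ Ioc Y (2 * Y), ∀ i, (0 ≤ Gx Y w w' (κ i) (n + h i) ∧ Gx Y w w' (κ i) (n + h i) ≤ 1) ∧
      (EE (κ i) w w' (n + h i) → 1 - D ≤ Gx Y w w' (κ i) (n + h i)) ∧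
      (¬ EE (κ i) w w' (n + h i) → Gx Y w w' (κ i) (n + h i) ≠ 0 → ∃ p ∈ PP w w', p ^ 2 ∣ n + h i) := by
    intro n hn i
    rw [mem_Ioc] at hn
    have hhi := hh i
    obtain ⟨h1, h2, h3⟩ := hx i Y w w' (hYx i) hR (n + h i) (by omega) (by omega)
    refine ⟨h1, fun hE => ?_, h3⟩
    refine le_trans ?_ (h2 hE)
    have hKi : κ i ≤ K := by
      rw [hK]
      exact Finset.single_le_sum (f := κ) (fun i _ => Nat.zero_le _) (mem_univ i)
    have h4 : (((κ i) * d : ℕ) : ℝ) ≤ ((K * d : ℕ) : ℝ) := by exact_mod_cast Nat.mul_le_mul_right d hKi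
    have h5 : (9 + (((κ i) * d : ℕ) : ℝ) * (1 + Real.log L)) / L ≤ D := by
      rw [hD]
      refine div_le_div_of_nonneg_right ?_ hLpos.le
      have := mul_le_mul_of_nonneg_right h4 (show (0 : ℝ) ≤ 1 + Real.log L by linarith)
      linarith
    linarith
  have hlp0 : ∀ n : ℕ, 0 ≤ lp n := by
    intro n
    unfold Pool.Agent.Lib.G3.lp
    split_ifs
    · exact Real.log_natCast_nonneg n
    · exact le_rfl
  have hlp2 : ∀ n ∈ Ioc Y (2 * Y), lp n ≤ Real.log 2 + L := by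
    intro n hn
    rw [mem_Ioc] at hn
    unfold Pool.Agent.Lib.G3.lp
    split_ifs
    · have hnpos : (0 : ℝ) < n := by
        have : 0 < n := by omega
        exact_mod_cast this
      have h1 : (n : ℝ) ≤ 2 * Y := by exact_mod_cast hn.2
      have h3 := Real.log_le_log hnpos h1
      rwa [Real.log_mul (by norm_num) hYpos.ne'] at h3
    · linarith
  have hprod01 : ∀ n ∈ Ioc Y (2 * Y), 0 ≤ ∏ i, Gx Y w w' (κ i) (n + h i) ∧ ∏ i, Gx Y w w' (κ i) (n + h i) ≤ 1 := by
    intro n hn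
    exact ⟨Finset.prod_nonneg fun i _ => (hval n hn i).1.1,
      Finset.prod_le_one (fun i _ => (hval n hn i).1.1) fun i _ => (hval n hn i).1.2⟩
  set G : Finset ℕ := (Ioc Y (2 * Y)).filter fun n => n.Prime ∧ ∀ i, EE (κ i) w w' (n + h i) with hG
  have hcnt : cntK Y w w' κ h = G.card := by
    unfold cntK
    rw [hG]
  rw [hcnt]
  constructor
  · -- lower bound
    have hterm : ∀ n ∈ G, (1 - 1 / Real.sqrt L) * L ≤ lp n * ∏ i, Gx Y w w' (κ i) (n + h i) := by
      intro n hn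
      rw [hG, mem_filter] at hn
      obtain ⟨hnI, hnp, hni⟩ := hn
      have hnI' := mem_Ioc.mp hnI
      have hlpn : lp n = Real.log n := by unfold Pool.Agent.Lib.G3.lp; rw [if_pos hnp]
      have hl1 : L ≤ Real.log n := Real.log_le_log hYpos (by exact_mod_cast hnI'.1.le)
      have hprod2 : 1 - 1 / Real.sqrt L ≤ ∏ i, Gx Y w w' (κ i) (n + h i) := by
        have h3 : ∏ _i : Fin m, (1 - D) ≤ ∏ i, Gx Y w w' (κ i) (n + h i) :=
          Finset.prod_le_prod (fun i _ => by linarith) (fun i _ => (hval n hnI i).2.1 (hni i))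
        rw [Finset.prod_const, Finset.card_univ, Fintype.card_fin] at h3
        have h4 : 1 + (m : ℝ) * (-D) ≤ (1 + (-D)) ^ m :=
          one_add_mul_le_pow (by linarith) m
        have h5 : (m : ℝ) * D ≤ 1 / Real.sqrt L := by nlinarith
        have e : (1 + (-D)) ^ m = (1 - D) ^ m := by ring_nf
        rw [e] at h4
        linarith
      rw [hlpn, mul_comm]
      exact mul_le_mul hl1 hprod2 (by linarith) (by linarith)
    have h1 := Finset.card_nsmul_le_sum G _ _ hterm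
    rw [nsmul_eq_mul] at h1
    have h2 : ∑ n ∈ G, lp n * ∏ i, Gx Y w w' (κ i) (n + h i) ≤ wcK Y w w' κ h := by
      unfold wcK
      refine Finset.sum_le_sum_of_subset_of_nonneg (filter_subset _ _) fun n hn _ => ?_
      exact mul_nonneg (hlp0 n) (hprod01 n hn).1
    rw [mul_comm]
    exact h1.trans h2
  · -- upper bound
    set B : Fin m → Finset ℕ := fun i => (Ioc Y (2 * Y)).filter fun n => ∃ p ∈ PP w w', p ^ 2 ∣ n + h i with hB
    have hterm : ∀ n ∈ Ioc Y (2 * Y), lp n * ∏ i, Gx Y w w' (κ i) (n + h i) ≤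
        (if n ∈ G then (1 + 1 / Real.sqrt L) * L else 0) + ∑ i, if n ∈ B i then 2 * L else 0 := by
      intro n hn
      have hs0 : 0 ≤ ∑ i, if n ∈ B i then 2 * L else 0 := by
        refine Finset.sum_nonneg fun i _ => ?_
        split_ifs <;> linarith
      by_cases hp : n.Prime
      · by_cases hall : ∀ i, EE (κ i) w w' (n + h i)
        · have hnG : n ∈ G := by rw [hG, mem_filter]; exact ⟨hn, hp, hall⟩
          rw [if_pos hnG]
          have h6 : lp n * ∏ i, Gx Y w w' (κ i) (n + h i) ≤ (Real.log 2 + L) * 1 :=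
            mul_le_mul (hlp2 n hn) (hprod01 n hn).2 (hprod01 n hn).1 (by linarith)
          have h7 : 1 / Real.sqrt L * L = Real.sqrt L := by
            rw [one_div, inv_mul_eq_div, div_eq_iff hsqpos.ne']
            exact hsqsq.symm
          have e : (1 + 1 / Real.sqrt L) * L = L + Real.sqrt L := by rw [add_mul, h7, one_mul]
          rw [e]
          linarith
        · push Not at hall
          obtain ⟨i, hi⟩ := hall
          have hg0 : 0 ≤ (if n ∈ G then (1 + 1 / Real.sqrt L) * L else 0) := by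
            split_ifs <;> positivity
          by_cases hz : Gx Y w w' (κ i) (n + h i) = 0
          · rw [Finset.prod_eq_zero (mem_univ i) hz, mul_zero]
            linarith
          · have hnB : n ∈ B i := by
              simp only [hB, mem_filter]
              exact ⟨hn, (hval n hn i).2.2 hi hz⟩
            have h6 : lp n * ∏ i, Gx Y w w' (κ i) (n + h i) ≤ (Real.log 2 + L) * 1 :=
              mul_le_mul (hlp2 n hn) (hprod01 n hn).2 (hprod01 n hn).1 (by linarith)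
            have h7 : (2 * L) ≤ ∑ i, if n ∈ B i then 2 * L else 0 := by
              have h8 : (if n ∈ B i then 2 * L else 0) ≤ ∑ i, if n ∈ B i then 2 * L else 0 :=
                Finset.single_le_sum (f := fun i => if n ∈ B i then 2 * L else 0)
                  (fun i _ => by split_ifs <;> linarith) (mem_univ i)
              rwa [if_pos hnB] at h8
            linarith
      · have hlp : lp n = 0 := by unfold Pool.Agent.Lib.G3.lp; rw [if_neg hp]
        rw [hlp, zero_mul]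
        have hg0 : 0 ≤ (if n ∈ G then (1 + 1 / Real.sqrt L) * L else 0) := by
          split_ifs <;> positivity
        linarith
    have hw1 : 1 ≤ w := by
      have h1 : (1 : ℝ) ≤ w := by
        refine le_trans ?_ hR.h1
        refine one_le_pow₀ ?_
        have h2 : Real.log Y ≤ Real.log ((4 * Y : ℕ) : ℝ) :=
          Real.log_le_log hYpos (by push_cast; linarith)
        linarith
      exact_mod_cast h1
    have hBcard : ∀ i, (((B i).card : ℕ) : ℝ) ≤ (Y : ℝ) / w + w' := fun i => uunw_sq Y w w' (h i) hw1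
    have hstep : wcK Y w w' κ h ≤ (1 + 1 / Real.sqrt L) * L * G.card + m * (2 * L * ((Y : ℝ) / w + w')) := by
      unfold wcK
      refine (Finset.sum_le_sum hterm).trans ?_
      rw [Finset.sum_add_distrib, Finset.sum_comm]
      refine add_le_add ?_ ?_
      · rw [Finset.sum_ite_mem, Finset.sum_const, nsmul_eq_mul, mul_comm]
        refine mul_le_mul_of_nonneg_left ?_ (by positivity)
        exact_mod_cast card_le_card inter_subset_right
      · calc ∑ i, ∑ n ∈ Ioc Y (2 * Y), (if n ∈ B i then 2 * L else 0) ≤ ∑ _i : Fin m, 2 * L * ((Y : ℝ) / w + w') := by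
              refine Finset.sum_le_sum fun i _ => ?_
              rw [Finset.sum_ite_mem, Finset.sum_const, nsmul_eq_mul, mul_comm]
              refine mul_le_mul_of_nonneg_left ?_ (by positivity)
              refine le_trans ?_ (hBcard i)
              exact_mod_cast card_le_card inter_subset_right
          _ = m * (2 * L * ((Y : ℝ) / w + w')) := by
              rw [Finset.sum_const, Finset.card_univ, Fintype.card_fin, nsmul_eq_mul]
    refine hstep.trans ?_
    -- the error term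
    have h4YL : L ≤ Real.log ((4 * Y : ℕ) : ℝ) := by
      rw [hLdef]
      exact Real.log_le_log hYpos (by push_cast; linarith)
    have h4Y2 : Real.log ((4 * Y : ℕ) : ℝ) ≤ 2 * L := by
      have h4Y : Real.log ((4 * Y : ℕ) : ℝ) = Real.log 4 + L := by
        rw [Nat.cast_mul, Real.log_mul (by norm_num) hYpos.ne']
        norm_num
        rfl
      have : Real.log 4 = 2 * Real.log 2 := by
        rw [show (4 : ℝ) = 2 ^ 2 by norm_num, Real.log_pow]; norm_num
      linarith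
    obtain ⟨c, rfl⟩ : ∃ c, c1 = c + 3 := ⟨c1 - 3, by omega⟩
    have hc2 : c + 3 - 2 = c + 1 := by omega
    rw [hc2] at hx3 ⊢
    have hwl : L ^ (c + 5) ≤ w := by
      refine le_trans ?_ hR.h1
      have : c + 3 + 1 + 1 = c + 5 := by ring
      rw [this]
      exact pow_le_pow_left₀ hLpos.le h4YL _
    have hw0 : (0 : ℝ) < w := by exact_mod_cast hw1
    have hwu : (w' : ℝ) ≤ 2 ^ d * L ^ d := by
      calc (w' : ℝ) ≤ (Real.log ((4 * Y : ℕ) : ℝ)) ^ d := hR.h3
        _ ≤ (2 * L) ^ d := pow_le_pow_left₀ (by linarith) h4Y2 _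
        _ = 2 ^ d * L ^ d := by rw [mul_pow]
    have ha : (m : ℝ) * (2 * L * ((Y : ℝ) / w)) ≤ Y / L ^ (c + 1) / 2 := by
      have h1 : (Y : ℝ) / w ≤ Y / L ^ (c + 5) := div_le_div_of_nonneg_left hYpos.le (by positivity) hwl
      have h2 : (m : ℝ) * (2 * L * ((Y : ℝ) / w)) ≤ m * (2 * L * (Y / L ^ (c + 5))) := by gcongr
      refine h2.trans ?_
      have h3 : (m : ℝ) * (2 * L * (Y / L ^ (c + 5))) = (Y / L ^ (c + 1)) * (2 * m / L ^ 3) := by
        have e5 : L ^ (c + 5) = L ^ (c + 1) * L ^ 3 * L := by ring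
        rw [e5]
        field_simp
      rw [h3]
      have h4 : 2 * (m : ℝ) / L ^ 3 ≤ 1 / 2 := by
        rw [div_le_div_iff₀ (by positivity) (by norm_num)]
        have h5 : L ≤ L ^ 3 := le_self_pow₀ (by linarith) (by norm_num)
        linarith
      have h6 : (Y / L ^ (c + 1)) * (2 * m / L ^ 3) ≤ (Y / L ^ (c + 1)) * (1 / 2) :=
        mul_le_mul_of_nonneg_left h4 (by positivity)
      linarith
    have hb : (m : ℝ) * (2 * L * (w' : ℝ)) ≤ Y / L ^ (c + 1) / 2 := by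
      have h1 := hx3 Y hY3
      rw [← hLdef, Real.norm_of_nonneg (by positivity), Real.norm_of_nonneg (by positivity)] at h1
      rw [div_div, le_div_iff₀ (by positivity)]
      have h2 : (m : ℝ) * (2 * L * (w' : ℝ)) ≤ m * (2 * L * (2 ^ d * L ^ d)) := by gcongr
      have h3 : (m : ℝ) * (2 * L * (2 ^ d * L ^ d)) * (L ^ (c + 1) * 2) = (4 * m * 2 ^ d) * L ^ (d + 1 + (c + 1)) := by
        rw [pow_add L (d + 1) (c + 1), pow_succ L d]
        ring
      calc (m : ℝ) * (2 * L * (w' : ℝ)) * (L ^ (c + 1) * 2) ≤ m * (2 * L * (2 ^ d * L ^ d)) * (L ^ (c + 1) * 2) :=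
            mul_le_mul_of_nonneg_right h2 (by positivity)
        _ = (4 * m * 2 ^ d) * L ^ (d + 1 + (c + 1)) := h3
        _ ≤ (4 * m * 2 ^ d) * (1 / ((4 * m + 1) * 2 ^ d) * Y) := mul_le_mul_of_nonneg_left h1 (by positivity)
        _ = (4 * m / (4 * m + 1)) * Y := by field_simp
        _ ≤ 1 * Y := by
            refine mul_le_mul_of_nonneg_right ?_ hYpos.le
            rw [div_le_one (by positivity)]
            linarith
        _ = Y := one_mul _
    have e : (m : ℝ) * (2 * L * ((Y : ℝ) / w + w')) = m * (2 * L * ((Y : ℝ) / w)) + m * (2 * L * (w' : ℝ)) := by ring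
    rw [e]
    linarith

end Pool.Agent.Lib.VKT
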