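import Pool.Agent.Lib.VK.UVs
import Pool.Agent.Lib.G5.Q0
import Pool.Agent.Lib.G3.VbA

/-!
# VK / UVar (phase 2): the local mean square of `Fk` minus its model

PROOF. `Z = 32Y`, `l = log Z`. `Fk - rk ram = ∑_{b ∈ IY} a_b (bB b - rhoS ... ram)`, `a_b = log(2·2^g)/l ∈ [0, 1]`. Every `b ∈ IY` satisfies `BlkZ (32Y) ... (c1) (d+1) (cM)`
with `P = 2^i`, `M = 2^j`, `R = 2^g`, `S = SI w w' i`, `a = aS`, `cM = d(K-2) + 2`: from `G5.q0 k 3 c1 d` at `4Y` (all conditions of `BlkS (4Y)`); change of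
`log 4Y` to `l`: `hP1`: use `c1` of varS and `Rg (4Y) w w' (c1+1) d`-strength: `(log 4Y)^(c1+1) ≥ l^c1` for large `Y`, so take `c1 + 1` in the place of `c1` for q0;
`(log 4Y)^d ≤ l^(d)`; `hR1`: `8·2^(i+j+g) ≤ 8·4Y = 32Y`; `hR2`: `32Y ≤ 256·2^(i+j+g)` as `Y ≤ 8·2^(i+j+g)`. By `G3.VV_sum_le` (or Cauchy) `VV(sum) ≤ card · ∑ VV ≤
(log 4Y)^8 Z H'^2/l^(A+8)`: use varS with `A + 9`. (`card IY ≤ card (Ix (4Y) 3 k w w') ≤ (log 4Y)^4` by q0.)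
Here `Rg (4Y) w w' (c1 + 1) d` is assumed.
-/

set_option autoImplicit false

open Finset Filter

namespace Pool.Agent.Lib.VKT

open Pool.Agent.Lib.G3 (VV)
open Pool.Agent.Lib.G5 (bS PP aS sg1 esy SI Ix bB sgK EE Rg)

private theorem uvar_scale (a : ℝ) (ha0 : 0 ≤ a) (ha1 : a ≤ 1) (f : ℕ → ℂ) (H : ℕ) (α : ℝ) (Y : ℕ) :
    VV (fun n => (a : ℂ) * f n) H α Y ≤ VV f H α Y := by
  unfold Pool.Agent.Lib.G3.VV
  refine sum_le_sum fun y _ => ?_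
  have h1 : Pool.Agent.Lib.G3.WW (fun n => (a : ℂ) * f n) H α y = (a : ℂ) * Pool.Agent.Lib.G3.WW f H α y := by
    unfold Pool.Agent.Lib.G3.WW
    rw [mul_sum]
    exact sum_congr rfl fun n _ => by ring
  rw [h1, norm_mul, Complex.norm_real, Real.norm_of_nonneg ha0, mul_pow]
  have h2 : a ^ 2 ≤ 1 := pow_le_one₀ ha0 ha1
  nlinarith [sq_nonneg ‖Pool.Agent.Lib.G3.WW f H α y‖]

/-- the conditions at `4Y` give the conditions at `32Y` -/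
private theorem uvar_blk {Y P R M : ℕ} {S : Finset ℕ} {a : ℕ → ℝ} {e c1 d cM cM' : ℕ}
    (h : Pool.Agent.Lib.G5.BlkS (4 * Y) P R M S a e (c1 + 1) d cM) (hY : Y ≤ 8 * (P * M * R)) (hc : cM ≤ cM')
    (hl1 : 1 ≤ Real.log (4 * Y : ℕ)) (hl2 : Real.log (4 * Y : ℕ) ≤ Real.log (32 * Y : ℕ))
    (hl3 : (Real.log (32 * Y : ℕ)) ^ c1 ≤ (Real.log (4 * Y : ℕ)) ^ (c1 + 1)) :
    BlkZ (32 * Y) P R M S a c1 (d + 1) cM' := by
  have hL : 1 ≤ Real.log (32 * Y : ℕ) := hl1.trans hl2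
  have hpow : ∀ m n : ℕ, m ≤ n → (Real.log (4 * Y : ℕ)) ^ m ≤ (Real.log (32 * Y : ℕ)) ^ n := fun m n hmn =>
    (pow_le_pow_left₀ (by linarith) hl2 m).trans (pow_le_pow_right₀ hL hmn)
  refine ⟨?_, ?_, h.hM1, ?_, ?_, ?_, h.hS, h.ha, ?_, h.hb⟩
  · exact le_trans (by linarith) h.hP1
  · exact h.hP2.trans (by linarith [hpow d (d + 1) (Nat.le_succ d)])
  · exact h.hM2.trans (hpow _ _ hc)
  · have := h.hR2
    omega
  · omega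
  · intro m hm p hp hpm
    exact lt_of_le_of_lt (by linarith) (h.ham m hm p hp hpm)

theorem varK (K A c2 : ℕ) : ∃ g : ℕ, c2 ≤ g ∧ ∃ a1 : ℕ, ∀ c1 : ℕ, a1 ≤ c1 → ∀ d : ℕ, ∃ c6 : ℕ, c1 + 4 * g + 20 ≤ c6 ∧ ∃ x0 : ℝ,
    ∀ Y : ℕ, x0 ≤ Y → ∀ H : ℕ, (Real.log (32 * Y : ℕ)) ^ c6 ≤ H → (H : ℝ) ≤ (Real.log (32 * Y : ℕ)) ^ (c6 + 2) →
      ∃ H' : ℕ, H ≤ H' ∧ H' ≤ 2 * H ∧ ∀ k w w' : ℕ, 2 ≤ k → k ≤ K → Rg (4 * Y) w w' (c1 + 1) d → ∀ α : ℝ,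
        VV (fun n => ((Fk Y k w w' n : ℝ) : ℂ) - ((rk Y k w w' n * ram ⌊(Real.log (32 * Y : ℕ)) ^ g⌋₊ n : ℝ) : ℂ)) H' α
          (32 * Y + H' + 1) ≤ 1 / (Real.log (32 * Y : ℕ)) ^ A * (32 * Y : ℕ) * (H' : ℝ) ^ 2 := by
  obtain ⟨g, hg, a1, hv⟩ := varS (A + 8) c2
  refine ⟨g, hg, a1, fun c1 hc1 d => ?_⟩
  obtain ⟨c6, hc6, x0, hx⟩ := hv c1 hc1 (d + 1) (d * K + 2)
  have hq : ∀ k : ℕ, ∃ x : ℝ, 2 ≤ k → ∀ Y : ℕ, x ≤ Y → ∀ w w' : ℕ, Rg Y w w' (c1 + 1) d →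
      (∀ b ∈ Ix Y 3 k w w', Pool.Agent.Lib.G5.BlkS Y (2 ^ b.1) (2 ^ b.2.2) (2 ^ b.2.1) (SI w w' b.1) (aS k w w') 3 (c1 + 1) d
        (d * (k - 2) + 1)) ∧ ((Ix Y 3 k w w').card : ℝ) ≤ (Real.log Y) ^ 4 := by
    intro k
    by_cases hk : 2 ≤ k
    · obtain ⟨x, hx⟩ := Pool.Agent.Lib.G5.q0 k 3 (c1 + 1) d hk
      exact ⟨x, fun _ => hx⟩
    · exact ⟨0, fun h => absurd h hk⟩
  choose xq hxq using hq
  refine ⟨c6, hc6, max (max x0 (∑ k ∈ range (K + 1), |xq k|)) (Real.exp (2 ^ c1) + 3), fun Y hY H hH1 hH2 => ?_⟩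
  have hY1 : x0 ≤ Y := (le_max_left _ _).trans ((le_max_left _ _).trans hY)
  have hY2 : ∑ k ∈ range (K + 1), |xq k| ≤ Y := (le_max_right _ _).trans ((le_max_left _ _).trans hY)
  have hY3 : Real.exp (2 ^ c1) + 3 ≤ Y := (le_max_right _ _).trans hY
  have hY0 : (0 : ℝ) ≤ Y := Nat.cast_nonneg _
  have hexp : 0 < Real.exp (2 ^ c1) := Real.exp_pos _
  have hc4 : ((4 * Y : ℕ) : ℝ) = 4 * Y := by push_cast; ring
  have hc32 : ((32 * Y : ℕ) : ℝ) = 32 * Y := by push_cast; ring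
  have hYZ : x0 ≤ ((32 * Y : ℕ) : ℝ) := by rw [hc32]; linarith
  have hl2 : Real.log (4 * Y : ℕ) ≤ Real.log (32 * Y : ℕ) := by
    refine Real.log_le_log ?_ ?_
    · rw [hc4]; linarith
    · rw [hc4, hc32]; linarith
  have hl1' : (2 : ℝ) ^ c1 ≤ Real.log (4 * Y : ℕ) := by
    rw [← Real.log_exp ((2 : ℝ) ^ c1)]
    refine Real.log_le_log hexp ?_
    rw [hc4]; linarith
  have hl1 : 1 ≤ Real.log (4 * Y : ℕ) := le_trans (one_le_pow₀ (by norm_num)) hl1'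
  have hL : 1 ≤ Real.log (32 * Y : ℕ) := hl1.trans hl2
  have hl3 : (Real.log (32 * Y : ℕ)) ^ c1 ≤ (Real.log (4 * Y : ℕ)) ^ (c1 + 1) := by
    have h1 : Real.log (32 * Y : ℕ) ≤ 2 * Real.log (4 * Y : ℕ) := by
      have h2 : (2 : ℝ) * Real.log (4 * Y : ℕ) = Real.log (((4 * Y : ℕ) : ℝ) ^ 2) := by
        rw [Real.log_pow]; norm_num
      rw [h2]
      refine Real.log_le_log ?_ ?_
      · rw [hc32]; linarith
      · rw [hc4, hc32]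
        nlinarith
    calc (Real.log (32 * Y : ℕ)) ^ c1 ≤ (2 * Real.log (4 * Y : ℕ)) ^ c1 := pow_le_pow_left₀ (by linarith) h1 c1
      _ = 2 ^ c1 * (Real.log (4 * Y : ℕ)) ^ c1 := mul_pow _ _ _
      _ ≤ Real.log (4 * Y : ℕ) * (Real.log (4 * Y : ℕ)) ^ c1 := mul_le_mul_of_nonneg_right hl1' (by positivity)
      _ = (Real.log (4 * Y : ℕ)) ^ (c1 + 1) := by rw [pow_succ]; ring
  obtain ⟨H', hHa, hHb, hV⟩ := hx (32 * Y) hYZ H hH1 hH2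
  refine ⟨H', hHa, hHb, fun k w w' hk hkK hRg α => ?_⟩
  have hxk : xq k ≤ ((4 * Y : ℕ) : ℝ) := by
    have h1 : |xq k| ≤ ∑ k ∈ range (K + 1), |xq k| :=
      single_le_sum (f := fun k => |xq k|) (fun _ _ => abs_nonneg _) (mem_range.2 (Nat.lt_succ_of_le hkK))
    rw [hc4]
    linarith [le_abs_self (xq k)]
  obtain ⟨hblk, hcard⟩ := hxq k hk (4 * Y) hxk w w' hRg
  set Q := ⌊(Real.log (32 * Y : ℕ)) ^ g⌋₊ with hQ
  set a : ℕ × ℕ × ℕ → ℝ := fun b => Real.log (2 * 2 ^ b.2.2 : ℕ) / Real.log (32 * Y : ℕ) with ha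
  set B : ℕ × ℕ × ℕ → ℕ → ℂ := fun b n => ((bS (SI w w' b.1) (aS k w w') (2 ^ b.2.2) (2 ^ b.2.1) n : ℝ) : ℂ) -
    ((rhoS (SI w w' b.1) (aS k w w') (2 ^ b.2.2) (2 ^ b.2.1) n * ram Q n : ℝ) : ℂ) with hB
  have hsplit : (fun n => ((Fk Y k w w' n : ℝ) : ℂ) - ((rk Y k w w' n * ram Q n : ℝ) : ℂ)) =
      fun n => ∑ b ∈ IY Y k w w', (a b : ℂ) * B b n := by
    funext n
    unfold Fk rk
    rw [sum_mul, Complex.ofReal_sum, Complex.ofReal_sum, ← sum_sub_distrib]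
    refine sum_congr rfl fun b _ => ?_
    rw [hB, ha]
    simp only
    unfold bB
    push_cast
    ring
  rw [hsplit]
  refine (Pool.Agent.Lib.G3.VV_sum_le _ _ _ _ _).trans ?_
  have hone : ∀ b ∈ IY Y k w w', VV (fun n => (a b : ℂ) * B b n) H' α (32 * Y + H' + 1) ≤
      (32 * Y : ℕ) * (H' : ℝ) ^ 2 / (Real.log (32 * Y : ℕ)) ^ (A + 8) := by
    intro b hb
    unfold IY at hb
    rw [mem_filter] at hb
    have hb1 := hblk b hb.1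
    have hR2 := hb1.hR2
    have hP1 : 1 ≤ 2 ^ b.1 := Nat.one_le_two_pow
    have hM1 : 1 ≤ 2 ^ b.2.1 := Nat.one_le_two_pow
    have hR1 : 1 ≤ 2 ^ b.2.2 := Nat.one_le_two_pow
    have hRle : 2 ^ b.2.2 ≤ 4 * Y := le_trans (Nat.le_mul_of_pos_left _ (Nat.mul_pos hP1 hM1)) hR2
    have ha0 : 0 ≤ a b := div_nonneg (Real.log_nonneg (by exact_mod_cast (by omega : 1 ≤ 2 * 2 ^ b.2.2))) (by linarith)
    have ha1 : a b ≤ 1 := by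
      rw [ha]
      simp only
      rw [div_le_one (by linarith)]
      refine Real.log_le_log (by exact_mod_cast (by omega : 0 < 2 * 2 ^ b.2.2)) ?_
      exact_mod_cast (by omega : 2 * 2 ^ b.2.2 ≤ 32 * Y)
    refine (uvar_scale (a b) ha0 ha1 _ _ _ _).trans ?_
    refine hV _ _ _ _ _ (uvar_blk hb1 hb.2 ?_ hl1 hl2 hl3) α
    have : d * (k - 2) ≤ d * K := Nat.mul_le_mul_left _ (by omega)
    omega
  have htot := sum_le_sum hone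
  rw [sum_const, nsmul_eq_mul] at htot
  have hcI : ((IY Y k w w').card : ℝ) ≤ (Real.log (32 * Y : ℕ)) ^ 4 := by
    refine le_trans ?_ (hcard.trans (pow_le_pow_left₀ (by linarith) hl2 4))
    exact_mod_cast card_le_card (filter_subset _ _)
  have hl0 : 0 < Real.log (32 * Y : ℕ) := by linarith
  have hpos : 0 ≤ (32 * Y : ℕ) * (H' : ℝ) ^ 2 / (Real.log (32 * Y : ℕ)) ^ (A + 8) := by positivity
  calc ((IY Y k w w').card : ℝ) * ∑ b ∈ IY Y k w w', VV (fun n => (a b : ℂ) * B b n) H' α (32 * Y + H' + 1) ≤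
      ((IY Y k w w').card : ℝ) * (((IY Y k w w').card : ℝ) * ((32 * Y : ℕ) * (H' : ℝ) ^ 2 / (Real.log (32 * Y : ℕ)) ^ (A + 8))) :=
        mul_le_mul_of_nonneg_left htot (Nat.cast_nonneg _)
    _ ≤ (Real.log (32 * Y : ℕ)) ^ 4 * ((Real.log (32 * Y : ℕ)) ^ 4 * ((32 * Y : ℕ) * (H' : ℝ) ^ 2 / (Real.log (32 * Y : ℕ)) ^ (A + 8))) := by
        refine mul_le_mul hcI (mul_le_mul_of_nonneg_right hcI hpos) (by positivity) (by positivity)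
    _ = 1 / (Real.log (32 * Y : ℕ)) ^ A * (32 * Y : ℕ) * (H' : ℝ) ^ 2 := by
        rw [pow_add]
        field_simp

end Pool.Agent.Lib.VKT
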