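import Pool.Agent.Lib.VK.SVb
import Pool.Agent.Lib.VK.SMod

/-!
# VK / UVs (phase 2): the local mean square of a block function minus its model

PROOF. Copy of VK/TVar.lean for one block: `VV(bC - rhoS ram) ≤ 2 VV(bC - MG) + 2 VV(MG - rhoS ram)` (`G3.VV_add_le`), the first by
`vbS (A + 3) c2`, the second `≤ H'² ∑_n |MG - rhoS ram|²` (`tvar_cauchy`) by `modS (A + 3) g` (both functions vanish for `n > Z` and at
`n = 0`: `tvar_MG_zero`; `rhoS` is supported in `1 ≤ n ≤ 2 p m R ≤ 8 P M R ≤ Z`). Take `c5` the maximum of the two `a5`, `a1` the maximum of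
the one of `vbS` and `g + 1`. `bC S a R M n = ((bS S a R M n : ℝ) : ℂ)` by `rfl`.
-/

set_option autoImplicit false

open Finset Filter

namespace Pool.Agent.Lib.VKT

open Pool.Agent.Lib.G3 (VV WW MG pr mo)
open Pool.Agent.Lib.G5 (bS)
open Pool.Agent.Lib.GT (e)

/-- Cauchy in the window -/
private theorem uvs_cauchy (G : ℕ → ℂ) (X H : ℕ) (α : ℝ) (Y : ℕ) (hG : ∀ n, ¬ (1 ≤ n ∧ n ≤ X) → G n = 0) :
    VV G H α Y ≤ (H : ℝ) ^ 2 * ∑ n ∈ Icc 1 X, ‖G n‖ ^ 2 := by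
  unfold Pool.Agent.Lib.G3.VV
  have h1 : ∀ y ∈ range Y, ‖WW G H α y‖ ^ 2 ≤ (H : ℝ) * ∑ n ∈ Icc 1 X, if n ≤ y ∧ y < n + H then ‖G n‖ ^ 2 else 0 := by
    intro y _
    have h2 : ‖WW G H α y‖ ≤ ∑ n ∈ Ioc (y - H) y, ‖G n‖ := by
      unfold Pool.Agent.Lib.G3.WW
      refine (norm_sum_le _ _).trans (sum_le_sum fun n _ => ?_)
      rw [norm_mul, Pool.Agent.Lib.G3.vb_norm_e, mul_one]
    have h3 : (∑ n ∈ Ioc (y - H) y, ‖G n‖) ^ 2 ≤ ((Ioc (y - H) y).card : ℝ) * ∑ n ∈ Ioc (y - H) y, ‖G n‖ ^ 2 :=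
      sq_sum_le_card_mul_sum_sq
    have h4 : ((Ioc (y - H) y).card : ℝ) ≤ H := by
      rw [Nat.card_Ioc]
      exact_mod_cast (by omega : y - (y - H) ≤ H)
    have h5 : ∑ n ∈ Ioc (y - H) y, ‖G n‖ ^ 2 ≤ ∑ n ∈ Icc 1 X, if n ≤ y ∧ y < n + H then ‖G n‖ ^ 2 else 0 := by
      rw [← sum_filter]
      have h6 : ∑ n ∈ Ioc (y - H) y, ‖G n‖ ^ 2 = ∑ n ∈ (Ioc (y - H) y).filter (fun n => 1 ≤ n ∧ n ≤ X), ‖G n‖ ^ 2 := by
        rw [sum_filter]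
        refine sum_congr rfl fun n _ => ?_
        split_ifs with h
        · rfl
        · rw [hG n h, norm_zero]; norm_num
      rw [h6]
      refine sum_le_sum_of_subset_of_nonneg (fun n hn => ?_) fun _ _ _ => by positivity
      rw [mem_filter, mem_Ioc] at hn
      rw [mem_filter, mem_Icc]
      refine ⟨⟨hn.2.1, hn.2.2⟩, hn.1.2, ?_⟩
      omega
    calc ‖WW G H α y‖ ^ 2 ≤ (∑ n ∈ Ioc (y - H) y, ‖G n‖) ^ 2 := pow_le_pow_left₀ (norm_nonneg _) h2 2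
      _ ≤ ((Ioc (y - H) y).card : ℝ) * ∑ n ∈ Ioc (y - H) y, ‖G n‖ ^ 2 := h3
      _ ≤ (H : ℝ) * ∑ n ∈ Ioc (y - H) y, ‖G n‖ ^ 2 :=
          mul_le_mul_of_nonneg_right h4 (sum_nonneg fun _ _ => by positivity)
      _ ≤ _ := mul_le_mul_of_nonneg_left h5 (Nat.cast_nonneg _)
  refine (sum_le_sum h1).trans ?_
  rw [← mul_sum, sum_comm, sq, mul_assoc]
  refine mul_le_mul_of_nonneg_left ?_ (Nat.cast_nonneg _)
  rw [mul_sum]
  refine sum_le_sum fun n _ => ?_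
  rw [← sum_filter, sum_const, nsmul_eq_mul]
  refine mul_le_mul_of_nonneg_right ?_ (by positivity)
  have h7 : (range Y).filter (fun y => n ≤ y ∧ y < n + H) ⊆ Ico n (n + H) := by
    intro y hy
    rw [mem_filter] at hy
    exact mem_Ico.2 hy.2
  have h8 := card_le_card h7
  rw [Nat.card_Ico] at h8
  exact_mod_cast (by omega : ((range Y).filter (fun y => n ≤ y ∧ y < n + H)).card ≤ H)

private theorem uvs_MG_zero (F : ℕ → ℂ) (X Q : ℕ) (J : ℕ → Finset ℤ) (n : ℕ) (h : ¬ (1 ≤ n ∧ n ≤ X)) : MG F X Q J n = 0 := by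
  unfold Pool.Agent.Lib.G3.MG
  refine sum_eq_zero fun q _ => sum_eq_zero fun a _ => ?_
  unfold Pool.Agent.Lib.G3.mo
  rw [if_neg, mul_zero]
  rintro ⟨h1, h2⟩
  exact h ⟨by omega, h2⟩

private theorem uvs_rho_zero {S : Finset ℕ} {a : ℕ → ℝ} {Z P R M : ℕ} (hS : S ⊆ pr P) (hZ : 8 * (P * M * R) ≤ Z) (n : ℕ)
    (h : ¬ (1 ≤ n ∧ n ≤ Z)) : rhoS S a R M n = 0 := by
  unfold rhoS
  refine sum_eq_zero fun p hp => sum_eq_zero fun m hm => ?_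
  rw [if_neg]
  rintro ⟨h1, h2⟩
  have hp2 := hS hp
  unfold Pool.Agent.Lib.G3.pr at hp2
  rw [mem_filter, mem_Ioc] at hp2
  rw [mem_Ico] at hm
  refine h ⟨by omega, h2.trans (le_trans ?_ hZ)⟩
  calc 2 * (p * m * R) ≤ 2 * ((2 * P) * (2 * M) * R) := by
        have h3 : p ≤ 2 * P := hp2.1.2
        have h4 : m ≤ 2 * M := hm.2.le
        gcongr
    _ = 8 * (P * M * R) := by ring

theorem varS (A c2 : ℕ) : ∃ g : ℕ, c2 ≤ g ∧ ∃ a1 : ℕ, ∀ c1 : ℕ, a1 ≤ c1 → ∀ cP cM : ℕ, ∃ c6 : ℕ, c1 + 4 * g + 20 ≤ c6 ∧ ∃ x0 : ℝ,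
    ∀ Z : ℕ, x0 ≤ Z → ∀ H : ℕ, (Real.log Z) ^ c6 ≤ H → (H : ℝ) ≤ (Real.log Z) ^ (c6 + 2) → ∃ H' : ℕ, H ≤ H' ∧ H' ≤ 2 * H ∧
      ∀ (P R M : ℕ) (S : Finset ℕ) (a : ℕ → ℝ), BlkZ Z P R M S a c1 cP cM → ∀ α : ℝ,
        VV (fun n => ((bS S a R M n : ℝ) : ℂ) - ((rhoS S a R M n * ram ⌊(Real.log Z) ^ g⌋₊ n : ℝ) : ℂ)) H' α (Z + H' + 1) ≤
          Z * (H' : ℝ) ^ 2 / (Real.log Z) ^ A := by
  obtain ⟨g, hg, a5, hv⟩ := vbS (A + 3) c2
  obtain ⟨a5', hm⟩ := modS (A + 3) g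
  obtain ⟨a1, hv2⟩ := hv (max a5 a5') (le_max_left _ _)
  refine ⟨g, hg, max a1 (g + 1), fun c1 hc1 cP cM => ?_⟩
  obtain ⟨c6, hc6, x0, hx⟩ := hv2 c1 ((le_max_left _ _).trans hc1) cP cM
  obtain ⟨x0', hx'⟩ := hm (max a5 a5') (le_max_right _ _) c1 (by have := (le_max_right _ _).trans hc1; omega) cP cM
  refine ⟨c6, hc6, max (max x0 x0') (Real.exp 4), fun Z hX H hH1 hH2 => ?_⟩
  have hX1 : x0 ≤ Z := (le_max_left _ _).trans ((le_max_left _ _).trans hX)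
  have hX2 : x0' ≤ Z := (le_max_right _ _).trans ((le_max_left _ _).trans hX)
  have hX3 : Real.exp 4 ≤ Z := (le_max_right _ _).trans hX
  obtain ⟨H', hHa, hHb, hV⟩ := hx Z hX1 H hH1 hH2
  refine ⟨H', hHa, hHb, fun P R M S a hb α => ?_⟩
  have hZ0 : (0 : ℝ) < Z := (Real.exp_pos 4).trans_le hX3
  have hlog : 4 ≤ Real.log Z := by
    rw [← Real.log_exp 4]
    exact Real.log_le_log (Real.exp_pos 4) hX3
  have hl0 : 0 < Real.log Z := by linarith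
  set Q := ⌊(Real.log Z) ^ g⌋₊ with hQ
  set Gm : ℕ → ℂ := MG (bC S a R M) Z Q (fun _ => Js Z (max a5 a5')) with hGm
  have e1 : (fun n => ((bS S a R M n : ℝ) : ℂ) - ((rhoS S a R M n * ram Q n : ℝ) : ℂ)) =
      fun n => (bC S a R M n - Gm n) + (Gm n - ((rhoS S a R M n * ram Q n : ℝ) : ℂ)) := by
    funext n
    unfold bC
    ring
  rw [e1]
  refine (Pool.Agent.Lib.G3.VV_add_le _ _ _ _ _).trans ?_
  have e2 := hV P R M S a hb α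
  have e3 : VV (fun n => Gm n - ((rhoS S a R M n * ram Q n : ℝ) : ℂ)) H' α (Z + H' + 1) ≤
      (H' : ℝ) ^ 2 * (Z / (Real.log Z) ^ (A + 3)) := by
    refine (uvs_cauchy _ Z H' α _ fun n hn => ?_).trans ?_
    · rw [hGm, uvs_MG_zero _ _ _ _ _ hn, uvs_rho_zero hb.hS hb.hR1 n hn]
      simp
    · exact mul_le_mul_of_nonneg_left (hx' Z hX2 P R M S a hb) (by positivity)
  have e4 : (H' : ℝ) ^ 2 * (Z / (Real.log Z) ^ (A + 3)) = Z * (H' : ℝ) ^ 2 / (Real.log Z) ^ (A + 3) := by ring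
  rw [e4] at e3
  have e5 : 4 * (Z * (H' : ℝ) ^ 2 / (Real.log Z) ^ (A + 3)) ≤ Z * (H' : ℝ) ^ 2 / (Real.log Z) ^ A := by
    have h5 : (4 : ℝ) ≤ (Real.log Z) ^ 3 := by
      have : (4 : ℝ) ^ 3 ≤ (Real.log Z) ^ 3 := pow_le_pow_left₀ (by norm_num) hlog 3
      norm_num at this
      linarith
    have h6 : 4 * (Z * (H' : ℝ) ^ 2 / (Real.log Z) ^ (A + 3)) = Z * (H' : ℝ) ^ 2 / (Real.log Z) ^ A * (4 / (Real.log Z) ^ 3) := by
      rw [pow_add]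
      field_simp
    rw [h6]
    refine mul_le_of_le_one_right (by positivity) ?_
    rw [div_le_one (by positivity)]
    exact h5
  linarith

end Pool.Agent.Lib.VKT
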