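import Mathlib

/-!
# Vinogradov's mean value: definitions (row Vc)

`cnt D φ A g s`: number of (d, d', x, y), d, d' in D, x, y in A^s, with
phi(d) + g(x_1) + .. + g(x_s) = phi(d') + g(y_1) + .. + g(y_s).
`mom A g s`: number of (x, y) in A^s x A^s with equal sums of g.
`pw k x` = (x, x^2, .., x^k);  `J s k P` = J_(s,k)(P), Vinogradov's mean value (a counting number).
-/

set_option autoImplicit false

open Finset

namespace Pool.Agent.Lib.VK

noncomputable section

/-- number of solutions of phi(d) + sum g(x_i) = phi(d') + sum g(y_i) -/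
def cnt {Γ ι α : Type} [AddCommGroup Γ] [DecidableEq Γ] (D : Finset ι) (φ : ι → Γ)
    (A : Finset α) (g : α → Γ) (s : ℕ) : ℕ :=
  (((D ×ˢ D) ×ˢ ((Fintype.piFinset fun _ : Fin s => A) ×ˢ (Fintype.piFinset fun _ : Fin s => A))).filter
    (fun z => φ z.1.1 + ∑ i, g (z.2.1 i) = φ z.1.2 + ∑ i, g (z.2.2 i))).card

/-- number of solutions of sum g(x_i) = sum g(y_i) -/
def mom {Γ α : Type} [AddCommGroup Γ] [DecidableEq Γ] (A : Finset α) (g : α → Γ) (s : ℕ) : ℕ :=
  (((Fintype.piFinset fun _ : Fin s => A) ×ˢ (Fintype.piFinset fun _ : Fin s => A)).filter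
    (fun z => ∑ i, g (z.1 i) = ∑ i, g (z.2 i))).card

/-- the vector of powers (x, x^2, .., x^k) -/
def pw (k : ℕ) (x : ℤ) : Fin k → ℤ := fun j => x ^ ((j : ℕ) + 1)

/-- Vinogradov's mean value -/
def J (s k P : ℕ) : ℕ := mom (Finset.Icc (1 : ℤ) P) (pw k) s

/-- the k-tuples of integers in [1,P] with entries distinct mod p -/
def Dp (k p P : ℕ) : Finset (Fin k → ℤ) :=
  (Fintype.piFinset fun _ : Fin k => Finset.Icc (1 : ℤ) P).filter
    (fun x => ∀ i j, i ≠ j → ¬ ((p : ℤ) ∣ x i - x j))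

/-- the sum of the vectors of powers of the entries -/
def sp (k : ℕ) (x : Fin k → ℤ) : Fin k → ℤ := ∑ i, pw k (x i)

end

end Pool.Agent.Lib.VK
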