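import Pool.Agent.Lib.VK.Nu

/-!
# Row Vmv (about 50 lines): Vinogradov's mean value theorem, s = 7 k^2

nu with r = 7k: 10 (7k+1) k^5 <= 80 k^6, and k(k+1)/2 (1-1/k)^(7k) <= (3/4) k^2 e^(-7) <= k^2/1000
(1 - 1/k <= exp(-1/k): `Real.one_sub_le_exp_neg`, e^7 > 1000: `Real.exp_one_gt_d9`).
-/

set_option autoImplicit false

open Finset

namespace Pool.Agent.Lib.VK

theorem vmv (k P : ℕ) (hk : 2 ≤ k) (hP : 1 ≤ P) :
    (J (7 * k ^ 2) k P : ℝ) ≤ Real.exp (80 * k ^ 6) *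
      (P : ℝ) ^ (14 * (k : ℝ) ^ 2 - k * (k + 1) / 2 + k ^ 2 / 1000 : ℝ) := by
  have hk2 : (2 : ℝ) ≤ (k : ℝ) := by exact_mod_cast hk
  have hk0 : (0 : ℝ) < (k : ℝ) := by linarith
  have hP1 : (1 : ℝ) ≤ (P : ℝ) := by exact_mod_cast hP
  have h := nu k hk (7 * k) le_rfl P hP
  have hJ : 7 * k * k = 7 * k ^ 2 := by ring
  rw [hJ] at h
  refine h.trans (mul_le_mul (Real.exp_le_exp.2 ?_) (Real.rpow_le_rpow_of_exponent_le hP1 ?_)
    (Real.rpow_nonneg (by linarith) _) (Real.exp_pos _).le)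
  · push_cast
    have h5 : (0 : ℝ) < (k : ℝ) ^ 5 := by positivity
    have h6 : (k : ℝ) ^ 6 = k * (k : ℝ) ^ 5 := by ring
    rw [h6]
    nlinarith
  · push_cast
    have h1 : (1 - 1 / (k : ℝ)) ^ (7 * k) ≤ Real.exp (-7) := by
      have h2 : 1 - 1 / (k : ℝ) ≤ Real.exp (-(1 / (k : ℝ))) := Real.one_sub_le_exp_neg _
      have h3 : (0 : ℝ) ≤ 1 - 1 / (k : ℝ) := by
        rw [sub_nonneg, div_le_one hk0]
        linarith
      calc (1 - 1 / (k : ℝ)) ^ (7 * k) ≤ Real.exp (-(1 / (k : ℝ))) ^ (7 * k) :=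
            pow_le_pow_left₀ h3 h2 _
        _ = Real.exp (((7 * k : ℕ) : ℝ) * -(1 / (k : ℝ))) := (Real.exp_nat_mul _ _).symm
        _ = Real.exp (-7) := by
            congr 1
            push_cast
            field_simp
    have h4 : Real.exp (-7) ≤ 1 / 1000 := by
      rw [Real.exp_neg, ← one_div]
      apply one_div_le_one_div_of_le (by norm_num)
      have h5 : Real.exp 7 = Real.exp 1 ^ 7 := by
        rw [← Real.exp_nat_mul]
        norm_num
      rw [h5]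
      have h6 : (2.7 : ℝ) ≤ Real.exp 1 := by
        have := Real.exp_one_gt_d9
        linarith
      calc (1000 : ℝ) ≤ 2.7 ^ 7 := by norm_num
        _ ≤ Real.exp 1 ^ 7 := pow_le_pow_left₀ (by norm_num) h6 7
    have h7 : (0 : ℝ) ≤ k * (k + 1) / 2 := by positivity
    have h8 : k * (k + 1) / 2 * (1 - 1 / (k : ℝ)) ^ (7 * k) ≤ k * (k + 1) / 2 * (1 / 1000) :=
      mul_le_mul_of_nonneg_left (h1.trans h4) h7
    nlinarith

end Pool.Agent.Lib.VK
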