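import Pool.Agent.Lib.VK.UDef
import Pool.Agent.Lib.G5.Q2
import Pool.Agent.Lib.G3.Mert5
import Pool.Agent.Lib.G6.Mw

/-!
# VK / WDens (phase 2, general): the product of the densities, uniformly in `w`, `w'`

PROOF. `L = LL w w'`. `G3.mert5`: for `w` large `|sg1 w w' - L| ≤ ε'`; `w^(1+η) ≤ w'` gives `L ≥ log (1+η) > 0`. `G5.q2a`: `0 ≤ sg1 esy j - (j+1) esy (j+1) ≤ (small) esy`-type bound, so by
induction on `j` `|esy j w w' - L^j/j!| ≤ ε' L^j/j!` for `w ≥ z(ε', j)` (relative form: `L ≥ log (1+η)`, `1/w ≤ ε' log(1+η)`); `sgK k = sg1 esy(k-2)/(k-1)`, `(k-1) (k-2)! = (k-1)!`: relative error of each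
factor small; factor `1 = L^0/0!` for `κ_i = 1`. Product of `m` factors with relative errors `≤ ε''`: `(1+ε'')^m - 1 ≤ ε`.
-/

set_option autoImplicit false

open Finset Filter

namespace Pool.Agent.Lib.VKT

open Pool.Agent.Lib.G5 (bS PP aS sg1 esy SI Ix bB sgK EE)

/-- `log (log w' / log w)` -/
noncomputable def LL (w w' : ℕ) : ℝ := Real.log (Real.log w' / Real.log w)

theorem LL_le {η : ℝ} (hη : 0 < η) {w w' : ℕ} (hw : 2 ≤ w) (h : (w : ℝ) ^ (1 + η) ≤ w') : Real.log (1 + η) ≤ LL w w' := by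
  have hw2 : (2 : ℝ) ≤ w := by exact_mod_cast hw
  have hlw : 0 < Real.log (w : ℝ) := Real.log_pos (by linarith)
  have h1 : (1 + η) * Real.log (w : ℝ) ≤ Real.log (w' : ℝ) := by
    rw [← Real.log_rpow (by linarith)]
    exact Real.log_le_log (Real.rpow_pos_of_pos (by linarith) _) h
  unfold LL
  refine Real.log_le_log (by linarith) ?_
  rw [le_div_iff₀ hlw]
  exact h1

/-- one factor -/
private theorem WDens_one (k : ℕ) (hk : 1 ≤ k) (δ η : ℝ) (hδ : 0 < δ) (hη : 0 < η) : ∃ z0 : ℕ, ∀ w w' : ℕ, z0 ≤ w →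
    (w : ℝ) ^ (1 + η) ≤ w' → |(if k = 1 then 1 else sgK k w w') - (LL w w') ^ (k - 1) / (Nat.factorial (k - 1) : ℝ)| ≤
      δ * ((LL w w') ^ (k - 1) / (Nat.factorial (k - 1) : ℝ)) := by
  by_cases hk1 : k = 1
  · refine ⟨0, fun w w' _ _ => ?_⟩
    subst hk1
    simp [hδ.le]
  have hk2 : 2 ≤ k := by omega
  set l : ℝ := Real.log (1 + η) with hl
  have hl0 : 0 < l := Real.log_pos (by linarith)
  have hF : (0 : ℝ) < (Nat.factorial (k - 1) : ℝ) := by exact_mod_cast Nat.factorial_pos (k - 1)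
  set D : ℝ := (1 + 1 / l) ^ (k - 1) * (Nat.factorial (k - 1) : ℝ) with hD
  have hD0 : 0 < D := by positivity
  obtain ⟨w0, hw0⟩ := Pool.Agent.Lib.G6.mw k hk2 (δ / D) (by positivity)
  refine ⟨max 2 ⌈w0⌉₊, fun w w' hw hww' => ?_⟩
  have hw2 : 2 ≤ w := (le_max_left _ _).trans hw
  have hw3 : w0 ≤ (w : ℝ) := (Nat.le_ceil w0).trans (by exact_mod_cast (le_max_right _ _).trans hw)
  have hL := LL_le hη hw2 hww'
  rw [← hl] at hL
  have hww : (w : ℝ) ≤ (w' : ℝ) := by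
    refine le_trans ?_ hww'
    have h1 : (1 : ℝ) ≤ w := by exact_mod_cast (by omega : 1 ≤ w)
    calc (w : ℝ) = (w : ℝ) ^ (1 : ℝ) := (Real.rpow_one _).symm
      _ ≤ (w : ℝ) ^ (1 + η) := Real.rpow_le_rpow_of_exponent_le h1 (by linarith)
  have h1 := hw0 (w : ℝ) (w' : ℝ) hw3 hww
  rw [Nat.floor_natCast, Nat.floor_natCast] at h1
  rw [if_neg hk1]
  change |sgK k w w' - (LL w w') ^ (k - 1) / (Nat.factorial (k - 1) : ℝ)| ≤ δ / D * (1 + LL w w') ^ (k - 1) at h1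
  refine h1.trans ?_
  have hL0 : 0 < LL w w' := lt_of_lt_of_le hl0 hL
  have h2 : 1 + LL w w' ≤ (1 + 1 / l) * LL w w' := by
    have h3 : 1 ≤ 1 / l * LL w w' := by
      rw [one_div, inv_mul_eq_div, one_le_div hl0]
      exact hL
    linarith
  have h4 : (1 + LL w w') ^ (k - 1) ≤ (1 + 1 / l) ^ (k - 1) * (LL w w') ^ (k - 1) := by
    rw [← mul_pow]
    exact pow_le_pow_left₀ (by linarith) h2 _
  calc δ / D * (1 + LL w w') ^ (k - 1) ≤ δ / D * ((1 + 1 / l) ^ (k - 1) * (LL w w') ^ (k - 1)) :=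
        mul_le_mul_of_nonneg_left h4 (by positivity)
    _ = δ * ((LL w w') ^ (k - 1) / (Nat.factorial (k - 1) : ℝ)) := by
        rw [hD]
        field_simp

/-- the product of factors with small relative errors -/
private theorem WDens_prod {m : ℕ} (f g : Fin m → ℝ) (ε δ : ℝ) (hδ : 0 ≤ δ) (hδ1 : δ ≤ 1) (h1 : (m : ℝ) * δ ≤ ε)
    (h2 : (m : ℝ) * δ ≤ Real.log (1 + ε)) (hε : 0 < ε) (hg : ∀ i, 0 ≤ g i) (h : ∀ i, |f i - g i| ≤ δ * g i) :
    |∏ i, f i - ∏ i, g i| ≤ ε * ∏ i, g i := by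
  have ha : ∀ i, (1 - δ) * g i ≤ f i := fun i => by
    have := (abs_le.1 (h i)).1
    linarith
  have hb : ∀ i, f i ≤ (1 + δ) * g i := fun i => by
    have := (abs_le.1 (h i)).2
    linarith
  have hf : ∀ i, 0 ≤ f i := fun i => (mul_nonneg (by linarith) (hg i)).trans (ha i)
  have hG : 0 ≤ ∏ i, g i := prod_nonneg fun i _ => hg i
  have h3 : (1 - δ) ^ m * ∏ i, g i ≤ ∏ i, f i := by
    have h5 : ∏ i, ((1 - δ) * g i) ≤ ∏ i, f i :=
      prod_le_prod (fun i _ => mul_nonneg (by linarith) (hg i)) fun i _ => ha i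
    rw [prod_mul_distrib, prod_const, card_univ, Fintype.card_fin] at h5
    exact h5
  have h4 : ∏ i, f i ≤ (1 + δ) ^ m * ∏ i, g i := by
    have h5 : ∏ i, f i ≤ ∏ i, ((1 + δ) * g i) := prod_le_prod (fun i _ => hf i) fun i _ => hb i
    rw [prod_mul_distrib, prod_const, card_univ, Fintype.card_fin] at h5
    exact h5
  have h6 : 1 - ε ≤ (1 - δ) ^ m := by
    have h7 := one_add_mul_le_pow (show (-2 : ℝ) ≤ -δ by linarith) m
    have h8 : (1 : ℝ) + -δ = 1 - δ := by ring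
    rw [h8] at h7
    linarith
  have h9 : (1 + δ) ^ m ≤ 1 + ε := by
    have h10 : 1 + δ ≤ Real.exp δ := by
      have := Real.add_one_le_exp δ
      linarith
    calc (1 + δ) ^ m ≤ (Real.exp δ) ^ m := pow_le_pow_left₀ (by linarith) h10 m
      _ = Real.exp (m * δ) := by rw [← Real.exp_nat_mul]
      _ ≤ Real.exp (Real.log (1 + ε)) := Real.exp_le_exp.2 h2
      _ = 1 + ε := Real.exp_log (by linarith)
  rw [abs_le]
  constructor
  · have := mul_le_mul_of_nonneg_right h6 hG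
    linarith
  · have := mul_le_mul_of_nonneg_right h9 hG
    linarith

theorem densR {m : ℕ} (κ : Fin m → ℕ) (hκ : ∀ i, 1 ≤ κ i) (ε η : ℝ) (hε : 0 < ε) (hη : 0 < η) : ∃ z0 : ℕ, ∀ w w' : ℕ, z0 ≤ w →
    (w : ℝ) ^ (1 + η) ≤ w' → |dens w w' κ - ∏ i, (LL w w') ^ (κ i - 1) / (Nat.factorial (κ i - 1) : ℝ)| ≤
      ε * ∏ i, (LL w w') ^ (κ i - 1) / (Nat.factorial (κ i - 1) : ℝ) := by
  have hlog : 0 < Real.log (1 + ε) := Real.log_pos (by linarith)
  set δ : ℝ := min 1 (min ε (Real.log (1 + ε)) / (m + 1)) with hδ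
  have hmin : 0 < min ε (Real.log (1 + ε)) := lt_min hε hlog
  have hδ0 : 0 < δ := lt_min one_pos (by positivity)
  have hδ1 : δ ≤ 1 := min_le_left _ _
  have hmδ : (m : ℝ) * δ ≤ min ε (Real.log (1 + ε)) := by
    have h1 : δ ≤ min ε (Real.log (1 + ε)) / (m + 1) := min_le_right _ _
    rw [le_div_iff₀ (by positivity)] at h1
    linarith
  choose z hz using fun i => WDens_one (κ i) (hκ i) δ η hδ0 hη
  refine ⟨max 2 (univ.sup z), fun w w' hw hww' => ?_⟩
  have hL := LL_le hη ((le_max_left _ _).trans hw) hww'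
  have hL0 : 0 < LL w w' := lt_of_lt_of_le (Real.log_pos (by linarith)) hL
  unfold dens
  refine WDens_prod _ _ ε δ hδ0.le hδ1 (hmδ.trans (min_le_left _ _)) (hmδ.trans (min_le_right _ _)) hε
    (fun i => by positivity) fun i => ?_
  exact hz i w w' ((le_sup (mem_univ i)).trans ((le_max_right _ _).trans hw)) hww'

end Pool.Agent.Lib.VKT
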