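import Pool.Agent.Lib.VK.WAsm
import Pool.Agent.Lib.VK.WUnw

/-!
# VK / WFin (phase 2, general): the theorem for all `w`, `w'` (`w'` up to a power of `Y`)

PROOF. `A' = A + 2m + 6`, `a1` of `asmG κ hκ A'`; `c10 = a1 + m + 10`, for `c1 ≥ c10` use `asmG`, `unwG` with `c1 - 3` (so `≥ a1` and `≥ m + 6`), `C = c6 + 1`, `ε' = min ε 1/8`,
`M` the maximum of the two. `Rg2 Y w w' c1 (M+1)` gives `Rg2 (4Y) w w' (c1 - 3 + 1) M` for large `Y`: `(log Y)^(c1+1) ≥ (log 4Y)^(c1-1)`, `w'^M ≤ w'^(M+1) ≤ Y ≤ 4Y` (`w' ≥ 1`);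
`w' (log 32Y)^c6 ≤ w' (log Y)^C ≤ H`. For an `h` which is not exceptional: `wcK = dens/l^m · Y · HL + O(Y/(log Y)^A')`, `l = log 32Y`, `(log Y/l)^m → 1`; divide `unwG` by `log Y`:
`cntK = (1 + O(2ε')) (dens HL Y/(log Y)^(m+1) + O(Y/(log Y)^(m+2)))`; `HL h ≥ 0` (`tail`: limit of numbers `≥ 0`), `dens ≥ 0` (`sgK ≥ 0`). `h_i ≥ 1`, `h_i ≤ Y` in the box.
-/

set_option autoImplicit false

open Finset Filter

namespace Pool.Agent.Lib.VKT

open Pool.Agent.Lib.G5 (bS PP aS sg1 esy SI Ix bB sgK EE Rg2)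

private theorem wfin_real {q l D w c Yr a ε δ : ℝ} {m A' c1 : ℕ} (hq : 4 ≤ q) (hql : q ≤ l)
    (hl : l ≤ q + 4) (hD : 0 ≤ D) (hc : 0 ≤ c) (hY : 0 < Yr) (ha : 0 ≤ a) (hδ : 0 < δ) (hδ1 : δ ≤ 1 / 8) (hδε : 8 * δ ≤ ε)
    (hA' : m + 1 ≤ A') (hc1 : m + 3 ≤ c1)
    (h1 : (1 - δ) * q * c ≤ w) (h2 : w ≤ (1 + δ) * q * c + Yr / q ^ (c1 - 2))
    (h3 : |w - D / l ^ m * Yr * a| ≤ Yr / q ^ A') (hm : 8 * m / q ≤ ε) (hε2 : 4 / q ≤ ε) :
    |c - a * D * (Yr / q ^ (m + 1))| ≤ ε * (1 + a * D) * (Yr / q ^ (m + 1)) := by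
  have hq0 : 0 < q := by linarith
  have hl0 : 0 < l := by linarith
  obtain ⟨η, hη⟩ : ∃ η : ℝ, η = 1 / q := ⟨_, rfl⟩
  have hη0 : 0 < η := by rw [hη]; positivity
  obtain ⟨F, hF⟩ : ∃ F : ℝ, F = q ^ m / Yr := ⟨_, rfl⟩
  have hF0 : 0 < F := by rw [hF]; positivity
  obtain ⟨W, hW⟩ : ∃ W : ℝ, W = w * F := ⟨_, rfl⟩
  obtain ⟨C0, hC0⟩ : ∃ C0 : ℝ, C0 = q * c * F := ⟨_, rfl⟩
  have hC00 : 0 ≤ C0 := by rw [hC0]; positivity
  have hU0 : 0 < Yr / q ^ (m + 1) := by positivity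
  have eC : c = C0 * (Yr / q ^ (m + 1)) := by
    rw [hC0, hF, pow_succ]
    field_simp
  -- powers of `q`
  have hpow : ∀ n : ℕ, m + 1 ≤ n → Yr / q ^ n * F ≤ η := by
    intro n hn
    obtain ⟨r, rfl⟩ := Nat.exists_eq_add_of_le hn
    have e : Yr / q ^ (m + 1 + r) * F = 1 / (q * q ^ r) := by
      rw [hF, show m + 1 + r = m + (1 + r) by ring, pow_add, pow_add, pow_one]
      field_simp
    rw [e, hη]
    refine one_div_le_one_div_of_le hq0 ?_
    have : 1 ≤ q ^ r := one_le_pow₀ (by linarith)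
    nlinarith
  have h1' : (1 - δ) * C0 ≤ W := by
    rw [hC0, hW]
    calc (1 - δ) * (q * c * F) = ((1 - δ) * q * c) * F := by ring
      _ ≤ w * F := mul_le_mul_of_nonneg_right h1 hF0.le
  have h2' : W ≤ (1 + δ) * C0 + η := by
    rw [hC0, hW]
    calc w * F ≤ ((1 + δ) * q * c + Yr / q ^ (c1 - 2)) * F := mul_le_mul_of_nonneg_right h2 hF0.le
      _ = (1 + δ) * (q * c * F) + Yr / q ^ (c1 - 2) * F := by ring
      _ ≤ (1 + δ) * (q * c * F) + η := by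
          have := hpow (c1 - 2) (by omega)
          linarith
  -- `W = (q / l) ^ m * D * a + e`
  obtain ⟨x, hx⟩ : ∃ x : ℝ, x = q / l := ⟨_, rfl⟩
  have hx0 : 0 < x := by rw [hx]; positivity
  have hx1 : x ≤ 1 := by rw [hx]; exact (div_le_one hl0).2 hql
  obtain ⟨T, hT⟩ : ∃ T : ℝ, T = a * D := ⟨_, rfl⟩
  have hT0 : 0 ≤ T := by rw [hT]; positivity
  have e1 : D / l ^ m * Yr * a * F = x ^ m * T := by
    rw [hF, hx, hT, div_pow]
    have : l ^ m ≠ 0 := by positivity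
    field_simp
  have h3' : |W - x ^ m * T| ≤ η := by
    have e2 : W - x ^ m * T = (w - D / l ^ m * Yr * a) * F := by
      rw [hW, ← e1]
      ring
    rw [e2, abs_mul, abs_of_pos hF0]
    calc |w - D / l ^ m * Yr * a| * F ≤ Yr / q ^ A' * F :=
          mul_le_mul_of_nonneg_right h3 hF0.le
      _ ≤ η := hpow A' hA'
  have hxm : 0 ≤ x ^ m := by positivity
  have hxm1 : x ^ m ≤ 1 := pow_le_one₀ hx0.le hx1
  have hxm2 : 1 - x ^ m ≤ 4 * m * η := by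
    have hb := one_add_mul_le_pow (a := x - 1) (by linarith) m
    have e3 : (1 : ℝ) + (x - 1) = x := by ring
    rw [e3] at hb
    have h6 : 1 - x ≤ 4 * (1 / q) := by
      rw [hx]
      have : 1 - q / l = (l - q) / l := by field_simp
      rw [this, ← mul_div_assoc, mul_one]
      exact div_le_div₀ (by norm_num) (by linarith) hq0 hql
    have h8 : (m : ℝ) * (1 - x) ≤ m * (4 * η) := by
      refine mul_le_mul_of_nonneg_left ?_ (Nat.cast_nonneg _)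
      rw [← hη] at h6
      linarith
    linarith
  obtain ⟨h3a, h3b⟩ := abs_le.1 h3'
  have hWle : W ≤ T + η := by
    have h9 : x ^ m * T ≤ T := by nlinarith
    linarith
  have hmε : 4 * m * η ≤ ε / 2 := by
    have : 8 * (m : ℝ) / q = 2 * (4 * m * η) := by rw [hη]; ring
    linarith
  have h4η : 4 * η ≤ ε := by
    rw [hη]
    calc 4 * (1 / q) = 4 / q := by ring
      _ ≤ ε := hε2
  have hxT : (1 - x ^ m) * T ≤ ε / 2 * T := mul_le_mul_of_nonneg_right (hxm2.trans hmε) hT0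
  have hxT0 : 0 ≤ (1 - x ^ m) * T := mul_nonneg (by linarith) hT0
  have hWT : W - T = (W - x ^ m * T) - (1 - x ^ m) * T := by ring
  have hWT1 : W - T ≤ η := by linarith
  have hWT2 : -(ε / 2 * T + η) ≤ W - T := by linarith
  have hC2 : C0 ≤ 2 * (T + η) := by nlinarith
  have hδC : δ * C0 ≤ δ * (2 * (T + η)) := mul_le_mul_of_nonneg_left hC2 hδ.le
  have hδC0 : 0 ≤ δ * C0 := by positivity
  have hδη : δ * η ≤ 1 / 8 * η := mul_le_mul_of_nonneg_right hδ1 hη0.le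
  have hδT : δ * T ≤ ε / 8 * T := mul_le_mul_of_nonneg_right (by linarith) hT0
  have hεT : 0 ≤ ε * T := mul_nonneg (by linarith) hT0
  have hCT : |C0 - T| ≤ ε * (1 + T) := by
    have hCW1 : C0 - W ≤ 2 * (δ * T) + 2 * (δ * η) := by linarith
    have hCW2 : -(2 * (δ * T) + 2 * (δ * η) + η) ≤ C0 - W := by linarith
    rw [abs_le]
    constructor
    · linarith
    · linarith
  have e4 : c - a * D * (Yr / q ^ (m + 1)) = (C0 - T) * (Yr / q ^ (m + 1)) := by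
    rw [hT, sub_mul, ← eC]
  rw [e4, abs_mul, abs_of_pos hU0, ← hT]
  exact mul_le_mul_of_nonneg_right hCT hU0.le

private theorem wfin_dens0 {m : ℕ} (w w' : ℕ) (κ : Fin m → ℕ) (hκ : ∀ i, 1 ≤ κ i) : 0 ≤ dens w w' κ := by
  unfold dens
  refine prod_nonneg fun i _ => ?_
  split_ifs with h
  · norm_num
  · unfold sgK sg1 esy
    have hk : (1 : ℝ) ≤ κ i := by exact_mod_cast hκ i
    exact div_nonneg (mul_nonneg (sum_nonneg fun p _ => by positivity)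
      (sum_nonneg fun s _ => prod_nonneg fun p _ => by positivity)) (by linarith)

private theorem wfin_HL {m : ℕ} {Y : ℕ} (hY : 1 ≤ Y) {h : Fin m → ℕ} (hi : Function.Injective h)
    (hh : ∀ i, 1 ≤ h i ∧ h i ≤ Y) : 0 ≤ HL h := by
  obtain ⟨C, D, hC, htail⟩ := tail m
  have hz0 : 2 ≤ ⌈C * Real.log ((2 * Y : ℕ) : ℝ)⌉₊ + 2 := by omega
  have hcond : ∀ z : ℕ, ⌈C * Real.log ((2 * Y : ℕ) : ℝ)⌉₊ + 2 ≤ z → C * Real.log ((2 * Y : ℕ) : ℝ) ≤ z := by
    intro z hz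
    refine (Nat.le_ceil _).trans ?_
    exact_mod_cast (by omega : ⌈C * Real.log ((2 * Y : ℕ) : ℝ)⌉₊ ≤ z)
  have ht := (htail _ (2 * Y) h hz0 (by omega) hi (fun i => ⟨(hh i).1, by have := (hh i).2; omega⟩) (hcond _ le_rfl)).1
  refine ge_of_tendsto ht ?_
  filter_upwards [eventually_ge_atTop (⌈C * Real.log ((2 * Y : ℕ) : ℝ)⌉₊ + 2)] with z hz
  exact (htail z (2 * Y) h (by omega) (by omega) hi (fun i => ⟨(hh i).1, by have := (hh i).2; omega⟩)
    (hcond z hz)).2.2.1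

private theorem wfin_rg {c1 M M1 Y w w' : ℕ} (hc1 : 3 ≤ c1) (hM : M1 ≤ M) (hR : Rg2 Y w w' c1 M)
    (hq : 2 ^ (c1 + 2) + 3 ≤ Real.log Y) : 1 ≤ w' ∧ Rg2 (4 * Y) w w' (c1 - 3 + 1) M1 := by
  have hp2 : (1 : ℝ) ≤ 2 ^ (c1 + 2) := one_le_pow₀ (by norm_num)
  have hY1 : 1 ≤ Y := by
    by_contra hY
    have : Y = 0 := by omega
    rw [this] at hq
    simp at hq
    linarith
  have hY0 : (0 : ℝ) < Y := by exact_mod_cast hY1
  obtain ⟨q, hq'⟩ : ∃ q : ℝ, q = Real.log Y := ⟨_, rfl⟩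
  have h1 := hR.h1
  rw [← hq'] at hq h1
  have hq1 : 1 ≤ q := by linarith
  have hl : Real.log ((4 * Y : ℕ) : ℝ) = Real.log 4 + q := by
    push_cast
    rw [Real.log_mul (by norm_num) hY0.ne', hq']
  have hl4 : Real.log 4 ≤ 2 := by
    rw [show (4 : ℝ) = 2 ^ 2 by norm_num, Real.log_pow]
    have := Real.log_two_lt_d9
    push_cast
    linarith
  have hl40 : 0 ≤ Real.log 4 := Real.log_nonneg (by norm_num)
  have hw'1 : 1 ≤ w' := by
    have h2 : (1 : ℝ) ≤ w := le_trans (one_le_pow₀ hq1) h1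
    have h3 : 1 ≤ w := by exact_mod_cast h2
    exact h3.trans hR.h2
  refine ⟨hw'1, ?_, hR.h2, ?_⟩
  · rw [hl]
    calc (Real.log 4 + q) ^ (c1 - 3 + 1 + 1) ≤ (2 * q) ^ (c1 - 3 + 1 + 1) :=
          pow_le_pow_left₀ (by linarith) (by linarith) _
      _ = 2 ^ (c1 - 3 + 1 + 1) * q ^ (c1 - 3 + 1 + 1) := mul_pow _ _ _
      _ ≤ 2 ^ (c1 + 2) * q ^ c1 := by
          refine mul_le_mul (pow_le_pow_right₀ (by norm_num) (by omega)) (pow_le_pow_right₀ hq1 (by omega))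
            (by positivity) (by positivity)
      _ ≤ q * q ^ c1 := mul_le_mul_of_nonneg_right (by linarith) (by positivity)
      _ = q ^ (c1 + 1) := by rw [pow_succ]; ring
      _ ≤ w := h1
  · calc w' ^ M1 ≤ w' ^ M := Nat.pow_le_pow_right hw'1 hM
      _ ≤ Y := hR.h3
      _ ≤ 4 * Y := by omega

open Classical in
theorem tuplesG {m : ℕ} (κ : Fin m → ℕ) (hκ : ∀ i, 1 ≤ κ i) (A : ℕ) : ∃ c10 : ℕ, ∀ c1 : ℕ, c10 ≤ c1 → ∃ C : ℕ, ∀ ε : ℝ, 0 < ε →
    ∃ (M : ℕ) (x0 : ℝ), ∀ Y w w' H : ℕ, x0 ≤ Y → Rg2 Y w w' c1 M → (w' : ℝ) * (Real.log Y) ^ C ≤ H → H ≤ Y →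
      ∀ b : Fin m → ℕ, (∀ i, (κ i = 1 → b i = 0) ∧ (κ i ≠ 1 → b i + H ≤ Y)) →
        (((box b fun i => if κ i = 1 then Y else H).filter fun h => ¬ (Function.Injective h ∧
          |(cntK Y w w' κ h : ℝ) - HL h * dens w w' κ * (Y / (Real.log Y) ^ (m + 1))| ≤
            ε * (1 + HL h * dens w w' κ) * (Y / (Real.log Y) ^ (m + 1)))).card : ℝ) ≤
          (∏ i, ((if κ i = 1 then Y else H : ℕ) : ℝ)) / (Real.log Y) ^ A := by
  obtain ⟨a1, hasm⟩ := asmG κ hκ (A + 2 * m + 6)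
  refine ⟨a1 + m + 10, fun c1 hc1 => ?_⟩
  obtain ⟨c6, M1, x1, h1⟩ := hasm (c1 - 3) (by omega)
  refine ⟨c6 + 1, fun ε hε => ?_⟩
  obtain ⟨δ, hδ⟩ : ∃ δ : ℝ, δ = min ε 1 / 8 := ⟨_, rfl⟩
  have hmin : 0 < min ε 1 := lt_min hε one_pos
  have hδ0 : 0 < δ := by rw [hδ]; positivity
  have hδ1 : δ ≤ 1 / 8 := by
    have := min_le_right ε 1
    rw [hδ]
    linarith
  have hδε : 8 * δ ≤ ε := by
    have := min_le_left ε 1
    rw [hδ]
    linarith
  obtain ⟨M2, x2, hunw⟩ := unwG κ hκ (c1 - 3) (by omega) δ hδ0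
  obtain ⟨qs, hqs⟩ : ∃ qs : ℝ, qs = 8 * m / ε + 4 / ε + 2 ^ c6 + (2 ^ (c1 + 2) + 3) + 10 := ⟨_, rfl⟩
  refine ⟨max M1 M2, max (max x1 x2) (Real.exp qs), ?_⟩
  intro Y w w' H hYx hRg hCH hHY b hb
  have hx1 : x1 ≤ Y := le_trans (by simp) hYx
  have hx2 : x2 ≤ Y := le_trans (by simp) hYx
  have hxe : Real.exp qs ≤ Y := le_trans (by simp) hYx
  have hY0 : (0 : ℝ) < Y := lt_of_lt_of_le (Real.exp_pos _) hxe
  have hYn : 0 < Y := by exact_mod_cast hY0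
  obtain ⟨q, hq⟩ : ∃ q : ℝ, q = Real.log Y := ⟨_, rfl⟩
  obtain ⟨l, hl⟩ : ∃ l : ℝ, l = Real.log (32 * Y : ℕ) := ⟨_, rfl⟩
  have hqq : qs ≤ q := by
    rw [hq]
    exact (Real.le_log_iff_exp_le hY0).2 hxe
  have hpos1 : (0 : ℝ) ≤ 8 * m / ε := by positivity
  have hpos2 : (0 : ℝ) < 4 / ε := by positivity
  have hpos3 : (0 : ℝ) < 2 ^ c6 := by positivity
  have hpos4 : (0 : ℝ) < 2 ^ (c1 + 2) := by positivity
  have hq10 : 10 ≤ q := by linarith
  have hq0 : 0 < q := by linarith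
  have hqc6 : (2 : ℝ) ^ c6 ≤ q := by linarith
  have hqc1 : 2 ^ (c1 + 2) + 3 ≤ Real.log Y := by linarith
  have hqm : 8 * m / ε ≤ q := by linarith
  have hqε : 4 / ε ≤ q := by linarith
  have hε4 : 4 / q ≤ ε := by
    rw [div_le_iff₀ hq0]
    rw [div_le_iff₀ hε] at hqε
    linarith
  have hεm : 8 * m / q ≤ ε := by
    rw [div_le_iff₀ hq0]
    rw [div_le_iff₀ hε] at hqm
    linarith
  have hlq : l = Real.log 32 + q := by
    rw [hl, hq]
    push_cast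
    rw [Real.log_mul (by norm_num) hY0.ne']
  have hlog32 : Real.log 32 ≤ 4 := by
    have : Real.log 32 = 5 * Real.log 2 := by
      rw [show (32 : ℝ) = 2 ^ 5 by norm_num, Real.log_pow]
      norm_num
    rw [this]
    have := Real.log_two_lt_d9
    linarith
  have hlog320 : 0 ≤ Real.log 32 := Real.log_nonneg (by norm_num)
  have hql : q ≤ l := by linarith
  have hl4 : l ≤ q + 4 := by linarith
  have hl2 : l ≤ 2 * q := by linarith
  have hl0 : 0 < l := by linarith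
  obtain ⟨hw'1, hrg1⟩ := wfin_rg (by omega) (le_max_left M1 M2) hRg hqc1
  obtain ⟨_, hrg2⟩ := wfin_rg (by omega) (le_max_right M1 M2) hRg hqc1
  have hH : (w' : ℝ) * (Real.log (32 * Y : ℕ)) ^ c6 ≤ H := by
    rw [← hl]
    calc (w' : ℝ) * l ^ c6 ≤ w' * (Real.log Y) ^ (c6 + 1) := by
          refine mul_le_mul_of_nonneg_left ?_ (Nat.cast_nonneg _)
          rw [← hq]
          calc l ^ c6 ≤ (2 * q) ^ c6 := pow_le_pow_left₀ hl0.le hl2 c6
            _ = 2 ^ c6 * q ^ c6 := mul_pow _ _ _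
            _ ≤ q * q ^ c6 := mul_le_mul_of_nonneg_right hqc6 (by positivity)
            _ = q ^ (c6 + 1) := by rw [pow_succ]; ring
      _ ≤ H := hCH
  have hbox := h1 Y w w' hx1 hrg1 H hH hHY b hb
  have hsub : ((box b fun i => if κ i = 1 then Y else H).filter fun h => ¬ (Function.Injective h ∧
        |(cntK Y w w' κ h : ℝ) - HL h * dens w w' κ * (Y / (Real.log Y) ^ (m + 1))| ≤
          ε * (1 + HL h * dens w w' κ) * (Y / (Real.log Y) ^ (m + 1)))) ⊆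
      ((box b fun i => if κ i = 1 then Y else H).filter fun h => ¬ (Function.Injective h ∧
        |wcK Y w w' κ h - dens w w' κ / (Real.log (32 * Y : ℕ)) ^ m * Y * HL h| ≤
          Y / (Real.log Y) ^ (A + 2 * m + 6))) := by
    intro h hh
    rw [mem_filter] at hh ⊢
    refine ⟨hh.1, fun hgood => hh.2 ⟨hgood.1, ?_⟩⟩
    have hmem : ∀ i, 1 ≤ h i ∧ h i ≤ Y := by
      intro i
      have h2 := (Fintype.mem_piFinset.1 hh.1) i
      rw [mem_Ioc] at h2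
      have h3 := hb i
      by_cases ht : κ i = 1
      · have h4 := h3.1 ht
        simp only [ht, if_true] at h2
        omega
      · have h4 := h3.2 ht
        simp only [ht, if_false] at h2
        omega
    obtain ⟨hu1, hu2⟩ := hunw Y w w' hx2 hrg2 h (fun i => (hmem i).2)
    have hHL := wfin_HL hYn hgood.1 hmem
    have hmain := wfin_real (A' := A + 2 * m + 6) (m := m) (c1 := c1 - 3) (c := cntK Y w w' κ h) (Yr := Y) (l := l) (q := q)
      (D := dens w w' κ) (a := HL h) (ε := ε) (δ := δ) (w := wcK Y w w' κ h) (by linarith) hql hl4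
      (wfin_dens0 w w' κ hκ) (Nat.cast_nonneg _) hY0 hHL hδ0 hδ1 hδε (by omega) (by omega)
      (by rw [hq]; exact hu1) (by rw [hq]; exact hu2) (by rw [hq, hl]; exact hgood.2) hεm hε4
    rw [← hq]
    exact hmain
  calc (((box b fun i => if κ i = 1 then Y else H).filter fun h => ¬ (Function.Injective h ∧
        |(cntK Y w w' κ h : ℝ) - HL h * dens w w' κ * (Y / (Real.log Y) ^ (m + 1))| ≤
          ε * (1 + HL h * dens w w' κ) * (Y / (Real.log Y) ^ (m + 1)))).card : ℝ)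
      ≤ ((box b fun i => if κ i = 1 then Y else H).filter fun h => ¬ (Function.Injective h ∧
        |wcK Y w w' κ h - dens w w' κ / (Real.log (32 * Y : ℕ)) ^ m * Y * HL h| ≤
          Y / (Real.log Y) ^ (A + 2 * m + 6))).card := by exact_mod_cast card_le_card hsub
    _ ≤ (∏ i, ((if κ i = 1 then Y else H : ℕ) : ℝ)) / (Real.log Y) ^ (A + 2 * m + 6) := hbox
    _ ≤ (∏ i, ((if κ i = 1 then Y else H : ℕ) : ℝ)) / (Real.log Y) ^ A := by
        rw [← hq]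
        exact div_le_div_of_nonneg_left (prod_nonneg fun i _ => Nat.cast_nonneg _) (by positivity)
          (pow_le_pow_right₀ (by linarith) (by omega))

end Pool.Agent.Lib.VKT
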