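import Pool.Agent.Lib.VK.WFin
import Pool.Agent.Lib.VK.TTail
import Pool.Agent.Lib.G5.Q1
import Pool.Agent.Lib.G5.Q2

/-!
# VK / WK (phase 2, general): windows of length at least a power of the logarithm, thresholds `(log Y)^c`, `(log Y)^d`, true constants

PROOF. `c0 = c10 + 3` (`c10` of `tuplesG κ hκ A`), `c1 = c10`, `D = ⌈d⌉₊ + 1`, `C = C1 + D` (`C1` of tuplesG). `w = ⌊(log Y)^c⌋`, `w' = ⌊(log Y)^d⌋`: `Rg2 Y w w' c10 M` for large `Y`
(`(log Y)^(c10+1) ≤ w` as `c ≥ c10 + 3`; `w'^M ≤ (log Y)^(D M) ≤ Y`), `w' (log Y)^C1 ≤ (log Y)^(D + C1) ≤ H`. `dens w w' κ → Λ = ∏_i (log(d/c))^(κ_i - 1)/(κ_i - 1)!`: for `κ_i = 1`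
the factor is `1`; for `κ_i ≥ 2` `sgK = sg1 esy(κ_i - 2)/(κ_i - 1)`, `G5.q1` and `G5.q2` with `j = κ_i - 2` (`(k-2)! (k-1) = (k-1)!`). For `|dens - Λ| ≤ δ`:
`|cnt (log Y)^(m+1)/Y - HL Λ| ≤ ε' (1 + HL (Λ + 1)) + δ HL ≤ ε (1 + HL)` (`HL ≥ 0` by `tail`).
-/

set_option autoImplicit false

open Finset Filter

namespace Pool.Agent.Lib.VKT

open Pool.Agent.Lib.G5 (bS PP aS sg1 esy SI Ix bB sgK EE Rg2)

/-- the Hardy-Littlewood constant of distinct positive shifts is nonnegative -/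
private theorem wk_HL0 {m : ℕ} (h : Fin m → ℕ) (hi : Function.Injective h) (h1 : ∀ i, 1 ≤ h i) : 0 ≤ HL h := by
  obtain ⟨C, D, -, hT⟩ := tail m
  set N := max 2 (univ.sup h) with hN
  have h2 : ∀ i, 1 ≤ h i ∧ h i ≤ N := fun i => ⟨h1 i, (Finset.le_sup (mem_univ i)).trans (le_max_right _ _)⟩
  set z0 := max 2 ⌈C * Real.log N⌉₊ with hz0
  have hz : ∀ z : ℕ, z0 ≤ z → C * Real.log N ≤ z := by
    intro z hz1
    refine (Nat.le_ceil _).trans ?_
    exact_mod_cast (le_max_right _ _).trans hz1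
  have hlim := (hT z0 N h (le_max_left _ _) (le_max_left _ _) hi h2 (hz z0 le_rfl)).1
  refine ge_of_tendsto hlim ?_
  filter_upwards [eventually_ge_atTop z0] with z hz1
  exact (hT z N h ((le_max_left _ _).trans hz1) (le_max_left _ _) hi h2 (hz z hz1)).2.2.1

private theorem wk_log : Tendsto (fun Y : ℕ => Real.log (Y : ℝ)) atTop atTop :=
  Real.tendsto_log_atTop.comp tendsto_natCast_atTop_atTop

/-- the densities tend to the true constants -/
private theorem wk_dens {m : ℕ} (κ : Fin m → ℕ) (hκ : ∀ i, 1 ≤ κ i) (c d : ℝ) (hc : 0 < c) (hcd : c < d) :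
    Tendsto (fun Y : ℕ => dens ⌊(Real.log Y) ^ c⌋₊ ⌊(Real.log Y) ^ d⌋₊ κ) atTop
      (nhds (∏ i, (Real.log (d / c)) ^ (κ i - 1) / (Nat.factorial (κ i - 1) : ℝ))) := by
  unfold dens
  refine tendsto_finsetProd _ fun i _ => ?_
  have hq1 := Pool.Agent.Lib.G5.q1 c d hc hcd.le
  by_cases h : κ i = 1
  · simp only [h, if_true, Nat.sub_self, pow_zero, Nat.factorial_zero, Nat.cast_one, div_one]
    exact tendsto_const_nhds
  · simp only [h, if_false]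
    unfold sgK
    have hk : 2 ≤ κ i := by
      have := hκ i
      omega
    have hw : Tendsto (fun Y : ℕ => ⌊(Real.log Y) ^ c⌋₊) atTop atTop :=
      tendsto_nat_floor_atTop.comp ((tendsto_rpow_atTop hc).comp wk_log)
    have hq2 := Pool.Agent.Lib.G5.q2 hw hq1 (κ i - 2)
    have h3 := (hq1.mul hq2).div_const ((κ i : ℝ) - 1)
    obtain ⟨j, hj⟩ : ∃ j, κ i = j + 2 := ⟨κ i - 2, by omega⟩
    have h4 : Real.log (d / c) * (Real.log (d / c) ^ (κ i - 2) / (Nat.factorial (κ i - 2) : ℝ)) / ((κ i : ℝ) - 1) =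
        (Real.log (d / c)) ^ (κ i - 1) / (Nat.factorial (κ i - 1) : ℝ) := by
      rw [hj, show j + 2 - 2 = j by omega, show j + 2 - 1 = j + 1 by omega, Nat.factorial_succ]
      have h5 : ((j : ℝ) + 1) ≠ 0 := by positivity
      have h6 : ((Nat.factorial j : ℕ) : ℝ) ≠ 0 := by exact_mod_cast Nat.factorial_ne_zero j
      have h7 : (((j + 2 : ℕ) : ℝ) - 1) = (j : ℝ) + 1 := by
        push_cast
        ring
      rw [h7]
      push_cast
      field_simp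
      ring
    rw [← h4]
    exact h3

/-- ranges of the thresholds -/
private theorem wk_rg (c10 M : ℕ) (c d : ℝ) (hc : (c10 : ℝ) + 3 ≤ c) (hcd : c < d) :
    ∀ᶠ Y : ℕ in atTop, Rg2 Y ⌊(Real.log Y) ^ c⌋₊ ⌊(Real.log Y) ^ d⌋₊ c10 M ∧
      ((⌊(Real.log Y) ^ d⌋₊ : ℕ) : ℝ) ≤ (Real.log Y) ^ (⌈d⌉₊ + 1) := by
  have hpow : ∀ᶠ x : ℝ in atTop, (Real.log x) ^ ((⌈d⌉₊ + 1) * M) ≤ x := by
    have h1 := (Real.isLittleO_pow_log_id_atTop (n := (⌈d⌉₊ + 1) * M)).def (c := 1) one_pos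
    filter_upwards [h1, eventually_ge_atTop (1 : ℝ)] with x hx hx1
    have hl : 0 ≤ Real.log x := Real.log_nonneg hx1
    simp only [id, Real.norm_eq_abs, one_mul] at hx
    rwa [abs_of_nonneg (by positivity), abs_of_nonneg (by linarith)] at hx
  filter_upwards [tendsto_natCast_atTop_atTop.eventually hpow, wk_log.eventually_ge_atTop 2] with Y h1 h2
  set l := Real.log (Y : ℝ) with hl
  have hl1 : (1 : ℝ) ≤ l := by linarith
  have hl0 : (0 : ℝ) ≤ l := by linarith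
  have hd0 : (0 : ℝ) ≤ d := by
    have : (0 : ℝ) ≤ c10 := Nat.cast_nonneg _
    linarith
  have hwd : ((⌊l ^ d⌋₊ : ℕ) : ℝ) ≤ l ^ (⌈d⌉₊ + 1) := by
    refine (Nat.floor_le (Real.rpow_nonneg hl0 _)).trans ?_
    have h3 : l ^ d ≤ l ^ ((⌈d⌉₊ + 1 : ℕ) : ℝ) := by
      refine Real.rpow_le_rpow_of_exponent_le hl1 ?_
      push_cast
      have := Nat.le_ceil d
      linarith
    rwa [Real.rpow_natCast] at h3
  refine ⟨⟨?_, ?_, ?_⟩, hwd⟩
  · have h3 : l ^ c - 1 < ((⌊l ^ c⌋₊ : ℕ) : ℝ) := Nat.sub_one_lt_floor _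
    have h4 : l ^ ((c10 + 3 : ℕ) : ℝ) ≤ l ^ c := by
      refine Real.rpow_le_rpow_of_exponent_le hl1 ?_
      push_cast
      exact hc
    rw [Real.rpow_natCast] at h4
    have h5 : (1 : ℝ) ≤ l ^ (c10 + 1) := one_le_pow₀ hl1
    have h6 : l ^ (c10 + 3) = l ^ (c10 + 1) * l ^ 2 := by ring
    have h7 : (4 : ℝ) ≤ l ^ 2 := by nlinarith
    nlinarith
  · exact Nat.floor_le_floor (Real.rpow_le_rpow_of_exponent_le hl1 hcd.le)
  · have h3 : ((⌊l ^ d⌋₊ ^ M : ℕ) : ℝ) ≤ (Y : ℝ) := by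
      push_cast
      refine (pow_le_pow_left₀ (Nat.cast_nonneg _) hwd M).trans ?_
      rw [← pow_mul]
      exact h1
    exact_mod_cast h3

open Classical in
theorem tuplesK2 {m : ℕ} (κ : Fin m → ℕ) (hκ : ∀ i, 1 ≤ κ i) (A : ℕ) : ∃ c0 : ℕ, ∀ c d : ℝ, (c0 : ℝ) ≤ c → c < d →
    ∃ C : ℕ, ∀ ε : ℝ, 0 < ε → ∃ x0 : ℝ, ∀ Y H : ℕ, x0 ≤ Y → (Real.log Y) ^ C ≤ H → H ≤ Y →
      ∀ b : Fin m → ℕ, (∀ i, (κ i = 1 → b i = 0) ∧ (κ i ≠ 1 → b i + H ≤ Y)) →
        (((box b fun i => if κ i = 1 then Y else H).filter fun h => ¬ (Function.Injective h ∧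
          |(cntK Y ⌊(Real.log Y) ^ c⌋₊ ⌊(Real.log Y) ^ d⌋₊ κ h : ℝ) * (Real.log Y) ^ (m + 1) / Y -
            HL h * ∏ i, (Real.log (d / c)) ^ (κ i - 1) / (Nat.factorial (κ i - 1) : ℝ)| ≤ ε * (1 + HL h))).card : ℝ) ≤
            (∏ i, ((if κ i = 1 then Y else H : ℕ) : ℝ)) / (Real.log Y) ^ A := by
  obtain ⟨c10, h10⟩ := tuplesG κ hκ A
  refine ⟨c10 + 3, ?_⟩
  intro c d hc hcd
  obtain ⟨C1, hC1⟩ := h10 c10 le_rfl
  refine ⟨C1 + (⌈d⌉₊ + 1), ?_⟩
  intro ε hε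
  have hc' : (c10 : ℝ) + 3 ≤ c := by
    push_cast at hc
    exact hc
  have hc0 : 0 < c := by
    have : (0 : ℝ) ≤ c10 := Nat.cast_nonneg _
    linarith
  set Λ : ℝ := ∏ i, (Real.log (d / c)) ^ (κ i - 1) / (Nat.factorial (κ i - 1) : ℝ) with hΛ
  have hΛ0 : 0 ≤ Λ := by
    rw [hΛ]
    refine prod_nonneg fun i _ => div_nonneg (pow_nonneg (Real.log_nonneg ?_) _) (Nat.cast_nonneg _)
    rw [le_div_iff₀ hc0]
    linarith
  have hε' : 0 < ε / (2 * (Λ + 1)) := by positivity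
  obtain ⟨M, x1, hM⟩ := hC1 (ε / (2 * (Λ + 1))) hε'
  have hδ : 0 < min 1 (ε / 2) := lt_min one_pos (by positivity)
  have hdens := (wk_dens κ hκ c d hc0 hcd).eventually (Metric.ball_mem_nhds _ hδ)
  obtain ⟨n0, hn0⟩ := eventually_atTop.1 ((wk_rg c10 M c d hc' hcd).and (hdens.and (wk_log.eventually_ge_atTop 1)))
  refine ⟨max x1 (max n0 1), ?_⟩
  intro Y H hY hH hHY b hb
  have hYn : n0 ≤ Y := by exact_mod_cast ((le_max_left _ _).trans (le_max_right _ _)).trans hY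
  have hY1 : (1 : ℝ) ≤ Y := ((le_max_right _ _).trans (le_max_right _ _)).trans hY
  obtain ⟨⟨hRg, hwd⟩, hdn, hl1⟩ := hn0 Y hYn
  rw [Real.dist_eq] at hdn
  set l := Real.log (Y : ℝ) with hl
  have hl0 : 0 < l := by linarith
  set w := ⌊l ^ c⌋₊ with hw
  set w' := ⌊l ^ d⌋₊ with hw'
  have hwH : (w' : ℝ) * l ^ C1 ≤ H := by
    refine le_trans ?_ hH
    rw [pow_add, mul_comm]
    exact mul_le_mul_of_nonneg_left hwd (by positivity)
  have hmain := hM Y w w' H ((le_max_left _ _).trans hY) hRg hwH hHY b hb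
  refine le_trans ?_ hmain
  have hsub : ((box b fun i => if κ i = 1 then Y else H).filter fun h => ¬ (Function.Injective h ∧
      |(cntK Y w w' κ h : ℝ) * l ^ (m + 1) / Y - HL h * Λ| ≤ ε * (1 + HL h))) ⊆
      ((box b fun i => if κ i = 1 then Y else H).filter fun h => ¬ (Function.Injective h ∧
        |(cntK Y w w' κ h : ℝ) - HL h * dens w w' κ * (Y / l ^ (m + 1))| ≤
          ε / (2 * (Λ + 1)) * (1 + HL h * dens w w' κ) * (Y / l ^ (m + 1)))) := by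
    intro h hh
    rw [mem_filter] at hh ⊢
    refine ⟨hh.1, fun hcon => hh.2 ⟨hcon.1, ?_⟩⟩
    obtain ⟨hinj, hE⟩ := hcon
    have hh1 : ∀ i, 1 ≤ h i := by
      intro i
      have h1 := hh.1
      unfold box at h1
      have h2 := Fintype.mem_piFinset.1 h1 i
      rw [mem_Ioc] at h2
      omega
    have hHL := wk_HL0 h hinj hh1
    set q : ℝ := Y / l ^ (m + 1) with hq
    have hq0 : 0 < q := by positivity
    have h1 : (cntK Y w w' κ h : ℝ) * l ^ (m + 1) / Y = (cntK Y w w' κ h : ℝ) / q := by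
      rw [hq]
      field_simp
    have h2 : |(cntK Y w w' κ h : ℝ) / q - HL h * dens w w' κ| ≤ ε / (2 * (Λ + 1)) * (1 + HL h * dens w w' κ) := by
      have h3 : (cntK Y w w' κ h : ℝ) / q - HL h * dens w w' κ = ((cntK Y w w' κ h : ℝ) - HL h * dens w w' κ * q) / q := by
        field_simp
      rw [h3, abs_div, abs_of_pos hq0, div_le_iff₀ hq0]
      exact hE
    have hd1 : dens w w' κ ≤ Λ + 1 := by
      have := (abs_lt.1 (lt_of_lt_of_le hdn (min_le_left _ _))).2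
      linarith
    have hd2 : |dens w w' κ - Λ| ≤ ε / 2 := (lt_of_lt_of_le hdn (min_le_right _ _)).le
    have h4 : (cntK Y w w' κ h : ℝ) / q - HL h * Λ =
        ((cntK Y w w' κ h : ℝ) / q - HL h * dens w w' κ) + HL h * (dens w w' κ - Λ) := by ring
    have h5 : |HL h * (dens w w' κ - Λ)| ≤ HL h * (ε / 2) := by
      rw [abs_mul, abs_of_nonneg hHL]
      exact mul_le_mul_of_nonneg_left hd2 hHL
    have h6 : ε / (2 * (Λ + 1)) * (1 + HL h * dens w w' κ) ≤ ε / 2 + HL h * (ε / 2) := by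
      have h7 : 1 + HL h * dens w w' κ ≤ (1 + HL h) * (Λ + 1) := by nlinarith
      refine (mul_le_mul_of_nonneg_left h7 hε'.le).trans (le_of_eq ?_)
      field_simp
    rw [h1, h4]
    refine (abs_add_le _ _).trans ?_
    nlinarith
  exact_mod_cast card_le_card hsub

end Pool.Agent.Lib.VKT
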