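import Pool.Agent.Lib.VK.WFin
import Pool.Agent.Lib.VK.WDens
import Pool.Agent.Lib.VK.TPos

/-!
# VK / WR (phase 2, general): the theorem for all thresholds with the true main term, relative error

PROOF. `c10` of `tuplesG κ hκ A`, `c1 = c10`, `c0 = c10 + 1`, `C` of tuplesG. `Λ = ∏ LL^(κ_i - 1)/(κ_i - 1)! ≥ Λ0 = ∏ (log (1+η))^(κ_i - 1)/(κ_i - 1)! > 0`, `s` of `pos m`; tuplesG with
`ε' = min 1 (ε/ (2/(s Λ0) + 4))`; `densR` with `ε'`. `h` admissible: `HL ≥ s`: `|cnt - HL dens y| ≤ ε' (1 + HL dens) y`, `|dens - Λ| ≤ ε' Λ`, `1 ≤ HL Λ/(s Λ0)`. `h` not admissible: `HL = 0` (`zero`), a prime `p ≤ m + 1`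
divides one of `n, n + h_1, ..., n + h_m` for every `n`; `p ≤ m + 1 ≤ log Y ≤ w`, so `cntK = 0`.
-/

set_option autoImplicit false

open Finset Filter

namespace Pool.Agent.Lib.VKT

open Pool.Agent.Lib.G5 (bS PP aS sg1 esy SI Ix bB sgK EE Rg2)

/-- a prime divides one of `n, n + h_1, ..., n + h_m` for every `n` when the shape meets all the classes -/
private theorem wr_div {m : ℕ} (h : Fin m → ℕ) {p : ℕ} (hp : p.Prime) (hn : nu h p = p) (n : ℕ) :
    p ∣ n ∨ ∃ i, p ∣ n + h i := by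
  have hsub : insert 0 (univ.image fun i => h i % p) ⊆ range p := by
    intro x hx
    rw [mem_insert, mem_image] at hx
    rw [mem_range]
    rcases hx with hx | ⟨i, -, hx⟩
    · rw [hx]; exact hp.pos
    · rw [← hx]; exact Nat.mod_lt _ hp.pos
  have heq : insert 0 (univ.image fun i => h i % p) = range p := by
    apply eq_of_subset_of_card_le hsub
    rw [card_range]
    exact hn.ge
  have hmem : (p - n % p) % p ∈ insert 0 (univ.image fun i => h i % p) := by
    rw [heq, mem_range]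
    exact Nat.mod_lt _ hp.pos
  have hlt : n % p < p := Nat.mod_lt _ hp.pos
  rw [mem_insert, mem_image] at hmem
  rcases hmem with h0 | ⟨i, -, hi⟩
  · left
    have h1 : p ∣ p - n % p := Nat.dvd_of_mod_eq_zero h0
    by_contra hnd
    have h2 : 0 < n % p := Nat.pos_of_ne_zero fun hh => hnd (Nat.dvd_of_mod_eq_zero hh)
    have h3 := Nat.le_of_dvd (by omega) h1
    omega
  · right
    refine ⟨i, ?_⟩
    rw [Nat.dvd_iff_mod_eq_zero, Nat.add_mod, hi, Nat.add_mod_mod]
    have : n % p + (p - n % p) = p := by omega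
    rw [this, Nat.mod_self]

/-- the estimate for one shape -/
private theorem wr_num {N a dn La La0 s y e eps : ℝ} (hs : 0 < s) (ha : s ≤ a) (hL0 : 0 < La0) (hL : La0 ≤ La) (hy : 0 ≤ y)
    (he0 : 0 ≤ e) (he1 : e ≤ 1) (hee : e * (1 / (s * La0) + 3) ≤ eps) (h1 : |N - a * dn * y| ≤ e * (1 + a * dn) * y)
    (h2 : |dn - La| ≤ e * La) : |N - a * y * La| ≤ eps * (a * y * La) := by
  have ha0 : 0 < a := by linarith
  have hLa : 0 < La := by linarith
  have hd : dn ≤ 2 * La := by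
    have := (abs_le.1 h2).2
    nlinarith
  have hone : 1 ≤ a * La * (1 / (s * La0)) := by
    rw [mul_one_div, le_div_iff₀ (by positivity), one_mul]
    exact mul_le_mul ha hL hL0.le ha0.le
  have e1 : N - a * y * La = (N - a * dn * y) + a * y * (dn - La) := by ring
  have h3 : |a * y * (dn - La)| ≤ a * y * (e * La) := by
    rw [abs_mul, abs_of_nonneg (by positivity)]
    exact mul_le_mul_of_nonneg_left h2 (by positivity)
  have h4 : e * (1 + a * dn) * y ≤ e * (a * La * (1 / (s * La0)) + 2 * (a * La)) * y := by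
    refine mul_le_mul_of_nonneg_right (mul_le_mul_of_nonneg_left ?_ he0) hy
    nlinarith
  calc |N - a * y * La| ≤ |N - a * dn * y| + |a * y * (dn - La)| := by rw [e1]; exact abs_add_le _ _
    _ ≤ e * (a * La * (1 / (s * La0)) + 2 * (a * La)) * y + a * y * (e * La) := by linarith
    _ = e * (1 / (s * La0) + 3) * (a * y * La) := by ring
    _ ≤ eps * (a * y * La) := mul_le_mul_of_nonneg_right hee (by positivity)

open Classical in
theorem tuplesR {m : ℕ} (κ : Fin m → ℕ) (hκ : ∀ i, 1 ≤ κ i) (A : ℕ) : ∃ c0 C : ℕ, ∀ ε η : ℝ, 0 < ε → 0 < η → ∃ (M : ℕ) (x0 : ℝ),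
    ∀ Y w w' H : ℕ, x0 ≤ Y → (Real.log Y) ^ c0 ≤ w → (w : ℝ) ^ (1 + η) ≤ w' → w' ^ M ≤ Y → (w' : ℝ) * (Real.log Y) ^ C ≤ H → H ≤ Y →
      ∀ b : Fin m → ℕ, (∀ i, (κ i = 1 → b i = 0) ∧ (κ i ≠ 1 → b i + H ≤ Y)) →
        (((box b fun i => if κ i = 1 then Y else H).filter fun h => ¬ (Function.Injective h ∧
          |(cntK Y w w' κ h : ℝ) - HL h * (Y / (Real.log Y) ^ (m + 1)) * ∏ i, (LL w w') ^ (κ i - 1) / (Nat.factorial (κ i - 1) : ℝ)| ≤
            ε * (HL h * (Y / (Real.log Y) ^ (m + 1)) * ∏ i, (LL w w') ^ (κ i - 1) / (Nat.factorial (κ i - 1) : ℝ)))).card : ℝ) ≤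
          (∏ i, ((if κ i = 1 then Y else H : ℕ) : ℝ)) / (Real.log Y) ^ A := by
  obtain ⟨s, hs, hpos⟩ := pos m
  obtain ⟨c10, h10⟩ := tuplesG κ hκ A
  obtain ⟨C, hC⟩ := h10 c10 le_rfl
  refine ⟨c10 + 1, C, fun ε η hε hη => ?_⟩
  have hlη : 0 < Real.log (1 + η) := Real.log_pos (by linarith)
  obtain ⟨La0, hLa0⟩ : ∃ La0 : ℝ, La0 = ∏ i, (Real.log (1 + η)) ^ (κ i - 1) / (Nat.factorial (κ i - 1) : ℝ) := ⟨_, rfl⟩
  have hL0 : 0 < La0 := by
    rw [hLa0]
    exact prod_pos fun i _ => div_pos (pow_pos hlη _) (by exact_mod_cast Nat.factorial_pos _)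
  obtain ⟨e, he⟩ : ∃ e : ℝ, e = min 1 (ε / (1 / (s * La0) + 3)) := ⟨_, rfl⟩
  have he0 : 0 < e := by rw [he]; exact lt_min one_pos (by positivity)
  have he1 : e ≤ 1 := by rw [he]; exact min_le_left _ _
  have hee : e * (1 / (s * La0) + 3) ≤ ε := by
    rw [← le_div_iff₀ (by positivity), he]
    exact min_le_right _ _
  obtain ⟨M, x0, hx0⟩ := hC e he0
  obtain ⟨z0, hz0⟩ := densR κ hκ e η he0 hη
  refine ⟨M, max x0 (Real.exp (max ((m : ℝ) + 3) z0)), fun Y w w' H hY hw hww hwM hH hHY b hb => ?_⟩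
  have hYx0 : x0 ≤ Y := (le_max_left _ _).trans hY
  have hYe : Real.exp (max ((m : ℝ) + 3) z0) ≤ Y := (le_max_right _ _).trans hY
  have hY0 : (0 : ℝ) < Y := lt_of_lt_of_le (Real.exp_pos _) hYe
  have hlY : max ((m : ℝ) + 3) z0 ≤ Real.log Y := by
    rw [Real.le_log_iff_exp_le hY0]
    exact hYe
  have hlm : (m : ℝ) + 3 ≤ Real.log Y := (le_max_left _ _).trans hlY
  have hlz : (z0 : ℝ) ≤ Real.log Y := (le_max_right _ _).trans hlY
  have hm0 : (0 : ℝ) ≤ m := Nat.cast_nonneg _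
  have hl0 : 0 < Real.log Y := by linarith
  have hl1 : 1 ≤ Real.log Y := by linarith
  have hlw : Real.log Y ≤ w := by
    refine le_trans ?_ hw
    calc Real.log Y = (Real.log Y) ^ 1 := (pow_one _).symm
      _ ≤ (Real.log Y) ^ (c10 + 1) := pow_le_pow_right₀ hl1 (by omega)
  have hwz : z0 ≤ w := by exact_mod_cast hlz.trans hlw
  have hw2r : (2 : ℝ) ≤ w := by linarith
  have hw2 : 2 ≤ w := by exact_mod_cast hw2r
  have hww' : w ≤ w' := by
    have h1 : (w : ℝ) ≤ (w : ℝ) ^ (1 + η) := by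
      calc (w : ℝ) = (w : ℝ) ^ (1 : ℝ) := (Real.rpow_one _).symm
        _ ≤ (w : ℝ) ^ (1 + η) := Real.rpow_le_rpow_of_exponent_le (by linarith) (by linarith)
    exact_mod_cast h1.trans hww
  have hrg : Rg2 Y w w' c10 M := ⟨hw, hww', hwM⟩
  have hmain := hx0 Y w w' H hYx0 hrg hH hHY b hb
  have hdn := hz0 w w' hwz hww
  have hLL := LL_le hη hw2 hww
  have hLL0 : 0 < LL w w' := lt_of_lt_of_le hlη hLL
  have hLaL : La0 ≤ ∏ i, (LL w w') ^ (κ i - 1) / (Nat.factorial (κ i - 1) : ℝ) := by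
    rw [hLa0]
    refine prod_le_prod (fun i _ => div_nonneg (pow_nonneg hlη.le _) (Nat.cast_nonneg _)) fun i _ => ?_
    exact div_le_div_of_nonneg_right (pow_le_pow_left₀ hlη.le hLL _) (Nat.cast_nonneg _)
  refine le_trans (Nat.cast_le.2 (card_le_card fun h hh => ?_)) hmain
  rw [mem_filter] at hh ⊢
  refine ⟨hh.1, fun hgood => hh.2 ⟨hgood.1, ?_⟩⟩
  have h1le : ∀ i, 1 ≤ h i := by
    intro i
    have h2 := hh.1
    unfold box at h2
    rw [Fintype.mem_piFinset] at h2
    have h3 := h2 i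
    rw [mem_Ioc] at h3
    omega
  have hy : (0 : ℝ) ≤ (Y : ℝ) / (Real.log Y) ^ (m + 1) := by positivity
  by_cases had : ∀ p : ℕ, p.Prime → nu h p < p
  · exact wr_num hs (hpos h hgood.1 h1le had) hL0 hLaL hy he0.le he1 hee hgood.2 hdn
  · push Not at had
    obtain ⟨p, hp, hle⟩ := had
    have hle2 : nu h p ≤ p := by
      unfold nu
      refine (card_le_card (t := range p) ?_).trans (card_range p).le
      intro x hx
      rw [mem_insert, mem_image] at hx
      rw [mem_range]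
      rcases hx with hx | ⟨i, -, hx⟩
      · rw [hx]; exact hp.pos
      · rw [← hx]; exact Nat.mod_lt _ hp.pos
    have hnp : nu h p = p := le_antisymm hle2 hle
    have hzero : HL h = 0 := zero m h hgood.1 h1le hp hnp
    have hpm : p ≤ m + 1 := by
      rw [← hnp]
      unfold nu
      refine (card_insert_le _ _).trans ?_
      have : (univ.image fun i => h i % p).card ≤ m := card_image_le.trans (by simp)
      omega
    have hpmr : (p : ℝ) ≤ m + 1 := by exact_mod_cast hpm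
    have hpw : p ≤ w := by
      have : (p : ℝ) ≤ w := by linarith
      exact_mod_cast this
    have hpY : p < Y := by
      have h5 : Real.log Y ≤ Y := (Real.log_le_sub_one_of_pos hY0).trans (by linarith)
      have : (p : ℝ) < Y := by linarith
      exact_mod_cast this
    have hcount : cntK Y w w' κ h = 0 := by
      unfold cntK
      rw [card_eq_zero, filter_eq_empty_iff]
      intro n hn hall
      rw [mem_Ioc] at hn
      rcases wr_div h hp hnp n with hdv | ⟨i, hdv⟩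
      · have := (Nat.prime_dvd_prime_iff_eq hp hall.1).1 hdv
        omega
      · have h7 := (hall.2 i).2.2.1 p (Nat.mem_primeFactors.2 ⟨hp, hdv, by omega⟩)
        omega
    rw [hcount, hzero]
    simp
end Pool.Agent.Lib.VKT
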