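import Pool.Agent.Lib.VK.WSp
import Pool.Agent.Lib.G5.R0
import Pool.Agent.Lib.G3.VbA

/-!
# VK / WVar (phase 2, general): the local mean square of `Fk` minus its model (copy of UVar)

PROOF. As `varK` (UVar.lean, landed) with `varG2 (A+9) c2` and `G5.r0 k 3 (c1+1)` at `4Y` (BlkG; third part: `2^i ≤ w'`, so `P l^c6 ≤ w' l^c6 ≤ H`); `BlkH (32Y)`: `hP2`, `hM2` from
`P^400 ≤ 4Y`, `(PM)^200 ≤ 4Y`; the other conditions as in UVar. All blocks have the same `H`.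
-/

set_option autoImplicit false

open Finset Filter

namespace Pool.Agent.Lib.VKT

open Pool.Agent.Lib.G3 (VV)
open Pool.Agent.Lib.G5 (bS PP aS sg1 esy SI Ix bB sgK EE Rg2)

private theorem wvar_scale (a : ℝ) (ha0 : 0 ≤ a) (ha1 : a ≤ 1) (f : ℕ → ℂ) (H : ℕ) (α : ℝ) (Y : ℕ) :
    VV (fun n => (a : ℂ) * f n) H α Y ≤ VV f H α Y := by
  unfold Pool.Agent.Lib.G3.VV
  refine sum_le_sum fun y _ => ?_
  have h1 : Pool.Agent.Lib.G3.WW (fun n => (a : ℂ) * f n) H α y = (a : ℂ) * Pool.Agent.Lib.G3.WW f H α y := by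
    unfold Pool.Agent.Lib.G3.WW
    rw [mul_sum]
    exact sum_congr rfl fun n _ => by ring
  rw [h1, norm_mul, Complex.norm_real, Real.norm_of_nonneg ha0, mul_pow]
  have h2 : a ^ 2 ≤ 1 := pow_le_one₀ ha0 ha1
  nlinarith [sq_nonneg ‖Pool.Agent.Lib.G3.WW f H α y‖]

/-- the conditions at `4Y` give the conditions at `32Y` -/
private theorem wvar_blk {Y P R M : ℕ} {S : Finset ℕ} {a : ℕ → ℝ} {e c1 : ℕ}
    (h : Pool.Agent.Lib.G5.BlkG (4 * Y) P R M S a e (c1 + 1)) (hY : Y ≤ 8 * (P * M * R))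
    (hl3 : (Real.log (32 * Y : ℕ)) ^ c1 ≤ (Real.log (4 * Y : ℕ)) ^ (c1 + 1)) :
    BlkH (32 * Y) P R M S a c1 := by
  refine ⟨?_, ?_, h.hM1, ?_, ?_, ?_, h.hS, h.ha, ?_, h.hb⟩
  · exact le_trans (by linarith) h.hP1
  · exact h.hP2.trans (by omega)
  · exact h.hM2.trans (by omega)
  · have := h.hR2
    omega
  · omega
  · intro m hm p hp hpm
    exact lt_of_le_of_lt (by linarith) (h.ham m hm p hp hpm)

theorem varK2 (K A c2 : ℕ) : ∃ g : ℕ, c2 ≤ g ∧ ∃ a1 : ℕ, ∀ c1 : ℕ, a1 ≤ c1 → ∃ c6 : ℕ, c1 + 4 * g + 20 ≤ c6 ∧ ∃ x0 : ℝ,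
    ∀ Y : ℕ, x0 ≤ Y → ∀ k w w' : ℕ, 2 ≤ k → k ≤ K → Rg2 (4 * Y) w w' (c1 + 1) (1000 * K) →
      ∀ H : ℕ, (w' : ℝ) * (Real.log (32 * Y : ℕ)) ^ c6 ≤ H → ∀ α : ℝ,
        VV (fun n => ((Fk Y k w w' n : ℝ) : ℂ) - ((rk Y k w w' n * ram ⌊(Real.log (32 * Y : ℕ)) ^ g⌋₊ n : ℝ) : ℂ)) H α
          (32 * Y + H + 1) ≤ 1 / (Real.log (32 * Y : ℕ)) ^ A * (32 * Y : ℕ) * (H : ℝ) ^ 2 := by
  obtain ⟨g, hg, a1, hv⟩ := varG2 (A + 8) c2
  refine ⟨g, hg, a1, fun c1 hc1 => ?_⟩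
  obtain ⟨c6, hc6, x0, hx⟩ := hv c1 hc1
  have hq : ∀ k : ℕ, ∃ x : ℝ, 2 ≤ k → ∀ Y : ℕ, x ≤ Y → ∀ w w' : ℕ, Rg2 Y w w' (c1 + 1) (1000 * k) →
      (∀ b ∈ Ix Y 3 k w w', Pool.Agent.Lib.G5.BlkG Y (2 ^ b.1) (2 ^ b.2.2) (2 ^ b.2.1) (SI w w' b.1) (aS k w w') 3 (c1 + 1)) ∧
        ((Ix Y 3 k w w').card : ℝ) ≤ (Real.log Y) ^ 4 ∧ ∀ b ∈ Ix Y 3 k w w', 2 ^ b.1 ≤ w' := by
    intro k
    by_cases hk : 2 ≤ k
    · obtain ⟨x, hx⟩ := Pool.Agent.Lib.G5.r0 k 3 (c1 + 1) hk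
      exact ⟨x, fun _ => hx⟩
    · exact ⟨0, fun h => absurd h hk⟩
  choose xq hxq using hq
  refine ⟨c6, hc6, max (max x0 (∑ k ∈ range (K + 1), |xq k|)) (Real.exp (2 ^ c1) + 3), fun Y hY k w w' hk hkK hRg H hH α => ?_⟩
  have hY1 : x0 ≤ Y := (le_max_left _ _).trans ((le_max_left _ _).trans hY)
  have hY2 : ∑ k ∈ range (K + 1), |xq k| ≤ Y := (le_max_right _ _).trans ((le_max_left _ _).trans hY)
  have hY3 : Real.exp (2 ^ c1) + 3 ≤ Y := (le_max_right _ _).trans hY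
  have hY0 : (0 : ℝ) ≤ Y := Nat.cast_nonneg _
  have hexp : 0 < Real.exp (2 ^ c1) := Real.exp_pos _
  have hc4 : ((4 * Y : ℕ) : ℝ) = 4 * Y := by push_cast; ring
  have hc32 : ((32 * Y : ℕ) : ℝ) = 32 * Y := by push_cast; ring
  have hYZ : x0 ≤ ((32 * Y : ℕ) : ℝ) := by rw [hc32]; linarith
  have hl2 : Real.log (4 * Y : ℕ) ≤ Real.log (32 * Y : ℕ) := by
    refine Real.log_le_log ?_ ?_
    · rw [hc4]; linarith
    · rw [hc4, hc32]; linarith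
  have hl1' : (2 : ℝ) ^ c1 ≤ Real.log (4 * Y : ℕ) := by
    rw [← Real.log_exp ((2 : ℝ) ^ c1)]
    refine Real.log_le_log hexp ?_
    rw [hc4]; linarith
  have hl1 : 1 ≤ Real.log (4 * Y : ℕ) := le_trans (one_le_pow₀ (by norm_num)) hl1'
  have hL : 1 ≤ Real.log (32 * Y : ℕ) := hl1.trans hl2
  have hl3 : (Real.log (32 * Y : ℕ)) ^ c1 ≤ (Real.log (4 * Y : ℕ)) ^ (c1 + 1) := by
    have h1 : Real.log (32 * Y : ℕ) ≤ 2 * Real.log (4 * Y : ℕ) := by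
      have h2 : (2 : ℝ) * Real.log (4 * Y : ℕ) = Real.log (((4 * Y : ℕ) : ℝ) ^ 2) := by
        rw [Real.log_pow]; norm_num
      rw [h2]
      refine Real.log_le_log ?_ ?_
      · rw [hc32]; linarith
      · rw [hc4, hc32]
        nlinarith
    calc (Real.log (32 * Y : ℕ)) ^ c1 ≤ (2 * Real.log (4 * Y : ℕ)) ^ c1 := pow_le_pow_left₀ (by linarith) h1 c1
      _ = 2 ^ c1 * (Real.log (4 * Y : ℕ)) ^ c1 := mul_pow _ _ _
      _ ≤ Real.log (4 * Y : ℕ) * (Real.log (4 * Y : ℕ)) ^ c1 := mul_le_mul_of_nonneg_right hl1' (by positivity)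
      _ = (Real.log (4 * Y : ℕ)) ^ (c1 + 1) := by rw [pow_succ]; ring
  have hV := hx (32 * Y) hYZ
  have hxk : xq k ≤ ((4 * Y : ℕ) : ℝ) := by
    have h1 : |xq k| ≤ ∑ k ∈ range (K + 1), |xq k| :=
      single_le_sum (f := fun k => |xq k|) (fun _ _ => abs_nonneg _) (mem_range.2 (Nat.lt_succ_of_le hkK))
    rw [hc4]
    linarith [le_abs_self (xq k)]
  have hw1 : 1 ≤ w' := by
    have h1 : (1 : ℝ) ≤ w := le_trans (one_le_pow₀ hl1) hRg.h1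
    exact le_trans (by exact_mod_cast h1) hRg.h2
  have hRgk : Rg2 (4 * Y) w w' (c1 + 1) (1000 * k) :=
    ⟨hRg.h1, hRg.h2, (Nat.pow_le_pow_right hw1 (by omega)).trans hRg.h3⟩
  obtain ⟨hblk, hcard, hPw⟩ := hxq k hk (4 * Y) hxk w w' hRgk
  set Q := ⌊(Real.log (32 * Y : ℕ)) ^ g⌋₊ with hQ
  set a : ℕ × ℕ × ℕ → ℝ := fun b => Real.log (2 * 2 ^ b.2.2 : ℕ) / Real.log (32 * Y : ℕ) with ha
  have hsplit : (fun n => ((Fk Y k w w' n : ℝ) : ℂ) - ((rk Y k w w' n * ram Q n : ℝ) : ℂ)) =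
      fun n => ∑ b ∈ IY Y k w w', (a b : ℂ) * dfS (SI w w' b.1) (aS k w w') (2 ^ b.2.2) (2 ^ b.2.1) Q n := by
    funext n
    unfold Fk rk
    rw [sum_mul, Complex.ofReal_sum, Complex.ofReal_sum, ← sum_sub_distrib]
    refine sum_congr rfl fun b _ => ?_
    rw [ha]
    simp only
    unfold bB dfS
    push_cast
    ring
  rw [hsplit]
  refine (Pool.Agent.Lib.G3.VV_sum_le _ _ _ _ _).trans ?_
  have hone : ∀ b ∈ IY Y k w w',
      VV (fun n => (a b : ℂ) * dfS (SI w w' b.1) (aS k w w') (2 ^ b.2.2) (2 ^ b.2.1) Q n) H α (32 * Y + H + 1) ≤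
      (32 * Y : ℕ) * (H : ℝ) ^ 2 / (Real.log (32 * Y : ℕ)) ^ (A + 8) := by
    intro b hb
    unfold IY at hb
    rw [mem_filter] at hb
    have hb1 := hblk b hb.1
    have hR2 := hb1.hR2
    have hP1 : 1 ≤ 2 ^ b.1 := Nat.one_le_two_pow
    have hM1 : 1 ≤ 2 ^ b.2.1 := Nat.one_le_two_pow
    have hR1 : 1 ≤ 2 ^ b.2.2 := Nat.one_le_two_pow
    have hRle : 2 ^ b.2.2 ≤ 4 * Y := le_trans (Nat.le_mul_of_pos_left _ (Nat.mul_pos hP1 hM1)) hR2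
    have ha0 : 0 ≤ a b := div_nonneg (Real.log_nonneg (by exact_mod_cast (by omega : 1 ≤ 2 * 2 ^ b.2.2))) (by linarith)
    have ha1 : a b ≤ 1 := by
      rw [ha]
      simp only
      rw [div_le_one (by linarith)]
      refine Real.log_le_log (by exact_mod_cast (by omega : 0 < 2 * 2 ^ b.2.2)) ?_
      exact_mod_cast (by omega : 2 * 2 ^ b.2.2 ≤ 32 * Y)
    refine (wvar_scale (a b) ha0 ha1 _ _ _ _).trans ?_
    refine hV _ _ _ _ _ (wvar_blk hb1 hb.2 hl3) H ?_ α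
    refine le_trans (mul_le_mul_of_nonneg_right ?_ (by positivity)) hH
    exact_mod_cast hPw b hb.1
  have htot := sum_le_sum hone
  rw [sum_const, nsmul_eq_mul] at htot
  have hcI : ((IY Y k w w').card : ℝ) ≤ (Real.log (32 * Y : ℕ)) ^ 4 := by
    refine le_trans ?_ (hcard.trans (pow_le_pow_left₀ (by linarith) hl2 4))
    exact_mod_cast card_le_card (filter_subset _ _)
  have hl0 : 0 < Real.log (32 * Y : ℕ) := by linarith
  have hpos : 0 ≤ (32 * Y : ℕ) * (H : ℝ) ^ 2 / (Real.log (32 * Y : ℕ)) ^ (A + 8) := by positivity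
  calc ((IY Y k w w').card : ℝ) * ∑ b ∈ IY Y k w w',
        VV (fun n => (a b : ℂ) * dfS (SI w w' b.1) (aS k w w') (2 ^ b.2.2) (2 ^ b.2.1) Q n) H α (32 * Y + H + 1) ≤
      ((IY Y k w w').card : ℝ) * (((IY Y k w w').card : ℝ) * ((32 * Y : ℕ) * (H : ℝ) ^ 2 / (Real.log (32 * Y : ℕ)) ^ (A + 8))) :=
        mul_le_mul_of_nonneg_left htot (Nat.cast_nonneg _)
    _ ≤ (Real.log (32 * Y : ℕ)) ^ 4 * ((Real.log (32 * Y : ℕ)) ^ 4 * ((32 * Y : ℕ) * (H : ℝ) ^ 2 / (Real.log (32 * Y : ℕ)) ^ (A + 8))) := by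
        refine mul_le_mul hcI (mul_le_mul_of_nonneg_right hcI hpos) (by positivity) (by positivity)
    _ = 1 / (Real.log (32 * Y : ℕ)) ^ A * (32 * Y : ℕ) * (H : ℝ) ^ 2 := by
        rw [pow_add]
        field_simp

end Pool.Agent.Lib.VKT
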