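import Pool.Agent.Lib.VK.HVar

/-!
# VK / WVs (phase 2, general): the local mean square of a block function minus its model

`varJ` (H board) with the stronger size conditions of `BlkH`.
-/

set_option autoImplicit false

open Finset Filter

namespace Pool.Agent.Lib.VKT

open Pool.Agent.Lib.G3 (VV)

private theorem wvs_pow {x Z : ℕ} {a b : ℕ} (hb : b ≠ 0) (hab : b ≤ a) (h : x ^ a ≤ Z) : x ^ b ≤ Z := by
  rcases Nat.eq_zero_or_pos x with h0 | h1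
  · rw [h0, zero_pow hb]
    exact Nat.zero_le _
  · exact (Nat.pow_le_pow_right h1 hab).trans h

private theorem wvs_blk {Z P R M : ℕ} {S : Finset ℕ} {a : ℕ → ℝ} {c1 : ℕ} (h : BlkH Z P R M S a c1) : BlkJ Z P R M S a c1 :=
  ⟨h.hP1, wvs_pow (by norm_num) (by norm_num) h.hP2, h.hM1, wvs_pow (by norm_num) (by norm_num) h.hM2, h.hR1, h.hR2, h.hS, h.ha,
    h.ham, h.hb⟩

theorem varG (A c2 : ℕ) : ∃ g : ℕ, c2 ≤ g ∧ ∃ a1 : ℕ, ∀ c1 : ℕ, a1 ≤ c1 → ∃ c6 : ℕ, c1 + 4 * g + 20 ≤ c6 ∧ ∃ x0 : ℝ,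
    ∀ Z : ℕ, x0 ≤ Z → ∀ (P R M : ℕ) (S : Finset ℕ) (a : ℕ → ℝ), BlkH Z P R M S a c1 → ∀ H : ℕ, (P : ℝ) * (Real.log Z) ^ c6 ≤ H →
      (H : ℝ) ≤ P * (Real.log Z) ^ (c6 + 2) → ∃ H' : ℕ, H ≤ H' ∧ H' ≤ 2 * H ∧ ∀ α : ℝ,
        VV (dfS S a R M ⌊(Real.log Z) ^ g⌋₊) H' α (Z + H' + 1) ≤ Z * (H' : ℝ) ^ 2 / (Real.log Z) ^ A := by
  obtain ⟨g, hg, a1, h⟩ := varJ A c2
  refine ⟨g, hg, a1, fun c1 hc1 => ?_⟩
  obtain ⟨c6, hc6, x0, h2⟩ := h c1 hc1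
  exact ⟨c6, hc6, x0, fun Z hZ P R M S a hB => h2 Z hZ P R M S a (wvs_blk hB)⟩

end Pool.Agent.Lib.VKT
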