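import Pool.Agent.Lib.VK.XDef
import Pool.Agent.Lib.G5.Q2
import Pool.Agent.Lib.G3.Mert5

/-!
# VK / XDens (P6x, 180 lines): the product of the densities for `w = ⌊(log Y)^c⌋`, `w' = ⌊Y^δ⌋`

PROOF. Put `L = loglog Y → ∞`, `w`, `w'` as in the statement (`c ≥ 1`). `mert5` with `ε = 1`: `sg1 w w' = loglog w' - loglog w + O(1) = L + O(1) - O(log L)`
(`log w' = δ log Y + o(1)`, `log w = c L + o(1)`), hence `sg1 w w'/L → 1`. By `G5.q2a`: `(j+1) esy (j+1)` is between `(sg1 - j/w) esy j` and `sg1 esy j`, so by induction `esy j w w'/L^j → 1/j!` (`esy 0 = 1`).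
`sgK k w w' = sg1 * esy (k-2)/(k-1)` for `k ≥ 2`: `sgK/L^(k-1) → 1/((k-2)! (k-1)) = 1/(k-1)!`. `dens` is the product over `i` (factor `1` for `κ_i = 1`: `L^0/0! = 1`), `tendsto_finset_prod`,
`Finset.prod_pow_eq_pow_sum`.
-/

set_option autoImplicit false

open Finset Filter

namespace Pool.Agent.Lib.VKT

open Pool.Agent.Lib.G5 (PP sg1 esy sgK)

private theorem xdens_log : Tendsto (fun Y : ℕ => Real.log (Y : ℝ)) atTop atTop :=
  Real.tendsto_log_atTop.comp tendsto_natCast_atTop_atTop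

private theorem xdens_ll : Tendsto (fun Y : ℕ => Real.log (Real.log (Y : ℝ))) atTop atTop :=
  Real.tendsto_log_atTop.comp xdens_log

private theorem xdens_w (c : ℕ) (hc : 1 ≤ c) : Tendsto (fun Y : ℕ => ⌊(Real.log (Y : ℝ)) ^ c⌋₊) atTop atTop :=
  tendsto_nat_floor_atTop.comp ((tendsto_pow_atTop (by omega)).comp xdens_log)

/-- the bounds for `sg1` -/
private theorem xdens_bound (c : ℕ) (hc : 1 ≤ c) (δ : ℝ) (hδ : 0 < δ) (hδ1 : δ ≤ 1) :
    ∀ᶠ Y : ℕ in atTop, |sg1 ⌊(Real.log (Y : ℝ)) ^ c⌋₊ ⌊(Y : ℝ) ^ δ⌋₊ - Real.log (Real.log (Y : ℝ))| ≤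
      1 + |Real.log (δ / 2)| + Real.log c + Real.log (Real.log (Real.log (Y : ℝ))) := by
  obtain ⟨z0, hz⟩ := Pool.Agent.Lib.G3.mert5 1 one_pos
  have h1 : ∀ᶠ Y : ℕ in atTop, max z0 3 ≤ ⌊(Real.log (Y : ℝ)) ^ c⌋₊ := (xdens_w c hc).eventually_ge_atTop _
  have h2 : ∀ᶠ Y : ℕ in atTop, (Real.log (Y : ℝ)) ^ c ≤ (Y : ℝ) ^ δ := by
    have h := (isLittleO_log_rpow_rpow_atTop (c : ℝ) hδ).bound (c := 1) one_pos
    have h' := tendsto_natCast_atTop_atTop (R := ℝ) |>.eventually h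
    filter_upwards [h', xdens_log.eventually_ge_atTop 0, eventually_ge_atTop 1] with Y hY hl hY1
    rw [one_mul, Real.norm_of_nonneg (by positivity), Real.norm_of_nonneg (by positivity), Real.rpow_natCast] at hY
    exact hY
  have h3 : ∀ᶠ Y : ℕ in atTop, 2 * Real.log 2 / δ ≤ Real.log (Y : ℝ) := xdens_log.eventually_ge_atTop _
  have h4 : ∀ᶠ Y : ℕ in atTop, (1 : ℝ) ≤ Real.log (Real.log (Y : ℝ)) := xdens_ll.eventually_ge_atTop _
  filter_upwards [h1, h2, h3, h4, xdens_log.eventually_ge_atTop 1, eventually_ge_atTop 1] with Y h1 h2 h3 h4 hl hY1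
  have hYr : (1 : ℝ) ≤ Y := by exact_mod_cast hY1
  obtain ⟨u, hu⟩ : ∃ u : ℕ, u = ⌊(Real.log (Y : ℝ)) ^ c⌋₊ := ⟨_, rfl⟩
  obtain ⟨v, hv⟩ : ∃ v : ℕ, v = ⌊(Y : ℝ) ^ δ⌋₊ := ⟨_, rfl⟩
  rw [← hu] at h1
  have hu0 : z0 ≤ u := (le_max_left _ _).trans h1
  have hu3 : 3 ≤ u := (le_max_right _ _).trans h1
  have huv : u ≤ v := by
    rw [hu, hv]
    exact Nat.floor_le_floor h2
  rw [← hu, ← hv]
  have hm := hz u v hu0 huv
  have e1 : ∑ p ∈ Pool.Agent.Lib.G3.pi5 u v, (1 : ℝ) / p = sg1 u v := rfl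
  rw [e1] at hm
  have hur : (3 : ℝ) ≤ u := by exact_mod_cast hu3
  have hvr : (3 : ℝ) ≤ v := by exact_mod_cast hu3.trans huv
  have hlu : 1 ≤ Real.log (u : ℝ) := by
    rw [Real.le_log_iff_exp_le (by linarith)]
    have := Real.exp_one_lt_d9
    linarith
  have hlv : 1 ≤ Real.log (v : ℝ) := by
    rw [Real.le_log_iff_exp_le (by linarith)]
    have := Real.exp_one_lt_d9
    linarith
  rw [Real.log_div (by linarith) (by linarith)] at hm
  have hYδ : (Y : ℝ) ^ δ ≤ Y := by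
    calc (Y : ℝ) ^ δ ≤ (Y : ℝ) ^ (1 : ℝ) := Real.rpow_le_rpow_of_exponent_le hYr hδ1
      _ = Y := Real.rpow_one _
  have hYδ0 : 0 < (Y : ℝ) ^ δ := Real.rpow_pos_of_pos (by linarith) _
  have hvle : (v : ℝ) ≤ (Y : ℝ) ^ δ := by
    rw [hv]
    exact Nat.floor_le hYδ0.le
  have hvge : (Y : ℝ) ^ δ / 2 ≤ v := by
    have h5 := Nat.lt_floor_add_one ((Y : ℝ) ^ δ)
    rw [← hv] at h5
    linarith
  -- upper bound for loglog v
  have a1 : Real.log (Real.log (v : ℝ)) ≤ Real.log (Real.log (Y : ℝ)) :=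
    Real.log_le_log (by linarith) (Real.log_le_log (by linarith) (hvle.trans hYδ))
  -- lower bound for loglog v
  have a2 : Real.log (δ / 2) + Real.log (Real.log (Y : ℝ)) ≤ Real.log (Real.log (v : ℝ)) := by
    rw [← Real.log_mul (by positivity) (by linarith)]
    refine Real.log_le_log (by positivity) ?_
    have h5 : Real.log ((Y : ℝ) ^ δ / 2) ≤ Real.log (v : ℝ) := Real.log_le_log (by positivity) hvge
    rw [Real.log_div hYδ0.ne' (by norm_num), Real.log_rpow (by linarith)] at h5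
    rw [div_le_iff₀ hδ] at h3
    linarith
  -- loglog u
  have a3 : 0 ≤ Real.log (Real.log (u : ℝ)) := Real.log_nonneg hlu
  have hcr : (1 : ℝ) ≤ c := by exact_mod_cast hc
  have a4 : Real.log (Real.log (u : ℝ)) ≤ Real.log c + Real.log (Real.log (Real.log (Y : ℝ))) := by
    rw [← Real.log_mul (by linarith) (by linarith)]
    refine Real.log_le_log (by linarith) ?_
    have h5 : (u : ℝ) ≤ (Real.log (Y : ℝ)) ^ c := by
      rw [hu]
      exact Nat.floor_le (by positivity)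
    have h6 := Real.log_le_log (by linarith) h5
    rwa [Real.log_pow] at h6
  have a5 := neg_abs_le (Real.log (δ / 2))
  have a6 : 0 ≤ Real.log (Real.log (Real.log (Y : ℝ))) := Real.log_nonneg h4
  have a7 : 0 ≤ Real.log (c : ℝ) := Real.log_nonneg hcr
  have a8 := abs_nonneg (Real.log (δ / 2))
  rw [abs_le] at hm ⊢
  constructor <;> linarith [hm.1, hm.2]

private theorem xdens_sg1 (c : ℕ) (hc : 1 ≤ c) (δ : ℝ) (hδ : 0 < δ) (hδ1 : δ ≤ 1) :
    Tendsto (fun Y : ℕ => sg1 ⌊(Real.log (Y : ℝ)) ^ c⌋₊ ⌊(Y : ℝ) ^ δ⌋₊ / Real.log (Real.log (Y : ℝ))) atTop (nhds 1) := by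
  have hB : Tendsto (fun Y : ℕ => (1 + |Real.log (δ / 2)| + Real.log c + Real.log (Real.log (Real.log (Y : ℝ)))) /
      Real.log (Real.log (Y : ℝ))) atTop (nhds 0) := by
    have h1 : Tendsto (fun x : ℝ => (1 + |Real.log (δ / 2)| + Real.log c + Real.log x) / x) atTop (nhds 0) := by
      have h2 : Tendsto (fun x : ℝ => (1 + |Real.log (δ / 2)| + Real.log c) / x) atTop (nhds 0) :=
        tendsto_const_nhds.div_atTop tendsto_id
      have h3 : Tendsto (fun x : ℝ => Real.log x / x) atTop (nhds 0) :=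
        Real.isLittleO_log_id_atTop.tendsto_div_nhds_zero
      have h4 := h2.add h3
      simp only [add_zero] at h4
      refine h4.congr fun x => ?_
      rw [← add_div]
    exact h1.comp xdens_ll
  rw [tendsto_iff_norm_sub_tendsto_zero]
  refine squeeze_zero' (Eventually.of_forall fun _ => norm_nonneg _) ?_ hB
  filter_upwards [xdens_bound c hc δ hδ hδ1, xdens_ll.eventually_ge_atTop 1] with Y h1 h2
  have h3 : 0 < Real.log (Real.log (Y : ℝ)) := by linarith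
  rw [Real.norm_eq_abs, div_sub_one h3.ne', abs_div, abs_of_pos h3]
  exact div_le_div_of_nonneg_right h1 h3.le

private theorem xdens_esy (c : ℕ) (hc : 1 ≤ c) (δ : ℝ) (hδ : 0 < δ) (hδ1 : δ ≤ 1) (j : ℕ) :
    Tendsto (fun Y : ℕ => esy j ⌊(Real.log (Y : ℝ)) ^ c⌋₊ ⌊(Y : ℝ) ^ δ⌋₊ / (Real.log (Real.log (Y : ℝ))) ^ j) atTop
      (nhds (1 / (Nat.factorial j : ℝ))) := by
  induction j with
  | zero =>
    have h1 : (fun Y : ℕ => esy 0 ⌊(Real.log (Y : ℝ)) ^ c⌋₊ ⌊(Y : ℝ) ^ δ⌋₊ / (Real.log (Real.log (Y : ℝ))) ^ 0) =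
        fun _ => (1 : ℝ) := by
      funext Y
      simp [esy]
    rw [h1]
    simp
  | succ j ih =>
    have hs := xdens_sg1 c hc δ hδ hδ1
    have hwR : Tendsto (fun Y : ℕ => ((⌊(Real.log (Y : ℝ)) ^ c⌋₊ : ℕ) : ℝ)) atTop atTop :=
      tendsto_natCast_atTop_atTop.comp (xdens_w c hc)
    have hd : Tendsto (fun Y : ℕ => (j : ℝ) / ((⌊(Real.log (Y : ℝ)) ^ c⌋₊ : ℕ) : ℝ) *
        (esy j ⌊(Real.log (Y : ℝ)) ^ c⌋₊ ⌊(Y : ℝ) ^ δ⌋₊ / (Real.log (Real.log (Y : ℝ))) ^ j)) atTop (nhds 0) := by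
      have := (Filter.Tendsto.const_div_atTop hwR (j : ℝ)).mul ih
      simpa using this
    have he : ∀ᶠ Y : ℕ in atTop, 1 ≤ ⌊(Real.log (Y : ℝ)) ^ c⌋₊ := (xdens_w c hc).eventually_ge_atTop 1
    have hl1 : ∀ᶠ Y : ℕ in atTop, (1 : ℝ) ≤ Real.log (Real.log (Y : ℝ)) := xdens_ll.eventually_ge_atTop 1
    have hδ' : Tendsto (fun Y : ℕ => (sg1 ⌊(Real.log (Y : ℝ)) ^ c⌋₊ ⌊(Y : ℝ) ^ δ⌋₊ *
        esy j ⌊(Real.log (Y : ℝ)) ^ c⌋₊ ⌊(Y : ℝ) ^ δ⌋₊ - (j + 1) * esy (j + 1) ⌊(Real.log (Y : ℝ)) ^ c⌋₊ ⌊(Y : ℝ) ^ δ⌋₊) /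
          (Real.log (Real.log (Y : ℝ))) ^ (j + 1)) atTop (nhds 0) := by
      refine tendsto_of_tendsto_of_tendsto_of_le_of_le' tendsto_const_nhds hd ?_ ?_
      · filter_upwards [he, hl1] with Y hY hl
        exact div_nonneg (Pool.Agent.Lib.G5.q2a j _ _ hY).1 (by positivity)
      · filter_upwards [he, hl1] with Y hY hl
        have h1 := Pool.Agent.Lib.G5.q2a j _ ⌊(Y : ℝ) ^ δ⌋₊ hY
        have h0 : 0 < Real.log (Real.log (Y : ℝ)) := by linarith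
        have h2 : (Real.log (Real.log (Y : ℝ))) ^ j ≤ (Real.log (Real.log (Y : ℝ))) ^ (j + 1) :=
          pow_le_pow_right₀ hl (Nat.le_succ j)
        calc _ ≤ (sg1 ⌊(Real.log (Y : ℝ)) ^ c⌋₊ ⌊(Y : ℝ) ^ δ⌋₊ * esy j ⌊(Real.log (Y : ℝ)) ^ c⌋₊ ⌊(Y : ℝ) ^ δ⌋₊ -
              (j + 1) * esy (j + 1) ⌊(Real.log (Y : ℝ)) ^ c⌋₊ ⌊(Y : ℝ) ^ δ⌋₊) / (Real.log (Real.log (Y : ℝ))) ^ j :=
              div_le_div_of_nonneg_left h1.1 (by positivity) h2
          _ ≤ ((j : ℝ) / ((⌊(Real.log (Y : ℝ)) ^ c⌋₊ : ℕ) : ℝ) * esy j ⌊(Real.log (Y : ℝ)) ^ c⌋₊ ⌊(Y : ℝ) ^ δ⌋₊) /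
              (Real.log (Real.log (Y : ℝ))) ^ j := div_le_div_of_nonneg_right h1.2 (by positivity)
          _ = _ := by rw [mul_div_assoc]
    have hj : ((j : ℝ) + 1) ≠ 0 := by positivity
    have hlim := ((hs.mul ih).sub hδ').div_const ((j : ℝ) + 1)
    have h2 : (1 * (1 / (Nat.factorial j : ℝ)) - 0) / ((j : ℝ) + 1) = 1 / (Nat.factorial (j + 1) : ℝ) := by
      rw [Nat.factorial_succ]
      push_cast
      have : (Nat.factorial j : ℝ) ≠ 0 := by positivity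
      field_simp
      ring
    rw [h2] at hlim
    refine hlim.congr' ?_
    filter_upwards [hl1] with Y hl
    have h0 : Real.log (Real.log (Y : ℝ)) ≠ 0 := by
      have : 0 < Real.log (Real.log (Y : ℝ)) := by linarith
      exact this.ne'
    rw [pow_succ]
    field_simp
    ring

theorem densT {m : ℕ} (κ : Fin m → ℕ) (hκ : ∀ i, 1 ≤ κ i) (c : ℕ) (hc : 1 ≤ c) (δ : ℝ) (hδ : 0 < δ) (hδ1 : δ ≤ 1) :
    Tendsto (fun Y : ℕ => dens ⌊(Real.log Y) ^ c⌋₊ ⌊(Y : ℝ) ^ δ⌋₊ κ / (Real.log (Real.log Y)) ^ (∑ i, (κ i - 1))) atTop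
      (nhds (∏ i, 1 / ((Nat.factorial (κ i - 1) : ℕ) : ℝ))) := by
  have hfac : ∀ i ∈ (univ : Finset (Fin m)), Tendsto (fun Y : ℕ => (if κ i = 1 then (1 : ℝ) else
      sgK (κ i) ⌊(Real.log (Y : ℝ)) ^ c⌋₊ ⌊(Y : ℝ) ^ δ⌋₊) / (Real.log (Real.log (Y : ℝ))) ^ (κ i - 1)) atTop
        (nhds (1 / ((Nat.factorial (κ i - 1) : ℕ) : ℝ))) := by
    intro i _
    by_cases h1 : κ i = 1
    · simp only [h1, if_true, Nat.sub_self, pow_zero, Nat.factorial_zero, Nat.cast_one, div_one]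
      exact tendsto_const_nhds
    · obtain ⟨j, hj⟩ : ∃ j, κ i = j + 2 := ⟨κ i - 2, by have := hκ i; omega⟩
      have h2 := ((xdens_sg1 c hc δ hδ hδ1).mul (xdens_esy c hc δ hδ hδ1 j)).div_const ((j : ℝ) + 1)
      have h3 : (1 * (1 / (Nat.factorial j : ℝ))) / ((j : ℝ) + 1) = 1 / ((Nat.factorial (κ i - 1) : ℕ) : ℝ) := by
        have e : κ i - 1 = j + 1 := by omega
        rw [e, Nat.factorial_succ]
        push_cast
        have : (Nat.factorial j : ℝ) ≠ 0 := by positivity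
        field_simp
      rw [h3] at h2
      refine h2.congr' ?_
      filter_upwards [xdens_ll.eventually_ge_atTop 1] with Y hl
      have h0 : Real.log (Real.log (Y : ℝ)) ≠ 0 := by
        have : 0 < Real.log (Real.log (Y : ℝ)) := by linarith
        exact this.ne'
      rw [if_neg h1]
      unfold sgK
      have e : κ i - 1 = j + 1 := by omega
      have e2 : κ i - 2 = j := by omega
      have e3 : ((κ i : ℕ) : ℝ) - 1 = (j : ℝ) + 1 := by rw [hj]; push_cast; ring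
      rw [e, e2, e3, pow_succ]
      have hj1 : ((j : ℝ) + 1) ≠ 0 := by positivity
      field_simp
  have h := tendsto_finset_prod (univ : Finset (Fin m)) hfac
  refine h.congr fun Y => ?_
  unfold dens
  rw [Finset.prod_div_distrib, Finset.prod_pow_eq_pow_sum]

end Pool.Agent.Lib.VKT
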