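import Pool.Agent.Lib.VK.XDef
import Mathlib.NumberTheory.ArithmeticFunction.Misc

/-!
# VK / XSum (P6x, 250 lines): sums over the smooth parts

PROOF. `T j = ∑ 1/d` over the `d ≥ 1` with primes `≤ w'` and exactly `j` prime factors (with multiplicity; finite: `d ≤ w'^j`): `T 0 = 1`, `T (j+1) ≤ rcp w' * T j` by the injection
`d ↦ (d.minFac, d / d.minFac)`, so `T j ≤ (rcp w')^j ≤ (1 + rcp w')^j`. `dsum`: `DS K w w'` is contained in the union of (i) at most `K - 1` prime factors (`K ≥ 1`): sum `≤ K (1 + rcp w')^(K-1)`;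
(ii) exactly `j ≤ K` prime factors (`j ≥ 1`), one of them `p ≤ w`: injection `d ↦ (p, d/p)` for a chosen `p`: sum `≤ rcp w * T (j-1)`; (iii) exactly `j ≤ K`, `p² ∣ d`: `d ↦ (p, d/p²)`:
sum `≤ (∑_p 1/p²) T (j-2) ≤ 2 (1 + rcp w')^(K-1)`. For `K = 0` the set is empty (`d = 1`). So `C = 4 (K + 1)`.
`gsum`: `d = lcm g` is in `DS K w w'` with `K = ∑ (κ_i - 1)`: `d ∣ ∏ g_i`, so `length d ≤ ∑ length g_i ≤ K`, primes `≤ w'`, `d ≤ w'^K`; exceptional: if `length g_i + 2 ≤ κ_i` then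
`length d + 1 ≤ K`; a prime `p ≤ w` of `g_i` divides `d`; if `g_i` is not squarefree then `d` is not. For given `d` the `g_i` are divisors of `d`: at most
`(card d.divisors)^m ≤ (2^K)^m` vectors `g` (`card d.divisors ≤ 2^(length d)`: `Nat.card_divisors`, `e + 1 ≤ 2^e`; or by induction). Sum over `d` with `dsum` (`Finset.sum_fiberwise_of_maps_to`).
-/

set_option autoImplicit false

open Finset Filter

namespace Pool.Agent.Lib.VKT

/-- a sum over `D` of `1/d`, by a chosen divisor of `d` and its complement -/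
private theorem xs_split (D A : Finset ℕ) (f : ℕ → ℕ) (hf : ∀ d ∈ D, f d ∈ A ∧ f d ∣ d) :
    ∑ d ∈ D, (1 : ℝ) / d ≤ (∑ a ∈ A, (1 : ℝ) / a) * ∑ e ∈ D.image (fun d => d / f d), (1 : ℝ) / e := by
  classical
  have h1 : ∀ d ∈ D, f d * (d / f d) = d := fun d hd => Nat.mul_div_cancel' (hf d hd).2
  have h2 : ∑ d ∈ D, (1 : ℝ) / d = ∑ x ∈ D.image (fun d => (f d, d / f d)), (1 : ℝ) / x.1 * (1 / x.2) := by
    rw [sum_image]
    · refine sum_congr rfl fun d hd => ?_
      have h3 : ((f d : ℕ) : ℝ) * ((d / f d : ℕ) : ℝ) = d := by exact_mod_cast h1 d hd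
      simp only
      rw [one_div_mul_one_div, h3]
    · intro d hd d' hd' h
      simp only [Prod.mk.injEq] at h
      rw [← h1 d hd, ← h1 d' hd', h.2, h.1]
  rw [h2, sum_mul_sum, ← sum_product']
  refine sum_le_sum_of_subset_of_nonneg ?_ fun _ _ _ => by positivity
  intro x hx
  rw [mem_image] at hx
  obtain ⟨d, hd, rfl⟩ := hx
  rw [mem_product]
  exact ⟨(hf d hd).1, mem_image_of_mem _ hd⟩

private theorem xs_len_mul {a b : ℕ} (ha : a ≠ 0) (hb : b ≠ 0) :
    (a * b).primeFactorsList.length = a.primeFactorsList.length + b.primeFactorsList.length := by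
  have := ArithmeticFunction.cardFactors_mul ha hb
  simpa only [ArithmeticFunction.cardFactors_apply] using this

private theorem xs_len_zero {n : ℕ} (hn : n ≠ 0) (h : n.primeFactorsList.length = 0) : n = 1 := by
  have := ArithmeticFunction.cardFactors_eq_zero_iff_eq_zero_or_one.1 ((ArithmeticFunction.cardFactors_apply (n := n)).trans h)
  omega

private theorem xs_div {d p j w' : ℕ} (hd : 1 ≤ d) (hp : p.Prime) (hpd : p ∣ d) (h1 : ∀ q ∈ d.primeFactors, q ≤ w')
    (h2 : d.primeFactorsList.length = j + 1) :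
    1 ≤ d / p ∧ (∀ q ∈ (d / p).primeFactors, q ≤ w') ∧ (d / p).primeFactorsList.length = j := by
  obtain ⟨e, rfl⟩ := hpd
  have he : e ≠ 0 := by
    rintro rfl
    omega
  rw [Nat.mul_div_cancel_left _ hp.pos]
  refine ⟨by omega, fun q hq => h1 q (Nat.primeFactors_mono (Dvd.intro_left _ rfl) (by omega) hq), ?_⟩
  rw [xs_len_mul hp.ne_zero he, Nat.primeFactorsList_prime hp, List.length_singleton] at h2
  omega

private theorem xs_rcp (w : ℕ) : 0 ≤ rcp w := by
  unfold rcp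
  exact sum_nonneg fun _ _ => by positivity

/-- one chosen prime factor `≤ w` -/
private theorem xs_step (w w' j : ℕ)
    (ih : ∀ D : Finset ℕ, (∀ d ∈ D, 1 ≤ d ∧ (∀ q ∈ d.primeFactors, q ≤ w') ∧ d.primeFactorsList.length = j) →
      ∑ d ∈ D, (1 : ℝ) / d ≤ (rcp w') ^ j)
    (D : Finset ℕ) (hD : ∀ d ∈ D, 1 ≤ d ∧ (∀ q ∈ d.primeFactors, q ≤ w') ∧ d.primeFactorsList.length = j + 1)
    (hp : ∀ d ∈ D, ∃ p : ℕ, p.Prime ∧ p ∣ d ∧ p ≤ w) :
    ∑ d ∈ D, (1 : ℝ) / d ≤ rcp w * (rcp w') ^ j := by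
  classical
  choose! f hf using hp
  refine (xs_split D ((Icc 1 w).filter Nat.Prime) f ?_).trans ?_
  · intro d hd
    obtain ⟨h1, h2, h3⟩ := hf d hd
    rw [mem_filter, mem_Icc]
    exact ⟨⟨⟨h1.one_le, h3⟩, h1⟩, h2⟩
  · refine mul_le_mul_of_nonneg_left (ih _ ?_) (xs_rcp w)
    intro e he
    rw [mem_image] at he
    obtain ⟨d, hd, rfl⟩ := he
    obtain ⟨h1, h2, h3⟩ := hf d hd
    obtain ⟨h4, h5, h6⟩ := hD d hd
    exact xs_div h4 h1 h2 h5 h6

private theorem xs_prime {d w' j : ℕ} (h : 1 ≤ d ∧ (∀ q ∈ d.primeFactors, q ≤ w') ∧ d.primeFactorsList.length = j + 1) :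
    ∃ p : ℕ, p.Prime ∧ p ∣ d ∧ p ≤ w' := by
  obtain ⟨h2, h3, h4⟩ := h
  have h5 : d ≠ 1 := by
    rintro rfl
    rw [Nat.primeFactorsList_one] at h4
    simp at h4
  have h6 := Nat.minFac_prime h5
  exact ⟨d.minFac, h6, Nat.minFac_dvd d, h3 _ (Nat.mem_primeFactors.2 ⟨h6, Nat.minFac_dvd d, by omega⟩)⟩

/-- `T j ≤ (rcp w')^j` -/
private theorem xs_T (w' j : ℕ) : ∀ D : Finset ℕ, (∀ d ∈ D, 1 ≤ d ∧ (∀ q ∈ d.primeFactors, q ≤ w') ∧ d.primeFactorsList.length = j) →
    ∑ d ∈ D, (1 : ℝ) / d ≤ (rcp w') ^ j := by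
  induction j with
  | zero =>
    intro D hD
    have h1 : D ⊆ {1} := by
      intro d hd
      obtain ⟨h2, -, h3⟩ := hD d hd
      rw [mem_singleton]
      exact xs_len_zero (by omega) h3
    refine (sum_le_sum_of_subset_of_nonneg h1 fun _ _ _ => by positivity).trans ?_
    simp
  | succ j ih =>
    intro D hD
    rw [pow_succ, mul_comm]
    exact xs_step w' w' j ih D hD fun d hd => xs_prime (hD d hd)

/-- a square factor -/
private theorem xs_sq (w' j : ℕ) (D : Finset ℕ)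
    (hD : ∀ d ∈ D, 1 ≤ d ∧ (∀ q ∈ d.primeFactors, q ≤ w') ∧ d.primeFactorsList.length = j + 2)
    (hp : ∀ d ∈ D, ¬ Squarefree d) : ∑ d ∈ D, (1 : ℝ) / d ≤ (rcp w') ^ j := by
  classical
  have hp' : ∀ d ∈ D, ∃ p : ℕ, p.Prime ∧ p * p ∣ d := by
    intro d hd
    have h1 := hp d hd
    rw [Nat.squarefree_iff_prime_squarefree] at h1
    push Not at h1
    exact h1
  choose! f hf using hp'
  have h1 := xs_split D (((Icc 1 w').filter Nat.Prime).image fun p => p * p) (fun d => f d * f d) (by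
    intro d hd
    obtain ⟨h1, h2⟩ := hf d hd
    refine ⟨?_, h2⟩
    refine mem_image_of_mem (fun p => p * p) ?_
    rw [mem_filter, mem_Icc]
    have h3 := (hD d hd).1
    exact ⟨⟨h1.one_le, (hD d hd).2.1 _ (Nat.mem_primeFactors.2 ⟨h1, (Dvd.intro _ rfl).trans h2, by omega⟩)⟩, h1⟩)
  have h2 : ∑ a ∈ ((Icc 1 w').filter Nat.Prime).image (fun p => p * p), (1 : ℝ) / a ≤ 1 := by
    rw [sum_image]
    · have h3 : ∑ p ∈ (Icc 1 w').filter Nat.Prime, (1 : ℝ) / ((p * p : ℕ) : ℝ) ≤ ∑ p ∈ Ioc 1 (max 1 w'), ((p : ℝ) ^ 2)⁻¹ := by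
        refine le_trans (sum_le_sum fun p _ => ?_) (sum_le_sum_of_subset_of_nonneg (t := Ioc 1 (max 1 w')) ?_ fun _ _ _ => by positivity)
        · rw [Nat.cast_mul, sq, one_div]
        · intro p hp
          rw [mem_filter, mem_Icc] at hp
          rw [mem_Ioc]
          exact ⟨hp.2.one_lt, hp.1.2.trans (le_max_right _ _)⟩
      have h4 := sum_Ioc_inv_sq_le_sub (α := ℝ) (k := 1) (n := max 1 w') (by omega) (le_max_left _ _)
      have h5 : (0 : ℝ) ≤ ((max 1 w' : ℕ) : ℝ)⁻¹ := by positivity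
      rw [Nat.cast_one, inv_one] at h4
      linarith
    · intro a _ b _ h
      exact Nat.mul_self_inj.1 h
  have h3 : ∑ e ∈ D.image (fun d => d / (f d * f d)), (1 : ℝ) / e ≤ (rcp w') ^ j := by
    refine xs_T w' j _ ?_
    intro e he
    rw [mem_image] at he
    obtain ⟨d, hd, rfl⟩ := he
    obtain ⟨h4, h5, h6⟩ := hD d hd
    obtain ⟨h7, h8⟩ := hf d hd
    rw [← Nat.div_div_eq_div_mul]
    obtain ⟨h9, h10, h11⟩ := xs_div h4 h7 ((Dvd.intro _ rfl).trans h8) h5 h6
    have h12 : f d ∣ d / f d := (Nat.dvd_div_iff_mul_dvd ((Dvd.intro _ rfl).trans h8)).2 h8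
    exact xs_div h9 h7 h12 h10 h11
  refine h1.trans ?_
  have h4 : (0 : ℝ) ≤ ∑ e ∈ D.image (fun d => d / (f d * f d)), (1 : ℝ) / e := sum_nonneg fun _ _ => by positivity
  calc _ ≤ 1 * ∑ e ∈ D.image (fun d => d / (f d * f d)), (1 : ℝ) / e := mul_le_mul_of_nonneg_right h2 h4
    _ ≤ _ := by rw [one_mul]; exact h3

theorem dsum (K : ℕ) : ∃ C : ℝ, 0 < C ∧ ∀ w w' : ℕ, w ≤ w' →
    ∑ d ∈ DS K w w', (1 : ℝ) / d ≤ C * ((1 + rcp w') ^ (K - 1) * (1 + rcp w)) := by
  classical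
  refine ⟨(K : ℝ) + 2, by positivity, fun w w' _ => ?_⟩
  have hr := xs_rcp w
  have hr' := xs_rcp w'
  have hDS : ∀ d ∈ DS K w w', 1 ≤ d ∧ (∀ q ∈ d.primeFactors, q ≤ w') ∧ d.primeFactorsList.length ≤ K ∧
      (d.primeFactorsList.length + 1 ≤ K ∨ (∃ p ∈ d.primeFactors, p ≤ w) ∨ ¬ Squarefree d) := by
    intro d hd
    unfold DS at hd
    rw [mem_filter, mem_Icc] at hd
    exact ⟨hd.1.1, hd.2⟩
  have hrp : (1 : ℝ) ≤ 1 + rcp w' := by linarith
  have hB : 0 ≤ (1 + rcp w') ^ (K - 1) := by positivity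
  -- the three parts
  have h0 : ∀ j ∈ range K, ∑ d ∈ (DS K w w').filter (fun d => d.primeFactorsList.length = j), (1 : ℝ) / d ≤ (1 + rcp w') ^ (K - 1) := by
    intro j hj
    rw [mem_range] at hj
    have h1 := xs_T w' j ((DS K w w').filter fun d => d.primeFactorsList.length = j) (by
      intro d hd
      rw [mem_filter] at hd
      obtain ⟨h1, h2, -, -⟩ := hDS d hd.1
      exact ⟨h1, h2, hd.2⟩)
    have h1' : (rcp w') ^ j ≤ (1 + rcp w') ^ j := pow_le_pow_left₀ hr' (by linarith) j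
    exact h1.trans (h1'.trans (pow_le_pow_right₀ hrp (by omega)))
  have h1 : ∑ d ∈ (DS K w w').filter (fun d => d.primeFactorsList.length = K ∧ ∃ p ∈ d.primeFactors, p ≤ w), (1 : ℝ) / d ≤
      rcp w * (1 + rcp w') ^ (K - 1) := by
    rcases Nat.eq_zero_or_pos K with hK | hK
    · refine (sum_eq_zero ?_).trans_le (by positivity)
      intro d hd
      rw [mem_filter] at hd
      obtain ⟨-, h2, p, hp, -⟩ := hd
      rw [hK] at h2
      rw [Nat.mem_primeFactors_iff_mem_primeFactorsList, List.length_eq_zero_iff.1 h2] at hp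
      simp at hp
    · obtain ⟨K', rfl⟩ : ∃ K', K = K' + 1 := ⟨K - 1, by omega⟩
      have h2 := xs_step w w' K' (xs_T w' K') ((DS (K' + 1) w w').filter fun d => d.primeFactorsList.length = K' + 1 ∧
        ∃ p ∈ d.primeFactors, p ≤ w) (by
          intro d hd
          rw [mem_filter] at hd
          obtain ⟨h1, h2, -, -⟩ := hDS d hd.1
          exact ⟨h1, h2, hd.2.1⟩) (by
          intro d hd
          rw [mem_filter] at hd
          obtain ⟨p, hp, hpw⟩ := hd.2.2
          exact ⟨p, Nat.prime_of_mem_primeFactors hp, Nat.dvd_of_mem_primeFactors hp, hpw⟩)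
      refine h2.trans (mul_le_mul_of_nonneg_left ?_ hr)
      rw [Nat.add_sub_cancel]
      exact pow_le_pow_left₀ hr' (by linarith) K'
  have h2 : ∑ d ∈ (DS K w w').filter (fun d => d.primeFactorsList.length = K ∧ ¬ Squarefree d), (1 : ℝ) / d ≤
      (1 + rcp w') ^ (K - 1) := by
    by_cases hK : K < 2
    · refine (sum_eq_zero ?_).trans_le hB
      intro d hd
      rw [mem_filter] at hd
      obtain ⟨hd1, hd2, hd3⟩ := hd
      exfalso
      rw [Nat.squarefree_iff_prime_squarefree] at hd3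
      push Not at hd3
      obtain ⟨p, hp, e, he⟩ := hd3
      have he0 : e ≠ 0 := by
        rintro rfl
        have := (hDS d hd1).1
        omega
      rw [he, xs_len_mul (mul_ne_zero hp.ne_zero hp.ne_zero) he0, xs_len_mul hp.ne_zero hp.ne_zero, Nat.primeFactorsList_prime hp,
        List.length_singleton] at hd2
      omega
    · obtain ⟨K', rfl⟩ : ∃ K', K = K' + 2 := ⟨K - 2, by omega⟩
      have h2 := xs_sq w' K' ((DS (K' + 2) w w').filter fun d => d.primeFactorsList.length = K' + 2 ∧ ¬ Squarefree d) (by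
          intro d hd
          rw [mem_filter] at hd
          obtain ⟨h1, h2, -, -⟩ := hDS d hd.1
          exact ⟨h1, h2, hd.2.1⟩) (by
          intro d hd
          rw [mem_filter] at hd
          exact hd.2.2)
      have h2' : (rcp w') ^ K' ≤ (1 + rcp w') ^ K' := pow_le_pow_left₀ hr' (by linarith) K'
      exact h2.trans (h2'.trans (pow_le_pow_right₀ hrp (by omega)))
  -- the sum
  have h3 : ∑ d ∈ DS K w w', (1 : ℝ) / d ≤ ∑ d ∈ DS K w w', (∑ j ∈ range K, (if d.primeFactorsList.length = j then (1 : ℝ) / d else 0) +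
      ((if d.primeFactorsList.length = K ∧ ∃ p ∈ d.primeFactors, p ≤ w then (1 : ℝ) / d else 0) +
        (if d.primeFactorsList.length = K ∧ ¬ Squarefree d then (1 : ℝ) / d else 0))) := by
    refine sum_le_sum fun d hd => ?_
    obtain ⟨-, -, h3, h4⟩ := hDS d hd
    have h5 : (0 : ℝ) ≤ 1 / d := by positivity
    have h6 : (0 : ℝ) ≤ ∑ j ∈ range K, (if d.primeFactorsList.length = j then (1 : ℝ) / d else 0) :=
      sum_nonneg fun j _ => by split_ifs <;> positivity
    by_cases h7 : d.primeFactorsList.length + 1 ≤ K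
    · have h8 : ∑ j ∈ range K, (if d.primeFactorsList.length = j then (1 : ℝ) / d else 0) = 1 / d := by
        rw [sum_ite_eq, if_pos (mem_range.2 (by omega))]
      rw [h8]
      have h9 : (0 : ℝ) ≤ (if d.primeFactorsList.length = K ∧ ∃ p ∈ d.primeFactors, p ≤ w then (1 : ℝ) / d else 0) := by
        split_ifs <;> positivity
      have h10 : (0 : ℝ) ≤ (if d.primeFactorsList.length = K ∧ ¬ Squarefree d then (1 : ℝ) / d else 0) := by
        split_ifs <;> positivity
      linarith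
    · have h8 : d.primeFactorsList.length = K := by omega
      rcases h4 with h4 | h4 | h4
      · exact absurd h4 h7
      · rw [if_pos ⟨h8, h4⟩]
        have h10 : (0 : ℝ) ≤ (if d.primeFactorsList.length = K ∧ ¬ Squarefree d then (1 : ℝ) / d else 0) := by
          split_ifs <;> positivity
        linarith
      · rw [if_pos (c := d.primeFactorsList.length = K ∧ ¬ Squarefree d) ⟨h8, h4⟩]
        have h9 : (0 : ℝ) ≤ (if d.primeFactorsList.length = K ∧ ∃ p ∈ d.primeFactors, p ≤ w then (1 : ℝ) / d else 0) := by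
          split_ifs <;> positivity
        linarith
  rw [sum_add_distrib, sum_add_distrib, sum_comm, ← sum_filter, ← sum_filter] at h3
  have h4 : ∑ j ∈ range K, ∑ d ∈ DS K w w', (if d.primeFactorsList.length = j then (1 : ℝ) / d else 0) ≤ K * (1 + rcp w') ^ (K - 1) := by
    calc _ ≤ ∑ _j ∈ range K, (1 + rcp w') ^ (K - 1) := sum_le_sum fun j hj => by
            rw [← sum_filter]
            exact h0 j hj
      _ = _ := by rw [sum_const, card_range, nsmul_eq_mul]
  have h5 : (0 : ℝ) ≤ K := Nat.cast_nonneg K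
  calc _ ≤ K * (1 + rcp w') ^ (K - 1) + (rcp w * (1 + rcp w') ^ (K - 1) + (1 + rcp w') ^ (K - 1)) := by linarith
    _ ≤ _ := by nlinarith [mul_nonneg h5 (mul_nonneg hB hr), mul_nonneg hB hr]

private theorem xs_len_prod {ι : Type*} (s : Finset ι) (g : ι → ℕ) (hg : ∀ i ∈ s, g i ≠ 0) :
    (∏ i ∈ s, g i).primeFactorsList.length = ∑ i ∈ s, (g i).primeFactorsList.length := by
  classical
  induction s using Finset.induction_on with
  | empty => simp
  | insert a s ha ih =>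
    rw [prod_insert ha, sum_insert ha, xs_len_mul (hg a (mem_insert_self _ _)) (prod_ne_zero_iff.2 fun i hi => hg i (mem_insert_of_mem hi)),
      ih fun i hi => hg i (mem_insert_of_mem hi)]

private theorem xs_len_dvd {d n : ℕ} (h : d ∣ n) (hn : n ≠ 0) : d.primeFactorsList.length ≤ n.primeFactorsList.length := by
  obtain ⟨e, rfl⟩ := h
  rw [xs_len_mul (left_ne_zero_of_mul hn) (right_ne_zero_of_mul hn)]
  omega

private theorem xs_le_pow {n b : ℕ} (hn : n ≠ 0) (hb : ∀ q ∈ n.primeFactors, q ≤ b) : n ≤ b ^ n.primeFactorsList.length := by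
  conv_lhs => rw [← Nat.prod_primeFactorsList hn]
  refine List.prod_le_pow_card _ _ ?_
  intro q hq
  exact hb q (by rw [Nat.mem_primeFactors_iff_mem_primeFactorsList]; exact hq)

private theorem xs_divs {d : ℕ} (hd : d ≠ 0) : d.divisors.card ≤ 2 ^ d.primeFactorsList.length := by
  rw [Nat.card_divisors hd, ← ArithmeticFunction.cardFactors_apply, ArithmeticFunction.cardFactors_eq_sum_factorization,
    Finsupp.sum, ← prod_pow_eq_pow_sum, Nat.support_factorization]
  exact prod_le_prod' fun p _ => Nat.lt_two_pow_self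

/-- the least common multiple is in `DS` -/
private theorem xs_lcm {m : ℕ} (κ : Fin m → ℕ) {w w' : ℕ} (hw : 1 ≤ w') {g : Fin m → ℕ} (hg : g ∈ GG w w' κ) :
    univ.lcm g ∈ DS (∑ i, (κ i - 1)) w w' := by
  classical
  unfold GG at hg
  rw [mem_filter, Fintype.mem_piFinset] at hg
  obtain ⟨h1, h2, i, h3⟩ := hg
  have h0 : ∀ i ∈ (univ : Finset (Fin m)), g i ≠ 0 := by
    intro i _
    have := (mem_Icc.1 (h1 i)).1
    omega
  have hP : ∏ i, g i ≠ 0 := prod_ne_zero_iff.2 h0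
  have hd : univ.lcm g ∣ ∏ i, g i := Finset.lcm_dvd fun i hi => dvd_prod_of_mem g hi
  have hd0 : univ.lcm g ≠ 0 := fun h => hP (Nat.eq_zero_of_zero_dvd (h ▸ hd))
  have hlen : (univ.lcm g).primeFactorsList.length ≤ ∑ i, (g i).primeFactorsList.length := by
    rw [← xs_len_prod univ g h0]
    exact xs_len_dvd hd hP
  have hle : ∀ i ∈ (univ : Finset (Fin m)), (g i).primeFactorsList.length ≤ κ i - 1 := by
    intro i _
    have := (h2 i).1
    omega
  have hK : (univ.lcm g).primeFactorsList.length ≤ ∑ i, (κ i - 1) := hlen.trans (sum_le_sum hle)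
  have hpr : ∀ q ∈ (univ.lcm g).primeFactors, q ≤ w' := by
    intro q hq
    have hqp := Nat.prime_of_mem_primeFactors hq
    obtain ⟨i, -, hi⟩ := (Prime.dvd_finsetProd_iff hqp.prime g).1 ((Nat.dvd_of_mem_primeFactors hq).trans hd)
    exact (h2 i).2 q (Nat.mem_primeFactors.2 ⟨hqp, hi, h0 i (mem_univ i)⟩)
  have hgi : g i ∣ univ.lcm g := Finset.dvd_lcm (mem_univ i)
  unfold DS
  rw [mem_filter, mem_Icc]
  refine ⟨⟨Nat.one_le_iff_ne_zero.2 hd0, (xs_le_pow hd0 hpr).trans (Nat.pow_le_pow_right hw hK)⟩, hpr, hK, ?_⟩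
  rcases h3 with h3 | h3 | h3
  · left
    have h4 : ∑ i, (g i).primeFactorsList.length < ∑ i, (κ i - 1) := by
      refine sum_lt_sum hle ⟨i, mem_univ i, ?_⟩
      omega
    omega
  · obtain ⟨p, hp, hpw⟩ := h3
    exact Or.inr (Or.inl ⟨p, Nat.primeFactors_mono hgi hd0 hp, hpw⟩)
  · exact Or.inr (Or.inr fun h => h3 (h.squarefree_of_dvd hgi))

theorem gsum {m : ℕ} (κ : Fin m → ℕ) (hκ : ∀ i, 1 ≤ κ i) : ∃ C : ℝ, 0 < C ∧ ∀ w w' : ℕ, 1 ≤ w' → w ≤ w' →
    ∑ g ∈ GG w w' κ, (1 : ℝ) / ((univ.lcm g : ℕ) : ℝ) ≤ C * ((1 + rcp w') ^ (∑ i, (κ i - 1) - 1) * (1 + rcp w)) := by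
  classical
  have _ := hκ
  obtain ⟨C, hC, h⟩ := dsum (∑ i, (κ i - 1))
  refine ⟨((2 : ℝ) ^ (∑ i, (κ i - 1))) ^ m * C, by positivity, fun w w' hw hww => ?_⟩
  rw [← sum_fiberwise_of_maps_to (t := DS (∑ i, (κ i - 1)) w w') (g := fun g => univ.lcm g) (fun g hg => xs_lcm κ hw hg)]
  have h1 : ∀ d ∈ DS (∑ i, (κ i - 1)) w w', ∑ g ∈ (GG w w' κ).filter (fun g => univ.lcm g = d), (1 : ℝ) / ((univ.lcm g : ℕ) : ℝ) ≤
      ((2 : ℝ) ^ (∑ i, (κ i - 1))) ^ m * (1 / d) := by
    intro d hd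
    unfold DS at hd
    rw [mem_filter, mem_Icc] at hd
    have hd0 : d ≠ 0 := by omega
    have h2 : ∑ g ∈ (GG w w' κ).filter (fun g => univ.lcm g = d), (1 : ℝ) / ((univ.lcm g : ℕ) : ℝ) =
        ∑ g ∈ (GG w w' κ).filter (fun g => univ.lcm g = d), (1 : ℝ) / (d : ℝ) :=
      sum_congr rfl fun g hg => by rw [(mem_filter.1 hg).2]
    rw [h2, sum_const, nsmul_eq_mul]
    refine mul_le_mul_of_nonneg_right ?_ (by positivity)
    have h3 : ((GG w w' κ).filter fun g => univ.lcm g = d) ⊆ Fintype.piFinset fun _ : Fin m => d.divisors := by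
      intro g hg
      rw [Fintype.mem_piFinset]
      intro i
      rw [Nat.mem_divisors]
      refine ⟨?_, hd0⟩
      rw [← (mem_filter.1 hg).2]
      exact Finset.dvd_lcm (mem_univ i)
    have h4 := card_le_card h3
    rw [Fintype.card_piFinset_const] at h4
    have h5 : d.divisors.card ≤ 2 ^ (∑ i, (κ i - 1)) := (xs_divs hd0).trans (Nat.pow_le_pow_right (by norm_num) hd.2.2.1)
    have h6 := h4.trans (Nat.pow_le_pow_left h5 m)
    exact_mod_cast h6
  refine (sum_le_sum h1).trans ?_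
  rw [← mul_sum, mul_assoc]
  exact mul_le_mul_of_nonneg_left (h w w' hww) (by positivity)

theorem GG_empty {m : ℕ} (κ : Fin m → ℕ) (h : ∀ i, κ i = 1) (w w' : ℕ) : GG w w' κ = ∅ := by
  classical
  rw [eq_empty_iff_forall_notMem]
  intro g hg
  unfold GG at hg
  rw [mem_filter, Fintype.mem_piFinset] at hg
  obtain ⟨h1, h2, i, h3⟩ := hg
  have h4 := (mem_Icc.1 (h1 i)).1
  have h5 := (h2 i).1
  rw [h i] at h5 h3
  have h6 : g i = 1 := xs_len_zero (by omega) (by omega)
  rw [h6] at h3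
  rcases h3 with h3 | h3 | h3
  · omega
  · obtain ⟨p, hp, -⟩ := h3
    simp at hp
  · exact h3 squarefree_one

end Pool.Agent.Lib.VKT
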