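import Pool.Agent.Lib.VK.XSp
import Pool.Agent.Lib.VK.XSv
import Pool.Agent.Lib.VK.XSum
import Pool.Agent.Lib.MP_5d7b92_nt.UA.Me

/-!
# VK / XRest (P6x, 250 lines): the exceptional `n` are few

PROOF. `Kt = ∑ κ_i + 1`. `svc m Kt` gives `C1`, `E`. `M = max E (4 Kt) + 1`. First claim: `EE_len`, so the set of `cntK` is contained in the set of `cntO`. Second claim: the difference is
the number of the primes `n ∈ (Y, 2Y]` with `length (n + h_i) = κ_i` for all `i` and `¬ EE (κ_i) w w' (n + h_i)` for some `i`. Here `n + h_i > Y ≥ w'^M ≥ w'^(κ_i)` (`w' ≥ 2` for large `Y` as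
`w' ≥ Y^δ`). Map `n` to the vector `g` of the `smo w' (n + h_i)`: it is in `GG w w' κ` (`smo_spec`, `smo_exc`), and for given `g` the `n` lie in the set of `svc` with `z = w'`: `g i ∣ n + h i`; a prime
`p ≤ w' < Y < n` does not divide the prime `n`; `p ∣ n + h_i` gives `p ∣ g_i`. Conditions: `(log Y)^2 ≤ Y^δ ≤ w'` for large `Y`, `w'^E ≤ Y`, `card primeFactors ≤ length ≤ κ_i ≤ Kt`. So the number is
`≤ ∑_{g ∈ GG} (C1 HL h Y/(lcm g (log w')^(m+1)) + √Y)`. `log w' ≥ δ log Y`. By `gsum` the first part is `≤ C1 C2 δ^(-m-1) HL h Y/(log Y)^(m+1) * (1 + rcp w')^(K-1) (1 + rcp w)`, `K = ∑ (κ_i - 1)`.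
If `K = 0` then `GG = ∅` (`GG_empty`) and there is nothing to prove. If `K ≥ 1`: `rcp w' ≤ loglog Y + C3`, `rcp w ≤ log (log w) + C3 ≤ log (c0 loglog Y) + C3` (`UA.mertens_two`, `rcp` is its `P1`; `rcp` is monotone,
for `w < 3` trivial), so `(1 + rcp w')^(K-1) (1 + rcp w)/(loglog Y)^K → 0`. The second part: `card GG ≤ w'^(∑ κ_i) ≤ Y^(1/4)` (`w'^(4 Kt) ≤ Y`), so it is `≤ Y^(3/4) ≤ (ε/2) s Y/(log Y)^(m+1)` for large `Y`, and
`s ≤ HL h` (`pos m`), `1 ≤ loglog Y`.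
-/

set_option autoImplicit false

open Finset Filter

namespace Pool.Agent.Lib.VKT

open Pool.Agent.Lib.G5 (EE)

open Classical in
private theorem XRest_cover {m : ℕ} {κ : Fin m → ℕ} {Y w w' : ℕ} {h : Fin m → ℕ} (hw1 : 1 ≤ w') (hw : w ≤ w')
    (hY : w' ≤ Y) (hk : ∀ i, w' ^ κ i ≤ Y) :
    cntO Y κ h ≤ cntK Y w w' κ h + ∑ g ∈ GG w w' κ, ((Ioc Y (2 * Y)).filter fun n => (∀ i, g i ∣ n + h i) ∧
          ∀ p : ℕ, p.Prime → p ≤ w' → ¬ p ∣ n ∧ ∀ i, p ∣ n + h i → p ∣ g i).card := by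
  have hsub : ((Ioc Y (2 * Y)).filter fun n => n.Prime ∧ ∀ i, (n + h i).primeFactorsList.length = κ i) ⊆
      ((Ioc Y (2 * Y)).filter fun n => n.Prime ∧ ∀ i, EE (κ i) w w' (n + h i)) ∪
        (GG w w' κ).biUnion fun g => (Ioc Y (2 * Y)).filter fun n => (∀ i, g i ∣ n + h i) ∧
          ∀ p : ℕ, p.Prime → p ≤ w' → ¬ p ∣ n ∧ ∀ i, p ∣ n + h i → p ∣ g i := by
    intro n hn
    rw [mem_filter] at hn
    obtain ⟨hn1, hnp, hlen⟩ := hn
    have hn2 := mem_Ioc.mp hn1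
    rw [mem_union]
    by_cases hE : ∀ i, EE (κ i) w w' (n + h i)
    · left; exact mem_filter.mpr ⟨hn1, hnp, hE⟩
    · right
      push Not at hE
      obtain ⟨i0, hi0⟩ := hE
      rw [mem_biUnion]
      have hsp : ∀ i, smo w' (n + h i) ∣ n + h i ∧ 1 ≤ smo w' (n + h i) ∧
          (∀ p ∈ (smo w' (n + h i)).primeFactors, p ≤ w') ∧
          ∀ p : ℕ, p.Prime → p ≤ w' → p ∣ n + h i → p ∣ smo w' (n + h i) := fun i =>
        smo_spec w' (n + h i) (by omega)
      refine ⟨fun i => smo w' (n + h i), ?_, ?_⟩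
      · unfold GG
        rw [mem_filter, Fintype.mem_piFinset]
        have hx : ∀ i, w' ^ κ i < n + h i := fun i => by have := hk i; omega
        exact ⟨fun i => mem_Icc.mpr ⟨(hsp i).2.1, (smo_exc hw1 hw (hx i) (hlen i)).2.1⟩,
          fun i => ⟨(smo_exc hw1 hw (hx i) (hlen i)).1, (hsp i).2.2.1⟩, i0,
          (smo_exc hw1 hw (hx i0) (hlen i0)).2.2 hi0⟩
      · rw [mem_filter]
        refine ⟨hn1, fun i => (hsp i).1, fun p hp hpw => ⟨fun hpn => ?_, fun i hpi => (hsp i).2.2.2 p hp hpw hpi⟩⟩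
        have := (Nat.prime_dvd_prime_iff_eq hp hnp).mp hpn
        omega
  unfold cntO cntK
  exact (card_le_card hsub).trans ((card_union_le _ _).trans (Nat.add_le_add_left card_biUnion_le _))

private theorem XRest_ll (A B ε : ℝ) (hε : 0 < ε) :
    ∀ᶠ t : ℝ in atTop, A * (B + Real.log t) ≤ ε / 2 * t := by
  have h1 := Real.isLittleO_log_id_atTop.bound (show 0 < ε / (4 * (|A| + 1)) by positivity)
  filter_upwards [h1, eventually_ge_atTop 1, eventually_ge_atTop (4 * (|A| * |B|) / ε)] with t h1 h2 h3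
  have h0 : 0 ≤ Real.log t := Real.log_nonneg h2
  rw [id, Real.norm_of_nonneg h0, Real.norm_of_nonneg (by linarith : (0:ℝ) ≤ t)] at h1
  have h4 : |A| * |B| ≤ ε / 4 * t := by
    rw [div_le_iff₀ hε] at h3
    nlinarith
  have h5 : |A| * Real.log t ≤ ε / 4 * t := by
    calc |A| * Real.log t ≤ (|A| + 1) * Real.log t := by nlinarith
      _ ≤ (|A| + 1) * (ε / (4 * (|A| + 1)) * t) := mul_le_mul_of_nonneg_left h1 (by positivity)
      _ = ε / 4 * t := by field_simp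
  have h6 : A * B ≤ |A| * |B| := by rw [← abs_mul]; exact le_abs_self _
  have h7 : A * Real.log t ≤ |A| * Real.log t := mul_le_mul_of_nonneg_right (le_abs_self A) h0
  linarith

private theorem XRest_ev (m : ℕ) (δ ε s A B C3 x1 : ℝ) (hδ : 0 < δ) (hε : 0 < ε) (hs : 0 < s) :
    ∃ x0 : ℝ, ∀ Y : ℕ, x0 ≤ Y → x1 ≤ Y ∧ (Real.log Y) ^ 2 ≤ (Y : ℝ) ^ δ ∧ 3 ≤ (Y : ℝ) ^ δ ∧
      C3 + 1 ≤ Real.log (Real.log Y) ∧ 1 ≤ Real.log (Real.log Y) ∧ 3 ≤ Real.log Y ∧
      A * (B + Real.log (Real.log (Real.log Y))) ≤ ε / 2 * Real.log (Real.log Y) ∧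
      (Real.log Y) ^ (m + 1) ≤ ε * s / 2 * (Y : ℝ) ^ ((1 : ℝ) / 4) := by
  have hL := Real.tendsto_log_atTop
  have hLL := hL.comp hL
  have key : ∀ᶠ y : ℝ in atTop, x1 ≤ y ∧ (Real.log y) ^ 2 ≤ y ^ δ ∧ 3 ≤ y ^ δ ∧
      C3 + 1 ≤ Real.log (Real.log y) ∧ 1 ≤ Real.log (Real.log y) ∧ 3 ≤ Real.log y ∧
      A * (B + Real.log (Real.log (Real.log y))) ≤ ε / 2 * Real.log (Real.log y) ∧
      (Real.log y) ^ (m + 1) ≤ ε * s / 2 * y ^ ((1 : ℝ) / 4) := by
    have a1 := (isLittleO_log_rpow_rpow_atTop (2 : ℕ) hδ).bound (zero_lt_one)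
    have a2 := (isLittleO_log_rpow_rpow_atTop ((m + 1 : ℕ) : ℝ) (show (0:ℝ) < 1 / 4 by norm_num)).bound
      (show 0 < ε * s / 2 by positivity)
    filter_upwards [a1, a2, eventually_ge_atTop x1, eventually_ge_atTop (1:ℝ), (tendsto_rpow_atTop hδ).eventually_ge_atTop 3,
      hLL.eventually_ge_atTop (C3 + 1), hLL.eventually_ge_atTop 1, hL.eventually_ge_atTop 3,
      hLL.eventually (XRest_ll A B ε hε)] with y b1 b2 b3 b4 b5 b6 b7 b8 b9
    have hy0 : (0:ℝ) ≤ y := by linarith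
    rw [Real.rpow_natCast, Real.norm_of_nonneg (by positivity), Real.norm_of_nonneg (by positivity), one_mul] at b1
    rw [Real.rpow_natCast, Real.norm_of_nonneg (pow_nonneg (by linarith) _), Real.norm_of_nonneg (by positivity)] at b2
    exact ⟨b3, b1, b5, b6, b7, b8, b9, b2⟩
  obtain ⟨x0, hx0⟩ := eventually_atTop.mp key
  exact ⟨x0, fun Y hY => hx0 Y hY⟩

private theorem XRest_rcp (w : ℕ) : rcp w = Pool.Agent.Lib.MP_5d7b92_nt.UA.P1 w := by
  unfold rcp Pool.Agent.Lib.MP_5d7b92_nt.UA.P1 Pool.Agent.Lib.MP_5d7b92_nt.UA.PR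
  refine sum_congr ?_ fun _ _ => rfl
  ext p
  rw [mem_filter, mem_filter, mem_Icc, mem_range]
  constructor
  · rintro ⟨⟨_, h⟩, hp⟩; exact ⟨by omega, hp⟩
  · rintro ⟨h, hp⟩; exact ⟨⟨hp.one_lt.le, by omega⟩, hp⟩

private theorem XRest_mono {u v : ℕ} (h : u ≤ v) : rcp u ≤ rcp v := by
  unfold rcp
  refine sum_le_sum_of_subset_of_nonneg (filter_subset_filter _ (Icc_subset_Icc le_rfl h)) fun _ _ _ => by positivity

private theorem XRest_nn (u : ℕ) : 0 ≤ rcp u := by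
  unfold rcp
  exact sum_nonneg fun _ _ => by positivity

private theorem XRest_card {m : ℕ} (κ : Fin m → ℕ) (w w' : ℕ) : (GG w w' κ).card ≤ w' ^ (∑ i, κ i) := by
  unfold GG
  refine (card_filter_le _ _).trans ?_
  rw [Fintype.card_piFinset]
  simp [Finset.prod_pow_eq_pow_sum]

theorem rest {m : ℕ} (κ : Fin m → ℕ) (hκ : ∀ i, 1 ≤ κ i) : ∃ M : ℕ, ∀ (c0 : ℕ) (δ ε : ℝ), 0 < δ → 0 < ε → ∃ x0 : ℝ, ∀ Y w w' : ℕ, x0 ≤ Y →
    w ≤ w' → (w : ℝ) ≤ (Real.log Y) ^ c0 → (Y : ℝ) ^ δ ≤ w' → w' ^ M ≤ Y →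
      ∀ h : Fin m → ℕ, Function.Injective h → (∀ i, 1 ≤ h i ∧ h i ≤ Y) → (∀ p : ℕ, p.Prime → nu h p < p) →
        (cntK Y w w' κ h : ℝ) ≤ cntO Y κ h ∧
          (cntO Y κ h : ℝ) ≤ cntK Y w w' κ h +
            ε * (HL h * (Y / (Real.log Y) ^ (m + 1)) * (Real.log (Real.log Y)) ^ (∑ i, (κ i - 1))) := by
  classical
  set K : ℕ := ∑ i, (κ i - 1) with hK
  set Kt : ℕ := ∑ i, κ i + 1 with hKt
  obtain ⟨C1, E, x1, hC1, hsv⟩ := svc m Kt
  obtain ⟨C2, hC2, hgs⟩ := gsum κ hκ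
  obtain ⟨C3, hC3, hme⟩ := Pool.Agent.Lib.MP_5d7b92_nt.UA.mertens_two
  obtain ⟨s, hs, hpos⟩ := pos m
  refine ⟨max E (4 * Kt) + 1, ?_⟩
  intro c0 δ ε hδ hε
  obtain ⟨x0, hx0⟩ := XRest_ev m δ ε s (C1 * C2 / δ ^ (m + 1) * 2 ^ (K - 1)) (1 + C3 + Real.log (c0 + 1)) C3 x1 hδ hε hs
  refine ⟨x0, ?_⟩
  intro Y w w' hY hw hwl hw' hM h hinj hh hnu
  obtain ⟨e1, e2, e3, e4, e4', e5, e6, e7⟩ := hx0 Y hY
  have hw'3 : (3:ℝ) ≤ w' := e3.trans hw'
  have hw'3n : 3 ≤ w' := by exact_mod_cast hw'3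
  have hpw : ∀ j, j ≤ max E (4 * Kt) + 1 → w' ^ j ≤ Y := fun j hj =>
    (Nat.pow_le_pow_right (by omega) hj).trans hM
  have hHL : s ≤ HL h := hpos h hinj (fun i => (hh i).1) hnu
  have hHL0 : 0 < HL h := hs.trans_le hHL
  have hκt : ∀ i, κ i + 1 ≤ Kt := fun i => by
    have := single_le_sum (f := κ) (fun j _ => Nat.zero_le _) (mem_univ i); omega
  have hw'Y : w' ≤ Y := by simpa using hpw 1 (by omega)
  have hcov := XRest_cover (κ := κ) (Y := Y) (h := h) (w := w) (w' := w') (by omega) hw hw'Y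
    (fun i => hpw _ (by have := hκt i; omega))
  have hYr : (3:ℝ) ≤ Y := hw'3.trans (by exact_mod_cast hw'Y)
  constructor
  · have : cntK Y w w' κ h ≤ cntO Y κ h := by
      unfold cntK cntO
      refine card_le_card fun n hn => ?_
      rw [mem_filter] at hn ⊢
      exact ⟨hn.1, hn.2.1, fun i => EE_len (hn.2.2 i)⟩
    exact_mod_cast this
  · set L := Real.log Y with hLdef
    set LL := Real.log L with hLL
    have hL0 : 0 < L := by linarith
    have hmain0 : 0 ≤ HL h * (Y / L ^ (m + 1)) := by positivity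
    have hcovR : (cntO Y κ h : ℝ) ≤ cntK Y w w' κ h + ∑ g ∈ GG w w' κ, (((Ioc Y (2 * Y)).filter fun n => (∀ i, g i ∣ n + h i) ∧
          ∀ p : ℕ, p.Prime → p ≤ w' → ¬ p ∣ n ∧ ∀ i, p ∣ n + h i → p ∣ g i).card : ℝ) := by
      exact_mod_cast hcov
    refine hcovR.trans (add_le_add_right ?_ _)
    rcases Nat.eq_zero_or_pos K with hK0 | hK1
    · have hk1 : ∀ i, κ i = 1 := fun i => by
        have h1 := (Finset.sum_eq_zero_iff.mp (hK ▸ hK0)) i (mem_univ i)
        have h2 := hκ i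
        omega
      rw [GG_empty κ hk1, sum_empty]
      have : 0 ≤ LL ^ K := by positivity
      positivity
    have hL'0 : δ * L ≤ Real.log w' := by
      rw [hLdef, ← Real.log_rpow (by linarith)]
      exact Real.log_le_log (by positivity) hw'
    have hL'1 : 0 < Real.log w' := lt_of_lt_of_le (by positivity) hL'0
    -- each class
    have hcl : ∀ g ∈ GG w w' κ, (((Ioc Y (2 * Y)).filter fun n => (∀ i, g i ∣ n + h i) ∧
          ∀ p : ℕ, p.Prime → p ≤ w' → ¬ p ∣ n ∧ ∀ i, p ∣ n + h i → p ∣ g i).card : ℝ) ≤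
        C1 * (HL h * (Y / (Real.log w') ^ (m + 1))) * (1 / ((univ.lcm g : ℕ) : ℝ)) + Real.sqrt Y := by
      intro g hg
      unfold GG at hg
      rw [mem_filter, Fintype.mem_piFinset] at hg
      refine (hsv Y w' e1 (e2.trans hw') (hpw E (by omega)) h hinj hh hnu g fun i =>
        ⟨(mem_Icc.mp (hg.1 i)).1, ?_⟩).trans (le_of_eq ?_)
      · have h1 := (hg.2.1 i).1
        have h2 : (g i).primeFactors.card ≤ (g i).primeFactorsList.length := by
          rw [Nat.primeFactors]; exact List.toFinset_card_le _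
        have h3 := hκt i
        omega
      · congr 1
        rw [mul_assoc, mul_assoc, div_mul_div_comm, mul_one, mul_comm ((Real.log w') ^ (m + 1))]
    refine (sum_le_sum hcl).trans ?_
    rw [sum_add_distrib, ← mul_sum, sum_const, nsmul_eq_mul]
    -- the two parts
    have hr' : 1 + rcp w' ≤ 2 * LL := by
      have h1 := hme w' hw'3n
      rw [← XRest_rcp] at h1
      have h2 := (abs_le.mp h1).2
      have h3 : Real.log (Real.log w') ≤ LL := Real.log_le_log hL'1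
        (Real.log_le_log (by linarith) (by exact_mod_cast hw'Y))
      linarith
    have hr : 1 + rcp w ≤ 1 + C3 + Real.log (c0 + 1) + Real.log LL := by
      have h0 : rcp w ≤ rcp (max w 3) := XRest_mono (le_max_left _ _)
      have h1 := hme (max w 3) (le_max_right _ _)
      rw [← XRest_rcp] at h1
      have h2 := (abs_le.mp h1).2
      have h3 : ((max w 3 : ℕ) : ℝ) ≤ L ^ (c0 + 1) := by
        rw [Nat.cast_max]
        refine max_le (hwl.trans (pow_le_pow_right₀ (by linarith) (by omega))) ?_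
        calc ((3:ℕ):ℝ) ≤ L := by exact_mod_cast e5
          _ = L ^ 1 := (pow_one _).symm
          _ ≤ L ^ (c0 + 1) := pow_le_pow_right₀ (by linarith) (by omega)
      have h4 : (3:ℝ) ≤ ((max w 3 : ℕ) : ℝ) := by exact_mod_cast le_max_right w 3
      have h5 : Real.log ((max w 3 : ℕ) : ℝ) ≤ (c0 + 1) * LL := by
        refine (Real.log_le_log (by linarith) h3).trans (le_of_eq ?_)
        rw [Real.log_pow, hLL]; push_cast; ring
      have h6 : 0 < Real.log ((max w 3 : ℕ) : ℝ) := Real.log_pos (by linarith)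
      have h7 : Real.log (Real.log ((max w 3 : ℕ) : ℝ)) ≤ Real.log (c0 + 1) + Real.log LL := by
        rw [← Real.log_mul (by positivity) (by linarith)]
        exact Real.log_le_log h6 h5
      linarith
    have hp1 : C1 * (HL h * (Y / (Real.log w') ^ (m + 1))) * ∑ g ∈ GG w w' κ, (1 / ((univ.lcm g : ℕ) : ℝ)) ≤
        ε / 2 * (HL h * (Y / L ^ (m + 1)) * LL ^ K) := by
      have h1 := hgs w w' (by omega) hw
      rw [← hK] at h1
      have h2 : (1 + rcp w') ^ (K - 1) ≤ 2 ^ (K - 1) * LL ^ (K - 1) := by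
        rw [← mul_pow]
        exact pow_le_pow_left₀ (by have := XRest_nn w'; linarith) hr' _
      have h3 : (1 + rcp w') ^ (K - 1) * (1 + rcp w) ≤
          2 ^ (K - 1) * LL ^ (K - 1) * (1 + C3 + Real.log (c0 + 1) + Real.log LL) :=
        mul_le_mul h2 hr (by have := XRest_nn w; linarith) (by positivity)
      have h4 : Y / (Real.log w') ^ (m + 1) ≤ Y / (δ ^ (m + 1) * L ^ (m + 1)) := by
        refine div_le_div_of_nonneg_left (by positivity) (by positivity) ?_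
        rw [← mul_pow]
        exact pow_le_pow_left₀ (by positivity) hL'0 _
      have h5 : LL ^ K = LL * LL ^ (K - 1) := by
        rw [← pow_succ', Nat.sub_add_cancel hK1]
      calc C1 * (HL h * (Y / (Real.log w') ^ (m + 1))) * ∑ g ∈ GG w w' κ, (1 / ((univ.lcm g : ℕ) : ℝ))
          ≤ C1 * (HL h * (Y / (δ ^ (m + 1) * L ^ (m + 1)))) *
            (C2 * (2 ^ (K - 1) * LL ^ (K - 1) * (1 + C3 + Real.log (c0 + 1) + Real.log LL))) := by
            refine mul_le_mul (mul_le_mul_of_nonneg_left (mul_le_mul_of_nonneg_left h4 hHL0.le) hC1.le)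
              (h1.trans (mul_le_mul_of_nonneg_left h3 hC2.le)) (sum_nonneg fun _ _ => by positivity) (by positivity)
        _ = HL h * (Y / L ^ (m + 1)) * LL ^ (K - 1) *
            (C1 * C2 / δ ^ (m + 1) * 2 ^ (K - 1) * (1 + C3 + Real.log (c0 + 1) + Real.log LL)) := by
            field_simp
        _ ≤ HL h * (Y / L ^ (m + 1)) * LL ^ (K - 1) * (ε / 2 * LL) :=
            mul_le_mul_of_nonneg_left e6 (by positivity)
        _ = ε / 2 * (HL h * (Y / L ^ (m + 1)) * LL ^ K) := by rw [h5]; ring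
    have hp2 : ((GG w w' κ).card : ℝ) * Real.sqrt Y ≤ ε / 2 * (HL h * (Y / L ^ (m + 1)) * LL ^ K) := by
      set q : ℝ := (Y : ℝ) ^ ((1 : ℝ) / 4) with hq
      have hq0 : 0 < q := by positivity
      have hq4 : q ^ 4 = Y := by
        rw [hq, ← Real.rpow_natCast, ← Real.rpow_mul (by positivity)]
        norm_num
      have hsq : Real.sqrt Y = q ^ 2 := by
        rw [← hq4, show q ^ 4 = (q ^ 2) ^ 2 by ring, Real.sqrt_sq (by positivity)]
      have hc : ((GG w w' κ).card : ℝ) ≤ q := by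
        refine le_of_pow_le_pow_left₀ (n := 4) (by norm_num) hq0.le ?_
        rw [hq4]
        have h1 : (GG w w' κ).card ^ 4 ≤ Y := by
          refine (Nat.pow_le_pow_left (XRest_card κ w w') 4).trans ?_
          rw [← pow_mul]
          exact hpw _ (by omega)
        exact_mod_cast h1
      have h1 : ((GG w w' κ).card : ℝ) * Real.sqrt Y ≤ q ^ 3 := by
        rw [hsq]
        calc ((GG w w' κ).card : ℝ) * q ^ 2 ≤ q * q ^ 2 := mul_le_mul_of_nonneg_right hc (by positivity)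
          _ = q ^ 3 := by ring
      have h2 : q ^ 3 ≤ ε / 2 * (s * (Y / L ^ (m + 1))) := by
        rw [← hq4, show ε / 2 * (s * (q ^ 4 / L ^ (m + 1))) = (ε * s / 2 * q) * q ^ 3 / L ^ (m + 1) by ring,
          le_div_iff₀ (by positivity), mul_comm (q ^ 3)]
        exact mul_le_mul_of_nonneg_right e7 (by positivity)
      have h3 : s * (Y / L ^ (m + 1)) ≤ HL h * (Y / L ^ (m + 1)) * LL ^ K := by
        calc s * (Y / L ^ (m + 1)) ≤ HL h * (Y / L ^ (m + 1)) := mul_le_mul_of_nonneg_right hHL (by positivity)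
          _ = HL h * (Y / L ^ (m + 1)) * 1 := (mul_one _).symm
          _ ≤ HL h * (Y / L ^ (m + 1)) * LL ^ K :=
            mul_le_mul_of_nonneg_left (one_le_pow₀ e4') hmain0
      exact h1.trans (h2.trans (mul_le_mul_of_nonneg_left h3 (by positivity)))
    linarith

end Pool.Agent.Lib.VKT
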