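import Pool.Agent.Lib.VK.WFin
import Pool.Agent.Lib.VK.XRest
import Pool.Agent.Lib.VK.XDens
import Pool.Agent.Lib.VK.TPos

/-!
# VK / XFin (P6x, 200 lines): the full count for almost all shapes

PROOF. (Stub `tuplesG`: VK/WFin.lean.) WLOG `δ ≤ 1` (`Y^(min δ 1) ≤ Y^δ`). `tuplesG κ hκ A` gives `c10`; `c1 = c10`, its `C`; `M'` = the `M` of `rest κ hκ`; `s` of `pos m`; `Λ = ∏ 1/(κ_i - 1)! > 0`, `K = ∑ (κ_i - 1)`, `L = loglog Y`. Let `ε1` be small (see below), `M` of `tuplesG` for `ε1`;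
`δ' = min (δ/2) (1/(M + M' + 1))`, `w = ⌊(log Y)^(c1+2)⌋`, `w' = ⌊Y^δ'⌋`. For large `Y`: `Rg2 Y w w' c1 M` (`(log Y)^(c1+1) ≤ w ≤ w'`, `w'^M ≤ Y^(δ' M) ≤ Y`), `w'^M' ≤ Y`, `w' (log Y)^C ≤ Y^(δ/2) (log Y)^C ≤ Y^δ ≤ H`, and
`Y^(δ'/2) ≤ w'` (use `rest` with `c0 = c1 + 2`, `δ'/2` in the place of `δ`, `ε1`). Let `h` be in the box, not in the exceptional set of `tuplesG`; then `h` is injective, `1 ≤ h_i ≤ Y`. Let it be admissible: `s ≤ HL h`.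
`dens = (1 + o(1)) Λ L^K` (`densT`), so `|dens - Λ L^K| ≤ ε1 Λ L^K` and `dens ≤ 2 Λ L^K` for large `Y`; with `y = Y/(log Y)^(m+1)`: `|cntK - HL Λ L^K y| ≤ ε1 (1 + 2 HL Λ L^K) y + ε1 HL Λ L^K y`, `|cntO - cntK| ≤ ε1 HL L^K y`. Since
`1 ≤ HL L^K/s` (`L ≥ 1`) all together `≤ ε1 (1/(s Λ) + 3 + 1/Λ) HL Λ L^K y`: take `ε1 = ε/(1/(sΛ) + 3 + 1/Λ)`. `∏ L^(κ_i - 1)/(κ_i - 1)! = Λ L^K`. So the exceptional set is contained in the one of `tuplesG`.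
-/

set_option autoImplicit false

open Finset Filter

namespace Pool.Agent.Lib.VKT

private theorem xfin_alg {Hv T y dn cO cK LK Λ s ε1 : ℝ} (hs : 0 < s) (hHv : s ≤ Hv) (hΛ : 0 < Λ) (hLK : 1 ≤ LK) (hT : T = Λ * LK)
    (hy : 0 ≤ y) (hε1 : 0 < ε1) (h1 : cK ≤ cO) (h2 : cO ≤ cK + ε1 * (Hv * y * LK)) (h3 : |cK - Hv * dn * y| ≤ ε1 * (1 + Hv * dn) * y)
    (h4 : |dn - T| ≤ ε1 * T) (h5 : |dn - T| ≤ T) :
    |cO - Hv * y * T| ≤ ε1 * (1 / (s * Λ) + 3 + 1 / Λ) * (Hv * y * T) := by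
  have hH : 0 < Hv := lt_of_lt_of_le hs hHv
  have hT0 : 0 < T := by rw [hT]; positivity
  have ha : 0 ≤ Hv * y * T := by positivity
  have e1 : |cO - cK| ≤ ε1 * (1 / Λ) * (Hv * y * T) := by
    have : ε1 * (1 / Λ) * (Hv * y * T) = ε1 * (Hv * y * LK) := by
      rw [hT]; field_simp
    rw [this, abs_of_nonneg (by linarith)]
    linarith
  have hdn : dn ≤ 2 * T := by
    have := (abs_le.mp h5).2
    linarith
  have hy2 : y ≤ 1 / (s * Λ) * (Hv * y * T) := by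
    have h6 : s * y * Λ * 1 ≤ Hv * y * Λ * LK := by
      have hm1 : s * y * Λ ≤ Hv * y * Λ := by
        have := mul_le_mul_of_nonneg_right hHv (mul_nonneg hy hΛ.le)
        nlinarith
      exact mul_le_mul hm1 hLK (by norm_num) (by positivity)
    have h7 : 1 / (s * Λ) * (Hv * y * T) = (Hv * y * Λ * LK) / (s * Λ) := by
      rw [hT]; field_simp
    rw [h7, le_div_iff₀ (by positivity)]
    linarith
  have e2 : |cK - Hv * dn * y| ≤ ε1 * (1 / (s * Λ)) * (Hv * y * T) + ε1 * 2 * (Hv * y * T) := by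
    refine h3.trans ?_
    have h8 : Hv * dn * y ≤ 2 * (Hv * y * T) := by
      have := mul_le_mul_of_nonneg_left hdn (mul_nonneg hH.le hy)
      nlinarith
    have h9 : ε1 * (1 + Hv * dn) * y = ε1 * y + ε1 * (Hv * dn * y) := by ring
    rw [h9]
    have h10 := mul_le_mul_of_nonneg_left hy2 hε1.le
    have h11 := mul_le_mul_of_nonneg_left h8 hε1.le
    linarith
  have e3 : |Hv * dn * y - Hv * y * T| ≤ ε1 * (Hv * y * T) := by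
    have h12 : Hv * dn * y - Hv * y * T = (Hv * y) * (dn - T) := by ring
    rw [h12, abs_mul, abs_of_nonneg (mul_nonneg hH.le hy)]
    have := mul_le_mul_of_nonneg_left h4 (mul_nonneg hH.le hy)
    nlinarith
  have e4 : cO - Hv * y * T = (cO - cK) + (cK - Hv * dn * y) + (Hv * dn * y - Hv * y * T) := by ring
  rw [e4]
  refine (abs_add_three _ _ _).trans ?_
  have e5 : ε1 * (1 / (s * Λ) + 3 + 1 / Λ) * (Hv * y * T) = ε1 * (1 / Λ) * (Hv * y * T) +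
      (ε1 * (1 / (s * Λ)) * (Hv * y * T) + ε1 * 2 * (Hv * y * T)) + ε1 * (Hv * y * T) := by ring
  rw [e5]
  linarith

private theorem xfin_log (n : ℕ) (a : ℝ) (ha : 0 < a) : ∀ᶠ Y : ℕ in atTop, (Real.log Y) ^ n ≤ (Y : ℝ) ^ a := by
  have h := (isLittleO_log_rpow_rpow_atTop (n : ℝ) ha).bound (c := 1) one_pos
  have h2 := tendsto_natCast_atTop_atTop (R := ℝ) |>.eventually h
  filter_upwards [h2, eventually_ge_atTop 1] with Y hY hY1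
  have hY0 : (1 : ℝ) ≤ Y := by exact_mod_cast hY1
  rw [one_mul, Real.rpow_natCast, Real.norm_of_nonneg (by positivity : (0 : ℝ) ≤ (Y : ℝ) ^ a)] at hY
  exact (le_abs_self _).trans hY

private theorem xfin_pow {Y : ℕ} (hY : 1 ≤ Y) {δ' : ℝ} (M : ℕ) (hM : δ' * M ≤ 1) : ⌊(Y : ℝ) ^ δ'⌋₊ ^ M ≤ Y := by
  have hY0 : (1 : ℝ) ≤ Y := by exact_mod_cast hY
  have h1 : (⌊(Y : ℝ) ^ δ'⌋₊ : ℝ) ≤ (Y : ℝ) ^ δ' := Nat.floor_le (by positivity)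
  have h2 : ((⌊(Y : ℝ) ^ δ'⌋₊ ^ M : ℕ) : ℝ) ≤ (Y : ℝ) := by
    push_cast
    calc (⌊(Y : ℝ) ^ δ'⌋₊ : ℝ) ^ M ≤ ((Y : ℝ) ^ δ') ^ M := pow_le_pow_left₀ (by positivity) h1 M
      _ = (Y : ℝ) ^ (δ' * M) := by rw [Real.rpow_mul (by positivity), Real.rpow_natCast]
      _ ≤ (Y : ℝ) ^ (1 : ℝ) := Real.rpow_le_rpow_of_exponent_le hY0 hM
      _ = Y := Real.rpow_one _
  exact_mod_cast h2

private theorem xfin_ev (c C M M' : ℕ) (δ0 δ' : ℝ) (h0 : 0 < δ') (h1 : δ' ≤ δ0 / 2) (hM : δ' * M ≤ 1) (hM' : δ' * M' ≤ 1) :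
    ∀ᶠ Y : ℕ in atTop, 1 ≤ Y ∧ (1 : ℝ) ≤ Real.log (Real.log Y) ∧ (1 : ℝ) ≤ Real.log Y ∧
      (Real.log Y) ^ (c + 1) ≤ (⌊(Real.log Y) ^ (c + 2)⌋₊ : ℝ) ∧
      ⌊(Real.log Y) ^ (c + 2)⌋₊ ≤ ⌊(Y : ℝ) ^ δ'⌋₊ ∧ ⌊(Y : ℝ) ^ δ'⌋₊ ^ M ≤ Y ∧ ⌊(Y : ℝ) ^ δ'⌋₊ ^ M' ≤ Y ∧
      (⌊(Y : ℝ) ^ δ'⌋₊ : ℝ) * (Real.log Y) ^ C ≤ (Y : ℝ) ^ δ0 ∧ (Y : ℝ) ^ (δ' / 2) ≤ (⌊(Y : ℝ) ^ δ'⌋₊ : ℝ) := by
  have hl : Tendsto (fun Y : ℕ => Real.log (Y : ℝ)) atTop atTop := Real.tendsto_log_atTop.comp tendsto_natCast_atTop_atTop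
  have hll : Tendsto (fun Y : ℕ => Real.log (Real.log (Y : ℝ))) atTop atTop := Real.tendsto_log_atTop.comp hl
  have hp : Tendsto (fun Y : ℕ => (Y : ℝ) ^ (δ' / 2)) atTop atTop :=
    (tendsto_rpow_atTop (by linarith)).comp tendsto_natCast_atTop_atTop
  filter_upwards [eventually_ge_atTop 1, hl.eventually_ge_atTop 2, hll.eventually_ge_atTop 1, hp.eventually_ge_atTop 2,
    xfin_log (c + 2) δ' h0, xfin_log C (δ0 / 2) (by linarith)] with Y hY hY2 hY3 hY4 hY5 hY6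
  have hY0 : (1 : ℝ) ≤ Y := by exact_mod_cast hY
  refine ⟨hY, hY3, by linarith, ?_, Nat.floor_le_floor hY5, xfin_pow hY M hM, xfin_pow hY M' hM', ?_, ?_⟩
  · have h2 := Nat.lt_floor_add_one ((Real.log Y) ^ (c + 2))
    have h3 : (1 : ℝ) ≤ (Real.log Y) ^ (c + 1) := one_le_pow₀ (by linarith)
    have h4 : (Real.log Y) ^ (c + 2) = (Real.log Y) ^ (c + 1) * Real.log Y := by rw [pow_succ]
    nlinarith
  · have h2 : (⌊(Y : ℝ) ^ δ'⌋₊ : ℝ) ≤ (Y : ℝ) ^ (δ0 / 2) :=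
      (Nat.floor_le (by positivity)).trans (Real.rpow_le_rpow_of_exponent_le hY0 h1)
    calc (⌊(Y : ℝ) ^ δ'⌋₊ : ℝ) * (Real.log Y) ^ C ≤ (Y : ℝ) ^ (δ0 / 2) * (Y : ℝ) ^ (δ0 / 2) :=
          mul_le_mul h2 hY6 (pow_nonneg (by linarith) _) (by positivity)
      _ = (Y : ℝ) ^ δ0 := by rw [← Real.rpow_add (by linarith)]; congr 1; ring
  · have h2 := Nat.lt_floor_add_one ((Y : ℝ) ^ δ')
    have h3 : (Y : ℝ) ^ δ' = (Y : ℝ) ^ (δ' / 2) * (Y : ℝ) ^ (δ' / 2) := by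
      rw [← Real.rpow_add (by linarith)]; congr 1; ring
    nlinarith

open Classical in
theorem fullK {m : ℕ} (κ : Fin m → ℕ) (hκ : ∀ i, 1 ≤ κ i) (A : ℕ) (δ ε : ℝ) (hδ : 0 < δ) (hε : 0 < ε) : ∃ x0 : ℝ, ∀ Y H : ℕ, x0 ≤ Y →
    (Y : ℝ) ^ δ ≤ H → H ≤ Y → ∀ b : Fin m → ℕ, (∀ i, (κ i = 1 → b i = 0) ∧ (κ i ≠ 1 → b i + H ≤ Y)) →
      (((box b fun i => if κ i = 1 then Y else H).filter fun h => ¬ (Function.Injective h ∧ ((∀ p : ℕ, p.Prime → nu h p < p) →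
        |(cntO Y κ h : ℝ) - HL h * (Y / (Real.log Y) ^ (m + 1)) *
            ∏ i, (Real.log (Real.log Y)) ^ (κ i - 1) / (Nat.factorial (κ i - 1) : ℝ)| ≤
          ε * (HL h * (Y / (Real.log Y) ^ (m + 1)) *
            ∏ i, (Real.log (Real.log Y)) ^ (κ i - 1) / (Nat.factorial (κ i - 1) : ℝ))))).card : ℝ) ≤
          (∏ i, ((if κ i = 1 then Y else H : ℕ) : ℝ)) / (Real.log Y) ^ A := by
  set Λ : ℝ := ∏ i, 1 / ((Nat.factorial (κ i - 1) : ℕ) : ℝ) with hΛdef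
  have hΛ : 0 < Λ := Finset.prod_pos fun i _ => by positivity
  obtain ⟨s, hs, hpos⟩ := pos m
  obtain ⟨c10, hG⟩ := tuplesG κ hκ A
  obtain ⟨C, hG⟩ := hG c10 le_rfl
  obtain ⟨M', hR⟩ := rest κ hκ
  set B : ℝ := 1 / (s * Λ) + 3 + 1 / Λ with hB
  have hB0 : 0 < B := by positivity
  set ε1 : ℝ := ε / B with hε1def
  have hε1 : 0 < ε1 := by positivity
  obtain ⟨M, x0, hG⟩ := hG ε1 hε1
  set δ0 : ℝ := min δ 1 with hδ0
  have hδ0p : 0 < δ0 := lt_min hδ one_pos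
  set δ' : ℝ := min (δ0 / 2) (1 / ((M : ℝ) + M' + 1)) with hδ'
  have hδ'0 : 0 < δ' := lt_min (by linarith) (by positivity)
  have hδ'1 : δ' ≤ δ0 / 2 := min_le_left _ _
  have hδ01 : δ0 ≤ 1 := min_le_right _ _
  have hδ'2 : δ' ≤ 1 := by linarith
  have hδ'3 : δ' ≤ 1 / ((M : ℝ) + M' + 1) := min_le_right _ _
  have hMM : (0 : ℝ) < (M : ℝ) + M' + 1 := by positivity
  have hδ'4 : δ' * ((M : ℝ) + M' + 1) ≤ 1 := (le_div_iff₀ hMM).mp hδ'3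
  have hM1 : δ' * M ≤ 1 := by
    have h5 : (0 : ℝ) ≤ M' := by positivity
    nlinarith
  have hM2 : δ' * M' ≤ 1 := by
    have h5 : (0 : ℝ) ≤ M := by positivity
    nlinarith
  obtain ⟨x1, hR⟩ := hR (c10 + 2) (δ' / 2) ε1 (by linarith) hε1
  have hD := densT κ hκ (c10 + 2) (by omega) δ' hδ'0 hδ'2
  have hD2 : ∀ᶠ Y : ℕ in atTop, |dens ⌊(Real.log Y) ^ (c10 + 2)⌋₊ ⌊(Y : ℝ) ^ δ'⌋₊ κ / (Real.log (Real.log Y)) ^ (∑ i, (κ i - 1)) - Λ| <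
      min ε1 1 * Λ := by
    have := (Metric.tendsto_nhds.mp hD) (min ε1 1 * Λ) (mul_pos (lt_min hε1 one_pos) hΛ)
    simpa only [Real.dist_eq] using this
  obtain ⟨N0, hN0⟩ := eventually_atTop.mp (hD2.and (xfin_ev c10 C M M' δ0 δ' hδ'0 hδ'1 hM1 hM2))
  refine ⟨max (max x0 x1) N0, ?_⟩
  intro Y H hY hYH hHY b hb
  have hYx0 : x0 ≤ Y := (le_max_left _ _).trans ((le_max_left _ _).trans hY)
  have hYx1 : x1 ≤ Y := (le_max_right _ _).trans ((le_max_left _ _).trans hY)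
  have hYN : N0 ≤ Y := by exact_mod_cast (le_max_right (max x0 x1) (N0 : ℝ)).trans hY
  obtain ⟨hd, hY1, hll, hl1, hw1, hw2, hw3, hw4, hw5, hw6⟩ := hN0 Y hYN
  set w : ℕ := ⌊(Real.log Y) ^ (c10 + 2)⌋₊ with hw
  set w' : ℕ := ⌊(Y : ℝ) ^ δ'⌋₊ with hw'
  have hYr : (1 : ℝ) ≤ Y := by exact_mod_cast hY1
  have hH : (w' : ℝ) * (Real.log Y) ^ C ≤ H := by
    refine hw5.trans (le_trans ?_ hYH)
    exact Real.rpow_le_rpow_of_exponent_le hYr (min_le_left _ _)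
  refine le_trans ?_ (hG Y w w' H hYx0 ⟨hw1, hw2, hw3⟩ hH hHY b hb)
  have hwc : (w : ℝ) ≤ (Real.log Y) ^ (c10 + 2) := Nat.floor_le (by positivity)
  norm_cast
  refine Finset.card_le_card fun h hh => ?_
  rw [mem_filter] at hh ⊢
  refine ⟨hh.1, fun hgood => hh.2 ⟨hgood.1, fun hadm => ?_⟩⟩
  have hbox : ∀ i, 1 ≤ h i ∧ h i ≤ Y := by
    intro i
    have hm := Fintype.mem_piFinset.mp hh.1 i
    rw [mem_Ioc] at hm
    beta_reduce at hm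
    by_cases hi : κ i = 1
    · rw [if_pos hi, (hb i).1 hi] at hm
      omega
    · rw [if_neg hi] at hm
      have := (hb i).2 hi
      omega
  have hHL := hpos h hgood.1 (fun i => (hbox i).1) hadm
  have hr := hR Y w w' hYx1 hw2 hwc hw6 hw4 h hgood.1 hbox hadm
  set LK : ℝ := (Real.log (Real.log Y)) ^ (∑ i, (κ i - 1)) with hLK
  have hLK1 : 1 ≤ LK := one_le_pow₀ hll
  have hT : ∏ i, (Real.log (Real.log Y)) ^ (κ i - 1) / (Nat.factorial (κ i - 1) : ℝ) = Λ * LK := by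
    rw [hΛdef, hLK, ← Finset.prod_pow_eq_pow_sum, ← Finset.prod_mul_distrib]
    exact Finset.prod_congr rfl fun i _ => by rw [one_div, div_eq_mul_inv, mul_comm]
  have hy : (0 : ℝ) ≤ (Y : ℝ) / (Real.log Y) ^ (m + 1) := by positivity
  have hdd : |dens w w' κ - Λ * LK| ≤ min ε1 1 * (Λ * LK) := by
    have h6 : dens w w' κ - Λ * LK = (dens w w' κ / LK - Λ) * LK := by
      field_simp
    rw [h6, abs_mul, abs_of_pos (by linarith : (0 : ℝ) < LK)]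
    have := mul_le_mul_of_nonneg_right hd.le (by linarith : (0 : ℝ) ≤ LK)
    linarith
  have hΛL : 0 ≤ Λ * LK := by positivity
  have h4 : |dens w w' κ - Λ * LK| ≤ ε1 * (Λ * LK) := hdd.trans (mul_le_mul_of_nonneg_right (min_le_left _ _) hΛL)
  have h5 : |dens w w' κ - Λ * LK| ≤ Λ * LK := hdd.trans ((mul_le_mul_of_nonneg_right (min_le_right _ _) hΛL).trans (by rw [one_mul]))
  have hfin := xfin_alg hs hHL hΛ hLK1 rfl hy hε1 hr.1 hr.2 hgood.2 h4 h5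
  rw [hT]
  have hEB : ε1 * B = ε := by rw [hε1def]; field_simp
  rw [← hB, hEB] at hfin
  exact hfin

end Pool.Agent.Lib.VKT
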