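import Pool.Agent.Lib.VK.XDef
import Pool.Agent.Lib.VK.TTail
import Pool.Agent.Lib.VK.TPos
import Pool.Agent.Lib.Sieve.Smooth

/-!
# VK / XHl (P6x, 180 lines): the sieve product is bounded by the Hardy-Littlewood constant

PROOF. Let `F z` be the product of `1 - ν(p)/p` over ALL primes `p ≤ z`. `F z = part h z * ∏_{p ≤ z} (1 - 1/p)^(m+1)` and `∏_{p ≤ z} (1 - 1/p) ≤ 1 / log z`
(`Sieve.log_le_prod`: `log (z+1) ≤ ∏ (1 - 1/p)⁻¹`). By `tail m` with `N = Y` (`C log Y ≤ (log Y)^2 ≤ z` for large `Y`): `part h z ≤ HL h + C log Y (log z)^D / z`, and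
`C log Y (log z)^D / z ≤ C (log z)^D / √z → 0` (`log Y ≤ √z`; `z ≥ (log Y)^2` is large), so it is `≤ s ≤ HL h` (`pos m`) for large `Y`: `F z ≤ 2 HL h / (log z)^(m+1)`.
The product over the primes `p ≤ z` with `p ≤ 2(m+1)` is `≥ (1/(2(m+1)))^(2(m+1))`: each factor is `≥ 1/p ≥ 1/(2(m+1))` since `ν(p) ≤ p - 1`, at most `2(m+1)` factors.
All factors are positive, so the product over `2(m+1) < p` is `F z` divided by it. `C = 2 (2(m+1))^(2(m+1))`.
-/

set_option autoImplicit false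

open Finset Filter

namespace Pool.Agent.Lib.VKT

/-- The logarithm to a power is small. -/
private theorem xhl_log (D : ℕ) (ε : ℝ) (hε : 0 < ε) : ∃ z0 : ℝ, ∀ z : ℝ, z0 ≤ z → ∀ L : ℝ, 0 ≤ L → L ^ 2 ≤ z →
    0 ≤ Real.log z → 0 ≤ z → L * (Real.log z) ^ D ≤ ε * z := by
  have h1 := (Real.isLittleO_pow_log_id_atTop (n := 2 * D)).bound (sq_pos_of_pos hε)
  obtain ⟨z0, hz0⟩ := Filter.eventually_atTop.1 h1
  refine ⟨z0, fun z hz L hL hLz hlog hz1 => ?_⟩
  have h2 := hz0 z hz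
  rw [id, Real.norm_eq_abs, Real.norm_eq_abs, abs_of_nonneg hz1, abs_of_nonneg (pow_nonneg hlog _)] at h2
  refine abs_le_of_sq_le_sq' ?_ (by positivity) |>.2
  rw [mul_pow, ← pow_mul, mul_comm D 2]
  calc L ^ 2 * Real.log z ^ (2 * D) ≤ z * (ε ^ 2 * z) := by gcongr
    _ = (ε * z) ^ 2 := by ring

private theorem xhl_den {p : ℕ} (hp : p.Prime) : 0 < 1 - 1 / (p : ℝ) := by
  have h2 : (2 : ℝ) ≤ p := by exact_mod_cast hp.two_le
  have h3 : 1 / (p : ℝ) ≤ 1 / 2 := by gcongr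
  linarith

private theorem xhl_pos {m : ℕ} (h : Fin m → ℕ) {p : ℕ} (hp : p.Prime) (hn : nu h p < p) :
    1 / (p : ℝ) ≤ 1 - (nu h p : ℝ) / p := by
  have h0 : (0 : ℝ) < p := by exact_mod_cast hp.pos
  have h1 : (nu h p : ℝ) + 1 ≤ p := by exact_mod_cast hn
  rw [le_sub_iff_add_le, ← add_div, div_le_one h0]
  linarith

/-- The product over all primes in terms of the partial product. -/
private theorem xhl_all {m : ℕ} (h : Fin m → ℕ) (z : ℕ) (hz : 2 ≤ z) (hp0 : 0 ≤ part h z) :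
    ∏ p ∈ (Icc 1 z).filter Nat.Prime, (1 - (nu h p : ℝ) / p) ≤ part h z * (1 / (Real.log z) ^ (m + 1)) := by
  have hlz : 0 < Real.log z := Real.log_pos (by exact_mod_cast (by omega : 1 < z))
  have h1 : ∏ p ∈ (Icc 1 z).filter Nat.Prime, (1 - (nu h p : ℝ) / p)
      = part h z * (∏ p ∈ (Icc 1 z).filter Nat.Prime, (1 - 1 / (p : ℝ))) ^ (m + 1) := by
    unfold part
    rw [← Finset.prod_pow, ← Finset.prod_mul_distrib]
    refine Finset.prod_congr rfl fun p hp => ?_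
    have := xhl_den (mem_filter.1 hp).2
    rw [div_mul_cancel₀ _ (pow_ne_zero _ this.ne')]
  have hpos : 0 < ∏ p ∈ (Icc 1 z).filter Nat.Prime, (1 - 1 / (p : ℝ)) :=
    Finset.prod_pos fun p hp => xhl_den (mem_filter.1 hp).2
  have h2 : ∏ p ∈ (Icc 1 z).filter Nat.Prime, (1 - 1 / (p : ℝ)) ≤ 1 / Real.log z := by
    have h3 := Sieve.log_le_prod z
    rw [Finset.prod_inv_distrib] at h3
    have h4 : Real.log z ≤ Real.log ((z : ℝ) + 1) :=
      Real.log_le_log (by positivity) (by linarith)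
    rw [le_div_iff₀ hlz]
    have h5 : Real.log z ≤ (∏ p ∈ (Icc 1 z).filter Nat.Prime, (1 - 1 / (p : ℝ)))⁻¹ := h4.trans h3
    calc (∏ p ∈ (Icc 1 z).filter Nat.Prime, (1 - 1 / (p : ℝ))) * Real.log z
        ≤ (∏ p ∈ (Icc 1 z).filter Nat.Prime, (1 - 1 / (p : ℝ)))
          * (∏ p ∈ (Icc 1 z).filter Nat.Prime, (1 - 1 / (p : ℝ)))⁻¹ :=
          mul_le_mul_of_nonneg_left h5 hpos.le
      _ = 1 := mul_inv_cancel₀ hpos.ne'
  rw [h1]
  refine mul_le_mul_of_nonneg_left ?_ hp0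
  rw [← one_div_pow]
  exact pow_le_pow_left₀ hpos.le h2 _

/-- The small primes are removed. -/
private theorem xhl_small {m : ℕ} (h : Fin m → ℕ) (z : ℕ) (hn : ∀ p : ℕ, p.Prime → nu h p < p) :
    ∏ p ∈ (Icc 1 z).filter (fun p => p.Prime ∧ 2 * (m + 1) < p), (1 - (nu h p : ℝ) / p)
      ≤ (∏ p ∈ (Icc 1 z).filter Nat.Prime, (1 - (nu h p : ℝ) / p))
        * ((2 * (m + 1) : ℕ) : ℝ) ^ (2 * (m + 1)) := by
  set S := (Icc 1 z).filter Nat.Prime with hS
  have hM : (1 : ℝ) ≤ ((2 * (m + 1) : ℕ) : ℝ) := by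
    exact_mod_cast (by omega : 1 ≤ 2 * (m + 1))
  have hM0 : (0 : ℝ) < ((2 * (m + 1) : ℕ) : ℝ) := by linarith
  have h1 : (Icc 1 z).filter (fun p => p.Prime ∧ 2 * (m + 1) < p) = S.filter (fun p => 2 * (m + 1) < p) := by
    rw [hS, filter_filter]
  have hfp : ∀ p ∈ S, 0 < 1 - (nu h p : ℝ) / p := by
    intro p hp
    have hpp := (mem_filter.1 hp).2
    have := xhl_pos h hpp (hn p hpp)
    have h2 : (0 : ℝ) < p := by exact_mod_cast hpp.pos
    have h3 : 0 < 1 / (p : ℝ) := by positivity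
    linarith
  have hL : 0 < ∏ p ∈ S.filter (fun p => 2 * (m + 1) < p), (1 - (nu h p : ℝ) / p) :=
    Finset.prod_pos fun p hp => hfp p (mem_filter.1 hp).1
  have hs : (1 / ((2 * (m + 1) : ℕ) : ℝ)) ^ (2 * (m + 1))
      ≤ ∏ p ∈ S.filter (fun p => ¬ 2 * (m + 1) < p), (1 - (nu h p : ℝ) / p) := by
    have hc : (S.filter (fun p => ¬ 2 * (m + 1) < p)).card ≤ 2 * (m + 1) := by
      calc (S.filter (fun p => ¬ 2 * (m + 1) < p)).card ≤ (Icc 1 (2 * (m + 1))).card := by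
            refine card_le_card fun p hp => ?_
            rw [mem_filter] at hp
            have hp1 := mem_filter.1 hp.1
            rw [mem_Icc] at hp1 ⊢
            omega
        _ = 2 * (m + 1) := by rw [Nat.card_Icc]; omega
    have ha0 : (0 : ℝ) ≤ 1 / ((2 * (m + 1) : ℕ) : ℝ) := by positivity
    have ha1 : 1 / ((2 * (m + 1) : ℕ) : ℝ) ≤ 1 := by
      rw [div_le_one hM0]
      exact hM
    calc (1 / ((2 * (m + 1) : ℕ) : ℝ)) ^ (2 * (m + 1))
        ≤ (1 / ((2 * (m + 1) : ℕ) : ℝ)) ^ (S.filter (fun p => ¬ 2 * (m + 1) < p)).card :=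
          pow_le_pow_of_le_one ha0 ha1 hc
      _ = ∏ p ∈ S.filter (fun p => ¬ 2 * (m + 1) < p), (1 / ((2 * (m + 1) : ℕ) : ℝ)) := by
          rw [prod_const]
      _ ≤ _ := by
          refine Finset.prod_le_prod (fun _ _ => ha0) fun p hp => ?_
          have hp1 := mem_filter.1 hp
          have hpp := (mem_filter.1 hp1.1).2
          refine le_trans ?_ (xhl_pos h hpp (hn p hpp))
          have h2 : (0 : ℝ) < p := by exact_mod_cast hpp.pos
          have h3 : (p : ℝ) ≤ ((2 * (m + 1) : ℕ) : ℝ) := by exact_mod_cast not_lt.1 hp1.2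
          exact one_div_le_one_div_of_le h2 h3
  rw [h1, ← Finset.prod_filter_mul_prod_filter_not S (fun p => 2 * (m + 1) < p)]
  have h4 : (1 : ℝ) = (1 / ((2 * (m + 1) : ℕ) : ℝ)) ^ (2 * (m + 1))
      * ((2 * (m + 1) : ℕ) : ℝ) ^ (2 * (m + 1)) := by
    rw [← mul_pow, one_div, inv_mul_cancel₀ hM0.ne', one_pow]
  calc ∏ p ∈ S.filter (fun p => 2 * (m + 1) < p), (1 - (nu h p : ℝ) / p)
      = (∏ p ∈ S.filter (fun p => 2 * (m + 1) < p), (1 - (nu h p : ℝ) / p))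
        * ((1 / ((2 * (m + 1) : ℕ) : ℝ)) ^ (2 * (m + 1))
          * ((2 * (m + 1) : ℕ) : ℝ) ^ (2 * (m + 1))) := by rw [← h4, mul_one]
    _ ≤ (∏ p ∈ S.filter (fun p => 2 * (m + 1) < p), (1 - (nu h p : ℝ) / p))
        * ((∏ p ∈ S.filter (fun p => ¬ 2 * (m + 1) < p), (1 - (nu h p : ℝ) / p))
          * ((2 * (m + 1) : ℕ) : ℝ) ^ (2 * (m + 1))) := by
        refine mul_le_mul_of_nonneg_left ?_ hL.le
        exact mul_le_mul_of_nonneg_right hs (by positivity)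
    _ = _ := by rw [mul_assoc]

theorem hlz (m : ℕ) : ∃ C x0 : ℝ, 0 < C ∧ ∀ Y z : ℕ, x0 ≤ Y → (Real.log Y) ^ 2 ≤ z → ∀ h : Fin m → ℕ, Function.Injective h →
    (∀ i, 1 ≤ h i ∧ h i ≤ Y) → (∀ p : ℕ, p.Prime → nu h p < p) →
      ∏ p ∈ (Icc 1 z).filter (fun p => p.Prime ∧ 2 * (m + 1) < p), (1 - (nu h p : ℝ) / p) ≤ C * HL h / (Real.log z) ^ (m + 1) := by
  obtain ⟨C, D, hC, hT⟩ := tail m
  obtain ⟨s, hs, hP⟩ := pos m
  obtain ⟨z0, hz0⟩ := xhl_log D (s / C) (div_pos hs hC)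
  refine ⟨2 * ((2 * (m + 1) : ℕ) : ℝ) ^ (2 * (m + 1)), Real.exp (max (max C 2) z0), by positivity,
    fun Y z hY hz h hi hh hn => ?_⟩
  have hY0 : (0 : ℝ) < Y := lt_of_lt_of_le (Real.exp_pos _) hY
  have hL : max (max C 2) z0 ≤ Real.log Y := (Real.le_log_iff_exp_le hY0).2 hY
  have hLC : C ≤ Real.log Y := (le_max_left _ _).trans ((le_max_left _ _).trans hL)
  have hL2 : 2 ≤ Real.log Y := (le_max_right _ _).trans ((le_max_left _ _).trans hL)
  have hLz : z0 ≤ Real.log Y := (le_max_right _ _).trans hL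
  have hz4 : (4 : ℝ) ≤ z := by nlinarith
  have hz2 : 2 ≤ z := by
    have : (2 : ℝ) ≤ z := by linarith
    exact_mod_cast this
  have hY2 : 2 ≤ Y := by
    have h1 := Real.log_le_sub_one_of_pos hY0
    have : (2 : ℝ) ≤ Y := by linarith
    exact_mod_cast this
  have hlz : 0 < Real.log z := Real.log_pos (by linarith)
  obtain ⟨-, h1, h2, -⟩ := hT z Y h hz2 hY2 hi hh (by nlinarith)
  have h3 := hz0 z (by nlinarith) (Real.log Y) (by linarith) hz hlz.le (by linarith)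
  have h4 := hP h hi (fun i => (hh i).1) hn
  have h5 : C * Real.log Y * (Real.log z) ^ D / z ≤ s := by
    rw [div_le_iff₀ (by linarith)]
    calc C * Real.log Y * (Real.log z) ^ D = C * (Real.log Y * (Real.log z) ^ D) := by ring
      _ ≤ C * (s / C * z) := mul_le_mul_of_nonneg_left h3 hC.le
      _ = s * z := by field_simp
  have h6 : part h z ≤ 2 * HL h := by
    have := (abs_le.1 h1).2
    linarith
  refine (xhl_small h z hn).trans ?_
  calc (∏ p ∈ (Icc 1 z).filter Nat.Prime, (1 - (nu h p : ℝ) / p))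
        * ((2 * (m + 1) : ℕ) : ℝ) ^ (2 * (m + 1))
      ≤ (part h z * (1 / (Real.log z) ^ (m + 1))) * ((2 * (m + 1) : ℕ) : ℝ) ^ (2 * (m + 1)) :=
        mul_le_mul_of_nonneg_right (xhl_all h z hz2 h2) (by positivity)
    _ ≤ (2 * HL h * (1 / (Real.log z) ^ (m + 1))) * ((2 * (m + 1) : ℕ) : ℝ) ^ (2 * (m + 1)) := by
        gcongr
    _ = _ := by ring

end Pool.Agent.Lib.VKT
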