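import Pool.Agent.Lib.VK.XDef

/-!
# VK, part P7 (the full count in windows `exp((log X)^(1-η))`): definitions

As in XDef, with three levels `w ≤ w' ≤ z`: the small part is taken at the primes `≤ z`, exceptional means in addition: a prime factor in `(w', z]`.
-/

set_option autoImplicit false

open Finset Filter

namespace Pool.Agent.Lib.VKT

/-- products of at most `K` primes `≤ z` which have at most `K - 1` prime factors, or a prime factor `≤ w` or `> w'`, or a square factor -/
noncomputable def DT (K w w' z : ℕ) : Finset ℕ :=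
  (Icc 1 (z ^ K)).filter fun d => (∀ p ∈ d.primeFactors, p ≤ z) ∧ d.primeFactorsList.length ≤ K ∧
    (d.primeFactorsList.length + 1 ≤ K ∨ (∃ p ∈ d.primeFactors, p ≤ w ∨ w' < p) ∨ ¬ Squarefree d)

/-- the vectors of the parts at the primes `≤ z` of the exceptional `n` -/
noncomputable def GT {m : ℕ} (w w' z : ℕ) (κ : Fin m → ℕ) : Finset (Fin m → ℕ) :=
  (Fintype.piFinset fun i => Icc 1 (z ^ κ i)).filter fun g =>
    (∀ i, (g i).primeFactorsList.length + 1 ≤ κ i ∧ ∀ p ∈ (g i).primeFactors, p ≤ z) ∧
      ∃ i, (g i).primeFactorsList.length + 2 ≤ κ i ∨ (∃ p ∈ (g i).primeFactors, p ≤ w ∨ w' < p) ∨ ¬ Squarefree (g i)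

end Pool.Agent.Lib.VKT
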