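import Pool.Agent.Lib.VK.XDef
import Pool.Agent.Lib.G5.Q2
import Pool.Agent.Lib.G3.Mert5

/-!
# VK / YDens (P7): the product of the densities for `w = ⌊(log Y)^c⌋`, `w' = ⌊exp((log Y)^(1-η))⌋` (REPLACES XDens)

PROOF. As XDens. `L = loglog Y → ∞`. `sg1 w w' = loglog w' - loglog w + O(1)` (`mert5` with `ε = 1`), `loglog w' = (1-η) L + o(1)`, `loglog w = O(log L)`: `sg1 w w'/L → 1 - η`. By `G5.q2a` (`(j+1) esy (j+1)` is between
`(sg1 - j/w) esy j` and `sg1 esy j`): `esy j w w'/L^j → (1-η)^j/j!`. `sgK = sg1 esy(k-2)/(k-1)` for `k ≥ 2`: `sgK/L^(k-1) → (1-η)^(k-1)/(k-1)!`. Product over `i` (factor `1` for `κ_i = 1`).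
-/

set_option autoImplicit false

open Finset Filter

namespace Pool.Agent.Lib.VKT

open Pool.Agent.Lib.G5 (PP sg1 esy sgK)

private theorem ydens_log : Tendsto (fun Y : ℕ => Real.log (Y : ℝ)) atTop atTop :=
  Real.tendsto_log_atTop.comp tendsto_natCast_atTop_atTop

private theorem ydens_ll : Tendsto (fun Y : ℕ => Real.log (Real.log (Y : ℝ))) atTop atTop :=
  Real.tendsto_log_atTop.comp ydens_log

private theorem ydens_w (c : ℕ) (hc : 1 ≤ c) : Tendsto (fun Y : ℕ => ⌊(Real.log (Y : ℝ)) ^ c⌋₊) atTop atTop :=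
  tendsto_nat_floor_atTop.comp ((tendsto_pow_atTop (by omega)).comp ydens_log)

/-- the bounds for `sg1` -/
private theorem ydens_bound (c : ℕ) (hc : 1 ≤ c) (θ : ℝ) (hθ : 0 < θ) :
    ∀ᶠ Y : ℕ in atTop, |sg1 ⌊(Real.log (Y : ℝ)) ^ c⌋₊ ⌊Real.exp ((Real.log (Y : ℝ)) ^ θ)⌋₊ - θ * Real.log (Real.log (Y : ℝ))| ≤
      1 + Real.log 2 + Real.log c + Real.log (Real.log (Real.log (Y : ℝ))) := by
  obtain ⟨z0, hz⟩ := Pool.Agent.Lib.G3.mert5 1 one_pos
  have hcr : (1 : ℝ) ≤ c := by exact_mod_cast hc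
  have h1 : ∀ᶠ Y : ℕ in atTop, max z0 3 ≤ ⌊(Real.log (Y : ℝ)) ^ c⌋₊ := (ydens_w c hc).eventually_ge_atTop _
  have h2 : ∀ᶠ Y : ℕ in atTop, (c : ℝ) * Real.log (Real.log (Y : ℝ)) ≤ (Real.log (Y : ℝ)) ^ θ := by
    have h := (isLittleO_log_rpow_atTop hθ).bound (c := 1 / (c : ℝ)) (by positivity)
    have h' := ydens_log.eventually h
    filter_upwards [h', ydens_ll.eventually_ge_atTop 0, ydens_log.eventually_ge_atTop 1] with Y hY hl hl1
    have h3 : 0 < (Real.log (Y : ℝ)) ^ θ := Real.rpow_pos_of_pos (by linarith) _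
    rw [Real.norm_of_nonneg hl, Real.norm_of_nonneg h3.le, div_mul_eq_mul_div, one_mul, le_div_iff₀ (by linarith)] at hY
    linarith
  have h3 : ∀ᶠ Y : ℕ in atTop, (2 : ℝ) * Real.log 2 ≤ (Real.log (Y : ℝ)) ^ θ :=
    ((tendsto_rpow_atTop hθ).comp ydens_log).eventually_ge_atTop _
  have h4 : ∀ᶠ Y : ℕ in atTop, (1 : ℝ) ≤ Real.log (Real.log (Y : ℝ)) := ydens_ll.eventually_ge_atTop _
  filter_upwards [h1, h2, h3, h4, ydens_log.eventually_ge_atTop 1, eventually_ge_atTop 1] with Y h1 h2 h3 h4 hl hY1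
  have hYr : (1 : ℝ) ≤ Y := by exact_mod_cast hY1
  have hlpos : 0 < Real.log (Y : ℝ) := by linarith
  have hlog2 : 0 ≤ Real.log 2 := Real.log_nonneg (by norm_num)
  obtain ⟨u, hu⟩ : ∃ u : ℕ, u = ⌊(Real.log (Y : ℝ)) ^ c⌋₊ := ⟨_, rfl⟩
  obtain ⟨v, hv⟩ : ∃ v : ℕ, v = ⌊Real.exp ((Real.log (Y : ℝ)) ^ θ)⌋₊ := ⟨_, rfl⟩
  have hcv : (Real.log (Y : ℝ)) ^ c ≤ Real.exp ((Real.log (Y : ℝ)) ^ θ) := by
    rw [← Real.log_le_iff_le_exp (by positivity), Real.log_pow]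
    exact h2
  rw [← hu] at h1
  have hu0 : z0 ≤ u := (le_max_left _ _).trans h1
  have hu3 : 3 ≤ u := (le_max_right _ _).trans h1
  have huv : u ≤ v := by
    rw [hu, hv]
    exact Nat.floor_le_floor hcv
  rw [← hu, ← hv]
  have hm := hz u v hu0 huv
  have e1 : ∑ p ∈ Pool.Agent.Lib.G3.pi5 u v, (1 : ℝ) / p = sg1 u v := rfl
  rw [e1] at hm
  have hur : (3 : ℝ) ≤ u := by exact_mod_cast hu3
  have hvr : (3 : ℝ) ≤ v := by exact_mod_cast hu3.trans huv
  have hlu : 1 ≤ Real.log (u : ℝ) := by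
    rw [Real.le_log_iff_exp_le (by linarith)]
    have := Real.exp_one_lt_d9
    linarith
  have hlv : 1 ≤ Real.log (v : ℝ) := by
    rw [Real.le_log_iff_exp_le (by linarith)]
    have := Real.exp_one_lt_d9
    linarith
  rw [Real.log_div (by linarith) (by linarith)] at hm
  have hex := Real.exp_pos ((Real.log (Y : ℝ)) ^ θ)
  have hvle : (v : ℝ) ≤ Real.exp ((Real.log (Y : ℝ)) ^ θ) := by
    rw [hv]
    exact Nat.floor_le hex.le
  have hvge : Real.exp ((Real.log (Y : ℝ)) ^ θ) / 2 ≤ v := by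
    have h5 := Nat.lt_floor_add_one (Real.exp ((Real.log (Y : ℝ)) ^ θ))
    rw [← hv] at h5
    linarith
  -- upper bound for loglog v
  have a1 : Real.log (Real.log (v : ℝ)) ≤ θ * Real.log (Real.log (Y : ℝ)) := by
    rw [← Real.log_rpow hlpos]
    refine Real.log_le_log (by linarith) ?_
    rw [← Real.log_exp ((Real.log (Y : ℝ)) ^ θ)]
    exact Real.log_le_log (by linarith) hvle
  -- lower bound for loglog v
  have a2 : θ * Real.log (Real.log (Y : ℝ)) - Real.log 2 ≤ Real.log (Real.log (v : ℝ)) := by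
    rw [← Real.log_rpow hlpos, ← Real.log_div (by positivity) (by norm_num)]
    refine Real.log_le_log (by positivity) ?_
    have h5 : Real.log (Real.exp ((Real.log (Y : ℝ)) ^ θ) / 2) ≤ Real.log (v : ℝ) := Real.log_le_log (by positivity) hvge
    rw [Real.log_div hex.ne' (by norm_num), Real.log_exp] at h5
    linarith
  -- loglog u
  have a3 : 0 ≤ Real.log (Real.log (u : ℝ)) := Real.log_nonneg hlu
  have a4 : Real.log (Real.log (u : ℝ)) ≤ Real.log c + Real.log (Real.log (Real.log (Y : ℝ))) := by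
    rw [← Real.log_mul (by linarith) (by linarith)]
    refine Real.log_le_log (by linarith) ?_
    have h5 : (u : ℝ) ≤ (Real.log (Y : ℝ)) ^ c := by
      rw [hu]
      exact Nat.floor_le (by positivity)
    have h6 := Real.log_le_log (by linarith) h5
    rwa [Real.log_pow] at h6
  have a6 : 0 ≤ Real.log (Real.log (Real.log (Y : ℝ))) := Real.log_nonneg h4
  have a7 : 0 ≤ Real.log (c : ℝ) := Real.log_nonneg hcr
  rw [abs_le] at hm ⊢
  constructor <;> linarith [hm.1, hm.2]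

private theorem ydens_sg1 (c : ℕ) (hc : 1 ≤ c) (θ : ℝ) (hθ : 0 < θ) :
    Tendsto (fun Y : ℕ => sg1 ⌊(Real.log (Y : ℝ)) ^ c⌋₊ ⌊Real.exp ((Real.log (Y : ℝ)) ^ θ)⌋₊ / Real.log (Real.log (Y : ℝ)))
      atTop (nhds θ) := by
  have hB : Tendsto (fun Y : ℕ => (1 + Real.log 2 + Real.log c + Real.log (Real.log (Real.log (Y : ℝ)))) /
      Real.log (Real.log (Y : ℝ))) atTop (nhds 0) := by
    have h1 : Tendsto (fun x : ℝ => (1 + Real.log 2 + Real.log c + Real.log x) / x) atTop (nhds 0) := by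
      have h2 : Tendsto (fun x : ℝ => (1 + Real.log 2 + Real.log c) / x) atTop (nhds 0) :=
        tendsto_const_nhds.div_atTop tendsto_id
      have h3 : Tendsto (fun x : ℝ => Real.log x / x) atTop (nhds 0) :=
        Real.isLittleO_log_id_atTop.tendsto_div_nhds_zero
      have h4 := h2.add h3
      simp only [add_zero] at h4
      refine h4.congr fun x => ?_
      rw [← add_div]
    exact h1.comp ydens_ll
  rw [tendsto_iff_norm_sub_tendsto_zero]
  refine squeeze_zero' (Eventually.of_forall fun _ => norm_nonneg _) ?_ hB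
  filter_upwards [ydens_bound c hc θ hθ, ydens_ll.eventually_ge_atTop 1] with Y h1 h2
  have h3 : 0 < Real.log (Real.log (Y : ℝ)) := by linarith
  rw [Real.norm_eq_abs, div_sub' h3.ne', abs_div, abs_of_pos h3, mul_comm (Real.log (Real.log (Y : ℝ))) θ]
  exact div_le_div_of_nonneg_right h1 h3.le

private theorem ydens_esy (c : ℕ) (hc : 1 ≤ c) (θ : ℝ) (hθ : 0 < θ) (j : ℕ) :
    Tendsto (fun Y : ℕ => esy j ⌊(Real.log (Y : ℝ)) ^ c⌋₊ ⌊Real.exp ((Real.log (Y : ℝ)) ^ θ)⌋₊ / (Real.log (Real.log (Y : ℝ))) ^ j) atTop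
      (nhds (θ ^ j / (Nat.factorial j : ℝ))) := by
  induction j with
  | zero =>
    have h1 : (fun Y : ℕ => esy 0 ⌊(Real.log (Y : ℝ)) ^ c⌋₊ ⌊Real.exp ((Real.log (Y : ℝ)) ^ θ)⌋₊ / (Real.log (Real.log (Y : ℝ))) ^ 0) =
        fun _ => (1 : ℝ) := by
      funext Y
      simp [esy]
    rw [h1]
    simp
  | succ j ih =>
    have hs := ydens_sg1 c hc θ hθ
    have hwR : Tendsto (fun Y : ℕ => ((⌊(Real.log (Y : ℝ)) ^ c⌋₊ : ℕ) : ℝ)) atTop atTop :=
      tendsto_natCast_atTop_atTop.comp (ydens_w c hc)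
    have hd : Tendsto (fun Y : ℕ => (j : ℝ) / ((⌊(Real.log (Y : ℝ)) ^ c⌋₊ : ℕ) : ℝ) *
        (esy j ⌊(Real.log (Y : ℝ)) ^ c⌋₊ ⌊Real.exp ((Real.log (Y : ℝ)) ^ θ)⌋₊ / (Real.log (Real.log (Y : ℝ))) ^ j)) atTop (nhds 0) := by
      have := (Filter.Tendsto.const_div_atTop hwR (j : ℝ)).mul ih
      simpa using this
    have he : ∀ᶠ Y : ℕ in atTop, 1 ≤ ⌊(Real.log (Y : ℝ)) ^ c⌋₊ := (ydens_w c hc).eventually_ge_atTop 1
    have hl1 : ∀ᶠ Y : ℕ in atTop, (1 : ℝ) ≤ Real.log (Real.log (Y : ℝ)) := ydens_ll.eventually_ge_atTop 1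
    have hδ' : Tendsto (fun Y : ℕ => (sg1 ⌊(Real.log (Y : ℝ)) ^ c⌋₊ ⌊Real.exp ((Real.log (Y : ℝ)) ^ θ)⌋₊ *
        esy j ⌊(Real.log (Y : ℝ)) ^ c⌋₊ ⌊Real.exp ((Real.log (Y : ℝ)) ^ θ)⌋₊ - (j + 1) * esy (j + 1) ⌊(Real.log (Y : ℝ)) ^ c⌋₊ ⌊Real.exp ((Real.log (Y : ℝ)) ^ θ)⌋₊) /
          (Real.log (Real.log (Y : ℝ))) ^ (j + 1)) atTop (nhds 0) := by
      refine tendsto_of_tendsto_of_tendsto_of_le_of_le' tendsto_const_nhds hd ?_ ?_
      · filter_upwards [he, hl1] with Y hY hl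
        exact div_nonneg (Pool.Agent.Lib.G5.q2a j _ _ hY).1 (by positivity)
      · filter_upwards [he, hl1] with Y hY hl
        have h1 := Pool.Agent.Lib.G5.q2a j _ ⌊Real.exp ((Real.log (Y : ℝ)) ^ θ)⌋₊ hY
        have h0 : 0 < Real.log (Real.log (Y : ℝ)) := by linarith
        have h2 : (Real.log (Real.log (Y : ℝ))) ^ j ≤ (Real.log (Real.log (Y : ℝ))) ^ (j + 1) :=
          pow_le_pow_right₀ hl (Nat.le_succ j)
        calc _ ≤ (sg1 ⌊(Real.log (Y : ℝ)) ^ c⌋₊ ⌊Real.exp ((Real.log (Y : ℝ)) ^ θ)⌋₊ * esy j ⌊(Real.log (Y : ℝ)) ^ c⌋₊ ⌊Real.exp ((Real.log (Y : ℝ)) ^ θ)⌋₊ -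
              (j + 1) * esy (j + 1) ⌊(Real.log (Y : ℝ)) ^ c⌋₊ ⌊Real.exp ((Real.log (Y : ℝ)) ^ θ)⌋₊) / (Real.log (Real.log (Y : ℝ))) ^ j :=
              div_le_div_of_nonneg_left h1.1 (by positivity) h2
          _ ≤ ((j : ℝ) / ((⌊(Real.log (Y : ℝ)) ^ c⌋₊ : ℕ) : ℝ) * esy j ⌊(Real.log (Y : ℝ)) ^ c⌋₊ ⌊Real.exp ((Real.log (Y : ℝ)) ^ θ)⌋₊) /
              (Real.log (Real.log (Y : ℝ))) ^ j := div_le_div_of_nonneg_right h1.2 (by positivity)
          _ = _ := by rw [mul_div_assoc]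
    have hj : ((j : ℝ) + 1) ≠ 0 := by positivity
    have hlim := ((hs.mul ih).sub hδ').div_const ((j : ℝ) + 1)
    have h2 : (θ * (θ ^ j / (Nat.factorial j : ℝ)) - 0) / ((j : ℝ) + 1) = θ ^ (j + 1) / (Nat.factorial (j + 1) : ℝ) := by
      rw [Nat.factorial_succ]
      push_cast
      have : (Nat.factorial j : ℝ) ≠ 0 := by positivity
      field_simp
      ring
    rw [h2] at hlim
    refine hlim.congr' ?_
    filter_upwards [hl1] with Y hl
    have h0 : Real.log (Real.log (Y : ℝ)) ≠ 0 := by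
      have : 0 < Real.log (Real.log (Y : ℝ)) := by linarith
      exact this.ne'
    rw [pow_succ]
    field_simp
    ring

theorem densT7 {m : ℕ} (κ : Fin m → ℕ) (hκ : ∀ i, 1 ≤ κ i) (c : ℕ) (hc : 1 ≤ c) (η : ℝ) (hη : 0 < η) (hη1 : η < 1) :
    Tendsto (fun Y : ℕ => dens ⌊(Real.log Y) ^ c⌋₊ ⌊Real.exp ((Real.log Y) ^ (1 - η))⌋₊ κ /
      (Real.log (Real.log Y)) ^ (∑ i, (κ i - 1))) atTop
      (nhds (∏ i, (1 - η) ^ (κ i - 1) / (Nat.factorial (κ i - 1) : ℝ))) := by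
  have hθ : 0 < 1 - η := by linarith
  have hfac : ∀ i ∈ (univ : Finset (Fin m)), Tendsto (fun Y : ℕ => (if κ i = 1 then (1 : ℝ) else
      sgK (κ i) ⌊(Real.log (Y : ℝ)) ^ c⌋₊ ⌊Real.exp ((Real.log (Y : ℝ)) ^ (1 - η))⌋₊) / (Real.log (Real.log (Y : ℝ))) ^ (κ i - 1)) atTop
        (nhds ((1 - η) ^ (κ i - 1) / (Nat.factorial (κ i - 1) : ℝ))) := by
    intro i _
    by_cases h1 : κ i = 1
    · simp only [h1, if_true, Nat.sub_self, pow_zero, Nat.factorial_zero, Nat.cast_one, div_one]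
      exact tendsto_const_nhds
    · obtain ⟨j, hj⟩ : ∃ j, κ i = j + 2 := ⟨κ i - 2, by have := hκ i; omega⟩
      have h2 := ((ydens_sg1 c hc (1 - η) hθ).mul (ydens_esy c hc (1 - η) hθ j)).div_const ((j : ℝ) + 1)
      have h3 : ((1 - η) * ((1 - η) ^ j / (Nat.factorial j : ℝ))) / ((j : ℝ) + 1) =
          (1 - η) ^ (κ i - 1) / (Nat.factorial (κ i - 1) : ℝ) := by
        have e : κ i - 1 = j + 1 := by omega
        rw [e, Nat.factorial_succ]
        push_cast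
        have : (Nat.factorial j : ℝ) ≠ 0 := by positivity
        field_simp
        try ring
      rw [h3] at h2
      refine h2.congr' ?_
      filter_upwards [ydens_ll.eventually_ge_atTop 1] with Y hl
      have h0 : Real.log (Real.log (Y : ℝ)) ≠ 0 := by
        have : 0 < Real.log (Real.log (Y : ℝ)) := by linarith
        exact this.ne'
      rw [if_neg h1]
      unfold sgK
      have e : κ i - 1 = j + 1 := by omega
      have e2 : κ i - 2 = j := by omega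
      have e3 : ((κ i : ℕ) : ℝ) - 1 = (j : ℝ) + 1 := by rw [hj]; push_cast; ring
      rw [e, e2, e3, pow_succ]
      have hj1 : ((j : ℝ) + 1) ≠ 0 := by positivity
      field_simp
  have h := tendsto_finset_prod (univ : Finset (Fin m)) hfac
  refine h.congr fun Y => ?_
  unfold dens
  rw [Finset.prod_div_distrib, Finset.prod_pow_eq_pow_sum]

end Pool.Agent.Lib.VKT
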