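import Pool.Agent.Lib.VK.YDef
import Pool.Agent.Lib.VK.XSum
import Mathlib.NumberTheory.ArithmeticFunction.Misc

/-!
# VK / YSum (P7): sums over the small parts (variant of XSum)

PROOF. As in XSum (copy; landed), with primes `≤ z` and one more class in `dsum7`: `d ∈ DT K w w' z` with a prime factor `p`, `w' < p ≤ z`: injection `d ↦ (p, d/p)`: sum `≤ (rcp z - rcp w') (1 + rcp z)^(K-1)`,
where `rcp z - rcp w'` is the sum of `1/p` over the primes of `(w', z]`. `gsum7`: the same proof as `gsum`.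
-/

set_option autoImplicit false

open Finset Filter

namespace Pool.Agent.Lib.VKT

/-- a sum over `D` of `1/d`, by a chosen divisor of `d` and its complement -/
private theorem ys_split (D A : Finset ℕ) (f : ℕ → ℕ) (hf : ∀ d ∈ D, f d ∈ A ∧ f d ∣ d) :
    ∑ d ∈ D, (1 : ℝ) / d ≤ (∑ a ∈ A, (1 : ℝ) / a) * ∑ e ∈ D.image (fun d => d / f d), (1 : ℝ) / e := by
  classical
  have h1 : ∀ d ∈ D, f d * (d / f d) = d := fun d hd => Nat.mul_div_cancel' (hf d hd).2
  have h2 : ∑ d ∈ D, (1 : ℝ) / d = ∑ x ∈ D.image (fun d => (f d, d / f d)), (1 : ℝ) / x.1 * (1 / x.2) := by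
    rw [sum_image]
    · refine sum_congr rfl fun d hd => ?_
      have h3 : ((f d : ℕ) : ℝ) * ((d / f d : ℕ) : ℝ) = d := by exact_mod_cast h1 d hd
      simp only
      rw [one_div_mul_one_div, h3]
    · intro d hd d' hd' h
      simp only [Prod.mk.injEq] at h
      rw [← h1 d hd, ← h1 d' hd', h.2, h.1]
  rw [h2, sum_mul_sum, ← sum_product']
  refine sum_le_sum_of_subset_of_nonneg ?_ fun _ _ _ => by positivity
  intro x hx
  rw [mem_image] at hx
  obtain ⟨d, hd, rfl⟩ := hx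
  rw [mem_product]
  exact ⟨(hf d hd).1, mem_image_of_mem _ hd⟩

private theorem ys_len_mul {a b : ℕ} (ha : a ≠ 0) (hb : b ≠ 0) :
    (a * b).primeFactorsList.length = a.primeFactorsList.length + b.primeFactorsList.length := by
  have := ArithmeticFunction.cardFactors_mul ha hb
  simpa only [ArithmeticFunction.cardFactors_apply] using this

private theorem ys_len_zero {n : ℕ} (hn : n ≠ 0) (h : n.primeFactorsList.length = 0) : n = 1 := by
  have := ArithmeticFunction.cardFactors_eq_zero_iff_eq_zero_or_one.1 ((ArithmeticFunction.cardFactors_apply (n := n)).trans h)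
  omega

private theorem ys_div {d p j w' : ℕ} (hd : 1 ≤ d) (hp : p.Prime) (hpd : p ∣ d) (h1 : ∀ q ∈ d.primeFactors, q ≤ w')
    (h2 : d.primeFactorsList.length = j + 1) :
    1 ≤ d / p ∧ (∀ q ∈ (d / p).primeFactors, q ≤ w') ∧ (d / p).primeFactorsList.length = j := by
  obtain ⟨e, rfl⟩ := hpd
  have he : e ≠ 0 := by
    rintro rfl
    omega
  rw [Nat.mul_div_cancel_left _ hp.pos]
  refine ⟨by omega, fun q hq => h1 q (Nat.primeFactors_mono (Dvd.intro_left _ rfl) (by omega) hq), ?_⟩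
  rw [ys_len_mul hp.ne_zero he, Nat.primeFactorsList_prime hp, List.length_singleton] at h2
  omega

private theorem ys_rcp (w : ℕ) : 0 ≤ rcp w := by
  unfold rcp
  exact sum_nonneg fun _ _ => by positivity

/-- one chosen prime factor in `A` -/
private theorem ys_step (A : Finset ℕ) (w' j : ℕ)
    (ih : ∀ D : Finset ℕ, (∀ d ∈ D, 1 ≤ d ∧ (∀ q ∈ d.primeFactors, q ≤ w') ∧ d.primeFactorsList.length = j) →
      ∑ d ∈ D, (1 : ℝ) / d ≤ (rcp w') ^ j)
    (D : Finset ℕ) (hD : ∀ d ∈ D, 1 ≤ d ∧ (∀ q ∈ d.primeFactors, q ≤ w') ∧ d.primeFactorsList.length = j + 1)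
    (hp : ∀ d ∈ D, ∃ p : ℕ, p.Prime ∧ p ∣ d ∧ p ∈ A) :
    ∑ d ∈ D, (1 : ℝ) / d ≤ (∑ a ∈ A, (1 : ℝ) / a) * (rcp w') ^ j := by
  classical
  choose! f hf using hp
  refine (ys_split D A f ?_).trans ?_
  · intro d hd
    obtain ⟨-, h2, h3⟩ := hf d hd
    exact ⟨h3, h2⟩
  · refine mul_le_mul_of_nonneg_left (ih _ ?_) (sum_nonneg fun _ _ => by positivity)
    intro e he
    rw [mem_image] at he
    obtain ⟨d, hd, rfl⟩ := he
    obtain ⟨h1, h2, h3⟩ := hf d hd
    obtain ⟨h4, h5, h6⟩ := hD d hd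
    exact ys_div h4 h1 h2 h5 h6

private theorem ys_prime {d w' j : ℕ} (h : 1 ≤ d ∧ (∀ q ∈ d.primeFactors, q ≤ w') ∧ d.primeFactorsList.length = j + 1) :
    ∃ p : ℕ, p.Prime ∧ p ∣ d ∧ p ∈ (Icc 1 w').filter Nat.Prime := by
  obtain ⟨h2, h3, h4⟩ := h
  have h5 : d ≠ 1 := by
    rintro rfl
    rw [Nat.primeFactorsList_one] at h4
    simp at h4
  have h6 := Nat.minFac_prime h5
  exact ⟨d.minFac, h6, Nat.minFac_dvd d, mem_filter.2 ⟨mem_Icc.2 ⟨h6.one_le,
    h3 _ (Nat.mem_primeFactors.2 ⟨h6, Nat.minFac_dvd d, by omega⟩)⟩, h6⟩⟩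

/-- `T j ≤ (rcp w')^j` -/
private theorem ys_T (w' j : ℕ) : ∀ D : Finset ℕ, (∀ d ∈ D, 1 ≤ d ∧ (∀ q ∈ d.primeFactors, q ≤ w') ∧ d.primeFactorsList.length = j) →
    ∑ d ∈ D, (1 : ℝ) / d ≤ (rcp w') ^ j := by
  induction j with
  | zero =>
    intro D hD
    have h1 : D ⊆ {1} := by
      intro d hd
      obtain ⟨h2, -, h3⟩ := hD d hd
      rw [mem_singleton]
      exact ys_len_zero (by omega) h3
    refine (sum_le_sum_of_subset_of_nonneg h1 fun _ _ _ => by positivity).trans ?_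
    simp
  | succ j ih =>
    intro D hD
    rw [pow_succ, mul_comm]
    exact ys_step ((Icc 1 w').filter Nat.Prime) w' j ih D hD fun d hd => ys_prime (hD d hd)

/-- a square factor -/
private theorem ys_sq (w' j : ℕ) (D : Finset ℕ)
    (hD : ∀ d ∈ D, 1 ≤ d ∧ (∀ q ∈ d.primeFactors, q ≤ w') ∧ d.primeFactorsList.length = j + 2)
    (hp : ∀ d ∈ D, ¬ Squarefree d) : ∑ d ∈ D, (1 : ℝ) / d ≤ (rcp w') ^ j := by
  classical
  have hp' : ∀ d ∈ D, ∃ p : ℕ, p.Prime ∧ p * p ∣ d := by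
    intro d hd
    have h1 := hp d hd
    rw [Nat.squarefree_iff_prime_squarefree] at h1
    push Not at h1
    exact h1
  choose! f hf using hp'
  have h1 := ys_split D (((Icc 1 w').filter Nat.Prime).image fun p => p * p) (fun d => f d * f d) (by
    intro d hd
    obtain ⟨h1, h2⟩ := hf d hd
    refine ⟨?_, h2⟩
    refine mem_image_of_mem (fun p => p * p) ?_
    rw [mem_filter, mem_Icc]
    have h3 := (hD d hd).1
    exact ⟨⟨h1.one_le, (hD d hd).2.1 _ (Nat.mem_primeFactors.2 ⟨h1, (Dvd.intro _ rfl).trans h2, by omega⟩)⟩, h1⟩)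
  have h2 : ∑ a ∈ ((Icc 1 w').filter Nat.Prime).image (fun p => p * p), (1 : ℝ) / a ≤ 1 := by
    rw [sum_image]
    · have h3 : ∑ p ∈ (Icc 1 w').filter Nat.Prime, (1 : ℝ) / ((p * p : ℕ) : ℝ) ≤ ∑ p ∈ Ioc 1 (max 1 w'), ((p : ℝ) ^ 2)⁻¹ := by
        refine le_trans (sum_le_sum fun p _ => ?_) (sum_le_sum_of_subset_of_nonneg (t := Ioc 1 (max 1 w')) ?_ fun _ _ _ => by positivity)
        · rw [Nat.cast_mul, sq, one_div]
        · intro p hp
          rw [mem_filter, mem_Icc] at hp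
          rw [mem_Ioc]
          exact ⟨hp.2.one_lt, hp.1.2.trans (le_max_right _ _)⟩
      have h4 := sum_Ioc_inv_sq_le_sub (α := ℝ) (k := 1) (n := max 1 w') (by omega) (le_max_left _ _)
      have h5 : (0 : ℝ) ≤ ((max 1 w' : ℕ) : ℝ)⁻¹ := by positivity
      rw [Nat.cast_one, inv_one] at h4
      linarith
    · intro a _ b _ h
      exact Nat.mul_self_inj.1 h
  have h3 : ∑ e ∈ D.image (fun d => d / (f d * f d)), (1 : ℝ) / e ≤ (rcp w') ^ j := by
    refine ys_T w' j _ ?_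
    intro e he
    rw [mem_image] at he
    obtain ⟨d, hd, rfl⟩ := he
    obtain ⟨h4, h5, h6⟩ := hD d hd
    obtain ⟨h7, h8⟩ := hf d hd
    rw [← Nat.div_div_eq_div_mul]
    obtain ⟨h9, h10, h11⟩ := ys_div h4 h7 ((Dvd.intro _ rfl).trans h8) h5 h6
    have h12 : f d ∣ d / f d := (Nat.dvd_div_iff_mul_dvd ((Dvd.intro _ rfl).trans h8)).2 h8
    exact ys_div h9 h7 h12 h10 h11
  refine h1.trans ?_
  have h4 : (0 : ℝ) ≤ ∑ e ∈ D.image (fun d => d / (f d * f d)), (1 : ℝ) / e := sum_nonneg fun _ _ => by positivity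
  calc _ ≤ 1 * ∑ e ∈ D.image (fun d => d / (f d * f d)), (1 : ℝ) / e := mul_le_mul_of_nonneg_right h2 h4
    _ ≤ _ := by rw [one_mul]; exact h3

/-- the exceptional primes -/
private theorem ys_A {w w' z : ℕ} (h1 : w ≤ w') (h2 : w' ≤ z) :
    ∑ a ∈ (Icc 1 w).filter Nat.Prime ∪ (Ioc w' z).filter Nat.Prime, (1 : ℝ) / a = rcp w + (rcp z - rcp w') := by
  classical
  have h3 : Disjoint ((Icc 1 w).filter Nat.Prime) ((Ioc w' z).filter Nat.Prime) := by
    rw [disjoint_left]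
    intro p hp hp'
    rw [mem_filter, mem_Icc] at hp
    rw [mem_filter, mem_Ioc] at hp'
    omega
  have h4 : Disjoint ((Icc 1 w').filter Nat.Prime) ((Ioc w' z).filter Nat.Prime) := by
    rw [disjoint_left]
    intro p hp hp'
    rw [mem_filter, mem_Icc] at hp
    rw [mem_filter, mem_Ioc] at hp'
    omega
  have h5 : (Icc 1 z).filter Nat.Prime = (Icc 1 w').filter Nat.Prime ∪ (Ioc w' z).filter Nat.Prime := by
    ext p
    rw [mem_union, mem_filter, mem_filter, mem_filter, mem_Icc, mem_Icc, mem_Ioc]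
    constructor
    · rintro ⟨h6, h7⟩
      rcases le_or_gt p w' with h8 | h8
      · exact Or.inl ⟨⟨h6.1, h8⟩, h7⟩
      · exact Or.inr ⟨⟨h8, h6.2⟩, h7⟩
    · rintro (⟨h6, h7⟩ | ⟨h6, h7⟩)
      · exact ⟨⟨h6.1, h6.2.trans h2⟩, h7⟩
      · exact ⟨⟨h7.one_le, h6.2⟩, h7⟩
  rw [sum_union h3]
  have h6 : rcp z = rcp w' + ∑ a ∈ (Ioc w' z).filter Nat.Prime, (1 : ℝ) / a := by
    unfold rcp
    rw [h5, sum_union h4]
  rw [h6]
  unfold rcp
  ring

theorem dsum7 (K : ℕ) : ∃ C : ℝ, 0 < C ∧ ∀ w w' z : ℕ, w ≤ w' → w' ≤ z →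
    ∑ d ∈ DT K w w' z, (1 : ℝ) / d ≤ C * ((1 + rcp z) ^ (K - 1) * (1 + rcp w + (rcp z - rcp w'))) := by
  classical
  refine ⟨(K : ℝ) + 2, by positivity, fun w w' z hww hz => ?_⟩
  have hA := ys_A hww hz
  obtain ⟨r, hr⟩ : ∃ r : ℝ, r = rcp w + (rcp z - rcp w') := ⟨_, rfl⟩
  have hr0 : 0 ≤ r := by
    rw [hr, ← hA]
    exact sum_nonneg fun _ _ => by positivity
  rw [show 1 + rcp w + (rcp z - rcp w') = 1 + r by rw [hr]; ring]
  have hr' := ys_rcp z
  have hDT : ∀ d ∈ DT K w w' z, 1 ≤ d ∧ (∀ q ∈ d.primeFactors, q ≤ z) ∧ d.primeFactorsList.length ≤ K ∧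
      (d.primeFactorsList.length + 1 ≤ K ∨ (∃ p ∈ d.primeFactors, p ≤ w ∨ w' < p) ∨ ¬ Squarefree d) := by
    intro d hd
    unfold DT at hd
    rw [mem_filter, mem_Icc] at hd
    exact ⟨hd.1.1, hd.2⟩
  have hrp : (1 : ℝ) ≤ 1 + rcp z := by linarith
  have hB : 0 ≤ (1 + rcp z) ^ (K - 1) := by positivity
  -- the three parts
  have h0 : ∀ j ∈ range K, ∑ d ∈ (DT K w w' z).filter (fun d => d.primeFactorsList.length = j), (1 : ℝ) / d ≤ (1 + rcp z) ^ (K - 1) := by
    intro j hj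
    rw [mem_range] at hj
    have h1 := ys_T z j ((DT K w w' z).filter fun d => d.primeFactorsList.length = j) (by
      intro d hd
      rw [mem_filter] at hd
      obtain ⟨h1, h2, -, -⟩ := hDT d hd.1
      exact ⟨h1, h2, hd.2⟩)
    have h1' : (rcp z) ^ j ≤ (1 + rcp z) ^ j := pow_le_pow_left₀ hr' (by linarith) j
    exact h1.trans (h1'.trans (pow_le_pow_right₀ hrp (by omega)))
  have h1 : ∑ d ∈ (DT K w w' z).filter (fun d => d.primeFactorsList.length = K ∧ ∃ p ∈ d.primeFactors, p ≤ w ∨ w' < p), (1 : ℝ) / d ≤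
      r * (1 + rcp z) ^ (K - 1) := by
    rcases Nat.eq_zero_or_pos K with hK | hK
    · refine (sum_eq_zero ?_).trans_le (by positivity)
      intro d hd
      rw [mem_filter] at hd
      obtain ⟨-, h2, p, hp, -⟩ := hd
      rw [hK] at h2
      rw [Nat.mem_primeFactors_iff_mem_primeFactorsList, List.length_eq_zero_iff.1 h2] at hp
      simp at hp
    · obtain ⟨K', rfl⟩ : ∃ K', K = K' + 1 := ⟨K - 1, by omega⟩
      have h2 := ys_step ((Icc 1 w).filter Nat.Prime ∪ (Ioc w' z).filter Nat.Prime) z K' (ys_T z K') ((DT (K' + 1) w w' z).filter fun d => d.primeFactorsList.length = K' + 1 ∧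
        ∃ p ∈ d.primeFactors, p ≤ w ∨ w' < p) (by
          intro d hd
          rw [mem_filter] at hd
          obtain ⟨h1, h2, -, -⟩ := hDT d hd.1
          exact ⟨h1, h2, hd.2.1⟩) (by
          intro d hd
          rw [mem_filter] at hd
          obtain ⟨p, hp, hpw⟩ := hd.2.2
          have hpp := Nat.prime_of_mem_primeFactors hp
          refine ⟨p, hpp, Nat.dvd_of_mem_primeFactors hp, ?_⟩
          rw [mem_union, mem_filter, mem_filter, mem_Icc, mem_Ioc]
          rcases hpw with hpw | hpw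
          · exact Or.inl ⟨⟨hpp.one_le, hpw⟩, hpp⟩
          · exact Or.inr ⟨⟨hpw, (hDT d hd.1).2.1 p hp⟩, hpp⟩)
      rw [hA, ← hr] at h2
      refine h2.trans (mul_le_mul_of_nonneg_left ?_ hr0)
      rw [Nat.add_sub_cancel]
      exact pow_le_pow_left₀ hr' (by linarith) K'
  have h2 : ∑ d ∈ (DT K w w' z).filter (fun d => d.primeFactorsList.length = K ∧ ¬ Squarefree d), (1 : ℝ) / d ≤
      (1 + rcp z) ^ (K - 1) := by
    by_cases hK : K < 2
    · refine (sum_eq_zero ?_).trans_le hB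
      intro d hd
      rw [mem_filter] at hd
      obtain ⟨hd1, hd2, hd3⟩ := hd
      exfalso
      rw [Nat.squarefree_iff_prime_squarefree] at hd3
      push Not at hd3
      obtain ⟨p, hp, e, he⟩ := hd3
      have he0 : e ≠ 0 := by
        rintro rfl
        have := (hDT d hd1).1
        omega
      rw [he, ys_len_mul (mul_ne_zero hp.ne_zero hp.ne_zero) he0, ys_len_mul hp.ne_zero hp.ne_zero, Nat.primeFactorsList_prime hp,
        List.length_singleton] at hd2
      omega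
    · obtain ⟨K', rfl⟩ : ∃ K', K = K' + 2 := ⟨K - 2, by omega⟩
      have h2 := ys_sq z K' ((DT (K' + 2) w w' z).filter fun d => d.primeFactorsList.length = K' + 2 ∧ ¬ Squarefree d) (by
          intro d hd
          rw [mem_filter] at hd
          obtain ⟨h1, h2, -, -⟩ := hDT d hd.1
          exact ⟨h1, h2, hd.2.1⟩) (by
          intro d hd
          rw [mem_filter] at hd
          exact hd.2.2)
      have h2' : (rcp z) ^ K' ≤ (1 + rcp z) ^ K' := pow_le_pow_left₀ hr' (by linarith) K'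
      exact h2.trans (h2'.trans (pow_le_pow_right₀ hrp (by omega)))
  -- the sum
  have h3 : ∑ d ∈ DT K w w' z, (1 : ℝ) / d ≤ ∑ d ∈ DT K w w' z, (∑ j ∈ range K, (if d.primeFactorsList.length = j then (1 : ℝ) / d else 0) +
      ((if d.primeFactorsList.length = K ∧ ∃ p ∈ d.primeFactors, p ≤ w ∨ w' < p then (1 : ℝ) / d else 0) +
        (if d.primeFactorsList.length = K ∧ ¬ Squarefree d then (1 : ℝ) / d else 0))) := by
    refine sum_le_sum fun d hd => ?_
    obtain ⟨-, -, h3, h4⟩ := hDT d hd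
    have h5 : (0 : ℝ) ≤ 1 / d := by positivity
    have h6 : (0 : ℝ) ≤ ∑ j ∈ range K, (if d.primeFactorsList.length = j then (1 : ℝ) / d else 0) :=
      sum_nonneg fun j _ => by split_ifs <;> positivity
    by_cases h7 : d.primeFactorsList.length + 1 ≤ K
    · have h8 : ∑ j ∈ range K, (if d.primeFactorsList.length = j then (1 : ℝ) / d else 0) = 1 / d := by
        rw [sum_ite_eq, if_pos (mem_range.2 (by omega))]
      rw [h8]
      have h9 : (0 : ℝ) ≤ (if d.primeFactorsList.length = K ∧ ∃ p ∈ d.primeFactors, p ≤ w ∨ w' < p then (1 : ℝ) / d else 0) := by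
        split_ifs <;> positivity
      have h10 : (0 : ℝ) ≤ (if d.primeFactorsList.length = K ∧ ¬ Squarefree d then (1 : ℝ) / d else 0) := by
        split_ifs <;> positivity
      linarith
    · have h8 : d.primeFactorsList.length = K := by omega
      rcases h4 with h4 | h4 | h4
      · exact absurd h4 h7
      · rw [if_pos ⟨h8, h4⟩]
        have h10 : (0 : ℝ) ≤ (if d.primeFactorsList.length = K ∧ ¬ Squarefree d then (1 : ℝ) / d else 0) := by
          split_ifs <;> positivity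
        linarith
      · rw [if_pos (c := d.primeFactorsList.length = K ∧ ¬ Squarefree d) ⟨h8, h4⟩]
        have h9 : (0 : ℝ) ≤ (if d.primeFactorsList.length = K ∧ ∃ p ∈ d.primeFactors, p ≤ w ∨ w' < p then (1 : ℝ) / d else 0) := by
          split_ifs <;> positivity
        linarith
  rw [sum_add_distrib, sum_add_distrib, sum_comm, ← sum_filter, ← sum_filter] at h3
  have h4 : ∑ j ∈ range K, ∑ d ∈ DT K w w' z, (if d.primeFactorsList.length = j then (1 : ℝ) / d else 0) ≤ K * (1 + rcp z) ^ (K - 1) := by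
    calc _ ≤ ∑ _j ∈ range K, (1 + rcp z) ^ (K - 1) := sum_le_sum fun j hj => by
            rw [← sum_filter]
            exact h0 j hj
      _ = _ := by rw [sum_const, card_range, nsmul_eq_mul]
  have h5 : (0 : ℝ) ≤ K := Nat.cast_nonneg K
  calc _ ≤ K * (1 + rcp z) ^ (K - 1) + (r * (1 + rcp z) ^ (K - 1) + (1 + rcp z) ^ (K - 1)) := by linarith
    _ ≤ _ := by nlinarith [mul_nonneg h5 (mul_nonneg hB hr0), mul_nonneg hB hr0]

private theorem ys_len_prod {ι : Type*} (s : Finset ι) (g : ι → ℕ) (hg : ∀ i ∈ s, g i ≠ 0) :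
    (∏ i ∈ s, g i).primeFactorsList.length = ∑ i ∈ s, (g i).primeFactorsList.length := by
  classical
  induction s using Finset.induction_on with
  | empty => simp
  | insert a s ha ih =>
    rw [prod_insert ha, sum_insert ha, ys_len_mul (hg a (mem_insert_self _ _)) (prod_ne_zero_iff.2 fun i hi => hg i (mem_insert_of_mem hi)),
      ih fun i hi => hg i (mem_insert_of_mem hi)]

private theorem ys_len_dvd {d n : ℕ} (h : d ∣ n) (hn : n ≠ 0) : d.primeFactorsList.length ≤ n.primeFactorsList.length := by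
  obtain ⟨e, rfl⟩ := h
  rw [ys_len_mul (left_ne_zero_of_mul hn) (right_ne_zero_of_mul hn)]
  omega

private theorem ys_le_pow {n b : ℕ} (hn : n ≠ 0) (hb : ∀ q ∈ n.primeFactors, q ≤ b) : n ≤ b ^ n.primeFactorsList.length := by
  conv_lhs => rw [← Nat.prod_primeFactorsList hn]
  refine List.prod_le_pow_card _ _ ?_
  intro q hq
  exact hb q (by rw [Nat.mem_primeFactors_iff_mem_primeFactorsList]; exact hq)

private theorem ys_divs {d : ℕ} (hd : d ≠ 0) : d.divisors.card ≤ 2 ^ d.primeFactorsList.length := by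
  rw [Nat.card_divisors hd, ← ArithmeticFunction.cardFactors_apply, ArithmeticFunction.cardFactors_eq_sum_factorization,
    Finsupp.sum, ← prod_pow_eq_pow_sum, Nat.support_factorization]
  exact prod_le_prod' fun p _ => Nat.lt_two_pow_self

/-- the least common multiple is in `DT` -/
private theorem ys_lcm {m : ℕ} (κ : Fin m → ℕ) {w w' z : ℕ} (hw : 1 ≤ z) {g : Fin m → ℕ} (hg : g ∈ GT w w' z κ) :
    univ.lcm g ∈ DT (∑ i, (κ i - 1)) w w' z := by
  classical
  unfold GT at hg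
  rw [mem_filter, Fintype.mem_piFinset] at hg
  obtain ⟨h1, h2, i, h3⟩ := hg
  have h0 : ∀ i ∈ (univ : Finset (Fin m)), g i ≠ 0 := by
    intro i _
    have := (mem_Icc.1 (h1 i)).1
    omega
  have hP : ∏ i, g i ≠ 0 := prod_ne_zero_iff.2 h0
  have hd : univ.lcm g ∣ ∏ i, g i := Finset.lcm_dvd fun i hi => dvd_prod_of_mem g hi
  have hd0 : univ.lcm g ≠ 0 := fun h => hP (Nat.eq_zero_of_zero_dvd (h ▸ hd))
  have hlen : (univ.lcm g).primeFactorsList.length ≤ ∑ i, (g i).primeFactorsList.length := by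
    rw [← ys_len_prod univ g h0]
    exact ys_len_dvd hd hP
  have hle : ∀ i ∈ (univ : Finset (Fin m)), (g i).primeFactorsList.length ≤ κ i - 1 := by
    intro i _
    have := (h2 i).1
    omega
  have hK : (univ.lcm g).primeFactorsList.length ≤ ∑ i, (κ i - 1) := hlen.trans (sum_le_sum hle)
  have hpr : ∀ q ∈ (univ.lcm g).primeFactors, q ≤ z := by
    intro q hq
    have hqp := Nat.prime_of_mem_primeFactors hq
    obtain ⟨i, -, hi⟩ := (Prime.dvd_finsetProd_iff hqp.prime g).1 ((Nat.dvd_of_mem_primeFactors hq).trans hd)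
    exact (h2 i).2 q (Nat.mem_primeFactors.2 ⟨hqp, hi, h0 i (mem_univ i)⟩)
  have hgi : g i ∣ univ.lcm g := Finset.dvd_lcm (mem_univ i)
  unfold DT
  rw [mem_filter, mem_Icc]
  refine ⟨⟨Nat.one_le_iff_ne_zero.2 hd0, (ys_le_pow hd0 hpr).trans (Nat.pow_le_pow_right hw hK)⟩, hpr, hK, ?_⟩
  rcases h3 with h3 | h3 | h3
  · left
    have h4 : ∑ i, (g i).primeFactorsList.length < ∑ i, (κ i - 1) := by
      refine sum_lt_sum hle ⟨i, mem_univ i, ?_⟩
      omega
    omega
  · obtain ⟨p, hp, hpw⟩ := h3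
    exact Or.inr (Or.inl ⟨p, Nat.primeFactors_mono hgi hd0 hp, hpw⟩)
  · exact Or.inr (Or.inr fun h => h3 (h.squarefree_of_dvd hgi))

theorem gsum7 {m : ℕ} (κ : Fin m → ℕ) (hκ : ∀ i, 1 ≤ κ i) : ∃ C : ℝ, 0 < C ∧ ∀ w w' z : ℕ, 1 ≤ z → w ≤ w' → w' ≤ z →
    ∑ g ∈ GT w w' z κ, (1 : ℝ) / ((univ.lcm g : ℕ) : ℝ) ≤
      C * ((1 + rcp z) ^ (∑ i, (κ i - 1) - 1) * (1 + rcp w + (rcp z - rcp w'))) := by
  classical
  have _ := hκ
  obtain ⟨C, hC, h⟩ := dsum7 (∑ i, (κ i - 1))
  refine ⟨((2 : ℝ) ^ (∑ i, (κ i - 1))) ^ m * C, by positivity, fun w w' z hw hww hwz => ?_⟩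
  rw [← sum_fiberwise_of_maps_to (t := DT (∑ i, (κ i - 1)) w w' z) (g := fun g => univ.lcm g) (fun g hg => ys_lcm κ hw hg)]
  have h1 : ∀ d ∈ DT (∑ i, (κ i - 1)) w w' z, ∑ g ∈ (GT w w' z κ).filter (fun g => univ.lcm g = d), (1 : ℝ) / ((univ.lcm g : ℕ) : ℝ) ≤
      ((2 : ℝ) ^ (∑ i, (κ i - 1))) ^ m * (1 / d) := by
    intro d hd
    unfold DT at hd
    rw [mem_filter, mem_Icc] at hd
    have hd0 : d ≠ 0 := by omega
    have h2 : ∑ g ∈ (GT w w' z κ).filter (fun g => univ.lcm g = d), (1 : ℝ) / ((univ.lcm g : ℕ) : ℝ) =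
        ∑ g ∈ (GT w w' z κ).filter (fun g => univ.lcm g = d), (1 : ℝ) / (d : ℝ) :=
      sum_congr rfl fun g hg => by rw [(mem_filter.1 hg).2]
    rw [h2, sum_const, nsmul_eq_mul]
    refine mul_le_mul_of_nonneg_right ?_ (by positivity)
    have h3 : ((GT w w' z κ).filter fun g => univ.lcm g = d) ⊆ Fintype.piFinset fun _ : Fin m => d.divisors := by
      intro g hg
      rw [Fintype.mem_piFinset]
      intro i
      rw [Nat.mem_divisors]
      refine ⟨?_, hd0⟩
      rw [← (mem_filter.1 hg).2]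
      exact Finset.dvd_lcm (mem_univ i)
    have h4 := card_le_card h3
    rw [Fintype.card_piFinset_const] at h4
    have h5 : d.divisors.card ≤ 2 ^ (∑ i, (κ i - 1)) := (ys_divs hd0).trans (Nat.pow_le_pow_right (by norm_num) hd.2.2.1)
    have h6 := h4.trans (Nat.pow_le_pow_left h5 m)
    exact_mod_cast h6
  refine (sum_le_sum h1).trans ?_
  rw [← mul_sum, mul_assoc]
  exact mul_le_mul_of_nonneg_left (h w w' z hww hwz) (by positivity)

theorem GT_empty {m : ℕ} (κ : Fin m → ℕ) (h : ∀ i, κ i = 1) (w w' z : ℕ) : GT w w' z κ = ∅ := by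
  classical
  rw [eq_empty_iff_forall_notMem]
  intro g hg
  unfold GT at hg
  rw [mem_filter, Fintype.mem_piFinset] at hg
  obtain ⟨h1, h2, i, h3⟩ := hg
  have h4 := (mem_Icc.1 (h1 i)).1
  have h5 := (h2 i).1
  rw [h i] at h5 h3
  have h6 : g i = 1 := ys_len_zero (by omega) (by omega)
  rw [h6] at h3
  rcases h3 with h3 | h3 | h3
  · omega
  · obtain ⟨p, hp, -⟩ := h3
    simp at hp
  · exact h3 squarefree_one

end Pool.Agent.Lib.VKT
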