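import Pool.Agent.Lib.VK.YSp
import Pool.Agent.Lib.VK.XSv
import Pool.Agent.Lib.VK.YSum
import Pool.Agent.Lib.MP_5d7b92_nt.UA.Me

/-!
# VK / YRest (P7): the exceptional `n` are few (REPLACES XRest)

PROOF. As XRest, with `z = ⌊Y^(1/M)⌋` in the place of `w'` for the small parts and for the sieve. `Kt = ∑ κ_i + 1`, `svc m Kt` gives `C1`, `E`; `M = max E (4 Kt) + 1`. First claim: `EE_len`. Second claim: the
difference is the number of the primes `n ∈ (Y, 2Y]` with `length (n + h_i) = κ_i` for all `i` and `¬ EE (κ_i) w w' (n + h_i)` for some `i`. `w' ≤ z` since `w'^M ≤ Y`; `n + h_i > Y ≥ z^M ≥ z^(κ_i)`. The vector `g` of the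
`smo z (n + h_i)` is in `GT w w' z κ` (`smo_spec`, `smo_exc7`), and the `n` with given `g` lie in the set of `svc` (a prime `p ≤ z < Y < n` does not divide the prime `n`; `p ∣ n + h_i` gives `p ∣ g_i`). So the number is
`≤ ∑_{g ∈ GT} (C1 HL h Y/(lcm g (log z)^(m+1)) + √Y)`, `log z ≥ log Y/(2M)` for large `Y`. `gsum7`: the first part is `≤ C1 C2 (2M)^(m+1) HL h Y/(log Y)^(m+1) * (1 + rcp z)^(K-1) (1 + rcp w + (rcp z - rcp w'))`.
If `K = ∑ (κ_i - 1) = 0` then `GT = ∅` (`GT_empty`). If `K ≥ 1`: `rcp z ≤ loglog Y + C3`; `rcp w ≤ log (c0 loglog Y) + C3` (trivial for `w < 3`); `rcp z - rcp w' ≤ loglog z - loglog w' + 2 C3 ≤ η loglog Y + 2 C3`, since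
`log w' ≥ (log Y)^(1-η)` (`UA.mertens_two`; `rcp` is its `P1`). So with `C5 = 2 C1 C2 (2M)^(m+1)` the first part is `≤ C5 (η + o(1)) HL h Y (loglog Y)^K/(log Y)^(m+1)`: `η0 = min (ε/(4 C5)) (1/2)`.
Second part: `card GT ≤ z^(∑ κ_i) ≤ Y^(1/4)`, so `≤ Y^(3/4) ≤ (ε/4) s Y/(log Y)^(m+1)`, `s ≤ HL h` (`pos m`), `1 ≤ loglog Y`.
-/

set_option autoImplicit false

open Finset Filter

namespace Pool.Agent.Lib.VKT

open Pool.Agent.Lib.G5 (EE)

open Classical in
private theorem YRest_cover {m : ℕ} {κ : Fin m → ℕ} {Y w w' z : ℕ} {h : Fin m → ℕ} (hz1 : 1 ≤ z) (hw : w ≤ w') (hz : w' ≤ z)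
    (hY : z ≤ Y) (hk : ∀ i, z ^ κ i ≤ Y) :
    cntO Y κ h ≤ cntK Y w w' κ h + ∑ g ∈ GT w w' z κ, ((Ioc Y (2 * Y)).filter fun n => (∀ i, g i ∣ n + h i) ∧
          ∀ p : ℕ, p.Prime → p ≤ z → ¬ p ∣ n ∧ ∀ i, p ∣ n + h i → p ∣ g i).card := by
  have hsub : ((Ioc Y (2 * Y)).filter fun n => n.Prime ∧ ∀ i, (n + h i).primeFactorsList.length = κ i) ⊆
      ((Ioc Y (2 * Y)).filter fun n => n.Prime ∧ ∀ i, EE (κ i) w w' (n + h i)) ∪
        (GT w w' z κ).biUnion fun g => (Ioc Y (2 * Y)).filter fun n => (∀ i, g i ∣ n + h i) ∧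
          ∀ p : ℕ, p.Prime → p ≤ z → ¬ p ∣ n ∧ ∀ i, p ∣ n + h i → p ∣ g i := by
    intro n hn
    rw [mem_filter] at hn
    obtain ⟨hn1, hnp, hlen⟩ := hn
    have hn2 := mem_Ioc.mp hn1
    rw [mem_union]
    by_cases hE : ∀ i, EE (κ i) w w' (n + h i)
    · left; exact mem_filter.mpr ⟨hn1, hnp, hE⟩
    · right
      push Not at hE
      obtain ⟨i0, hi0⟩ := hE
      rw [mem_biUnion]
      have hsp : ∀ i, smo z (n + h i) ∣ n + h i ∧ 1 ≤ smo z (n + h i) ∧
          (∀ p ∈ (smo z (n + h i)).primeFactors, p ≤ z) ∧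
          ∀ p : ℕ, p.Prime → p ≤ z → p ∣ n + h i → p ∣ smo z (n + h i) := fun i =>
        smo_spec z (n + h i) (by omega)
      refine ⟨fun i => smo z (n + h i), ?_, ?_⟩
      · unfold GT
        rw [mem_filter, Fintype.mem_piFinset]
        have hx : ∀ i, z ^ κ i < n + h i := fun i => by have := hk i; omega
        exact ⟨fun i => mem_Icc.mpr ⟨(hsp i).2.1, (smo_exc7 hz1 hw hz (hx i) (hlen i)).2.1⟩,
          fun i => ⟨(smo_exc7 hz1 hw hz (hx i) (hlen i)).1, (hsp i).2.2.1⟩, i0,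
          (smo_exc7 hz1 hw hz (hx i0) (hlen i0)).2.2 hi0⟩
      · rw [mem_filter]
        refine ⟨hn1, fun i => (hsp i).1, fun p hp hpw => ⟨fun hpn => ?_, fun i hpi => (hsp i).2.2.2 p hp hpw hpi⟩⟩
        have := (Nat.prime_dvd_prime_iff_eq hp hnp).mp hpn
        omega
  unfold cntO cntK
  exact (card_le_card hsub).trans ((card_union_le _ _).trans (Nat.add_le_add_left card_biUnion_le _))

private theorem YRest_ll (A B ε : ℝ) (hε : 0 < ε) :
    ∀ᶠ t : ℝ in atTop, A * (B + Real.log t) ≤ ε / 4 * t := by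
  have h1 := Real.isLittleO_log_id_atTop.bound (show 0 < ε / (8 * (|A| + 1)) by positivity)
  filter_upwards [h1, eventually_ge_atTop 1, eventually_ge_atTop (8 * (|A| * |B|) / ε)] with t h1 h2 h3
  have h0 : 0 ≤ Real.log t := Real.log_nonneg h2
  rw [id, Real.norm_of_nonneg h0, Real.norm_of_nonneg (by linarith : (0:ℝ) ≤ t)] at h1
  have h4 : |A| * |B| ≤ ε / 8 * t := by
    rw [div_le_iff₀ hε] at h3
    nlinarith
  have h5 : |A| * Real.log t ≤ ε / 8 * t := by
    calc |A| * Real.log t ≤ (|A| + 1) * Real.log t := by nlinarith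
      _ ≤ (|A| + 1) * (ε / (8 * (|A| + 1)) * t) := mul_le_mul_of_nonneg_left h1 (by positivity)
      _ = ε / 8 * t := by field_simp
  have h6 : A * B ≤ |A| * |B| := by rw [← abs_mul]; exact le_abs_self _
  have h7 : A * Real.log t ≤ |A| * Real.log t := mul_le_mul_of_nonneg_right (le_abs_self A) h0
  linarith

private theorem YRest_ev (m M : ℕ) (hM : 1 ≤ M) (η ε s A B C3 x1 : ℝ) (hη1 : η ≤ 1 / 2) (hε : 0 < ε) (hs : 0 < s) :
    ∃ x0 : ℝ, ∀ Y : ℕ, x0 ≤ Y → x1 ≤ Y ∧ 2 * (Real.log Y) ^ 2 ≤ (Y : ℝ) ^ ((1 : ℝ) / M) ∧ 6 ≤ (Y : ℝ) ^ ((1 : ℝ) / M) ∧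
      C3 + 1 ≤ Real.log (Real.log Y) ∧ 1 ≤ Real.log (Real.log Y) ∧ 3 ≤ Real.log Y ∧
      2 * M * Real.log 2 ≤ Real.log Y ∧ 5 ≤ (Real.log Y) ^ (1 - η) ∧
      A * (B + Real.log (Real.log (Real.log Y))) ≤ ε / 4 * Real.log (Real.log Y) ∧
      (Real.log Y) ^ (m + 1) ≤ ε * s / 2 * (Y : ℝ) ^ ((1 : ℝ) / 4) := by
  have hL := Real.tendsto_log_atTop
  have hLL := hL.comp hL
  have hM0 : (0 : ℝ) < 1 / M := by
    have : (0:ℝ) < M := by exact_mod_cast hM
    positivity
  have key : ∀ᶠ y : ℝ in atTop, x1 ≤ y ∧ 2 * (Real.log y) ^ 2 ≤ y ^ ((1 : ℝ) / M) ∧ 6 ≤ y ^ ((1 : ℝ) / M) ∧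
      C3 + 1 ≤ Real.log (Real.log y) ∧ 1 ≤ Real.log (Real.log y) ∧ 3 ≤ Real.log y ∧
      2 * M * Real.log 2 ≤ Real.log y ∧ 5 ≤ (Real.log y) ^ (1 - η) ∧
      A * (B + Real.log (Real.log (Real.log y))) ≤ ε / 4 * Real.log (Real.log y) ∧
      (Real.log y) ^ (m + 1) ≤ ε * s / 2 * y ^ ((1 : ℝ) / 4) := by
    have a1 := (isLittleO_log_rpow_rpow_atTop (2 : ℕ) hM0).bound (show (0:ℝ) < 1 / 2 by norm_num)
    have a2 := (isLittleO_log_rpow_rpow_atTop ((m + 1 : ℕ) : ℝ) (show (0:ℝ) < 1 / 4 by norm_num)).bound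
      (show 0 < ε * s / 2 by positivity)
    have a3 := (tendsto_rpow_atTop (show (0:ℝ) < 1 - η by linarith)).comp hL
    filter_upwards [a1, a2, eventually_ge_atTop x1, eventually_ge_atTop (1:ℝ), (tendsto_rpow_atTop hM0).eventually_ge_atTop 6,
      hLL.eventually_ge_atTop (C3 + 1), hLL.eventually_ge_atTop 1, hL.eventually_ge_atTop 3,
      hLL.eventually (YRest_ll A B ε hε), hL.eventually_ge_atTop (2 * M * Real.log 2), a3.eventually_ge_atTop 5] with y b1 b2 b3 b4 b5 b6 b7 b8 b9 b10 b11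
    have hy0 : (0:ℝ) ≤ y := by linarith
    rw [Real.rpow_natCast, Real.norm_of_nonneg (by positivity), Real.norm_of_nonneg (by positivity)] at b1
    rw [Real.rpow_natCast, Real.norm_of_nonneg (pow_nonneg (by linarith) _), Real.norm_of_nonneg (by positivity)] at b2
    exact ⟨b3, by linarith, b5, b6, b7, b8, b10, b11, b9, b2⟩
  obtain ⟨x0, hx0⟩ := eventually_atTop.mp key
  exact ⟨x0, fun Y hY => hx0 Y hY⟩

private theorem YRest_rcp (w : ℕ) : rcp w = Pool.Agent.Lib.MP_5d7b92_nt.UA.P1 w := by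
  unfold rcp Pool.Agent.Lib.MP_5d7b92_nt.UA.P1 Pool.Agent.Lib.MP_5d7b92_nt.UA.PR
  refine sum_congr ?_ fun _ _ => rfl
  ext p
  rw [mem_filter, mem_filter, mem_Icc, mem_range]
  constructor
  · rintro ⟨⟨_, h⟩, hp⟩; exact ⟨by omega, hp⟩
  · rintro ⟨h, hp⟩; exact ⟨⟨hp.one_lt.le, by omega⟩, hp⟩

private theorem YRest_mono {u v : ℕ} (h : u ≤ v) : rcp u ≤ rcp v := by
  unfold rcp
  refine sum_le_sum_of_subset_of_nonneg (filter_subset_filter _ (Icc_subset_Icc le_rfl h)) fun _ _ _ => by positivity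

private theorem YRest_nn (u : ℕ) : 0 ≤ rcp u := by
  unfold rcp
  exact sum_nonneg fun _ _ => by positivity

private theorem YRest_card {m : ℕ} (κ : Fin m → ℕ) (w w' z : ℕ) : (GT w w' z κ).card ≤ z ^ (∑ i, κ i) := by
  unfold GT
  refine (card_filter_le _ _).trans ?_
  rw [Fintype.card_piFinset]
  simp [Finset.prod_pow_eq_pow_sum]

theorem rest7 {m : ℕ} (κ : Fin m → ℕ) (hκ : ∀ i, 1 ≤ κ i) : ∃ M : ℕ, ∀ (c0 : ℕ) (ε : ℝ), 0 < ε → ∃ η0 : ℝ, 0 < η0 ∧ ∀ η : ℝ,
    0 < η → η ≤ η0 → ∃ x0 : ℝ, ∀ Y w w' : ℕ, x0 ≤ Y → w ≤ w' → (w : ℝ) ≤ (Real.log Y) ^ c0 →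
      Real.exp ((Real.log Y) ^ (1 - η)) ≤ 2 * w' → w' ^ M ≤ Y →
        ∀ h : Fin m → ℕ, Function.Injective h → (∀ i, 1 ≤ h i ∧ h i ≤ Y) → (∀ p : ℕ, p.Prime → nu h p < p) →
          (cntK Y w w' κ h : ℝ) ≤ cntO Y κ h ∧
            (cntO Y κ h : ℝ) ≤ cntK Y w w' κ h +
              ε * (HL h * (Y / (Real.log Y) ^ (m + 1)) * (Real.log (Real.log Y)) ^ (∑ i, (κ i - 1))) := by
  classical
  set K : ℕ := ∑ i, (κ i - 1) with hK
  set Kt : ℕ := ∑ i, κ i + 1 with hKt
  obtain ⟨C1, E, x1, hC1, hsv⟩ := svc m Kt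
  obtain ⟨C2, hC2, hgs⟩ := gsum7 κ hκ
  obtain ⟨C3, hC3, hme⟩ := Pool.Agent.Lib.MP_5d7b92_nt.UA.mertens_two
  obtain ⟨s, hs, hpos⟩ := pos m
  obtain ⟨M, hMdef⟩ : ∃ M, M = max E (4 * Kt) + 1 := ⟨_, rfl⟩
  refine ⟨M, ?_⟩
  intro c0 ε hε
  have hM1 : 1 ≤ M := by omega
  have hMr : (0:ℝ) < M := by exact_mod_cast hM1
  obtain ⟨A, hA⟩ : ∃ A : ℝ, A = C1 * C2 * (2 * M) ^ (m + 1) * 2 ^ (K - 1) := ⟨_, rfl⟩
  have hA0 : 0 < A := by rw [hA]; positivity
  refine ⟨min (ε / (4 * A)) (1 / 2), by positivity, ?_⟩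
  intro η hη hη0
  have hη1 : η ≤ 1 / 2 := hη0.trans (min_le_right _ _)
  have hηA : A * η ≤ ε / 4 := by
    have := hη0.trans (min_le_left _ _)
    rw [le_div_iff₀ (by positivity)] at this
    linarith
  obtain ⟨x0, hx0⟩ := YRest_ev m M hM1 η ε s A (1 + 3 * C3 + Real.log (c0 + 1) + Real.log 2) C3 x1 hη1 hε hs
  refine ⟨x0, ?_⟩
  intro Y w w' hY hw hwl hw' hM h hinj hh hnu
  obtain ⟨e1, e2, e3, e4, e4', e5, e5', e5'', e6, e7⟩ := hx0 Y hY
  have hHL : s ≤ HL h := hpos h hinj (fun i => (hh i).1) hnu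
  have hHL0 : 0 < HL h := hs.trans_le hHL
  have hκt : ∀ i, κ i + 1 ≤ Kt := fun i => by
    have := single_le_sum (f := κ) (fun j _ => Nat.zero_le _) (mem_univ i); omega
  -- the level z
  obtain ⟨z, hzdef⟩ : ∃ z : ℕ, z = ⌊(Y : ℝ) ^ ((1 : ℝ) / M)⌋₊ := ⟨_, rfl⟩
  have hzle : (z : ℝ) ≤ (Y : ℝ) ^ ((1 : ℝ) / M) := by rw [hzdef]; exact Nat.floor_le (by positivity)
  have hzM : z ^ M ≤ Y := by
    have : (z : ℝ) ^ M ≤ Y := by
      calc (z : ℝ) ^ M ≤ ((Y : ℝ) ^ ((1 : ℝ) / M)) ^ M := pow_le_pow_left₀ (by positivity) hzle _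
        _ = Y := by rw [← Real.rpow_natCast, ← Real.rpow_mul (by positivity), one_div_mul_cancel hMr.ne', Real.rpow_one]
    exact_mod_cast this
  have hw'z : w' ≤ z := by
    rw [hzdef]
    refine Nat.le_floor ?_
    have h1 : (w' : ℝ) ^ M ≤ Y := by exact_mod_cast hM
    calc (w' : ℝ) = ((w' : ℝ) ^ M) ^ ((1 : ℝ) / M) := by
          rw [← Real.rpow_natCast, ← Real.rpow_mul (by positivity), mul_one_div_cancel hMr.ne', Real.rpow_one]
      _ ≤ (Y : ℝ) ^ ((1 : ℝ) / M) := Real.rpow_le_rpow (by positivity) h1 (by positivity)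
  have hzlt : (Y : ℝ) ^ ((1 : ℝ) / M) < z + 1 := by rw [hzdef]; exact Nat.lt_floor_add_one _
  have hz1 : 1 ≤ z := by
    have : (0:ℝ) < z := by linarith
    exact_mod_cast this
  have hz1r : (1:ℝ) ≤ z := by exact_mod_cast hz1
  have hz2 : (Y : ℝ) ^ ((1 : ℝ) / M) ≤ 2 * z := by linarith
  have hz3 : (3:ℝ) ≤ z := by linarith
  have hz3n : 3 ≤ z := by exact_mod_cast hz3
  have hpw : ∀ j, j ≤ max E (4 * Kt) + 1 → z ^ j ≤ Y := fun j hj =>
    (Nat.pow_le_pow_right (by omega) (by omega)).trans hzM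
  have hzY : z ≤ Y := by simpa using hpw 1 (by omega)
  have hYr : (3:ℝ) ≤ Y := hz3.trans (by exact_mod_cast hzY)
  have hlz : Real.log Y / (2 * M) ≤ Real.log z := by
    have h1 : Real.log Y / M ≤ Real.log 2 + Real.log z := by
      rw [← Real.log_mul (by norm_num) (by linarith)]
      calc Real.log Y / M = Real.log ((Y : ℝ) ^ ((1 : ℝ) / M)) := by
            rw [Real.log_rpow (by linarith)]; ring
        _ ≤ Real.log (2 * z) := Real.log_le_log (by positivity) hz2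
    have h2 : Real.log 2 ≤ Real.log Y / (2 * M) := by
      rw [le_div_iff₀ (by positivity)]; linarith
    have h3 : Real.log Y / M = Real.log Y / (2 * M) + Real.log Y / (2 * M) := by
      field_simp; ring
    linarith
  have hcov := YRest_cover (κ := κ) (Y := Y) (h := h) (w := w) (w' := w') (z := z) hz1 hw hw'z hzY
    (fun i => hpw _ (by have := hκt i; omega))
  constructor
  · have : cntK Y w w' κ h ≤ cntO Y κ h := by
      unfold cntK cntO
      refine card_le_card fun n hn => ?_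
      rw [mem_filter] at hn ⊢
      exact ⟨hn.1, hn.2.1, fun i => EE_len (hn.2.2 i)⟩
    exact_mod_cast this
  · set L := Real.log Y with hLdef
    set LL := Real.log L with hLL
    have hL0 : 0 < L := by linarith
    have hmain0 : 0 ≤ HL h * (Y / L ^ (m + 1)) := by positivity
    have hcovR : (cntO Y κ h : ℝ) ≤ cntK Y w w' κ h + ∑ g ∈ GT w w' z κ, (((Ioc Y (2 * Y)).filter fun n => (∀ i, g i ∣ n + h i) ∧
          ∀ p : ℕ, p.Prime → p ≤ z → ¬ p ∣ n ∧ ∀ i, p ∣ n + h i → p ∣ g i).card : ℝ) := by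
      exact_mod_cast hcov
    refine hcovR.trans (add_le_add_right ?_ _)
    rcases Nat.eq_zero_or_pos K with hK0 | hK1
    · have hk1 : ∀ i, κ i = 1 := fun i => by
        have h1 := (Finset.sum_eq_zero_iff.mp (hK ▸ hK0)) i (mem_univ i)
        have h2 := hκ i
        omega
      rw [GT_empty κ hk1, sum_empty]
      have : 0 ≤ LL ^ K := by positivity
      positivity
    have hL'1 : 0 < Real.log z := lt_of_lt_of_le (by positivity) hlz
    -- each class
    have hcl : ∀ g ∈ GT w w' z κ, (((Ioc Y (2 * Y)).filter fun n => (∀ i, g i ∣ n + h i) ∧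
          ∀ p : ℕ, p.Prime → p ≤ z → ¬ p ∣ n ∧ ∀ i, p ∣ n + h i → p ∣ g i).card : ℝ) ≤
        C1 * (HL h * (Y / (Real.log z) ^ (m + 1))) * (1 / ((univ.lcm g : ℕ) : ℝ)) + Real.sqrt Y := by
      intro g hg
      unfold GT at hg
      rw [mem_filter, Fintype.mem_piFinset] at hg
      refine (hsv Y z e1 (by linarith) (hpw E (by omega)) h hinj hh hnu g fun i =>
        ⟨(mem_Icc.mp (hg.1 i)).1, ?_⟩).trans (le_of_eq ?_)
      · have h1 := (hg.2.1 i).1
        have h2 : (g i).primeFactors.card ≤ (g i).primeFactorsList.length := by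
          rw [Nat.primeFactors]; exact List.toFinset_card_le _
        have h3 := hκt i
        omega
      · congr 1
        rw [mul_assoc, mul_assoc, div_mul_div_comm, mul_one, mul_comm ((Real.log z) ^ (m + 1))]
    refine (sum_le_sum hcl).trans ?_
    rw [sum_add_distrib, ← mul_sum, sum_const, nsmul_eq_mul]
    -- the two parts
    have hLz : Real.log (Real.log z) ≤ LL := Real.log_le_log hL'1
        (Real.log_le_log (by linarith) (by exact_mod_cast hzY))
    have hmz := hme z hz3n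
    rw [← YRest_rcp] at hmz
    have hr' : 1 + rcp z ≤ 2 * LL := by
      have h2 := (abs_le.mp hmz).2
      linarith
    have hr : 1 + rcp w ≤ 1 + C3 + Real.log (c0 + 1) + Real.log LL := by
      have h0 : rcp w ≤ rcp (max w 3) := YRest_mono (le_max_left _ _)
      have h1 := hme (max w 3) (le_max_right _ _)
      rw [← YRest_rcp] at h1
      have h2 := (abs_le.mp h1).2
      have h3 : ((max w 3 : ℕ) : ℝ) ≤ L ^ (c0 + 1) := by
        rw [Nat.cast_max]
        refine max_le (hwl.trans (pow_le_pow_right₀ (by linarith) (by omega))) ?_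
        calc ((3:ℕ):ℝ) ≤ L := by exact_mod_cast e5
          _ = L ^ 1 := (pow_one _).symm
          _ ≤ L ^ (c0 + 1) := pow_le_pow_right₀ (by linarith) (by omega)
      have h4 : (3:ℝ) ≤ ((max w 3 : ℕ) : ℝ) := by exact_mod_cast le_max_right w 3
      have h5 : Real.log ((max w 3 : ℕ) : ℝ) ≤ (c0 + 1) * LL := by
        refine (Real.log_le_log (by linarith) h3).trans (le_of_eq ?_)
        rw [Real.log_pow, hLL]; push_cast; ring
      have h6 : 0 < Real.log ((max w 3 : ℕ) : ℝ) := Real.log_pos (by linarith)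
      have h7 : Real.log (Real.log ((max w 3 : ℕ) : ℝ)) ≤ Real.log (c0 + 1) + Real.log LL := by
        rw [← Real.log_mul (by positivity) (by linarith)]
        exact Real.log_le_log h6 h5
      linarith
    have hr'' : rcp z - rcp w' ≤ η * LL + Real.log 2 + 2 * C3 := by
      set P := L ^ (1 - η) with hP
      have hlog2 : Real.log 2 ≤ 1 := by
        have := Real.log_two_lt_d9; linarith
      have h1 : 6 ≤ Real.exp P := by have := Real.add_one_le_exp P; linarith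
      have h2 : (3:ℝ) ≤ w' := by linarith
      have h3 : P ≤ Real.log 2 + Real.log w' := by
        rw [← Real.log_mul (by norm_num) (by linarith), ← Real.log_exp P]
        exact Real.log_le_log (Real.exp_pos _) hw'
      have h4 : P / 2 ≤ Real.log w' := by linarith
      have h5 : (1 - η) * LL - Real.log 2 ≤ Real.log (Real.log w') := by
        calc (1 - η) * LL - Real.log 2 = Real.log (P / 2) := by
              rw [Real.log_div (by positivity) (by norm_num), hP, Real.log_rpow hL0]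
          _ ≤ Real.log (Real.log w') := Real.log_le_log (by positivity) h4
      have h6 := hme w' (by exact_mod_cast h2)
      rw [← YRest_rcp] at h6
      have h7 := (abs_le.mp h6).1
      have h8 := (abs_le.mp hmz).2
      linarith
    have hrr : 1 + rcp w + (rcp z - rcp w') ≤
        (1 + 3 * C3 + Real.log (c0 + 1) + Real.log 2) + Real.log LL + η * LL := by linarith
    have hmono : 0 ≤ rcp z - rcp w' := sub_nonneg.mpr (YRest_mono hw'z)
    have hp1 : C1 * (HL h * (Y / (Real.log z) ^ (m + 1))) * ∑ g ∈ GT w w' z κ, (1 / ((univ.lcm g : ℕ) : ℝ)) ≤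
        ε / 2 * (HL h * (Y / L ^ (m + 1)) * LL ^ K) := by
      have h1 := hgs w w' z hz1 hw hw'z
      rw [← hK] at h1
      have h2 : (1 + rcp z) ^ (K - 1) ≤ 2 ^ (K - 1) * LL ^ (K - 1) := by
        rw [← mul_pow]
        exact pow_le_pow_left₀ (by have := YRest_nn z; linarith) hr' _
      have h3 : (1 + rcp z) ^ (K - 1) * (1 + rcp w + (rcp z - rcp w')) ≤
          2 ^ (K - 1) * LL ^ (K - 1) * ((1 + 3 * C3 + Real.log (c0 + 1) + Real.log 2) + Real.log LL + η * LL) :=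
        mul_le_mul h2 hrr (by have := YRest_nn w; linarith) (by positivity)
      have h4 : Y / (Real.log z) ^ (m + 1) ≤ (2 * M) ^ (m + 1) * (Y / L ^ (m + 1)) := by
        calc Y / (Real.log z) ^ (m + 1) ≤ Y / (L / (2 * M)) ^ (m + 1) :=
              div_le_div_of_nonneg_left (by positivity) (by positivity)
                (pow_le_pow_left₀ (by positivity) hlz _)
          _ = (2 * M) ^ (m + 1) * (Y / L ^ (m + 1)) := by
              rw [div_pow]; field_simp
      have h5 : LL ^ K = LL * LL ^ (K - 1) := by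
        rw [← pow_succ', Nat.sub_add_cancel hK1]
      have h6 : A * ((1 + 3 * C3 + Real.log (c0 + 1) + Real.log 2) + Real.log LL + η * LL) ≤ ε / 2 * LL := by
        have : A * (η * LL) ≤ ε / 4 * LL := by
          rw [← mul_assoc]; exact mul_le_mul_of_nonneg_right hηA (by linarith)
        linarith
      calc C1 * (HL h * (Y / (Real.log z) ^ (m + 1))) * ∑ g ∈ GT w w' z κ, (1 / ((univ.lcm g : ℕ) : ℝ))
          ≤ C1 * (HL h * ((2 * M) ^ (m + 1) * (Y / L ^ (m + 1)))) *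
            (C2 * (2 ^ (K - 1) * LL ^ (K - 1) * ((1 + 3 * C3 + Real.log (c0 + 1) + Real.log 2) + Real.log LL + η * LL))) := by
            refine mul_le_mul (mul_le_mul_of_nonneg_left (mul_le_mul_of_nonneg_left h4 hHL0.le) hC1.le)
              (h1.trans (mul_le_mul_of_nonneg_left h3 hC2.le)) (sum_nonneg fun _ _ => by positivity) (by positivity)
        _ = HL h * (Y / L ^ (m + 1)) * LL ^ (K - 1) *
            (A * ((1 + 3 * C3 + Real.log (c0 + 1) + Real.log 2) + Real.log LL + η * LL)) := by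
            rw [hA]; ring
        _ ≤ HL h * (Y / L ^ (m + 1)) * LL ^ (K - 1) * (ε / 2 * LL) :=
            mul_le_mul_of_nonneg_left h6 (by positivity)
        _ = ε / 2 * (HL h * (Y / L ^ (m + 1)) * LL ^ K) := by rw [h5]; ring
    have hp2 : ((GT w w' z κ).card : ℝ) * Real.sqrt Y ≤ ε / 2 * (HL h * (Y / L ^ (m + 1)) * LL ^ K) := by
      set q : ℝ := (Y : ℝ) ^ ((1 : ℝ) / 4) with hq
      have hq0 : 0 < q := by positivity
      have hq4 : q ^ 4 = Y := by
        rw [hq, ← Real.rpow_natCast, ← Real.rpow_mul (by positivity)]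
        norm_num
      have hsq : Real.sqrt Y = q ^ 2 := by
        rw [← hq4, show q ^ 4 = (q ^ 2) ^ 2 by ring, Real.sqrt_sq (by positivity)]
      have hc : ((GT w w' z κ).card : ℝ) ≤ q := by
        refine le_of_pow_le_pow_left₀ (n := 4) (by norm_num) hq0.le ?_
        rw [hq4]
        have h1 : (GT w w' z κ).card ^ 4 ≤ Y := by
          refine (Nat.pow_le_pow_left (YRest_card κ w w' z) 4).trans ?_
          rw [← pow_mul]
          exact hpw _ (by omega)
        exact_mod_cast h1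
      have h1 : ((GT w w' z κ).card : ℝ) * Real.sqrt Y ≤ q ^ 3 := by
        rw [hsq]
        calc ((GT w w' z κ).card : ℝ) * q ^ 2 ≤ q * q ^ 2 := mul_le_mul_of_nonneg_right hc (by positivity)
          _ = q ^ 3 := by ring
      have h2 : q ^ 3 ≤ ε / 2 * (s * (Y / L ^ (m + 1))) := by
        rw [← hq4, show ε / 2 * (s * (q ^ 4 / L ^ (m + 1))) = (ε * s / 2 * q) * q ^ 3 / L ^ (m + 1) by ring,
          le_div_iff₀ (by positivity), mul_comm (q ^ 3)]
        exact mul_le_mul_of_nonneg_right e7 (by positivity)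
      have h3 : s * (Y / L ^ (m + 1)) ≤ HL h * (Y / L ^ (m + 1)) * LL ^ K := by
        calc s * (Y / L ^ (m + 1)) ≤ HL h * (Y / L ^ (m + 1)) := mul_le_mul_of_nonneg_right hHL (by positivity)
          _ = HL h * (Y / L ^ (m + 1)) * 1 := (mul_one _).symm
          _ ≤ HL h * (Y / L ^ (m + 1)) * LL ^ K :=
            mul_le_mul_of_nonneg_left (one_le_pow₀ e4') hmain0
      exact h1.trans (h2.trans (mul_le_mul_of_nonneg_left h3 (by positivity)))
    linarith

end Pool.Agent.Lib.VKT
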