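import Pool.Agent.Lib.VK.WFin
import Pool.Agent.Lib.VK.YRest
import Pool.Agent.Lib.VK.YDens
import Pool.Agent.Lib.VK.TPos

/-!
# VK / YFin (P7): the full count for almost all shapes, windows `H ≥ exp((log X)^(1-η))` (REPLACES XFin)

PROOF. `tuplesG κ hκ A` (WFin.lean) gives `c10`; `c1 = c10`, its `C`; `M'` = the `M` of `rest7 κ hκ`; `s` of `pos m`; `Λ = ∏ 1/(κ_i - 1)! > 0`, `K = ∑ (κ_i - 1)`, `L = loglog Y`. Let `ε1` be small (see below), `M` of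
`tuplesG` for `ε1`, `η0` of `rest7` for `c0 = c1 + 2`, `ε1`; `η1 = min η0 (1/2)`, made so small that `1 - ε1 ≤ (1 - η1)^K` (Bernoulli: `η1 ≤ ε1/(K+1)`); `w = ⌊(log Y)^(c1+2)⌋`, `w' = ⌊exp((log Y)^(1-η1))⌋`, final `η = η1/2`. For large `Y`:
`Rg2 Y w w' c1 M` (`(log Y)^(c1+1) ≤ w ≤ w'`, `w'^M ≤ exp(M (log Y)^(1-η1)) ≤ Y`), `w'^M' ≤ Y`, `exp(..) ≤ 2 w'`, `w' (log Y)^C ≤ exp((log Y)^(1-η1) + C loglog Y) ≤ exp((log Y)^(1-η)) ≤ H`. Let `h` be in the box, not in the exceptional set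
of `tuplesG`; then `h` is injective, `1 ≤ h_i ≤ Y`. Let it be admissible: `s ≤ HL h`. By `densT7` `dens/L^K → (1-η1)^K Λ ∈ [(1-ε1) Λ, Λ]`, so `|dens - Λ L^K| ≤ 2 ε1 Λ L^K` for large `Y`. With `y = Y/(log Y)^(m+1)`:
`|cntK - HL Λ L^K y| ≤ ε1 (1 + 2 HL Λ L^K) y + 2 ε1 HL Λ L^K y`, `|cntO - cntK| ≤ ε1 HL L^K y`, `1 ≤ HL L^K/s` (`L ≥ 1`): together `≤ ε1 (1/(s Λ) + 4 + 1/Λ) HL Λ L^K y`: `ε1 = min 1 (ε/(1/(sΛ) + 4 + 1/Λ))`.
`∏ L^(κ_i - 1)/(κ_i - 1)! = Λ L^K`. So the exceptional set is contained in the one of `tuplesG`.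
-/

set_option autoImplicit false

open Finset Filter

namespace Pool.Agent.Lib.VKT

private theorem yfin_alg {Hv T y dn cO cK LK Λ s ε1 : ℝ} (hs : 0 < s) (hHv : s ≤ Hv) (hΛ : 0 < Λ) (hLK : 1 ≤ LK) (hT : T = Λ * LK)
    (hy : 0 ≤ y) (hε1 : 0 < ε1) (h1 : cK ≤ cO) (h2 : cO ≤ cK + ε1 * (Hv * y * LK)) (h3 : |cK - Hv * dn * y| ≤ ε1 * (1 + Hv * dn) * y)
    (h4 : |dn - T| ≤ 2 * ε1 * T) (h5 : |dn - T| ≤ T) :
    |cO - Hv * y * T| ≤ ε1 * (1 / (s * Λ) + 4 + 1 / Λ) * (Hv * y * T) := by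
  have hH : 0 < Hv := lt_of_lt_of_le hs hHv
  have hT0 : 0 < T := by rw [hT]; positivity
  have ha : 0 ≤ Hv * y * T := by positivity
  have e1 : |cO - cK| ≤ ε1 * (1 / Λ) * (Hv * y * T) := by
    have : ε1 * (1 / Λ) * (Hv * y * T) = ε1 * (Hv * y * LK) := by
      rw [hT]; field_simp
    rw [this, abs_of_nonneg (by linarith)]
    linarith
  have hdn : dn ≤ 2 * T := by
    have := (abs_le.mp h5).2
    linarith
  have hy2 : y ≤ 1 / (s * Λ) * (Hv * y * T) := by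
    have h6 : s * y * Λ * 1 ≤ Hv * y * Λ * LK := by
      have hm1 : s * y * Λ ≤ Hv * y * Λ := by
        have := mul_le_mul_of_nonneg_right hHv (mul_nonneg hy hΛ.le)
        nlinarith
      exact mul_le_mul hm1 hLK (by norm_num) (by positivity)
    have h7 : 1 / (s * Λ) * (Hv * y * T) = (Hv * y * Λ * LK) / (s * Λ) := by
      rw [hT]; field_simp
    rw [h7, le_div_iff₀ (by positivity)]
    linarith
  have e2 : |cK - Hv * dn * y| ≤ ε1 * (1 / (s * Λ)) * (Hv * y * T) + ε1 * 2 * (Hv * y * T) := by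
    refine h3.trans ?_
    have h8 : Hv * dn * y ≤ 2 * (Hv * y * T) := by
      have := mul_le_mul_of_nonneg_left hdn (mul_nonneg hH.le hy)
      nlinarith
    have h9 : ε1 * (1 + Hv * dn) * y = ε1 * y + ε1 * (Hv * dn * y) := by ring
    rw [h9]
    have h10 := mul_le_mul_of_nonneg_left hy2 hε1.le
    have h11 := mul_le_mul_of_nonneg_left h8 hε1.le
    linarith
  have e3 : |Hv * dn * y - Hv * y * T| ≤ ε1 * 2 * (Hv * y * T) := by
    have h12 : Hv * dn * y - Hv * y * T = (Hv * y) * (dn - T) := by ring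
    rw [h12, abs_mul, abs_of_nonneg (mul_nonneg hH.le hy)]
    have := mul_le_mul_of_nonneg_left h4 (mul_nonneg hH.le hy)
    nlinarith
  have e4 : cO - Hv * y * T = (cO - cK) + (cK - Hv * dn * y) + (Hv * dn * y - Hv * y * T) := by ring
  rw [e4]
  refine (abs_add_three _ _ _).trans ?_
  have e5 : ε1 * (1 / (s * Λ) + 4 + 1 / Λ) * (Hv * y * T) = ε1 * (1 / Λ) * (Hv * y * T) +
      (ε1 * (1 / (s * Λ)) * (Hv * y * T) + ε1 * 2 * (Hv * y * T)) + ε1 * 2 * (Hv * y * T) := by ring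
  rw [e5]
  linarith

private theorem yfin_ev (c C M M' : ℕ) (η : ℝ) (h0 : 0 < η) (h1 : η ≤ 1 / 2) :
    ∀ᶠ Y : ℕ in atTop, 1 ≤ Y ∧ (1 : ℝ) ≤ Real.log (Real.log Y) ∧ (1 : ℝ) ≤ Real.log Y ∧
      (Real.log Y) ^ (c + 1) ≤ (⌊(Real.log Y) ^ (c + 2)⌋₊ : ℝ) ∧
      ⌊(Real.log Y) ^ (c + 2)⌋₊ ≤ ⌊Real.exp ((Real.log Y) ^ (1 - η))⌋₊ ∧ ⌊Real.exp ((Real.log Y) ^ (1 - η))⌋₊ ^ M ≤ Y ∧
      ⌊Real.exp ((Real.log Y) ^ (1 - η))⌋₊ ^ M' ≤ Y ∧
      (⌊Real.exp ((Real.log Y) ^ (1 - η))⌋₊ : ℝ) * (Real.log Y) ^ C ≤ Real.exp ((Real.log Y) ^ (1 - η / 2)) ∧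
      Real.exp ((Real.log Y) ^ (1 - η)) ≤ 2 * (⌊Real.exp ((Real.log Y) ^ (1 - η))⌋₊ : ℝ) := by
  have hl : Tendsto (fun Y : ℕ => Real.log (Y : ℝ)) atTop atTop := Real.tendsto_log_atTop.comp tendsto_natCast_atTop_atTop
  have hll : Tendsto (fun Y : ℕ => Real.log (Real.log (Y : ℝ))) atTop atTop := Real.tendsto_log_atTop.comp hl
  have hp1 : Tendsto (fun Y : ℕ => (Real.log (Y : ℝ)) ^ (η / 2)) atTop atTop := (tendsto_rpow_atTop (by linarith)).comp hl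
  have hp2 : Tendsto (fun Y : ℕ => (Real.log (Y : ℝ)) ^ η) atTop atTop := (tendsto_rpow_atTop h0).comp hl
  have hlo : ∀ (n : ℕ) (a : ℝ), 0 < a → ∀ᶠ Y : ℕ in atTop, (n : ℝ) * Real.log (Real.log Y) ≤ 1 / 2 * (Real.log Y) ^ a := by
    intro n a ha
    have h := (isLittleO_log_rpow_atTop ha).bound (c := 1 / (2 * (n + 1))) (by positivity)
    have h2 := hl.eventually h
    filter_upwards [h2, hl.eventually_ge_atTop 1, hll.eventually_ge_atTop 0] with Y hY hY1 hY2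
    rw [Real.norm_of_nonneg hY2, Real.norm_of_nonneg (Real.rpow_nonneg (by linarith) _)] at hY
    have hp : 0 ≤ (Real.log (Y : ℝ)) ^ a := Real.rpow_nonneg (by linarith) _
    have hn : (0 : ℝ) ≤ n := Nat.cast_nonneg n
    calc (n : ℝ) * Real.log (Real.log Y) ≤ n * (1 / (2 * (n + 1)) * (Real.log Y) ^ a) := mul_le_mul_of_nonneg_left hY hn
      _ = (n / (n + 1)) * (1 / 2 * (Real.log Y) ^ a) := by field_simp
      _ ≤ 1 * (1 / 2 * (Real.log Y) ^ a) := by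
          refine mul_le_mul_of_nonneg_right ?_ (by linarith)
          rw [div_le_one (by linarith)]
          linarith
      _ = _ := one_mul _
  filter_upwards [eventually_ge_atTop 1, hl.eventually_ge_atTop 2, hll.eventually_ge_atTop 1, hp1.eventually_ge_atTop 2,
    hp2.eventually_ge_atTop ((M : ℝ) + M'), hlo (c + 2) (1 - η) (by linarith), hlo C (1 - η / 2) (by linarith)] with Y hY hY2 hY3 hY4 hY5 hY6 hY7
  have hY0 : (1 : ℝ) ≤ Y := by exact_mod_cast hY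
  set t : ℝ := Real.log Y with ht
  have ht0 : 0 < t := by linarith
  have hu1 : (1 : ℝ) ≤ t ^ (1 - η) := Real.one_le_rpow (by linarith) (by linarith)
  have hx2 : (2 : ℝ) ≤ Real.exp (t ^ (1 - η)) := by
    have := Real.add_one_le_exp (t ^ (1 - η))
    linarith
  have hfl : (⌊Real.exp (t ^ (1 - η))⌋₊ : ℝ) ≤ Real.exp (t ^ (1 - η)) := Nat.floor_le (Real.exp_pos _).le
  have hYe : Real.exp t = Y := Real.exp_log (by linarith)
  have hpw : ∀ n : ℕ, (n : ℝ) ≤ t ^ η → ⌊Real.exp (t ^ (1 - η))⌋₊ ^ n ≤ Y := by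
    intro n hn
    have h2 : ((⌊Real.exp (t ^ (1 - η))⌋₊ ^ n : ℕ) : ℝ) ≤ (Y : ℝ) := by
      push_cast
      calc (⌊Real.exp (t ^ (1 - η))⌋₊ : ℝ) ^ n ≤ (Real.exp (t ^ (1 - η))) ^ n := pow_le_pow_left₀ (by positivity) hfl n
        _ = Real.exp (n * t ^ (1 - η)) := by rw [← Real.exp_nat_mul]
        _ ≤ Real.exp t := by
            refine Real.exp_le_exp.mpr ?_
            calc (n : ℝ) * t ^ (1 - η) ≤ t ^ η * t ^ (1 - η) := mul_le_mul_of_nonneg_right hn (by linarith)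
              _ = t := by rw [← Real.rpow_add ht0]; simp
        _ = Y := hYe
    exact_mod_cast h2
  refine ⟨hY, hY3, by linarith, ?_, ?_, hpw M ?_, hpw M' ?_, ?_, ?_⟩
  · have h2 := Nat.lt_floor_add_one (t ^ (c + 2))
    have h3 : (1 : ℝ) ≤ t ^ (c + 1) := one_le_pow₀ (by linarith)
    have h4 : t ^ (c + 2) = t ^ (c + 1) * t := by rw [pow_succ]
    nlinarith
  · refine Nat.floor_le_floor ?_
    have h2 : t ^ (c + 2) = Real.exp (((c + 2 : ℕ) : ℝ) * Real.log t) := by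
      rw [mul_comm, Real.exp_mul, Real.exp_log ht0, Real.rpow_natCast]
    rw [h2]
    exact Real.exp_le_exp.mpr (by linarith)
  · have h5 : (0 : ℝ) ≤ M' := by positivity
    linarith
  · have h5 : (0 : ℝ) ≤ M := by positivity
    linarith
  · have h2 : t ^ C = Real.exp ((C : ℝ) * Real.log t) := by
      rw [mul_comm, Real.exp_mul, Real.exp_log ht0, Real.rpow_natCast]
    have h3 : 2 * t ^ (1 - η) ≤ t ^ (1 - η / 2) := by
      have h6 : t ^ (1 - η / 2) = t ^ (η / 2) * t ^ (1 - η) := by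
        rw [← Real.rpow_add ht0]; congr 1; ring
      rw [h6]
      exact mul_le_mul_of_nonneg_right hY4 (by linarith)
    calc (⌊Real.exp (t ^ (1 - η))⌋₊ : ℝ) * t ^ C ≤ Real.exp (t ^ (1 - η)) * t ^ C :=
          mul_le_mul_of_nonneg_right hfl (by positivity)
      _ = Real.exp (t ^ (1 - η) + (C : ℝ) * Real.log t) := by rw [h2, ← Real.exp_add]
      _ ≤ Real.exp (t ^ (1 - η / 2)) := Real.exp_le_exp.mpr (by linarith)
  · have h2 := Nat.lt_floor_add_one (Real.exp (t ^ (1 - η)))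
    linarith

open Classical in
theorem fullK7 {m : ℕ} (κ : Fin m → ℕ) (hκ : ∀ i, 1 ≤ κ i) (A : ℕ) (ε : ℝ) (hε : 0 < ε) : ∃ η : ℝ, 0 < η ∧ η < 1 ∧ ∃ x0 : ℝ,
    ∀ Y H : ℕ, x0 ≤ Y → Real.exp ((Real.log Y) ^ (1 - η)) ≤ H → H ≤ Y →
      ∀ b : Fin m → ℕ, (∀ i, (κ i = 1 → b i = 0) ∧ (κ i ≠ 1 → b i + H ≤ Y)) →
      (((box b fun i => if κ i = 1 then Y else H).filter fun h => ¬ (Function.Injective h ∧ ((∀ p : ℕ, p.Prime → nu h p < p) →
        |(cntO Y κ h : ℝ) - HL h * (Y / (Real.log Y) ^ (m + 1)) *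
            ∏ i, (Real.log (Real.log Y)) ^ (κ i - 1) / (Nat.factorial (κ i - 1) : ℝ)| ≤
          ε * (HL h * (Y / (Real.log Y) ^ (m + 1)) *
            ∏ i, (Real.log (Real.log Y)) ^ (κ i - 1) / (Nat.factorial (κ i - 1) : ℝ))))).card : ℝ) ≤
          (∏ i, ((if κ i = 1 then Y else H : ℕ) : ℝ)) / (Real.log Y) ^ A := by
  set Λ : ℝ := ∏ i, 1 / ((Nat.factorial (κ i - 1) : ℕ) : ℝ) with hΛdef
  have hΛ : 0 < Λ := Finset.prod_pos fun i _ => by positivity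
  obtain ⟨s, hs, hpos⟩ := pos m
  obtain ⟨c10, hG⟩ := tuplesG κ hκ A
  obtain ⟨C, hG⟩ := hG c10 le_rfl
  obtain ⟨M', hR⟩ := rest7 κ hκ
  set B : ℝ := 1 / (s * Λ) + 4 + 1 / Λ with hB
  have hB0 : 0 < B := by positivity
  set ε1 : ℝ := min (1 / 2) (ε / B) with hε1def
  have hε1 : 0 < ε1 := lt_min (by norm_num) (by positivity)
  have hε1h : ε1 ≤ 1 / 2 := min_le_left _ _
  have hε1B : ε1 * B ≤ ε := (le_div_iff₀ hB0).mp (min_le_right _ _)
  obtain ⟨M, x0, hG⟩ := hG ε1 hε1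
  obtain ⟨η0, hη0, hR⟩ := hR (c10 + 2) ε1 hε1
  set K : ℕ := ∑ i, (κ i - 1) with hK
  set η1 : ℝ := min (min η0 (1 / 2)) (ε1 / ((K : ℝ) + 1)) with hη1def
  have hη1 : 0 < η1 := lt_min (lt_min hη0 (by norm_num)) (by positivity)
  have hη1a : η1 ≤ η0 := (min_le_left _ _).trans (min_le_left _ _)
  have hη1b : η1 ≤ 1 / 2 := (min_le_left _ _).trans (min_le_right _ _)
  have hη1c : η1 * ((K : ℝ) + 1) ≤ ε1 := (le_div_iff₀ (by positivity)).mp (min_le_right _ _)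
  obtain ⟨x1, hR⟩ := hR η1 hη1 hη1a
  have hD := densT7 κ hκ (c10 + 2) (by omega) η1 hη1 (by linarith)
  have hprod : ∏ i, (1 - η1) ^ (κ i - 1) / (Nat.factorial (κ i - 1) : ℝ) = (1 - η1) ^ K * Λ := by
    rw [hΛdef, hK, ← Finset.prod_pow_eq_pow_sum, ← Finset.prod_mul_distrib]
    exact Finset.prod_congr rfl fun i _ => by rw [one_div, div_eq_mul_inv]
  rw [hprod] at hD
  have hbern : 1 - ε1 ≤ (1 - η1) ^ K := by
    have h1 := one_add_mul_le_pow (a := -η1) (by linarith) K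
    have h2 : (1 + -η1) = 1 - η1 := by ring
    rw [h2] at h1
    nlinarith
  have hone : (1 - η1) ^ K ≤ 1 := pow_le_one₀ (by linarith) (by linarith)
  have hD2 : ∀ᶠ Y : ℕ in atTop, |dens ⌊(Real.log Y) ^ (c10 + 2)⌋₊ ⌊Real.exp ((Real.log Y) ^ (1 - η1))⌋₊ κ /
      (Real.log (Real.log Y)) ^ K - (1 - η1) ^ K * Λ| < ε1 * Λ := by
    have := (Metric.tendsto_nhds.mp hD) (ε1 * Λ) (mul_pos hε1 hΛ)
    simpa only [Real.dist_eq] using this
  obtain ⟨N0, hN0⟩ := eventually_atTop.mp (hD2.and (yfin_ev c10 C M M' η1 hη1 hη1b))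
  refine ⟨η1 / 2, by linarith, by linarith, max (max x0 x1) N0, ?_⟩
  intro Y H hY hYH hHY b hb
  have hYx0 : x0 ≤ Y := (le_max_left _ _).trans ((le_max_left _ _).trans hY)
  have hYx1 : x1 ≤ Y := (le_max_right _ _).trans ((le_max_left _ _).trans hY)
  have hYN : N0 ≤ Y := by exact_mod_cast (le_max_right (max x0 x1) (N0 : ℝ)).trans hY
  obtain ⟨hd, hY1, hll, hl1, hw1, hw2, hw3, hw4, hw5, hw6⟩ := hN0 Y hYN
  set w : ℕ := ⌊(Real.log Y) ^ (c10 + 2)⌋₊ with hw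
  set w' : ℕ := ⌊Real.exp ((Real.log Y) ^ (1 - η1))⌋₊ with hw'
  refine le_trans ?_ (hG Y w w' H hYx0 ⟨hw1, hw2, hw3⟩ (hw5.trans hYH) hHY b hb)
  have hwc : (w : ℝ) ≤ (Real.log Y) ^ (c10 + 2) := Nat.floor_le (by positivity)
  norm_cast
  refine Finset.card_le_card fun h hh => ?_
  rw [mem_filter] at hh ⊢
  refine ⟨hh.1, fun hgood => hh.2 ⟨hgood.1, fun hadm => ?_⟩⟩
  have hbox : ∀ i, 1 ≤ h i ∧ h i ≤ Y := by
    intro i
    have hm := Fintype.mem_piFinset.mp hh.1 i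
    rw [mem_Ioc] at hm
    beta_reduce at hm
    by_cases hi : κ i = 1
    · rw [if_pos hi, (hb i).1 hi] at hm
      omega
    · rw [if_neg hi] at hm
      have := (hb i).2 hi
      omega
  have hHL := hpos h hgood.1 (fun i => (hbox i).1) hadm
  have hr := hR Y w w' hYx1 hw2 hwc hw6 hw4 h hgood.1 hbox hadm
  set LK : ℝ := (Real.log (Real.log Y)) ^ K with hLK
  have hLK1 : 1 ≤ LK := one_le_pow₀ hll
  have hT : ∏ i, (Real.log (Real.log Y)) ^ (κ i - 1) / (Nat.factorial (κ i - 1) : ℝ) = Λ * LK := by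
    rw [hΛdef, hLK, hK, ← Finset.prod_pow_eq_pow_sum, ← Finset.prod_mul_distrib]
    exact Finset.prod_congr rfl fun i _ => by rw [one_div, div_eq_mul_inv, mul_comm]
  have hy : (0 : ℝ) ≤ (Y : ℝ) / (Real.log Y) ^ (m + 1) := by positivity
  have hdl : |dens w w' κ / LK - Λ| ≤ 2 * ε1 * Λ := by
    have h6 : dens w w' κ / LK - Λ = (dens w w' κ / LK - (1 - η1) ^ K * Λ) + ((1 - η1) ^ K * Λ - Λ) := by ring
    rw [h6]
    refine (abs_add_le _ _).trans ?_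
    have h7 : |(1 - η1) ^ K * Λ - Λ| ≤ ε1 * Λ := by
      rw [abs_le]
      constructor
      · nlinarith [mul_le_mul_of_nonneg_right hbern hΛ.le]
      · nlinarith [mul_le_mul_of_nonneg_right hone hΛ.le, mul_pos hε1 hΛ]
    linarith [hd.le]
  have hdd : |dens w w' κ - Λ * LK| ≤ 2 * ε1 * (Λ * LK) := by
    have h6 : dens w w' κ - Λ * LK = (dens w w' κ / LK - Λ) * LK := by
      field_simp
    rw [h6, abs_mul, abs_of_pos (by linarith : (0 : ℝ) < LK)]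
    have := mul_le_mul_of_nonneg_right hdl (by linarith : (0 : ℝ) ≤ LK)
    linarith
  have hΛL : 0 ≤ Λ * LK := by positivity
  have h5 : |dens w w' κ - Λ * LK| ≤ Λ * LK := by
    refine hdd.trans ?_
    have := mul_le_mul_of_nonneg_right (by linarith : 2 * ε1 ≤ 1) hΛL
    linarith
  have hfin := yfin_alg hs hHL hΛ hLK1 rfl hy hε1 hr.1 hr.2 hgood.2 hdd h5
  rw [hT]
  rw [← hB] at hfin
  refine hfin.trans (mul_le_mul_of_nonneg_right hε1B ?_)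
  have hHv0 : 0 ≤ HL h := by linarith
  positivity

end Pool.Agent.Lib.VKT
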