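import Pool.Agent.Lib.VK.YDef
import Pool.Agent.Lib.VK.XSp

/-!
# VK / YSp (P7): the part of `n` at the primes `≤ z` (variant of `smo_exc`)

PROOF. As `smo_exc` in XSp (copy its proof; its private lemmas may be copied), with the list `L` of the prime factors `≤ z`: `length L + 1 ≤ k` and `smo z n ≤ z^k` as before. Third claim,
contrapositive: if `length L = k - 1`, all primes of `L` are in `(w, w']` and `L.prod` is squarefree then the other list has one element `r > z ≥ w' ≥ w`, so `n = smo z n * r` is squarefree with exactly `k`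
prime factors, all `> w`, and only `r` is `> w'`: `EE k w w' n`.
-/

set_option autoImplicit false

open Finset Filter

namespace Pool.Agent.Lib.VKT

open Pool.Agent.Lib.G5 (EE)

theorem smo_exc7 {k w w' z n : ℕ} (hz1 : 1 ≤ z) (hw : w ≤ w') (hz : w' ≤ z) (hn : z ^ k < n) (hl : n.primeFactorsList.length = k) :
    (smo z n).primeFactorsList.length + 1 ≤ k ∧ smo z n ≤ z ^ k ∧
      (¬ EE k w w' n → (smo z n).primeFactorsList.length + 2 ≤ k ∨ (∃ p ∈ (smo z n).primeFactors, p ≤ w ∨ w' < p) ∨
        ¬ Squarefree (smo z n)) :=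
  xsp_gen hz1 hw hz hn hl

end Pool.Agent.Lib.VKT
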