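import Pool.Agent.Lib.VK.Hu
import Pool.Agent.Lib.VK.Ht
import Pool.Agent.Lib.VK.Vmv

/-!
# VK, interface ZS: sums of `n^(it)` over progressions, `n ≥ exp((log X)^(1-δ))`
-/

set_option autoImplicit false

open Finset

namespace Pool.Agent.Lib.VK

open Pool.Agent.Lib.DN (nt)

theorem zs : ∃ δ : ℝ, 0 < δ ∧ δ < 1 ∧ ∀ A B : ℕ, ∃ (C : ℕ) (x0 : ℝ), ∀ X : ℕ, x0 ≤ X → ∀ (t : ℝ) (a b r s : ℕ),
    1 ≤ r → (r : ℝ) ≤ (Real.log X) ^ B → s < r → (Real.log X) ^ C ≤ |t| → |t| ≤ (X : ℝ) ^ 2 →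
    Real.exp ((Real.log X) ^ (1 - δ)) ≤ a → b ≤ 2 * a →
    ‖∑ n ∈ (Ioc a b).filter (fun n => n % r = s), nt t n‖ ≤ a / (r * (Real.log X) ^ A) :=
  zs_of (fun A => vkc (fun k M hk hM => vmv k M hk hM) A)

end Pool.Agent.Lib.VK
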